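import Pool.Agent.H79.OC.Estep

set_option autoImplicit false

/-!
# Grouping of the pairs by distance

`pd` depends only on the key of the difference, `dd` only on `ckey`. If `(cs.map ckey).Nodup`, all keys of the pairs are in
`cs.map ckey` and the sum of the weights with key `ckey c` is `mp - mm`, the two sums agree (induction or `Finset` fiberwise sums).
-/

namespace Pool.Agent.H79.OC

open Pool.Agent.H79.DF (J0)

/-- The distance with a given key. -/
noncomputable def Agg_D (x y : ℝ) (k : ℤ × ℤ × ℕ) : ℝ :=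
  Real.sqrt (((k.1 : ℝ) + (k.2.1 : ℝ) * x) ^ 2 + ((k.2.2 : ℝ) * y) ^ 2)

theorem Agg_natAbs_sq (a : ℤ) (y : ℝ) : (((a.natAbs : ℕ) : ℝ) * y) ^ 2 = ((a : ℝ) * y) ^ 2 := by
  have h : ((a.natAbs : ℕ) : ℝ) ^ 2 = (a : ℝ) ^ 2 := by
    rw [Nat.cast_natAbs, Int.cast_abs, sq_abs]
  rw [mul_pow, mul_pow, h]

theorem Agg_abs_sq (a : ℤ) (x : ℝ) :
    (((0 : ℤ) : ℝ) + ((|a| : ℤ) : ℝ) * x) ^ 2 = (((0 : ℤ) : ℝ) + (a : ℝ) * x) ^ 2 := by
  have h : (((|a| : ℤ)) : ℝ) ^ 2 = (a : ℝ) ^ 2 := by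
    rw [Int.cast_abs, sq_abs]
  simp only [Int.cast_zero, zero_add]
  rw [mul_pow, mul_pow, h]

theorem Agg_pd (ct : Cert) (x y : ℝ) (m n : ℕ) :
    pd ct x y m n = Agg_D x y (key (sub3 (ct.pt m) (ct.pt n))) := by
  unfold pd Agg_D
  generalize sub3 (ct.pt m) (ct.pt n) = p
  obtain ⟨i, j, t⟩ := p
  unfold key
  simp only
  split_ifs with h1 h2
  · simp only
    rw [Agg_natAbs_sq]
    push_cast
    rfl
  · subst h2
    simp only
    rw [Agg_natAbs_sq, Agg_abs_sq]
    push_cast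
    rfl
  · simp only
    rw [Agg_natAbs_sq]
    push_cast
    congr 1
    ring

theorem Agg_dd (c : Cl) (x y : ℝ) : dd c x y = Agg_D x y (ckey c) := by
  unfold dd Agg_D ckey
  push_cast
  rfl

theorem Agg_agg_cons (e : (ℤ × ℤ × ℕ) × ℤ) (l : List ((ℤ × ℤ × ℕ) × ℤ)) (k : ℤ × ℤ × ℕ) :
    agg (e :: l) k = (if e.1 = k then e.2 else 0) + agg l k := by
  unfold agg
  by_cases h : e.1 = k
  · rw [List.filter_cons_of_pos (by simpa using h), List.map_cons, List.sum_cons, if_pos h]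
  · rw [List.filter_cons_of_neg (by simpa using h), if_neg h, zero_add]

theorem Agg_one (ks : List (ℤ × ℤ × ℕ)) (hn : ks.Nodup) (a : ℤ × ℤ × ℕ) (ha : a ∈ ks) (v : ℤ)
    (F : ℤ × ℤ × ℕ → ℝ) :
    (ks.map fun k => (((if a = k then v else 0 : ℤ)) : ℝ) * F k).sum = (v : ℝ) * F a := by
  rw [← List.sum_toFinset _ hn, Finset.sum_eq_single a]
  · rw [if_pos rfl]
  · intro b _ hb
    rw [if_neg (fun h => hb h.symm), Int.cast_zero, zero_mul]
  · intro h
    exact absurd (List.mem_toFinset.2 ha) h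

theorem Agg_sum (ks : List (ℤ × ℤ × ℕ)) (hn : ks.Nodup) (F : ℤ × ℤ × ℕ → ℝ)
    (l : List ((ℤ × ℤ × ℕ) × ℤ)) (hl : ∀ e ∈ l, e.1 ∈ ks) :
    (l.map fun e => (e.2 : ℝ) * F e.1).sum = (ks.map fun k => (agg l k : ℝ) * F k).sum := by
  induction l with
  | nil =>
    have h : ∀ k : ℤ × ℤ × ℕ, agg [] k = 0 := fun _ => rfl
    simp only [h, Int.cast_zero, zero_mul, List.map_nil, List.sum_nil]
    exact (List.sum_eq_zero (by simp)).symm
  | cons e l ih =>
    have h1 : (fun k => (agg (e :: l) k : ℝ) * F k) =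
        fun k => (((if e.1 = k then e.2 else 0 : ℤ)) : ℝ) * F k + (agg l k : ℝ) * F k := by
      funext k
      rw [Agg_agg_cons, Int.cast_add, add_mul]
    rw [h1, List.sum_map_add, Agg_one ks hn e.1 (hl e List.mem_cons_self) e.2 F,
      List.map_cons, List.sum_cons, ih (fun e' he' => hl e' (List.mem_cons_of_mem _ he'))]

theorem link_sum (ct : Cert) (cs : List Cl) (h : linkOK ct cs = true) (x y : ℝ) (g : ℝ → ℝ) :
    (ct.be.map fun e => (e.2.2 : ℝ) * g (pd ct x y e.1 e.2.1)).sum =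
      (cs.map fun c => wt c * g (dd c x y)).sum := by
  unfold linkOK at h
  rw [Bool.and_eq_true, Bool.and_eq_true, decide_eq_true_iff] at h
  obtain ⟨hn, h1, h2⟩ := h
  rw [List.all_eq_true] at h1 h2
  have e1 : (ct.be.map fun e => (e.2.2 : ℝ) * g (pd ct x y e.1 e.2.1)) =
      (keyL ct).map fun e => (e.2 : ℝ) * g (Agg_D x y e.1) := by
    unfold keyL
    rw [List.map_map]
    refine List.map_congr_left fun e _ => ?_
    simp only [Function.comp_apply]
    rw [Agg_pd]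
  rw [e1, Agg_sum (cs.map ckey) hn (fun k => g (Agg_D x y k)) (keyL ct)
    (fun e he => decide_eq_true_iff.1 (h1 e he)), List.map_map]
  congr 1
  refine List.map_congr_left fun c hc => ?_
  have h3 := decide_eq_true_iff.1 (h2 c hc)
  simp only [Function.comp_apply]
  rw [h3, Agg_dd]
  unfold wt
  push_cast
  rfl

end Pool.Agent.H79.OC
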