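import Pool.Agent.H79.DF.Main

set_option autoImplicit false

/-!
# The lower bound from the positivity of the kernel, also for distance 0

`kc_facts` (DF/Main.lean): `kc` continuous, positive definite, `kc = K` on `r > 0`, `0 ≤ kc 0 ≤ K 0`. `bochner` (DF/B3.lean) with
weights `-C` and `A = κ` gives `-κ kc 0 ≤ ∑ C kc (d)`. Further `∑ C K (d) = ∑ C kc (d) + (K 0 - kc 0) ∑_{d = 0} C`, and
`∑_{d = 0} C ≥ -κ` by `s → ∞` in `h` (`J0 (s d) → 0` for `d > 0`, from `num_tail` in DF/Num.lean). Lists: use `List.get`/`Fin l.length` for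
`bochner` or `List.sum` with `List.ofFn`.
-/

namespace Pool.Agent.H79.OC

open Pool.Agent.H93.EG (PD)
open Pool.Agent.H79.DF (J0)

theorem Boch_J0_tendsto : Filter.Tendsto J0 Filter.atTop (nhds 0) := by
  rw [Metric.tendsto_atTop]
  intro ε hε
  refine ⟨max 8 (0.64 / (ε / 2) ^ 2), fun x hx => ?_⟩
  have h8 : (8 : ℝ) ≤ x := (le_max_left _ _).trans hx
  have h9 : 0.64 / (ε / 2) ^ 2 ≤ x := (le_max_right _ _).trans hx
  have hpos : 0 < (ε / 2) ^ 2 := by positivity
  have h10 : 0.64 ≤ (ε / 2) ^ 2 * x := by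
    rw [div_le_iff₀ hpos] at h9
    linarith
  have h11 := Pool.Agent.H79.DF.num_tail h8 (by positivity : (0 : ℝ) ≤ ε / 2) h10
  rw [Real.dist_eq, sub_zero]
  linarith

theorem Boch_term (C δ : ℝ) (hδ : 0 ≤ δ) :
    Filter.Tendsto (fun s : ℝ => C * J0 (s * δ)) Filter.atTop
      (nhds (if δ = 0 then C else 0)) := by
  split_ifs with h
  · subst h
    simp only [mul_zero, Pool.Agent.H79.DF.J0_zero, mul_one]
    exact tendsto_const_nhds
  · have hδ' : 0 < δ := lt_of_le_of_ne hδ (Ne.symm h)
    have h1 : Filter.Tendsto (fun s : ℝ => s * δ) Filter.atTop Filter.atTop :=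
      Filter.tendsto_id.atTop_mul_const hδ'
    have h2 := (Boch_J0_tendsto.comp h1).const_mul C
    simpa using h2

theorem bochner_low (K : ℝ → ℝ) (hPD : PD (fun z : ℂ => K ‖z‖)) {ι : Type} (l : List ι)
    (C d : ι → ℝ) (hd : ∀ i ∈ l, 0 ≤ d i) (κ : ℝ)
    (h : ∀ s : ℝ, 0 ≤ s → -κ ≤ (l.map fun i => C i * J0 (s * d i)).sum) :
    -κ * K 0 ≤ (l.map fun i => C i * K (d i)).sum := by
  obtain ⟨kc, hc, hpos, hPDc, hkc0, hkc1⟩ := Pool.Agent.H79.DF.kc_facts K hPD
  -- the positivity for the continuous part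
  have hb : -κ * kc 0 ≤ (l.map fun i => C i * kc (d i)).sum := by
    have h1 := Pool.Agent.H79.DF.bochner hc hPDc (ι := Fin l.length) (fun i => -C l[i.1])
      (fun i => d l[i.1]) (fun i => hd _ (List.getElem_mem _)) κ (by
        intro s hs
        have h2 := h s hs
        have h3 := Fin.sum_univ_fun_getElem l (fun i => C i * J0 (s * d i))
        rw [← h3] at h2
        have h4 : ∑ i : Fin l.length, -C l[i.1] * J0 (d l[i.1] * s) =
            -∑ i : Fin l.length, C l[i.1] * J0 (s * d l[i.1]) := by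
          rw [← Finset.sum_neg_distrib]
          refine Finset.sum_congr rfl fun i _ => ?_
          rw [mul_comm (d l[i.1]) s]
          ring
        rw [h4]
        linarith)
    have h3 := Fin.sum_univ_fun_getElem l (fun i => C i * kc (d i))
    rw [← h3]
    have h4 : ∑ i : Fin l.length, -C l[i.1] * kc (d l[i.1]) =
        -∑ i : Fin l.length, C l[i.1] * kc (d l[i.1]) := by
      rw [← Finset.sum_neg_distrib]
      refine Finset.sum_congr rfl fun i _ => ?_
      ring
    rw [h4] at h1
    linarith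
  -- the weights at distance zero
  have hZ : -κ ≤ (l.map fun i => if d i = 0 then C i else 0).sum := by
    have h1 : Filter.Tendsto (fun s : ℝ => (l.map fun i => C i * J0 (s * d i)).sum) Filter.atTop
        (nhds (l.map fun i => if d i = 0 then C i else 0).sum) :=
      tendsto_list_sum l fun i hi => Boch_term (C i) (d i) (hd i hi)
    refine ge_of_tendsto h1 ?_
    filter_upwards [Filter.eventually_ge_atTop (0 : ℝ)] with s hs
    exact h s hs
  have hsum : (l.map fun i => C i * K (d i)).sum = (l.map fun i => C i * kc (d i)).sum +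
      (K 0 - kc 0) * (l.map fun i => if d i = 0 then C i else 0).sum := by
    have e1 : (l.map fun i => C i * K (d i)) = l.map fun i => C i * kc (d i) +
        (K 0 - kc 0) * (if d i = 0 then C i else 0) := by
      refine List.map_congr_left fun i hi => ?_
      rcases eq_or_lt_of_le (hd i hi) with h0 | h0
      · rw [← h0, if_pos rfl]
        ring
      · rw [hpos _ h0, if_neg h0.ne']
        ring
    rw [e1, List.sum_map_add, List.sum_map_mul_left]
  rw [hsum]
  have h5 := mul_le_mul_of_nonneg_left hZ (sub_nonneg.2 hkc1)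
  linarith

end Pool.Agent.H79.OC
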