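import Pool.Agent.H79.OC.Pts
import Pool.Agent.H79.OC.VTab

set_option autoImplicit false
set_option maxRecDepth 100000

/-!
# Certificates, part 1
-/

namespace Pool.Agent.H79.OC

open Cl

/-! ### Box 0: `96 ≤ -128 x ≤ 112`, `48 ≤ 128 y ≤ 64` -/

/-- certificate -/
def ct0 : Cert where
  pts := pts14
  g := 3012
  al := [(0, 85), (1, 576), (2, 576), (3, 1381), (4, -428), (5, -318), (6, -318), (7, -1512), (8, 1101), (9, 611), (10, 611), (11, -33), (12, 595), (13, 595)]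
  be := [
    (1, 0, -98), (2, 0, -98), (2, 1, -684), (3, 0, -495), (3, 1, -376), (3, 2, -376), (4, 0, 616),
    (4, 1, 617), (4, 2, 617), (4, 3, -857), (5, 0, -178), (5, 1, 2020), (5, 2, 411), (5, 3, 929),
    (5, 4, 1264), (6, 0, -178), (6, 1, 411), (6, 2, 2020), (6, 3, 929), (6, 4, 1264), (6, 5, -527),
    (7, 0, 218), (7, 1, 387), (7, 2, 387), (7, 3, 1194), (7, 4, 1075), (7, 5, 1697), (7, 6, 1697),
    (8, 0, 164), (8, 1, -456), (8, 2, -456), (8, 3, -773), (8, 4, 933), (8, 5, 403), (8, 6, 403),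
    (8, 7, -479), (9, 0, 12), (9, 1, -153), (9, 2, -208), (9, 3, -546), (9, 4, 114), (9, 5, 208),
    (9, 6, -223), (9, 7, 789), (9, 8, -61), (10, 0, 12), (10, 1, -208), (10, 2, -153), (10, 3, -546),
    (10, 4, 114), (10, 5, -223), (10, 6, 208), (10, 7, 789), (10, 8, -61), (10, 9, -1168), (11, 0, 69),
    (11, 1, -10), (11, 2, -10), (11, 3, 197), (11, 4, 108), (11, 5, -324), (11, 6, -324), (11, 7, 949),
    (11, 8, -409), (11, 9, 22), (11, 10, 22), (12, 0, 16), (12, 1, 300), (12, 2, -337), (12, 3, -285),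
    (12, 4, -538), (12, 5, -328), (12, 6, -395), (12, 7, 42), (12, 8, -185), (12, 9, -84), (12, 10, 137),
    (12, 11, 89), (13, 0, 16), (13, 1, -337), (13, 2, 300), (13, 3, -285), (13, 4, -538), (13, 5, -395),
    (13, 6, -328), (13, 7, 42), (13, 8, -185), (13, 9, 137), (13, 10, -84), (13, 11, 89), (13, 12, -152)]
  ta := [
    ((3, 2, 1), (0, 1, 2), 868), ((4, 5, 6), (0, 1, 2), -763), ((7, 6, 5), (0, 1, 2), -758), ((8, 9, 10), (0, 1, 2), 781),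
    ((11, 10, 9), (0, 1, 2), 78), ((5, 4, 12), (0, 1, 2), -123), ((6, 13, 4), (0, 1, 2), -123), ((3, 2, 0), (0, 1, 3), -25),
    ((4, 5, 7), (0, 1, 3), -45), ((7, 6, 4), (0, 1, 3), -45), ((8, 9, 11), (0, 1, 3), 70), ((11, 10, 8), (0, 1, 3), 70),
    ((6, 5, 3), (1, 2, 4), -260), ((5, 6, 8), (1, 2, 4), 60), ((10, 9, 7), (1, 2, 4), 227), ((4, 12, 1), (1, 2, 4), -100),
    ((13, 4, 2), (1, 2, 4), -100), ((7, 4, 3), (0, 3, 4), 510), ((4, 7, 8), (0, 3, 4), 136), ((11, 8, 7), (0, 3, 4), -275),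
    ((6, 4, 3), (1, 3, 4), 35), ((5, 7, 8), (1, 3, 4), 21), ((10, 8, 7), (1, 3, 4), -68), ((5, 4, 3), (2, 3, 4), 35),
    ((6, 7, 8), (2, 3, 4), 21), ((9, 8, 7), (2, 3, 4), -68), ((5, 4, 0), (0, 1, 5), 136), ((2, 3, 7), (0, 1, 5), -536),
    ((7, 6, 2), (0, 1, 5), -443), ((4, 5, 9), (0, 1, 5), -3), ((9, 8, 4), (0, 1, 5), -330), ((6, 7, 11), (0, 1, 5), -109),
    ((11, 10, 6), (0, 1, 5), 5), ((13, 6, 10), (0, 1, 5), 1190), ((7, 5, 2), (0, 2, 5), -380), ((4, 6, 9), (0, 2, 5), 41),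
    ((11, 9, 6), (0, 2, 5), 90), ((5, 12, 0), (0, 2, 5), 10), ((10, 8, 13), (0, 2, 5), 9), ((6, 5, 2), (1, 2, 5), -489),
    ((5, 6, 9), (1, 2, 5), 212), ((10, 9, 6), (1, 2, 5), 260), ((4, 12, 0), (1, 2, 5), 118), ((4, 13, 8), (1, 2, 5), 255),
    ((7, 4, 2), (0, 3, 5), -413), ((4, 7, 9), (0, 3, 5), -325), ((11, 8, 6), (0, 3, 5), 335), ((5, 4, 2), (2, 3, 5), -365),
    ((6, 7, 9), (2, 3, 5), -307), ((9, 8, 6), (2, 3, 5), -157), ((0, 1, 12), (2, 3, 5), 185), ((13, 6, 8), (2, 3, 5), 759),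
    ((7, 6, 1), (0, 1, 6), -380), ((4, 5, 10), (0, 1, 6), 41), ((11, 10, 5), (0, 1, 6), 90), ((9, 8, 12), (0, 1, 6), 9),
    ((6, 13, 0), (0, 1, 6), 10), ((6, 4, 0), (0, 2, 6), 136), ((1, 3, 7), (0, 2, 6), -536), ((7, 5, 1), (0, 2, 6), -443),
    ((4, 6, 10), (0, 2, 6), -3), ((10, 8, 4), (0, 2, 6), -330), ((5, 7, 11), (0, 2, 6), -109), ((11, 9, 5), (0, 2, 6), 5),
    ((12, 5, 9), (0, 2, 6), 1190), ((6, 5, 1), (1, 2, 6), -489), ((5, 6, 10), (1, 2, 6), 212), ((10, 9, 5), (1, 2, 6), 260),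
    ((12, 4, 8), (1, 2, 6), 255), ((13, 4, 0), (1, 2, 6), 118), ((7, 4, 1), (0, 3, 6), -413), ((4, 7, 10), (0, 3, 6), -325),
    ((11, 8, 5), (0, 3, 6), 335), ((6, 4, 1), (1, 3, 6), -365), ((5, 7, 10), (1, 3, 6), -307), ((10, 8, 5), (1, 3, 6), -157),
    ((12, 5, 8), (1, 3, 6), 759), ((0, 2, 13), (1, 3, 6), 185), ((1, 2, 7), (6, 5, 0), 268), ((10, 9, 4), (6, 5, 0), 119),
    ((5, 6, 11), (6, 5, 0), -122), ((12, 4, 9), (6, 5, 0), 49), ((4, 13, 10), (6, 5, 0), 49), ((7, 6, 0), (0, 1, 7), 189),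
    ((4, 5, 11), (0, 1, 7), 219), ((11, 10, 4), (0, 1, 7), -173), ((7, 5, 0), (0, 2, 7), 189), ((4, 6, 11), (0, 2, 7), 219),
    ((11, 9, 4), (0, 2, 7), -173), ((7, 4, 0), (0, 3, 7), -364), ((4, 7, 11), (0, 3, 7), -309), ((11, 8, 4), (0, 3, 7), 262),
    ((9, 8, 1), (0, 1, 8), 93), ((2, 3, 10), (0, 1, 8), 137), ((11, 10, 3), (0, 1, 8), -88), ((1, 3, 9), (0, 2, 8), 137),
    ((10, 8, 2), (0, 2, 8), 93), ((11, 9, 3), (0, 2, 8), -88), ((10, 9, 3), (1, 2, 8), -132), ((11, 8, 3), (0, 3, 8), -24),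
    ((10, 8, 3), (1, 3, 8), -26), ((9, 8, 3), (2, 3, 8), -26), ((1, 5, 9), (0, 4, 8), 63), ((2, 6, 10), (0, 4, 8), 63),
    ((3, 7, 11), (0, 4, 8), -67), ((8, 5, 1), (1, 4, 8), -317), ((3, 6, 10), (1, 4, 8), -77), ((10, 7, 3), (1, 4, 8), 240),
    ((8, 6, 2), (2, 4, 8), -317), ((3, 5, 9), (2, 4, 8), -77), ((9, 7, 3), (2, 4, 8), 240), ((8, 7, 3), (3, 4, 8), 12),
    ((1, 4, 9), (8, 5, 0), -75), ((10, 7, 2), (8, 5, 0), -112), ((3, 6, 11), (8, 5, 0), 49), ((2, 13, 10), (8, 5, 0), 88),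
    ((9, 6, 3), (2, 5, 8), 111), ((8, 13, 2), (2, 5, 8), -79), ((9, 7, 1), (8, 6, 0), -112), ((2, 4, 10), (8, 6, 0), -75),
    ((3, 5, 11), (8, 6, 0), 49), ((1, 12, 9), (8, 6, 0), 88), ((3, 5, 10), (8, 6, 1), 111), ((1, 12, 8), (8, 6, 1), -79),
    ((3, 4, 11), (8, 7, 0), 1), ((3, 4, 10), (8, 7, 1), 25), ((3, 4, 9), (8, 7, 2), 25), ((9, 8, 0), (0, 1, 9), 22),
    ((2, 3, 11), (0, 1, 9), -70), ((11, 10, 2), (0, 1, 9), 35), ((11, 9, 2), (0, 2, 9), 3), ((10, 9, 2), (1, 2, 9), 67),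
    ((11, 8, 2), (0, 3, 9), 4), ((9, 8, 2), (2, 3, 9), -53), ((9, 5, 0), (0, 4, 9), 29), ((2, 6, 11), (0, 4, 9), 194),
    ((11, 7, 2), (0, 4, 9), -147), ((9, 7, 2), (2, 4, 9), -129), ((9, 6, 2), (2, 5, 9), 67), ((2, 5, 11), (9, 6, 0), 29),
    ((0, 12, 9), (9, 6, 0), -14), ((2, 5, 10), (9, 6, 1), 79), ((0, 12, 8), (9, 6, 1), -79), ((8, 13, 0), (9, 6, 1), -79),
    ((2, 4, 11), (9, 7, 0), 65), ((11, 10, 1), (0, 1, 10), 3), ((10, 8, 0), (0, 2, 10), 22), ((1, 3, 11), (0, 2, 10), -70),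
    ((11, 9, 1), (0, 2, 10), 35), ((10, 9, 1), (1, 2, 10), 67), ((11, 8, 1), (0, 3, 10), 4), ((10, 8, 1), (1, 3, 10), -53),
    ((10, 6, 0), (0, 4, 10), 29), ((1, 5, 11), (0, 4, 10), 194), ((11, 7, 1), (0, 4, 10), -147), ((10, 7, 1), (1, 4, 10), -129),
    ((11, 6, 1), (0, 5, 10), 29), ((10, 13, 0), (0, 5, 10), -14), ((10, 6, 1), (1, 5, 10), -67), ((1, 4, 11), (10, 7, 0), 65),
    ((1, 2, 11), (10, 9, 0), -48), ((11, 10, 0), (0, 1, 11), -15), ((11, 9, 0), (0, 2, 11), -15), ((11, 8, 0), (0, 3, 11), 26),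
    ((11, 7, 0), (0, 4, 11), -75), ((5, 12, 2), (0, 2, 12), -137), ((4, 12, 2), (1, 2, 12), 179), ((5, 12, 3), (1, 3, 12), -270),
    ((12, 6, 9), (6, 12, 0), 152), ((12, 6, 8), (6, 12, 1), 270), ((6, 5, 12), (12, 4, 6), -161), ((12, 7, 9), (7, 12, 1), 27),
    ((10, 9, 12), (12, 4, 10), 57), ((10, 8, 12), (12, 5, 10), -137), ((11, 9, 12), (12, 5, 11), -31), ((6, 13, 1), (0, 1, 13), -137),
    ((13, 4, 1), (1, 2, 13), 179), ((6, 13, 3), (2, 3, 13), -270), ((5, 13, 10), (13, 5, 0), 152), ((5, 13, 8), (13, 5, 2), 270),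
    ((6, 13, 5), (4, 5, 13), -161), ((13, 7, 10), (7, 13, 2), 27), ((10, 9, 13), (4, 13, 9), 57), ((9, 8, 13), (13, 6, 9), -137),
    ((11, 10, 13), (13, 6, 11), -31), ((12, 13, 8), (13, 12, 0), 152)]
  tr := tr14
  big := 1048576

theorem ct0_valid : validC ct0 = true := by decide +kernel

theorem ct0_const : constOK ct0 4318 = true := by decide +kernel

/-- classes -/
def cs0 : List Cl := [
 cl 0 1 0 1 4240 0 130, cl 0 2 0 0 171 0 97, cl 1 0 0 0 8148 0 119, cl 1 1 0 1 0 170 189,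
 cl 1 2 0 0 326 0 168, cl 2 0 0 0 55 0 84, cl 2 1 0 1 4 0 109, cl 2 2 0 0 69 0 237,
 cl 1 0 0 2 38 0 106, cl 0 0 0 2 0 3455 137, cl 1 0 1 1 6076 0 89, cl 2 0 1 1 0 2004 72,
 cl 2 0 0 2 0 416 82, cl 1 0 1 3 0 674 83, cl 1 0 2 0 0 1336 75, cl 2 0 2 0 0 773 64,
 cl 1 0 2 2 0 570 74, cl 0 1 0 3 0 790 102, cl 0 2 0 2 84 0 92, cl 1 1 0 3 274 0 112,
 cl 1 2 0 2 178 0 125, cl 0 0 0 4 0 152 97]

theorem ct0_link : linkOK ct0 cs0 = true := by decide +kernel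

theorem cs0_tail : tailOK cs0 96 16 48 4318 = true := by decide +kernel

theorem cs0_grid : gridOK vtTree cs0 96 16 48 16 0 5385598080 6738 4318 = true := by
  decide +kernel

/-! ### Box 1: `96 ≤ -128 x ≤ 112`, `64 ≤ 128 y ≤ 80` -/

/-- certificate -/
def ct1 : Cert where
  pts := pts14
  g := 2715
  al := [(0, 219), (1, 532), (2, 532), (3, 563), (4, 337), (5, -246), (6, -246), (7, -135), (8, -874), (9, 152), (10, 152), (11, 173), (12, 508), (13, 508)]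
  be := [
    (1, 0, 200), (2, 0, 200), (2, 1, -845), (3, 0, 213), (3, 1, -222), (3, 2, -222), (4, 0, -332),
    (4, 1, 484), (4, 2, 484), (4, 3, -784), (5, 0, -134), (5, 1, 1735), (5, 2, 87), (5, 3, 1526),
    (5, 4, 1041), (6, 0, -134), (6, 1, 87), (6, 2, 1735), (6, 3, 1526), (6, 4, 1041), (6, 5, -725),
    (7, 0, -136), (7, 1, -436), (7, 2, -436), (7, 3, 1739), (7, 4, -141), (7, 5, 1038), (7, 6, 1038),
    (8, 0, 348), (8, 1, -63), (8, 2, -63), (8, 3, -342), (8, 4, 2452), (8, 5, 1282), (8, 6, 1282),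
    (8, 7, -407), (9, 0, 80), (9, 1, -168), (9, 2, -40), (9, 3, -268), (9, 4, -326), (9, 5, 67),
    (9, 6, -42), (9, 7, 568), (9, 8, 443), (10, 0, 80), (10, 1, -40), (10, 2, -168), (10, 3, -268),
    (10, 4, -326), (10, 5, -42), (10, 6, 67), (10, 7, 568), (10, 8, 443), (10, 9, -394), (11, 0, 188),
    (11, 1, -177), (11, 2, -177), (11, 3, -12), (11, 4, 136), (11, 5, -244), (11, 6, -244), (11, 7, 494),
    (11, 8, -72), (11, 9, 446), (11, 10, 446), (12, 0, -81), (12, 1, -277), (12, 3, -517), (12, 4, -381),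
    (12, 5, -558), (12, 6, -464), (12, 8, 275), (12, 9, 104), (12, 10, 39), (12, 11, -2), (13, 0, -81),
    (13, 2, -277), (13, 3, -517), (13, 4, -381), (13, 5, -464), (13, 6, -558), (13, 8, 275), (13, 9, 39),
    (13, 10, 104), (13, 11, -2), (13, 12, -124)]
  ta := [
    ((3, 2, 1), (0, 1, 2), 372), ((4, 5, 6), (0, 1, 2), -793), ((7, 6, 5), (0, 1, 2), -246), ((8, 9, 10), (0, 1, 2), 268),
    ((11, 10, 9), (0, 1, 2), -79), ((5, 4, 12), (0, 1, 2), 254), ((6, 13, 4), (0, 1, 2), 254), ((3, 2, 0), (0, 1, 3), -55),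
    ((4, 5, 7), (0, 1, 3), 319), ((7, 6, 4), (0, 1, 3), 319), ((8, 9, 11), (0, 1, 3), -264), ((11, 10, 8), (0, 1, 3), -264),
    ((6, 5, 3), (1, 2, 4), -225), ((5, 6, 8), (1, 2, 4), -808), ((10, 9, 7), (1, 2, 4), 208), ((4, 12, 1), (1, 2, 4), 276),
    ((13, 4, 2), (1, 2, 4), 276), ((7, 4, 3), (0, 3, 4), -360), ((4, 7, 8), (0, 3, 4), -201), ((11, 8, 7), (0, 3, 4), 7),
    ((6, 4, 3), (1, 3, 4), -201), ((5, 7, 8), (1, 3, 4), -229), ((10, 8, 7), (1, 3, 4), 133), ((5, 4, 3), (2, 3, 4), -201),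
    ((6, 7, 8), (2, 3, 4), -229), ((9, 8, 7), (2, 3, 4), 133), ((5, 4, 0), (0, 1, 5), -195), ((2, 3, 7), (0, 1, 5), -236),
    ((7, 6, 2), (0, 1, 5), -19), ((4, 5, 9), (0, 1, 5), 59), ((9, 8, 4), (0, 1, 5), -153), ((6, 7, 11), (0, 1, 5), -318),
    ((11, 10, 6), (0, 1, 5), -313), ((13, 6, 10), (0, 1, 5), 1646), ((7, 5, 2), (0, 2, 5), 68), ((4, 6, 9), (0, 2, 5), 255),
    ((11, 9, 6), (0, 2, 5), -149), ((5, 12, 0), (0, 2, 5), -308), ((10, 8, 13), (0, 2, 5), 39), ((6, 5, 2), (1, 2, 5), -578),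
    ((5, 6, 9), (1, 2, 5), -10), ((10, 9, 6), (1, 2, 5), 243), ((4, 12, 0), (1, 2, 5), 679), ((4, 13, 8), (1, 2, 5), -460),
    ((7, 4, 2), (0, 3, 5), 193), ((4, 7, 9), (0, 3, 5), 6), ((11, 8, 6), (0, 3, 5), 19), ((5, 4, 2), (2, 3, 5), -625),
    ((6, 7, 9), (2, 3, 5), -467), ((9, 8, 6), (2, 3, 5), -389), ((0, 1, 12), (2, 3, 5), -30), ((13, 6, 8), (2, 3, 5), 1610),
    ((7, 6, 1), (0, 1, 6), 68), ((4, 5, 10), (0, 1, 6), 255), ((11, 10, 5), (0, 1, 6), -149), ((9, 8, 12), (0, 1, 6), 39),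
    ((6, 13, 0), (0, 1, 6), -308), ((6, 4, 0), (0, 2, 6), -195), ((1, 3, 7), (0, 2, 6), -236), ((7, 5, 1), (0, 2, 6), -19),
    ((4, 6, 10), (0, 2, 6), 59), ((10, 8, 4), (0, 2, 6), -153), ((5, 7, 11), (0, 2, 6), -318), ((11, 9, 5), (0, 2, 6), -313),
    ((12, 5, 9), (0, 2, 6), 1646), ((6, 5, 1), (1, 2, 6), -578), ((5, 6, 10), (1, 2, 6), -10), ((10, 9, 5), (1, 2, 6), 243),
    ((12, 4, 8), (1, 2, 6), -460), ((13, 4, 0), (1, 2, 6), 679), ((7, 4, 1), (0, 3, 6), 193), ((4, 7, 10), (0, 3, 6), 6),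
    ((11, 8, 5), (0, 3, 6), 19), ((6, 4, 1), (1, 3, 6), -625), ((5, 7, 10), (1, 3, 6), -467), ((10, 8, 5), (1, 3, 6), -389),
    ((12, 5, 8), (1, 3, 6), 1610), ((0, 2, 13), (1, 3, 6), -30), ((1, 2, 7), (6, 5, 0), -99), ((10, 9, 4), (6, 5, 0), -214),
    ((5, 6, 11), (6, 5, 0), 331), ((12, 4, 9), (6, 5, 0), -244), ((4, 13, 10), (6, 5, 0), -244), ((7, 6, 0), (0, 1, 7), -120),
    ((4, 5, 11), (0, 1, 7), -13), ((11, 10, 4), (0, 1, 7), -70), ((7, 5, 0), (0, 2, 7), -120), ((4, 6, 11), (0, 2, 7), -13),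
    ((11, 9, 4), (0, 2, 7), -70), ((7, 4, 0), (0, 3, 7), 420), ((4, 7, 11), (0, 3, 7), 31), ((11, 8, 4), (0, 3, 7), -99),
    ((9, 8, 1), (0, 1, 8), -65), ((2, 3, 10), (0, 1, 8), -2), ((11, 10, 3), (0, 1, 8), 107), ((1, 3, 9), (0, 2, 8), -2),
    ((10, 8, 2), (0, 2, 8), -65), ((11, 9, 3), (0, 2, 8), 107), ((10, 9, 3), (1, 2, 8), -82), ((11, 8, 3), (0, 3, 8), 43),
    ((10, 8, 3), (1, 3, 8), -66), ((9, 8, 3), (2, 3, 8), -66), ((1, 5, 9), (0, 4, 8), 457), ((2, 6, 10), (0, 4, 8), 457),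
    ((3, 7, 11), (0, 4, 8), -267), ((8, 5, 1), (1, 4, 8), 281), ((3, 6, 10), (1, 4, 8), 96), ((10, 7, 3), (1, 4, 8), -46),
    ((8, 6, 2), (2, 4, 8), 281), ((3, 5, 9), (2, 4, 8), 96), ((9, 7, 3), (2, 4, 8), -46), ((8, 7, 3), (3, 4, 8), 91),
    ((1, 4, 9), (8, 5, 0), 130), ((10, 7, 2), (8, 5, 0), 62), ((3, 6, 11), (8, 5, 0), -134), ((2, 13, 10), (8, 5, 0), 200),
    ((9, 6, 3), (2, 5, 8), 118), ((8, 13, 2), (2, 5, 8), 97), ((9, 7, 1), (8, 6, 0), 62), ((2, 4, 10), (8, 6, 0), 130),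
    ((3, 5, 11), (8, 6, 0), -134), ((1, 12, 9), (8, 6, 0), 200), ((3, 5, 10), (8, 6, 1), 118), ((1, 12, 8), (8, 6, 1), 97),
    ((3, 4, 11), (8, 7, 0), 5), ((3, 4, 10), (8, 7, 1), -2), ((3, 4, 9), (8, 7, 2), -2), ((9, 8, 0), (0, 1, 9), -22),
    ((2, 3, 11), (0, 1, 9), 33), ((11, 10, 2), (0, 1, 9), 37), ((11, 9, 2), (0, 2, 9), 53), ((10, 9, 2), (1, 2, 9), -10),
    ((11, 8, 2), (0, 3, 9), 74), ((9, 8, 2), (2, 3, 9), -128), ((9, 5, 0), (0, 4, 9), -64), ((2, 6, 11), (0, 4, 9), -14),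
    ((11, 7, 2), (0, 4, 9), 100), ((9, 7, 2), (2, 4, 9), -49), ((9, 6, 2), (2, 5, 9), 69), ((2, 5, 11), (9, 6, 0), 70),
    ((0, 12, 9), (9, 6, 0), -122), ((2, 5, 10), (9, 6, 1), 22), ((0, 12, 8), (9, 6, 1), -22), ((8, 13, 0), (9, 6, 1), -22),
    ((2, 4, 11), (9, 7, 0), -58), ((11, 10, 1), (0, 1, 10), 53), ((10, 8, 0), (0, 2, 10), -22), ((1, 3, 11), (0, 2, 10), 33),
    ((11, 9, 1), (0, 2, 10), 37), ((10, 9, 1), (1, 2, 10), -10), ((11, 8, 1), (0, 3, 10), 74), ((10, 8, 1), (1, 3, 10), -128),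
    ((10, 6, 0), (0, 4, 10), -64), ((1, 5, 11), (0, 4, 10), -14), ((11, 7, 1), (0, 4, 10), 100), ((10, 7, 1), (1, 4, 10), -49),
    ((11, 6, 1), (0, 5, 10), 70), ((10, 13, 0), (0, 5, 10), -122), ((10, 6, 1), (1, 5, 10), -69), ((1, 4, 11), (10, 7, 0), -58),
    ((1, 2, 11), (10, 9, 0), 83), ((11, 10, 0), (0, 1, 11), 62), ((11, 9, 0), (0, 2, 11), 62), ((11, 8, 0), (0, 3, 11), 48),
    ((11, 7, 0), (0, 4, 11), 75), ((5, 12, 2), (0, 2, 12), -210), ((4, 12, 2), (1, 2, 12), 40), ((5, 12, 3), (1, 3, 12), -516),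
    ((12, 6, 9), (6, 12, 0), -96), ((12, 6, 8), (6, 12, 1), -365), ((6, 5, 12), (12, 4, 6), 26), ((12, 7, 9), (7, 12, 1), -1),
    ((10, 9, 12), (12, 4, 10), -134), ((10, 8, 12), (12, 5, 10), -175), ((11, 9, 12), (12, 5, 11), -101), ((6, 13, 1), (0, 1, 13), -210),
    ((13, 4, 1), (1, 2, 13), 40), ((6, 13, 3), (2, 3, 13), -516), ((5, 13, 10), (13, 5, 0), -96), ((5, 13, 8), (13, 5, 2), -365),
    ((6, 13, 5), (4, 5, 13), 26), ((13, 7, 10), (7, 13, 2), -1), ((10, 9, 13), (4, 13, 9), -134), ((9, 8, 13), (13, 6, 9), -175),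
    ((11, 10, 13), (13, 6, 11), -101), ((12, 13, 8), (13, 12, 0), 88)]
  tr := tr14
  big := 1048576

theorem ct1_valid : validC ct1 = true := by decide +kernel

theorem ct1_const : constOK ct1 4775 = true := by decide +kernel

/-- classes -/
def cs1 : List Cl := [
 cl 0 1 0 1 4776 0 125, cl 0 2 0 0 0 0 97, cl 1 0 0 0 7957 0 119, cl 1 1 0 1 0 2072 165,
 cl 1 2 0 0 0 0 168, cl 2 0 0 0 0 0 84, cl 2 1 0 1 0 194 107, cl 2 2 0 0 188 0 237,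
 cl 1 0 0 2 478 0 100, cl 0 0 0 2 0 2726 119, cl 1 0 1 1 7166 0 88, cl 2 0 1 1 0 662 71,
 cl 2 0 0 2 0 80 80, cl 1 0 1 3 0 0 78, cl 1 0 2 0 0 1191 75, cl 2 0 2 0 0 342 64,
 cl 1 0 2 2 0 1034 73, cl 0 1 0 3 0 928 92, cl 0 2 0 2 0 0 89, cl 1 1 0 3 78 0 97,
 cl 1 2 0 2 0 4 112, cl 0 0 0 4 0 124 84]

theorem ct1_link : linkOK ct1 cs1 = true := by decide +kernel

theorem cs1_tail : tailOK cs1 96 16 64 4775 = true := by decide +kernel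

theorem cs1_grid : gridOK vtTree cs1 96 16 64 16 0 6954288192 6257 4775 = true := by
  decide +kernel

end Pool.Agent.H79.OC
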