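import Pool.Agent.H79.OC.Pts
import Pool.Agent.H79.OC.VTab

set_option autoImplicit false
set_option maxRecDepth 100000

/-!
# Certificates, part 2
-/

namespace Pool.Agent.H79.OC

open Cl

/-! ### Box 2: `96 ≤ -128 x ≤ 112`, `80 ≤ 128 y ≤ 96` -/

/-- certificate -/
def ct2 : Cert where
  pts := pts14
  g := 3295
  al := [(0, 738), (1, 307), (2, 307), (3, 479), (4, 506), (5, 375), (6, 375), (7, 473), (8, -181), (9, -108), (10, -108), (11, -7), (12, 141), (13, 141)]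
  be := [
    (1, 0, 123), (2, 0, 123), (2, 1, -702), (3, 0, 211), (3, 1, 38), (3, 2, 38), (4, 0, 174),
    (4, 1, 729), (4, 2, 729), (4, 3, -1157), (5, 0, -675), (5, 1, 1443), (5, 2, 165), (5, 3, 1502),
    (5, 4, 910), (6, 0, -675), (6, 1, 165), (6, 2, 1443), (6, 3, 1502), (6, 4, 910), (6, 5, -806),
    (7, 0, -611), (7, 1, -386), (7, 2, -386), (7, 3, 1967), (7, 4, -763), (7, 5, 446), (7, 6, 446),
    (8, 0, 23), (8, 1, -88), (8, 2, -88), (8, 3, -4), (8, 4, 2571), (8, 5, 688), (8, 6, 688),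
    (8, 7, -706), (9, 0, -27), (9, 1, 81), (9, 3, -98), (9, 4, -5), (9, 5, -106), (9, 6, 181),
    (9, 7, 724), (9, 8, 493), (10, 0, -27), (10, 2, 81), (10, 3, -98), (10, 4, -5), (10, 5, 181),
    (10, 6, -106), (10, 7, 724), (10, 8, 493), (10, 9, -307), (11, 0, 229), (11, 1, -132), (11, 2, -132),
    (11, 3, -186), (11, 4, 86), (11, 5, -198), (11, 6, -198), (11, 7, 643), (11, 8, 553), (11, 9, 592),
    (11, 10, 592), (12, 0, -185), (12, 1, -2), (12, 2, 54), (12, 3, -527), (12, 4, -226), (12, 5, -457),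
    (12, 6, -159), (12, 7, 269), (12, 8, -162), (12, 9, 3), (12, 10, -62), (12, 11, 30), (13, 0, -185),
    (13, 1, 54), (13, 2, -2), (13, 3, -527), (13, 4, -226), (13, 5, -159), (13, 6, -457), (13, 7, 269),
    (13, 8, -162), (13, 9, -62), (13, 10, 3), (13, 11, 30), (13, 12, -101)]
  ta := [
    ((3, 2, 1), (0, 1, 2), -144), ((4, 5, 6), (0, 1, 2), -606), ((7, 6, 5), (0, 1, 2), 180), ((8, 9, 10), (0, 1, 2), -93),
    ((11, 10, 9), (0, 1, 2), -30), ((5, 4, 12), (0, 1, 2), 317), ((6, 13, 4), (0, 1, 2), 317), ((3, 2, 0), (0, 1, 3), -18),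
    ((4, 5, 7), (0, 1, 3), 362), ((7, 6, 4), (0, 1, 3), 362), ((8, 9, 11), (0, 1, 3), -344), ((11, 10, 8), (0, 1, 3), -344),
    ((6, 5, 3), (1, 2, 4), -443), ((5, 6, 8), (1, 2, 4), -883), ((10, 9, 7), (1, 2, 4), 497), ((4, 12, 1), (1, 2, 4), 240),
    ((13, 4, 2), (1, 2, 4), 240), ((7, 4, 3), (0, 3, 4), -146), ((4, 7, 8), (0, 3, 4), -481), ((11, 8, 7), (0, 3, 4), 151),
    ((6, 4, 3), (1, 3, 4), -151), ((5, 7, 8), (1, 3, 4), -237), ((10, 8, 7), (1, 3, 4), 61), ((5, 4, 3), (2, 3, 4), -151),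
    ((6, 7, 8), (2, 3, 4), -237), ((9, 8, 7), (2, 3, 4), 61), ((5, 4, 0), (0, 1, 5), -340), ((2, 3, 7), (0, 1, 5), -418),
    ((7, 6, 2), (0, 1, 5), -13), ((4, 5, 9), (0, 1, 5), -109), ((9, 8, 4), (0, 1, 5), -413), ((6, 7, 11), (0, 1, 5), -382),
    ((11, 10, 6), (0, 1, 5), -223), ((13, 6, 10), (0, 1, 5), 1996), ((7, 5, 2), (0, 2, 5), 107), ((4, 6, 9), (0, 2, 5), 203),
    ((11, 9, 6), (0, 2, 5), -249), ((5, 12, 0), (0, 2, 5), -242), ((10, 8, 13), (0, 2, 5), 172), ((6, 5, 2), (1, 2, 5), -563),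
    ((5, 6, 9), (1, 2, 5), -255), ((10, 9, 6), (1, 2, 5), 273), ((4, 12, 0), (1, 2, 5), 610), ((4, 13, 8), (1, 2, 5), -107),
    ((7, 4, 2), (0, 3, 5), 323), ((4, 7, 9), (0, 3, 5), 135), ((11, 8, 6), (0, 3, 5), -197), ((5, 4, 2), (2, 3, 5), -757),
    ((6, 7, 9), (2, 3, 5), -352), ((9, 8, 6), (2, 3, 5), -334), ((0, 1, 12), (2, 3, 5), -153), ((13, 6, 8), (2, 3, 5), 1937),
    ((7, 6, 1), (0, 1, 6), 107), ((4, 5, 10), (0, 1, 6), 203), ((11, 10, 5), (0, 1, 6), -249), ((9, 8, 12), (0, 1, 6), 172),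
    ((6, 13, 0), (0, 1, 6), -242), ((6, 4, 0), (0, 2, 6), -340), ((1, 3, 7), (0, 2, 6), -418), ((7, 5, 1), (0, 2, 6), -13),
    ((4, 6, 10), (0, 2, 6), -109), ((10, 8, 4), (0, 2, 6), -413), ((5, 7, 11), (0, 2, 6), -382), ((11, 9, 5), (0, 2, 6), -223),
    ((12, 5, 9), (0, 2, 6), 1996), ((6, 5, 1), (1, 2, 6), -563), ((5, 6, 10), (1, 2, 6), -255), ((10, 9, 5), (1, 2, 6), 273),
    ((12, 4, 8), (1, 2, 6), -107), ((13, 4, 0), (1, 2, 6), 610), ((7, 4, 1), (0, 3, 6), 323), ((4, 7, 10), (0, 3, 6), 135),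
    ((11, 8, 5), (0, 3, 6), -197), ((6, 4, 1), (1, 3, 6), -757), ((5, 7, 10), (1, 3, 6), -352), ((10, 8, 5), (1, 3, 6), -334),
    ((12, 5, 8), (1, 3, 6), 1937), ((0, 2, 13), (1, 3, 6), -153), ((1, 2, 7), (6, 5, 0), 48), ((10, 9, 4), (6, 5, 0), -152),
    ((5, 6, 11), (6, 5, 0), 371), ((12, 4, 9), (6, 5, 0), -503), ((4, 13, 10), (6, 5, 0), -503), ((7, 6, 0), (0, 1, 7), -113),
    ((4, 5, 11), (0, 1, 7), -88), ((11, 10, 4), (0, 1, 7), -161), ((7, 5, 0), (0, 2, 7), -113), ((4, 6, 11), (0, 2, 7), -88),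
    ((11, 9, 4), (0, 2, 7), -161), ((7, 4, 0), (0, 3, 7), 603), ((4, 7, 11), (0, 3, 7), 111), ((11, 8, 4), (0, 3, 7), -447),
    ((9, 8, 1), (0, 1, 8), -21), ((2, 3, 10), (0, 1, 8), 148), ((11, 10, 3), (0, 1, 8), 17), ((1, 3, 9), (0, 2, 8), 148),
    ((10, 8, 2), (0, 2, 8), -21), ((11, 9, 3), (0, 2, 8), 17), ((10, 9, 3), (1, 2, 8), -135), ((11, 8, 3), (0, 3, 8), -6),
    ((10, 8, 3), (1, 3, 8), -35), ((9, 8, 3), (2, 3, 8), -35), ((1, 5, 9), (0, 4, 8), 873), ((2, 6, 10), (0, 4, 8), 873),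
    ((3, 7, 11), (0, 4, 8), -585), ((8, 5, 1), (1, 4, 8), 519), ((3, 6, 10), (1, 4, 8), 496), ((10, 7, 3), (1, 4, 8), -359),
    ((8, 6, 2), (2, 4, 8), 519), ((3, 5, 9), (2, 4, 8), 496), ((9, 7, 3), (2, 4, 8), -359), ((8, 7, 3), (3, 4, 8), -52),
    ((1, 4, 9), (8, 5, 0), -19), ((10, 7, 2), (8, 5, 0), -191), ((3, 6, 11), (8, 5, 0), -14), ((2, 13, 10), (8, 5, 0), 213),
    ((9, 6, 3), (2, 5, 8), -59), ((8, 13, 2), (2, 5, 8), 89), ((9, 7, 1), (8, 6, 0), -191), ((2, 4, 10), (8, 6, 0), -19),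
    ((3, 5, 11), (8, 6, 0), -14), ((1, 12, 9), (8, 6, 0), 213), ((3, 5, 10), (8, 6, 1), -59), ((1, 12, 8), (8, 6, 1), 89),
    ((3, 4, 11), (8, 7, 0), 74), ((3, 4, 10), (8, 7, 1), -91), ((3, 4, 9), (8, 7, 2), -91), ((9, 8, 0), (0, 1, 9), 16),
    ((2, 3, 11), (0, 1, 9), 64), ((11, 10, 2), (0, 1, 9), -29), ((11, 9, 2), (0, 2, 9), -23), ((10, 9, 2), (1, 2, 9), 16),
    ((11, 8, 2), (0, 3, 9), -31), ((9, 8, 2), (2, 3, 9), -50), ((9, 5, 0), (0, 4, 9), -105), ((2, 6, 11), (0, 4, 9), -86),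
    ((11, 7, 2), (0, 4, 9), 71), ((9, 7, 2), (2, 4, 9), -85), ((9, 6, 2), (2, 5, 9), 31), ((2, 5, 11), (9, 6, 0), 77),
    ((0, 12, 9), (9, 6, 0), -100), ((2, 5, 10), (9, 6, 1), -156), ((0, 12, 8), (9, 6, 1), 156), ((8, 13, 0), (9, 6, 1), 156),
    ((2, 4, 11), (9, 7, 0), 18), ((11, 10, 1), (0, 1, 10), -23), ((10, 8, 0), (0, 2, 10), 16), ((1, 3, 11), (0, 2, 10), 64),
    ((11, 9, 1), (0, 2, 10), -29), ((10, 9, 1), (1, 2, 10), 16), ((11, 8, 1), (0, 3, 10), -31), ((10, 8, 1), (1, 3, 10), -50),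
    ((10, 6, 0), (0, 4, 10), -105), ((1, 5, 11), (0, 4, 10), -86), ((11, 7, 1), (0, 4, 10), 71), ((10, 7, 1), (1, 4, 10), -85),
    ((11, 6, 1), (0, 5, 10), 77), ((10, 13, 0), (0, 5, 10), -100), ((10, 6, 1), (1, 5, 10), -31), ((1, 4, 11), (10, 7, 0), 18),
    ((1, 2, 11), (10, 9, 0), 47), ((11, 10, 0), (0, 1, 11), 25), ((11, 9, 0), (0, 2, 11), 25), ((11, 8, 0), (0, 3, 11), -105),
    ((11, 7, 0), (0, 4, 11), 101), ((5, 12, 2), (0, 2, 12), -231), ((4, 12, 2), (1, 2, 12), 32), ((5, 12, 3), (1, 3, 12), -500),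
    ((12, 6, 9), (6, 12, 0), -324), ((12, 6, 8), (6, 12, 1), -266), ((6, 5, 12), (12, 4, 6), -8), ((12, 7, 9), (7, 12, 1), 272),
    ((10, 9, 12), (12, 4, 10), -97), ((10, 8, 12), (12, 5, 10), -65), ((11, 9, 12), (12, 5, 11), 84), ((6, 13, 1), (0, 1, 13), -231),
    ((13, 4, 1), (1, 2, 13), 32), ((6, 13, 3), (2, 3, 13), -500), ((5, 13, 10), (13, 5, 0), -324), ((5, 13, 8), (13, 5, 2), -266),
    ((6, 13, 5), (4, 5, 13), -8), ((13, 7, 10), (7, 13, 2), 272), ((10, 9, 13), (4, 13, 9), -97), ((9, 8, 13), (13, 6, 9), -65),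
    ((11, 10, 13), (13, 6, 11), 84), ((12, 13, 8), (13, 12, 0), 74)]
  tr := tr14
  big := 1048576

theorem ct2_valid : validC ct2 = true := by decide +kernel

theorem ct2_const : constOK ct2 4761 = true := by decide +kernel

/-- classes -/
def cs2 : List Cl := [
 cl 0 1 0 1 4290 0 120, cl 0 2 0 0 1 0 97, cl 1 0 0 0 8029 0 119, cl 1 1 0 1 0 2522 149,
 cl 1 2 0 0 0 525 168, cl 2 0 0 0 0 1 84, cl 2 1 0 1 0 318 105, cl 2 2 0 0 229 0 237,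
 cl 1 0 0 2 0 2 94, cl 0 0 0 2 0 2267 106, cl 1 0 1 1 7282 0 87, cl 2 0 1 1 0 372 71,
 cl 2 0 0 2 0 0 78, cl 1 0 1 3 108 0 74, cl 1 0 2 0 0 1863 75, cl 2 0 2 0 0 4 64,
 cl 1 0 2 2 0 1054 71, cl 0 1 0 3 0 318 84, cl 0 2 0 2 538 0 85, cl 1 1 0 3 0 124 87,
 cl 1 2 0 2 60 0 103, cl 0 0 0 4 0 101 75]

theorem ct2_link : linkOK ct2 cs2 = true := by decide +kernel

theorem cs2_tail : tailOK cs2 96 16 80 4761 = true := by decide +kernel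

theorem cs2_grid : gridOK vtTree cs2 96 16 80 16 0 6741858528 6217 4761 = true := by
  decide +kernel

/-! ### Box 3: `80 ≤ -128 x ≤ 96`, `32 ≤ 128 y ≤ 48` -/

/-- certificate -/
def ct3 : Cert where
  pts := pts14
  g := 1157
  al := [(0, -1197), (1, 554), (2, 554), (3, 841), (4, -553), (5, -1127), (6, -1127), (7, -3139), (8, -260), (9, 570), (10, 570), (11, -383), (12, 591), (13, 591)]
  be := [
    (1, 0, 630), (2, 0, 630), (2, 1, -1116), (3, 0, -245), (3, 1, -506), (3, 2, -506), (4, 0, 1478),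
    (4, 1, 331), (4, 2, 331), (4, 3, -962), (5, 0, 319), (5, 1, 1172), (5, 2, -81), (5, 3, 1022),
    (5, 4, 891), (6, 0, 319), (6, 1, -81), (6, 2, 1172), (6, 3, 1022), (6, 4, 891), (6, 5, 941),
    (7, 0, 1191), (7, 1, 1060), (7, 2, 1060), (7, 3, 2064), (7, 4, 807), (7, 5, 1678), (7, 6, 1678),
    (8, 0, 920), (8, 1, 40), (8, 2, 40), (8, 3, -147), (8, 4, 891), (8, 5, 682), (8, 6, 682),
    (8, 7, -270), (9, 0, 345), (9, 1, -533), (9, 2, -125), (9, 3, -807), (9, 4, -168), (9, 5, -231),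
    (9, 6, -127), (9, 7, 1265), (9, 8, 71), (10, 0, 345), (10, 1, -125), (10, 2, -533), (10, 3, -807),
    (10, 4, -168), (10, 5, -127), (10, 6, -231), (10, 7, 1265), (10, 8, 71), (10, 9, -876), (11, 0, -52),
    (11, 1, -186), (11, 2, -186), (11, 3, 382), (11, 4, -198), (11, 5, -280), (11, 6, -280), (11, 7, 1330),
    (11, 8, 146), (11, 9, 277), (11, 10, 277), (12, 0, 63), (12, 1, -330), (12, 2, -293), (12, 3, -421),
    (12, 4, -421), (12, 5, -293), (12, 6, -47), (12, 7, 300), (12, 8, 146), (12, 9, -482), (12, 10, -251),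
    (13, 0, 63), (13, 1, -293), (13, 2, -330), (13, 3, -421), (13, 4, -421), (13, 5, -47), (13, 6, -293),
    (13, 7, 300), (13, 8, 146), (13, 9, -251), (13, 10, -482), (13, 12, -31)]
  ta := [
    ((3, 2, 1), (0, 1, 2), 866), ((4, 5, 6), (0, 1, 2), -1226), ((7, 6, 5), (0, 1, 2), -1110), ((8, 9, 10), (0, 1, 2), 963),
    ((11, 10, 9), (0, 1, 2), 64), ((5, 4, 12), (0, 1, 2), 76), ((6, 13, 4), (0, 1, 2), 76), ((3, 2, 0), (0, 1, 3), 153),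
    ((4, 5, 7), (0, 1, 3), 100), ((7, 6, 4), (0, 1, 3), 100), ((8, 9, 11), (0, 1, 3), -253), ((11, 10, 8), (0, 1, 3), -253),
    ((6, 5, 3), (1, 2, 4), -640), ((5, 6, 8), (1, 2, 4), -740), ((10, 9, 7), (1, 2, 4), 97), ((4, 12, 1), (1, 2, 4), 230),
    ((13, 4, 2), (1, 2, 4), 230), ((7, 4, 3), (0, 3, 4), 658), ((4, 7, 8), (0, 3, 4), 287), ((11, 8, 7), (0, 3, 4), -828),
    ((6, 4, 3), (1, 3, 4), 463), ((5, 7, 8), (1, 3, 4), 49), ((10, 8, 7), (1, 3, 4), -545), ((5, 4, 3), (2, 3, 4), 463),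
    ((6, 7, 8), (2, 3, 4), 49), ((9, 8, 7), (2, 3, 4), -545), ((5, 4, 0), (0, 1, 5), -241), ((2, 3, 7), (0, 1, 5), -701),
    ((7, 6, 2), (0, 1, 5), -184), ((4, 5, 9), (0, 1, 5), 157), ((9, 8, 4), (0, 1, 5), -219), ((6, 7, 11), (0, 1, 5), -15),
    ((11, 10, 6), (0, 1, 5), 96), ((13, 6, 10), (0, 1, 5), 1313), ((7, 5, 2), (0, 2, 5), -310), ((4, 6, 9), (0, 2, 5), 402),
    ((11, 9, 6), (0, 2, 5), -149), ((5, 12, 0), (0, 2, 5), 121), ((10, 8, 13), (0, 2, 5), 202), ((6, 5, 2), (1, 2, 5), -136),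
    ((5, 6, 9), (1, 2, 5), -338), ((10, 9, 6), (1, 2, 5), 382), ((4, 12, 0), (1, 2, 5), -361), ((4, 13, 8), (1, 2, 5), 244),
    ((7, 4, 2), (0, 3, 5), -577), ((4, 7, 9), (0, 3, 5), 3), ((11, 8, 6), (0, 3, 5), 435), ((5, 4, 2), (2, 3, 5), -268),
    ((6, 7, 9), (2, 3, 5), -406), ((9, 8, 6), (2, 3, 5), 145), ((0, 1, 12), (2, 3, 5), 9), ((13, 6, 8), (2, 3, 5), 537),
    ((7, 6, 1), (0, 1, 6), -310), ((4, 5, 10), (0, 1, 6), 402), ((11, 10, 5), (0, 1, 6), -149), ((9, 8, 12), (0, 1, 6), 202),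
    ((6, 13, 0), (0, 1, 6), 121), ((6, 4, 0), (0, 2, 6), -241), ((1, 3, 7), (0, 2, 6), -701), ((7, 5, 1), (0, 2, 6), -184),
    ((4, 6, 10), (0, 2, 6), 157), ((10, 8, 4), (0, 2, 6), -219), ((5, 7, 11), (0, 2, 6), -15), ((11, 9, 5), (0, 2, 6), 96),
    ((12, 5, 9), (0, 2, 6), 1313), ((6, 5, 1), (1, 2, 6), -136), ((5, 6, 10), (1, 2, 6), -338), ((10, 9, 5), (1, 2, 6), 382),
    ((12, 4, 8), (1, 2, 6), 244), ((13, 4, 0), (1, 2, 6), -361), ((7, 4, 1), (0, 3, 6), -577), ((4, 7, 10), (0, 3, 6), 3),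
    ((11, 8, 5), (0, 3, 6), 435), ((6, 4, 1), (1, 3, 6), -268), ((5, 7, 10), (1, 3, 6), -406), ((10, 8, 5), (1, 3, 6), 145),
    ((12, 5, 8), (1, 3, 6), 537), ((0, 2, 13), (1, 3, 6), 9), ((1, 2, 7), (6, 5, 0), -93), ((10, 9, 4), (6, 5, 0), 31),
    ((5, 6, 11), (6, 5, 0), -329), ((12, 4, 9), (6, 5, 0), 335), ((4, 13, 10), (6, 5, 0), 335), ((7, 6, 0), (0, 1, 7), 45),
    ((4, 5, 11), (0, 1, 7), 633), ((11, 10, 4), (0, 1, 7), -155), ((7, 5, 0), (0, 2, 7), 45), ((4, 6, 11), (0, 2, 7), 633),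
    ((11, 9, 4), (0, 2, 7), -155), ((7, 4, 0), (0, 3, 7), -556), ((4, 7, 11), (0, 3, 7), 422), ((11, 8, 4), (0, 3, 7), 384),
    ((9, 8, 1), (0, 1, 8), 47), ((2, 3, 10), (0, 1, 8), 350), ((11, 10, 3), (0, 1, 8), -156), ((1, 3, 9), (0, 2, 8), 350),
    ((10, 8, 2), (0, 2, 8), 47), ((11, 9, 3), (0, 2, 8), -156), ((10, 9, 3), (1, 2, 8), 194), ((11, 8, 3), (0, 3, 8), -177),
    ((10, 8, 3), (1, 3, 8), 134), ((9, 8, 3), (2, 3, 8), 134), ((1, 5, 9), (0, 4, 8), 745), ((2, 6, 10), (0, 4, 8), 745),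
    ((3, 7, 11), (0, 4, 8), -989), ((8, 5, 1), (1, 4, 8), -279), ((3, 6, 10), (1, 4, 8), 467), ((10, 7, 3), (1, 4, 8), -43),
    ((8, 6, 2), (2, 4, 8), -279), ((3, 5, 9), (2, 4, 8), 467), ((9, 7, 3), (2, 4, 8), -43), ((8, 7, 3), (3, 4, 8), -207),
    ((1, 4, 9), (8, 5, 0), 106), ((10, 7, 2), (8, 5, 0), 25), ((3, 6, 11), (8, 5, 0), -47), ((2, 13, 10), (8, 5, 0), 70),
    ((9, 6, 3), (2, 5, 8), 152), ((8, 13, 2), (2, 5, 8), -167), ((9, 7, 1), (8, 6, 0), 25), ((2, 4, 10), (8, 6, 0), 106),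
    ((3, 5, 11), (8, 6, 0), -47), ((1, 12, 9), (8, 6, 0), 70), ((3, 5, 10), (8, 6, 1), 152), ((1, 12, 8), (8, 6, 1), -167),
    ((3, 4, 11), (8, 7, 0), 29), ((3, 4, 10), (8, 7, 1), -174), ((3, 4, 9), (8, 7, 2), -174), ((9, 8, 0), (0, 1, 9), -213),
    ((2, 3, 11), (0, 1, 9), 184), ((11, 10, 2), (0, 1, 9), 181), ((11, 9, 2), (0, 2, 9), 67), ((10, 9, 2), (1, 2, 9), -6),
    ((11, 8, 2), (0, 3, 9), -44), ((9, 8, 2), (2, 3, 9), -91), ((9, 5, 0), (0, 4, 9), 154), ((2, 6, 11), (0, 4, 9), 294),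
    ((11, 7, 2), (0, 4, 9), -172), ((9, 7, 2), (2, 4, 9), -210), ((9, 6, 2), (2, 5, 9), -75), ((2, 5, 11), (9, 6, 0), 46),
    ((0, 12, 9), (9, 6, 0), 87), ((2, 5, 10), (9, 6, 1), 141), ((0, 12, 8), (9, 6, 1), -141), ((8, 13, 0), (9, 6, 1), -141),
    ((2, 4, 11), (9, 7, 0), 155), ((11, 10, 1), (0, 1, 10), 67), ((10, 8, 0), (0, 2, 10), -213), ((1, 3, 11), (0, 2, 10), 184),
    ((11, 9, 1), (0, 2, 10), 181), ((10, 9, 1), (1, 2, 10), -6), ((11, 8, 1), (0, 3, 10), -44), ((10, 8, 1), (1, 3, 10), -91),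
    ((10, 6, 0), (0, 4, 10), 154), ((1, 5, 11), (0, 4, 10), 294), ((11, 7, 1), (0, 4, 10), -172), ((10, 7, 1), (1, 4, 10), -210),
    ((11, 6, 1), (0, 5, 10), 46), ((10, 13, 0), (0, 5, 10), 87), ((10, 6, 1), (1, 5, 10), 75), ((1, 4, 11), (10, 7, 0), 155),
    ((1, 2, 11), (10, 9, 0), 8), ((11, 10, 0), (0, 1, 11), 23), ((11, 9, 0), (0, 2, 11), 23), ((11, 8, 0), (0, 3, 11), -23),
    ((11, 7, 0), (0, 4, 11), 21), ((5, 12, 2), (0, 2, 12), 293), ((4, 12, 2), (1, 2, 12), -278), ((5, 12, 3), (1, 3, 12), -421),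
    ((12, 6, 9), (6, 12, 0), 90), ((12, 6, 8), (6, 12, 1), -206), ((6, 5, 12), (12, 4, 6), 35), ((12, 7, 9), (7, 12, 1), 74),
    ((10, 9, 12), (12, 4, 10), -57), ((10, 8, 12), (12, 5, 10), -110), ((11, 9, 12), (12, 5, 11), 76), ((6, 13, 1), (0, 1, 13), 293),
    ((13, 4, 1), (1, 2, 13), -278), ((6, 13, 3), (2, 3, 13), -421), ((5, 13, 10), (13, 5, 0), 90), ((5, 13, 8), (13, 5, 2), -206),
    ((6, 13, 5), (4, 5, 13), 35), ((13, 7, 10), (7, 13, 2), 74), ((10, 9, 13), (4, 13, 9), -57), ((9, 8, 13), (13, 6, 9), -110),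
    ((11, 10, 13), (13, 6, 11), 76), ((12, 13, 8), (13, 12, 0), -31)]
  tr := tr14
  big := 1048576

theorem ct3_valid : validC ct3 = true := by decide +kernel

theorem ct3_const : constOK ct3 4014 = true := by decide +kernel

/-- classes -/
def cs3 : List Cl := [
 cl 0 1 0 1 5496 0 145, cl 0 2 0 0 708 0 106, cl 1 0 0 0 7645 0 119, cl 1 1 0 1 898 0 200,
 cl 1 2 0 0 993 0 237, cl 2 0 0 0 236 0 84, cl 2 1 0 1 318 0 105, cl 2 2 0 0 0 52 168,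
 cl 1 0 0 2 2 0 112, cl 0 0 0 2 0 1893 168, cl 1 0 1 1 5940 0 93, cl 2 0 1 1 0 1534 73,
 cl 2 0 0 2 0 250 83, cl 1 0 1 3 0 586 89, cl 1 0 2 0 0 1232 79, cl 2 0 2 0 0 147 66,
 cl 1 0 2 2 0 842 78, cl 0 1 0 3 0 94 120, cl 0 2 0 2 600 0 103, cl 1 1 0 3 0 502 134,
 cl 1 2 0 2 0 0 159, cl 0 0 0 4 0 31 119]

theorem ct3_link : linkOK ct3 cs3 = true := by decide +kernel

theorem cs3_tail : tailOK cs3 80 16 32 4014 = true := by decide +kernel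

theorem cs3_grid : gridOK vtTree cs3 80 16 32 16 0 12337916832 6459 4014 = true := by
  decide +kernel

end Pool.Agent.H79.OC
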