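import Pool.Agent.H79.OC.Pts
import Pool.Agent.H79.OC.VTab

set_option autoImplicit false
set_option maxRecDepth 100000

/-!
# Certificates, part 11
-/

namespace Pool.Agent.H79.OC

open Cl

/-! ### Box 20: `32 ≤ -128 x ≤ 48`, `16 ≤ 128 y ≤ 32` -/

/-- certificate -/
def ct20 : Cert where
  pts := pts14
  g := 2748
  al := [(0, 151), (1, 675), (2, 675), (3, 1415), (4, -126), (5, -446), (6, -446), (7, -1313), (8, -235), (9, 414), (10, 414), (11, -121), (12, 498), (13, 498)]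
  be := [
    (1, 0, 399), (2, 0, 399), (2, 1, -1209), (3, 0, -477), (3, 1, -406), (3, 2, -406), (4, 0, 1055),
    (4, 1, 558), (4, 2, 558), (4, 3, -1176), (5, 0, -186), (5, 1, 1504), (5, 2, -154), (5, 3, 1168),
    (5, 4, 1046), (6, 0, -186), (6, 1, -154), (6, 2, 1504), (6, 3, 1168), (6, 4, 1046), (6, 5, -146),
    (7, 0, 83), (7, 1, 362), (7, 2, 362), (7, 3, 1641), (7, 4, 493), (7, 5, 1100), (7, 6, 1100),
    (8, 0, 97), (8, 1, -201), (8, 2, -201), (8, 4, 1810), (8, 5, 800), (8, 6, 800), (8, 7, -646),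
    (9, 0, -63), (9, 1, 17), (9, 2, -111), (9, 3, -416), (9, 4, -204), (9, 5, -170), (9, 6, -281),
    (9, 7, 814), (9, 8, 601), (10, 0, -63), (10, 1, -111), (10, 2, 17), (10, 3, -416), (10, 4, -204),
    (10, 5, -281), (10, 6, -170), (10, 7, 814), (10, 8, 601), (10, 9, -766), (11, 0, -14), (11, 1, 66),
    (11, 2, 66), (11, 3, 80), (11, 4, -20), (11, 5, -69), (11, 6, -69), (11, 7, 953), (11, 8, -16),
    (11, 9, 538), (11, 10, 538), (12, 0, 2), (12, 1, -215), (12, 2, -212), (12, 3, -627), (12, 4, -305),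
    (12, 5, -472), (12, 6, -8), (12, 7, 314), (12, 8, 181), (12, 9, -294), (12, 10, 27), (12, 11, -22),
    (13, 0, 2), (13, 1, -212), (13, 2, -215), (13, 3, -627), (13, 4, -305), (13, 5, -8), (13, 6, -472),
    (13, 7, 314), (13, 8, 181), (13, 9, 27), (13, 10, -294), (13, 11, -22)]
  ta := [
    ((3, 2, 1), (0, 1, 2), 581), ((4, 5, 6), (0, 1, 2), -641), ((7, 6, 5), (0, 1, 2), -567), ((8, 9, 10), (0, 1, 2), 121),
    ((11, 10, 9), (0, 1, 2), 2), ((5, 4, 12), (0, 1, 2), 59), ((6, 13, 4), (0, 1, 2), 59), ((3, 2, 0), (0, 1, 3), -10),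
    ((4, 5, 7), (0, 1, 3), 459), ((7, 6, 4), (0, 1, 3), 459), ((8, 9, 11), (0, 1, 3), -449), ((11, 10, 8), (0, 1, 3), -449),
    ((6, 5, 3), (1, 2, 4), -507), ((5, 6, 8), (1, 2, 4), -911), ((10, 9, 7), (1, 2, 4), 138), ((4, 12, 1), (1, 2, 4), 267),
    ((13, 4, 2), (1, 2, 4), 267), ((7, 4, 3), (0, 3, 4), 231), ((4, 7, 8), (0, 3, 4), 59), ((11, 8, 7), (0, 3, 4), -243),
    ((6, 4, 3), (1, 3, 4), 149), ((5, 7, 8), (1, 3, 4), -5), ((10, 8, 7), (1, 3, 4), -347), ((5, 4, 3), (2, 3, 4), 149),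
    ((6, 7, 8), (2, 3, 4), -5), ((9, 8, 7), (2, 3, 4), -347), ((5, 4, 0), (0, 1, 5), -248), ((2, 3, 7), (0, 1, 5), -365),
    ((7, 6, 2), (0, 1, 5), -188), ((4, 5, 9), (0, 1, 5), 283), ((9, 8, 4), (0, 1, 5), -346), ((6, 7, 11), (0, 1, 5), -300),
    ((11, 10, 6), (0, 1, 5), -347), ((13, 6, 10), (0, 1, 5), 1746), ((7, 5, 2), (0, 2, 5), -183), ((4, 6, 9), (0, 2, 5), 81),
    ((11, 9, 6), (0, 2, 5), -28), ((5, 12, 0), (0, 2, 5), 190), ((10, 8, 13), (0, 2, 5), 44), ((6, 5, 2), (1, 2, 5), 65),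
    ((5, 6, 9), (1, 2, 5), -31), ((10, 9, 6), (1, 2, 5), 196), ((4, 12, 0), (1, 2, 5), -245), ((4, 13, 8), (1, 2, 5), -136),
    ((7, 4, 2), (0, 3, 5), -485), ((4, 7, 9), (0, 3, 5), 101), ((11, 8, 6), (0, 3, 5), 135), ((5, 4, 2), (2, 3, 5), -115),
    ((6, 7, 9), (2, 3, 5), -273), ((9, 8, 6), (2, 3, 5), -394), ((0, 1, 12), (2, 3, 5), 2), ((13, 6, 8), (2, 3, 5), 913),
    ((7, 6, 1), (0, 1, 6), -183), ((4, 5, 10), (0, 1, 6), 81), ((11, 10, 5), (0, 1, 6), -28), ((9, 8, 12), (0, 1, 6), 44),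
    ((6, 13, 0), (0, 1, 6), 190), ((6, 4, 0), (0, 2, 6), -248), ((1, 3, 7), (0, 2, 6), -365), ((7, 5, 1), (0, 2, 6), -188),
    ((4, 6, 10), (0, 2, 6), 283), ((10, 8, 4), (0, 2, 6), -346), ((5, 7, 11), (0, 2, 6), -300), ((11, 9, 5), (0, 2, 6), -347),
    ((12, 5, 9), (0, 2, 6), 1746), ((6, 5, 1), (1, 2, 6), 65), ((5, 6, 10), (1, 2, 6), -31), ((10, 9, 5), (1, 2, 6), 196),
    ((12, 4, 8), (1, 2, 6), -136), ((13, 4, 0), (1, 2, 6), -245), ((7, 4, 1), (0, 3, 6), -485), ((4, 7, 10), (0, 3, 6), 101),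
    ((11, 8, 5), (0, 3, 6), 135), ((6, 4, 1), (1, 3, 6), -115), ((5, 7, 10), (1, 3, 6), -273), ((10, 8, 5), (1, 3, 6), -394),
    ((12, 5, 8), (1, 3, 6), 913), ((0, 2, 13), (1, 3, 6), 2), ((1, 2, 7), (6, 5, 0), 144), ((10, 9, 4), (6, 5, 0), 226),
    ((5, 6, 11), (6, 5, 0), -41), ((12, 4, 9), (6, 5, 0), -33), ((4, 13, 10), (6, 5, 0), -33), ((7, 6, 0), (0, 1, 7), 350),
    ((4, 5, 11), (0, 1, 7), 121), ((11, 10, 4), (0, 1, 7), -96), ((7, 5, 0), (0, 2, 7), 350), ((4, 6, 11), (0, 2, 7), 121),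
    ((11, 9, 4), (0, 2, 7), -96), ((7, 4, 0), (0, 3, 7), -335), ((4, 7, 11), (0, 3, 7), -61), ((11, 8, 4), (0, 3, 7), 164),
    ((9, 8, 1), (0, 1, 8), 32), ((2, 3, 10), (0, 1, 8), 105), ((11, 10, 3), (0, 1, 8), -61), ((1, 3, 9), (0, 2, 8), 105),
    ((10, 8, 2), (0, 2, 8), 32), ((11, 9, 3), (0, 2, 8), -61), ((10, 9, 3), (1, 2, 8), 64), ((11, 8, 3), (0, 3, 8), 16),
    ((10, 8, 3), (1, 3, 8), 13), ((9, 8, 3), (2, 3, 8), 13), ((1, 5, 9), (0, 4, 8), 445), ((2, 6, 10), (0, 4, 8), 445),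
    ((3, 7, 11), (0, 4, 8), -445), ((8, 5, 1), (1, 4, 8), 241), ((3, 6, 10), (1, 4, 8), 345), ((10, 7, 3), (1, 4, 8), -301),
    ((8, 6, 2), (2, 4, 8), 241), ((3, 5, 9), (2, 4, 8), 345), ((9, 7, 3), (2, 4, 8), -301), ((8, 7, 3), (3, 4, 8), 60),
    ((1, 4, 9), (8, 5, 0), -4), ((10, 7, 2), (8, 5, 0), -109), ((3, 6, 11), (8, 5, 0), 17), ((2, 13, 10), (8, 5, 0), 82),
    ((9, 6, 3), (2, 5, 8), 35), ((8, 13, 2), (2, 5, 8), -53), ((9, 7, 1), (8, 6, 0), -109), ((2, 4, 10), (8, 6, 0), -4),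
    ((3, 5, 11), (8, 6, 0), 17), ((1, 12, 9), (8, 6, 0), 82), ((3, 5, 10), (8, 6, 1), 35), ((1, 12, 8), (8, 6, 1), -53),
    ((3, 4, 11), (8, 7, 0), 3), ((3, 4, 10), (8, 7, 1), -93), ((3, 4, 9), (8, 7, 2), -93), ((9, 8, 0), (0, 1, 9), 25),
    ((2, 3, 11), (0, 1, 9), -57), ((11, 10, 2), (0, 1, 9), -6), ((11, 9, 2), (0, 2, 9), 5), ((10, 9, 2), (1, 2, 9), 53),
    ((11, 8, 2), (0, 3, 9), -10), ((9, 8, 2), (2, 3, 9), -71), ((9, 5, 0), (0, 4, 9), 86), ((2, 6, 11), (0, 4, 9), -39),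
    ((11, 7, 2), (0, 4, 9), -43), ((9, 7, 2), (2, 4, 9), -45), ((9, 6, 2), (2, 5, 9), 101), ((2, 5, 11), (9, 6, 0), 10),
    ((0, 12, 9), (9, 6, 0), -38), ((2, 5, 10), (9, 6, 1), 22), ((0, 12, 8), (9, 6, 1), -22), ((8, 13, 0), (9, 6, 1), -22),
    ((2, 4, 11), (9, 7, 0), -47), ((11, 10, 1), (0, 1, 10), 5), ((10, 8, 0), (0, 2, 10), 25), ((1, 3, 11), (0, 2, 10), -57),
    ((11, 9, 1), (0, 2, 10), -6), ((10, 9, 1), (1, 2, 10), 53), ((11, 8, 1), (0, 3, 10), -10), ((10, 8, 1), (1, 3, 10), -71),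
    ((10, 6, 0), (0, 4, 10), 86), ((1, 5, 11), (0, 4, 10), -39), ((11, 7, 1), (0, 4, 10), -43), ((10, 7, 1), (1, 4, 10), -45),
    ((11, 6, 1), (0, 5, 10), 10), ((10, 13, 0), (0, 5, 10), -38), ((10, 6, 1), (1, 5, 10), -101), ((1, 4, 11), (10, 7, 0), -47),
    ((1, 2, 11), (10, 9, 0), -11), ((11, 10, 0), (0, 1, 11), 14), ((11, 9, 0), (0, 2, 11), 14), ((11, 8, 0), (0, 3, 11), 2),
    ((11, 7, 0), (0, 4, 11), 21), ((5, 12, 2), (0, 2, 12), 199), ((4, 12, 2), (1, 2, 12), -236), ((5, 12, 3), (1, 3, 12), -451),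
    ((12, 6, 9), (6, 12, 0), -8), ((12, 6, 8), (6, 12, 1), -63), ((6, 5, 12), (12, 4, 6), 71), ((12, 7, 9), (7, 12, 1), 140),
    ((10, 9, 12), (12, 4, 10), 57), ((10, 8, 12), (12, 5, 10), 12), ((11, 9, 12), (12, 5, 11), 19), ((6, 13, 1), (0, 1, 13), 199),
    ((13, 4, 1), (1, 2, 13), -236), ((6, 13, 3), (2, 3, 13), -451), ((5, 13, 10), (13, 5, 0), -8), ((5, 13, 8), (13, 5, 2), -63),
    ((6, 13, 5), (4, 5, 13), 71), ((13, 7, 10), (7, 13, 2), 140), ((10, 9, 13), (4, 13, 9), 57), ((9, 8, 13), (13, 6, 9), 12),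
    ((11, 10, 13), (13, 6, 11), 19)]
  tr := tr14
  big := 1048576

theorem ct20_valid : validC ct20 = true := by decide +kernel

theorem ct20_const : constOK ct20 5017 = true := by decide +kernel

/-- classes -/
def cs20 : List Cl := [
 cl 0 1 0 1 5612 0 224, cl 0 2 0 0 0 0 168, cl 1 0 0 0 8127 0 119, cl 1 1 0 1 0 782 149,
 cl 1 2 0 0 63 0 237, cl 2 0 0 0 211 0 84, cl 2 1 0 1 6 0 93, cl 2 2 0 0 0 14 106,
 cl 1 0 0 2 0 504 117, cl 0 0 0 2 0 2731 237, cl 1 0 1 1 6250 0 106, cl 2 0 1 1 0 1234 79,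
 cl 2 0 0 2 0 222 84, cl 1 0 1 3 0 424 104, cl 1 0 2 0 0 1822 97, cl 2 0 2 0 0 0 75,
 cl 1 0 2 2 0 1254 97, cl 0 1 0 3 0 16 177, cl 0 2 0 2 628 0 159, cl 1 1 0 3 54 0 139,
 cl 1 2 0 2 0 44 200, cl 0 0 0 4 0 0 168]

theorem ct20_link : linkOK ct20 cs20 = true := by decide +kernel

theorem cs20_tail : tailOK cs20 32 16 16 5017 = true := by decide +kernel

theorem cs20_grid : gridOK vtTree cs20 32 16 16 16 0 7308369920 6222 5017 = true := by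
  decide +kernel

/-! ### Box 21: `32 ≤ -128 x ≤ 48`, `32 ≤ 128 y ≤ 48` -/

/-- certificate -/
def ct21 : Cert where
  pts := pts14
  g := 2154
  al := [(0, -151), (1, 298), (2, 298), (3, 1271), (4, 322), (5, -410), (6, -410), (7, -914), (8, -1077), (9, 76), (10, 76), (11, 35), (12, 226), (13, 226)]
  be := [
    (1, 0, 539), (2, 0, 539), (2, 1, -483), (3, 0, 94), (3, 1, -471), (3, 2, -471), (4, 0, 930),
    (4, 1, 774), (4, 2, 774), (4, 3, -1452), (5, 0, 230), (5, 1, 1637), (5, 2, -340), (5, 3, 635),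
    (5, 4, 711), (6, 0, 230), (6, 1, -340), (6, 2, 1637), (6, 3, 635), (6, 4, 711), (6, 5, -716),
    (7, 0, -271), (7, 1, 91), (7, 2, 91), (7, 3, 1778), (7, 4, -251), (7, 5, 913), (7, 6, 913),
    (8, 0, 358), (8, 1, -185), (8, 2, -185), (8, 3, 255), (8, 4, 2410), (8, 5, 1279), (8, 6, 1279),
    (8, 7, -220), (9, 0, 82), (9, 1, -69), (9, 3, -286), (9, 4, -454), (9, 5, -353), (9, 6, 209),
    (9, 7, 760), (9, 8, 725), (10, 0, 82), (10, 2, -69), (10, 3, -286), (10, 4, -454), (10, 5, 209),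
    (10, 6, -353), (10, 7, 760), (10, 8, 725), (10, 9, -117), (11, 1, -148), (11, 2, -148), (11, 3, -20),
    (11, 4, 271), (11, 5, -4), (11, 6, -4), (11, 7, 447), (11, 8, -123), (11, 9, 431), (11, 10, 431),
    (12, 0, -93), (12, 1, -41), (12, 3, -657), (12, 4, -530), (12, 5, -351), (12, 6, -291), (12, 7, 300),
    (12, 8, 471), (12, 9, -263), (12, 10, 8), (12, 11, 197), (13, 0, -93), (13, 2, -41), (13, 3, -657),
    (13, 4, -530), (13, 5, -291), (13, 6, -351), (13, 7, 300), (13, 8, 471), (13, 9, 8), (13, 10, -263),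
    (13, 11, 197)]
  ta := [
    ((3, 2, 1), (0, 1, 2), 396), ((4, 5, 6), (0, 1, 2), -591), ((7, 6, 5), (0, 1, 2), -136), ((8, 9, 10), (0, 1, 2), 196),
    ((11, 10, 9), (0, 1, 2), 54), ((5, 4, 12), (0, 1, 2), 87), ((6, 13, 4), (0, 1, 2), 87), ((3, 2, 0), (0, 1, 3), -376),
    ((4, 5, 7), (0, 1, 3), 684), ((7, 6, 4), (0, 1, 3), 684), ((8, 9, 11), (0, 1, 3), -308), ((11, 10, 8), (0, 1, 3), -308),
    ((6, 5, 3), (1, 2, 4), 136), ((5, 6, 8), (1, 2, 4), -730), ((10, 9, 7), (1, 2, 4), 172), ((4, 12, 1), (1, 2, 4), 234),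
    ((13, 4, 2), (1, 2, 4), 234), ((7, 4, 3), (0, 3, 4), 40), ((4, 7, 8), (0, 3, 4), -183), ((11, 8, 7), (0, 3, 4), 47),
    ((6, 4, 3), (1, 3, 4), 306), ((5, 7, 8), (1, 3, 4), -138), ((10, 8, 7), (1, 3, 4), -310), ((5, 4, 3), (2, 3, 4), 306),
    ((6, 7, 8), (2, 3, 4), -138), ((9, 8, 7), (2, 3, 4), -310), ((5, 4, 0), (0, 1, 5), -495), ((2, 3, 7), (0, 1, 5), -238),
    ((7, 6, 2), (0, 1, 5), -107), ((4, 5, 9), (0, 1, 5), 338), ((9, 8, 4), (0, 1, 5), -258), ((6, 7, 11), (0, 1, 5), -152),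
    ((11, 10, 6), (0, 1, 5), -571), ((13, 6, 10), (0, 1, 5), 2176), ((7, 5, 2), (0, 2, 5), 11), ((4, 6, 9), (0, 2, 5), 118),
    ((11, 9, 6), (0, 2, 5), -108), ((5, 12, 0), (0, 2, 5), -134), ((10, 8, 13), (0, 2, 5), 55), ((6, 5, 2), (1, 2, 5), -243),
    ((5, 6, 9), (1, 2, 5), 170), ((10, 9, 6), (1, 2, 5), -55), ((4, 12, 0), (1, 2, 5), 344), ((4, 13, 8), (1, 2, 5), -281),
    ((7, 4, 2), (0, 3, 5), 149), ((4, 7, 9), (0, 3, 5), 199), ((11, 8, 6), (0, 3, 5), -148), ((5, 4, 2), (2, 3, 5), -129),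
    ((6, 7, 9), (2, 3, 5), -447), ((9, 8, 6), (2, 3, 5), -614), ((0, 1, 12), (2, 3, 5), -80), ((13, 6, 8), (2, 3, 5), 1032),
    ((7, 6, 1), (0, 1, 6), 11), ((4, 5, 10), (0, 1, 6), 118), ((11, 10, 5), (0, 1, 6), -108), ((9, 8, 12), (0, 1, 6), 55),
    ((6, 13, 0), (0, 1, 6), -134), ((6, 4, 0), (0, 2, 6), -495), ((1, 3, 7), (0, 2, 6), -238), ((7, 5, 1), (0, 2, 6), -107),
    ((4, 6, 10), (0, 2, 6), 338), ((10, 8, 4), (0, 2, 6), -258), ((5, 7, 11), (0, 2, 6), -152), ((11, 9, 5), (0, 2, 6), -571),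
    ((12, 5, 9), (0, 2, 6), 2176), ((6, 5, 1), (1, 2, 6), -243), ((5, 6, 10), (1, 2, 6), 170), ((10, 9, 5), (1, 2, 6), -55),
    ((12, 4, 8), (1, 2, 6), -281), ((13, 4, 0), (1, 2, 6), 344), ((7, 4, 1), (0, 3, 6), 149), ((4, 7, 10), (0, 3, 6), 199),
    ((11, 8, 5), (0, 3, 6), -148), ((6, 4, 1), (1, 3, 6), -129), ((5, 7, 10), (1, 3, 6), -447), ((10, 8, 5), (1, 3, 6), -614),
    ((12, 5, 8), (1, 3, 6), 1032), ((0, 2, 13), (1, 3, 6), -80), ((1, 2, 7), (6, 5, 0), -33), ((10, 9, 4), (6, 5, 0), -49),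
    ((5, 6, 11), (6, 5, 0), 176), ((12, 4, 9), (6, 5, 0), -84), ((4, 13, 10), (6, 5, 0), -84), ((4, 5, 11), (0, 1, 7), -73),
    ((11, 10, 4), (0, 1, 7), -48), ((4, 6, 11), (0, 2, 7), -73), ((11, 9, 4), (0, 2, 7), -48), ((7, 4, 0), (0, 3, 7), 23),
    ((4, 7, 11), (0, 3, 7), 95), ((11, 8, 4), (0, 3, 7), -114), ((9, 8, 1), (0, 1, 8), -86), ((2, 3, 10), (0, 1, 8), 283),
    ((11, 10, 3), (0, 1, 8), -195), ((1, 3, 9), (0, 2, 8), 283), ((10, 8, 2), (0, 2, 8), -86), ((11, 9, 3), (0, 2, 8), -195),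
    ((10, 9, 3), (1, 2, 8), -35), ((11, 8, 3), (0, 3, 8), -21), ((10, 8, 3), (1, 3, 8), -72), ((9, 8, 3), (2, 3, 8), -72),
    ((1, 5, 9), (0, 4, 8), 772), ((2, 6, 10), (0, 4, 8), 772), ((3, 7, 11), (0, 4, 8), -579), ((8, 5, 1), (1, 4, 8), 335),
    ((3, 6, 10), (1, 4, 8), 612), ((10, 7, 3), (1, 4, 8), -553), ((8, 6, 2), (2, 4, 8), 335), ((3, 5, 9), (2, 4, 8), 612),
    ((9, 7, 3), (2, 4, 8), -553), ((8, 7, 3), (3, 4, 8), -29), ((1, 4, 9), (8, 5, 0), 65), ((10, 7, 2), (8, 5, 0), -194),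
    ((3, 6, 11), (8, 5, 0), 128), ((2, 13, 10), (8, 5, 0), 226), ((9, 6, 3), (2, 5, 8), -47), ((8, 13, 2), (2, 5, 8), -78),
    ((9, 7, 1), (8, 6, 0), -194), ((2, 4, 10), (8, 6, 0), 65), ((3, 5, 11), (8, 6, 0), 128), ((1, 12, 9), (8, 6, 0), 226),
    ((3, 5, 10), (8, 6, 1), -47), ((1, 12, 8), (8, 6, 1), -78), ((3, 4, 11), (8, 7, 0), 118), ((3, 4, 10), (8, 7, 1), 119),
    ((3, 4, 9), (8, 7, 2), 119), ((9, 8, 0), (0, 1, 9), -36), ((2, 3, 11), (0, 1, 9), 102), ((11, 10, 2), (0, 1, 9), -6),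
    ((11, 9, 2), (0, 2, 9), 29), ((10, 9, 2), (1, 2, 9), -11), ((11, 8, 2), (0, 3, 9), 11), ((9, 8, 2), (2, 3, 9), -69),
    ((9, 5, 0), (0, 4, 9), 50), ((2, 6, 11), (0, 4, 9), 127), ((11, 7, 2), (0, 4, 9), -95), ((9, 7, 2), (2, 4, 9), 40),
    ((9, 6, 2), (2, 5, 9), -172), ((2, 5, 11), (9, 6, 0), -19), ((0, 12, 9), (9, 6, 0), -24), ((2, 5, 10), (9, 6, 1), -24),
    ((0, 12, 8), (9, 6, 1), 24), ((8, 13, 0), (9, 6, 1), 24), ((2, 4, 11), (9, 7, 0), -231), ((11, 10, 1), (0, 1, 10), 29),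
    ((10, 8, 0), (0, 2, 10), -36), ((1, 3, 11), (0, 2, 10), 102), ((11, 9, 1), (0, 2, 10), -6), ((10, 9, 1), (1, 2, 10), -11),
    ((11, 8, 1), (0, 3, 10), 11), ((10, 8, 1), (1, 3, 10), -69), ((10, 6, 0), (0, 4, 10), 50), ((1, 5, 11), (0, 4, 10), 127),
    ((11, 7, 1), (0, 4, 10), -95), ((10, 7, 1), (1, 4, 10), 40), ((11, 6, 1), (0, 5, 10), -19), ((10, 13, 0), (0, 5, 10), -24),
    ((10, 6, 1), (1, 5, 10), 172), ((1, 4, 11), (10, 7, 0), -231), ((1, 2, 11), (10, 9, 0), 275), ((11, 10, 0), (0, 1, 11), 121),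
    ((11, 9, 0), (0, 2, 11), 121), ((11, 8, 0), (0, 3, 11), -36), ((11, 7, 0), (0, 4, 11), 425), ((5, 12, 2), (0, 2, 12), -29),
    ((4, 12, 2), (1, 2, 12), -49), ((5, 12, 3), (1, 3, 12), -525), ((12, 6, 9), (6, 12, 0), 17), ((12, 6, 8), (6, 12, 1), -134),
    ((6, 5, 12), (12, 4, 6), -73), ((12, 7, 9), (7, 12, 1), 188), ((10, 9, 12), (12, 4, 10), -123), ((10, 8, 12), (12, 5, 10), -112),
    ((11, 9, 12), (12, 5, 11), 46), ((6, 13, 1), (0, 1, 13), -29), ((13, 4, 1), (1, 2, 13), -49), ((6, 13, 3), (2, 3, 13), -525),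
    ((5, 13, 10), (13, 5, 0), 17), ((5, 13, 8), (13, 5, 2), -134), ((6, 13, 5), (4, 5, 13), -73), ((13, 7, 10), (7, 13, 2), 188),
    ((10, 9, 13), (4, 13, 9), -123), ((9, 8, 13), (13, 6, 9), -112), ((11, 10, 13), (13, 6, 11), 46)]
  tr := tr14
  big := 1048576

theorem ct21_valid : validC ct21 = true := by decide +kernel

theorem ct21_const : constOK ct21 4917 = true := by decide +kernel

/-- classes -/
def cs21 : List Cl := [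
 cl 0 1 0 1 4994 0 200, cl 0 2 0 0 0 280 168, cl 1 0 0 0 8133 0 119, cl 1 1 0 1 0 800 145,
 cl 1 2 0 0 0 0 237, cl 2 0 0 0 200 0 84, cl 2 1 0 1 0 132 93, cl 2 2 0 0 0 0 106,
 cl 1 0 0 2 494 0 112, cl 0 0 0 2 0 2376 168, cl 1 0 1 1 6814 0 105, cl 2 0 1 1 0 942 79,
 cl 2 0 0 2 0 0 83, cl 1 0 1 3 0 0 99, cl 1 0 2 0 0 1672 97, cl 2 0 2 0 255 0 75,
 cl 1 0 2 2 0 1314 95, cl 0 1 0 3 0 582 134, cl 0 2 0 2 600 0 141, cl 1 1 0 3 16 0 120,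
 cl 1 2 0 2 394 0 159, cl 0 0 0 4 0 0 119]

theorem ct21_link : linkOK ct21 cs21 = true := by decide +kernel

theorem cs21_tail : tailOK cs21 32 16 32 4917 = true := by decide +kernel

theorem cs21_grid : gridOK vtTree cs21 32 16 32 16 0 9406482304 6383 4917 = true := by
  decide +kernel

end Pool.Agent.H79.OC
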