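import Pool.Agent.H79.OC.Pts
import Pool.Agent.H79.OC.VTab

set_option autoImplicit false
set_option maxRecDepth 100000

/-!
# Certificates, part 12
-/

namespace Pool.Agent.H79.OC

open Cl

/-! ### Box 22: `32 ≤ -128 x ≤ 48`, `48 ≤ 128 y ≤ 64` -/

/-- certificate -/
def ct22 : Cert where
  pts := pts14
  g := 3912
  al := [(0, 318), (1, 448), (2, 448), (3, 1822), (4, 731), (5, 486), (6, 486), (7, -265), (8, 180), (9, -29), (10, -29), (11, 706), (12, 335), (13, 335)]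
  be := [
    (1, 0, 461), (2, 0, 461), (2, 1, -1207), (3, 0, -649), (3, 1, -817), (3, 2, -817), (4, 0, 739),
    (4, 1, 850), (4, 2, 850), (4, 3, -1560), (5, 0, -28), (5, 1, 1632), (5, 2, -297), (5, 3, 547),
    (5, 4, 1112), (6, 0, -28), (6, 1, -297), (6, 2, 1632), (6, 3, 547), (6, 4, 1112), (6, 5, -1033),
    (7, 0, 174), (7, 1, 342), (7, 2, 342), (7, 3, 2125), (7, 4, -437), (7, 5, 738), (7, 6, 738),
    (8, 0, 86), (8, 1, -367), (8, 2, -367), (8, 3, 213), (8, 4, 2326), (8, 5, 542), (8, 6, 542),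
    (8, 7, -958), (9, 0, 40), (9, 1, 152), (9, 3, -187), (9, 4, -276), (9, 5, -246), (9, 6, 115),
    (9, 7, 1097), (9, 8, 434), (10, 0, 40), (10, 2, 152), (10, 3, -187), (10, 4, -276), (10, 5, 115),
    (10, 6, -246), (10, 7, 1097), (10, 8, 434), (10, 9, -120), (11, 0, 18), (11, 1, -44), (11, 2, -44),
    (11, 3, 24), (11, 4, -489), (11, 5, -338), (11, 6, -338), (11, 7, 246), (11, 8, -44), (11, 9, 269),
    (11, 10, 269), (12, 0, -158), (12, 1, -74), (12, 3, -580), (12, 4, -177), (12, 5, -175), (12, 6, -108),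
    (12, 7, 241), (12, 8, 263), (12, 9, -382), (12, 11, 4), (13, 0, -158), (13, 2, -74), (13, 3, -580),
    (13, 4, -177), (13, 5, -108), (13, 6, -175), (13, 7, 241), (13, 8, 263), (13, 10, -382), (13, 11, 4)]
  ta := [
    ((3, 2, 1), (0, 1, 2), 699), ((4, 5, 6), (0, 1, 2), -720), ((7, 6, 5), (0, 1, 2), -170), ((8, 9, 10), (0, 1, 2), 147),
    ((11, 10, 9), (0, 1, 2), -22), ((5, 4, 12), (0, 1, 2), -175), ((6, 13, 4), (0, 1, 2), -175), ((3, 2, 0), (0, 1, 3), 112),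
    ((4, 5, 7), (0, 1, 3), 218), ((7, 6, 4), (0, 1, 3), 218), ((8, 9, 11), (0, 1, 3), -330), ((11, 10, 8), (0, 1, 3), -330),
    ((6, 5, 3), (1, 2, 4), 15), ((5, 6, 8), (1, 2, 4), -438), ((10, 9, 7), (1, 2, 4), -140), ((4, 12, 1), (1, 2, 4), -4),
    ((13, 4, 2), (1, 2, 4), -4), ((7, 4, 3), (0, 3, 4), 33), ((4, 7, 8), (0, 3, 4), -449), ((11, 8, 7), (0, 3, 4), 127),
    ((6, 4, 3), (1, 3, 4), 113), ((5, 7, 8), (1, 3, 4), -139), ((10, 8, 7), (1, 3, 4), -254), ((5, 4, 3), (2, 3, 4), 113),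
    ((6, 7, 8), (2, 3, 4), -139), ((9, 8, 7), (2, 3, 4), -254), ((5, 4, 0), (0, 1, 5), -461), ((2, 3, 7), (0, 1, 5), -236),
    ((7, 6, 2), (0, 1, 5), -309), ((4, 5, 9), (0, 1, 5), 289), ((9, 8, 4), (0, 1, 5), -163), ((6, 7, 11), (0, 1, 5), -135),
    ((11, 10, 6), (0, 1, 5), -293), ((13, 6, 10), (0, 1, 5), 1779), ((7, 5, 2), (0, 2, 5), 31), ((4, 6, 9), (0, 2, 5), 14),
    ((11, 9, 6), (0, 2, 5), -35), ((5, 12, 0), (0, 2, 5), 128), ((10, 8, 13), (0, 2, 5), 81), ((6, 5, 2), (1, 2, 5), -279),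
    ((5, 6, 9), (1, 2, 5), 28), ((10, 9, 6), (1, 2, 5), -55), ((4, 12, 0), (1, 2, 5), 16), ((4, 13, 8), (1, 2, 5), -145),
    ((7, 4, 2), (0, 3, 5), -292), ((4, 7, 9), (0, 3, 5), 224), ((11, 8, 6), (0, 3, 5), -147), ((5, 4, 2), (2, 3, 5), -370),
    ((6, 7, 9), (2, 3, 5), -566), ((9, 8, 6), (2, 3, 5), -246), ((0, 1, 12), (2, 3, 5), 28), ((13, 6, 8), (2, 3, 5), 750),
    ((7, 6, 1), (0, 1, 6), 31), ((4, 5, 10), (0, 1, 6), 14), ((11, 10, 5), (0, 1, 6), -35), ((9, 8, 12), (0, 1, 6), 81),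
    ((6, 13, 0), (0, 1, 6), 128), ((6, 4, 0), (0, 2, 6), -461), ((1, 3, 7), (0, 2, 6), -236), ((7, 5, 1), (0, 2, 6), -309),
    ((4, 6, 10), (0, 2, 6), 289), ((10, 8, 4), (0, 2, 6), -163), ((5, 7, 11), (0, 2, 6), -135), ((11, 9, 5), (0, 2, 6), -293),
    ((12, 5, 9), (0, 2, 6), 1779), ((6, 5, 1), (1, 2, 6), -279), ((5, 6, 10), (1, 2, 6), 28), ((10, 9, 5), (1, 2, 6), -55),
    ((12, 4, 8), (1, 2, 6), -145), ((13, 4, 0), (1, 2, 6), 16), ((7, 4, 1), (0, 3, 6), -292), ((4, 7, 10), (0, 3, 6), 224),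
    ((11, 8, 5), (0, 3, 6), -147), ((6, 4, 1), (1, 3, 6), -370), ((5, 7, 10), (1, 3, 6), -566), ((10, 8, 5), (1, 3, 6), -246),
    ((12, 5, 8), (1, 3, 6), 750), ((0, 2, 13), (1, 3, 6), 28), ((1, 2, 7), (6, 5, 0), -108), ((10, 9, 4), (6, 5, 0), 13),
    ((5, 6, 11), (6, 5, 0), 391), ((12, 4, 9), (6, 5, 0), -63), ((4, 13, 10), (6, 5, 0), -63), ((7, 6, 0), (0, 1, 7), 302),
    ((4, 5, 11), (0, 1, 7), 11), ((11, 10, 4), (0, 1, 7), 81), ((7, 5, 0), (0, 2, 7), 302), ((4, 6, 11), (0, 2, 7), 11),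
    ((11, 9, 4), (0, 2, 7), 81), ((7, 4, 0), (0, 3, 7), -319), ((4, 7, 11), (0, 3, 7), 380), ((11, 8, 4), (0, 3, 7), -204),
    ((9, 8, 1), (0, 1, 8), -37), ((2, 3, 10), (0, 1, 8), 80), ((11, 10, 3), (0, 1, 8), -28), ((1, 3, 9), (0, 2, 8), 80),
    ((10, 8, 2), (0, 2, 8), -37), ((11, 9, 3), (0, 2, 8), -28), ((10, 9, 3), (1, 2, 8), 34), ((11, 8, 3), (0, 3, 8), -56),
    ((10, 8, 3), (1, 3, 8), -36), ((9, 8, 3), (2, 3, 8), -36), ((1, 5, 9), (0, 4, 8), 782), ((2, 6, 10), (0, 4, 8), 782),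
    ((3, 7, 11), (0, 4, 8), -748), ((8, 5, 1), (1, 4, 8), 437), ((3, 6, 10), (1, 4, 8), 585), ((10, 7, 3), (1, 4, 8), -655),
    ((8, 6, 2), (2, 4, 8), 437), ((3, 5, 9), (2, 4, 8), 585), ((9, 7, 3), (2, 4, 8), -655), ((8, 7, 3), (3, 4, 8), -40),
    ((1, 4, 9), (8, 5, 0), 25), ((10, 7, 2), (8, 5, 0), -106), ((3, 6, 11), (8, 5, 0), -29), ((2, 13, 10), (8, 5, 0), 123),
    ((9, 6, 3), (2, 5, 8), -50), ((8, 13, 2), (2, 5, 8), -93), ((9, 7, 1), (8, 6, 0), -106), ((2, 4, 10), (8, 6, 0), 25),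
    ((3, 5, 11), (8, 6, 0), -29), ((1, 12, 9), (8, 6, 0), 123), ((3, 5, 10), (8, 6, 1), -50), ((1, 12, 8), (8, 6, 1), -93),
    ((3, 4, 11), (8, 7, 0), 52), ((3, 4, 10), (8, 7, 1), -106), ((3, 4, 9), (8, 7, 2), -106), ((9, 8, 0), (0, 1, 9), 58),
    ((2, 3, 11), (0, 1, 9), -4), ((11, 10, 2), (0, 1, 9), -6), ((11, 9, 2), (0, 2, 9), 3), ((10, 9, 2), (1, 2, 9), 18),
    ((11, 8, 2), (0, 3, 9), 15), ((9, 8, 2), (2, 3, 9), -65), ((9, 5, 0), (0, 4, 9), 43), ((2, 6, 11), (0, 4, 9), -125),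
    ((11, 7, 2), (0, 4, 9), 55), ((9, 7, 2), (2, 4, 9), -41), ((9, 6, 2), (2, 5, 9), -17), ((2, 5, 11), (9, 6, 0), 40),
    ((0, 12, 9), (9, 6, 0), 35), ((2, 5, 10), (9, 6, 1), -38), ((0, 12, 8), (9, 6, 1), 38), ((8, 13, 0), (9, 6, 1), 38),
    ((2, 4, 11), (9, 7, 0), 48), ((11, 10, 1), (0, 1, 10), 3), ((10, 8, 0), (0, 2, 10), 58), ((1, 3, 11), (0, 2, 10), -4),
    ((11, 9, 1), (0, 2, 10), -6), ((10, 9, 1), (1, 2, 10), 18), ((11, 8, 1), (0, 3, 10), 15), ((10, 8, 1), (1, 3, 10), -65),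
    ((10, 6, 0), (0, 4, 10), 43), ((1, 5, 11), (0, 4, 10), -125), ((11, 7, 1), (0, 4, 10), 55), ((10, 7, 1), (1, 4, 10), -41),
    ((11, 6, 1), (0, 5, 10), 40), ((10, 13, 0), (0, 5, 10), 35), ((10, 6, 1), (1, 5, 10), 17), ((1, 4, 11), (10, 7, 0), 48),
    ((1, 2, 11), (10, 9, 0), -25), ((11, 10, 0), (0, 1, 11), 24), ((11, 9, 0), (0, 2, 11), 24), ((11, 8, 0), (0, 3, 11), 8),
    ((11, 7, 0), (0, 4, 11), 3), ((5, 12, 2), (0, 2, 12), 232), ((4, 12, 2), (1, 2, 12), -323), ((5, 12, 3), (1, 3, 12), -474),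
    ((12, 6, 9), (6, 12, 0), 21), ((12, 6, 8), (6, 12, 1), -17), ((6, 5, 12), (12, 4, 6), -71), ((12, 7, 9), (7, 12, 1), 170),
    ((10, 9, 12), (12, 4, 10), -42), ((11, 9, 12), (12, 5, 11), 130), ((6, 13, 1), (0, 1, 13), 232), ((13, 4, 1), (1, 2, 13), -323),
    ((6, 13, 3), (2, 3, 13), -474), ((5, 13, 10), (13, 5, 0), 21), ((5, 13, 8), (13, 5, 2), -17), ((6, 13, 5), (4, 5, 13), -71),
    ((13, 7, 10), (7, 13, 2), 170), ((10, 9, 13), (4, 13, 9), -42), ((11, 10, 13), (13, 6, 11), 130)]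
  tr := tr14
  big := 1048576

theorem ct22_valid : validC ct22 = true := by decide +kernel

theorem ct22_const : constOK ct22 4919 = true := by decide +kernel

/-- classes -/
def cs22 : List Cl := [
 cl 0 1 0 1 4044 0 177, cl 0 2 0 0 0 1130 168, cl 1 0 0 0 8208 0 119, cl 1 1 0 1 0 1364 139,
 cl 1 2 0 0 0 315 237, cl 2 0 0 0 414 0 84, cl 2 1 0 1 0 8 92, cl 2 2 0 0 18 0 106,
 cl 1 0 0 2 0 154 106, cl 0 0 0 2 0 2714 137, cl 1 0 1 1 5924 0 104, cl 2 0 1 1 0 1108 79,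
 cl 2 0 0 2 0 0 82, cl 1 0 1 3 0 0 92, cl 1 0 2 0 0 2518 97, cl 2 0 2 0 213 0 75,
 cl 1 0 2 2 0 1160 92, cl 0 1 0 3 0 216 111, cl 0 2 0 2 482 0 125, cl 1 1 0 3 0 0 105,
 cl 1 2 0 2 8 0 134, cl 0 0 0 4 0 0 97]

theorem ct22_link : linkOK ct22 cs22 = true := by decide +kernel

theorem cs22_tail : tailOK cs22 32 16 48 4919 = true := by decide +kernel

theorem cs22_grid : gridOK vtTree cs22 32 16 48 16 0 3979309696 6157 4919 = true := by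
  decide +kernel

/-! ### Box 23: `32 ≤ -128 x ≤ 48`, `64 ≤ 128 y ≤ 80` -/

/-- certificate -/
def ct23 : Cert where
  pts := pts14
  g := 4266
  al := [(0, -94), (1, 515), (2, 515), (3, 1110), (4, 1243), (5, 915), (6, 915), (7, 418), (8, -366), (9, 315), (10, 315), (11, 133), (12, 540), (13, 540)]
  be := [
    (1, 0, 347), (2, 0, 347), (2, 1, -278), (3, 0, 558), (3, 1, -113), (3, 2, -113), (4, 0, -65),
    (4, 1, 493), (4, 2, 493), (4, 3, -1623), (5, 0, 378), (5, 1, 1745), (5, 2, -164), (5, 3, 1323),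
    (5, 4, 367), (6, 0, 378), (6, 1, -164), (6, 2, 1745), (6, 3, 1323), (6, 4, 367), (6, 5, -2366),
    (7, 0, 27), (7, 1, -405), (7, 2, -405), (7, 3, 2403), (7, 4, -1258), (7, 5, 650), (7, 6, 650),
    (8, 0, 453), (8, 1, -164), (8, 2, -164), (8, 4, 2608), (8, 5, 698), (8, 6, 698), (8, 7, -548),
    (9, 0, -24), (9, 1, -44), (9, 2, 59), (9, 3, -394), (9, 4, -495), (9, 5, -497), (9, 6, -326),
    (9, 7, 993), (9, 8, 295), (10, 0, -24), (10, 1, 59), (10, 2, -44), (10, 3, -394), (10, 4, -495),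
    (10, 5, -326), (10, 6, -497), (10, 7, 993), (10, 8, 295), (10, 9, -124), (11, 1, 24), (11, 2, 24),
    (11, 3, 164), (11, 4, -27), (11, 5, -148), (11, 6, -148), (11, 7, 706), (11, 8, -105), (11, 9, 429),
    (11, 10, 429), (12, 1, -466), (12, 2, -69), (12, 3, -663), (12, 4, -90), (12, 5, -67), (12, 6, -395),
    (12, 7, 21), (12, 8, 491), (12, 9, -173), (12, 10, 103), (13, 1, -69), (13, 2, -466), (13, 3, -663),
    (13, 4, -90), (13, 5, -395), (13, 6, -67), (13, 7, 21), (13, 8, 491), (13, 9, 103), (13, 10, -173),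
    (13, 12, -82)]
  ta := [
    ((3, 2, 1), (0, 1, 2), 240), ((4, 5, 6), (0, 1, 2), -49), ((7, 6, 5), (0, 1, 2), 213), ((8, 9, 10), (0, 1, 2), 430),
    ((5, 4, 12), (0, 1, 2), -307), ((6, 13, 4), (0, 1, 2), -307), ((3, 2, 0), (0, 1, 3), -366), ((4, 5, 7), (0, 1, 3), 774),
    ((7, 6, 4), (0, 1, 3), 774), ((8, 9, 11), (0, 1, 3), -408), ((11, 10, 8), (0, 1, 3), -408), ((6, 5, 3), (1, 2, 4), 227),
    ((5, 6, 8), (1, 2, 4), -218), ((10, 9, 7), (1, 2, 4), -285), ((4, 12, 1), (1, 2, 4), 154), ((13, 4, 2), (1, 2, 4), 154),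
    ((7, 4, 3), (0, 3, 4), -123), ((4, 7, 8), (0, 3, 4), -195), ((11, 8, 7), (0, 3, 4), -162), ((6, 4, 3), (1, 3, 4), 146),
    ((5, 7, 8), (1, 3, 4), -77), ((10, 8, 7), (1, 3, 4), -219), ((5, 4, 3), (2, 3, 4), 146), ((6, 7, 8), (2, 3, 4), -77),
    ((9, 8, 7), (2, 3, 4), -219), ((5, 4, 0), (0, 1, 5), -150), ((2, 3, 7), (0, 1, 5), -310), ((7, 6, 2), (0, 1, 5), -130),
    ((4, 5, 9), (0, 1, 5), 422), ((9, 8, 4), (0, 1, 5), -71), ((6, 7, 11), (0, 1, 5), -280), ((11, 10, 6), (0, 1, 5), -387),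
    ((13, 6, 10), (0, 1, 5), 1712), ((7, 5, 2), (0, 2, 5), -31), ((4, 6, 9), (0, 2, 5), 353), ((11, 9, 6), (0, 2, 5), 11),
    ((5, 12, 0), (0, 2, 5), -405), ((10, 8, 13), (0, 2, 5), -154), ((6, 5, 2), (1, 2, 5), 68), ((5, 6, 9), (1, 2, 5), 353),
    ((10, 9, 6), (1, 2, 5), -77), ((4, 12, 0), (1, 2, 5), 473), ((4, 13, 8), (1, 2, 5), -667), ((7, 4, 2), (0, 3, 5), 377),
    ((4, 7, 9), (0, 3, 5), 244), ((11, 8, 6), (0, 3, 5), 57), ((5, 4, 2), (2, 3, 5), -214), ((6, 7, 9), (2, 3, 5), -542),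
    ((9, 8, 6), (2, 3, 5), 38), ((0, 1, 12), (2, 3, 5), -169), ((13, 6, 8), (2, 3, 5), 879), ((7, 6, 1), (0, 1, 6), -31),
    ((4, 5, 10), (0, 1, 6), 353), ((11, 10, 5), (0, 1, 6), 11), ((9, 8, 12), (0, 1, 6), -154), ((6, 13, 0), (0, 1, 6), -405),
    ((6, 4, 0), (0, 2, 6), -150), ((1, 3, 7), (0, 2, 6), -310), ((7, 5, 1), (0, 2, 6), -130), ((4, 6, 10), (0, 2, 6), 422),
    ((10, 8, 4), (0, 2, 6), -71), ((5, 7, 11), (0, 2, 6), -280), ((11, 9, 5), (0, 2, 6), -387), ((12, 5, 9), (0, 2, 6), 1712),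
    ((6, 5, 1), (1, 2, 6), 68), ((5, 6, 10), (1, 2, 6), 353), ((10, 9, 5), (1, 2, 6), -77), ((12, 4, 8), (1, 2, 6), -667),
    ((13, 4, 0), (1, 2, 6), 473), ((7, 4, 1), (0, 3, 6), 377), ((4, 7, 10), (0, 3, 6), 244), ((11, 8, 5), (0, 3, 6), 57),
    ((6, 4, 1), (1, 3, 6), -214), ((5, 7, 10), (1, 3, 6), -542), ((10, 8, 5), (1, 3, 6), 38), ((12, 5, 8), (1, 3, 6), 879),
    ((0, 2, 13), (1, 3, 6), -169), ((1, 2, 7), (6, 5, 0), 37), ((10, 9, 4), (6, 5, 0), -164), ((5, 6, 11), (6, 5, 0), 145),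
    ((12, 4, 9), (6, 5, 0), -40), ((4, 13, 10), (6, 5, 0), -40), ((7, 6, 0), (0, 1, 7), -161), ((4, 5, 11), (0, 1, 7), -7),
    ((11, 10, 4), (0, 1, 7), -21), ((7, 5, 0), (0, 2, 7), -161), ((4, 6, 11), (0, 2, 7), -7), ((11, 9, 4), (0, 2, 7), -21),
    ((7, 4, 0), (0, 3, 7), 278), ((4, 7, 11), (0, 3, 7), 215), ((11, 8, 4), (0, 3, 7), -27), ((9, 8, 1), (0, 1, 8), -74),
    ((2, 3, 10), (0, 1, 8), 155), ((11, 10, 3), (0, 1, 8), -33), ((1, 3, 9), (0, 2, 8), 155), ((10, 8, 2), (0, 2, 8), -74),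
    ((11, 9, 3), (0, 2, 8), -33), ((10, 9, 3), (1, 2, 8), 82), ((11, 8, 3), (0, 3, 8), -8), ((10, 8, 3), (1, 3, 8), 64),
    ((9, 8, 3), (2, 3, 8), 64), ((1, 5, 9), (0, 4, 8), 781), ((2, 6, 10), (0, 4, 8), 781), ((3, 7, 11), (0, 4, 8), -675),
    ((8, 5, 1), (1, 4, 8), 472), ((3, 6, 10), (1, 4, 8), 512), ((10, 7, 3), (1, 4, 8), -587), ((8, 6, 2), (2, 4, 8), 472),
    ((3, 5, 9), (2, 4, 8), 512), ((9, 7, 3), (2, 4, 8), -587), ((8, 7, 3), (3, 4, 8), -221), ((1, 4, 9), (8, 5, 0), 103),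
    ((10, 7, 2), (8, 5, 0), -44), ((3, 6, 11), (8, 5, 0), -93), ((2, 13, 10), (8, 5, 0), 232), ((9, 6, 3), (2, 5, 8), -95),
    ((8, 13, 2), (2, 5, 8), 244), ((9, 7, 1), (8, 6, 0), -44), ((2, 4, 10), (8, 6, 0), 103), ((3, 5, 11), (8, 6, 0), -93),
    ((1, 12, 9), (8, 6, 0), 232), ((3, 5, 10), (8, 6, 1), -95), ((1, 12, 8), (8, 6, 1), 244), ((3, 4, 11), (8, 7, 0), 81),
    ((3, 4, 10), (8, 7, 1), 67), ((3, 4, 9), (8, 7, 2), 67), ((9, 8, 0), (0, 1, 9), 22), ((2, 3, 11), (0, 1, 9), -5),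
    ((11, 9, 2), (0, 2, 9), -1), ((10, 9, 2), (1, 2, 9), -29), ((11, 8, 2), (0, 3, 9), 25), ((9, 8, 2), (2, 3, 9), -79),
    ((9, 5, 0), (0, 4, 9), -18), ((2, 6, 11), (0, 4, 9), -11), ((11, 7, 2), (0, 4, 9), 31), ((9, 7, 2), (2, 4, 9), -15),
    ((9, 6, 2), (2, 5, 9), 31), ((2, 5, 11), (9, 6, 0), -44), ((0, 12, 9), (9, 6, 0), 17), ((2, 5, 10), (9, 6, 1), 22),
    ((0, 12, 8), (9, 6, 1), -22), ((8, 13, 0), (9, 6, 1), -22), ((2, 4, 11), (9, 7, 0), -24), ((11, 10, 1), (0, 1, 10), -1),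
    ((10, 8, 0), (0, 2, 10), 22), ((1, 3, 11), (0, 2, 10), -5), ((10, 9, 1), (1, 2, 10), -29), ((11, 8, 1), (0, 3, 10), 25),
    ((10, 8, 1), (1, 3, 10), -79), ((10, 6, 0), (0, 4, 10), -18), ((1, 5, 11), (0, 4, 10), -11), ((11, 7, 1), (0, 4, 10), 31),
    ((10, 7, 1), (1, 4, 10), -15), ((11, 6, 1), (0, 5, 10), -44), ((10, 13, 0), (0, 5, 10), 17), ((10, 6, 1), (1, 5, 10), -31),
    ((1, 4, 11), (10, 7, 0), -24), ((1, 2, 11), (10, 9, 0), -25), ((11, 8, 0), (0, 3, 11), 13), ((11, 7, 0), (0, 4, 11), -13),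
    ((5, 12, 2), (0, 2, 12), -151), ((4, 12, 2), (1, 2, 12), -82), ((5, 12, 3), (1, 3, 12), -601), ((12, 6, 9), (6, 12, 0), 36),
    ((12, 6, 8), (6, 12, 1), -351), ((6, 5, 12), (12, 4, 6), 167), ((12, 7, 9), (7, 12, 1), -55), ((10, 9, 12), (12, 4, 10), -42),
    ((10, 8, 12), (12, 5, 10), -62), ((6, 13, 1), (0, 1, 13), -151), ((13, 4, 1), (1, 2, 13), -82), ((6, 13, 3), (2, 3, 13), -601),
    ((5, 13, 10), (13, 5, 0), 36), ((5, 13, 8), (13, 5, 2), -351), ((6, 13, 5), (4, 5, 13), 167), ((13, 7, 10), (7, 13, 2), -55),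
    ((10, 9, 13), (4, 13, 9), -42), ((9, 8, 13), (13, 6, 9), -62), ((12, 13, 8), (13, 12, 0), 82)]
  tr := tr14
  big := 1048576

theorem ct23_valid : validC ct23 = true := by decide +kernel

theorem ct23_const : constOK ct23 4844 = true := by decide +kernel

/-- classes -/
def cs23 : List Cl := [
 cl 0 1 0 1 3816 0 159, cl 0 2 0 0 0 805 168, cl 1 0 0 0 8148 0 119, cl 1 1 0 1 0 1686 133,
 cl 1 2 0 0 0 0 237, cl 2 0 0 0 529 0 84, cl 2 1 0 1 0 0 91, cl 2 2 0 0 0 0 106,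
 cl 1 0 0 2 2 0 100, cl 0 0 0 2 0 2948 119, cl 1 0 1 1 6082 0 103, cl 2 0 1 1 0 1116 78,
 cl 2 0 0 2 118 0 80, cl 1 0 1 3 0 138 85, cl 1 0 2 0 0 2171 97, cl 2 0 2 0 0 0 75,
 cl 1 0 2 2 0 1326 89, cl 0 1 0 3 0 790 97, cl 0 2 0 2 42 0 112, cl 1 1 0 3 206 0 93,
 cl 1 2 0 2 0 0 117, cl 0 0 0 4 0 82 84]

theorem ct23_link : linkOK ct23 cs23 = true := by decide +kernel

theorem cs23_tail : tailOK cs23 32 16 64 4844 = true := by decide +kernel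

theorem cs23_grid : gridOK vtTree cs23 32 16 64 16 0 3286248320 6449 4844 = true := by
  decide +kernel

end Pool.Agent.H79.OC
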