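import Pool.Agent.H79.OC.Pts
import Pool.Agent.H79.OC.VTab

set_option autoImplicit false
set_option maxRecDepth 100000

/-!
# Certificates, part 13
-/

namespace Pool.Agent.H79.OC

open Cl

/-! ### Box 24: `32 ≤ -128 x ≤ 48`, `80 ≤ 128 y ≤ 96` -/

/-- certificate -/
def ct24 : Cert where
  pts := pts14
  g := 3837
  al := [(0, -72), (1, 395), (2, 395), (3, 2020), (4, 156), (5, 821), (6, 821), (7, -153), (8, 538), (9, 20), (10, 20), (11, -257), (12, 409), (13, 409)]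
  be := [
    (1, 0, 803), (2, 0, 803), (2, 1, -323), (3, 0, -66), (3, 1, -278), (3, 2, -278), (4, 0, 1241),
    (4, 1, 1034), (4, 2, 1034), (4, 3, -1332), (5, 0, -397), (5, 1, 1456), (5, 2, -84), (5, 3, 635),
    (5, 4, 636), (6, 0, -397), (6, 1, -84), (6, 2, 1456), (6, 3, 635), (6, 4, 636), (6, 5, -1914),
    (7, 0, -64), (7, 1, 36), (7, 2, 36), (7, 3, 1426), (7, 4, -490), (7, 5, 561), (7, 6, 561),
    (8, 0, 270), (8, 1, -360), (8, 2, -360), (8, 3, -649), (8, 4, 1675), (8, 5, 327), (8, 6, 327),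
    (8, 7, -863), (9, 0, 53), (9, 1, -44), (9, 2, -83), (9, 3, -459), (9, 4, 109), (9, 5, -138),
    (9, 6, -67), (9, 7, 1027), (9, 8, 349), (10, 0, 53), (10, 1, -83), (10, 2, -44), (10, 3, -459),
    (10, 4, 109), (10, 5, -67), (10, 6, -138), (10, 7, 1027), (10, 8, 349), (10, 9, 10), (11, 1, -182),
    (11, 2, -182), (11, 3, 254), (11, 4, 64), (11, 5, -206), (11, 6, -206), (11, 7, 1057), (11, 8, 385),
    (11, 9, 674), (11, 10, 674), (12, 0, -164), (12, 1, -388), (12, 3, -548), (12, 4, -77), (12, 5, -137),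
    (12, 7, 139), (12, 8, 377), (12, 9, -410), (12, 10, 141), (13, 0, -164), (13, 2, -388), (13, 3, -548),
    (13, 4, -77), (13, 6, -137), (13, 7, 139), (13, 8, 377), (13, 9, 141), (13, 10, -410), (13, 12, -70)]
  ta := [
    ((3, 2, 1), (0, 1, 2), 337), ((4, 5, 6), (0, 1, 2), -128), ((7, 6, 5), (0, 1, 2), 181), ((8, 9, 10), (0, 1, 2), 581),
    ((11, 10, 9), (0, 1, 2), -251), ((5, 4, 12), (0, 1, 2), -265), ((6, 13, 4), (0, 1, 2), -265), ((3, 2, 0), (0, 1, 3), -391),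
    ((4, 5, 7), (0, 1, 3), 884), ((7, 6, 4), (0, 1, 3), 884), ((8, 9, 11), (0, 1, 3), -493), ((11, 10, 8), (0, 1, 3), -493),
    ((6, 5, 3), (1, 2, 4), 242), ((5, 6, 8), (1, 2, 4), 30), ((10, 9, 7), (1, 2, 4), -164), ((4, 12, 1), (1, 2, 4), -13),
    ((13, 4, 2), (1, 2, 4), -13), ((7, 4, 3), (0, 3, 4), 340), ((4, 7, 8), (0, 3, 4), 159), ((11, 8, 7), (0, 3, 4), -302),
    ((6, 4, 3), (1, 3, 4), 211), ((5, 7, 8), (1, 3, 4), 44), ((10, 8, 7), (1, 3, 4), -196), ((5, 4, 3), (2, 3, 4), 211),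
    ((6, 7, 8), (2, 3, 4), 44), ((9, 8, 7), (2, 3, 4), -196), ((5, 4, 0), (0, 1, 5), -178), ((2, 3, 7), (0, 1, 5), -360),
    ((7, 6, 2), (0, 1, 5), -151), ((4, 5, 9), (0, 1, 5), 175), ((9, 8, 4), (0, 1, 5), -312), ((6, 7, 11), (0, 1, 5), -130),
    ((11, 10, 6), (0, 1, 5), -350), ((13, 6, 10), (0, 1, 5), 1669), ((7, 5, 2), (0, 2, 5), -150), ((4, 6, 9), (0, 2, 5), 183),
    ((11, 9, 6), (0, 2, 5), 80), ((5, 12, 0), (0, 2, 5), 45), ((10, 8, 13), (0, 2, 5), -205), ((7, 4, 2), (0, 3, 5), -75),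
    ((4, 7, 9), (0, 3, 5), 58), ((11, 8, 6), (0, 3, 5), -33), ((5, 4, 2), (2, 3, 5), -290), ((6, 7, 9), (2, 3, 5), -183),
    ((9, 8, 6), (2, 3, 5), 129), ((0, 1, 12), (2, 3, 5), -93), ((13, 6, 8), (2, 3, 5), 519), ((7, 6, 1), (0, 1, 6), -150),
    ((4, 5, 10), (0, 1, 6), 183), ((11, 10, 5), (0, 1, 6), 80), ((9, 8, 12), (0, 1, 6), -205), ((6, 13, 0), (0, 1, 6), 45),
    ((6, 4, 0), (0, 2, 6), -178), ((1, 3, 7), (0, 2, 6), -360), ((7, 5, 1), (0, 2, 6), -151), ((4, 6, 10), (0, 2, 6), 175),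
    ((10, 8, 4), (0, 2, 6), -312), ((5, 7, 11), (0, 2, 6), -130), ((11, 9, 5), (0, 2, 6), -350), ((12, 5, 9), (0, 2, 6), 1669),
    ((7, 4, 1), (0, 3, 6), -75), ((4, 7, 10), (0, 3, 6), 58), ((11, 8, 5), (0, 3, 6), -33), ((6, 4, 1), (1, 3, 6), -290),
    ((5, 7, 10), (1, 3, 6), -183), ((10, 8, 5), (1, 3, 6), 129), ((12, 5, 8), (1, 3, 6), 519), ((0, 2, 13), (1, 3, 6), -93),
    ((1, 2, 7), (6, 5, 0), 68), ((10, 9, 4), (6, 5, 0), -79), ((5, 6, 11), (6, 5, 0), 88), ((12, 4, 9), (6, 5, 0), -93),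
    ((4, 13, 10), (6, 5, 0), -93), ((5, 6, 10), (6, 5, 1), 54), ((10, 9, 5), (6, 5, 1), -13), ((12, 4, 8), (6, 5, 1), -233),
    ((13, 4, 0), (6, 5, 1), 120), ((5, 6, 9), (6, 5, 2), 54), ((10, 9, 6), (6, 5, 2), -13), ((4, 12, 0), (6, 5, 2), 120),
    ((4, 13, 8), (6, 5, 2), -233), ((7, 6, 0), (0, 1, 7), 46), ((4, 5, 11), (0, 1, 7), -25), ((11, 10, 4), (0, 1, 7), 24),
    ((7, 5, 0), (0, 2, 7), 46), ((4, 6, 11), (0, 2, 7), -25), ((11, 9, 4), (0, 2, 7), 24), ((7, 4, 0), (0, 3, 7), -18),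
    ((4, 7, 11), (0, 3, 7), 7), ((11, 8, 4), (0, 3, 7), -112), ((9, 8, 1), (0, 1, 8), 59), ((2, 3, 10), (0, 1, 8), 417),
    ((11, 10, 3), (0, 1, 8), -178), ((1, 3, 9), (0, 2, 8), 417), ((10, 8, 2), (0, 2, 8), 59), ((11, 9, 3), (0, 2, 8), -178),
    ((10, 9, 3), (1, 2, 8), -30), ((11, 8, 3), (0, 3, 8), -136), ((10, 8, 3), (1, 3, 8), -42), ((9, 8, 3), (2, 3, 8), -42),
    ((1, 5, 9), (0, 4, 8), 689), ((2, 6, 10), (0, 4, 8), 689), ((3, 7, 11), (0, 4, 8), -514), ((8, 5, 1), (1, 4, 8), 88),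
    ((3, 6, 10), (1, 4, 8), 429), ((10, 7, 3), (1, 4, 8), -227), ((8, 6, 2), (2, 4, 8), 88), ((3, 5, 9), (2, 4, 8), 429),
    ((9, 7, 3), (2, 4, 8), -227), ((8, 7, 3), (3, 4, 8), -210), ((1, 4, 9), (8, 5, 0), -290), ((10, 7, 2), (8, 5, 0), -214),
    ((3, 6, 11), (8, 5, 0), 63), ((2, 13, 10), (8, 5, 0), 290), ((9, 6, 3), (2, 5, 8), -155), ((8, 13, 2), (2, 5, 8), 134),
    ((9, 7, 1), (8, 6, 0), -214), ((2, 4, 10), (8, 6, 0), -290), ((3, 5, 11), (8, 6, 0), 63), ((1, 12, 9), (8, 6, 0), 290),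
    ((3, 5, 10), (8, 6, 1), -155), ((1, 12, 8), (8, 6, 1), 134), ((3, 4, 11), (8, 7, 0), -62), ((3, 4, 10), (8, 7, 1), -41),
    ((3, 4, 9), (8, 7, 2), -41), ((9, 8, 0), (0, 1, 9), -7), ((2, 3, 11), (0, 1, 9), 135), ((11, 10, 2), (0, 1, 9), -14),
    ((11, 9, 2), (0, 2, 9), -9), ((10, 9, 2), (1, 2, 9), -16), ((11, 8, 2), (0, 3, 9), -38), ((9, 8, 2), (2, 3, 9), -52),
    ((9, 5, 0), (0, 4, 9), 177), ((2, 6, 11), (0, 4, 9), 150), ((11, 7, 2), (0, 4, 9), -112), ((9, 7, 2), (2, 4, 9), -92),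
    ((9, 6, 2), (2, 5, 9), 177), ((2, 5, 11), (9, 6, 0), 16), ((0, 12, 9), (9, 6, 0), 70), ((2, 5, 10), (9, 6, 1), -48),
    ((0, 12, 8), (9, 6, 1), 48), ((8, 13, 0), (9, 6, 1), 48), ((2, 4, 11), (9, 7, 0), 39), ((11, 10, 1), (0, 1, 10), -9),
    ((10, 8, 0), (0, 2, 10), -7), ((1, 3, 11), (0, 2, 10), 135), ((11, 9, 1), (0, 2, 10), -14), ((10, 9, 1), (1, 2, 10), -16),
    ((11, 8, 1), (0, 3, 10), -38), ((10, 8, 1), (1, 3, 10), -52), ((10, 6, 0), (0, 4, 10), 177), ((1, 5, 11), (0, 4, 10), 150),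
    ((11, 7, 1), (0, 4, 10), -112), ((10, 7, 1), (1, 4, 10), -92), ((11, 6, 1), (0, 5, 10), 16), ((10, 13, 0), (0, 5, 10), 70),
    ((10, 6, 1), (1, 5, 10), -177), ((1, 4, 11), (10, 7, 0), 39), ((1, 2, 11), (10, 9, 0), 101), ((11, 10, 0), (0, 1, 11), 2),
    ((11, 9, 0), (0, 2, 11), 2), ((11, 8, 0), (0, 3, 11), -39), ((11, 7, 0), (0, 4, 11), 41), ((5, 12, 2), (0, 2, 12), -22),
    ((4, 12, 2), (1, 2, 12), 22), ((5, 12, 3), (1, 3, 12), -479), ((12, 6, 8), (6, 12, 1), -218), ((6, 5, 12), (12, 4, 6), 77),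
    ((12, 7, 9), (7, 12, 1), -69), ((10, 9, 12), (12, 4, 10), 74), ((10, 8, 12), (12, 5, 10), 137), ((11, 9, 12), (12, 5, 11), 70),
    ((6, 13, 1), (0, 1, 13), -22), ((13, 4, 1), (1, 2, 13), 22), ((6, 13, 3), (2, 3, 13), -479), ((5, 13, 8), (13, 5, 2), -218),
    ((6, 13, 5), (4, 5, 13), 77), ((13, 7, 10), (7, 13, 2), -69), ((10, 9, 13), (4, 13, 9), 74), ((9, 8, 13), (13, 6, 9), 137),
    ((11, 10, 13), (13, 6, 11), 70), ((12, 13, 8), (13, 12, 0), -70)]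
  tr := tr14
  big := 1048576

theorem ct24_valid : validC ct24 = true := by decide +kernel

theorem ct24_const : constOK ct24 4976 = true := by decide +kernel

/-- classes -/
def cs24 : List Cl := [
 cl 0 1 0 1 5216 0 145, cl 0 2 0 0 0 171 168, cl 1 0 0 0 8035 0 119, cl 1 1 0 1 0 1736 126,
 cl 1 2 0 0 0 0 237, cl 2 0 0 0 436 0 84, cl 2 1 0 1 0 258 90, cl 2 2 0 0 0 0 106,
 cl 1 0 0 2 124 0 94, cl 0 0 0 2 0 2381 106, cl 1 0 1 1 5270 0 101, cl 2 0 1 1 0 1638 78,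
 cl 2 0 0 2 0 166 78, cl 1 0 1 3 0 0 79, cl 1 0 2 0 0 2195 97, cl 2 0 2 0 0 649 75,
 cl 1 0 2 2 0 1096 85, cl 0 1 0 3 0 0 87, cl 0 2 0 2 278 0 103, cl 1 1 0 3 282 0 85,
 cl 1 2 0 2 0 0 105, cl 0 0 0 4 0 70 75]

theorem ct24_link : linkOK ct24 cs24 = true := by decide +kernel

theorem cs24_tail : tailOK cs24 32 16 80 4976 = true := by decide +kernel

theorem cs24_grid : gridOK vtTree cs24 32 16 80 16 0 4624731776 5995 4976 = true := by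
  decide +kernel

/-! ### Box 25: `32 ≤ -128 x ≤ 48`, `96 ≤ 128 y ≤ 112` -/

/-- certificate -/
def ct25 : Cert where
  pts := pts14
  g := 6682
  al := [(0, 744), (1, 723), (2, 723), (3, 1710), (4, 1519), (5, 2587), (6, 2587), (7, 101), (8, 1860), (9, 167), (10, 167), (11, 129), (12, 408), (13, 408)]
  be := [
    (1, 0, 377), (2, 0, 377), (2, 1, -661), (3, 0, 188), (3, 1, 404), (3, 2, 404), (4, 0, 1150),
    (4, 1, 1259), (4, 2, 1259), (4, 3, -1708), (5, 0, -690), (5, 1, 977), (5, 2, 105), (5, 3, 448),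
    (5, 4, 146), (6, 0, -690), (6, 1, 105), (6, 2, 977), (6, 3, 448), (6, 4, 146), (6, 5, -2111),
    (7, 0, 387), (7, 1, 376), (7, 2, 376), (7, 3, 1621), (7, 4, -697), (7, 5, -393), (7, 6, -393),
    (8, 0, -679), (8, 1, -543), (8, 2, -543), (8, 3, -533), (8, 4, 1172), (8, 5, -241), (8, 6, -241),
    (8, 7, -1273), (9, 0, 140), (9, 1, 352), (9, 2, -343), (9, 3, -140), (9, 4, 181), (9, 5, 93),
    (9, 6, 393), (9, 7, 1330), (9, 8, 926), (10, 0, 140), (10, 1, -343), (10, 2, 352), (10, 3, -140),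
    (10, 4, 181), (10, 5, 393), (10, 6, 93), (10, 7, 1330), (10, 8, 926), (10, 9, -60), (11, 1, -140),
    (11, 2, -140), (11, 3, -25), (11, 4, -165), (11, 5, -471), (11, 6, -471), (11, 7, 1106), (11, 8, 508),
    (11, 9, 594), (11, 10, 594), (12, 0, -769), (12, 1, -289), (12, 3, -320), (12, 4, -336), (12, 5, -843),
    (12, 7, 766), (12, 8, -345), (12, 9, -647), (12, 10, -11), (12, 11, 75), (13, 0, -769), (13, 2, -289),
    (13, 3, -320), (13, 4, -336), (13, 6, -843), (13, 7, 766), (13, 8, -345), (13, 9, -11), (13, 10, -647),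
    (13, 11, 75)]
  ta := [
    ((3, 2, 1), (0, 1, 2), -108), ((4, 5, 6), (0, 1, 2), -195), ((7, 6, 5), (0, 1, 2), 403), ((8, 9, 10), (0, 1, 2), -345),
    ((11, 10, 9), (0, 1, 2), -266), ((5, 4, 12), (0, 1, 2), 285), ((6, 13, 4), (0, 1, 2), 285), ((3, 2, 0), (0, 1, 3), -404),
    ((4, 5, 7), (0, 1, 3), 1067), ((7, 6, 4), (0, 1, 3), 1067), ((8, 9, 11), (0, 1, 3), -663), ((11, 10, 8), (0, 1, 3), -663),
    ((6, 5, 3), (1, 2, 4), 404), ((5, 6, 8), (1, 2, 4), -242), ((10, 9, 7), (1, 2, 4), -103), ((4, 12, 1), (1, 2, 4), -35),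
    ((13, 4, 2), (1, 2, 4), -35), ((7, 4, 3), (0, 3, 4), 511), ((4, 7, 8), (0, 3, 4), 64), ((11, 8, 7), (0, 3, 4), -236),
    ((6, 4, 3), (1, 3, 4), 223), ((5, 7, 8), (1, 3, 4), 329), ((10, 8, 7), (1, 3, 4), -317), ((5, 4, 3), (2, 3, 4), 223),
    ((6, 7, 8), (2, 3, 4), 329), ((9, 8, 7), (2, 3, 4), -317), ((5, 4, 0), (0, 1, 5), -319), ((2, 3, 7), (0, 1, 5), -685),
    ((7, 6, 2), (0, 1, 5), 463), ((4, 5, 9), (0, 1, 5), -52), ((9, 8, 4), (0, 1, 5), -489), ((6, 7, 11), (0, 1, 5), -180),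
    ((11, 10, 6), (0, 1, 5), -466), ((13, 6, 10), (0, 1, 5), 1969), ((7, 5, 2), (0, 2, 5), -242), ((4, 6, 9), (0, 2, 5), -86),
    ((11, 9, 6), (0, 2, 5), -8), ((5, 12, 0), (0, 2, 5), 268), ((10, 8, 13), (0, 2, 5), 97), ((6, 5, 2), (1, 2, 5), -216),
    ((5, 6, 9), (1, 2, 5), -395), ((10, 9, 6), (1, 2, 5), -6), ((4, 12, 0), (1, 2, 5), 307), ((4, 13, 8), (1, 2, 5), 210),
    ((7, 4, 2), (0, 3, 5), -14), ((4, 7, 9), (0, 3, 5), 10), ((11, 8, 6), (0, 3, 5), -91), ((5, 4, 2), (2, 3, 5), -726),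
    ((6, 7, 9), (2, 3, 5), -431), ((9, 8, 6), (2, 3, 5), -493), ((0, 1, 12), (2, 3, 5), 143), ((13, 6, 8), (2, 3, 5), 1758),
    ((7, 6, 1), (0, 1, 6), -242), ((4, 5, 10), (0, 1, 6), -86), ((11, 10, 5), (0, 1, 6), -8), ((9, 8, 12), (0, 1, 6), 97),
    ((6, 13, 0), (0, 1, 6), 268), ((6, 4, 0), (0, 2, 6), -319), ((1, 3, 7), (0, 2, 6), -685), ((7, 5, 1), (0, 2, 6), 463),
    ((4, 6, 10), (0, 2, 6), -52), ((10, 8, 4), (0, 2, 6), -489), ((5, 7, 11), (0, 2, 6), -180), ((11, 9, 5), (0, 2, 6), -466),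
    ((12, 5, 9), (0, 2, 6), 1969), ((6, 5, 1), (1, 2, 6), -216), ((5, 6, 10), (1, 2, 6), -395), ((10, 9, 5), (1, 2, 6), -6),
    ((12, 4, 8), (1, 2, 6), 210), ((13, 4, 0), (1, 2, 6), 307), ((7, 4, 1), (0, 3, 6), -14), ((4, 7, 10), (0, 3, 6), 10),
    ((11, 8, 5), (0, 3, 6), -91), ((6, 4, 1), (1, 3, 6), -726), ((5, 7, 10), (1, 3, 6), -431), ((10, 8, 5), (1, 3, 6), -493),
    ((12, 5, 8), (1, 3, 6), 1758), ((0, 2, 13), (1, 3, 6), 143), ((1, 2, 7), (6, 5, 0), -74), ((10, 9, 4), (6, 5, 0), -76),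
    ((5, 6, 11), (6, 5, 0), 195), ((12, 4, 9), (6, 5, 0), -31), ((4, 13, 10), (6, 5, 0), -31), ((7, 6, 0), (0, 1, 7), 23),
    ((4, 5, 11), (0, 1, 7), 83), ((11, 10, 4), (0, 1, 7), 14), ((7, 5, 0), (0, 2, 7), 23), ((4, 6, 11), (0, 2, 7), 83),
    ((11, 9, 4), (0, 2, 7), 14), ((7, 4, 0), (0, 3, 7), -124), ((4, 7, 11), (0, 3, 7), 164), ((11, 8, 4), (0, 3, 7), -100),
    ((9, 8, 1), (0, 1, 8), -41), ((2, 3, 10), (0, 1, 8), -60), ((11, 10, 3), (0, 1, 8), -8), ((1, 3, 9), (0, 2, 8), -60),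
    ((10, 8, 2), (0, 2, 8), -41), ((11, 9, 3), (0, 2, 8), -8), ((10, 9, 3), (1, 2, 8), -100), ((11, 8, 3), (0, 3, 8), -69),
    ((10, 8, 3), (1, 3, 8), 32), ((9, 8, 3), (2, 3, 8), 32), ((1, 5, 9), (0, 4, 8), 586), ((2, 6, 10), (0, 4, 8), 586),
    ((3, 7, 11), (0, 4, 8), -689), ((8, 5, 1), (1, 4, 8), 605), ((3, 6, 10), (1, 4, 8), 289), ((10, 7, 3), (1, 4, 8), -459),
    ((8, 6, 2), (2, 4, 8), 605), ((3, 5, 9), (2, 4, 8), 289), ((9, 7, 3), (2, 4, 8), -459), ((8, 7, 3), (3, 4, 8), -146),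
    ((1, 4, 9), (8, 5, 0), -364), ((10, 7, 2), (8, 5, 0), -321), ((3, 6, 11), (8, 5, 0), 193), ((2, 13, 10), (8, 5, 0), 66),
    ((9, 6, 3), (2, 5, 8), -315), ((8, 13, 2), (2, 5, 8), 547), ((9, 7, 1), (8, 6, 0), -321), ((2, 4, 10), (8, 6, 0), -364),
    ((3, 5, 11), (8, 6, 0), 193), ((1, 12, 9), (8, 6, 0), 66), ((3, 5, 10), (8, 6, 1), -315), ((1, 12, 8), (8, 6, 1), 547),
    ((3, 4, 11), (8, 7, 0), 130), ((3, 4, 10), (8, 7, 1), 112), ((3, 4, 9), (8, 7, 2), 112), ((9, 8, 0), (0, 1, 9), -12),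
    ((2, 3, 11), (0, 1, 9), 19), ((11, 10, 2), (0, 1, 9), 101), ((11, 9, 2), (0, 2, 9), 37), ((10, 9, 2), (1, 2, 9), -55),
    ((11, 8, 2), (0, 3, 9), -37), ((9, 8, 2), (2, 3, 9), -101), ((9, 5, 0), (0, 4, 9), 394), ((2, 6, 11), (0, 4, 9), 243),
    ((11, 7, 2), (0, 4, 9), -255), ((9, 7, 2), (2, 4, 9), -119), ((9, 6, 2), (2, 5, 9), 58), ((2, 5, 11), (9, 6, 0), 52),
    ((0, 12, 9), (9, 6, 0), 75), ((2, 5, 10), (9, 6, 1), -370), ((0, 12, 8), (9, 6, 1), 370), ((8, 13, 0), (9, 6, 1), 370),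
    ((2, 4, 11), (9, 7, 0), 23), ((11, 10, 1), (0, 1, 10), 37), ((10, 8, 0), (0, 2, 10), -12), ((1, 3, 11), (0, 2, 10), 19),
    ((11, 9, 1), (0, 2, 10), 101), ((10, 9, 1), (1, 2, 10), -55), ((11, 8, 1), (0, 3, 10), -37), ((10, 8, 1), (1, 3, 10), -101),
    ((10, 6, 0), (0, 4, 10), 394), ((1, 5, 11), (0, 4, 10), 243), ((11, 7, 1), (0, 4, 10), -255), ((10, 7, 1), (1, 4, 10), -119),
    ((11, 6, 1), (0, 5, 10), 52), ((10, 13, 0), (0, 5, 10), 75), ((10, 6, 1), (1, 5, 10), -58), ((1, 4, 11), (10, 7, 0), 23),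
    ((1, 2, 11), (10, 9, 0), 56), ((11, 10, 0), (0, 1, 11), -4), ((11, 9, 0), (0, 2, 11), -4), ((11, 8, 0), (0, 3, 11), -10),
    ((11, 7, 0), (0, 4, 11), 12), ((5, 12, 2), (0, 2, 12), -47), ((4, 12, 2), (1, 2, 12), -148), ((5, 12, 3), (1, 3, 12), -429),
    ((12, 6, 9), (6, 12, 0), -131), ((12, 6, 8), (6, 12, 1), -303), ((6, 5, 12), (12, 4, 6), 75), ((12, 7, 9), (7, 12, 1), 303),
    ((10, 9, 12), (12, 4, 10), 150), ((10, 8, 12), (12, 5, 10), -75), ((11, 9, 12), (12, 5, 11), 161), ((6, 13, 1), (0, 1, 13), -47),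
    ((13, 4, 1), (1, 2, 13), -148), ((6, 13, 3), (2, 3, 13), -429), ((5, 13, 10), (13, 5, 0), -131), ((5, 13, 8), (13, 5, 2), -303),
    ((6, 13, 5), (4, 5, 13), 75), ((13, 7, 10), (7, 13, 2), 303), ((10, 9, 13), (4, 13, 9), 150), ((9, 8, 13), (13, 6, 9), -75),
    ((11, 10, 13), (13, 6, 11), 161)]
  tr := tr14
  big := 1048576

theorem ct25_valid : validC ct25 = true := by decide +kernel

theorem ct25_const : constOK ct25 3999 = true := by decide +kernel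

/-- classes -/
def cs25 : List Cl := [
 cl 0 1 0 1 2422 0 134, cl 0 2 0 0 0 1 168, cl 1 0 0 0 7189 0 119, cl 1 1 0 1 0 2502 120,
 cl 1 2 0 0 222 0 237, cl 2 0 0 0 0 0 84, cl 2 1 0 1 0 0 89, cl 2 2 0 0 0 0 106,
 cl 1 0 0 2 0 1232 89, cl 0 0 0 2 0 3504 97, cl 1 0 1 1 5014 0 99, cl 2 0 1 1 0 1366 77,
 cl 2 0 0 2 0 686 75, cl 1 0 1 3 0 0 74, cl 1 0 2 0 0 2981 97, cl 2 0 2 0 0 533 75,
 cl 1 0 2 2 0 640 82, cl 0 1 0 3 0 0 79, cl 0 2 0 2 1532 0 95, cl 1 1 0 3 0 22 78,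
 cl 1 2 0 2 150 0 97, cl 0 0 0 4 0 0 69]

theorem ct25_link : linkOK ct25 cs25 = true := by decide +kernel

theorem cs25_tail : tailOK cs25 32 16 96 3999 = true := by decide +kernel

theorem cs25_grid : gridOK vtTree cs25 32 16 96 16 859684672 0 6753 3999 = true := by
  decide +kernel

end Pool.Agent.H79.OC
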