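import Pool.Agent.H79.OC.Pts
import Pool.Agent.H79.OC.VTab

set_option autoImplicit false
set_option maxRecDepth 100000

/-!
# Certificates, part 14
-/

namespace Pool.Agent.H79.OC

open Cl

/-! ### Box 26: `32 ≤ -128 x ≤ 48`, `112 ≤ 128 y ≤ 128` -/

/-- certificate -/
def ct26 : Cert where
  pts := pts14
  g := 6865
  al := [(0, 127), (1, 834), (2, 834), (3, 2157), (4, 1527), (5, 3705), (6, 3705), (7, 270), (8, 2226), (9, 235), (10, 235), (11, -364), (12, 28), (13, 28)]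
  be := [
    (1, 0, 762), (2, 0, 762), (2, 1, -795), (3, 0, 91), (3, 1, 30), (3, 2, 30), (4, 0, 1041),
    (4, 1, 1089), (4, 2, 1089), (4, 3, -2156), (5, 0, -524), (5, 1, 388), (5, 2, -134), (5, 3, -217),
    (5, 4, -232), (6, 0, -524), (6, 1, -134), (6, 2, 388), (6, 3, -217), (6, 4, -232), (6, 5, -3295),
    (7, 0, 29), (7, 1, 313), (7, 2, 313), (7, 3, 1900), (7, 4, -1019), (7, 5, -447), (7, 6, -447),
    (8, 0, -36), (8, 1, -298), (8, 2, -298), (8, 3, -484), (8, 4, 1383), (8, 5, -647), (8, 6, -647),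
    (8, 7, -1126), (9, 0, 59), (9, 1, 211), (9, 2, -428), (9, 3, -190), (9, 4, 215), (9, 5, 715),
    (9, 6, -8), (9, 7, 1787), (9, 8, 625), (10, 0, 59), (10, 1, -428), (10, 2, 211), (10, 3, -190),
    (10, 4, 215), (10, 5, -8), (10, 6, 715), (10, 7, 1787), (10, 8, 625), (10, 9, -382), (11, 0, -2),
    (11, 1, 186), (11, 2, 186), (11, 3, 601), (11, 4, -29), (11, 5, -469), (11, 6, -469), (11, 7, 794),
    (11, 8, 228), (11, 9, 743), (11, 10, 743), (12, 0, -351), (12, 1, -158), (12, 3, -294), (12, 4, 289),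
    (12, 5, -1209), (12, 7, 766), (12, 8, -602), (12, 9, -594), (12, 11, 164), (13, 0, -351), (13, 2, -158),
    (13, 3, -294), (13, 4, 289), (13, 6, -1209), (13, 7, 766), (13, 8, -602), (13, 10, -594), (13, 11, 164)]
  ta := [
    ((3, 2, 1), (0, 1, 2), 72), ((4, 5, 6), (0, 1, 2), 29), ((7, 6, 5), (0, 1, 2), 99), ((8, 9, 10), (0, 1, 2), -174),
    ((11, 10, 9), (0, 1, 2), -419), ((5, 4, 12), (0, 1, 2), 286), ((6, 13, 4), (0, 1, 2), 286), ((3, 2, 0), (0, 1, 3), -525),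
    ((4, 5, 7), (0, 1, 3), 1269), ((7, 6, 4), (0, 1, 3), 1269), ((8, 9, 11), (0, 1, 3), -744), ((11, 10, 8), (0, 1, 3), -744),
    ((6, 5, 3), (1, 2, 4), 566), ((5, 6, 8), (1, 2, 4), 10), ((10, 9, 7), (1, 2, 4), -328), ((4, 12, 1), (1, 2, 4), -121),
    ((13, 4, 2), (1, 2, 4), -121), ((7, 4, 3), (0, 3, 4), 444), ((4, 7, 8), (0, 3, 4), -128), ((11, 8, 7), (0, 3, 4), -139),
    ((6, 4, 3), (1, 3, 4), 598), ((5, 7, 8), (1, 3, 4), 160), ((10, 8, 7), (1, 3, 4), -641), ((5, 4, 3), (2, 3, 4), 598),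
    ((6, 7, 8), (2, 3, 4), 160), ((9, 8, 7), (2, 3, 4), -641), ((5, 4, 0), (0, 1, 5), -162), ((2, 3, 7), (0, 1, 5), -663),
    ((7, 6, 2), (0, 1, 5), 651), ((4, 5, 9), (0, 1, 5), -261), ((9, 8, 4), (0, 1, 5), -526), ((6, 7, 11), (0, 1, 5), -51),
    ((11, 10, 6), (0, 1, 5), -667), ((13, 6, 10), (0, 1, 5), 2200), ((7, 5, 2), (0, 2, 5), -333), ((4, 6, 9), (0, 2, 5), -77),
    ((11, 9, 6), (0, 2, 5), 1), ((5, 12, 0), (0, 2, 5), 28), ((10, 8, 13), (0, 2, 5), 481), ((6, 5, 2), (1, 2, 5), 102),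
    ((5, 6, 9), (1, 2, 5), -461), ((10, 9, 6), (1, 2, 5), -37), ((4, 12, 0), (1, 2, 5), 164), ((4, 13, 8), (1, 2, 5), 122),
    ((7, 4, 2), (0, 3, 5), -133), ((4, 7, 9), (0, 3, 5), 166), ((11, 8, 6), (0, 3, 5), 2), ((5, 4, 2), (2, 3, 5), -718),
    ((6, 7, 9), (2, 3, 5), -827), ((9, 8, 6), (2, 3, 5), -483), ((0, 1, 12), (2, 3, 5), -219), ((13, 6, 8), (2, 3, 5), 2494),
    ((7, 6, 1), (0, 1, 6), -333), ((4, 5, 10), (0, 1, 6), -77), ((11, 10, 5), (0, 1, 6), 1), ((9, 8, 12), (0, 1, 6), 481),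
    ((6, 13, 0), (0, 1, 6), 28), ((6, 4, 0), (0, 2, 6), -162), ((1, 3, 7), (0, 2, 6), -663), ((7, 5, 1), (0, 2, 6), 651),
    ((4, 6, 10), (0, 2, 6), -261), ((10, 8, 4), (0, 2, 6), -526), ((5, 7, 11), (0, 2, 6), -51), ((11, 9, 5), (0, 2, 6), -667),
    ((12, 5, 9), (0, 2, 6), 2200), ((6, 5, 1), (1, 2, 6), 102), ((5, 6, 10), (1, 2, 6), -461), ((10, 9, 5), (1, 2, 6), -37),
    ((12, 4, 8), (1, 2, 6), 122), ((13, 4, 0), (1, 2, 6), 164), ((7, 4, 1), (0, 3, 6), -133), ((4, 7, 10), (0, 3, 6), 166),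
    ((11, 8, 5), (0, 3, 6), 2), ((6, 4, 1), (1, 3, 6), -718), ((5, 7, 10), (1, 3, 6), -827), ((10, 8, 5), (1, 3, 6), -483),
    ((12, 5, 8), (1, 3, 6), 2494), ((0, 2, 13), (1, 3, 6), -219), ((1, 2, 7), (6, 5, 0), 123), ((10, 9, 4), (6, 5, 0), 153),
    ((5, 6, 11), (6, 5, 0), 419), ((12, 4, 9), (6, 5, 0), -494), ((4, 13, 10), (6, 5, 0), -494), ((7, 6, 0), (0, 1, 7), 11),
    ((4, 5, 11), (0, 1, 7), 2), ((11, 10, 4), (0, 1, 7), 50), ((7, 5, 0), (0, 2, 7), 11), ((4, 6, 11), (0, 2, 7), 2),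
    ((11, 9, 4), (0, 2, 7), 50), ((7, 4, 0), (0, 3, 7), 22), ((4, 7, 11), (0, 3, 7), 352), ((11, 8, 4), (0, 3, 7), -224),
    ((9, 8, 1), (0, 1, 8), -94), ((2, 3, 10), (0, 1, 8), 73), ((11, 10, 3), (0, 1, 8), 28), ((1, 3, 9), (0, 2, 8), 73),
    ((10, 8, 2), (0, 2, 8), -94), ((11, 9, 3), (0, 2, 8), 28), ((10, 9, 3), (1, 2, 8), -25), ((11, 8, 3), (0, 3, 8), -93),
    ((10, 8, 3), (1, 3, 8), -27), ((9, 8, 3), (2, 3, 8), -27), ((1, 5, 9), (0, 4, 8), 635), ((2, 6, 10), (0, 4, 8), 635),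
    ((3, 7, 11), (0, 4, 8), -756), ((8, 5, 1), (1, 4, 8), 539), ((3, 6, 10), (1, 4, 8), 317), ((10, 7, 3), (1, 4, 8), -429),
    ((8, 6, 2), (2, 4, 8), 539), ((3, 5, 9), (2, 4, 8), 317), ((9, 7, 3), (2, 4, 8), -429), ((8, 7, 3), (3, 4, 8), -277),
    ((1, 4, 9), (8, 5, 0), -137), ((10, 7, 2), (8, 5, 0), -492), ((3, 6, 11), (8, 5, 0), 70), ((2, 13, 10), (8, 5, 0), 284),
    ((9, 6, 3), (2, 5, 8), -184), ((8, 13, 2), (2, 5, 8), 438), ((9, 7, 1), (8, 6, 0), -492), ((2, 4, 10), (8, 6, 0), -137),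
    ((3, 5, 11), (8, 6, 0), 70), ((1, 12, 9), (8, 6, 0), 284), ((3, 5, 10), (8, 6, 1), -184), ((1, 12, 8), (8, 6, 1), 438),
    ((3, 4, 11), (8, 7, 0), 9), ((3, 4, 10), (8, 7, 1), 26), ((3, 4, 9), (8, 7, 2), 26), ((9, 8, 0), (0, 1, 9), -46),
    ((2, 3, 11), (0, 1, 9), -124), ((11, 10, 2), (0, 1, 9), 148), ((11, 9, 2), (0, 2, 9), 33), ((10, 9, 2), (1, 2, 9), 23),
    ((11, 8, 2), (0, 3, 9), -68), ((9, 8, 2), (2, 3, 9), -75), ((9, 5, 0), (0, 4, 9), 215), ((2, 6, 11), (0, 4, 9), 369),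
    ((11, 7, 2), (0, 4, 9), -276), ((9, 7, 2), (2, 4, 9), -103), ((9, 6, 2), (2, 5, 9), 213), ((2, 5, 11), (9, 6, 0), -145),
    ((0, 12, 9), (9, 6, 0), 164), ((2, 5, 10), (9, 6, 1), -201), ((0, 12, 8), (9, 6, 1), 201), ((8, 13, 0), (9, 6, 1), 201),
    ((2, 4, 11), (9, 7, 0), -21), ((11, 10, 1), (0, 1, 10), 33), ((10, 8, 0), (0, 2, 10), -46), ((1, 3, 11), (0, 2, 10), -124),
    ((11, 9, 1), (0, 2, 10), 148), ((10, 9, 1), (1, 2, 10), 23), ((11, 8, 1), (0, 3, 10), -68), ((10, 8, 1), (1, 3, 10), -75),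
    ((10, 6, 0), (0, 4, 10), 215), ((1, 5, 11), (0, 4, 10), 369), ((11, 7, 1), (0, 4, 10), -276), ((10, 7, 1), (1, 4, 10), -103),
    ((11, 6, 1), (0, 5, 10), -145), ((10, 13, 0), (0, 5, 10), 164), ((10, 6, 1), (1, 5, 10), -213), ((1, 4, 11), (10, 7, 0), -21),
    ((1, 2, 11), (10, 9, 0), -35), ((11, 10, 0), (0, 1, 11), -45), ((11, 9, 0), (0, 2, 11), -45), ((11, 8, 0), (0, 3, 11), -88),
    ((11, 7, 0), (0, 4, 11), 75), ((4, 12, 2), (1, 2, 12), -160), ((5, 12, 3), (1, 3, 12), -294), ((12, 6, 9), (6, 12, 0), -122),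
    ((12, 6, 8), (6, 12, 1), -294), ((6, 5, 12), (12, 4, 6), 172), ((12, 7, 9), (7, 12, 1), 200), ((10, 9, 12), (12, 4, 10), 79),
    ((10, 8, 12), (12, 5, 10), -79), ((11, 9, 12), (12, 5, 11), 164), ((13, 4, 1), (1, 2, 13), -160), ((6, 13, 3), (2, 3, 13), -294),
    ((5, 13, 10), (13, 5, 0), -122), ((5, 13, 8), (13, 5, 2), -294), ((6, 13, 5), (4, 5, 13), 172), ((13, 7, 10), (7, 13, 2), 200),
    ((10, 9, 13), (4, 13, 9), 79), ((9, 8, 13), (13, 6, 9), -79), ((11, 10, 13), (13, 6, 11), 164)]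
  tr := tr14
  big := 1048576

theorem ct26_valid : validC ct26 = true := by decide +kernel

theorem ct26_const : constOK ct26 3456 = true := by decide +kernel

/-- classes -/
def cs26 : List Cl := [
 cl 0 1 0 1 544 0 125, cl 0 2 0 0 0 700 168, cl 1 0 0 0 7324 0 119, cl 1 1 0 1 0 2118 115,
 cl 1 2 0 0 0 0 237, cl 2 0 0 0 987 0 84, cl 2 1 0 1 490 0 88, cl 2 2 0 0 0 2 106,
 cl 1 0 0 2 0 2190 84, cl 0 0 0 2 0 3894 90, cl 1 0 1 1 3708 0 96, cl 2 0 1 1 0 976 77,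
 cl 2 0 0 2 0 856 73, cl 1 0 1 3 0 0 70, cl 1 0 2 0 0 3282 97, cl 2 0 2 0 0 484 75,
 cl 1 0 2 2 0 588 78, cl 0 1 0 3 0 0 73, cl 0 2 0 2 1532 0 88, cl 1 1 0 3 0 0 73,
 cl 1 2 0 2 328 0 90, cl 0 0 0 4 0 0 64]

theorem ct26_link : linkOK ct26 cs26 = true := by decide +kernel

theorem cs26_tail : tailOK cs26 32 16 112 3456 = true := by decide +kernel

theorem cs26_grid : gridOK vtTree cs26 32 16 112 16 3670554176 0 6931 3456 = true := by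
  decide +kernel

/-! ### Box 27: `16 ≤ -128 x ≤ 32`, `16 ≤ 128 y ≤ 32` -/

/-- certificate -/
def ct27 : Cert where
  pts := pts14
  g := 3774
  al := [(0, 326), (1, 437), (2, 437), (3, 2331), (4, 1346), (5, 375), (6, 375), (7, -813), (8, -293), (9, -222), (10, -222), (11, 207), (12, 262), (13, 262)]
  be := [
    (1, 0, 149), (2, 0, 149), (2, 1, -827), (3, 0, -648), (3, 1, -877), (3, 2, -877), (4, 0, -154),
    (4, 1, 311), (4, 2, 311), (4, 3, -2312), (5, 0, 64), (5, 1, 1901), (5, 2, -721), (5, 3, 468),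
    (5, 4, 737), (6, 0, 64), (6, 1, -721), (6, 2, 1901), (6, 3, 468), (6, 4, 737), (6, 5, -965),
    (7, 0, 200), (7, 1, 413), (7, 2, 413), (7, 3, 1987), (7, 4, -168), (7, 5, 910), (7, 6, 910),
    (8, 0, 192), (8, 1, -140), (8, 2, -140), (8, 3, 123), (8, 4, 2306), (8, 5, 700), (8, 6, 700),
    (8, 7, -388), (9, 0, 94), (9, 1, 227), (9, 3, -412), (9, 4, -198), (9, 5, 119), (9, 6, 246),
    (9, 7, 1444), (9, 8, 656), (10, 0, 94), (10, 2, 227), (10, 3, -412), (10, 4, -198), (10, 5, 246),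
    (10, 6, 119), (10, 7, 1444), (10, 8, 656), (10, 9, -101), (11, 1, -94), (11, 2, -94), (11, 3, -112),
    (11, 4, -200), (11, 5, -271), (11, 6, -271), (11, 7, 784), (11, 8, 247), (11, 9, 459), (11, 10, 459),
    (12, 0, 16), (12, 1, 48), (12, 2, 89), (12, 3, -575), (12, 4, -454), (12, 5, -11), (12, 7, 252),
    (12, 8, 367), (12, 9, -575), (12, 10, -17), (12, 11, 11), (13, 0, 16), (13, 1, 89), (13, 2, 48),
    (13, 3, -575), (13, 4, -454), (13, 6, -11), (13, 7, 252), (13, 8, 367), (13, 9, -17), (13, 10, -575),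
    (13, 11, 11), (13, 12, -11)]
  ta := [
    ((3, 2, 1), (0, 1, 2), 430), ((4, 5, 6), (0, 1, 2), -197), ((7, 6, 5), (0, 1, 2), -459), ((8, 9, 10), (0, 1, 2), 187),
    ((11, 10, 9), (0, 1, 2), -59), ((5, 4, 12), (0, 1, 2), -188), ((6, 13, 4), (0, 1, 2), -188), ((3, 2, 0), (0, 1, 3), 215),
    ((4, 5, 7), (0, 1, 3), 153), ((7, 6, 4), (0, 1, 3), 153), ((8, 9, 11), (0, 1, 3), -368), ((11, 10, 8), (0, 1, 3), -368),
    ((6, 5, 3), (1, 2, 4), -61), ((5, 6, 8), (1, 2, 4), -450), ((10, 9, 7), (1, 2, 4), -303), ((4, 12, 1), (1, 2, 4), 157),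
    ((13, 4, 2), (1, 2, 4), 157), ((7, 4, 3), (0, 3, 4), -2), ((4, 7, 8), (0, 3, 4), -555), ((11, 8, 7), (0, 3, 4), -266),
    ((6, 4, 3), (1, 3, 4), 147), ((5, 7, 8), (1, 3, 4), -270), ((10, 8, 7), (1, 3, 4), -501), ((5, 4, 3), (2, 3, 4), 147),
    ((6, 7, 8), (2, 3, 4), -270), ((9, 8, 7), (2, 3, 4), -501), ((5, 4, 0), (0, 1, 5), -324), ((2, 3, 7), (0, 1, 5), -209),
    ((7, 6, 2), (0, 1, 5), -453), ((4, 5, 9), (0, 1, 5), 371), ((9, 8, 4), (0, 1, 5), -302), ((6, 7, 11), (0, 1, 5), -140),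
    ((11, 10, 6), (0, 1, 5), -245), ((13, 6, 10), (0, 1, 5), 1795), ((7, 5, 2), (0, 2, 5), 186), ((4, 6, 9), (0, 2, 5), -33),
    ((11, 9, 6), (0, 2, 5), -60), ((5, 12, 0), (0, 2, 5), -25), ((10, 8, 13), (0, 2, 5), 59), ((6, 5, 2), (1, 2, 5), -41),
    ((5, 6, 9), (1, 2, 5), -312), ((10, 9, 6), (1, 2, 5), -104), ((4, 12, 0), (1, 2, 5), 208), ((4, 13, 8), (1, 2, 5), -85),
    ((7, 4, 2), (0, 3, 5), -172), ((4, 7, 9), (0, 3, 5), 140), ((11, 8, 6), (0, 3, 5), -103), ((5, 4, 2), (2, 3, 5), 67),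
    ((6, 7, 9), (2, 3, 5), -669), ((9, 8, 6), (2, 3, 5), -315), ((0, 1, 12), (2, 3, 5), -98), ((13, 6, 8), (2, 3, 5), 520),
    ((7, 6, 1), (0, 1, 6), 186), ((4, 5, 10), (0, 1, 6), -33), ((11, 10, 5), (0, 1, 6), -60), ((9, 8, 12), (0, 1, 6), 59),
    ((6, 13, 0), (0, 1, 6), -25), ((6, 4, 0), (0, 2, 6), -324), ((1, 3, 7), (0, 2, 6), -209), ((7, 5, 1), (0, 2, 6), -453),
    ((4, 6, 10), (0, 2, 6), 371), ((10, 8, 4), (0, 2, 6), -302), ((5, 7, 11), (0, 2, 6), -140), ((11, 9, 5), (0, 2, 6), -245),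
    ((12, 5, 9), (0, 2, 6), 1795), ((6, 5, 1), (1, 2, 6), -41), ((5, 6, 10), (1, 2, 6), -312), ((10, 9, 5), (1, 2, 6), -104),
    ((12, 4, 8), (1, 2, 6), -85), ((13, 4, 0), (1, 2, 6), 208), ((7, 4, 1), (0, 3, 6), -172), ((4, 7, 10), (0, 3, 6), 140),
    ((11, 8, 5), (0, 3, 6), -103), ((6, 4, 1), (1, 3, 6), 67), ((5, 7, 10), (1, 3, 6), -669), ((10, 8, 5), (1, 3, 6), -315),
    ((12, 5, 8), (1, 3, 6), 520), ((0, 2, 13), (1, 3, 6), -98), ((1, 2, 7), (6, 5, 0), -122), ((10, 9, 4), (6, 5, 0), -62),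
    ((5, 6, 11), (6, 5, 0), 252), ((12, 4, 9), (6, 5, 0), 53), ((4, 13, 10), (6, 5, 0), 53), ((7, 6, 0), (0, 1, 7), 287),
    ((4, 5, 11), (0, 1, 7), 25), ((11, 10, 4), (0, 1, 7), -7), ((7, 5, 0), (0, 2, 7), 287), ((4, 6, 11), (0, 2, 7), 25),
    ((11, 9, 4), (0, 2, 7), -7), ((7, 4, 0), (0, 3, 7), 8), ((4, 7, 11), (0, 3, 7), 146), ((11, 8, 4), (0, 3, 7), -252),
    ((9, 8, 1), (0, 1, 8), -136), ((2, 3, 10), (0, 1, 8), 206), ((11, 10, 3), (0, 1, 8), -93), ((1, 3, 9), (0, 2, 8), 206),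
    ((10, 8, 2), (0, 2, 8), -136), ((11, 9, 3), (0, 2, 8), -93), ((10, 9, 3), (1, 2, 8), 169), ((11, 8, 3), (0, 3, 8), 45),
    ((10, 8, 3), (1, 3, 8), 88), ((9, 8, 3), (2, 3, 8), 88), ((1, 5, 9), (0, 4, 8), 600), ((2, 6, 10), (0, 4, 8), 600),
    ((3, 7, 11), (0, 4, 8), -613), ((8, 5, 1), (1, 4, 8), 155), ((3, 6, 10), (1, 4, 8), 686), ((10, 7, 3), (1, 4, 8), -560),
    ((8, 6, 2), (2, 4, 8), 155), ((3, 5, 9), (2, 4, 8), 686), ((9, 7, 3), (2, 4, 8), -560), ((8, 7, 3), (3, 4, 8), -126),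
    ((1, 4, 9), (8, 5, 0), 58), ((10, 7, 2), (8, 5, 0), -297), ((3, 6, 11), (8, 5, 0), 54), ((2, 13, 10), (8, 5, 0), 208),
    ((9, 6, 3), (2, 5, 8), -24), ((8, 13, 2), (2, 5, 8), -213), ((9, 7, 1), (8, 6, 0), -297), ((2, 4, 10), (8, 6, 0), 58),
    ((3, 5, 11), (8, 6, 0), 54), ((1, 12, 9), (8, 6, 0), 208), ((3, 5, 10), (8, 6, 1), -24), ((1, 12, 8), (8, 6, 1), -213),
    ((3, 4, 11), (8, 7, 0), 176), ((3, 4, 10), (8, 7, 1), -49), ((3, 4, 9), (8, 7, 2), -49), ((9, 8, 0), (0, 1, 9), 20),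
    ((2, 3, 11), (0, 1, 9), 19), ((11, 10, 2), (0, 1, 9), -59), ((11, 9, 2), (0, 2, 9), -14), ((10, 9, 2), (1, 2, 9), 25),
    ((11, 8, 2), (0, 3, 9), 31), ((9, 8, 2), (2, 3, 9), 5), ((9, 5, 0), (0, 4, 9), 76), ((2, 6, 11), (0, 4, 9), -36),
    ((11, 7, 2), (0, 4, 9), -63), ((9, 7, 2), (2, 4, 9), -13), ((9, 6, 2), (2, 5, 9), -15), ((2, 5, 11), (9, 6, 0), 93),
    ((0, 12, 9), (9, 6, 0), -11), ((2, 5, 10), (9, 6, 1), -8), ((0, 12, 8), (9, 6, 1), 8), ((8, 13, 0), (9, 6, 1), 8),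
    ((2, 4, 11), (9, 7, 0), 24), ((11, 10, 1), (0, 1, 10), -14), ((10, 8, 0), (0, 2, 10), 20), ((1, 3, 11), (0, 2, 10), 19),
    ((11, 9, 1), (0, 2, 10), -59), ((10, 9, 1), (1, 2, 10), 25), ((11, 8, 1), (0, 3, 10), 31), ((10, 8, 1), (1, 3, 10), 5),
    ((10, 6, 0), (0, 4, 10), 76), ((1, 5, 11), (0, 4, 10), -36), ((11, 7, 1), (0, 4, 10), -63), ((10, 7, 1), (1, 4, 10), -13),
    ((11, 6, 1), (0, 5, 10), 93), ((10, 13, 0), (0, 5, 10), -11), ((10, 6, 1), (1, 5, 10), 15), ((1, 4, 11), (10, 7, 0), 24),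
    ((1, 2, 11), (10, 9, 0), 52), ((11, 10, 0), (0, 1, 11), -7), ((11, 9, 0), (0, 2, 11), -7), ((11, 8, 0), (0, 3, 11), -13),
    ((11, 7, 0), (0, 4, 11), 11), ((5, 12, 2), (0, 2, 12), 272), ((4, 12, 2), (1, 2, 12), -184), ((5, 12, 3), (1, 3, 12), -495),
    ((12, 6, 8), (6, 12, 1), -90), ((6, 5, 12), (12, 4, 6), 22), ((12, 7, 9), (7, 12, 1), 201), ((10, 9, 12), (12, 4, 10), -6),
    ((10, 8, 12), (12, 5, 10), 17), ((11, 9, 12), (12, 5, 11), 139), ((6, 13, 1), (0, 1, 13), 272), ((13, 4, 1), (1, 2, 13), -184),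
    ((6, 13, 3), (2, 3, 13), -495), ((5, 13, 8), (13, 5, 2), -90), ((6, 13, 5), (4, 5, 13), 22), ((13, 7, 10), (7, 13, 2), 201),
    ((10, 9, 13), (4, 13, 9), -6), ((9, 8, 13), (13, 6, 9), 17), ((11, 10, 13), (13, 6, 11), 139), ((12, 13, 8), (13, 12, 0), -78)]
  tr := tr14
  big := 1048576

theorem ct27_valid : validC ct27 = true := by decide +kernel

theorem ct27_const : constOK ct27 5144 = true := by decide +kernel

/-- classes -/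
def cs27 : List Cl := [
 cl 0 1 0 1 4046 0 282, cl 0 2 0 0 0 569 237, cl 1 0 0 0 8963 0 119, cl 1 1 0 1 0 1134 136,
 cl 1 2 0 0 0 0 168, cl 2 0 0 0 534 0 84, cl 2 1 0 1 0 0 90, cl 2 2 0 0 0 0 97,
 cl 1 0 0 2 0 184 117, cl 0 0 0 2 0 2801 237, cl 1 0 1 1 5942 0 112, cl 2 0 1 1 0 1104 82,
 cl 2 0 0 2 0 0 84, cl 1 0 1 3 178 0 109, cl 1 0 2 0 0 2700 106, cl 2 0 2 0 123 0 79,
 cl 1 0 2 2 0 1150 105, cl 0 1 0 3 0 0 189, cl 0 2 0 2 504 0 200, cl 1 1 0 3 0 34 130,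
 cl 1 2 0 2 22 0 159, cl 0 0 0 4 0 11 168]

theorem ct27_link : linkOK ct27 cs27 = true := by decide +kernel

theorem cs27_tail : tailOK cs27 16 16 16 5144 = true := by decide +kernel

theorem cs27_grid : gridOK vtTree cs27 16 16 16 16 0 5829781248 5979 5144 = true := by
  decide +kernel

end Pool.Agent.H79.OC
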