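import Pool.Agent.H79.OC.Pts
import Pool.Agent.H79.OC.VTab

set_option autoImplicit false
set_option maxRecDepth 100000

/-!
# Certificates, part 15
-/

namespace Pool.Agent.H79.OC

open Cl

/-! ### Box 28: `16 ≤ -128 x ≤ 32`, `32 ≤ 128 y ≤ 48` -/

/-- certificate -/
def ct28 : Cert where
  pts := pts14
  g := 5042
  al := [(0, 955), (1, -607), (2, -607), (3, 1571), (4, 1295), (5, 1225), (6, 1225), (7, 418), (8, 1604), (9, 419), (10, 419), (11, 899), (12, 99), (13, 99)]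
  be := [
    (1, 0, 713), (2, 0, 713), (2, 1, -826), (3, 0, -342), (3, 1, -554), (3, 2, -554), (4, 0, -91),
    (4, 1, 1249), (4, 2, 1249), (4, 3, -666), (5, 0, -653), (5, 1, 2381), (5, 2, -89), (5, 3, 302),
    (5, 4, 707), (6, 0, -653), (6, 1, -89), (6, 2, 2381), (6, 3, 302), (6, 4, 707), (6, 5, -664),
    (7, 0, 176), (7, 1, 1175), (7, 2, 1175), (7, 3, 1874), (7, 4, -682), (7, 5, 143), (7, 6, 143),
    (8, 0, -480), (8, 1, -257), (8, 2, -257), (8, 4, 1073), (8, 5, -179), (8, 6, -179), (8, 7, -2250),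
    (9, 0, -179), (9, 1, 653), (9, 3, -92), (9, 4, -6), (9, 5, 375), (9, 6, -370), (9, 7, 848),
    (9, 8, 29), (10, 0, -179), (10, 2, 653), (10, 3, -92), (10, 4, -6), (10, 5, -370), (10, 6, 375),
    (10, 7, 848), (10, 8, 29), (10, 9, -879), (11, 1, 249), (11, 2, 249), (11, 3, 125), (11, 4, -176),
    (11, 5, -951), (11, 6, -951), (11, 7, 55), (11, 8, -29), (11, 9, -165), (11, 10, -165), (12, 0, -87),
    (12, 1, 356), (12, 2, 271), (12, 3, -387), (12, 4, -242), (12, 5, 361), (12, 7, 269), (12, 8, 299),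
    (12, 9, -657), (12, 10, 28), (12, 11, -334), (13, 0, -87), (13, 1, 271), (13, 2, 356), (13, 3, -387),
    (13, 4, -242), (13, 6, 361), (13, 7, 269), (13, 8, 299), (13, 9, 28), (13, 10, -657), (13, 11, -334),
    (13, 12, -91)]
  ta := [
    ((3, 2, 1), (0, 1, 2), 829), ((4, 5, 6), (0, 1, 2), -949), ((7, 6, 5), (0, 1, 2), -168), ((8, 9, 10), (0, 1, 2), 504),
    ((11, 10, 9), (0, 1, 2), 201), ((5, 4, 12), (0, 1, 2), -394), ((6, 13, 4), (0, 1, 2), -394), ((3, 2, 0), (0, 1, 3), -72),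
    ((4, 5, 7), (0, 1, 3), 228), ((7, 6, 4), (0, 1, 3), 228), ((8, 9, 11), (0, 1, 3), -156), ((11, 10, 8), (0, 1, 3), -156),
    ((6, 5, 3), (1, 2, 4), 354), ((5, 6, 8), (1, 2, 4), -705), ((10, 9, 7), (1, 2, 4), 79), ((4, 12, 1), (1, 2, 4), -3),
    ((13, 4, 2), (1, 2, 4), -3), ((7, 4, 3), (0, 3, 4), -363), ((4, 7, 8), (0, 3, 4), 420), ((11, 8, 7), (0, 3, 4), 68),
    ((6, 4, 3), (1, 3, 4), -332), ((5, 7, 8), (1, 3, 4), 708), ((10, 8, 7), (1, 3, 4), -198), ((5, 4, 3), (2, 3, 4), -332),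
    ((6, 7, 8), (2, 3, 4), 708), ((9, 8, 7), (2, 3, 4), -198), ((5, 4, 0), (0, 1, 5), -274), ((2, 3, 7), (0, 1, 5), -634),
    ((7, 6, 2), (0, 1, 5), -682), ((4, 5, 9), (0, 1, 5), -38), ((9, 8, 4), (0, 1, 5), -73), ((6, 7, 11), (0, 1, 5), 462),
    ((11, 10, 6), (0, 1, 5), 140), ((13, 6, 10), (0, 1, 5), 1573), ((7, 5, 2), (0, 2, 5), -502), ((4, 6, 9), (0, 2, 5), 457),
    ((11, 9, 6), (0, 2, 5), 50), ((5, 12, 0), (0, 2, 5), 79), ((10, 8, 13), (0, 2, 5), 206), ((6, 5, 2), (1, 2, 5), -508),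
    ((5, 6, 9), (1, 2, 5), -613), ((10, 9, 6), (1, 2, 5), 131), ((4, 12, 0), (1, 2, 5), 603), ((4, 13, 8), (1, 2, 5), -144),
    ((7, 4, 2), (0, 3, 5), -396), ((4, 7, 9), (0, 3, 5), -96), ((11, 8, 6), (0, 3, 5), 83), ((5, 4, 2), (2, 3, 5), -747),
    ((6, 7, 9), (2, 3, 5), -306), ((9, 8, 6), (2, 3, 5), 120), ((0, 1, 12), (2, 3, 5), 8), ((13, 6, 8), (2, 3, 5), 472),
    ((7, 6, 1), (0, 1, 6), -502), ((4, 5, 10), (0, 1, 6), 457), ((11, 10, 5), (0, 1, 6), 50), ((9, 8, 12), (0, 1, 6), 206),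
    ((6, 13, 0), (0, 1, 6), 79), ((6, 4, 0), (0, 2, 6), -274), ((1, 3, 7), (0, 2, 6), -634), ((7, 5, 1), (0, 2, 6), -682),
    ((4, 6, 10), (0, 2, 6), -38), ((10, 8, 4), (0, 2, 6), -73), ((5, 7, 11), (0, 2, 6), 462), ((11, 9, 5), (0, 2, 6), 140),
    ((12, 5, 9), (0, 2, 6), 1573), ((6, 5, 1), (1, 2, 6), -508), ((5, 6, 10), (1, 2, 6), -613), ((10, 9, 5), (1, 2, 6), 131),
    ((12, 4, 8), (1, 2, 6), -144), ((13, 4, 0), (1, 2, 6), 603), ((7, 4, 1), (0, 3, 6), -396), ((4, 7, 10), (0, 3, 6), -96),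
    ((11, 8, 5), (0, 3, 6), 83), ((6, 4, 1), (1, 3, 6), -747), ((5, 7, 10), (1, 3, 6), -306), ((10, 8, 5), (1, 3, 6), 120),
    ((12, 5, 8), (1, 3, 6), 472), ((0, 2, 13), (1, 3, 6), 8), ((1, 2, 7), (6, 5, 0), -538), ((10, 9, 4), (6, 5, 0), -124),
    ((5, 6, 11), (6, 5, 0), 250), ((12, 4, 9), (6, 5, 0), 41), ((4, 13, 10), (6, 5, 0), 41), ((7, 6, 0), (0, 1, 7), 161),
    ((4, 5, 11), (0, 1, 7), 317), ((11, 10, 4), (0, 1, 7), -105), ((7, 5, 0), (0, 2, 7), 161), ((4, 6, 11), (0, 2, 7), 317),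
    ((11, 9, 4), (0, 2, 7), -105), ((7, 4, 0), (0, 3, 7), 159), ((4, 7, 11), (0, 3, 7), 493), ((11, 8, 4), (0, 3, 7), -264),
    ((9, 8, 1), (0, 1, 8), -257), ((2, 3, 10), (0, 1, 8), -36), ((11, 10, 3), (0, 1, 8), 225), ((1, 3, 9), (0, 2, 8), -36),
    ((10, 8, 2), (0, 2, 8), -257), ((11, 9, 3), (0, 2, 8), 225), ((10, 9, 3), (1, 2, 8), -79), ((11, 8, 3), (0, 3, 8), 68),
    ((10, 8, 3), (1, 3, 8), -54), ((9, 8, 3), (2, 3, 8), -54), ((1, 5, 9), (0, 4, 8), 192), ((2, 6, 10), (0, 4, 8), 192),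
    ((3, 7, 11), (0, 4, 8), 2), ((8, 5, 1), (1, 4, 8), 173), ((3, 6, 10), (1, 4, 8), 172), ((10, 7, 3), (1, 4, 8), -189),
    ((8, 6, 2), (2, 4, 8), 173), ((3, 5, 9), (2, 4, 8), 172), ((9, 7, 3), (2, 4, 8), -189), ((8, 7, 3), (3, 4, 8), 297),
    ((1, 4, 9), (8, 5, 0), -167), ((10, 7, 2), (8, 5, 0), -110), ((3, 6, 11), (8, 5, 0), 297), ((2, 13, 10), (8, 5, 0), -70),
    ((9, 6, 3), (2, 5, 8), 15), ((8, 13, 2), (2, 5, 8), -119), ((9, 7, 1), (8, 6, 0), -110), ((2, 4, 10), (8, 6, 0), -167),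
    ((3, 5, 11), (8, 6, 0), 297), ((1, 12, 9), (8, 6, 0), -70), ((3, 5, 10), (8, 6, 1), 15), ((1, 12, 8), (8, 6, 1), -119),
    ((3, 4, 11), (8, 7, 0), -539), ((3, 4, 10), (8, 7, 1), -61), ((3, 4, 9), (8, 7, 2), -61), ((9, 8, 0), (0, 1, 9), 144),
    ((2, 3, 11), (0, 1, 9), 60), ((11, 10, 2), (0, 1, 9), -110), ((11, 9, 2), (0, 2, 9), -23), ((10, 9, 2), (1, 2, 9), 60),
    ((11, 8, 2), (0, 3, 9), -76), ((9, 8, 2), (2, 3, 9), -89), ((9, 5, 0), (0, 4, 9), -53), ((2, 6, 11), (0, 4, 9), 122),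
    ((11, 7, 2), (0, 4, 9), -158), ((9, 7, 2), (2, 4, 9), -231), ((9, 6, 2), (2, 5, 9), 331), ((2, 5, 11), (9, 6, 0), 124),
    ((0, 12, 9), (9, 6, 0), -194), ((2, 5, 10), (9, 6, 1), -18), ((0, 12, 8), (9, 6, 1), 18), ((8, 13, 0), (9, 6, 1), 18),
    ((2, 4, 11), (9, 7, 0), 170), ((11, 10, 1), (0, 1, 10), -23), ((10, 8, 0), (0, 2, 10), 144), ((1, 3, 11), (0, 2, 10), 60),
    ((11, 9, 1), (0, 2, 10), -110), ((10, 9, 1), (1, 2, 10), 60), ((11, 8, 1), (0, 3, 10), -76), ((10, 8, 1), (1, 3, 10), -89),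
    ((10, 6, 0), (0, 4, 10), -53), ((1, 5, 11), (0, 4, 10), 122), ((11, 7, 1), (0, 4, 10), -158), ((10, 7, 1), (1, 4, 10), -231),
    ((11, 6, 1), (0, 5, 10), 124), ((10, 13, 0), (0, 5, 10), -194), ((10, 6, 1), (1, 5, 10), -331), ((1, 4, 11), (10, 7, 0), 170),
    ((1, 2, 11), (10, 9, 0), -222), ((11, 10, 0), (0, 1, 11), 8), ((11, 9, 0), (0, 2, 11), 8), ((11, 8, 0), (0, 3, 11), 17),
    ((11, 7, 0), (0, 4, 11), -291), ((5, 12, 2), (0, 2, 12), 192), ((4, 12, 2), (1, 2, 12), -63), ((5, 12, 3), (1, 3, 12), -459),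
    ((12, 6, 9), (6, 12, 0), 97), ((12, 6, 8), (6, 12, 1), -244), ((6, 5, 12), (12, 4, 6), 42), ((12, 7, 9), (7, 12, 1), 213),
    ((10, 9, 12), (12, 4, 10), 178), ((10, 8, 12), (12, 5, 10), 28), ((11, 9, 12), (12, 5, 11), 359), ((6, 13, 1), (0, 1, 13), 192),
    ((13, 4, 1), (1, 2, 13), -63), ((6, 13, 3), (2, 3, 13), -459), ((5, 13, 10), (13, 5, 0), 97), ((5, 13, 8), (13, 5, 2), -244),
    ((6, 13, 5), (4, 5, 13), 42), ((13, 7, 10), (7, 13, 2), 213), ((10, 9, 13), (4, 13, 9), 178), ((9, 8, 13), (13, 6, 9), 28),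
    ((11, 10, 13), (13, 6, 11), 359), ((12, 13, 8), (13, 12, 0), -91)]
  tr := tr14
  big := 1048576

theorem ct28_valid : validC ct28 = true := by decide +kernel

theorem ct28_const : constOK ct28 4398 = true := by decide +kernel

/-- classes -/
def cs28 : List Cl := [
 cl 0 1 0 1 2468 0 224, cl 0 2 0 0 0 1053 237, cl 1 0 0 0 8423 0 119, cl 1 1 0 1 0 2184 134,
 cl 1 2 0 0 0 0 168, cl 2 0 0 0 951 0 84, cl 2 1 0 1 140 0 90, cl 2 2 0 0 0 0 97,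
 cl 1 0 0 2 0 494 112, cl 0 0 0 2 0 2853 168, cl 1 0 1 1 5152 0 111, cl 2 0 1 1 0 698 81,
 cl 2 0 0 2 0 0 83, cl 1 0 1 3 542 0 102, cl 1 0 2 0 0 2916 106, cl 2 0 2 0 0 0 79,
 cl 1 0 2 2 0 774 103, cl 0 1 0 3 0 0 136, cl 0 2 0 2 538 0 159, cl 1 1 0 3 56 0 115,
 cl 1 2 0 2 0 668 141, cl 0 0 0 4 0 91 119]

theorem ct28_link : linkOK ct28 cs28 = true := by decide +kernel

theorem cs28_tail : tailOK cs28 16 16 32 4398 = true := by decide +kernel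

theorem cs28_grid : gridOK vtTree cs28 16 16 32 16 0 2330295168 6490 4398 = true := by
  decide +kernel

/-! ### Box 29: `16 ≤ -128 x ≤ 32`, `48 ≤ 128 y ≤ 64` -/

/-- certificate -/
def ct29 : Cert where
  pts := pts14
  g := 6372
  al := [(0, 730), (1, -250), (2, -250), (3, 2828), (4, 925), (5, 1942), (6, 1942), (7, 861), (8, 1560), (9, 583), (10, 583), (11, 1238), (12, 476), (13, 476)]
  be := [
    (1, 0, 831), (2, 0, 831), (2, 1, -1517), (3, 0, -506), (3, 1, -1045), (3, 2, -1045), (4, 0, -389),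
    (4, 1, 1528), (4, 2, 1528), (4, 3, -1414), (5, 0, -621), (5, 1, 2586), (5, 2, -202), (5, 3, 50),
    (5, 4, 1094), (6, 0, -621), (6, 1, -202), (6, 2, 2586), (6, 3, 50), (6, 4, 1094), (6, 5, -1308),
    (7, 0, -45), (7, 1, 926), (7, 2, 926), (7, 3, 1646), (7, 4, -584), (7, 5, 292), (7, 6, 292),
    (8, 0, -164), (8, 1, -97), (8, 2, -97), (8, 4, 2076), (8, 5, -296), (8, 6, -296), (8, 7, -1690),
    (9, 0, -45), (9, 1, 718), (9, 3, -355), (9, 4, 187), (9, 5, -169), (9, 6, -250), (9, 7, 1027),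
    (9, 8, -304), (10, 0, -45), (10, 2, 718), (10, 3, -355), (10, 4, 187), (10, 5, -250), (10, 6, -169),
    (10, 7, 1027), (10, 8, -304), (10, 9, -948), (11, 1, 148), (11, 2, 148), (11, 3, -231), (11, 4, -34),
    (11, 5, -951), (11, 6, -951), (11, 7, 331), (11, 8, -360), (11, 9, -165), (11, 10, -165), (12, 0, 71),
    (12, 1, 129), (12, 2, 176), (12, 3, -552), (12, 4, 101), (12, 5, -46), (12, 6, -96), (12, 8, 122),
    (12, 9, -622), (12, 11, -314), (13, 0, 71), (13, 1, 176), (13, 2, 129), (13, 3, -552), (13, 4, 101),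
    (13, 5, -96), (13, 6, -46), (13, 8, 122), (13, 10, -622), (13, 11, -314)]
  ta := [
    ((3, 2, 1), (0, 1, 2), 1173), ((4, 5, 6), (0, 1, 2), -1008), ((7, 6, 5), (0, 1, 2), -104), ((8, 9, 10), (0, 1, 2), 458),
    ((11, 10, 9), (0, 1, 2), 153), ((5, 4, 12), (0, 1, 2), -519), ((6, 13, 4), (0, 1, 2), -519), ((3, 2, 0), (0, 1, 3), -233),
    ((4, 5, 7), (0, 1, 3), 133), ((7, 6, 4), (0, 1, 3), 133), ((8, 9, 11), (0, 1, 3), 100), ((11, 10, 8), (0, 1, 3), 100),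
    ((6, 5, 3), (1, 2, 4), 176), ((5, 6, 8), (1, 2, 4), -370), ((10, 9, 7), (1, 2, 4), 47), ((4, 12, 1), (1, 2, 4), -129),
    ((13, 4, 2), (1, 2, 4), -129), ((7, 4, 3), (0, 3, 4), -236), ((4, 7, 8), (0, 3, 4), -320), ((11, 8, 7), (0, 3, 4), 245),
    ((6, 4, 3), (1, 3, 4), -88), ((5, 7, 8), (1, 3, 4), 242), ((10, 8, 7), (1, 3, 4), 30), ((5, 4, 3), (2, 3, 4), -88),
    ((6, 7, 8), (2, 3, 4), 242), ((9, 8, 7), (2, 3, 4), 30), ((5, 4, 0), (0, 1, 5), -154), ((2, 3, 7), (0, 1, 5), -175),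
    ((7, 6, 2), (0, 1, 5), -865), ((4, 5, 9), (0, 1, 5), -101), ((9, 8, 4), (0, 1, 5), -183), ((6, 7, 11), (0, 1, 5), 164),
    ((11, 10, 6), (0, 1, 5), 218), ((13, 6, 10), (0, 1, 5), 1835), ((7, 5, 2), (0, 2, 5), -217), ((4, 6, 9), (0, 2, 5), 207),
    ((11, 9, 6), (0, 2, 5), 30), ((5, 12, 0), (0, 2, 5), -69), ((10, 8, 13), (0, 2, 5), 306), ((6, 5, 2), (1, 2, 5), -654),
    ((5, 6, 9), (1, 2, 5), -389), ((10, 9, 6), (1, 2, 5), 116), ((4, 12, 0), (1, 2, 5), 441), ((4, 13, 8), (1, 2, 5), -236),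
    ((7, 4, 2), (0, 3, 5), -505), ((4, 7, 9), (0, 3, 5), -55), ((11, 8, 6), (0, 3, 5), 212), ((5, 4, 2), (2, 3, 5), -929),
    ((6, 7, 9), (2, 3, 5), -531), ((9, 8, 6), (2, 3, 5), 126), ((0, 1, 12), (2, 3, 5), -119), ((13, 6, 8), (2, 3, 5), 790),
    ((7, 6, 1), (0, 1, 6), -217), ((4, 5, 10), (0, 1, 6), 207), ((11, 10, 5), (0, 1, 6), 30), ((9, 8, 12), (0, 1, 6), 306),
    ((6, 13, 0), (0, 1, 6), -69), ((6, 4, 0), (0, 2, 6), -154), ((1, 3, 7), (0, 2, 6), -175), ((7, 5, 1), (0, 2, 6), -865),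
    ((4, 6, 10), (0, 2, 6), -101), ((10, 8, 4), (0, 2, 6), -183), ((5, 7, 11), (0, 2, 6), 164), ((11, 9, 5), (0, 2, 6), 218),
    ((12, 5, 9), (0, 2, 6), 1835), ((6, 5, 1), (1, 2, 6), -654), ((5, 6, 10), (1, 2, 6), -389), ((10, 9, 5), (1, 2, 6), 116),
    ((12, 4, 8), (1, 2, 6), -236), ((13, 4, 0), (1, 2, 6), 441), ((7, 4, 1), (0, 3, 6), -505), ((4, 7, 10), (0, 3, 6), -55),
    ((11, 8, 5), (0, 3, 6), 212), ((6, 4, 1), (1, 3, 6), -929), ((5, 7, 10), (1, 3, 6), -531), ((10, 8, 5), (1, 3, 6), 126),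
    ((12, 5, 8), (1, 3, 6), 790), ((0, 2, 13), (1, 3, 6), -119), ((1, 2, 7), (6, 5, 0), -272), ((10, 9, 4), (6, 5, 0), -50),
    ((5, 6, 11), (6, 5, 0), 321), ((12, 4, 9), (6, 5, 0), -104), ((4, 13, 10), (6, 5, 0), -104), ((7, 6, 0), (0, 1, 7), 387),
    ((4, 5, 11), (0, 1, 7), 72), ((11, 10, 4), (0, 1, 7), -86), ((7, 5, 0), (0, 2, 7), 387), ((4, 6, 11), (0, 2, 7), 72),
    ((11, 9, 4), (0, 2, 7), -86), ((7, 4, 0), (0, 3, 7), 307), ((4, 7, 11), (0, 3, 7), 197), ((11, 8, 4), (0, 3, 7), -373),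
    ((9, 8, 1), (0, 1, 8), -287), ((2, 3, 10), (0, 1, 8), 66), ((11, 10, 3), (0, 1, 8), 192), ((1, 3, 9), (0, 2, 8), 66),
    ((10, 8, 2), (0, 2, 8), -287), ((11, 9, 3), (0, 2, 8), 192), ((10, 9, 3), (1, 2, 8), -19), ((11, 8, 3), (0, 3, 8), 94),
    ((10, 8, 3), (1, 3, 8), 10), ((9, 8, 3), (2, 3, 8), 10), ((1, 5, 9), (0, 4, 8), 397), ((2, 6, 10), (0, 4, 8), 397),
    ((3, 7, 11), (0, 4, 8), -309), ((8, 5, 1), (1, 4, 8), 197), ((3, 6, 10), (1, 4, 8), 355), ((10, 7, 3), (1, 4, 8), -297),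
    ((8, 6, 2), (2, 4, 8), 197), ((3, 5, 9), (2, 4, 8), 355), ((9, 7, 3), (2, 4, 8), -297), ((8, 7, 3), (3, 4, 8), 96),
    ((1, 4, 9), (8, 5, 0), -172), ((10, 7, 2), (8, 5, 0), -280), ((3, 6, 11), (8, 5, 0), 251), ((2, 13, 10), (8, 5, 0), 16),
    ((9, 6, 3), (2, 5, 8), 62), ((8, 13, 2), (2, 5, 8), -105), ((9, 7, 1), (8, 6, 0), -280), ((2, 4, 10), (8, 6, 0), -172),
    ((3, 5, 11), (8, 6, 0), 251), ((1, 12, 9), (8, 6, 0), 16), ((3, 5, 10), (8, 6, 1), 62), ((1, 12, 8), (8, 6, 1), -105),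
    ((3, 4, 11), (8, 7, 0), -130), ((3, 4, 10), (8, 7, 1), -54), ((3, 4, 9), (8, 7, 2), -54), ((9, 8, 0), (0, 1, 9), 95),
    ((2, 3, 11), (0, 1, 9), 170), ((11, 10, 2), (0, 1, 9), -169), ((11, 9, 2), (0, 2, 9), -14), ((10, 9, 2), (1, 2, 9), 17),
    ((11, 8, 2), (0, 3, 9), -55), ((9, 8, 2), (2, 3, 9), -98), ((9, 5, 0), (0, 4, 9), 198), ((2, 6, 11), (0, 4, 9), -19),
    ((11, 7, 2), (0, 4, 9), -283), ((9, 7, 2), (2, 4, 9), -219), ((9, 6, 2), (2, 5, 9), 195), ((2, 5, 11), (9, 6, 0), 126),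
    ((0, 12, 9), (9, 6, 0), -130), ((2, 5, 10), (9, 6, 1), -83), ((0, 12, 8), (9, 6, 1), 83), ((8, 13, 0), (9, 6, 1), 83),
    ((2, 4, 11), (9, 7, 0), 77), ((11, 10, 1), (0, 1, 10), -14), ((10, 8, 0), (0, 2, 10), 95), ((1, 3, 11), (0, 2, 10), 170),
    ((11, 9, 1), (0, 2, 10), -169), ((10, 9, 1), (1, 2, 10), 17), ((11, 8, 1), (0, 3, 10), -55), ((10, 8, 1), (1, 3, 10), -98),
    ((10, 6, 0), (0, 4, 10), 198), ((1, 5, 11), (0, 4, 10), -19), ((11, 7, 1), (0, 4, 10), -283), ((10, 7, 1), (1, 4, 10), -219),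
    ((11, 6, 1), (0, 5, 10), 126), ((10, 13, 0), (0, 5, 10), -130), ((10, 6, 1), (1, 5, 10), -195), ((1, 4, 11), (10, 7, 0), 77),
    ((1, 2, 11), (10, 9, 0), -119), ((11, 10, 0), (0, 1, 11), -6), ((11, 9, 0), (0, 2, 11), -6), ((11, 8, 0), (0, 3, 11), -12),
    ((11, 7, 0), (0, 4, 11), -114), ((5, 12, 2), (0, 2, 12), 209), ((4, 12, 2), (1, 2, 12), -131), ((5, 12, 3), (1, 3, 12), -509),
    ((12, 6, 9), (6, 12, 0), 131), ((12, 6, 8), (6, 12, 1), -177), ((6, 5, 12), (12, 4, 6), 79), ((12, 7, 9), (7, 12, 1), 1),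
    ((10, 9, 12), (12, 4, 10), 222), ((10, 8, 12), (12, 5, 10), 45), ((11, 9, 12), (12, 5, 11), 227), ((6, 13, 1), (0, 1, 13), 209),
    ((13, 4, 1), (1, 2, 13), -131), ((6, 13, 3), (2, 3, 13), -509), ((5, 13, 10), (13, 5, 0), 131), ((5, 13, 8), (13, 5, 2), -177),
    ((6, 13, 5), (4, 5, 13), 79), ((13, 7, 10), (7, 13, 2), 1), ((10, 9, 13), (4, 13, 9), 222), ((9, 8, 13), (13, 6, 9), 45),
    ((11, 10, 13), (13, 6, 11), 227), ((12, 13, 8), (13, 12, 0), -87)]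
  tr := tr14
  big := 1048576

theorem ct29_valid : validC ct29 = true := by decide +kernel

theorem ct29_const : constOK ct29 4374 = true := by decide +kernel

/-- classes -/
def cs29 : List Cl := [
 cl 0 1 0 1 1314 0 189, cl 0 2 0 0 0 1450 237, cl 1 0 0 0 8498 0 119, cl 1 1 0 1 0 2162 130,
 cl 1 2 0 0 0 79 168, cl 2 0 0 0 1041 0 84, cl 2 1 0 1 206 0 89, cl 2 2 0 0 0 0 97,
 cl 1 0 0 2 0 518 106, cl 0 0 0 2 0 3571 137, cl 1 0 1 1 4876 0 109, cl 2 0 1 1 0 904 81,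
 cl 2 0 0 2 0 0 82, cl 1 0 1 3 352 0 94, cl 1 0 2 0 0 3104 106, cl 2 0 2 0 0 0 79,
 cl 1 0 2 2 0 1104 99, cl 0 1 0 3 0 192 112, cl 0 2 0 2 0 0 134, cl 1 1 0 3 0 0 102,
 cl 1 2 0 2 0 628 125, cl 0 0 0 4 0 0 97]

theorem ct29_link : linkOK ct29 cs29 = true := by decide +kernel

theorem cs29_tail : tailOK cs29 16 16 48 4374 = true := by decide +kernel

theorem cs29_grid : gridOK vtTree cs29 16 16 48 16 1794959168 0 6445 4374 = true := by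
  decide +kernel

end Pool.Agent.H79.OC
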