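import Pool.Agent.H79.OC.Pts
import Pool.Agent.H79.OC.VTab

set_option autoImplicit false
set_option maxRecDepth 100000

/-!
# Certificates, part 16
-/

namespace Pool.Agent.H79.OC

open Cl

/-! ### Box 30: `16 ≤ -128 x ≤ 32`, `64 ≤ 128 y ≤ 80` -/

/-- certificate -/
def ct30 : Cert where
  pts := pts14
  g := 7937
  al := [(0, 514), (1, 647), (2, 647), (3, 4357), (4, 988), (5, 2542), (6, 2542), (7, 1448), (8, 2650), (9, 199), (10, 199), (11, -33), (12, 1134), (13, 1134)]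
  be := [
    (1, 0, 967), (2, 0, 967), (2, 1, -293), (3, 0, 146), (3, 1, -866), (3, 2, -866), (4, 0, 1097),
    (4, 1, 1356), (4, 2, 1356), (4, 3, -1853), (5, 0, -703), (5, 1, 1918), (5, 2, -33), (5, 3, 65),
    (5, 4, 635), (6, 0, -703), (6, 1, -33), (6, 2, 1918), (6, 3, 65), (6, 4, 635), (6, 5, -3094),
    (7, 0, -387), (7, 1, 190), (7, 2, 190), (7, 3, 862), (7, 4, -948), (7, 5, 146), (7, 6, 146),
    (8, 0, -579), (8, 1, -716), (8, 2, -716), (8, 3, -1721), (8, 4, 1180), (8, 5, -168), (8, 6, -168),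
    (8, 7, -1097), (9, 0, -159), (9, 1, 476), (9, 2, 59), (9, 3, -101), (9, 4, 38), (9, 5, -422),
    (9, 6, 393), (9, 7, 907), (9, 8, 164), (10, 0, -159), (10, 1, 59), (10, 2, 476), (10, 3, -101),
    (10, 4, 38), (10, 5, 393), (10, 6, -422), (10, 7, 907), (10, 8, 164), (10, 9, -521), (11, 0, 135),
    (11, 1, 9), (11, 2, 9), (11, 3, -372), (11, 4, 118), (11, 5, -554), (11, 6, -554), (11, 7, 1324),
    (11, 8, 801), (11, 9, 1212), (11, 10, 1212), (12, 0, -524), (12, 1, -589), (12, 3, -806), (12, 4, 298),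
    (12, 5, -804), (12, 6, -135), (12, 7, -215), (12, 8, 164), (12, 9, -467), (12, 10, 118), (12, 11, -258),
    (13, 0, -524), (13, 2, -589), (13, 3, -806), (13, 4, 298), (13, 5, -135), (13, 6, -804), (13, 7, -215),
    (13, 8, 164), (13, 9, 118), (13, 10, -467), (13, 11, -258)]
  ta := [
    ((3, 2, 1), (0, 1, 2), 585), ((4, 5, 6), (0, 1, 2), -239), ((7, 6, 5), (0, 1, 2), 702), ((8, 9, 10), (0, 1, 2), 388),
    ((11, 10, 9), (0, 1, 2), -337), ((5, 4, 12), (0, 1, 2), -322), ((6, 13, 4), (0, 1, 2), -322), ((3, 2, 0), (0, 1, 3), -478),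
    ((4, 5, 7), (0, 1, 3), 1063), ((7, 6, 4), (0, 1, 3), 1063), ((8, 9, 11), (0, 1, 3), -585), ((11, 10, 8), (0, 1, 3), -585),
    ((6, 5, 3), (1, 2, 4), 848), ((5, 6, 8), (1, 2, 4), 17), ((10, 9, 7), (1, 2, 4), -182), ((4, 12, 1), (1, 2, 4), -131),
    ((13, 4, 2), (1, 2, 4), -131), ((7, 4, 3), (0, 3, 4), 546), ((4, 7, 8), (0, 3, 4), 142), ((11, 8, 7), (0, 3, 4), -442),
    ((6, 4, 3), (1, 3, 4), 149), ((5, 7, 8), (1, 3, 4), -180), ((10, 8, 7), (1, 3, 4), -28), ((5, 4, 3), (2, 3, 4), 149),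
    ((6, 7, 8), (2, 3, 4), -180), ((9, 8, 7), (2, 3, 4), -28), ((5, 4, 0), (0, 1, 5), -156), ((2, 3, 7), (0, 1, 5), -531),
    ((7, 6, 2), (0, 1, 5), -535), ((4, 5, 9), (0, 1, 5), 205), ((9, 8, 4), (0, 1, 5), -417), ((6, 7, 11), (0, 1, 5), -67),
    ((11, 10, 6), (0, 1, 5), -245), ((13, 6, 10), (0, 1, 5), 1923), ((7, 5, 2), (0, 2, 5), -233), ((4, 6, 9), (0, 2, 5), 163),
    ((11, 9, 6), (0, 2, 5), -139), ((5, 12, 0), (0, 2, 5), 202), ((10, 8, 13), (0, 2, 5), 51), ((6, 5, 2), (1, 2, 5), -38),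
    ((5, 6, 9), (1, 2, 5), 36), ((10, 9, 6), (1, 2, 5), 69), ((4, 12, 0), (1, 2, 5), 370), ((4, 13, 8), (1, 2, 5), -394),
    ((7, 4, 2), (0, 3, 5), -134), ((4, 7, 9), (0, 3, 5), 249), ((11, 8, 6), (0, 3, 5), -204), ((5, 4, 2), (2, 3, 5), -545),
    ((6, 7, 9), (2, 3, 5), -13), ((9, 8, 6), (2, 3, 5), -564), ((0, 1, 12), (2, 3, 5), 93), ((13, 6, 8), (2, 3, 5), 1054),
    ((7, 6, 1), (0, 1, 6), -233), ((4, 5, 10), (0, 1, 6), 163), ((11, 10, 5), (0, 1, 6), -139), ((9, 8, 12), (0, 1, 6), 51),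
    ((6, 13, 0), (0, 1, 6), 202), ((6, 4, 0), (0, 2, 6), -156), ((1, 3, 7), (0, 2, 6), -531), ((7, 5, 1), (0, 2, 6), -535),
    ((4, 6, 10), (0, 2, 6), 205), ((10, 8, 4), (0, 2, 6), -417), ((5, 7, 11), (0, 2, 6), -67), ((11, 9, 5), (0, 2, 6), -245),
    ((12, 5, 9), (0, 2, 6), 1923), ((6, 5, 1), (1, 2, 6), -38), ((5, 6, 10), (1, 2, 6), 36), ((10, 9, 5), (1, 2, 6), 69),
    ((12, 4, 8), (1, 2, 6), -394), ((13, 4, 0), (1, 2, 6), 370), ((7, 4, 1), (0, 3, 6), -134), ((4, 7, 10), (0, 3, 6), 249),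
    ((11, 8, 5), (0, 3, 6), -204), ((6, 4, 1), (1, 3, 6), -545), ((5, 7, 10), (1, 3, 6), -13), ((10, 8, 5), (1, 3, 6), -564),
    ((12, 5, 8), (1, 3, 6), 1054), ((0, 2, 13), (1, 3, 6), 93), ((1, 2, 7), (6, 5, 0), -11), ((10, 9, 4), (6, 5, 0), 122),
    ((5, 6, 11), (6, 5, 0), 230), ((12, 4, 9), (6, 5, 0), -153), ((4, 13, 10), (6, 5, 0), -153), ((7, 6, 0), (0, 1, 7), 68),
    ((4, 5, 11), (0, 1, 7), -105), ((11, 10, 4), (0, 1, 7), -42), ((7, 5, 0), (0, 2, 7), 68), ((4, 6, 11), (0, 2, 7), -105),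
    ((11, 9, 4), (0, 2, 7), -42), ((7, 4, 0), (0, 3, 7), 345), ((4, 7, 11), (0, 3, 7), -1), ((11, 8, 4), (0, 3, 7), -402),
    ((9, 8, 1), (0, 1, 8), 164), ((2, 3, 10), (0, 1, 8), 330), ((11, 10, 3), (0, 1, 8), -227), ((1, 3, 9), (0, 2, 8), 330),
    ((10, 8, 2), (0, 2, 8), 164), ((11, 9, 3), (0, 2, 8), -227), ((10, 9, 3), (1, 2, 8), -101), ((11, 8, 3), (0, 3, 8), -45),
    ((10, 8, 3), (1, 3, 8), -167), ((9, 8, 3), (2, 3, 8), -167), ((1, 5, 9), (0, 4, 8), 432), ((2, 6, 10), (0, 4, 8), 432),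
    ((3, 7, 11), (0, 4, 8), -56), ((8, 5, 1), (1, 4, 8), -9), ((3, 6, 10), (1, 4, 8), -89), ((10, 7, 3), (1, 4, 8), 29),
    ((8, 6, 2), (2, 4, 8), -9), ((3, 5, 9), (2, 4, 8), -89), ((9, 7, 3), (2, 4, 8), 29), ((8, 7, 3), (3, 4, 8), -320),
    ((1, 4, 9), (8, 5, 0), -655), ((10, 7, 2), (8, 5, 0), -633), ((3, 6, 11), (8, 5, 0), 467), ((2, 13, 10), (8, 5, 0), 319),
    ((9, 6, 3), (2, 5, 8), -201), ((8, 13, 2), (2, 5, 8), 25), ((9, 7, 1), (8, 6, 0), -633), ((2, 4, 10), (8, 6, 0), -655),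
    ((3, 5, 11), (8, 6, 0), 467), ((1, 12, 9), (8, 6, 0), 319), ((3, 5, 10), (8, 6, 1), -201), ((1, 12, 8), (8, 6, 1), 25),
    ((3, 4, 11), (8, 7, 0), -124), ((3, 4, 10), (8, 7, 1), -76), ((3, 4, 9), (8, 7, 2), -76), ((9, 8, 0), (0, 1, 9), 287),
    ((2, 3, 11), (0, 1, 9), 278), ((11, 10, 2), (0, 1, 9), -409), ((11, 9, 2), (0, 2, 9), 7), ((10, 9, 2), (1, 2, 9), -18),
    ((11, 8, 2), (0, 3, 9), 11), ((9, 8, 2), (2, 3, 9), -30), ((9, 5, 0), (0, 4, 9), 467), ((2, 6, 11), (0, 4, 9), 56),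
    ((11, 7, 2), (0, 4, 9), -286), ((9, 7, 2), (2, 4, 9), -88), ((9, 6, 2), (2, 5, 9), 23), ((2, 5, 11), (9, 6, 0), 120),
    ((0, 12, 9), (9, 6, 0), 135), ((2, 5, 10), (9, 6, 1), -314), ((0, 12, 8), (9, 6, 1), 314), ((8, 13, 0), (9, 6, 1), 314),
    ((2, 4, 11), (9, 7, 0), 6), ((11, 10, 1), (0, 1, 10), 7), ((10, 8, 0), (0, 2, 10), 287), ((1, 3, 11), (0, 2, 10), 278),
    ((11, 9, 1), (0, 2, 10), -409), ((10, 9, 1), (1, 2, 10), -18), ((11, 8, 1), (0, 3, 10), 11), ((10, 8, 1), (1, 3, 10), -30),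
    ((10, 6, 0), (0, 4, 10), 467), ((1, 5, 11), (0, 4, 10), 56), ((11, 7, 1), (0, 4, 10), -286), ((10, 7, 1), (1, 4, 10), -88),
    ((11, 6, 1), (0, 5, 10), 120), ((10, 13, 0), (0, 5, 10), 135), ((10, 6, 1), (1, 5, 10), -23), ((1, 4, 11), (10, 7, 0), 6),
    ((1, 2, 11), (10, 9, 0), -21), ((11, 10, 0), (0, 1, 11), 36), ((11, 9, 0), (0, 2, 11), 36), ((11, 8, 0), (0, 3, 11), -15),
    ((11, 7, 0), (0, 4, 11), -78), ((4, 12, 2), (1, 2, 12), 49), ((5, 12, 3), (1, 3, 12), -594), ((12, 6, 9), (6, 12, 0), -75),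
    ((12, 6, 8), (6, 12, 1), -296), ((6, 5, 12), (12, 4, 6), 283), ((12, 7, 9), (7, 12, 1), -161), ((10, 9, 12), (12, 4, 10), 207),
    ((10, 8, 12), (12, 5, 10), 51), ((11, 9, 12), (12, 5, 11), -118), ((13, 4, 1), (1, 2, 13), 49), ((6, 13, 3), (2, 3, 13), -594),
    ((5, 13, 10), (13, 5, 0), -75), ((5, 13, 8), (13, 5, 2), -296), ((6, 13, 5), (4, 5, 13), 283), ((13, 7, 10), (7, 13, 2), -161),
    ((10, 9, 13), (4, 13, 9), 207), ((9, 8, 13), (13, 6, 9), 51), ((11, 10, 13), (13, 6, 11), -118)]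
  tr := tr14
  big := 1048576

theorem ct30_valid : validC ct30 = true := by decide +kernel

theorem ct30_const : constOK ct30 4175 = true := by decide +kernel

/-- classes -/
def cs30 : List Cl := [
 cl 0 1 0 1 2908 0 165, cl 0 2 0 0 0 1 237, cl 1 0 0 0 7455 0 119, cl 1 1 0 1 0 2992 125,
 cl 1 2 0 0 0 269 168, cl 2 0 0 0 1 0 84, cl 2 1 0 1 0 300 88, cl 2 2 0 0 135 0 97,
 cl 1 0 0 2 0 0 100, cl 0 0 0 2 0 3312 119, cl 1 0 1 1 3142 0 107, cl 2 0 1 1 0 1634 81,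
 cl 2 0 0 2 118 0 80, cl 1 0 1 3 0 0 87, cl 1 0 2 0 0 2950 106, cl 2 0 2 0 0 1721 79,
 cl 1 0 2 2 0 1612 94, cl 0 1 0 3 0 270 97, cl 0 2 0 2 0 430 117, cl 1 1 0 3 236 0 92,
 cl 1 2 0 2 0 516 112, cl 0 0 0 4 0 0 84]

theorem ct30_link : linkOK ct30 cs30 = true := by decide +kernel

theorem cs30_tail : tailOK cs30 16 16 64 4175 = true := by decide +kernel

theorem cs30_grid : gridOK vtTree cs30 16 16 64 16 6381559648 0 6969 4175 = true := by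
  decide +kernel

/-! ### Box 31: `16 ≤ -128 x ≤ 32`, `80 ≤ 128 y ≤ 96` -/

/-- certificate -/
def ct31 : Cert where
  pts := pts14
  g := 5470
  al := [(0, 772), (1, 446), (2, 446), (3, 2568), (4, 609), (5, 1023), (6, 1023), (7, -427), (8, 1825), (9, 31), (10, 31), (11, -436), (12, 1192), (13, 1192)]
  be := [
    (1, 0, 514), (2, 0, 514), (2, 1, -226), (3, 0, 409), (3, 1, -140), (3, 2, -140), (4, 0, 981),
    (4, 1, 1000), (4, 2, 1000), (4, 3, -1592), (5, 0, -699), (5, 1, 1573), (5, 2, 407), (5, 3, 577),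
    (5, 4, 810), (6, 0, -699), (6, 1, 407), (6, 2, 1573), (6, 3, 577), (6, 4, 810), (6, 5, -1406),
    (7, 0, -84), (7, 1, 358), (7, 2, 358), (7, 3, 1356), (7, 4, -319), (7, 5, 728), (7, 6, 728),
    (8, 0, -619), (8, 1, -523), (8, 2, -523), (8, 3, -1266), (8, 4, 785), (8, 5, 144), (8, 6, 144),
    (8, 7, -979), (9, 0, -98), (9, 1, 296), (9, 2, -56), (9, 3, -254), (9, 4, 410), (9, 5, -143),
    (9, 6, 586), (9, 7, 1111), (9, 8, 695), (10, 0, -98), (10, 1, -56), (10, 2, 296), (10, 3, -254),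
    (10, 4, 410), (10, 5, 586), (10, 6, -143), (10, 7, 1111), (10, 8, 695), (10, 9, -342), (11, 0, 22),
    (11, 1, -20), (11, 2, -20), (11, 3, 28), (11, 4, 84), (11, 5, -506), (11, 6, -506), (11, 7, 1664),
    (11, 8, 550), (11, 9, 1026), (11, 10, 1026), (12, 0, -857), (12, 1, -628), (12, 3, -615), (12, 4, -355),
    (12, 5, -1196), (12, 7, 185), (12, 8, -136), (12, 9, -662), (12, 10, 2), (12, 11, -44), (13, 0, -857),
    (13, 2, -628), (13, 3, -615), (13, 4, -355), (13, 6, -1196), (13, 7, 185), (13, 8, -136), (13, 9, 2),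
    (13, 10, -662), (13, 11, -44), (13, 12, -93)]
  ta := [
    ((3, 2, 1), (0, 1, 2), 222), ((4, 5, 6), (0, 1, 2), -558), ((7, 6, 5), (0, 1, 2), 56), ((8, 9, 10), (0, 1, 2), 178),
    ((11, 10, 9), (0, 1, 2), -302), ((5, 4, 12), (0, 1, 2), 329), ((6, 13, 4), (0, 1, 2), 329), ((3, 2, 0), (0, 1, 3), -447),
    ((4, 5, 7), (0, 1, 3), 1012), ((7, 6, 4), (0, 1, 3), 1012), ((8, 9, 11), (0, 1, 3), -565), ((11, 10, 8), (0, 1, 3), -565),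
    ((6, 5, 3), (1, 2, 4), 548), ((5, 6, 8), (1, 2, 4), -353), ((10, 9, 7), (1, 2, 4), -39), ((4, 12, 1), (1, 2, 4), 70),
    ((13, 4, 2), (1, 2, 4), 70), ((7, 4, 3), (0, 3, 4), 551), ((4, 7, 8), (0, 3, 4), 273), ((11, 8, 7), (0, 3, 4), -516),
    ((6, 4, 3), (1, 3, 4), 149), ((5, 7, 8), (1, 3, 4), 65), ((10, 8, 7), (1, 3, 4), -263), ((5, 4, 3), (2, 3, 4), 149),
    ((6, 7, 8), (2, 3, 4), 65), ((9, 8, 7), (2, 3, 4), -263), ((5, 4, 0), (0, 1, 5), -244), ((2, 3, 7), (0, 1, 5), -674),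
    ((7, 6, 2), (0, 1, 5), -223), ((4, 5, 9), (0, 1, 5), -15), ((9, 8, 4), (0, 1, 5), -346), ((6, 7, 11), (0, 1, 5), -185),
    ((11, 10, 6), (0, 1, 5), -293), ((13, 6, 10), (0, 1, 5), 2148), ((7, 5, 2), (0, 2, 5), -361), ((4, 6, 9), (0, 2, 5), 23),
    ((11, 9, 6), (0, 2, 5), -90), ((5, 12, 0), (0, 2, 5), 351), ((10, 8, 13), (0, 2, 5), 16), ((6, 5, 2), (1, 2, 5), -106),
    ((5, 6, 9), (1, 2, 5), -368), ((10, 9, 6), (1, 2, 5), 118), ((4, 12, 0), (1, 2, 5), 506), ((4, 13, 8), (1, 2, 5), 58),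
    ((7, 4, 2), (0, 3, 5), 5), ((4, 7, 9), (0, 3, 5), 34), ((11, 8, 6), (0, 3, 5), -4), ((5, 4, 2), (2, 3, 5), -547),
    ((6, 7, 9), (2, 3, 5), -229), ((9, 8, 6), (2, 3, 5), -510), ((0, 1, 12), (2, 3, 5), 64), ((13, 6, 8), (2, 3, 5), 1485),
    ((7, 6, 1), (0, 1, 6), -361), ((4, 5, 10), (0, 1, 6), 23), ((11, 10, 5), (0, 1, 6), -90), ((9, 8, 12), (0, 1, 6), 16),
    ((6, 13, 0), (0, 1, 6), 351), ((6, 4, 0), (0, 2, 6), -244), ((1, 3, 7), (0, 2, 6), -674), ((7, 5, 1), (0, 2, 6), -223),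
    ((4, 6, 10), (0, 2, 6), -15), ((10, 8, 4), (0, 2, 6), -346), ((5, 7, 11), (0, 2, 6), -185), ((11, 9, 5), (0, 2, 6), -293),
    ((12, 5, 9), (0, 2, 6), 2148), ((6, 5, 1), (1, 2, 6), -106), ((5, 6, 10), (1, 2, 6), -368), ((10, 9, 5), (1, 2, 6), 118),
    ((12, 4, 8), (1, 2, 6), 58), ((13, 4, 0), (1, 2, 6), 506), ((7, 4, 1), (0, 3, 6), 5), ((4, 7, 10), (0, 3, 6), 34),
    ((11, 8, 5), (0, 3, 6), -4), ((6, 4, 1), (1, 3, 6), -547), ((5, 7, 10), (1, 3, 6), -229), ((10, 8, 5), (1, 3, 6), -510),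
    ((12, 5, 8), (1, 3, 6), 1485), ((0, 2, 13), (1, 3, 6), 64), ((1, 2, 7), (6, 5, 0), 163), ((10, 9, 4), (6, 5, 0), -16),
    ((5, 6, 11), (6, 5, 0), 281), ((12, 4, 9), (6, 5, 0), -210), ((4, 13, 10), (6, 5, 0), -210), ((7, 6, 0), (0, 1, 7), -51),
    ((4, 5, 11), (0, 1, 7), 16), ((11, 10, 4), (0, 1, 7), -68), ((7, 5, 0), (0, 2, 7), -51), ((4, 6, 11), (0, 2, 7), 16),
    ((11, 9, 4), (0, 2, 7), -68), ((7, 4, 0), (0, 3, 7), 198), ((4, 7, 11), (0, 3, 7), -106), ((11, 8, 4), (0, 3, 7), -174),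
    ((9, 8, 1), (0, 1, 8), 29), ((2, 3, 10), (0, 1, 8), 273), ((11, 10, 3), (0, 1, 8), -230), ((1, 3, 9), (0, 2, 8), 273),
    ((10, 8, 2), (0, 2, 8), 29), ((11, 9, 3), (0, 2, 8), -230), ((10, 9, 3), (1, 2, 8), -101), ((11, 8, 3), (0, 3, 8), -2),
    ((10, 8, 3), (1, 3, 8), -77), ((9, 8, 3), (2, 3, 8), -77), ((1, 5, 9), (0, 4, 8), 542), ((2, 6, 10), (0, 4, 8), 542),
    ((3, 7, 11), (0, 4, 8), -632), ((8, 5, 1), (1, 4, 8), 52), ((3, 6, 10), (1, 4, 8), 92), ((10, 7, 3), (1, 4, 8), -139),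
    ((8, 6, 2), (2, 4, 8), 52), ((3, 5, 9), (2, 4, 8), 92), ((9, 7, 3), (2, 4, 8), -139), ((8, 7, 3), (3, 4, 8), -48),
    ((1, 4, 9), (8, 5, 0), -661), ((10, 7, 2), (8, 5, 0), -457), ((3, 6, 11), (8, 5, 0), 331), ((2, 13, 10), (8, 5, 0), 370),
    ((9, 6, 3), (2, 5, 8), -156), ((8, 13, 2), (2, 5, 8), 202), ((9, 7, 1), (8, 6, 0), -457), ((2, 4, 10), (8, 6, 0), -661),
    ((3, 5, 11), (8, 6, 0), 331), ((1, 12, 9), (8, 6, 0), 370), ((3, 5, 10), (8, 6, 1), -156), ((1, 12, 8), (8, 6, 1), 202),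
    ((3, 4, 11), (8, 7, 0), 16), ((3, 4, 10), (8, 7, 1), -26), ((3, 4, 9), (8, 7, 2), -26), ((9, 8, 0), (0, 1, 9), 126),
    ((2, 3, 11), (0, 1, 9), 184), ((11, 10, 2), (0, 1, 9), -154), ((11, 9, 2), (0, 2, 9), -48), ((10, 9, 2), (1, 2, 9), -27),
    ((11, 8, 2), (0, 3, 9), -13), ((9, 8, 2), (2, 3, 9), -72), ((9, 5, 0), (0, 4, 9), 478), ((2, 6, 11), (0, 4, 9), 323),
    ((11, 7, 2), (0, 4, 9), -350), ((9, 7, 2), (2, 4, 9), -114), ((9, 6, 2), (2, 5, 9), 35), ((2, 5, 11), (9, 6, 0), -29),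
    ((0, 12, 9), (9, 6, 0), 256), ((2, 5, 10), (9, 6, 1), -422), ((0, 12, 8), (9, 6, 1), 422), ((8, 13, 0), (9, 6, 1), 422),
    ((2, 4, 11), (9, 7, 0), 33), ((11, 10, 1), (0, 1, 10), -48), ((10, 8, 0), (0, 2, 10), 126), ((1, 3, 11), (0, 2, 10), 184),
    ((11, 9, 1), (0, 2, 10), -154), ((10, 9, 1), (1, 2, 10), -27), ((11, 8, 1), (0, 3, 10), -13), ((10, 8, 1), (1, 3, 10), -72),
    ((10, 6, 0), (0, 4, 10), 478), ((1, 5, 11), (0, 4, 10), 323), ((11, 7, 1), (0, 4, 10), -350), ((10, 7, 1), (1, 4, 10), -114),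
    ((11, 6, 1), (0, 5, 10), -29), ((10, 13, 0), (0, 5, 10), 256), ((10, 6, 1), (1, 5, 10), -35), ((1, 4, 11), (10, 7, 0), 33),
    ((1, 2, 11), (10, 9, 0), 27), ((11, 8, 0), (0, 3, 11), -17), ((11, 7, 0), (0, 4, 11), -5), ((5, 12, 2), (0, 2, 12), -129),
    ((4, 12, 2), (1, 2, 12), 129), ((5, 12, 3), (1, 3, 12), -494), ((12, 6, 9), (6, 12, 0), -137), ((12, 6, 8), (6, 12, 1), -335),
    ((6, 5, 12), (12, 4, 6), 160), ((12, 7, 9), (7, 12, 1), 40), ((10, 9, 12), (12, 4, 10), 199), ((10, 8, 12), (12, 5, 10), -42),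
    ((11, 9, 12), (12, 5, 11), 18), ((6, 13, 1), (0, 1, 13), -129), ((13, 4, 1), (1, 2, 13), 129), ((6, 13, 3), (2, 3, 13), -494),
    ((5, 13, 10), (13, 5, 0), -137), ((5, 13, 8), (13, 5, 2), -335), ((6, 13, 5), (4, 5, 13), 160), ((13, 7, 10), (7, 13, 2), 40),
    ((10, 9, 13), (4, 13, 9), 199), ((9, 8, 13), (13, 6, 9), -42), ((11, 10, 13), (13, 6, 11), 18), ((12, 13, 8), (13, 12, 0), 31)]
  tr := tr14
  big := 1048576

theorem ct31_valid : validC ct31 = true := by decide +kernel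

theorem ct31_const : constOK ct31 4642 = true := by decide +kernel

/-- classes -/
def cs31 : List Cl := [
 cl 0 1 0 1 4874 0 149, cl 0 2 0 0 640 0 237, cl 1 0 0 0 7646 0 119, cl 1 1 0 1 0 2198 120,
 cl 1 2 0 0 0 0 168, cl 2 0 0 0 1 0 84, cl 2 1 0 1 0 236 87, cl 2 2 0 0 22 0 97,
 cl 1 0 0 2 0 0 94, cl 0 0 0 2 0 2684 106, cl 1 0 1 1 4408 0 105, cl 2 0 1 1 0 1554 80,
 cl 2 0 0 2 0 112 78, cl 1 0 1 3 0 0 81, cl 1 0 2 0 0 2571 106, cl 2 0 2 0 0 1266 79,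
 cl 1 0 2 2 0 1230 90, cl 0 1 0 3 0 0 87, cl 0 2 0 2 370 0 105, cl 1 1 0 3 4 0 84,
 cl 1 2 0 2 0 88 103, cl 0 0 0 4 0 93 75]

theorem ct31_link : linkOK ct31 cs31 = true := by decide +kernel

theorem cs31_tail : tailOK cs31 16 16 80 4642 = true := by decide +kernel

theorem cs31_grid : gridOK vtTree cs31 16 16 80 16 0 1458327008 6297 4642 = true := by
  decide +kernel

end Pool.Agent.H79.OC
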