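import Pool.Agent.H79.OC.Pts
import Pool.Agent.H79.OC.VTab

set_option autoImplicit false
set_option maxRecDepth 100000

/-!
# Certificates, part 17
-/

namespace Pool.Agent.H79.OC

open Cl

/-! ### Box 32: `16 ≤ -128 x ≤ 32`, `96 ≤ 128 y ≤ 112` -/

/-- certificate -/
def ct32 : Cert where
  pts := pts14
  g := 5805
  al := [(0, 15), (1, 882), (2, 882), (3, 2149), (4, 357), (5, 2459), (6, 2459), (7, -1001), (8, 2362), (9, 843), (10, 843), (11, -66), (12, 123), (13, 123)]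
  be := [
    (1, 0, 377), (2, 0, 377), (2, 1, -410), (3, 0, -198), (3, 1, 261), (3, 2, 261), (4, 0, 1301),
    (4, 1, 1241), (4, 2, 1241), (4, 3, -1988), (5, 0, -107), (5, 1, 834), (5, 2, -372), (5, 3, -24),
    (5, 4, 693), (6, 0, -107), (6, 1, -372), (6, 2, 834), (6, 3, -24), (6, 4, 693), (6, 5, -1753),
    (7, 0, 133), (7, 1, 375), (7, 2, 375), (7, 3, 1567), (7, 4, 686), (7, 5, 111), (7, 6, 111),
    (8, 0, -117), (8, 1, -477), (8, 2, -477), (8, 3, -380), (8, 4, 1325), (8, 5, -765), (8, 6, -765),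
    (8, 7, -982), (9, 0, -10), (9, 1, 112), (9, 2, -554), (9, 3, -323), (9, 4, 184), (9, 5, -50),
    (9, 6, -147), (9, 7, 1155), (9, 8, 285), (10, 0, -10), (10, 1, -554), (10, 2, 112), (10, 3, -323),
    (10, 4, 184), (10, 5, -147), (10, 6, -50), (10, 7, 1155), (10, 8, 285), (10, 9, -20), (11, 1, -10),
    (11, 2, -10), (11, 3, -7), (11, 4, 244), (11, 5, -402), (11, 6, -402), (11, 7, 1047), (11, 8, -71),
    (11, 9, 182), (11, 10, 182), (12, 0, -119), (12, 1, 108), (12, 3, -257), (12, 4, -594), (12, 5, -506),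
    (12, 7, 867), (12, 8, -517), (12, 9, -877), (12, 11, 192), (13, 0, -119), (13, 2, 108), (13, 3, -257),
    (13, 4, -594), (13, 6, -506), (13, 7, 867), (13, 8, -517), (13, 10, -877), (13, 11, 192)]
  ta := [
    ((3, 2, 1), (0, 1, 2), -80), ((4, 5, 6), (0, 1, 2), -308), ((7, 6, 5), (0, 1, 2), 297), ((8, 9, 10), (0, 1, 2), -46),
    ((11, 10, 9), (0, 1, 2), 92), ((5, 4, 12), (0, 1, 2), 68), ((6, 13, 4), (0, 1, 2), 68), ((3, 2, 0), (0, 1, 3), -230),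
    ((4, 5, 7), (0, 1, 3), 419), ((7, 6, 4), (0, 1, 3), 419), ((8, 9, 11), (0, 1, 3), -189), ((11, 10, 8), (0, 1, 3), -189),
    ((6, 5, 3), (1, 2, 4), -15), ((5, 6, 8), (1, 2, 4), 98), ((10, 9, 7), (1, 2, 4), -3), ((4, 12, 1), (1, 2, 4), 120),
    ((13, 4, 2), (1, 2, 4), 120), ((7, 4, 3), (0, 3, 4), 442), ((4, 7, 8), (0, 3, 4), -199), ((11, 8, 7), (0, 3, 4), -112),
    ((6, 4, 3), (1, 3, 4), 436), ((5, 7, 8), (1, 3, 4), 163), ((10, 8, 7), (1, 3, 4), -410), ((5, 4, 3), (2, 3, 4), 436),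
    ((6, 7, 8), (2, 3, 4), 163), ((9, 8, 7), (2, 3, 4), -410), ((5, 4, 0), (0, 1, 5), -449), ((2, 3, 7), (0, 1, 5), -607),
    ((7, 6, 2), (0, 1, 5), 385), ((4, 5, 9), (0, 1, 5), 155), ((9, 8, 4), (0, 1, 5), -529), ((6, 7, 11), (0, 1, 5), -177),
    ((11, 10, 6), (0, 1, 5), -352), ((13, 6, 10), (0, 1, 5), 1986), ((7, 5, 2), (0, 2, 5), -179), ((4, 6, 9), (0, 2, 5), -310),
    ((11, 9, 6), (0, 2, 5), 134), ((5, 12, 0), (0, 2, 5), -39), ((10, 8, 13), (0, 2, 5), 353), ((6, 5, 2), (1, 2, 5), -232),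
    ((5, 6, 9), (1, 2, 5), -213), ((10, 9, 6), (1, 2, 5), -65), ((4, 12, 0), (1, 2, 5), 199), ((4, 13, 8), (1, 2, 5), 256),
    ((7, 4, 2), (0, 3, 5), -183), ((4, 7, 9), (0, 3, 5), -78), ((11, 8, 6), (0, 3, 5), 208), ((5, 4, 2), (2, 3, 5), -505),
    ((6, 7, 9), (2, 3, 5), -77), ((9, 8, 6), (2, 3, 5), -337), ((0, 1, 12), (2, 3, 5), -103), ((13, 6, 8), (2, 3, 5), 1333),
    ((7, 6, 1), (0, 1, 6), -179), ((4, 5, 10), (0, 1, 6), -310), ((11, 10, 5), (0, 1, 6), 134), ((9, 8, 12), (0, 1, 6), 353),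
    ((6, 13, 0), (0, 1, 6), -39), ((6, 4, 0), (0, 2, 6), -449), ((1, 3, 7), (0, 2, 6), -607), ((7, 5, 1), (0, 2, 6), 385),
    ((4, 6, 10), (0, 2, 6), 155), ((10, 8, 4), (0, 2, 6), -529), ((5, 7, 11), (0, 2, 6), -177), ((11, 9, 5), (0, 2, 6), -352),
    ((12, 5, 9), (0, 2, 6), 1986), ((6, 5, 1), (1, 2, 6), -232), ((5, 6, 10), (1, 2, 6), -213), ((10, 9, 5), (1, 2, 6), -65),
    ((12, 4, 8), (1, 2, 6), 256), ((13, 4, 0), (1, 2, 6), 199), ((7, 4, 1), (0, 3, 6), -183), ((4, 7, 10), (0, 3, 6), -78),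
    ((11, 8, 5), (0, 3, 6), 208), ((6, 4, 1), (1, 3, 6), -505), ((5, 7, 10), (1, 3, 6), -77), ((10, 8, 5), (1, 3, 6), -337),
    ((12, 5, 8), (1, 3, 6), 1333), ((0, 2, 13), (1, 3, 6), -103), ((1, 2, 7), (6, 5, 0), 25), ((10, 9, 4), (6, 5, 0), -50),
    ((5, 6, 11), (6, 5, 0), -16), ((12, 4, 9), (6, 5, 0), 41), ((4, 13, 10), (6, 5, 0), 41), ((7, 6, 0), (0, 1, 7), -68),
    ((4, 5, 11), (0, 1, 7), 10), ((11, 10, 4), (0, 1, 7), -21), ((7, 5, 0), (0, 2, 7), -68), ((4, 6, 11), (0, 2, 7), 10),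
    ((11, 9, 4), (0, 2, 7), -21), ((7, 4, 0), (0, 3, 7), -92), ((4, 7, 11), (0, 3, 7), 22), ((11, 8, 4), (0, 3, 7), -55),
    ((9, 8, 1), (0, 1, 8), -29), ((2, 3, 10), (0, 1, 8), 63), ((11, 10, 3), (0, 1, 8), -38), ((1, 3, 9), (0, 2, 8), 63),
    ((10, 8, 2), (0, 2, 8), -29), ((11, 9, 3), (0, 2, 8), -38), ((10, 9, 3), (1, 2, 8), -32), ((11, 8, 3), (0, 3, 8), -19),
    ((10, 8, 3), (1, 3, 8), -45), ((9, 8, 3), (2, 3, 8), -45), ((1, 5, 9), (0, 4, 8), 595), ((2, 6, 10), (0, 4, 8), 595),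
    ((3, 7, 11), (0, 4, 8), -756), ((8, 5, 1), (1, 4, 8), 452), ((3, 6, 10), (1, 4, 8), 358), ((10, 7, 3), (1, 4, 8), -306),
    ((8, 6, 2), (2, 4, 8), 452), ((3, 5, 9), (2, 4, 8), 358), ((9, 7, 3), (2, 4, 8), -306), ((8, 7, 3), (3, 4, 8), -229),
    ((1, 4, 9), (8, 5, 0), -252), ((10, 7, 2), (8, 5, 0), -457), ((3, 6, 11), (8, 5, 0), 283), ((2, 13, 10), (8, 5, 0), 211),
    ((9, 6, 3), (2, 5, 8), -292), ((8, 13, 2), (2, 5, 8), 392), ((9, 7, 1), (8, 6, 0), -457), ((2, 4, 10), (8, 6, 0), -252),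
    ((3, 5, 11), (8, 6, 0), 283), ((1, 12, 9), (8, 6, 0), 211), ((3, 5, 10), (8, 6, 1), -292), ((1, 12, 8), (8, 6, 1), 392),
    ((3, 4, 11), (8, 7, 0), 159), ((3, 4, 10), (8, 7, 1), 25), ((3, 4, 9), (8, 7, 2), 25), ((9, 8, 0), (0, 1, 9), 5),
    ((2, 3, 11), (0, 1, 9), 26), ((11, 10, 2), (0, 1, 9), 66), ((11, 9, 2), (0, 2, 9), -22), ((10, 9, 2), (1, 2, 9), -102),
    ((11, 8, 2), (0, 3, 9), -119), ((9, 8, 2), (2, 3, 9), -47), ((9, 5, 0), (0, 4, 9), 258), ((2, 6, 11), (0, 4, 9), 356),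
    ((11, 7, 2), (0, 4, 9), -290), ((9, 7, 2), (2, 4, 9), -35), ((9, 6, 2), (2, 5, 9), 10), ((2, 5, 11), (9, 6, 0), 22),
    ((0, 12, 9), (9, 6, 0), -31), ((2, 5, 10), (9, 6, 1), -157), ((0, 12, 8), (9, 6, 1), 157), ((8, 13, 0), (9, 6, 1), 157),
    ((2, 4, 11), (9, 7, 0), -7), ((11, 10, 1), (0, 1, 10), -22), ((10, 8, 0), (0, 2, 10), 5), ((1, 3, 11), (0, 2, 10), 26),
    ((11, 9, 1), (0, 2, 10), 66), ((10, 9, 1), (1, 2, 10), -102), ((11, 8, 1), (0, 3, 10), -119), ((10, 8, 1), (1, 3, 10), -47),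
    ((10, 6, 0), (0, 4, 10), 258), ((1, 5, 11), (0, 4, 10), 356), ((11, 7, 1), (0, 4, 10), -290), ((10, 7, 1), (1, 4, 10), -35),
    ((11, 6, 1), (0, 5, 10), 22), ((10, 13, 0), (0, 5, 10), -31), ((10, 6, 1), (1, 5, 10), -10), ((1, 4, 11), (10, 7, 0), -7),
    ((1, 2, 11), (10, 9, 0), 43), ((11, 10, 0), (0, 1, 11), -2), ((11, 9, 0), (0, 2, 11), -2), ((11, 8, 0), (0, 3, 11), -4),
    ((11, 7, 0), (0, 4, 11), 4), ((4, 12, 2), (1, 2, 12), -50), ((5, 12, 3), (1, 3, 12), -177), ((12, 6, 8), (6, 12, 1), -1),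
    ((6, 5, 12), (12, 4, 6), 1), ((12, 7, 9), (7, 12, 1), 391), ((10, 9, 12), (12, 4, 10), -98), ((10, 8, 12), (12, 5, 10), 7),
    ((11, 9, 12), (12, 5, 11), 192), ((13, 4, 1), (1, 2, 13), -50), ((6, 13, 3), (2, 3, 13), -177), ((5, 13, 8), (13, 5, 2), -1),
    ((6, 13, 5), (4, 5, 13), 1), ((13, 7, 10), (7, 13, 2), 391), ((10, 9, 13), (4, 13, 9), -98), ((9, 8, 13), (13, 6, 9), 7),
    ((11, 10, 13), (13, 6, 11), 192)]
  tr := tr14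
  big := 1048576

theorem ct32_valid : validC ct32 = true := by decide +kernel

theorem ct32_const : constOK ct32 3748 = true := by decide +kernel

/-- classes -/
def cs32 : List Cl := [
 cl 0 1 0 1 2806 0 136, cl 0 2 0 0 417 0 237, cl 1 0 0 0 6808 0 119, cl 1 1 0 1 0 1654 115,
 cl 1 2 0 0 377 0 168, cl 2 0 0 0 100 0 84, cl 2 1 0 1 0 40 86, cl 2 2 0 0 0 0 97,
 cl 1 0 0 2 0 2310 89, cl 0 0 0 2 0 3371 97, cl 1 0 1 1 3430 0 102, cl 2 0 1 1 0 1600 79,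
 cl 2 0 0 2 0 1108 75, cl 1 0 1 3 0 0 75, cl 1 0 2 0 0 2970 106, cl 2 0 2 0 0 380 79,
 cl 1 0 2 2 0 514 85, cl 0 1 0 3 0 0 79, cl 0 2 0 2 1734 0 97, cl 1 1 0 3 0 0 77,
 cl 1 2 0 2 384 0 95, cl 0 0 0 4 0 0 69]

theorem ct32_link : linkOK ct32 cs32 = true := by decide +kernel

theorem cs32_tail : tailOK cs32 16 16 96 3748 = true := by decide +kernel

theorem cs32_grid : gridOK vtTree cs32 16 16 96 16 1598220416 0 7116 3748 = true := by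
  decide +kernel

/-! ### Box 33: `16 ≤ -128 x ≤ 32`, `112 ≤ 128 y ≤ 128` -/

/-- certificate -/
def ct33 : Cert where
  pts := pts14
  g := 7480
  al := [(0, 1005), (1, 439), (2, 439), (3, 2293), (4, 1353), (5, 4037), (6, 4037), (7, -766), (8, 3729), (9, 236), (10, 236), (11, -20), (12, 655), (13, 655)]
  be := [
    (1, 0, 340), (2, 0, 340), (2, 1, 255), (3, 0, 28), (3, 1, 267), (3, 2, 267), (4, 0, 871),
    (4, 1, 1723), (4, 2, 1723), (4, 3, -2263), (5, 0, -923), (5, 1, 643), (5, 2, -12), (5, 3, -700),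
    (5, 4, -29), (6, 0, -923), (6, 1, -12), (6, 2, 643), (6, 3, -700), (6, 4, -29), (6, 5, -3161),
    (7, 0, 251), (7, 1, 996), (7, 2, 996), (7, 3, 1885), (7, 4, -210), (7, 5, -349), (7, 6, -349),
    (8, 0, -770), (8, 1, -799), (8, 2, -799), (8, 3, -364), (8, 4, 714), (8, 5, -1559), (8, 6, -1559),
    (8, 7, -1146), (9, 0, -103), (9, 1, 470), (9, 2, -658), (9, 3, -94), (9, 4, 448), (9, 5, 289),
    (9, 6, 337), (9, 7, 1937), (9, 8, 459), (10, 0, -103), (10, 1, -658), (10, 2, 470), (10, 3, -94),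
    (10, 4, 448), (10, 5, 337), (10, 6, 289), (10, 7, 1937), (10, 8, 459), (10, 9, 384), (11, 1, 103),
    (11, 2, 103), (11, 3, 215), (11, 4, -29), (11, 5, -741), (11, 6, -741), (11, 7, 1584), (11, 8, -41),
    (11, 9, 727), (11, 10, 727), (12, 0, -678), (12, 1, -95), (12, 2, 113), (12, 3, -135), (12, 4, -640),
    (12, 5, -792), (12, 6, 107), (12, 7, 733), (12, 8, -1181), (12, 9, -963), (12, 10, 5), (12, 11, 44),
    (13, 0, -678), (13, 1, 113), (13, 2, -95), (13, 3, -135), (13, 4, -640), (13, 5, 107), (13, 6, -792),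
    (13, 7, 733), (13, 8, -1181), (13, 9, 5), (13, 10, -963), (13, 11, 44), (13, 12, -5)]
  ta := [
    ((3, 2, 1), (0, 1, 2), 5), ((4, 5, 6), (0, 1, 2), -12), ((7, 6, 5), (0, 1, 2), 752), ((8, 9, 10), (0, 1, 2), -224),
    ((11, 10, 9), (0, 1, 2), -318), ((5, 4, 12), (0, 1, 2), 15), ((6, 13, 4), (0, 1, 2), 15), ((3, 2, 0), (0, 1, 3), -370),
    ((4, 5, 7), (0, 1, 3), 912), ((7, 6, 4), (0, 1, 3), 912), ((8, 9, 11), (0, 1, 3), -542), ((11, 10, 8), (0, 1, 3), -542),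
    ((6, 5, 3), (1, 2, 4), 766), ((5, 6, 8), (1, 2, 4), 399), ((10, 9, 7), (1, 2, 4), -687), ((4, 12, 1), (1, 2, 4), 58),
    ((13, 4, 2), (1, 2, 4), 58), ((7, 4, 3), (0, 3, 4), 627), ((4, 7, 8), (0, 3, 4), -125), ((11, 8, 7), (0, 3, 4), -115),
    ((6, 4, 3), (1, 3, 4), 741), ((5, 7, 8), (1, 3, 4), 285), ((10, 8, 7), (1, 3, 4), -759), ((5, 4, 3), (2, 3, 4), 741),
    ((6, 7, 8), (2, 3, 4), 285), ((9, 8, 7), (2, 3, 4), -759), ((5, 4, 0), (0, 1, 5), -271), ((2, 3, 7), (0, 1, 5), -682),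
    ((7, 6, 2), (0, 1, 5), 243), ((4, 5, 9), (0, 1, 5), 303), ((9, 8, 4), (0, 1, 5), -444), ((6, 7, 11), (0, 1, 5), -193),
    ((11, 10, 6), (0, 1, 5), -499), ((13, 6, 10), (0, 1, 5), 1735), ((7, 5, 2), (0, 2, 5), -408), ((4, 6, 9), (0, 2, 5), -430),
    ((11, 9, 6), (0, 2, 5), 31), ((5, 12, 0), (0, 2, 5), 336), ((10, 8, 13), (0, 2, 5), 610), ((6, 5, 2), (1, 2, 5), -33),
    ((5, 6, 9), (1, 2, 5), -343), ((10, 9, 6), (1, 2, 5), -361), ((4, 12, 0), (1, 2, 5), 497), ((4, 13, 8), (1, 2, 5), 433),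
    ((7, 4, 2), (0, 3, 5), -418), ((4, 7, 9), (0, 3, 5), 54), ((11, 8, 6), (0, 3, 5), 167), ((5, 4, 2), (2, 3, 5), -773),
    ((6, 7, 9), (2, 3, 5), -655), ((9, 8, 6), (2, 3, 5), -352), ((0, 1, 12), (2, 3, 5), 327), ((13, 6, 8), (2, 3, 5), 1499),
    ((7, 6, 1), (0, 1, 6), -408), ((4, 5, 10), (0, 1, 6), -430), ((11, 10, 5), (0, 1, 6), 31), ((9, 8, 12), (0, 1, 6), 610),
    ((6, 13, 0), (0, 1, 6), 336), ((6, 4, 0), (0, 2, 6), -271), ((1, 3, 7), (0, 2, 6), -682), ((7, 5, 1), (0, 2, 6), 243),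
    ((4, 6, 10), (0, 2, 6), 303), ((10, 8, 4), (0, 2, 6), -444), ((5, 7, 11), (0, 2, 6), -193), ((11, 9, 5), (0, 2, 6), -499),
    ((12, 5, 9), (0, 2, 6), 1735), ((6, 5, 1), (1, 2, 6), -33), ((5, 6, 10), (1, 2, 6), -343), ((10, 9, 5), (1, 2, 6), -361),
    ((12, 4, 8), (1, 2, 6), 433), ((13, 4, 0), (1, 2, 6), 497), ((7, 4, 1), (0, 3, 6), -418), ((4, 7, 10), (0, 3, 6), 54),
    ((11, 8, 5), (0, 3, 6), 167), ((6, 4, 1), (1, 3, 6), -773), ((5, 7, 10), (1, 3, 6), -655), ((10, 8, 5), (1, 3, 6), -352),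
    ((12, 5, 8), (1, 3, 6), 1499), ((0, 2, 13), (1, 3, 6), 327), ((1, 2, 7), (6, 5, 0), -356), ((10, 9, 4), (6, 5, 0), -195),
    ((5, 6, 11), (6, 5, 0), 388), ((12, 4, 9), (6, 5, 0), -23), ((4, 13, 10), (6, 5, 0), -23), ((7, 6, 0), (0, 1, 7), 20),
    ((4, 5, 11), (0, 1, 7), -103), ((11, 10, 4), (0, 1, 7), 138), ((7, 5, 0), (0, 2, 7), 20), ((4, 6, 11), (0, 2, 7), -103),
    ((11, 9, 4), (0, 2, 7), 138), ((7, 4, 0), (0, 3, 7), -133), ((4, 7, 11), (0, 3, 7), 481), ((11, 8, 4), (0, 3, 7), -116),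
    ((9, 8, 1), (0, 1, 8), -68), ((2, 3, 10), (0, 1, 8), -13), ((11, 10, 3), (0, 1, 8), -140), ((1, 3, 9), (0, 2, 8), -13),
    ((10, 8, 2), (0, 2, 8), -68), ((11, 9, 3), (0, 2, 8), -140), ((10, 9, 3), (1, 2, 8), 99), ((11, 8, 3), (0, 3, 8), 49),
    ((10, 8, 3), (1, 3, 8), -103), ((9, 8, 3), (2, 3, 8), -103), ((1, 5, 9), (0, 4, 8), 481), ((2, 6, 10), (0, 4, 8), 481),
    ((3, 7, 11), (0, 4, 8), -1018), ((8, 5, 1), (1, 4, 8), 765), ((3, 6, 10), (1, 4, 8), 176), ((10, 7, 3), (1, 4, 8), -595),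
    ((8, 6, 2), (2, 4, 8), 765), ((3, 5, 9), (2, 4, 8), 176), ((9, 7, 3), (2, 4, 8), -595), ((8, 7, 3), (3, 4, 8), -166),
    ((1, 4, 9), (8, 5, 0), -449), ((10, 7, 2), (8, 5, 0), -636), ((3, 6, 11), (8, 5, 0), 408), ((2, 13, 10), (8, 5, 0), 162),
    ((9, 6, 3), (2, 5, 8), -556), ((8, 13, 2), (2, 5, 8), 668), ((9, 7, 1), (8, 6, 0), -636), ((2, 4, 10), (8, 6, 0), -449),
    ((3, 5, 11), (8, 6, 0), 408), ((1, 12, 9), (8, 6, 0), 162), ((3, 5, 10), (8, 6, 1), -556), ((1, 12, 8), (8, 6, 1), 668),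
    ((3, 4, 11), (8, 7, 0), 60), ((3, 4, 10), (8, 7, 1), 34), ((3, 4, 9), (8, 7, 2), 34), ((9, 8, 0), (0, 1, 9), -13),
    ((2, 3, 11), (0, 1, 9), 24), ((11, 10, 2), (0, 1, 9), -17), ((11, 9, 2), (0, 2, 9), -13), ((10, 9, 2), (1, 2, 9), 2),
    ((11, 8, 2), (0, 3, 9), -75), ((9, 8, 2), (2, 3, 9), -29), ((9, 5, 0), (0, 4, 9), 490), ((2, 6, 11), (0, 4, 9), 360),
    ((11, 7, 2), (0, 4, 9), -518), ((9, 7, 2), (2, 4, 9), -29), ((9, 6, 2), (2, 5, 9), 87), ((2, 5, 11), (9, 6, 0), -4),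
    ((0, 12, 9), (9, 6, 0), -44), ((2, 5, 10), (9, 6, 1), -334), ((0, 12, 8), (9, 6, 1), 334), ((8, 13, 0), (9, 6, 1), 334),
    ((2, 4, 11), (9, 7, 0), -121), ((11, 10, 1), (0, 1, 10), -13), ((10, 8, 0), (0, 2, 10), -13), ((1, 3, 11), (0, 2, 10), 24),
    ((11, 9, 1), (0, 2, 10), -17), ((10, 9, 1), (1, 2, 10), 2), ((11, 8, 1), (0, 3, 10), -75), ((10, 8, 1), (1, 3, 10), -29),
    ((10, 6, 0), (0, 4, 10), 490), ((1, 5, 11), (0, 4, 10), 360), ((11, 7, 1), (0, 4, 10), -518), ((10, 7, 1), (1, 4, 10), -29),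
    ((11, 6, 1), (0, 5, 10), -4), ((10, 13, 0), (0, 5, 10), -44), ((10, 6, 1), (1, 5, 10), -87), ((1, 4, 11), (10, 7, 0), -121),
    ((1, 2, 11), (10, 9, 0), 55), ((11, 10, 0), (0, 1, 11), -10), ((11, 9, 0), (0, 2, 11), -10), ((11, 8, 0), (0, 3, 11), -20),
    ((11, 7, 0), (0, 4, 11), 27), ((5, 12, 2), (0, 2, 12), 20), ((4, 12, 2), (1, 2, 12), -23), ((5, 12, 3), (1, 3, 12), -6),
    ((12, 6, 9), (6, 12, 0), 3), ((12, 6, 8), (6, 12, 1), 7), ((6, 5, 12), (12, 4, 6), -11), ((12, 7, 9), (7, 12, 1), 327),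
    ((10, 9, 12), (12, 4, 10), 8), ((10, 8, 12), (12, 5, 10), 77), ((11, 9, 12), (12, 5, 11), 188), ((6, 13, 1), (0, 1, 13), 20),
    ((13, 4, 1), (1, 2, 13), -23), ((6, 13, 3), (2, 3, 13), -6), ((5, 13, 10), (13, 5, 0), 3), ((5, 13, 8), (13, 5, 2), 7),
    ((6, 13, 5), (4, 5, 13), -11), ((13, 7, 10), (7, 13, 2), 327), ((10, 9, 13), (4, 13, 9), 8), ((9, 8, 13), (13, 6, 9), 77),
    ((11, 10, 13), (13, 6, 11), 188), ((12, 13, 8), (13, 12, 0), -24)]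
  tr := tr14
  big := 1048576

theorem ct33_valid : validC ct33 = true := by decide +kernel

theorem ct33_const : constOK ct33 3513 = true := by decide +kernel

/-- classes -/
def cs33 : List Cl := [
 cl 0 1 0 1 1246 0 126, cl 0 2 0 0 0 223 237, cl 1 0 0 0 6918 0 119, cl 1 1 0 1 0 2366 111,
 cl 1 2 0 0 222 0 168, cl 2 0 0 0 385 0 84, cl 2 1 0 1 0 0 85, cl 2 2 0 0 0 0 97,
 cl 1 0 0 2 0 3068 84, cl 0 0 0 2 0 3802 90, cl 1 0 1 1 2612 0 100, cl 2 0 1 1 0 1786 79,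
 cl 2 0 0 2 0 1316 73, cl 1 0 1 3 226 0 71, cl 1 0 2 0 0 3409 106, cl 2 0 2 0 0 364 79,
 cl 1 0 2 2 0 270 81, cl 0 1 0 3 214 0 74, cl 0 2 0 2 1466 0 90, cl 1 1 0 3 10 0 72,
 cl 1 2 0 2 88 0 88, cl 0 0 0 4 0 5 64]

theorem ct33_link : linkOK ct33 cs33 = true := by decide +kernel

theorem cs33_tail : tailOK cs33 16 16 112 3513 = true := by decide +kernel

theorem cs33_grid : gridOK vtTree cs33 16 16 112 16 6922127104 0 7176 3513 = true := by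
  decide +kernel

end Pool.Agent.H79.OC
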