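import Pool.Agent.H79.OC.Pts
import Pool.Agent.H79.OC.VTab

set_option autoImplicit false
set_option maxRecDepth 100000

/-!
# Certificates, part 18
-/

namespace Pool.Agent.H79.OC

open Cl

/-! ### Box 34: `0 ≤ -128 x ≤ 16`, `16 ≤ 128 y ≤ 32` -/

/-- certificate -/
def ct34 : Cert where
  pts := pts14
  g := 5007
  al := [(0, 262), (1, -658), (2, -658), (3, 1686), (4, 1071), (5, 1429), (6, 1429), (7, 963), (8, 1177), (9, 130), (10, 130), (11, 32), (12, 322), (13, 322)]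
  be := [
    (1, 0, 761), (2, 0, 761), (2, 1, -737), (3, 0, 191), (3, 1, 31), (3, 2, 31), (4, 0, 221),
    (4, 1, 1439), (4, 2, 1439), (4, 3, -1787), (5, 0, -155), (5, 1, 2112), (5, 2, -23), (5, 3, 454),
    (5, 4, 673), (6, 0, -155), (6, 1, -23), (6, 2, 2112), (6, 3, 454), (6, 4, 673), (6, 5, -1566),
    (7, 0, -168), (7, 1, 253), (7, 2, 253), (7, 3, 1810), (7, 4, -400), (7, 5, -294), (7, 6, -294),
    (8, 0, -174), (8, 1, -103), (8, 2, -103), (8, 3, -20), (8, 4, 2109), (8, 5, 89), (8, 6, 89),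
    (8, 7, -1652), (9, 0, -91), (9, 1, 183), (9, 2, 60), (9, 3, -98), (9, 4, -76), (9, 5, 346),
    (9, 6, 200), (9, 7, 633), (9, 8, 363), (10, 0, -91), (10, 1, 60), (10, 2, 183), (10, 3, -98),
    (10, 4, -76), (10, 5, 200), (10, 6, 346), (10, 7, 633), (10, 8, 363), (10, 9, -301), (11, 1, 91),
    (11, 2, 91), (11, 3, -44), (11, 4, 168), (11, 5, -213), (11, 6, -213), (11, 7, 789), (11, 8, 209),
    (11, 9, 318), (11, 10, 318), (12, 0, -245), (12, 1, 329), (12, 2, 330), (12, 3, -619), (12, 4, -388),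
    (12, 5, -517), (12, 7, 280), (12, 8, 68), (12, 9, -503), (12, 10, -9), (12, 11, -13), (13, 0, -245),
    (13, 1, 330), (13, 2, 329), (13, 3, -619), (13, 4, -388), (13, 6, -517), (13, 7, 280), (13, 8, 68),
    (13, 9, -9), (13, 10, -503), (13, 11, -13), (13, 12, -199)]
  ta := [
    ((3, 2, 1), (0, 1, 2), 178), ((4, 5, 6), (0, 1, 2), -314), ((7, 6, 5), (0, 1, 2), 481), ((8, 9, 10), (0, 1, 2), -13),
    ((11, 10, 9), (0, 1, 2), 10), ((5, 4, 12), (0, 1, 2), -167), ((6, 13, 4), (0, 1, 2), -167), ((3, 2, 0), (0, 1, 3), -127),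
    ((4, 5, 7), (0, 1, 3), 380), ((7, 6, 4), (0, 1, 3), 380), ((8, 9, 11), (0, 1, 3), -253), ((11, 10, 8), (0, 1, 3), -253),
    ((6, 5, 3), (1, 2, 4), 368), ((5, 6, 8), (1, 2, 4), -586), ((10, 9, 7), (1, 2, 4), 85), ((4, 12, 1), (1, 2, 4), -11),
    ((13, 4, 2), (1, 2, 4), -11), ((7, 4, 3), (0, 3, 4), -199), ((4, 7, 8), (0, 3, 4), -359), ((11, 8, 7), (0, 3, 4), 19),
    ((6, 4, 3), (1, 3, 4), -19), ((5, 7, 8), (1, 3, 4), 145), ((10, 8, 7), (1, 3, 4), -130), ((5, 4, 3), (2, 3, 4), -19),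
    ((6, 7, 8), (2, 3, 4), 145), ((9, 8, 7), (2, 3, 4), -130), ((5, 4, 0), (0, 1, 5), -457), ((2, 3, 7), (0, 1, 5), -238),
    ((7, 6, 2), (0, 1, 5), -88), ((4, 5, 9), (0, 1, 5), 334), ((9, 8, 4), (0, 1, 5), -272), ((6, 7, 11), (0, 1, 5), -351),
    ((11, 10, 6), (0, 1, 5), -235), ((13, 6, 10), (0, 1, 5), 1771), ((7, 5, 2), (0, 2, 5), 8), ((4, 6, 9), (0, 2, 5), 45),
    ((11, 9, 6), (0, 2, 5), -93), ((5, 12, 0), (0, 2, 5), -42), ((10, 8, 13), (0, 2, 5), 291), ((6, 5, 2), (1, 2, 5), -421),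
    ((5, 6, 9), (1, 2, 5), -700), ((10, 9, 6), (1, 2, 5), -25), ((4, 12, 0), (1, 2, 5), 831), ((4, 13, 8), (1, 2, 5), -187),
    ((7, 4, 2), (0, 3, 5), -295), ((4, 7, 9), (0, 3, 5), 429), ((11, 8, 6), (0, 3, 5), -61), ((5, 4, 2), (2, 3, 5), -514),
    ((6, 7, 9), (2, 3, 5), -238), ((9, 8, 6), (2, 3, 5), -384), ((0, 1, 12), (2, 3, 5), -266), ((13, 6, 8), (2, 3, 5), 1205),
    ((7, 6, 1), (0, 1, 6), 8), ((4, 5, 10), (0, 1, 6), 45), ((11, 10, 5), (0, 1, 6), -93), ((9, 8, 12), (0, 1, 6), 291),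
    ((6, 13, 0), (0, 1, 6), -42), ((6, 4, 0), (0, 2, 6), -457), ((1, 3, 7), (0, 2, 6), -238), ((7, 5, 1), (0, 2, 6), -88),
    ((4, 6, 10), (0, 2, 6), 334), ((10, 8, 4), (0, 2, 6), -272), ((5, 7, 11), (0, 2, 6), -351), ((11, 9, 5), (0, 2, 6), -235),
    ((12, 5, 9), (0, 2, 6), 1771), ((6, 5, 1), (1, 2, 6), -421), ((5, 6, 10), (1, 2, 6), -700), ((10, 9, 5), (1, 2, 6), -25),
    ((12, 4, 8), (1, 2, 6), -187), ((13, 4, 0), (1, 2, 6), 831), ((7, 4, 1), (0, 3, 6), -295), ((4, 7, 10), (0, 3, 6), 429),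
    ((11, 8, 5), (0, 3, 6), -61), ((6, 4, 1), (1, 3, 6), -514), ((5, 7, 10), (1, 3, 6), -238), ((10, 8, 5), (1, 3, 6), -384),
    ((12, 5, 8), (1, 3, 6), 1205), ((0, 2, 13), (1, 3, 6), -266), ((1, 2, 7), (6, 5, 0), -119), ((10, 9, 4), (6, 5, 0), -142),
    ((5, 6, 11), (6, 5, 0), 273), ((12, 4, 9), (6, 5, 0), -99), ((4, 13, 10), (6, 5, 0), -99), ((7, 6, 0), (0, 1, 7), 211),
    ((4, 5, 11), (0, 1, 7), 13), ((11, 10, 4), (0, 1, 7), -51), ((7, 5, 0), (0, 2, 7), 211), ((4, 6, 11), (0, 2, 7), 13),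
    ((11, 9, 4), (0, 2, 7), -51), ((7, 4, 0), (0, 3, 7), 114), ((4, 7, 11), (0, 3, 7), 108), ((11, 8, 4), (0, 3, 7), -164),
    ((9, 8, 1), (0, 1, 8), -113), ((2, 3, 10), (0, 1, 8), 113), ((11, 10, 3), (0, 1, 8), 76), ((1, 3, 9), (0, 2, 8), 113),
    ((10, 8, 2), (0, 2, 8), -113), ((11, 9, 3), (0, 2, 8), 76), ((10, 9, 3), (1, 2, 8), -4), ((11, 8, 3), (0, 3, 8), 30),
    ((10, 8, 3), (1, 3, 8), -2), ((9, 8, 3), (2, 3, 8), -2), ((1, 5, 9), (0, 4, 8), 820), ((2, 6, 10), (0, 4, 8), 820),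
    ((3, 7, 11), (0, 4, 8), -675), ((8, 5, 1), (1, 4, 8), 409), ((3, 6, 10), (1, 4, 8), 480), ((10, 7, 3), (1, 4, 8), -397),
    ((8, 6, 2), (2, 4, 8), 409), ((3, 5, 9), (2, 4, 8), 480), ((9, 7, 3), (2, 4, 8), -397), ((8, 7, 3), (3, 4, 8), -82),
    ((1, 4, 9), (8, 5, 0), -54), ((10, 7, 2), (8, 5, 0), -129), ((3, 6, 11), (8, 5, 0), 24), ((2, 13, 10), (8, 5, 0), 149),
    ((9, 6, 3), (2, 5, 8), -51), ((8, 13, 2), (2, 5, 8), 30), ((9, 7, 1), (8, 6, 0), -129), ((2, 4, 10), (8, 6, 0), -54),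
    ((3, 5, 11), (8, 6, 0), 24), ((1, 12, 9), (8, 6, 0), 149), ((3, 5, 10), (8, 6, 1), -51), ((1, 12, 8), (8, 6, 1), 30),
    ((3, 4, 11), (8, 7, 0), -92), ((3, 4, 10), (8, 7, 1), -138), ((3, 4, 9), (8, 7, 2), -138), ((9, 8, 0), (0, 1, 9), 2),
    ((2, 3, 11), (0, 1, 9), 30), ((11, 10, 2), (0, 1, 9), -9), ((11, 9, 2), (0, 2, 9), -1), ((10, 9, 2), (1, 2, 9), -45),
    ((11, 8, 2), (0, 3, 9), -58), ((9, 8, 2), (2, 3, 9), -81), ((9, 5, 0), (0, 4, 9), -10), ((2, 6, 11), (0, 4, 9), 29),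
    ((11, 7, 2), (0, 4, 9), -52), ((9, 7, 2), (2, 4, 9), -89), ((9, 6, 2), (2, 5, 9), 207), ((2, 5, 11), (9, 6, 0), -54),
    ((0, 12, 9), (9, 6, 0), 74), ((2, 5, 10), (9, 6, 1), -151), ((0, 12, 8), (9, 6, 1), 151), ((8, 13, 0), (9, 6, 1), 151),
    ((2, 4, 11), (9, 7, 0), -43), ((11, 10, 1), (0, 1, 10), -1), ((10, 8, 0), (0, 2, 10), 2), ((1, 3, 11), (0, 2, 10), 30),
    ((11, 9, 1), (0, 2, 10), -9), ((10, 9, 1), (1, 2, 10), -45), ((11, 8, 1), (0, 3, 10), -58), ((10, 8, 1), (1, 3, 10), -81),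
    ((10, 6, 0), (0, 4, 10), -10), ((1, 5, 11), (0, 4, 10), 29), ((11, 7, 1), (0, 4, 10), -52), ((10, 7, 1), (1, 4, 10), -89),
    ((11, 6, 1), (0, 5, 10), -54), ((10, 13, 0), (0, 5, 10), 74), ((10, 6, 1), (1, 5, 10), -207), ((1, 4, 11), (10, 7, 0), -43),
    ((1, 2, 11), (10, 9, 0), 19), ((5, 12, 2), (0, 2, 12), 152), ((4, 12, 2), (1, 2, 12), -4), ((5, 12, 3), (1, 3, 12), -419),
    ((12, 6, 9), (6, 12, 0), -118), ((12, 6, 8), (6, 12, 1), -336), ((6, 5, 12), (12, 4, 6), 296), ((12, 7, 9), (7, 12, 1), 73),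
    ((10, 9, 12), (12, 4, 10), 70), ((10, 8, 12), (12, 5, 10), -71), ((11, 9, 12), (12, 5, 11), 13), ((6, 13, 1), (0, 1, 13), 152),
    ((13, 4, 1), (1, 2, 13), -4), ((6, 13, 3), (2, 3, 13), -419), ((5, 13, 10), (13, 5, 0), -118), ((5, 13, 8), (13, 5, 2), -336),
    ((6, 13, 5), (4, 5, 13), 296), ((13, 7, 10), (7, 13, 2), 73), ((10, 9, 13), (4, 13, 9), 70), ((9, 8, 13), (13, 6, 9), -71),
    ((11, 10, 13), (13, 6, 11), 13), ((12, 13, 8), (13, 12, 0), -151)]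
  tr := tr14
  big := 1048576

theorem ct34_valid : validC ct34 = true := by decide +kernel

theorem ct34_const : constOK ct34 5026 = true := by decide +kernel

/-- classes -/
def cs34 : List Cl := [
 cl 0 1 0 1 2670 0 423, cl 0 2 0 0 0 0 1024, cl 1 0 0 0 9845 0 119, cl 1 1 0 1 0 1388 126,
 cl 1 2 0 0 0 0 137, cl 2 0 0 0 148 0 84, cl 2 1 0 1 0 0 87, cl 2 2 0 0 0 0 90,
 cl 1 0 0 2 0 0 117, cl 0 0 0 2 0 3380 237, cl 1 0 1 1 5888 0 118, cl 2 0 1 1 0 402 84,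
 cl 2 0 0 2 120 0 84, cl 1 0 1 3 660 0 115, cl 1 0 2 0 0 3439 119, cl 2 0 2 0 0 20 84,
 cl 1 0 2 2 0 1238 117, cl 0 1 0 3 0 0 194, cl 0 2 0 2 560 0 237, cl 1 1 0 3 0 18 122,
 cl 1 2 0 2 0 26 134, cl 0 0 0 4 0 199 168]

theorem ct34_link : linkOK ct34 cs34 = true := by decide +kernel

theorem cs34_tail : tailOK cs34 0 16 16 5026 = true := by decide +kernel

theorem cs34_grid : gridOK vtTree cs34 0 16 16 16 0 5061495680 6444 5026 = true := by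
  decide +kernel

/-! ### Box 35: `0 ≤ -128 x ≤ 16`, `32 ≤ 128 y ≤ 48` -/

/-- certificate -/
def ct35 : Cert where
  pts := pts14
  g := 7744
  al := [(0, 834), (1, 4), (2, 4), (3, 2279), (4, 1446), (5, 2473), (6, 2473), (7, 1424), (8, 692), (9, 1641), (10, 1641), (11, 1351), (12, 844), (13, 844)]
  be := [
    (1, 0, 447), (2, 0, 447), (2, 1, -881), (3, 0, -206), (3, 1, 433), (3, 2, 433), (4, 0, -576),
    (4, 1, 1166), (4, 2, 1166), (4, 3, -1748), (5, 0, -367), (5, 1, 2202), (5, 2, -305), (5, 3, 403),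
    (5, 4, 643), (6, 0, -367), (6, 1, -305), (6, 2, 2202), (6, 3, 403), (6, 4, 643), (6, 5, -1698),
    (7, 0, -49), (7, 1, 495), (7, 2, 495), (7, 3, 2161), (7, 4, -13), (7, 5, -210), (7, 6, -210),
    (8, 0, 346), (8, 1, -156), (8, 2, -156), (8, 3, -538), (8, 4, 2771), (8, 5, 506), (8, 6, 506),
    (8, 7, -1669), (9, 0, -230), (9, 1, 239), (9, 2, -132), (9, 3, -333), (9, 4, -219), (9, 5, -198),
    (9, 6, -354), (9, 7, -26), (9, 8, 944), (10, 0, -230), (10, 1, -132), (10, 2, 239), (10, 3, -333),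
    (10, 4, -219), (10, 5, -354), (10, 6, -198), (10, 7, -26), (10, 8, 944), (10, 9, -1083), (11, 0, -9),
    (11, 1, 230), (11, 2, 230), (11, 3, -305), (11, 4, 49), (11, 5, -310), (11, 6, -310), (11, 7, -27),
    (11, 8, 175), (11, 9, -933), (11, 10, -933), (12, 0, -164), (12, 1, 51), (12, 2, 223), (12, 3, -633),
    (12, 4, -75), (12, 5, -771), (12, 6, -63), (12, 8, 218), (12, 9, -1079), (12, 11, -378), (13, 0, -164),
    (13, 1, 223), (13, 2, 51), (13, 3, -633), (13, 4, -75), (13, 5, -63), (13, 6, -771), (13, 8, 218),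
    (13, 10, -1079), (13, 11, -378), (13, 12, -14)]
  ta := [
    ((3, 2, 1), (0, 1, 2), 627), ((4, 5, 6), (0, 1, 2), -1030), ((7, 6, 5), (0, 1, 2), 505), ((8, 9, 10), (0, 1, 2), -475),
    ((11, 10, 9), (0, 1, 2), 421), ((5, 4, 12), (0, 1, 2), -46), ((6, 13, 4), (0, 1, 2), -46), ((3, 2, 0), (0, 1, 3), -304),
    ((4, 5, 7), (0, 1, 3), 406), ((7, 6, 4), (0, 1, 3), 406), ((8, 9, 11), (0, 1, 3), -102), ((11, 10, 8), (0, 1, 3), -102),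
    ((6, 5, 3), (1, 2, 4), 605), ((5, 6, 8), (1, 2, 4), -373), ((10, 9, 7), (1, 2, 4), 110), ((4, 12, 1), (1, 2, 4), -126),
    ((13, 4, 2), (1, 2, 4), -126), ((7, 4, 3), (0, 3, 4), -124), ((4, 7, 8), (0, 3, 4), -548), ((11, 8, 7), (0, 3, 4), 361),
    ((6, 4, 3), (1, 3, 4), 316), ((5, 7, 8), (1, 3, 4), 82), ((10, 8, 7), (1, 3, 4), -76), ((5, 4, 3), (2, 3, 4), 316),
    ((6, 7, 8), (2, 3, 4), 82), ((9, 8, 7), (2, 3, 4), -76), ((5, 4, 0), (0, 1, 5), -175), ((2, 3, 7), (0, 1, 5), -992),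
    ((7, 6, 2), (0, 1, 5), -160), ((4, 5, 9), (0, 1, 5), 265), ((9, 8, 4), (0, 1, 5), -718), ((6, 7, 11), (0, 1, 5), -118),
    ((11, 10, 6), (0, 1, 5), 234), ((13, 6, 10), (0, 1, 5), 2009), ((7, 5, 2), (0, 2, 5), -420), ((4, 6, 9), (0, 2, 5), -192),
    ((11, 9, 6), (0, 2, 5), 183), ((5, 12, 0), (0, 2, 5), 269), ((10, 8, 13), (0, 2, 5), 363), ((6, 5, 2), (1, 2, 5), -412),
    ((5, 6, 9), (1, 2, 5), -404), ((10, 9, 6), (1, 2, 5), 30), ((4, 12, 0), (1, 2, 5), 499), ((4, 13, 8), (1, 2, 5), -351),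
    ((7, 4, 2), (0, 3, 5), -186), ((4, 7, 9), (0, 3, 5), 117), ((11, 8, 6), (0, 3, 5), -186), ((5, 4, 2), (2, 3, 5), -709),
    ((6, 7, 9), (2, 3, 5), 50), ((9, 8, 6), (2, 3, 5), -697), ((0, 1, 12), (2, 3, 5), 12), ((13, 6, 8), (2, 3, 5), 1100),
    ((7, 6, 1), (0, 1, 6), -420), ((4, 5, 10), (0, 1, 6), -192), ((11, 10, 5), (0, 1, 6), 183), ((9, 8, 12), (0, 1, 6), 363),
    ((6, 13, 0), (0, 1, 6), 269), ((6, 4, 0), (0, 2, 6), -175), ((1, 3, 7), (0, 2, 6), -992), ((7, 5, 1), (0, 2, 6), -160),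
    ((4, 6, 10), (0, 2, 6), 265), ((10, 8, 4), (0, 2, 6), -718), ((5, 7, 11), (0, 2, 6), -118), ((11, 9, 5), (0, 2, 6), 234),
    ((12, 5, 9), (0, 2, 6), 2009), ((6, 5, 1), (1, 2, 6), -412), ((5, 6, 10), (1, 2, 6), -404), ((10, 9, 5), (1, 2, 6), 30),
    ((12, 4, 8), (1, 2, 6), -351), ((13, 4, 0), (1, 2, 6), 499), ((7, 4, 1), (0, 3, 6), -186), ((4, 7, 10), (0, 3, 6), 117),
    ((11, 8, 5), (0, 3, 6), -186), ((6, 4, 1), (1, 3, 6), -709), ((5, 7, 10), (1, 3, 6), 50), ((10, 8, 5), (1, 3, 6), -697),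
    ((12, 5, 8), (1, 3, 6), 1100), ((0, 2, 13), (1, 3, 6), 12), ((1, 2, 7), (6, 5, 0), -330), ((10, 9, 4), (6, 5, 0), 207),
    ((5, 6, 11), (6, 5, 0), -69), ((12, 4, 9), (6, 5, 0), 171), ((4, 13, 10), (6, 5, 0), 171), ((7, 6, 0), (0, 1, 7), 161),
    ((4, 5, 11), (0, 1, 7), 11), ((11, 10, 4), (0, 1, 7), -68), ((7, 5, 0), (0, 2, 7), 161), ((4, 6, 11), (0, 2, 7), 11),
    ((11, 9, 4), (0, 2, 7), -68), ((7, 4, 0), (0, 3, 7), 586), ((4, 7, 11), (0, 3, 7), -6), ((11, 8, 4), (0, 3, 7), -491),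
    ((9, 8, 1), (0, 1, 8), -452), ((2, 3, 10), (0, 1, 8), -356), ((11, 10, 3), (0, 1, 8), 702), ((1, 3, 9), (0, 2, 8), -356),
    ((10, 8, 2), (0, 2, 8), -452), ((11, 9, 3), (0, 2, 8), 702), ((10, 9, 3), (1, 2, 8), -4), ((11, 8, 3), (0, 3, 8), 243),
    ((10, 8, 3), (1, 3, 8), 83), ((9, 8, 3), (2, 3, 8), 83), ((1, 5, 9), (0, 4, 8), 372), ((2, 6, 10), (0, 4, 8), 372),
    ((3, 7, 11), (0, 4, 8), -49), ((8, 5, 1), (1, 4, 8), -7), ((3, 6, 10), (1, 4, 8), 95), ((10, 7, 3), (1, 4, 8), 80),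
    ((8, 6, 2), (2, 4, 8), -7), ((3, 5, 9), (2, 4, 8), 95), ((9, 7, 3), (2, 4, 8), 80), ((8, 7, 3), (3, 4, 8), -3),
    ((1, 4, 9), (8, 5, 0), 123), ((10, 7, 2), (8, 5, 0), 237), ((3, 6, 11), (8, 5, 0), -198), ((2, 13, 10), (8, 5, 0), 11),
    ((9, 6, 3), (2, 5, 8), 18), ((8, 13, 2), (2, 5, 8), -73), ((9, 7, 1), (8, 6, 0), 237), ((2, 4, 10), (8, 6, 0), 123),
    ((3, 5, 11), (8, 6, 0), -198), ((1, 12, 9), (8, 6, 0), 11), ((3, 5, 10), (8, 6, 1), 18), ((1, 12, 8), (8, 6, 1), -73),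
    ((3, 4, 11), (8, 7, 0), -152), ((3, 4, 10), (8, 7, 1), -103), ((3, 4, 9), (8, 7, 2), -103), ((9, 8, 0), (0, 1, 9), -129),
    ((2, 3, 11), (0, 1, 9), -229), ((11, 10, 2), (0, 1, 9), 150), ((11, 9, 2), (0, 2, 9), 65), ((10, 9, 2), (1, 2, 9), 4),
    ((11, 8, 2), (0, 3, 9), 8), ((9, 8, 2), (2, 3, 9), -3), ((9, 5, 0), (0, 4, 9), 89), ((2, 6, 11), (0, 4, 9), -345),
    ((11, 7, 2), (0, 4, 9), 96), ((9, 7, 2), (2, 4, 9), -118), ((9, 6, 2), (2, 5, 9), 210), ((2, 5, 11), (9, 6, 0), -15),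
    ((0, 12, 9), (9, 6, 0), 24), ((2, 5, 10), (9, 6, 1), -93), ((0, 12, 8), (9, 6, 1), 93), ((8, 13, 0), (9, 6, 1), 93),
    ((2, 4, 11), (9, 7, 0), 55), ((11, 10, 1), (0, 1, 10), 65), ((10, 8, 0), (0, 2, 10), -129), ((1, 3, 11), (0, 2, 10), -229),
    ((11, 9, 1), (0, 2, 10), 150), ((10, 9, 1), (1, 2, 10), 4), ((11, 8, 1), (0, 3, 10), 8), ((10, 8, 1), (1, 3, 10), -3),
    ((10, 6, 0), (0, 4, 10), 89), ((1, 5, 11), (0, 4, 10), -345), ((11, 7, 1), (0, 4, 10), 96), ((10, 7, 1), (1, 4, 10), -118),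
    ((11, 6, 1), (0, 5, 10), -15), ((10, 13, 0), (0, 5, 10), 24), ((10, 6, 1), (1, 5, 10), -210), ((1, 4, 11), (10, 7, 0), 55),
    ((1, 2, 11), (10, 9, 0), -222), ((11, 10, 0), (0, 1, 11), -68), ((11, 9, 0), (0, 2, 11), -68), ((11, 8, 0), (0, 3, 11), -128),
    ((11, 7, 0), (0, 4, 11), -217), ((5, 12, 2), (0, 2, 12), 264), ((4, 12, 2), (1, 2, 12), -154), ((5, 12, 3), (1, 3, 12), -628),
    ((12, 6, 9), (6, 12, 0), 208), ((12, 6, 8), (6, 12, 1), -300), ((6, 5, 12), (12, 4, 6), 242), ((12, 7, 9), (7, 12, 1), 105),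
    ((10, 9, 12), (12, 4, 10), 306), ((10, 8, 12), (12, 5, 10), -21), ((11, 9, 12), (12, 5, 11), 159), ((6, 13, 1), (0, 1, 13), 264),
    ((13, 4, 1), (1, 2, 13), -154), ((6, 13, 3), (2, 3, 13), -628), ((5, 13, 10), (13, 5, 0), 208), ((5, 13, 8), (13, 5, 2), -300),
    ((6, 13, 5), (4, 5, 13), 242), ((13, 7, 10), (7, 13, 2), 105), ((10, 9, 13), (4, 13, 9), 306), ((9, 8, 13), (13, 6, 9), -21),
    ((11, 10, 13), (13, 6, 11), 159), ((12, 13, 8), (13, 12, 0), 5)]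
  tr := tr14
  big := 1048576

theorem ct35_valid : validC ct35 = true := by decide +kernel

theorem ct35_const : constOK ct35 4137 = true := by decide +kernel

/-- classes -/
def cs35 : List Cl := [
 cl 0 1 0 1 1106 0 237, cl 0 2 0 0 0 44 1024, cl 1 0 0 0 8337 0 119, cl 1 1 0 1 0 2960 125,
 cl 1 2 0 0 0 0 137, cl 2 0 0 0 519 0 84, cl 2 1 0 1 0 0 87, cl 2 2 0 0 0 9 90,
 cl 1 0 0 2 0 1210 112, cl 0 0 0 2 0 3812 168, cl 1 0 1 1 4200 0 117, cl 2 0 1 1 0 978 84,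
 cl 2 0 0 2 0 264 83, cl 1 0 1 3 446 0 106, cl 1 0 2 0 0 3417 119, cl 2 0 2 0 0 538 84,
 cl 1 0 2 2 0 1266 112, cl 0 1 0 3 0 126 137, cl 0 2 0 2 0 0 168, cl 1 1 0 3 0 0 111,
 cl 1 2 0 2 0 756 125, cl 0 0 0 4 0 14 119]

theorem ct35_link : linkOK ct35 cs35 = true := by decide +kernel

theorem cs35_tail : tailOK cs35 0 16 32 4137 = true := by decide +kernel

theorem cs35_grid : gridOK vtTree cs35 0 16 32 16 5075909568 0 6737 4137 = true := by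
  decide +kernel

end Pool.Agent.H79.OC
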