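import Pool.Agent.H79.OC.Pts
import Pool.Agent.H79.OC.VTab

set_option autoImplicit false
set_option maxRecDepth 100000

/-!
# Certificates, part 19
-/

namespace Pool.Agent.H79.OC

open Cl

/-! ### Box 36: `0 ≤ -128 x ≤ 16`, `48 ≤ 128 y ≤ 64` -/

/-- certificate -/
def ct36 : Cert where
  pts := pts14
  g := 7946
  al := [(0, 617), (1, -495), (2, -495), (3, 2357), (4, 2345), (5, 2557), (6, 2557), (7, 2514), (8, 1582), (9, 870), (10, 870), (11, 1175), (12, 720), (13, 720)]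
  be := [
    (1, 0, 708), (2, 0, 708), (2, 1, -423), (3, 0, 632), (3, 1, 386), (3, 2, 386), (4, 0, -1002),
    (4, 1, 1255), (4, 2, 1255), (4, 3, -2248), (5, 0, 26), (5, 1, 2689), (5, 2, -119), (5, 3, 228),
    (5, 4, 322), (6, 0, 26), (6, 1, -119), (6, 2, 2689), (6, 3, 228), (6, 4, 322), (6, 5, -1861),
    (7, 0, -214), (7, 1, 30), (7, 2, 30), (7, 3, 1700), (7, 4, -987), (7, 5, -1240), (7, 6, -1240),
    (8, 0, -337), (8, 1, -385), (8, 2, -385), (8, 3, -508), (8, 4, 2219), (8, 5, 138), (8, 6, 138),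
    (8, 7, -1663), (9, 0, -387), (9, 1, 697), (9, 3, 39), (9, 4, 45), (9, 5, 279), (9, 6, 73),
    (9, 7, 306), (9, 8, 587), (10, 0, -387), (10, 2, 697), (10, 3, 39), (10, 4, 45), (10, 5, 73),
    (10, 6, 279), (10, 7, 306), (10, 8, 587), (10, 9, -1107), (11, 0, -47), (11, 1, 453), (11, 2, 453),
    (11, 3, -547), (11, 4, 214), (11, 5, -598), (11, 6, -598), (11, 7, 208), (11, 8, 165), (11, 9, -535),
    (11, 10, -535), (12, 0, -481), (12, 1, 190), (12, 2, 363), (12, 3, -610), (12, 4, -378), (12, 5, -129),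
    (12, 7, 25), (12, 8, 152), (12, 9, -819), (12, 10, 69), (12, 11, -355), (13, 0, -481), (13, 1, 363),
    (13, 2, 190), (13, 3, -610), (13, 4, -378), (13, 6, -129), (13, 7, 25), (13, 8, 152), (13, 9, 69),
    (13, 10, -819), (13, 11, -355), (13, 12, -150)]
  ta := [
    ((3, 2, 1), (0, 1, 2), 695), ((4, 5, 6), (0, 1, 2), -639), ((7, 6, 5), (0, 1, 2), 949), ((8, 9, 10), (0, 1, 2), 202),
    ((11, 10, 9), (0, 1, 2), 139), ((5, 4, 12), (0, 1, 2), -472), ((6, 13, 4), (0, 1, 2), -472), ((3, 2, 0), (0, 1, 3), -615),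
    ((4, 5, 7), (0, 1, 3), 889), ((7, 6, 4), (0, 1, 3), 889), ((8, 9, 11), (0, 1, 3), -274), ((11, 10, 8), (0, 1, 3), -274),
    ((6, 5, 3), (1, 2, 4), 730), ((5, 6, 8), (1, 2, 4), -412), ((10, 9, 7), (1, 2, 4), -6), ((4, 12, 1), (1, 2, 4), -57),
    ((13, 4, 2), (1, 2, 4), -57), ((7, 4, 3), (0, 3, 4), -26), ((4, 7, 8), (0, 3, 4), -468), ((11, 8, 7), (0, 3, 4), 7),
    ((6, 4, 3), (1, 3, 4), 334), ((5, 7, 8), (1, 3, 4), 252), ((10, 8, 7), (1, 3, 4), -307), ((5, 4, 3), (2, 3, 4), 334),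
    ((6, 7, 8), (2, 3, 4), 252), ((9, 8, 7), (2, 3, 4), -307), ((5, 4, 0), (0, 1, 5), -268), ((2, 3, 7), (0, 1, 5), -654),
    ((7, 6, 2), (0, 1, 5), 279), ((4, 5, 9), (0, 1, 5), 263), ((9, 8, 4), (0, 1, 5), -695), ((6, 7, 11), (0, 1, 5), -36),
    ((11, 10, 6), (0, 1, 5), 196), ((13, 6, 10), (0, 1, 5), 1600), ((7, 5, 2), (0, 2, 5), -196), ((4, 6, 9), (0, 2, 5), -128),
    ((11, 9, 6), (0, 2, 5), 224), ((5, 12, 0), (0, 2, 5), 49), ((10, 8, 13), (0, 2, 5), 240), ((6, 5, 2), (1, 2, 5), -494),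
    ((5, 6, 9), (1, 2, 5), -805), ((10, 9, 6), (1, 2, 5), 32), ((4, 12, 0), (1, 2, 5), 1227), ((4, 13, 8), (1, 2, 5), -465),
    ((7, 4, 2), (0, 3, 5), -57), ((4, 7, 9), (0, 3, 5), 257), ((11, 8, 6), (0, 3, 5), -67), ((5, 4, 2), (2, 3, 5), -636),
    ((6, 7, 9), (2, 3, 5), -88), ((9, 8, 6), (2, 3, 5), -440), ((0, 1, 12), (2, 3, 5), 70), ((13, 6, 8), (2, 3, 5), 755),
    ((7, 6, 1), (0, 1, 6), -196), ((4, 5, 10), (0, 1, 6), -128), ((11, 10, 5), (0, 1, 6), 224), ((9, 8, 12), (0, 1, 6), 240),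
    ((6, 13, 0), (0, 1, 6), 49), ((6, 4, 0), (0, 2, 6), -268), ((1, 3, 7), (0, 2, 6), -654), ((7, 5, 1), (0, 2, 6), 279),
    ((4, 6, 10), (0, 2, 6), 263), ((10, 8, 4), (0, 2, 6), -695), ((5, 7, 11), (0, 2, 6), -36), ((11, 9, 5), (0, 2, 6), 196),
    ((12, 5, 9), (0, 2, 6), 1600), ((6, 5, 1), (1, 2, 6), -494), ((5, 6, 10), (1, 2, 6), -805), ((10, 9, 5), (1, 2, 6), 32),
    ((12, 4, 8), (1, 2, 6), -465), ((13, 4, 0), (1, 2, 6), 1227), ((7, 4, 1), (0, 3, 6), -57), ((4, 7, 10), (0, 3, 6), 257),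
    ((11, 8, 5), (0, 3, 6), -67), ((6, 4, 1), (1, 3, 6), -636), ((5, 7, 10), (1, 3, 6), -88), ((10, 8, 5), (1, 3, 6), -440),
    ((12, 5, 8), (1, 3, 6), 755), ((0, 2, 13), (1, 3, 6), 70), ((1, 2, 7), (6, 5, 0), -376), ((10, 9, 4), (6, 5, 0), 81),
    ((5, 6, 11), (6, 5, 0), 258), ((12, 4, 9), (6, 5, 0), 154), ((4, 13, 10), (6, 5, 0), 154), ((7, 6, 0), (0, 1, 7), 129),
    ((4, 5, 11), (0, 1, 7), -173), ((11, 10, 4), (0, 1, 7), -29), ((7, 5, 0), (0, 2, 7), 129), ((4, 6, 11), (0, 2, 7), -173),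
    ((11, 9, 4), (0, 2, 7), -29), ((7, 4, 0), (0, 3, 7), 906), ((4, 7, 11), (0, 3, 7), 285), ((11, 8, 4), (0, 3, 7), -766),
    ((9, 8, 1), (0, 1, 8), -405), ((2, 3, 10), (0, 1, 8), -435), ((11, 10, 3), (0, 1, 8), 546), ((1, 3, 9), (0, 2, 8), -435),
    ((10, 8, 2), (0, 2, 8), -405), ((11, 9, 3), (0, 2, 8), 546), ((10, 9, 3), (1, 2, 8), 44), ((11, 8, 3), (0, 3, 8), 422),
    ((10, 8, 3), (1, 3, 8), 53), ((9, 8, 3), (2, 3, 8), 53), ((1, 5, 9), (0, 4, 8), 192), ((2, 6, 10), (0, 4, 8), 192),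
    ((3, 7, 11), (0, 4, 8), -236), ((8, 5, 1), (1, 4, 8), 78), ((3, 6, 10), (1, 4, 8), -67), ((10, 7, 3), (1, 4, 8), -186),
    ((8, 6, 2), (2, 4, 8), 78), ((3, 5, 9), (2, 4, 8), -67), ((9, 7, 3), (2, 4, 8), -186), ((8, 7, 3), (3, 4, 8), -16),
    ((1, 4, 9), (8, 5, 0), -184), ((10, 7, 2), (8, 5, 0), 228), ((3, 6, 11), (8, 5, 0), 9), ((2, 13, 10), (8, 5, 0), -95),
    ((9, 6, 3), (2, 5, 8), -114), ((8, 13, 2), (2, 5, 8), 39), ((9, 7, 1), (8, 6, 0), 228), ((2, 4, 10), (8, 6, 0), -184),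
    ((3, 5, 11), (8, 6, 0), 9), ((1, 12, 9), (8, 6, 0), -95), ((3, 5, 10), (8, 6, 1), -114), ((1, 12, 8), (8, 6, 1), 39),
    ((3, 4, 11), (8, 7, 0), 22), ((3, 4, 10), (8, 7, 1), -79), ((3, 4, 9), (8, 7, 2), -79), ((9, 8, 0), (0, 1, 9), 71),
    ((2, 3, 11), (0, 1, 9), -194), ((11, 10, 2), (0, 1, 9), 25), ((11, 9, 2), (0, 2, 9), 48), ((10, 9, 2), (1, 2, 9), 112),
    ((11, 8, 2), (0, 3, 9), 13), ((9, 8, 2), (2, 3, 9), 30), ((9, 5, 0), (0, 4, 9), 353), ((2, 6, 11), (0, 4, 9), -364),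
    ((11, 7, 2), (0, 4, 9), 13), ((9, 7, 2), (2, 4, 9), -55), ((9, 6, 2), (2, 5, 9), 197), ((2, 5, 11), (9, 6, 0), -60),
    ((0, 12, 9), (9, 6, 0), 83), ((2, 5, 10), (9, 6, 1), -316), ((0, 12, 8), (9, 6, 1), 316), ((8, 13, 0), (9, 6, 1), 316),
    ((2, 4, 11), (9, 7, 0), -110), ((11, 10, 1), (0, 1, 10), 48), ((10, 8, 0), (0, 2, 10), 71), ((1, 3, 11), (0, 2, 10), -194),
    ((11, 9, 1), (0, 2, 10), 25), ((10, 9, 1), (1, 2, 10), 112), ((11, 8, 1), (0, 3, 10), 13), ((10, 8, 1), (1, 3, 10), 30),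
    ((10, 6, 0), (0, 4, 10), 353), ((1, 5, 11), (0, 4, 10), -364), ((11, 7, 1), (0, 4, 10), 13), ((10, 7, 1), (1, 4, 10), -55),
    ((11, 6, 1), (0, 5, 10), -60), ((10, 13, 0), (0, 5, 10), 83), ((10, 6, 1), (1, 5, 10), -197), ((1, 4, 11), (10, 7, 0), -110),
    ((1, 2, 11), (10, 9, 0), -351), ((11, 10, 0), (0, 1, 11), -28), ((11, 9, 0), (0, 2, 11), -28), ((11, 8, 0), (0, 3, 11), -10),
    ((11, 7, 0), (0, 4, 11), -169), ((5, 12, 2), (0, 2, 12), 86), ((4, 12, 2), (1, 2, 12), 45), ((5, 12, 3), (1, 3, 12), -588),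
    ((12, 6, 9), (6, 12, 0), 168), ((12, 6, 8), (6, 12, 1), -362), ((6, 5, 12), (12, 4, 6), 270), ((12, 7, 9), (7, 12, 1), -151),
    ((10, 9, 12), (12, 4, 10), 259), ((10, 8, 12), (12, 5, 10), 69), ((11, 9, 12), (12, 5, 11), 111), ((6, 13, 1), (0, 1, 13), 86),
    ((13, 4, 1), (1, 2, 13), 45), ((6, 13, 3), (2, 3, 13), -588), ((5, 13, 10), (13, 5, 0), 168), ((5, 13, 8), (13, 5, 2), -362),
    ((6, 13, 5), (4, 5, 13), 270), ((13, 7, 10), (7, 13, 2), -151), ((10, 9, 13), (4, 13, 9), 259), ((9, 8, 13), (13, 6, 9), 69),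
    ((11, 10, 13), (13, 6, 11), 111), ((12, 13, 8), (13, 12, 0), -57)]
  tr := tr14
  big := 1048576

theorem ct36_valid : validC ct36 = true := by decide +kernel

theorem ct36_const : constOK ct36 4095 = true := by decide +kernel

/-- classes -/
def cs36 : List Cl := [
 cl 0 1 0 1 198 0 194, cl 0 2 0 0 0 190 1024, cl 1 0 0 0 9061 0 119, cl 1 1 0 1 0 2632 122,
 cl 1 2 0 0 0 0 137, cl 2 0 0 0 510 0 84, cl 2 1 0 1 132 0 86, cl 2 2 0 0 0 47 90,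
 cl 1 0 0 2 0 750 106, cl 0 0 0 2 0 4147 137, cl 1 0 1 1 4234 0 115, cl 2 0 1 1 0 692 83,
 cl 2 0 0 2 0 0 82, cl 1 0 1 3 726 0 97, cl 1 0 2 0 0 3911 119, cl 2 0 2 0 0 508 84,
 cl 1 0 2 2 0 1220 106, cl 0 1 0 3 0 0 112, cl 0 2 0 2 50 0 137, cl 1 1 0 3 138 0 100,
 cl 1 2 0 2 0 710 115, cl 0 0 0 4 0 150 97]

theorem ct36_link : linkOK ct36 cs36 = true := by decide +kernel

theorem cs36_tail : tailOK cs36 0 16 48 4095 = true := by decide +kernel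

theorem cs36_grid : gridOK vtTree cs36 0 16 48 16 4106613152 0 6930 4095 = true := by
  decide +kernel

/-! ### Box 37: `0 ≤ -128 x ≤ 16`, `64 ≤ 128 y ≤ 80` -/

/-- certificate -/
def ct37 : Cert where
  pts := pts14
  g := 3627
  al := [(0, -308), (1, 457), (2, 457), (3, 2521), (4, 471), (5, 423), (6, 423), (7, -752), (8, 447), (9, -422), (10, -422), (11, 96), (12, 388), (13, 388)]
  be := [
    (1, 0, 637), (2, 0, 637), (2, 1, -1185), (3, 0, -313), (3, 1, -1017), (3, 2, -1017), (4, 0, 1117),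
    (4, 1, 1118), (4, 2, 1118), (4, 3, -1751), (5, 0, 209), (5, 1, 1517), (5, 2, -429), (5, 3, -28),
    (5, 4, 957), (6, 0, 209), (6, 1, -429), (6, 2, 1517), (6, 3, -28), (6, 4, 957), (6, 5, -890),
    (7, 0, 117), (7, 1, 481), (7, 2, 481), (7, 3, 1580), (7, 4, -141), (7, 5, 628), (7, 6, 628),
    (8, 0, -24), (8, 1, -474), (8, 2, -474), (8, 4, 1804), (8, 5, 260), (8, 6, 260), (8, 7, -989),
    (9, 0, 15), (9, 1, 270), (9, 2, -51), (9, 3, -108), (9, 4, -338), (9, 5, 330), (9, 6, 410),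
    (9, 7, 1272), (9, 8, 939), (10, 0, 15), (10, 1, -51), (10, 2, 270), (10, 3, -108), (10, 4, -338),
    (10, 5, 410), (10, 6, 330), (10, 7, 1272), (10, 8, 939), (10, 9, 46), (11, 1, -15), (11, 2, -15),
    (11, 3, -122), (11, 4, -117), (11, 5, -287), (11, 6, -287), (11, 7, 908), (11, 8, 300), (11, 9, 597),
    (11, 10, 597), (12, 0, -85), (12, 1, 108), (12, 2, 26), (12, 3, -666), (12, 4, -331), (12, 5, -192),
    (12, 7, 325), (12, 8, 104), (12, 9, -570), (13, 0, -85), (13, 1, 26), (13, 2, 108), (13, 3, -666),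
    (13, 4, -331), (13, 6, -192), (13, 7, 325), (13, 8, 104), (13, 10, -570), (13, 12, -48)]
  ta := [
    ((3, 2, 1), (0, 1, 2), 845), ((4, 5, 6), (0, 1, 2), -684), ((7, 6, 5), (0, 1, 2), -53), ((8, 9, 10), (0, 1, 2), 45),
    ((11, 10, 9), (0, 1, 2), -190), ((5, 4, 12), (0, 1, 2), -140), ((6, 13, 4), (0, 1, 2), -140), ((3, 2, 0), (0, 1, 3), -140),
    ((4, 5, 7), (0, 1, 3), 643), ((7, 6, 4), (0, 1, 3), 643), ((8, 9, 11), (0, 1, 3), -503), ((11, 10, 8), (0, 1, 3), -503),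
    ((6, 5, 3), (1, 2, 4), 564), ((5, 6, 8), (1, 2, 4), -414), ((10, 9, 7), (1, 2, 4), -153), ((4, 12, 1), (1, 2, 4), -198),
    ((13, 4, 2), (1, 2, 4), -198), ((7, 4, 3), (0, 3, 4), 589), ((4, 7, 8), (0, 3, 4), -395), ((11, 8, 7), (0, 3, 4), -56),
    ((6, 4, 3), (1, 3, 4), 288), ((5, 7, 8), (1, 3, 4), 65), ((10, 8, 7), (1, 3, 4), -403), ((5, 4, 3), (2, 3, 4), 288),
    ((6, 7, 8), (2, 3, 4), 65), ((9, 8, 7), (2, 3, 4), -403), ((5, 4, 0), (0, 1, 5), -432), ((2, 3, 7), (0, 1, 5), -349),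
    ((7, 6, 2), (0, 1, 5), -138), ((4, 5, 9), (0, 1, 5), 320), ((9, 8, 4), (0, 1, 5), -108), ((6, 7, 11), (0, 1, 5), -295),
    ((11, 10, 6), (0, 1, 5), -375), ((13, 6, 10), (0, 1, 5), 1866), ((7, 5, 2), (0, 2, 5), -163), ((4, 6, 9), (0, 2, 5), 184),
    ((11, 9, 6), (0, 2, 5), -42), ((5, 12, 0), (0, 2, 5), 11), ((10, 8, 13), (0, 2, 5), 164), ((6, 5, 2), (1, 2, 5), 7),
    ((5, 6, 9), (1, 2, 5), -549), ((10, 9, 6), (1, 2, 5), -56), ((4, 12, 0), (1, 2, 5), 54), ((4, 13, 8), (1, 2, 5), 96),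
    ((7, 4, 2), (0, 3, 5), -284), ((4, 7, 9), (0, 3, 5), 175), ((11, 8, 6), (0, 3, 5), -142), ((5, 4, 2), (2, 3, 5), -383),
    ((6, 7, 9), (2, 3, 5), -435), ((9, 8, 6), (2, 3, 5), -449), ((0, 1, 12), (2, 3, 5), -188), ((13, 6, 8), (2, 3, 5), 838),
    ((7, 6, 1), (0, 1, 6), -163), ((4, 5, 10), (0, 1, 6), 184), ((11, 10, 5), (0, 1, 6), -42), ((9, 8, 12), (0, 1, 6), 164),
    ((6, 13, 0), (0, 1, 6), 11), ((6, 4, 0), (0, 2, 6), -432), ((1, 3, 7), (0, 2, 6), -349), ((7, 5, 1), (0, 2, 6), -138),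
    ((4, 6, 10), (0, 2, 6), 320), ((10, 8, 4), (0, 2, 6), -108), ((5, 7, 11), (0, 2, 6), -295), ((11, 9, 5), (0, 2, 6), -375),
    ((12, 5, 9), (0, 2, 6), 1866), ((6, 5, 1), (1, 2, 6), 7), ((5, 6, 10), (1, 2, 6), -549), ((10, 9, 5), (1, 2, 6), -56),
    ((12, 4, 8), (1, 2, 6), 96), ((13, 4, 0), (1, 2, 6), 54), ((7, 4, 1), (0, 3, 6), -284), ((4, 7, 10), (0, 3, 6), 175),
    ((11, 8, 5), (0, 3, 6), -142), ((6, 4, 1), (1, 3, 6), -383), ((5, 7, 10), (1, 3, 6), -435), ((10, 8, 5), (1, 3, 6), -449),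
    ((12, 5, 8), (1, 3, 6), 838), ((0, 2, 13), (1, 3, 6), -188), ((1, 2, 7), (6, 5, 0), -57), ((10, 9, 4), (6, 5, 0), -36),
    ((5, 6, 11), (6, 5, 0), 371), ((12, 4, 9), (6, 5, 0), 101), ((4, 13, 10), (6, 5, 0), 101), ((7, 6, 0), (0, 1, 7), 258),
    ((4, 5, 11), (0, 1, 7), -33), ((11, 10, 4), (0, 1, 7), 59), ((7, 5, 0), (0, 2, 7), 258), ((4, 6, 11), (0, 2, 7), -33),
    ((11, 9, 4), (0, 2, 7), 59), ((7, 4, 0), (0, 3, 7), -263), ((4, 7, 11), (0, 3, 7), 89), ((11, 8, 4), (0, 3, 7), -352),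
    ((9, 8, 1), (0, 1, 8), 25), ((2, 3, 10), (0, 1, 8), 154), ((11, 10, 3), (0, 1, 8), -52), ((1, 3, 9), (0, 2, 8), 154),
    ((10, 8, 2), (0, 2, 8), 25), ((11, 9, 3), (0, 2, 8), -52), ((10, 9, 3), (1, 2, 8), -33), ((11, 8, 3), (0, 3, 8), 73),
    ((10, 8, 3), (1, 3, 8), -264), ((9, 8, 3), (2, 3, 8), -264), ((1, 5, 9), (0, 4, 8), 634), ((2, 6, 10), (0, 4, 8), 634),
    ((3, 7, 11), (0, 4, 8), -655), ((8, 5, 1), (1, 4, 8), 515), ((3, 6, 10), (1, 4, 8), 442), ((10, 7, 3), (1, 4, 8), -538),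
    ((8, 6, 2), (2, 4, 8), 515), ((3, 5, 9), (2, 4, 8), 442), ((9, 7, 3), (2, 4, 8), -538), ((8, 7, 3), (3, 4, 8), -42),
    ((1, 4, 9), (8, 5, 0), -222), ((10, 7, 2), (8, 5, 0), -134), ((3, 6, 11), (8, 5, 0), 82), ((2, 13, 10), (8, 5, 0), 103),
    ((9, 6, 3), (2, 5, 8), -107), ((8, 13, 2), (2, 5, 8), 15), ((9, 7, 1), (8, 6, 0), -134), ((2, 4, 10), (8, 6, 0), -222),
    ((3, 5, 11), (8, 6, 0), 82), ((1, 12, 9), (8, 6, 0), 103), ((3, 5, 10), (8, 6, 1), -107), ((1, 12, 8), (8, 6, 1), 15),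
    ((3, 4, 11), (8, 7, 0), 62), ((3, 4, 10), (8, 7, 1), -49), ((3, 4, 9), (8, 7, 2), -49), ((9, 8, 0), (0, 1, 9), 75),
    ((2, 3, 11), (0, 1, 9), 31), ((11, 10, 2), (0, 1, 9), -68), ((11, 9, 2), (0, 2, 9), -32), ((10, 9, 2), (1, 2, 9), -7),
    ((11, 8, 2), (0, 3, 9), -26), ((9, 8, 2), (2, 3, 9), -174), ((9, 5, 0), (0, 4, 9), 159), ((2, 6, 11), (0, 4, 9), -14),
    ((11, 7, 2), (0, 4, 9), -126), ((9, 7, 2), (2, 4, 9), -181), ((9, 6, 2), (2, 5, 9), 150), ((2, 5, 11), (9, 6, 0), 77),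
    ((0, 12, 9), (9, 6, 0), 39), ((2, 5, 10), (9, 6, 1), -163), ((0, 12, 8), (9, 6, 1), 163), ((8, 13, 0), (9, 6, 1), 163),
    ((2, 4, 11), (9, 7, 0), 30), ((11, 10, 1), (0, 1, 10), -32), ((10, 8, 0), (0, 2, 10), 75), ((1, 3, 11), (0, 2, 10), 31),
    ((11, 9, 1), (0, 2, 10), -68), ((10, 9, 1), (1, 2, 10), -7), ((11, 8, 1), (0, 3, 10), -26), ((10, 8, 1), (1, 3, 10), -174),
    ((10, 6, 0), (0, 4, 10), 159), ((1, 5, 11), (0, 4, 10), -14), ((11, 7, 1), (0, 4, 10), -126), ((10, 7, 1), (1, 4, 10), -181),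
    ((11, 6, 1), (0, 5, 10), 77), ((10, 13, 0), (0, 5, 10), 39), ((10, 6, 1), (1, 5, 10), -150), ((1, 4, 11), (10, 7, 0), 30),
    ((1, 2, 11), (10, 9, 0), 42), ((11, 10, 0), (0, 1, 11), 4), ((11, 9, 0), (0, 2, 11), 4), ((11, 7, 0), (0, 4, 11), 4),
    ((5, 12, 2), (0, 2, 12), 174), ((4, 12, 2), (1, 2, 12), -183), ((5, 12, 3), (1, 3, 12), -473), ((12, 6, 9), (6, 12, 0), 17),
    ((12, 6, 8), (6, 12, 1), -55), ((6, 5, 12), (12, 4, 6), -2), ((12, 7, 9), (7, 12, 1), 77), ((10, 9, 12), (12, 4, 10), 48),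
    ((10, 8, 12), (12, 5, 10), 20), ((11, 9, 12), (12, 5, 11), 68), ((6, 13, 1), (0, 1, 13), 174), ((13, 4, 1), (1, 2, 13), -183),
    ((6, 13, 3), (2, 3, 13), -473), ((5, 13, 10), (13, 5, 0), 17), ((5, 13, 8), (13, 5, 2), -55), ((6, 13, 5), (4, 5, 13), -2),
    ((13, 7, 10), (7, 13, 2), 77), ((10, 9, 13), (4, 13, 9), 48), ((9, 8, 13), (13, 6, 9), 20), ((11, 10, 13), (13, 6, 11), 68),
    ((12, 13, 8), (13, 12, 0), -85)]
  tr := tr14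
  big := 1048576

theorem ct37_valid : validC ct37 = true := by decide +kernel

theorem ct37_const : constOK ct37 5341 = true := by decide +kernel

/-- classes -/
def cs37 : List Cl := [
 cl 0 1 0 1 5098 0 168, cl 0 2 0 0 0 154 1024, cl 1 0 0 0 9103 0 119, cl 1 1 0 1 0 1010 118,
 cl 1 2 0 0 0 0 137, cl 2 0 0 0 394 0 84, cl 2 1 0 1 0 0 85, cl 2 2 0 0 0 0 90,
 cl 1 0 0 2 0 0 100, cl 0 0 0 2 0 2691 119, cl 1 0 1 1 5460 0 112, cl 2 0 1 1 0 1164 83,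
 cl 2 0 0 2 0 102 80, cl 1 0 1 3 52 0 89, cl 1 0 2 0 0 2740 119, cl 2 0 2 0 0 0 84,
 cl 1 0 2 2 0 1332 100, cl 0 1 0 3 0 0 97, cl 0 2 0 2 650 0 119, cl 1 1 0 3 0 0 90,
 cl 1 2 0 2 0 0 106, cl 0 0 0 4 0 48 84]

theorem ct37_link : linkOK ct37 cs37 = true := by decide +kernel

theorem cs37_tail : tailOK cs37 0 16 64 5341 = true := by decide +kernel

theorem cs37_grid : gridOK vtTree cs37 0 16 64 16 0 6561982624 5960 5341 = true := by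
  decide +kernel

end Pool.Agent.H79.OC
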