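import Pool.Agent.H79.OC.Pts
import Pool.Agent.H79.OC.VTab

set_option autoImplicit false
set_option maxRecDepth 100000

/-!
# Certificates, part 20
-/

namespace Pool.Agent.H79.OC

open Cl

/-! ### Box 38: `0 ≤ -128 x ≤ 16`, `80 ≤ 128 y ≤ 96` -/

/-- certificate -/
def ct38 : Cert where
  pts := pts14
  g := 5205
  al := [(0, -544), (1, -88), (2, -88), (3, 2539), (4, 1328), (5, 1785), (6, 1785), (7, 737), (8, 1700), (9, 271), (10, 271), (11, -306), (12, -192), (13, -192)]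
  be := [
    (1, 0, 742), (2, 0, 742), (2, 1, 359), (3, 0, 710), (3, 1, 601), (3, 2, 601), (4, 0, 1075),
    (4, 1, 930), (4, 2, 930), (4, 3, -2237), (5, 0, 150), (5, 1, 2202), (5, 2, -371), (5, 3, 501),
    (5, 4, 352), (6, 0, 150), (6, 1, -371), (6, 2, 2202), (6, 3, 501), (6, 4, 352), (6, 5, -3197),
    (7, 0, -125), (7, 1, -19), (7, 2, -19), (7, 3, 1463), (7, 4, -718), (7, 5, -142), (7, 6, -142),
    (8, 0, -74), (8, 1, -76), (8, 2, -76), (8, 3, -936), (8, 4, 1275), (8, 5, -442), (8, 6, -442),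
    (8, 7, -1321), (9, 0, -13), (9, 1, 69), (9, 3, -482), (9, 4, -215), (9, 5, -82), (9, 6, -119),
    (9, 7, 438), (9, 8, 499), (10, 0, -13), (10, 2, 69), (10, 3, -482), (10, 4, -215), (10, 5, -119),
    (10, 6, -82), (10, 7, 438), (10, 8, 499), (10, 9, 314), (11, 0, -1), (11, 1, 13), (11, 2, 13),
    (11, 3, -37), (11, 4, 72), (11, 5, -83), (11, 6, -83), (11, 7, 861), (11, 8, 611), (11, 9, 587),
    (11, 10, 587), (12, 0, 156), (12, 1, 328), (12, 3, -726), (12, 4, -221), (12, 5, -223), (12, 6, 70),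
    (12, 7, 412), (12, 8, 334), (12, 9, -344), (12, 10, -10), (12, 11, 2), (13, 0, 156), (13, 2, 328),
    (13, 3, -726), (13, 4, -221), (13, 5, 70), (13, 6, -223), (13, 7, 412), (13, 8, 334), (13, 9, -10),
    (13, 10, -344), (13, 11, 2), (13, 12, -14)]
  ta := [
    ((3, 2, 1), (0, 1, 2), -487), ((4, 5, 6), (0, 1, 2), 171), ((7, 6, 5), (0, 1, 2), 624), ((8, 9, 10), (0, 1, 2), -36),
    ((11, 10, 9), (0, 1, 2), -365), ((5, 4, 12), (0, 1, 2), 168), ((6, 13, 4), (0, 1, 2), 168), ((3, 2, 0), (0, 1, 3), -579),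
    ((4, 5, 7), (0, 1, 3), 1126), ((7, 6, 4), (0, 1, 3), 1126), ((8, 9, 11), (0, 1, 3), -547), ((11, 10, 8), (0, 1, 3), -547),
    ((6, 5, 3), (1, 2, 4), 855), ((5, 6, 8), (1, 2, 4), 550), ((10, 9, 7), (1, 2, 4), -445), ((4, 12, 1), (1, 2, 4), -147),
    ((13, 4, 2), (1, 2, 4), -147), ((7, 4, 3), (0, 3, 4), 378), ((4, 7, 8), (0, 3, 4), -176), ((11, 8, 7), (0, 3, 4), -294),
    ((6, 4, 3), (1, 3, 4), 121), ((5, 7, 8), (1, 3, 4), -68), ((10, 8, 7), (1, 3, 4), -222), ((5, 4, 3), (2, 3, 4), 121),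
    ((6, 7, 8), (2, 3, 4), -68), ((9, 8, 7), (2, 3, 4), -222), ((5, 4, 0), (0, 1, 5), -537), ((2, 3, 7), (0, 1, 5), -688),
    ((7, 6, 2), (0, 1, 5), 220), ((4, 5, 9), (0, 1, 5), 122), ((9, 8, 4), (0, 1, 5), -282), ((6, 7, 11), (0, 1, 5), -322),
    ((11, 10, 6), (0, 1, 5), -195), ((13, 6, 10), (0, 1, 5), 2192), ((7, 5, 2), (0, 2, 5), -46), ((4, 6, 9), (0, 2, 5), 76),
    ((11, 9, 6), (0, 2, 5), -60), ((5, 12, 0), (0, 2, 5), -216), ((10, 8, 13), (0, 2, 5), 239), ((6, 5, 2), (1, 2, 5), 115),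
    ((5, 6, 9), (1, 2, 5), 109), ((10, 9, 6), (1, 2, 5), -225), ((4, 12, 0), (1, 2, 5), 116), ((4, 13, 8), (1, 2, 5), 247),
    ((7, 4, 2), (0, 3, 5), 119), ((4, 7, 9), (0, 3, 5), 305), ((11, 8, 6), (0, 3, 5), -133), ((5, 4, 2), (2, 3, 5), -316),
    ((6, 7, 9), (2, 3, 5), -79), ((9, 8, 6), (2, 3, 5), -335), ((0, 1, 12), (2, 3, 5), -463), ((13, 6, 8), (2, 3, 5), 1523),
    ((7, 6, 1), (0, 1, 6), -46), ((4, 5, 10), (0, 1, 6), 76), ((11, 10, 5), (0, 1, 6), -60), ((9, 8, 12), (0, 1, 6), 239),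
    ((6, 13, 0), (0, 1, 6), -216), ((6, 4, 0), (0, 2, 6), -537), ((1, 3, 7), (0, 2, 6), -688), ((7, 5, 1), (0, 2, 6), 220),
    ((4, 6, 10), (0, 2, 6), 122), ((10, 8, 4), (0, 2, 6), -282), ((5, 7, 11), (0, 2, 6), -322), ((11, 9, 5), (0, 2, 6), -195),
    ((12, 5, 9), (0, 2, 6), 2192), ((6, 5, 1), (1, 2, 6), 115), ((5, 6, 10), (1, 2, 6), 109), ((10, 9, 5), (1, 2, 6), -225),
    ((12, 4, 8), (1, 2, 6), 247), ((13, 4, 0), (1, 2, 6), 116), ((7, 4, 1), (0, 3, 6), 119), ((4, 7, 10), (0, 3, 6), 305),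
    ((11, 8, 5), (0, 3, 6), -133), ((6, 4, 1), (1, 3, 6), -316), ((5, 7, 10), (1, 3, 6), -79), ((10, 8, 5), (1, 3, 6), -335),
    ((12, 5, 8), (1, 3, 6), 1523), ((0, 2, 13), (1, 3, 6), -463), ((1, 2, 7), (6, 5, 0), 88), ((10, 9, 4), (6, 5, 0), -76),
    ((5, 6, 11), (6, 5, 0), 231), ((12, 4, 9), (6, 5, 0), -124), ((4, 13, 10), (6, 5, 0), -124), ((7, 6, 0), (0, 1, 7), 13),
    ((4, 5, 11), (0, 1, 7), -75), ((11, 10, 4), (0, 1, 7), 11), ((7, 5, 0), (0, 2, 7), 13), ((4, 6, 11), (0, 2, 7), -75),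
    ((11, 9, 4), (0, 2, 7), 11), ((7, 4, 0), (0, 3, 7), 57), ((4, 7, 11), (0, 3, 7), 68), ((11, 8, 4), (0, 3, 7), -213),
    ((9, 8, 1), (0, 1, 8), -141), ((2, 3, 10), (0, 1, 8), 112), ((11, 10, 3), (0, 1, 8), 21), ((1, 3, 9), (0, 2, 8), 112),
    ((10, 8, 2), (0, 2, 8), -141), ((11, 9, 3), (0, 2, 8), 21), ((10, 9, 3), (1, 2, 8), -11), ((11, 8, 3), (0, 3, 8), -38),
    ((10, 8, 3), (1, 3, 8), 142), ((9, 8, 3), (2, 3, 8), 142), ((1, 5, 9), (0, 4, 8), 589), ((2, 6, 10), (0, 4, 8), 589),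
    ((3, 7, 11), (0, 4, 8), -434), ((8, 5, 1), (1, 4, 8), -112), ((3, 6, 10), (1, 4, 8), 513), ((10, 7, 3), (1, 4, 8), -18),
    ((8, 6, 2), (2, 4, 8), -112), ((3, 5, 9), (2, 4, 8), 513), ((9, 7, 3), (2, 4, 8), -18), ((8, 7, 3), (3, 4, 8), -173),
    ((1, 4, 9), (8, 5, 0), -84), ((10, 7, 2), (8, 5, 0), -106), ((3, 6, 11), (8, 5, 0), -15), ((2, 13, 10), (8, 5, 0), 165),
    ((9, 6, 3), (2, 5, 8), 32), ((8, 13, 2), (2, 5, 8), -259), ((9, 7, 1), (8, 6, 0), -106), ((2, 4, 10), (8, 6, 0), -84),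
    ((3, 5, 11), (8, 6, 0), -15), ((1, 12, 9), (8, 6, 0), 165), ((3, 5, 10), (8, 6, 1), 32), ((1, 12, 8), (8, 6, 1), -259),
    ((3, 4, 11), (8, 7, 0), 21), ((3, 4, 10), (8, 7, 1), -1), ((3, 4, 9), (8, 7, 2), -1), ((9, 8, 0), (0, 1, 9), 3),
    ((2, 3, 11), (0, 1, 9), 7), ((11, 10, 2), (0, 1, 9), -1), ((11, 9, 2), (0, 2, 9), -1), ((10, 9, 2), (1, 2, 9), -73),
    ((11, 8, 2), (0, 3, 9), -24), ((9, 8, 2), (2, 3, 9), -3), ((9, 5, 0), (0, 4, 9), 47), ((2, 6, 11), (0, 4, 9), -57),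
    ((11, 7, 2), (0, 4, 9), 37), ((9, 7, 2), (2, 4, 9), 4), ((9, 6, 2), (2, 5, 9), -84), ((2, 5, 11), (9, 6, 0), 5),
    ((0, 12, 9), (9, 6, 0), 7), ((2, 5, 10), (9, 6, 1), -33), ((0, 12, 8), (9, 6, 1), 33), ((8, 13, 0), (9, 6, 1), 33),
    ((2, 4, 11), (9, 7, 0), -19), ((11, 10, 1), (0, 1, 10), -1), ((10, 8, 0), (0, 2, 10), 3), ((1, 3, 11), (0, 2, 10), 7),
    ((11, 9, 1), (0, 2, 10), -1), ((10, 9, 1), (1, 2, 10), -73), ((11, 8, 1), (0, 3, 10), -24), ((10, 8, 1), (1, 3, 10), -3),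
    ((10, 6, 0), (0, 4, 10), 47), ((1, 5, 11), (0, 4, 10), -57), ((11, 7, 1), (0, 4, 10), 37), ((10, 7, 1), (1, 4, 10), 4),
    ((11, 6, 1), (0, 5, 10), 5), ((10, 13, 0), (0, 5, 10), 7), ((10, 6, 1), (1, 5, 10), 84), ((1, 4, 11), (10, 7, 0), -19),
    ((1, 2, 11), (10, 9, 0), 25), ((11, 8, 0), (0, 3, 11), -3), ((11, 7, 0), (0, 4, 11), 4), ((5, 12, 2), (0, 2, 12), -14),
    ((4, 12, 2), (1, 2, 12), 70), ((5, 12, 3), (1, 3, 12), -663), ((12, 6, 9), (6, 12, 0), -69), ((12, 6, 8), (6, 12, 1), -105),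
    ((6, 5, 12), (12, 4, 6), -17), ((12, 7, 9), (7, 12, 1), 103), ((10, 9, 12), (12, 4, 10), 4), ((10, 8, 12), (12, 5, 10), -14),
    ((11, 9, 12), (12, 5, 11), 2), ((6, 13, 1), (0, 1, 13), -14), ((13, 4, 1), (1, 2, 13), 70), ((6, 13, 3), (2, 3, 13), -663),
    ((5, 13, 10), (13, 5, 0), -69), ((5, 13, 8), (13, 5, 2), -105), ((6, 13, 5), (4, 5, 13), -17), ((13, 7, 10), (7, 13, 2), 103),
    ((10, 9, 13), (4, 13, 9), 4), ((9, 8, 13), (13, 6, 9), -14), ((11, 10, 13), (13, 6, 11), 2), ((12, 13, 8), (13, 12, 0), -14)]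
  tr := tr14
  big := 1048576

theorem ct38_valid : validC ct38 = true := by decide +kernel

theorem ct38_const : constOK ct38 4907 = true := by decide +kernel

/-- classes -/
def cs38 : List Cl := [
 cl 0 1 0 1 4832 0 150, cl 0 2 0 0 603 0 423, cl 1 0 0 0 8914 0 119, cl 1 1 0 1 0 1022 115,
 cl 1 2 0 0 0 53 137, cl 2 0 0 0 27 0 84, cl 2 1 0 1 0 0 85, cl 2 2 0 0 0 1 90,
 cl 1 0 0 2 0 0 94, cl 0 0 0 2 0 2966 106, cl 1 0 1 1 3510 0 110, cl 2 0 1 1 0 1116 82,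
 cl 2 0 0 2 0 0 78, cl 1 0 1 3 0 0 82, cl 1 0 2 0 0 3558 119, cl 2 0 2 0 0 936 84,
 cl 1 0 2 2 0 1452 94, cl 0 1 0 3 140 0 87, cl 0 2 0 2 824 0 106, cl 1 1 0 3 0 20 83,
 cl 1 2 0 2 4 0 99, cl 0 0 0 4 0 14 75]

theorem ct38_link : linkOK ct38 cs38 = true := by decide +kernel

theorem cs38_tail : tailOK cs38 0 16 80 4907 = true := by decide +kernel

theorem cs38_grid : gridOK vtTree cs38 0 16 80 16 0 3039876896 6468 4907 = true := by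
  decide +kernel

/-! ### Box 39: `0 ≤ -128 x ≤ 16`, `96 ≤ 128 y ≤ 112` -/

/-- certificate -/
def ct39 : Cert where
  pts := pts14
  g := 5191
  al := [(0, 805), (1, 711), (2, 711), (3, 1395), (4, 1022), (5, 1992), (6, 1992), (7, -331), (8, 1043), (9, 514), (10, 514), (11, -428), (12, 74), (13, 74)]
  be := [
    (1, 0, -94), (2, 0, -94), (2, 1, -58), (3, 0, -219), (3, 1, 624), (3, 2, 624), (4, 0, -279),
    (4, 1, 429), (4, 2, 429), (4, 3, -1794), (5, 0, -614), (5, 1, 1362), (5, 2, -460), (5, 3, 746),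
    (5, 4, 462), (6, 0, -614), (6, 1, -460), (6, 2, 1362), (6, 3, 746), (6, 4, 462), (6, 5, -2379),
    (7, 0, -126), (7, 1, 461), (7, 2, 461), (7, 3, 1961), (7, 4, 1040), (7, 5, -261), (7, 6, -261),
    (8, 0, -48), (8, 1, -308), (8, 2, -308), (8, 3, -269), (8, 4, 1951), (8, 5, 152), (8, 6, 152),
    (8, 7, -1195), (9, 0, -155), (9, 1, -253), (9, 2, -360), (9, 3, -218), (9, 4, -223), (9, 5, 315),
    (9, 6, -281), (9, 7, 568), (9, 8, 738), (10, 0, -155), (10, 1, -360), (10, 2, -253), (10, 3, -218),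
    (10, 4, -223), (10, 5, -281), (10, 6, 315), (10, 7, 568), (10, 8, 738), (10, 9, 69), (11, 0, 24),
    (11, 1, 48), (11, 2, 48), (11, 3, 244), (11, 4, 126), (11, 5, -71), (11, 6, -71), (11, 7, 746),
    (11, 8, 458), (11, 9, 632), (11, 10, 632), (12, 0, 9), (12, 1, -167), (12, 2, 49), (12, 3, -578),
    (12, 4, -296), (12, 5, -392), (12, 7, 542), (12, 8, -81), (12, 9, -209), (12, 10, -51), (12, 11, 99),
    (13, 0, 9), (13, 1, 49), (13, 2, -167), (13, 3, -578), (13, 4, -296), (13, 6, -392), (13, 7, 542),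
    (13, 8, -81), (13, 9, -51), (13, 10, -209), (13, 11, 99), (13, 12, -4)]
  ta := [
    ((3, 2, 1), (0, 1, 2), -5), ((4, 5, 6), (0, 1, 2), 47), ((7, 6, 5), (0, 1, 2), 259), ((8, 9, 10), (0, 1, 2), -103),
    ((11, 10, 9), (0, 1, 2), -215), ((5, 4, 12), (0, 1, 2), 73), ((6, 13, 4), (0, 1, 2), 73), ((3, 2, 0), (0, 1, 3), -147),
    ((4, 5, 7), (0, 1, 3), 569), ((7, 6, 4), (0, 1, 3), 569), ((8, 9, 11), (0, 1, 3), -422), ((11, 10, 8), (0, 1, 3), -422),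
    ((6, 5, 3), (1, 2, 4), -192), ((5, 6, 8), (1, 2, 4), -203), ((10, 9, 7), (1, 2, 4), -57), ((4, 12, 1), (1, 2, 4), 176),
    ((13, 4, 2), (1, 2, 4), 176), ((7, 4, 3), (0, 3, 4), -79), ((4, 7, 8), (0, 3, 4), -448), ((11, 8, 7), (0, 3, 4), 26),
    ((6, 4, 3), (1, 3, 4), 224), ((5, 7, 8), (1, 3, 4), 284), ((10, 8, 7), (1, 3, 4), -353), ((5, 4, 3), (2, 3, 4), 224),
    ((6, 7, 8), (2, 3, 4), 284), ((9, 8, 7), (2, 3, 4), -353), ((5, 4, 0), (0, 1, 5), -367), ((2, 3, 7), (0, 1, 5), -901),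
    ((7, 6, 2), (0, 1, 5), 371), ((4, 5, 9), (0, 1, 5), 284), ((9, 8, 4), (0, 1, 5), -494), ((6, 7, 11), (0, 1, 5), -296),
    ((11, 10, 6), (0, 1, 5), -346), ((13, 6, 10), (0, 1, 5), 1686), ((7, 5, 2), (0, 2, 5), -118), ((4, 6, 9), (0, 2, 5), -289),
    ((11, 9, 6), (0, 2, 5), -95), ((5, 12, 0), (0, 2, 5), 97), ((10, 8, 13), (0, 2, 5), 269), ((7, 4, 2), (0, 3, 5), -128),
    ((4, 7, 9), (0, 3, 5), -31), ((11, 8, 6), (0, 3, 5), -178), ((5, 4, 2), (2, 3, 5), -326), ((6, 7, 9), (2, 3, 5), -240),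
    ((9, 8, 6), (2, 3, 5), -561), ((0, 1, 12), (2, 3, 5), 91), ((13, 6, 8), (2, 3, 5), 1549), ((7, 6, 1), (0, 1, 6), -118),
    ((4, 5, 10), (0, 1, 6), -289), ((11, 10, 5), (0, 1, 6), -95), ((9, 8, 12), (0, 1, 6), 269), ((6, 13, 0), (0, 1, 6), 97),
    ((6, 4, 0), (0, 2, 6), -367), ((1, 3, 7), (0, 2, 6), -901), ((7, 5, 1), (0, 2, 6), 371), ((4, 6, 10), (0, 2, 6), 284),
    ((10, 8, 4), (0, 2, 6), -494), ((5, 7, 11), (0, 2, 6), -296), ((11, 9, 5), (0, 2, 6), -346), ((12, 5, 9), (0, 2, 6), 1686),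
    ((7, 4, 1), (0, 3, 6), -128), ((4, 7, 10), (0, 3, 6), -31), ((11, 8, 5), (0, 3, 6), -178), ((6, 4, 1), (1, 3, 6), -326),
    ((5, 7, 10), (1, 3, 6), -240), ((10, 8, 5), (1, 3, 6), -561), ((12, 5, 8), (1, 3, 6), 1549), ((0, 2, 13), (1, 3, 6), 91),
    ((1, 2, 7), (6, 5, 0), -178), ((10, 9, 4), (6, 5, 0), -211), ((5, 6, 11), (6, 5, 0), 239), ((12, 4, 9), (6, 5, 0), -158),
    ((4, 13, 10), (6, 5, 0), -158), ((5, 6, 10), (6, 5, 1), -174), ((10, 9, 5), (6, 5, 1), -71), ((13, 4, 0), (6, 5, 1), 387),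
    ((5, 6, 9), (6, 5, 2), -174), ((10, 9, 6), (6, 5, 2), -71), ((4, 12, 0), (6, 5, 2), 387), ((7, 6, 0), (0, 1, 7), 111),
    ((4, 5, 11), (0, 1, 7), -27), ((11, 10, 4), (0, 1, 7), 4), ((7, 5, 0), (0, 2, 7), 111), ((4, 6, 11), (0, 2, 7), -27),
    ((11, 9, 4), (0, 2, 7), 4), ((7, 4, 0), (0, 3, 7), -174), ((4, 7, 11), (0, 3, 7), 62), ((11, 8, 4), (0, 3, 7), -151),
    ((9, 8, 1), (0, 1, 8), -80), ((2, 3, 10), (0, 1, 8), 38), ((11, 10, 3), (0, 1, 8), -110), ((1, 3, 9), (0, 2, 8), 38),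
    ((10, 8, 2), (0, 2, 8), -80), ((11, 9, 3), (0, 2, 8), -110), ((10, 9, 3), (1, 2, 8), 46), ((11, 8, 3), (0, 3, 8), 50),
    ((10, 8, 3), (1, 3, 8), -21), ((9, 8, 3), (2, 3, 8), -21), ((1, 5, 9), (0, 4, 8), 473), ((2, 6, 10), (0, 4, 8), 473),
    ((3, 7, 11), (0, 4, 8), -361), ((8, 5, 1), (1, 4, 8), 158), ((3, 6, 10), (1, 4, 8), 374), ((10, 7, 3), (1, 4, 8), -121),
    ((8, 6, 2), (2, 4, 8), 158), ((3, 5, 9), (2, 4, 8), 374), ((9, 7, 3), (2, 4, 8), -121), ((8, 7, 3), (3, 4, 8), -15),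
    ((1, 4, 9), (8, 5, 0), 245), ((10, 7, 2), (8, 5, 0), -39), ((3, 6, 11), (8, 5, 0), -47), ((2, 13, 10), (8, 5, 0), 37),
    ((9, 6, 3), (2, 5, 8), -79), ((8, 13, 2), (2, 5, 8), 131), ((9, 7, 1), (8, 6, 0), -39), ((2, 4, 10), (8, 6, 0), 245),
    ((3, 5, 11), (8, 6, 0), -47), ((1, 12, 9), (8, 6, 0), 37), ((3, 5, 10), (8, 6, 1), -79), ((1, 12, 8), (8, 6, 1), 131),
    ((3, 4, 11), (8, 7, 0), -79), ((3, 4, 10), (8, 7, 1), 15), ((3, 4, 9), (8, 7, 2), 15), ((9, 8, 0), (0, 1, 9), -61),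
    ((2, 3, 11), (0, 1, 9), -78), ((11, 10, 2), (0, 1, 9), -26), ((11, 9, 2), (0, 2, 9), -56), ((10, 9, 2), (1, 2, 9), 66),
    ((11, 8, 2), (0, 3, 9), -45), ((9, 8, 2), (2, 3, 9), 44), ((9, 5, 0), (0, 4, 9), -245), ((2, 6, 11), (0, 4, 9), 83),
    ((11, 7, 2), (0, 4, 9), -89), ((9, 7, 2), (2, 4, 9), -142), ((9, 6, 2), (2, 5, 9), -30), ((2, 5, 11), (9, 6, 0), 39),
    ((0, 12, 9), (9, 6, 0), -140), ((2, 5, 10), (9, 6, 1), 151), ((0, 12, 8), (9, 6, 1), -151), ((8, 13, 0), (9, 6, 1), -151),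
    ((2, 4, 11), (9, 7, 0), -21), ((11, 10, 1), (0, 1, 10), -56), ((10, 8, 0), (0, 2, 10), -61), ((1, 3, 11), (0, 2, 10), -78),
    ((11, 9, 1), (0, 2, 10), -26), ((10, 9, 1), (1, 2, 10), 66), ((11, 8, 1), (0, 3, 10), -45), ((10, 8, 1), (1, 3, 10), 44),
    ((10, 6, 0), (0, 4, 10), -245), ((1, 5, 11), (0, 4, 10), 83), ((11, 7, 1), (0, 4, 10), -89), ((10, 7, 1), (1, 4, 10), -142),
    ((11, 6, 1), (0, 5, 10), 39), ((10, 13, 0), (0, 5, 10), -140), ((10, 6, 1), (1, 5, 10), 30), ((1, 4, 11), (10, 7, 0), -21),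
    ((1, 2, 11), (10, 9, 0), -21), ((11, 10, 0), (0, 1, 11), 30), ((11, 9, 0), (0, 2, 11), 30), ((11, 8, 0), (0, 3, 11), 49),
    ((11, 7, 0), (0, 4, 11), 2), ((5, 12, 2), (0, 2, 12), -26), ((4, 12, 2), (1, 2, 12), -147), ((5, 12, 3), (1, 3, 12), -535),
    ((12, 6, 9), (6, 12, 0), -26), ((12, 6, 8), (6, 12, 1), -177), ((6, 5, 12), (12, 4, 6), 148), ((12, 7, 9), (7, 12, 1), 421),
    ((10, 9, 12), (12, 4, 10), -142), ((10, 8, 12), (12, 5, 10), -33), ((11, 9, 12), (12, 5, 11), 85), ((6, 13, 1), (0, 1, 13), -26),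
    ((13, 4, 1), (1, 2, 13), -147), ((6, 13, 3), (2, 3, 13), -535), ((5, 13, 10), (13, 5, 0), -26), ((5, 13, 8), (13, 5, 2), -177),
    ((6, 13, 5), (4, 5, 13), 148), ((13, 7, 10), (7, 13, 2), 421), ((10, 9, 13), (4, 13, 9), -142), ((9, 8, 13), (13, 6, 9), -33),
    ((11, 10, 13), (13, 6, 11), 85), ((12, 13, 8), (13, 12, 0), -4)]
  tr := tr14
  big := 1048576

theorem ct39_valid : validC ct39 = true := by decide +kernel

theorem ct39_const : constOK ct39 3987 = true := by decide +kernel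

/-- classes -/
def cs39 : List Cl := [
 cl 0 1 0 1 3418 0 137, cl 0 2 0 0 1279 0 423, cl 1 0 0 0 7733 0 119, cl 1 1 0 1 0 1312 111,
 cl 1 2 0 0 0 0 137, cl 2 0 0 0 0 310 84, cl 2 1 0 1 0 214 84, cl 2 2 0 0 24 0 90,
 cl 1 0 0 2 0 1626 89, cl 0 0 0 2 0 2960 97, cl 1 0 1 1 3456 0 106, cl 2 0 1 1 0 1052 82,
 cl 2 0 0 2 0 720 75, cl 1 0 1 3 98 0 76, cl 1 0 2 0 0 2989 119, cl 2 0 2 0 0 269 84,
 cl 1 0 2 2 0 1156 89, cl 0 1 0 3 0 0 79, cl 0 2 0 2 1084 0 97, cl 1 1 0 3 0 102 77,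
 cl 1 2 0 2 198 0 92, cl 0 0 0 4 0 4 69]

theorem ct39_link : linkOK ct39 cs39 = true := by decide +kernel

theorem cs39_tail : tailOK cs39 0 16 96 3987 = true := by decide +kernel

theorem cs39_grid : gridOK vtTree cs39 0 16 96 16 0 727144704 6872 3987 = true := by
  decide +kernel

end Pool.Agent.H79.OC
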