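import Pool.Agent.H79.OC.Pts
import Pool.Agent.H79.OC.VTab

set_option autoImplicit false
set_option maxRecDepth 100000

/-!
# Certificates, part 3
-/

namespace Pool.Agent.H79.OC

open Cl

/-! ### Box 4: `80 ≤ -128 x ≤ 96`, `48 ≤ 128 y ≤ 64` -/

/-- certificate -/
def ct4 : Cert where
  pts := pts14
  g := 2572
  al := [(0, -550), (1, 542), (2, 542), (3, 1425), (4, 875), (5, -488), (6, -488), (7, -896), (8, -861), (9, 201), (10, 201), (11, -761), (12, 882), (13, 882)]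
  be := [
    (1, 0, 454), (2, 0, 454), (2, 1, -306), (3, 0, 340), (3, 1, -293), (3, 2, -293), (4, 0, 416),
    (4, 1, 52), (4, 2, 52), (4, 3, -1445), (5, 0, 299), (5, 1, 1833), (5, 2, -277), (5, 3, 1088),
    (5, 4, 387), (6, 0, 299), (6, 1, -277), (6, 2, 1833), (6, 3, 1088), (6, 4, 387), (6, 5, -987),
    (7, 0, 188), (7, 1, 93), (7, 2, 93), (7, 3, 1104), (7, 4, 239), (7, 5, 1060), (7, 6, 1060),
    (8, 0, 458), (8, 1, -118), (8, 2, -118), (8, 3, -726), (8, 4, 1881), (8, 5, 1404), (8, 6, 1404),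
    (8, 7, -67), (9, 0, 74), (9, 1, -121), (9, 2, -16), (9, 3, -423), (9, 4, -612), (9, 5, -100),
    (9, 6, 114), (9, 7, 783), (9, 8, 734), (10, 0, 74), (10, 1, -16), (10, 2, -121), (10, 3, -423),
    (10, 4, -612), (10, 5, 114), (10, 6, -100), (10, 7, 783), (10, 8, 734), (10, 9, -287), (11, 1, 21),
    (11, 2, 21), (11, 3, 158), (11, 4, 256), (11, 5, 162), (11, 6, 162), (11, 7, 1101), (11, 8, 139),
    (11, 9, 636), (11, 10, 636), (12, 0, -316), (12, 1, -572), (12, 2, -86), (12, 3, -533), (12, 4, -529),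
    (12, 5, -146), (12, 6, -430), (12, 8, 479), (12, 9, -325), (12, 10, -22), (12, 11, 47), (13, 0, -316),
    (13, 1, -86), (13, 2, -572), (13, 3, -533), (13, 4, -529), (13, 5, -430), (13, 6, -146), (13, 8, 479),
    (13, 9, -22), (13, 10, -325), (13, 11, 47), (13, 12, -136)]
  ta := [
    ((3, 2, 1), (0, 1, 2), 468), ((4, 5, 6), (0, 1, 2), -95), ((7, 6, 5), (0, 1, 2), 56), ((8, 9, 10), (0, 1, 2), 247),
    ((11, 10, 9), (0, 1, 2), -82), ((5, 4, 12), (0, 1, 2), -176), ((6, 13, 4), (0, 1, 2), -176), ((3, 2, 0), (0, 1, 3), -326),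
    ((4, 5, 7), (0, 1, 3), 704), ((7, 6, 4), (0, 1, 3), 704), ((8, 9, 11), (0, 1, 3), -378), ((11, 10, 8), (0, 1, 3), -378),
    ((6, 5, 3), (1, 2, 4), 371), ((5, 6, 8), (1, 2, 4), -664), ((10, 9, 7), (1, 2, 4), -165), ((4, 12, 1), (1, 2, 4), 308),
    ((13, 4, 2), (1, 2, 4), 308), ((7, 4, 3), (0, 3, 4), 325), ((4, 7, 8), (0, 3, 4), 100), ((11, 8, 7), (0, 3, 4), -370),
    ((6, 4, 3), (1, 3, 4), 210), ((5, 7, 8), (1, 3, 4), -170), ((10, 8, 7), (1, 3, 4), -306), ((5, 4, 3), (2, 3, 4), 210),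
    ((6, 7, 8), (2, 3, 4), -170), ((9, 8, 7), (2, 3, 4), -306), ((5, 4, 0), (0, 1, 5), -117), ((2, 3, 7), (0, 1, 5), -412),
    ((7, 6, 2), (0, 1, 5), -230), ((4, 5, 9), (0, 1, 5), 468), ((9, 8, 4), (0, 1, 5), -238), ((6, 7, 11), (0, 1, 5), -282),
    ((11, 10, 6), (0, 1, 5), -305), ((13, 6, 10), (0, 1, 5), 1586), ((7, 5, 2), (0, 2, 5), -174), ((4, 6, 9), (0, 2, 5), 216),
    ((11, 9, 6), (0, 2, 5), -39), ((5, 12, 0), (0, 2, 5), -202), ((10, 8, 13), (0, 2, 5), -25), ((6, 5, 2), (1, 2, 5), 129),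
    ((5, 6, 9), (1, 2, 5), 77), ((10, 9, 6), (1, 2, 5), 34), ((4, 12, 0), (1, 2, 5), 628), ((4, 13, 8), (1, 2, 5), -678),
    ((7, 4, 2), (0, 3, 5), 39), ((4, 7, 9), (0, 3, 5), -23), ((11, 8, 6), (0, 3, 5), 85), ((5, 4, 2), (2, 3, 5), 194),
    ((6, 7, 9), (2, 3, 5), -355), ((9, 8, 6), (2, 3, 5), -546), ((0, 1, 12), (2, 3, 5), 73), ((13, 6, 8), (2, 3, 5), 661),
    ((7, 6, 1), (0, 1, 6), -174), ((4, 5, 10), (0, 1, 6), 216), ((11, 10, 5), (0, 1, 6), -39), ((9, 8, 12), (0, 1, 6), -25),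
    ((6, 13, 0), (0, 1, 6), -202), ((6, 4, 0), (0, 2, 6), -117), ((1, 3, 7), (0, 2, 6), -412), ((7, 5, 1), (0, 2, 6), -230),
    ((4, 6, 10), (0, 2, 6), 468), ((10, 8, 4), (0, 2, 6), -238), ((5, 7, 11), (0, 2, 6), -282), ((11, 9, 5), (0, 2, 6), -305),
    ((12, 5, 9), (0, 2, 6), 1586), ((6, 5, 1), (1, 2, 6), 129), ((5, 6, 10), (1, 2, 6), 77), ((10, 9, 5), (1, 2, 6), 34),
    ((12, 4, 8), (1, 2, 6), -678), ((13, 4, 0), (1, 2, 6), 628), ((7, 4, 1), (0, 3, 6), 39), ((4, 7, 10), (0, 3, 6), -23),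
    ((11, 8, 5), (0, 3, 6), 85), ((6, 4, 1), (1, 3, 6), 194), ((5, 7, 10), (1, 3, 6), -355), ((10, 8, 5), (1, 3, 6), -546),
    ((12, 5, 8), (1, 3, 6), 661), ((0, 2, 13), (1, 3, 6), 73), ((1, 2, 7), (6, 5, 0), -32), ((10, 9, 4), (6, 5, 0), 108),
    ((5, 6, 11), (6, 5, 0), -196), ((12, 4, 9), (6, 5, 0), 281), ((4, 13, 10), (6, 5, 0), 281), ((7, 6, 0), (0, 1, 7), 100),
    ((4, 5, 11), (0, 1, 7), 72), ((11, 10, 4), (0, 1, 7), -156), ((7, 5, 0), (0, 2, 7), 100), ((4, 6, 11), (0, 2, 7), 72),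
    ((11, 9, 4), (0, 2, 7), -156), ((7, 4, 0), (0, 3, 7), -153), ((4, 7, 11), (0, 3, 7), -282), ((11, 8, 4), (0, 3, 7), 243),
    ((9, 8, 1), (0, 1, 8), 36), ((2, 3, 10), (0, 1, 8), 199), ((11, 10, 3), (0, 1, 8), -61), ((1, 3, 9), (0, 2, 8), 199),
    ((10, 8, 2), (0, 2, 8), 36), ((11, 9, 3), (0, 2, 8), -61), ((10, 9, 3), (1, 2, 8), 13), ((11, 8, 3), (0, 3, 8), -26),
    ((10, 8, 3), (1, 3, 8), -18), ((9, 8, 3), (2, 3, 8), -18), ((1, 5, 9), (0, 4, 8), 355), ((2, 6, 10), (0, 4, 8), 355),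
    ((3, 7, 11), (0, 4, 8), -221), ((8, 5, 1), (1, 4, 8), -115), ((3, 6, 10), (1, 4, 8), 19), ((10, 7, 3), (1, 4, 8), 7),
    ((8, 6, 2), (2, 4, 8), -115), ((3, 5, 9), (2, 4, 8), 19), ((9, 7, 3), (2, 4, 8), 7), ((8, 7, 3), (3, 4, 8), -76),
    ((1, 4, 9), (8, 5, 0), -37), ((10, 7, 2), (8, 5, 0), -77), ((3, 6, 11), (8, 5, 0), -22), ((2, 13, 10), (8, 5, 0), 257),
    ((9, 6, 3), (2, 5, 8), -41), ((8, 13, 2), (2, 5, 8), 62), ((9, 7, 1), (8, 6, 0), -77), ((2, 4, 10), (8, 6, 0), -37),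
    ((3, 5, 11), (8, 6, 0), -22), ((1, 12, 9), (8, 6, 0), 257), ((3, 5, 10), (8, 6, 1), -41), ((1, 12, 8), (8, 6, 1), 62),
    ((3, 4, 11), (8, 7, 0), 4), ((3, 4, 10), (8, 7, 1), 109), ((3, 4, 9), (8, 7, 2), 109), ((9, 8, 0), (0, 1, 9), 95),
    ((2, 3, 11), (0, 1, 9), 43), ((11, 10, 2), (0, 1, 9), -77), ((11, 9, 2), (0, 2, 9), 28), ((10, 9, 2), (1, 2, 9), 25),
    ((11, 8, 2), (0, 3, 9), 37), ((9, 8, 2), (2, 3, 9), -100), ((9, 5, 0), (0, 4, 9), 178), ((2, 6, 11), (0, 4, 9), 72),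
    ((11, 7, 2), (0, 4, 9), -73), ((9, 7, 2), (2, 4, 9), -78), ((9, 6, 2), (2, 5, 9), -18), ((2, 5, 11), (9, 6, 0), 7),
    ((0, 12, 9), (9, 6, 0), 30), ((2, 5, 10), (9, 6, 1), -21), ((0, 12, 8), (9, 6, 1), 21), ((8, 13, 0), (9, 6, 1), 21),
    ((2, 4, 11), (9, 7, 0), -7), ((11, 10, 1), (0, 1, 10), 28), ((10, 8, 0), (0, 2, 10), 95), ((1, 3, 11), (0, 2, 10), 43),
    ((11, 9, 1), (0, 2, 10), -77), ((10, 9, 1), (1, 2, 10), 25), ((11, 8, 1), (0, 3, 10), 37), ((10, 8, 1), (1, 3, 10), -100),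
    ((10, 6, 0), (0, 4, 10), 178), ((1, 5, 11), (0, 4, 10), 72), ((11, 7, 1), (0, 4, 10), -73), ((10, 7, 1), (1, 4, 10), -78),
    ((11, 6, 1), (0, 5, 10), 7), ((10, 13, 0), (0, 5, 10), 30), ((10, 6, 1), (1, 5, 10), 18), ((1, 4, 11), (10, 7, 0), -7),
    ((1, 2, 11), (10, 9, 0), 30), ((11, 10, 0), (0, 1, 11), 8), ((11, 9, 0), (0, 2, 11), 8), ((11, 8, 0), (0, 3, 11), -12),
    ((11, 7, 0), (0, 4, 11), 27), ((5, 12, 2), (0, 2, 12), -246), ((4, 12, 2), (1, 2, 12), 2), ((5, 12, 3), (1, 3, 12), -620),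
    ((12, 6, 9), (6, 12, 0), -19), ((12, 6, 8), (6, 12, 1), -476), ((6, 5, 12), (12, 4, 6), 182), ((10, 9, 12), (12, 4, 10), -72),
    ((10, 8, 12), (12, 5, 10), -119), ((11, 9, 12), (12, 5, 11), -47), ((6, 13, 1), (0, 1, 13), -246), ((13, 4, 1), (1, 2, 13), 2),
    ((6, 13, 3), (2, 3, 13), -620), ((5, 13, 10), (13, 5, 0), -19), ((5, 13, 8), (13, 5, 2), -476), ((6, 13, 5), (4, 5, 13), 182),
    ((10, 9, 13), (4, 13, 9), -72), ((9, 8, 13), (13, 6, 9), -119), ((11, 10, 13), (13, 6, 11), -47), ((12, 13, 8), (13, 12, 0), 136)]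
  tr := tr14
  big := 1048576

theorem ct4_valid : validC ct4 = true := by decide +kernel

theorem ct4_const : constOK ct4 4651 = true := by decide +kernel

/-- classes -/
def cs4 : List Cl := [
 cl 0 1 0 1 5664 0 139, cl 0 2 0 0 718 0 106, cl 1 0 0 0 7968 0 119, cl 1 1 0 1 0 766 177,
 cl 1 2 0 0 444 0 237, cl 2 0 0 0 374 0 84, cl 2 1 0 1 190 0 104, cl 2 2 0 0 0 0 168,
 cl 1 0 0 2 0 0 106, cl 0 0 0 2 0 2638 137, cl 1 0 1 1 5510 0 92, cl 2 0 1 1 0 1082 73,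
 cl 2 0 0 2 0 32 82, cl 1 0 1 3 0 172 85, cl 1 0 2 0 0 1512 79, cl 2 0 2 0 0 726 66,
 cl 1 0 2 2 0 1066 77, cl 0 1 0 3 0 860 105, cl 0 2 0 2 0 0 99, cl 1 1 0 3 0 44 111,
 cl 1 2 0 2 94 0 134, cl 0 0 0 4 0 136 97]

theorem ct4_link : linkOK ct4 cs4 = true := by decide +kernel

theorem cs4_tail : tailOK cs4 80 16 48 4651 = true := by decide +kernel

theorem cs4_grid : gridOK vtTree cs4 80 16 48 16 0 7750722688 6433 4651 = true := by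
  decide +kernel

/-! ### Box 5: `80 ≤ -128 x ≤ 96`, `64 ≤ 128 y ≤ 80` -/

/-- certificate -/
def ct5 : Cert where
  pts := pts14
  g := 3332
  al := [(0, -328), (1, -181), (2, -181), (3, 1901), (4, 818), (5, 543), (6, 543), (7, -489), (8, -69), (9, 312), (10, 312), (11, -412), (12, 619), (13, 619)]
  be := [
    (1, 0, 696), (2, 0, 696), (2, 1, 267), (3, 0, 154), (3, 1, 117), (3, 2, 117), (4, 0, 322),
    (4, 1, 409), (4, 2, 409), (4, 3, -1427), (5, 0, 11), (5, 1, 1651), (5, 2, -121), (5, 3, 655),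
    (5, 4, 394), (6, 0, 11), (6, 1, -121), (6, 2, 1651), (6, 3, 655), (6, 4, 394), (6, 5, -1958),
    (7, 0, 8), (7, 1, 226), (7, 2, 226), (7, 3, 1063), (7, 4, 314), (7, 5, 618), (7, 6, 618),
    (8, 0, 274), (8, 1, 100), (8, 2, 100), (8, 3, -1122), (8, 4, 1733), (8, 5, 948), (8, 6, 948),
    (8, 7, -645), (9, 0, -98), (9, 1, -96), (9, 2, -6), (9, 3, -559), (9, 4, -586), (9, 5, 280),
    (9, 6, -44), (9, 7, 850), (9, 8, 947), (10, 0, -98), (10, 1, -6), (10, 2, -96), (10, 3, -559),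
    (10, 4, -586), (10, 5, -44), (10, 6, 280), (10, 7, 850), (10, 8, 947), (10, 9, -81), (11, 0, 32),
    (11, 1, -54), (11, 2, -54), (11, 3, -2), (11, 4, 55), (11, 5, 54), (11, 6, 54), (11, 7, 1198),
    (11, 8, 449), (11, 9, 707), (11, 10, 707), (12, 0, -134), (12, 1, -374), (12, 2, 158), (12, 3, -473),
    (12, 4, -364), (12, 5, -759), (12, 6, -192), (12, 7, 17), (12, 8, 299), (12, 9, -519), (12, 10, -15),
    (13, 0, -134), (13, 1, 158), (13, 2, -374), (13, 3, -473), (13, 4, -364), (13, 5, -192), (13, 6, -759),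
    (13, 7, 17), (13, 8, 299), (13, 9, -15), (13, 10, -519), (13, 12, -46)]
  ta := [
    ((3, 2, 1), (0, 1, 2), -195), ((4, 5, 6), (0, 1, 2), 381), ((7, 6, 5), (0, 1, 2), 6), ((8, 9, 10), (0, 1, 2), -133),
    ((11, 10, 9), (0, 1, 2), -312), ((5, 4, 12), (0, 1, 2), 198), ((6, 13, 4), (0, 1, 2), 198), ((3, 2, 0), (0, 1, 3), -107),
    ((4, 5, 7), (0, 1, 3), 573), ((7, 6, 4), (0, 1, 3), 573), ((8, 9, 11), (0, 1, 3), -466), ((11, 10, 8), (0, 1, 3), -466),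
    ((6, 5, 3), (1, 2, 4), 345), ((5, 6, 8), (1, 2, 4), -61), ((10, 9, 7), (1, 2, 4), -357), ((4, 12, 1), (1, 2, 4), 291),
    ((13, 4, 2), (1, 2, 4), 291), ((7, 4, 3), (0, 3, 4), 31), ((4, 7, 8), (0, 3, 4), -61), ((11, 8, 7), (0, 3, 4), -164),
    ((6, 4, 3), (1, 3, 4), -123), ((5, 7, 8), (1, 3, 4), -78), ((10, 8, 7), (1, 3, 4), -136), ((5, 4, 3), (2, 3, 4), -123),
    ((6, 7, 8), (2, 3, 4), -78), ((9, 8, 7), (2, 3, 4), -136), ((5, 4, 0), (0, 1, 5), -132), ((2, 3, 7), (0, 1, 5), -403),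
    ((7, 6, 2), (0, 1, 5), -200), ((4, 5, 9), (0, 1, 5), 357), ((9, 8, 4), (0, 1, 5), -417), ((6, 7, 11), (0, 1, 5), -370),
    ((11, 10, 6), (0, 1, 5), -301), ((13, 6, 10), (0, 1, 5), 1558), ((7, 5, 2), (0, 2, 5), 25), ((4, 6, 9), (0, 2, 5), 20),
    ((11, 9, 6), (0, 2, 5), -90), ((5, 12, 0), (0, 2, 5), 33), ((10, 8, 13), (0, 2, 5), 83), ((6, 5, 2), (1, 2, 5), 38),
    ((5, 6, 9), (1, 2, 5), 132), ((10, 9, 6), (1, 2, 5), -65), ((4, 12, 0), (1, 2, 5), 386), ((4, 13, 8), (1, 2, 5), -411),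
    ((7, 4, 2), (0, 3, 5), -49), ((4, 7, 9), (0, 3, 5), 76), ((11, 8, 6), (0, 3, 5), -184), ((5, 4, 2), (2, 3, 5), 131),
    ((6, 7, 9), (2, 3, 5), -128), ((9, 8, 6), (2, 3, 5), -781), ((0, 1, 12), (2, 3, 5), -55), ((13, 6, 8), (2, 3, 5), 1081),
    ((7, 6, 1), (0, 1, 6), 25), ((4, 5, 10), (0, 1, 6), 20), ((11, 10, 5), (0, 1, 6), -90), ((9, 8, 12), (0, 1, 6), 83),
    ((6, 13, 0), (0, 1, 6), 33), ((6, 4, 0), (0, 2, 6), -132), ((1, 3, 7), (0, 2, 6), -403), ((7, 5, 1), (0, 2, 6), -200),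
    ((4, 6, 10), (0, 2, 6), 357), ((10, 8, 4), (0, 2, 6), -417), ((5, 7, 11), (0, 2, 6), -370), ((11, 9, 5), (0, 2, 6), -301),
    ((12, 5, 9), (0, 2, 6), 1558), ((6, 5, 1), (1, 2, 6), 38), ((5, 6, 10), (1, 2, 6), 132), ((10, 9, 5), (1, 2, 6), -65),
    ((12, 4, 8), (1, 2, 6), -411), ((13, 4, 0), (1, 2, 6), 386), ((7, 4, 1), (0, 3, 6), -49), ((4, 7, 10), (0, 3, 6), 76),
    ((11, 8, 5), (0, 3, 6), -184), ((6, 4, 1), (1, 3, 6), 131), ((5, 7, 10), (1, 3, 6), -128), ((10, 8, 5), (1, 3, 6), -781),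
    ((12, 5, 8), (1, 3, 6), 1081), ((0, 2, 13), (1, 3, 6), -55), ((1, 2, 7), (6, 5, 0), -3), ((10, 9, 4), (6, 5, 0), 96),
    ((5, 6, 11), (6, 5, 0), 4), ((12, 4, 9), (6, 5, 0), 40), ((4, 13, 10), (6, 5, 0), 40), ((7, 6, 0), (0, 1, 7), 226),
    ((4, 5, 11), (0, 1, 7), -9), ((11, 10, 4), (0, 1, 7), 1), ((7, 5, 0), (0, 2, 7), 226), ((4, 6, 11), (0, 2, 7), -9),
    ((11, 9, 4), (0, 2, 7), 1), ((7, 4, 0), (0, 3, 7), -55), ((4, 7, 11), (0, 3, 7), -207), ((11, 8, 4), (0, 3, 7), -68),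
    ((9, 8, 1), (0, 1, 8), -80), ((2, 3, 10), (0, 1, 8), 346), ((11, 10, 3), (0, 1, 8), -22), ((1, 3, 9), (0, 2, 8), 346),
    ((10, 8, 2), (0, 2, 8), -80), ((11, 9, 3), (0, 2, 8), -22), ((10, 9, 3), (1, 2, 8), -25), ((11, 8, 3), (0, 3, 8), 23),
    ((10, 8, 3), (1, 3, 8), 55), ((9, 8, 3), (2, 3, 8), 55), ((1, 5, 9), (0, 4, 8), 250), ((2, 6, 10), (0, 4, 8), 250),
    ((3, 7, 11), (0, 4, 8), -210), ((8, 5, 1), (1, 4, 8), -301), ((3, 6, 10), (1, 4, 8), 183), ((10, 7, 3), (1, 4, 8), 55),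
    ((8, 6, 2), (2, 4, 8), -301), ((3, 5, 9), (2, 4, 8), 183), ((9, 7, 3), (2, 4, 8), 55), ((8, 7, 3), (3, 4, 8), 2),
    ((1, 4, 9), (8, 5, 0), 106), ((10, 7, 2), (8, 5, 0), -331), ((3, 6, 11), (8, 5, 0), -10), ((2, 13, 10), (8, 5, 0), 358),
    ((9, 6, 3), (2, 5, 8), 114), ((8, 13, 2), (2, 5, 8), -78), ((9, 7, 1), (8, 6, 0), -331), ((2, 4, 10), (8, 6, 0), 106),
    ((3, 5, 11), (8, 6, 0), -10), ((1, 12, 9), (8, 6, 0), 358), ((3, 5, 10), (8, 6, 1), 114), ((1, 12, 8), (8, 6, 1), -78),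
    ((3, 4, 11), (8, 7, 0), 9), ((3, 4, 10), (8, 7, 1), 26), ((3, 4, 9), (8, 7, 2), 26), ((9, 8, 0), (0, 1, 9), 40),
    ((2, 3, 11), (0, 1, 9), 24), ((11, 10, 2), (0, 1, 9), -56), ((11, 9, 2), (0, 2, 9), 16), ((10, 9, 2), (1, 2, 9), 58),
    ((11, 8, 2), (0, 3, 9), 35), ((9, 8, 2), (2, 3, 9), -85), ((9, 5, 0), (0, 4, 9), 1), ((2, 6, 11), (0, 4, 9), 51),
    ((11, 7, 2), (0, 4, 9), -114), ((9, 7, 2), (2, 4, 9), -75), ((9, 6, 2), (2, 5, 9), 88), ((2, 5, 11), (9, 6, 0), -9),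
    ((0, 12, 9), (9, 6, 0), 81), ((2, 5, 10), (9, 6, 1), -62), ((0, 12, 8), (9, 6, 1), 62), ((8, 13, 0), (9, 6, 1), 62),
    ((2, 4, 11), (9, 7, 0), -46), ((11, 10, 1), (0, 1, 10), 16), ((10, 8, 0), (0, 2, 10), 40), ((1, 3, 11), (0, 2, 10), 24),
    ((11, 9, 1), (0, 2, 10), -56), ((10, 9, 1), (1, 2, 10), 58), ((11, 8, 1), (0, 3, 10), 35), ((10, 8, 1), (1, 3, 10), -85),
    ((10, 6, 0), (0, 4, 10), 1), ((1, 5, 11), (0, 4, 10), 51), ((11, 7, 1), (0, 4, 10), -114), ((10, 7, 1), (1, 4, 10), -75),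
    ((11, 6, 1), (0, 5, 10), -9), ((10, 13, 0), (0, 5, 10), 81), ((10, 6, 1), (1, 5, 10), -88), ((1, 4, 11), (10, 7, 0), -46),
    ((1, 2, 11), (10, 9, 0), 77), ((11, 10, 0), (0, 1, 11), 50), ((11, 9, 0), (0, 2, 11), 50), ((11, 8, 0), (0, 3, 11), 22),
    ((11, 7, 0), (0, 4, 11), 77), ((5, 12, 2), (0, 2, 12), 95), ((4, 12, 2), (1, 2, 12), -35), ((5, 12, 3), (1, 3, 12), -473),
    ((12, 6, 9), (6, 12, 0), 16), ((12, 6, 8), (6, 12, 1), -258), ((6, 5, 12), (12, 4, 6), 157), ((12, 7, 9), (7, 12, 1), 65),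
    ((10, 9, 12), (12, 4, 10), 21), ((10, 8, 12), (12, 5, 10), -106), ((11, 9, 12), (12, 5, 11), -104), ((6, 13, 1), (0, 1, 13), 95),
    ((13, 4, 1), (1, 2, 13), -35), ((6, 13, 3), (2, 3, 13), -473), ((5, 13, 10), (13, 5, 0), 16), ((5, 13, 8), (13, 5, 2), -258),
    ((6, 13, 5), (4, 5, 13), 157), ((13, 7, 10), (7, 13, 2), 65), ((10, 9, 13), (4, 13, 9), 21), ((9, 8, 13), (13, 6, 9), -106),
    ((11, 10, 13), (13, 6, 11), -104), ((12, 13, 8), (13, 12, 0), 46)]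
  tr := tr14
  big := 1048576

theorem ct5_valid : validC ct5 = true := by decide +kernel

theorem ct5_const : constOK ct5 4759 = true := by decide +kernel

/-- classes -/
def cs5 : List Cl := [
 cl 0 1 0 1 5440 0 133, cl 0 2 0 0 917 0 106, cl 1 0 0 0 8178 0 119, cl 1 1 0 1 0 1628 159,
 cl 1 2 0 0 63 0 237, cl 2 0 0 0 80 0 84, cl 2 1 0 1 0 304 103, cl 2 2 0 0 32 0 168,
 cl 1 0 0 2 0 0 100, cl 0 0 0 2 0 2500 119, cl 1 0 1 1 4976 0 91, cl 2 0 1 1 0 918 73,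
 cl 2 0 0 2 0 12 80, cl 1 0 1 3 316 0 80, cl 1 0 2 0 0 2072 79, cl 2 0 2 0 0 1122 66,
 cl 1 0 2 2 0 946 76, cl 0 1 0 3 0 384 93, cl 0 2 0 2 34 0 94, cl 1 1 0 3 0 30 97,
 cl 1 2 0 2 0 0 117, cl 0 0 0 4 0 46 84]

theorem ct5_link : linkOK ct5 cs5 = true := by decide +kernel

theorem cs5_tail : tailOK cs5 80 16 64 4759 = true := by decide +kernel

theorem cs5_grid : gridOK vtTree cs5 80 16 64 16 0 5701487584 6205 4759 = true := by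
  decide +kernel

end Pool.Agent.H79.OC
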