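import Pool.Agent.H79.OC.Pts
import Pool.Agent.H79.OC.VTab

set_option autoImplicit false
set_option maxRecDepth 100000

/-!
# Certificates, part 21
-/

namespace Pool.Agent.H79.OC

open Cl

/-! ### Box 40: `0 ≤ -128 x ≤ 16`, `112 ≤ 128 y ≤ 128` -/

/-- certificate -/
def ct40 : Cert where
  pts := pts14
  g := 7531
  al := [(0, 298), (1, 1005), (2, 1005), (3, 2159), (4, 1015), (5, 4056), (6, 4056), (7, 275), (8, 2449), (9, 903), (10, 903), (11, -180), (12, 212), (13, 212)]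
  be := [
    (1, 0, 293), (2, 0, 293), (2, 1, 307), (3, 0, -100), (3, 1, 458), (3, 2, 458), (4, 0, 1077),
    (4, 1, 1325), (4, 2, 1325), (4, 3, -2037), (5, 0, -439), (5, 1, 820), (5, 2, -793), (5, 3, -102),
    (5, 4, 322), (6, 0, -439), (6, 1, -793), (6, 2, 820), (6, 3, -102), (6, 4, 322), (6, 5, -3831),
    (7, 0, 245), (7, 1, 169), (7, 2, 169), (7, 3, 1777), (7, 4, 568), (7, 5, -814), (7, 6, -814),
    (8, 0, 8), (8, 1, -619), (8, 2, -619), (8, 3, -521), (8, 4, 1532), (8, 5, -668), (8, 6, -668),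
    (8, 7, -1334), (9, 0, -52), (9, 1, -173), (9, 2, -536), (9, 3, -161), (9, 5, -177), (9, 6, -342),
    (9, 7, 677), (9, 8, 793), (10, 0, -52), (10, 1, -536), (10, 2, -173), (10, 3, -161), (10, 5, -342),
    (10, 6, -177), (10, 7, 677), (10, 8, 793), (10, 9, 418), (11, 1, -70), (11, 2, -70), (11, 3, 202),
    (11, 4, -95), (11, 5, -330), (11, 6, -330), (11, 7, 1157), (11, 8, 355), (11, 9, 511), (11, 10, 511),
    (12, 0, -39), (12, 1, -226), (12, 2, 115), (12, 3, -274), (12, 4, -342), (12, 5, -747), (12, 6, 95),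
    (12, 7, 660), (12, 8, -417), (12, 9, -477), (12, 10, -7), (12, 11, 100), (13, 0, -39), (13, 1, 115),
    (13, 2, -226), (13, 3, -274), (13, 4, -342), (13, 5, 95), (13, 6, -747), (13, 7, 660), (13, 8, -417),
    (13, 9, -7), (13, 10, -477), (13, 11, 100), (13, 12, -21)]
  ta := [
    ((3, 2, 1), (0, 1, 2), -500), ((4, 5, 6), (0, 1, 2), 252), ((7, 6, 5), (0, 1, 2), 1034), ((8, 9, 10), (0, 1, 2), -737),
    ((11, 10, 9), (0, 1, 2), -199), ((5, 4, 12), (0, 1, 2), 118), ((6, 13, 4), (0, 1, 2), 118), ((3, 2, 0), (0, 1, 3), -135),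
    ((4, 5, 7), (0, 1, 3), 539), ((7, 6, 4), (0, 1, 3), 539), ((8, 9, 11), (0, 1, 3), -404), ((11, 10, 8), (0, 1, 3), -404),
    ((6, 5, 3), (1, 2, 4), 444), ((5, 6, 8), (1, 2, 4), 206), ((10, 9, 7), (1, 2, 4), -219), ((7, 4, 3), (0, 3, 4), 293),
    ((4, 7, 8), (0, 3, 4), -340), ((11, 8, 7), (0, 3, 4), -83), ((6, 4, 3), (1, 3, 4), 396), ((5, 7, 8), (1, 3, 4), 82),
    ((10, 8, 7), (1, 3, 4), -297), ((5, 4, 3), (2, 3, 4), 396), ((6, 7, 8), (2, 3, 4), 82), ((9, 8, 7), (2, 3, 4), -297),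
    ((5, 4, 0), (0, 1, 5), -487), ((2, 3, 7), (0, 1, 5), -624), ((7, 6, 2), (0, 1, 5), 515), ((4, 5, 9), (0, 1, 5), 372),
    ((9, 8, 4), (0, 1, 5), -630), ((6, 7, 11), (0, 1, 5), -306), ((11, 10, 6), (0, 1, 5), -294), ((13, 6, 10), (0, 1, 5), 1730),
    ((7, 5, 2), (0, 2, 5), 14), ((4, 6, 9), (0, 2, 5), -479), ((11, 9, 6), (0, 2, 5), -14), ((5, 12, 0), (0, 2, 5), 43),
    ((10, 8, 13), (0, 2, 5), 443), ((6, 5, 2), (1, 2, 5), 245), ((5, 6, 9), (1, 2, 5), 102), ((10, 9, 6), (1, 2, 5), -313),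
    ((4, 12, 0), (1, 2, 5), 116), ((4, 13, 8), (1, 2, 5), 74), ((7, 4, 2), (0, 3, 5), -179), ((4, 7, 9), (0, 3, 5), 123),
    ((11, 8, 6), (0, 3, 5), -31), ((5, 4, 2), (2, 3, 5), -439), ((6, 7, 9), (2, 3, 5), 56), ((9, 8, 6), (2, 3, 5), -809),
    ((0, 1, 12), (2, 3, 5), 16), ((13, 6, 8), (2, 3, 5), 1500), ((7, 6, 1), (0, 1, 6), 14), ((4, 5, 10), (0, 1, 6), -479),
    ((11, 10, 5), (0, 1, 6), -14), ((9, 8, 12), (0, 1, 6), 443), ((6, 13, 0), (0, 1, 6), 43), ((6, 4, 0), (0, 2, 6), -487),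
    ((1, 3, 7), (0, 2, 6), -624), ((7, 5, 1), (0, 2, 6), 515), ((4, 6, 10), (0, 2, 6), 372), ((10, 8, 4), (0, 2, 6), -630),
    ((5, 7, 11), (0, 2, 6), -306), ((11, 9, 5), (0, 2, 6), -294), ((12, 5, 9), (0, 2, 6), 1730), ((6, 5, 1), (1, 2, 6), 245),
    ((5, 6, 10), (1, 2, 6), 102), ((10, 9, 5), (1, 2, 6), -313), ((12, 4, 8), (1, 2, 6), 74), ((13, 4, 0), (1, 2, 6), 116),
    ((7, 4, 1), (0, 3, 6), -179), ((4, 7, 10), (0, 3, 6), 123), ((11, 8, 5), (0, 3, 6), -31), ((6, 4, 1), (1, 3, 6), -439),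
    ((5, 7, 10), (1, 3, 6), 56), ((10, 8, 5), (1, 3, 6), -809), ((12, 5, 8), (1, 3, 6), 1500), ((0, 2, 13), (1, 3, 6), 16),
    ((1, 2, 7), (6, 5, 0), -249), ((10, 9, 4), (6, 5, 0), -24), ((5, 6, 11), (6, 5, 0), 174), ((12, 4, 9), (6, 5, 0), -64),
    ((4, 13, 10), (6, 5, 0), -64), ((7, 6, 0), (0, 1, 7), 50), ((4, 5, 11), (0, 1, 7), -41), ((11, 10, 4), (0, 1, 7), 140),
    ((7, 5, 0), (0, 2, 7), 50), ((4, 6, 11), (0, 2, 7), -41), ((11, 9, 4), (0, 2, 7), 140), ((7, 4, 0), (0, 3, 7), -414),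
    ((4, 7, 11), (0, 3, 7), 298), ((11, 8, 4), (0, 3, 7), 107), ((9, 8, 1), (0, 1, 8), -107), ((2, 3, 10), (0, 1, 8), 113),
    ((11, 10, 3), (0, 1, 8), -86), ((1, 3, 9), (0, 2, 8), 113), ((10, 8, 2), (0, 2, 8), -107), ((11, 9, 3), (0, 2, 8), -86),
    ((10, 9, 3), (1, 2, 8), 59), ((11, 8, 3), (0, 3, 8), -38), ((10, 8, 3), (1, 3, 8), -67), ((9, 8, 3), (2, 3, 8), -67),
    ((1, 5, 9), (0, 4, 8), 674), ((2, 6, 10), (0, 4, 8), 674), ((3, 7, 11), (0, 4, 8), -835), ((8, 5, 1), (1, 4, 8), 346),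
    ((3, 6, 10), (1, 4, 8), 397), ((10, 7, 3), (1, 4, 8), -278), ((8, 6, 2), (2, 4, 8), 346), ((3, 5, 9), (2, 4, 8), 397),
    ((9, 7, 3), (2, 4, 8), -278), ((8, 7, 3), (3, 4, 8), -389), ((1, 4, 9), (8, 5, 0), -170), ((10, 7, 2), (8, 5, 0), -223),
    ((3, 6, 11), (8, 5, 0), 115), ((2, 13, 10), (8, 5, 0), 150), ((9, 6, 3), (2, 5, 8), -270), ((8, 13, 2), (2, 5, 8), 214),
    ((9, 7, 1), (8, 6, 0), -223), ((2, 4, 10), (8, 6, 0), -170), ((3, 5, 11), (8, 6, 0), 115), ((1, 12, 9), (8, 6, 0), 150),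
    ((3, 5, 10), (8, 6, 1), -270), ((1, 12, 8), (8, 6, 1), 214), ((3, 4, 11), (8, 7, 0), 66), ((3, 4, 10), (8, 7, 1), -171),
    ((3, 4, 9), (8, 7, 2), -171), ((9, 8, 0), (0, 1, 9), -68), ((2, 3, 11), (0, 1, 9), -3), ((11, 10, 2), (0, 1, 9), 4),
    ((11, 9, 2), (0, 2, 9), -9), ((10, 9, 2), (1, 2, 9), 64), ((11, 8, 2), (0, 3, 9), -48), ((9, 8, 2), (2, 3, 9), 32),
    ((9, 5, 0), (0, 4, 9), 147), ((2, 6, 11), (0, 4, 9), 245), ((11, 7, 2), (0, 4, 9), -231), ((9, 7, 2), (2, 4, 9), -113),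
    ((9, 6, 2), (2, 5, 9), 47), ((2, 5, 11), (9, 6, 0), 38), ((0, 12, 9), (9, 6, 0), -101), ((2, 5, 10), (9, 6, 1), 68),
    ((0, 12, 8), (9, 6, 1), -68), ((8, 13, 0), (9, 6, 1), -68), ((2, 4, 11), (9, 7, 0), -91), ((11, 10, 1), (0, 1, 10), -9),
    ((10, 8, 0), (0, 2, 10), -68), ((1, 3, 11), (0, 2, 10), -3), ((11, 9, 1), (0, 2, 10), 4), ((10, 9, 1), (1, 2, 10), 64),
    ((11, 8, 1), (0, 3, 10), -48), ((10, 8, 1), (1, 3, 10), 32), ((10, 6, 0), (0, 4, 10), 147), ((1, 5, 11), (0, 4, 10), 245),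
    ((11, 7, 1), (0, 4, 10), -231), ((10, 7, 1), (1, 4, 10), -113), ((11, 6, 1), (0, 5, 10), 38), ((10, 13, 0), (0, 5, 10), -101),
    ((10, 6, 1), (1, 5, 10), -47), ((1, 4, 11), (10, 7, 0), -91), ((1, 2, 11), (10, 9, 0), 46), ((11, 10, 0), (0, 1, 11), -12),
    ((11, 9, 0), (0, 2, 11), -12), ((11, 8, 0), (0, 3, 11), -23), ((11, 7, 0), (0, 4, 11), 19), ((5, 12, 2), (0, 2, 12), 114),
    ((4, 12, 2), (1, 2, 12), -257), ((5, 12, 3), (1, 3, 12), -274), ((12, 6, 9), (6, 12, 0), -44), ((12, 6, 8), (6, 12, 1), -172),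
    ((6, 5, 12), (12, 4, 6), 119), ((12, 7, 9), (7, 12, 1), 243), ((10, 9, 12), (12, 4, 10), -216), ((10, 8, 12), (12, 5, 10), 63),
    ((11, 9, 12), (12, 5, 11), 120), ((6, 13, 1), (0, 1, 13), 114), ((13, 4, 1), (1, 2, 13), -257), ((6, 13, 3), (2, 3, 13), -274),
    ((5, 13, 10), (13, 5, 0), -44), ((5, 13, 8), (13, 5, 2), -172), ((6, 13, 5), (4, 5, 13), 119), ((13, 7, 10), (7, 13, 2), 243),
    ((10, 9, 13), (4, 13, 9), -216), ((9, 8, 13), (13, 6, 9), 63), ((11, 10, 13), (13, 6, 11), 120), ((12, 13, 8), (13, 12, 0), -21)]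
  tr := tr14
  big := 1048576

theorem ct40_valid : validC ct40 = true := by decide +kernel

theorem ct40_const : constOK ct40 3384 = true := by decide +kernel

/-- classes -/
def cs40 : List Cl := [
 cl 0 1 0 1 1632 0 127, cl 0 2 0 0 823 0 423, cl 1 0 0 0 6829 0 119, cl 1 1 0 1 0 2154 107,
 cl 1 2 0 0 150 0 137, cl 2 0 0 0 0 136 84, cl 2 1 0 1 0 244 83, cl 2 2 0 0 0 0 90,
 cl 1 0 0 2 0 3182 84, cl 0 0 0 2 0 3790 90, cl 1 0 1 1 2012 0 103, cl 2 0 1 1 0 1560 81,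
 cl 2 0 0 2 0 1072 73, cl 1 0 1 3 230 0 71, cl 1 0 2 0 0 3371 119, cl 2 0 2 0 0 521 84,
 cl 1 0 2 2 0 548 84, cl 0 1 0 3 190 0 74, cl 0 2 0 2 1320 0 90, cl 1 1 0 3 0 14 72,
 cl 1 2 0 2 200 0 86, cl 0 0 0 4 0 21 64]

theorem ct40_link : linkOK ct40 cs40 = true := by decide +kernel

theorem cs40_tail : tailOK cs40 0 16 112 3384 = true := by decide +kernel

theorem cs40_grid : gridOK vtTree cs40 0 16 112 16 6798316608 0 7379 3384 = true := by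
  decide +kernel

/-! ### Box 41: `0 ≤ -128 x ≤ 8`, `0 ≤ 128 y ≤ 8` -/

/-- certificate -/
def ct41 : Cert where
  pts := pts14
  g := 3196
  al := [(0, 228), (1, 578), (2, 578), (3, 1945), (4, 397), (5, 11), (6, 11), (7, -588), (8, -534), (9, -217), (10, -217), (11, -90), (12, 272), (13, 272)]
  be := [
    (1, 0, 223), (2, 0, 223), (2, 1, -1037), (3, 0, -849), (3, 1, -745), (3, 2, -745), (4, 0, 560),
    (4, 1, 806), (4, 2, 806), (4, 3, -1593), (5, 0, 82), (5, 1, 1659), (5, 2, -298), (5, 3, 703),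
    (5, 4, 1253), (6, 0, 82), (6, 1, -298), (6, 2, 1659), (6, 3, 703), (6, 4, 1253), (6, 5, -746),
    (7, 0, 19), (7, 1, 414), (7, 2, 414), (7, 3, 1480), (7, 4, 125), (7, 5, 281), (7, 6, 281),
    (8, 0, 261), (8, 1, -395), (8, 2, -395), (8, 3, 29), (8, 4, 2601), (8, 5, 919), (8, 6, 919),
    (8, 7, -1000), (9, 0, -11), (9, 1, 97), (9, 3, 1), (9, 4, -293), (9, 5, 98), (9, 6, -45),
    (9, 7, 996), (9, 8, 898), (10, 0, -11), (10, 2, 97), (10, 3, 1), (10, 4, -293), (10, 5, -45),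
    (10, 6, 98), (10, 7, 996), (10, 8, 898), (10, 9, -125), (11, 1, -13), (11, 2, -13), (11, 3, -40),
    (11, 4, -19), (11, 5, -304), (11, 6, -304), (11, 7, 1008), (11, 8, 617), (11, 9, 644), (11, 10, 644),
    (12, 0, -76), (12, 1, -276), (12, 3, -666), (12, 4, -384), (12, 5, -248), (12, 7, 430), (12, 8, 419),
    (12, 9, -427), (13, 0, -76), (13, 2, -276), (13, 3, -666), (13, 4, -384), (13, 6, -248), (13, 7, 430),
    (13, 8, 419), (13, 10, -427), (13, 12, -22)]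
  ta := [
    ((3, 2, 1), (0, 1, 2), 714), ((4, 5, 6), (0, 1, 2), -480), ((7, 6, 5), (0, 1, 2), 201), ((8, 9, 10), (0, 1, 2), -74),
    ((11, 10, 9), (0, 1, 2), -119), ((5, 4, 12), (0, 1, 2), -199), ((6, 13, 4), (0, 1, 2), -199), ((3, 2, 0), (0, 1, 3), 56),
    ((4, 5, 7), (0, 1, 3), 403), ((7, 6, 4), (0, 1, 3), 403), ((8, 9, 11), (0, 1, 3), -459), ((11, 10, 8), (0, 1, 3), -459),
    ((6, 5, 3), (1, 2, 4), -180), ((5, 6, 8), (1, 2, 4), -588), ((10, 9, 7), (1, 2, 4), -9), ((4, 12, 1), (1, 2, 4), 279),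
    ((13, 4, 2), (1, 2, 4), 279), ((7, 4, 3), (0, 3, 4), 306), ((4, 7, 8), (0, 3, 4), -397), ((11, 8, 7), (0, 3, 4), -89),
    ((6, 4, 3), (1, 3, 4), -75), ((5, 7, 8), (1, 3, 4), 45), ((10, 8, 7), (1, 3, 4), -112), ((5, 4, 3), (2, 3, 4), -75),
    ((6, 7, 8), (2, 3, 4), 45), ((9, 8, 7), (2, 3, 4), -112), ((5, 4, 0), (0, 1, 5), -528), ((2, 3, 7), (0, 1, 5), -310),
    ((7, 6, 2), (0, 1, 5), -140), ((4, 5, 9), (0, 1, 5), 300), ((9, 8, 4), (0, 1, 5), -520), ((6, 7, 11), (0, 1, 5), -267),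
    ((11, 10, 6), (0, 1, 5), -232), ((13, 6, 10), (0, 1, 5), 1913), ((7, 5, 2), (0, 2, 5), 37), ((4, 6, 9), (0, 2, 5), -19),
    ((11, 9, 6), (0, 2, 5), -168), ((5, 12, 0), (0, 2, 5), 163), ((10, 8, 13), (0, 2, 5), 19), ((6, 5, 2), (1, 2, 5), -314),
    ((5, 6, 9), (1, 2, 5), -125), ((10, 9, 6), (1, 2, 5), 48), ((4, 12, 0), (1, 2, 5), 236), ((4, 13, 8), (1, 2, 5), -183),
    ((7, 4, 2), (0, 3, 5), -357), ((4, 7, 9), (0, 3, 5), 36), ((11, 8, 6), (0, 3, 5), -216), ((5, 4, 2), (2, 3, 5), -457),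
    ((6, 7, 9), (2, 3, 5), -235), ((9, 8, 6), (2, 3, 5), -508), ((0, 1, 12), (2, 3, 5), 66), ((13, 6, 8), (2, 3, 5), 925),
    ((7, 6, 1), (0, 1, 6), 37), ((4, 5, 10), (0, 1, 6), -19), ((11, 10, 5), (0, 1, 6), -168), ((9, 8, 12), (0, 1, 6), 19),
    ((6, 13, 0), (0, 1, 6), 163), ((6, 4, 0), (0, 2, 6), -528), ((1, 3, 7), (0, 2, 6), -310), ((7, 5, 1), (0, 2, 6), -140),
    ((4, 6, 10), (0, 2, 6), 300), ((10, 8, 4), (0, 2, 6), -520), ((5, 7, 11), (0, 2, 6), -267), ((11, 9, 5), (0, 2, 6), -232),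
    ((12, 5, 9), (0, 2, 6), 1913), ((6, 5, 1), (1, 2, 6), -314), ((5, 6, 10), (1, 2, 6), -125), ((10, 9, 5), (1, 2, 6), 48),
    ((12, 4, 8), (1, 2, 6), -183), ((13, 4, 0), (1, 2, 6), 236), ((7, 4, 1), (0, 3, 6), -357), ((4, 7, 10), (0, 3, 6), 36),
    ((11, 8, 5), (0, 3, 6), -216), ((6, 4, 1), (1, 3, 6), -457), ((5, 7, 10), (1, 3, 6), -235), ((10, 8, 5), (1, 3, 6), -508),
    ((12, 5, 8), (1, 3, 6), 925), ((0, 2, 13), (1, 3, 6), 66), ((1, 2, 7), (6, 5, 0), -85), ((10, 9, 4), (6, 5, 0), 63),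
    ((5, 6, 11), (6, 5, 0), 325), ((12, 4, 9), (6, 5, 0), 12), ((4, 13, 10), (6, 5, 0), 12), ((7, 6, 0), (0, 1, 7), 351),
    ((4, 5, 11), (0, 1, 7), 71), ((11, 10, 4), (0, 1, 7), -71), ((7, 5, 0), (0, 2, 7), 351), ((4, 6, 11), (0, 2, 7), 71),
    ((11, 9, 4), (0, 2, 7), -71), ((7, 4, 0), (0, 3, 7), -143), ((11, 8, 4), (0, 3, 7), -508), ((9, 8, 1), (0, 1, 8), -55),
    ((2, 3, 10), (0, 1, 8), 88), ((11, 10, 3), (0, 1, 8), -54), ((1, 3, 9), (0, 2, 8), 88), ((10, 8, 2), (0, 2, 8), -55),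
    ((11, 9, 3), (0, 2, 8), -54), ((10, 9, 3), (1, 2, 8), -101), ((11, 8, 3), (0, 3, 8), 76), ((10, 8, 3), (1, 3, 8), -104),
    ((9, 8, 3), (2, 3, 8), -104), ((1, 5, 9), (0, 4, 8), 693), ((2, 6, 10), (0, 4, 8), 693), ((3, 7, 11), (0, 4, 8), -573),
    ((8, 5, 1), (1, 4, 8), 431), ((3, 6, 10), (1, 4, 8), 396), ((10, 7, 3), (1, 4, 8), -485), ((8, 6, 2), (2, 4, 8), 431),
    ((3, 5, 9), (2, 4, 8), 396), ((9, 7, 3), (2, 4, 8), -485), ((8, 7, 3), (3, 4, 8), 1), ((1, 4, 9), (8, 5, 0), 170),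
    ((10, 7, 2), (8, 5, 0), -177), ((3, 6, 11), (8, 5, 0), 76), ((2, 13, 10), (8, 5, 0), 168), ((9, 6, 3), (2, 5, 8), -19),
    ((8, 13, 2), (2, 5, 8), -50), ((9, 7, 1), (8, 6, 0), -177), ((2, 4, 10), (8, 6, 0), 170), ((3, 5, 11), (8, 6, 0), 76),
    ((1, 12, 9), (8, 6, 0), 168), ((3, 5, 10), (8, 6, 1), -19), ((1, 12, 8), (8, 6, 1), -50), ((3, 4, 11), (8, 7, 0), 19),
    ((3, 4, 10), (8, 7, 1), -11), ((3, 4, 9), (8, 7, 2), -11), ((9, 8, 0), (0, 1, 9), 25), ((11, 10, 2), (0, 1, 9), -79),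
    ((11, 9, 2), (0, 2, 9), -35), ((10, 9, 2), (1, 2, 9), 100), ((11, 8, 2), (0, 3, 9), -22), ((9, 8, 2), (2, 3, 9), -6),
    ((9, 5, 0), (0, 4, 9), -87), ((2, 6, 11), (0, 4, 9), 45), ((11, 7, 2), (0, 4, 9), -104), ((9, 7, 2), (2, 4, 9), -68),
    ((9, 6, 2), (2, 5, 9), 32), ((2, 5, 11), (9, 6, 0), 48), ((0, 12, 9), (9, 6, 0), -7), ((2, 5, 10), (9, 6, 1), 26),
    ((0, 12, 8), (9, 6, 1), -26), ((8, 13, 0), (9, 6, 1), -26), ((11, 10, 1), (0, 1, 10), -35), ((10, 8, 0), (0, 2, 10), 25),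
    ((11, 9, 1), (0, 2, 10), -79), ((10, 9, 1), (1, 2, 10), 100), ((11, 8, 1), (0, 3, 10), -22), ((10, 8, 1), (1, 3, 10), -6),
    ((10, 6, 0), (0, 4, 10), -87), ((1, 5, 11), (0, 4, 10), 45), ((11, 7, 1), (0, 4, 10), -104), ((10, 7, 1), (1, 4, 10), -68),
    ((11, 6, 1), (0, 5, 10), 48), ((10, 13, 0), (0, 5, 10), -7), ((10, 6, 1), (1, 5, 10), -32), ((1, 2, 11), (10, 9, 0), 70),
    ((5, 12, 2), (0, 2, 12), 198), ((4, 12, 2), (1, 2, 12), -213), ((5, 12, 3), (1, 3, 12), -589), ((12, 6, 9), (6, 12, 0), 61),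
    ((12, 6, 8), (6, 12, 1), -186), ((6, 5, 12), (12, 4, 6), 74), ((12, 7, 9), (7, 12, 1), 177), ((10, 9, 12), (12, 4, 10), -73),
    ((10, 8, 12), (12, 5, 10), -42), ((11, 9, 12), (12, 5, 11), 152), ((6, 13, 1), (0, 1, 13), 198), ((13, 4, 1), (1, 2, 13), -213),
    ((6, 13, 3), (2, 3, 13), -589), ((5, 13, 10), (13, 5, 0), 61), ((5, 13, 8), (13, 5, 2), -186), ((6, 13, 5), (4, 5, 13), 74),
    ((13, 7, 10), (7, 13, 2), 177), ((10, 9, 13), (4, 13, 9), -73), ((9, 8, 13), (13, 6, 9), -42), ((11, 10, 13), (13, 6, 11), 152),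
    ((12, 13, 8), (13, 12, 0), 20)]
  tr := tr14
  big := 1048576

theorem ct41_valid : validC ct41 = true := by decide +kernel

theorem ct41_const : constOK ct41 5260 = true := by decide +kernel

/-- small classes -/
def sm41 : List Cl := [
 cl 0 1 0 1 4612 0 119, cl 0 2 0 0 0 107 1024, cl 0 0 0 2 0 2676 84, cl 0 1 0 3 0 0 69,
 cl 0 2 0 2 860 0 84, cl 0 0 0 4 0 22 60]

/-- big classes -/
def bg41 : List Cl := [
 cl 1 0 0 0 9163 0 119, cl 1 1 0 1 0 1056 123, cl 1 2 0 0 0 0 127, cl 2 0 0 0 415 0 84,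
 cl 2 1 0 1 0 48 86, cl 2 2 0 0 0 0 87, cl 1 0 0 2 0 0 119, cl 1 0 1 1 6296 0 119,
 cl 2 0 1 1 0 788 84, cl 2 0 0 2 0 0 84, cl 1 0 1 3 0 0 119, cl 1 0 2 0 0 2593 119,
 cl 2 0 2 0 29 0 84, cl 1 0 2 2 0 1332 119, cl 1 1 0 3 0 0 123, cl 1 2 0 2 0 0 127]

theorem ct41_link : linkOK ct41 (sm41 ++ bg41) = true := by decide +kernel

theorem sm41_zero : (sm41.all fun c => decide (c.i = 0)) = true := by decide +kernel

theorem bg41_tail : tailOK bg41 0 8 0 2485 = true := by decide +kernel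

theorem sm41_tail : tailOK sm41 0 224 128 2775 = true := by decide +kernel

theorem cs41_grid : gridOK vtTree (sm41 ++ bg41) 0 8 0 8 0 7927672464 5945 5260 = true := by
  decide +kernel

theorem sm41_grid : gridOK vtTree sm41 0 224 128 0 55432320 0 2242 2775 = true := by
  decide +kernel

end Pool.Agent.H79.OC
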