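import Pool.Agent.H79.OC.Pts
import Pool.Agent.H79.OC.VTab

set_option autoImplicit false
set_option maxRecDepth 100000

/-!
# Certificates, part 22
-/

namespace Pool.Agent.H79.OC

open Cl

/-! ### Box 42: `8 ≤ -128 x ≤ 16`, `4 ≤ 128 y ≤ 8` -/

/-- certificate -/
def ct42 : Cert where
  pts := pts14
  g := 3838
  al := [(0, -231), (1, 14), (2, 14), (3, 1580), (4, 237), (5, 575), (6, 575), (7, -302), (8, 402), (9, 330), (10, 330), (11, -139), (12, 801), (13, 801)]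
  be := [
    (1, 0, 801), (2, 0, 801), (2, 1, -721), (3, 0, 306), (3, 1, -292), (3, 2, -292), (4, 0, 918),
    (4, 1, 1403), (4, 2, 1403), (4, 3, -1506), (5, 0, -229), (5, 1, 1616), (5, 2, 212), (5, 3, 658),
    (5, 4, 1149), (6, 0, -229), (6, 1, 212), (6, 2, 1616), (6, 3, 658), (6, 4, 1149), (6, 5, -935),
    (7, 0, -96), (7, 1, 555), (7, 2, 555), (7, 3, 1814), (7, 4, -31), (7, 5, 449), (7, 6, 449),
    (8, 0, -53), (8, 1, -298), (8, 2, -298), (8, 4, 2238), (8, 5, 593), (8, 6, 593), (8, 7, -1126),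
    (9, 0, -98), (9, 1, 31), (9, 2, 32), (9, 3, -135), (9, 4, -370), (9, 5, -158), (9, 6, -159),
    (9, 7, 864), (9, 8, 560), (10, 0, -98), (10, 1, 32), (10, 2, 31), (10, 3, -135), (10, 4, -370),
    (10, 5, -159), (10, 6, -158), (10, 7, 864), (10, 8, 560), (10, 9, -508), (11, 1, 2), (11, 2, 2),
    (11, 3, 23), (11, 4, 96), (11, 5, -35), (11, 6, -35), (11, 7, 1311), (11, 8, 77), (11, 9, 422),
    (11, 10, 422), (12, 0, -197), (12, 1, -552), (12, 3, -800), (12, 4, -382), (12, 5, -857), (12, 6, -244),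
    (12, 7, 120), (12, 8, 144), (12, 9, -403), (13, 0, -197), (13, 2, -552), (13, 3, -800), (13, 4, -382),
    (13, 5, -244), (13, 6, -857), (13, 7, 120), (13, 8, 144), (13, 10, -403), (13, 12, -49)]
  ta := [
    ((3, 2, 1), (0, 1, 2), 723), ((4, 5, 6), (0, 1, 2), -788), ((7, 6, 5), (0, 1, 2), 153), ((8, 9, 10), (0, 1, 2), 205),
    ((11, 10, 9), (0, 1, 2), -27), ((5, 4, 12), (0, 1, 2), -104), ((6, 13, 4), (0, 1, 2), -104), ((3, 2, 0), (0, 1, 3), -215),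
    ((4, 5, 7), (0, 1, 3), 576), ((7, 6, 4), (0, 1, 3), 576), ((8, 9, 11), (0, 1, 3), -361), ((11, 10, 8), (0, 1, 3), -361),
    ((6, 5, 3), (1, 2, 4), -7), ((5, 6, 8), (1, 2, 4), -859), ((10, 9, 7), (1, 2, 4), 51), ((4, 12, 1), (1, 2, 4), 379),
    ((13, 4, 2), (1, 2, 4), 379), ((7, 4, 3), (0, 3, 4), 276), ((4, 7, 8), (0, 3, 4), -95), ((11, 8, 7), (0, 3, 4), -121),
    ((6, 4, 3), (1, 3, 4), 168), ((5, 7, 8), (1, 3, 4), 218), ((10, 8, 7), (1, 3, 4), -268), ((5, 4, 3), (2, 3, 4), 168),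
    ((6, 7, 8), (2, 3, 4), 218), ((9, 8, 7), (2, 3, 4), -268), ((5, 4, 0), (0, 1, 5), -504), ((2, 3, 7), (0, 1, 5), -461),
    ((7, 6, 2), (0, 1, 5), -427), ((4, 5, 9), (0, 1, 5), 266), ((9, 8, 4), (0, 1, 5), -345), ((6, 7, 11), (0, 1, 5), -532),
    ((11, 10, 6), (0, 1, 5), -304), ((13, 6, 10), (0, 1, 5), 2256), ((7, 5, 2), (0, 2, 5), -144), ((4, 6, 9), (0, 2, 5), 190),
    ((11, 9, 6), (0, 2, 5), -40), ((5, 12, 0), (0, 2, 5), 135), ((10, 8, 13), (0, 2, 5), 140), ((6, 5, 2), (1, 2, 5), -478),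
    ((5, 6, 9), (1, 2, 5), -217), ((10, 9, 6), (1, 2, 5), 108), ((4, 12, 0), (1, 2, 5), 564), ((4, 13, 8), (1, 2, 5), -291),
    ((7, 4, 2), (0, 3, 5), -375), ((4, 7, 9), (0, 3, 5), 97), ((11, 8, 6), (0, 3, 5), 6), ((5, 4, 2), (2, 3, 5), -933),
    ((6, 7, 9), (2, 3, 5), -235), ((9, 8, 6), (2, 3, 5), -524), ((0, 1, 12), (2, 3, 5), 84), ((13, 6, 8), (2, 3, 5), 1431),
    ((7, 6, 1), (0, 1, 6), -144), ((4, 5, 10), (0, 1, 6), 190), ((11, 10, 5), (0, 1, 6), -40), ((9, 8, 12), (0, 1, 6), 140),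
    ((6, 13, 0), (0, 1, 6), 135), ((6, 4, 0), (0, 2, 6), -504), ((1, 3, 7), (0, 2, 6), -461), ((7, 5, 1), (0, 2, 6), -427),
    ((4, 6, 10), (0, 2, 6), 266), ((10, 8, 4), (0, 2, 6), -345), ((5, 7, 11), (0, 2, 6), -532), ((11, 9, 5), (0, 2, 6), -304),
    ((12, 5, 9), (0, 2, 6), 2256), ((6, 5, 1), (1, 2, 6), -478), ((5, 6, 10), (1, 2, 6), -217), ((10, 9, 5), (1, 2, 6), 108),
    ((12, 4, 8), (1, 2, 6), -291), ((13, 4, 0), (1, 2, 6), 564), ((7, 4, 1), (0, 3, 6), -375), ((4, 7, 10), (0, 3, 6), 97),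
    ((11, 8, 5), (0, 3, 6), 6), ((6, 4, 1), (1, 3, 6), -933), ((5, 7, 10), (1, 3, 6), -235), ((10, 8, 5), (1, 3, 6), -524),
    ((12, 5, 8), (1, 3, 6), 1431), ((0, 2, 13), (1, 3, 6), 84), ((1, 2, 7), (6, 5, 0), -116), ((10, 9, 4), (6, 5, 0), 170),
    ((5, 6, 11), (6, 5, 0), 11), ((12, 4, 9), (6, 5, 0), -60), ((4, 13, 10), (6, 5, 0), -60), ((7, 6, 0), (0, 1, 7), 379),
    ((4, 5, 11), (0, 1, 7), 44), ((11, 10, 4), (0, 1, 7), -54), ((7, 5, 0), (0, 2, 7), 379), ((4, 6, 11), (0, 2, 7), 44),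
    ((11, 9, 4), (0, 2, 7), -54), ((7, 4, 0), (0, 3, 7), 58), ((4, 7, 11), (0, 3, 7), -238), ((11, 8, 4), (0, 3, 7), -34),
    ((9, 8, 1), (0, 1, 8), 51), ((2, 3, 10), (0, 1, 8), 85), ((11, 10, 3), (0, 1, 8), 3), ((1, 3, 9), (0, 2, 8), 85),
    ((10, 8, 2), (0, 2, 8), 51), ((11, 9, 3), (0, 2, 8), 3), ((10, 9, 3), (1, 2, 8), -30), ((11, 8, 3), (0, 3, 8), 45),
    ((10, 8, 3), (1, 3, 8), -80), ((9, 8, 3), (2, 3, 8), -80), ((1, 5, 9), (0, 4, 8), 867), ((2, 6, 10), (0, 4, 8), 867),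
    ((3, 7, 11), (0, 4, 8), -647), ((8, 5, 1), (1, 4, 8), 455), ((3, 6, 10), (1, 4, 8), 461), ((10, 7, 3), (1, 4, 8), -446),
    ((8, 6, 2), (2, 4, 8), 455), ((3, 5, 9), (2, 4, 8), 461), ((9, 7, 3), (2, 4, 8), -446), ((8, 7, 3), (3, 4, 8), -70),
    ((1, 4, 9), (8, 5, 0), -105), ((10, 7, 2), (8, 5, 0), -107), ((3, 6, 11), (8, 5, 0), 21), ((2, 13, 10), (8, 5, 0), 250),
    ((9, 6, 3), (2, 5, 8), -11), ((8, 13, 2), (2, 5, 8), 56), ((9, 7, 1), (8, 6, 0), -107), ((2, 4, 10), (8, 6, 0), -105),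
    ((3, 5, 11), (8, 6, 0), 21), ((1, 12, 9), (8, 6, 0), 250), ((3, 5, 10), (8, 6, 1), -11), ((1, 12, 8), (8, 6, 1), 56),
    ((3, 4, 11), (8, 7, 0), -76), ((3, 4, 10), (8, 7, 1), -45), ((3, 4, 9), (8, 7, 2), -45), ((9, 8, 0), (0, 1, 9), 92),
    ((2, 3, 11), (0, 1, 9), 4), ((11, 10, 2), (0, 1, 9), -23), ((11, 9, 2), (0, 2, 9), 17), ((10, 9, 2), (1, 2, 9), 43),
    ((11, 8, 2), (0, 3, 9), 10), ((9, 8, 2), (2, 3, 9), -87), ((9, 5, 0), (0, 4, 9), -54), ((2, 6, 11), (0, 4, 9), 43),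
    ((11, 7, 2), (0, 4, 9), -59), ((9, 7, 2), (2, 4, 9), -114), ((9, 6, 2), (2, 5, 9), 175), ((2, 5, 11), (9, 6, 0), -13),
    ((0, 12, 9), (9, 6, 0), -15), ((2, 5, 10), (9, 6, 1), -89), ((0, 12, 8), (9, 6, 1), 89), ((8, 13, 0), (9, 6, 1), 89),
    ((2, 4, 11), (9, 7, 0), -20), ((11, 10, 1), (0, 1, 10), 17), ((10, 8, 0), (0, 2, 10), 92), ((1, 3, 11), (0, 2, 10), 4),
    ((11, 9, 1), (0, 2, 10), -23), ((10, 9, 1), (1, 2, 10), 43), ((11, 8, 1), (0, 3, 10), 10), ((10, 8, 1), (1, 3, 10), -87),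
    ((10, 6, 0), (0, 4, 10), -54), ((1, 5, 11), (0, 4, 10), 43), ((11, 7, 1), (0, 4, 10), -59), ((10, 7, 1), (1, 4, 10), -114),
    ((11, 6, 1), (0, 5, 10), -13), ((10, 13, 0), (0, 5, 10), -15), ((10, 6, 1), (1, 5, 10), -175), ((1, 4, 11), (10, 7, 0), -20),
    ((1, 2, 11), (10, 9, 0), 18), ((5, 12, 2), (0, 2, 12), -6), ((4, 12, 2), (1, 2, 12), -125), ((5, 12, 3), (1, 3, 12), -696),
    ((12, 6, 9), (6, 12, 0), 28), ((12, 6, 8), (6, 12, 1), -320), ((6, 5, 12), (12, 4, 6), 257), ((12, 7, 9), (7, 12, 1), 153),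
    ((10, 9, 12), (12, 4, 10), 15), ((10, 8, 12), (12, 5, 10), -81), ((6, 13, 1), (0, 1, 13), -6), ((13, 4, 1), (1, 2, 13), -125),
    ((6, 13, 3), (2, 3, 13), -696), ((5, 13, 10), (13, 5, 0), 28), ((5, 13, 8), (13, 5, 2), -320), ((6, 13, 5), (4, 5, 13), 257),
    ((13, 7, 10), (7, 13, 2), 153), ((10, 9, 13), (4, 13, 9), 15), ((9, 8, 13), (13, 6, 9), -81), ((12, 13, 8), (13, 12, 0), 32)]
  tr := tr14
  big := 1048576

theorem ct42_valid : validC ct42 = true := by decide +kernel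

theorem ct42_const : constOK ct42 5183 = true := by decide +kernel

/-- small classes -/
def sm42 : List Cl := [
 cl 0 1 0 1 4464 0 100, cl 0 2 0 0 352 0 84, cl 0 0 0 2 0 2928 84, cl 0 1 0 3 0 488 67,
 cl 0 2 0 2 240 0 71, cl 0 0 0 4 0 49 60]

/-- big classes -/
def bg42 : List Cl := [
 cl 1 0 0 0 9197 0 119, cl 1 1 0 1 0 964 127, cl 1 2 0 0 0 0 137, cl 2 0 0 0 32 0 84,
 cl 2 1 0 1 0 192 87, cl 2 2 0 0 0 0 90, cl 1 0 0 2 0 0 119, cl 1 0 1 1 5932 0 115,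
 cl 2 0 1 1 0 866 83, cl 2 0 0 2 64 0 84, cl 1 0 1 3 0 0 115, cl 1 0 2 0 0 2632 112,
 cl 2 0 2 0 0 0 82, cl 1 0 2 2 0 1600 112, cl 1 1 0 3 0 0 127, cl 1 2 0 2 0 0 137]

theorem ct42_link : linkOK ct42 (sm42 ++ bg42) = true := by decide +kernel

theorem sm42_zero : (sm42.all fun c => decide (c.i = 0)) = true := by decide +kernel

theorem bg42_tail : tailOK bg42 8 8 4 2412 = true := by decide +kernel

theorem sm42_tail : tailOK sm42 128 96 128 2771 = true := by decide +kernel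

theorem cs42_grid : gridOK vtTree (sm42 ++ bg42) 8 8 4 4 0 5712675160 6196 5183 = true := by
  decide +kernel

theorem sm42_grid : gridOK vtTree sm42 128 96 128 0 1179519104 0 2385 2771 = true := by
  decide +kernel

/-! ### Box 43: `0 ≤ -128 x ≤ 8`, `8 ≤ 128 y ≤ 16` -/

/-- certificate -/
def ct43 : Cert where
  pts := pts14
  g := 4766
  al := [(0, 647), (1, 378), (2, 378), (3, 2280), (4, 488), (5, 502), (6, 502), (7, -173), (8, 676), (9, 216), (10, 216), (11, -1), (12, 544), (13, 544)]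
  be := [
    (1, 0, 651), (2, 0, 651), (2, 1, -1999), (3, 0, -945), (3, 1, -776), (3, 2, -776), (4, 0, 264),
    (4, 1, 1599), (4, 2, 1599), (4, 3, -2032), (5, 0, -669), (5, 1, 2271), (5, 2, 206), (5, 3, 891),
    (5, 4, 1560), (6, 0, -669), (6, 1, 206), (6, 2, 2271), (6, 3, 891), (6, 4, 1560), (6, 5, -488),
    (7, 0, -40), (7, 1, 1066), (7, 2, 1066), (7, 3, 1763), (7, 4, 580), (7, 5, 95), (7, 6, 95),
    (8, 0, 139), (8, 1, -575), (8, 2, -575), (8, 3, 46), (8, 4, 2305), (8, 5, 366), (8, 6, 366),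
    (8, 7, -1387), (9, 0, -21), (9, 3, 265), (9, 4, -145), (9, 5, 160), (9, 6, -117), (9, 7, 569),
    (9, 8, 384), (10, 0, -21), (10, 3, 265), (10, 4, -145), (10, 5, -117), (10, 6, 160), (10, 7, 569),
    (10, 8, 384), (10, 9, -407), (11, 1, 21), (11, 2, 21), (11, 3, 11), (11, 4, 40), (11, 5, -279),
    (11, 6, -279), (11, 7, 1111), (11, 8, 270), (11, 9, 377), (11, 10, 377), (12, 0, -308), (12, 1, -460),
    (12, 3, -804), (12, 4, -367), (12, 5, -850), (12, 7, 310), (12, 8, 219), (12, 9, -299), (13, 0, -308),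
    (13, 2, -460), (13, 3, -804), (13, 4, -367), (13, 6, -850), (13, 7, 310), (13, 8, 219), (13, 10, -299),
    (13, 12, -46)]
  ta := [
    ((3, 2, 1), (0, 1, 2), 1317), ((4, 5, 6), (0, 1, 2), -1095), ((7, 6, 5), (0, 1, 2), 208), ((8, 9, 10), (0, 1, 2), 274),
    ((11, 10, 9), (0, 1, 2), -141), ((5, 4, 12), (0, 1, 2), -401), ((6, 13, 4), (0, 1, 2), -401), ((3, 2, 0), (0, 1, 3), -99),
    ((4, 5, 7), (0, 1, 3), 412), ((7, 6, 4), (0, 1, 3), 412), ((8, 9, 11), (0, 1, 3), -313), ((11, 10, 8), (0, 1, 3), -313),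
    ((6, 5, 3), (1, 2, 4), -384), ((5, 6, 8), (1, 2, 4), -888), ((10, 9, 7), (1, 2, 4), -98), ((4, 12, 1), (1, 2, 4), 348),
    ((13, 4, 2), (1, 2, 4), 348), ((7, 4, 3), (0, 3, 4), 322), ((4, 7, 8), (0, 3, 4), -430), ((11, 8, 7), (0, 3, 4), -270),
    ((6, 4, 3), (1, 3, 4), -11), ((5, 7, 8), (1, 3, 4), 280), ((10, 8, 7), (1, 3, 4), -86), ((5, 4, 3), (2, 3, 4), -11),
    ((6, 7, 8), (2, 3, 4), 280), ((9, 8, 7), (2, 3, 4), -86), ((5, 4, 0), (0, 1, 5), -409), ((2, 3, 7), (0, 1, 5), -492),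
    ((7, 6, 2), (0, 1, 5), -655), ((4, 5, 9), (0, 1, 5), 326), ((9, 8, 4), (0, 1, 5), -443), ((6, 7, 11), (0, 1, 5), -416),
    ((11, 10, 6), (0, 1, 5), -122), ((13, 6, 10), (0, 1, 5), 2278), ((7, 5, 2), (0, 2, 5), -189), ((4, 6, 9), (0, 2, 5), 13),
    ((11, 9, 6), (0, 2, 5), -56), ((5, 12, 0), (0, 2, 5), 404), ((10, 8, 13), (0, 2, 5), 111), ((6, 5, 2), (1, 2, 5), -937),
    ((5, 6, 9), (1, 2, 5), -482), ((10, 9, 6), (1, 2, 5), 108), ((4, 12, 0), (1, 2, 5), 713), ((4, 13, 8), (1, 2, 5), -248),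
    ((7, 4, 2), (0, 3, 5), -1111), ((4, 7, 9), (0, 3, 5), 186), ((11, 8, 6), (0, 3, 5), -7), ((5, 4, 2), (2, 3, 5), -1127),
    ((6, 7, 9), (2, 3, 5), -380), ((9, 8, 6), (2, 3, 5), -395), ((0, 1, 12), (2, 3, 5), 200), ((13, 6, 8), (2, 3, 5), 1584),
    ((7, 6, 1), (0, 1, 6), -189), ((4, 5, 10), (0, 1, 6), 13), ((11, 10, 5), (0, 1, 6), -56), ((9, 8, 12), (0, 1, 6), 111),
    ((6, 13, 0), (0, 1, 6), 404), ((6, 4, 0), (0, 2, 6), -409), ((1, 3, 7), (0, 2, 6), -492), ((7, 5, 1), (0, 2, 6), -655),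
    ((4, 6, 10), (0, 2, 6), 326), ((10, 8, 4), (0, 2, 6), -443), ((5, 7, 11), (0, 2, 6), -416), ((11, 9, 5), (0, 2, 6), -122),
    ((12, 5, 9), (0, 2, 6), 2278), ((6, 5, 1), (1, 2, 6), -937), ((5, 6, 10), (1, 2, 6), -482), ((10, 9, 5), (1, 2, 6), 108),
    ((12, 4, 8), (1, 2, 6), -248), ((13, 4, 0), (1, 2, 6), 713), ((7, 4, 1), (0, 3, 6), -1111), ((4, 7, 10), (0, 3, 6), 186),
    ((11, 8, 5), (0, 3, 6), -7), ((6, 4, 1), (1, 3, 6), -1127), ((5, 7, 10), (1, 3, 6), -380), ((10, 8, 5), (1, 3, 6), -395),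
    ((12, 5, 8), (1, 3, 6), 1584), ((0, 2, 13), (1, 3, 6), 200), ((1, 2, 7), (6, 5, 0), -57), ((10, 9, 4), (6, 5, 0), 112),
    ((5, 6, 11), (6, 5, 0), 296), ((12, 4, 9), (6, 5, 0), -144), ((4, 13, 10), (6, 5, 0), -144), ((7, 6, 0), (0, 1, 7), 762),
    ((4, 5, 11), (0, 1, 7), 42), ((11, 10, 4), (0, 1, 7), -58), ((7, 5, 0), (0, 2, 7), 762), ((4, 6, 11), (0, 2, 7), 42),
    ((11, 9, 4), (0, 2, 7), -58), ((7, 4, 0), (0, 3, 7), -269), ((4, 7, 11), (0, 3, 7), -65), ((11, 8, 4), (0, 3, 7), -306),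
    ((9, 8, 1), (0, 1, 8), -10), ((2, 3, 10), (0, 1, 8), -29), ((1, 3, 9), (0, 2, 8), -29), ((10, 8, 2), (0, 2, 8), -10),
    ((10, 9, 3), (1, 2, 8), -83), ((10, 8, 3), (1, 3, 8), -157), ((9, 8, 3), (2, 3, 8), -157), ((1, 5, 9), (0, 4, 8), 691),
    ((2, 6, 10), (0, 4, 8), 691), ((3, 7, 11), (0, 4, 8), -533), ((8, 5, 1), (1, 4, 8), 447), ((3, 6, 10), (1, 4, 8), 174),
    ((10, 7, 3), (1, 4, 8), -463), ((8, 6, 2), (2, 4, 8), 447), ((3, 5, 9), (2, 4, 8), 174), ((9, 7, 3), (2, 4, 8), -463),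
    ((8, 7, 3), (3, 4, 8), -42), ((1, 4, 9), (8, 5, 0), 46), ((10, 7, 2), (8, 5, 0), -7), ((3, 6, 11), (8, 5, 0), -2),
    ((2, 13, 10), (8, 5, 0), 115), ((9, 6, 3), (2, 5, 8), -197), ((8, 13, 2), (2, 5, 8), 11), ((9, 7, 1), (8, 6, 0), -7),
    ((2, 4, 10), (8, 6, 0), 46), ((3, 5, 11), (8, 6, 0), -2), ((1, 12, 9), (8, 6, 0), 115), ((3, 5, 10), (8, 6, 1), -197),
    ((1, 12, 8), (8, 6, 1), 11), ((3, 4, 11), (8, 7, 0), -8), ((3, 4, 10), (8, 7, 1), -108), ((3, 4, 9), (8, 7, 2), -108),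
    ((9, 8, 0), (0, 1, 9), 2), ((2, 3, 11), (0, 1, 9), -2), ((11, 10, 2), (0, 1, 9), -8), ((11, 9, 2), (0, 2, 9), 1),
    ((10, 9, 2), (1, 2, 9), 28), ((11, 8, 2), (0, 3, 9), -7), ((9, 8, 2), (2, 3, 9), -28), ((9, 5, 0), (0, 4, 9), -43),
    ((2, 6, 11), (0, 4, 9), -7), ((11, 7, 2), (0, 4, 9), -4), ((9, 7, 2), (2, 4, 9), -8), ((9, 6, 2), (2, 5, 9), 55),
    ((2, 5, 11), (9, 6, 0), -5), ((0, 12, 9), (9, 6, 0), -9), ((2, 5, 10), (9, 6, 1), -15), ((0, 12, 8), (9, 6, 1), 15),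
    ((8, 13, 0), (9, 6, 1), 15), ((2, 4, 11), (9, 7, 0), -16), ((11, 10, 1), (0, 1, 10), 1), ((10, 8, 0), (0, 2, 10), 2),
    ((1, 3, 11), (0, 2, 10), -2), ((11, 9, 1), (0, 2, 10), -8), ((10, 9, 1), (1, 2, 10), 28), ((11, 8, 1), (0, 3, 10), -7),
    ((10, 8, 1), (1, 3, 10), -28), ((10, 6, 0), (0, 4, 10), -43), ((1, 5, 11), (0, 4, 10), -7), ((11, 7, 1), (0, 4, 10), -4),
    ((10, 7, 1), (1, 4, 10), -8), ((11, 6, 1), (0, 5, 10), -5), ((10, 13, 0), (0, 5, 10), -9), ((10, 6, 1), (1, 5, 10), -55),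
    ((1, 4, 11), (10, 7, 0), -16), ((1, 2, 11), (10, 9, 0), 1), ((5, 12, 2), (0, 2, 12), 152), ((4, 12, 2), (1, 2, 12), -268),
    ((5, 12, 3), (1, 3, 12), -757), ((12, 6, 9), (6, 12, 0), 126), ((12, 6, 8), (6, 12, 1), -120), ((6, 5, 12), (12, 4, 6), 184),
    ((12, 7, 9), (7, 12, 1), 262), ((10, 9, 12), (12, 4, 10), -45), ((10, 8, 12), (12, 5, 10), -45), ((6, 13, 1), (0, 1, 13), 152),
    ((13, 4, 1), (1, 2, 13), -268), ((6, 13, 3), (2, 3, 13), -757), ((5, 13, 10), (13, 5, 0), 126), ((5, 13, 8), (13, 5, 2), -120),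
    ((6, 13, 5), (4, 5, 13), 184), ((13, 7, 10), (7, 13, 2), 262), ((10, 9, 13), (4, 13, 9), -45), ((9, 8, 13), (13, 6, 9), -45),
    ((12, 13, 8), (13, 12, 0), -1)]
  tr := tr14
  big := 1048576

theorem ct43_valid : validC ct43 = true := by decide +kernel

theorem ct43_const : constOK ct43 5194 = true := by decide +kernel

/-- small classes -/
def sm43 : List Cl := [
 cl 0 1 0 1 2882 0 119, cl 0 2 0 0 0 95 1024, cl 0 0 0 2 0 3628 84, cl 0 1 0 3 0 0 69,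
 cl 0 2 0 2 620 0 84, cl 0 0 0 4 0 46 60]

/-- big classes -/
def bg43 : List Cl := [
 cl 1 0 0 0 10305 0 119, cl 1 1 0 1 0 652 123, cl 1 2 0 0 0 0 127, cl 2 0 0 0 150 0 84,
 cl 2 1 0 1 0 0 86, cl 2 2 0 0 0 0 87, cl 1 0 0 2 0 0 118, cl 1 0 1 1 5930 0 119,
 cl 2 0 1 1 0 620 84, cl 2 0 0 2 0 0 84, cl 1 0 1 3 0 0 118, cl 1 0 2 0 0 3419 119,
 cl 2 0 2 0 46 0 84, cl 1 0 2 2 0 1608 118, cl 1 1 0 3 0 0 122, cl 1 2 0 2 0 0 126]

theorem ct43_link : linkOK ct43 (sm43 ++ bg43) = true := by decide +kernel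

theorem sm43_zero : (sm43.all fun c => decide (c.i = 0)) = true := by decide +kernel

theorem bg43_tail : tailOK bg43 0 8 8 2615 = true := by decide +kernel

theorem sm43_tail : tailOK sm43 0 128 128 2579 = true := by decide +kernel

theorem cs43_grid : gridOK vtTree (sm43 ++ bg43) 0 8 8 8 0 4968828640 6093 5194 = true := by
  decide +kernel

theorem sm43_grid : gridOK vtTree sm43 0 128 128 0 2947025280 0 2102 2579 = true := by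
  decide +kernel

end Pool.Agent.H79.OC
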