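import Pool.Agent.H79.OC.Pts
import Pool.Agent.H79.OC.VTab

set_option autoImplicit false
set_option maxRecDepth 100000

/-!
# Certificates, part 23
-/

namespace Pool.Agent.H79.OC

open Cl

/-! ### Box 44: `8 ≤ -128 x ≤ 16`, `8 ≤ 128 y ≤ 16` -/

/-- certificate -/
def ct44 : Cert where
  pts := pts14
  g := 4397
  al := [(0, 271), (1, 571), (2, 571), (3, 2354), (4, 674), (5, 630), (6, 630), (7, -359), (8, 382), (9, -206), (10, -206), (11, 30), (12, 595), (13, 595)]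
  be := [
    (1, 0, 567), (2, 0, 567), (2, 1, -1468), (3, 0, -627), (3, 1, -1196), (3, 2, -1196), (4, 0, 361),
    (4, 1, 1294), (4, 2, 1294), (4, 3, -2048), (5, 0, -174), (5, 1, 1870), (5, 2, -143), (5, 3, 491),
    (5, 4, 1198), (6, 0, -174), (6, 1, -143), (6, 2, 1870), (6, 3, 491), (6, 4, 1198), (6, 5, -784),
    (7, 0, 22), (7, 1, 653), (7, 2, 653), (7, 3, 1933), (7, 4, -38), (7, 5, 468), (7, 6, 468),
    (8, 0, 9), (8, 1, -666), (8, 2, -666), (8, 3, 194), (8, 4, 2284), (8, 5, 339), (8, 6, 339),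
    (8, 7, -963), (9, 0, 28), (9, 1, 125), (9, 2, 12), (9, 3, 248), (9, 4, -157), (9, 5, 61),
    (9, 6, 140), (9, 7, 1122), (9, 8, 681), (10, 0, 28), (10, 1, 12), (10, 2, 125), (10, 3, 248),
    (10, 4, -157), (10, 5, 140), (10, 6, 61), (10, 7, 1122), (10, 8, 681), (10, 9, -340), (11, 1, -28),
    (11, 2, -28), (11, 3, 52), (11, 4, -22), (11, 5, -328), (11, 6, -328), (11, 7, 1151), (11, 8, 281),
    (11, 9, 530), (11, 10, 530), (12, 0, -183), (12, 1, -317), (12, 3, -794), (12, 4, -342), (12, 5, -511),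
    (12, 6, -87), (12, 7, 200), (12, 8, 186), (12, 9, -428), (13, 0, -183), (13, 2, -317), (13, 3, -794),
    (13, 4, -342), (13, 5, -87), (13, 6, -511), (13, 7, 200), (13, 8, 186), (13, 10, -428), (13, 12, -11)]
  ta := [
    ((3, 2, 1), (0, 1, 2), 1044), ((4, 5, 6), (0, 1, 2), -731), ((7, 6, 5), (0, 1, 2), -4), ((8, 9, 10), (0, 1, 2), 246),
    ((11, 10, 9), (0, 1, 2), -121), ((5, 4, 12), (0, 1, 2), -340), ((6, 13, 4), (0, 1, 2), -340), ((3, 2, 0), (0, 1, 3), 28),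
    ((4, 5, 7), (0, 1, 3), 415), ((7, 6, 4), (0, 1, 3), 415), ((8, 9, 11), (0, 1, 3), -443), ((11, 10, 8), (0, 1, 3), -443),
    ((6, 5, 3), (1, 2, 4), 49), ((5, 6, 8), (1, 2, 4), -725), ((10, 9, 7), (1, 2, 4), -49), ((4, 12, 1), (1, 2, 4), 168),
    ((13, 4, 2), (1, 2, 4), 168), ((7, 4, 3), (0, 3, 4), 266), ((4, 7, 8), (0, 3, 4), -536), ((11, 8, 7), (0, 3, 4), -249),
    ((6, 4, 3), (1, 3, 4), 51), ((5, 7, 8), (1, 3, 4), 72), ((10, 8, 7), (1, 3, 4), -315), ((5, 4, 3), (2, 3, 4), 51),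
    ((6, 7, 8), (2, 3, 4), 72), ((9, 8, 7), (2, 3, 4), -315), ((5, 4, 0), (0, 1, 5), -491), ((2, 3, 7), (0, 1, 5), -203),
    ((7, 6, 2), (0, 1, 5), -503), ((4, 5, 9), (0, 1, 5), 260), ((9, 8, 4), (0, 1, 5), -342), ((6, 7, 11), (0, 1, 5), -408),
    ((11, 10, 6), (0, 1, 5), -243), ((13, 6, 10), (0, 1, 5), 2172), ((7, 5, 2), (0, 2, 5), -88), ((4, 6, 9), (0, 2, 5), 115),
    ((11, 9, 6), (0, 2, 5), -61), ((5, 12, 0), (0, 2, 5), 235), ((10, 8, 13), (0, 2, 5), 100), ((6, 5, 2), (1, 2, 5), -534),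
    ((5, 6, 9), (1, 2, 5), -459), ((10, 9, 6), (1, 2, 5), 130), ((4, 12, 0), (1, 2, 5), 430), ((4, 13, 8), (1, 2, 5), -113),
    ((7, 4, 2), (0, 3, 5), -639), ((4, 7, 9), (0, 3, 5), 167), ((11, 8, 6), (0, 3, 5), 6), ((5, 4, 2), (2, 3, 5), -795),
    ((6, 7, 9), (2, 3, 5), -537), ((9, 8, 6), (2, 3, 5), -387), ((0, 1, 12), (2, 3, 5), 25), ((13, 6, 8), (2, 3, 5), 1160),
    ((7, 6, 1), (0, 1, 6), -88), ((4, 5, 10), (0, 1, 6), 115), ((11, 10, 5), (0, 1, 6), -61), ((9, 8, 12), (0, 1, 6), 100),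
    ((6, 13, 0), (0, 1, 6), 235), ((6, 4, 0), (0, 2, 6), -491), ((1, 3, 7), (0, 2, 6), -203), ((7, 5, 1), (0, 2, 6), -503),
    ((4, 6, 10), (0, 2, 6), 260), ((10, 8, 4), (0, 2, 6), -342), ((5, 7, 11), (0, 2, 6), -408), ((11, 9, 5), (0, 2, 6), -243),
    ((12, 5, 9), (0, 2, 6), 2172), ((6, 5, 1), (1, 2, 6), -534), ((5, 6, 10), (1, 2, 6), -459), ((10, 9, 5), (1, 2, 6), 130),
    ((12, 4, 8), (1, 2, 6), -113), ((13, 4, 0), (1, 2, 6), 430), ((7, 4, 1), (0, 3, 6), -639), ((4, 7, 10), (0, 3, 6), 167),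
    ((11, 8, 5), (0, 3, 6), 6), ((6, 4, 1), (1, 3, 6), -795), ((5, 7, 10), (1, 3, 6), -537), ((10, 8, 5), (1, 3, 6), -387),
    ((12, 5, 8), (1, 3, 6), 1160), ((0, 2, 13), (1, 3, 6), 25), ((1, 2, 7), (6, 5, 0), -81), ((10, 9, 4), (6, 5, 0), 14),
    ((5, 6, 11), (6, 5, 0), 349), ((12, 4, 9), (6, 5, 0), -66), ((4, 13, 10), (6, 5, 0), -66), ((7, 6, 0), (0, 1, 7), 441),
    ((4, 5, 11), (0, 1, 7), 67), ((11, 10, 4), (0, 1, 7), -73), ((7, 5, 0), (0, 2, 7), 441), ((4, 6, 11), (0, 2, 7), 67),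
    ((11, 9, 4), (0, 2, 7), -73), ((7, 4, 0), (0, 3, 7), -21), ((4, 7, 11), (0, 3, 7), -24), ((11, 8, 4), (0, 3, 7), -267),
    ((9, 8, 1), (0, 1, 8), 46), ((2, 3, 10), (0, 1, 8), -33), ((11, 10, 3), (0, 1, 8), -26), ((1, 3, 9), (0, 2, 8), -33),
    ((10, 8, 2), (0, 2, 8), 46), ((11, 9, 3), (0, 2, 8), -26), ((10, 9, 3), (1, 2, 8), -73), ((11, 8, 3), (0, 3, 8), -15),
    ((10, 8, 3), (1, 3, 8), -276), ((9, 8, 3), (2, 3, 8), -276), ((1, 5, 9), (0, 4, 8), 831), ((2, 6, 10), (0, 4, 8), 831),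
    ((3, 7, 11), (0, 4, 8), -770), ((8, 5, 1), (1, 4, 8), 583), ((3, 6, 10), (1, 4, 8), 396), ((10, 7, 3), (1, 4, 8), -701),
    ((8, 6, 2), (2, 4, 8), 583), ((3, 5, 9), (2, 4, 8), 396), ((9, 7, 3), (2, 4, 8), -701), ((8, 7, 3), (3, 4, 8), -100),
    ((1, 4, 9), (8, 5, 0), -36), ((10, 7, 2), (8, 5, 0), -103), ((3, 6, 11), (8, 5, 0), -27), ((2, 13, 10), (8, 5, 0), 217),
    ((9, 6, 3), (2, 5, 8), -201), ((8, 13, 2), (2, 5, 8), -60), ((9, 7, 1), (8, 6, 0), -103), ((2, 4, 10), (8, 6, 0), -36),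
    ((3, 5, 11), (8, 6, 0), -27), ((1, 12, 9), (8, 6, 0), 217), ((3, 5, 10), (8, 6, 1), -201), ((1, 12, 8), (8, 6, 1), -60),
    ((3, 4, 11), (8, 7, 0), 41), ((3, 4, 10), (8, 7, 1), -61), ((3, 4, 9), (8, 7, 2), -61), ((9, 8, 0), (0, 1, 9), 40),
    ((2, 3, 11), (0, 1, 9), -26), ((11, 10, 2), (0, 1, 9), -15), ((11, 9, 2), (0, 2, 9), 2), ((10, 9, 2), (1, 2, 9), 35),
    ((11, 8, 2), (0, 3, 9), 5), ((9, 8, 2), (2, 3, 9), -36), ((9, 5, 0), (0, 4, 9), 12), ((2, 6, 11), (0, 4, 9), -61),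
    ((11, 7, 2), (0, 4, 9), -3), ((9, 7, 2), (2, 4, 9), -60), ((9, 6, 2), (2, 5, 9), 79), ((2, 5, 11), (9, 6, 0), 65),
    ((0, 12, 9), (9, 6, 0), -2), ((2, 5, 10), (9, 6, 1), -83), ((0, 12, 8), (9, 6, 1), 83), ((8, 13, 0), (9, 6, 1), 83),
    ((2, 4, 11), (9, 7, 0), 2), ((11, 10, 1), (0, 1, 10), 2), ((10, 8, 0), (0, 2, 10), 40), ((1, 3, 11), (0, 2, 10), -26),
    ((11, 9, 1), (0, 2, 10), -15), ((10, 9, 1), (1, 2, 10), 35), ((11, 8, 1), (0, 3, 10), 5), ((10, 8, 1), (1, 3, 10), -36),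
    ((10, 6, 0), (0, 4, 10), 12), ((1, 5, 11), (0, 4, 10), -61), ((11, 7, 1), (0, 4, 10), -3), ((10, 7, 1), (1, 4, 10), -60),
    ((11, 6, 1), (0, 5, 10), 65), ((10, 13, 0), (0, 5, 10), -2), ((10, 6, 1), (1, 5, 10), -79), ((1, 4, 11), (10, 7, 0), 2),
    ((1, 2, 11), (10, 9, 0), 21), ((11, 10, 0), (0, 1, 11), -5), ((11, 9, 0), (0, 2, 11), -5), ((11, 8, 0), (0, 3, 11), -13),
    ((11, 7, 0), (0, 4, 11), 8), ((5, 12, 2), (0, 2, 12), 226), ((4, 12, 2), (1, 2, 12), -294), ((5, 12, 3), (1, 3, 12), -678),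
    ((12, 6, 9), (6, 12, 0), 55), ((12, 6, 8), (6, 12, 1), -37), ((6, 5, 12), (12, 4, 6), 30), ((12, 7, 9), (7, 12, 1), 175),
    ((10, 9, 12), (12, 4, 10), 11), ((10, 8, 12), (12, 5, 10), -3), ((11, 9, 12), (12, 5, 11), 80), ((6, 13, 1), (0, 1, 13), 226),
    ((13, 4, 1), (1, 2, 13), -294), ((6, 13, 3), (2, 3, 13), -678), ((5, 13, 10), (13, 5, 0), 55), ((5, 13, 8), (13, 5, 2), -37),
    ((6, 13, 5), (4, 5, 13), 30), ((13, 7, 10), (7, 13, 2), 175), ((10, 9, 13), (4, 13, 9), 11), ((9, 8, 13), (13, 6, 9), -3),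
    ((11, 10, 13), (13, 6, 11), 80), ((12, 13, 8), (13, 12, 0), -8)]
  tr := tr14
  big := 1048576

theorem ct44_valid : validC ct44 = true := by decide +kernel

theorem ct44_const : constOK ct44 5179 = true := by decide +kernel

/-- small classes -/
def sm44 : List Cl := [
 cl 0 1 0 1 3474 0 112, cl 0 2 0 0 0 384 119, cl 0 0 0 2 0 3276 84, cl 0 1 0 3 0 174 68,
 cl 0 2 0 2 400 0 80, cl 0 0 0 4 0 11 60]

/-- big classes -/
def bg44 : List Cl := [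
 cl 1 0 0 0 9591 0 119, cl 1 1 0 1 0 868 127, cl 1 2 0 0 0 0 137, cl 2 0 0 0 311 0 84,
 cl 2 1 0 1 0 0 87, cl 2 2 0 0 0 0 90, cl 1 0 0 2 0 0 118, cl 1 0 1 1 5858 0 115,
 cl 2 0 1 1 0 836 83, cl 2 0 0 2 24 0 84, cl 1 0 1 3 0 0 114, cl 1 0 2 0 0 3011 112,
 cl 2 0 2 0 194 0 82, cl 1 0 2 2 0 1588 112, cl 1 1 0 3 0 0 126, cl 1 2 0 2 0 0 136]

theorem ct44_link : linkOK ct44 (sm44 ++ bg44) = true := by decide +kernel

theorem sm44_zero : (sm44.all fun c => decide (c.i = 0)) = true := by decide +kernel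

theorem bg44_tail : tailOK bg44 8 8 8 2494 = true := by decide +kernel

theorem sm44_tail : tailOK sm44 64 160 128 2685 = true := by decide +kernel

theorem cs44_grid : gridOK vtTree (sm44 ++ bg44) 8 8 8 8 0 4819494096 6091 5179 = true := by
  decide +kernel

theorem sm44_grid : gridOK vtTree sm44 64 160 128 0 2732476800 0 2152 2685 = true := by
  decide +kernel

/-! ### Box 45: `16 ≤ -128 x ≤ 24`, `8 ≤ 128 y ≤ 16` -/

/-- certificate -/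
def ct45 : Cert where
  pts := pts14
  g := 3712
  al := [(0, -352), (1, 115), (2, 115), (3, 1556), (4, 461), (5, 612), (6, 612), (7, -376), (8, 94), (9, 190), (10, 190), (11, -151), (12, 800), (13, 800)]
  be := [
    (1, 0, 733), (2, 0, 733), (2, 1, -493), (3, 0, 455), (3, 1, -265), (3, 2, -265), (4, 0, 748),
    (4, 1, 1130), (4, 2, 1130), (4, 3, -1585), (5, 0, -134), (5, 1, 1581), (5, 2, 66), (5, 3, 607),
    (5, 4, 956), (6, 0, -134), (6, 1, 66), (6, 2, 1581), (6, 3, 607), (6, 4, 956), (6, 5, -1197),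
    (7, 0, -29), (7, 1, 452), (7, 2, 452), (7, 3, 1844), (7, 4, -262), (7, 5, 426), (7, 6, 426),
    (8, 0, 89), (8, 1, -305), (8, 2, -305), (8, 4, 2354), (8, 5, 754), (8, 6, 754), (8, 7, -916),
    (9, 0, -63), (9, 1, -10), (9, 2, 26), (9, 3, -151), (9, 4, -326), (9, 5, -176), (9, 6, -77),
    (9, 7, 1006), (9, 8, 655), (10, 0, -63), (10, 1, 26), (10, 2, -10), (10, 3, -151), (10, 4, -326),
    (10, 5, -77), (10, 6, -176), (10, 7, 1006), (10, 8, 655), (10, 9, -416), (11, 1, -27), (11, 2, -27),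
    (11, 3, 6), (11, 4, 29), (11, 5, -62), (11, 6, -62), (11, 7, 1292), (11, 8, 161), (11, 9, 502),
    (11, 10, 502), (12, 0, -165), (12, 1, -545), (12, 3, -808), (12, 4, -379), (12, 5, -669), (12, 6, -284),
    (12, 7, 119), (12, 8, 176), (12, 9, -416), (13, 0, -165), (13, 2, -545), (13, 3, -808), (13, 4, -379),
    (13, 5, -284), (13, 6, -669), (13, 7, 119), (13, 8, 176), (13, 10, -416), (13, 12, -42)]
  ta := [
    ((3, 2, 1), (0, 1, 2), 618), ((4, 5, 6), (0, 1, 2), -525), ((7, 6, 5), (0, 1, 2), 180), ((8, 9, 10), (0, 1, 2), 160),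
    ((11, 10, 9), (0, 1, 2), -28), ((5, 4, 12), (0, 1, 2), -116), ((6, 13, 4), (0, 1, 2), -116), ((3, 2, 0), (0, 1, 3), -337),
    ((4, 5, 7), (0, 1, 3), 717), ((7, 6, 4), (0, 1, 3), 717), ((8, 9, 11), (0, 1, 3), -380), ((11, 10, 8), (0, 1, 3), -380),
    ((6, 5, 3), (1, 2, 4), 164), ((5, 6, 8), (1, 2, 4), -856), ((10, 9, 7), (1, 2, 4), -3), ((4, 12, 1), (1, 2, 4), 369),
    ((13, 4, 2), (1, 2, 4), 369), ((7, 4, 3), (0, 3, 4), 245), ((4, 7, 8), (0, 3, 4), -82), ((11, 8, 7), (0, 3, 4), -142),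
    ((6, 4, 3), (1, 3, 4), 166), ((5, 7, 8), (1, 3, 4), 205), ((10, 8, 7), (1, 3, 4), -301), ((5, 4, 3), (2, 3, 4), 166),
    ((6, 7, 8), (2, 3, 4), 205), ((9, 8, 7), (2, 3, 4), -301), ((5, 4, 0), (0, 1, 5), -448), ((2, 3, 7), (0, 1, 5), -415),
    ((7, 6, 2), (0, 1, 5), -348), ((4, 5, 9), (0, 1, 5), 267), ((9, 8, 4), (0, 1, 5), -376), ((6, 7, 11), (0, 1, 5), -500),
    ((11, 10, 6), (0, 1, 5), -292), ((13, 6, 10), (0, 1, 5), 2128), ((7, 5, 2), (0, 2, 5), -84), ((4, 6, 9), (0, 2, 5), 121),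
    ((11, 9, 6), (0, 2, 5), -74), ((5, 12, 0), (0, 2, 5), 71), ((10, 8, 13), (0, 2, 5), 134), ((6, 5, 2), (1, 2, 5), -325),
    ((5, 6, 9), (1, 2, 5), -175), ((10, 9, 6), (1, 2, 5), 90), ((4, 12, 0), (1, 2, 5), 579), ((4, 13, 8), (1, 2, 5), -348),
    ((7, 4, 2), (0, 3, 5), -163), ((4, 7, 9), (0, 3, 5), 35), ((11, 8, 6), (0, 3, 5), -13), ((5, 4, 2), (2, 3, 5), -744),
    ((6, 7, 9), (2, 3, 5), -321), ((9, 8, 6), (2, 3, 5), -538), ((0, 1, 12), (2, 3, 5), 63), ((13, 6, 8), (2, 3, 5), 1274),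
    ((7, 6, 1), (0, 1, 6), -84), ((4, 5, 10), (0, 1, 6), 121), ((11, 10, 5), (0, 1, 6), -74), ((9, 8, 12), (0, 1, 6), 134),
    ((6, 13, 0), (0, 1, 6), 71), ((6, 4, 0), (0, 2, 6), -448), ((1, 3, 7), (0, 2, 6), -415), ((7, 5, 1), (0, 2, 6), -348),
    ((4, 6, 10), (0, 2, 6), 267), ((10, 8, 4), (0, 2, 6), -376), ((5, 7, 11), (0, 2, 6), -500), ((11, 9, 5), (0, 2, 6), -292),
    ((12, 5, 9), (0, 2, 6), 2128), ((6, 5, 1), (1, 2, 6), -325), ((5, 6, 10), (1, 2, 6), -175), ((10, 9, 5), (1, 2, 6), 90),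
    ((12, 4, 8), (1, 2, 6), -348), ((13, 4, 0), (1, 2, 6), 579), ((7, 4, 1), (0, 3, 6), -163), ((4, 7, 10), (0, 3, 6), 35),
    ((11, 8, 5), (0, 3, 6), -13), ((6, 4, 1), (1, 3, 6), -744), ((5, 7, 10), (1, 3, 6), -321), ((10, 8, 5), (1, 3, 6), -538),
    ((12, 5, 8), (1, 3, 6), 1274), ((0, 2, 13), (1, 3, 6), 63), ((1, 2, 7), (6, 5, 0), -172), ((10, 9, 4), (6, 5, 0), 124),
    ((5, 6, 11), (6, 5, 0), 40), ((12, 4, 9), (6, 5, 0), -45), ((4, 13, 10), (6, 5, 0), -45), ((7, 6, 0), (0, 1, 7), 261),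
    ((4, 5, 11), (0, 1, 7), 73), ((11, 10, 4), (0, 1, 7), -85), ((7, 5, 0), (0, 2, 7), 261), ((4, 6, 11), (0, 2, 7), 73),
    ((11, 9, 4), (0, 2, 7), -85), ((7, 4, 0), (0, 3, 7), 170), ((4, 7, 11), (0, 3, 7), -236), ((11, 8, 4), (0, 3, 7), -31),
    ((9, 8, 1), (0, 1, 8), 38), ((2, 3, 10), (0, 1, 8), 109), ((11, 10, 3), (0, 1, 8), -30), ((1, 3, 9), (0, 2, 8), 109),
    ((10, 8, 2), (0, 2, 8), 38), ((11, 9, 3), (0, 2, 8), -30), ((10, 9, 3), (1, 2, 8), -40), ((11, 8, 3), (0, 3, 8), 47),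
    ((10, 8, 3), (1, 3, 8), -78), ((9, 8, 3), (2, 3, 8), -78), ((1, 5, 9), (0, 4, 8), 878), ((2, 6, 10), (0, 4, 8), 878),
    ((3, 7, 11), (0, 4, 8), -646), ((8, 5, 1), (1, 4, 8), 446), ((3, 6, 10), (1, 4, 8), 477), ((10, 7, 3), (1, 4, 8), -475),
    ((8, 6, 2), (2, 4, 8), 446), ((3, 5, 9), (2, 4, 8), 477), ((9, 7, 3), (2, 4, 8), -475), ((8, 7, 3), (3, 4, 8), -70),
    ((1, 4, 9), (8, 5, 0), -39), ((10, 7, 2), (8, 5, 0), -113), ((3, 6, 11), (8, 5, 0), 24), ((2, 13, 10), (8, 5, 0), 258),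
    ((9, 6, 3), (2, 5, 8), -15), ((8, 13, 2), (2, 5, 8), 80), ((9, 7, 1), (8, 6, 0), -113), ((2, 4, 10), (8, 6, 0), -39),
    ((3, 5, 11), (8, 6, 0), 24), ((1, 12, 9), (8, 6, 0), 258), ((3, 5, 10), (8, 6, 1), -15), ((1, 12, 8), (8, 6, 1), 80),
    ((3, 4, 11), (8, 7, 0), -13), ((3, 4, 10), (8, 7, 1), 15), ((3, 4, 9), (8, 7, 2), 15), ((9, 8, 0), (0, 1, 9), 63),
    ((2, 3, 11), (0, 1, 9), 27), ((11, 10, 2), (0, 1, 9), -41), ((11, 9, 2), (0, 2, 9), -10), ((10, 9, 2), (1, 2, 9), 55),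
    ((11, 8, 2), (0, 3, 9), -3), ((9, 8, 2), (2, 3, 9), -53), ((9, 5, 0), (0, 4, 9), -75), ((2, 6, 11), (0, 4, 9), 44),
    ((11, 7, 2), (0, 4, 9), -64), ((9, 7, 2), (2, 4, 9), -114), ((9, 6, 2), (2, 5, 9), 132), ((2, 5, 11), (9, 6, 0), 15),
    ((0, 12, 9), (9, 6, 0), -6), ((2, 5, 10), (9, 6, 1), -67), ((0, 12, 8), (9, 6, 1), 67), ((8, 13, 0), (9, 6, 1), 67),
    ((2, 4, 11), (9, 7, 0), 10), ((11, 10, 1), (0, 1, 10), -10), ((10, 8, 0), (0, 2, 10), 63), ((1, 3, 11), (0, 2, 10), 27),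
    ((11, 9, 1), (0, 2, 10), -41), ((10, 9, 1), (1, 2, 10), 55), ((11, 8, 1), (0, 3, 10), -3), ((10, 8, 1), (1, 3, 10), -53),
    ((10, 6, 0), (0, 4, 10), -75), ((1, 5, 11), (0, 4, 10), 44), ((11, 7, 1), (0, 4, 10), -64), ((10, 7, 1), (1, 4, 10), -114),
    ((11, 6, 1), (0, 5, 10), 15), ((10, 13, 0), (0, 5, 10), -6), ((10, 6, 1), (1, 5, 10), -132), ((1, 4, 11), (10, 7, 0), 10),
    ((1, 2, 11), (10, 9, 0), 32), ((11, 10, 0), (0, 1, 11), 9), ((11, 9, 0), (0, 2, 11), 9), ((11, 7, 0), (0, 4, 11), 9),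
    ((5, 12, 2), (0, 2, 12), -60), ((4, 12, 2), (1, 2, 12), -100), ((5, 12, 3), (1, 3, 12), -689), ((12, 6, 9), (6, 12, 0), 31),
    ((12, 6, 8), (6, 12, 1), -365), ((6, 5, 12), (12, 4, 6), 272), ((12, 7, 9), (7, 12, 1), 153), ((10, 9, 12), (12, 4, 10), 11),
    ((10, 8, 12), (12, 5, 10), -84), ((11, 9, 12), (12, 5, 11), 15), ((6, 13, 1), (0, 1, 13), -60), ((13, 4, 1), (1, 2, 13), -100),
    ((6, 13, 3), (2, 3, 13), -689), ((5, 13, 10), (13, 5, 0), 31), ((5, 13, 8), (13, 5, 2), -365), ((6, 13, 5), (4, 5, 13), 272),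
    ((13, 7, 10), (7, 13, 2), 153), ((10, 9, 13), (4, 13, 9), 11), ((9, 8, 13), (13, 6, 9), -84), ((11, 10, 13), (13, 6, 11), 15),
    ((12, 13, 8), (13, 12, 0), 42)]
  tr := tr14
  big := 1048576

theorem ct45_valid : validC ct45 = true := by decide +kernel

theorem ct45_const : constOK ct45 5175 = true := by decide +kernel

/-- small classes -/
def sm45 : List Cl := [
 cl 0 1 0 1 4676 0 100, cl 0 2 0 0 354 0 84, cl 0 0 0 2 0 2864 84, cl 0 1 0 3 0 568 67,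
 cl 0 2 0 2 238 0 71, cl 0 0 0 4 0 42 60]

/-- big classes -/
def bg45 : List Cl := [
 cl 1 0 0 0 9048 0 119, cl 1 1 0 1 0 972 132, cl 1 2 0 0 0 0 150, cl 2 0 0 0 75 0 84,
 cl 2 1 0 1 0 180 88, cl 2 2 0 0 0 0 93, cl 1 0 0 2 0 0 118, cl 1 0 1 1 5904 0 112,
 cl 2 0 1 1 0 912 82, cl 2 0 0 2 52 0 84, cl 1 0 1 3 0 0 111, cl 1 0 2 0 0 2501 106,
 cl 2 0 2 0 0 0 79, cl 1 0 2 2 0 1616 106, cl 1 1 0 3 0 0 130, cl 1 2 0 2 0 0 149]

theorem ct45_link : linkOK ct45 (sm45 ++ bg45) = true := by decide +kernel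

theorem sm45_zero : (sm45.all fun c => decide (c.i = 0)) = true := by decide +kernel

theorem bg45_tail : tailOK bg45 16 8 8 2348 = true := by decide +kernel

theorem sm45_tail : tailOK sm45 128 96 128 2827 = true := by decide +kernel

theorem cs45_grid : gridOK vtTree (sm45 ++ bg45) 16 8 8 8 0 5860270848 6223 5175 = true := by
  decide +kernel

theorem sm45_grid : gridOK vtTree sm45 128 96 128 0 1023582208 0 2452 2827 = true := by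
  decide +kernel

end Pool.Agent.H79.OC
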