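import Pool.Agent.H79.OC.Pts
import Pool.Agent.H79.OC.VTab

set_option autoImplicit false
set_option maxRecDepth 100000

/-!
# Certificates, part 24
-/

namespace Pool.Agent.H79.OC

open Cl

/-! ### Box 46: `24 ≤ -128 x ≤ 32`, `8 ≤ 128 y ≤ 16` -/

/-- certificate -/
def ct46 : Cert where
  pts := pts14
  g := 3619
  al := [(0, 897), (1, 721), (2, 721), (3, 1697), (4, 207), (5, 234), (6, 234), (7, -1199), (8, -202), (9, -67), (10, -67), (11, -345), (12, 1020), (13, 1020)]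
  be := [
    (1, 0, 203), (2, 0, 203), (2, 1, -1445), (3, 0, -764), (3, 1, -586), (3, 2, -586), (4, 0, 364),
    (4, 1, 788), (4, 2, 788), (4, 3, -1535), (5, 0, -426), (5, 1, 1335), (5, 2, -148), (5, 3, 824),
    (5, 4, 902), (6, 0, -426), (6, 1, -148), (6, 2, 1335), (6, 3, 824), (6, 4, 902), (6, 5, -633),
    (7, 0, -23), (7, 1, 409), (7, 2, 409), (7, 3, 1856), (7, 4, 440), (7, 5, 1175), (7, 6, 1175),
    (8, 0, -4), (8, 1, -285), (8, 2, -285), (8, 3, 119), (8, 4, 2214), (8, 5, 643), (8, 6, 643),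
    (8, 7, -668), (9, 0, -64), (9, 1, -6), (9, 2, -89), (9, 3, -316), (9, 4, -208), (9, 5, 54),
    (9, 6, 49), (9, 7, 1387), (9, 8, 584), (10, 0, -64), (10, 1, -89), (10, 2, -6), (10, 3, -316),
    (10, 4, -208), (10, 5, 49), (10, 6, 54), (10, 7, 1387), (10, 8, 584), (10, 9, -48), (11, 1, -30),
    (11, 2, -30), (11, 3, 95), (11, 4, 23), (11, 5, -29), (11, 6, -29), (11, 7, 1259), (11, 8, 301),
    (11, 9, 622), (11, 10, 622), (12, 0, -363), (12, 1, -481), (12, 2, -67), (12, 3, -599), (12, 4, -189),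
    (12, 5, -618), (12, 6, -226), (12, 7, 102), (12, 8, 256), (12, 9, -432), (12, 10, 55), (13, 0, -363),
    (13, 1, -67), (13, 2, -481), (13, 3, -599), (13, 4, -189), (13, 5, -226), (13, 6, -618), (13, 7, 102),
    (13, 8, 256), (13, 9, 55), (13, 10, -432), (13, 12, -267)]
  ta := [
    ((3, 2, 1), (0, 1, 2), 480), ((4, 5, 6), (0, 1, 2), -214), ((7, 6, 5), (0, 1, 2), -367), ((8, 9, 10), (0, 1, 2), -30),
    ((11, 10, 9), (0, 1, 2), -79), ((5, 4, 12), (0, 1, 2), -146), ((6, 13, 4), (0, 1, 2), -146), ((3, 2, 0), (0, 1, 3), 210),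
    ((4, 5, 7), (0, 1, 3), 197), ((7, 6, 4), (0, 1, 3), 197), ((8, 9, 11), (0, 1, 3), -407), ((11, 10, 8), (0, 1, 3), -407),
    ((6, 5, 3), (1, 2, 4), -328), ((5, 6, 8), (1, 2, 4), -444), ((10, 9, 7), (1, 2, 4), -89), ((4, 12, 1), (1, 2, 4), 48),
    ((13, 4, 2), (1, 2, 4), 48), ((7, 4, 3), (0, 3, 4), 141), ((4, 7, 8), (0, 3, 4), -206), ((11, 8, 7), (0, 3, 4), -240),
    ((6, 4, 3), (1, 3, 4), 216), ((5, 7, 8), (1, 3, 4), 25), ((10, 8, 7), (1, 3, 4), -443), ((5, 4, 3), (2, 3, 4), 216),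
    ((6, 7, 8), (2, 3, 4), 25), ((9, 8, 7), (2, 3, 4), -443), ((5, 4, 0), (0, 1, 5), -222), ((2, 3, 7), (0, 1, 5), -384),
    ((7, 6, 2), (0, 1, 5), -388), ((4, 5, 9), (0, 1, 5), 265), ((9, 8, 4), (0, 1, 5), -167), ((6, 7, 11), (0, 1, 5), -313),
    ((11, 10, 6), (0, 1, 5), -221), ((13, 6, 10), (0, 1, 5), 1688), ((7, 5, 2), (0, 2, 5), -256), ((4, 6, 9), (0, 2, 5), 85),
    ((11, 9, 6), (0, 2, 5), -67), ((5, 12, 0), (0, 2, 5), 177), ((10, 8, 13), (0, 2, 5), 98), ((6, 5, 2), (1, 2, 5), 7),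
    ((5, 6, 9), (1, 2, 5), -180), ((10, 9, 6), (1, 2, 5), -8), ((4, 12, 0), (1, 2, 5), 166), ((4, 13, 8), (1, 2, 5), -377),
    ((7, 4, 2), (0, 3, 5), -364), ((4, 7, 9), (0, 3, 5), 44), ((11, 8, 6), (0, 3, 5), 16), ((5, 4, 2), (2, 3, 5), -163),
    ((6, 7, 9), (2, 3, 5), -272), ((9, 8, 6), (2, 3, 5), -134), ((0, 1, 12), (2, 3, 5), -103), ((13, 6, 8), (2, 3, 5), 716),
    ((7, 6, 1), (0, 1, 6), -256), ((4, 5, 10), (0, 1, 6), 85), ((11, 10, 5), (0, 1, 6), -67), ((9, 8, 12), (0, 1, 6), 98),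
    ((6, 13, 0), (0, 1, 6), 177), ((6, 4, 0), (0, 2, 6), -222), ((1, 3, 7), (0, 2, 6), -384), ((7, 5, 1), (0, 2, 6), -388),
    ((4, 6, 10), (0, 2, 6), 265), ((10, 8, 4), (0, 2, 6), -167), ((5, 7, 11), (0, 2, 6), -313), ((11, 9, 5), (0, 2, 6), -221),
    ((12, 5, 9), (0, 2, 6), 1688), ((6, 5, 1), (1, 2, 6), 7), ((5, 6, 10), (1, 2, 6), -180), ((10, 9, 5), (1, 2, 6), -8),
    ((12, 4, 8), (1, 2, 6), -377), ((13, 4, 0), (1, 2, 6), 166), ((7, 4, 1), (0, 3, 6), -364), ((4, 7, 10), (0, 3, 6), 44),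
    ((11, 8, 5), (0, 3, 6), 16), ((6, 4, 1), (1, 3, 6), -163), ((5, 7, 10), (1, 3, 6), -272), ((10, 8, 5), (1, 3, 6), -134),
    ((12, 5, 8), (1, 3, 6), 716), ((0, 2, 13), (1, 3, 6), -103), ((1, 2, 7), (6, 5, 0), 198), ((10, 9, 4), (6, 5, 0), 8),
    ((5, 6, 11), (6, 5, 0), -114), ((12, 4, 9), (6, 5, 0), 58), ((4, 13, 10), (6, 5, 0), 58), ((7, 6, 0), (0, 1, 7), 369),
    ((4, 5, 11), (0, 1, 7), 129), ((11, 10, 4), (0, 1, 7), -107), ((7, 5, 0), (0, 2, 7), 369), ((4, 6, 11), (0, 2, 7), 129),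
    ((11, 9, 4), (0, 2, 7), -107), ((7, 4, 0), (0, 3, 7), -286), ((4, 7, 11), (0, 3, 7), -216), ((11, 8, 4), (0, 3, 7), 47),
    ((9, 8, 1), (0, 1, 8), 90), ((2, 3, 10), (0, 1, 8), 276), ((11, 10, 3), (0, 1, 8), -164), ((1, 3, 9), (0, 2, 8), 276),
    ((10, 8, 2), (0, 2, 8), 90), ((11, 9, 3), (0, 2, 8), -164), ((10, 9, 3), (1, 2, 8), 38), ((11, 8, 3), (0, 3, 8), -70),
    ((10, 8, 3), (1, 3, 8), -23), ((9, 8, 3), (2, 3, 8), -23), ((1, 5, 9), (0, 4, 8), 559), ((2, 6, 10), (0, 4, 8), 559),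
    ((3, 7, 11), (0, 4, 8), -531), ((8, 5, 1), (1, 4, 8), 408), ((3, 6, 10), (1, 4, 8), 563), ((10, 7, 3), (1, 4, 8), -527),
    ((8, 6, 2), (2, 4, 8), 408), ((3, 5, 9), (2, 4, 8), 563), ((9, 7, 3), (2, 4, 8), -527), ((8, 7, 3), (3, 4, 8), -87),
    ((1, 4, 9), (8, 5, 0), -125), ((10, 7, 2), (8, 5, 0), -235), ((3, 6, 11), (8, 5, 0), 80), ((2, 13, 10), (8, 5, 0), 153),
    ((9, 6, 3), (2, 5, 8), -151), ((8, 13, 2), (2, 5, 8), 269), ((9, 7, 1), (8, 6, 0), -235), ((2, 4, 10), (8, 6, 0), -125),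
    ((3, 5, 11), (8, 6, 0), 80), ((1, 12, 9), (8, 6, 0), 153), ((3, 5, 10), (8, 6, 1), -151), ((1, 12, 8), (8, 6, 1), 269),
    ((3, 4, 11), (8, 7, 0), -68), ((3, 4, 10), (8, 7, 1), -53), ((3, 4, 9), (8, 7, 2), -53), ((9, 8, 0), (0, 1, 9), 37),
    ((2, 3, 11), (0, 1, 9), 57), ((11, 10, 2), (0, 1, 9), -48), ((11, 9, 2), (0, 2, 9), -60), ((10, 9, 2), (1, 2, 9), -66),
    ((11, 8, 2), (0, 3, 9), -55), ((9, 8, 2), (2, 3, 9), -109), ((9, 5, 0), (0, 4, 9), 50), ((2, 6, 11), (0, 4, 9), 52),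
    ((11, 7, 2), (0, 4, 9), -121), ((9, 7, 2), (2, 4, 9), -184), ((9, 6, 2), (2, 5, 9), 181), ((2, 5, 11), (9, 6, 0), -2),
    ((0, 12, 9), (9, 6, 0), 28), ((2, 5, 10), (9, 6, 1), 18), ((0, 12, 8), (9, 6, 1), -18), ((8, 13, 0), (9, 6, 1), -18),
    ((2, 4, 11), (9, 7, 0), 20), ((11, 10, 1), (0, 1, 10), -60), ((10, 8, 0), (0, 2, 10), 37), ((1, 3, 11), (0, 2, 10), 57),
    ((11, 9, 1), (0, 2, 10), -48), ((10, 9, 1), (1, 2, 10), -66), ((11, 8, 1), (0, 3, 10), -55), ((10, 8, 1), (1, 3, 10), -109),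
    ((10, 6, 0), (0, 4, 10), 50), ((1, 5, 11), (0, 4, 10), 52), ((11, 7, 1), (0, 4, 10), -121), ((10, 7, 1), (1, 4, 10), -184),
    ((11, 6, 1), (0, 5, 10), -2), ((10, 13, 0), (0, 5, 10), 28), ((10, 6, 1), (1, 5, 10), -181), ((1, 4, 11), (10, 7, 0), 20),
    ((1, 2, 11), (10, 9, 0), 105), ((11, 10, 0), (0, 1, 11), 16), ((11, 9, 0), (0, 2, 11), 16), ((11, 8, 0), (0, 3, 11), 3),
    ((11, 7, 0), (0, 4, 11), 28), ((5, 12, 2), (0, 2, 12), 118), ((4, 12, 2), (1, 2, 12), -316), ((5, 12, 3), (1, 3, 12), -479),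
    ((12, 6, 9), (6, 12, 0), -123), ((12, 6, 8), (6, 12, 1), -226), ((6, 5, 12), (12, 4, 6), 156), ((12, 7, 9), (7, 12, 1), 47),
    ((10, 9, 12), (12, 4, 10), 140), ((10, 8, 12), (12, 5, 10), 9), ((11, 9, 12), (12, 5, 11), 47), ((6, 13, 1), (0, 1, 13), 118),
    ((13, 4, 1), (1, 2, 13), -316), ((6, 13, 3), (2, 3, 13), -479), ((5, 13, 10), (13, 5, 0), -123), ((5, 13, 8), (13, 5, 2), -226),
    ((6, 13, 5), (4, 5, 13), 156), ((13, 7, 10), (7, 13, 2), 47), ((10, 9, 13), (4, 13, 9), 140), ((9, 8, 13), (13, 6, 9), 9),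
    ((11, 10, 13), (13, 6, 11), 47), ((12, 13, 8), (13, 12, 0), -135)]
  tr := tr14
  big := 1048576

theorem ct46_valid : validC ct46 = true := by decide +kernel

theorem ct46_const : constOK ct46 5001 = true := by decide +kernel

/-- small classes -/
def sm46 : List Cl := [
 cl 0 1 0 1 4564 0 89, cl 0 2 0 0 0 23 69, cl 0 0 0 2 0 2504 84, cl 0 1 0 3 0 452 65,
 cl 0 2 0 2 204 0 63, cl 0 0 0 4 0 267 60]

/-- big classes -/
def bg46 : List Cl := [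
 cl 1 0 0 0 8471 0 119, cl 1 1 0 1 0 1372 137, cl 1 2 0 0 0 0 168, cl 2 0 0 0 79 0 84,
 cl 2 1 0 1 0 188 90, cl 2 2 0 0 0 0 97, cl 1 0 0 2 0 412 118, cl 1 0 1 1 6322 0 109,
 cl 2 0 1 1 0 1202 81, cl 2 0 0 2 0 178 84, cl 1 0 1 3 0 134 108, cl 1 0 2 0 0 2203 101,
 cl 2 0 2 0 119 0 77, cl 1 0 2 2 0 1198 101, cl 1 1 0 3 110 0 135, cl 1 2 0 2 0 0 165]

theorem ct46_link : linkOK ct46 (sm46 ++ bg46) = true := by decide +kernel

theorem sm46_zero : (sm46.all fun c => decide (c.i = 0)) = true := by decide +kernel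

theorem bg46_tail : tailOK bg46 24 8 8 2395 = true := by decide +kernel

theorem sm46_tail : tailOK sm46 192 32 128 2606 = true := by decide +kernel

theorem cs46_grid : gridOK vtTree (sm46 ++ bg46) 24 8 8 8 0 5045245400 6344 5001 = true := by
  decide +kernel

theorem sm46_grid : gridOK vtTree sm46 192 32 128 0 1082489344 0 2355 2606 = true := by
  decide +kernel

end Pool.Agent.H79.OC
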