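import Pool.Agent.H79.OC.CDefs

set_option autoImplicit false
set_option maxRecDepth 100000

/-!
# Configurations
-/

namespace Pool.Agent.H79.OC

open Cl

/-- points -/
def ptsA : List (ℤ × ℤ × ℤ) :=
  [(0, 0, 0), (-1, 0, 0), (-1, 1, 0), (0, 0, 1), (0, -1, 0), (-1, -1, 1), (0, 0, -1), (-2, 1, 1),
   (0, -1, 1), (-1, 0, 1), (-1, 1, 1), (-1, 0, 2), (-1, -1, 0), (-2, 0, 1)]

/-- triangles -/
def trA : List (ℕ × ℕ × ℕ) :=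
  [(0, 1, 4), (0, 1, 6), (1, 0, 2), (1, 0, 9), (3, 9, 8), (3, 9, 0), (5, 8, 9), (8, 5, 4),
   (9, 3, 10), (9, 13, 5), (9, 3, 11), (9, 13, 1), (10, 7, 9), (10, 7, 2), (12, 4, 1), (12, 4, 5),
   (13, 9, 7)]

/-- points -/
def ptsB : List (ℤ × ℤ × ℤ) :=
  [(-1, 1, 0), (1, 0, -1), (0, -1, 0), (-1, 0, 0), (0, 0, -1), (-1, 0, 1), (1, 0, 0), (0, -1, -1),
   (0, 1, 0), (-1, 0, -1), (0, 0, 0), (1, -1, -1), (-1, -1, 0), (-1, -1, -1)]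

/-- triangles -/
def trB : List (ℕ × ℕ × ℕ) :=
  [(1, 4, 11), (2, 12, 7), (3, 10, 0), (3, 10, 5), (4, 9, 7), (4, 1, 10), (6, 10, 1), (7, 11, 4),
   (7, 11, 2), (8, 0, 10), (9, 4, 3), (10, 6, 8), (10, 3, 2), (10, 3, 4), (12, 2, 3), (13, 7, 9),
   (13, 7, 12)]

/-- points -/
def ptsC : List (ℤ × ℤ × ℤ) :=
  [(0, 0, 0), (-1, 0, 0), (0, 1, 0), (-1, 1, 0), (0, -1, 0), (-1, 1, 1), (0, 0, 1), (1, 0, -1),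
   (-1, 0, 1), (0, -1, 1), (1, -1, 0), (1, 0, 0), (-1, 0, 2), (-2, 1, 1)]

/-- triangles -/
def trC : List (ℕ × ℕ × ℕ) :=
  [(0, 11, 2), (0, 1, 4), (0, 11, 6), (1, 0, 3), (1, 0, 8), (2, 3, 0), (3, 2, 5), (4, 10, 0),
   (4, 10, 9), (5, 13, 8), (5, 13, 3), (6, 8, 9), (6, 8, 0), (8, 6, 5), (8, 6, 12), (11, 0, 10),
   (11, 0, 7)]

/-- points -/
def ptsD : List (ℤ × ℤ × ℤ) :=
  [(0, 0, 0), (-1, 0, 0), (-1, 1, 0), (-2, 0, 1), (-2, 1, 1), (-1, 1, 1), (0, 1, 0), (0, 1, 1),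
   (-1, 2, 1), (-2, 2, 1), (-2, 1, 0), (-2, 1, 2), (0, 0, 1), (-1, 0, 1), (0, -1, 0)]

/-- triangles -/
def trD : List (ℕ × ℕ × ℕ) :=
  [(0, 1, 14), (1, 0, 2), (1, 0, 13), (2, 10, 1), (2, 6, 5), (3, 13, 4), (4, 5, 9), (4, 5, 11),
   (5, 7, 8), (5, 4, 13), (5, 4, 2), (6, 2, 0), (7, 5, 12), (7, 5, 6), (8, 9, 5), (10, 2, 4),
   (12, 13, 0), (13, 12, 5), (13, 3, 1)]

/-- points -/
def ptsE : List (ℤ × ℤ × ℤ) :=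
  [(1, 0, 0), (2, 0, 0), (1, 0, -1), (0, 0, 1), (2, -1, 0), (2, -1, -1), (1, 1, 0), (1, 1, -1),
   (2, 0, -1), (0, 2, 0), (1, 0, 1), (3, -1, -1), (0, 1, 0), (0, 0, 0), (0, 1, 1)]

/-- triangles -/
def trE : List (ℕ × ℕ × ℕ) :=
  [(0, 1, 6), (0, 1, 10), (0, 13, 2), (1, 0, 4), (1, 0, 8), (2, 8, 7), (2, 8, 0), (3, 10, 14),
   (5, 11, 8), (5, 11, 4), (6, 12, 0), (6, 12, 7), (8, 2, 5), (10, 3, 0), (12, 6, 9), (12, 6, 14),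
   (13, 0, 12), (13, 0, 3)]

/-- points -/
def ptsF : List (ℤ × ℤ × ℤ) :=
  [(0, 0, 0), (1, 0, 0), (0, 0, 1), (1, -1, 0), (0, 1, 0), (1, 0, 1), (0, 1, 1), (1, 0, -1),
   (0, 0, 2), (2, 0, 0), (1, -1, -1), (1, 1, 0), (0, -1, 0), (2, -1, 0), (2, -1, -1)]

/-- triangles -/
def trF : List (ℕ × ℕ × ℕ) :=
  [(0, 1, 4), (0, 1, 2), (1, 9, 11), (1, 0, 3), (1, 9, 5), (1, 0, 7), (2, 5, 6), (2, 5, 8),
   (3, 13, 1), (3, 12, 10), (4, 11, 6), (5, 2, 1), (9, 1, 13), (10, 14, 7), (10, 14, 3), (11, 4, 1),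
   (12, 3, 0), (13, 3, 14)]

/-- points -/
def ptsG : List (ℤ × ℤ × ℤ) :=
  [(0, 0, 0), (-1, 0, 0), (-1, -1, 0), (-1, 1, 0), (0, -1, 0), (-2, 0, 1), (0, -1, 1), (0, 1, 0),
   (-1, -1, 1), (-2, 0, 0), (-1, 0, -1), (-1, 0, 1), (0, 0, 1), (-1, 1, 1)]

/-- triangles -/
def trG : List (ℕ × ℕ × ℕ) :=
  [(0, 1, 4), (1, 0, 3), (1, 9, 2), (1, 0, 11), (1, 9, 10), (2, 4, 1), (2, 4, 8), (3, 7, 13),
   (6, 8, 4), (7, 3, 0), (8, 6, 11), (9, 1, 5), (11, 12, 13), (11, 5, 8), (11, 5, 1), (12, 11, 6),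
   (12, 11, 0)]

/-- points -/
def ptsH : List (ℤ × ℤ × ℤ) :=
  [(0, 0, 0), (0, -1, 0), (-1, 0, 0), (-1, -1, 0), (-1, -1, 1), (0, -1, 1), (0, -2, 0), (0, -1, -1),
   (0, -2, 1), (-1, -2, 0), (-1, -2, 1), (1, -1, 0), (-2, -1, 1), (1, -2, 0)]

/-- triangles -/
def trH : List (ℕ × ℕ × ℕ) :=
  [(0, 2, 1), (1, 11, 0), (1, 3, 6), (1, 11, 5), (1, 3, 7), (3, 1, 2), (3, 1, 4), (4, 12, 10),
   (4, 12, 3), (5, 4, 8), (5, 4, 1), (6, 13, 1), (6, 13, 8), (8, 10, 6), (9, 6, 3), (9, 6, 10),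
   (10, 8, 4), (11, 1, 13)]

end Pool.Agent.H79.OC
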