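import Pool.Agent.H79.OC.CDefs

set_option autoImplicit false

/-!
# Exchange of the two directions of a class
-/

namespace Pool.Agent.H79.OC

/-- Exchange of `sp` and `sm`. -/
def swp : Cl → Cl
  | .cl i sp sm dl mp mm tl => .cl i sm sp dl mp mm tl

end Pool.Agent.H79.OC
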