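import Pool.Agent.H79.OC.Pts
import Pool.Agent.H79.OC.Pts2
import Pool.Agent.H79.OC.VTab
import Pool.Agent.H79.OC.Swp

set_option autoImplicit false
set_option maxRecDepth 100000

/-!
# Certificates, part 25
-/

namespace Pool.Agent.H79.OC

open Cl

/-! ### Box 47: `16 ≤ 128 x ≤ 18`, `61 ≤ 128 y ≤ 64` -/

/-- certificate -/
def ct47 : Cert where
  pts := pts14
  g := 26236
  al := [(0, -49), (1, 1667), (2, 1667), (3, 18664), (4, 6672), (5, 7865), (6, 7865), (7, -1553), (8, 9539), (9, 1345), (10, 1345), (11, -1979), (12, 2493), (13, 2493)]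
  be := [
    (1, 0, 3710), (2, 0, 3710), (2, 1, -3419), (3, 0, -2226), (3, 1, -3243), (3, 2, -3243), (4, 0, 4343),
    (4, 1, 4910), (4, 2, 4910), (4, 3, -10611), (5, 0, 142), (5, 1, 9665), (5, 2, -1636), (5, 3, -1769),
    (5, 4, 120), (6, 0, 142), (6, 1, -1636), (6, 2, 9665), (6, 3, -1769), (6, 4, 120), (6, 5, -7674),
    (7, 0, 223), (7, 1, 1795), (7, 2, 1795), (7, 3, 5318), (7, 4, 1725), (7, 5, 3005), (7, 6, 3005),
    (8, 0, 1266), (8, 1, -240), (8, 2, -240), (8, 3, -5943), (8, 4, -1597), (8, 5, -3172), (8, 6, -3172),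
    (8, 7, -2917), (9, 0, -462), (9, 1, 66), (9, 2, -157), (9, 3, -1278), (9, 4, -296), (9, 5, -233),
    (9, 6, 513), (9, 7, 3062), (9, 8, 1061), (10, 0, -462), (10, 1, -157), (10, 2, 66), (10, 3, -1278),
    (10, 4, -296), (10, 5, 513), (10, 6, -233), (10, 7, 3062), (10, 8, 1061), (10, 9, -2502), (11, 0, -415),
    (11, 1, 606), (11, 2, 606), (11, 3, 969), (11, 4, 607), (11, 5, -29), (11, 6, -29), (11, 7, 6164),
    (11, 8, 502), (11, 9, 1643), (11, 10, 1643), (12, 0, 817), (12, 1, -685), (12, 2, -99), (12, 3, -2748),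
    (12, 4, -1004), (12, 5, -1607), (12, 7, -109), (12, 8, 307), (12, 9, -3148), (12, 10, 235), (12, 11, -532),
    (13, 0, 817), (13, 1, -99), (13, 2, -685), (13, 3, -2748), (13, 4, -1004), (13, 6, -1607), (13, 7, -109),
    (13, 8, 307), (13, 9, 235), (13, 10, -3148), (13, 11, -532)]
  ta := [
    ((3, 2, 1), (0, 1, 2), 2856), ((4, 5, 6), (0, 1, 2), -1027), ((7, 6, 5), (0, 1, 2), -506), ((8, 9, 10), (0, 1, 2), 1224),
    ((11, 10, 9), (0, 1, 2), -1322), ((5, 4, 12), (0, 1, 2), 47), ((6, 13, 4), (0, 1, 2), 47), ((3, 2, 0), (0, 1, 3), -1442),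
    ((4, 5, 7), (0, 1, 3), 2338), ((7, 6, 4), (0, 1, 3), 2338), ((8, 9, 11), (0, 1, 3), -896), ((11, 10, 8), (0, 1, 3), -896),
    ((6, 5, 3), (1, 2, 4), 2030), ((5, 6, 8), (1, 2, 4), 2044), ((10, 9, 7), (1, 2, 4), -786), ((4, 12, 1), (1, 2, 4), -1039),
    ((13, 4, 2), (1, 2, 4), -1039), ((7, 4, 3), (0, 3, 4), 1995), ((4, 7, 8), (0, 3, 4), 1589), ((11, 8, 7), (0, 3, 4), -2553),
    ((6, 4, 3), (1, 3, 4), 2603), ((5, 7, 8), (1, 3, 4), -204), ((10, 8, 7), (1, 3, 4), -1252), ((5, 4, 3), (2, 3, 4), 2603),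
    ((6, 7, 8), (2, 3, 4), -204), ((9, 8, 7), (2, 3, 4), -1252), ((5, 4, 0), (0, 1, 5), -2054), ((2, 3, 7), (0, 1, 5), -1499),
    ((7, 6, 2), (0, 1, 5), -872), ((4, 5, 9), (0, 1, 5), 194), ((9, 8, 4), (0, 1, 5), 408), ((6, 7, 11), (0, 1, 5), -1400),
    ((11, 10, 6), (0, 1, 5), 323), ((13, 6, 10), (0, 1, 5), 8111), ((7, 5, 2), (0, 2, 5), -1582), ((4, 6, 9), (0, 2, 5), 356),
    ((11, 9, 6), (0, 2, 5), 252), ((5, 12, 0), (0, 2, 5), -440), ((10, 8, 13), (0, 2, 5), 1034), ((6, 5, 2), (1, 2, 5), -1526),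
    ((5, 6, 9), (1, 2, 5), -1940), ((10, 9, 6), (1, 2, 5), 459), ((4, 12, 0), (1, 2, 5), 818), ((4, 13, 8), (1, 2, 5), 1525),
    ((7, 4, 2), (0, 3, 5), -1670), ((4, 7, 9), (0, 3, 5), -1118), ((11, 8, 6), (0, 3, 5), 1524), ((5, 4, 2), (2, 3, 5), -77),
    ((6, 7, 9), (2, 3, 5), -1487), ((9, 8, 6), (2, 3, 5), -2216), ((0, 1, 12), (2, 3, 5), -1037), ((13, 6, 8), (2, 3, 5), 4754),
    ((7, 6, 1), (0, 1, 6), -1582), ((4, 5, 10), (0, 1, 6), 356), ((11, 10, 5), (0, 1, 6), 252), ((9, 8, 12), (0, 1, 6), 1034),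
    ((6, 13, 0), (0, 1, 6), -440), ((6, 4, 0), (0, 2, 6), -2054), ((1, 3, 7), (0, 2, 6), -1499), ((7, 5, 1), (0, 2, 6), -872),
    ((4, 6, 10), (0, 2, 6), 194), ((10, 8, 4), (0, 2, 6), 408), ((5, 7, 11), (0, 2, 6), -1400), ((11, 9, 5), (0, 2, 6), 323),
    ((12, 5, 9), (0, 2, 6), 8111), ((6, 5, 1), (1, 2, 6), -1526), ((5, 6, 10), (1, 2, 6), -1940), ((10, 9, 5), (1, 2, 6), 459),
    ((12, 4, 8), (1, 2, 6), 1525), ((13, 4, 0), (1, 2, 6), 818), ((7, 4, 1), (0, 3, 6), -1670), ((4, 7, 10), (0, 3, 6), -1118),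
    ((11, 8, 5), (0, 3, 6), 1524), ((6, 4, 1), (1, 3, 6), -77), ((5, 7, 10), (1, 3, 6), -1487), ((10, 8, 5), (1, 3, 6), -2216),
    ((12, 5, 8), (1, 3, 6), 4754), ((0, 2, 13), (1, 3, 6), -1037), ((1, 2, 7), (6, 5, 0), 561), ((10, 9, 4), (6, 5, 0), 704),
    ((5, 6, 11), (6, 5, 0), -274), ((12, 4, 9), (6, 5, 0), -289), ((4, 13, 10), (6, 5, 0), -289), ((7, 6, 0), (0, 1, 7), 1025),
    ((4, 5, 11), (0, 1, 7), 326), ((11, 10, 4), (0, 1, 7), -187), ((7, 5, 0), (0, 2, 7), 1025), ((4, 6, 11), (0, 2, 7), 326),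
    ((11, 9, 4), (0, 2, 7), -187), ((7, 4, 0), (0, 3, 7), -1484), ((4, 7, 11), (0, 3, 7), -1331), ((11, 8, 4), (0, 3, 7), 1815),
    ((9, 8, 1), (0, 1, 8), -600), ((2, 3, 10), (0, 1, 8), 687), ((11, 10, 3), (0, 1, 8), -47), ((1, 3, 9), (0, 2, 8), 687),
    ((10, 8, 2), (0, 2, 8), -600), ((11, 9, 3), (0, 2, 8), -47), ((10, 9, 3), (1, 2, 8), -153), ((11, 8, 3), (0, 3, 8), -30),
    ((10, 8, 3), (1, 3, 8), -398), ((9, 8, 3), (2, 3, 8), -398), ((1, 5, 9), (0, 4, 8), 2868), ((2, 6, 10), (0, 4, 8), 2868),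
    ((3, 7, 11), (0, 4, 8), -1728), ((8, 5, 1), (1, 4, 8), -1190), ((3, 6, 10), (1, 4, 8), 648), ((10, 7, 3), (1, 4, 8), 312),
    ((8, 6, 2), (2, 4, 8), -1190), ((3, 5, 9), (2, 4, 8), 648), ((9, 7, 3), (2, 4, 8), 312), ((8, 7, 3), (3, 4, 8), -2759),
    ((1, 4, 9), (8, 5, 0), -539), ((10, 7, 2), (8, 5, 0), 278), ((3, 6, 11), (8, 5, 0), -308), ((2, 13, 10), (8, 5, 0), 1291),
    ((9, 6, 3), (2, 5, 8), -164), ((8, 13, 2), (2, 5, 8), -354), ((9, 7, 1), (8, 6, 0), 278), ((2, 4, 10), (8, 6, 0), -539),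
    ((3, 5, 11), (8, 6, 0), -308), ((1, 12, 9), (8, 6, 0), 1291), ((3, 5, 10), (8, 6, 1), -164), ((1, 12, 8), (8, 6, 1), -354),
    ((3, 4, 11), (8, 7, 0), -377), ((3, 4, 10), (8, 7, 1), 128), ((3, 4, 9), (8, 7, 2), 128), ((9, 8, 0), (0, 1, 9), 270),
    ((2, 3, 11), (0, 1, 9), 238), ((11, 10, 2), (0, 1, 9), -299), ((11, 9, 2), (0, 2, 9), 120), ((10, 9, 2), (1, 2, 9), -195),
    ((11, 8, 2), (0, 3, 9), -492), ((9, 8, 2), (2, 3, 9), -363), ((9, 5, 0), (0, 4, 9), 549), ((2, 6, 11), (0, 4, 9), -719),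
    ((11, 7, 2), (0, 4, 9), -117), ((9, 7, 2), (2, 4, 9), -318), ((9, 6, 2), (2, 5, 9), 591), ((2, 5, 11), (9, 6, 0), -176),
    ((0, 12, 9), (9, 6, 0), -4), ((2, 5, 10), (9, 6, 1), 114), ((0, 12, 8), (9, 6, 1), -114), ((8, 13, 0), (9, 6, 1), -114),
    ((2, 4, 11), (9, 7, 0), -380), ((11, 10, 1), (0, 1, 10), 120), ((10, 8, 0), (0, 2, 10), 270), ((1, 3, 11), (0, 2, 10), 238),
    ((11, 9, 1), (0, 2, 10), -299), ((10, 9, 1), (1, 2, 10), -195), ((11, 8, 1), (0, 3, 10), -492), ((10, 8, 1), (1, 3, 10), -363),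
    ((10, 6, 0), (0, 4, 10), 549), ((1, 5, 11), (0, 4, 10), -719), ((11, 7, 1), (0, 4, 10), -117), ((10, 7, 1), (1, 4, 10), -318),
    ((11, 6, 1), (0, 5, 10), -176), ((10, 13, 0), (0, 5, 10), -4), ((10, 6, 1), (1, 5, 10), -591), ((1, 4, 11), (10, 7, 0), -380),
    ((1, 2, 11), (10, 9, 0), 132), ((11, 10, 0), (0, 1, 11), -131), ((11, 9, 0), (0, 2, 11), -131), ((11, 8, 0), (0, 3, 11), -118),
    ((11, 7, 0), (0, 4, 11), -51), ((5, 12, 2), (0, 2, 12), 588), ((4, 12, 2), (1, 2, 12), -88), ((5, 12, 3), (1, 3, 12), -2513),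
    ((12, 6, 9), (6, 12, 0), 1191), ((12, 6, 8), (6, 12, 1), -983), ((6, 5, 12), (12, 4, 6), -318), ((12, 7, 9), (7, 12, 1), 423),
    ((10, 9, 12), (12, 4, 10), 532), ((10, 8, 12), (12, 5, 10), -78), ((11, 9, 12), (12, 5, 11), 168), ((6, 13, 1), (0, 1, 13), 588),
    ((13, 4, 1), (1, 2, 13), -88), ((6, 13, 3), (2, 3, 13), -2513), ((5, 13, 10), (13, 5, 0), 1191), ((5, 13, 8), (13, 5, 2), -983),
    ((6, 13, 5), (4, 5, 13), -318), ((13, 7, 10), (7, 13, 2), 423), ((10, 9, 13), (4, 13, 9), 532), ((9, 8, 13), (13, 6, 9), -78),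
    ((11, 10, 13), (13, 6, 11), 168), ((12, 13, 8), (13, 12, 0), 313)]
  tr := tr14
  big := 32768

theorem ct47_valid : validC ct47 = true := by decide +kernel

theorem ct47_const : constOK ct47 13356 = true := by decide +kernel

/-- classes -/
def cs47 : List Cl := [
 cl 0 0 1 1 9378 0 169, cl 0 0 2 0 1 0 237, cl 1 0 0 0 33092 0 119, cl 1 0 1 1 0 3072 108,
 cl 1 0 2 0 830 0 106, cl 2 0 0 0 2367 0 84, cl 2 0 1 1 288 0 81, cl 2 0 2 0 0 415 79,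
 cl 1 0 0 2 2 0 101, cl 0 0 0 2 0 15603 122, cl 1 1 0 1 4692 0 120, cl 2 1 0 1 0 3036 86,
 cl 2 0 0 2 0 314 80, cl 1 1 0 3 0 198 92, cl 1 2 0 0 0 13528 140, cl 2 2 0 0 0 5943 91,
 cl 1 2 0 2 0 5496 109, cl 0 0 1 3 0 0 99, cl 0 0 2 2 0 218 120, cl 1 0 1 3 470 0 88,
 cl 1 0 2 2 0 1064 95, cl 0 0 0 4 0 0 86]

theorem ct47_link : linkOK ct47 (cs47.map swp) = true := by decide +kernel

theorem cs47_tail0 : tailOK cs47 16 1 61 13356 = true := by decide +kernel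

theorem cs47_grid0 : gridOK vtTree cs47 16 1 61 3 11391579642 0 21775 13356 = true := by
  decide +kernel

theorem cs47_tail1 : tailOK cs47 17 1 63 13356 = true := by decide +kernel

theorem cs47_grid1 : gridOK vtTree cs47 17 1 63 1 11391579642 0 21775 13356 = true := by
  decide +kernel

/-! ### Box 48: `0 ≤ 128 x ≤ 3`, `112 ≤ 128 y ≤ 115` -/

/-- certificate -/
def ct48 : Cert where
  pts := pts14
  g := 28353
  al := [(0, -513), (1, -804), (2, -804), (3, 13661), (4, 12982), (5, 10984), (6, 10984), (7, 4425), (8, 12235), (9, 980), (10, 980), (11, 106), (12, -2785), (13, -2785)]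
  be := [
    (1, 0, 2291), (2, 0, 2291), (2, 1, 980), (3, 0, 1453), (3, 1, 2463), (3, 2, 2463), (4, 0, 2023),
    (4, 1, 3518), (4, 2, 3518), (4, 3, -13625), (5, 0, 90), (5, 1, 8672), (5, 2, -2903), (5, 3, -1103),
    (5, 4, -1049), (6, 0, 90), (6, 1, -2903), (6, 2, 8672), (6, 3, -1103), (6, 4, -1049), (6, 5, -12525),
    (7, 0, 460), (7, 1, 1600), (7, 2, 1600), (7, 3, 6651), (7, 4, -972), (7, 5, -3312), (7, 6, -3312),
    (8, 0, 1084), (8, 1, -503), (8, 2, -503), (8, 3, -4712), (8, 4, -128), (8, 5, -3622), (8, 6, -3622),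
    (8, 7, -8122), (9, 0, -668), (9, 1, -868), (9, 3, -1008), (9, 4, -1312), (9, 5, 2254), (9, 6, 1180),
    (9, 7, 2250), (9, 8, 2188), (10, 0, -668), (10, 2, -868), (10, 3, -1008), (10, 4, -1312), (10, 5, 1180),
    (10, 6, 2254), (10, 7, 2250), (10, 8, 2188), (10, 9, 674), (11, 1, 668), (11, 2, 668), (11, 3, -401),
    (11, 4, -460), (11, 5, -468), (11, 6, -468), (11, 7, 590), (11, 8, 841), (11, 9, 1393), (11, 10, 1393),
    (12, 0, 749), (12, 1, 238), (12, 2, 970), (12, 3, -1022), (12, 4, 68), (12, 5, -447), (12, 6, 1581),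
    (12, 7, 2973), (12, 8, 974), (12, 9, -1004), (12, 10, -304), (13, 0, 749), (13, 1, 970), (13, 2, 238),
    (13, 3, -1022), (13, 4, 68), (13, 5, 1581), (13, 6, -447), (13, 7, 2973), (13, 8, 974), (13, 9, -304),
    (13, 10, -1004), (13, 12, -915)]
  ta := [
    ((3, 2, 1), (0, 1, 2), -1390), ((4, 5, 6), (0, 1, 2), 1790), ((7, 6, 5), (0, 1, 2), 2216), ((8, 9, 10), (0, 1, 2), 163),
    ((11, 10, 9), (0, 1, 2), -1148), ((5, 4, 12), (0, 1, 2), -476), ((6, 13, 4), (0, 1, 2), -476), ((3, 2, 0), (0, 1, 3), -1663),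
    ((4, 5, 7), (0, 1, 3), 3135), ((7, 6, 4), (0, 1, 3), 3135), ((8, 9, 11), (0, 1, 3), -1472), ((11, 10, 8), (0, 1, 3), -1472),
    ((6, 5, 3), (1, 2, 4), 3617), ((5, 6, 8), (1, 2, 4), 2200), ((10, 9, 7), (1, 2, 4), -1006), ((4, 12, 1), (1, 2, 4), -1771),
    ((13, 4, 2), (1, 2, 4), -1771), ((7, 4, 3), (0, 3, 4), 116), ((4, 7, 8), (0, 3, 4), -1532), ((11, 8, 7), (0, 3, 4), 52),
    ((6, 4, 3), (1, 3, 4), 1959), ((5, 7, 8), (1, 3, 4), 545), ((10, 8, 7), (1, 3, 4), -1846), ((5, 4, 3), (2, 3, 4), 1959),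
    ((6, 7, 8), (2, 3, 4), 545), ((9, 8, 7), (2, 3, 4), -1846), ((5, 4, 0), (0, 1, 5), -2480), ((2, 3, 7), (0, 1, 5), -3247),
    ((7, 6, 2), (0, 1, 5), 2592), ((4, 5, 9), (0, 1, 5), 596), ((9, 8, 4), (0, 1, 5), -1150), ((6, 7, 11), (0, 1, 5), -420),
    ((11, 10, 6), (0, 1, 5), -537), ((13, 6, 10), (0, 1, 5), 7100), ((7, 5, 2), (0, 2, 5), 455), ((4, 6, 9), (0, 2, 5), -1201),
    ((11, 9, 6), (0, 2, 5), -136), ((5, 12, 0), (0, 2, 5), -509), ((10, 8, 13), (0, 2, 5), 1301), ((6, 5, 2), (1, 2, 5), -857),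
    ((5, 6, 9), (1, 2, 5), -1791), ((10, 9, 6), (1, 2, 5), -949), ((4, 12, 0), (1, 2, 5), 606), ((4, 13, 8), (1, 2, 5), 2047),
    ((7, 4, 2), (0, 3, 5), 784), ((4, 7, 9), (0, 3, 5), 179), ((11, 8, 6), (0, 3, 5), -311), ((5, 4, 2), (2, 3, 5), -1171),
    ((6, 7, 9), (2, 3, 5), -1882), ((9, 8, 6), (2, 3, 5), -2151), ((0, 1, 12), (2, 3, 5), -1168), ((13, 6, 8), (2, 3, 5), 6843),
    ((7, 6, 1), (0, 1, 6), 455), ((4, 5, 10), (0, 1, 6), -1201), ((11, 10, 5), (0, 1, 6), -136), ((9, 8, 12), (0, 1, 6), 1301),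
    ((6, 13, 0), (0, 1, 6), -509), ((6, 4, 0), (0, 2, 6), -2480), ((1, 3, 7), (0, 2, 6), -3247), ((7, 5, 1), (0, 2, 6), 2592),
    ((4, 6, 10), (0, 2, 6), 596), ((10, 8, 4), (0, 2, 6), -1150), ((5, 7, 11), (0, 2, 6), -420), ((11, 9, 5), (0, 2, 6), -537),
    ((12, 5, 9), (0, 2, 6), 7100), ((6, 5, 1), (1, 2, 6), -857), ((5, 6, 10), (1, 2, 6), -1791), ((10, 9, 5), (1, 2, 6), -949),
    ((12, 4, 8), (1, 2, 6), 2047), ((13, 4, 0), (1, 2, 6), 606), ((7, 4, 1), (0, 3, 6), 784), ((4, 7, 10), (0, 3, 6), 179),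
    ((11, 8, 5), (0, 3, 6), -311), ((6, 4, 1), (1, 3, 6), -1171), ((5, 7, 10), (1, 3, 6), -1882), ((10, 8, 5), (1, 3, 6), -2151),
    ((12, 5, 8), (1, 3, 6), 6843), ((0, 2, 13), (1, 3, 6), -1168), ((1, 2, 7), (6, 5, 0), -1491), ((10, 9, 4), (6, 5, 0), 79),
    ((5, 6, 11), (6, 5, 0), 752), ((12, 4, 9), (6, 5, 0), -142), ((4, 13, 10), (6, 5, 0), -142), ((7, 6, 0), (0, 1, 7), 371),
    ((4, 5, 11), (0, 1, 7), -214), ((11, 10, 4), (0, 1, 7), 336), ((7, 5, 0), (0, 2, 7), 371), ((4, 6, 11), (0, 2, 7), -214),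
    ((11, 9, 4), (0, 2, 7), 336), ((7, 4, 0), (0, 3, 7), -1529), ((4, 7, 11), (0, 3, 7), 1214), ((11, 8, 4), (0, 3, 7), 71),
    ((9, 8, 1), (0, 1, 8), -419), ((2, 3, 10), (0, 1, 8), 189), ((11, 10, 3), (0, 1, 8), 141), ((1, 3, 9), (0, 2, 8), 189),
    ((10, 8, 2), (0, 2, 8), -419), ((11, 9, 3), (0, 2, 8), 141), ((10, 9, 3), (1, 2, 8), 278), ((11, 8, 3), (0, 3, 8), 355),
    ((10, 8, 3), (1, 3, 8), -13), ((9, 8, 3), (2, 3, 8), -13), ((1, 5, 9), (0, 4, 8), 2064), ((2, 6, 10), (0, 4, 8), 2064),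
    ((3, 7, 11), (0, 4, 8), -1129), ((8, 5, 1), (1, 4, 8), 454), ((3, 6, 10), (1, 4, 8), 1455), ((10, 7, 3), (1, 4, 8), -1023),
    ((8, 6, 2), (2, 4, 8), 454), ((3, 5, 9), (2, 4, 8), 1455), ((9, 7, 3), (2, 4, 8), -1023), ((8, 7, 3), (3, 4, 8), -1226),
    ((1, 4, 9), (8, 5, 0), 739), ((10, 7, 2), (8, 5, 0), -94), ((3, 6, 11), (8, 5, 0), -48), ((2, 13, 10), (8, 5, 0), -73),
    ((9, 6, 3), (2, 5, 8), -679), ((8, 13, 2), (2, 5, 8), 177), ((9, 7, 1), (8, 6, 0), -94), ((2, 4, 10), (8, 6, 0), 739),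
    ((3, 5, 11), (8, 6, 0), -48), ((1, 12, 9), (8, 6, 0), -73), ((3, 5, 10), (8, 6, 1), -679), ((1, 12, 8), (8, 6, 1), 177),
    ((3, 4, 11), (8, 7, 0), 215), ((3, 4, 10), (8, 7, 1), 394), ((3, 4, 9), (8, 7, 2), 394), ((9, 8, 0), (0, 1, 9), -180),
    ((2, 3, 11), (0, 1, 9), -271), ((11, 10, 2), (0, 1, 9), 75), ((11, 9, 2), (0, 2, 9), -246), ((10, 9, 2), (1, 2, 9), -83),
    ((11, 8, 2), (0, 3, 9), -135), ((9, 8, 2), (2, 3, 9), -45), ((9, 5, 0), (0, 4, 9), -412), ((2, 6, 11), (0, 4, 9), -240),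
    ((11, 7, 2), (0, 4, 9), 99), ((9, 7, 2), (2, 4, 9), 109), ((9, 6, 2), (2, 5, 9), -1222), ((2, 5, 11), (9, 6, 0), -337),
    ((0, 12, 9), (9, 6, 0), -201), ((2, 5, 10), (9, 6, 1), 703), ((0, 12, 8), (9, 6, 1), -703), ((8, 13, 0), (9, 6, 1), -703),
    ((2, 4, 11), (9, 7, 0), -284), ((11, 10, 1), (0, 1, 10), -246), ((10, 8, 0), (0, 2, 10), -180), ((1, 3, 11), (0, 2, 10), -271),
    ((11, 9, 1), (0, 2, 10), 75), ((10, 9, 1), (1, 2, 10), -83), ((11, 8, 1), (0, 3, 10), -135), ((10, 8, 1), (1, 3, 10), -45),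
    ((10, 6, 0), (0, 4, 10), -412), ((1, 5, 11), (0, 4, 10), -240), ((11, 7, 1), (0, 4, 10), 99), ((10, 7, 1), (1, 4, 10), 109),
    ((11, 6, 1), (0, 5, 10), -337), ((10, 13, 0), (0, 5, 10), -201), ((10, 6, 1), (1, 5, 10), 1222), ((1, 4, 11), (10, 7, 0), -284),
    ((1, 2, 11), (10, 9, 0), -56), ((5, 12, 2), (0, 2, 12), 742), ((4, 12, 2), (1, 2, 12), -866), ((5, 12, 3), (1, 3, 12), -2852),
    ((12, 6, 9), (6, 12, 0), -22), ((12, 6, 8), (6, 12, 1), -1014), ((6, 5, 12), (12, 4, 6), 78), ((12, 7, 9), (7, 12, 1), 1062),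
    ((10, 9, 12), (12, 4, 10), -255), ((10, 8, 12), (12, 5, 10), 130), ((6, 13, 1), (0, 1, 13), 742), ((13, 4, 1), (1, 2, 13), -866),
    ((6, 13, 3), (2, 3, 13), -2852), ((5, 13, 10), (13, 5, 0), -22), ((5, 13, 8), (13, 5, 2), -1014), ((6, 13, 5), (4, 5, 13), 78),
    ((13, 7, 10), (7, 13, 2), 1062), ((10, 9, 13), (4, 13, 9), -255), ((9, 8, 13), (13, 6, 9), 130), ((12, 13, 8), (13, 12, 0), -915)]
  tr := tr14
  big := 65536

theorem ct48_valid : validC ct48 = true := by decide +kernel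

theorem ct48_const : constOK ct48 11829 = true := by decide +kernel

/-- classes -/
def cs48 : List Cl := [
 cl 0 0 1 1 7054 0 127, cl 0 0 2 0 1322 0 423, cl 1 0 0 0 30988 0 119, cl 1 0 1 1 0 2188 103,
 cl 1 0 2 0 0 0 119, cl 2 0 0 0 0 1053 84, cl 2 0 1 1 0 0 81, cl 2 0 2 0 0 0 84,
 cl 1 0 0 2 0 0 84, cl 0 0 0 2 0 10735 90, cl 1 1 0 1 2562 0 104, cl 2 1 0 1 0 3022 81,
 cl 2 0 0 2 0 0 73, cl 1 1 0 3 1940 0 71, cl 1 2 0 0 0 21747 122, cl 2 2 0 0 0 4712 85,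
 cl 1 2 0 2 0 2044 84, cl 0 0 1 3 3162 0 74, cl 0 0 2 2 5946 0 90, cl 1 0 1 3 0 608 71,
 cl 1 0 2 2 0 0 84, cl 0 0 0 4 0 915 64]

theorem ct48_link : linkOK ct48 (cs48.map swp) = true := by decide +kernel

theorem cs48_tail0 : tailOK cs48 0 1 112 11829 = true := by decide +kernel

theorem cs48_grid0 : gridOK vtTree cs48 0 1 112 3 5795322771 0 26211 11829 = true := by
  decide +kernel

theorem cs48_tail1 : tailOK cs48 1 1 112 11829 = true := by decide +kernel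

theorem cs48_grid1 : gridOK vtTree cs48 1 1 112 2 5795322771 0 26211 11829 = true := by
  decide +kernel

theorem cs48_tail2 : tailOK cs48 2 1 112 11829 = true := by decide +kernel

theorem cs48_grid2 : gridOK vtTree cs48 2 1 112 1 5795322771 0 26211 11829 = true := by
  decide +kernel

end Pool.Agent.H79.OC
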