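import Pool.Agent.H79.OC.Pts
import Pool.Agent.H79.OC.Pts2
import Pool.Agent.H79.OC.VTab
import Pool.Agent.H79.OC.Swp

set_option autoImplicit false
set_option maxRecDepth 100000

/-!
# Certificates, part 26
-/

namespace Pool.Agent.H79.OC

open Cl

/-! ### Box 49: `16 ≤ 128 x ≤ 29`, `64 ≤ 128 y ≤ 80` -/

/-- certificate -/
def ct49 : Cert where
  pts := ptsA
  g := 15424
  al := [(0, 715), (1, -3369), (2, 7003), (3, -4073), (4, 3073), (5, 1375), (6, -3761), (7, 1036), (8, 648), (9, 9517), (10, 4456), (11, 2922), (12, -609), (13, 2135)]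
  be := [
    (1, 0, 16518), (2, 0, -1316), (2, 1, 2704), (3, 0, 6648), (3, 1, 205), (3, 2, 179), (4, 0, 969),
    (4, 1, 7423), (4, 2, -1507), (4, 3, 2588), (5, 0, -945), (5, 1, -4669), (5, 2, 548), (5, 3, 1231),
    (5, 4, 3201), (6, 0, 5713), (6, 1, 2980), (6, 2, 385), (6, 3, 2173), (6, 4, 1752), (6, 5, 482),
    (7, 0, -478), (7, 1, -1536), (7, 2, -3481), (7, 3, -413), (7, 4, 2145), (7, 5, 252), (7, 6, 1405),
    (8, 0, -3732), (8, 1, 1902), (8, 2, -482), (8, 3, 2225), (8, 4, 121), (8, 5, 3501), (8, 6, 3581),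
    (8, 7, 311), (9, 0, 2401), (9, 1, 2785), (9, 2, -5547), (9, 3, 7794), (9, 4, -4218), (9, 5, -5105),
    (9, 6, -696), (9, 7, -3659), (9, 8, 609), (10, 0, -3852), (10, 1, -1076), (10, 2, -2931), (10, 3, 2024),
    (10, 4, -292), (10, 5, 133), (10, 6, 272), (10, 7, 1501), (10, 8, -1061), (10, 9, -2352), (11, 0, -1343),
    (11, 1, 379), (11, 2, -1578), (11, 3, -149), (11, 4, -1043), (11, 5, 715), (11, 6, 1150), (11, 7, -784),
    (11, 8, -1283), (11, 9, -6903), (11, 10, -1097), (12, 0, -2278), (12, 1, 6785), (12, 2, 1217), (12, 3, 1225),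
    (12, 4, 3266), (12, 5, 2896), (12, 6, 552), (12, 7, -749), (12, 8, 149), (12, 9, -2513), (12, 10, -471),
    (12, 11, -465), (13, 0, -431), (13, 1, -1434), (13, 2, 1372), (13, 3, -115), (13, 4, 478), (13, 5, -1618),
    (13, 6, -85), (13, 7, 528), (13, 8, 818), (13, 9, -1562), (13, 10, -161), (13, 11, -414), (13, 12, -438)]
  ta := [
    ((1, 9, 3), (3, 0, 1), -839), ((8, 4, 12), (3, 0, 1), 342), ((12, 5, 8), (3, 0, 1), -1310), ((11, 9, 13), (3, 0, 1), 5798),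
    ((8, 4, 1), (3, 0, 2), 80), ((1, 9, 8), (3, 0, 2), -749), ((2, 10, 3), (3, 0, 2), -1054), ((11, 9, 7), (3, 0, 2), 3620),
    ((3, 8, 1), (1, 2, 3), -100), ((12, 1, 8), (1, 2, 3), -434), ((13, 7, 11), (1, 2, 3), -20), ((1, 2, 4), (0, 4, 2), -2661),
    ((9, 5, 7), (0, 4, 2), 1023), ((3, 8, 10), (0, 4, 2), 552), ((9, 10, 8), (0, 4, 2), 659), ((13, 7, 5), (0, 4, 2), 535),
    ((4, 8, 3), (3, 0, 4), -1259), ((10, 2, 1), (3, 0, 4), 1150), ((1, 9, 10), (3, 0, 4), 1042), ((11, 9, 5), (3, 0, 4), 2414),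
    ((9, 1, 12), (3, 0, 4), -1333), ((12, 5, 9), (3, 0, 4), 18), ((1, 10, 3), (3, 4, 1), -521), ((12, 9, 8), (3, 4, 1), 583),
    ((11, 5, 13), (3, 4, 1), -273), ((1, 10, 8), (3, 4, 2), 193), ((11, 5, 7), (3, 4, 2), 257), ((0, 8, 5), (5, 1, 0), 148),
    ((6, 4, 12), (5, 1, 0), -689), ((2, 9, 13), (5, 1, 0), -606), ((2, 5, 13), (5, 2, 0), -452), ((2, 9, 5), (5, 1, 2), 917),
    ((12, 5, 0), (3, 0, 5), 140), ((0, 6, 12), (3, 0, 5), 584), ((10, 2, 13), (3, 0, 5), 443), ((0, 8, 12), (5, 1, 3), -418),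
    ((10, 11, 13), (5, 1, 3), -158), ((5, 9, 0), (0, 4, 5), 3104), ((12, 1, 6), (0, 4, 5), -1804), ((2, 1, 13), (0, 4, 5), -1681),
    ((13, 7, 2), (0, 4, 5), -570), ((6, 4, 1), (5, 1, 4), -3209), ((9, 2, 0), (5, 1, 4), 92), ((2, 9, 7), (5, 1, 4), 1367),
    ((0, 8, 9), (5, 1, 4), -528), ((11, 10, 3), (5, 1, 4), -239), ((1, 5, 13), (5, 1, 4), 1614), ((2, 5, 7), (5, 2, 4), 265),
    ((5, 11, 3), (3, 4, 5), -442), ((12, 9, 0), (3, 4, 5), 1235), ((10, 1, 13), (3, 4, 5), 300), ((1, 9, 4), (0, 6, 2), -2591),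
    ((9, 1, 7), (0, 6, 2), 76), ((8, 4, 9), (0, 6, 2), 95), ((2, 10, 0), (0, 6, 2), 1922), ((3, 0, 10), (0, 6, 2), -621),
    ((9, 11, 8), (0, 6, 2), 995), ((5, 12, 13), (0, 6, 2), 1076), ((2, 1, 7), (1, 2, 6), 2993), ((0, 4, 9), (1, 2, 6), -1151),
    ((5, 9, 4), (1, 2, 6), -1051), ((9, 10, 0), (1, 2, 6), 272), ((3, 8, 11), (1, 2, 6), -90), ((13, 7, 1), (1, 2, 6), -703),
    ((1, 12, 13), (1, 2, 6), 1933), ((1, 9, 11), (6, 0, 3), 2788), ((1, 11, 3), (3, 6, 1), -436), ((11, 1, 13), (3, 6, 1), 655),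
    ((11, 1, 7), (3, 6, 2), 328), ((1, 11, 8), (3, 6, 2), -719), ((3, 0, 8), (0, 6, 4), -1330), ((4, 8, 0), (0, 6, 4), 4113),
    ((1, 9, 2), (0, 6, 4), -470), ((9, 1, 5), (0, 6, 4), 2690), ((10, 2, 9), (0, 6, 4), -70), ((9, 11, 10), (0, 6, 4), 270),
    ((12, 5, 1), (0, 6, 4), -1240), ((1, 5, 7), (6, 4, 2), -2063), ((9, 2, 4), (6, 4, 2), 625), ((0, 8, 10), (6, 4, 2), 460),
    ((11, 10, 8), (6, 4, 2), -272), ((11, 1, 5), (3, 6, 4), 1645), ((1, 11, 10), (3, 6, 4), -246), ((12, 5, 6), (0, 6, 5), -391),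
    ((6, 4, 5), (5, 1, 6), -453), ((0, 10, 7), (7, 1, 0), -1172), ((4, 9, 13), (7, 1, 0), 1826), ((13, 12, 4), (7, 1, 0), -2133),
    ((7, 9, 0), (0, 2, 7), 1161), ((4, 1, 13), (0, 2, 7), -661), ((13, 5, 4), (0, 2, 7), -337), ((8, 4, 13), (3, 0, 7), -252),
    ((8, 11, 13), (7, 1, 3), 143), ((13, 12, 8), (7, 1, 3), -944), ((7, 11, 3), (3, 2, 7), 228), ((8, 1, 13), (3, 2, 7), 168),
    ((13, 7, 4), (0, 4, 7), 115), ((4, 9, 7), (7, 1, 4), 1307), ((7, 5, 4), (4, 2, 7), -684), ((4, 2, 13), (7, 5, 0), -407),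
    ((8, 10, 13), (7, 5, 3), -105), ((6, 2, 7), (7, 1, 6), -901), ((5, 1, 8), (0, 8, 1), -192), ((9, 2, 3), (0, 8, 1), -1441),
    ((10, 11, 7), (0, 8, 1), 489), ((9, 2, 8), (0, 8, 2), -358), ((3, 8, 2), (1, 2, 8), -525), ((2, 10, 8), (8, 4, 2), 633),
    ((5, 9, 3), (3, 8, 5), 2826), ((12, 1, 0), (3, 8, 5), -3825), ((0, 4, 12), (3, 8, 5), 233), ((13, 7, 10), (3, 8, 5), -254),
    ((10, 9, 13), (3, 8, 5), 2183), ((4, 8, 6), (0, 6, 8), -2300), ((9, 11, 2), (0, 6, 8), 675), ((10, 2, 11), (0, 6, 8), 895),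
    ((11, 2, 3), (6, 8, 1), 252), ((2, 11, 7), (6, 8, 1), 165), ((11, 2, 8), (6, 8, 2), -521), ((1, 11, 2), (3, 6, 8), 384),
    ((8, 11, 7), (7, 1, 8), 311), ((13, 7, 8), (3, 8, 7), 95), ((8, 10, 7), (7, 5, 8), -596), ((1, 10, 0), (3, 4, 9), 406),
    ((10, 1, 7), (3, 4, 9), 735), ((5, 11, 8), (3, 4, 9), -262), ((12, 9, 4), (3, 4, 9), 168), ((9, 12, 13), (3, 4, 9), 2981),
    ((1, 9, 6), (0, 6, 9), -203), ((3, 0, 11), (0, 6, 9), 1061), ((9, 11, 0), (0, 6, 9), 602), ((6, 4, 9), (9, 2, 6), -234),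
    ((0, 8, 11), (9, 2, 6), -223), ((11, 10, 0), (9, 2, 6), 82), ((1, 11, 0), (3, 6, 9), -730), ((3, 10, 7), (7, 9, 3), -777),
    ((13, 5, 8), (7, 9, 3), -1015), ((8, 9, 13), (7, 9, 3), -422), ((11, 2, 0), (6, 8, 9), 308), ((9, 10, 4), (0, 4, 10), 144),
    ((1, 12, 7), (0, 4, 10), -486), ((13, 7, 12), (0, 4, 10), -184), ((3, 4, 10), (1, 10, 4), 135), ((9, 12, 7), (1, 10, 4), 889),
    ((8, 4, 10), (2, 10, 4), -653), ((5, 12, 7), (2, 10, 4), 204), ((12, 2, 6), (5, 10, 0), -911), ((2, 12, 13), (5, 10, 0), -207),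
    ((10, 11, 5), (5, 1, 10), 65), ((2, 9, 12), (5, 1, 10), -831), ((12, 5, 2), (10, 2, 5), -483), ((12, 2, 0), (5, 10, 3), 455),
    ((10, 5, 13), (5, 10, 3), -151), ((2, 12, 7), (5, 10, 4), 1345), ((2, 10, 6), (0, 6, 10), -1235), ((8, 4, 11), (0, 6, 10), -514),
    ((9, 11, 4), (0, 6, 10), 1470), ((3, 4, 11), (1, 10, 6), 806), ((5, 11, 4), (1, 10, 6), -1421), ((1, 11, 4), (3, 6, 10), 407),
    ((11, 10, 4), (6, 4, 10), -387), ((7, 12, 4), (4, 10, 7), 403), ((5, 10, 8), (10, 5, 7), -565), ((12, 2, 4), (10, 5, 7), 601),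
    ((11, 2, 4), (6, 8, 10), 113), ((12, 1, 2), (5, 9, 10), -2971), ((0, 4, 11), (9, 10, 6), -206), ((12, 9, 6), (5, 11, 0), 166),
    ((9, 11, 6), (0, 6, 11), -281), ((3, 6, 11), (1, 11, 6), -540), ((6, 8, 11), (11, 2, 6), -595), ((11, 10, 6), (6, 4, 11), 327),
    ((12, 5, 3), (3, 0, 12), -663), ((3, 8, 12), (12, 1, 3), 491), ((12, 9, 3), (3, 4, 12), -120), ((4, 10, 13), (7, 12, 0), -322),
    ((2, 11, 13), (6, 8, 12), 1071), ((10, 12, 13), (12, 10, 0), -521), ((10, 9, 12), (12, 1, 10), 703), ((12, 5, 10), (10, 2, 12), -427),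
    ((10, 12, 7), (12, 10, 4), 562), ((11, 9, 12), (12, 5, 11), 939), ((11, 12, 13), (12, 11, 8), -1552), ((0, 9, 13), (13, 1, 0), 240),
    ((13, 5, 0), (0, 2, 13), -210), ((3, 11, 13), (13, 1, 3), 628), ((13, 7, 0), (0, 4, 13), 99), ((3, 10, 13), (13, 5, 3), 84),
    ((13, 12, 6), (6, 2, 13), 1263), ((3, 8, 13), (13, 7, 3), -31), ((13, 12, 0), (0, 10, 13), -97)]
  tr := trA
  big := 32768

theorem ct49_valid : validC ct49 = true := by decide +kernel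

theorem ct49_const : constOK ct49 14368 = true := by decide +kernel

/-- classes -/
def cs49 : List Cl := [
 cl 1 0 0 0 31018 0 119, cl 1 1 0 1 6981 0 124, cl 0 0 1 1 14083 0 165, cl 1 0 0 2 2276 0 100,
 cl 2 2 0 0 0 0 96, cl 0 0 0 2 0 13293 119, cl 1 2 0 0 0 10942 161, cl 1 2 0 2 0 4355 111,
 cl 1 0 1 1 0 1268 107, cl 2 1 0 1 0 26 88, cl 0 0 2 0 0 286 237, cl 0 0 2 2 3902 0 117,
 cl 0 0 1 3 2551 0 97, cl 1 1 0 3 0 0 92, cl 1 0 2 0 1225 0 106, cl 2 0 0 0 0 115 84,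
 cl 2 3 0 1 3550 0 100, cl 1 3 0 1 0 1812 154, cl 1 3 0 3 1150 0 96, cl 2 2 0 2 226 0 88,
 cl 0 0 3 1 0 936 150]

theorem ct49_link : linkOK ct49 (cs49.map swp) = true := by decide +kernel

theorem cs49_tail0 : tailOK cs49 16 2 64 14368 = true := by decide +kernel

theorem cs49_grid0 : gridOK vtTree cs49 16 2 64 16 0 20782491732 27116 14368 = true := by
  decide +kernel

theorem cs49_tail1 : tailOK cs49 18 1 65 14368 = true := by decide +kernel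

theorem cs49_grid1 : gridOK vtTree cs49 18 1 65 15 0 20782491732 27116 14368 = true := by
  decide +kernel

theorem cs49_tail2 : tailOK cs49 19 1 66 14368 = true := by decide +kernel

theorem cs49_grid2 : gridOK vtTree cs49 19 1 66 14 0 20782491732 27116 14368 = true := by
  decide +kernel

theorem cs49_tail3 : tailOK cs49 20 1 68 14368 = true := by decide +kernel

theorem cs49_grid3 : gridOK vtTree cs49 20 1 68 12 0 20782491732 27116 14368 = true := by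
  decide +kernel

theorem cs49_tail4 : tailOK cs49 21 1 69 14368 = true := by decide +kernel

theorem cs49_grid4 : gridOK vtTree cs49 21 1 69 11 0 20782491732 27116 14368 = true := by
  decide +kernel

theorem cs49_tail5 : tailOK cs49 22 1 71 14368 = true := by decide +kernel

theorem cs49_grid5 : gridOK vtTree cs49 22 1 71 9 0 20782491732 27116 14368 = true := by
  decide +kernel

theorem cs49_tail6 : tailOK cs49 23 1 72 14368 = true := by decide +kernel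

theorem cs49_grid6 : gridOK vtTree cs49 23 1 72 8 0 20782491732 27116 14368 = true := by
  decide +kernel

theorem cs49_tail7 : tailOK cs49 24 1 74 14368 = true := by decide +kernel

theorem cs49_grid7 : gridOK vtTree cs49 24 1 74 6 0 20782491732 27116 14368 = true := by
  decide +kernel

theorem cs49_tail8 : tailOK cs49 25 1 75 14368 = true := by decide +kernel

theorem cs49_grid8 : gridOK vtTree cs49 25 1 75 5 0 20782491732 27116 14368 = true := by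
  decide +kernel

theorem cs49_tail9 : tailOK cs49 26 1 76 14368 = true := by decide +kernel

theorem cs49_grid9 : gridOK vtTree cs49 26 1 76 4 0 20782491732 27116 14368 = true := by
  decide +kernel

theorem cs49_tail10 : tailOK cs49 27 1 78 14368 = true := by decide +kernel

theorem cs49_grid10 : gridOK vtTree cs49 27 1 78 2 0 20782491732 27116 14368 = true := by
  decide +kernel

theorem cs49_tail11 : tailOK cs49 28 1 79 14368 = true := by decide +kernel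

theorem cs49_grid11 : gridOK vtTree cs49 28 1 79 1 0 20782491732 27116 14368 = true := by
  decide +kernel

/-! ### Box 50: `0 ≤ 128 x ≤ 16`, `80 ≤ 128 y ≤ 96` -/

/-- certificate -/
def ct50 : Cert where
  pts := ptsA
  g := 13875
  al := [(0, 1787), (1, 2231), (2, 1716), (3, 1384), (4, 4115), (5, -2106), (6, -3334), (7, 3000), (8, 820), (9, -1968), (10, 5857), (11, 627), (12, 1906), (13, 2116)]
  be := [
    (1, 0, 8527), (2, 0, -934), (2, 1, 105), (3, 0, 2136), (3, 1, -2013), (3, 2, 1690), (4, 0, 3190),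
    (4, 1, 4356), (4, 2, 1514), (4, 3, -3076), (5, 0, 1481), (5, 1, -8246), (5, 2, 1212), (5, 3, -25),
    (5, 4, 4536), (6, 0, 2687), (6, 1, 3722), (6, 2, 2699), (6, 3, 2308), (6, 4, 83), (6, 5, 756),
    (7, 0, 583), (7, 1, -4549), (7, 2, -4265), (7, 3, -1132), (7, 4, 752), (7, 5, -1182), (7, 6, 500),
    (8, 0, -3356), (8, 1, -783), (8, 2, 797), (8, 3, -38), (8, 4, 1502), (8, 5, 8168), (8, 6, 1645),
    (8, 7, -36), (9, 0, 2211), (9, 1, 4397), (9, 2, 1886), (9, 3, 4480), (9, 4, -1375), (9, 5, 3953),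
    (9, 6, 2083), (9, 7, 829), (9, 8, 3914), (10, 0, -4500), (10, 1, -326), (10, 2, -3803), (10, 3, 143),
    (10, 4, -2228), (10, 5, 2636), (10, 6, 185), (10, 7, 218), (10, 8, -3083), (10, 9, -1529), (11, 0, -3367),
    (11, 1, 1316), (11, 2, 548), (11, 3, 426), (11, 4, -1335), (11, 5, 2348), (11, 6, 1055), (11, 7, 320),
    (11, 8, -3794), (11, 9, -3586), (11, 10, 505), (12, 0, -684), (12, 1, 148), (12, 2, -486), (12, 3, 839),
    (12, 4, 1379), (12, 5, 2040), (12, 6, -1605), (12, 7, -448), (12, 8, 512), (12, 9, 2128), (12, 10, -1669),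
    (12, 11, -855), (13, 0, -255), (13, 1, -2611), (13, 2, 1618), (13, 3, -292), (13, 4, -1403), (13, 5, -2272),
    (13, 6, 36), (13, 7, -47), (13, 8, 1017), (13, 9, 3986), (13, 10, 780), (13, 11, 1429), (13, 12, -1846)]
  ta := [
    ((1, 9, 3), (3, 0, 1), 809), ((8, 4, 12), (3, 0, 1), -1700), ((12, 5, 8), (3, 0, 1), -1051), ((11, 9, 13), (3, 0, 1), 5267),
    ((8, 4, 1), (3, 0, 2), -812), ((1, 9, 8), (3, 0, 2), -1145), ((2, 10, 3), (3, 0, 2), 450), ((11, 9, 7), (3, 0, 2), 3187),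
    ((3, 8, 1), (1, 2, 3), -139), ((12, 1, 8), (1, 2, 3), -540), ((13, 7, 11), (1, 2, 3), -368), ((1, 2, 4), (0, 4, 2), -2317),
    ((9, 5, 7), (0, 4, 2), -909), ((3, 8, 10), (0, 4, 2), 1990), ((9, 10, 8), (0, 4, 2), 1125), ((13, 7, 5), (0, 4, 2), 562),
    ((4, 8, 3), (3, 0, 4), 166), ((10, 2, 1), (3, 0, 4), 827), ((1, 9, 10), (3, 0, 4), 1346), ((11, 9, 5), (3, 0, 4), 1919),
    ((9, 1, 12), (3, 0, 4), -250), ((12, 5, 9), (3, 0, 4), -2848), ((1, 10, 3), (3, 4, 1), -290), ((12, 9, 8), (3, 4, 1), -188),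
    ((11, 5, 13), (3, 4, 1), -153), ((1, 10, 8), (3, 4, 2), 734), ((11, 5, 7), (3, 4, 2), 75), ((0, 8, 5), (5, 1, 0), -732),
    ((6, 4, 12), (5, 1, 0), 1689), ((2, 9, 13), (5, 1, 0), -2349), ((2, 5, 13), (5, 2, 0), -112), ((2, 9, 5), (5, 1, 2), -890),
    ((12, 5, 0), (3, 0, 5), -803), ((0, 6, 12), (3, 0, 5), 1055), ((10, 2, 13), (3, 0, 5), -19), ((0, 8, 12), (5, 1, 3), -874),
    ((10, 11, 13), (5, 1, 3), -944), ((5, 9, 0), (0, 4, 5), 2554), ((12, 1, 6), (0, 4, 5), -258), ((2, 1, 13), (0, 4, 5), -760),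
    ((13, 7, 2), (0, 4, 5), 2), ((6, 4, 1), (5, 1, 4), -2611), ((9, 2, 0), (5, 1, 4), -858), ((2, 9, 7), (5, 1, 4), 432),
    ((0, 8, 9), (5, 1, 4), 2307), ((11, 10, 3), (5, 1, 4), -2036), ((1, 5, 13), (5, 1, 4), 1500), ((2, 5, 7), (5, 2, 4), 1030),
    ((5, 11, 3), (3, 4, 5), -244), ((12, 9, 0), (3, 4, 5), 312), ((10, 1, 13), (3, 4, 5), 277), ((1, 9, 4), (0, 6, 2), -1542),
    ((9, 1, 7), (0, 6, 2), -660), ((8, 4, 9), (0, 6, 2), -1470), ((2, 10, 0), (0, 6, 2), 2208), ((3, 0, 10), (0, 6, 2), 1289),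
    ((9, 11, 8), (0, 6, 2), 890), ((5, 12, 13), (0, 6, 2), 710), ((2, 1, 7), (1, 2, 6), 3189), ((0, 4, 9), (1, 2, 6), -2393),
    ((5, 9, 4), (1, 2, 6), -2664), ((9, 10, 0), (1, 2, 6), 1278), ((3, 8, 11), (1, 2, 6), 120), ((13, 7, 1), (1, 2, 6), 172),
    ((1, 12, 13), (1, 2, 6), 2392), ((1, 9, 11), (6, 0, 3), 2270), ((1, 11, 3), (3, 6, 1), 74), ((11, 1, 13), (3, 6, 1), 73),
    ((11, 1, 7), (3, 6, 2), -69), ((1, 11, 8), (3, 6, 2), 1318), ((3, 0, 8), (0, 6, 4), 1796), ((4, 8, 0), (0, 6, 4), 269),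
    ((1, 9, 2), (0, 6, 4), -800), ((9, 1, 5), (0, 6, 4), -530), ((10, 2, 9), (0, 6, 4), 62), ((9, 11, 10), (0, 6, 4), -1059),
    ((12, 5, 1), (0, 6, 4), 1518), ((1, 5, 7), (6, 4, 2), 490), ((9, 2, 4), (6, 4, 2), -1640), ((0, 8, 10), (6, 4, 2), -187),
    ((11, 10, 8), (6, 4, 2), 871), ((11, 1, 5), (3, 6, 4), 1498), ((1, 11, 10), (3, 6, 4), -1053), ((12, 5, 6), (0, 6, 5), 771),
    ((6, 4, 5), (5, 1, 6), 329), ((0, 10, 7), (7, 1, 0), -1495), ((4, 9, 13), (7, 1, 0), 171), ((13, 12, 4), (7, 1, 0), -361),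
    ((7, 9, 0), (0, 2, 7), -148), ((4, 1, 13), (0, 2, 7), 606), ((13, 5, 4), (0, 2, 7), 79), ((8, 4, 13), (3, 0, 7), -235),
    ((8, 11, 13), (7, 1, 3), -206), ((13, 12, 8), (7, 1, 3), -677), ((7, 11, 3), (3, 2, 7), -178), ((8, 1, 13), (3, 2, 7), 227),
    ((13, 7, 4), (0, 4, 7), 370), ((4, 9, 7), (7, 1, 4), -420), ((7, 5, 4), (4, 2, 7), -696), ((4, 2, 13), (7, 5, 0), -200),
    ((8, 10, 13), (7, 5, 3), -387), ((6, 2, 7), (7, 1, 6), -464), ((5, 1, 8), (0, 8, 1), -1051), ((9, 2, 3), (0, 8, 1), -2640),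
    ((10, 11, 7), (0, 8, 1), 363), ((9, 2, 8), (0, 8, 2), -1233), ((3, 8, 2), (1, 2, 8), -832), ((2, 10, 8), (8, 4, 2), 612),
    ((5, 9, 3), (3, 8, 5), 3497), ((12, 1, 0), (3, 8, 5), -93), ((0, 4, 12), (3, 8, 5), -1539), ((13, 7, 10), (3, 8, 5), -335),
    ((10, 9, 13), (3, 8, 5), 2357), ((4, 8, 6), (0, 6, 8), -622), ((9, 11, 2), (0, 6, 8), -706), ((10, 2, 11), (0, 6, 8), 908),
    ((11, 2, 3), (6, 8, 1), -625), ((2, 11, 7), (6, 8, 1), 380), ((11, 2, 8), (6, 8, 2), -176), ((1, 11, 2), (3, 6, 8), -248),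
    ((8, 11, 7), (7, 1, 8), -179), ((13, 7, 8), (3, 8, 7), -141), ((8, 10, 7), (7, 5, 8), -1014), ((1, 10, 0), (3, 4, 9), -269),
    ((10, 1, 7), (3, 4, 9), 570), ((5, 11, 8), (3, 4, 9), -880), ((12, 9, 4), (3, 4, 9), 178), ((9, 12, 13), (3, 4, 9), 144),
    ((1, 9, 6), (0, 6, 9), -858), ((3, 0, 11), (0, 6, 9), 1527), ((9, 11, 0), (0, 6, 9), 1294), ((6, 4, 9), (9, 2, 6), -265),
    ((0, 8, 11), (9, 2, 6), 2), ((11, 10, 0), (9, 2, 6), 584), ((1, 11, 0), (3, 6, 9), 1293), ((3, 10, 7), (7, 9, 3), 52),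
    ((13, 5, 8), (7, 9, 3), -710), ((8, 9, 13), (7, 9, 3), -1167), ((11, 2, 0), (6, 8, 9), 1258), ((9, 10, 4), (0, 4, 10), 858),
    ((1, 12, 7), (0, 4, 10), -465), ((13, 7, 12), (0, 4, 10), -217), ((3, 4, 10), (1, 10, 4), 1390), ((9, 12, 7), (1, 10, 4), -245),
    ((8, 4, 10), (2, 10, 4), -10), ((5, 12, 7), (2, 10, 4), -929), ((12, 2, 6), (5, 10, 0), -1131), ((2, 12, 13), (5, 10, 0), 478),
    ((10, 11, 5), (5, 1, 10), -1188), ((2, 9, 12), (5, 1, 10), -815), ((12, 5, 2), (10, 2, 5), -13), ((12, 2, 0), (5, 10, 3), 786),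
    ((10, 5, 13), (5, 10, 3), 75), ((2, 12, 7), (5, 10, 4), 1658), ((2, 10, 6), (0, 6, 10), -1136), ((8, 4, 11), (0, 6, 10), 103),
    ((9, 11, 4), (0, 6, 10), 714), ((3, 4, 11), (1, 10, 6), 1564), ((5, 11, 4), (1, 10, 6), -1289), ((1, 11, 4), (3, 6, 10), -240),
    ((11, 10, 4), (6, 4, 10), -650), ((7, 12, 4), (4, 10, 7), -568), ((5, 10, 8), (10, 5, 7), -1139), ((12, 2, 4), (10, 5, 7), 1113),
    ((11, 2, 4), (6, 8, 10), 446), ((12, 1, 2), (5, 9, 10), -806), ((0, 4, 11), (9, 10, 6), -214), ((12, 9, 6), (5, 11, 0), 279),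
    ((9, 11, 6), (0, 6, 11), -957), ((3, 6, 11), (1, 11, 6), 449), ((6, 8, 11), (11, 2, 6), 872), ((11, 10, 6), (6, 4, 11), -95),
    ((12, 5, 3), (3, 0, 12), -270), ((3, 8, 12), (12, 1, 3), 316), ((12, 9, 3), (3, 4, 12), -832), ((4, 10, 13), (7, 12, 0), 75),
    ((2, 11, 13), (6, 8, 12), 139), ((10, 12, 13), (12, 10, 0), -228), ((10, 9, 12), (12, 1, 10), -83), ((12, 5, 10), (10, 2, 12), -1306),
    ((10, 12, 7), (12, 10, 4), 1435), ((11, 9, 12), (12, 5, 11), 371), ((11, 12, 13), (12, 11, 8), -1227), ((0, 9, 13), (13, 1, 0), 12),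
    ((13, 5, 0), (0, 2, 13), 487), ((3, 11, 13), (13, 1, 3), 16), ((13, 7, 0), (0, 4, 13), -43), ((3, 10, 13), (13, 5, 3), -210),
    ((13, 12, 6), (6, 2, 13), 1541), ((3, 8, 13), (13, 7, 3), -276), ((13, 12, 0), (0, 10, 13), 233)]
  tr := trA
  big := 32768

theorem ct50_valid : validC ct50 = true := by decide +kernel

theorem ct50_const : constOK ct50 12081 = true := by decide +kernel

/-- classes -/
def cs50 : List Cl := [
 cl 1 0 0 0 26758 0 119, cl 1 1 0 1 10055 0 115, cl 0 0 1 1 11155 0 150, cl 1 0 0 2 2721 0 94,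
 cl 2 2 0 0 0 820 90, cl 0 0 0 2 0 9128 106, cl 1 2 0 0 0 13365 137, cl 1 2 0 2 0 4035 99,
 cl 1 0 1 1 0 1 110, cl 2 1 0 1 0 370 85, cl 0 0 2 0 1074 0 423, cl 0 0 2 2 5774 0 106,
 cl 0 0 1 3 3405 0 87, cl 1 1 0 3 1553 0 83, cl 1 0 2 0 839 0 119, cl 2 0 0 0 0 292 84,
 cl 2 3 0 1 1252 0 90, cl 1 3 0 1 0 3826 126, cl 1 3 0 3 1055 0 85, cl 2 2 0 2 0 0 81,
 cl 0 0 3 1 0 2524 150]

theorem ct50_link : linkOK ct50 (cs50.map swp) = true := by decide +kernel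

theorem cs50_tail0 : tailOK cs50 0 16 80 12081 = true := by decide +kernel

theorem cs50_grid0 : gridOK vtTree cs50 0 16 80 16 0 20448759952 29876 12081 = true := by
  decide +kernel

end Pool.Agent.H79.OC
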