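import Pool.Agent.H79.OC.Pts
import Pool.Agent.H79.OC.Pts2
import Pool.Agent.H79.OC.VTab
import Pool.Agent.H79.OC.Swp

set_option autoImplicit false
set_option maxRecDepth 100000

/-!
# Certificates, part 27
-/

namespace Pool.Agent.H79.OC

open Cl

/-! ### Box 51: `0 ≤ 128 x ≤ 16`, `64 ≤ 128 y ≤ 80` -/

/-- certificate -/
def ct51 : Cert where
  pts := pts14
  g := 17962
  al := [(0, -3496), (1, 478), (2, 478), (3, 11782), (4, 5983), (5, 4645), (6, 4645), (7, -159), (8, 6708), (9, -573), (10, -573), (11, -1562), (12, 817), (13, 817)]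
  be := [
    (1, 0, 5437), (2, 0, 5437), (2, 1, -570), (3, 0, 2784), (3, 1, -2426), (3, 2, -2426), (4, 0, 4322),
    (4, 1, 4494), (4, 2, 4494), (4, 3, -7809), (5, 0, 1387), (5, 1, 7647), (5, 2, -1586), (5, 3, -1247),
    (5, 4, -440), (6, 0, 1387), (6, 1, -1586), (6, 2, 7647), (6, 3, -1247), (6, 4, -440), (6, 5, -6626),
    (7, 0, 161), (7, 1, 795), (7, 2, 795), (7, 3, 4773), (7, 4, -3439), (7, 5, 1369), (7, 6, 1369),
    (8, 0, -946), (8, 1, -1558), (8, 2, -1558), (8, 3, -2632), (8, 4, 659), (8, 5, -1843), (8, 6, -1843),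
    (8, 7, -2909), (9, 0, -22), (9, 1, 240), (9, 3, -213), (9, 4, -223), (9, 5, -50), (9, 6, 1294),
    (9, 7, 3580), (9, 8, 1567), (10, 0, -22), (10, 2, 240), (10, 3, -213), (10, 4, -223), (10, 5, 1294),
    (10, 6, -50), (10, 7, 3580), (10, 8, 1567), (10, 9, -476), (11, 0, -322), (11, 1, -65), (11, 2, -65),
    (11, 3, 1377), (11, 4, 482), (11, 5, -448), (11, 6, -448), (11, 7, 5196), (11, 8, 1101), (11, 9, 2356),
    (11, 10, 2356), (12, 0, 675), (12, 1, 825), (12, 2, 235), (12, 3, -3156), (12, 4, -1459), (12, 5, -208),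
    (12, 7, 628), (12, 8, 905), (12, 9, -2620), (13, 0, 675), (13, 1, 235), (13, 2, 825), (13, 3, -3156),
    (13, 4, -1459), (13, 6, -208), (13, 7, 628), (13, 8, 905), (13, 10, -2620), (13, 12, -117)]
  ta := [
    ((3, 2, 1), (0, 1, 2), 2376), ((4, 5, 6), (0, 1, 2), -1756), ((7, 6, 5), (0, 1, 2), 946), ((8, 9, 10), (0, 1, 2), 788),
    ((11, 10, 9), (0, 1, 2), -1117), ((5, 4, 12), (0, 1, 2), 149), ((6, 13, 4), (0, 1, 2), 149), ((3, 2, 0), (0, 1, 3), -3315),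
    ((4, 5, 7), (0, 1, 3), 5059), ((7, 6, 4), (0, 1, 3), 5059), ((8, 9, 11), (0, 1, 3), -1744), ((11, 10, 8), (0, 1, 3), -1744),
    ((6, 5, 3), (1, 2, 4), 3793), ((5, 6, 8), (1, 2, 4), 489), ((10, 9, 7), (1, 2, 4), -955), ((4, 12, 1), (1, 2, 4), -821),
    ((13, 4, 2), (1, 2, 4), -821), ((7, 4, 3), (0, 3, 4), 2576), ((4, 7, 8), (0, 3, 4), 805), ((11, 8, 7), (0, 3, 4), -1297),
    ((6, 4, 3), (1, 3, 4), 2930), ((5, 7, 8), (1, 3, 4), -670), ((10, 8, 7), (1, 3, 4), -1663), ((5, 4, 3), (2, 3, 4), 2930),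
    ((6, 7, 8), (2, 3, 4), -670), ((9, 8, 7), (2, 3, 4), -1663), ((5, 4, 0), (0, 1, 5), -1499), ((2, 3, 7), (0, 1, 5), -881),
    ((7, 6, 2), (0, 1, 5), -777), ((4, 5, 9), (0, 1, 5), 222), ((9, 8, 4), (0, 1, 5), 156), ((6, 7, 11), (0, 1, 5), -1198),
    ((11, 10, 6), (0, 1, 5), -1175), ((13, 6, 10), (0, 1, 5), 8656), ((7, 5, 2), (0, 2, 5), -396), ((4, 6, 9), (0, 2, 5), 756),
    ((11, 9, 6), (0, 2, 5), 366), ((5, 12, 0), (0, 2, 5), -1338), ((10, 8, 13), (0, 2, 5), 1264), ((6, 5, 2), (1, 2, 5), -402),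
    ((5, 6, 9), (1, 2, 5), -1423), ((10, 9, 6), (1, 2, 5), -2), ((4, 12, 0), (1, 2, 5), 960), ((4, 13, 8), (1, 2, 5), 583),
    ((7, 4, 2), (0, 3, 5), -537), ((4, 7, 9), (0, 3, 5), 804), ((11, 8, 6), (0, 3, 5), 278), ((5, 4, 2), (2, 3, 5), -1734),
    ((6, 7, 9), (2, 3, 5), -1029), ((9, 8, 6), (2, 3, 5), -1722), ((0, 1, 12), (2, 3, 5), -2223), ((13, 6, 8), (2, 3, 5), 4559),
    ((7, 6, 1), (0, 1, 6), -396), ((4, 5, 10), (0, 1, 6), 756), ((11, 10, 5), (0, 1, 6), 366), ((9, 8, 12), (0, 1, 6), 1264),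
    ((6, 13, 0), (0, 1, 6), -1338), ((6, 4, 0), (0, 2, 6), -1499), ((1, 3, 7), (0, 2, 6), -881), ((7, 5, 1), (0, 2, 6), -777),
    ((4, 6, 10), (0, 2, 6), 222), ((10, 8, 4), (0, 2, 6), 156), ((5, 7, 11), (0, 2, 6), -1198), ((11, 9, 5), (0, 2, 6), -1175),
    ((12, 5, 9), (0, 2, 6), 8656), ((6, 5, 1), (1, 2, 6), -402), ((5, 6, 10), (1, 2, 6), -1423), ((10, 9, 5), (1, 2, 6), -2),
    ((12, 4, 8), (1, 2, 6), 583), ((13, 4, 0), (1, 2, 6), 960), ((7, 4, 1), (0, 3, 6), -537), ((4, 7, 10), (0, 3, 6), 804),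
    ((11, 8, 5), (0, 3, 6), 278), ((6, 4, 1), (1, 3, 6), -1734), ((5, 7, 10), (1, 3, 6), -1029), ((10, 8, 5), (1, 3, 6), -1722),
    ((12, 5, 8), (1, 3, 6), 4559), ((0, 2, 13), (1, 3, 6), -2223), ((1, 2, 7), (6, 5, 0), -160), ((10, 9, 4), (6, 5, 0), -180),
    ((5, 6, 11), (6, 5, 0), 629), ((12, 4, 9), (6, 5, 0), 82), ((4, 13, 10), (6, 5, 0), 82), ((7, 6, 0), (0, 1, 7), 442),
    ((4, 5, 11), (0, 1, 7), -340), ((11, 10, 4), (0, 1, 7), 349), ((7, 5, 0), (0, 2, 7), 442), ((4, 6, 11), (0, 2, 7), -340),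
    ((11, 9, 4), (0, 2, 7), 349), ((7, 4, 0), (0, 3, 7), -671), ((4, 7, 11), (0, 3, 7), 450), ((11, 8, 4), (0, 3, 7), -489),
    ((9, 8, 1), (0, 1, 8), -50), ((2, 3, 10), (0, 1, 8), 673), ((11, 10, 3), (0, 1, 8), -556), ((1, 3, 9), (0, 2, 8), 673),
    ((10, 8, 2), (0, 2, 8), -50), ((11, 9, 3), (0, 2, 8), -556), ((10, 9, 3), (1, 2, 8), 163), ((11, 8, 3), (0, 3, 8), -317),
    ((10, 8, 3), (1, 3, 8), -231), ((9, 8, 3), (2, 3, 8), -231), ((1, 5, 9), (0, 4, 8), 2650), ((2, 6, 10), (0, 4, 8), 2650),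
    ((3, 7, 11), (0, 4, 8), -3770), ((8, 5, 1), (1, 4, 8), 160), ((3, 6, 10), (1, 4, 8), 1745), ((10, 7, 3), (1, 4, 8), -1552),
    ((8, 6, 2), (2, 4, 8), 160), ((3, 5, 9), (2, 4, 8), 1745), ((9, 7, 3), (2, 4, 8), -1552), ((8, 7, 3), (3, 4, 8), -1573),
    ((1, 4, 9), (8, 5, 0), -750), ((10, 7, 2), (8, 5, 0), -449), ((3, 6, 11), (8, 5, 0), -207), ((2, 13, 10), (8, 5, 0), 791),
    ((9, 6, 3), (2, 5, 8), -543), ((8, 13, 2), (2, 5, 8), -533), ((9, 7, 1), (8, 6, 0), -449), ((2, 4, 10), (8, 6, 0), -750),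
    ((3, 5, 11), (8, 6, 0), -207), ((1, 12, 9), (8, 6, 0), 791), ((3, 5, 10), (8, 6, 1), -543), ((1, 12, 8), (8, 6, 1), -533),
    ((3, 4, 11), (8, 7, 0), -51), ((3, 4, 10), (8, 7, 1), -722), ((3, 4, 9), (8, 7, 2), -722), ((9, 8, 0), (0, 1, 9), 585),
    ((2, 3, 11), (0, 1, 9), 144), ((11, 10, 2), (0, 1, 9), -410), ((11, 9, 2), (0, 2, 9), 121), ((10, 9, 2), (1, 2, 9), 67),
    ((11, 8, 2), (0, 3, 9), -128), ((9, 8, 2), (2, 3, 9), -566), ((9, 5, 0), (0, 4, 9), 928), ((2, 6, 11), (0, 4, 9), 21),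
    ((11, 7, 2), (0, 4, 9), -654), ((9, 7, 2), (2, 4, 9), -299), ((9, 6, 2), (2, 5, 9), 648), ((2, 5, 11), (9, 6, 0), 136),
    ((0, 12, 9), (9, 6, 0), 134), ((2, 5, 10), (9, 6, 1), -546), ((0, 12, 8), (9, 6, 1), 546), ((8, 13, 0), (9, 6, 1), 546),
    ((2, 4, 11), (9, 7, 0), 49), ((11, 10, 1), (0, 1, 10), 121), ((10, 8, 0), (0, 2, 10), 585), ((1, 3, 11), (0, 2, 10), 144),
    ((11, 9, 1), (0, 2, 10), -410), ((10, 9, 1), (1, 2, 10), 67), ((11, 8, 1), (0, 3, 10), -128), ((10, 8, 1), (1, 3, 10), -566),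
    ((10, 6, 0), (0, 4, 10), 928), ((1, 5, 11), (0, 4, 10), 21), ((11, 7, 1), (0, 4, 10), -654), ((10, 7, 1), (1, 4, 10), -299),
    ((11, 6, 1), (0, 5, 10), 136), ((10, 13, 0), (0, 5, 10), 134), ((10, 6, 1), (1, 5, 10), -648), ((1, 4, 11), (10, 7, 0), 49),
    ((1, 2, 11), (10, 9, 0), 243), ((11, 10, 0), (0, 1, 11), -224), ((11, 9, 0), (0, 2, 11), -224), ((11, 8, 0), (0, 3, 11), -199),
    ((11, 7, 0), (0, 4, 11), -120), ((4, 12, 2), (1, 2, 12), 62), ((5, 12, 3), (1, 3, 12), -2693), ((12, 6, 9), (6, 12, 0), 431),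
    ((12, 6, 8), (6, 12, 1), -801), ((6, 5, 12), (12, 4, 6), -525), ((12, 7, 9), (7, 12, 1), 258), ((10, 9, 12), (12, 4, 10), 224),
    ((11, 9, 12), (12, 5, 11), 224), ((13, 4, 1), (1, 2, 13), 62), ((6, 13, 3), (2, 3, 13), -2693), ((5, 13, 10), (13, 5, 0), 431),
    ((5, 13, 8), (13, 5, 2), -801), ((6, 13, 5), (4, 5, 13), -525), ((13, 7, 10), (7, 13, 2), 258), ((10, 9, 13), (4, 13, 9), 224),
    ((11, 10, 13), (13, 6, 11), 224), ((12, 13, 8), (13, 12, 0), -117)]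
  tr := tr14
  big := 32768

theorem ct51_valid : validC ct51 = true := by decide +kernel

theorem ct51_const : constOK ct51 14880 = true := by decide +kernel

/-- classes -/
def cs51 : List Cl := [
 cl 0 0 1 1 15310 0 168, cl 0 0 2 0 446 0 423, cl 1 0 0 0 30144 0 119, cl 1 0 1 1 0 2218 112,
 cl 1 0 2 0 643 0 119, cl 2 0 0 0 911 0 84, cl 2 0 1 1 0 174 83, cl 2 0 2 0 0 322 84,
 cl 1 0 0 2 2576 0 100, cl 0 0 0 2 0 10590 119, cl 1 1 0 1 11618 0 118, cl 2 1 0 1 0 3542 85,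
 cl 2 0 0 2 0 0 80, cl 1 1 0 3 470 0 90, cl 1 2 0 0 0 10718 137, cl 2 2 0 0 0 2632 90,
 cl 1 2 0 2 0 6312 106, cl 0 0 1 3 0 0 97, cl 0 0 2 2 1256 0 119, cl 1 0 1 3 0 0 89,
 cl 1 0 2 2 0 0 100, cl 0 0 0 4 0 117 84]

theorem ct51_link : linkOK ct51 (cs51.map swp) = true := by decide +kernel

theorem cs51_tail0 : tailOK cs51 0 16 64 14880 = true := by decide +kernel

theorem cs51_grid0 : gridOK vtTree cs51 0 16 64 16 0 12734180448 21535 14880 = true := by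
  decide +kernel

/-! ### Box 52: `16 ≤ 128 x ≤ 18`, `96 ≤ 128 y ≤ 98` -/

/-- certificate -/
def ct52 : Cert where
  pts := ptsB
  g := 16394
  al := [(0, 1591), (1, 994), (2, 6675), (3, 8849), (4, 4268), (5, 2743), (6, 3383), (7, 2528), (8, -1463), (9, 1525), (10, -7750), (11, 215), (12, -1887), (13, 2804)]
  be := [
    (1, 0, -160), (2, 0, -2771), (2, 1, 1496), (3, 0, -344), (3, 1, -2397), (3, 2, -3506), (4, 0, -979),
    (4, 1, 5729), (4, 2, -5090), (4, 3, -3371), (5, 0, -1609), (5, 1, 951), (5, 2, -799), (5, 3, -590),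
    (5, 4, -2264), (6, 0, 559), (6, 1, 134), (6, 2, -1371), (6, 3, -2003), (6, 4, -1454), (6, 5, -410),
    (7, 0, -42), (7, 1, -1600), (7, 2, 2408), (7, 3, -8046), (7, 4, 5936), (7, 5, -744), (7, 6, -822),
    (8, 0, 1502), (8, 1, -624), (8, 2, 1163), (8, 3, -714), (8, 4, 2109), (8, 5, -507), (8, 6, -621),
    (8, 7, 298), (9, 0, 1978), (9, 1, 380), (9, 2, 223), (9, 3, -5739), (9, 4, 5823), (9, 5, 2062),
    (9, 6, -1134), (9, 7, 4197), (9, 8, 444), (10, 0, 2208), (10, 1, 2893), (10, 2, 440), (10, 3, 11380),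
    (10, 4, 9698), (10, 5, 1983), (10, 6, -13459), (10, 7, 1208), (10, 8, 1606), (10, 9, 1391), (11, 0, 1781),
    (11, 1, 1536), (11, 2, -1178), (11, 3, 160), (11, 4, 3095), (11, 5, 1865), (11, 6, -182), (11, 7, 4007),
    (11, 8, -1006), (11, 9, -850), (11, 10, 1318), (12, 0, 1127), (12, 1, -218), (12, 2, 6641), (12, 3, -852),
    (12, 4, -1212), (12, 5, -292), (12, 6, 843), (12, 7, 3449), (12, 9, -6532), (12, 10, 6050), (12, 11, 3097),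
    (13, 0, -1060), (13, 1, -2016), (13, 2, 47), (13, 3, 792), (13, 4, -2714), (13, 5, -588), (13, 6, -1349),
    (13, 7, 4943), (13, 8, 283), (13, 9, -1388), (13, 10, 1161), (13, 11, 625), (13, 12, 37)]
  ta := [
    ((1, 11, 3), (3, 0, 1), 12), ((12, 3, 11), (3, 0, 1), -13), ((10, 2, 0), (3, 0, 2), -1984), ((6, 8, 5), (3, 2, 1), 515),
    ((11, 4, 12), (3, 2, 1), -213), ((1, 8, 0), (0, 4, 1), -747), ((3, 7, 11), (0, 4, 1), -323), ((11, 10, 3), (0, 4, 1), -378),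
    ((5, 0, 2), (4, 2, 0), 1529), ((5, 0, 8), (2, 4, 1), 282), ((4, 2, 12), (2, 4, 1), -37), ((12, 9, 4), (2, 4, 1), 1442),
    ((4, 7, 3), (3, 0, 4), 1616), ((10, 2, 5), (3, 0, 4), -4350), ((10, 8, 1), (3, 0, 4), 448), ((1, 11, 10), (3, 0, 4), -2267),
    ((2, 10, 11), (3, 0, 4), 2519), ((12, 3, 7), (3, 0, 4), 112), ((1, 10, 3), (3, 4, 1), 1175), ((5, 10, 6), (3, 4, 1), 7011),
    ((11, 2, 12), (3, 4, 1), -3109), ((12, 7, 11), (3, 4, 1), -2879), ((5, 0, 10), (4, 2, 3), -3844), ((2, 4, 11), (4, 2, 3), 581),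
    ((12, 9, 7), (4, 2, 3), -833), ((1, 8, 5), (5, 2, 1), 972), ((7, 2, 4), (3, 5, 0), -3106), ((10, 4, 2), (3, 5, 0), -3412),
    ((3, 9, 12), (3, 5, 0), 6798), ((13, 12, 9), (3, 5, 0), 750), ((6, 1, 5), (3, 5, 1), 311), ((2, 7, 3), (3, 5, 2), 2241),
    ((6, 1, 8), (3, 5, 2), -615), ((9, 3, 7), (3, 5, 2), 1406), ((10, 4, 0), (3, 5, 2), -1066), ((4, 10, 11), (3, 5, 2), -2921),
    ((4, 2, 5), (5, 0, 4), -929), ((10, 4, 5), (3, 5, 4), -2136), ((9, 3, 11), (6, 1, 0), -106), ((7, 2, 1), (6, 1, 2), 486),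
    ((3, 5, 8), (6, 1, 2), 757), ((10, 4, 12), (6, 1, 2), -1097), ((13, 12, 4), (6, 1, 2), -73), ((1, 11, 9), (3, 0, 6), -175),
    ((13, 9, 11), (3, 0, 6), 265), ((3, 5, 6), (6, 1, 3), -469), ((9, 3, 1), (6, 1, 3), 202), ((13, 12, 11), (6, 1, 3), -370),
    ((6, 8, 3), (3, 2, 6), 569), ((9, 7, 1), (3, 2, 6), -1835), ((11, 4, 13), (3, 2, 6), 643), ((11, 10, 9), (0, 4, 6), 786),
    ((4, 10, 6), (6, 1, 4), 3541), ((9, 3, 10), (6, 1, 4), 3998), ((10, 4, 9), (6, 1, 4), -3467), ((2, 7, 13), (6, 1, 4), -3369),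
    ((13, 12, 2), (6, 1, 4), -102), ((12, 9, 10), (2, 4, 6), -1016), ((4, 2, 13), (2, 4, 6), 920), ((1, 10, 9), (3, 4, 6), -763),
    ((11, 2, 13), (3, 4, 6), 277), ((12, 9, 11), (5, 0, 6), 100), ((3, 7, 1), (5, 2, 6), 2908), ((1, 8, 3), (5, 2, 6), -466),
    ((11, 10, 12), (5, 2, 6), -2813), ((11, 8, 3), (0, 7, 1), 649), ((4, 7, 0), (3, 0, 7), -1355), ((1, 11, 8), (3, 0, 7), 426),
    ((10, 8, 11), (3, 0, 7), -527), ((3, 0, 8), (7, 4, 1), -961), ((2, 10, 6), (7, 4, 1), 7949), ((8, 10, 3), (7, 4, 1), 1670),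
    ((1, 11, 7), (7, 4, 1), 150), ((10, 2, 12), (7, 4, 1), -469), ((12, 3, 10), (7, 4, 1), -3048), ((4, 7, 13), (7, 4, 1), -2313),
    ((13, 9, 4), (7, 4, 1), 288), ((3, 5, 7), (2, 7, 5), 864), ((11, 8, 9), (0, 7, 6), 364), ((7, 2, 6), (6, 1, 7), 865),
    ((9, 3, 8), (6, 1, 7), -854), ((10, 4, 13), (6, 1, 7), 198), ((13, 12, 10), (6, 1, 7), 53), ((1, 8, 9), (3, 7, 6), 400),
    ((11, 10, 13), (3, 7, 6), -765), ((8, 10, 9), (7, 4, 6), -354), ((10, 2, 13), (7, 4, 6), -636), ((13, 9, 10), (7, 4, 6), 265),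
    ((12, 0, 2), (8, 2, 0), 58), ((8, 2, 5), (2, 8, 1), -587), ((12, 0, 4), (2, 8, 1), 395), ((2, 8, 6), (8, 2, 3), 544),
    ((12, 0, 10), (8, 2, 3), -939), ((4, 8, 1), (8, 4, 0), 869), ((9, 0, 4), (8, 4, 0), -156), ((10, 7, 3), (8, 4, 0), 623),
    ((6, 11, 10), (8, 4, 0), 116), ((7, 10, 11), (8, 4, 0), -596), ((12, 5, 2), (8, 4, 0), 99), ((13, 3, 7), (8, 4, 0), -782),
    ((0, 5, 12), (2, 4, 8), -2062), ((12, 9, 0), (2, 4, 8), 2892), ((7, 10, 1), (8, 4, 3), -1474), ((6, 11, 2), (8, 4, 3), 584),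
    ((12, 5, 10), (8, 4, 3), -10), ((10, 7, 12), (8, 4, 3), 266), ((13, 3, 4), (8, 4, 3), 826), ((12, 5, 4), (8, 4, 5), 563),
    ((0, 10, 6), (6, 8, 0), 5650), ((11, 4, 9), (6, 8, 0), -4130), ((9, 7, 11), (6, 8, 0), -1560), ((9, 0, 10), (4, 8, 6), 417),
    ((10, 7, 9), (4, 8, 6), -1854), ((6, 11, 4), (4, 8, 6), 1601), ((13, 3, 2), (4, 8, 6), -573), ((7, 8, 11), (8, 7, 0), 357),
    ((13, 0, 7), (8, 7, 0), -755), ((8, 7, 3), (7, 8, 1), -159), ((13, 0, 4), (7, 8, 1), 81), ((13, 12, 0), (7, 2, 8), 210),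
    ((8, 10, 7), (7, 4, 8), -574), ((0, 3, 13), (7, 4, 8), 537), ((13, 9, 0), (7, 4, 8), 998), ((8, 7, 9), (7, 8, 6), 262),
    ((13, 0, 10), (7, 8, 6), 75), ((6, 11, 3), (9, 0, 1), 404), ((13, 3, 11), (9, 0, 1), -749), ((7, 2, 10), (9, 3, 0), 3594),
    ((10, 4, 7), (9, 3, 0), -3838), ((4, 10, 8), (9, 3, 0), 288), ((6, 1, 11), (9, 3, 0), 98), ((5, 3, 12), (9, 3, 0), -92),
    ((3, 9, 13), (9, 3, 0), -265), ((13, 12, 3), (9, 3, 0), -354), ((2, 7, 9), (9, 3, 2), -3948), ((3, 10, 6), (9, 4, 1), 10551),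
    ((13, 7, 11), (9, 4, 1), -3311), ((12, 9, 2), (4, 2, 9), -1512), ((5, 9, 12), (9, 5, 0), 3366), ((6, 11, 9), (9, 0, 6), -76),
    ((9, 3, 6), (6, 1, 9), 412), ((6, 10, 9), (9, 4, 6), -415), ((10, 7, 0), (9, 0, 7), 866), ((4, 8, 11), (9, 0, 7), 1),
    ((6, 11, 8), (9, 0, 7), -73), ((6, 8, 9), (9, 7, 6), 499), ((8, 4, 9), (9, 0, 8), -737), ((7, 10, 6), (9, 0, 8), 3380),
    ((6, 11, 7), (9, 0, 8), -20), ((13, 3, 10), (9, 0, 8), -1563), ((10, 7, 13), (9, 0, 8), -323), ((3, 2, 11), (0, 10, 1), -625),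
    ((11, 4, 3), (0, 10, 1), -3406), ((8, 10, 5), (2, 10, 1), 1689), ((1, 11, 2), (2, 10, 1), -1598), ((12, 3, 4), (2, 10, 1), 2604),
    ((4, 7, 12), (2, 10, 1), -2348), ((12, 5, 7), (10, 7, 5), -387), ((12, 3, 0), (2, 10, 8), -1407), ((13, 9, 2), (10, 2, 9), -485),
    ((3, 0, 11), (1, 11, 0), -89), ((11, 10, 0), (0, 4, 11), 176), ((11, 10, 5), (5, 2, 11), 1022), ((9, 0, 11), (6, 11, 0), 138),
    ((12, 5, 11), (6, 11, 5), 109), ((11, 8, 0), (0, 7, 11), -558), ((12, 0, 7), (2, 8, 11), -688), ((1, 4, 12), (12, 2, 1), 2412),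
    ((1, 11, 12), (12, 3, 1), 100), ((13, 12, 1), (6, 1, 12), -15), ((6, 10, 12), (12, 2, 6), -967), ((1, 4, 13), (12, 2, 6), 447),
    ((13, 7, 1), (12, 2, 6), 87), ((13, 9, 1), (12, 3, 6), -219), ((1, 11, 13), (12, 3, 6), 368), ((13, 2, 1), (6, 4, 12), 907),
    ((6, 11, 12), (12, 5, 6), -405), ((13, 3, 1), (12, 5, 6), 672), ((1, 10, 12), (12, 7, 1), 333), ((1, 10, 13), (12, 7, 6), -679),
    ((8, 2, 12), (12, 0, 8), -375), ((8, 10, 12), (12, 3, 8), -646), ((12, 5, 8), (8, 4, 12), 538), ((13, 12, 5), (5, 3, 13), 504),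
    ((13, 12, 6), (6, 1, 13), -469), ((6, 4, 13), (13, 2, 6), 657), ((6, 11, 13), (13, 3, 6), -519), ((6, 10, 13), (13, 7, 6), 317),
    ((8, 7, 13), (13, 0, 8), 283), ((8, 4, 13), (13, 3, 8), -308), ((8, 10, 13), (13, 9, 8), -976)]
  tr := trB
  big := 65536

theorem ct52_valid : validC ct52 = true := by decide +kernel

theorem ct52_const : constOK ct52 11822 = true := by decide +kernel

/-- classes -/
def cs52 : List Cl := [
 cl 2 2 0 0 0 0 91, cl 1 2 0 2 0 5035 92, cl 0 0 1 1 12882 0 136, cl 1 2 0 0 0 9130 140,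
 cl 0 0 0 2 0 13231 97, cl 2 1 0 1 0 1 84, cl 1 3 0 1 0 1792 122, cl 1 0 0 0 26566 0 119,
 cl 0 0 2 0 5613 0 237, cl 1 1 0 1 9149 0 111, cl 2 3 0 1 3646 0 90, cl 0 0 2 2 4352 0 97,
 cl 0 0 3 1 0 1350 130, cl 1 0 0 2 0 0 89, cl 2 2 0 2 951 0 79, cl 1 0 1 1 0 365 102,
 cl 2 0 0 0 0 998 84, cl 2 0 0 2 0 218 75, cl 2 0 1 1 0 2307 79, cl 1 0 2 0 783 0 106,
 cl 2 0 2 0 0 1349 79, cl 1 0 2 2 0 0 85, cl 1 0 3 1 283 0 95]

theorem ct52_link : linkOK ct52 (cs52.map swp) = true := by decide +kernel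

theorem cs52_tail0 : tailOK cs52 16 1 96 11822 = true := by decide +kernel

theorem cs52_grid0 : gridOK vtTree cs52 16 1 96 2 0 17734454067 26508 11822 = true := by
  decide +kernel

theorem cs52_tail1 : tailOK cs52 17 1 96 11822 = true := by decide +kernel

theorem cs52_grid1 : gridOK vtTree cs52 17 1 96 1 0 17734454067 26508 11822 = true := by
  decide +kernel

end Pool.Agent.H79.OC
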