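import Pool.Agent.H79.OC.Pts
import Pool.Agent.H79.OC.Pts2
import Pool.Agent.H79.OC.VTab
import Pool.Agent.H79.OC.Swp

set_option autoImplicit false
set_option maxRecDepth 100000

/-!
# Certificates, part 28
-/

namespace Pool.Agent.H79.OC

open Cl

/-! ### Box 53: `0 ≤ 128 x ≤ 10`, `32 ≤ 128 y ≤ 48` -/

/-- certificate -/
def ct53 : Cert where
  pts := ptsC
  g := 24822
  al := [(0, 2839), (1, 4281), (2, 3951), (3, 5753), (4, 4844), (5, 5605), (6, 5501), (7, -2273), (8, 11582), (9, 5705), (10, 1295), (11, -3762), (12, -1098), (13, 4598)]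
  be := [
    (1, 0, 6008), (2, 0, 3626), (2, 1, -1622), (3, 0, -2721), (3, 1, -3458), (3, 2, 3580), (4, 0, 918),
    (4, 1, -320), (4, 2, 1188), (4, 3, -1808), (5, 0, -1016), (5, 1, 1211), (5, 2, -923), (5, 3, 230),
    (5, 4, 1373), (6, 0, 7212), (6, 1, -788), (6, 2, -5212), (6, 3, 622), (6, 4, -1211), (6, 5, -1135),
    (7, 0, -3644), (7, 1, -187), (7, 2, -816), (7, 3, -237), (7, 4, 489), (7, 5, 1952), (7, 6, -1388),
    (8, 0, 1080), (8, 1, -2887), (8, 2, -2240), (8, 3, -8598), (8, 4, -6414), (8, 5, -2826), (8, 6, 4760),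
    (8, 7, 552), (9, 0, 487), (9, 1, -1674), (9, 2, 855), (9, 3, 2482), (9, 4, -5961), (9, 5, 2666),
    (9, 6, -2264), (9, 7, 2129), (9, 8, -2049), (10, 0, 4403), (10, 1, -640), (10, 2, -3311), (10, 3, 2253),
    (10, 4, 1164), (10, 5, 1922), (10, 6, -6316), (10, 7, 97), (10, 8, 2159), (10, 9, -2459), (11, 0, 15452),
    (11, 2, 4315), (11, 3, -754), (11, 4, 243), (11, 5, 3117), (11, 6, 7047), (11, 7, 3247), (11, 8, -145),
    (11, 9, 1076), (11, 10, 3935), (12, 0, -339), (12, 1, 602), (12, 2, -22), (12, 3, 1532), (12, 4, 1373),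
    (12, 5, -1211), (12, 6, 3102), (12, 7, 705), (12, 8, -1770), (12, 9, 197), (12, 10, -368), (12, 11, 1049),
    (13, 0, -6331), (13, 1, -2516), (13, 2, -582), (13, 3, -645), (13, 4, -1266), (13, 5, 2655), (13, 6, 480),
    (13, 7, 179), (13, 8, -574), (13, 9, -106), (13, 10, 179), (13, 11, -583), (13, 12, 759)]
  ta := [
    ((1, 3, 2), (2, 0, 1), 160), ((4, 0, 11), (2, 0, 1), 333), ((11, 10, 4), (2, 0, 1), -688), ((4, 2, 11), (2, 4, 1), -226),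
    ((1, 3, 4), (0, 4, 3), 1215), ((6, 9, 5), (0, 4, 3), -172), ((8, 5, 9), (0, 4, 3), -735), ((0, 2, 10), (0, 4, 3), 171),
    ((11, 10, 2), (0, 4, 3), -63), ((4, 2, 10), (2, 4, 3), -239), ((6, 4, 8), (1, 5, 0), 5085), ((4, 6, 10), (1, 5, 0), 701),
    ((5, 1, 13), (1, 5, 0), -2505), ((0, 2, 7), (2, 0, 5), 837), ((0, 4, 8), (2, 0, 5), -1289), ((8, 5, 0), (2, 0, 5), 1411),
    ((9, 6, 10), (2, 0, 5), 4617), ((11, 10, 6), (2, 0, 5), -1900), ((6, 9, 12), (2, 0, 5), -1596), ((3, 1, 13), (2, 0, 5), 927),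
    ((4, 6, 11), (1, 5, 2), -922), ((6, 0, 5), (3, 5, 0), -1138), ((1, 8, 4), (3, 5, 0), -1928), ((9, 4, 8), (3, 5, 0), 6000),
    ((0, 6, 10), (3, 5, 0), -3116), ((11, 7, 2), (3, 5, 0), -911), ((8, 12, 9), (3, 5, 0), -768), ((8, 1, 13), (3, 5, 0), 1830),
    ((6, 0, 4), (5, 3, 1), -465), ((1, 8, 5), (5, 3, 1), 158), ((4, 9, 6), (5, 3, 1), 3605), ((8, 5, 4), (0, 4, 5), 1733),
    ((6, 4, 5), (1, 5, 4), -568), ((9, 4, 5), (3, 5, 4), -262), ((1, 8, 6), (6, 0, 1), 1826), ((1, 8, 3), (0, 6, 2), 1965),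
    ((5, 3, 8), (0, 6, 2), 2151), ((4, 9, 0), (0, 6, 2), 488), ((6, 0, 9), (0, 6, 2), -1943), ((11, 7, 10), (0, 6, 2), -493),
    ((8, 12, 5), (0, 6, 2), -892), ((3, 5, 6), (6, 0, 3), 1263), ((9, 4, 1), (6, 0, 3), -966), ((1, 8, 9), (6, 0, 3), -326),
    ((12, 8, 13), (6, 0, 3), -697), ((6, 9, 1), (1, 3, 6), 794), ((8, 3, 6), (2, 6, 3), 3157), ((0, 9, 1), (2, 6, 3), -2239),
    ((5, 12, 13), (2, 6, 3), -354), ((1, 5, 6), (6, 4, 1), -488), ((1, 5, 9), (6, 4, 3), 801), ((8, 3, 0), (2, 6, 5), 686),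
    ((0, 9, 8), (2, 6, 5), -762), ((7, 10, 0), (2, 6, 5), -42), ((9, 0, 10), (2, 6, 5), -1950), ((6, 2, 11), (2, 6, 5), -2505),
    ((12, 5, 6), (2, 6, 5), -1614), ((3, 8, 13), (2, 6, 5), 2188), ((8, 0, 11), (7, 0, 1), -2453), ((11, 6, 8), (7, 0, 1), -3556),
    ((13, 3, 2), (7, 0, 1), -476), ((2, 5, 13), (7, 0, 1), -503), ((8, 4, 11), (7, 2, 1), -8), ((13, 1, 2), (7, 2, 1), 909),
    ((10, 0, 8), (3, 0, 7), -1685), ((8, 9, 10), (3, 0, 7), 245), ((11, 2, 5), (3, 0, 7), -3082), ((5, 6, 11), (3, 0, 7), -2958),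
    ((0, 3, 13), (3, 0, 7), 1640), ((13, 8, 0), (3, 0, 7), 2282), ((8, 5, 11), (1, 3, 7), -429), ((11, 10, 8), (1, 3, 7), -291),
    ((2, 0, 13), (1, 3, 7), 516), ((8, 4, 10), (7, 2, 3), -1774), ((10, 6, 8), (7, 2, 3), 1861), ((5, 0, 11), (7, 2, 3), -5637),
    ((13, 1, 0), (7, 2, 3), 2068), ((0, 5, 13), (7, 2, 3), 2244), ((2, 0, 8), (4, 0, 7), 228), ((8, 5, 2), (4, 0, 7), 670),
    ((9, 6, 11), (4, 0, 7), -2175), ((11, 10, 9), (4, 0, 7), -1397), ((11, 2, 8), (1, 4, 7), -231), ((8, 9, 11), (1, 4, 7), -878),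
    ((13, 8, 2), (1, 4, 7), 562), ((2, 4, 8), (4, 2, 7), -860), ((10, 2, 8), (3, 4, 7), 71), ((5, 9, 11), (3, 4, 7), 36),
    ((7, 2, 5), (5, 0, 7), 1136), ((10, 6, 12), (5, 0, 7), 120), ((12, 9, 10), (5, 0, 7), -596), ((11, 7, 5), (3, 5, 7), -1799),
    ((8, 12, 10), (3, 5, 7), 1388), ((11, 7, 6), (0, 6, 7), 812), ((6, 0, 12), (0, 6, 7), -1615), ((8, 12, 0), (0, 6, 7), 495),
    ((7, 10, 6), (6, 2, 7), -6), ((12, 5, 0), (6, 2, 7), 277), ((0, 9, 12), (6, 2, 7), -556), ((13, 12, 0), (3, 6, 7), -24),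
    ((10, 0, 12), (5, 6, 7), 456), ((11, 7, 4), (1, 8, 2), -1070), ((4, 9, 11), (1, 8, 2), 95), ((2, 6, 8), (8, 3, 2), 3594),
    ((7, 10, 4), (8, 3, 2), 1067), ((9, 0, 11), (8, 3, 2), -3355), ((0, 9, 5), (8, 3, 4), -3503), ((6, 2, 10), (8, 3, 4), 2486),
    ((7, 10, 2), (8, 3, 4), -771), ((12, 5, 9), (8, 3, 4), 1810), ((12, 6, 11), (8, 0, 7), -1496), ((11, 7, 8), (1, 8, 7), -465),
    ((8, 12, 11), (1, 8, 7), 30), ((8, 4, 7), (7, 2, 8), 208), ((12, 9, 11), (7, 2, 8), -129), ((7, 10, 8), (8, 3, 7), -1181),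
    ((12, 5, 11), (8, 3, 7), 226), ((11, 10, 12), (8, 5, 7), -565), ((12, 0, 11), (7, 6, 8), -226), ((2, 6, 9), (9, 0, 2), 773),
    ((8, 3, 9), (0, 9, 3), -44), ((6, 9, 3), (1, 3, 9), -1896), ((3, 5, 9), (9, 4, 3), -1171), ((9, 2, 10), (2, 9, 5), 1229),
    ((7, 10, 9), (9, 0, 7), -881), ((12, 5, 2), (9, 0, 7), -526), ((2, 6, 12), (9, 0, 7), 1106), ((13, 12, 2), (1, 9, 7), -687),
    ((2, 9, 12), (9, 2, 7), 820), ((11, 7, 9), (4, 9, 7), 1), ((8, 12, 2), (4, 9, 7), 1325), ((10, 2, 12), (5, 9, 7), 388),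
    ((2, 0, 12), (9, 6, 7), 194), ((9, 2, 11), (2, 9, 8), -121), ((11, 2, 12), (8, 9, 7), 168), ((1, 4, 10), (10, 0, 1), 224),
    ((3, 0, 11), (10, 0, 1), 1143), ((11, 2, 3), (10, 0, 1), -1599), ((6, 5, 13), (10, 0, 1), -751), ((13, 8, 6), (10, 0, 1), -3092),
    ((3, 4, 11), (10, 2, 1), 452), ((13, 8, 9), (3, 0, 10), -2381), ((11, 10, 3), (1, 3, 10), -562), ((6, 9, 13), (1, 3, 10), -98),
    ((3, 4, 10), (10, 2, 3), 1057), ((9, 5, 13), (10, 2, 3), -1285), ((10, 6, 5), (5, 0, 10), 1755), ((13, 1, 4), (5, 0, 10), 585),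
    ((4, 8, 13), (5, 0, 10), 395), ((6, 4, 13), (1, 5, 10), 130), ((5, 9, 10), (10, 2, 5), -764), ((4, 3, 13), (10, 2, 5), -202),
    ((9, 4, 13), (3, 5, 10), 1838), ((4, 5, 13), (5, 4, 10), -117), ((13, 1, 6), (10, 6, 1), -809), ((13, 1, 9), (10, 6, 3), 301),
    ((9, 12, 13), (10, 6, 3), -650), ((8, 3, 11), (7, 10, 1), 2011), ((2, 6, 13), (7, 10, 1), -1306), ((8, 3, 10), (7, 10, 3), -2195),
    ((0, 9, 13), (7, 10, 3), 1128), ((12, 5, 10), (7, 10, 5), 546), ((3, 5, 11), (1, 8, 10), 70), ((11, 7, 3), (1, 8, 10), -1328),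
    ((6, 0, 13), (1, 8, 10), 1072), ((11, 10, 5), (8, 5, 10), -1190), ((0, 4, 13), (8, 5, 10), 607), ((3, 6, 11), (1, 9, 10), -582),
    ((6, 3, 13), (1, 9, 10), -914), ((13, 12, 6), (1, 9, 10), 676), ((9, 3, 13), (3, 9, 10), -815), ((1, 4, 11), (11, 2, 1), -30),
    ((11, 10, 1), (1, 3, 11), -563), ((1, 8, 11), (11, 7, 1), -251), ((8, 12, 3), (5, 3, 12), 1585), ((3, 12, 13), (12, 3, 6), -761),
    ((7, 6, 12), (12, 0, 7), 71), ((12, 9, 7), (7, 2, 12), -86), ((7, 10, 12), (12, 5, 7), 290), ((9, 4, 12), (8, 12, 4), -2085),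
    ((11, 7, 12), (8, 12, 7), -348), ((12, 1, 13), (1, 12, 9), 602), ((13, 3, 7), (7, 0, 13), 178), ((7, 2, 13), (13, 1, 7), 145),
    ((13, 8, 10), (10, 0, 13), 531), ((10, 6, 13), (13, 1, 10), 342), ((10, 9, 13), (13, 3, 10), 709), ((13, 5, 10), (10, 4, 13), 142),
    ((13, 5, 11), (11, 0, 13), -1439), ((13, 8, 11), (11, 2, 13), -606), ((11, 6, 13), (13, 3, 11), 1237)]
  tr := trC
  big := 65536

theorem ct53_valid : validC ct53 = true := by decide +kernel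

theorem ct53_const : constOK ct53 13678 = true := by decide +kernel

/-- classes -/
def cs53 : List Cl := [
 cl 1 0 0 0 33619 0 119, cl 0 0 1 1 2 0 237, cl 1 1 0 1 5477 0 122, cl 1 2 0 0 0 16881 129,
 cl 0 0 0 2 0 14437 168, cl 1 2 0 2 0 4180 120, cl 2 2 0 0 0 1292 88, cl 1 0 1 1 0 2167 117,
 cl 0 0 2 0 0 0 1024, cl 2 1 0 1 0 1828 86, cl 1 0 0 2 0 968 112, cl 2 0 0 0 0 0 84,
 cl 0 0 2 2 1790 0 168, cl 0 0 1 3 2387 0 137, cl 1 1 0 3 4589 0 109, cl 2 2 0 2 3748 0 86,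
 cl 1 3 0 1 2746 0 132, cl 2 3 0 1 2240 0 89, cl 2 3 0 3 705 0 86, cl 3 3 0 1 358 0 72,
 cl 3 2 0 0 0 583 71]

theorem ct53_link : linkOK ct53 (cs53.map swp) = true := by decide +kernel

theorem cs53_tail0 : tailOK cs53 0 5 32 13678 = true := by decide +kernel

theorem cs53_grid0 : gridOK vtTree cs53 0 5 32 16 0 2015967961 29327 13678 = true := by
  decide +kernel

theorem cs53_tail1 : tailOK cs53 5 1 35 13678 = true := by decide +kernel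

theorem cs53_grid1 : gridOK vtTree cs53 5 1 35 13 0 2015967961 29327 13678 = true := by
  decide +kernel

theorem cs53_tail2 : tailOK cs53 6 1 38 13678 = true := by decide +kernel

theorem cs53_grid2 : gridOK vtTree cs53 6 1 38 10 0 2015967961 29327 13678 = true := by
  decide +kernel

theorem cs53_tail3 : tailOK cs53 7 1 41 13678 = true := by decide +kernel

theorem cs53_grid3 : gridOK vtTree cs53 7 1 41 7 0 2015967961 29327 13678 = true := by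
  decide +kernel

theorem cs53_tail4 : tailOK cs53 8 1 44 13678 = true := by decide +kernel

theorem cs53_grid4 : gridOK vtTree cs53 8 1 44 4 0 2015967961 29327 13678 = true := by
  decide +kernel

theorem cs53_tail5 : tailOK cs53 9 1 46 13678 = true := by decide +kernel

theorem cs53_grid5 : gridOK vtTree cs53 9 1 46 2 0 2015967961 29327 13678 = true := by
  decide +kernel

/-! ### Box 54: `24 ≤ 128 x ≤ 29`, `80 ≤ 128 y ≤ 88` -/

/-- certificate -/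
def ct54 : Cert where
  pts := ptsB
  g := 15437
  al := [(0, -120), (1, 3703), (2, 6607), (3, 7672), (4, 3072), (5, 93), (6, -1163), (7, 2045), (8, -2415), (9, 1229), (10, -4400), (11, 455), (12, -1996), (13, 3685)]
  be := [
    (1, 0, 364), (2, 0, -2020), (2, 1, -274), (3, 0, -399), (3, 1, -1369), (3, 2, -1854), (4, 0, -419),
    (4, 1, 3921), (4, 2, -6887), (4, 3, -1687), (5, 0, -538), (5, 1, 615), (5, 2, 996), (5, 3, -254),
    (5, 4, -1530), (6, 0, 745), (6, 1, 268), (6, 2, 1098), (6, 3, 1678), (6, 4, 1977), (6, 5, -334),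
    (7, 0, 108), (7, 1, -3967), (7, 2, 3063), (7, 3, -7128), (7, 4, 6890), (7, 5, 78), (7, 6, 635),
    (8, 0, 534), (8, 1, -161), (8, 2, 1429), (8, 3, 311), (8, 4, 2040), (8, 5, -24), (8, 6, -1354),
    (8, 7, 312), (9, 0, 1457), (9, 1, -807), (9, 2, 348), (9, 3, -4208), (9, 4, 9083), (9, 5, 1459),
    (9, 6, -585), (9, 7, 2188), (9, 8, 1902), (10, 0, 3318), (10, 1, 1157), (10, 2, 280), (10, 3, 8402),
    (10, 4, 7056), (10, 5, -1469), (10, 6, -10458), (10, 7, -1712), (10, 8, -1269), (10, 9, 1718), (11, 0, 3249),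
    (11, 1, 605), (11, 2, -170), (11, 3, -364), (11, 4, 2526), (11, 5, 2974), (11, 6, 1293), (11, 7, 3932),
    (11, 8, -443), (11, 9, -1200), (11, 10, 298), (12, 0, 771), (12, 1, -1065), (12, 2, 8193), (12, 3, 670),
    (12, 4, 306), (12, 5, 2006), (12, 6, 931), (12, 7, 4616), (12, 9, -7101), (12, 10, 5163), (12, 11, 1401),
    (13, 0, -1184), (13, 1, -1855), (13, 2, -3229), (13, 3, -10), (13, 4, -3072), (13, 5, -898), (13, 6, -633),
    (13, 7, 3807), (13, 8, 831), (13, 9, 1109), (13, 10, 15), (13, 11, -1957), (13, 12, 625)]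
  ta := [
    ((1, 11, 3), (3, 0, 1), 409), ((12, 3, 11), (3, 0, 1), -119), ((10, 2, 0), (3, 0, 2), -2068), ((6, 8, 5), (3, 2, 1), 581),
    ((11, 4, 12), (3, 2, 1), 86), ((1, 8, 0), (0, 4, 1), -544), ((3, 7, 11), (0, 4, 1), -3396), ((11, 10, 3), (0, 4, 1), 2572),
    ((5, 0, 2), (4, 2, 0), 1184), ((5, 0, 8), (2, 4, 1), 218), ((4, 2, 12), (2, 4, 1), -929), ((12, 9, 4), (2, 4, 1), 564),
    ((4, 7, 3), (3, 0, 4), 1853), ((10, 2, 5), (3, 0, 4), -2611), ((10, 8, 1), (3, 0, 4), 882), ((1, 11, 10), (3, 0, 4), -2841),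
    ((2, 10, 11), (3, 0, 4), 2490), ((12, 3, 7), (3, 0, 4), -467), ((1, 10, 3), (3, 4, 1), -1201), ((5, 10, 6), (3, 4, 1), 7791),
    ((11, 2, 12), (3, 4, 1), -2974), ((12, 7, 11), (3, 4, 1), -1233), ((5, 0, 10), (4, 2, 3), -3874), ((2, 4, 11), (4, 2, 3), 1167),
    ((12, 9, 7), (4, 2, 3), -886), ((1, 8, 5), (5, 2, 1), 1015), ((7, 2, 4), (3, 5, 0), -3750), ((10, 4, 2), (3, 5, 0), -1535),
    ((3, 9, 12), (3, 5, 0), 6340), ((13, 12, 9), (3, 5, 0), 334), ((6, 1, 5), (3, 5, 1), 170), ((2, 7, 3), (3, 5, 2), 395),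
    ((6, 1, 8), (3, 5, 2), -97), ((9, 3, 7), (3, 5, 2), 1211), ((10, 4, 0), (3, 5, 2), -756), ((4, 10, 11), (3, 5, 2), -1642),
    ((4, 2, 5), (5, 0, 4), -1109), ((10, 4, 5), (3, 5, 4), -1081), ((9, 3, 11), (6, 1, 0), -216), ((7, 2, 1), (6, 1, 2), 973),
    ((3, 5, 8), (6, 1, 2), -105), ((10, 4, 12), (6, 1, 2), -693), ((13, 12, 4), (6, 1, 2), -161), ((1, 11, 9), (3, 0, 6), 314),
    ((13, 9, 11), (3, 0, 6), 406), ((3, 5, 6), (6, 1, 3), -123), ((9, 3, 1), (6, 1, 3), 647), ((13, 12, 11), (6, 1, 3), -277),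
    ((6, 8, 3), (3, 2, 6), 674), ((9, 7, 1), (3, 2, 6), -940), ((11, 4, 13), (3, 2, 6), 1352), ((11, 10, 9), (0, 4, 6), -33),
    ((4, 10, 6), (6, 1, 4), 3599), ((9, 3, 10), (6, 1, 4), 2577), ((10, 4, 9), (6, 1, 4), -6077), ((2, 7, 13), (6, 1, 4), -696),
    ((13, 12, 2), (6, 1, 4), 848), ((12, 9, 10), (2, 4, 6), -301), ((4, 2, 13), (2, 4, 6), 1231), ((1, 10, 9), (3, 4, 6), 312),
    ((11, 2, 13), (3, 4, 6), 918), ((12, 9, 11), (5, 0, 6), 728), ((3, 7, 1), (5, 2, 6), 3146), ((1, 8, 3), (5, 2, 6), -1207),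
    ((11, 10, 12), (5, 2, 6), -2152), ((11, 8, 3), (0, 7, 1), 646), ((4, 7, 0), (3, 0, 7), -1548), ((1, 11, 8), (3, 0, 7), 172),
    ((10, 8, 11), (3, 0, 7), -689), ((3, 0, 8), (7, 4, 1), -422), ((2, 10, 6), (7, 4, 1), 5659), ((8, 10, 3), (7, 4, 1), 2816),
    ((1, 11, 7), (7, 4, 1), 922), ((10, 2, 12), (7, 4, 1), -1617), ((12, 3, 10), (7, 4, 1), -2666), ((4, 7, 13), (7, 4, 1), -1510),
    ((13, 9, 4), (7, 4, 1), -186), ((3, 5, 7), (2, 7, 5), 1521), ((11, 8, 9), (0, 7, 6), 314), ((7, 2, 6), (6, 1, 7), 851),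
    ((9, 3, 8), (6, 1, 7), -1440), ((10, 4, 13), (6, 1, 7), 724), ((13, 12, 10), (6, 1, 7), -147), ((1, 8, 9), (3, 7, 6), 387),
    ((11, 10, 13), (3, 7, 6), 298), ((8, 10, 9), (7, 4, 6), 193), ((10, 2, 13), (7, 4, 6), 195), ((13, 9, 10), (7, 4, 6), -791),
    ((12, 0, 2), (8, 2, 0), -195), ((8, 2, 5), (2, 8, 1), -584), ((12, 0, 4), (2, 8, 1), 382), ((2, 8, 6), (8, 2, 3), 87),
    ((12, 0, 10), (8, 2, 3), -778), ((4, 8, 1), (8, 4, 0), 58), ((9, 0, 4), (8, 4, 0), -1024), ((10, 7, 3), (8, 4, 0), 4877),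
    ((6, 11, 10), (8, 4, 0), -1891), ((7, 10, 11), (8, 4, 0), -241), ((12, 5, 2), (8, 4, 0), -1217), ((13, 3, 7), (8, 4, 0), -1443),
    ((0, 5, 12), (2, 4, 8), -2205), ((12, 9, 0), (2, 4, 8), 3128), ((7, 10, 1), (8, 4, 3), 634), ((6, 11, 2), (8, 4, 3), -390),
    ((12, 5, 10), (8, 4, 3), 148), ((10, 7, 12), (8, 4, 3), -933), ((13, 3, 4), (8, 4, 3), 884), ((12, 5, 4), (8, 4, 5), -133),
    ((0, 10, 6), (6, 8, 0), 3891), ((11, 4, 9), (6, 8, 0), -3690), ((9, 7, 11), (6, 8, 0), -319), ((9, 0, 10), (4, 8, 6), 495),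
    ((10, 7, 9), (4, 8, 6), -1596), ((6, 11, 4), (4, 8, 6), -502), ((13, 3, 2), (4, 8, 6), 884), ((7, 8, 11), (8, 7, 0), 56),
    ((13, 0, 7), (8, 7, 0), 239), ((8, 7, 3), (7, 8, 1), -421), ((13, 0, 4), (7, 8, 1), 153), ((13, 12, 0), (7, 2, 8), 115),
    ((8, 10, 7), (7, 4, 8), -9), ((0, 3, 13), (7, 4, 8), 433), ((13, 9, 0), (7, 4, 8), 239), ((8, 7, 9), (7, 8, 6), 135),
    ((13, 0, 10), (7, 8, 6), -106), ((6, 11, 3), (9, 0, 1), -562), ((13, 3, 11), (9, 0, 1), 331), ((7, 2, 10), (9, 3, 0), 3274),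
    ((10, 4, 7), (9, 3, 0), -3508), ((4, 10, 8), (9, 3, 0), 2427), ((6, 1, 11), (9, 3, 0), 55), ((5, 3, 12), (9, 3, 0), -1381),
    ((3, 9, 13), (9, 3, 0), -1157), ((13, 12, 3), (9, 3, 0), -503), ((2, 7, 9), (9, 3, 2), -1792), ((3, 10, 6), (9, 4, 1), 9109),
    ((13, 7, 11), (9, 4, 1), -1689), ((12, 9, 2), (4, 2, 9), -1427), ((5, 9, 12), (9, 5, 0), 2378), ((6, 11, 9), (9, 0, 6), 418),
    ((9, 3, 6), (6, 1, 9), 338), ((6, 10, 9), (9, 4, 6), -70), ((10, 7, 0), (9, 0, 7), 1231), ((4, 8, 11), (9, 0, 7), -1341),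
    ((6, 11, 8), (9, 0, 7), 338), ((6, 8, 9), (9, 7, 6), 234), ((8, 4, 9), (9, 0, 8), -1634), ((7, 10, 6), (9, 0, 8), 2366),
    ((6, 11, 7), (9, 0, 8), 877), ((13, 3, 10), (9, 0, 8), -1566), ((10, 7, 13), (9, 0, 8), 381), ((3, 2, 11), (0, 10, 1), -2060),
    ((11, 4, 3), (0, 10, 1), -345), ((8, 10, 5), (2, 10, 1), 3318), ((1, 11, 2), (2, 10, 1), -1132), ((12, 3, 4), (2, 10, 1), 685),
    ((4, 7, 12), (2, 10, 1), -1727), ((12, 5, 7), (10, 7, 5), -1381), ((12, 3, 0), (2, 10, 8), -1056), ((13, 9, 2), (10, 2, 9), -4),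
    ((3, 0, 11), (1, 11, 0), 605), ((11, 10, 0), (0, 4, 11), 1055), ((11, 10, 5), (5, 2, 11), 2371), ((9, 0, 11), (6, 11, 0), 150),
    ((12, 5, 11), (6, 11, 5), 214), ((11, 8, 0), (0, 7, 11), -796), ((12, 0, 7), (2, 8, 11), -941), ((1, 4, 12), (12, 2, 1), 2421),
    ((1, 11, 12), (12, 3, 1), 419), ((13, 12, 1), (6, 1, 12), -32), ((6, 10, 12), (12, 2, 6), -1107), ((1, 4, 13), (12, 2, 6), 1310),
    ((13, 7, 1), (12, 2, 6), -170), ((13, 9, 1), (12, 3, 6), -540), ((1, 11, 13), (12, 3, 6), 922), ((13, 2, 1), (6, 4, 12), 1282),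
    ((6, 11, 12), (12, 5, 6), -251), ((13, 3, 1), (12, 5, 6), 214), ((1, 10, 12), (12, 7, 1), 1097), ((1, 10, 13), (12, 7, 6), 256),
    ((8, 2, 12), (12, 0, 8), -544), ((8, 10, 12), (12, 3, 8), -710), ((12, 5, 8), (8, 4, 12), 709), ((13, 12, 5), (5, 3, 13), -283),
    ((13, 12, 6), (6, 1, 13), -158), ((6, 4, 13), (13, 2, 6), -41), ((6, 11, 13), (13, 3, 6), 43), ((6, 10, 13), (13, 7, 6), 794),
    ((8, 7, 13), (13, 0, 8), 107), ((8, 4, 13), (13, 3, 8), 192), ((8, 10, 13), (13, 9, 8), 404)]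
  tr := trB
  big := 65536

theorem ct54_valid : validC ct54 = true := by decide +kernel

theorem ct54_const : constOK ct54 12048 = true := by decide +kernel

/-- classes -/
def cs54 : List Cl := [
 cl 2 2 0 0 0 0 96, cl 1 2 0 2 0 3550 102, cl 0 0 1 1 14436 0 147, cl 1 2 0 0 0 6414 161,
 cl 0 0 0 2 0 14526 106, cl 2 1 0 1 0 757 87, cl 1 3 0 1 0 257 142, cl 1 0 0 0 27414 0 119,
 cl 0 0 2 0 5074 0 194, cl 1 1 0 1 7271 0 119, cl 2 3 0 1 6223 0 98, cl 0 0 2 2 3659 0 104,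
 cl 0 0 3 1 0 1770 130, cl 1 0 0 2 356 0 94, cl 2 2 0 2 615 0 84, cl 1 0 1 1 0 1 103,
 cl 2 0 0 0 0 1086 84, cl 2 0 0 2 0 1065 78, cl 2 0 1 1 0 1509 79, cl 1 0 2 0 2552 0 101,
 cl 2 0 2 0 0 633 77, cl 1 0 2 2 0 0 87, cl 1 0 3 1 831 0 92]

theorem ct54_link : linkOK ct54 (cs54.map swp) = true := by decide +kernel

theorem cs54_tail0 : tailOK cs54 24 1 80 12048 = true := by decide +kernel

theorem cs54_grid0 : gridOK vtTree cs54 24 1 80 8 0 26309720705 26490 12048 = true := by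
  decide +kernel

theorem cs54_tail1 : tailOK cs54 25 1 80 12048 = true := by decide +kernel

theorem cs54_grid1 : gridOK vtTree cs54 25 1 80 6 0 26309720705 26490 12048 = true := by
  decide +kernel

theorem cs54_tail2 : tailOK cs54 26 1 80 12048 = true := by decide +kernel

theorem cs54_grid2 : gridOK vtTree cs54 26 1 80 5 0 26309720705 26490 12048 = true := by
  decide +kernel

theorem cs54_tail3 : tailOK cs54 27 1 80 12048 = true := by decide +kernel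

theorem cs54_grid3 : gridOK vtTree cs54 27 1 80 3 0 26309720705 26490 12048 = true := by
  decide +kernel

theorem cs54_tail4 : tailOK cs54 28 1 80 12048 = true := by decide +kernel

theorem cs54_grid4 : gridOK vtTree cs54 28 1 80 2 0 26309720705 26490 12048 = true := by
  decide +kernel

end Pool.Agent.H79.OC
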