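import Pool.Agent.H79.OC.Pts
import Pool.Agent.H79.OC.Pts2
import Pool.Agent.H79.OC.VTab
import Pool.Agent.H79.OC.Swp

set_option autoImplicit false
set_option maxRecDepth 100000

/-!
# Certificates, part 29
-/

namespace Pool.Agent.H79.OC

open Cl

/-! ### Box 55: `8 ≤ 128 x ≤ 11`, `104 ≤ 128 y ≤ 107` -/

/-- certificate -/
def ct55 : Cert where
  pts := ptsA
  g := 20710
  al := [(0, 7168), (1, 4089), (2, 3308), (3, 1487), (4, 6740), (5, 3822), (6, -3709), (7, 2552), (8, 2750), (9, 698), (10, 8318), (11, 2724), (12, -1028), (13, 342)]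
  be := [
    (1, 0, 6358), (2, 0, -2250), (2, 1, 1032), (3, 0, 2749), (3, 1, -2601), (3, 2, 3269), (4, 0, -700),
    (4, 1, 818), (4, 2, 2713), (4, 3, -3071), (5, 0, -2516), (5, 1, -6851), (5, 2, 1027), (5, 3, -2846),
    (5, 4, 1059), (6, 0, 3392), (6, 1, 4732), (6, 2, 1636), (6, 3, 3332), (6, 4, -483), (6, 5, 1200),
    (7, 0, -323), (7, 1, -4118), (7, 2, -3875), (7, 3, -939), (7, 4, 571), (7, 5, -3002), (7, 6, 571),
    (8, 0, -6329), (8, 1, -2817), (8, 2, 833), (8, 3, -1577), (8, 4, 2339), (8, 5, 4961), (8, 6, 1349),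
    (8, 7, 738), (9, 0, 664), (9, 1, 6445), (9, 2, 2262), (9, 3, 6559), (9, 4, -2776), (9, 5, 1617),
    (9, 6, 409), (9, 7, 1221), (9, 8, 1933), (10, 0, -6086), (10, 1, -373), (10, 2, -5639), (10, 3, 3972),
    (10, 4, -3191), (10, 5, 463), (10, 6, -253), (10, 7, 2907), (10, 8, -2902), (10, 9, -2088), (11, 0, -1909),
    (11, 1, 434), (11, 2, 832), (11, 3, -1086), (11, 4, -938), (11, 5, 458), (11, 6, 1175), (11, 7, 70),
    (11, 8, -3510), (11, 9, -7257), (11, 10, -243), (12, 0, 1870), (12, 1, 857), (12, 2, 1204), (12, 4, 1998),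
    (12, 5, 2600), (12, 6, -24), (12, 7, 7), (12, 8, 3209), (12, 9, 4140), (12, 10, -2154), (12, 11, -1293),
    (13, 0, -588), (13, 1, 1696), (13, 2, 2019), (13, 3, -849), (13, 4, 138), (13, 5, -1098), (13, 6, 682),
    (13, 7, 2802), (13, 8, 872), (13, 9, 5088), (13, 10, 976), (13, 11, -608), (13, 12, -1502)]
  ta := [
    ((1, 9, 3), (3, 0, 1), -1101), ((8, 4, 12), (3, 0, 1), -3157), ((12, 5, 8), (3, 0, 1), -2155), ((11, 9, 13), (3, 0, 1), 7531),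
    ((8, 4, 1), (3, 0, 2), 803), ((1, 9, 8), (3, 0, 2), -347), ((2, 10, 3), (3, 0, 2), -1651), ((11, 9, 7), (3, 0, 2), 3937),
    ((3, 8, 1), (1, 2, 3), 673), ((12, 1, 8), (1, 2, 3), -719), ((13, 7, 11), (1, 2, 3), -93), ((1, 2, 4), (0, 4, 2), -2259),
    ((9, 5, 7), (0, 4, 2), 78), ((3, 8, 10), (0, 4, 2), 814), ((9, 10, 8), (0, 4, 2), -10), ((13, 7, 5), (0, 4, 2), 313),
    ((4, 8, 3), (3, 0, 4), -279), ((10, 2, 1), (3, 0, 4), 1502), ((1, 9, 10), (3, 0, 4), 981), ((11, 9, 5), (3, 0, 4), 1482),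
    ((9, 1, 12), (3, 0, 4), -395), ((12, 5, 9), (3, 0, 4), -3698), ((1, 10, 3), (3, 4, 1), -1657), ((12, 9, 8), (3, 4, 1), -920),
    ((11, 5, 13), (3, 4, 1), 253), ((1, 10, 8), (3, 4, 2), 1040), ((11, 5, 7), (3, 4, 2), -80), ((0, 8, 5), (5, 1, 0), 2822),
    ((6, 4, 12), (5, 1, 0), 2115), ((2, 9, 13), (5, 1, 0), -3992), ((2, 5, 13), (5, 2, 0), -223), ((2, 9, 5), (5, 1, 2), -1584),
    ((12, 5, 0), (3, 0, 5), -2644), ((0, 6, 12), (3, 0, 5), 1511), ((10, 2, 13), (3, 0, 5), -121), ((0, 8, 12), (5, 1, 3), -2589),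
    ((10, 11, 13), (5, 1, 3), -572), ((5, 9, 0), (0, 4, 5), 4679), ((12, 1, 6), (0, 4, 5), -302), ((2, 1, 13), (0, 4, 5), -1727),
    ((13, 7, 2), (0, 4, 5), -829), ((6, 4, 1), (5, 1, 4), -2531), ((9, 2, 0), (5, 1, 4), -798), ((2, 9, 7), (5, 1, 4), -233),
    ((0, 8, 9), (5, 1, 4), 4100), ((11, 10, 3), (5, 1, 4), -794), ((1, 5, 13), (5, 1, 4), 582), ((2, 5, 7), (5, 2, 4), 1400),
    ((12, 9, 0), (3, 4, 5), -341), ((10, 1, 13), (3, 4, 5), -496), ((1, 9, 4), (0, 6, 2), 541), ((9, 1, 7), (0, 6, 2), -1602),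
    ((8, 4, 9), (0, 6, 2), -1567), ((2, 10, 0), (0, 6, 2), 4179), ((3, 0, 10), (0, 6, 2), -1435), ((9, 11, 8), (0, 6, 2), 333),
    ((5, 12, 13), (0, 6, 2), 1362), ((2, 1, 7), (1, 2, 6), 3566), ((0, 4, 9), (1, 2, 6), -1763), ((5, 9, 4), (1, 2, 6), 928),
    ((9, 10, 0), (1, 2, 6), -132), ((13, 7, 1), (1, 2, 6), -1376), ((1, 12, 13), (1, 2, 6), 1095), ((1, 9, 11), (6, 0, 3), 3850),
    ((1, 11, 3), (3, 6, 1), 373), ((11, 1, 13), (3, 6, 1), 261), ((11, 1, 7), (3, 6, 2), -154), ((1, 11, 8), (3, 6, 2), 1644),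
    ((3, 0, 8), (0, 6, 4), 1124), ((4, 8, 0), (0, 6, 4), 2581), ((1, 9, 2), (0, 6, 4), -1945), ((9, 1, 5), (0, 6, 4), -4074),
    ((10, 2, 9), (0, 6, 4), -552), ((9, 11, 10), (0, 6, 4), 1233), ((12, 5, 1), (0, 6, 4), 2541), ((1, 5, 7), (6, 4, 2), 1527),
    ((9, 2, 4), (6, 4, 2), -2720), ((0, 8, 10), (6, 4, 2), 210), ((11, 10, 8), (6, 4, 2), 355), ((11, 1, 5), (3, 6, 4), 917),
    ((1, 11, 10), (3, 6, 4), -508), ((12, 5, 6), (0, 6, 5), 179), ((6, 4, 5), (5, 1, 6), 67), ((0, 10, 7), (7, 1, 0), -1767),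
    ((4, 9, 13), (7, 1, 0), 1), ((13, 12, 4), (7, 1, 0), 771), ((7, 9, 0), (0, 2, 7), 645), ((4, 1, 13), (0, 2, 7), -198),
    ((13, 5, 4), (0, 2, 7), 54), ((8, 4, 13), (3, 0, 7), -945), ((8, 11, 13), (7, 1, 3), 543), ((13, 12, 8), (7, 1, 3), -419),
    ((7, 11, 3), (3, 2, 7), 186), ((8, 1, 13), (3, 2, 7), -390), ((13, 7, 4), (0, 4, 7), -755), ((4, 9, 7), (7, 1, 4), -1433),
    ((7, 5, 4), (4, 2, 7), 602), ((4, 2, 13), (7, 5, 0), -802), ((8, 10, 13), (7, 5, 3), 38), ((6, 2, 7), (7, 1, 6), 111),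
    ((5, 1, 8), (0, 8, 1), -2256), ((9, 2, 3), (0, 8, 1), -4466), ((10, 11, 7), (0, 8, 1), 289), ((9, 2, 8), (0, 8, 2), -1109),
    ((3, 8, 2), (1, 2, 8), 53), ((2, 10, 8), (8, 4, 2), 1307), ((5, 9, 3), (3, 8, 5), 3045), ((12, 1, 0), (3, 8, 5), 199),
    ((0, 4, 12), (3, 8, 5), -3936), ((13, 7, 10), (3, 8, 5), -1907), ((10, 9, 13), (3, 8, 5), 4523), ((4, 8, 6), (0, 6, 8), -881),
    ((9, 11, 2), (0, 6, 8), 30), ((10, 2, 11), (0, 6, 8), 687), ((11, 2, 3), (6, 8, 1), -246), ((2, 11, 7), (6, 8, 1), 250),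
    ((11, 2, 8), (6, 8, 2), -321), ((1, 11, 2), (3, 6, 8), -750), ((8, 11, 7), (7, 1, 8), -353), ((13, 7, 8), (3, 8, 7), -179),
    ((8, 10, 7), (7, 5, 8), -1390), ((1, 10, 0), (3, 4, 9), -614), ((10, 1, 7), (3, 4, 9), 478), ((5, 11, 8), (3, 4, 9), -661),
    ((12, 9, 4), (3, 4, 9), 550), ((9, 12, 13), (3, 4, 9), 65), ((1, 9, 6), (0, 6, 9), -729), ((3, 0, 11), (0, 6, 9), 1038),
    ((9, 11, 0), (0, 6, 9), 1324), ((6, 4, 9), (9, 2, 6), -472), ((0, 8, 11), (9, 2, 6), -216), ((11, 10, 0), (9, 2, 6), -285),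
    ((1, 11, 0), (3, 6, 9), 705), ((3, 10, 7), (7, 9, 3), -997), ((13, 5, 8), (7, 9, 3), -1454), ((8, 9, 13), (7, 9, 3), -361),
    ((11, 2, 0), (6, 8, 9), 320), ((9, 10, 4), (0, 4, 10), 327), ((1, 12, 7), (0, 4, 10), -168), ((13, 7, 12), (0, 4, 10), -831),
    ((3, 4, 10), (1, 10, 4), 400), ((9, 12, 7), (1, 10, 4), 10), ((8, 4, 10), (2, 10, 4), -635), ((5, 12, 7), (2, 10, 4), -568),
    ((12, 2, 6), (5, 10, 0), -1858), ((2, 12, 13), (5, 10, 0), -188), ((10, 11, 5), (5, 1, 10), -21), ((2, 9, 12), (5, 1, 10), -896),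
    ((12, 5, 2), (10, 2, 5), 174), ((12, 2, 0), (5, 10, 3), 1005), ((10, 5, 13), (5, 10, 3), -184), ((2, 12, 7), (5, 10, 4), 370),
    ((2, 10, 6), (0, 6, 10), -592), ((8, 4, 11), (0, 6, 10), -441), ((9, 11, 4), (0, 6, 10), 870), ((3, 4, 11), (1, 10, 6), 618),
    ((5, 11, 4), (1, 10, 6), -491), ((1, 11, 4), (3, 6, 10), 67), ((11, 10, 4), (6, 4, 10), -1229), ((7, 12, 4), (4, 10, 7), 427),
    ((5, 10, 8), (10, 5, 7), -304), ((12, 2, 4), (10, 5, 7), 423), ((11, 2, 4), (6, 8, 10), 317), ((12, 1, 2), (5, 9, 10), -2053),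
    ((0, 4, 11), (9, 10, 6), -377), ((12, 9, 6), (5, 11, 0), -624), ((9, 11, 6), (0, 6, 11), -143), ((3, 6, 11), (1, 11, 6), 676),
    ((6, 8, 11), (11, 2, 6), 1319), ((11, 10, 6), (6, 4, 11), -570), ((12, 5, 3), (3, 0, 12), -519), ((3, 8, 12), (12, 1, 3), 828),
    ((12, 9, 3), (3, 4, 12), 529), ((4, 10, 13), (7, 12, 0), 98), ((2, 11, 13), (6, 8, 12), 458), ((10, 12, 13), (12, 10, 0), -314),
    ((10, 9, 12), (12, 1, 10), -547), ((12, 5, 10), (10, 2, 12), -798), ((10, 12, 7), (12, 10, 4), 776), ((11, 9, 12), (12, 5, 11), -155),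
    ((11, 12, 13), (12, 11, 8), -1095), ((0, 9, 13), (13, 1, 0), -33), ((13, 5, 0), (0, 2, 13), 705), ((3, 11, 13), (13, 1, 3), 469),
    ((13, 7, 0), (0, 4, 13), -354), ((3, 10, 13), (13, 5, 3), -79), ((13, 12, 6), (6, 2, 13), 1062), ((3, 8, 13), (13, 7, 3), 62),
    ((13, 12, 0), (0, 10, 13), 117)]
  tr := trA
  big := 65536

theorem ct55_valid : validC ct55 = true := by decide +kernel

theorem ct55_const : constOK ct55 11274 = true := by decide +kernel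

/-- classes -/
def cs55 : List Cl := [
 cl 1 0 0 0 27871 0 119, cl 1 1 0 1 7786 0 108, cl 0 0 1 1 6572 0 132, cl 1 0 0 2 1 0 86,
 cl 2 2 0 0 0 185 88, cl 0 0 0 2 0 11644 93, cl 1 2 0 0 0 16356 131, cl 1 2 0 2 0 4691 88,
 cl 1 0 1 1 0 0 103, cl 2 1 0 1 0 655 83, cl 0 0 2 0 1154 0 423, cl 0 0 2 2 5433 0 93,
 cl 0 0 1 3 3208 0 76, cl 1 1 0 3 2033 0 74, cl 1 0 2 0 0 0 112, cl 2 0 0 0 0 849 84,
 cl 2 3 0 1 1142 0 86, cl 1 3 0 1 0 4375 113, cl 1 3 0 3 1175 0 75, cl 2 2 0 2 1420 0 76,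
 cl 0 0 3 1 0 3447 130]

theorem ct55_link : linkOK ct55 (cs55.map swp) = true := by decide +kernel

theorem cs55_tail0 : tailOK cs55 8 1 104 11274 = true := by decide +kernel

theorem cs55_grid0 : gridOK vtTree cs55 8 1 104 3 0 4868198236 31434 11274 = true := by
  decide +kernel

theorem cs55_tail1 : tailOK cs55 9 1 104 11274 = true := by decide +kernel

theorem cs55_grid1 : gridOK vtTree cs55 9 1 104 2 0 4868198236 31434 11274 = true := by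
  decide +kernel

theorem cs55_tail2 : tailOK cs55 10 1 104 11274 = true := by decide +kernel

theorem cs55_grid2 : gridOK vtTree cs55 10 1 104 1 0 4868198236 31434 11274 = true := by
  decide +kernel

/-! ### Box 56: `0 ≤ 128 x ≤ 8`, `104 ≤ 128 y ≤ 112` -/

/-- certificate -/
def ct56 : Cert where
  pts := pts14
  g := 17590
  al := [(0, 5381), (1, 620), (2, 620), (3, 7179), (4, 4825), (5, 2624), (6, 2624), (7, -3755), (8, 5939), (9, 865), (10, 865), (11, 1066), (12, -899), (13, -899)]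
  be := [
    (1, 0, -518), (2, 0, -518), (2, 1, -669), (3, 0, -2780), (3, 1, 2259), (3, 2, 2259), (4, 0, -1616),
    (4, 1, 2797), (4, 2, 2797), (4, 3, -8302), (5, 0, -1885), (5, 1, 6499), (5, 2, 151), (5, 3, 2810),
    (5, 4, 3910), (6, 0, -1885), (6, 1, 151), (6, 2, 6499), (6, 3, 2810), (6, 4, 3910), (6, 5, -3274),
    (7, 0, -479), (7, 1, 2827), (7, 2, 2827), (7, 3, 8793), (7, 4, 5782), (7, 5, 793), (7, 6, 793),
    (8, 0, -711), (8, 1, -667), (8, 2, -667), (8, 3, -3486), (8, 4, 3951), (8, 5, 427), (8, 6, 427),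
    (8, 7, -7145), (9, 0, -10), (9, 1, -213), (9, 2, -285), (9, 3, -26), (9, 4, 225), (9, 5, 1655),
    (9, 6, 143), (9, 7, -82), (9, 8, 2034), (10, 0, -10), (10, 1, -285), (10, 2, -213), (10, 3, -26),
    (10, 4, 225), (10, 5, 143), (10, 6, 1655), (10, 7, -82), (10, 8, 2034), (10, 9, -1121), (11, 0, -443),
    (11, 1, -549), (11, 2, -549), (11, 3, 357), (11, 4, 35), (11, 5, -499), (11, 6, -499), (11, 7, 607),
    (11, 8, 71), (11, 9, 223), (11, 10, 223), (12, 0, -574), (12, 1, -2044), (12, 2, 283), (12, 3, -776),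
    (12, 4, -1787), (12, 5, -2080), (12, 6, 1030), (12, 7, 3541), (12, 8, 938), (12, 9, -1055), (12, 10, -177),
    (12, 11, 443), (13, 0, -574), (13, 1, 283), (13, 2, -2044), (13, 3, -776), (13, 4, -1787), (13, 5, 1030),
    (13, 6, -2080), (13, 7, 3541), (13, 8, 938), (13, 9, -177), (13, 10, -1055), (13, 11, 443), (13, 12, -927)]
  ta := [
    ((3, 2, 1), (0, 1, 2), -478), ((4, 5, 6), (0, 1, 2), -1949), ((7, 6, 5), (0, 1, 2), -270), ((8, 9, 10), (0, 1, 2), 814),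
    ((11, 10, 9), (0, 1, 2), -207), ((5, 4, 12), (0, 1, 2), 1117), ((6, 13, 4), (0, 1, 2), 1117), ((3, 2, 0), (0, 1, 3), 494),
    ((4, 5, 7), (0, 1, 3), 325), ((7, 6, 4), (0, 1, 3), 325), ((8, 9, 11), (0, 1, 3), -819), ((11, 10, 8), (0, 1, 3), -819),
    ((6, 5, 3), (1, 2, 4), -687), ((5, 6, 8), (1, 2, 4), -605), ((10, 9, 7), (1, 2, 4), 1090), ((4, 12, 1), (1, 2, 4), 259),
    ((13, 4, 2), (1, 2, 4), 259), ((7, 4, 3), (0, 3, 4), -2400), ((4, 7, 8), (0, 3, 4), -1580), ((11, 8, 7), (0, 3, 4), 100),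
    ((6, 4, 3), (1, 3, 4), 261), ((5, 7, 8), (1, 3, 4), 827), ((10, 8, 7), (1, 3, 4), -1034), ((5, 4, 3), (2, 3, 4), 261),
    ((6, 7, 8), (2, 3, 4), 827), ((9, 8, 7), (2, 3, 4), -1034), ((5, 4, 0), (0, 1, 5), -1605), ((2, 3, 7), (0, 1, 5), -4004),
    ((7, 6, 2), (0, 1, 5), 2970), ((4, 5, 9), (0, 1, 5), 180), ((9, 8, 4), (0, 1, 5), -2086), ((6, 7, 11), (0, 1, 5), -328),
    ((11, 10, 6), (0, 1, 5), -885), ((13, 6, 10), (0, 1, 5), 6544), ((7, 5, 2), (0, 2, 5), -1444), ((4, 6, 9), (0, 2, 5), -1094),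
    ((11, 9, 6), (0, 2, 5), 197), ((5, 12, 0), (0, 2, 5), 1209), ((10, 8, 13), (0, 2, 5), 894), ((6, 5, 2), (1, 2, 5), -2451),
    ((5, 6, 9), (1, 2, 5), -2030), ((10, 9, 6), (1, 2, 5), 691), ((4, 12, 0), (1, 2, 5), 628), ((4, 13, 8), (1, 2, 5), 2045),
    ((7, 4, 2), (0, 3, 5), -126), ((4, 7, 9), (0, 3, 5), -146), ((11, 8, 6), (0, 3, 5), -336), ((5, 4, 2), (2, 3, 5), -1988),
    ((6, 7, 9), (2, 3, 5), 228), ((9, 8, 6), (2, 3, 5), -1642), ((0, 1, 12), (2, 3, 5), 274), ((13, 6, 8), (2, 3, 5), 5506),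
    ((7, 6, 1), (0, 1, 6), -1444), ((4, 5, 10), (0, 1, 6), -1094), ((11, 10, 5), (0, 1, 6), 197), ((9, 8, 12), (0, 1, 6), 894),
    ((6, 13, 0), (0, 1, 6), 1209), ((6, 4, 0), (0, 2, 6), -1605), ((1, 3, 7), (0, 2, 6), -4004), ((7, 5, 1), (0, 2, 6), 2970),
    ((4, 6, 10), (0, 2, 6), 180), ((10, 8, 4), (0, 2, 6), -2086), ((5, 7, 11), (0, 2, 6), -328), ((11, 9, 5), (0, 2, 6), -885),
    ((12, 5, 9), (0, 2, 6), 6544), ((6, 5, 1), (1, 2, 6), -2451), ((5, 6, 10), (1, 2, 6), -2030), ((10, 9, 5), (1, 2, 6), 691),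
    ((12, 4, 8), (1, 2, 6), 2045), ((13, 4, 0), (1, 2, 6), 628), ((7, 4, 1), (0, 3, 6), -126), ((4, 7, 10), (0, 3, 6), -146),
    ((11, 8, 5), (0, 3, 6), -336), ((6, 4, 1), (1, 3, 6), -1988), ((5, 7, 10), (1, 3, 6), 228), ((10, 8, 5), (1, 3, 6), -1642),
    ((12, 5, 8), (1, 3, 6), 5506), ((0, 2, 13), (1, 3, 6), 274), ((1, 2, 7), (6, 5, 0), -1860), ((10, 9, 4), (6, 5, 0), -10),
    ((5, 6, 11), (6, 5, 0), 403), ((12, 4, 9), (6, 5, 0), 290), ((4, 13, 10), (6, 5, 0), 290), ((7, 6, 0), (0, 1, 7), -187),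
    ((4, 5, 11), (0, 1, 7), -384), ((11, 10, 4), (0, 1, 7), 256), ((7, 5, 0), (0, 2, 7), -187), ((4, 6, 11), (0, 2, 7), -384),
    ((11, 9, 4), (0, 2, 7), 256), ((7, 4, 0), (0, 3, 7), 163), ((4, 7, 11), (0, 3, 7), 304), ((11, 8, 4), (0, 3, 7), -409),
    ((9, 8, 1), (0, 1, 8), -229), ((2, 3, 10), (0, 1, 8), -564), ((11, 10, 3), (0, 1, 8), 238), ((1, 3, 9), (0, 2, 8), -564),
    ((10, 8, 2), (0, 2, 8), -229), ((11, 9, 3), (0, 2, 8), 238), ((10, 9, 3), (1, 2, 8), 92), ((11, 8, 3), (0, 3, 8), -44),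
    ((10, 8, 3), (1, 3, 8), -126), ((9, 8, 3), (2, 3, 8), -126), ((1, 5, 9), (0, 4, 8), 1948), ((2, 6, 10), (0, 4, 8), 1948),
    ((3, 7, 11), (0, 4, 8), -1179), ((8, 5, 1), (1, 4, 8), 58), ((3, 6, 10), (1, 4, 8), 492), ((10, 7, 3), (1, 4, 8), 308),
    ((8, 6, 2), (2, 4, 8), 58), ((3, 5, 9), (2, 4, 8), 492), ((9, 7, 3), (2, 4, 8), 308), ((8, 7, 3), (3, 4, 8), 7),
    ((1, 4, 9), (8, 5, 0), 20), ((10, 7, 2), (8, 5, 0), 307), ((3, 6, 11), (8, 5, 0), 124), ((2, 13, 10), (8, 5, 0), -153),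
    ((9, 6, 3), (2, 5, 8), 266), ((8, 13, 2), (2, 5, 8), -17), ((9, 7, 1), (8, 6, 0), 307), ((2, 4, 10), (8, 6, 0), 20),
    ((3, 5, 11), (8, 6, 0), 124), ((1, 12, 9), (8, 6, 0), -153), ((3, 5, 10), (8, 6, 1), 266), ((1, 12, 8), (8, 6, 1), -17),
    ((3, 4, 11), (8, 7, 0), -195), ((3, 4, 10), (8, 7, 1), -556), ((3, 4, 9), (8, 7, 2), -556), ((9, 8, 0), (0, 1, 9), -208),
    ((2, 3, 11), (0, 1, 9), -193), ((11, 10, 2), (0, 1, 9), 241), ((11, 9, 2), (0, 2, 9), 264), ((10, 9, 2), (1, 2, 9), 78),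
    ((11, 8, 2), (0, 3, 9), 251), ((9, 8, 2), (2, 3, 9), -195), ((9, 5, 0), (0, 4, 9), -39), ((2, 6, 11), (0, 4, 9), 320),
    ((11, 7, 2), (0, 4, 9), -40), ((9, 7, 2), (2, 4, 9), -44), ((9, 6, 2), (2, 5, 9), -82), ((2, 5, 11), (9, 6, 0), 112),
    ((0, 12, 9), (9, 6, 0), -99), ((2, 5, 10), (9, 6, 1), -9), ((0, 12, 8), (9, 6, 1), 9), ((8, 13, 0), (9, 6, 1), 9),
    ((2, 4, 11), (9, 7, 0), -81), ((11, 10, 1), (0, 1, 10), 264), ((10, 8, 0), (0, 2, 10), -208), ((1, 3, 11), (0, 2, 10), -193),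
    ((11, 9, 1), (0, 2, 10), 241), ((10, 9, 1), (1, 2, 10), 78), ((11, 8, 1), (0, 3, 10), 251), ((10, 8, 1), (1, 3, 10), -195),
    ((10, 6, 0), (0, 4, 10), -39), ((1, 5, 11), (0, 4, 10), 320), ((11, 7, 1), (0, 4, 10), -40), ((10, 7, 1), (1, 4, 10), -44),
    ((11, 6, 1), (0, 5, 10), 112), ((10, 13, 0), (0, 5, 10), -99), ((10, 6, 1), (1, 5, 10), 82), ((1, 4, 11), (10, 7, 0), -81),
    ((1, 2, 11), (10, 9, 0), -107), ((11, 10, 0), (0, 1, 11), -79), ((11, 9, 0), (0, 2, 11), -79), ((11, 8, 0), (0, 3, 11), 257),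
    ((11, 7, 0), (0, 4, 11), 28), ((5, 12, 2), (0, 2, 12), 986), ((4, 12, 2), (1, 2, 12), -1519), ((5, 12, 3), (1, 3, 12), -2519),
    ((12, 6, 9), (6, 12, 0), -24), ((12, 6, 8), (6, 12, 1), -989), ((6, 5, 12), (12, 4, 6), 145), ((12, 7, 9), (7, 12, 1), 1386),
    ((10, 9, 12), (12, 4, 10), -644), ((10, 8, 12), (12, 5, 10), 108), ((11, 9, 12), (12, 5, 11), 437), ((6, 13, 1), (0, 1, 13), 986),
    ((13, 4, 1), (1, 2, 13), -1519), ((6, 13, 3), (2, 3, 13), -2519), ((5, 13, 10), (13, 5, 0), -24), ((5, 13, 8), (13, 5, 2), -989),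
    ((6, 13, 5), (4, 5, 13), 145), ((13, 7, 10), (7, 13, 2), 1386), ((10, 9, 13), (4, 13, 9), -644), ((9, 8, 13), (13, 6, 9), 108),
    ((11, 10, 13), (13, 6, 11), 437), ((12, 13, 8), (13, 12, 0), -449)]
  tr := tr14
  big := 32768

theorem ct56_valid : validC ct56 = true := by decide +kernel

theorem ct56_const : constOK ct56 11914 = true := by decide +kernel

/-- classes -/
def cs56 : List Cl := [
 cl 0 0 1 1 13242 0 132, cl 0 0 2 0 3073 0 423, cl 1 0 0 0 28043 0 119, cl 1 0 1 1 0 774 105,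
 cl 1 0 2 0 0 444 119, cl 2 0 0 0 0 780 84, cl 2 0 1 1 0 1118 81, cl 2 0 2 0 0 443 84,
 cl 1 0 0 2 1316 0 86, cl 0 0 0 2 0 8638 93, cl 1 1 0 1 7816 0 107, cl 2 1 0 1 0 1386 82,
 cl 2 0 0 2 0 570 74, cl 1 1 0 3 566 0 74, cl 1 2 0 0 0 15447 127, cl 2 2 0 0 0 3486 87,
 cl 1 2 0 2 0 1552 88, cl 0 0 1 3 2060 0 76, cl 0 0 2 2 7082 0 93, cl 1 0 1 3 0 354 73,
 cl 1 0 2 2 886 0 86, cl 0 0 0 4 0 927 66]

theorem ct56_link : linkOK ct56 (cs56.map swp) = true := by decide +kernel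

theorem cs56_tail0 : tailOK cs56 0 4 104 11914 = true := by decide +kernel

theorem cs56_grid0 : gridOK vtTree cs56 0 4 104 8 0 17387514224 25196 11914 = true := by
  decide +kernel

theorem cs56_tail1 : tailOK cs56 4 1 104 11914 = true := by decide +kernel

theorem cs56_grid1 : gridOK vtTree cs56 4 1 104 7 0 17387514224 25196 11914 = true := by
  decide +kernel

theorem cs56_tail2 : tailOK cs56 5 1 104 11914 = true := by decide +kernel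

theorem cs56_grid2 : gridOK vtTree cs56 5 1 104 6 0 17387514224 25196 11914 = true := by
  decide +kernel

theorem cs56_tail3 : tailOK cs56 6 1 104 11914 = true := by decide +kernel

theorem cs56_grid3 : gridOK vtTree cs56 6 1 104 5 0 17387514224 25196 11914 = true := by
  decide +kernel

theorem cs56_tail4 : tailOK cs56 7 1 104 11914 = true := by decide +kernel

theorem cs56_grid4 : gridOK vtTree cs56 7 1 104 4 0 17387514224 25196 11914 = true := by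
  decide +kernel

end Pool.Agent.H79.OC
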