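import Pool.Agent.H79.OC.Pts
import Pool.Agent.H79.OC.Pts2
import Pool.Agent.H79.OC.VTab
import Pool.Agent.H79.OC.Swp

set_option autoImplicit false
set_option maxRecDepth 100000

/-!
# Certificates, part 30
-/

namespace Pool.Agent.H79.OC

open Cl

/-! ### Box 57: `8 ≤ 128 x ≤ 16`, `56 ≤ 128 y ≤ 64` -/

/-- certificate -/
def ct57 : Cert where
  pts := pts14
  g := 25647
  al := [(0, -1204), (1, 32), (2, 32), (3, 18631), (4, 8807), (5, 8266), (6, 8266), (7, 2230), (8, 9586), (9, -718), (10, -718), (11, -3439), (12, 2249), (13, 2249)]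
  be := [
    (1, 0, 4565), (2, 0, 4565), (2, 1, -2964), (3, 0, -1287), (3, 1, -3188), (3, 2, -3188), (4, 0, 2133),
    (4, 1, 5437), (4, 2, 5437), (4, 3, -10251), (5, 0, -648), (5, 1, 10321), (5, 2, -1038), (5, 3, -2172),
    (5, 4, -1946), (6, 0, -648), (6, 1, -1038), (6, 2, 10321), (6, 3, -2172), (6, 4, -1946), (6, 5, -11326),
    (7, 0, 1499), (7, 1, 2133), (7, 2, 2133), (7, 3, 2912), (7, 4, -542), (7, 5, -317), (7, 6, -317),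
    (8, 0, 1075), (8, 1, -292), (8, 2, -292), (8, 3, -5827), (8, 4, -646), (8, 5, -2880), (8, 6, -2880),
    (8, 7, -4404), (9, 0, 821), (9, 1, 684), (9, 2, -235), (9, 3, -601), (9, 4, 169), (9, 5, 2295),
    (9, 6, 1316), (9, 7, 2381), (9, 8, 1472), (10, 0, 821), (10, 1, -235), (10, 2, 684), (10, 3, -601),
    (10, 4, 169), (10, 5, 1316), (10, 6, 2295), (10, 7, 2381), (10, 8, 1472), (10, 9, -1068), (11, 0, -710),
    (11, 1, 131), (11, 2, 131), (11, 3, 1841), (11, 4, 444), (11, 5, -273), (11, 6, -273), (11, 7, 4656),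
    (11, 8, 1402), (11, 9, 2148), (11, 10, 2148), (12, 0, 824), (12, 1, -198), (12, 2, -36), (12, 3, -2981),
    (12, 4, -193), (12, 5, -1039), (12, 6, 752), (12, 8, -720), (12, 9, -1492), (12, 10, 222), (13, 0, 824),
    (13, 1, -36), (13, 2, -198), (13, 3, -2981), (13, 4, -193), (13, 5, 752), (13, 6, -1039), (13, 8, -720),
    (13, 9, 222), (13, 10, -1492), (13, 12, -472)]
  ta := [
    ((3, 2, 1), (0, 1, 2), 3009), ((4, 5, 6), (0, 1, 2), 2828), ((7, 6, 5), (0, 1, 2), 833), ((8, 9, 10), (0, 1, 2), 14),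
    ((11, 10, 9), (0, 1, 2), -1354), ((5, 4, 12), (0, 1, 2), -1348), ((6, 13, 4), (0, 1, 2), -1348), ((3, 2, 0), (0, 1, 3), -2764),
    ((4, 5, 7), (0, 1, 3), 4394), ((7, 6, 4), (0, 1, 3), 4394), ((8, 9, 11), (0, 1, 3), -1630), ((11, 10, 8), (0, 1, 3), -1630),
    ((6, 5, 3), (1, 2, 4), 4485), ((5, 6, 8), (1, 2, 4), 1583), ((10, 9, 7), (1, 2, 4), -821), ((4, 12, 1), (1, 2, 4), -1678),
    ((13, 4, 2), (1, 2, 4), -1678), ((7, 4, 3), (0, 3, 4), 11), ((4, 7, 8), (0, 3, 4), 1585), ((11, 8, 7), (0, 3, 4), -2310),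
    ((6, 4, 3), (1, 3, 4), 1241), ((5, 7, 8), (1, 3, 4), 935), ((10, 8, 7), (1, 3, 4), -914), ((5, 4, 3), (2, 3, 4), 1241),
    ((6, 7, 8), (2, 3, 4), 935), ((9, 8, 7), (2, 3, 4), -914), ((5, 4, 0), (0, 1, 5), -824), ((2, 3, 7), (0, 1, 5), -132),
    ((7, 6, 2), (0, 1, 5), -1102), ((4, 5, 9), (0, 1, 5), 831), ((9, 8, 4), (0, 1, 5), -230), ((6, 7, 11), (0, 1, 5), 57),
    ((11, 10, 6), (0, 1, 5), -526), ((13, 6, 10), (0, 1, 5), 5748), ((7, 5, 2), (0, 2, 5), -1104), ((4, 6, 9), (0, 2, 5), 98),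
    ((11, 9, 6), (0, 2, 5), 498), ((5, 12, 0), (0, 2, 5), -713), ((10, 8, 13), (0, 2, 5), 180), ((6, 5, 2), (1, 2, 5), -485),
    ((5, 6, 9), (1, 2, 5), -2329), ((10, 9, 6), (1, 2, 5), -387), ((4, 12, 0), (1, 2, 5), 1086), ((4, 13, 8), (1, 2, 5), 661),
    ((7, 4, 2), (0, 3, 5), -1389), ((4, 7, 9), (0, 3, 5), -538), ((11, 8, 6), (0, 3, 5), 859), ((5, 4, 2), (2, 3, 5), -1192),
    ((6, 7, 9), (2, 3, 5), -936), ((9, 8, 6), (2, 3, 5), -1890), ((0, 1, 12), (2, 3, 5), -1760), ((13, 6, 8), (2, 3, 5), 5035),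
    ((7, 6, 1), (0, 1, 6), -1104), ((4, 5, 10), (0, 1, 6), 98), ((11, 10, 5), (0, 1, 6), 498), ((9, 8, 12), (0, 1, 6), 180),
    ((6, 13, 0), (0, 1, 6), -713), ((6, 4, 0), (0, 2, 6), -824), ((1, 3, 7), (0, 2, 6), -132), ((7, 5, 1), (0, 2, 6), -1102),
    ((4, 6, 10), (0, 2, 6), 831), ((10, 8, 4), (0, 2, 6), -230), ((5, 7, 11), (0, 2, 6), 57), ((11, 9, 5), (0, 2, 6), -526),
    ((12, 5, 9), (0, 2, 6), 5748), ((6, 5, 1), (1, 2, 6), -485), ((5, 6, 10), (1, 2, 6), -2329), ((10, 9, 5), (1, 2, 6), -387),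
    ((12, 4, 8), (1, 2, 6), 661), ((13, 4, 0), (1, 2, 6), 1086), ((7, 4, 1), (0, 3, 6), -1389), ((4, 7, 10), (0, 3, 6), -538),
    ((11, 8, 5), (0, 3, 6), 859), ((6, 4, 1), (1, 3, 6), -1192), ((5, 7, 10), (1, 3, 6), -936), ((10, 8, 5), (1, 3, 6), -1890),
    ((12, 5, 8), (1, 3, 6), 5035), ((0, 2, 13), (1, 3, 6), -1760), ((1, 2, 7), (6, 5, 0), 292), ((10, 9, 4), (6, 5, 0), 352),
    ((5, 6, 11), (6, 5, 0), -1156), ((12, 4, 9), (6, 5, 0), 382), ((4, 13, 10), (6, 5, 0), 382), ((7, 6, 0), (0, 1, 7), 421),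
    ((4, 5, 11), (0, 1, 7), 664), ((11, 10, 4), (0, 1, 7), -460), ((7, 5, 0), (0, 2, 7), 421), ((4, 6, 11), (0, 2, 7), 664),
    ((11, 9, 4), (0, 2, 7), -460), ((7, 4, 0), (0, 3, 7), -655), ((4, 7, 11), (0, 3, 7), -508), ((11, 8, 4), (0, 3, 7), 1270),
    ((9, 8, 1), (0, 1, 8), -221), ((2, 3, 10), (0, 1, 8), 260), ((11, 10, 3), (0, 1, 8), -187), ((1, 3, 9), (0, 2, 8), 260),
    ((10, 8, 2), (0, 2, 8), -221), ((11, 9, 3), (0, 2, 8), -187), ((10, 9, 3), (1, 2, 8), -262), ((11, 8, 3), (0, 3, 8), -575),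
    ((10, 8, 3), (1, 3, 8), -331), ((9, 8, 3), (2, 3, 8), -331), ((1, 5, 9), (0, 4, 8), 1499), ((2, 6, 10), (0, 4, 8), 1499),
    ((3, 7, 11), (0, 4, 8), -1192), ((8, 5, 1), (1, 4, 8), -791), ((3, 6, 10), (1, 4, 8), -302), ((10, 7, 3), (1, 4, 8), 806),
    ((8, 6, 2), (2, 4, 8), -791), ((3, 5, 9), (2, 4, 8), -302), ((9, 7, 3), (2, 4, 8), 806), ((8, 7, 3), (3, 4, 8), -1148),
    ((1, 4, 9), (8, 5, 0), -481), ((10, 7, 2), (8, 5, 0), -145), ((3, 6, 11), (8, 5, 0), 221), ((2, 13, 10), (8, 5, 0), 269),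
    ((9, 6, 3), (2, 5, 8), -311), ((8, 13, 2), (2, 5, 8), 648), ((9, 7, 1), (8, 6, 0), -145), ((2, 4, 10), (8, 6, 0), -481),
    ((3, 5, 11), (8, 6, 0), 221), ((1, 12, 9), (8, 6, 0), 269), ((3, 5, 10), (8, 6, 1), -311), ((1, 12, 8), (8, 6, 1), 648),
    ((3, 4, 11), (8, 7, 0), 456), ((3, 4, 10), (8, 7, 1), 397), ((3, 4, 9), (8, 7, 2), 397), ((9, 8, 0), (0, 1, 9), 65),
    ((2, 3, 11), (0, 1, 9), 376), ((11, 10, 2), (0, 1, 9), -45), ((11, 9, 2), (0, 2, 9), 6), ((10, 9, 2), (1, 2, 9), 129),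
    ((11, 8, 2), (0, 3, 9), -156), ((9, 8, 2), (2, 3, 9), 9), ((9, 5, 0), (0, 4, 9), 676), ((2, 6, 11), (0, 4, 9), 833),
    ((11, 7, 2), (0, 4, 9), -853), ((9, 7, 2), (2, 4, 9), -301), ((9, 6, 2), (2, 5, 9), 515), ((2, 5, 11), (9, 6, 0), 218),
    ((0, 12, 9), (9, 6, 0), -17), ((2, 5, 10), (9, 6, 1), -174), ((0, 12, 8), (9, 6, 1), 174), ((8, 13, 0), (9, 6, 1), 174),
    ((2, 4, 11), (9, 7, 0), 301), ((11, 10, 1), (0, 1, 10), 6), ((10, 8, 0), (0, 2, 10), 65), ((1, 3, 11), (0, 2, 10), 376),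
    ((11, 9, 1), (0, 2, 10), -45), ((10, 9, 1), (1, 2, 10), 129), ((11, 8, 1), (0, 3, 10), -156), ((10, 8, 1), (1, 3, 10), 9),
    ((10, 6, 0), (0, 4, 10), 676), ((1, 5, 11), (0, 4, 10), 833), ((11, 7, 1), (0, 4, 10), -853), ((10, 7, 1), (1, 4, 10), -301),
    ((11, 6, 1), (0, 5, 10), 218), ((10, 13, 0), (0, 5, 10), -17), ((10, 6, 1), (1, 5, 10), -515), ((1, 4, 11), (10, 7, 0), 301),
    ((1, 2, 11), (10, 9, 0), -31), ((11, 10, 0), (0, 1, 11), -118), ((11, 9, 0), (0, 2, 11), -118), ((11, 8, 0), (0, 3, 11), -61),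
    ((11, 7, 0), (0, 4, 11), 77), ((5, 12, 2), (0, 2, 12), 1066), ((4, 12, 2), (1, 2, 12), -194), ((5, 12, 3), (1, 3, 12), -2509),
    ((12, 6, 9), (6, 12, 0), 429), ((12, 6, 8), (6, 12, 1), -848), ((6, 5, 12), (12, 4, 6), 1156), ((12, 7, 9), (7, 12, 1), 153),
    ((10, 9, 12), (12, 4, 10), 375), ((10, 8, 12), (12, 5, 10), 140), ((11, 9, 12), (12, 5, 11), 36), ((6, 13, 1), (0, 1, 13), 1066),
    ((13, 4, 1), (1, 2, 13), -194), ((6, 13, 3), (2, 3, 13), -2509), ((5, 13, 10), (13, 5, 0), 429), ((5, 13, 8), (13, 5, 2), -848),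
    ((6, 13, 5), (4, 5, 13), 1156), ((13, 7, 10), (7, 13, 2), 153), ((10, 9, 13), (4, 13, 9), 375), ((9, 8, 13), (13, 6, 9), 140),
    ((11, 10, 13), (13, 6, 11), 36), ((12, 13, 8), (13, 12, 0), 362)]
  tr := tr14
  big := 32768

theorem ct57_valid : validC ct57 = true := by decide +kernel

theorem ct57_const : constOK ct57 13258 = true := by decide +kernel

/-- classes -/
def cs57 : List Cl := [
 cl 0 0 1 1 3390 0 179, cl 0 0 2 0 0 427 1024, cl 1 0 0 0 34287 0 119, cl 1 0 1 1 0 222 111,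
 cl 1 0 2 0 1943 0 112, cl 2 0 0 0 4284 0 84, cl 2 0 1 1 1904 0 82, cl 2 0 2 0 0 710 82,
 cl 1 0 0 2 764 0 103, cl 0 0 0 2 0 15744 127, cl 1 1 0 1 5136 0 120, cl 2 1 0 1 0 1786 86,
 cl 2 0 0 2 0 470 81, cl 1 1 0 3 0 72 95, cl 1 2 0 0 0 14655 137, cl 2 2 0 0 0 5827 90,
 cl 1 2 0 2 0 5962 111, cl 0 0 1 3 1504 0 104, cl 0 0 2 2 0 0 126, cl 1 0 1 3 444 0 92,
 cl 1 0 2 2 0 0 100, cl 0 0 0 4 0 472 90]

theorem ct57_link : linkOK ct57 (cs57.map swp) = true := by decide +kernel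

theorem cs57_tail0 : tailOK cs57 8 6 56 13258 = true := by decide +kernel

theorem cs57_grid0 : gridOK vtTree cs57 8 6 56 8 5943291896 0 22656 13258 = true := by
  decide +kernel

theorem cs57_tail1 : tailOK cs57 14 1 57 13258 = true := by decide +kernel

theorem cs57_grid1 : gridOK vtTree cs57 14 1 57 7 5943291896 0 22656 13258 = true := by
  decide +kernel

theorem cs57_tail2 : tailOK cs57 15 1 59 13258 = true := by decide +kernel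

theorem cs57_grid2 : gridOK vtTree cs57 15 1 59 5 5943291896 0 22656 13258 = true := by
  decide +kernel

/-! ### Box 58: `0 ≤ 128 x ≤ 8`, `56 ≤ 128 y ≤ 64` -/

/-- certificate -/
def ct58 : Cert where
  pts := pts14
  g := 23818
  al := [(0, 6329), (1, 4606), (2, 4606), (3, 21110), (4, 4140), (5, 3495), (6, 3495), (7, -4185), (8, 5614), (9, 157), (10, 157), (11, -6615), (12, 2686), (13, 2686)]
  be := [
    (1, 0, 1072), (2, 0, 1072), (2, 1, -10898), (3, 0, -9476), (3, 1, -7607), (3, 2, -7607), (4, 0, -727),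
    (4, 1, 5054), (4, 2, 5054), (4, 3, -10323), (5, 0, -2740), (5, 1, 9881), (5, 2, -992), (5, 3, -1179),
    (5, 4, 4308), (6, 0, -2740), (6, 1, -992), (6, 2, 9881), (6, 3, -1179), (6, 4, 4308), (6, 5, -4696),
    (7, 0, 185), (7, 1, 3550), (7, 2, 3550), (7, 3, 3465), (7, 4, 5889), (7, 5, 3553), (7, 6, 3553),
    (8, 0, 1015), (8, 1, 24), (8, 2, 24), (8, 3, -4103), (8, 4, 3436), (8, 5, -1308), (8, 6, -1308),
    (8, 7, -3741), (9, 0, 476), (9, 1, -502), (9, 2, -67), (9, 3, -770), (9, 4, -342), (9, 5, 927),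
    (9, 6, 923), (9, 7, 3319), (9, 8, 726), (10, 0, 476), (10, 1, -67), (10, 2, -502), (10, 3, -770),
    (10, 4, -342), (10, 5, 923), (10, 6, 927), (10, 7, 3319), (10, 8, 726), (10, 9, -1269), (11, 0, -116),
    (11, 1, 840), (11, 2, 840), (11, 3, 4533), (11, 4, 786), (11, 5, 1071), (11, 6, 1071), (11, 7, 5481),
    (11, 8, 3587), (11, 9, 3087), (11, 10, 3087), (12, 0, -602), (12, 1, -2199), (12, 3, -3456), (12, 4, 1001),
    (12, 5, -3323), (12, 6, 232), (12, 7, 640), (12, 8, 19), (12, 9, -1845), (12, 10, 466), (12, 11, 486),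
    (13, 0, -602), (13, 2, -2199), (13, 3, -3456), (13, 4, 1001), (13, 5, 232), (13, 6, -3323), (13, 7, 640),
    (13, 8, 19), (13, 9, 466), (13, 10, -1845), (13, 11, 486), (13, 12, -336)]
  ta := [
    ((3, 2, 1), (0, 1, 2), 6635), ((4, 5, 6), (0, 1, 2), -2747), ((7, 6, 5), (0, 1, 2), -2173), ((8, 9, 10), (0, 1, 2), 1631),
    ((11, 10, 9), (0, 1, 2), -1228), ((5, 4, 12), (0, 1, 2), -1161), ((6, 13, 4), (0, 1, 2), -1161), ((3, 2, 0), (0, 1, 3), -266),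
    ((4, 5, 7), (0, 1, 3), 2130), ((7, 6, 4), (0, 1, 3), 2130), ((8, 9, 11), (0, 1, 3), -1864), ((11, 10, 8), (0, 1, 3), -1864),
    ((6, 5, 3), (1, 2, 4), 2293), ((5, 6, 8), (1, 2, 4), 657), ((10, 9, 7), (1, 2, 4), -1431), ((4, 12, 1), (1, 2, 4), -1127),
    ((13, 4, 2), (1, 2, 4), -1127), ((7, 4, 3), (0, 3, 4), -581), ((4, 7, 8), (0, 3, 4), 726), ((11, 8, 7), (0, 3, 4), -3091),
    ((6, 4, 3), (1, 3, 4), 355), ((5, 7, 8), (1, 3, 4), 1517), ((10, 8, 7), (1, 3, 4), -1064), ((5, 4, 3), (2, 3, 4), 355),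
    ((6, 7, 8), (2, 3, 4), 1517), ((9, 8, 7), (2, 3, 4), -1064), ((5, 4, 0), (0, 1, 5), -558), ((2, 3, 7), (0, 1, 5), -635),
    ((7, 6, 2), (0, 1, 5), -1635), ((4, 5, 9), (0, 1, 5), 604), ((9, 8, 4), (0, 1, 5), -369), ((6, 7, 11), (0, 1, 5), -483),
    ((11, 10, 6), (0, 1, 5), -499), ((13, 6, 10), (0, 1, 5), 7461), ((7, 5, 2), (0, 2, 5), -1957), ((4, 6, 9), (0, 2, 5), -414),
    ((11, 9, 6), (0, 2, 5), 171), ((5, 12, 0), (0, 2, 5), 136), ((10, 8, 13), (0, 2, 5), 365), ((6, 5, 2), (1, 2, 5), -2644),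
    ((5, 6, 9), (1, 2, 5), -1452), ((10, 9, 6), (1, 2, 5), 411), ((4, 12, 0), (1, 2, 5), 908), ((4, 13, 8), (1, 2, 5), -1323),
    ((7, 4, 2), (0, 3, 5), -2912), ((4, 7, 9), (0, 3, 5), -797), ((11, 8, 6), (0, 3, 5), 311), ((5, 4, 2), (2, 3, 5), -3373),
    ((6, 7, 9), (2, 3, 5), -1066), ((9, 8, 6), (2, 3, 5), -701), ((0, 1, 12), (2, 3, 5), -2494), ((13, 6, 8), (2, 3, 5), 6476),
    ((7, 6, 1), (0, 1, 6), -1957), ((4, 5, 10), (0, 1, 6), -414), ((11, 10, 5), (0, 1, 6), 171), ((9, 8, 12), (0, 1, 6), 365),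
    ((6, 13, 0), (0, 1, 6), 136), ((6, 4, 0), (0, 2, 6), -558), ((1, 3, 7), (0, 2, 6), -635), ((7, 5, 1), (0, 2, 6), -1635),
    ((4, 6, 10), (0, 2, 6), 604), ((10, 8, 4), (0, 2, 6), -369), ((5, 7, 11), (0, 2, 6), -483), ((11, 9, 5), (0, 2, 6), -499),
    ((12, 5, 9), (0, 2, 6), 7461), ((6, 5, 1), (1, 2, 6), -2644), ((5, 6, 10), (1, 2, 6), -1452), ((10, 9, 5), (1, 2, 6), 411),
    ((12, 4, 8), (1, 2, 6), -1323), ((13, 4, 0), (1, 2, 6), 908), ((7, 4, 1), (0, 3, 6), -2912), ((4, 7, 10), (0, 3, 6), -797),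
    ((11, 8, 5), (0, 3, 6), 311), ((6, 4, 1), (1, 3, 6), -3373), ((5, 7, 10), (1, 3, 6), -1066), ((10, 8, 5), (1, 3, 6), -701),
    ((12, 5, 8), (1, 3, 6), 6476), ((0, 2, 13), (1, 3, 6), -2494), ((1, 2, 7), (6, 5, 0), 1321), ((10, 9, 4), (6, 5, 0), 1029),
    ((5, 6, 11), (6, 5, 0), -1339), ((12, 4, 9), (6, 5, 0), -713), ((4, 13, 10), (6, 5, 0), -713), ((7, 6, 0), (0, 1, 7), 731),
    ((4, 5, 11), (0, 1, 7), 478), ((11, 10, 4), (0, 1, 7), -385), ((7, 5, 0), (0, 2, 7), 731), ((4, 6, 11), (0, 2, 7), 478),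
    ((11, 9, 4), (0, 2, 7), -385), ((7, 4, 0), (0, 3, 7), -1863), ((4, 7, 11), (0, 3, 7), -988), ((11, 8, 4), (0, 3, 7), 869),
    ((9, 8, 1), (0, 1, 8), -532), ((2, 3, 10), (0, 1, 8), 1470), ((11, 10, 3), (0, 1, 8), -1146), ((1, 3, 9), (0, 2, 8), 1470),
    ((10, 8, 2), (0, 2, 8), -532), ((11, 9, 3), (0, 2, 8), -1146), ((10, 9, 3), (1, 2, 8), -592), ((11, 8, 3), (0, 3, 8), -1926),
    ((10, 8, 3), (1, 3, 8), -783), ((9, 8, 3), (2, 3, 8), -783), ((1, 5, 9), (0, 4, 8), 1797), ((2, 6, 10), (0, 4, 8), 1797),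
    ((3, 7, 11), (0, 4, 8), -1406), ((8, 5, 1), (1, 4, 8), -239), ((3, 6, 10), (1, 4, 8), 6), ((10, 7, 3), (1, 4, 8), 312),
    ((8, 6, 2), (2, 4, 8), -239), ((3, 5, 9), (2, 4, 8), 6), ((9, 7, 3), (2, 4, 8), 312), ((8, 7, 3), (3, 4, 8), -19),
    ((1, 4, 9), (8, 5, 0), 415), ((10, 7, 2), (8, 5, 0), -918), ((3, 6, 11), (8, 5, 0), -845), ((2, 13, 10), (8, 5, 0), 1684),
    ((9, 6, 3), (2, 5, 8), -265), ((8, 13, 2), (2, 5, 8), 952), ((9, 7, 1), (8, 6, 0), -918), ((2, 4, 10), (8, 6, 0), 415),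
    ((3, 5, 11), (8, 6, 0), -845), ((1, 12, 9), (8, 6, 0), 1684), ((3, 5, 10), (8, 6, 1), -265), ((1, 12, 8), (8, 6, 1), 952),
    ((3, 4, 11), (8, 7, 0), -1), ((3, 4, 10), (8, 7, 1), 639), ((3, 4, 9), (8, 7, 2), 639), ((9, 8, 0), (0, 1, 9), -264),
    ((2, 3, 11), (0, 1, 9), 159), ((11, 10, 2), (0, 1, 9), -319), ((11, 9, 2), (0, 2, 9), -603), ((10, 9, 2), (1, 2, 9), -375),
    ((11, 8, 2), (0, 3, 9), -882), ((9, 8, 2), (2, 3, 9), -188), ((9, 5, 0), (0, 4, 9), 59), ((2, 6, 11), (0, 4, 9), 947),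
    ((11, 7, 2), (0, 4, 9), -805), ((9, 7, 2), (2, 4, 9), -465), ((9, 6, 2), (2, 5, 9), -750), ((2, 5, 11), (9, 6, 0), -382),
    ((0, 12, 9), (9, 6, 0), 1286), ((2, 5, 10), (9, 6, 1), -336), ((0, 12, 8), (9, 6, 1), 336), ((8, 13, 0), (9, 6, 1), 336),
    ((2, 4, 11), (9, 7, 0), 411), ((11, 10, 1), (0, 1, 10), -603), ((10, 8, 0), (0, 2, 10), -264), ((1, 3, 11), (0, 2, 10), 159),
    ((11, 9, 1), (0, 2, 10), -319), ((10, 9, 1), (1, 2, 10), -375), ((11, 8, 1), (0, 3, 10), -882), ((10, 8, 1), (1, 3, 10), -188),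
    ((10, 6, 0), (0, 4, 10), 59), ((1, 5, 11), (0, 4, 10), 947), ((11, 7, 1), (0, 4, 10), -805), ((10, 7, 1), (1, 4, 10), -465),
    ((11, 6, 1), (0, 5, 10), -382), ((10, 13, 0), (0, 5, 10), 1286), ((10, 6, 1), (1, 5, 10), 750), ((1, 4, 11), (10, 7, 0), 411),
    ((1, 2, 11), (10, 9, 0), 556), ((11, 10, 0), (0, 1, 11), -186), ((11, 9, 0), (0, 2, 11), -186), ((11, 8, 0), (0, 3, 11), -443),
    ((11, 7, 0), (0, 4, 11), 373), ((5, 12, 2), (0, 2, 12), 1213), ((4, 12, 2), (1, 2, 12), -1433), ((5, 12, 3), (1, 3, 12), -2864),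
    ((12, 6, 9), (6, 12, 0), 184), ((12, 6, 8), (6, 12, 1), -1265), ((6, 5, 12), (12, 4, 6), 1808), ((12, 7, 9), (7, 12, 1), 533),
    ((10, 9, 12), (12, 4, 10), 54), ((10, 8, 12), (12, 5, 10), 35), ((11, 9, 12), (12, 5, 11), 25), ((6, 13, 1), (0, 1, 13), 1213),
    ((13, 4, 1), (1, 2, 13), -1433), ((6, 13, 3), (2, 3, 13), -2864), ((5, 13, 10), (13, 5, 0), 184), ((5, 13, 8), (13, 5, 2), -1265),
    ((6, 13, 5), (4, 5, 13), 1808), ((13, 7, 10), (7, 13, 2), 533), ((10, 9, 13), (4, 13, 9), 54), ((9, 8, 13), (13, 6, 9), 35),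
    ((11, 10, 13), (13, 6, 11), 25), ((12, 13, 8), (13, 12, 0), 327)]
  tr := tr14
  big := 65536

theorem ct58_valid : validC ct58 = true := by decide +kernel

theorem ct58_const : constOK ct58 13427 = true := by decide +kernel

/-- classes -/
def cs58 : List Cl := [
 cl 0 0 1 1 3632 0 179, cl 0 0 2 0 0 0 1024, cl 1 0 0 0 33271 0 119, cl 1 0 1 1 0 612 114,
 cl 1 0 2 0 971 0 119, cl 2 0 0 0 4544 0 84, cl 2 0 1 1 2632 0 83, cl 2 0 2 0 0 116 84,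
 cl 1 0 0 2 0 1304 103, cl 0 0 0 2 0 14861 127, cl 1 1 0 1 7374 0 117, cl 2 1 0 1 0 1492 85,
 cl 2 0 0 2 0 134 81, cl 1 1 0 3 0 0 94, cl 1 2 0 0 0 14064 127, cl 2 2 0 0 0 4103 87,
 cl 1 2 0 2 0 6912 107, cl 0 0 1 3 464 0 104, cl 0 0 2 2 1280 0 127, cl 1 0 1 3 932 0 93,
 cl 1 0 2 2 972 0 103, cl 0 0 0 4 0 336 90]

theorem ct58_link : linkOK ct58 (cs58.map swp) = true := by decide +kernel

theorem cs58_tail0 : tailOK cs58 0 8 56 13427 = true := by decide +kernel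

theorem cs58_grid0 : gridOK vtTree cs58 0 8 56 8 1053254672 0 22897 13427 = true := by
  decide +kernel

end Pool.Agent.H79.OC
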