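import Pool.Agent.H79.OC.Pts
import Pool.Agent.H79.OC.VTab

set_option autoImplicit false
set_option maxRecDepth 100000

/-!
# Certificates, part 4
-/

namespace Pool.Agent.H79.OC

open Cl

/-! ### Box 6: `80 ≤ -128 x ≤ 96`, `80 ≤ 128 y ≤ 96` -/

/-- certificate -/
def ct6 : Cert where
  pts := pts14
  g := 3146
  al := [(0, -617), (1, -605), (2, -605), (3, 1674), (4, 647), (5, 577), (6, 577), (7, -375), (8, 552), (9, 269), (10, 269), (11, -257), (12, 325), (13, 325)]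
  be := [
    (1, 0, 903), (2, 0, 903), (2, 1, 239), (3, 0, 476), (3, 1, 230), (3, 2, 230), (4, 0, 1132),
    (4, 1, 1032), (4, 2, 1032), (4, 3, -1524), (5, 0, 16), (5, 1, 1793), (5, 2, -58), (5, 3, 459),
    (5, 4, 526), (6, 0, 16), (6, 1, -58), (6, 2, 1793), (6, 3, 459), (6, 4, 526), (6, 5, -1423),
    (7, 0, -44), (7, 1, 597), (7, 2, 597), (7, 3, 1326), (7, 4, 58), (7, 5, 352), (7, 6, 352),
    (8, 0, 204), (8, 1, -53), (8, 2, -53), (8, 3, -738), (8, 4, 1305), (8, 5, 492), (8, 6, 492),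
    (8, 7, -915), (9, 0, -32), (9, 1, 45), (9, 3, -349), (9, 4, -545), (9, 5, 88), (9, 6, 27),
    (9, 7, 513), (9, 8, 811), (10, 0, -32), (10, 2, 45), (10, 3, -349), (10, 4, -545), (10, 5, 27),
    (10, 6, 88), (10, 7, 513), (10, 8, 811), (10, 9, -197), (11, 1, -36), (11, 2, -36), (11, 3, -73),
    (11, 4, 44), (11, 5, -25), (11, 6, -25), (11, 7, 958), (11, 8, 345), (11, 9, 512), (11, 10, 512),
    (12, 0, -119), (12, 1, 45), (12, 2, 189), (12, 3, -522), (12, 4, -481), (12, 5, -624), (12, 7, 274),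
    (12, 8, 150), (12, 9, -682), (12, 10, -81), (13, 0, -119), (13, 1, 189), (13, 2, 45), (13, 3, -522),
    (13, 4, -481), (13, 6, -624), (13, 7, 274), (13, 8, 150), (13, 9, -81), (13, 10, -682), (13, 12, -43)]
  ta := [
    ((3, 2, 1), (0, 1, 2), -117), ((4, 5, 6), (0, 1, 2), -108), ((7, 6, 5), (0, 1, 2), 178), ((8, 9, 10), (0, 1, 2), -139),
    ((11, 10, 9), (0, 1, 2), -231), ((5, 4, 12), (0, 1, 2), 351), ((6, 13, 4), (0, 1, 2), 351), ((3, 2, 0), (0, 1, 3), -223),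
    ((4, 5, 7), (0, 1, 3), 626), ((7, 6, 4), (0, 1, 3), 626), ((8, 9, 11), (0, 1, 3), -403), ((11, 10, 8), (0, 1, 3), -403),
    ((6, 5, 3), (1, 2, 4), 343), ((5, 6, 8), (1, 2, 4), -323), ((10, 9, 7), (1, 2, 4), -115), ((4, 12, 1), (1, 2, 4), 244),
    ((13, 4, 2), (1, 2, 4), 244), ((7, 4, 3), (0, 3, 4), 286), ((4, 7, 8), (0, 3, 4), -35), ((11, 8, 7), (0, 3, 4), 30),
    ((6, 4, 3), (1, 3, 4), 125), ((5, 7, 8), (1, 3, 4), -20), ((10, 8, 7), (1, 3, 4), -275), ((5, 4, 3), (2, 3, 4), 125),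
    ((6, 7, 8), (2, 3, 4), -20), ((9, 8, 7), (2, 3, 4), -275), ((5, 4, 0), (0, 1, 5), -478), ((2, 3, 7), (0, 1, 5), -641),
    ((7, 6, 2), (0, 1, 5), -429), ((4, 5, 9), (0, 1, 5), 500), ((9, 8, 4), (0, 1, 5), -252), ((6, 7, 11), (0, 1, 5), -345),
    ((11, 10, 6), (0, 1, 5), -267), ((13, 6, 10), (0, 1, 5), 1981), ((7, 5, 2), (0, 2, 5), 43), ((4, 6, 9), (0, 2, 5), 31),
    ((11, 9, 6), (0, 2, 5), -99), ((5, 12, 0), (0, 2, 5), -48), ((10, 8, 13), (0, 2, 5), 274), ((6, 5, 2), (1, 2, 5), -151),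
    ((5, 6, 9), (1, 2, 5), -233), ((10, 9, 6), (1, 2, 5), 36), ((4, 12, 0), (1, 2, 5), 387), ((4, 13, 8), (1, 2, 5), 7),
    ((7, 4, 2), (0, 3, 5), -287), ((4, 7, 9), (0, 3, 5), 364), ((11, 8, 6), (0, 3, 5), -172), ((5, 4, 2), (2, 3, 5), -329),
    ((6, 7, 9), (2, 3, 5), -147), ((9, 8, 6), (2, 3, 5), -736), ((0, 1, 12), (2, 3, 5), 55), ((13, 6, 8), (2, 3, 5), 1250),
    ((7, 6, 1), (0, 1, 6), 43), ((4, 5, 10), (0, 1, 6), 31), ((11, 10, 5), (0, 1, 6), -99), ((9, 8, 12), (0, 1, 6), 274),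
    ((6, 13, 0), (0, 1, 6), -48), ((6, 4, 0), (0, 2, 6), -478), ((1, 3, 7), (0, 2, 6), -641), ((7, 5, 1), (0, 2, 6), -429),
    ((4, 6, 10), (0, 2, 6), 500), ((10, 8, 4), (0, 2, 6), -252), ((5, 7, 11), (0, 2, 6), -345), ((11, 9, 5), (0, 2, 6), -267),
    ((12, 5, 9), (0, 2, 6), 1981), ((6, 5, 1), (1, 2, 6), -151), ((5, 6, 10), (1, 2, 6), -233), ((10, 9, 5), (1, 2, 6), 36),
    ((12, 4, 8), (1, 2, 6), 7), ((13, 4, 0), (1, 2, 6), 387), ((7, 4, 1), (0, 3, 6), -287), ((4, 7, 10), (0, 3, 6), 364),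
    ((11, 8, 5), (0, 3, 6), -172), ((6, 4, 1), (1, 3, 6), -329), ((5, 7, 10), (1, 3, 6), -147), ((10, 8, 5), (1, 3, 6), -736),
    ((12, 5, 8), (1, 3, 6), 1250), ((0, 2, 13), (1, 3, 6), 55), ((1, 2, 7), (6, 5, 0), -10), ((10, 9, 4), (6, 5, 0), 48),
    ((5, 6, 11), (6, 5, 0), 95), ((12, 4, 9), (6, 5, 0), -71), ((4, 13, 10), (6, 5, 0), -71), ((7, 6, 0), (0, 1, 7), 273),
    ((4, 5, 11), (0, 1, 7), -45), ((11, 10, 4), (0, 1, 7), 41), ((7, 5, 0), (0, 2, 7), 273), ((4, 6, 11), (0, 2, 7), -45),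
    ((11, 9, 4), (0, 2, 7), 41), ((7, 4, 0), (0, 3, 7), -181), ((4, 7, 11), (0, 3, 7), -8), ((11, 8, 4), (0, 3, 7), -44),
    ((9, 8, 1), (0, 1, 8), -68), ((2, 3, 10), (0, 1, 8), 256), ((11, 10, 3), (0, 1, 8), 43), ((1, 3, 9), (0, 2, 8), 256),
    ((10, 8, 2), (0, 2, 8), -68), ((11, 9, 3), (0, 2, 8), 43), ((10, 9, 3), (1, 2, 8), -78), ((11, 8, 3), (0, 3, 8), 148),
    ((10, 8, 3), (1, 3, 8), 14), ((9, 8, 3), (2, 3, 8), 14), ((1, 5, 9), (0, 4, 8), 539), ((2, 6, 10), (0, 4, 8), 539),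
    ((3, 7, 11), (0, 4, 8), -289), ((8, 5, 1), (1, 4, 8), -123), ((3, 6, 10), (1, 4, 8), 384), ((10, 7, 3), (1, 4, 8), 20),
    ((8, 6, 2), (2, 4, 8), -123), ((3, 5, 9), (2, 4, 8), 384), ((9, 7, 3), (2, 4, 8), 20), ((8, 7, 3), (3, 4, 8), -35),
    ((1, 4, 9), (8, 5, 0), 83), ((10, 7, 2), (8, 5, 0), -284), ((3, 6, 11), (8, 5, 0), 69), ((2, 13, 10), (8, 5, 0), 204),
    ((9, 6, 3), (2, 5, 8), 2), ((8, 13, 2), (2, 5, 8), -184), ((9, 7, 1), (8, 6, 0), -284), ((2, 4, 10), (8, 6, 0), 83),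
    ((3, 5, 11), (8, 6, 0), 69), ((1, 12, 9), (8, 6, 0), 204), ((3, 5, 10), (8, 6, 1), 2), ((1, 12, 8), (8, 6, 1), -184),
    ((3, 4, 11), (8, 7, 0), -37), ((3, 4, 10), (8, 7, 1), -18), ((3, 4, 9), (8, 7, 2), -18), ((9, 8, 0), (0, 1, 9), 42),
    ((2, 3, 11), (0, 1, 9), -3), ((11, 10, 2), (0, 1, 9), 4), ((11, 9, 2), (0, 2, 9), 58), ((10, 9, 2), (1, 2, 9), 61),
    ((11, 8, 2), (0, 3, 9), 5), ((9, 8, 2), (2, 3, 9), 15), ((9, 5, 0), (0, 4, 9), -106), ((2, 6, 11), (0, 4, 9), 65),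
    ((11, 7, 2), (0, 4, 9), -60), ((9, 7, 2), (2, 4, 9), 47), ((9, 6, 2), (2, 5, 9), 1), ((2, 5, 11), (9, 6, 0), -14),
    ((0, 12, 9), (9, 6, 0), -23), ((2, 5, 10), (9, 6, 1), -21), ((0, 12, 8), (9, 6, 1), 21), ((8, 13, 0), (9, 6, 1), 21),
    ((2, 4, 11), (9, 7, 0), -11), ((11, 10, 1), (0, 1, 10), 58), ((10, 8, 0), (0, 2, 10), 42), ((1, 3, 11), (0, 2, 10), -3),
    ((11, 9, 1), (0, 2, 10), 4), ((10, 9, 1), (1, 2, 10), 61), ((11, 8, 1), (0, 3, 10), 5), ((10, 8, 1), (1, 3, 10), 15),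
    ((10, 6, 0), (0, 4, 10), -106), ((1, 5, 11), (0, 4, 10), 65), ((11, 7, 1), (0, 4, 10), -60), ((10, 7, 1), (1, 4, 10), 47),
    ((11, 6, 1), (0, 5, 10), -14), ((10, 13, 0), (0, 5, 10), -23), ((10, 6, 1), (1, 5, 10), -1), ((1, 4, 11), (10, 7, 0), -11),
    ((1, 2, 11), (10, 9, 0), -4), ((11, 8, 0), (0, 3, 11), 7), ((11, 7, 0), (0, 4, 11), -7), ((5, 12, 2), (0, 2, 12), -9),
    ((4, 12, 2), (1, 2, 12), 40), ((5, 12, 3), (1, 3, 12), -455), ((12, 6, 9), (6, 12, 0), 16), ((12, 6, 8), (6, 12, 1), -188),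
    ((6, 5, 12), (12, 4, 6), 63), ((12, 7, 9), (7, 12, 1), 397), ((10, 9, 12), (12, 4, 10), 68), ((10, 8, 12), (12, 5, 10), -82),
    ((11, 9, 12), (12, 5, 11), 44), ((6, 13, 1), (0, 1, 13), -9), ((13, 4, 1), (1, 2, 13), 40), ((6, 13, 3), (2, 3, 13), -455),
    ((5, 13, 10), (13, 5, 0), 16), ((5, 13, 8), (13, 5, 2), -188), ((6, 13, 5), (4, 5, 13), 63), ((13, 7, 10), (7, 13, 2), 397),
    ((10, 9, 13), (4, 13, 9), 68), ((9, 8, 13), (13, 6, 9), -82), ((11, 10, 13), (13, 6, 11), 44), ((12, 13, 8), (13, 12, 0), -21)]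
  tr := tr14
  big := 1048576

theorem ct6_valid : validC ct6 = true := by decide +kernel

theorem ct6_const : constOK ct6 4951 = true := by decide +kernel

/-- classes -/
def cs6 : List Cl := [
 cl 0 1 0 1 5420 0 126, cl 0 2 0 0 879 0 106, cl 1 0 0 0 8483 0 119, cl 1 1 0 1 0 1278 145,
 cl 1 2 0 0 0 0 237, cl 2 0 0 0 221 0 84, cl 2 1 0 1 0 136 101, cl 2 2 0 0 0 0 168,
 cl 1 0 0 2 0 0 94, cl 0 0 0 2 0 2343 106, cl 1 0 1 1 5082 0 90, cl 2 0 1 1 0 804 73,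
 cl 2 0 0 2 0 0 78, cl 1 0 1 3 378 0 76, cl 1 0 2 0 0 2439 79, cl 2 0 2 0 0 738 66,
 cl 1 0 2 2 0 1044 74, cl 0 1 0 3 0 0 85, cl 0 2 0 2 548 0 90, cl 1 1 0 3 0 162 87,
 cl 1 2 0 2 0 0 105, cl 0 0 0 4 0 43 75]

theorem ct6_link : linkOK ct6 cs6 = true := by decide +kernel

theorem cs6_tail : tailOK cs6 80 16 80 4951 = true := by decide +kernel

theorem cs6_grid : gridOK vtTree cs6 80 16 80 16 0 7549773440 6242 4951 = true := by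
  decide +kernel

/-! ### Box 7: `80 ≤ -128 x ≤ 96`, `96 ≤ 128 y ≤ 112` -/

/-- certificate -/
def ct7 : Cert where
  pts := pts14
  g := 1950
  al := [(0, -105), (1, -160), (2, -160), (3, 784), (4, -100), (5, 150), (6, 150), (7, -865), (8, 11), (9, -12), (10, -12), (11, -663), (12, -19), (13, -19)]
  be := [
    (1, 0, 531), (2, 0, 531), (2, 1, -521), (3, 0, 47), (3, 1, 257), (3, 2, 257), (4, 0, 1098),
    (4, 1, 640), (4, 2, 640), (4, 3, -1070), (5, 0, -304), (5, 1, 1262), (5, 2, -64), (5, 3, 798),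
    (5, 4, 594), (6, 0, -304), (6, 1, -64), (6, 2, 1262), (6, 3, 798), (6, 4, 594), (6, 5, -1064),
    (7, 0, -72), (7, 1, 165), (7, 2, 165), (7, 3, 1644), (7, 4, 32), (7, 5, 764), (7, 6, 764),
    (8, 0, 135), (8, 1, -95), (8, 2, -95), (8, 3, -404), (8, 4, 1556), (8, 5, 606), (8, 6, 606),
    (8, 7, -826), (9, 0, -26), (9, 1, 95), (9, 3, -354), (9, 4, 36), (9, 5, 28), (9, 6, -86),
    (9, 7, 969), (9, 8, 515), (10, 0, -26), (10, 2, 95), (10, 3, -354), (10, 4, 36), (10, 5, -86),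
    (10, 6, 28), (10, 7, 969), (10, 8, 515), (10, 9, -508), (11, 0, -1), (11, 1, 10), (11, 2, 10),
    (11, 3, 349), (11, 4, 22), (11, 5, -28), (11, 6, -28), (11, 7, 1204), (11, 8, 308), (11, 9, 711),
    (11, 10, 711), (12, 0, -53), (12, 1, 128), (12, 2, 42), (12, 3, -448), (12, 4, 93), (12, 5, -374),
    (12, 6, -22), (12, 7, 383), (12, 8, 203), (12, 9, -569), (12, 11, 91), (13, 0, -53), (13, 1, 42),
    (13, 2, 128), (13, 3, -448), (13, 4, 93), (13, 5, -22), (13, 6, -374), (13, 7, 383), (13, 8, 203),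
    (13, 10, -569), (13, 11, 91), (13, 12, -25)]
  ta := [
    ((3, 2, 1), (0, 1, 2), 235), ((4, 5, 6), (0, 1, 2), 107), ((7, 6, 5), (0, 1, 2), -350), ((8, 9, 10), (0, 1, 2), 173),
    ((11, 10, 9), (0, 1, 2), -32), ((5, 4, 12), (0, 1, 2), -77), ((6, 13, 4), (0, 1, 2), -77), ((3, 2, 0), (0, 1, 3), -222),
    ((4, 5, 7), (0, 1, 3), 554), ((7, 6, 4), (0, 1, 3), 554), ((8, 9, 11), (0, 1, 3), -332), ((11, 10, 8), (0, 1, 3), -332),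
    ((6, 5, 3), (1, 2, 4), -54), ((5, 6, 8), (1, 2, 4), -435), ((10, 9, 7), (1, 2, 4), 201), ((4, 12, 1), (1, 2, 4), 79),
    ((13, 4, 2), (1, 2, 4), 79), ((7, 4, 3), (0, 3, 4), 102), ((4, 7, 8), (0, 3, 4), 260), ((11, 8, 7), (0, 3, 4), -288),
    ((6, 4, 3), (1, 3, 4), 53), ((5, 7, 8), (1, 3, 4), 37), ((10, 8, 7), (1, 3, 4), -128), ((5, 4, 3), (2, 3, 4), 53),
    ((6, 7, 8), (2, 3, 4), 37), ((9, 8, 7), (2, 3, 4), -128), ((5, 4, 0), (0, 1, 5), -369), ((2, 3, 7), (0, 1, 5), -426),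
    ((7, 6, 2), (0, 1, 5), -33), ((4, 5, 9), (0, 1, 5), 225), ((9, 8, 4), (0, 1, 5), -439), ((6, 7, 11), (0, 1, 5), -395),
    ((11, 10, 6), (0, 1, 5), -262), ((13, 6, 10), (0, 1, 5), 1832), ((7, 5, 2), (0, 2, 5), -2), ((4, 6, 9), (0, 2, 5), 42),
    ((11, 9, 6), (0, 2, 5), -204), ((5, 12, 0), (0, 2, 5), 57), ((10, 8, 13), (0, 2, 5), 206), ((6, 5, 2), (1, 2, 5), 56),
    ((5, 6, 9), (1, 2, 5), -128), ((10, 9, 6), (1, 2, 5), 135), ((4, 12, 0), (1, 2, 5), 42), ((4, 13, 8), (1, 2, 5), -265),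
    ((7, 4, 2), (0, 3, 5), -219), ((4, 7, 9), (0, 3, 5), -74), ((11, 8, 6), (0, 3, 5), 112), ((5, 4, 2), (2, 3, 5), -159),
    ((6, 7, 9), (2, 3, 5), -251), ((9, 8, 6), (2, 3, 5), -343), ((0, 1, 12), (2, 3, 5), -88), ((13, 6, 8), (2, 3, 5), 940),
    ((7, 6, 1), (0, 1, 6), -2), ((4, 5, 10), (0, 1, 6), 42), ((11, 10, 5), (0, 1, 6), -204), ((9, 8, 12), (0, 1, 6), 206),
    ((6, 13, 0), (0, 1, 6), 57), ((6, 4, 0), (0, 2, 6), -369), ((1, 3, 7), (0, 2, 6), -426), ((7, 5, 1), (0, 2, 6), -33),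
    ((4, 6, 10), (0, 2, 6), 225), ((10, 8, 4), (0, 2, 6), -439), ((5, 7, 11), (0, 2, 6), -395), ((11, 9, 5), (0, 2, 6), -262),
    ((12, 5, 9), (0, 2, 6), 1832), ((6, 5, 1), (1, 2, 6), 56), ((5, 6, 10), (1, 2, 6), -128), ((10, 9, 5), (1, 2, 6), 135),
    ((12, 4, 8), (1, 2, 6), -265), ((13, 4, 0), (1, 2, 6), 42), ((7, 4, 1), (0, 3, 6), -219), ((4, 7, 10), (0, 3, 6), -74),
    ((11, 8, 5), (0, 3, 6), 112), ((6, 4, 1), (1, 3, 6), -159), ((5, 7, 10), (1, 3, 6), -251), ((10, 8, 5), (1, 3, 6), -343),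
    ((12, 5, 8), (1, 3, 6), 940), ((0, 2, 13), (1, 3, 6), -88), ((1, 2, 7), (6, 5, 0), 123), ((10, 9, 4), (6, 5, 0), 126),
    ((5, 6, 11), (6, 5, 0), 33), ((12, 4, 9), (6, 5, 0), -203), ((4, 13, 10), (6, 5, 0), -203), ((7, 6, 0), (0, 1, 7), 190),
    ((4, 5, 11), (0, 1, 7), 248), ((11, 10, 4), (0, 1, 7), -245), ((7, 5, 0), (0, 2, 7), 190), ((4, 6, 11), (0, 2, 7), 248),
    ((11, 9, 4), (0, 2, 7), -245), ((7, 4, 0), (0, 3, 7), -102), ((4, 7, 11), (0, 3, 7), -213), ((11, 8, 4), (0, 3, 7), 185),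
    ((9, 8, 1), (0, 1, 8), -61), ((2, 3, 10), (0, 1, 8), 180), ((11, 10, 3), (0, 1, 8), -53), ((1, 3, 9), (0, 2, 8), 180),
    ((10, 8, 2), (0, 2, 8), -61), ((11, 9, 3), (0, 2, 8), -53), ((10, 9, 3), (1, 2, 8), -41), ((11, 8, 3), (0, 3, 8), -20),
    ((10, 8, 3), (1, 3, 8), 55), ((9, 8, 3), (2, 3, 8), 55), ((1, 5, 9), (0, 4, 8), 582), ((2, 6, 10), (0, 4, 8), 582),
    ((3, 7, 11), (0, 4, 8), -514), ((8, 5, 1), (1, 4, 8), 48), ((3, 6, 10), (1, 4, 8), 353), ((10, 7, 3), (1, 4, 8), -239),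
    ((8, 6, 2), (2, 4, 8), 48), ((3, 5, 9), (2, 4, 8), 353), ((9, 7, 3), (2, 4, 8), -239), ((8, 7, 3), (3, 4, 8), -44),
    ((1, 4, 9), (8, 5, 0), 95), ((10, 7, 2), (8, 5, 0), -201), ((3, 6, 11), (8, 5, 0), -87), ((2, 13, 10), (8, 5, 0), 194),
    ((9, 6, 3), (2, 5, 8), 89), ((8, 13, 2), (2, 5, 8), -69), ((9, 7, 1), (8, 6, 0), -201), ((2, 4, 10), (8, 6, 0), 95),
    ((3, 5, 11), (8, 6, 0), -87), ((1, 12, 9), (8, 6, 0), 194), ((3, 5, 10), (8, 6, 1), 89), ((1, 12, 8), (8, 6, 1), -69),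
    ((3, 4, 11), (8, 7, 0), -13), ((3, 4, 10), (8, 7, 1), -41), ((3, 4, 9), (8, 7, 2), -41), ((9, 8, 0), (0, 1, 9), 19),
    ((2, 3, 11), (0, 1, 9), -66), ((11, 10, 2), (0, 1, 9), 43), ((11, 9, 2), (0, 2, 9), -3), ((10, 9, 2), (1, 2, 9), -34),
    ((11, 8, 2), (0, 3, 9), -22), ((9, 8, 2), (2, 3, 9), -86), ((9, 5, 0), (0, 4, 9), 33), ((2, 6, 11), (0, 4, 9), 99),
    ((11, 7, 2), (0, 4, 9), -39), ((9, 7, 2), (2, 4, 9), -86), ((9, 6, 2), (2, 5, 9), 124), ((2, 5, 11), (9, 6, 0), -20),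
    ((0, 12, 9), (9, 6, 0), 62), ((2, 5, 10), (9, 6, 1), 1), ((0, 12, 8), (9, 6, 1), -1), ((8, 13, 0), (9, 6, 1), -1),
    ((2, 4, 11), (9, 7, 0), 10), ((11, 10, 1), (0, 1, 10), -3), ((10, 8, 0), (0, 2, 10), 19), ((1, 3, 11), (0, 2, 10), -66),
    ((11, 9, 1), (0, 2, 10), 43), ((10, 9, 1), (1, 2, 10), -34), ((11, 8, 1), (0, 3, 10), -22), ((10, 8, 1), (1, 3, 10), -86),
    ((10, 6, 0), (0, 4, 10), 33), ((1, 5, 11), (0, 4, 10), 99), ((11, 7, 1), (0, 4, 10), -39), ((10, 7, 1), (1, 4, 10), -86),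
    ((11, 6, 1), (0, 5, 10), -20), ((10, 13, 0), (0, 5, 10), 62), ((10, 6, 1), (1, 5, 10), -124), ((1, 4, 11), (10, 7, 0), 10),
    ((1, 2, 11), (10, 9, 0), -28), ((11, 10, 0), (0, 1, 11), -2), ((11, 9, 0), (0, 2, 11), -2), ((11, 8, 0), (0, 3, 11), 14),
    ((11, 7, 0), (0, 4, 11), 20), ((5, 12, 2), (0, 2, 12), -31), ((4, 12, 2), (1, 2, 12), 11), ((5, 12, 3), (1, 3, 12), -321),
    ((12, 6, 9), (6, 12, 0), -22), ((12, 6, 8), (6, 12, 1), -189), ((6, 5, 12), (12, 4, 6), 231), ((12, 7, 9), (7, 12, 1), 212),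
    ((10, 9, 12), (12, 4, 10), 90), ((10, 8, 12), (12, 5, 10), -65), ((11, 9, 12), (12, 5, 11), 91), ((6, 13, 1), (0, 1, 13), -31),
    ((13, 4, 1), (1, 2, 13), 11), ((6, 13, 3), (2, 3, 13), -321), ((5, 13, 10), (13, 5, 0), -22), ((5, 13, 8), (13, 5, 2), -189),
    ((6, 13, 5), (4, 5, 13), 231), ((13, 7, 10), (7, 13, 2), 212), ((10, 9, 13), (4, 13, 9), 90), ((9, 8, 13), (13, 6, 9), -65),
    ((11, 10, 13), (13, 6, 11), 91), ((12, 13, 8), (13, 12, 0), 25)]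
  tr := tr14
  big := 1048576

theorem ct7_valid : validC ct7 = true := by decide +kernel

theorem ct7_const : constOK ct7 5059 = true := by decide +kernel

/-- classes -/
def cs7 : List Cl := [
 cl 0 1 0 1 5996 0 120, cl 0 2 0 0 387 0 106, cl 1 0 0 0 8082 0 119, cl 1 1 0 1 0 1400 134,
 cl 1 2 0 0 0 50 237, cl 2 0 0 0 674 0 84, cl 2 1 0 1 0 32 99, cl 2 2 0 0 0 1 168,
 cl 1 0 0 2 0 0 89, cl 0 0 0 2 0 1907 97, cl 1 0 1 1 6282 0 89, cl 2 0 1 1 0 898 72,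
 cl 2 0 0 2 0 0 75, cl 1 0 1 3 84 0 72, cl 1 0 2 0 0 1896 79, cl 2 0 2 0 0 404 66,
 cl 1 0 2 2 0 896 72, cl 0 1 0 3 0 44 78, cl 0 2 0 2 766 0 85, cl 1 1 0 3 0 0 79,
 cl 1 2 0 2 182 0 97, cl 0 0 0 4 0 25 69]

theorem ct7_link : linkOK ct7 cs7 = true := by decide +kernel

theorem cs7_tail : tailOK cs7 80 16 96 5059 = true := by decide +kernel

theorem cs7_grid : gridOK vtTree cs7 80 16 96 16 0 10453067648 5890 5059 = true := by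
  decide +kernel

end Pool.Agent.H79.OC
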