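import Pool.Agent.H79.OC.Pts
import Pool.Agent.H79.OC.Pts2
import Pool.Agent.H79.OC.VTab
import Pool.Agent.H79.OC.Swp

set_option autoImplicit false
set_option maxRecDepth 100000

/-!
# Certificates, part 31
-/

namespace Pool.Agent.H79.OC

open Cl

/-! ### Box 59: `0 ≤ 128 x ≤ 8`, `48 ≤ 128 y ≤ 56` -/

/-- certificate -/
def ct59 : Cert where
  pts := pts14
  g := 25322
  al := [(0, -2578), (1, 5044), (2, 5044), (3, 15477), (4, 8915), (5, 4516), (6, 4516), (7, -214), (8, 5810), (9, 1660), (10, 1660), (11, -3870), (12, 2980), (13, 2980)]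
  be := [
    (1, 0, 1484), (2, 0, 1484), (2, 1, -6708), (3, 0, -2919), (3, 1, -3120), (3, 2, -3120), (4, 0, 318),
    (4, 1, 949), (4, 2, 949), (4, 3, -11847), (5, 0, 3681), (5, 1, 8369), (5, 2, -1481), (5, 3, 4725),
    (5, 4, -305), (6, 0, 3681), (6, 1, -1481), (6, 2, 8369), (6, 3, 4725), (6, 4, -305), (6, 5, -8295),
    (7, 0, 2058), (7, 1, -1144), (7, 2, -1144), (7, 3, 8866), (7, 4, 1715), (7, 5, 3112), (7, 6, 3112),
    (8, 0, 2243), (8, 1, 1257), (8, 2, 1257), (8, 3, -2536), (8, 4, 1917), (8, 5, -2996), (8, 6, -2996),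
    (8, 7, -3068), (9, 0, 991), (9, 1, -726), (9, 2, -422), (9, 3, -1892), (9, 4, -382), (9, 5, -823),
    (9, 6, 598), (9, 7, 3096), (9, 8, 703), (10, 0, 991), (10, 1, -422), (10, 2, -726), (10, 3, -1892),
    (10, 4, -382), (10, 5, 598), (10, 6, -823), (10, 7, 3096), (10, 8, 703), (10, 9, -51), (11, 0, -320),
    (11, 1, -255), (11, 2, -255), (11, 3, 2147), (11, 4, -1521), (11, 5, -514), (11, 6, -514), (11, 7, 6903),
    (11, 8, 3421), (11, 9, 4313), (11, 10, 4313), (12, 0, -94), (12, 1, -2943), (12, 2, 348), (12, 3, -4168),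
    (12, 4, 547), (12, 5, -4418), (12, 6, 481), (12, 7, 1126), (12, 8, -179), (12, 9, -1641), (12, 10, 240),
    (12, 11, 633), (13, 0, -94), (13, 1, 348), (13, 2, -2943), (13, 3, -4168), (13, 4, 547), (13, 5, 481),
    (13, 6, -4418), (13, 7, 1126), (13, 8, -179), (13, 9, 240), (13, 10, -1641), (13, 11, 633), (13, 12, -388)]
  ta := [
    ((3, 2, 1), (0, 1, 2), 2256), ((4, 5, 6), (0, 1, 2), 1366), ((7, 6, 5), (0, 1, 2), -513), ((8, 9, 10), (0, 1, 2), -650),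
    ((11, 10, 9), (0, 1, 2), -2497), ((5, 4, 12), (0, 1, 2), 150), ((6, 13, 4), (0, 1, 2), 150), ((3, 2, 0), (0, 1, 3), -350),
    ((4, 5, 7), (0, 1, 3), 3164), ((7, 6, 4), (0, 1, 3), 3164), ((8, 9, 11), (0, 1, 3), -2814), ((11, 10, 8), (0, 1, 3), -2814),
    ((6, 5, 3), (1, 2, 4), -1512), ((5, 6, 8), (1, 2, 4), 3442), ((10, 9, 7), (1, 2, 4), -2747), ((4, 12, 1), (1, 2, 4), -886),
    ((13, 4, 2), (1, 2, 4), -886), ((7, 4, 3), (0, 3, 4), 85), ((4, 7, 8), (0, 3, 4), -828), ((11, 8, 7), (0, 3, 4), -2596),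
    ((6, 4, 3), (1, 3, 4), 1541), ((5, 7, 8), (1, 3, 4), -875), ((10, 8, 7), (1, 3, 4), -871), ((5, 4, 3), (2, 3, 4), 1541),
    ((6, 7, 8), (2, 3, 4), -875), ((9, 8, 7), (2, 3, 4), -871), ((5, 4, 0), (0, 1, 5), -1530), ((2, 3, 7), (0, 1, 5), -1260),
    ((7, 6, 2), (0, 1, 5), -332), ((4, 5, 9), (0, 1, 5), 354), ((9, 8, 4), (0, 1, 5), -595), ((6, 7, 11), (0, 1, 5), -1728),
    ((11, 10, 6), (0, 1, 5), -714), ((13, 6, 10), (0, 1, 5), 9574), ((7, 5, 2), (0, 2, 5), 268), ((4, 6, 9), (0, 2, 5), -941),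
    ((11, 9, 6), (0, 2, 5), -495), ((5, 12, 0), (0, 2, 5), -219), ((10, 8, 13), (0, 2, 5), 666), ((6, 5, 2), (1, 2, 5), -1980),
    ((5, 6, 9), (1, 2, 5), 697), ((10, 9, 6), (1, 2, 5), -1365), ((4, 12, 0), (1, 2, 5), 473), ((4, 13, 8), (1, 2, 5), -909),
    ((7, 4, 2), (0, 3, 5), 194), ((4, 7, 9), (0, 3, 5), -283), ((11, 8, 6), (0, 3, 5), 121), ((5, 4, 2), (2, 3, 5), 314),
    ((6, 7, 9), (2, 3, 5), -2647), ((9, 8, 6), (2, 3, 5), -1501), ((0, 1, 12), (2, 3, 5), -2625), ((13, 6, 8), (2, 3, 5), 9123),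
    ((7, 6, 1), (0, 1, 6), 268), ((4, 5, 10), (0, 1, 6), -941), ((11, 10, 5), (0, 1, 6), -495), ((9, 8, 12), (0, 1, 6), 666),
    ((6, 13, 0), (0, 1, 6), -219), ((6, 4, 0), (0, 2, 6), -1530), ((1, 3, 7), (0, 2, 6), -1260), ((7, 5, 1), (0, 2, 6), -332),
    ((4, 6, 10), (0, 2, 6), 354), ((10, 8, 4), (0, 2, 6), -595), ((5, 7, 11), (0, 2, 6), -1728), ((11, 9, 5), (0, 2, 6), -714),
    ((12, 5, 9), (0, 2, 6), 9574), ((6, 5, 1), (1, 2, 6), -1980), ((5, 6, 10), (1, 2, 6), 697), ((10, 9, 5), (1, 2, 6), -1365),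
    ((12, 4, 8), (1, 2, 6), -909), ((13, 4, 0), (1, 2, 6), 473), ((7, 4, 1), (0, 3, 6), 194), ((4, 7, 10), (0, 3, 6), -283),
    ((11, 8, 5), (0, 3, 6), 121), ((6, 4, 1), (1, 3, 6), 314), ((5, 7, 10), (1, 3, 6), -2647), ((10, 8, 5), (1, 3, 6), -1501),
    ((12, 5, 8), (1, 3, 6), 9123), ((0, 2, 13), (1, 3, 6), -2625), ((1, 2, 7), (6, 5, 0), 2133), ((10, 9, 4), (6, 5, 0), 1338),
    ((5, 6, 11), (6, 5, 0), 633), ((12, 4, 9), (6, 5, 0), -637), ((4, 13, 10), (6, 5, 0), -637), ((7, 6, 0), (0, 1, 7), -653),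
    ((4, 5, 11), (0, 1, 7), 255), ((11, 10, 4), (0, 1, 7), 150), ((7, 5, 0), (0, 2, 7), -653), ((4, 6, 11), (0, 2, 7), 255),
    ((11, 9, 4), (0, 2, 7), 150), ((7, 4, 0), (0, 3, 7), -1347), ((4, 7, 11), (0, 3, 7), -88), ((11, 8, 4), (0, 3, 7), 638),
    ((9, 8, 1), (0, 1, 8), -597), ((2, 3, 10), (0, 1, 8), 1048), ((11, 10, 3), (0, 1, 8), -901), ((1, 3, 9), (0, 2, 8), 1048),
    ((10, 8, 2), (0, 2, 8), -597), ((11, 9, 3), (0, 2, 8), -901), ((10, 9, 3), (1, 2, 8), 1295), ((11, 8, 3), (0, 3, 8), -626),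
    ((10, 8, 3), (1, 3, 8), 829), ((9, 8, 3), (2, 3, 8), 829), ((1, 5, 9), (0, 4, 8), 3228), ((2, 6, 10), (0, 4, 8), 3228),
    ((3, 7, 11), (0, 4, 8), -4961), ((8, 5, 1), (1, 4, 8), 727), ((3, 6, 10), (1, 4, 8), 1386), ((10, 7, 3), (1, 4, 8), -1891),
    ((8, 6, 2), (2, 4, 8), 727), ((3, 5, 9), (2, 4, 8), 1386), ((9, 7, 3), (2, 4, 8), -1891), ((8, 7, 3), (3, 4, 8), -2205),
    ((1, 4, 9), (8, 5, 0), 6), ((10, 7, 2), (8, 5, 0), -154), ((3, 6, 11), (8, 5, 0), -359), ((2, 13, 10), (8, 5, 0), 1208),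
    ((9, 6, 3), (2, 5, 8), -501), ((8, 13, 2), (2, 5, 8), 1010), ((9, 7, 1), (8, 6, 0), -154), ((2, 4, 10), (8, 6, 0), 6),
    ((3, 5, 11), (8, 6, 0), -359), ((1, 12, 9), (8, 6, 0), 1208), ((3, 5, 10), (8, 6, 1), -501), ((1, 12, 8), (8, 6, 1), 1010),
    ((3, 4, 11), (8, 7, 0), 1550), ((3, 4, 10), (8, 7, 1), 48), ((3, 4, 9), (8, 7, 2), 48), ((9, 8, 0), (0, 1, 9), -241),
    ((2, 3, 11), (0, 1, 9), 141), ((11, 10, 2), (0, 1, 9), -389), ((11, 9, 2), (0, 2, 9), -319), ((10, 9, 2), (1, 2, 9), -74),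
    ((11, 8, 2), (0, 3, 9), -533), ((9, 8, 2), (2, 3, 9), -132), ((9, 5, 0), (0, 4, 9), 370), ((2, 6, 11), (0, 4, 9), 436),
    ((11, 7, 2), (0, 4, 9), -576), ((9, 7, 2), (2, 4, 9), -184), ((9, 6, 2), (2, 5, 9), -487), ((2, 5, 11), (9, 6, 0), 534),
    ((0, 12, 9), (9, 6, 0), 646), ((2, 5, 10), (9, 6, 1), -214), ((0, 12, 8), (9, 6, 1), 214), ((8, 13, 0), (9, 6, 1), 214),
    ((2, 4, 11), (9, 7, 0), 226), ((11, 10, 1), (0, 1, 10), -319), ((10, 8, 0), (0, 2, 10), -241), ((1, 3, 11), (0, 2, 10), 141),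
    ((11, 9, 1), (0, 2, 10), -389), ((10, 9, 1), (1, 2, 10), -74), ((11, 8, 1), (0, 3, 10), -533), ((10, 8, 1), (1, 3, 10), -132),
    ((10, 6, 0), (0, 4, 10), 370), ((1, 5, 11), (0, 4, 10), 436), ((11, 7, 1), (0, 4, 10), -576), ((10, 7, 1), (1, 4, 10), -184),
    ((11, 6, 1), (0, 5, 10), 534), ((10, 13, 0), (0, 5, 10), 646), ((10, 6, 1), (1, 5, 10), 487), ((1, 4, 11), (10, 7, 0), 226),
    ((1, 2, 11), (10, 9, 0), 539), ((11, 10, 0), (0, 1, 11), -104), ((11, 9, 0), (0, 2, 11), -104), ((11, 8, 0), (0, 3, 11), -189),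
    ((11, 7, 0), (0, 4, 11), 300), ((5, 12, 2), (0, 2, 12), 907), ((4, 12, 2), (1, 2, 12), -1502), ((5, 12, 3), (1, 3, 12), -3826),
    ((12, 6, 9), (6, 12, 0), 20), ((12, 6, 8), (6, 12, 1), -1040), ((6, 5, 12), (12, 4, 6), 1037), ((12, 7, 9), (7, 12, 1), 1037),
    ((10, 9, 12), (12, 4, 10), 33), ((10, 8, 12), (12, 5, 10), 88), ((11, 9, 12), (12, 5, 11), 384), ((6, 13, 1), (0, 1, 13), 907),
    ((13, 4, 1), (1, 2, 13), -1502), ((6, 13, 3), (2, 3, 13), -3826), ((5, 13, 10), (13, 5, 0), 20), ((5, 13, 8), (13, 5, 2), -1040),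
    ((6, 13, 5), (4, 5, 13), 1037), ((13, 7, 10), (7, 13, 2), 1037), ((10, 9, 13), (4, 13, 9), 33), ((9, 8, 13), (13, 6, 9), 88),
    ((11, 10, 13), (13, 6, 11), 384), ((12, 13, 8), (13, 12, 0), 149)]
  tr := tr14
  big := 32768

theorem ct59_valid : validC ct59 = true := by decide +kernel

theorem ct59_const : constOK ct59 12826 = true := by decide +kernel

/-- classes -/
def cs59 : List Cl := [
 cl 0 0 1 1 3538 0 194, cl 0 0 2 0 2217 0 423, cl 1 0 0 0 33096 0 119, cl 1 0 1 1 0 0 115,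
 cl 1 0 2 0 537 0 119, cl 2 0 0 0 2938 0 84, cl 2 0 1 1 1472 0 83, cl 2 0 2 0 0 320 84,
 cl 1 0 0 2 0 2312 106, cl 0 0 0 2 0 13960 137, cl 1 1 0 1 5662 0 118, cl 2 1 0 1 0 1270 85,
 cl 2 0 0 2 0 844 82, cl 1 1 0 3 696 0 98, cl 1 2 0 0 0 14915 127, cl 2 2 0 0 0 2536 87,
 cl 1 2 0 2 0 8336 111, cl 0 0 1 3 962 0 112, cl 0 0 2 2 2252 0 137, cl 1 0 1 3 480 0 97,
 cl 1 0 2 2 1266 0 106, cl 0 0 0 4 0 388 97]

theorem ct59_link : linkOK ct59 (cs59.map swp) = true := by decide +kernel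

theorem cs59_tail0 : tailOK cs59 0 8 48 12826 = true := by decide +kernel

theorem cs59_grid0 : gridOK vtTree cs59 0 8 48 8 2437492688 0 24805 12826 = true := by
  decide +kernel

/-! ### Box 60: `0 ≤ 128 x ≤ 8`, `96 ≤ 128 y ≤ 104` -/

/-- certificate -/
def ct60 : Cert where
  pts := pts14
  g := 29362
  al := [(0, 1372), (1, 1088), (2, 1088), (3, 12635), (4, 11214), (5, 12931), (6, 12931), (7, 3197), (8, 12700), (9, 1327), (10, 1327), (11, 18), (12, -964), (13, -964)]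
  be := [
    (1, 0, 1366), (2, 0, 1366), (2, 1, 279), (3, 0, 208), (3, 1, 2305), (3, 2, 2305), (4, 0, 872),
    (4, 1, 3315), (4, 2, 3315), (4, 3, -10680), (5, 0, -1107), (5, 1, 7658), (5, 2, -2361), (5, 3, -395),
    (5, 4, -2176), (6, 0, -1107), (6, 1, -2361), (6, 2, 7658), (6, 3, -395), (6, 4, -2176), (6, 5, -12337),
    (7, 0, -218), (7, 1, 1089), (7, 2, 1089), (7, 3, 7599), (7, 4, 444), (7, 5, -1644), (7, 6, -1644),
    (8, 0, -301), (8, 1, -1160), (8, 2, -1160), (8, 3, -4105), (8, 4, 1122), (8, 5, -4887), (8, 6, -4887),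
    (8, 7, -7985), (9, 0, -344), (9, 1, 251), (9, 2, -1043), (9, 3, -962), (9, 4, -64), (9, 5, 1508),
    (9, 6, -401), (9, 7, 1980), (9, 8, 2148), (10, 0, -344), (10, 1, -1043), (10, 2, 251), (10, 3, -962),
    (10, 4, -64), (10, 5, -401), (10, 6, 1508), (10, 7, 1980), (10, 8, 2148), (10, 9, 696), (11, 1, 224),
    (11, 2, 224), (11, 3, -682), (11, 4, 218), (11, 5, -682), (11, 6, -682), (11, 7, 985), (11, 8, 981),
    (11, 9, 1598), (11, 10, 1598), (12, 0, 488), (12, 1, 603), (12, 2, 680), (12, 3, -1210), (12, 4, -533),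
    (12, 5, -1059), (12, 6, 961), (12, 7, 2258), (12, 8, -380), (12, 9, -1067), (12, 10, -476), (13, 0, 488),
    (13, 1, 680), (13, 2, 603), (13, 3, -1210), (13, 4, -533), (13, 5, 961), (13, 6, -1059), (13, 7, 2258),
    (13, 8, -380), (13, 9, -476), (13, 10, -1067), (13, 12, -756)]
  ta := [
    ((3, 2, 1), (0, 1, 2), -1379), ((4, 5, 6), (0, 1, 2), 2603), ((7, 6, 5), (0, 1, 2), 531), ((8, 9, 10), (0, 1, 2), -217),
    ((11, 10, 9), (0, 1, 2), -1131), ((5, 4, 12), (0, 1, 2), 93), ((6, 13, 4), (0, 1, 2), 93), ((3, 2, 0), (0, 1, 3), -978),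
    ((4, 5, 7), (0, 1, 3), 2361), ((7, 6, 4), (0, 1, 3), 2361), ((8, 9, 11), (0, 1, 3), -1383), ((11, 10, 8), (0, 1, 3), -1383),
    ((6, 5, 3), (1, 2, 4), 1819), ((5, 6, 8), (1, 2, 4), 2405), ((10, 9, 7), (1, 2, 4), -174), ((4, 12, 1), (1, 2, 4), -1461),
    ((13, 4, 2), (1, 2, 4), -1461), ((7, 4, 3), (0, 3, 4), -769), ((4, 7, 8), (0, 3, 4), 42), ((11, 8, 7), (0, 3, 4), 54),
    ((6, 4, 3), (1, 3, 4), 1459), ((5, 7, 8), (1, 3, 4), 1293), ((10, 8, 7), (1, 3, 4), -1996), ((5, 4, 3), (2, 3, 4), 1459),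
    ((6, 7, 8), (2, 3, 4), 1293), ((9, 8, 7), (2, 3, 4), -1996), ((5, 4, 0), (0, 1, 5), -1381), ((2, 3, 7), (0, 1, 5), -3412),
    ((7, 6, 2), (0, 1, 5), 1650), ((4, 5, 9), (0, 1, 5), 851), ((9, 8, 4), (0, 1, 5), -1619), ((6, 7, 11), (0, 1, 5), -370),
    ((11, 10, 6), (0, 1, 5), -702), ((13, 6, 10), (0, 1, 5), 6559), ((7, 5, 2), (0, 2, 5), -145), ((4, 6, 9), (0, 2, 5), -889),
    ((11, 9, 6), (0, 2, 5), -38), ((5, 12, 0), (0, 2, 5), -588), ((10, 8, 13), (0, 2, 5), 1349), ((6, 5, 2), (1, 2, 5), -1300),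
    ((5, 6, 9), (1, 2, 5), -2052), ((10, 9, 6), (1, 2, 5), -26), ((4, 12, 0), (1, 2, 5), 1049), ((4, 13, 8), (1, 2, 5), 2093),
    ((7, 4, 2), (0, 3, 5), 426), ((4, 7, 9), (0, 3, 5), -15), ((11, 8, 6), (0, 3, 5), -343), ((5, 4, 2), (2, 3, 5), -843),
    ((6, 7, 9), (2, 3, 5), -1280), ((9, 8, 6), (2, 3, 5), -1707), ((0, 1, 12), (2, 3, 5), -1219), ((13, 6, 8), (2, 3, 5), 6309),
    ((7, 6, 1), (0, 1, 6), -145), ((4, 5, 10), (0, 1, 6), -889), ((11, 10, 5), (0, 1, 6), -38), ((9, 8, 12), (0, 1, 6), 1349),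
    ((6, 13, 0), (0, 1, 6), -588), ((6, 4, 0), (0, 2, 6), -1381), ((1, 3, 7), (0, 2, 6), -3412), ((7, 5, 1), (0, 2, 6), 1650),
    ((4, 6, 10), (0, 2, 6), 851), ((10, 8, 4), (0, 2, 6), -1619), ((5, 7, 11), (0, 2, 6), -370), ((11, 9, 5), (0, 2, 6), -702),
    ((12, 5, 9), (0, 2, 6), 6559), ((6, 5, 1), (1, 2, 6), -1300), ((5, 6, 10), (1, 2, 6), -2052), ((10, 9, 5), (1, 2, 6), -26),
    ((12, 4, 8), (1, 2, 6), 2093), ((13, 4, 0), (1, 2, 6), 1049), ((7, 4, 1), (0, 3, 6), 426), ((4, 7, 10), (0, 3, 6), -15),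
    ((11, 8, 5), (0, 3, 6), -343), ((6, 4, 1), (1, 3, 6), -843), ((5, 7, 10), (1, 3, 6), -1280), ((10, 8, 5), (1, 3, 6), -1707),
    ((12, 5, 8), (1, 3, 6), 6309), ((0, 2, 13), (1, 3, 6), -1219), ((1, 2, 7), (6, 5, 0), -720), ((10, 9, 4), (6, 5, 0), -610),
    ((5, 6, 11), (6, 5, 0), 979), ((12, 4, 9), (6, 5, 0), -334), ((4, 13, 10), (6, 5, 0), -334), ((7, 6, 0), (0, 1, 7), 212),
    ((4, 5, 11), (0, 1, 7), -428), ((11, 10, 4), (0, 1, 7), 210), ((7, 5, 0), (0, 2, 7), 212), ((4, 6, 11), (0, 2, 7), -428),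
    ((11, 9, 4), (0, 2, 7), 210), ((7, 4, 0), (0, 3, 7), -568), ((4, 7, 11), (0, 3, 7), 761), ((11, 8, 4), (0, 3, 7), -440),
    ((9, 8, 1), (0, 1, 8), -372), ((2, 3, 10), (0, 1, 8), 203), ((11, 10, 3), (0, 1, 8), 63), ((1, 3, 9), (0, 2, 8), 203),
    ((10, 8, 2), (0, 2, 8), -372), ((11, 9, 3), (0, 2, 8), 63), ((10, 9, 3), (1, 2, 8), 130), ((11, 8, 3), (0, 3, 8), 417),
    ((10, 8, 3), (1, 3, 8), 158), ((9, 8, 3), (2, 3, 8), 158), ((1, 5, 9), (0, 4, 8), 2717), ((2, 6, 10), (0, 4, 8), 2717),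
    ((3, 7, 11), (0, 4, 8), -1385), ((8, 5, 1), (1, 4, 8), 868), ((3, 6, 10), (1, 4, 8), 1280), ((10, 7, 3), (1, 4, 8), -675),
    ((8, 6, 2), (2, 4, 8), 868), ((3, 5, 9), (2, 4, 8), 1280), ((9, 7, 3), (2, 4, 8), -675), ((8, 7, 3), (3, 4, 8), -640),
    ((1, 4, 9), (8, 5, 0), 32), ((10, 7, 2), (8, 5, 0), -308), ((3, 6, 11), (8, 5, 0), 169), ((2, 13, 10), (8, 5, 0), -46),
    ((9, 6, 3), (2, 5, 8), -206), ((8, 13, 2), (2, 5, 8), 61), ((9, 7, 1), (8, 6, 0), -308), ((2, 4, 10), (8, 6, 0), 32),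
    ((3, 5, 11), (8, 6, 0), 169), ((1, 12, 9), (8, 6, 0), -46), ((3, 5, 10), (8, 6, 1), -206), ((1, 12, 8), (8, 6, 1), 61),
    ((3, 4, 11), (8, 7, 0), 218), ((3, 4, 10), (8, 7, 1), -245), ((3, 4, 9), (8, 7, 2), -245), ((9, 8, 0), (0, 1, 9), 35),
    ((2, 3, 11), (0, 1, 9), 77), ((11, 10, 2), (0, 1, 9), -241), ((11, 9, 2), (0, 2, 9), -79), ((10, 9, 2), (1, 2, 9), -58),
    ((11, 8, 2), (0, 3, 9), -174), ((9, 8, 2), (2, 3, 9), 226), ((9, 5, 0), (0, 4, 9), 141), ((2, 6, 11), (0, 4, 9), -123),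
    ((11, 7, 2), (0, 4, 9), -149), ((9, 7, 2), (2, 4, 9), -57), ((9, 6, 2), (2, 5, 9), -394), ((2, 5, 11), (9, 6, 0), -4),
    ((0, 12, 9), (9, 6, 0), -214), ((2, 5, 10), (9, 6, 1), -176), ((0, 12, 8), (9, 6, 1), 176), ((8, 13, 0), (9, 6, 1), 176),
    ((2, 4, 11), (9, 7, 0), -227), ((11, 10, 1), (0, 1, 10), -79), ((10, 8, 0), (0, 2, 10), 35), ((1, 3, 11), (0, 2, 10), 77),
    ((11, 9, 1), (0, 2, 10), -241), ((10, 9, 1), (1, 2, 10), -58), ((11, 8, 1), (0, 3, 10), -174), ((10, 8, 1), (1, 3, 10), 226),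
    ((10, 6, 0), (0, 4, 10), 141), ((1, 5, 11), (0, 4, 10), -123), ((11, 7, 1), (0, 4, 10), -149), ((10, 7, 1), (1, 4, 10), -57),
    ((11, 6, 1), (0, 5, 10), -4), ((10, 13, 0), (0, 5, 10), -214), ((10, 6, 1), (1, 5, 10), 394), ((1, 4, 11), (10, 7, 0), -227),
    ((1, 2, 11), (10, 9, 0), 226), ((5, 12, 2), (0, 2, 12), 371), ((4, 12, 2), (1, 2, 12), -738), ((5, 12, 3), (1, 3, 12), -2220),
    ((12, 6, 9), (6, 12, 0), 87), ((12, 6, 8), (6, 12, 1), -665), ((6, 5, 12), (12, 4, 6), 168), ((12, 7, 9), (7, 12, 1), 1249),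
    ((10, 9, 12), (12, 4, 10), -372), ((10, 8, 12), (12, 5, 10), 5), ((6, 13, 1), (0, 1, 13), 371), ((13, 4, 1), (1, 2, 13), -738),
    ((6, 13, 3), (2, 3, 13), -2220), ((5, 13, 10), (13, 5, 0), 87), ((5, 13, 8), (13, 5, 2), -665), ((6, 13, 5), (4, 5, 13), 168),
    ((13, 7, 10), (7, 13, 2), 1249), ((10, 9, 13), (4, 13, 9), -372), ((9, 8, 13), (13, 6, 9), 5), ((12, 13, 8), (13, 12, 0), -351)]
  tr := tr14
  big := 32768

theorem ct60_valid : validC ct60 = true := by decide +kernel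

theorem ct60_const : constOK ct60 11653 = true := by decide +kernel

/-- classes -/
def cs60 : List Cl := [
 cl 0 0 1 1 5076 0 137, cl 0 0 2 0 1633 0 423, cl 1 0 0 0 28910 0 119, cl 1 0 1 1 0 3662 106,
 cl 1 0 2 0 0 0 119, cl 2 0 0 0 0 481 84, cl 2 0 1 1 0 240 82, cl 2 0 2 0 0 0 84,
 cl 1 0 0 2 0 5308 89, cl 0 0 0 2 0 12428 97, cl 1 1 0 1 1232 0 109, cl 2 1 0 1 0 4244 83,
 cl 2 0 0 2 0 2086 75, cl 1 1 0 3 1360 0 76, cl 1 2 0 0 0 18665 127, cl 2 2 0 0 0 4105 87,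
 cl 1 2 0 2 0 2420 90, cl 0 0 1 3 1922 0 79, cl 0 0 2 2 4516 0 97, cl 1 0 1 3 0 952 76,
 cl 1 0 2 2 0 0 89, cl 0 0 0 4 0 756 69]

theorem ct60_link : linkOK ct60 (cs60.map swp) = true := by decide +kernel

theorem cs60_tail0 : tailOK cs60 0 8 96 11653 = true := by decide +kernel

theorem cs60_grid0 : gridOK vtTree cs60 0 8 96 8 23069364704 0 25983 11653 = true := by
  decide +kernel

end Pool.Agent.H79.OC
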