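import Pool.Agent.H79.OC.Pts
import Pool.Agent.H79.OC.Pts2
import Pool.Agent.H79.OC.VTab
import Pool.Agent.H79.OC.Swp

set_option autoImplicit false
set_option maxRecDepth 100000

/-!
# Certificates, part 32
-/

namespace Pool.Agent.H79.OC

open Cl

/-! ### Box 61: `16 ≤ 128 x ≤ 24`, `80 ≤ 128 y ≤ 88` -/

/-- certificate -/
def ct61 : Cert where
  pts := ptsA
  g := 14538
  al := [(0, 3466), (1, 5406), (2, 1782), (3, -4195), (4, 4277), (5, -4223), (6, -5159), (7, 45), (8, 1528), (9, -1267), (10, 8661), (11, 2996), (12, 910), (13, 2555)]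
  be := [
    (1, 0, 4620), (2, 0, -573), (2, 1, -1285), (3, 0, 4097), (3, 1, -1155), (3, 2, 1964), (4, 0, 374),
    (4, 1, 2457), (4, 2, 2288), (4, 3, 2925), (5, 0, 2899), (5, 1, -9010), (5, 2, 1836), (5, 3, 533),
    (5, 4, 3993), (6, 0, 4953), (6, 1, 1768), (6, 2, 3207), (6, 3, 3662), (6, 4, 1976), (6, 5, 967),
    (7, 0, 1364), (7, 1, -2261), (7, 2, -3193), (7, 3, -2224), (7, 4, 2629), (7, 5, -217), (7, 6, 1082),
    (8, 0, -3707), (8, 1, -224), (8, 2, 618), (8, 3, 3033), (8, 4, -1067), (8, 5, 8993), (8, 6, 2268),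
    (8, 7, 341), (9, 0, 2481), (9, 1, 5824), (9, 2, 1104), (9, 3, 12550), (9, 4, 75), (9, 5, 3679),
    (9, 6, 2099), (9, 7, -1942), (9, 8, 3825), (10, 0, -5948), (10, 1, -4929), (10, 2, -4093), (10, 3, 946),
    (10, 4, -2679), (10, 5, 1533), (10, 6, 430), (10, 7, 533), (10, 8, -3791), (10, 9, -978), (11, 0, -3624),
    (11, 1, -497), (11, 2, 523), (11, 3, -227), (11, 4, -2034), (11, 5, 2778), (11, 6, 1183), (11, 7, -107),
    (11, 8, -5208), (11, 9, -5491), (11, 10, -1365), (12, 0, -1117), (12, 1, 1463), (12, 2, 904), (12, 3, 1308),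
    (12, 4, -1245), (12, 5, 1421), (12, 6, -679), (12, 7, 1533), (12, 8, -711), (12, 9, -437), (12, 10, -941),
    (12, 11, -1061), (13, 0, -261), (13, 1, -2470), (13, 2, -235), (13, 3, -521), (13, 4, -1364), (13, 5, -780),
    (13, 6, -499), (13, 7, -565), (13, 8, 2812), (13, 9, 2842), (13, 10, 579), (13, 11, 1735), (13, 12, -1812)]
  ta := [
    ((1, 9, 3), (3, 0, 1), -4118), ((8, 4, 12), (3, 0, 1), 141), ((12, 5, 8), (3, 0, 1), -1623), ((11, 9, 13), (3, 0, 1), 5578),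
    ((8, 4, 1), (3, 0, 2), 119), ((1, 9, 8), (3, 0, 2), -2982), ((2, 10, 3), (3, 0, 2), -11), ((11, 9, 7), (3, 0, 2), 4455),
    ((3, 8, 1), (1, 2, 3), -1182), ((12, 1, 8), (1, 2, 3), 59), ((13, 7, 11), (1, 2, 3), -404), ((1, 2, 4), (0, 4, 2), -1585),
    ((9, 5, 7), (0, 4, 2), -401), ((3, 8, 10), (0, 4, 2), 894), ((9, 10, 8), (0, 4, 2), 776), ((13, 7, 5), (0, 4, 2), 537),
    ((4, 8, 3), (3, 0, 4), -1146), ((10, 2, 1), (3, 0, 4), 2803), ((1, 9, 10), (3, 0, 4), 78), ((11, 9, 5), (3, 0, 4), 856),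
    ((9, 1, 12), (3, 0, 4), -110), ((12, 5, 9), (3, 0, 4), -877), ((1, 10, 3), (3, 4, 1), -384), ((12, 9, 8), (3, 4, 1), 768),
    ((11, 5, 13), (3, 4, 1), -732), ((1, 10, 8), (3, 4, 2), 1609), ((11, 5, 7), (3, 4, 2), 333), ((0, 8, 5), (5, 1, 0), -3791),
    ((6, 4, 12), (5, 1, 0), 143), ((2, 9, 13), (5, 1, 0), -874), ((2, 5, 13), (5, 2, 0), 165), ((2, 9, 5), (5, 1, 2), -638),
    ((12, 5, 0), (3, 0, 5), -11), ((0, 6, 12), (3, 0, 5), 304), ((10, 2, 13), (3, 0, 5), 69), ((0, 8, 12), (5, 1, 3), 178),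
    ((10, 11, 13), (5, 1, 3), -817), ((5, 9, 0), (0, 4, 5), 2400), ((12, 1, 6), (0, 4, 5), -440), ((2, 1, 13), (0, 4, 5), -666),
    ((13, 7, 2), (0, 4, 5), 847), ((6, 4, 1), (5, 1, 4), -2751), ((9, 2, 0), (5, 1, 4), -1227), ((2, 9, 7), (5, 1, 4), 1633),
    ((0, 8, 9), (5, 1, 4), -1312), ((11, 10, 3), (5, 1, 4), -1049), ((1, 5, 13), (5, 1, 4), 324), ((2, 5, 7), (5, 2, 4), 940),
    ((5, 11, 3), (3, 4, 5), -653), ((12, 9, 0), (3, 4, 5), 192), ((10, 1, 13), (3, 4, 5), 821), ((1, 9, 4), (0, 6, 2), -4253),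
    ((9, 1, 7), (0, 6, 2), -778), ((8, 4, 9), (0, 6, 2), 54), ((2, 10, 0), (0, 6, 2), 3832), ((3, 0, 10), (0, 6, 2), -227),
    ((9, 11, 8), (0, 6, 2), 2036), ((5, 12, 13), (0, 6, 2), 1116), ((2, 1, 7), (1, 2, 6), 2998), ((0, 4, 9), (1, 2, 6), -513),
    ((5, 9, 4), (1, 2, 6), -3881), ((9, 10, 0), (1, 2, 6), -311), ((3, 8, 11), (1, 2, 6), 74), ((13, 7, 1), (1, 2, 6), 569),
    ((1, 12, 13), (1, 2, 6), 3301), ((1, 9, 11), (6, 0, 3), 2501), ((1, 11, 3), (3, 6, 1), -276), ((11, 1, 13), (3, 6, 1), 480),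
    ((11, 1, 7), (3, 6, 2), -516), ((1, 11, 8), (3, 6, 2), 1854), ((3, 0, 8), (0, 6, 4), -1330), ((4, 8, 0), (0, 6, 4), 2104),
    ((1, 9, 2), (0, 6, 4), -57), ((9, 1, 5), (0, 6, 4), 1435), ((10, 2, 9), (0, 6, 4), -583), ((9, 11, 10), (0, 6, 4), 217),
    ((12, 5, 1), (0, 6, 4), 772), ((1, 5, 7), (6, 4, 2), -1432), ((9, 2, 4), (6, 4, 2), -2692), ((0, 8, 10), (6, 4, 2), 2130),
    ((11, 10, 8), (6, 4, 2), 465), ((11, 1, 5), (3, 6, 4), 1573), ((1, 11, 10), (3, 6, 4), -251), ((12, 5, 6), (0, 6, 5), 394),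
    ((6, 4, 5), (5, 1, 6), -984), ((0, 10, 7), (7, 1, 0), -1054), ((4, 9, 13), (7, 1, 0), -1284), ((13, 12, 4), (7, 1, 0), 524),
    ((7, 9, 0), (0, 2, 7), 1082), ((4, 1, 13), (0, 2, 7), 9), ((13, 5, 4), (0, 2, 7), 182), ((8, 4, 13), (3, 0, 7), -574),
    ((8, 11, 13), (7, 1, 3), -147), ((13, 12, 8), (7, 1, 3), -1696), ((7, 11, 3), (3, 2, 7), 422), ((8, 1, 13), (3, 2, 7), -223),
    ((13, 7, 4), (0, 4, 7), -77), ((4, 9, 7), (7, 1, 4), 334), ((7, 5, 4), (4, 2, 7), -376), ((4, 2, 13), (7, 5, 0), 79),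
    ((8, 10, 13), (7, 5, 3), -380), ((6, 2, 7), (7, 1, 6), -1367), ((5, 1, 8), (0, 8, 1), 585), ((9, 2, 3), (0, 8, 1), -3547),
    ((10, 11, 7), (0, 8, 1), 976), ((9, 2, 8), (0, 8, 2), -1157), ((3, 8, 2), (1, 2, 8), -823), ((2, 10, 8), (8, 4, 2), 1045),
    ((5, 9, 3), (3, 8, 5), 3891), ((12, 1, 0), (3, 8, 5), -365), ((0, 4, 12), (3, 8, 5), -630), ((13, 7, 10), (3, 8, 5), -537),
    ((10, 9, 13), (3, 8, 5), -714), ((4, 8, 6), (0, 6, 8), -1351), ((9, 11, 2), (0, 6, 8), -292), ((10, 2, 11), (0, 6, 8), 1622),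
    ((11, 2, 3), (6, 8, 1), 37), ((2, 11, 7), (6, 8, 1), -191), ((11, 2, 8), (6, 8, 2), 74), ((1, 11, 2), (3, 6, 8), -396),
    ((8, 11, 7), (7, 1, 8), 699), ((13, 7, 8), (3, 8, 7), -157), ((8, 10, 7), (7, 5, 8), -1375), ((1, 10, 0), (3, 4, 9), 2018),
    ((10, 1, 7), (3, 4, 9), 798), ((5, 11, 8), (3, 4, 9), -1509), ((12, 9, 4), (3, 4, 9), 1167), ((9, 12, 13), (3, 4, 9), 2945),
    ((1, 9, 6), (0, 6, 9), -156), ((3, 0, 11), (0, 6, 9), 1319), ((9, 11, 0), (0, 6, 9), 586), ((6, 4, 9), (9, 2, 6), -751),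
    ((0, 8, 11), (9, 2, 6), 738), ((11, 10, 0), (9, 2, 6), 816), ((1, 11, 0), (3, 6, 9), 1571), ((3, 10, 7), (7, 9, 3), -76),
    ((13, 5, 8), (7, 9, 3), -1735), ((8, 9, 13), (7, 9, 3), -1915), ((11, 2, 0), (6, 8, 9), 720), ((9, 10, 4), (0, 4, 10), 2096),
    ((1, 12, 7), (0, 4, 10), -2243), ((13, 7, 12), (0, 4, 10), -226), ((3, 4, 10), (1, 10, 4), 286), ((9, 12, 7), (1, 10, 4), 14),
    ((8, 4, 10), (2, 10, 4), 220), ((5, 12, 7), (2, 10, 4), -860), ((12, 2, 6), (5, 10, 0), -1014), ((2, 12, 13), (5, 10, 0), 910),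
    ((10, 11, 5), (5, 1, 10), -813), ((2, 9, 12), (5, 1, 10), -1282), ((12, 5, 2), (10, 2, 5), 349), ((12, 2, 0), (5, 10, 3), 8),
    ((10, 5, 13), (5, 10, 3), -59), ((2, 12, 7), (5, 10, 4), 1049), ((2, 10, 6), (0, 6, 10), -2081), ((8, 4, 11), (0, 6, 10), 662),
    ((9, 11, 4), (0, 6, 10), 1672), ((3, 4, 11), (1, 10, 6), 1515), ((5, 11, 4), (1, 10, 6), -1542), ((1, 11, 4), (3, 6, 10), 405),
    ((11, 10, 4), (6, 4, 10), -1005), ((7, 12, 4), (4, 10, 7), -230), ((5, 10, 8), (10, 5, 7), -1997), ((12, 2, 4), (10, 5, 7), 1540),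
    ((11, 2, 4), (6, 8, 10), -325), ((12, 1, 2), (5, 9, 10), -1112), ((0, 4, 11), (9, 10, 6), 38), ((12, 9, 6), (5, 11, 0), 519),
    ((9, 11, 6), (0, 6, 11), -810), ((3, 6, 11), (1, 11, 6), -210), ((6, 8, 11), (11, 2, 6), 257), ((11, 10, 6), (6, 4, 11), 665),
    ((12, 5, 3), (3, 0, 12), -445), ((3, 8, 12), (12, 1, 3), 573), ((12, 9, 3), (3, 4, 12), -1071), ((4, 10, 13), (7, 12, 0), 246),
    ((2, 11, 13), (6, 8, 12), 399), ((10, 12, 13), (12, 10, 0), -147), ((10, 9, 12), (12, 1, 10), 735), ((12, 5, 10), (10, 2, 12), -490),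
    ((10, 12, 7), (12, 10, 4), 1192), ((11, 9, 12), (12, 5, 11), 425), ((11, 12, 13), (12, 11, 8), -1844), ((0, 9, 13), (13, 1, 0), 1444),
    ((13, 5, 0), (0, 2, 13), 541), ((3, 11, 13), (13, 1, 3), 179), ((13, 7, 0), (0, 4, 13), 38), ((3, 10, 13), (13, 5, 3), -43),
    ((13, 12, 6), (6, 2, 13), 1581), ((3, 8, 13), (13, 7, 3), -342), ((13, 12, 0), (0, 10, 13), 280)]
  tr := trA
  big := 65536

theorem ct61_valid : validC ct61 = true := by decide +kernel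

theorem ct61_const : constOK ct61 11891 = true := by decide +kernel

/-- classes -/
def cs61 : List Cl := [
 cl 1 0 0 0 28293 0 119, cl 1 1 0 1 6285 0 117, cl 0 0 1 1 11365 0 149, cl 1 0 0 2 3618 0 94,
 cl 2 2 0 0 0 0 93, cl 0 0 0 2 0 11002 106, cl 1 2 0 0 0 11947 150, cl 1 2 0 2 0 3245 101,
 cl 1 0 1 1 0 136 105, cl 2 1 0 1 327 0 86, cl 0 0 2 0 337 0 237, cl 0 0 2 2 5602 0 105,
 cl 0 0 1 3 4627 0 87, cl 1 1 0 3 1585 0 83, cl 1 0 2 0 1308 0 106, cl 2 0 0 0 0 521 84,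
 cl 2 3 0 1 3711 0 95, cl 1 3 0 1 0 2750 136, cl 1 3 0 3 1183 0 86, cl 2 2 0 2 0 158 83,
 cl 0 0 3 1 0 2002 139]

theorem ct61_link : linkOK ct61 (cs61.map swp) = true := by decide +kernel

theorem cs61_tail0 : tailOK cs61 16 8 80 11891 = true := by decide +kernel

theorem cs61_grid0 : gridOK vtTree cs61 16 8 80 8 0 26082871716 30573 11891 = true := by
  decide +kernel

/-! ### Box 62: `20 ≤ 128 x ≤ 21`, `92 ≤ 128 y ≤ 93` -/

/-- certificate -/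
def ct62 : Cert where
  pts := ptsD
  g := 15289
  al := [(0, 3250), (1, 747), (2, 3409), (3, 3536), (4, 4296), (5, -1172), (6, -727), (7, 3465), (8, 1815), (9, -3304), (10, 1101), (11, -113), (12, 2385), (13, 2129), (14, 2718)]
  be := [
    (1, 0, 6697), (2, 0, 1712), (2, 1, 2888), (3, 0, -497), (3, 1, -2330), (3, 2, 193), (4, 0, -563),
    (4, 1, -2267), (4, 2, 634), (4, 3, -2283), (5, 0, -5100), (5, 1, 3046), (5, 2, 3786), (5, 3, -2095),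
    (5, 4, 5571), (6, 0, 1353), (6, 1, 2095), (6, 2, 7249), (6, 3, -669), (6, 4, 1853), (6, 5, 2361),
    (7, 0, -838), (7, 1, 1010), (7, 2, -1907), (7, 3, -526), (7, 4, -1490), (7, 5, -11655), (7, 6, -488),
    (8, 0, -2148), (8, 1, -1871), (8, 2, 1001), (8, 4, 358), (8, 5, 755), (8, 6, -761), (8, 7, 74),
    (9, 0, 1908), (9, 1, 511), (9, 2, 260), (9, 3, 1781), (9, 4, 3244), (9, 5, 8507), (9, 6, 1271),
    (9, 7, 210), (9, 8, 18), (10, 0, -214), (10, 1, -281), (10, 2, 6934), (10, 3, -2878), (10, 4, -1164),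
    (10, 5, -6), (10, 6, -673), (10, 7, -803), (10, 8, 1006), (10, 9, 1933), (11, 0, 1949), (11, 1, -674),
    (11, 2, -1872), (11, 3, 192), (11, 4, 840), (11, 5, 1872), (11, 6, 642), (11, 7, -1538), (11, 8, -552),
    (11, 9, 745), (11, 10, 1130), (12, 0, -496), (12, 1, 751), (12, 2, -1077), (12, 3, 314), (12, 4, 187),
    (12, 5, -3449), (12, 6, -1166), (12, 7, -2091), (12, 8, 243), (12, 9, 683), (12, 10, -439), (12, 11, 130),
    (13, 0, 2539), (13, 1, 3287), (13, 2, -8151), (13, 3, 3636), (13, 4, -452), (13, 5, 4694), (13, 6, 710),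
    (13, 7, -488), (13, 8, -1056), (13, 9, 269), (13, 10, 726), (13, 11, 213), (13, 12, 5782), (14, 0, -453),
    (14, 1, 40), (14, 2, -2748), (14, 3, -839), (14, 4, -546), (14, 5, -1792), (14, 6, 573), (14, 7, -867),
    (14, 8, -1069), (14, 9, 103), (14, 10, -118), (14, 11, -13), (14, 12, -742), (14, 13, -299)]
  ta := [
    ((4, 2, 6), (3, 1, 0), -3926), ((6, 5, 4), (3, 1, 0), -998), ((11, 5, 7), (3, 1, 0), 8542), ((0, 13, 3), (3, 1, 0), -3153),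
    ((7, 8, 11), (0, 2, 3), 858), ((4, 13, 6), (0, 2, 3), -407), ((3, 4, 2), (2, 1, 3), -544), ((8, 5, 11), (2, 1, 3), 1589),
    ((6, 0, 13), (2, 1, 3), -1), ((13, 5, 6), (2, 1, 3), -1081), ((0, 5, 4), (4, 1, 0), 1770), ((9, 2, 6), (4, 1, 0), 239),
    ((6, 8, 9), (4, 1, 0), -687), ((11, 13, 12), (4, 1, 0), 799), ((14, 13, 3), (4, 1, 0), 321), ((9, 5, 6), (0, 2, 4), 18),
    ((12, 5, 11), (0, 2, 4), 2281), ((4, 13, 0), (0, 2, 4), 241), ((14, 1, 3), (0, 2, 4), -36), ((3, 4, 1), (2, 1, 4), 817),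
    ((6, 0, 5), (2, 1, 4), 1030), ((5, 8, 6), (2, 1, 4), 533), ((4, 9, 2), (2, 1, 4), -543), ((13, 5, 0), (2, 1, 4), -355),
    ((5, 13, 11), (2, 1, 4), -2853), ((0, 14, 13), (2, 1, 4), 209), ((6, 0, 4), (3, 4, 0), -835), ((4, 9, 6), (3, 4, 0), -441),
    ((7, 12, 11), (3, 4, 0), 482), ((0, 14, 3), (3, 4, 0), -65), ((5, 1, 4), (1, 5, 0), 1120), ((7, 0, 5), (1, 5, 0), -523),
    ((2, 8, 6), (1, 5, 0), 553), ((8, 2, 9), (1, 5, 0), 637), ((10, 9, 2), (1, 5, 0), -535), ((3, 11, 13), (1, 5, 0), -1),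
    ((12, 14, 13), (1, 5, 0), 477), ((7, 6, 8), (2, 5, 0), -249), ((5, 2, 9), (2, 5, 0), -3800), ((10, 4, 1), (2, 5, 0), -291),
    ((12, 0, 5), (2, 5, 0), 2317), ((13, 1, 4), (2, 5, 0), 2191), ((4, 11, 13), (2, 5, 0), 422), ((1, 13, 14), (2, 5, 0), -28),
    ((7, 6, 0), (5, 2, 1), 582), ((2, 5, 8), (5, 2, 1), 1247), ((10, 4, 9), (5, 2, 1), 315), ((11, 4, 3), (5, 2, 1), -257),
    ((0, 12, 7), (5, 2, 1), 175), ((1, 13, 5), (5, 2, 1), -1904), ((12, 0, 14), (5, 2, 1), -240), ((4, 1, 6), (0, 5, 3), -1145),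
    ((6, 8, 4), (0, 5, 3), -322), ((11, 13, 7), (0, 5, 3), 681), ((1, 5, 6), (5, 1, 3), -863), ((8, 2, 4), (5, 1, 3), -697),
    ((3, 11, 5), (5, 1, 3), 748), ((7, 0, 13), (5, 1, 3), 797), ((4, 11, 8), (5, 2, 3), -313), ((1, 13, 6), (5, 2, 3), 1303),
    ((7, 6, 13), (5, 2, 3), -36), ((6, 0, 1), (3, 4, 5), -2276), ((1, 2, 6), (3, 4, 5), -3641), ((8, 5, 4), (3, 4, 5), 1451),
    ((4, 9, 8), (3, 4, 5), -604), ((5, 13, 3), (3, 4, 5), -1518), ((13, 5, 7), (3, 4, 5), 4445), ((7, 12, 13), (3, 4, 5), -202),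
    ((3, 4, 6), (6, 0, 3), 441), ((6, 5, 3), (3, 1, 6), -1007), ((3, 13, 6), (6, 2, 3), 1076), ((1, 5, 7), (7, 0, 1), 1904),
    ((8, 2, 10), (7, 0, 1), -1772), ((10, 9, 8), (7, 0, 1), -434), ((2, 8, 7), (7, 0, 2), -476), ((5, 1, 10), (7, 0, 2), -603),
    ((10, 9, 5), (7, 0, 2), 50), ((1, 5, 12), (7, 0, 2), -34), ((12, 14, 1), (7, 0, 2), -785), ((8, 5, 10), (1, 2, 7), -1144),
    ((7, 12, 1), (1, 2, 7), -216), ((3, 11, 7), (7, 0, 3), 586), ((10, 9, 6), (7, 0, 4), 38), ((3, 11, 12), (7, 0, 4), 38),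
    ((12, 14, 3), (7, 0, 4), -489), ((6, 8, 10), (4, 1, 7), 498), ((6, 5, 10), (4, 2, 7), -985), ((3, 1, 12), (4, 2, 7), 425),
    ((7, 12, 3), (3, 4, 7), -303), ((7, 6, 2), (2, 5, 7), 317), ((5, 2, 10), (2, 5, 7), -1881), ((10, 4, 5), (2, 5, 7), 1638),
    ((12, 0, 1), (2, 5, 7), -789), ((1, 13, 12), (2, 5, 7), -3494), ((3, 13, 7), (7, 5, 3), -83), ((10, 2, 6), (4, 5, 7), -4402),
    ((3, 13, 12), (4, 5, 7), -5565), ((10, 4, 8), (7, 6, 1), -397), ((1, 13, 7), (7, 6, 1), 1066), ((10, 4, 6), (7, 6, 4), 394),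
    ((4, 11, 7), (7, 6, 4), 375), ((12, 0, 3), (7, 6, 4), -401), ((8, 1, 9), (1, 8, 0), 216), ((7, 14, 5), (1, 8, 0), -767),
    ((7, 0, 8), (2, 8, 0), 43), ((5, 1, 9), (2, 8, 0), -3228), ((10, 9, 1), (2, 8, 0), -432), ((1, 5, 14), (2, 8, 0), 1446),
    ((12, 14, 5), (2, 8, 0), 1489), ((8, 5, 1), (1, 2, 8), -839), ((14, 0, 7), (1, 2, 8), 51), ((7, 12, 14), (1, 2, 8), 894),
    ((3, 11, 8), (8, 2, 3), 737), ((9, 1, 6), (0, 8, 4), -381), ((14, 5, 3), (0, 8, 4), 338), ((1, 8, 6), (8, 1, 4), 407),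
    ((7, 14, 13), (8, 1, 4), -243), ((8, 5, 3), (3, 4, 8), -287), ((6, 0, 8), (5, 8, 0), -147), ((2, 1, 9), (5, 8, 0), -447),
    ((4, 9, 1), (5, 8, 0), -64), ((0, 14, 5), (5, 8, 0), 930), ((13, 5, 14), (5, 8, 0), -112), ((8, 1, 10), (1, 8, 7), 302),
    ((7, 14, 1), (1, 8, 7), -83), ((10, 1, 6), (7, 8, 4), 606), ((12, 5, 3), (7, 8, 4), 69), ((4, 13, 7), (7, 8, 4), -624),
    ((0, 8, 9), (9, 1, 0), -66), ((14, 5, 4), (9, 1, 0), 301), ((0, 5, 9), (9, 2, 0), 6), ((4, 1, 14), (9, 2, 0), 787),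
    ((14, 13, 4), (9, 2, 0), 158), ((6, 14, 4), (3, 9, 0), -421), ((13, 8, 0), (3, 9, 1), 318), ((6, 14, 5), (3, 9, 1), -306),
    ((13, 8, 6), (3, 9, 2), 213), ((8, 13, 11), (3, 9, 2), 169), ((6, 14, 13), (3, 9, 2), -147), ((6, 0, 9), (4, 9, 0), -581),
    ((0, 14, 4), (4, 9, 0), 445), ((3, 4, 14), (4, 9, 0), 581), ((13, 5, 8), (3, 4, 9), 1813), ((14, 0, 6), (3, 4, 9), -1495),
    ((8, 13, 4), (3, 9, 5), 1024), ((13, 8, 7), (3, 9, 5), -80), ((6, 14, 1), (3, 9, 5), -1438), ((6, 14, 3), (3, 9, 6), 180),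
    ((10, 9, 0), (7, 0, 9), -103), ((12, 14, 4), (7, 0, 9), 202), ((0, 8, 10), (9, 1, 7), 233), ((0, 5, 10), (9, 2, 7), 671),
    ((4, 1, 12), (9, 2, 7), -555), ((6, 0, 10), (4, 9, 7), 233), ((3, 4, 12), (4, 9, 7), -479), ((7, 12, 4), (4, 9, 7), 368),
    ((7, 8, 9), (9, 5, 7), 304), ((10, 1, 0), (9, 5, 7), -366), ((0, 2, 10), (9, 5, 7), -3915), ((12, 5, 4), (9, 5, 7), 1304),
    ((4, 13, 12), (9, 5, 7), -2858), ((10, 4, 0), (7, 6, 9), 145), ((12, 0, 4), (7, 6, 9), -178), ((4, 11, 12), (7, 6, 9), -422),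
    ((8, 13, 3), (3, 9, 8), -261), ((11, 9, 7), (3, 10, 0), -177), ((6, 12, 4), (3, 10, 0), 416), ((11, 9, 5), (3, 10, 1), -5731),
    ((6, 12, 5), (3, 10, 1), -117), ((13, 2, 0), (3, 10, 1), 3138), ((2, 13, 4), (3, 10, 1), 2100), ((11, 9, 8), (3, 10, 2), 196),
    ((2, 13, 3), (3, 10, 2), 1915), ((13, 2, 6), (3, 10, 2), 325), ((6, 12, 13), (3, 10, 2), -1255), ((4, 11, 9), (4, 10, 3), -2052),
    ((0, 12, 6), (4, 10, 3), 301), ((7, 6, 12), (4, 10, 3), 842), ((1, 13, 2), (4, 10, 3), -1550), ((5, 2, 13), (4, 10, 3), 624),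
    ((6, 12, 1), (3, 10, 5), -670), ((13, 2, 7), (3, 10, 5), -44), ((6, 12, 3), (3, 10, 6), 57), ((10, 9, 7), (7, 0, 10), 23),
    ((7, 8, 10), (10, 1, 7), -473), ((7, 5, 10), (10, 2, 7), -1263), ((7, 6, 10), (10, 4, 7), -986), ((9, 11, 3), (3, 10, 9), -2252),
    ((13, 2, 8), (3, 10, 9), 960), ((6, 12, 14), (3, 10, 9), 785), ((7, 0, 11), (3, 11, 0), -104), ((5, 1, 11), (3, 11, 1), -339),
    ((8, 2, 11), (3, 11, 2), -176), ((12, 0, 11), (4, 11, 0), 188), ((13, 1, 11), (4, 11, 1), -1084), ((5, 2, 11), (4, 11, 2), -1769),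
    ((11, 13, 0), (0, 5, 11), -1553), ((7, 6, 11), (4, 11, 6), 365), ((11, 13, 6), (6, 8, 11), -685), ((2, 13, 11), (11, 9, 2), -1067),
    ((6, 12, 11), (11, 9, 6), 46), ((10, 11, 9), (11, 10, 3), -1576), ((2, 5, 12), (12, 0, 2), 406), ((13, 1, 10), (12, 0, 2), 381),
    ((10, 4, 13), (12, 0, 2), -1450), ((7, 12, 2), (1, 2, 12), 293), ((5, 13, 10), (1, 2, 12), -854), ((10, 13, 6), (12, 2, 3), -73),
    ((10, 13, 0), (12, 2, 4), -92), ((2, 13, 10), (6, 12, 2), -684), ((3, 10, 13), (6, 12, 2), -80), ((13, 2, 12), (6, 12, 2), 1360),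
    ((13, 1, 9), (12, 0, 8), -243), ((2, 5, 14), (12, 0, 8), 671), ((7, 14, 2), (1, 8, 12), -263), ((10, 9, 13), (2, 8, 12), -299),
    ((12, 14, 2), (2, 8, 12), 264), ((9, 13, 7), (12, 8, 4), -235), ((7, 12, 8), (5, 8, 12), 655), ((4, 9, 13), (5, 8, 12), -500),
    ((5, 13, 9), (5, 8, 12), -3223), ((0, 14, 2), (5, 8, 12), 1516), ((1, 2, 14), (5, 8, 12), 1657), ((2, 13, 9), (6, 12, 8), -458),
    ((11, 9, 13), (6, 12, 8), 601), ((13, 2, 14), (6, 12, 8), 64), ((10, 4, 14), (12, 0, 9), 12), ((14, 5, 10), (9, 1, 12), 358),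
    ((14, 13, 10), (9, 2, 12), 164), ((6, 14, 10), (3, 9, 12), -25), ((7, 12, 9), (4, 9, 12), 479), ((0, 14, 10), (4, 9, 12), -256),
    ((10, 1, 14), (9, 5, 12), -846), ((11, 9, 12), (6, 12, 9), -284), ((3, 10, 14), (6, 12, 9), 619), ((9, 13, 12), (12, 8, 9), 767),
    ((14, 2, 10), (12, 8, 9), 132), ((10, 4, 12), (12, 0, 10), 573), ((12, 5, 10), (10, 1, 12), -606), ((10, 13, 12), (12, 2, 10), -640),
    ((6, 12, 10), (3, 10, 12), 233), ((12, 14, 10), (10, 9, 12), -256), ((9, 13, 6), (12, 8, 11), -172), ((14, 2, 3), (12, 8, 11), 524),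
    ((7, 6, 14), (1, 13, 8), 355), ((14, 2, 4), (9, 13, 0), 503), ((8, 13, 9), (3, 9, 13), 917), ((13, 8, 12), (3, 9, 13), -428),
    ((6, 14, 2), (3, 9, 13), 227), ((5, 8, 14), (0, 14, 8), -563), ((7, 14, 8), (1, 8, 14), 71), ((12, 14, 8), (2, 8, 14), -204),
    ((13, 8, 14), (6, 14, 8), -118), ((4, 9, 14), (0, 14, 9), -213), ((14, 5, 9), (9, 1, 14), 26), ((9, 13, 14), (14, 2, 9), -103),
    ((6, 14, 9), (3, 9, 14), -26), ((12, 14, 9), (10, 9, 14), 161), ((12, 14, 11), (3, 11, 14), -13)]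
  tr := trD
  big := 65536

theorem ct62_valid : validC ct62 = true := by decide +kernel

theorem ct62_const : constOK ct62 11888 = true := by decide +kernel

/-- classes -/
def cs62 : List Cl := [
 cl 1 0 0 0 24232 0 119, cl 1 1 0 1 11227 0 113, cl 2 1 0 1 1 0 85, cl 2 2 0 0 0 1 92,
 cl 1 2 0 0 0 7954 145, cl 0 0 1 1 13872 0 139, cl 0 0 2 0 4592 0 212, cl 1 3 0 1 0 4103 127,
 cl 2 3 0 1 3311 0 92, cl 1 0 1 1 0 1292 102, cl 1 0 2 0 2016 0 104, cl 0 0 3 1 0 2738 128,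
 cl 1 0 0 2 0 0 90, cl 1 2 0 2 0 4108 94, cl 0 0 0 2 0 11450 99, cl 2 0 0 2 0 1108 76,
 cl 2 0 1 1 0 1329 79, cl 1 0 2 2 0 0 85, cl 0 0 2 2 2428 0 98, cl 2 0 0 0 0 1849 84,
 cl 2 2 0 2 1207 0 80, cl 1 4 0 2 0 1069 98, cl 2 4 0 2 103 0 85, cl 2 4 0 0 0 13 103]

theorem ct62_link : linkOK ct62 (cs62.map swp) = true := by decide +kernel

theorem cs62_tail0 : tailOK cs62 20 1 92 11888 = true := by decide +kernel

theorem cs62_grid0 : gridOK vtTree cs62 20 1 92 1 0 15056627915 28191 11888 = true := by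
  decide +kernel

end Pool.Agent.H79.OC
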