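import Pool.Agent.H79.OC.Pts
import Pool.Agent.H79.OC.Pts2
import Pool.Agent.H79.OC.VTab
import Pool.Agent.H79.OC.Swp

set_option autoImplicit false
set_option maxRecDepth 100000

/-!
# Certificates, part 33
-/

namespace Pool.Agent.H79.OC

open Cl

/-! ### Box 63: `8 ≤ 128 x ≤ 14`, `48 ≤ 128 y ≤ 56` -/

/-- certificate -/
def ct63 : Cert where
  pts := ptsE
  g := 22727
  al := [(0, 1198), (1, -1644), (2, 1532), (3, -1491), (4, 354), (5, 3177), (6, 658), (7, 9813), (8, 6883), (9, 1730), (10, -108), (11, 588), (12, 5779), (13, 4186), (14, 9565)]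
  be := [
    (1, 0, 9646), (2, 0, 3271), (2, 1, 1151), (3, 0, 4095), (3, 1, 198), (3, 2, -4716), (4, 0, -7801),
    (4, 1, 343), (4, 2, 2024), (4, 3, 2188), (5, 0, -4627), (5, 1, 1936), (5, 2, 1173), (5, 3, 1381),
    (5, 4, -3138), (6, 0, 4051), (6, 1, 6505), (6, 2, 14), (6, 3, 1049), (6, 4, 1871), (6, 5, 1776),
    (7, 0, -1544), (7, 1, -1881), (7, 2, -2842), (7, 3, 1410), (7, 4, 1699), (7, 5, -4216), (7, 6, -274),
    (8, 0, 303), (8, 1, 1802), (8, 2, 4925), (8, 3, 1681), (8, 4, -2167), (8, 5, -120), (8, 6, -1930),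
    (8, 7, -3999), (9, 0, -295), (9, 1, 771), (9, 2, 109), (9, 3, 876), (9, 4, 721), (9, 5, 38),
    (9, 6, 1232), (9, 7, -921), (9, 8, -880), (10, 0, 4484), (10, 1, 2756), (10, 2, 1985), (10, 3, 4328),
    (10, 4, 1406), (10, 5, 2922), (10, 6, -5042), (10, 7, 340), (10, 8, 1815), (10, 9, -491), (11, 0, -1486),
    (11, 1, -1223), (11, 2, 1123), (11, 3, 353), (11, 4, -1442), (11, 5, -918), (11, 6, 1284), (11, 7, 437),
    (11, 8, 950), (11, 9, -173), (11, 10, 643), (12, 0, 7568), (12, 1, 1935), (12, 2, -7071), (12, 3, -3684),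
    (12, 4, 774), (12, 5, 194), (12, 6, 10362), (12, 7, -2148), (12, 8, -2098), (12, 9, -2002), (12, 10, -520),
    (12, 11, 173), (13, 0, 5237), (13, 1, 23), (13, 2, 3546), (13, 3, 570), (13, 4, -3788), (13, 5, -1325),
    (13, 6, -629), (13, 7, -673), (13, 8, -1115), (13, 9, 23), (13, 10, -1339), (13, 11, -466), (13, 12, 1023),
    (14, 0, 536), (14, 1, 2178), (14, 2, -646), (14, 3, -534), (14, 4, 466), (14, 5, -706), (14, 6, -3362),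
    (14, 7, -503), (14, 8, -1674), (14, 9, -2988), (14, 10, -2894), (14, 11, -96), (14, 12, -4023), (14, 13, -760)]
  ta := [
    ((1, 8, 2), (2, 0, 1), -2714), ((10, 0, 13), (2, 0, 1), -1779), ((13, 3, 10), (2, 0, 1), 28), ((1, 10, 3), (3, 0, 1), -375),
    ((8, 0, 13), (3, 0, 1), 1534), ((13, 2, 8), (3, 0, 1), -3453), ((0, 10, 8), (0, 2, 3), -277), ((1, 8, 10), (0, 2, 3), -128),
    ((13, 3, 2), (0, 2, 3), -154), ((6, 7, 14), (0, 2, 3), 1045), ((12, 14, 7), (0, 2, 3), 1092), ((8, 10, 13), (3, 2, 1), -433),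
    ((4, 5, 2), (2, 0, 4), -34), ((7, 6, 1), (2, 0, 4), -2069), ((1, 8, 7), (2, 0, 4), -789), ((10, 0, 12), (2, 0, 4), -1624),
    ((12, 14, 10), (2, 0, 4), 713), ((2, 7, 1), (1, 4, 2), -313), ((13, 12, 10), (1, 4, 2), 665), ((0, 4, 11), (4, 0, 3), 968),
    ((11, 8, 0), (4, 0, 3), 200), ((12, 0, 8), (4, 0, 3), -1649), ((8, 7, 12), (4, 0, 3), 1728), ((5, 2, 13), (4, 0, 3), -2813),
    ((1, 6, 14), (4, 0, 3), -2721), ((14, 10, 1), (4, 0, 3), -764), ((8, 5, 13), (1, 4, 3), -1083), ((13, 12, 8), (1, 4, 3), 1104),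
    ((3, 14, 1), (1, 4, 3), 220), ((12, 10, 8), (4, 2, 3), -529), ((1, 7, 14), (4, 2, 3), 1201), ((2, 6, 8), (1, 5, 0), 192),
    ((5, 1, 11), (1, 5, 0), -149), ((6, 2, 12), (1, 5, 0), 848), ((13, 14, 0), (1, 5, 0), -3461), ((4, 5, 0), (2, 0, 5), 2717),
    ((1, 8, 6), (2, 0, 5), -1121), ((7, 6, 8), (2, 0, 5), 3550), ((6, 7, 9), (2, 0, 5), -637), ((0, 10, 4), (2, 0, 5), 1692),
    ((8, 1, 11), (2, 0, 5), 752), ((0, 2, 12), (2, 0, 5), -2003), ((10, 0, 14), (2, 0, 5), -1653), ((12, 14, 0), (2, 0, 5), -341),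
    ((2, 6, 1), (1, 5, 2), -522), ((13, 14, 10), (1, 5, 2), 1446), ((11, 1, 10), (5, 0, 3), 347), ((10, 4, 11), (5, 0, 3), -620),
    ((14, 0, 8), (5, 0, 3), -66), ((8, 6, 14), (5, 0, 3), 814), ((13, 14, 8), (1, 5, 3), 352), ((11, 8, 10), (5, 2, 3), -347),
    ((8, 7, 14), (5, 2, 3), 666), ((14, 10, 8), (5, 2, 3), -288), ((2, 0, 6), (5, 4, 1), 2190), ((6, 7, 2), (5, 4, 1), 477),
    ((1, 8, 5), (5, 4, 1), 151), ((13, 3, 14), (5, 4, 1), -1101), ((14, 12, 13), (5, 4, 1), -1338), ((0, 10, 11), (4, 5, 3), 773),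
    ((13, 3, 5), (4, 5, 3), -370), ((1, 8, 14), (4, 5, 3), -1011), ((12, 14, 8), (4, 5, 3), 174), ((7, 2, 13), (6, 0, 3), -1653),
    ((13, 12, 7), (6, 0, 3), -834), ((3, 14, 6), (6, 0, 3), -411), ((8, 7, 13), (1, 6, 3), -170), ((13, 14, 7), (6, 2, 3), -782),
    ((1, 4, 6), (0, 6, 4), -119), ((2, 7, 5), (0, 6, 4), 1558), ((8, 5, 7), (0, 6, 4), 270), ((6, 0, 9), (0, 6, 4), -1468),
    ((12, 9, 0), (0, 6, 4), 19), ((1, 5, 7), (2, 6, 4), 294), ((5, 7, 13), (4, 6, 3), 787), ((8, 5, 6), (0, 6, 5), -660),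
    ((7, 2, 9), (0, 6, 5), -1386), ((12, 9, 2), (0, 6, 5), 1477), ((2, 6, 5), (1, 5, 6), 525), ((6, 2, 9), (1, 5, 6), 682),
    ((7, 6, 5), (4, 5, 6), 651), ((0, 2, 9), (4, 5, 6), -297), ((8, 4, 2), (0, 7, 1), -98), ((3, 12, 10), (0, 7, 1), -1816),
    ((6, 10, 12), (0, 7, 1), 2796), ((6, 7, 0), (2, 0, 7), -2837), ((1, 8, 4), (2, 0, 7), 364), ((5, 4, 8), (2, 0, 7), 1626),
    ((0, 10, 6), (2, 0, 7), -92), ((13, 3, 12), (2, 0, 7), -1237), ((14, 12, 3), (2, 0, 7), 1787), ((12, 14, 9), (2, 0, 7), 723),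
    ((3, 12, 7), (7, 0, 3), 1860), ((3, 14, 7), (7, 2, 3), -2126), ((8, 4, 7), (0, 7, 4), 900), ((6, 10, 9), (0, 7, 4), 747),
    ((14, 9, 10), (0, 7, 4), -377), ((2, 7, 4), (1, 4, 7), -1383), ((12, 9, 10), (1, 4, 7), 1193), ((8, 4, 6), (0, 7, 5), -1756),
    ((7, 0, 9), (0, 7, 5), -184), ((10, 6, 4), (0, 7, 5), -569), ((14, 9, 0), (0, 7, 5), 845), ((7, 6, 4), (4, 5, 7), -107),
    ((10, 0, 9), (4, 5, 7), 522), ((13, 3, 7), (6, 7, 3), -213), ((13, 3, 8), (1, 8, 3), 822), ((8, 10, 3), (3, 2, 8), -1570),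
    ((0, 7, 8), (8, 4, 0), -483), ((10, 6, 1), (8, 4, 0), -879), ((4, 8, 11), (8, 4, 0), 515), ((3, 12, 0), (8, 4, 0), -1477),
    ((7, 0, 12), (8, 4, 0), -2668), ((14, 9, 6), (8, 4, 0), -333), ((6, 10, 14), (8, 4, 0), 4446), ((3, 12, 8), (8, 4, 3), 66),
    ((0, 6, 8), (8, 5, 0), -664), ((1, 4, 10), (8, 5, 0), -489), ((4, 1, 11), (8, 5, 0), 835), ((7, 2, 12), (8, 5, 0), 3000),
    ((12, 9, 7), (8, 5, 0), 220), ((13, 12, 2), (8, 5, 0), -1354), ((3, 14, 0), (8, 5, 0), -642), ((6, 0, 14), (8, 5, 0), -1530),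
    ((3, 14, 8), (8, 5, 3), 12), ((7, 5, 11), (9, 0, 1), -133), ((4, 6, 12), (9, 0, 1), 913), ((4, 6, 9), (9, 0, 4), 264),
    ((12, 9, 4), (1, 4, 9), -529), ((5, 7, 9), (9, 0, 5), 173), ((5, 6, 9), (9, 2, 5), -96), ((7, 8, 11), (9, 6, 1), -1415),
    ((12, 0, 4), (9, 6, 1), 3368), ((11, 1, 7), (9, 7, 1), 271), ((12, 2, 4), (9, 7, 1), -333), ((4, 10, 12), (9, 7, 1), 272),
    ((9, 10, 4), (4, 7, 9), 357), ((6, 4, 11), (9, 0, 8), -368), ((5, 7, 12), (9, 0, 8), 817), ((4, 6, 14), (9, 0, 8), -525),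
    ((7, 6, 11), (1, 8, 9), -63), ((4, 5, 12), (1, 8, 9), 1080), ((12, 14, 4), (1, 8, 9), -549), ((6, 5, 11), (9, 2, 8), 51),
    ((5, 6, 12), (9, 2, 8), -1160), ((14, 9, 4), (8, 4, 9), -52), ((12, 9, 5), (8, 5, 9), 38), ((9, 7, 8), (8, 6, 9), -261),
    ((11, 1, 6), (8, 6, 9), 248), ((6, 8, 11), (8, 6, 9), -1230), ((5, 0, 12), (8, 6, 9), -1214), ((12, 2, 5), (8, 6, 9), 2050),
    ((14, 0, 4), (8, 6, 9), -805), ((4, 10, 14), (8, 6, 9), 480), ((10, 2, 13), (2, 10, 1), 618), ((2, 10, 8), (10, 2, 3), -356),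
    ((10, 2, 12), (2, 10, 4), -675), ((11, 1, 0), (4, 10, 3), 2261), ((0, 5, 11), (4, 10, 3), 1247), ((12, 2, 8), (4, 10, 3), 2947),
    ((8, 6, 12), (4, 10, 3), -2108), ((5, 0, 13), (4, 10, 3), 390), ((14, 0, 1), (4, 10, 3), -5400), ((4, 5, 10), (0, 10, 5), -2074),
    ((0, 2, 14), (0, 10, 5), -2618), ((12, 14, 2), (0, 10, 5), 2903), ((6, 2, 14), (1, 5, 10), 1743), ((13, 14, 2), (1, 5, 10), -1481),
    ((10, 2, 14), (2, 10, 5), -61), ((10, 5, 11), (5, 10, 3), 184), ((14, 2, 8), (5, 10, 3), -142), ((3, 12, 6), (6, 10, 3), 2439),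
    ((7, 0, 13), (6, 10, 3), -1699), ((14, 9, 2), (10, 6, 5), 496), ((6, 7, 10), (0, 10, 7), -279), ((7, 10, 12), (10, 7, 1), -89),
    ((7, 10, 9), (10, 7, 4), 378), ((10, 6, 8), (8, 4, 10), 729), ((3, 12, 2), (8, 4, 10), 1955), ((7, 0, 14), (8, 4, 10), -1791),
    ((14, 9, 7), (8, 4, 10), 1353), ((3, 14, 2), (8, 5, 10), 2101), ((7, 2, 14), (8, 5, 10), -511), ((7, 10, 14), (10, 7, 8), -267),
    ((7, 4, 11), (9, 10, 1), 320), ((4, 7, 12), (9, 10, 1), 194), ((4, 7, 14), (9, 10, 8), 206), ((1, 8, 12), (2, 0, 11), -370),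
    ((13, 3, 4), (2, 0, 11), 1100), ((4, 5, 13), (2, 0, 11), 1687), ((12, 14, 1), (2, 0, 11), -1123), ((12, 2, 1), (11, 1, 2), 630),
    ((4, 10, 13), (11, 1, 2), -727), ((11, 4, 3), (3, 0, 11), 283), ((1, 7, 12), (2, 4, 11), 29), ((12, 10, 1), (2, 4, 11), -549),
    ((4, 2, 13), (2, 4, 11), 725), ((11, 8, 2), (2, 5, 11), -1283), ((12, 0, 1), (2, 5, 11), -4085), ((1, 6, 12), (2, 5, 11), -5663),
    ((4, 0, 13), (2, 5, 11), 11607), ((3, 10, 11), (11, 5, 3), -358), ((8, 5, 12), (0, 6, 11), 806), ((12, 9, 8), (0, 6, 11), 702),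
    ((13, 12, 5), (0, 6, 11), -671), ((1, 4, 14), (0, 6, 11), -913), ((3, 14, 4), (0, 6, 11), -751), ((1, 5, 12), (2, 6, 11), -1378),
    ((13, 14, 4), (2, 6, 11), 1747), ((3, 12, 4), (0, 7, 11), -958), ((8, 4, 12), (0, 7, 11), 289), ((14, 9, 1), (0, 7, 11), 828),
    ((1, 4, 12), (2, 7, 11), -311), ((12, 9, 1), (2, 7, 11), -386), ((13, 12, 4), (2, 7, 11), 1209), ((9, 7, 11), (11, 1, 9), 173),
    ((11, 8, 9), (9, 6, 11), -196), ((3, 12, 5), (10, 6, 11), -570), ((8, 4, 14), (10, 6, 11), -701), ((14, 9, 8), (10, 6, 11), 1400),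
    ((8, 4, 13), (3, 12, 1), -161), ((9, 14, 3), (3, 12, 9), -1257), ((14, 2, 4), (5, 10, 12), 701), ((11, 8, 12), (12, 0, 11), -108),
    ((12, 2, 11), (11, 1, 12), 586), ((12, 7, 11), (11, 4, 12), -356), ((12, 6, 11), (11, 5, 12), -397), ((1, 10, 13), (13, 2, 1), -41),
    ((1, 8, 13), (13, 3, 1), -6), ((13, 12, 1), (1, 4, 13), 6), ((13, 14, 1), (1, 5, 13), -18), ((13, 12, 6), (6, 0, 13), -1317),
    ((13, 14, 6), (6, 2, 13), 563), ((6, 7, 13), (13, 3, 6), 6), ((14, 2, 1), (5, 10, 13), -934), ((11, 5, 13), (13, 0, 11), -47),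
    ((11, 4, 13), (13, 2, 11), 495), ((13, 14, 5), (1, 5, 14), 917), ((5, 10, 14), (14, 2, 5), -1086), ((8, 5, 14), (3, 14, 5), 295),
    ((12, 14, 5), (4, 5, 14), 537), ((11, 1, 14), (14, 0, 11), -48), ((14, 10, 11), (11, 8, 14), -49)]
  tr := trE
  big := 65536

theorem ct63_valid : validC ct63 = true := by decide +kernel

theorem ct63_const : constOK ct63 14034 = true := by decide +kernel

/-- classes -/
def cs63 : List Cl := [
 cl 1 0 0 0 33580 0 119, cl 0 0 1 1 2611 0 193, cl 1 1 0 1 6482 0 121, cl 1 2 0 0 0 13830 134,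
 cl 0 0 0 2 0 15425 137, cl 1 2 0 2 0 6044 114, cl 2 2 0 0 0 543 89, cl 1 0 1 1 0 817 112,
 cl 2 1 0 1 0 1647 86, cl 0 0 2 0 1190 0 423, cl 1 0 0 2 0 1 106, cl 2 2 0 2 3663 0 86,
 cl 2 0 0 0 23 0 84, cl 1 3 0 1 4161 0 135, cl 0 0 2 2 2008 0 136, cl 2 3 0 1 1414 0 91,
 cl 1 1 0 3 2618 0 99, cl 0 0 1 3 1216 0 112, cl 3 3 0 1 526 0 73, cl 2 3 0 3 721 0 84,
 cl 2 4 0 2 38 0 90, cl 2 4 0 0 0 706 95, cl 3 4 0 2 0 173 73, cl 3 2 0 0 0 466 71,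
 cl 3 4 0 0 0 96 74]

theorem ct63_link : linkOK ct63 (cs63.map swp) = true := by decide +kernel

theorem cs63_tail0 : tailOK cs63 8 2 48 14034 = true := by decide +kernel

theorem cs63_grid0 : gridOK vtTree cs63 8 2 48 8 0 7060551055 29503 14034 = true := by
  decide +kernel

theorem cs63_tail1 : tailOK cs63 10 1 49 14034 = true := by decide +kernel

theorem cs63_grid1 : gridOK vtTree cs63 10 1 49 7 0 7060551055 29503 14034 = true := by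
  decide +kernel

theorem cs63_tail2 : tailOK cs63 11 1 51 14034 = true := by decide +kernel

theorem cs63_grid2 : gridOK vtTree cs63 11 1 51 5 0 7060551055 29503 14034 = true := by
  decide +kernel

theorem cs63_tail3 : tailOK cs63 12 1 53 14034 = true := by decide +kernel

theorem cs63_grid3 : gridOK vtTree cs63 12 1 53 3 0 7060551055 29503 14034 = true := by
  decide +kernel

theorem cs63_tail4 : tailOK cs63 13 1 55 14034 = true := by decide +kernel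

theorem cs63_grid4 : gridOK vtTree cs63 13 1 55 1 0 7060551055 29503 14034 = true := by
  decide +kernel

/-! ### Box 64: `20 ≤ 128 x ≤ 24`, `88 ≤ 128 y ≤ 92` -/

/-- certificate -/
def ct64 : Cert where
  pts := ptsD
  g := 16499
  al := [(0, 1091), (1, -663), (2, 5461), (3, 3149), (4, 4845), (5, 3401), (6, -201), (7, 1951), (8, 274), (9, -3240), (10, 2866), (11, -71), (12, 879), (13, 2487), (14, 2911)]
  be := [
    (1, 0, 8189), (2, 0, 2533), (2, 1, 2755), (3, 0, -1590), (3, 1, -982), (3, 2, -269), (4, 0, 791),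
    (4, 1, -4203), (4, 2, 281), (4, 3, -2474), (5, 0, -3649), (5, 1, 218), (5, 2, 716), (5, 3, -1884),
    (5, 4, 5222), (6, 0, 2568), (6, 1, 2364), (6, 2, 7327), (6, 3, -515), (6, 4, 2345), (6, 5, -850),
    (7, 0, 1695), (7, 1, 18), (7, 2, -1630), (7, 3, -332), (7, 4, -886), (7, 5, -11223), (7, 6, 153),
    (8, 0, -1364), (8, 1, -1463), (8, 2, 1039), (8, 4, 215), (8, 5, 284), (8, 6, -1442), (8, 7, -156),
    (9, 0, 2160), (9, 1, 1093), (9, 2, -361), (9, 3, 2498), (9, 4, 3172), (9, 5, 7319), (9, 6, 437),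
    (9, 7, 20), (9, 8, 2486), (10, 0, -117), (10, 1, 558), (10, 2, 5158), (10, 3, -4302), (10, 4, -2788),
    (10, 5, -1784), (10, 6, -1066), (10, 7, -571), (10, 8, 1862), (10, 9, 1975), (11, 0, 2407), (11, 1, -865),
    (11, 2, -2278), (11, 3, 1767), (11, 4, 1739), (11, 5, 916), (11, 6, 502), (11, 7, -962), (11, 8, -1118),
    (11, 9, 423), (11, 10, 1377), (12, 0, -52), (12, 1, 3050), (12, 2, 739), (12, 3, 363), (12, 4, 304),
    (12, 5, -3875), (12, 6, -1503), (12, 7, -893), (12, 8, 632), (12, 9, 372), (12, 10, -438), (12, 11, -240),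
    (13, 0, 3412), (13, 1, 5980), (13, 2, -8883), (13, 3, 3371), (13, 4, -2120), (13, 5, 2638), (13, 6, 1717),
    (13, 7, -330), (13, 8, -104), (13, 9, -252), (13, 10, -1069), (13, 11, 1834), (13, 12, 6708), (14, 0, -259),
    (14, 1, -92), (14, 2, -2328), (14, 3, -988), (14, 4, 545), (14, 5, -1799), (14, 6, -594), (14, 7, -442),
    (14, 8, -735), (14, 9, 220), (14, 10, 70), (14, 11, -329), (14, 12, -1901), (14, 13, -493)]
  ta := [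
    ((4, 2, 6), (3, 1, 0), -5515), ((6, 5, 4), (3, 1, 0), 68), ((11, 5, 7), (3, 1, 0), 8189), ((0, 13, 3), (3, 1, 0), -2958),
    ((7, 8, 11), (0, 2, 3), 634), ((4, 13, 6), (0, 2, 3), -705), ((3, 4, 2), (2, 1, 3), 353), ((8, 5, 11), (2, 1, 3), 1580),
    ((6, 0, 13), (2, 1, 3), -1048), ((13, 5, 6), (2, 1, 3), -1113), ((0, 5, 4), (4, 1, 0), 1117), ((9, 2, 6), (4, 1, 0), 867),
    ((6, 8, 9), (4, 1, 0), -878), ((11, 13, 12), (4, 1, 0), 1178), ((14, 13, 3), (4, 1, 0), 693), ((9, 5, 6), (0, 2, 4), 302),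
    ((12, 5, 11), (0, 2, 4), 3183), ((4, 13, 0), (0, 2, 4), -177), ((14, 1, 3), (0, 2, 4), 632), ((3, 4, 1), (2, 1, 4), 684),
    ((6, 0, 5), (2, 1, 4), 186), ((5, 8, 6), (2, 1, 4), 979), ((4, 9, 2), (2, 1, 4), -931), ((13, 5, 0), (2, 1, 4), -1415),
    ((5, 13, 11), (2, 1, 4), -2308), ((0, 14, 13), (2, 1, 4), 244), ((6, 0, 4), (3, 4, 0), -1831), ((4, 9, 6), (3, 4, 0), 174),
    ((7, 12, 11), (3, 4, 0), 652), ((0, 14, 3), (3, 4, 0), 331), ((5, 1, 4), (1, 5, 0), 3536), ((7, 0, 5), (1, 5, 0), -2334),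
    ((2, 8, 6), (1, 5, 0), 707), ((8, 2, 9), (1, 5, 0), 388), ((10, 9, 2), (1, 5, 0), 40), ((3, 11, 13), (1, 5, 0), -811),
    ((12, 14, 13), (1, 5, 0), 1118), ((7, 6, 8), (2, 5, 0), 193), ((5, 2, 9), (2, 5, 0), -3626), ((10, 4, 1), (2, 5, 0), 1165),
    ((12, 0, 5), (2, 5, 0), 353), ((13, 1, 4), (2, 5, 0), 1830), ((4, 11, 13), (2, 5, 0), -15), ((1, 13, 14), (2, 5, 0), 333),
    ((7, 6, 0), (5, 2, 1), -1079), ((2, 5, 8), (5, 2, 1), 2027), ((10, 4, 9), (5, 2, 1), 827), ((11, 4, 3), (5, 2, 1), -1113),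
    ((0, 12, 7), (5, 2, 1), -1015), ((1, 13, 5), (5, 2, 1), -1491), ((12, 0, 14), (5, 2, 1), -148), ((4, 1, 6), (0, 5, 3), -1130),
    ((6, 8, 4), (0, 5, 3), -248), ((11, 13, 7), (0, 5, 3), 245), ((1, 5, 6), (5, 1, 3), 505), ((8, 2, 4), (5, 1, 3), -679),
    ((3, 11, 5), (5, 1, 3), -41), ((7, 0, 13), (5, 1, 3), 466), ((4, 11, 8), (5, 2, 3), -173), ((1, 13, 6), (5, 2, 3), 1154),
    ((7, 6, 13), (5, 2, 3), -224), ((6, 0, 1), (3, 4, 5), -1806), ((1, 2, 6), (3, 4, 5), -2631), ((8, 5, 4), (3, 4, 5), 1209),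
    ((4, 9, 8), (3, 4, 5), -951), ((5, 13, 3), (3, 4, 5), -1067), ((13, 5, 7), (3, 4, 5), 3898), ((7, 12, 13), (3, 4, 5), -491),
    ((3, 4, 6), (6, 0, 3), 515), ((6, 5, 3), (3, 1, 6), -241), ((3, 13, 6), (6, 2, 3), 1170), ((1, 5, 7), (7, 0, 1), 3127),
    ((8, 2, 10), (7, 0, 1), -2011), ((10, 9, 8), (7, 0, 1), -1292), ((2, 8, 7), (7, 0, 2), 18), ((5, 1, 10), (7, 0, 2), -458),
    ((10, 9, 5), (7, 0, 2), 200), ((1, 5, 12), (7, 0, 2), -74), ((12, 14, 1), (7, 0, 2), -666), ((8, 5, 10), (1, 2, 7), -1055),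
    ((7, 12, 1), (1, 2, 7), -410), ((3, 11, 7), (7, 0, 3), 378), ((10, 9, 6), (7, 0, 4), 260), ((3, 11, 12), (7, 0, 4), -36),
    ((12, 14, 3), (7, 0, 4), -32), ((6, 8, 10), (4, 1, 7), 415), ((6, 5, 10), (4, 2, 7), 282), ((3, 1, 12), (4, 2, 7), -321),
    ((7, 12, 3), (3, 4, 7), -271), ((7, 6, 2), (2, 5, 7), 180), ((5, 2, 10), (2, 5, 7), -1749), ((10, 4, 5), (2, 5, 7), 2100),
    ((12, 0, 1), (2, 5, 7), -1090), ((1, 13, 12), (2, 5, 7), -4410), ((3, 13, 7), (7, 5, 3), 190), ((10, 2, 6), (4, 5, 7), -5029),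
    ((3, 13, 12), (4, 5, 7), -5271), ((10, 4, 8), (7, 6, 1), -816), ((1, 13, 7), (7, 6, 1), 1225), ((10, 4, 6), (7, 6, 4), 74),
    ((4, 11, 7), (7, 6, 4), 170), ((12, 0, 3), (7, 6, 4), -32), ((8, 1, 9), (1, 8, 0), -54), ((7, 14, 5), (1, 8, 0), -733),
    ((7, 0, 8), (2, 8, 0), -95), ((5, 1, 9), (2, 8, 0), -2382), ((10, 9, 1), (2, 8, 0), -583), ((1, 5, 14), (2, 8, 0), 760),
    ((12, 14, 5), (2, 8, 0), 1687), ((8, 5, 1), (1, 2, 8), -379), ((14, 0, 7), (1, 2, 8), -222), ((7, 12, 14), (1, 2, 8), 683),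
    ((3, 11, 8), (8, 2, 3), 916), ((9, 1, 6), (0, 8, 4), -657), ((14, 5, 3), (0, 8, 4), -48), ((1, 8, 6), (8, 1, 4), 457),
    ((7, 14, 13), (8, 1, 4), -204), ((8, 5, 3), (3, 4, 8), -649), ((6, 0, 8), (5, 8, 0), -3), ((2, 1, 9), (5, 8, 0), 89),
    ((4, 9, 1), (5, 8, 0), 5), ((0, 14, 5), (5, 8, 0), 453), ((13, 5, 14), (5, 8, 0), -359), ((8, 1, 10), (1, 8, 7), 67),
    ((7, 14, 1), (1, 8, 7), 143), ((10, 1, 6), (7, 8, 4), -175), ((12, 5, 3), (7, 8, 4), 569), ((4, 13, 7), (7, 8, 4), -451),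
    ((0, 8, 9), (9, 1, 0), -444), ((14, 5, 4), (9, 1, 0), -332), ((0, 5, 9), (9, 2, 0), 597), ((4, 1, 14), (9, 2, 0), 300),
    ((14, 13, 4), (9, 2, 0), -667), ((6, 14, 4), (3, 9, 0), -19), ((13, 8, 0), (3, 9, 1), 423), ((6, 14, 5), (3, 9, 1), 225),
    ((13, 8, 6), (3, 9, 2), 408), ((8, 13, 11), (3, 9, 2), -124), ((6, 14, 13), (3, 9, 2), 323), ((6, 0, 9), (4, 9, 0), 60),
    ((0, 14, 4), (4, 9, 0), 516), ((3, 4, 14), (4, 9, 0), 264), ((13, 5, 8), (3, 4, 9), 1586), ((14, 0, 6), (3, 4, 9), -1401),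
    ((8, 13, 4), (3, 9, 5), 992), ((13, 8, 7), (3, 9, 5), -234), ((6, 14, 1), (3, 9, 5), -870), ((6, 14, 3), (3, 9, 6), 59),
    ((10, 9, 0), (7, 0, 9), -612), ((12, 14, 4), (7, 0, 9), 605), ((0, 8, 10), (9, 1, 7), -46), ((0, 5, 10), (9, 2, 7), 889),
    ((4, 1, 12), (9, 2, 7), -593), ((6, 0, 10), (4, 9, 7), 239), ((3, 4, 12), (4, 9, 7), -693), ((7, 12, 4), (4, 9, 7), 399),
    ((7, 8, 9), (9, 5, 7), 60), ((10, 1, 0), (9, 5, 7), -1589), ((0, 2, 10), (9, 5, 7), -4132), ((12, 5, 4), (9, 5, 7), 2371),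
    ((4, 13, 12), (9, 5, 7), -1914), ((10, 4, 0), (7, 6, 9), -195), ((12, 0, 4), (7, 6, 9), 542), ((4, 11, 12), (7, 6, 9), -797),
    ((8, 13, 3), (3, 9, 8), 52), ((11, 9, 7), (3, 10, 0), -288), ((6, 12, 4), (3, 10, 0), 291), ((11, 9, 5), (3, 10, 1), -6483),
    ((6, 12, 5), (3, 10, 1), 17), ((13, 2, 0), (3, 10, 1), 2116), ((2, 13, 4), (3, 10, 1), 4257), ((11, 9, 8), (3, 10, 2), 3),
    ((2, 13, 3), (3, 10, 2), 2429), ((13, 2, 6), (3, 10, 2), -365), ((6, 12, 13), (3, 10, 2), -1595), ((4, 11, 9), (4, 10, 3), -2139),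
    ((0, 12, 6), (4, 10, 3), 770), ((7, 6, 12), (4, 10, 3), 24), ((1, 13, 2), (4, 10, 3), -3154), ((5, 2, 13), (4, 10, 3), 1341),
    ((6, 12, 1), (3, 10, 5), -1391), ((13, 2, 7), (3, 10, 5), 222), ((6, 12, 3), (3, 10, 6), 114), ((10, 9, 7), (7, 0, 10), 47),
    ((7, 8, 10), (10, 1, 7), -230), ((7, 5, 10), (10, 2, 7), -635), ((7, 6, 10), (10, 4, 7), -378), ((9, 11, 3), (3, 10, 9), -2864),
    ((13, 2, 8), (3, 10, 9), 764), ((6, 12, 14), (3, 10, 9), 800), ((7, 0, 11), (3, 11, 0), -308), ((5, 1, 11), (3, 11, 1), 421),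
    ((8, 2, 11), (3, 11, 2), 396), ((12, 0, 11), (4, 11, 0), 572), ((13, 1, 11), (4, 11, 1), -2143), ((5, 2, 11), (4, 11, 2), -1417),
    ((11, 13, 0), (0, 5, 11), -2159), ((7, 6, 11), (4, 11, 6), 416), ((11, 13, 6), (6, 8, 11), -1305), ((2, 13, 11), (11, 9, 2), -1560),
    ((6, 12, 11), (11, 9, 6), 233), ((10, 11, 9), (11, 10, 3), -2179), ((2, 5, 12), (12, 0, 2), -9), ((13, 1, 10), (12, 0, 2), -378),
    ((10, 4, 13), (12, 0, 2), 753), ((7, 12, 2), (1, 2, 12), 155), ((5, 13, 10), (1, 2, 12), -134), ((10, 13, 6), (12, 2, 3), 70),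
    ((10, 13, 0), (12, 2, 4), 63), ((2, 13, 10), (6, 12, 2), 1375), ((3, 10, 13), (6, 12, 2), -695), ((13, 2, 12), (6, 12, 2), -237),
    ((13, 1, 9), (12, 0, 8), -692), ((2, 5, 14), (12, 0, 8), 1173), ((7, 14, 2), (1, 8, 12), -147), ((10, 9, 13), (2, 8, 12), 86),
    ((12, 14, 2), (2, 8, 12), 542), ((9, 13, 7), (12, 8, 4), -235), ((7, 12, 8), (5, 8, 12), 720), ((4, 9, 13), (5, 8, 12), -27),
    ((5, 13, 9), (5, 8, 12), -1973), ((0, 14, 2), (5, 8, 12), 1151), ((1, 2, 14), (5, 8, 12), 504), ((2, 13, 9), (6, 12, 8), -713),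
    ((11, 9, 13), (6, 12, 8), 905), ((13, 2, 14), (6, 12, 8), -152), ((10, 4, 14), (12, 0, 9), -576), ((14, 5, 10), (9, 1, 12), 326),
    ((14, 13, 10), (9, 2, 12), 168), ((6, 14, 10), (3, 9, 12), 91), ((7, 12, 9), (4, 9, 12), 478), ((0, 14, 10), (4, 9, 12), -345),
    ((10, 1, 14), (9, 5, 12), -1100), ((11, 9, 12), (6, 12, 9), -518), ((3, 10, 14), (6, 12, 9), 414), ((9, 13, 12), (12, 8, 9), 1113),
    ((14, 2, 10), (12, 8, 9), 88), ((10, 4, 12), (12, 0, 10), 199), ((12, 5, 10), (10, 1, 12), 152), ((10, 13, 12), (12, 2, 10), -657),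
    ((6, 12, 10), (3, 10, 12), 321), ((12, 14, 10), (10, 9, 12), -233), ((9, 13, 6), (12, 8, 11), -257), ((14, 2, 3), (12, 8, 11), 318),
    ((7, 6, 14), (1, 13, 8), 253), ((14, 2, 4), (9, 13, 0), 55), ((8, 13, 9), (3, 9, 13), 201), ((13, 8, 12), (3, 9, 13), -383),
    ((6, 14, 2), (3, 9, 13), 641), ((5, 8, 14), (0, 14, 8), -51), ((7, 14, 8), (1, 8, 14), -441), ((12, 14, 8), (2, 8, 14), -126),
    ((13, 8, 14), (6, 14, 8), -240), ((4, 9, 14), (0, 14, 9), -609), ((14, 5, 9), (9, 1, 14), -253), ((9, 13, 14), (14, 2, 9), 103),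
    ((6, 14, 9), (3, 9, 14), -18), ((12, 14, 9), (10, 9, 14), 203), ((12, 14, 11), (3, 11, 14), -117)]
  tr := trD
  big := 65536

theorem ct64_valid : validC ct64 = true := by decide +kernel

theorem ct64_const : constOK ct64 11977 = true := by decide +kernel

/-- classes -/
def cs64 : List Cl := [
 cl 1 0 0 0 27238 0 119, cl 1 1 0 1 6944 0 115, cl 2 1 0 1 0 0 86, cl 2 2 0 0 0 0 93,
 cl 1 2 0 0 0 8314 150, cl 0 0 1 1 13539 0 142, cl 0 0 2 0 4793 0 212, cl 1 3 0 1 0 2935 132,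
 cl 2 3 0 1 5112 0 94, cl 1 0 1 1 1 0 103, cl 1 0 2 0 1880 0 104, cl 0 0 3 1 0 1905 130,
 cl 1 0 0 2 0 0 91, cl 1 2 0 2 0 4226 97, cl 0 0 0 2 0 14265 101, cl 2 0 0 2 0 953 76,
 cl 2 0 1 1 0 903 79, cl 1 0 2 2 0 0 86, cl 0 0 2 2 3177 0 100, cl 2 0 0 0 0 1589 84,
 cl 2 2 0 2 944 0 82, cl 1 4 0 2 0 735 101, cl 2 4 0 2 220 0 87, cl 2 4 0 0 0 329 106]

theorem ct64_link : linkOK ct64 (cs64.map swp) = true := by decide +kernel

theorem cs64_tail0 : tailOK cs64 20 2 88 11977 = true := by decide +kernel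

theorem cs64_grid0 : gridOK vtTree cs64 20 2 88 4 0 16766531402 28391 11977 = true := by
  decide +kernel

theorem cs64_tail1 : tailOK cs64 22 1 88 11977 = true := by decide +kernel

theorem cs64_grid1 : gridOK vtTree cs64 22 1 88 3 0 16766531402 28391 11977 = true := by
  decide +kernel

theorem cs64_tail2 : tailOK cs64 23 1 88 11977 = true := by decide +kernel

theorem cs64_grid2 : gridOK vtTree cs64 23 1 88 1 0 16766531402 28391 11977 = true := by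
  decide +kernel

end Pool.Agent.H79.OC
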