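import Pool.Agent.H79.OC.Pts
import Pool.Agent.H79.OC.Pts2
import Pool.Agent.H79.OC.VTab
import Pool.Agent.H79.OC.Swp

set_option autoImplicit false
set_option maxRecDepth 100000

/-!
# Certificates, part 34
-/

namespace Pool.Agent.H79.OC

open Cl

/-! ### Box 65: `8 ≤ 128 x ≤ 12`, `96 ≤ 128 y ≤ 100` -/

/-- certificate -/
def ct65 : Cert where
  pts := pts14
  g := 28180
  al := [(0, 4325), (1, -635), (2, -635), (3, 13086), (4, 9425), (5, 10666), (6, 10666), (7, 736), (8, 14673), (9, 1598), (10, 1598), (11, 1509), (12, -1314), (13, -1314)]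
  be := [
    (1, 0, 1988), (2, 0, 1988), (2, 1, 1813), (3, 0, -2361), (3, 1, 2395), (3, 2, 2395), (4, 0, -168),
    (4, 1, 4939), (4, 2, 4939), (4, 3, -10661), (5, 0, -2243), (5, 1, 7931), (5, 2, -1768), (5, 3, -1181),
    (5, 4, 302), (6, 0, -2243), (6, 1, -1768), (6, 2, 7931), (6, 3, -1181), (6, 4, 302), (6, 5, -8517),
    (7, 0, -667), (7, 1, 2093), (7, 2, 2093), (7, 3, 6812), (7, 4, 3517), (7, 5, -970), (7, 6, -970),
    (8, 0, -1471), (8, 1, -1047), (8, 2, -1047), (8, 3, -4115), (8, 4, 386), (8, 5, -5661), (8, 6, -5661),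
    (8, 7, -8541), (9, 0, -746), (9, 1, 453), (9, 2, -1166), (9, 3, -702), (9, 4, 409), (9, 5, 2664),
    (9, 6, -188), (9, 7, 2615), (9, 8, 8), (10, 0, -746), (10, 1, -1166), (10, 2, 453), (10, 3, -702),
    (10, 4, 409), (10, 5, -188), (10, 6, 2664), (10, 7, 2615), (10, 8, 8), (10, 9, -52), (11, 0, -95),
    (11, 1, 123), (11, 2, 123), (11, 3, -756), (11, 4, 504), (11, 5, -1529), (11, 6, -1529), (11, 7, 537),
    (11, 8, -183), (11, 9, 813), (11, 10, 813), (12, 0, 639), (12, 1, -286), (12, 2, 624), (12, 3, -689),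
    (12, 4, -2393), (12, 5, -1237), (12, 6, 1331), (12, 7, 3046), (12, 8, 18), (12, 9, -115), (12, 10, -314),
    (12, 11, 204), (13, 0, 639), (13, 1, 624), (13, 2, -286), (13, 3, -689), (13, 4, -2393), (13, 5, 1331),
    (13, 6, -1237), (13, 7, 3046), (13, 8, 18), (13, 9, -314), (13, 10, -115), (13, 11, 204), (13, 12, -1520)]
  ta := [
    ((3, 2, 1), (0, 1, 2), -1357), ((4, 5, 6), (0, 1, 2), 762), ((7, 6, 5), (0, 1, 2), -106), ((8, 9, 10), (0, 1, 2), 238),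
    ((11, 10, 9), (0, 1, 2), -454), ((5, 4, 12), (0, 1, 2), 775), ((6, 13, 4), (0, 1, 2), 775), ((3, 2, 0), (0, 1, 3), -342),
    ((4, 5, 7), (0, 1, 3), 1078), ((7, 6, 4), (0, 1, 3), 1078), ((8, 9, 11), (0, 1, 3), -736), ((11, 10, 8), (0, 1, 3), -736),
    ((6, 5, 3), (1, 2, 4), 1467), ((5, 6, 8), (1, 2, 4), 2670), ((10, 9, 7), (1, 2, 4), -386), ((4, 12, 1), (1, 2, 4), -871),
    ((13, 4, 2), (1, 2, 4), -871), ((7, 4, 3), (0, 3, 4), -1635), ((4, 7, 8), (0, 3, 4), -1530), ((11, 8, 7), (0, 3, 4), 508),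
    ((6, 4, 3), (1, 3, 4), 1320), ((5, 7, 8), (1, 3, 4), 1006), ((10, 8, 7), (1, 3, 4), -1435), ((5, 4, 3), (2, 3, 4), 1320),
    ((6, 7, 8), (2, 3, 4), 1006), ((9, 8, 7), (2, 3, 4), -1435), ((5, 4, 0), (0, 1, 5), -1918), ((2, 3, 7), (0, 1, 5), -2689),
    ((7, 6, 2), (0, 1, 5), 2876), ((4, 5, 9), (0, 1, 5), -181), ((9, 8, 4), (0, 1, 5), -544), ((6, 7, 11), (0, 1, 5), -270),
    ((11, 10, 6), (0, 1, 5), -717), ((13, 6, 10), (0, 1, 5), 6185), ((7, 5, 2), (0, 2, 5), -345), ((4, 6, 9), (0, 2, 5), -606),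
    ((11, 9, 6), (0, 2, 5), 227), ((5, 12, 0), (0, 2, 5), -542), ((10, 8, 13), (0, 2, 5), 856), ((6, 5, 2), (1, 2, 5), -2392),
    ((5, 6, 9), (1, 2, 5), -3182), ((10, 9, 6), (1, 2, 5), 68), ((4, 12, 0), (1, 2, 5), 1921), ((4, 13, 8), (1, 2, 5), 2931),
    ((7, 4, 2), (0, 3, 5), -35), ((4, 7, 9), (0, 3, 5), -675), ((11, 8, 6), (0, 3, 5), -11), ((5, 4, 2), (2, 3, 5), -1358),
    ((6, 7, 9), (2, 3, 5), -1741), ((9, 8, 6), (2, 3, 5), -513), ((0, 1, 12), (2, 3, 5), -1651), ((13, 6, 8), (2, 3, 5), 6077),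
    ((7, 6, 1), (0, 1, 6), -345), ((4, 5, 10), (0, 1, 6), -606), ((11, 10, 5), (0, 1, 6), 227), ((9, 8, 12), (0, 1, 6), 856),
    ((6, 13, 0), (0, 1, 6), -542), ((6, 4, 0), (0, 2, 6), -1918), ((1, 3, 7), (0, 2, 6), -2689), ((7, 5, 1), (0, 2, 6), 2876),
    ((4, 6, 10), (0, 2, 6), -181), ((10, 8, 4), (0, 2, 6), -544), ((5, 7, 11), (0, 2, 6), -270), ((11, 9, 5), (0, 2, 6), -717),
    ((12, 5, 9), (0, 2, 6), 6185), ((6, 5, 1), (1, 2, 6), -2392), ((5, 6, 10), (1, 2, 6), -3182), ((10, 9, 5), (1, 2, 6), 68),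
    ((12, 4, 8), (1, 2, 6), 2931), ((13, 4, 0), (1, 2, 6), 1921), ((7, 4, 1), (0, 3, 6), -35), ((4, 7, 10), (0, 3, 6), -675),
    ((11, 8, 5), (0, 3, 6), -11), ((6, 4, 1), (1, 3, 6), -1358), ((5, 7, 10), (1, 3, 6), -1741), ((10, 8, 5), (1, 3, 6), -513),
    ((12, 5, 8), (1, 3, 6), 6077), ((0, 2, 13), (1, 3, 6), -1651), ((1, 2, 7), (6, 5, 0), -1972), ((10, 9, 4), (6, 5, 0), -170),
    ((5, 6, 11), (6, 5, 0), 1289), ((12, 4, 9), (6, 5, 0), -223), ((4, 13, 10), (6, 5, 0), -223), ((7, 6, 0), (0, 1, 7), 353),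
    ((4, 5, 11), (0, 1, 7), -391), ((11, 10, 4), (0, 1, 7), -31), ((7, 5, 0), (0, 2, 7), 353), ((4, 6, 11), (0, 2, 7), -391),
    ((11, 9, 4), (0, 2, 7), -31), ((7, 4, 0), (0, 3, 7), -237), ((4, 7, 11), (0, 3, 7), 513), ((11, 8, 4), (0, 3, 7), -828),
    ((9, 8, 1), (0, 1, 8), -173), ((2, 3, 10), (0, 1, 8), 91), ((11, 10, 3), (0, 1, 8), -27), ((1, 3, 9), (0, 2, 8), 91),
    ((10, 8, 2), (0, 2, 8), -173), ((11, 9, 3), (0, 2, 8), -27), ((10, 9, 3), (1, 2, 8), 691), ((11, 8, 3), (0, 3, 8), 452),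
    ((10, 8, 3), (1, 3, 8), 543), ((9, 8, 3), (2, 3, 8), 543), ((1, 5, 9), (0, 4, 8), 3140), ((2, 6, 10), (0, 4, 8), 3140),
    ((3, 7, 11), (0, 4, 8), -1603), ((8, 5, 1), (1, 4, 8), 1452), ((3, 6, 10), (1, 4, 8), 997), ((10, 7, 3), (1, 4, 8), -1303),
    ((8, 6, 2), (2, 4, 8), 1452), ((3, 5, 9), (2, 4, 8), 997), ((9, 7, 3), (2, 4, 8), -1303), ((8, 7, 3), (3, 4, 8), -118),
    ((1, 4, 9), (8, 5, 0), -547), ((10, 7, 2), (8, 5, 0), -411), ((3, 6, 11), (8, 5, 0), 404), ((2, 13, 10), (8, 5, 0), -168),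
    ((9, 6, 3), (2, 5, 8), -623), ((8, 13, 2), (2, 5, 8), 716), ((9, 7, 1), (8, 6, 0), -411), ((2, 4, 10), (8, 6, 0), -547),
    ((3, 5, 11), (8, 6, 0), 404), ((1, 12, 9), (8, 6, 0), -168), ((3, 5, 10), (8, 6, 1), -623), ((1, 12, 8), (8, 6, 1), 716),
    ((3, 4, 11), (8, 7, 0), 196), ((3, 4, 10), (8, 7, 1), -288), ((3, 4, 9), (8, 7, 2), -288), ((9, 8, 0), (0, 1, 9), 400),
    ((2, 3, 11), (0, 1, 9), 60), ((11, 10, 2), (0, 1, 9), -263), ((11, 9, 2), (0, 2, 9), -94), ((10, 9, 2), (1, 2, 9), -75),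
    ((11, 8, 2), (0, 3, 9), -151), ((9, 8, 2), (2, 3, 9), 81), ((9, 5, 0), (0, 4, 9), 388), ((2, 6, 11), (0, 4, 9), 96),
    ((11, 7, 2), (0, 4, 9), -259), ((9, 7, 2), (2, 4, 9), -53), ((9, 6, 2), (2, 5, 9), -48), ((2, 5, 11), (9, 6, 0), 135),
    ((0, 12, 9), (9, 6, 0), -722), ((2, 5, 10), (9, 6, 1), -376), ((0, 12, 8), (9, 6, 1), 376), ((8, 13, 0), (9, 6, 1), 376),
    ((2, 4, 11), (9, 7, 0), -378), ((11, 10, 1), (0, 1, 10), -94), ((10, 8, 0), (0, 2, 10), 400), ((1, 3, 11), (0, 2, 10), 60),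
    ((11, 9, 1), (0, 2, 10), -263), ((10, 9, 1), (1, 2, 10), -75), ((11, 8, 1), (0, 3, 10), -151), ((10, 8, 1), (1, 3, 10), 81),
    ((10, 6, 0), (0, 4, 10), 388), ((1, 5, 11), (0, 4, 10), 96), ((11, 7, 1), (0, 4, 10), -259), ((10, 7, 1), (1, 4, 10), -53),
    ((11, 6, 1), (0, 5, 10), 135), ((10, 13, 0), (0, 5, 10), -722), ((10, 6, 1), (1, 5, 10), 48), ((1, 4, 11), (10, 7, 0), -378),
    ((1, 2, 11), (10, 9, 0), 76), ((11, 10, 0), (0, 1, 11), -14), ((11, 9, 0), (0, 2, 11), -14), ((11, 8, 0), (0, 3, 11), 31),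
    ((11, 7, 0), (0, 4, 11), 40), ((5, 12, 2), (0, 2, 12), 1107), ((4, 12, 2), (1, 2, 12), -598), ((5, 12, 3), (1, 3, 12), -2147),
    ((12, 6, 9), (6, 12, 0), 149), ((12, 6, 8), (6, 12, 1), -969), ((6, 5, 12), (12, 4, 6), 125), ((12, 7, 9), (7, 12, 1), 523),
    ((10, 9, 12), (12, 4, 10), -573), ((10, 8, 12), (12, 5, 10), 269), ((11, 9, 12), (12, 5, 11), 177), ((6, 13, 1), (0, 1, 13), 1107),
    ((13, 4, 1), (1, 2, 13), -598), ((6, 13, 3), (2, 3, 13), -2147), ((5, 13, 10), (13, 5, 0), 149), ((5, 13, 8), (13, 5, 2), -969),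
    ((6, 13, 5), (4, 5, 13), 125), ((13, 7, 10), (7, 13, 2), 523), ((10, 9, 13), (4, 13, 9), -573), ((9, 8, 13), (13, 6, 9), 269),
    ((11, 10, 13), (13, 6, 11), 177), ((12, 13, 8), (13, 12, 0), -633)]
  tr := tr14
  big := 32768

theorem ct65_valid : validC ct65 = true := by decide +kernel

theorem ct65_const : constOK ct65 11229 = true := by decide +kernel

/-- classes -/
def cs65 : List Cl := [
 cl 0 0 1 1 6598 0 137, cl 0 0 2 0 973 0 423, cl 1 0 0 0 28757 0 119, cl 1 0 1 1 0 2770 104,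
 cl 1 0 2 0 0 163 112, cl 2 0 0 0 0 1321 84, cl 2 0 1 1 0 1246 80, cl 2 0 2 0 0 95 82,
 cl 1 0 0 2 0 2598 89, cl 0 0 0 2 0 11542 97, cl 1 1 0 1 852 0 110, cl 2 1 0 1 0 3498 83,
 cl 2 0 0 2 0 2332 75, cl 1 1 0 3 1248 0 77, cl 1 2 0 0 0 19202 132, cl 2 2 0 0 0 4115 88,
 cl 1 2 0 2 0 1378 91, cl 0 0 1 3 2662 0 79, cl 0 0 2 2 6092 0 97, cl 1 0 1 3 0 628 76,
 cl 1 0 2 2 408 0 87, cl 0 0 0 4 0 1520 69]

theorem ct65_link : linkOK ct65 (cs65.map swp) = true := by decide +kernel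

theorem cs65_tail0 : tailOK cs65 8 4 96 11229 = true := by decide +kernel

theorem cs65_grid0 : gridOK vtTree cs65 8 4 96 4 16470009350 0 26671 11229 = true := by
  decide +kernel

/-! ### Box 66: `12 ≤ 128 x ≤ 15`, `100 ≤ 128 y ≤ 103` -/

/-- certificate -/
def ct66 : Cert where
  pts := ptsD
  g := 17572
  al := [(0, 4419), (1, 2413), (2, 1887), (3, 2774), (4, 6595), (5, -2166), (6, 1415), (7, 2542), (8, 2147), (9, -2324), (10, 4630), (11, -3191), (12, -344), (13, 5473), (14, 3935)]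
  be := [
    (1, 0, 6376), (2, 0, 1692), (2, 1, 3862), (3, 0, -66), (3, 1, -2094), (3, 2, 2169), (4, 0, -1466),
    (4, 1, -4404), (4, 2, 3820), (4, 3, -2335), (5, 0, -3602), (5, 1, 2571), (5, 2, 6099), (5, 3, -2058),
    (5, 4, 5563), (6, 0, 521), (6, 1, 3113), (6, 2, 6539), (6, 3, -434), (6, 4, 339), (6, 5, 602),
    (7, 0, -1793), (7, 1, 179), (7, 2, -1055), (7, 3, -490), (7, 4, -1042), (7, 5, -7530), (7, 6, -257),
    (8, 0, -1550), (8, 1, -3125), (8, 2, 1818), (8, 4, 405), (8, 5, 1848), (8, 6, -1415), (8, 7, 926),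
    (9, 0, 1497), (9, 1, -563), (9, 2, -667), (9, 3, 1606), (9, 4, 1593), (9, 5, 7409), (9, 6, 926),
    (9, 7, 316), (9, 8, -59), (10, 0, -379), (10, 1, -1114), (10, 2, 7586), (10, 3, -3621), (10, 4, -3312),
    (10, 5, -2469), (10, 6, -1108), (10, 7, -722), (10, 8, 140), (10, 9, 687), (11, 0, 2012), (11, 1, -136),
    (11, 2, -1625), (11, 3, 1546), (11, 4, 1920), (11, 5, 1611), (11, 6, 1041), (11, 7, -47), (11, 8, -955),
    (11, 9, 1597), (11, 10, 1586), (12, 0, -243), (12, 1, 3195), (12, 2, 804), (12, 3, 292), (12, 4, -303),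
    (12, 5, -1500), (12, 6, -1289), (12, 7, -1375), (12, 8, 1360), (12, 9, 2080), (12, 10, -398), (12, 11, 1372),
    (13, 0, 952), (13, 1, 1374), (13, 2, -9391), (13, 3, 2554), (13, 4, -2023), (13, 5, 3364), (13, 6, -782),
    (13, 7, -1132), (13, 8, -157), (13, 9, -354), (13, 10, -1236), (13, 11, 1208), (13, 12, 5045), (14, 0, -865),
    (14, 1, -865), (14, 2, -3324), (14, 3, -832), (14, 4, -164), (14, 5, -1389), (14, 6, 245), (14, 7, -133),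
    (14, 8, -1556), (14, 9, 273), (14, 10, -1211), (14, 11, -76), (14, 12, -823), (14, 13, -1087)]
  ta := [
    ((4, 2, 6), (3, 1, 0), -4221), ((6, 5, 4), (3, 1, 0), -379), ((11, 5, 7), (3, 1, 0), 8281), ((0, 13, 3), (3, 1, 0), -3424),
    ((7, 8, 11), (0, 2, 3), 517), ((4, 13, 6), (0, 2, 3), 124), ((3, 4, 2), (2, 1, 3), -1277), ((8, 5, 11), (2, 1, 3), 2457),
    ((6, 0, 13), (2, 1, 3), 1144), ((13, 5, 6), (2, 1, 3), -1143), ((0, 5, 4), (4, 1, 0), 2242), ((9, 2, 6), (4, 1, 0), 370),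
    ((6, 8, 9), (4, 1, 0), -390), ((11, 13, 12), (4, 1, 0), 362), ((14, 13, 3), (4, 1, 0), 666), ((9, 5, 6), (0, 2, 4), 920),
    ((12, 5, 11), (0, 2, 4), 2758), ((4, 13, 0), (0, 2, 4), -1715), ((14, 1, 3), (0, 2, 4), 423), ((3, 4, 1), (2, 1, 4), 1803),
    ((6, 0, 5), (2, 1, 4), 862), ((5, 8, 6), (2, 1, 4), 363), ((4, 9, 2), (2, 1, 4), -695), ((13, 5, 0), (2, 1, 4), 380),
    ((5, 13, 11), (2, 1, 4), -2671), ((0, 14, 13), (2, 1, 4), 582), ((6, 0, 4), (3, 4, 0), -3), ((4, 9, 6), (3, 4, 0), -226),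
    ((7, 12, 11), (3, 4, 0), 255), ((0, 14, 3), (3, 4, 0), 48), ((5, 1, 4), (1, 5, 0), -919), ((7, 0, 5), (1, 5, 0), -1952),
    ((2, 8, 6), (1, 5, 0), 405), ((8, 2, 9), (1, 5, 0), 1448), ((10, 9, 2), (1, 5, 0), -496), ((3, 11, 13), (1, 5, 0), 550),
    ((12, 14, 13), (1, 5, 0), 943), ((7, 6, 8), (2, 5, 0), -656), ((5, 2, 9), (2, 5, 0), -3363), ((10, 4, 1), (2, 5, 0), 2113),
    ((12, 0, 5), (2, 5, 0), 225), ((13, 1, 4), (2, 5, 0), 1005), ((4, 11, 13), (2, 5, 0), 629), ((1, 13, 14), (2, 5, 0), 296),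
    ((7, 6, 0), (5, 2, 1), -579), ((2, 5, 8), (5, 2, 1), 1123), ((10, 4, 9), (5, 2, 1), 785), ((11, 4, 3), (5, 2, 1), -670),
    ((0, 12, 7), (5, 2, 1), 71), ((1, 13, 5), (5, 2, 1), -569), ((12, 0, 14), (5, 2, 1), 464), ((4, 1, 6), (0, 5, 3), -843),
    ((6, 8, 4), (0, 5, 3), 77), ((11, 13, 7), (0, 5, 3), 184), ((1, 5, 6), (5, 1, 3), 96), ((8, 2, 4), (5, 1, 3), -2244),
    ((3, 11, 5), (5, 1, 3), 558), ((7, 0, 13), (5, 1, 3), 1653), ((4, 11, 8), (5, 2, 3), -340), ((1, 13, 6), (5, 2, 3), 944),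
    ((7, 6, 13), (5, 2, 3), 305), ((6, 0, 1), (3, 4, 5), -2685), ((1, 2, 6), (3, 4, 5), -3011), ((8, 5, 4), (3, 4, 5), 1980),
    ((4, 9, 8), (3, 4, 5), -575), ((5, 13, 3), (3, 4, 5), -1144), ((13, 5, 7), (3, 4, 5), 3736), ((7, 12, 13), (3, 4, 5), -523),
    ((3, 4, 6), (6, 0, 3), 267), ((6, 5, 3), (3, 1, 6), -244), ((3, 13, 6), (6, 2, 3), 1241), ((1, 5, 7), (7, 0, 1), 1933),
    ((8, 2, 10), (7, 0, 1), -2505), ((10, 9, 8), (7, 0, 1), -349), ((2, 8, 7), (7, 0, 2), -648), ((5, 1, 10), (7, 0, 2), 128),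
    ((10, 9, 5), (7, 0, 2), 326), ((1, 5, 12), (7, 0, 2), -578), ((12, 14, 1), (7, 0, 2), -193), ((8, 5, 10), (1, 2, 7), 45),
    ((7, 12, 1), (1, 2, 7), -495), ((3, 11, 7), (7, 0, 3), -16), ((10, 9, 6), (7, 0, 4), 153), ((3, 11, 12), (7, 0, 4), -448),
    ((12, 14, 3), (7, 0, 4), -294), ((6, 8, 10), (4, 1, 7), 275), ((6, 5, 10), (4, 2, 7), 96), ((3, 1, 12), (4, 2, 7), -206),
    ((7, 12, 3), (3, 4, 7), -468), ((7, 6, 2), (2, 5, 7), -383), ((5, 2, 10), (2, 5, 7), -2618), ((10, 4, 5), (2, 5, 7), 1843),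
    ((12, 0, 1), (2, 5, 7), -689), ((1, 13, 12), (2, 5, 7), -2301), ((3, 13, 7), (7, 5, 3), 744), ((10, 2, 6), (4, 5, 7), -4573),
    ((3, 13, 12), (4, 5, 7), -5030), ((10, 4, 8), (7, 6, 1), -391), ((1, 13, 7), (7, 6, 1), 976), ((10, 4, 6), (7, 6, 4), 374),
    ((4, 11, 7), (7, 6, 4), -392), ((12, 0, 3), (7, 6, 4), 19), ((8, 1, 9), (1, 8, 0), 494), ((7, 14, 5), (1, 8, 0), -1582),
    ((7, 0, 8), (2, 8, 0), -346), ((5, 1, 9), (2, 8, 0), -3662), ((10, 9, 1), (2, 8, 0), 314), ((1, 5, 14), (2, 8, 0), 1304),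
    ((12, 14, 5), (2, 8, 0), 1682), ((8, 5, 1), (1, 2, 8), -1174), ((14, 0, 7), (1, 2, 8), -104), ((7, 12, 14), (1, 2, 8), 1110),
    ((3, 11, 8), (8, 2, 3), 1011), ((9, 1, 6), (0, 8, 4), -182), ((14, 5, 3), (0, 8, 4), 218), ((1, 8, 6), (8, 1, 4), 604),
    ((7, 14, 13), (8, 1, 4), -1089), ((8, 5, 3), (3, 4, 8), -193), ((6, 0, 8), (5, 8, 0), -96), ((2, 1, 9), (5, 8, 0), 734),
    ((4, 9, 1), (5, 8, 0), 368), ((0, 14, 5), (5, 8, 0), 390), ((13, 5, 14), (5, 8, 0), 71), ((8, 1, 10), (1, 8, 7), -68),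
    ((7, 14, 1), (1, 8, 7), 115), ((10, 1, 6), (7, 8, 4), 28), ((12, 5, 3), (7, 8, 4), -520), ((4, 13, 7), (7, 8, 4), 545),
    ((0, 8, 9), (9, 1, 0), 1), ((14, 5, 4), (9, 1, 0), 436), ((0, 5, 9), (9, 2, 0), -1177), ((4, 1, 14), (9, 2, 0), 847),
    ((14, 13, 4), (9, 2, 0), 553), ((6, 14, 4), (3, 9, 0), -144), ((13, 8, 0), (3, 9, 1), -178), ((6, 14, 5), (3, 9, 1), -290),
    ((13, 8, 6), (3, 9, 2), 233), ((8, 13, 11), (3, 9, 2), 488), ((6, 14, 13), (3, 9, 2), -231), ((6, 0, 9), (4, 9, 0), -297),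
    ((0, 14, 4), (4, 9, 0), 488), ((3, 4, 14), (4, 9, 0), 169), ((13, 5, 8), (3, 4, 9), 1862), ((14, 0, 6), (3, 4, 9), -1714),
    ((8, 13, 4), (3, 9, 5), 1236), ((13, 8, 7), (3, 9, 5), -894), ((6, 14, 1), (3, 9, 5), -1128), ((6, 14, 3), (3, 9, 6), 253),
    ((10, 9, 0), (7, 0, 9), -68), ((12, 14, 4), (7, 0, 9), -298), ((0, 8, 10), (9, 1, 7), -134), ((0, 5, 10), (9, 2, 7), 405),
    ((4, 1, 12), (9, 2, 7), 321), ((6, 0, 10), (4, 9, 7), -17), ((3, 4, 12), (4, 9, 7), 99), ((7, 12, 4), (4, 9, 7), -159),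
    ((7, 8, 9), (9, 5, 7), 252), ((10, 1, 0), (9, 5, 7), -1455), ((0, 2, 10), (9, 5, 7), -3650), ((12, 5, 4), (9, 5, 7), 2375),
    ((4, 13, 12), (9, 5, 7), -2864), ((10, 4, 0), (7, 6, 9), 371), ((12, 0, 4), (7, 6, 9), 183), ((4, 11, 12), (7, 6, 9), -775),
    ((8, 13, 3), (3, 9, 8), -230), ((11, 9, 7), (3, 10, 0), -484), ((6, 12, 4), (3, 10, 0), 569), ((11, 9, 5), (3, 10, 1), -5091),
    ((6, 12, 5), (3, 10, 1), -701), ((13, 2, 0), (3, 10, 1), 2444), ((2, 13, 4), (3, 10, 1), 2688), ((11, 9, 8), (3, 10, 2), 295),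
    ((2, 13, 3), (3, 10, 2), 1663), ((13, 2, 6), (3, 10, 2), 847), ((6, 12, 13), (3, 10, 2), -959), ((4, 11, 9), (4, 10, 3), -1848),
    ((0, 12, 6), (4, 10, 3), 871), ((7, 6, 12), (4, 10, 3), 544), ((1, 13, 2), (4, 10, 3), -951), ((5, 2, 13), (4, 10, 3), -1019),
    ((6, 12, 1), (3, 10, 5), -1957), ((13, 2, 7), (3, 10, 5), 998), ((6, 12, 3), (3, 10, 6), 316), ((10, 9, 7), (7, 0, 10), -111),
    ((7, 8, 10), (10, 1, 7), -156), ((7, 5, 10), (10, 2, 7), -835), ((7, 6, 10), (10, 4, 7), -529), ((9, 11, 3), (3, 10, 9), -2672),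
    ((13, 2, 8), (3, 10, 9), 1063), ((6, 12, 14), (3, 10, 9), 625), ((7, 0, 11), (3, 11, 0), 222), ((5, 1, 11), (3, 11, 1), -454),
    ((8, 2, 11), (3, 11, 2), -53), ((12, 0, 11), (4, 11, 0), -362), ((13, 1, 11), (4, 11, 1), -383), ((5, 2, 11), (4, 11, 2), -1582),
    ((11, 13, 0), (0, 5, 11), -1676), ((7, 6, 11), (4, 11, 6), 476), ((11, 13, 6), (6, 8, 11), -1052), ((2, 13, 11), (11, 9, 2), -1196),
    ((6, 12, 11), (11, 9, 6), 61), ((10, 11, 9), (11, 10, 3), -1682), ((2, 5, 12), (12, 0, 2), -604), ((13, 1, 10), (12, 0, 2), 128),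
    ((10, 4, 13), (12, 0, 2), -297), ((7, 12, 2), (1, 2, 12), 245), ((5, 13, 10), (1, 2, 12), -251), ((10, 13, 6), (12, 2, 3), 176),
    ((10, 13, 0), (12, 2, 4), 209), ((2, 13, 10), (6, 12, 2), 294), ((3, 10, 13), (6, 12, 2), -586), ((13, 2, 12), (6, 12, 2), 908),
    ((13, 1, 9), (12, 0, 8), -176), ((2, 5, 14), (12, 0, 8), 855), ((7, 14, 2), (1, 8, 12), 7), ((10, 9, 13), (2, 8, 12), 467),
    ((12, 14, 2), (2, 8, 12), 342), ((9, 13, 7), (12, 8, 4), -87), ((7, 12, 8), (5, 8, 12), 958), ((4, 9, 13), (5, 8, 12), 50),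
    ((5, 13, 9), (5, 8, 12), -1727), ((0, 14, 2), (5, 8, 12), 814), ((1, 2, 14), (5, 8, 12), 859), ((2, 13, 9), (6, 12, 8), -285),
    ((11, 9, 13), (6, 12, 8), -330), ((13, 2, 14), (6, 12, 8), 557), ((10, 4, 14), (12, 0, 9), 10), ((14, 5, 10), (9, 1, 12), 881),
    ((14, 13, 10), (9, 2, 12), 473), ((6, 14, 10), (3, 9, 12), -15), ((7, 12, 9), (4, 9, 12), 464), ((0, 14, 10), (4, 9, 12), -142),
    ((10, 1, 14), (9, 5, 12), -1276), ((11, 9, 12), (6, 12, 9), -699), ((3, 10, 14), (6, 12, 9), 788), ((9, 13, 12), (12, 8, 9), 1136),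
    ((14, 2, 10), (12, 8, 9), 509), ((10, 4, 12), (12, 0, 10), -32), ((12, 5, 10), (10, 1, 12), 419), ((10, 13, 12), (12, 2, 10), 301),
    ((6, 12, 10), (3, 10, 12), 264), ((12, 14, 10), (10, 9, 12), -41), ((9, 13, 6), (12, 8, 11), -359), ((14, 2, 3), (12, 8, 11), 410),
    ((7, 6, 14), (1, 13, 8), 326), ((14, 2, 4), (9, 13, 0), 6), ((8, 13, 9), (3, 9, 13), 686), ((13, 8, 12), (3, 9, 13), -748),
    ((6, 14, 2), (3, 9, 13), 420), ((5, 8, 14), (0, 14, 8), -919), ((7, 14, 8), (1, 8, 14), -242), ((12, 14, 8), (2, 8, 14), -545),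
    ((13, 8, 14), (6, 14, 8), -38), ((4, 9, 14), (0, 14, 9), 103), ((14, 5, 9), (9, 1, 14), 182), ((9, 13, 14), (14, 2, 9), -173),
    ((6, 14, 9), (3, 9, 14), -8), ((12, 14, 9), (10, 9, 14), -195), ((12, 14, 11), (3, 11, 14), -76)]
  tr := trD
  big := 65536

theorem ct66_valid : validC ct66 = true := by decide +kernel

theorem ct66_const : constOK ct66 11753 = true := by decide +kernel

/-- classes -/
def cs66 : List Cl := [
 cl 1 0 0 0 26074 0 119, cl 1 1 0 1 9416 0 110, cl 2 1 0 1 0 140 83, cl 2 2 0 0 0 0 90,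
 cl 1 2 0 0 0 9967 136, cl 0 0 1 1 12194 0 134, cl 0 0 2 0 4006 0 274, cl 1 3 0 1 0 3638 118,
 cl 2 3 0 1 3345 0 88, cl 1 0 1 1 0 1 103, cl 1 0 2 0 319 0 109, cl 0 0 3 1 0 3258 130,
 cl 1 0 0 2 0 0 87, cl 1 2 0 2 0 3943 90, cl 0 0 0 2 0 12704 95, cl 2 0 0 2 0 832 75,
 cl 2 0 1 1 0 1212 80, cl 1 0 2 2 0 0 85, cl 0 0 2 2 3280 0 95, cl 2 0 0 0 0 1858 84,
 cl 2 2 0 2 1910 0 78, cl 1 4 0 2 0 1556 93, cl 2 4 0 2 273 0 81, cl 2 4 0 0 0 76 96]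

theorem ct66_link : linkOK ct66 (cs66.map swp) = true := by decide +kernel

theorem cs66_tail0 : tailOK cs66 12 1 100 11753 = true := by decide +kernel

theorem cs66_grid0 : gridOK vtTree cs66 12 1 100 3 0 10669327513 29407 11753 = true := by
  decide +kernel

theorem cs66_tail1 : tailOK cs66 13 1 100 11753 = true := by decide +kernel

theorem cs66_grid1 : gridOK vtTree cs66 13 1 100 2 0 10669327513 29407 11753 = true := by
  decide +kernel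

theorem cs66_tail2 : tailOK cs66 14 1 100 11753 = true := by decide +kernel

theorem cs66_grid2 : gridOK vtTree cs66 14 1 100 1 0 10669327513 29407 11753 = true := by
  decide +kernel

end Pool.Agent.H79.OC
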