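import Pool.Agent.H79.OC.Pts
import Pool.Agent.H79.OC.Pts2
import Pool.Agent.H79.OC.VTab
import Pool.Agent.H79.OC.Swp

set_option autoImplicit false
set_option maxRecDepth 100000

/-!
# Certificates, part 35
-/

namespace Pool.Agent.H79.OC

open Cl

/-! ### Box 67: `16 ≤ 128 x ≤ 20`, `88 ≤ 128 y ≤ 92` -/

/-- certificate -/
def ct67 : Cert where
  pts := ptsA
  g := 16813
  al := [(0, 3587), (1, 2727), (2, 23), (3, -3304), (4, 3437), (5, 1228), (6, -4438), (7, 1092), (8, 2455), (9, 2831), (10, 7380), (11, 4050), (12, -1747), (13, 4360)]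
  be := [
    (1, 0, 8979), (2, 0, 2081), (2, 1, 3676), (3, 0, 3932), (3, 1, -1647), (3, 2, 2300), (4, 0, 1153),
    (4, 1, 2714), (4, 2, 3809), (4, 3, 2420), (5, 0, 210), (5, 1, -7536), (5, 2, 1399), (5, 3, -330),
    (5, 4, 2278), (6, 0, 3158), (6, 1, 3397), (6, 2, 3778), (6, 3, 4795), (6, 4, 1222), (6, 5, 538),
    (7, 0, 1836), (7, 1, -2932), (7, 2, -2111), (7, 3, -2615), (7, 4, 2184), (7, 5, -1457), (7, 6, 1542),
    (8, 0, -4905), (8, 1, -1726), (8, 2, 88), (8, 3, 3120), (8, 4, 563), (8, 5, 7015), (8, 6, 1622),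
    (8, 7, 227), (9, 0, 3009), (9, 1, 3886), (9, 2, 1148), (9, 3, 10472), (9, 4, -501), (9, 5, -2078),
    (9, 6, 2733), (9, 7, -2318), (9, 8, 2777), (10, 0, -5237), (10, 1, -2963), (10, 2, -3333), (10, 3, 2756),
    (10, 4, -2110), (10, 5, 1231), (10, 6, 1015), (10, 7, 1200), (10, 8, -4883), (10, 9, -2922), (11, 0, -4552),
    (11, 1, -2348), (11, 2, -160), (11, 3, 292), (11, 4, -1713), (11, 5, 1391), (11, 6, 688), (11, 7, -300),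
    (11, 8, -4082), (11, 9, -4591), (11, 10, -1974), (12, 0, -952), (12, 1, 3233), (12, 2, 858), (12, 3, 2393),
    (12, 4, 98), (12, 5, 1948), (12, 6, -899), (12, 7, 967), (12, 8, 243), (12, 9, 2598), (12, 10, -916),
    (12, 11, -447), (13, 0, -614), (13, 1, -3353), (13, 2, 1804), (13, 3, -1702), (13, 4, -1836), (13, 5, -3901),
    (13, 6, -227), (13, 7, -386), (13, 8, 2349), (13, 9, -284), (13, 10, 1273), (13, 11, 924), (13, 12, -2234)]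
  ta := [
    ((1, 9, 3), (3, 0, 1), -4120), ((8, 4, 12), (3, 0, 1), -266), ((12, 5, 8), (3, 0, 1), -1011), ((11, 9, 13), (3, 0, 1), 4659),
    ((8, 4, 1), (3, 0, 2), 62), ((1, 9, 8), (3, 0, 2), -1079), ((2, 10, 3), (3, 0, 2), -73), ((11, 9, 7), (3, 0, 2), 3171),
    ((3, 8, 1), (1, 2, 3), -504), ((12, 1, 8), (1, 2, 3), -569), ((13, 7, 11), (1, 2, 3), -237), ((1, 2, 4), (0, 4, 2), -3696),
    ((9, 5, 7), (0, 4, 2), 1015), ((3, 8, 10), (0, 4, 2), 1464), ((9, 10, 8), (0, 4, 2), 1362), ((13, 7, 5), (0, 4, 2), 1549),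
    ((4, 8, 3), (3, 0, 4), -1880), ((10, 2, 1), (3, 0, 4), 1128), ((1, 9, 10), (3, 0, 4), 2010), ((11, 9, 5), (3, 0, 4), 1055),
    ((9, 1, 12), (3, 0, 4), -494), ((12, 5, 9), (3, 0, 4), -1102), ((1, 10, 3), (3, 4, 1), -1807), ((12, 9, 8), (3, 4, 1), 104),
    ((11, 5, 13), (3, 4, 1), -549), ((1, 10, 8), (3, 4, 2), 2392), ((11, 5, 7), (3, 4, 2), 240), ((0, 8, 5), (5, 1, 0), -916),
    ((6, 4, 12), (5, 1, 0), 1269), ((2, 9, 13), (5, 1, 0), -1470), ((2, 5, 13), (5, 2, 0), 61), ((2, 9, 5), (5, 1, 2), -331),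
    ((12, 5, 0), (3, 0, 5), -459), ((0, 6, 12), (3, 0, 5), 317), ((10, 2, 13), (3, 0, 5), 82), ((0, 8, 12), (5, 1, 3), -46),
    ((10, 11, 13), (5, 1, 3), -593), ((5, 9, 0), (0, 4, 5), 3982), ((12, 1, 6), (0, 4, 5), -921), ((2, 1, 13), (0, 4, 5), -794),
    ((13, 7, 2), (0, 4, 5), -568), ((6, 4, 1), (5, 1, 4), -2892), ((9, 2, 0), (5, 1, 4), -1690), ((2, 9, 7), (5, 1, 4), 1504),
    ((0, 8, 9), (5, 1, 4), 775), ((11, 10, 3), (5, 1, 4), -1037), ((1, 5, 13), (5, 1, 4), 1854), ((2, 5, 7), (5, 2, 4), 851),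
    ((5, 11, 3), (3, 4, 5), -582), ((12, 9, 0), (3, 4, 5), -95), ((10, 1, 13), (3, 4, 5), -161), ((1, 9, 4), (0, 6, 2), -2047),
    ((9, 1, 7), (0, 6, 2), -50), ((8, 4, 9), (0, 6, 2), -1237), ((2, 10, 0), (0, 6, 2), 2508), ((3, 0, 10), (0, 6, 2), -1028),
    ((9, 11, 8), (0, 6, 2), 1196), ((5, 12, 13), (0, 6, 2), 2551), ((2, 1, 7), (1, 2, 6), 3000), ((0, 4, 9), (1, 2, 6), -1008),
    ((5, 9, 4), (1, 2, 6), -1720), ((9, 10, 0), (1, 2, 6), -375), ((3, 8, 11), (1, 2, 6), -688), ((13, 7, 1), (1, 2, 6), -90),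
    ((1, 12, 13), (1, 2, 6), 3915), ((1, 9, 11), (6, 0, 3), 2422), ((1, 11, 3), (3, 6, 1), -110), ((11, 1, 13), (3, 6, 1), -24),
    ((11, 1, 7), (3, 6, 2), -65), ((1, 11, 8), (3, 6, 2), 1885), ((3, 0, 8), (0, 6, 4), -76), ((4, 8, 0), (0, 6, 4), 2024),
    ((1, 9, 2), (0, 6, 4), -1491), ((9, 1, 5), (0, 6, 4), 1827), ((10, 2, 9), (0, 6, 4), -298), ((9, 11, 10), (0, 6, 4), 226),
    ((12, 5, 1), (0, 6, 4), -310), ((1, 5, 7), (6, 4, 2), -1051), ((9, 2, 4), (6, 4, 2), -2692), ((0, 8, 10), (6, 4, 2), 1731),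
    ((11, 10, 8), (6, 4, 2), 387), ((11, 1, 5), (3, 6, 4), 1535), ((1, 11, 10), (3, 6, 4), 925), ((12, 5, 6), (0, 6, 5), 106),
    ((6, 4, 5), (5, 1, 6), -542), ((0, 10, 7), (7, 1, 0), -1510), ((4, 9, 13), (7, 1, 0), -305), ((13, 12, 4), (7, 1, 0), 293),
    ((7, 9, 0), (0, 2, 7), -1009), ((4, 1, 13), (0, 2, 7), 1963), ((13, 5, 4), (0, 2, 7), 823), ((8, 4, 13), (3, 0, 7), -513),
    ((8, 11, 13), (7, 1, 3), -201), ((13, 12, 8), (7, 1, 3), -1466), ((7, 11, 3), (3, 2, 7), 390), ((8, 1, 13), (3, 2, 7), -6),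
    ((13, 7, 4), (0, 4, 7), 543), ((4, 9, 7), (7, 1, 4), 124), ((7, 5, 4), (4, 2, 7), -91), ((4, 2, 13), (7, 5, 0), -298),
    ((8, 10, 13), (7, 5, 3), -136), ((6, 2, 7), (7, 1, 6), -1769), ((5, 1, 8), (0, 8, 1), 38), ((9, 2, 3), (0, 8, 1), -2944),
    ((10, 11, 7), (0, 8, 1), 602), ((9, 2, 8), (0, 8, 2), -297), ((3, 8, 2), (1, 2, 8), -83), ((2, 10, 8), (8, 4, 2), 1307),
    ((5, 9, 3), (3, 8, 5), 4276), ((12, 1, 0), (3, 8, 5), -1206), ((0, 4, 12), (3, 8, 5), -318), ((13, 7, 10), (3, 8, 5), -1182),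
    ((10, 9, 13), (3, 8, 5), 1472), ((4, 8, 6), (0, 6, 8), -1202), ((9, 11, 2), (0, 6, 8), -518), ((10, 2, 11), (0, 6, 8), 1438),
    ((11, 2, 3), (6, 8, 1), -62), ((2, 11, 7), (6, 8, 1), -64), ((11, 2, 8), (6, 8, 2), -105), ((1, 11, 2), (3, 6, 8), -137),
    ((8, 11, 7), (7, 1, 8), 439), ((13, 7, 8), (3, 8, 7), -260), ((8, 10, 7), (7, 5, 8), -1210), ((1, 10, 0), (3, 4, 9), 577),
    ((10, 1, 7), (3, 4, 9), 552), ((5, 11, 8), (3, 4, 9), -950), ((12, 9, 4), (3, 4, 9), -910), ((9, 12, 13), (3, 4, 9), 3949),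
    ((1, 9, 6), (0, 6, 9), -641), ((3, 0, 11), (0, 6, 9), 980), ((9, 11, 0), (0, 6, 9), 870), ((6, 4, 9), (9, 2, 6), -1012),
    ((0, 8, 11), (9, 2, 6), 887), ((11, 10, 0), (9, 2, 6), 1214), ((1, 11, 0), (3, 6, 9), 2378), ((3, 10, 7), (7, 9, 3), 119),
    ((13, 5, 8), (7, 9, 3), -1006), ((8, 9, 13), (7, 9, 3), -1224), ((11, 2, 0), (6, 8, 9), 851), ((9, 10, 4), (0, 4, 10), 2211),
    ((1, 12, 7), (0, 4, 10), -2108), ((13, 7, 12), (0, 4, 10), 23), ((3, 4, 10), (1, 10, 4), -141), ((9, 12, 7), (1, 10, 4), 875),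
    ((8, 4, 10), (2, 10, 4), 205), ((5, 12, 7), (2, 10, 4), -681), ((12, 2, 6), (5, 10, 0), -756), ((2, 12, 13), (5, 10, 0), 274),
    ((10, 11, 5), (5, 1, 10), -646), ((2, 9, 12), (5, 1, 10), -1585), ((12, 5, 2), (10, 2, 5), -181), ((12, 2, 0), (5, 10, 3), 608),
    ((10, 5, 13), (5, 10, 3), -310), ((2, 12, 7), (5, 10, 4), 1243), ((2, 10, 6), (0, 6, 10), -2306), ((8, 4, 11), (0, 6, 10), 488),
    ((9, 11, 4), (0, 6, 10), 1419), ((3, 4, 11), (1, 10, 6), 916), ((5, 11, 4), (1, 10, 6), -994), ((1, 11, 4), (3, 6, 10), 1461),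
    ((11, 10, 4), (6, 4, 10), -889), ((7, 12, 4), (4, 10, 7), -208), ((5, 10, 8), (10, 5, 7), -1857), ((12, 2, 4), (10, 5, 7), 1404),
    ((11, 2, 4), (6, 8, 10), -101), ((12, 1, 2), (5, 9, 10), -1856), ((0, 4, 11), (9, 10, 6), 581), ((12, 9, 6), (5, 11, 0), -343),
    ((9, 11, 6), (0, 6, 11), -1096), ((3, 6, 11), (1, 11, 6), -99), ((6, 8, 11), (11, 2, 6), 359), ((11, 10, 6), (6, 4, 11), 674),
    ((12, 5, 3), (3, 0, 12), 219), ((3, 8, 12), (12, 1, 3), -53), ((12, 9, 3), (3, 4, 12), -1509), ((4, 10, 13), (7, 12, 0), 86),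
    ((2, 11, 13), (6, 8, 12), 290), ((10, 12, 13), (12, 10, 0), -779), ((10, 9, 12), (12, 1, 10), 247), ((12, 5, 10), (10, 2, 12), -660),
    ((10, 12, 7), (12, 10, 4), 732), ((11, 9, 12), (12, 5, 11), 240), ((11, 12, 13), (12, 11, 8), -1388), ((0, 9, 13), (13, 1, 0), -184),
    ((13, 5, 0), (0, 2, 13), 544), ((3, 11, 13), (13, 1, 3), 455), ((13, 7, 0), (0, 4, 13), -101), ((3, 10, 13), (13, 5, 3), -267),
    ((13, 12, 6), (6, 2, 13), 1739), ((3, 8, 13), (13, 7, 3), -910), ((13, 12, 0), (0, 10, 13), -69)]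
  tr := trA
  big := 32768

theorem ct67_valid : validC ct67 = true := by decide +kernel

theorem ct67_const : constOK ct67 12356 = true := by decide +kernel

/-- classes -/
def cs67 : List Cl := [
 cl 1 0 0 0 27480 0 119, cl 1 1 0 1 7621 0 114, cl 0 0 1 1 11359 0 142, cl 1 0 0 2 1389 0 91,
 cl 2 2 0 0 0 0 92, cl 0 0 0 2 0 12045 101, cl 1 2 0 0 0 11208 143, cl 1 2 0 2 0 4350 96,
 cl 1 0 1 1 0 489 104, cl 2 1 0 1 0 880 85, cl 0 0 2 0 3446 0 237, cl 0 0 2 2 4536 0 101,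
 cl 0 0 1 3 2861 0 83, cl 1 1 0 3 626 0 80, cl 1 0 2 0 2393 0 106, cl 2 0 0 0 0 1702 84,
 cl 2 3 0 1 3726 0 92, cl 1 3 0 1 0 1841 128, cl 1 3 0 3 688 0 82, cl 2 2 0 2 0 0 81,
 cl 0 0 3 1 0 1363 134]

theorem ct67_link : linkOK ct67 (cs67.map swp) = true := by decide +kernel

theorem cs67_tail0 : tailOK cs67 16 4 88 12356 = true := by decide +kernel

theorem cs67_grid0 : gridOK vtTree cs67 16 4 88 4 0 21152132402 28142 12356 = true := by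
  decide +kernel

/-! ### Box 68: `0 ≤ 128 x ≤ 5`, `16 ≤ 128 y ≤ 32` -/

/-- certificate -/
def ct68 : Cert where
  pts := pts14
  g := 20676
  al := [(0, 2879), (1, 1603), (2, 1603), (3, 10815), (4, 1888), (5, 3581), (6, 3581), (7, 350), (8, 3450), (9, 558), (10, 558), (11, -395), (12, 3542), (13, 3542)]
  be := [
    (1, 0, 1746), (2, 0, 1746), (2, 1, -6550), (3, 0, -1992), (3, 1, -4194), (3, 2, -4194), (4, 0, -25),
    (4, 1, 6158), (4, 2, 6158), (4, 3, -7943), (5, 0, -3317), (5, 1, 6868), (5, 2, 1078), (5, 3, 1996),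
    (5, 4, 5091), (6, 0, -3317), (6, 1, 1078), (6, 2, 6868), (6, 3, 1996), (6, 4, 5091), (6, 5, -1963),
    (7, 0, -31), (7, 1, 3766), (7, 2, 3766), (7, 3, 6828), (7, 4, 1131), (7, 5, 735), (7, 6, 735),
    (8, 0, -380), (8, 1, -1368), (8, 2, -1368), (8, 4, 8579), (8, 5, 405), (8, 6, 405), (8, 7, -5219),
    (9, 0, -272), (9, 1, 356), (9, 2, 174), (9, 3, 286), (9, 4, 122), (9, 5, 721), (9, 6, -386),
    (9, 7, 2849), (9, 8, 1367), (10, 0, -272), (10, 1, 174), (10, 2, 356), (10, 3, 286), (10, 4, 122),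
    (10, 5, -386), (10, 6, 721), (10, 7, 2849), (10, 8, 1367), (10, 9, -1315), (11, 1, 272), (11, 2, 272),
    (11, 3, -93), (11, 4, 10), (11, 5, -1078), (11, 6, -1078), (11, 7, 5174), (11, 8, 861), (11, 9, 2280),
    (11, 10, 2280), (12, 0, -997), (12, 1, -2796), (12, 2, 24), (12, 3, -3351), (12, 4, -1471), (12, 5, -3052),
    (12, 8, 305), (12, 9, -922), (12, 10, 30), (12, 11, -217), (13, 0, -997), (13, 1, 24), (13, 2, -2796),
    (13, 3, -3351), (13, 4, -1471), (13, 6, -3052), (13, 8, 305), (13, 9, 30), (13, 10, -922), (13, 11, -217),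
    (13, 12, -291)]
  ta := [
    ((3, 2, 1), (0, 1, 2), 5654), ((4, 5, 6), (0, 1, 2), -3858), ((7, 6, 5), (0, 1, 2), 974), ((8, 9, 10), (0, 1, 2), 1009),
    ((11, 10, 9), (0, 1, 2), -801), ((5, 4, 12), (0, 1, 2), -1723), ((6, 13, 4), (0, 1, 2), -1723), ((3, 2, 0), (0, 1, 3), 389),
    ((4, 5, 7), (0, 1, 3), 1189), ((7, 6, 4), (0, 1, 3), 1189), ((8, 9, 11), (0, 1, 3), -1578), ((11, 10, 8), (0, 1, 3), -1578),
    ((6, 5, 3), (1, 2, 4), -489), ((5, 6, 8), (1, 2, 4), -3531), ((10, 9, 7), (1, 2, 4), -501), ((4, 12, 1), (1, 2, 4), 1571),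
    ((13, 4, 2), (1, 2, 4), 1571), ((7, 4, 3), (0, 3, 4), -55), ((4, 7, 8), (0, 3, 4), -986), ((11, 8, 7), (0, 3, 4), -1958),
    ((6, 4, 3), (1, 3, 4), -183), ((5, 7, 8), (1, 3, 4), 1040), ((10, 8, 7), (1, 3, 4), -963), ((5, 4, 3), (2, 3, 4), -183),
    ((6, 7, 8), (2, 3, 4), 1040), ((9, 8, 7), (2, 3, 4), -963), ((5, 4, 0), (0, 1, 5), -1428), ((2, 3, 7), (0, 1, 5), -1788),
    ((7, 6, 2), (0, 1, 5), -2240), ((4, 5, 9), (0, 1, 5), 1205), ((9, 8, 4), (0, 1, 5), -1314), ((6, 7, 11), (0, 1, 5), -1596),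
    ((11, 10, 6), (0, 1, 5), -453), ((13, 6, 10), (0, 1, 5), 7131), ((7, 5, 2), (0, 2, 5), -1226), ((4, 6, 9), (0, 2, 5), 543),
    ((11, 9, 6), (0, 2, 5), -178), ((5, 12, 0), (0, 2, 5), 1217), ((10, 8, 13), (0, 2, 5), 617), ((6, 5, 2), (1, 2, 5), -3314),
    ((5, 6, 9), (1, 2, 5), -2550), ((10, 9, 6), (1, 2, 5), 286), ((4, 12, 0), (1, 2, 5), 2959), ((4, 13, 8), (1, 2, 5), -674),
    ((7, 4, 2), (0, 3, 5), -3216), ((4, 7, 9), (0, 3, 5), 348), ((11, 8, 6), (0, 3, 5), 432), ((5, 4, 2), (2, 3, 5), -4909),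
    ((6, 7, 9), (2, 3, 5), -637), ((9, 8, 6), (2, 3, 5), -1456), ((0, 1, 12), (2, 3, 5), 589), ((13, 6, 8), (2, 3, 5), 5388),
    ((7, 6, 1), (0, 1, 6), -1226), ((4, 5, 10), (0, 1, 6), 543), ((11, 10, 5), (0, 1, 6), -178), ((9, 8, 12), (0, 1, 6), 617),
    ((6, 13, 0), (0, 1, 6), 1217), ((6, 4, 0), (0, 2, 6), -1428), ((1, 3, 7), (0, 2, 6), -1788), ((7, 5, 1), (0, 2, 6), -2240),
    ((4, 6, 10), (0, 2, 6), 1205), ((10, 8, 4), (0, 2, 6), -1314), ((5, 7, 11), (0, 2, 6), -1596), ((11, 9, 5), (0, 2, 6), -453),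
    ((12, 5, 9), (0, 2, 6), 7131), ((6, 5, 1), (1, 2, 6), -3314), ((5, 6, 10), (1, 2, 6), -2550), ((10, 9, 5), (1, 2, 6), 286),
    ((12, 4, 8), (1, 2, 6), -674), ((13, 4, 0), (1, 2, 6), 2959), ((7, 4, 1), (0, 3, 6), -3216), ((4, 7, 10), (0, 3, 6), 348),
    ((11, 8, 5), (0, 3, 6), 432), ((6, 4, 1), (1, 3, 6), -4909), ((5, 7, 10), (1, 3, 6), -637), ((10, 8, 5), (1, 3, 6), -1456),
    ((12, 5, 8), (1, 3, 6), 5388), ((0, 2, 13), (1, 3, 6), 589), ((1, 2, 7), (6, 5, 0), -939), ((10, 9, 4), (6, 5, 0), -146),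
    ((5, 6, 11), (6, 5, 0), 462), ((12, 4, 9), (6, 5, 0), -150), ((4, 13, 10), (6, 5, 0), -150), ((7, 6, 0), (0, 1, 7), 2122),
    ((4, 5, 11), (0, 1, 7), 344), ((11, 10, 4), (0, 1, 7), -530), ((7, 5, 0), (0, 2, 7), 2122), ((4, 6, 11), (0, 2, 7), 344),
    ((11, 9, 4), (0, 2, 7), -530), ((7, 4, 0), (0, 3, 7), 848), ((4, 7, 11), (0, 3, 7), -172), ((11, 8, 4), (0, 3, 7), -465),
    ((9, 8, 1), (0, 1, 8), 264), ((2, 3, 10), (0, 1, 8), -90), ((11, 10, 3), (0, 1, 8), -255), ((1, 3, 9), (0, 2, 8), -90),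
    ((10, 8, 2), (0, 2, 8), 264), ((11, 9, 3), (0, 2, 8), -255), ((10, 9, 3), (1, 2, 8), 2), ((11, 8, 3), (0, 3, 8), 1),
    ((10, 8, 3), (1, 3, 8), -265), ((9, 8, 3), (2, 3, 8), -265), ((1, 5, 9), (0, 4, 8), 2965), ((2, 6, 10), (0, 4, 8), 2965),
    ((3, 7, 11), (0, 4, 8), -2419), ((8, 5, 1), (1, 4, 8), 2160), ((3, 6, 10), (1, 4, 8), 922), ((10, 7, 3), (1, 4, 8), -1660),
    ((8, 6, 2), (2, 4, 8), 2160), ((3, 5, 9), (2, 4, 8), 922), ((9, 7, 3), (2, 4, 8), -1660), ((8, 7, 3), (3, 4, 8), 124),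
    ((1, 4, 9), (8, 5, 0), -563), ((10, 7, 2), (8, 5, 0), 34), ((3, 6, 11), (8, 5, 0), 229), ((2, 13, 10), (8, 5, 0), 280),
    ((9, 6, 3), (2, 5, 8), -327), ((8, 13, 2), (2, 5, 8), 212), ((9, 7, 1), (8, 6, 0), 34), ((2, 4, 10), (8, 6, 0), -563),
    ((3, 5, 11), (8, 6, 0), 229), ((1, 12, 9), (8, 6, 0), 280), ((3, 5, 10), (8, 6, 1), -327), ((1, 12, 8), (8, 6, 1), 212),
    ((3, 4, 11), (8, 7, 0), 165), ((3, 4, 10), (8, 7, 1), -265), ((3, 4, 9), (8, 7, 2), -265), ((9, 8, 0), (0, 1, 9), 461),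
    ((2, 3, 11), (0, 1, 9), -70), ((11, 10, 2), (0, 1, 9), -202), ((11, 9, 2), (0, 2, 9), 10), ((10, 9, 2), (1, 2, 9), -87),
    ((11, 8, 2), (0, 3, 9), 193), ((9, 8, 2), (2, 3, 9), -245), ((9, 5, 0), (0, 4, 9), 359), ((2, 6, 11), (0, 4, 9), -207),
    ((11, 7, 2), (0, 4, 9), 65), ((9, 7, 2), (2, 4, 9), -1), ((9, 6, 2), (2, 5, 9), 240), ((2, 5, 11), (9, 6, 0), 17),
    ((0, 12, 9), (9, 6, 0), 42), ((2, 5, 10), (9, 6, 1), -193), ((0, 12, 8), (9, 6, 1), 193), ((8, 13, 0), (9, 6, 1), 193),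
    ((2, 4, 11), (9, 7, 0), -42), ((11, 10, 1), (0, 1, 10), 10), ((10, 8, 0), (0, 2, 10), 461), ((1, 3, 11), (0, 2, 10), -70),
    ((11, 9, 1), (0, 2, 10), -202), ((10, 9, 1), (1, 2, 10), -87), ((11, 8, 1), (0, 3, 10), 193), ((10, 8, 1), (1, 3, 10), -245),
    ((10, 6, 0), (0, 4, 10), 359), ((1, 5, 11), (0, 4, 10), -207), ((11, 7, 1), (0, 4, 10), 65), ((10, 7, 1), (1, 4, 10), -1),
    ((11, 6, 1), (0, 5, 10), 17), ((10, 13, 0), (0, 5, 10), 42), ((10, 6, 1), (1, 5, 10), -240), ((1, 4, 11), (10, 7, 0), -42),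
    ((1, 2, 11), (10, 9, 0), -186), ((11, 10, 0), (0, 1, 11), 151), ((11, 9, 0), (0, 2, 11), 151), ((11, 8, 0), (0, 3, 11), 253),
    ((11, 7, 0), (0, 4, 11), -106), ((5, 12, 2), (0, 2, 12), 572), ((4, 12, 2), (1, 2, 12), -951), ((5, 12, 3), (1, 3, 12), -3009),
    ((12, 6, 9), (6, 12, 0), 121), ((12, 6, 8), (6, 12, 1), -570), ((6, 5, 12), (12, 4, 6), 746), ((12, 7, 9), (7, 12, 1), 21),
    ((10, 9, 12), (12, 4, 10), 193), ((10, 8, 12), (12, 5, 10), -229), ((11, 9, 12), (12, 5, 11), -217), ((6, 13, 1), (0, 1, 13), 572),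
    ((13, 4, 1), (1, 2, 13), -951), ((6, 13, 3), (2, 3, 13), -3009), ((5, 13, 10), (13, 5, 0), 121), ((5, 13, 8), (13, 5, 2), -570),
    ((6, 13, 5), (4, 5, 13), 746), ((13, 7, 10), (7, 13, 2), 21), ((10, 9, 13), (4, 13, 9), 193), ((9, 8, 13), (13, 6, 9), -229),
    ((11, 10, 13), (13, 6, 11), -217), ((12, 13, 8), (13, 12, 0), 185)]
  tr := tr14
  big := 32768

theorem ct68_valid : validC ct68 = true := by decide +kernel

theorem ct68_const : constOK ct68 15602 = true := by decide +kernel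

/-- classes -/
def cs68 : List Cl := [
 cl 0 0 1 1 7946 0 423, cl 0 0 2 0 0 0 1024, cl 1 0 0 0 35734 0 119, cl 1 0 1 1 0 2858 118,
 cl 1 0 2 0 0 21 119, cl 2 0 0 0 239 0 84, cl 2 0 1 1 0 0 84, cl 2 0 2 0 0 0 84,
 cl 1 0 0 2 0 0 117, cl 0 0 0 2 0 12770 237, cl 1 1 0 1 17224 0 121, cl 2 1 0 1 0 2164 85,
 cl 2 0 0 2 348 0 84, cl 1 1 0 3 48 0 117, cl 1 2 0 0 0 13162 124, cl 2 2 0 0 0 0 86,
 cl 1 2 0 2 0 6702 122, cl 0 0 1 3 0 0 194, cl 0 0 2 2 0 0 237, cl 1 0 1 3 60 0 115,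
 cl 1 0 2 2 0 434 117, cl 0 0 0 4 0 291 168]

theorem ct68_link : linkOK ct68 (cs68.map swp) = true := by decide +kernel

theorem cs68_tail0 : tailOK cs68 0 2 16 15602 = true := by decide +kernel

theorem cs68_grid0 : gridOK vtTree cs68 0 2 16 16 0 8201880619 20526 15602 = true := by
  decide +kernel

theorem cs68_tail1 : tailOK cs68 2 1 22 15602 = true := by decide +kernel

theorem cs68_grid1 : gridOK vtTree cs68 2 1 22 10 0 8201880619 20526 15602 = true := by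
  decide +kernel

theorem cs68_tail2 : tailOK cs68 3 1 27 15602 = true := by decide +kernel

theorem cs68_grid2 : gridOK vtTree cs68 3 1 27 5 0 8201880619 20526 15602 = true := by
  decide +kernel

theorem cs68_tail3 : tailOK cs68 4 1 31 15602 = true := by decide +kernel

theorem cs68_grid3 : gridOK vtTree cs68 4 1 31 1 0 8201880619 20526 15602 = true := by
  decide +kernel

end Pool.Agent.H79.OC
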