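import Pool.Agent.H79.OC.Pts
import Pool.Agent.H79.OC.Pts2
import Pool.Agent.H79.OC.VTab
import Pool.Agent.H79.OC.Swp

set_option autoImplicit false
set_option maxRecDepth 100000

/-!
# Certificates, part 36
-/

namespace Pool.Agent.H79.OC

open Cl

/-! ### Box 69: `8 ≤ 128 x ≤ 12`, `100 ≤ 128 y ≤ 104` -/

/-- certificate -/
def ct69 : Cert where
  pts := ptsD
  g := 19250
  al := [(0, 8626), (1, -566), (2, 6565), (3, 450), (4, 6256), (5, 45), (6, 4678), (7, 2735), (8, 2833), (9, -4329), (10, 3368), (11, -3070), (12, -971), (13, 6549), (14, 3601)]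
  be := [
    (1, 0, 6305), (2, 0, -2874), (2, 1, 3715), (3, 0, 612), (3, 1, -195), (3, 2, 4131), (4, 0, -2886),
    (4, 1, -1601), (4, 2, 3952), (4, 3, -108), (5, 0, -6821), (5, 1, 3326), (5, 2, 2500), (5, 3, -824),
    (5, 4, 5648), (6, 0, -2265), (6, 1, 2846), (6, 2, 2042), (6, 3, -680), (6, 4, -1471), (6, 5, 2497),
    (7, 0, -2792), (7, 1, 11), (7, 2, -3528), (7, 3, -309), (7, 4, -634), (7, 5, -4292), (7, 6, 978),
    (8, 0, -2796), (8, 1, -2725), (8, 2, 455), (8, 4, -145), (8, 5, 148), (8, 6, -2236), (8, 7, 444),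
    (9, 0, 1826), (9, 1, 1562), (9, 2, -1819), (9, 3, 2157), (9, 4, 3627), (9, 5, 7922), (9, 6, 2570),
    (9, 7, 340), (9, 8, 207), (10, 0, -1231), (10, 1, -72), (10, 2, 7170), (10, 3, -3727), (10, 4, -3031),
    (10, 5, -2358), (10, 6, -615), (10, 7, -325), (10, 8, 59), (10, 9, 1343), (11, 0, 1531), (11, 1, 108),
    (11, 2, -1305), (11, 3, 1521), (11, 4, 1976), (11, 5, -72), (11, 6, 779), (11, 7, 67), (11, 8, -1353),
    (11, 9, 1485), (11, 10, 2191), (12, 0, -306), (12, 1, 5938), (12, 2, -767), (12, 3, -346), (12, 4, -59),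
    (12, 5, 266), (12, 6, -1332), (12, 7, 159), (12, 8, 415), (12, 9, 2132), (12, 10, -463), (12, 11, 832),
    (13, 0, -1976), (13, 1, 2429), (13, 2, -9687), (13, 3, 3329), (13, 4, -1690), (13, 5, 1861), (13, 6, -3251),
    (13, 7, -2117), (13, 8, 1044), (13, 9, 63), (13, 10, -263), (13, 11, 1936), (13, 12, 5070), (14, 0, -1300),
    (14, 1, 544), (14, 2, -2877), (14, 3, -1091), (14, 4, -1004), (14, 5, -1406), (14, 6, -385), (14, 7, -3),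
    (14, 8, -899), (14, 9, 112), (14, 10, -534), (14, 12, -693), (14, 13, -1269)]
  ta := [
    ((4, 2, 6), (3, 1, 0), -3613), ((6, 5, 4), (3, 1, 0), -2404), ((11, 5, 7), (3, 1, 0), 8908), ((0, 13, 3), (3, 1, 0), -2584),
    ((7, 8, 11), (0, 2, 3), 327), ((4, 13, 6), (0, 2, 3), 69), ((3, 4, 2), (2, 1, 3), -3053), ((8, 5, 11), (2, 1, 3), 3839),
    ((6, 0, 13), (2, 1, 3), 3221), ((13, 5, 6), (2, 1, 3), -1494), ((0, 5, 4), (4, 1, 0), 3965), ((9, 2, 6), (4, 1, 0), 431),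
    ((6, 8, 9), (4, 1, 0), -342), ((11, 13, 12), (4, 1, 0), -919), ((14, 13, 3), (4, 1, 0), 458), ((9, 5, 6), (0, 2, 4), -214),
    ((12, 5, 11), (0, 2, 4), 3315), ((4, 13, 0), (0, 2, 4), 6), ((14, 1, 3), (0, 2, 4), 58), ((3, 4, 1), (2, 1, 4), 2044),
    ((6, 0, 5), (2, 1, 4), 642), ((5, 8, 6), (2, 1, 4), 763), ((4, 9, 2), (2, 1, 4), -399), ((13, 5, 0), (2, 1, 4), 1963),
    ((5, 13, 11), (2, 1, 4), -3186), ((0, 14, 13), (2, 1, 4), 828), ((6, 0, 4), (3, 4, 0), 1027), ((4, 9, 6), (3, 4, 0), -558),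
    ((7, 12, 11), (3, 4, 0), 99), ((0, 14, 3), (3, 4, 0), 569), ((5, 1, 4), (1, 5, 0), -2538), ((7, 0, 5), (1, 5, 0), -1683),
    ((2, 8, 6), (1, 5, 0), 844), ((8, 2, 9), (1, 5, 0), 1434), ((10, 9, 2), (1, 5, 0), 503), ((3, 11, 13), (1, 5, 0), 758),
    ((12, 14, 13), (1, 5, 0), 923), ((7, 6, 8), (2, 5, 0), -142), ((5, 2, 9), (2, 5, 0), -2505), ((10, 4, 1), (2, 5, 0), 876),
    ((12, 0, 5), (2, 5, 0), 73), ((13, 1, 4), (2, 5, 0), 371), ((4, 11, 13), (2, 5, 0), 243), ((1, 13, 14), (2, 5, 0), 89),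
    ((7, 6, 0), (5, 2, 1), -952), ((2, 5, 8), (5, 2, 1), 3147), ((10, 4, 9), (5, 2, 1), 775), ((11, 4, 3), (5, 2, 1), -859),
    ((0, 12, 7), (5, 2, 1), -641), ((1, 13, 5), (5, 2, 1), -1257), ((12, 0, 14), (5, 2, 1), 660), ((4, 1, 6), (0, 5, 3), 650),
    ((6, 8, 4), (0, 5, 3), 308), ((11, 13, 7), (0, 5, 3), -685), ((1, 5, 6), (5, 1, 3), -439), ((8, 2, 4), (5, 1, 3), -1226),
    ((3, 11, 5), (5, 1, 3), 668), ((7, 0, 13), (5, 1, 3), 2103), ((4, 11, 8), (5, 2, 3), -2), ((1, 13, 6), (5, 2, 3), 579),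
    ((7, 6, 13), (5, 2, 3), 292), ((6, 0, 1), (3, 4, 5), -2444), ((1, 2, 6), (3, 4, 5), -2216), ((8, 5, 4), (3, 4, 5), 2322),
    ((4, 9, 8), (3, 4, 5), -1060), ((5, 13, 3), (3, 4, 5), -1409), ((13, 5, 7), (3, 4, 5), 3896), ((7, 12, 13), (3, 4, 5), -613),
    ((3, 4, 6), (6, 0, 3), -568), ((6, 5, 3), (3, 1, 6), 62), ((3, 13, 6), (6, 2, 3), -21), ((1, 5, 7), (7, 0, 1), 1928),
    ((8, 2, 10), (7, 0, 1), -1768), ((10, 9, 8), (7, 0, 1), -596), ((2, 8, 7), (7, 0, 2), -337), ((5, 1, 10), (7, 0, 2), 239),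
    ((10, 9, 5), (7, 0, 2), -40), ((1, 5, 12), (7, 0, 2), -1699), ((12, 14, 1), (7, 0, 2), -75), ((8, 5, 10), (1, 2, 7), -441),
    ((7, 12, 1), (1, 2, 7), -545), ((3, 11, 7), (7, 0, 3), -683), ((10, 9, 6), (7, 0, 4), -224), ((3, 11, 12), (7, 0, 4), -366),
    ((12, 14, 3), (7, 0, 4), -16), ((6, 8, 10), (4, 1, 7), 432), ((6, 5, 10), (4, 2, 7), -693), ((3, 1, 12), (4, 2, 7), -739),
    ((7, 12, 3), (3, 4, 7), -312), ((7, 6, 2), (2, 5, 7), -150), ((5, 2, 10), (2, 5, 7), -2611), ((10, 4, 5), (2, 5, 7), 2467),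
    ((12, 0, 1), (2, 5, 7), -933), ((1, 13, 12), (2, 5, 7), -3274), ((3, 13, 7), (7, 5, 3), 1366), ((10, 2, 6), (4, 5, 7), -5438),
    ((3, 13, 12), (4, 5, 7), -1994), ((10, 4, 8), (7, 6, 1), -52), ((1, 13, 7), (7, 6, 1), 727), ((10, 4, 6), (7, 6, 4), 274),
    ((4, 11, 7), (7, 6, 4), 156), ((12, 0, 3), (7, 6, 4), 298), ((8, 1, 9), (1, 8, 0), 773), ((7, 14, 5), (1, 8, 0), -2101),
    ((7, 0, 8), (2, 8, 0), -428), ((5, 1, 9), (2, 8, 0), -3287), ((10, 9, 1), (2, 8, 0), 473), ((1, 5, 14), (2, 8, 0), 873),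
    ((12, 14, 5), (2, 8, 0), 481), ((8, 5, 1), (1, 2, 8), -787), ((7, 12, 14), (1, 2, 8), 465), ((3, 11, 8), (8, 2, 3), 1263),
    ((9, 1, 6), (0, 8, 4), -817), ((14, 5, 3), (0, 8, 4), 473), ((1, 8, 6), (8, 1, 4), 546), ((7, 14, 13), (8, 1, 4), -862),
    ((8, 5, 3), (3, 4, 8), -395), ((6, 0, 8), (5, 8, 0), 247), ((2, 1, 9), (5, 8, 0), 1080), ((4, 9, 1), (5, 8, 0), -990),
    ((0, 14, 5), (5, 8, 0), 19), ((13, 5, 14), (5, 8, 0), 111), ((8, 1, 10), (1, 8, 7), 2), ((7, 14, 1), (1, 8, 7), 335),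
    ((10, 1, 6), (7, 8, 4), -207), ((12, 5, 3), (7, 8, 4), -498), ((4, 13, 7), (7, 8, 4), 1028), ((0, 8, 9), (9, 1, 0), 743),
    ((14, 5, 4), (9, 1, 0), 695), ((0, 5, 9), (9, 2, 0), -1051), ((4, 1, 14), (9, 2, 0), 215), ((14, 13, 4), (9, 2, 0), 619),
    ((6, 14, 4), (3, 9, 0), 173), ((13, 8, 0), (3, 9, 1), 251), ((6, 14, 5), (3, 9, 1), -649), ((13, 8, 6), (3, 9, 2), 351),
    ((8, 13, 11), (3, 9, 2), 610), ((6, 14, 13), (3, 9, 2), -66), ((6, 0, 9), (4, 9, 0), -667), ((0, 14, 4), (4, 9, 0), 862),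
    ((3, 4, 14), (4, 9, 0), -22), ((13, 5, 8), (3, 4, 9), 1682), ((14, 0, 6), (3, 4, 9), -1249), ((8, 13, 4), (3, 9, 5), 513),
    ((13, 8, 7), (3, 9, 5), -569), ((6, 14, 1), (3, 9, 5), -887), ((6, 14, 3), (3, 9, 6), 589), ((10, 9, 0), (7, 0, 9), -102),
    ((12, 14, 4), (7, 0, 9), -238), ((0, 8, 10), (9, 1, 7), 2), ((0, 5, 10), (9, 2, 7), 2020), ((4, 1, 12), (9, 2, 7), -1609),
    ((6, 0, 10), (4, 9, 7), 198), ((3, 4, 12), (4, 9, 7), 606), ((7, 12, 4), (4, 9, 7), -667), ((7, 8, 9), (9, 5, 7), 214),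
    ((10, 1, 0), (9, 5, 7), -1371), ((0, 2, 10), (9, 5, 7), -3079), ((12, 5, 4), (9, 5, 7), 2169), ((4, 13, 12), (9, 5, 7), -1570),
    ((10, 4, 0), (7, 6, 9), -14), ((12, 0, 4), (7, 6, 9), 17), ((4, 11, 12), (7, 6, 9), -182), ((8, 13, 3), (3, 9, 8), -433),
    ((11, 9, 7), (3, 10, 0), -344), ((6, 12, 4), (3, 10, 0), 982), ((11, 9, 5), (3, 10, 1), -4720), ((6, 12, 5), (3, 10, 1), -923),
    ((13, 2, 0), (3, 10, 1), 3849), ((2, 13, 4), (3, 10, 1), 1438), ((11, 9, 8), (3, 10, 2), 439), ((2, 13, 3), (3, 10, 2), -76),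
    ((13, 2, 6), (3, 10, 2), 3354), ((6, 12, 13), (3, 10, 2), -712), ((4, 11, 9), (4, 10, 3), -2285), ((0, 12, 6), (4, 10, 3), 835),
    ((7, 6, 12), (4, 10, 3), 101), ((1, 13, 2), (4, 10, 3), -765), ((5, 2, 13), (4, 10, 3), -784), ((6, 12, 1), (3, 10, 5), -2447),
    ((13, 2, 7), (3, 10, 5), 1336), ((6, 12, 3), (3, 10, 6), 451), ((10, 9, 7), (7, 0, 10), -402), ((7, 8, 10), (10, 1, 7), -306),
    ((7, 5, 10), (10, 2, 7), -1878), ((7, 6, 10), (10, 4, 7), -602), ((9, 11, 3), (3, 10, 9), -2352), ((13, 2, 8), (3, 10, 9), 246),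
    ((6, 12, 14), (3, 10, 9), 752), ((7, 0, 11), (3, 11, 0), 480), ((5, 1, 11), (3, 11, 1), -927), ((8, 2, 11), (3, 11, 2), -168),
    ((12, 0, 11), (4, 11, 0), -825), ((13, 1, 11), (4, 11, 1), 887), ((5, 2, 11), (4, 11, 2), -1521), ((11, 13, 0), (0, 5, 11), -1949),
    ((7, 6, 11), (4, 11, 6), 381), ((11, 13, 6), (6, 8, 11), -586), ((2, 13, 11), (11, 9, 2), -1141), ((6, 12, 11), (11, 9, 6), 171),
    ((10, 11, 9), (11, 10, 3), -2191), ((2, 5, 12), (12, 0, 2), -823), ((13, 1, 10), (12, 0, 2), -740), ((10, 4, 13), (12, 0, 2), -494),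
    ((7, 12, 2), (1, 2, 12), 619), ((5, 13, 10), (1, 2, 12), -468), ((10, 13, 6), (12, 2, 3), 14), ((10, 13, 0), (12, 2, 4), -350),
    ((2, 13, 10), (6, 12, 2), -48), ((3, 10, 13), (6, 12, 2), -350), ((13, 2, 12), (6, 12, 2), 440), ((13, 1, 9), (12, 0, 8), -469),
    ((2, 5, 14), (12, 0, 8), 772), ((7, 14, 2), (1, 8, 12), -434), ((10, 9, 13), (2, 8, 12), 818), ((12, 14, 2), (2, 8, 12), -36),
    ((9, 13, 7), (12, 8, 4), -235), ((7, 12, 8), (5, 8, 12), 623), ((4, 9, 13), (5, 8, 12), 173), ((5, 13, 9), (5, 8, 12), -1236),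
    ((0, 14, 2), (5, 8, 12), 690), ((1, 2, 14), (5, 8, 12), 473), ((2, 13, 9), (6, 12, 8), -312), ((11, 9, 13), (6, 12, 8), -388),
    ((13, 2, 14), (6, 12, 8), 826), ((10, 4, 14), (12, 0, 9), 1), ((14, 5, 10), (9, 1, 12), 1061), ((14, 13, 10), (9, 2, 12), 19),
    ((6, 14, 10), (3, 9, 12), 61), ((7, 12, 9), (4, 9, 12), 264), ((0, 14, 10), (4, 9, 12), 103), ((10, 1, 14), (9, 5, 12), -1390),
    ((11, 9, 12), (6, 12, 9), -91), ((3, 10, 14), (6, 12, 9), 366), ((9, 13, 12), (12, 8, 9), 1525), ((14, 2, 10), (12, 8, 9), 335),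
    ((10, 4, 12), (12, 0, 10), 439), ((12, 5, 10), (10, 1, 12), -196), ((10, 13, 12), (12, 2, 10), -1166), ((6, 12, 10), (3, 10, 12), 197),
    ((12, 14, 10), (10, 9, 12), 23), ((9, 13, 6), (12, 8, 11), -899), ((14, 2, 3), (12, 8, 11), 577), ((7, 6, 14), (1, 13, 8), 181),
    ((14, 2, 4), (9, 13, 0), 433), ((8, 13, 9), (3, 9, 13), 76), ((13, 8, 12), (3, 9, 13), -222), ((6, 14, 2), (3, 9, 13), 296),
    ((5, 8, 14), (0, 14, 8), -439), ((7, 14, 8), (1, 8, 14), 318), ((12, 14, 8), (2, 8, 14), -234), ((13, 8, 14), (6, 14, 8), -314),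
    ((4, 9, 14), (0, 14, 9), 81), ((14, 5, 9), (9, 1, 14), 848), ((9, 13, 14), (14, 2, 9), -111), ((6, 14, 9), (3, 9, 14), 16),
    ((12, 14, 9), (10, 9, 14), -207)]
  tr := trD
  big := 65536

theorem ct69_valid : validC ct69 = true := by decide +kernel

theorem ct69_const : constOK ct69 11912 = true := by decide +kernel

/-- classes -/
def cs69 : List Cl := [
 cl 1 0 0 0 25479 0 119, cl 1 1 0 1 8746 0 109, cl 2 1 0 1 0 1742 83, cl 2 2 0 0 0 575 88,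
 cl 1 2 0 0 0 11810 132, cl 0 0 1 1 10383 0 134, cl 0 0 2 0 3160 0 423, cl 1 3 0 1 0 2532 115,
 cl 2 3 0 1 2353 0 87, cl 1 0 1 1 0 188 104, cl 1 0 2 0 70 0 112, cl 0 0 3 1 0 2728 133,
 cl 1 0 0 2 0 1503 87, cl 1 2 0 2 0 3704 90, cl 0 0 0 2 0 13261 95, cl 2 0 0 2 0 1143 75,
 cl 2 0 1 1 0 634 80, cl 1 0 2 2 0 0 86, cl 0 0 2 2 5007 0 95, cl 2 0 0 0 0 1595 84,
 cl 2 2 0 2 2377 0 77, cl 1 4 0 2 0 899 92, cl 2 4 0 2 112 0 79, cl 2 4 0 0 0 0 93]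

theorem ct69_link : linkOK ct69 (cs69.map swp) = true := by decide +kernel

theorem cs69_tail0 : tailOK cs69 8 4 100 11912 = true := by decide +kernel

theorem cs69_grid0 : gridOK vtTree cs69 8 4 100 4 0 3955946277 28409 11912 = true := by
  decide +kernel

/-! ### Box 70: `12 ≤ 128 x ≤ 16`, `96 ≤ 128 y ≤ 100` -/

/-- certificate -/
def ct70 : Cert where
  pts := ptsF
  g := 16825
  al := [(0, 909), (1, -709), (2, 2321), (3, 883), (4, 1965), (5, 2321), (6, 7653), (7, 5641), (8, 755), (9, 1067), (10, 2524), (11, 2856), (12, -282), (13, 109), (14, 664)]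
  be := [
    (1, 0, 9389), (2, 0, 2550), (2, 1, 5124), (3, 0, -246), (3, 1, 102), (3, 2, -1294), (4, 0, 3263),
    (4, 1, 7903), (4, 2, -4282), (4, 3, -2217), (5, 0, 4002), (5, 1, 181), (5, 2, 3167), (5, 3, -379),
    (5, 4, -1270), (6, 0, -1505), (6, 1, -5889), (6, 2, -744), (6, 3, -1299), (6, 4, -2619), (6, 5, -1892),
    (7, 0, -4464), (7, 1, -2347), (7, 2, 595), (7, 3, -2321), (7, 4, 223), (7, 5, 766), (7, 6, -1379),
    (8, 0, 466), (8, 1, -2256), (8, 2, -598), (8, 3, 264), (8, 4, 465), (8, 5, -798), (8, 6, -345),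
    (8, 7, 465), (9, 0, -1192), (9, 1, -4644), (9, 2, 594), (9, 3, -261), (9, 4, 66), (9, 5, 1807),
    (9, 6, 1236), (9, 7, -1809), (10, 0, 208), (10, 1, 4721), (10, 2, -2481), (10, 3, 5565), (10, 4, -1152),
    (10, 5, -1566), (10, 7, 1476), (10, 8, -863), (10, 9, -936), (11, 0, 1994), (11, 1, -1508), (11, 2, -1343),
    (11, 3, 417), (11, 4, 2766), (11, 5, -4945), (11, 6, -2497), (11, 7, -498), (11, 9, 519), (11, 10, 322),
    (12, 0, 3745), (12, 1, -2522), (12, 2, 1970), (12, 3, 6526), (12, 4, 1545), (12, 5, 1723), (12, 6, -1671),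
    (12, 7, 1617), (12, 8, -692), (12, 9, -658), (12, 10, 584), (13, 0, -214), (13, 1, 620), (13, 2, 345),
    (13, 3, 4022), (13, 4, 414), (13, 5, -2325), (13, 6, -130), (13, 7, 997), (13, 8, 487), (13, 9, -332),
    (13, 10, -1404), (13, 11, -95), (13, 12, -124), (14, 0, -1581), (14, 1, -2024), (14, 2, 1121), (14, 3, 4809),
    (14, 4, 1016), (14, 5, 1311), (14, 6, -729), (14, 7, -1378), (14, 8, 642), (14, 9, -901), (14, 10, 5164),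
    (14, 11, -191), (14, 12, -464), (14, 13, 3832)]
  ta := [
    ((4, 6, 1), (0, 2, 3), 1510), ((5, 1, 6), (0, 2, 3), -1787), ((1, 7, 4), (0, 2, 3), -2559), ((3, 10, 0), (0, 2, 3), 781),
    ((1, 5, 13), (0, 2, 3), 1603), ((7, 1, 14), (0, 2, 3), 2463), ((13, 14, 1), (0, 2, 3), -2025), ((2, 6, 1), (1, 3, 2), 941),
    ((0, 4, 7), (1, 3, 2), 476), ((7, 10, 0), (1, 3, 2), 1536), ((11, 1, 6), (1, 3, 2), -684), ((12, 0, 10), (1, 3, 2), -960),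
    ((9, 13, 5), (1, 3, 2), 174), ((3, 1, 14), (1, 3, 2), -689), ((6, 4, 2), (0, 2, 4), 1509), ((1, 7, 3), (0, 2, 4), 124),
    ((2, 8, 6), (0, 2, 4), -991), ((10, 3, 7), (0, 2, 4), -1981), ((1, 5, 11), (0, 2, 4), 1447), ((7, 3, 0), (2, 4, 1), 1446),
    ((8, 6, 5), (2, 4, 1), -690), ((11, 5, 6), (2, 4, 1), 4811), ((5, 11, 9), (2, 4, 1), -667), ((3, 7, 14), (2, 4, 1), -1406),
    ((1, 3, 4), (0, 4, 3), -1001), ((1, 11, 13), (0, 4, 3), 194), ((9, 13, 11), (0, 4, 3), 664), ((7, 3, 4), (2, 4, 3), -208),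
    ((5, 11, 13), (2, 4, 3), -245), ((0, 2, 5), (5, 1, 0), -3030), ((7, 1, 9), (5, 1, 0), 7634), ((10, 3, 13), (5, 1, 0), -1765),
    ((13, 14, 10), (5, 1, 0), -1369), ((0, 6, 5), (5, 3, 0), -930), ((7, 11, 9), (5, 3, 0), 423), ((10, 1, 13), (5, 3, 0), 523),
    ((9, 14, 7), (5, 3, 0), 221), ((0, 2, 6), (5, 1, 3), 513), ((6, 4, 0), (5, 1, 3), -307), ((10, 3, 1), (5, 1, 3), -1583),
    ((1, 7, 10), (5, 1, 3), -3702), ((7, 1, 11), (5, 1, 3), 2400), ((2, 0, 12), (5, 1, 3), -989), ((14, 13, 9), (5, 1, 3), 63),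
    ((0, 6, 1), (5, 3, 2), 4126), ((1, 10, 0), (5, 3, 2), -5279), ((11, 7, 4), (5, 3, 2), 274), ((12, 2, 3), (5, 3, 2), -171),
    ((3, 5, 13), (5, 3, 2), 1364), ((9, 14, 1), (5, 3, 2), 629), ((10, 1, 14), (5, 3, 2), -2266), ((9, 13, 7), (0, 4, 5), 221),
    ((10, 7, 13), (0, 4, 5), 596), ((4, 6, 5), (5, 1, 4), 977), ((7, 1, 13), (5, 1, 4), 1160), ((13, 14, 7), (5, 1, 4), -1872),
    ((11, 5, 4), (2, 4, 5), 574), ((3, 7, 13), (2, 4, 5), -2256), ((7, 11, 13), (5, 3, 4), -222), ((5, 3, 6), (0, 6, 3), 855),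
    ((1, 10, 4), (0, 6, 3), -3213), ((7, 11, 14), (0, 6, 3), 737), ((9, 14, 11), (0, 6, 3), 471), ((2, 6, 3), (1, 3, 6), 109),
    ((0, 4, 10), (1, 3, 6), -466), ((7, 10, 4), (1, 3, 6), -1245), ((1, 11, 14), (1, 3, 6), 120), ((3, 10, 4), (4, 6, 3), -220),
    ((13, 14, 11), (4, 6, 3), -604), ((1, 7, 2), (0, 2, 7), -3912), ((2, 8, 1), (0, 2, 7), 1424), ((5, 1, 8), (0, 2, 7), 1441),
    ((2, 4, 7), (7, 3, 2), 110), ((8, 6, 1), (7, 3, 2), 809), ((0, 8, 5), (5, 7, 0), -1072), ((7, 5, 9), (5, 7, 0), 579),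
    ((0, 2, 8), (7, 1, 5), -771), ((0, 8, 1), (5, 7, 2), 1803), ((0, 8, 6), (5, 7, 3), -83), ((7, 5, 11), (5, 7, 3), 561),
    ((7, 5, 13), (5, 7, 4), 42), ((5, 3, 8), (0, 6, 7), 1420), ((1, 10, 2), (0, 6, 7), -2385), ((11, 7, 6), (0, 6, 7), 544),
    ((12, 2, 10), (0, 6, 7), -82), ((3, 5, 14), (0, 6, 7), -1178), ((9, 14, 5), (0, 6, 7), 281), ((4, 6, 7), (1, 7, 6), 89),
    ((2, 8, 3), (1, 7, 6), 839), ((0, 2, 10), (1, 7, 6), -907), ((3, 10, 2), (1, 7, 6), -771), ((1, 5, 14), (1, 7, 6), -898),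
    ((13, 14, 5), (1, 7, 6), -718), ((1, 3, 8), (2, 6, 7), 435), ((7, 10, 2), (2, 6, 7), -101), ((8, 6, 3), (7, 3, 6), 62),
    ((2, 4, 10), (7, 3, 6), 1463), ((5, 11, 14), (7, 3, 6), -365), ((0, 8, 3), (5, 7, 6), -1064), ((7, 5, 14), (5, 7, 6), 949),
    ((6, 4, 8), (2, 8, 4), -21), ((5, 7, 8), (0, 8, 7), -680), ((2, 8, 7), (1, 7, 8), -845), ((8, 6, 7), (7, 3, 8), 402),
    ((12, 3, 13), (0, 1, 9), -4914), ((13, 14, 12), (0, 2, 9), -50), ((9, 5, 2), (2, 1, 9), -823), ((14, 3, 12), (2, 1, 9), -2870),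
    ((12, 10, 14), (2, 1, 9), 40), ((9, 11, 0), (0, 3, 9), -122), ((13, 1, 12), (0, 3, 9), -116), ((11, 1, 0), (3, 1, 9), 1455),
    ((0, 4, 11), (3, 1, 9), -2386), ((12, 0, 1), (3, 1, 9), -439), ((1, 3, 12), (3, 1, 9), -506), ((9, 13, 3), (3, 1, 9), -1090),
    ((14, 1, 12), (2, 3, 9), 299), ((9, 13, 0), (0, 4, 9), 389), ((12, 0, 13), (0, 4, 9), 108), ((9, 11, 4), (4, 1, 9), 139),
    ((13, 1, 0), (4, 1, 9), 184), ((0, 3, 13), (4, 1, 9), -1781), ((13, 11, 0), (4, 3, 9), -144), ((12, 10, 13), (9, 5, 0), 87),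
    ((0, 6, 11), (3, 5, 9), -751), ((11, 7, 0), (3, 5, 9), 383), ((12, 2, 1), (3, 5, 9), 272), ((1, 10, 12), (3, 5, 9), 310),
    ((9, 14, 3), (3, 5, 9), 302), ((13, 7, 0), (4, 5, 9), -58), ((12, 2, 13), (0, 6, 9), -320), ((9, 14, 0), (0, 6, 9), 667),
    ((2, 3, 13), (6, 1, 9), 1423), ((13, 5, 2), (6, 1, 9), 2187), ((14, 1, 0), (6, 1, 9), 1914), ((0, 10, 14), (6, 1, 9), -2232),
    ((9, 13, 2), (2, 6, 9), 2), ((12, 0, 14), (2, 6, 9), 173), ((14, 11, 0), (6, 3, 9), 314), ((0, 2, 13), (4, 6, 9), -740),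
    ((13, 14, 0), (4, 6, 9), 217), ((9, 11, 6), (6, 5, 9), -801), ((13, 1, 2), (6, 5, 9), 1697), ((0, 3, 14), (6, 5, 9), 381),
    ((14, 7, 0), (6, 5, 9), 100), ((11, 5, 0), (3, 7, 9), -519), ((13, 5, 0), (4, 7, 9), -338), ((0, 10, 13), (4, 7, 9), 273),
    ((2, 10, 13), (6, 7, 9), -547), ((14, 5, 0), (6, 7, 9), 150), ((10, 5, 13), (5, 10, 0), 1244), ((10, 3, 5), (5, 1, 10), -1183),
    ((8, 2, 12), (5, 1, 10), -403), ((12, 8, 3), (5, 10, 2), -1609), ((10, 5, 14), (5, 10, 2), -131), ((1, 10, 6), (0, 6, 10), 185),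
    ((7, 10, 6), (2, 6, 10), -486), ((4, 6, 10), (3, 10, 6), 378), ((8, 0, 12), (5, 7, 10), 255), ((3, 10, 8), (2, 8, 10), -973),
    ((12, 8, 10), (5, 10, 8), -111), ((13, 5, 12), (0, 10, 9), -602), ((12, 2, 5), (10, 1, 9), -2589), ((5, 3, 12), (10, 1, 9), -439),
    ((9, 14, 10), (10, 1, 9), 52), ((14, 5, 12), (2, 10, 9), -67), ((5, 1, 12), (10, 3, 9), -414), ((12, 8, 5), (10, 5, 9), -66),
    ((5, 10, 12), (10, 5, 9), -88), ((12, 0, 5), (10, 7, 9), -466), ((9, 13, 10), (10, 7, 9), -22), ((1, 7, 12), (0, 2, 11), 378),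
    ((2, 6, 11), (11, 1, 2), 787), ((12, 0, 7), (11, 1, 2), -2131), ((7, 10, 12), (11, 1, 2), -667), ((3, 11, 9), (11, 3, 0), -168),
    ((12, 4, 1), (11, 3, 0), -110), ((12, 0, 4), (3, 1, 11), -2061), ((12, 4, 7), (11, 3, 2), -334), ((11, 5, 2), (2, 4, 11), 1320),
    ((7, 3, 12), (2, 4, 11), -1478), ((12, 4, 3), (11, 3, 4), -42), ((3, 11, 13), (11, 3, 4), 576), ((3, 7, 11), (11, 5, 3), 212),
    ((4, 2, 12), (11, 5, 3), -573), ((12, 4, 10), (11, 3, 6), 504), ((3, 11, 14), (11, 3, 6), 7), ((12, 2, 7), (11, 7, 2), -291),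
    ((8, 6, 11), (11, 5, 8), -238), ((14, 7, 12), (9, 11, 2), 171), ((12, 6, 1), (11, 10, 0), 1118), ((10, 7, 11), (11, 1, 10), -370),
    ((12, 0, 6), (11, 1, 10), 112), ((6, 2, 12), (11, 1, 10), -301), ((12, 6, 7), (11, 10, 2), -159), ((6, 4, 12), (10, 3, 11), 267),
    ((12, 6, 3), (11, 10, 4), 197), ((10, 11, 14), (11, 10, 4), 67), ((6, 8, 12), (11, 5, 10), 548), ((12, 6, 10), (11, 10, 6), 49),
    ((12, 6, 5), (10, 11, 9), -153), ((9, 13, 12), (12, 0, 9), -328), ((12, 3, 9), (9, 1, 12), -48), ((9, 14, 12), (12, 2, 9), -50),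
    ((12, 10, 9), (9, 5, 12), 237), ((11, 1, 12), (12, 0, 11), 331), ((11, 7, 12), (12, 2, 11), -190), ((12, 4, 11), (11, 3, 12), -554),
    ((11, 10, 12), (12, 6, 11), 62), ((9, 13, 4), (0, 4, 13), 314), ((13, 11, 4), (4, 3, 13), -830), ((4, 7, 13), (13, 5, 4), -289),
    ((9, 14, 4), (0, 6, 13), -473), ((13, 5, 6), (6, 1, 13), 615), ((14, 1, 4), (6, 1, 13), 57), ((4, 7, 14), (6, 1, 13), -911),
    ((9, 13, 6), (2, 6, 13), -4), ((0, 4, 14), (2, 6, 13), -44), ((4, 10, 14), (6, 3, 13), 18), ((14, 11, 4), (6, 3, 13), -717),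
    ((13, 14, 4), (4, 6, 13), 43), ((14, 5, 4), (6, 7, 13), -502), ((14, 7, 2), (13, 1, 8), 110), ((0, 2, 14), (2, 8, 13), 33),
    ((13, 14, 2), (2, 8, 13), -961), ((14, 5, 2), (8, 3, 13), -1520), ((2, 10, 14), (8, 3, 13), 6), ((14, 1, 2), (13, 5, 8), -634),
    ((2, 3, 14), (13, 5, 8), -374), ((2, 4, 14), (8, 6, 13), 663), ((4, 3, 14), (13, 11, 6), 533), ((9, 14, 6), (0, 6, 14), -166),
    ((14, 11, 6), (6, 3, 14), -98), ((13, 14, 6), (4, 6, 14), 268), ((6, 7, 14), (14, 5, 6), -285), ((13, 14, 8), (2, 8, 14), -642),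
    ((14, 5, 8), (8, 3, 14), -9), ((12, 2, 14), (9, 14, 2), 226)]
  tr := trF
  big := 32768

theorem ct70_valid : validC ct70 = true := by decide +kernel

theorem ct70_const : constOK ct70 11885 = true := by decide +kernel

/-- classes -/
def cs70 : List Cl := [
 cl 1 0 0 0 26390 0 119, cl 0 0 1 1 12566 0 137, cl 1 1 0 1 10091 0 111, cl 1 0 1 1 0 0 103,
 cl 0 0 2 0 3408 0 274, cl 0 0 2 2 3194 0 97, cl 2 0 0 0 0 1316 84, cl 1 2 0 0 0 11101 137,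
 cl 2 1 0 1 0 18 84, cl 2 2 0 0 0 0 90, cl 1 2 0 2 0 3973 92, cl 0 0 0 2 0 11893 97,
 cl 1 3 0 1 0 4927 120, cl 1 0 0 2 1 0 89, cl 2 3 0 1 2494 0 89, cl 0 0 1 3 465 0 79,
 cl 2 2 0 2 414 0 78, cl 0 0 3 1 0 3607 133, cl 1 0 2 0 787 0 109, cl 1 4 0 0 0 0 168,
 cl 2 4 0 0 0 729 97, cl 1 3 0 3 465 0 78, cl 1 4 0 2 0 863 95, cl 1 1 0 3 0 0 77,
 cl 2 4 0 2 642 0 82, cl 2 0 1 1 0 658 80, cl 1 0 2 2 0 0 86]

theorem ct70_link : linkOK ct70 (cs70.map swp) = true := by decide +kernel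

theorem cs70_tail0 : tailOK cs70 12 4 96 11885 = true := by decide +kernel

theorem cs70_grid0 : gridOK vtTree cs70 12 4 96 4 0 10722597438 30072 11885 = true := by
  decide +kernel

end Pool.Agent.H79.OC
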