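import Pool.Agent.H79.OC.Pts
import Pool.Agent.H79.OC.Pts2
import Pool.Agent.H79.OC.VTab
import Pool.Agent.H79.OC.Swp

set_option autoImplicit false
set_option maxRecDepth 100000

/-!
# Certificates, part 37
-/

namespace Pool.Agent.H79.OC

open Cl

/-! ### Box 71: `16 ≤ 128 x ≤ 20`, `92 ≤ 128 y ≤ 96` -/

/-- certificate -/
def ct71 : Cert where
  pts := ptsF
  g := 17295
  al := [(0, -18), (1, 1135), (2, -320), (3, 2099), (4, 3780), (5, 1708), (6, 7121), (7, 6446), (8, 197), (9, 2271), (10, 1267), (11, 2209), (12, -23), (13, -170), (14, 485)]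
  be := [
    (1, 0, 10112), (2, 0, 3254), (2, 1, 6426), (3, 0, 737), (3, 1, -888), (3, 2, -964), (4, 0, 3188),
    (4, 1, 5896), (4, 2, -5266), (4, 3, -2522), (5, 0, 3428), (5, 1, 1730), (5, 2, 5378), (5, 3, -1272),
    (5, 4, -1028), (6, 0, -1554), (6, 1, -5538), (6, 2, 1213), (6, 3, 43), (6, 4, -2949), (6, 5, -1107),
    (7, 0, -3983), (7, 1, -3729), (7, 2, 1028), (7, 3, -2802), (7, 4, -7), (7, 5, 972), (7, 6, -1153),
    (8, 0, 648), (8, 1, -2256), (8, 2, -94), (8, 3, 374), (8, 4, 657), (8, 5, -740), (8, 6, -336),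
    (8, 7, 657), (9, 0, -1617), (9, 1, -6098), (9, 2, 778), (9, 3, -602), (9, 4, -662), (9, 5, 1141),
    (9, 6, 278), (9, 7, -2100), (9, 8, -59), (10, 0, 98), (10, 1, 4442), (10, 2, -2699), (10, 3, 5156),
    (10, 4, -1917), (10, 5, -1281), (10, 6, 182), (10, 7, 2062), (10, 8, -810), (10, 9, -459), (11, 0, 3200),
    (11, 1, -1484), (11, 2, 179), (11, 3, 3), (11, 4, 1879), (11, 5, -4444), (11, 6, -2533), (11, 7, -471),
    (11, 9, 585), (11, 10, 517), (12, 0, 3321), (12, 1, -3330), (12, 2, 3128), (12, 3, 6144), (12, 4, 1754),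
    (12, 5, 1714), (12, 6, -1435), (12, 7, 279), (12, 8, -435), (12, 9, -653), (12, 10, -91), (13, 0, 476),
    (13, 1, -70), (13, 2, 603), (13, 3, 3874), (13, 4, 59), (13, 5, -1661), (13, 6, -3), (13, 7, 570),
    (13, 8, 555), (13, 9, -1245), (13, 10, -597), (13, 11, 254), (13, 12, 274), (14, 0, -882), (14, 1, -2773),
    (14, 2, 1544), (14, 3, 3430), (14, 4, 1407), (14, 5, 1705), (14, 6, -971), (14, 7, -1739), (14, 8, 565),
    (14, 9, -463), (14, 10, 6224), (14, 11, -361), (14, 12, -592), (14, 13, 3390)]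
  ta := [
    ((4, 6, 1), (0, 2, 3), 2053), ((5, 1, 6), (0, 2, 3), -2937), ((1, 7, 4), (0, 2, 3), -2544), ((3, 10, 0), (0, 2, 3), 932),
    ((1, 5, 13), (0, 2, 3), 1330), ((7, 1, 14), (0, 2, 3), 2555), ((13, 14, 1), (0, 2, 3), -1685), ((2, 6, 1), (1, 3, 2), -211),
    ((0, 4, 7), (1, 3, 2), -39), ((7, 10, 0), (1, 3, 2), 1524), ((11, 1, 6), (1, 3, 2), -750), ((12, 0, 10), (1, 3, 2), -491),
    ((9, 13, 5), (1, 3, 2), 254), ((3, 1, 14), (1, 3, 2), -40), ((6, 4, 2), (0, 2, 4), 2221), ((1, 7, 3), (0, 2, 4), 741),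
    ((2, 8, 6), (0, 2, 4), -1060), ((10, 3, 7), (0, 2, 4), -2618), ((1, 5, 11), (0, 2, 4), 873), ((7, 3, 0), (2, 4, 1), 1672),
    ((8, 6, 5), (2, 4, 1), -721), ((11, 5, 6), (2, 4, 1), 5060), ((5, 11, 9), (2, 4, 1), -799), ((3, 7, 14), (2, 4, 1), -1418),
    ((1, 3, 4), (0, 4, 3), -1075), ((1, 11, 13), (0, 4, 3), 624), ((9, 13, 11), (0, 4, 3), 675), ((7, 3, 4), (2, 4, 3), -455),
    ((5, 11, 13), (2, 4, 3), -499), ((0, 2, 5), (5, 1, 0), -3138), ((7, 1, 9), (5, 1, 0), 7997), ((10, 3, 13), (5, 1, 0), -1632),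
    ((13, 14, 10), (5, 1, 0), -1278), ((0, 6, 5), (5, 3, 0), -617), ((7, 11, 9), (5, 3, 0), 178), ((10, 1, 13), (5, 3, 0), 171),
    ((9, 14, 7), (5, 3, 0), 342), ((0, 2, 6), (5, 1, 3), 97), ((6, 4, 0), (5, 1, 3), -96), ((10, 3, 1), (5, 1, 3), -1364),
    ((1, 7, 10), (5, 1, 3), -3463), ((7, 1, 11), (5, 1, 3), 1850), ((2, 0, 12), (5, 1, 3), -839), ((14, 13, 9), (5, 1, 3), -164),
    ((0, 6, 1), (5, 3, 2), 4303), ((1, 10, 0), (5, 3, 2), -4723), ((11, 7, 4), (5, 3, 2), 386), ((12, 2, 3), (5, 3, 2), -754),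
    ((3, 5, 13), (5, 3, 2), 1611), ((9, 14, 1), (5, 3, 2), 864), ((10, 1, 14), (5, 3, 2), -2708), ((9, 13, 7), (0, 4, 5), 126),
    ((10, 7, 13), (0, 4, 5), 195), ((4, 6, 5), (5, 1, 4), 1080), ((7, 1, 13), (5, 1, 4), 1527), ((13, 14, 7), (5, 1, 4), -1547),
    ((11, 5, 4), (2, 4, 5), 786), ((3, 7, 13), (2, 4, 5), -2240), ((7, 11, 13), (5, 3, 4), -137), ((5, 3, 6), (0, 6, 3), 413),
    ((1, 10, 4), (0, 6, 3), -2475), ((7, 11, 14), (0, 6, 3), 1028), ((9, 14, 11), (0, 6, 3), 78), ((2, 6, 3), (1, 3, 6), -420),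
    ((0, 4, 10), (1, 3, 6), -185), ((7, 10, 4), (1, 3, 6), -1345), ((1, 11, 14), (1, 3, 6), 480), ((3, 10, 4), (4, 6, 3), 272),
    ((13, 14, 11), (4, 6, 3), -522), ((1, 7, 2), (0, 2, 7), -3793), ((2, 8, 1), (0, 2, 7), 1441), ((5, 1, 8), (0, 2, 7), 1370),
    ((2, 4, 7), (7, 3, 2), 629), ((8, 6, 1), (7, 3, 2), 728), ((0, 8, 5), (5, 7, 0), -1134), ((7, 5, 9), (5, 7, 0), 718),
    ((0, 2, 8), (7, 1, 5), -1103), ((0, 8, 1), (5, 7, 2), 2160), ((0, 8, 6), (5, 7, 3), -83), ((7, 5, 11), (5, 7, 3), 525),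
    ((7, 5, 13), (5, 7, 4), -40), ((5, 3, 8), (0, 6, 7), 1563), ((1, 10, 2), (0, 6, 7), -2030), ((11, 7, 6), (0, 6, 7), 523),
    ((12, 2, 10), (0, 6, 7), -705), ((3, 5, 14), (0, 6, 7), -792), ((9, 14, 5), (0, 6, 7), 427), ((4, 6, 7), (1, 7, 6), -165),
    ((2, 8, 3), (1, 7, 6), 693), ((0, 2, 10), (1, 7, 6), -738), ((3, 10, 2), (1, 7, 6), -439), ((1, 5, 14), (1, 7, 6), -1370),
    ((13, 14, 5), (1, 7, 6), -675), ((1, 3, 8), (2, 6, 7), 455), ((7, 10, 2), (2, 6, 7), 174), ((8, 6, 3), (7, 3, 6), 70),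
    ((2, 4, 10), (7, 3, 6), 1535), ((5, 11, 14), (7, 3, 6), -129), ((0, 8, 3), (5, 7, 6), -1051), ((7, 5, 14), (5, 7, 6), 1110),
    ((6, 4, 8), (2, 8, 4), 50), ((5, 7, 8), (0, 8, 7), -769), ((2, 8, 7), (1, 7, 8), -1028), ((8, 6, 7), (7, 3, 8), 297),
    ((12, 3, 13), (0, 1, 9), -5487), ((13, 14, 12), (0, 2, 9), -46), ((9, 5, 2), (2, 1, 9), -1217), ((14, 3, 12), (2, 1, 9), -2378),
    ((12, 10, 14), (2, 1, 9), -35), ((9, 11, 0), (0, 3, 9), 109), ((13, 1, 12), (0, 3, 9), -16), ((11, 1, 0), (3, 1, 9), 393),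
    ((0, 4, 11), (3, 1, 9), -2165), ((12, 0, 1), (3, 1, 9), 359), ((1, 3, 12), (3, 1, 9), -1108), ((9, 13, 3), (3, 1, 9), -699),
    ((14, 1, 12), (2, 3, 9), 453), ((9, 13, 0), (0, 4, 9), 769), ((12, 0, 13), (0, 4, 9), -538), ((9, 11, 4), (4, 1, 9), 375),
    ((13, 1, 0), (4, 1, 9), -128), ((0, 3, 13), (4, 1, 9), -2529), ((13, 11, 0), (4, 3, 9), -319), ((0, 7, 9), (9, 5, 0), -272),
    ((12, 10, 13), (9, 5, 0), 67), ((0, 6, 11), (3, 5, 9), -999), ((11, 7, 0), (3, 5, 9), -42), ((12, 2, 1), (3, 5, 9), -1),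
    ((1, 10, 12), (3, 5, 9), 696), ((9, 14, 3), (3, 5, 9), 351), ((13, 7, 0), (4, 5, 9), -190), ((12, 2, 13), (0, 6, 9), -574),
    ((9, 14, 0), (0, 6, 9), 499), ((2, 3, 13), (6, 1, 9), 1489), ((13, 5, 2), (6, 1, 9), 2383), ((14, 1, 0), (6, 1, 9), 1685),
    ((0, 10, 14), (6, 1, 9), -2238), ((9, 13, 2), (2, 6, 9), 223), ((12, 0, 14), (2, 6, 9), 186), ((14, 11, 0), (6, 3, 9), 149),
    ((0, 2, 13), (4, 6, 9), -798), ((13, 14, 0), (4, 6, 9), 142), ((9, 11, 6), (6, 5, 9), -619), ((13, 1, 2), (6, 5, 9), 2188),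
    ((0, 3, 14), (6, 5, 9), 364), ((14, 7, 0), (6, 5, 9), -252), ((11, 5, 0), (3, 7, 9), -462), ((13, 5, 0), (4, 7, 9), -424),
    ((0, 10, 13), (4, 7, 9), -30), ((2, 10, 13), (6, 7, 9), -789), ((14, 5, 0), (6, 7, 9), 177), ((10, 5, 13), (5, 10, 0), 1084),
    ((10, 3, 5), (5, 1, 10), -996), ((8, 2, 12), (5, 1, 10), -568), ((12, 8, 3), (5, 10, 2), -1695), ((10, 5, 14), (5, 10, 2), -351),
    ((1, 10, 6), (0, 6, 10), -81), ((7, 10, 6), (2, 6, 10), -529), ((4, 6, 10), (3, 10, 6), 442), ((8, 0, 12), (5, 7, 10), 207),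
    ((3, 10, 8), (2, 8, 10), -1092), ((12, 8, 10), (5, 10, 8), -282), ((13, 5, 12), (0, 10, 9), -292), ((12, 2, 5), (10, 1, 9), -2842),
    ((5, 3, 12), (10, 1, 9), -232), ((9, 14, 10), (10, 1, 9), 395), ((14, 5, 12), (2, 10, 9), 35), ((5, 1, 12), (10, 3, 9), -513),
    ((12, 8, 5), (10, 5, 9), -55), ((5, 10, 12), (10, 5, 9), -112), ((12, 0, 5), (10, 7, 9), -675), ((9, 13, 10), (10, 7, 9), -244),
    ((1, 7, 12), (0, 2, 11), 1032), ((2, 6, 11), (11, 1, 2), -367), ((12, 0, 7), (11, 1, 2), -879), ((7, 10, 12), (11, 1, 2), 389),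
    ((3, 11, 9), (11, 3, 0), -197), ((12, 4, 1), (11, 3, 0), 383), ((12, 0, 4), (3, 1, 11), -2015), ((12, 4, 7), (11, 3, 2), -773),
    ((11, 5, 2), (2, 4, 11), -303), ((7, 3, 12), (2, 4, 11), 85), ((12, 4, 3), (11, 3, 4), -121), ((3, 11, 13), (11, 3, 4), 586),
    ((3, 7, 11), (11, 5, 3), 296), ((4, 2, 12), (11, 5, 3), -637), ((12, 4, 10), (11, 3, 6), 363), ((3, 11, 14), (11, 3, 6), 437),
    ((12, 2, 7), (11, 7, 2), -562), ((8, 6, 11), (11, 5, 8), -38), ((14, 7, 12), (9, 11, 2), 151), ((12, 6, 1), (11, 10, 0), 1046),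
    ((10, 7, 11), (11, 1, 10), -263), ((12, 0, 6), (11, 1, 10), 3), ((6, 2, 12), (11, 1, 10), -369), ((12, 6, 7), (11, 10, 2), -102),
    ((6, 4, 12), (10, 3, 11), 87), ((12, 6, 3), (11, 10, 4), -24), ((10, 11, 14), (11, 10, 4), -73), ((6, 8, 12), (11, 5, 10), 565),
    ((12, 6, 10), (11, 10, 6), 101), ((12, 6, 5), (10, 11, 9), -67), ((9, 13, 12), (12, 0, 9), -167), ((12, 3, 9), (9, 1, 12), -380),
    ((9, 14, 12), (12, 2, 9), -168), ((12, 10, 9), (9, 5, 12), 51), ((11, 1, 12), (12, 0, 11), 609), ((11, 7, 12), (12, 2, 11), -484),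
    ((12, 4, 11), (11, 3, 12), -345), ((11, 10, 12), (12, 6, 11), 112), ((9, 13, 4), (0, 4, 13), 463), ((13, 11, 4), (4, 3, 13), -910),
    ((4, 7, 13), (13, 5, 4), 275), ((9, 14, 4), (0, 6, 13), -662), ((13, 5, 6), (6, 1, 13), 252), ((14, 1, 4), (6, 1, 13), 862),
    ((4, 7, 14), (6, 1, 13), -1224), ((9, 13, 6), (2, 6, 13), 424), ((0, 4, 14), (2, 6, 13), -388), ((4, 10, 14), (6, 3, 13), 326),
    ((14, 11, 4), (6, 3, 13), -627), ((13, 14, 4), (4, 6, 13), 338), ((14, 5, 4), (6, 7, 13), -990), ((14, 7, 2), (13, 1, 8), 303),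
    ((0, 2, 14), (2, 8, 13), 156), ((13, 14, 2), (2, 8, 13), -962), ((14, 5, 2), (8, 3, 13), -1932), ((2, 10, 14), (8, 3, 13), 577),
    ((14, 1, 2), (13, 5, 8), -761), ((2, 3, 14), (13, 5, 8), -144), ((2, 4, 14), (8, 6, 13), 462), ((4, 3, 14), (13, 11, 6), 559),
    ((9, 14, 6), (0, 6, 14), -97), ((14, 11, 6), (6, 3, 14), -3), ((13, 14, 6), (4, 6, 14), 550), ((6, 7, 14), (14, 5, 6), -328),
    ((13, 14, 8), (2, 8, 14), -603), ((14, 5, 8), (8, 3, 14), 187), ((12, 2, 14), (9, 14, 2), 221)]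
  tr := trF
  big := 32768

theorem ct71_valid : validC ct71 = true := by decide +kernel

theorem ct71_const : constOK ct71 11979 = true := by decide +kernel

/-- classes -/
def cs71 : List Cl := [
 cl 1 0 0 0 27513 0 119, cl 0 0 1 1 12925 0 139, cl 1 1 0 1 7952 0 113, cl 1 0 1 1 0 1 103,
 cl 0 0 2 0 3810 0 237, cl 0 0 2 2 3377 0 99, cl 2 0 0 0 0 1343 84, cl 1 2 0 0 0 10845 143,
 cl 2 1 0 1 0 0 85, cl 2 2 0 0 0 1 92, cl 1 2 0 2 0 3496 94, cl 0 0 0 2 0 12848 99,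
 cl 1 3 0 1 0 4008 126, cl 1 0 0 2 0 0 90, cl 2 3 0 1 3503 0 92, cl 0 0 1 3 657 0 81,
 cl 2 2 0 2 0 0 80, cl 0 0 3 1 0 2634 132, cl 1 0 2 0 1255 0 106, cl 1 4 0 0 182 0 194,
 cl 2 4 0 0 0 971 101, cl 1 3 0 3 657 0 80, cl 1 4 0 2 0 810 98, cl 1 1 0 3 0 0 78,
 cl 2 4 0 2 565 0 84, cl 2 0 1 1 0 653 80, cl 1 0 2 2 0 0 86]

theorem ct71_link : linkOK ct71 (cs71.map swp) = true := by decide +kernel

theorem cs71_tail0 : tailOK cs71 16 3 92 11979 = true := by decide +kernel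

theorem cs71_grid0 : gridOK vtTree cs71 16 3 92 4 0 13713861806 29931 11979 = true := by
  decide +kernel

theorem cs71_tail1 : tailOK cs71 19 1 92 11979 = true := by decide +kernel

theorem cs71_grid1 : gridOK vtTree cs71 19 1 92 3 0 13713861806 29931 11979 = true := by
  decide +kernel

/-! ### Box 72: `0 ≤ 128 x ≤ 1`, `0 ≤ 128 y ≤ 8` -/

/-- certificate -/
def ct72 : Cert where
  pts := pts14
  g := 10020
  al := [(0, -1316), (1, -1265), (2, -1265), (3, 2081), (4, 1723), (5, -804), (6, -804), (7, -2615), (8, 1314), (9, 2419), (10, 2419), (11, 547), (12, 1607), (13, 1607)]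
  be := [
    (1, 0, 1743), (2, 0, 1743), (2, 1, -2002), (3, 0, 1760), (3, 1, 1823), (3, 2, 1823), (4, 0, 2154),
    (4, 1, 4451), (4, 2, 4451), (4, 3, -5438), (5, 0, -267), (5, 1, 6820), (5, 2, 2032), (5, 3, 4608),
    (5, 4, 4947), (6, 0, -267), (6, 1, 2032), (6, 2, 6820), (6, 3, 4608), (6, 4, 4947), (6, 5, -1460),
    (7, 0, 81), (7, 1, 3130), (7, 2, 3130), (7, 3, 8547), (7, 4, 1812), (7, 5, -60), (7, 6, -60),
    (8, 0, -8), (8, 1, -453), (8, 2, -453), (8, 4, 5955), (8, 5, 2317), (8, 6, 2317), (8, 7, -3796),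
    (9, 0, 33), (9, 1, 26), (9, 3, -620), (9, 4, -2746), (9, 5, -1076), (9, 6, -1613), (9, 7, -518),
    (9, 8, 1300), (10, 0, 33), (10, 2, 26), (10, 3, -620), (10, 4, -2746), (10, 5, -1613), (10, 6, -1076),
    (10, 7, -518), (10, 8, 1300), (10, 9, 15), (11, 1, -33), (11, 2, -33), (11, 3, -44), (11, 4, -81),
    (11, 5, 3), (11, 6, 3), (11, 7, 2012), (11, 8, -100), (11, 9, 820), (11, 10, 820), (12, 0, -551),
    (12, 1, -1618), (12, 3, -2409), (12, 4, -2530), (12, 5, -1826), (12, 7, 1656), (12, 8, 132), (12, 9, -1310),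
    (13, 0, -551), (13, 2, -1618), (13, 3, -2409), (13, 4, -2530), (13, 6, -1826), (13, 7, 1656), (13, 8, 132),
    (13, 10, -1310)]
  ta := [
    ((3, 2, 1), (0, 1, 2), 1052), ((4, 5, 6), (0, 1, 2), -4626), ((7, 6, 5), (0, 1, 2), 2608), ((8, 9, 10), (0, 1, 2), -26),
    ((11, 10, 9), (0, 1, 2), -135), ((5, 4, 12), (0, 1, 2), 777), ((6, 13, 4), (0, 1, 2), 777), ((3, 2, 0), (0, 1, 3), -995),
    ((4, 5, 7), (0, 1, 3), 2203), ((7, 6, 4), (0, 1, 3), 2203), ((8, 9, 11), (0, 1, 3), -1208), ((11, 10, 8), (0, 1, 3), -1208),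
    ((6, 5, 3), (1, 2, 4), -854), ((5, 6, 8), (1, 2, 4), -3311), ((10, 9, 7), (1, 2, 4), 751), ((4, 12, 1), (1, 2, 4), 1424),
    ((13, 4, 2), (1, 2, 4), 1424), ((7, 4, 3), (0, 3, 4), 481), ((4, 7, 8), (0, 3, 4), -1216), ((11, 8, 7), (0, 3, 4), 427),
    ((6, 4, 3), (1, 3, 4), 352), ((5, 7, 8), (1, 3, 4), 343), ((10, 8, 7), (1, 3, 4), -642), ((5, 4, 3), (2, 3, 4), 352),
    ((6, 7, 8), (2, 3, 4), 343), ((9, 8, 7), (2, 3, 4), -642), ((5, 4, 0), (0, 1, 5), -1192), ((2, 3, 7), (0, 1, 5), -3877),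
    ((7, 6, 2), (0, 1, 5), 343), ((4, 5, 9), (0, 1, 5), 1385), ((9, 8, 4), (0, 1, 5), -665), ((6, 7, 11), (0, 1, 5), -1391),
    ((11, 10, 6), (0, 1, 5), -1300), ((13, 6, 10), (0, 1, 5), 6678), ((7, 5, 2), (0, 2, 5), -1333), ((4, 6, 9), (0, 2, 5), 752),
    ((11, 9, 6), (0, 2, 5), 164), ((5, 12, 0), (0, 2, 5), 286), ((10, 8, 13), (0, 2, 5), 579), ((6, 5, 2), (1, 2, 5), -2475),
    ((5, 6, 9), (1, 2, 5), 164), ((10, 9, 6), (1, 2, 5), -69), ((4, 12, 0), (1, 2, 5), 1271), ((4, 13, 8), (1, 2, 5), 558),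
    ((7, 4, 2), (0, 3, 5), -2310), ((4, 7, 9), (0, 3, 5), 2415), ((11, 8, 6), (0, 3, 5), -198), ((5, 4, 2), (2, 3, 5), -3405),
    ((6, 7, 9), (2, 3, 5), 1410), ((9, 8, 6), (2, 3, 5), -1054), ((0, 1, 12), (2, 3, 5), -103), ((13, 6, 8), (2, 3, 5), 4905),
    ((7, 6, 1), (0, 1, 6), -1333), ((4, 5, 10), (0, 1, 6), 752), ((11, 10, 5), (0, 1, 6), 164), ((9, 8, 12), (0, 1, 6), 579),
    ((6, 13, 0), (0, 1, 6), 286), ((6, 4, 0), (0, 2, 6), -1192), ((1, 3, 7), (0, 2, 6), -3877), ((7, 5, 1), (0, 2, 6), 343),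
    ((4, 6, 10), (0, 2, 6), 1385), ((10, 8, 4), (0, 2, 6), -665), ((5, 7, 11), (0, 2, 6), -1391), ((11, 9, 5), (0, 2, 6), -1300),
    ((12, 5, 9), (0, 2, 6), 6678), ((6, 5, 1), (1, 2, 6), -2475), ((5, 6, 10), (1, 2, 6), 164), ((10, 9, 5), (1, 2, 6), -69),
    ((12, 4, 8), (1, 2, 6), 558), ((13, 4, 0), (1, 2, 6), 1271), ((7, 4, 1), (0, 3, 6), -2310), ((4, 7, 10), (0, 3, 6), 2415),
    ((11, 8, 5), (0, 3, 6), -198), ((6, 4, 1), (1, 3, 6), -3405), ((5, 7, 10), (1, 3, 6), 1410), ((10, 8, 5), (1, 3, 6), -1054),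
    ((12, 5, 8), (1, 3, 6), 4905), ((0, 2, 13), (1, 3, 6), -103), ((1, 2, 7), (6, 5, 0), -889), ((10, 9, 4), (6, 5, 0), 191),
    ((5, 6, 11), (6, 5, 0), 298), ((12, 4, 9), (6, 5, 0), 169), ((4, 13, 10), (6, 5, 0), 169), ((7, 6, 0), (0, 1, 7), 428),
    ((4, 5, 11), (0, 1, 7), -286), ((11, 10, 4), (0, 1, 7), 297), ((7, 5, 0), (0, 2, 7), 428), ((4, 6, 11), (0, 2, 7), -286),
    ((11, 9, 4), (0, 2, 7), 297), ((7, 4, 0), (0, 3, 7), -434), ((4, 7, 11), (0, 3, 7), 521), ((11, 8, 4), (0, 3, 7), -348),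
    ((9, 8, 1), (0, 1, 8), -317), ((2, 3, 10), (0, 1, 8), 309), ((11, 10, 3), (0, 1, 8), 154), ((1, 3, 9), (0, 2, 8), 309),
    ((10, 8, 2), (0, 2, 8), -317), ((11, 9, 3), (0, 2, 8), 154), ((10, 9, 3), (1, 2, 8), -448), ((11, 8, 3), (0, 3, 8), 36),
    ((10, 8, 3), (1, 3, 8), 45), ((9, 8, 3), (2, 3, 8), 45), ((1, 5, 9), (0, 4, 8), 2287), ((2, 6, 10), (0, 4, 8), 2287),
    ((3, 7, 11), (0, 4, 8), -2436), ((8, 5, 1), (1, 4, 8), 955), ((3, 6, 10), (1, 4, 8), 1620), ((10, 7, 3), (1, 4, 8), -827),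
    ((8, 6, 2), (2, 4, 8), 955), ((3, 5, 9), (2, 4, 8), 1620), ((9, 7, 3), (2, 4, 8), -827), ((8, 7, 3), (3, 4, 8), 1201),
    ((1, 4, 9), (8, 5, 0), 19), ((10, 7, 2), (8, 5, 0), -391), ((3, 6, 11), (8, 5, 0), -173), ((2, 13, 10), (8, 5, 0), 602),
    ((9, 6, 3), (2, 5, 8), 19), ((8, 13, 2), (2, 5, 8), 148), ((9, 7, 1), (8, 6, 0), -391), ((2, 4, 10), (8, 6, 0), 19),
    ((3, 5, 11), (8, 6, 0), -173), ((1, 12, 9), (8, 6, 0), 602), ((3, 5, 10), (8, 6, 1), 19), ((1, 12, 8), (8, 6, 1), 148),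
    ((3, 4, 11), (8, 7, 0), 58), ((3, 4, 10), (8, 7, 1), 77), ((3, 4, 9), (8, 7, 2), 77), ((9, 8, 0), (0, 1, 9), 3),
    ((2, 3, 11), (0, 1, 9), 5), ((11, 10, 2), (0, 1, 9), 71), ((11, 9, 2), (0, 2, 9), 89), ((10, 9, 2), (1, 2, 9), -190),
    ((11, 8, 2), (0, 3, 9), 24), ((9, 8, 2), (2, 3, 9), -31), ((9, 5, 0), (0, 4, 9), 115), ((2, 6, 11), (0, 4, 9), -107),
    ((11, 7, 2), (0, 4, 9), 171), ((9, 7, 2), (2, 4, 9), 268), ((9, 6, 2), (2, 5, 9), 108), ((2, 5, 11), (9, 6, 0), -67),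
    ((0, 12, 9), (9, 6, 0), 248), ((2, 5, 10), (9, 6, 1), -266), ((0, 12, 8), (9, 6, 1), 266), ((8, 13, 0), (9, 6, 1), 266),
    ((2, 4, 11), (9, 7, 0), 11), ((11, 10, 1), (0, 1, 10), 89), ((10, 8, 0), (0, 2, 10), 3), ((1, 3, 11), (0, 2, 10), 5),
    ((11, 9, 1), (0, 2, 10), 71), ((10, 9, 1), (1, 2, 10), -190), ((11, 8, 1), (0, 3, 10), 24), ((10, 8, 1), (1, 3, 10), -31),
    ((10, 6, 0), (0, 4, 10), 115), ((1, 5, 11), (0, 4, 10), -107), ((11, 7, 1), (0, 4, 10), 171), ((10, 7, 1), (1, 4, 10), 268),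
    ((11, 6, 1), (0, 5, 10), -67), ((10, 13, 0), (0, 5, 10), 248), ((10, 6, 1), (1, 5, 10), -108), ((1, 4, 11), (10, 7, 0), 11),
    ((1, 2, 11), (10, 9, 0), 11), ((5, 12, 2), (0, 2, 12), -183), ((4, 12, 2), (1, 2, 12), -653), ((5, 12, 3), (1, 3, 12), -2409),
    ((12, 6, 9), (6, 12, 0), -120), ((12, 6, 8), (6, 12, 1), -889), ((6, 5, 12), (12, 4, 6), 769), ((12, 7, 9), (7, 12, 1), 558),
    ((10, 9, 12), (12, 4, 10), -532), ((10, 8, 12), (12, 5, 10), -244), ((6, 13, 1), (0, 1, 13), -183), ((13, 4, 1), (1, 2, 13), -653),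
    ((6, 13, 3), (2, 3, 13), -2409), ((5, 13, 10), (13, 5, 0), -120), ((5, 13, 8), (13, 5, 2), -889), ((6, 13, 5), (4, 5, 13), 769),
    ((13, 7, 10), (7, 13, 2), 558), ((10, 9, 13), (4, 13, 9), -532), ((9, 8, 13), (13, 6, 9), -244), ((12, 13, 8), (13, 12, 0), 239)]
  tr := tr14
  big := 32768

theorem ct72_valid : validC ct72 = true := by decide +kernel

theorem ct72_const : constOK ct72 17044 = true := by decide +kernel

/-- small classes -/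
def sm72 : List Cl := [
 cl 0 0 1 1 17494 0 119, cl 0 0 2 0 3472 0 423, cl 0 0 0 2 0 8507 84, cl 0 0 1 3 0 0 69,
 cl 0 0 2 2 3312 0 84, cl 0 0 0 4 0 0 60]

/-- big classes -/
def bg72 : List Cl := [
 cl 1 0 0 0 30156 0 119, cl 1 0 1 1 0 2380 119, cl 1 0 2 0 0 0 119, cl 2 0 0 0 0 0 84,
 cl 2 0 1 1 0 0 84, cl 2 0 2 0 0 0 84, cl 1 0 0 2 0 0 119, cl 1 1 0 1 18480 0 119,
 cl 2 1 0 1 0 2146 84, cl 2 0 0 2 0 0 84, cl 1 1 0 3 0 0 119, cl 1 2 0 0 0 9234 120,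
 cl 2 2 0 0 0 0 85, cl 1 2 0 2 0 4818 120, cl 1 0 1 3 0 0 119, cl 1 0 2 2 0 0 119]

theorem ct72_link : linkOK ct72 ((sm72 ++ bg72).map swp) = true := by decide +kernel

theorem sm72_zero : (sm72.all fun c => decide (c.i = 0)) = true := by decide +kernel

theorem bg72_tail : tailOK bg72 0 1 0 7752 = true := by decide +kernel

theorem sm72_tail : tailOK sm72 0 5 128 9292 = true := by decide +kernel

theorem cs72_grid : gridOK vtTree (sm72 ++ bg72) 0 1 0 8 0 30399947611 20681 17044 = true := by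
  decide +kernel

theorem sm72_grid : gridOK vtTree sm72 0 5 128 0 0 6906279399 8887 9292 = true := by
  decide +kernel

end Pool.Agent.H79.OC
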