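import Pool.Agent.H79.OC.Pts
import Pool.Agent.H79.OC.Pts2
import Pool.Agent.H79.OC.VTab
import Pool.Agent.H79.OC.Swp

set_option autoImplicit false
set_option maxRecDepth 100000

/-!
# Certificates, part 38
-/

namespace Pool.Agent.H79.OC

open Cl

/-! ### Box 73: `0 ≤ 128 x ≤ 2`, `8 ≤ 128 y ≤ 16` -/

/-- certificate -/
def ct73 : Cert where
  pts := pts14
  g := 19547
  al := [(0, -1605), (1, 2183), (2, 2183), (3, 7784), (4, 9417), (5, 1917), (6, 1917), (7, 1948), (8, 2180), (9, 648), (10, 648), (11, -2017), (12, 3025), (13, 3025)]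
  be := [
    (1, 0, 3981), (2, 0, 3981), (2, 1, -5253), (3, 0, 4114), (3, 1, -1933), (3, 2, -1933), (4, 0, 1907),
    (4, 1, 2907), (4, 2, 2907), (4, 3, -7872), (5, 0, -822), (5, 1, 8387), (5, 2, 702), (5, 3, 5144),
    (5, 4, -972), (6, 0, -822), (6, 1, 702), (6, 2, 8387), (6, 3, 5144), (6, 4, -972), (6, 5, -3324),
    (7, 0, -393), (7, 1, 958), (7, 2, 958), (7, 3, 7286), (7, 4, -2990), (7, 5, -199), (7, 6, -199),
    (8, 0, -1144), (8, 1, 323), (8, 2, 323), (8, 3, -163), (8, 4, 1784), (8, 5, 1047), (8, 6, 1047),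
    (8, 7, -3179), (9, 0, -158), (9, 1, 338), (9, 3, -748), (9, 4, -1376), (9, 5, 746), (9, 6, 462),
    (9, 7, 2063), (9, 8, 2715), (10, 0, -158), (10, 2, 338), (10, 3, -748), (10, 4, -1376), (10, 5, 462),
    (10, 6, 746), (10, 7, 2063), (10, 8, 2715), (10, 9, -207), (11, 1, 158), (11, 2, 158), (11, 3, 356),
    (11, 4, 393), (11, 5, 463), (11, 6, 463), (11, 7, 4445), (11, 8, 1776), (11, 9, 1655), (11, 10, 1655),
    (12, 0, -316), (12, 1, -1824), (12, 3, -3886), (12, 4, -1781), (12, 5, -1277), (12, 7, 344), (12, 8, -847),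
    (12, 9, -1129), (13, 0, -316), (13, 2, -1824), (13, 3, -3886), (13, 4, -1781), (13, 6, -1277), (13, 7, 344),
    (13, 8, -847), (13, 10, -1129)]
  ta := [
    ((3, 2, 1), (0, 1, 2), 2499), ((4, 5, 6), (0, 1, 2), 742), ((7, 6, 5), (0, 1, 2), 827), ((8, 9, 10), (0, 1, 2), -494),
    ((11, 10, 9), (0, 1, 2), -880), ((5, 4, 12), (0, 1, 2), -410), ((6, 13, 4), (0, 1, 2), -410), ((3, 2, 0), (0, 1, 3), -2749),
    ((4, 5, 7), (0, 1, 3), 4697), ((7, 6, 4), (0, 1, 3), 4697), ((8, 9, 11), (0, 1, 3), -1948), ((11, 10, 8), (0, 1, 3), -1948),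
    ((6, 5, 3), (1, 2, 4), -798), ((5, 6, 8), (1, 2, 4), -2366), ((10, 9, 7), (1, 2, 4), -252), ((4, 12, 1), (1, 2, 4), 1223),
    ((13, 4, 2), (1, 2, 4), 1223), ((7, 4, 3), (0, 3, 4), -1206), ((4, 7, 8), (0, 3, 4), 1682), ((11, 8, 7), (0, 3, 4), -1715),
    ((6, 4, 3), (1, 3, 4), 218), ((5, 7, 8), (1, 3, 4), 453), ((10, 8, 7), (1, 3, 4), -1554), ((5, 4, 3), (2, 3, 4), 218),
    ((6, 7, 8), (2, 3, 4), 453), ((9, 8, 7), (2, 3, 4), -1554), ((5, 4, 0), (0, 1, 5), -1894), ((2, 3, 7), (0, 1, 5), -1758),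
    ((7, 6, 2), (0, 1, 5), -859), ((4, 5, 9), (0, 1, 5), 657), ((9, 8, 4), (0, 1, 5), -730), ((6, 7, 11), (0, 1, 5), -1513),
    ((11, 10, 6), (0, 1, 5), -420), ((13, 6, 10), (0, 1, 5), 7450), ((7, 5, 2), (0, 2, 5), -67), ((4, 6, 9), (0, 2, 5), 904),
    ((11, 9, 6), (0, 2, 5), -129), ((5, 12, 0), (0, 2, 5), -401), ((10, 8, 13), (0, 2, 5), 390), ((6, 5, 2), (1, 2, 5), -2981),
    ((5, 6, 9), (1, 2, 5), -2005), ((10, 9, 6), (1, 2, 5), -180), ((4, 12, 0), (1, 2, 5), 2621), ((4, 13, 8), (1, 2, 5), 265),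
    ((7, 4, 2), (0, 3, 5), -845), ((4, 7, 9), (0, 3, 5), 1310), ((11, 8, 6), (0, 3, 5), 132), ((5, 4, 2), (2, 3, 5), -2879),
    ((6, 7, 9), (2, 3, 5), -803), ((9, 8, 6), (2, 3, 5), -1742), ((0, 1, 12), (2, 3, 5), -956), ((13, 6, 8), (2, 3, 5), 6956),
    ((7, 6, 1), (0, 1, 6), -67), ((4, 5, 10), (0, 1, 6), 904), ((11, 10, 5), (0, 1, 6), -129), ((9, 8, 12), (0, 1, 6), 390),
    ((6, 13, 0), (0, 1, 6), -401), ((6, 4, 0), (0, 2, 6), -1894), ((1, 3, 7), (0, 2, 6), -1758), ((7, 5, 1), (0, 2, 6), -859),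
    ((4, 6, 10), (0, 2, 6), 657), ((10, 8, 4), (0, 2, 6), -730), ((5, 7, 11), (0, 2, 6), -1513), ((11, 9, 5), (0, 2, 6), -420),
    ((12, 5, 9), (0, 2, 6), 7450), ((6, 5, 1), (1, 2, 6), -2981), ((5, 6, 10), (1, 2, 6), -2005), ((10, 9, 5), (1, 2, 6), -180),
    ((12, 4, 8), (1, 2, 6), 265), ((13, 4, 0), (1, 2, 6), 2621), ((7, 4, 1), (0, 3, 6), -845), ((4, 7, 10), (0, 3, 6), 1310),
    ((11, 8, 5), (0, 3, 6), 132), ((6, 4, 1), (1, 3, 6), -2879), ((5, 7, 10), (1, 3, 6), -803), ((10, 8, 5), (1, 3, 6), -1742),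
    ((12, 5, 8), (1, 3, 6), 6956), ((0, 2, 13), (1, 3, 6), -956), ((1, 2, 7), (6, 5, 0), 146), ((10, 9, 4), (6, 5, 0), -307),
    ((5, 6, 11), (6, 5, 0), -508), ((12, 4, 9), (6, 5, 0), -248), ((4, 13, 10), (6, 5, 0), -248), ((7, 6, 0), (0, 1, 7), 570),
    ((4, 5, 11), (0, 1, 7), 237), ((11, 10, 4), (0, 1, 7), -245), ((7, 5, 0), (0, 2, 7), 570), ((4, 6, 11), (0, 2, 7), 237),
    ((11, 9, 4), (0, 2, 7), -245), ((7, 4, 0), (0, 3, 7), -50), ((4, 7, 11), (0, 3, 7), 395), ((11, 8, 4), (0, 3, 7), 662),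
    ((9, 8, 1), (0, 1, 8), -479), ((2, 3, 10), (0, 1, 8), 85), ((11, 10, 3), (0, 1, 8), 264), ((1, 3, 9), (0, 2, 8), 85),
    ((10, 8, 2), (0, 2, 8), -479), ((11, 9, 3), (0, 2, 8), 264), ((10, 9, 3), (1, 2, 8), -3), ((11, 8, 3), (0, 3, 8), -181),
    ((10, 8, 3), (1, 3, 8), 153), ((9, 8, 3), (2, 3, 8), 153), ((1, 5, 9), (0, 4, 8), 2297), ((2, 6, 10), (0, 4, 8), 2297),
    ((3, 7, 11), (0, 4, 8), -2317), ((8, 5, 1), (1, 4, 8), 530), ((3, 6, 10), (1, 4, 8), 1643), ((10, 7, 3), (1, 4, 8), -1007),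
    ((8, 6, 2), (2, 4, 8), 530), ((3, 5, 9), (2, 4, 8), 1643), ((9, 7, 3), (2, 4, 8), -1007), ((8, 7, 3), (3, 4, 8), -258),
    ((1, 4, 9), (8, 5, 0), -70), ((10, 7, 2), (8, 5, 0), -80), ((3, 6, 11), (8, 5, 0), -308), ((2, 13, 10), (8, 5, 0), 389),
    ((9, 6, 3), (2, 5, 8), -161), ((8, 13, 2), (2, 5, 8), 398), ((9, 7, 1), (8, 6, 0), -80), ((2, 4, 10), (8, 6, 0), -70),
    ((3, 5, 11), (8, 6, 0), -308), ((1, 12, 9), (8, 6, 0), 389), ((3, 5, 10), (8, 6, 1), -161), ((1, 12, 8), (8, 6, 1), 398),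
    ((3, 4, 11), (8, 7, 0), -377), ((3, 4, 10), (8, 7, 1), 157), ((3, 4, 9), (8, 7, 2), 157), ((9, 8, 0), (0, 1, 9), -57),
    ((2, 3, 11), (0, 1, 9), 57), ((11, 10, 2), (0, 1, 9), 167), ((11, 9, 2), (0, 2, 9), 52), ((10, 9, 2), (1, 2, 9), -313),
    ((11, 8, 2), (0, 3, 9), -135), ((9, 8, 2), (2, 3, 9), -78), ((9, 5, 0), (0, 4, 9), 6), ((2, 6, 11), (0, 4, 9), -6),
    ((11, 7, 2), (0, 4, 9), 148), ((9, 7, 2), (2, 4, 9), 15), ((9, 6, 2), (2, 5, 9), -75), ((2, 5, 11), (9, 6, 0), -259),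
    ((0, 12, 9), (9, 6, 0), 238), ((2, 5, 10), (9, 6, 1), -632), ((0, 12, 8), (9, 6, 1), 632), ((8, 13, 0), (9, 6, 1), 632),
    ((2, 4, 11), (9, 7, 0), -16), ((11, 10, 1), (0, 1, 10), 52), ((10, 8, 0), (0, 2, 10), -57), ((1, 3, 11), (0, 2, 10), 57),
    ((11, 9, 1), (0, 2, 10), 167), ((10, 9, 1), (1, 2, 10), -313), ((11, 8, 1), (0, 3, 10), -135), ((10, 8, 1), (1, 3, 10), -78),
    ((10, 6, 0), (0, 4, 10), 6), ((1, 5, 11), (0, 4, 10), -6), ((11, 7, 1), (0, 4, 10), 148), ((10, 7, 1), (1, 4, 10), 15),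
    ((11, 6, 1), (0, 5, 10), -259), ((10, 13, 0), (0, 5, 10), 238), ((10, 6, 1), (1, 5, 10), 75), ((1, 4, 11), (10, 7, 0), -16),
    ((1, 2, 11), (10, 9, 0), 44), ((5, 12, 2), (0, 2, 12), 134), ((4, 12, 2), (1, 2, 12), -833), ((5, 12, 3), (1, 3, 12), -3886),
    ((12, 6, 9), (6, 12, 0), -148), ((12, 6, 8), (6, 12, 1), -246), ((6, 5, 12), (12, 4, 6), 98), ((12, 7, 9), (7, 12, 1), 804),
    ((10, 9, 12), (12, 4, 10), 193), ((10, 8, 12), (12, 5, 10), -138), ((6, 13, 1), (0, 1, 13), 134), ((13, 4, 1), (1, 2, 13), -833),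
    ((6, 13, 3), (2, 3, 13), -3886), ((5, 13, 10), (13, 5, 0), -148), ((5, 13, 8), (13, 5, 2), -246), ((6, 13, 5), (4, 5, 13), 98),
    ((13, 7, 10), (7, 13, 2), 804), ((10, 9, 13), (4, 13, 9), 193), ((9, 8, 13), (13, 6, 9), -138), ((12, 13, 8), (13, 12, 0), 138)]
  tr := tr14
  big := 32768

theorem ct73_valid : validC ct73 = true := by decide +kernel

theorem ct73_const : constOK ct73 16103 = true := by decide +kernel

/-- small classes -/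
def sm73 : List Cl := [
 cl 0 0 1 1 7940 0 119, cl 0 0 2 0 2900 0 423, cl 0 0 0 2 0 12346 84, cl 0 0 1 3 0 0 69,
 cl 0 0 2 2 688 0 84, cl 0 0 0 4 0 0 60]

/-- big classes -/
def bg73 : List Cl := [
 cl 1 0 0 0 33688 0 119, cl 1 0 1 1 0 3812 119, cl 1 0 2 0 0 0 119, cl 2 0 0 0 0 112 84,
 cl 2 0 1 1 0 0 84, cl 2 0 2 0 0 0 84, cl 1 0 0 2 2 0 118, cl 1 1 0 1 18674 0 120,
 cl 2 1 0 1 0 850 85, cl 2 0 0 2 0 0 84, cl 1 1 0 3 0 0 119, cl 1 2 0 0 0 11051 121,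
 cl 2 2 0 0 0 163 85, cl 1 2 0 2 0 7772 120, cl 1 0 1 3 0 0 118, cl 1 0 2 2 0 0 118]

theorem ct73_link : linkOK ct73 ((sm73 ++ bg73).map swp) = true := by decide +kernel

theorem sm73_zero : (sm73.all fun c => decide (c.i = 0)) = true := by decide +kernel

theorem bg73_tail : tailOK bg73 0 2 8 8857 = true := by decide +kernel

theorem sm73_tail : tailOK sm73 0 9 128 7246 = true := by decide +kernel

theorem cs73_grid : gridOK vtTree (sm73 ++ bg73) 0 2 8 8 0 12474678206 21005 16103 = true := by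
  decide +kernel

theorem sm73_grid : gridOK vtTree sm73 0 9 128 0 8360471594 0 6641 7246 = true := by
  decide +kernel

/-! ### Box 74: `112 ≤ -128 x ≤ 119`, `48 ≤ 128 y ≤ 62` -/

/-- certificate -/
def ct74 : Cert where
  pts := pts14
  g := 12862
  al := [(0, 308), (1, 2492), (2, 2492), (3, 7420), (4, -1860), (5, 1538), (6, 1538), (7, -4871), (8, 3791), (9, 1371), (10, 1371), (11, 664), (12, 1299), (13, 1299)]
  be := [
    (1, 0, 86), (2, 0, 86), (2, 1, -1753), (3, 0, -696), (3, 1, -3491), (3, 2, -3491), (4, 0, 3671),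
    (4, 1, 3444), (4, 2, 3444), (4, 3, -2276), (5, 0, -1759), (5, 1, 4444), (5, 2, 217), (5, 3, -697),
    (5, 4, 4320), (6, 0, -1759), (6, 1, 217), (6, 2, 4444), (6, 3, -697), (6, 4, 4320), (6, 5, -3471),
    (7, 0, 988), (7, 1, 1942), (7, 2, 1942), (7, 3, 3693), (7, 4, 2237), (7, 5, 5658), (7, 6, 5658),
    (8, 0, 352), (8, 1, -1570), (8, 2, -1570), (8, 3, -2741), (8, 4, 5126), (8, 5, 3129), (8, 6, 3129),
    (8, 7, -3671), (9, 0, 74), (9, 1, -229), (9, 2, -1066), (9, 3, -2289), (9, 4, 788), (9, 5, 2559),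
    (9, 6, -400), (9, 7, 4252), (9, 8, -66), (10, 0, 74), (10, 1, -1066), (10, 2, -229), (10, 3, -2289),
    (10, 4, 788), (10, 5, -400), (10, 6, 2559), (10, 7, 4252), (10, 8, -66), (10, 9, -3728), (11, 0, 905),
    (11, 1, -74), (11, 2, -74), (11, 3, 256), (11, 4, 615), (11, 5, -1198), (11, 6, -1198), (11, 7, 2385),
    (11, 8, -2277), (11, 9, -602), (11, 10, -602), (12, 0, 224), (12, 1, 232), (12, 2, -575), (12, 3, -805),
    (12, 4, -1739), (12, 5, -512), (12, 6, -882), (12, 7, 81), (12, 8, 121), (12, 9, 226), (12, 10, 81),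
    (13, 0, 224), (13, 1, -575), (13, 2, 232), (13, 3, -805), (13, 4, -1739), (13, 5, -882), (13, 6, -512),
    (13, 7, 81), (13, 8, 121), (13, 9, 81), (13, 10, 226), (13, 12, -81)]
  ta := [
    ((3, 2, 1), (0, 1, 2), 3098), ((4, 5, 6), (0, 1, 2), -2465), ((7, 6, 5), (0, 1, 2), -2170), ((8, 9, 10), (0, 1, 2), 1607),
    ((11, 10, 9), (0, 1, 2), 275), ((5, 4, 12), (0, 1, 2), -213), ((6, 13, 4), (0, 1, 2), -213), ((3, 2, 0), (0, 1, 3), -64),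
    ((4, 5, 7), (0, 1, 3), -135), ((7, 6, 4), (0, 1, 3), -135), ((8, 9, 11), (0, 1, 3), 199), ((11, 10, 8), (0, 1, 3), 199),
    ((6, 5, 3), (1, 2, 4), 1885), ((5, 6, 8), (1, 2, 4), -2032), ((10, 9, 7), (1, 2, 4), -201), ((4, 12, 1), (1, 2, 4), 630),
    ((13, 4, 2), (1, 2, 4), 630), ((7, 4, 3), (0, 3, 4), 331), ((4, 7, 8), (0, 3, 4), 738), ((11, 8, 7), (0, 3, 4), -490),
    ((6, 4, 3), (1, 3, 4), -333), ((5, 7, 8), (1, 3, 4), 62), ((10, 8, 7), (1, 3, 4), 61), ((5, 4, 3), (2, 3, 4), -333),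
    ((6, 7, 8), (2, 3, 4), 62), ((9, 8, 7), (2, 3, 4), 61), ((5, 4, 0), (0, 1, 5), -623), ((2, 3, 7), (0, 1, 5), -842),
    ((7, 6, 2), (0, 1, 5), -1187), ((4, 5, 9), (0, 1, 5), -322), ((9, 8, 4), (0, 1, 5), -451), ((6, 7, 11), (0, 1, 5), -268),
    ((11, 10, 6), (0, 1, 5), -208), ((13, 6, 10), (0, 1, 5), 3108), ((7, 5, 2), (0, 2, 5), -1486), ((4, 6, 9), (0, 2, 5), 271),
    ((11, 9, 6), (0, 2, 5), 626), ((5, 12, 0), (0, 2, 5), 469), ((10, 8, 13), (0, 2, 5), 81), ((6, 5, 2), (1, 2, 5), -329),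
    ((5, 6, 9), (1, 2, 5), -42), ((10, 9, 6), (1, 2, 5), 88), ((4, 12, 0), (1, 2, 5), 339), ((4, 13, 8), (1, 2, 5), 787),
    ((7, 4, 2), (0, 3, 5), -995), ((4, 7, 9), (0, 3, 5), -1445), ((11, 8, 6), (0, 3, 5), 1389), ((5, 4, 2), (2, 3, 5), -1942),
    ((6, 7, 9), (2, 3, 5), -1742), ((9, 8, 6), (2, 3, 5), -483), ((0, 1, 12), (2, 3, 5), 884), ((13, 6, 8), (2, 3, 5), 1054),
    ((7, 6, 1), (0, 1, 6), -1486), ((4, 5, 10), (0, 1, 6), 271), ((11, 10, 5), (0, 1, 6), 626), ((9, 8, 12), (0, 1, 6), 81),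
    ((6, 13, 0), (0, 1, 6), 469), ((6, 4, 0), (0, 2, 6), -623), ((1, 3, 7), (0, 2, 6), -842), ((7, 5, 1), (0, 2, 6), -1187),
    ((4, 6, 10), (0, 2, 6), -322), ((10, 8, 4), (0, 2, 6), -451), ((5, 7, 11), (0, 2, 6), -268), ((11, 9, 5), (0, 2, 6), -208),
    ((12, 5, 9), (0, 2, 6), 3108), ((6, 5, 1), (1, 2, 6), -329), ((5, 6, 10), (1, 2, 6), -42), ((10, 9, 5), (1, 2, 6), 88),
    ((12, 4, 8), (1, 2, 6), 787), ((13, 4, 0), (1, 2, 6), 339), ((7, 4, 1), (0, 3, 6), -995), ((4, 7, 10), (0, 3, 6), -1445),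
    ((11, 8, 5), (0, 3, 6), 1389), ((6, 4, 1), (1, 3, 6), -1942), ((5, 7, 10), (1, 3, 6), -1742), ((10, 8, 5), (1, 3, 6), -483),
    ((12, 5, 8), (1, 3, 6), 1054), ((0, 2, 13), (1, 3, 6), 884), ((1, 2, 7), (6, 5, 0), -74), ((10, 9, 4), (6, 5, 0), 1165),
    ((5, 6, 11), (6, 5, 0), -780), ((12, 4, 9), (6, 5, 0), -398), ((4, 13, 10), (6, 5, 0), -398), ((7, 6, 0), (0, 1, 7), 368),
    ((4, 5, 11), (0, 1, 7), 502), ((11, 10, 4), (0, 1, 7), -277), ((7, 5, 0), (0, 2, 7), 368), ((4, 6, 11), (0, 2, 7), 502),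
    ((11, 9, 4), (0, 2, 7), -277), ((7, 4, 0), (0, 3, 7), 205), ((4, 7, 11), (0, 3, 7), -860), ((11, 8, 4), (0, 3, 7), 1263),
    ((9, 8, 1), (0, 1, 8), 441), ((2, 3, 10), (0, 1, 8), 415), ((11, 10, 3), (0, 1, 8), -371), ((1, 3, 9), (0, 2, 8), 415),
    ((10, 8, 2), (0, 2, 8), 441), ((11, 9, 3), (0, 2, 8), -371), ((10, 9, 3), (1, 2, 8), -713), ((11, 8, 3), (0, 3, 8), 107),
    ((10, 8, 3), (1, 3, 8), -398), ((9, 8, 3), (2, 3, 8), -398), ((1, 5, 9), (0, 4, 8), 615), ((2, 6, 10), (0, 4, 8), 615),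
    ((3, 7, 11), (0, 4, 8), 822), ((8, 5, 1), (1, 4, 8), -1264), ((3, 6, 10), (1, 4, 8), 378), ((10, 7, 3), (1, 4, 8), 1410),
    ((8, 6, 2), (2, 4, 8), -1264), ((3, 5, 9), (2, 4, 8), 378), ((9, 7, 3), (2, 4, 8), 1410), ((8, 7, 3), (3, 4, 8), 679),
    ((1, 4, 9), (8, 5, 0), -458), ((10, 7, 2), (8, 5, 0), -566), ((3, 6, 11), (8, 5, 0), 605), ((2, 13, 10), (8, 5, 0), 244),
    ((9, 6, 3), (2, 5, 8), 1276), ((8, 13, 2), (2, 5, 8), -988), ((9, 7, 1), (8, 6, 0), -566), ((2, 4, 10), (8, 6, 0), -458),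
    ((3, 5, 11), (8, 6, 0), 605), ((1, 12, 9), (8, 6, 0), 244), ((3, 5, 10), (8, 6, 1), 1276), ((1, 12, 8), (8, 6, 1), -988),
    ((3, 4, 11), (8, 7, 0), -240), ((3, 4, 10), (8, 7, 1), -309), ((3, 4, 9), (8, 7, 2), -309), ((9, 8, 0), (0, 1, 9), 172),
    ((2, 3, 11), (0, 1, 9), -289), ((11, 10, 2), (0, 1, 9), 152), ((11, 9, 2), (0, 2, 9), 252), ((10, 9, 2), (1, 2, 9), 407),
    ((11, 8, 2), (0, 3, 9), 148), ((9, 8, 2), (2, 3, 9), -769), ((9, 5, 0), (0, 4, 9), 101), ((2, 6, 11), (0, 4, 9), 791),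
    ((11, 7, 2), (0, 4, 9), -173), ((9, 7, 2), (2, 4, 9), -741), ((9, 6, 2), (2, 5, 9), 1100), ((2, 5, 11), (9, 6, 0), 219),
    ((0, 12, 9), (9, 6, 0), -312), ((2, 5, 10), (9, 6, 1), 388), ((0, 12, 8), (9, 6, 1), -388), ((8, 13, 0), (9, 6, 1), -388),
    ((2, 4, 11), (9, 7, 0), 106), ((11, 10, 1), (0, 1, 10), 252), ((10, 8, 0), (0, 2, 10), 172), ((1, 3, 11), (0, 2, 10), -289),
    ((11, 9, 1), (0, 2, 10), 152), ((10, 9, 1), (1, 2, 10), 407), ((11, 8, 1), (0, 3, 10), 148), ((10, 8, 1), (1, 3, 10), -769),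
    ((10, 6, 0), (0, 4, 10), 101), ((1, 5, 11), (0, 4, 10), 791), ((11, 7, 1), (0, 4, 10), -173), ((10, 7, 1), (1, 4, 10), -741),
    ((11, 6, 1), (0, 5, 10), 219), ((10, 13, 0), (0, 5, 10), -312), ((10, 6, 1), (1, 5, 10), -1100), ((1, 4, 11), (10, 7, 0), 106),
    ((1, 2, 11), (10, 9, 0), -627), ((11, 10, 0), (0, 1, 11), 186), ((11, 9, 0), (0, 2, 11), 186), ((11, 8, 0), (0, 3, 11), 161),
    ((11, 7, 0), (0, 4, 11), -264), ((5, 12, 2), (0, 2, 12), 143), ((4, 12, 2), (1, 2, 12), 271), ((5, 12, 3), (1, 3, 12), -805),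
    ((12, 6, 9), (6, 12, 0), 4), ((12, 6, 8), (6, 12, 1), 267), ((6, 5, 12), (12, 4, 6), -569), ((12, 7, 9), (7, 12, 1), -154),
    ((10, 9, 12), (12, 4, 10), 163), ((10, 8, 12), (12, 5, 10), -81), ((11, 9, 12), (12, 5, 11), 81), ((6, 13, 1), (0, 1, 13), 143),
    ((13, 4, 1), (1, 2, 13), 271), ((6, 13, 3), (2, 3, 13), -805), ((5, 13, 10), (13, 5, 0), 4), ((5, 13, 8), (13, 5, 2), 267),
    ((6, 13, 5), (4, 5, 13), -569), ((13, 7, 10), (7, 13, 2), -154), ((10, 9, 13), (4, 13, 9), 163), ((9, 8, 13), (13, 6, 9), -81),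
    ((11, 10, 13), (13, 6, 11), 81), ((12, 13, 8), (13, 12, 0), 81)]
  tr := tr14
  big := 32768

theorem ct74_valid : validC ct74 = true := by decide +kernel

theorem ct74_const : constOK ct74 13637 = true := by decide +kernel

/-- classes -/
def cs74 : List Cl := [
 cl 0 1 0 1 10786 0 122, cl 0 2 0 0 0 736 90, cl 1 0 0 0 28881 0 119, cl 1 1 0 1 0 2 192,
 cl 1 2 0 0 1603 0 137, cl 2 0 0 0 150 0 84, cl 2 1 0 1 0 0 112, cl 2 2 0 0 905 0 423,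
 cl 1 0 0 2 324 0 106, cl 0 0 0 2 0 12430 137, cl 1 0 1 1 20720 0 86, cl 2 0 1 1 0 7718 70,
 cl 2 0 0 2 0 2132 82, cl 1 0 1 3 0 1150 81, cl 1 0 2 0 0 5947 72, cl 2 0 2 0 0 2741 62,
 cl 1 0 2 2 0 1610 71, cl 0 1 0 3 0 1764 100, cl 0 2 0 2 162 0 86, cl 1 1 0 3 162 0 112,
 cl 1 2 0 2 0 0 115, cl 0 0 0 4 0 81 97]

theorem ct74_link : linkOK ct74 cs74 = true := by decide +kernel

theorem cs74_tail0 : tailOK cs74 118 1 48 13637 = true := by decide +kernel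

theorem cs74_grid0 : gridOK vtTree cs74 118 1 48 2 0 14896991237 20748 13637 = true := by
  decide +kernel

theorem cs74_tail1 : tailOK cs74 117 1 48 13637 = true := by decide +kernel

theorem cs74_grid1 : gridOK vtTree cs74 117 1 48 4 0 14896991237 20748 13637 = true := by
  decide +kernel

theorem cs74_tail2 : tailOK cs74 116 1 48 13637 = true := by decide +kernel

theorem cs74_grid2 : gridOK vtTree cs74 116 1 48 7 0 14896991237 20748 13637 = true := by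
  decide +kernel

theorem cs74_tail3 : tailOK cs74 115 1 48 13637 = true := by decide +kernel

theorem cs74_grid3 : gridOK vtTree cs74 115 1 48 9 0 14896991237 20748 13637 = true := by
  decide +kernel

theorem cs74_tail4 : tailOK cs74 114 1 48 13637 = true := by decide +kernel

theorem cs74_grid4 : gridOK vtTree cs74 114 1 48 11 0 14896991237 20748 13637 = true := by
  decide +kernel

theorem cs74_tail5 : tailOK cs74 113 1 48 13637 = true := by decide +kernel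

theorem cs74_grid5 : gridOK vtTree cs74 113 1 48 13 0 14896991237 20748 13637 = true := by
  decide +kernel

theorem cs74_tail6 : tailOK cs74 112 1 48 13637 = true := by decide +kernel

theorem cs74_grid6 : gridOK vtTree cs74 112 1 48 14 0 14896991237 20748 13637 = true := by
  decide +kernel

end Pool.Agent.H79.OC
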