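import Pool.Agent.H79.OC.Pts
import Pool.Agent.H79.OC.Pts2
import Pool.Agent.H79.OC.VTab
import Pool.Agent.H79.OC.Swp

set_option autoImplicit false
set_option maxRecDepth 100000

/-!
# Certificates, part 39
-/

namespace Pool.Agent.H79.OC

open Cl

/-! ### Box 75: `96 ≤ -128 x ≤ 99`, `31 ≤ 128 y ≤ 32` -/

/-- certificate -/
def ct75 : Cert where
  pts := pts14
  g := 3361
  al := [(0, -546), (1, 1553), (2, 1553), (3, 2148), (4, -2808), (5, -4117), (6, -4117), (7, -12695), (8, -1480), (9, 2338), (10, 2338), (11, -1964), (12, 1891), (13, 1891)]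
  be := [
    (1, 0, 74), (2, 0, 74), (2, 1, -3041), (3, 0, -3150), (3, 1, -1499), (3, 2, -1499), (4, 0, 3017),
    (4, 1, 1297), (4, 2, 1297), (4, 3, -3574), (5, 0, -298), (5, 1, 3746), (5, 2, -302), (5, 3, 2590),
    (5, 4, 3899), (6, 0, -298), (6, 1, -302), (6, 2, 3746), (6, 3, 2590), (6, 4, 3899), (6, 5, 3394),
    (7, 0, 3044), (7, 1, 3494), (7, 2, 3494), (7, 3, 7973), (7, 4, 4612), (7, 5, 6785), (7, 6, 6785),
    (8, 0, 1924), (8, 1, -811), (8, 2, -811), (8, 4, 4653), (8, 5, 3361), (8, 6, 3361), (8, 7, -520),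
    (9, 0, -65), (9, 1, -1689), (9, 2, -559), (9, 3, -1679), (9, 4, 10), (9, 5, -392), (9, 6, 4),
    (9, 7, 4065), (9, 8, -523), (10, 0, -65), (10, 1, -559), (10, 2, -1689), (10, 3, -1679), (10, 4, 10),
    (10, 5, 4), (10, 6, -392), (10, 7, 4065), (10, 8, -523), (10, 9, -3144), (11, 1, 721), (11, 2, 721),
    (11, 3, 1788), (11, 4, 788), (11, 5, 152), (11, 6, 152), (11, 7, 2951), (11, 8, 605), (11, 9, 463),
    (11, 10, 463), (12, 0, -400), (12, 1, -837), (12, 2, -861), (12, 3, -1074), (12, 4, -1613), (12, 5, -971),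
    (12, 6, -205), (12, 7, 1498), (12, 8, 698), (12, 9, -1470), (12, 10, -1029), (13, 0, -400), (13, 1, -861),
    (13, 2, -837), (13, 3, -1074), (13, 4, -1613), (13, 5, -205), (13, 6, -971), (13, 7, 1498), (13, 8, 698),
    (13, 9, -1029), (13, 10, -1470), (13, 12, -426)]
  ta := [
    ((3, 2, 1), (0, 1, 2), 2918), ((4, 5, 6), (0, 1, 2), -3430), ((7, 6, 5), (0, 1, 2), -3846), ((8, 9, 10), (0, 1, 2), 2554),
    ((11, 10, 9), (0, 1, 2), 859), ((5, 4, 12), (0, 1, 2), -173), ((6, 13, 4), (0, 1, 2), -173), ((3, 2, 0), (0, 1, 3), 1296),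
    ((4, 5, 7), (0, 1, 3), -626), ((7, 6, 4), (0, 1, 3), -626), ((8, 9, 11), (0, 1, 3), -670), ((11, 10, 8), (0, 1, 3), -670),
    ((6, 5, 3), (1, 2, 4), -1585), ((5, 6, 8), (1, 2, 4), -2788), ((10, 9, 7), (1, 2, 4), 802), ((4, 12, 1), (1, 2, 4), 845),
    ((13, 4, 2), (1, 2, 4), 845), ((7, 4, 3), (0, 3, 4), 544), ((4, 7, 8), (0, 3, 4), -581), ((11, 8, 7), (0, 3, 4), -835),
    ((6, 4, 3), (1, 3, 4), 1057), ((5, 7, 8), (1, 3, 4), -364), ((10, 8, 7), (1, 3, 4), -641), ((5, 4, 3), (2, 3, 4), 1057),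
    ((6, 7, 8), (2, 3, 4), -364), ((9, 8, 7), (2, 3, 4), -641), ((5, 4, 0), (0, 1, 5), -1104), ((2, 3, 7), (0, 1, 5), -1695),
    ((7, 6, 2), (0, 1, 5), 876), ((4, 5, 9), (0, 1, 5), -149), ((9, 8, 4), (0, 1, 5), -875), ((6, 7, 11), (0, 1, 5), -166),
    ((11, 10, 6), (0, 1, 5), -224), ((13, 6, 10), (0, 1, 5), 3829), ((7, 5, 2), (0, 2, 5), -1365), ((4, 6, 9), (0, 2, 5), 529),
    ((11, 9, 6), (0, 2, 5), -443), ((5, 12, 0), (0, 2, 5), 1090), ((10, 8, 13), (0, 2, 5), 790), ((6, 5, 2), (1, 2, 5), -922),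
    ((5, 6, 9), (1, 2, 5), -706), ((10, 9, 6), (1, 2, 5), 989), ((4, 12, 0), (1, 2, 5), -329), ((4, 13, 8), (1, 2, 5), 273),
    ((7, 4, 2), (0, 3, 5), -640), ((4, 7, 9), (0, 3, 5), -1201), ((11, 8, 6), (0, 3, 5), 497), ((5, 4, 2), (2, 3, 5), -554),
    ((6, 7, 9), (2, 3, 5), -2160), ((9, 8, 6), (2, 3, 5), 473), ((0, 1, 12), (2, 3, 5), 758), ((13, 6, 8), (2, 3, 5), 1023),
    ((7, 6, 1), (0, 1, 6), -1365), ((4, 5, 10), (0, 1, 6), 529), ((11, 10, 5), (0, 1, 6), -443), ((9, 8, 12), (0, 1, 6), 790),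
    ((6, 13, 0), (0, 1, 6), 1090), ((6, 4, 0), (0, 2, 6), -1104), ((1, 3, 7), (0, 2, 6), -1695), ((7, 5, 1), (0, 2, 6), 876),
    ((4, 6, 10), (0, 2, 6), -149), ((10, 8, 4), (0, 2, 6), -875), ((5, 7, 11), (0, 2, 6), -166), ((11, 9, 5), (0, 2, 6), -224),
    ((12, 5, 9), (0, 2, 6), 3829), ((6, 5, 1), (1, 2, 6), -922), ((5, 6, 10), (1, 2, 6), -706), ((10, 9, 5), (1, 2, 6), 989),
    ((12, 4, 8), (1, 2, 6), 273), ((13, 4, 0), (1, 2, 6), -329), ((7, 4, 1), (0, 3, 6), -640), ((4, 7, 10), (0, 3, 6), -1201),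
    ((11, 8, 5), (0, 3, 6), 497), ((6, 4, 1), (1, 3, 6), -554), ((5, 7, 10), (1, 3, 6), -2160), ((10, 8, 5), (1, 3, 6), 473),
    ((12, 5, 8), (1, 3, 6), 1023), ((0, 2, 13), (1, 3, 6), 758), ((1, 2, 7), (6, 5, 0), -1342), ((10, 9, 4), (6, 5, 0), 1089),
    ((5, 6, 11), (6, 5, 0), -1226), ((12, 4, 9), (6, 5, 0), 1141), ((4, 13, 10), (6, 5, 0), 1141), ((7, 6, 0), (0, 1, 7), 971),
    ((4, 5, 11), (0, 1, 7), 894), ((11, 10, 4), (0, 1, 7), -580), ((7, 5, 0), (0, 2, 7), 971), ((4, 6, 11), (0, 2, 7), 894),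
    ((11, 9, 4), (0, 2, 7), -580), ((7, 4, 0), (0, 3, 7), 65), ((4, 7, 11), (0, 3, 7), 23), ((11, 8, 4), (0, 3, 7), 53),
    ((9, 8, 1), (0, 1, 8), 710), ((2, 3, 10), (0, 1, 8), 490), ((11, 10, 3), (0, 1, 8), -737), ((1, 3, 9), (0, 2, 8), 490),
    ((10, 8, 2), (0, 2, 8), 710), ((11, 9, 3), (0, 2, 8), -737), ((10, 9, 3), (1, 2, 8), 103), ((11, 8, 3), (0, 3, 8), -625),
    ((10, 8, 3), (1, 3, 8), 88), ((9, 8, 3), (2, 3, 8), 88), ((1, 5, 9), (0, 4, 8), 1918), ((2, 6, 10), (0, 4, 8), 1918),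
    ((3, 7, 11), (0, 4, 8), -1710), ((8, 5, 1), (1, 4, 8), 28), ((3, 6, 10), (1, 4, 8), 521), ((10, 7, 3), (1, 4, 8), -638),
    ((8, 6, 2), (2, 4, 8), 28), ((3, 5, 9), (2, 4, 8), 521), ((9, 7, 3), (2, 4, 8), -638), ((8, 7, 3), (3, 4, 8), -616),
    ((1, 4, 9), (8, 5, 0), -465), ((10, 7, 2), (8, 5, 0), 436), ((3, 6, 11), (8, 5, 0), 62), ((2, 13, 10), (8, 5, 0), 37),
    ((9, 6, 3), (2, 5, 8), 155), ((8, 13, 2), (2, 5, 8), -395), ((9, 7, 1), (8, 6, 0), 436), ((2, 4, 10), (8, 6, 0), -465),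
    ((3, 5, 11), (8, 6, 0), 62), ((1, 12, 9), (8, 6, 0), 37), ((3, 5, 10), (8, 6, 1), 155), ((1, 12, 8), (8, 6, 1), -395),
    ((3, 4, 11), (8, 7, 0), 633), ((3, 4, 10), (8, 7, 1), 92), ((3, 4, 9), (8, 7, 2), 92), ((9, 8, 0), (0, 1, 9), 101),
    ((2, 3, 11), (0, 1, 9), -313), ((11, 10, 2), (0, 1, 9), 357), ((11, 9, 2), (0, 2, 9), -72), ((10, 9, 2), (1, 2, 9), -69),
    ((11, 8, 2), (0, 3, 9), -299), ((9, 8, 2), (2, 3, 9), -289), ((9, 5, 0), (0, 4, 9), 1473), ((2, 6, 11), (0, 4, 9), 495),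
    ((11, 7, 2), (0, 4, 9), -799), ((9, 7, 2), (2, 4, 9), -762), ((9, 6, 2), (2, 5, 9), -513), ((2, 5, 11), (9, 6, 0), -109),
    ((0, 12, 9), (9, 6, 0), 272), ((2, 5, 10), (9, 6, 1), 519), ((0, 12, 8), (9, 6, 1), -519), ((8, 13, 0), (9, 6, 1), -519),
    ((2, 4, 11), (9, 7, 0), 11), ((11, 10, 1), (0, 1, 10), -72), ((10, 8, 0), (0, 2, 10), 101), ((1, 3, 11), (0, 2, 10), -313),
    ((11, 9, 1), (0, 2, 10), 357), ((10, 9, 1), (1, 2, 10), -69), ((11, 8, 1), (0, 3, 10), -299), ((10, 8, 1), (1, 3, 10), -289),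
    ((10, 6, 0), (0, 4, 10), 1473), ((1, 5, 11), (0, 4, 10), 495), ((11, 7, 1), (0, 4, 10), -799), ((10, 7, 1), (1, 4, 10), -762),
    ((11, 6, 1), (0, 5, 10), -109), ((10, 13, 0), (0, 5, 10), 272), ((10, 6, 1), (1, 5, 10), 513), ((1, 4, 11), (10, 7, 0), 11),
    ((1, 2, 11), (10, 9, 0), -348), ((11, 10, 0), (0, 1, 11), -44), ((11, 9, 0), (0, 2, 11), -44), ((11, 8, 0), (0, 3, 11), 225),
    ((11, 7, 0), (0, 4, 11), -261), ((5, 12, 2), (0, 2, 12), 861), ((4, 12, 2), (1, 2, 12), -848), ((5, 12, 3), (1, 3, 12), -711),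
    ((12, 6, 9), (6, 12, 0), 273), ((12, 6, 8), (6, 12, 1), -969), ((6, 5, 12), (12, 4, 6), 90), ((12, 7, 9), (7, 12, 1), 135),
    ((10, 9, 12), (12, 4, 10), -433), ((10, 8, 12), (12, 5, 10), -264), ((11, 9, 12), (12, 5, 11), 515), ((6, 13, 1), (0, 1, 13), 861),
    ((13, 4, 1), (1, 2, 13), -848), ((6, 13, 3), (2, 3, 13), -711), ((5, 13, 10), (13, 5, 0), 273), ((5, 13, 8), (13, 5, 2), -969),
    ((6, 13, 5), (4, 5, 13), 90), ((13, 7, 10), (7, 13, 2), 135), ((10, 9, 13), (4, 13, 9), -433), ((9, 8, 13), (13, 6, 9), -264),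
    ((11, 10, 13), (13, 6, 11), 515), ((12, 13, 8), (13, 12, 0), 85)]
  tr := tr14
  big := 32768

theorem ct75_valid : validC ct75 = true := by decide +kernel

theorem ct75_const : constOK ct75 12579 = true := by decide +kernel

/-- classes -/
def cs75 : List Cl := [
 cl 0 1 0 1 16456 0 134, cl 0 2 0 0 2067 0 97, cl 1 0 0 0 25302 0 119, cl 1 1 0 1 3776 0 206,
 cl 1 2 0 0 3832 0 168, cl 2 0 0 0 334 0 84, cl 2 1 0 1 1312 0 106, cl 2 2 0 0 0 0 176,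
 cl 1 0 0 2 0 0 113, cl 0 0 0 2 0 6017 171, cl 1 0 1 1 20952 0 90, cl 2 0 1 1 0 4980 72,
 cl 2 0 0 2 0 1118 83, cl 1 0 1 3 0 1722 87, cl 1 0 2 0 0 4094 75, cl 2 0 2 0 0 0 64,
 cl 1 0 2 2 0 2148 75, cl 0 1 0 3 0 410 116, cl 0 2 0 2 2996 0 95, cl 1 1 0 3 0 2058 136,
 cl 1 2 0 2 0 0 142, cl 0 0 0 4 0 426 121]

theorem ct75_link : linkOK ct75 cs75 = true := by decide +kernel

theorem cs75_tail0 : tailOK cs75 96 3 31 12579 = true := by decide +kernel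

theorem cs75_grid0 : gridOK vtTree cs75 96 3 31 1 0 43851470253 22084 12579 = true := by
  decide +kernel

/-! ### Box 76: `80 ≤ -128 x ≤ 96`, `25 ≤ 128 y ≤ 32` -/

/-- certificate -/
def ct76 : Cert where
  pts := pts14
  g := 2270
  al := [(0, -2147), (1, 58), (2, 58), (3, 2012), (4, -5071), (5, -4361), (6, -4361), (7, -7800), (8, -2475), (9, 1943), (10, 1943), (11, -312), (12, 1210), (13, 1210)]
  be := [
    (1, 0, 1266), (2, 0, 1266), (2, 1, -1931), (3, 0, -2170), (3, 1, -1254), (3, 2, -1254), (4, 0, 1816),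
    (4, 1, 1351), (4, 2, 1351), (4, 3, -1941), (5, 0, -158), (5, 1, 4806), (5, 2, -282), (5, 3, 3217),
    (5, 4, 4677), (6, 0, -158), (6, 1, -282), (6, 2, 4806), (6, 3, 3217), (6, 4, 4677), (6, 5, 3211),
    (7, 0, 1277), (7, 1, 2351), (7, 2, 2351), (7, 3, 4901), (7, 4, 4111), (7, 5, 5662), (7, 6, 5662),
    (8, 0, 2390), (8, 1, 1028), (8, 2, 1028), (8, 4, 7269), (8, 5, 2874), (8, 6, 2874), (8, 7, -1567),
    (9, 0, 656), (9, 1, -1295), (9, 2, -48), (9, 3, -3291), (9, 4, 476), (9, 5, -613), (9, 6, -275),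
    (9, 7, 3275), (9, 8, -71), (10, 0, 656), (10, 1, -48), (10, 2, -1295), (10, 3, -3291), (10, 4, 476),
    (10, 5, -275), (10, 6, -613), (10, 7, 3275), (10, 8, -71), (10, 9, -2319), (11, 0, -377), (11, 1, -162),
    (11, 2, -162), (11, 3, 427), (11, 4, 1238), (11, 5, 153), (11, 6, 153), (11, 7, 2742), (11, 8, 693),
    (11, 9, -131), (11, 10, -131), (12, 0, 389), (12, 1, 123), (12, 2, -786), (12, 3, -1395), (12, 4, -1904),
    (12, 5, -491), (12, 6, -324), (12, 7, 893), (12, 8, 972), (12, 9, -1241), (12, 10, -1158), (13, 0, 389),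
    (13, 1, -786), (13, 2, 123), (13, 3, -1395), (13, 4, -1904), (13, 5, -324), (13, 6, -491), (13, 7, 893),
    (13, 8, 972), (13, 9, -1158), (13, 10, -1241), (13, 12, -292)]
  ta := [
    ((3, 2, 1), (0, 1, 2), 2291), ((4, 5, 6), (0, 1, 2), -3796), ((7, 6, 5), (0, 1, 2), -3553), ((8, 9, 10), (0, 1, 2), 2598),
    ((11, 10, 9), (0, 1, 2), 845), ((5, 4, 12), (0, 1, 2), 452), ((6, 13, 4), (0, 1, 2), 452), ((3, 2, 0), (0, 1, 3), 667),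
    ((4, 5, 7), (0, 1, 3), 404), ((7, 6, 4), (0, 1, 3), 404), ((8, 9, 11), (0, 1, 3), -1071), ((11, 10, 8), (0, 1, 3), -1071),
    ((6, 5, 3), (1, 2, 4), -2532), ((5, 6, 8), (1, 2, 4), -1548), ((10, 9, 7), (1, 2, 4), -304), ((4, 12, 1), (1, 2, 4), 1279),
    ((13, 4, 2), (1, 2, 4), 1279), ((7, 4, 3), (0, 3, 4), 1659), ((4, 7, 8), (0, 3, 4), -2024), ((11, 8, 7), (0, 3, 4), -159),
    ((6, 4, 3), (1, 3, 4), 729), ((5, 7, 8), (1, 3, 4), -569), ((10, 8, 7), (1, 3, 4), -260), ((5, 4, 3), (2, 3, 4), 729),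
    ((6, 7, 8), (2, 3, 4), -569), ((9, 8, 7), (2, 3, 4), -260), ((5, 4, 0), (0, 1, 5), -545), ((2, 3, 7), (0, 1, 5), -1183),
    ((7, 6, 2), (0, 1, 5), -661), ((4, 5, 9), (0, 1, 5), 438), ((9, 8, 4), (0, 1, 5), -1424), ((6, 7, 11), (0, 1, 5), -924),
    ((11, 10, 6), (0, 1, 5), -616), ((13, 6, 10), (0, 1, 5), 4741), ((7, 5, 2), (0, 2, 5), -278), ((4, 6, 9), (0, 2, 5), -275),
    ((11, 9, 6), (0, 2, 5), -656), ((5, 12, 0), (0, 2, 5), 399), ((10, 8, 13), (0, 2, 5), 1002), ((6, 5, 2), (1, 2, 5), -1471),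
    ((5, 6, 9), (1, 2, 5), -267), ((10, 9, 6), (1, 2, 5), 674), ((4, 12, 0), (1, 2, 5), 205), ((4, 13, 8), (1, 2, 5), 473),
    ((7, 4, 2), (0, 3, 5), -1264), ((4, 7, 9), (0, 3, 5), -674), ((11, 8, 6), (0, 3, 5), 22), ((5, 4, 2), (2, 3, 5), -879),
    ((6, 7, 9), (2, 3, 5), -2519), ((9, 8, 6), (2, 3, 5), 386), ((0, 1, 12), (2, 3, 5), 142), ((13, 6, 8), (2, 3, 5), 1938),
    ((7, 6, 1), (0, 1, 6), -278), ((4, 5, 10), (0, 1, 6), -275), ((11, 10, 5), (0, 1, 6), -656), ((9, 8, 12), (0, 1, 6), 1002),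
    ((6, 13, 0), (0, 1, 6), 399), ((6, 4, 0), (0, 2, 6), -545), ((1, 3, 7), (0, 2, 6), -1183), ((7, 5, 1), (0, 2, 6), -661),
    ((4, 6, 10), (0, 2, 6), 438), ((10, 8, 4), (0, 2, 6), -1424), ((5, 7, 11), (0, 2, 6), -924), ((11, 9, 5), (0, 2, 6), -616),
    ((12, 5, 9), (0, 2, 6), 4741), ((6, 5, 1), (1, 2, 6), -1471), ((5, 6, 10), (1, 2, 6), -267), ((10, 9, 5), (1, 2, 6), 674),
    ((12, 4, 8), (1, 2, 6), 473), ((13, 4, 0), (1, 2, 6), 205), ((7, 4, 1), (0, 3, 6), -1264), ((4, 7, 10), (0, 3, 6), -674),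
    ((11, 8, 5), (0, 3, 6), 22), ((6, 4, 1), (1, 3, 6), -879), ((5, 7, 10), (1, 3, 6), -2519), ((10, 8, 5), (1, 3, 6), 386),
    ((12, 5, 8), (1, 3, 6), 1938), ((0, 2, 13), (1, 3, 6), 142), ((1, 2, 7), (6, 5, 0), -221), ((10, 9, 4), (6, 5, 0), 105),
    ((5, 6, 11), (6, 5, 0), -413), ((12, 4, 9), (6, 5, 0), 967), ((4, 13, 10), (6, 5, 0), 967), ((7, 6, 0), (0, 1, 7), 1299),
    ((4, 5, 11), (0, 1, 7), 312), ((11, 10, 4), (0, 1, 7), -5), ((7, 5, 0), (0, 2, 7), 1299), ((4, 6, 11), (0, 2, 7), 312),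
    ((11, 9, 4), (0, 2, 7), -5), ((7, 4, 0), (0, 3, 7), -354), ((4, 7, 11), (0, 3, 7), -78), ((11, 8, 4), (0, 3, 7), -1503),
    ((9, 8, 1), (0, 1, 8), -594), ((2, 3, 10), (0, 1, 8), 898), ((11, 10, 3), (0, 1, 8), 439), ((1, 3, 9), (0, 2, 8), 898),
    ((10, 8, 2), (0, 2, 8), -594), ((11, 9, 3), (0, 2, 8), 439), ((10, 9, 3), (1, 2, 8), 727), ((11, 8, 3), (0, 3, 8), -43),
    ((10, 8, 3), (1, 3, 8), 1098), ((9, 8, 3), (2, 3, 8), 1098), ((1, 5, 9), (0, 4, 8), 1591), ((2, 6, 10), (0, 4, 8), 1591),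
    ((3, 7, 11), (0, 4, 8), -1007), ((8, 5, 1), (1, 4, 8), -1460), ((3, 6, 10), (1, 4, 8), 1751), ((10, 7, 3), (1, 4, 8), 528),
    ((8, 6, 2), (2, 4, 8), -1460), ((3, 5, 9), (2, 4, 8), 1751), ((9, 7, 3), (2, 4, 8), 528), ((8, 7, 3), (3, 4, 8), -1112),
    ((1, 4, 9), (8, 5, 0), 443), ((10, 7, 2), (8, 5, 0), 228), ((3, 6, 11), (8, 5, 0), -351), ((2, 13, 10), (8, 5, 0), -207),
    ((9, 6, 3), (2, 5, 8), 1070), ((8, 13, 2), (2, 5, 8), -1367), ((9, 7, 1), (8, 6, 0), 228), ((2, 4, 10), (8, 6, 0), 443),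
    ((3, 5, 11), (8, 6, 0), -351), ((1, 12, 9), (8, 6, 0), -207), ((3, 5, 10), (8, 6, 1), 1070), ((1, 12, 8), (8, 6, 1), -1367),
    ((3, 4, 11), (8, 7, 0), 554), ((3, 4, 10), (8, 7, 1), -870), ((3, 4, 9), (8, 7, 2), -870), ((9, 8, 0), (0, 1, 9), -430),
    ((2, 3, 11), (0, 1, 9), 46), ((11, 10, 2), (0, 1, 9), 618), ((11, 9, 2), (0, 2, 9), 362), ((10, 9, 2), (1, 2, 9), 224),
    ((11, 8, 2), (0, 3, 9), 63), ((9, 8, 2), (2, 3, 9), -267), ((9, 5, 0), (0, 4, 9), 443), ((2, 6, 11), (0, 4, 9), 449),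
    ((11, 7, 2), (0, 4, 9), -868), ((9, 7, 2), (2, 4, 9), -177), ((9, 6, 2), (2, 5, 9), -618), ((2, 5, 11), (9, 6, 0), 53),
    ((0, 12, 9), (9, 6, 0), -128), ((2, 5, 10), (9, 6, 1), 550), ((0, 12, 8), (9, 6, 1), -550), ((8, 13, 0), (9, 6, 1), -550),
    ((2, 4, 11), (9, 7, 0), -18), ((11, 10, 1), (0, 1, 10), 362), ((10, 8, 0), (0, 2, 10), -430), ((1, 3, 11), (0, 2, 10), 46),
    ((11, 9, 1), (0, 2, 10), 618), ((10, 9, 1), (1, 2, 10), 224), ((11, 8, 1), (0, 3, 10), 63), ((10, 8, 1), (1, 3, 10), -267),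
    ((10, 6, 0), (0, 4, 10), 443), ((1, 5, 11), (0, 4, 10), 449), ((11, 7, 1), (0, 4, 10), -868), ((10, 7, 1), (1, 4, 10), -177),
    ((11, 6, 1), (0, 5, 10), 53), ((10, 13, 0), (0, 5, 10), -128), ((10, 6, 1), (1, 5, 10), 618), ((1, 4, 11), (10, 7, 0), -18),
    ((1, 2, 11), (10, 9, 0), 116), ((11, 10, 0), (0, 1, 11), 124), ((11, 9, 0), (0, 2, 11), 124), ((11, 8, 0), (0, 3, 11), -62),
    ((11, 7, 0), (0, 4, 11), 562), ((5, 12, 2), (0, 2, 12), 514), ((4, 12, 2), (1, 2, 12), -694), ((5, 12, 3), (1, 3, 12), -1374),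
    ((12, 6, 9), (6, 12, 0), 238), ((12, 6, 8), (6, 12, 1), -463), ((6, 5, 12), (12, 4, 6), -74), ((12, 7, 9), (7, 12, 1), 502),
    ((10, 9, 12), (12, 4, 10), -259), ((10, 8, 12), (12, 5, 10), -237), ((11, 9, 12), (12, 5, 11), 589), ((6, 13, 1), (0, 1, 13), 514),
    ((13, 4, 1), (1, 2, 13), -694), ((6, 13, 3), (2, 3, 13), -1374), ((5, 13, 10), (13, 5, 0), 238), ((5, 13, 8), (13, 5, 2), -463),
    ((6, 13, 5), (4, 5, 13), -74), ((13, 7, 10), (7, 13, 2), 502), ((10, 9, 13), (4, 13, 9), -259), ((9, 8, 13), (13, 6, 9), -237),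
    ((11, 10, 13), (13, 6, 11), 589), ((12, 13, 8), (13, 12, 0), 292)]
  tr := tr14
  big := 32768

theorem ct76_valid : validC ct76 = true := by decide +kernel

theorem ct76_const : constOK ct76 12791 = true := by decide +kernel

/-- classes -/
def cs76 : List Cl := [
 cl 0 1 0 1 19316 0 147, cl 0 2 0 0 2634 0 106, cl 1 0 0 0 25114 0 119, cl 1 1 0 1 3162 0 211,
 cl 1 2 0 0 2515 0 237, cl 2 0 0 0 227 0 84, cl 2 1 0 1 988 0 106, cl 2 2 0 0 0 377 168,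
 cl 1 0 0 2 1608 0 115, cl 0 0 0 2 0 4847 190, cl 1 0 1 1 21680 0 93, cl 2 0 1 1 0 4526 73,
 cl 2 0 0 2 0 96 83, cl 1 0 1 3 0 1572 91, cl 1 0 2 0 0 3508 79, cl 2 0 2 0 0 0 66,
 cl 1 0 2 2 0 2790 79, cl 0 1 0 3 0 648 128, cl 0 2 0 2 1786 0 104, cl 1 1 0 3 0 2316 149,
 cl 1 2 0 2 0 0 174, cl 0 0 0 4 0 292 134]

theorem ct76_link : linkOK ct76 cs76 = true := by decide +kernel

theorem cs76_tail0 : tailOK cs76 93 3 30 12791 = true := by decide +kernel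

theorem cs76_grid0 : gridOK vtTree cs76 93 3 30 2 0 47817838560 21771 12791 = true := by
  decide +kernel

theorem cs76_tail1 : tailOK cs76 90 3 29 12791 = true := by decide +kernel

theorem cs76_grid1 : gridOK vtTree cs76 90 3 29 3 0 47817838560 21771 12791 = true := by
  decide +kernel

theorem cs76_tail2 : tailOK cs76 87 3 28 12791 = true := by decide +kernel

theorem cs76_grid2 : gridOK vtTree cs76 87 3 28 4 0 47817838560 21771 12791 = true := by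
  decide +kernel

theorem cs76_tail3 : tailOK cs76 84 3 27 12791 = true := by decide +kernel

theorem cs76_grid3 : gridOK vtTree cs76 84 3 27 5 0 47817838560 21771 12791 = true := by
  decide +kernel

theorem cs76_tail4 : tailOK cs76 81 3 26 12791 = true := by decide +kernel

theorem cs76_grid4 : gridOK vtTree cs76 81 3 26 6 0 47817838560 21771 12791 = true := by
  decide +kernel

theorem cs76_tail5 : tailOK cs76 80 1 25 12791 = true := by decide +kernel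

theorem cs76_grid5 : gridOK vtTree cs76 80 1 25 7 0 47817838560 21771 12791 = true := by
  decide +kernel

end Pool.Agent.H79.OC
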