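import Pool.Agent.H79.OC.Pts
import Pool.Agent.H79.OC.Pts2
import Pool.Agent.H79.OC.VTab
import Pool.Agent.H79.OC.Swp

set_option autoImplicit false
set_option maxRecDepth 100000

/-!
# Certificates, part 40
-/

namespace Pool.Agent.H79.OC

open Cl

/-! ### Box 77: `64 ≤ -128 x ≤ 80`, `20 ≤ 128 y ≤ 32` -/

/-- certificate -/
def ct77 : Cert where
  pts := pts14
  g := 771
  al := [(0, -664), (1, -466), (2, -466), (3, 266), (4, -2390), (5, -5399), (6, -5399), (7, -5005), (8, -1440), (9, -1052), (10, -1052), (11, -1490), (12, 302), (13, 302)]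
  be := [
    (1, 0, 1051), (2, 0, 1051), (2, 1, -303), (3, 0, 699), (3, 1, -267), (3, 2, -267), (4, 0, 1916),
    (4, 1, 1805), (4, 2, 1805), (4, 3, -1691), (5, 0, 352), (5, 1, 5111), (5, 2, 515), (5, 3, 3897),
    (5, 4, 4066), (6, 0, 352), (6, 1, 515), (6, 2, 5111), (6, 3, 3897), (6, 4, 4066), (6, 5, -605),
    (7, 0, -158), (7, 1, -348), (7, 2, -348), (7, 3, 4456), (7, 4, 859), (7, 5, 4579), (7, 6, 4579),
    (8, 0, -268), (8, 1, -1169), (8, 2, -1169), (8, 3, 243), (8, 4, 3366), (8, 5, 2734), (8, 6, 2734),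
    (8, 7, -1437), (9, 0, -10), (9, 1, 63), (9, 3, -1734), (9, 4, 51), (9, 5, 1881), (9, 6, 32),
    (9, 7, 3617), (9, 8, 1413), (10, 0, -10), (10, 2, 63), (10, 3, -1734), (10, 4, 51), (10, 5, 32),
    (10, 6, 1881), (10, 7, 3617), (10, 8, 1413), (10, 9, 611), (11, 0, -29), (11, 1, 10), (11, 2, 10),
    (11, 3, 521), (11, 4, 807), (11, 5, -169), (11, 6, -169), (11, 7, 1661), (11, 8, 217), (11, 9, 1186),
    (11, 10, 1186), (12, 0, 212), (12, 1, 352), (12, 2, -421), (12, 3, -1416), (12, 4, -1709), (12, 5, 118),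
    (12, 6, -129), (12, 7, 453), (12, 8, 646), (12, 9, 51), (12, 10, -195), (12, 11, 661), (13, 0, 212),
    (13, 1, -421), (13, 2, 352), (13, 3, -1416), (13, 4, -1709), (13, 5, -129), (13, 6, 118), (13, 7, 453),
    (13, 8, 646), (13, 9, -195), (13, 10, 51), (13, 11, 661), (13, 12, -302)]
  ta := [
    ((3, 2, 1), (0, 1, 2), 1501), ((4, 5, 6), (0, 1, 2), -988), ((7, 6, 5), (0, 1, 2), -2167), ((8, 9, 10), (0, 1, 2), 407),
    ((11, 10, 9), (0, 1, 2), -403), ((5, 4, 12), (0, 1, 2), 776), ((6, 13, 4), (0, 1, 2), 776), ((3, 2, 0), (0, 1, 3), -967),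
    ((4, 5, 7), (0, 1, 3), 2053), ((7, 6, 4), (0, 1, 3), 2053), ((8, 9, 11), (0, 1, 3), -1086), ((11, 10, 8), (0, 1, 3), -1086),
    ((6, 5, 3), (1, 2, 4), -333), ((5, 6, 8), (1, 2, 4), -294), ((10, 9, 7), (1, 2, 4), -618), ((4, 12, 1), (1, 2, 4), 464),
    ((13, 4, 2), (1, 2, 4), 464), ((7, 4, 3), (0, 3, 4), -494), ((4, 7, 8), (0, 3, 4), 13), ((11, 8, 7), (0, 3, 4), 130),
    ((6, 4, 3), (1, 3, 4), 110), ((5, 7, 8), (1, 3, 4), 316), ((10, 8, 7), (1, 3, 4), -544), ((5, 4, 3), (2, 3, 4), 110),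
    ((6, 7, 8), (2, 3, 4), 316), ((9, 8, 7), (2, 3, 4), -544), ((5, 4, 0), (0, 1, 5), -746), ((2, 3, 7), (0, 1, 5), -70),
    ((7, 6, 2), (0, 1, 5), 839), ((4, 5, 9), (0, 1, 5), -483), ((9, 8, 4), (0, 1, 5), -656), ((6, 7, 11), (0, 1, 5), -135),
    ((11, 10, 6), (0, 1, 5), -981), ((13, 6, 10), (0, 1, 5), 3252), ((7, 5, 2), (0, 2, 5), -76), ((4, 6, 9), (0, 2, 5), 169),
    ((11, 9, 6), (0, 2, 5), 143), ((5, 12, 0), (0, 2, 5), 11), ((10, 8, 13), (0, 2, 5), -242), ((6, 5, 2), (1, 2, 5), -162),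
    ((5, 6, 9), (1, 2, 5), 291), ((10, 9, 6), (1, 2, 5), -320), ((4, 12, 0), (1, 2, 5), -529), ((4, 13, 8), (1, 2, 5), 1106),
    ((7, 4, 2), (0, 3, 5), 506), ((4, 7, 9), (0, 3, 5), -76), ((11, 8, 6), (0, 3, 5), 39), ((5, 4, 2), (2, 3, 5), -1341),
    ((6, 7, 9), (2, 3, 5), -1497), ((9, 8, 6), (2, 3, 5), 431), ((0, 1, 12), (2, 3, 5), -484), ((13, 6, 8), (2, 3, 5), 1833),
    ((7, 6, 1), (0, 1, 6), -76), ((4, 5, 10), (0, 1, 6), 169), ((11, 10, 5), (0, 1, 6), 143), ((9, 8, 12), (0, 1, 6), -242),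
    ((6, 13, 0), (0, 1, 6), 11), ((6, 4, 0), (0, 2, 6), -746), ((1, 3, 7), (0, 2, 6), -70), ((7, 5, 1), (0, 2, 6), 839),
    ((4, 6, 10), (0, 2, 6), -483), ((10, 8, 4), (0, 2, 6), -656), ((5, 7, 11), (0, 2, 6), -135), ((11, 9, 5), (0, 2, 6), -981),
    ((12, 5, 9), (0, 2, 6), 3252), ((6, 5, 1), (1, 2, 6), -162), ((5, 6, 10), (1, 2, 6), 291), ((10, 9, 5), (1, 2, 6), -320),
    ((12, 4, 8), (1, 2, 6), 1106), ((13, 4, 0), (1, 2, 6), -529), ((7, 4, 1), (0, 3, 6), 506), ((4, 7, 10), (0, 3, 6), -76),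
    ((11, 8, 5), (0, 3, 6), 39), ((6, 4, 1), (1, 3, 6), -1341), ((5, 7, 10), (1, 3, 6), -1497), ((10, 8, 5), (1, 3, 6), 431),
    ((12, 5, 8), (1, 3, 6), 1833), ((0, 2, 13), (1, 3, 6), -484), ((1, 2, 7), (6, 5, 0), -31), ((10, 9, 4), (6, 5, 0), -337),
    ((5, 6, 11), (6, 5, 0), -494), ((12, 4, 9), (6, 5, 0), 497), ((4, 13, 10), (6, 5, 0), 497), ((7, 6, 0), (0, 1, 7), -310),
    ((4, 5, 11), (0, 1, 7), -191), ((11, 10, 4), (0, 1, 7), 142), ((7, 5, 0), (0, 2, 7), -310), ((4, 6, 11), (0, 2, 7), -191),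
    ((11, 9, 4), (0, 2, 7), 142), ((7, 4, 0), (0, 3, 7), 395), ((4, 7, 11), (0, 3, 7), 188), ((11, 8, 4), (0, 3, 7), -684),
    ((9, 8, 1), (0, 1, 8), 471), ((2, 3, 10), (0, 1, 8), 70), ((11, 10, 3), (0, 1, 8), -484), ((1, 3, 9), (0, 2, 8), 70),
    ((10, 8, 2), (0, 2, 8), 471), ((11, 9, 3), (0, 2, 8), -484), ((10, 9, 3), (1, 2, 8), -85), ((11, 8, 3), (0, 3, 8), 26),
    ((10, 8, 3), (1, 3, 8), 220), ((9, 8, 3), (2, 3, 8), 220), ((1, 5, 9), (0, 4, 8), 163), ((2, 6, 10), (0, 4, 8), 163),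
    ((3, 7, 11), (0, 4, 8), -107), ((8, 5, 1), (1, 4, 8), -319), ((3, 6, 10), (1, 4, 8), 648), ((10, 7, 3), (1, 4, 8), -493),
    ((8, 6, 2), (2, 4, 8), -319), ((3, 5, 9), (2, 4, 8), 648), ((9, 7, 3), (2, 4, 8), -493), ((8, 7, 3), (3, 4, 8), -183),
    ((1, 4, 9), (8, 5, 0), -568), ((10, 7, 2), (8, 5, 0), 68), ((3, 6, 11), (8, 5, 0), 376), ((2, 13, 10), (8, 5, 0), -55),
    ((9, 6, 3), (2, 5, 8), 691), ((8, 13, 2), (2, 5, 8), -740), ((9, 7, 1), (8, 6, 0), 68), ((2, 4, 10), (8, 6, 0), -568),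
    ((3, 5, 11), (8, 6, 0), 376), ((1, 12, 9), (8, 6, 0), -55), ((3, 5, 10), (8, 6, 1), 691), ((1, 12, 8), (8, 6, 1), -740),
    ((3, 4, 11), (8, 7, 0), -24), ((3, 4, 10), (8, 7, 1), 68), ((3, 4, 9), (8, 7, 2), 68), ((9, 8, 0), (0, 1, 9), 262),
    ((2, 3, 11), (0, 1, 9), -197), ((11, 10, 2), (0, 1, 9), 92), ((11, 9, 2), (0, 2, 9), -95), ((10, 9, 2), (1, 2, 9), 37),
    ((11, 8, 2), (0, 3, 9), -28), ((9, 8, 2), (2, 3, 9), -284), ((9, 5, 0), (0, 4, 9), 112), ((2, 6, 11), (0, 4, 9), 986),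
    ((11, 7, 2), (0, 4, 9), -736), ((9, 7, 2), (2, 4, 9), -338), ((9, 6, 2), (2, 5, 9), 229), ((2, 5, 11), (9, 6, 0), 36),
    ((0, 12, 9), (9, 6, 0), 49), ((2, 5, 10), (9, 6, 1), 28), ((0, 12, 8), (9, 6, 1), -28), ((8, 13, 0), (9, 6, 1), -28),
    ((2, 4, 11), (9, 7, 0), 33), ((11, 10, 1), (0, 1, 10), -95), ((10, 8, 0), (0, 2, 10), 262), ((1, 3, 11), (0, 2, 10), -197),
    ((11, 9, 1), (0, 2, 10), 92), ((10, 9, 1), (1, 2, 10), 37), ((11, 8, 1), (0, 3, 10), -28), ((10, 8, 1), (1, 3, 10), -284),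
    ((10, 6, 0), (0, 4, 10), 112), ((1, 5, 11), (0, 4, 10), 986), ((11, 7, 1), (0, 4, 10), -736), ((10, 7, 1), (1, 4, 10), -338),
    ((11, 6, 1), (0, 5, 10), 36), ((10, 13, 0), (0, 5, 10), 49), ((10, 6, 1), (1, 5, 10), -229), ((1, 4, 11), (10, 7, 0), 33),
    ((1, 2, 11), (10, 9, 0), -28), ((11, 10, 0), (0, 1, 11), -41), ((11, 9, 0), (0, 2, 11), -41), ((11, 8, 0), (0, 3, 11), 54),
    ((11, 7, 0), (0, 4, 11), -107), ((5, 12, 2), (0, 2, 12), 143), ((4, 12, 2), (1, 2, 12), -2), ((5, 12, 3), (1, 3, 12), -1483),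
    ((12, 6, 9), (6, 12, 0), -415), ((12, 6, 8), (6, 12, 1), 138), ((6, 5, 12), (12, 4, 6), -439), ((12, 7, 9), (7, 12, 1), -239),
    ((10, 9, 12), (12, 4, 10), -188), ((10, 8, 12), (12, 5, 10), -373), ((11, 9, 12), (12, 5, 11), 179), ((6, 13, 1), (0, 1, 13), 143),
    ((13, 4, 1), (1, 2, 13), -2), ((6, 13, 3), (2, 3, 13), -1483), ((5, 13, 10), (13, 5, 0), -415), ((5, 13, 8), (13, 5, 2), 138),
    ((6, 13, 5), (4, 5, 13), -439), ((13, 7, 10), (7, 13, 2), -239), ((10, 9, 13), (4, 13, 9), -188), ((9, 8, 13), (13, 6, 9), -373),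
    ((11, 10, 13), (13, 6, 11), 179), ((12, 13, 8), (13, 12, 0), 99)]
  tr := tr14
  big := 16384

theorem ct77_valid : validC ct77 = true := by decide +kernel

theorem ct77_const : constOK ct77 14150 = true := by decide +kernel

/-- classes -/
def cs77 : List Cl := [
 cl 0 1 0 1 24292 0 164, cl 0 2 0 0 1775 0 119, cl 1 0 0 0 25383 0 119, cl 1 1 0 1 0 126 186,
 cl 1 2 0 0 649 0 423, cl 2 0 0 0 379 0 84, cl 2 1 0 1 0 0 101, cl 2 2 0 0 0 29 137,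
 cl 1 0 0 2 2810 0 116, cl 0 0 0 2 0 3715 212, cl 1 0 1 1 24810 0 97, cl 2 0 1 1 0 5806 75,
 cl 2 0 0 2 0 0 84, cl 1 0 1 3 0 842 95, cl 1 0 2 0 0 3128 84, cl 2 0 2 0 243 0 69,
 cl 1 0 2 2 0 2832 84, cl 0 1 0 3 0 258 144, cl 0 2 0 2 906 0 116, cl 1 1 0 3 0 390 153,
 cl 1 2 0 2 1322 0 212, cl 0 0 0 4 0 302 150]

theorem ct77_link : linkOK ct77 cs77 = true := by decide +kernel

theorem cs77_tail0 : tailOK cs77 77 3 25 14150 = true := by decide +kernel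

theorem cs77_grid0 : gridOK vtTree cs77 77 3 25 7 0 53805064640 19980 14150 = true := by
  decide +kernel

theorem cs77_tail1 : tailOK cs77 74 3 24 14150 = true := by decide +kernel

theorem cs77_grid1 : gridOK vtTree cs77 74 3 24 8 0 53805064640 19980 14150 = true := by
  decide +kernel

theorem cs77_tail2 : tailOK cs77 71 3 23 14150 = true := by decide +kernel

theorem cs77_grid2 : gridOK vtTree cs77 71 3 23 9 0 53805064640 19980 14150 = true := by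
  decide +kernel

theorem cs77_tail3 : tailOK cs77 68 3 22 14150 = true := by decide +kernel

theorem cs77_grid3 : gridOK vtTree cs77 68 3 22 10 0 53805064640 19980 14150 = true := by
  decide +kernel

theorem cs77_tail4 : tailOK cs77 65 3 21 14150 = true := by decide +kernel

theorem cs77_grid4 : gridOK vtTree cs77 65 3 21 11 0 53805064640 19980 14150 = true := by
  decide +kernel

theorem cs77_tail5 : tailOK cs77 64 1 20 14150 = true := by decide +kernel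

theorem cs77_grid5 : gridOK vtTree cs77 64 1 20 12 0 53805064640 19980 14150 = true := by
  decide +kernel

/-! ### Box 78: `48 ≤ -128 x ≤ 50`, `15 ≤ 128 y ≤ 16` -/

/-- certificate -/
def ct78 : Cert where
  pts := pts14
  g := 10701
  al := [(0, 4293), (1, 4373), (2, 4373), (3, 5702), (4, 72), (5, -1341), (6, -1341), (7, -5923), (8, -876), (9, 611), (10, 611), (11, -775), (12, 2681), (13, 2681)]
  be := [
    (1, 0, -444), (2, 0, -444), (2, 1, -4073), (3, 0, -3262), (3, 1, -2033), (3, 2, -2033), (4, 0, 1553),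
    (4, 1, 1031), (4, 2, 1031), (4, 3, -3891), (5, 0, -1818), (5, 1, 5160), (5, 2, -751), (5, 3, 3720),
    (5, 4, 3454), (6, 0, -1818), (6, 1, -751), (6, 2, 5160), (6, 3, 3720), (6, 4, 3454), (6, 5, -459),
    (7, 0, 644), (7, 1, -245), (7, 2, -245), (7, 3, 5686), (7, 4, 2757), (7, 5, 5383), (7, 6, 5383),
    (8, 0, -429), (8, 1, -793), (8, 2, -793), (8, 4, 5014), (8, 5, 2739), (8, 6, 2739), (8, 7, -894),
    (9, 0, -217), (9, 1, 197), (9, 2, -980), (9, 3, -1866), (9, 4, 390), (9, 5, -299), (9, 6, 216),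
    (9, 7, 3089), (9, 8, 1806), (10, 0, -217), (10, 1, -980), (10, 2, 197), (10, 3, -1866), (10, 4, 390),
    (10, 5, 216), (10, 6, -299), (10, 7, 3089), (10, 8, 1806), (10, 9, -713), (11, 0, -8), (11, 1, 217),
    (11, 2, 217), (11, 3, 255), (11, 4, 18), (11, 5, 112), (11, 6, 112), (11, 7, 1777), (11, 8, 505),
    (11, 9, 1337), (11, 10, 1337), (12, 0, -1470), (12, 1, -330), (12, 2, -1109), (12, 3, -1848), (12, 4, -1956),
    (12, 5, -1021), (12, 6, -493), (12, 7, 719), (12, 8, -412), (12, 9, -18), (12, 10, 140), (12, 11, -23),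
    (13, 0, -1470), (13, 1, -1109), (13, 2, -330), (13, 3, -1848), (13, 4, -1956), (13, 5, -493), (13, 6, -1021),
    (13, 7, 719), (13, 8, -412), (13, 9, 140), (13, 10, -18), (13, 11, -23), (13, 12, -16)]
  ta := [
    ((3, 2, 1), (0, 1, 2), 2102), ((4, 5, 6), (0, 1, 2), -2256), ((7, 6, 5), (0, 1, 2), -2866), ((8, 9, 10), (0, 1, 2), 697),
    ((11, 10, 9), (0, 1, 2), 126), ((5, 4, 12), (0, 1, 2), 251), ((6, 13, 4), (0, 1, 2), 251), ((3, 2, 0), (0, 1, 3), 205),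
    ((4, 5, 7), (0, 1, 3), 874), ((7, 6, 4), (0, 1, 3), 874), ((8, 9, 11), (0, 1, 3), -1079), ((11, 10, 8), (0, 1, 3), -1079),
    ((6, 5, 3), (1, 2, 4), -1635), ((5, 6, 8), (1, 2, 4), -2280), ((10, 9, 7), (1, 2, 4), 703), ((4, 12, 1), (1, 2, 4), 586),
    ((13, 4, 2), (1, 2, 4), 586), ((7, 4, 3), (0, 3, 4), 205), ((4, 7, 8), (0, 3, 4), 440), ((11, 8, 7), (0, 3, 4), -705),
    ((6, 4, 3), (1, 3, 4), 417), ((5, 7, 8), (1, 3, 4), -61), ((10, 8, 7), (1, 3, 4), -1097), ((5, 4, 3), (2, 3, 4), 417),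
    ((6, 7, 8), (2, 3, 4), -61), ((9, 8, 7), (2, 3, 4), -1097), ((5, 4, 0), (0, 1, 5), -84), ((2, 3, 7), (0, 1, 5), -819),
    ((7, 6, 2), (0, 1, 5), 450), ((4, 5, 9), (0, 1, 5), 358), ((9, 8, 4), (0, 1, 5), -1306), ((6, 7, 11), (0, 1, 5), -402),
    ((11, 10, 6), (0, 1, 5), -878), ((13, 6, 10), (0, 1, 5), 3937), ((7, 5, 2), (0, 2, 5), -1220), ((4, 6, 9), (0, 2, 5), -119),
    ((11, 9, 6), (0, 2, 5), -163), ((5, 12, 0), (0, 2, 5), 798), ((10, 8, 13), (0, 2, 5), 105), ((6, 5, 2), (1, 2, 5), 336),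
    ((5, 6, 9), (1, 2, 5), 268), ((10, 9, 6), (1, 2, 5), 168), ((4, 12, 0), (1, 2, 5), -93), ((4, 13, 8), (1, 2, 5), 89),
    ((7, 4, 2), (0, 3, 5), -1062), ((4, 7, 9), (0, 3, 5), -41), ((11, 8, 6), (0, 3, 5), 191), ((5, 4, 2), (2, 3, 5), -185),
    ((6, 7, 9), (2, 3, 5), -881), ((9, 8, 6), (2, 3, 5), -789), ((0, 1, 12), (2, 3, 5), 281), ((13, 6, 8), (2, 3, 5), 2356),
    ((7, 6, 1), (0, 1, 6), -1220), ((4, 5, 10), (0, 1, 6), -119), ((11, 10, 5), (0, 1, 6), -163), ((9, 8, 12), (0, 1, 6), 105),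
    ((6, 13, 0), (0, 1, 6), 798), ((6, 4, 0), (0, 2, 6), -84), ((1, 3, 7), (0, 2, 6), -819), ((7, 5, 1), (0, 2, 6), 450),
    ((4, 6, 10), (0, 2, 6), 358), ((10, 8, 4), (0, 2, 6), -1306), ((5, 7, 11), (0, 2, 6), -402), ((11, 9, 5), (0, 2, 6), -878),
    ((12, 5, 9), (0, 2, 6), 3937), ((6, 5, 1), (1, 2, 6), 336), ((5, 6, 10), (1, 2, 6), 268), ((10, 9, 5), (1, 2, 6), 168),
    ((12, 4, 8), (1, 2, 6), 89), ((13, 4, 0), (1, 2, 6), -93), ((7, 4, 1), (0, 3, 6), -1062), ((4, 7, 10), (0, 3, 6), -41),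
    ((11, 8, 5), (0, 3, 6), 191), ((6, 4, 1), (1, 3, 6), -185), ((5, 7, 10), (1, 3, 6), -881), ((10, 8, 5), (1, 3, 6), -789),
    ((12, 5, 8), (1, 3, 6), 2356), ((0, 2, 13), (1, 3, 6), 281), ((1, 2, 7), (6, 5, 0), 999), ((10, 9, 4), (6, 5, 0), -314),
    ((5, 6, 11), (6, 5, 0), -388), ((12, 4, 9), (6, 5, 0), 123), ((4, 13, 10), (6, 5, 0), 123), ((7, 6, 0), (0, 1, 7), 229),
    ((4, 5, 11), (0, 1, 7), 407), ((11, 10, 4), (0, 1, 7), -281), ((7, 5, 0), (0, 2, 7), 229), ((4, 6, 11), (0, 2, 7), 407),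
    ((11, 9, 4), (0, 2, 7), -281), ((7, 4, 0), (0, 3, 7), -1592), ((4, 7, 11), (0, 3, 7), 755), ((11, 8, 4), (0, 3, 7), 259),
    ((9, 8, 1), (0, 1, 8), 493), ((2, 3, 10), (0, 1, 8), 181), ((11, 10, 3), (0, 1, 8), -118), ((1, 3, 9), (0, 2, 8), 181),
    ((10, 8, 2), (0, 2, 8), 493), ((11, 9, 3), (0, 2, 8), -118), ((10, 9, 3), (1, 2, 8), 72), ((11, 8, 3), (0, 3, 8), -267),
    ((10, 8, 3), (1, 3, 8), -11), ((9, 8, 3), (2, 3, 8), -11), ((1, 5, 9), (0, 4, 8), 766), ((2, 6, 10), (0, 4, 8), 766),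
    ((3, 7, 11), (0, 4, 8), -1164), ((8, 5, 1), (1, 4, 8), 584), ((3, 6, 10), (1, 4, 8), 1080), ((10, 7, 3), (1, 4, 8), -928),
    ((8, 6, 2), (2, 4, 8), 584), ((3, 5, 9), (2, 4, 8), 1080), ((9, 7, 3), (2, 4, 8), -928), ((8, 7, 3), (3, 4, 8), 518),
    ((1, 4, 9), (8, 5, 0), -543), ((10, 7, 2), (8, 5, 0), 14), ((3, 6, 11), (8, 5, 0), 31), ((2, 13, 10), (8, 5, 0), -238),
    ((9, 6, 3), (2, 5, 8), -7), ((8, 13, 2), (2, 5, 8), 323), ((9, 7, 1), (8, 6, 0), 14), ((2, 4, 10), (8, 6, 0), -543),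
    ((3, 5, 11), (8, 6, 0), 31), ((1, 12, 9), (8, 6, 0), -238), ((3, 5, 10), (8, 6, 1), -7), ((1, 12, 8), (8, 6, 1), 323),
    ((3, 4, 11), (8, 7, 0), -78), ((3, 4, 10), (8, 7, 1), -31), ((3, 4, 9), (8, 7, 2), -31), ((9, 8, 0), (0, 1, 9), 133),
    ((2, 3, 11), (0, 1, 9), -18), ((11, 10, 2), (0, 1, 9), 23), ((11, 9, 2), (0, 2, 9), -103), ((10, 9, 2), (1, 2, 9), -251),
    ((11, 8, 2), (0, 3, 9), -214), ((9, 8, 2), (2, 3, 9), -552), ((9, 5, 0), (0, 4, 9), 769), ((2, 6, 11), (0, 4, 9), -13),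
    ((11, 7, 2), (0, 4, 9), -130), ((9, 7, 2), (2, 4, 9), -442), ((9, 6, 2), (2, 5, 9), 214), ((2, 5, 11), (9, 6, 0), -15),
    ((0, 12, 9), (9, 6, 0), 246), ((2, 5, 10), (9, 6, 1), -75), ((0, 12, 8), (9, 6, 1), 75), ((8, 13, 0), (9, 6, 1), 75),
    ((2, 4, 11), (9, 7, 0), 6), ((11, 10, 1), (0, 1, 10), -103), ((10, 8, 0), (0, 2, 10), 133), ((1, 3, 11), (0, 2, 10), -18),
    ((11, 9, 1), (0, 2, 10), 23), ((10, 9, 1), (1, 2, 10), -251), ((11, 8, 1), (0, 3, 10), -214), ((10, 8, 1), (1, 3, 10), -552),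
    ((10, 6, 0), (0, 4, 10), 769), ((1, 5, 11), (0, 4, 10), -13), ((11, 7, 1), (0, 4, 10), -130), ((10, 7, 1), (1, 4, 10), -442),
    ((11, 6, 1), (0, 5, 10), -15), ((10, 13, 0), (0, 5, 10), 246), ((10, 6, 1), (1, 5, 10), -214), ((1, 4, 11), (10, 7, 0), 6),
    ((1, 2, 11), (10, 9, 0), 102), ((11, 10, 0), (0, 1, 11), -1), ((11, 9, 0), (0, 2, 11), -1), ((11, 8, 0), (0, 3, 11), -8),
    ((11, 7, 0), (0, 4, 11), 7), ((5, 12, 2), (0, 2, 12), 333), ((4, 12, 2), (1, 2, 12), -237), ((5, 12, 3), (1, 3, 12), -1114),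
    ((12, 6, 9), (6, 12, 0), -613), ((12, 6, 8), (6, 12, 1), 173), ((6, 5, 12), (12, 4, 6), -323), ((12, 7, 9), (7, 12, 1), -165),
    ((10, 9, 12), (12, 4, 10), 21), ((10, 8, 12), (12, 5, 10), 30), ((11, 9, 12), (12, 5, 11), 8), ((6, 13, 1), (0, 1, 13), 333),
    ((13, 4, 1), (1, 2, 13), -237), ((6, 13, 3), (2, 3, 13), -1114), ((5, 13, 10), (13, 5, 0), -613), ((5, 13, 8), (13, 5, 2), 173),
    ((6, 13, 5), (4, 5, 13), -323), ((13, 7, 10), (7, 13, 2), -165), ((10, 9, 13), (4, 13, 9), 21), ((9, 8, 13), (13, 6, 9), 30),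
    ((11, 10, 13), (13, 6, 11), 8), ((12, 13, 8), (13, 12, 0), 16)]
  tr := tr14
  big := 32768

theorem ct78_valid : validC ct78 = true := by decide +kernel

theorem ct78_const : constOK ct78 15109 = true := by decide +kernel

/-- classes -/
def cs78 : List Cl := [
 cl 0 1 0 1 16964 0 189, cl 0 2 0 0 0 0 137, cl 1 0 0 0 23752 0 119, cl 1 1 0 1 0 3158 151,
 cl 1 2 0 0 662 0 254, cl 2 0 0 0 220 0 84, cl 2 1 0 1 0 0 94, cl 2 2 0 0 0 8 108,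
 cl 1 0 0 2 0 4834 117, cl 0 0 0 2 0 9157 245, cl 1 0 1 1 20498 0 101, cl 2 0 1 1 0 5318 77,
 cl 2 0 0 2 0 1960 84, cl 1 0 1 3 0 2218 100, cl 1 0 2 0 0 4785 90, cl 2 0 2 0 0 0 72,
 cl 1 0 2 2 0 3696 90, cl 0 1 0 3 0 986 166, cl 0 2 0 2 1438 0 134, cl 1 1 0 3 280 0 142,
 cl 1 2 0 2 0 46 210, cl 0 0 0 4 0 16 173]

theorem ct78_link : linkOK ct78 cs78 = true := by decide +kernel

theorem cs78_tail0 : tailOK cs78 48 2 15 15109 = true := by decide +kernel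

theorem cs78_grid0 : gridOK vtTree cs78 48 2 15 1 0 13421703287 22127 15109 = true := by
  decide +kernel

end Pool.Agent.H79.OC
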