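import Pool.Agent.H79.OC.Pts
import Pool.Agent.H79.OC.VTab

set_option autoImplicit false
set_option maxRecDepth 100000

/-!
# Certificates, part 5
-/

namespace Pool.Agent.H79.OC

open Cl

/-! ### Box 8: `64 ≤ -128 x ≤ 80`, `32 ≤ 128 y ≤ 48` -/

/-- certificate -/
def ct8 : Cert where
  pts := pts14
  g := 880
  al := [(0, -340), (1, -218), (2, -218), (3, 733), (4, -627), (5, -1285), (6, -1285), (7, -1280), (8, -497), (9, 26), (10, 26), (11, -534), (12, 454), (13, 454)]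
  be := [
    (1, 0, 625), (2, 0, 625), (2, 1, -330), (3, 0, -150), (3, 1, -29), (3, 2, -29), (4, 0, 1059),
    (4, 1, 1039), (4, 2, 1039), (4, 3, -818), (5, 0, 38), (5, 1, 1968), (5, 2, 13), (5, 3, 1276),
    (5, 4, 938), (6, 0, 38), (6, 1, 13), (6, 2, 1968), (6, 3, 1276), (6, 4, 938), (6, 5, -103),
    (7, 0, 389), (7, 1, 47), (7, 2, 47), (7, 3, 1276), (7, 4, 153), (7, 5, 1083), (7, 6, 1083),
    (8, 0, 454), (8, 1, 49), (8, 2, 49), (8, 4, 1196), (8, 5, 544), (8, 6, 544), (8, 7, -597),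
    (9, 0, -33), (9, 1, -82), (9, 3, -670), (9, 4, -73), (9, 5, -158), (9, 6, -10), (9, 7, 900),
    (9, 8, 506), (10, 0, -33), (10, 2, -82), (10, 3, -670), (10, 4, -73), (10, 5, -10), (10, 6, -158),
    (10, 7, 900), (10, 8, 506), (10, 9, -158), (11, 0, -54), (11, 1, 33), (11, 2, 33), (11, 3, 382),
    (11, 4, 1), (11, 5, 274), (11, 6, 274), (11, 7, 789), (11, 8, 232), (11, 9, 345), (11, 10, 345),
    (12, 0, -164), (12, 1, -230), (12, 2, -151), (12, 3, -585), (12, 4, -449), (12, 5, 176), (12, 6, -23),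
    (12, 7, 83), (12, 8, 196), (12, 9, -397), (12, 10, -104), (13, 0, -164), (13, 1, -151), (13, 2, -230),
    (13, 3, -585), (13, 4, -449), (13, 5, -23), (13, 6, 176), (13, 7, 83), (13, 8, 196), (13, 9, -104),
    (13, 10, -397), (13, 12, -33)]
  ta := [
    ((3, 2, 1), (0, 1, 2), 338), ((4, 5, 6), (0, 1, 2), -266), ((7, 6, 5), (0, 1, 2), -431), ((8, 9, 10), (0, 1, 2), 121),
    ((11, 10, 9), (0, 1, 2), 25), ((5, 4, 12), (0, 1, 2), 94), ((6, 13, 4), (0, 1, 2), 94), ((3, 2, 0), (0, 1, 3), -183),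
    ((4, 5, 7), (0, 1, 3), 583), ((7, 6, 4), (0, 1, 3), 583), ((8, 9, 11), (0, 1, 3), -400), ((11, 10, 8), (0, 1, 3), -400),
    ((6, 5, 3), (1, 2, 4), -209), ((5, 6, 8), (1, 2, 4), -120), ((10, 9, 7), (1, 2, 4), 5), ((4, 12, 1), (1, 2, 4), 203),
    ((13, 4, 2), (1, 2, 4), 203), ((7, 4, 3), (0, 3, 4), -67), ((4, 7, 8), (0, 3, 4), -120), ((11, 8, 7), (0, 3, 4), 90),
    ((6, 4, 3), (1, 3, 4), 11), ((5, 7, 8), (1, 3, 4), 67), ((10, 8, 7), (1, 3, 4), -79), ((5, 4, 3), (2, 3, 4), 11),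
    ((6, 7, 8), (2, 3, 4), 67), ((9, 8, 7), (2, 3, 4), -79), ((5, 4, 0), (0, 1, 5), -322), ((2, 3, 7), (0, 1, 5), -127),
    ((7, 6, 2), (0, 1, 5), -41), ((4, 5, 9), (0, 1, 5), 128), ((9, 8, 4), (0, 1, 5), -193), ((6, 7, 11), (0, 1, 5), -258),
    ((11, 10, 6), (0, 1, 5), -295), ((13, 6, 10), (0, 1, 5), 1420), ((7, 5, 2), (0, 2, 5), 62), ((4, 6, 9), (0, 2, 5), 86),
    ((11, 9, 6), (0, 2, 5), -131), ((5, 12, 0), (0, 2, 5), 132), ((10, 8, 13), (0, 2, 5), 17), ((6, 5, 2), (1, 2, 5), -107),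
    ((5, 6, 9), (1, 2, 5), -37), ((10, 9, 6), (1, 2, 5), 140), ((4, 12, 0), (1, 2, 5), -183), ((4, 13, 8), (1, 2, 5), 199),
    ((7, 4, 2), (0, 3, 5), -10), ((4, 7, 9), (0, 3, 5), 7), ((11, 8, 6), (0, 3, 5), 9), ((5, 4, 2), (2, 3, 5), -361),
    ((6, 7, 9), (2, 3, 5), -229), ((9, 8, 6), (2, 3, 5), 49), ((0, 1, 12), (2, 3, 5), 24), ((13, 6, 8), (2, 3, 5), 559),
    ((7, 6, 1), (0, 1, 6), 62), ((4, 5, 10), (0, 1, 6), 86), ((11, 10, 5), (0, 1, 6), -131), ((9, 8, 12), (0, 1, 6), 17),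
    ((6, 13, 0), (0, 1, 6), 132), ((6, 4, 0), (0, 2, 6), -322), ((1, 3, 7), (0, 2, 6), -127), ((7, 5, 1), (0, 2, 6), -41),
    ((4, 6, 10), (0, 2, 6), 128), ((10, 8, 4), (0, 2, 6), -193), ((5, 7, 11), (0, 2, 6), -258), ((11, 9, 5), (0, 2, 6), -295),
    ((12, 5, 9), (0, 2, 6), 1420), ((6, 5, 1), (1, 2, 6), -107), ((5, 6, 10), (1, 2, 6), -37), ((10, 9, 5), (1, 2, 6), 140),
    ((12, 4, 8), (1, 2, 6), 199), ((13, 4, 0), (1, 2, 6), -183), ((7, 4, 1), (0, 3, 6), -10), ((4, 7, 10), (0, 3, 6), 7),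
    ((11, 8, 5), (0, 3, 6), 9), ((6, 4, 1), (1, 3, 6), -361), ((5, 7, 10), (1, 3, 6), -229), ((10, 8, 5), (1, 3, 6), 49),
    ((12, 5, 8), (1, 3, 6), 559), ((0, 2, 13), (1, 3, 6), 24), ((1, 2, 7), (6, 5, 0), -42), ((10, 9, 4), (6, 5, 0), -132),
    ((5, 6, 11), (6, 5, 0), -217), ((12, 4, 9), (6, 5, 0), 221), ((4, 13, 10), (6, 5, 0), 221), ((7, 6, 0), (0, 1, 7), -126),
    ((4, 5, 11), (0, 1, 7), 147), ((11, 10, 4), (0, 1, 7), 31), ((7, 5, 0), (0, 2, 7), -126), ((4, 6, 11), (0, 2, 7), 147),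
    ((11, 9, 4), (0, 2, 7), 31), ((7, 4, 0), (0, 3, 7), 145), ((4, 7, 11), (0, 3, 7), 101), ((11, 8, 4), (0, 3, 7), 29),
    ((9, 8, 1), (0, 1, 8), 62), ((2, 3, 10), (0, 1, 8), 129), ((11, 10, 3), (0, 1, 8), 14), ((1, 3, 9), (0, 2, 8), 129),
    ((10, 8, 2), (0, 2, 8), 62), ((11, 9, 3), (0, 2, 8), 14), ((10, 9, 3), (1, 2, 8), 60), ((11, 8, 3), (0, 3, 8), -90),
    ((10, 8, 3), (1, 3, 8), 51), ((9, 8, 3), (2, 3, 8), 51), ((1, 5, 9), (0, 4, 8), 447), ((2, 6, 10), (0, 4, 8), 447),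
    ((3, 7, 11), (0, 4, 8), -491), ((8, 5, 1), (1, 4, 8), -124), ((3, 6, 10), (1, 4, 8), 564), ((10, 7, 3), (1, 4, 8), -145),
    ((8, 6, 2), (2, 4, 8), -124), ((3, 5, 9), (2, 4, 8), 564), ((9, 7, 3), (2, 4, 8), -145), ((8, 7, 3), (3, 4, 8), 33),
    ((1, 4, 9), (8, 5, 0), -92), ((10, 7, 2), (8, 5, 0), 140), ((3, 6, 11), (8, 5, 0), -169), ((2, 13, 10), (8, 5, 0), 154),
    ((9, 6, 3), (2, 5, 8), 153), ((8, 13, 2), (2, 5, 8), -293), ((9, 7, 1), (8, 6, 0), 140), ((2, 4, 10), (8, 6, 0), -92),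
    ((3, 5, 11), (8, 6, 0), -169), ((1, 12, 9), (8, 6, 0), 154), ((3, 5, 10), (8, 6, 1), 153), ((1, 12, 8), (8, 6, 1), -293),
    ((3, 4, 11), (8, 7, 0), -24), ((3, 4, 10), (8, 7, 1), 41), ((3, 4, 9), (8, 7, 2), 41), ((9, 8, 0), (0, 1, 9), -74),
    ((2, 3, 11), (0, 1, 9), -17), ((11, 10, 2), (0, 1, 9), 119), ((11, 9, 2), (0, 2, 9), 38), ((11, 8, 2), (0, 3, 9), -99),
    ((9, 8, 2), (2, 3, 9), -34), ((9, 5, 0), (0, 4, 9), 225), ((2, 6, 11), (0, 4, 9), 58), ((11, 7, 2), (0, 4, 9), -124),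
    ((9, 7, 2), (2, 4, 9), 2), ((9, 6, 2), (2, 5, 9), -98), ((2, 5, 11), (9, 6, 0), -71), ((0, 12, 9), (9, 6, 0), 154),
    ((2, 5, 10), (9, 6, 1), 21), ((0, 12, 8), (9, 6, 1), -21), ((8, 13, 0), (9, 6, 1), -21), ((2, 4, 11), (9, 7, 0), 67),
    ((11, 10, 1), (0, 1, 10), 38), ((10, 8, 0), (0, 2, 10), -74), ((1, 3, 11), (0, 2, 10), -17), ((11, 9, 1), (0, 2, 10), 119),
    ((11, 8, 1), (0, 3, 10), -99), ((10, 8, 1), (1, 3, 10), -34), ((10, 6, 0), (0, 4, 10), 225), ((1, 5, 11), (0, 4, 10), 58),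
    ((11, 7, 1), (0, 4, 10), -124), ((10, 7, 1), (1, 4, 10), 2), ((11, 6, 1), (0, 5, 10), -71), ((10, 13, 0), (0, 5, 10), 154),
    ((10, 6, 1), (1, 5, 10), 98), ((1, 4, 11), (10, 7, 0), 67), ((1, 2, 11), (10, 9, 0), 39), ((11, 10, 0), (0, 1, 11), 11),
    ((11, 9, 0), (0, 2, 11), 11), ((11, 8, 0), (0, 3, 11), 30), ((11, 7, 0), (0, 4, 11), 2), ((5, 12, 2), (0, 2, 12), 93),
    ((4, 12, 2), (1, 2, 12), -147), ((5, 12, 3), (1, 3, 12), -696), ((12, 6, 9), (6, 12, 0), -54), ((12, 6, 8), (6, 12, 1), -42),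
    ((6, 5, 12), (12, 4, 6), -39), ((12, 7, 9), (7, 12, 1), -12), ((10, 9, 12), (12, 4, 10), 12), ((10, 8, 12), (12, 5, 10), 5),
    ((11, 9, 12), (12, 5, 11), 175), ((6, 13, 1), (0, 1, 13), 93), ((13, 4, 1), (1, 2, 13), -147), ((6, 13, 3), (2, 3, 13), -696),
    ((5, 13, 10), (13, 5, 0), -54), ((5, 13, 8), (13, 5, 2), -42), ((6, 13, 5), (4, 5, 13), -39), ((13, 7, 10), (7, 13, 2), -12),
    ((10, 9, 13), (4, 13, 9), 12), ((9, 8, 13), (13, 6, 9), 5), ((11, 10, 13), (13, 6, 11), 175), ((12, 13, 8), (13, 12, 0), 14)]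
  tr := tr14
  big := 1048576

theorem ct8_valid : validC ct8 = true := by decide +kernel

theorem ct8_const : constOK ct8 4935 = true := by decide +kernel

/-- classes -/
def cs8 : List Cl := [
 cl 0 1 0 1 7288 0 159, cl 0 2 0 0 235 0 119, cl 1 0 0 0 7940 0 119, cl 1 1 0 1 0 222 177,
 cl 1 2 0 0 390 0 423, cl 2 0 0 0 672 0 84, cl 2 1 0 1 0 0 101, cl 2 2 0 0 0 54 137,
 cl 1 0 0 2 70 0 112, cl 0 0 0 2 0 1489 168, cl 1 0 1 1 7058 0 97, cl 2 0 1 1 0 1242 75,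
 cl 2 0 0 2 0 0 83, cl 1 0 1 3 0 302 92, cl 1 0 2 0 0 1415 84, cl 2 0 2 0 0 0 69,
 cl 1 0 2 2 0 1170 83, cl 0 1 0 3 0 46 125, cl 0 2 0 2 166 0 112, cl 1 1 0 3 0 208 130,
 cl 1 2 0 2 0 0 168, cl 0 0 0 4 0 33 119]

theorem ct8_link : linkOK ct8 cs8 = true := by decide +kernel

theorem cs8_tail : tailOK cs8 64 16 32 4935 = true := by decide +kernel

theorem cs8_grid : gridOK vtTree cs8 64 16 32 16 0 13423827616 5813 4935 = true := by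
  decide +kernel

/-! ### Box 9: `64 ≤ -128 x ≤ 80`, `48 ≤ 128 y ≤ 64` -/

/-- certificate -/
def ct9 : Cert where
  pts := pts14
  g := 2185
  al := [(0, -157), (1, 72), (2, 72), (3, 1556), (4, -264), (5, -1143), (6, -1143), (7, -968), (8, -107), (9, 229), (10, 229), (11, -239), (12, 613), (13, 613)]
  be := [
    (1, 0, 583), (2, 0, 583), (2, 1, -1129), (3, 0, -675), (3, 1, -548), (3, 2, -548), (4, 0, 911),
    (4, 1, 1073), (4, 2, 1073), (4, 3, -1479), (5, 0, 62), (5, 1, 2302), (5, 2, -48), (5, 3, 1209),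
    (5, 4, 1333), (6, 0, 62), (6, 1, -48), (6, 2, 2302), (6, 3, 1209), (6, 4, 1333), (6, 5, 49),
    (7, 0, 215), (7, 1, 313), (7, 2, 313), (7, 3, 1404), (7, 4, 525), (7, 5, 1116), (7, 6, 1116),
    (8, 0, 287), (8, 1, 2), (8, 2, 2), (8, 4, 1682), (8, 5, 477), (8, 6, 477), (8, 7, -566),
    (9, 0, 131), (9, 1, 131), (9, 3, -433), (9, 4, -257), (9, 5, -303), (9, 6, 24), (9, 7, 717),
    (9, 8, 440), (10, 0, 131), (10, 2, 131), (10, 3, -433), (10, 4, -257), (10, 5, 24), (10, 6, -303),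
    (10, 7, 717), (10, 8, 440), (10, 9, -463), (11, 0, -19), (11, 1, -101), (11, 2, -101), (11, 3, 172),
    (11, 4, 34), (11, 5, 204), (11, 6, 204), (11, 7, 615), (11, 8, 150), (11, 9, 160), (11, 10, 160),
    (12, 0, -48), (12, 1, -348), (12, 3, -627), (12, 4, -309), (12, 5, 252), (12, 6, -15), (12, 7, 14),
    (12, 8, 72), (12, 9, -683), (12, 10, -158), (13, 0, -48), (13, 2, -348), (13, 3, -627), (13, 4, -309),
    (13, 5, -15), (13, 6, 252), (13, 7, 14), (13, 8, 72), (13, 9, -158), (13, 10, -683)]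
  ta := [
    ((3, 2, 1), (0, 1, 2), 304), ((4, 5, 6), (0, 1, 2), -548), ((7, 6, 5), (0, 1, 2), -308), ((8, 9, 10), (0, 1, 2), 265),
    ((11, 10, 9), (0, 1, 2), 274), ((5, 4, 12), (0, 1, 2), -214), ((6, 13, 4), (0, 1, 2), -214), ((3, 2, 0), (0, 1, 3), 165),
    ((4, 5, 7), (0, 1, 3), 146), ((7, 6, 4), (0, 1, 3), 146), ((8, 9, 11), (0, 1, 3), -311), ((11, 10, 8), (0, 1, 3), -311),
    ((6, 5, 3), (1, 2, 4), -139), ((5, 6, 8), (1, 2, 4), -268), ((10, 9, 7), (1, 2, 4), 212), ((4, 12, 1), (1, 2, 4), -52),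
    ((13, 4, 2), (1, 2, 4), -52), ((7, 4, 3), (0, 3, 4), 134), ((4, 7, 8), (0, 3, 4), -394), ((11, 8, 7), (0, 3, 4), 54),
    ((6, 4, 3), (1, 3, 4), -17), ((5, 7, 8), (1, 3, 4), -101), ((10, 8, 7), (1, 3, 4), -135), ((5, 4, 3), (2, 3, 4), -17),
    ((6, 7, 8), (2, 3, 4), -101), ((9, 8, 7), (2, 3, 4), -135), ((5, 4, 0), (0, 1, 5), -234), ((2, 3, 7), (0, 1, 5), -126),
    ((7, 6, 2), (0, 1, 5), -468), ((4, 5, 9), (0, 1, 5), 235), ((9, 8, 4), (0, 1, 5), -180), ((6, 7, 11), (0, 1, 5), -84),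
    ((11, 10, 6), (0, 1, 5), -289), ((13, 6, 10), (0, 1, 5), 1556), ((7, 5, 2), (0, 2, 5), -29), ((4, 6, 9), (0, 2, 5), -55),
    ((11, 9, 6), (0, 2, 5), 28), ((5, 12, 0), (0, 2, 5), 132), ((10, 8, 13), (0, 2, 5), 36), ((6, 5, 2), (1, 2, 5), -185),
    ((5, 6, 9), (1, 2, 5), -44), ((10, 9, 6), (1, 2, 5), 234), ((4, 12, 0), (1, 2, 5), -247), ((4, 13, 8), (1, 2, 5), 37),
    ((7, 4, 2), (0, 3, 5), -308), ((4, 7, 9), (0, 3, 5), 96), ((11, 8, 6), (0, 3, 5), -12), ((5, 4, 2), (2, 3, 5), -176),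
    ((6, 7, 9), (2, 3, 5), 8), ((9, 8, 6), (2, 3, 5), -36), ((0, 1, 12), (2, 3, 5), -298), ((13, 6, 8), (2, 3, 5), 625),
    ((7, 6, 1), (0, 1, 6), -29), ((4, 5, 10), (0, 1, 6), -55), ((11, 10, 5), (0, 1, 6), 28), ((9, 8, 12), (0, 1, 6), 36),
    ((6, 13, 0), (0, 1, 6), 132), ((6, 4, 0), (0, 2, 6), -234), ((1, 3, 7), (0, 2, 6), -126), ((7, 5, 1), (0, 2, 6), -468),
    ((4, 6, 10), (0, 2, 6), 235), ((10, 8, 4), (0, 2, 6), -180), ((5, 7, 11), (0, 2, 6), -84), ((11, 9, 5), (0, 2, 6), -289),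
    ((12, 5, 9), (0, 2, 6), 1556), ((6, 5, 1), (1, 2, 6), -185), ((5, 6, 10), (1, 2, 6), -44), ((10, 9, 5), (1, 2, 6), 234),
    ((12, 4, 8), (1, 2, 6), 37), ((13, 4, 0), (1, 2, 6), -247), ((7, 4, 1), (0, 3, 6), -308), ((4, 7, 10), (0, 3, 6), 96),
    ((11, 8, 5), (0, 3, 6), -12), ((6, 4, 1), (1, 3, 6), -176), ((5, 7, 10), (1, 3, 6), 8), ((10, 8, 5), (1, 3, 6), -36),
    ((12, 5, 8), (1, 3, 6), 625), ((0, 2, 13), (1, 3, 6), -298), ((1, 2, 7), (6, 5, 0), 122), ((10, 9, 4), (6, 5, 0), 28),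
    ((5, 6, 11), (6, 5, 0), -414), ((12, 4, 9), (6, 5, 0), 344), ((4, 13, 10), (6, 5, 0), 344), ((7, 6, 0), (0, 1, 7), 201),
    ((4, 5, 11), (0, 1, 7), 81), ((11, 10, 4), (0, 1, 7), 15), ((7, 5, 0), (0, 2, 7), 201), ((4, 6, 11), (0, 2, 7), 81),
    ((11, 9, 4), (0, 2, 7), 15), ((7, 4, 0), (0, 3, 7), -183), ((4, 7, 11), (0, 3, 7), -12), ((11, 8, 4), (0, 3, 7), -35),
    ((9, 8, 1), (0, 1, 8), -35), ((2, 3, 10), (0, 1, 8), 274), ((11, 10, 3), (0, 1, 8), -44), ((1, 3, 9), (0, 2, 8), 274),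
    ((10, 8, 2), (0, 2, 8), -35), ((11, 9, 3), (0, 2, 8), -44), ((10, 9, 3), (1, 2, 8), -52), ((11, 8, 3), (0, 3, 8), -137),
    ((10, 8, 3), (1, 3, 8), 22), ((9, 8, 3), (2, 3, 8), 22), ((1, 5, 9), (0, 4, 8), 449), ((2, 6, 10), (0, 4, 8), 449),
    ((3, 7, 11), (0, 4, 8), -363), ((8, 5, 1), (1, 4, 8), 41), ((3, 6, 10), (1, 4, 8), 718), ((10, 7, 3), (1, 4, 8), -340),
    ((8, 6, 2), (2, 4, 8), 41), ((3, 5, 9), (2, 4, 8), 718), ((9, 7, 3), (2, 4, 8), -340), ((8, 7, 3), (3, 4, 8), -117),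
    ((1, 4, 9), (8, 5, 0), -188), ((10, 7, 2), (8, 5, 0), -121), ((3, 6, 11), (8, 5, 0), 36), ((2, 13, 10), (8, 5, 0), 280),
    ((9, 6, 3), (2, 5, 8), -69), ((8, 13, 2), (2, 5, 8), 1), ((9, 7, 1), (8, 6, 0), -121), ((2, 4, 10), (8, 6, 0), -188),
    ((3, 5, 11), (8, 6, 0), 36), ((1, 12, 9), (8, 6, 0), 280), ((3, 5, 10), (8, 6, 1), -69), ((1, 12, 8), (8, 6, 1), 1),
    ((3, 4, 11), (8, 7, 0), -42), ((3, 4, 10), (8, 7, 1), -3), ((3, 4, 9), (8, 7, 2), -3), ((9, 8, 0), (0, 1, 9), -67),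
    ((2, 3, 11), (0, 1, 9), 61), ((11, 10, 2), (0, 1, 9), 108), ((11, 9, 2), (0, 2, 9), 74), ((10, 9, 2), (1, 2, 9), -35),
    ((11, 8, 2), (0, 3, 9), -23), ((9, 8, 2), (2, 3, 9), -77), ((9, 5, 0), (0, 4, 9), 83), ((2, 6, 11), (0, 4, 9), 6),
    ((11, 7, 2), (0, 4, 9), -59), ((9, 7, 2), (2, 4, 9), 16), ((9, 6, 2), (2, 5, 9), -46), ((2, 5, 11), (9, 6, 0), -34),
    ((0, 12, 9), (9, 6, 0), 185), ((2, 5, 10), (9, 6, 1), -63), ((0, 12, 8), (9, 6, 1), 63), ((8, 13, 0), (9, 6, 1), 63),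
    ((2, 4, 11), (9, 7, 0), 96), ((11, 10, 1), (0, 1, 10), 74), ((10, 8, 0), (0, 2, 10), -67), ((1, 3, 11), (0, 2, 10), 61),
    ((11, 9, 1), (0, 2, 10), 108), ((10, 9, 1), (1, 2, 10), -35), ((11, 8, 1), (0, 3, 10), -23), ((10, 8, 1), (1, 3, 10), -77),
    ((10, 6, 0), (0, 4, 10), 83), ((1, 5, 11), (0, 4, 10), 6), ((11, 7, 1), (0, 4, 10), -59), ((10, 7, 1), (1, 4, 10), 16),
    ((11, 6, 1), (0, 5, 10), -34), ((10, 13, 0), (0, 5, 10), 185), ((10, 6, 1), (1, 5, 10), 46), ((1, 4, 11), (10, 7, 0), 96),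
    ((1, 2, 11), (10, 9, 0), 48), ((11, 10, 0), (0, 1, 11), -10), ((11, 9, 0), (0, 2, 11), -10), ((11, 8, 0), (0, 3, 11), -11),
    ((11, 7, 0), (0, 4, 11), 6), ((5, 12, 2), (0, 2, 12), 154), ((4, 12, 2), (1, 2, 12), -317), ((5, 12, 3), (1, 3, 12), -769),
    ((12, 6, 9), (6, 12, 0), 22), ((12, 6, 8), (6, 12, 1), -137), ((6, 5, 12), (12, 4, 6), -14), ((12, 7, 9), (7, 12, 1), 54),
    ((10, 9, 12), (12, 4, 10), 23), ((10, 8, 12), (12, 5, 10), 12), ((11, 9, 12), (12, 5, 11), 155), ((6, 13, 1), (0, 1, 13), 154),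
    ((13, 4, 1), (1, 2, 13), -317), ((6, 13, 3), (2, 3, 13), -769), ((5, 13, 10), (13, 5, 0), 22), ((5, 13, 8), (13, 5, 2), -137),
    ((6, 13, 5), (4, 5, 13), -14), ((13, 7, 10), (7, 13, 2), 54), ((10, 9, 13), (4, 13, 9), 23), ((9, 8, 13), (13, 6, 9), 12),
    ((11, 10, 13), (13, 6, 11), 155)]
  tr := tr14
  big := 1048576

theorem ct9_valid : validC ct9 = true := by decide +kernel

theorem ct9_const : constOK ct9 5172 = true := by decide +kernel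

/-- classes -/
def cs9 : List Cl := [
 cl 0 1 0 1 6672 0 150, cl 0 2 0 0 0 0 119, cl 1 0 0 0 8610 0 119, cl 1 1 0 1 0 722 163,
 cl 1 2 0 0 249 0 423, cl 2 0 0 0 721 0 84, cl 2 1 0 1 60 0 100, cl 2 2 0 0 0 19 137,
 cl 1 0 0 2 0 0 106, cl 0 0 0 2 0 2161 137, cl 1 0 1 1 6256 0 96, cl 2 0 1 1 0 862 75,
 cl 2 0 0 2 0 0 82, cl 1 0 1 3 0 0 87, cl 1 0 2 0 0 2045 84, cl 2 0 2 0 0 0 69,
 cl 1 0 2 2 0 1254 82, cl 0 1 0 3 0 30 107, cl 0 2 0 2 28 0 106, cl 1 1 0 3 0 316 109,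
 cl 1 2 0 2 0 0 137, cl 0 0 0 4 0 0 97]

theorem ct9_link : linkOK ct9 cs9 = true := by decide +kernel

theorem cs9_tail : tailOK cs9 64 16 48 5172 = true := by decide +kernel

theorem cs9_grid : gridOK vtTree cs9 64 16 48 16 0 10606824256 5673 5172 = true := by
  decide +kernel

end Pool.Agent.H79.OC
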