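import Pool.Agent.H79.OC.Pts
import Pool.Agent.H79.OC.Pts2
import Pool.Agent.H79.OC.VTab
import Pool.Agent.H79.OC.Swp

set_option autoImplicit false
set_option maxRecDepth 100000

/-!
# Certificates, part 41
-/

namespace Pool.Agent.H79.OC

open Cl

/-! ### Box 79: `112 ≤ -128 x ≤ 120`, `40 ≤ 128 y ≤ 48` -/

/-- certificate -/
def ct79 : Cert where
  pts := pts14
  g := 5690
  al := [(0, -406), (1, 382), (2, 382), (3, 1869), (4, -199), (5, -3605), (6, -3605), (7, -6709), (8, 290), (9, 2117), (10, 2117), (11, -659), (12, 1522), (13, 1522)]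
  be := [
    (1, 0, -1450), (2, 0, -1450), (2, 1, -1479), (3, 0, 318), (3, 1, -1055), (3, 2, -1055), (4, 0, 973),
    (4, 1, 2284), (4, 2, 2284), (4, 3, -431), (5, 0, -69), (5, 1, 6409), (5, 2, 801), (5, 3, 3029),
    (5, 4, 3627), (6, 0, -69), (6, 1, 801), (6, 2, 6409), (6, 3, 3029), (6, 4, 3627), (6, 5, -656),
    (7, 0, 1444), (7, 1, 1768), (7, 2, 1768), (7, 3, 3874), (7, 4, -1508), (7, 5, 7015), (7, 6, 7015),
    (8, 0, -1400), (8, 1, -63), (8, 2, -63), (8, 4, 1894), (8, 5, 3601), (8, 6, 3601), (8, 7, -1792),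
    (9, 0, 594), (9, 1, 430), (9, 2, -916), (9, 3, -3554), (9, 4, -1326), (9, 5, 1453), (9, 6, 1123),
    (9, 7, 3750), (9, 8, -1151), (10, 0, 594), (10, 1, -916), (10, 2, 430), (10, 3, -3554), (10, 4, -1326),
    (10, 5, 1123), (10, 6, 1453), (10, 7, 3750), (10, 8, -1151), (10, 9, -2075), (11, 0, 1694), (11, 1, -427),
    (11, 2, -427), (11, 3, -1413), (11, 4, 823), (11, 5, 626), (11, 6, 626), (11, 7, 1707), (11, 8, 612),
    (11, 9, -509), (11, 10, -509), (12, 0, 448), (12, 1, 662), (12, 2, -723), (12, 3, -386), (12, 4, -2103),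
    (12, 5, -1012), (12, 6, -799), (12, 7, 324), (12, 8, -836), (12, 9, -60), (12, 10, -1012), (13, 0, 448),
    (13, 1, -723), (13, 2, 662), (13, 3, -386), (13, 4, -2103), (13, 5, -799), (13, 6, -1012), (13, 7, 324),
    (13, 8, -836), (13, 9, -1012), (13, 10, -60), (13, 12, 275)]
  ta := [
    ((3, 2, 1), (0, 1, 2), 1552), ((4, 5, 6), (0, 1, 2), -244), ((7, 6, 5), (0, 1, 2), -3041), ((8, 9, 10), (0, 1, 2), 2166),
    ((11, 10, 9), (0, 1, 2), 457), ((5, 4, 12), (0, 1, 2), -202), ((6, 13, 4), (0, 1, 2), -202), ((3, 2, 0), (0, 1, 3), -609),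
    ((4, 5, 7), (0, 1, 3), 1378), ((7, 6, 4), (0, 1, 3), 1378), ((8, 9, 11), (0, 1, 3), -769), ((11, 10, 8), (0, 1, 3), -769),
    ((6, 5, 3), (1, 2, 4), -605), ((5, 6, 8), (1, 2, 4), -1262), ((10, 9, 7), (1, 2, 4), 542), ((4, 12, 1), (1, 2, 4), 530),
    ((13, 4, 2), (1, 2, 4), 530), ((7, 4, 3), (0, 3, 4), -1054), ((4, 7, 8), (0, 3, 4), 1335), ((11, 8, 7), (0, 3, 4), 83),
    ((6, 4, 3), (1, 3, 4), -543), ((5, 7, 8), (1, 3, 4), 880), ((10, 8, 7), (1, 3, 4), -114), ((5, 4, 3), (2, 3, 4), -543),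
    ((6, 7, 8), (2, 3, 4), 880), ((9, 8, 7), (2, 3, 4), -114), ((5, 4, 0), (0, 1, 5), -705), ((2, 3, 7), (0, 1, 5), 134),
    ((7, 6, 2), (0, 1, 5), -1785), ((4, 5, 9), (0, 1, 5), -115), ((9, 8, 4), (0, 1, 5), 1364), ((6, 7, 11), (0, 1, 5), -781),
    ((11, 10, 6), (0, 1, 5), -1177), ((13, 6, 10), (0, 1, 5), 3455), ((7, 5, 2), (0, 2, 5), -942), ((4, 6, 9), (0, 2, 5), -334),
    ((11, 9, 6), (0, 2, 5), -390), ((5, 12, 0), (0, 2, 5), 786), ((10, 8, 13), (0, 2, 5), 993), ((6, 5, 2), (1, 2, 5), -1081),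
    ((5, 6, 9), (1, 2, 5), -248), ((10, 9, 6), (1, 2, 5), 13), ((4, 12, 0), (1, 2, 5), 946), ((4, 13, 8), (1, 2, 5), 1097),
    ((7, 4, 2), (0, 3, 5), 877), ((4, 7, 9), (0, 3, 5), -172), ((11, 8, 6), (0, 3, 5), -281), ((5, 4, 2), (2, 3, 5), -946),
    ((6, 7, 9), (2, 3, 5), -3029), ((9, 8, 6), (2, 3, 5), 822), ((0, 1, 12), (2, 3, 5), 857), ((13, 6, 8), (2, 3, 5), 1600),
    ((7, 6, 1), (0, 1, 6), -942), ((4, 5, 10), (0, 1, 6), -334), ((11, 10, 5), (0, 1, 6), -390), ((9, 8, 12), (0, 1, 6), 993),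
    ((6, 13, 0), (0, 1, 6), 786), ((6, 4, 0), (0, 2, 6), -705), ((1, 3, 7), (0, 2, 6), 134), ((7, 5, 1), (0, 2, 6), -1785),
    ((4, 6, 10), (0, 2, 6), -115), ((10, 8, 4), (0, 2, 6), 1364), ((5, 7, 11), (0, 2, 6), -781), ((11, 9, 5), (0, 2, 6), -1177),
    ((12, 5, 9), (0, 2, 6), 3455), ((6, 5, 1), (1, 2, 6), -1081), ((5, 6, 10), (1, 2, 6), -248), ((10, 9, 5), (1, 2, 6), 13),
    ((12, 4, 8), (1, 2, 6), 1097), ((13, 4, 0), (1, 2, 6), 946), ((7, 4, 1), (0, 3, 6), 877), ((4, 7, 10), (0, 3, 6), -172),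
    ((11, 8, 5), (0, 3, 6), -281), ((6, 4, 1), (1, 3, 6), -946), ((5, 7, 10), (1, 3, 6), -3029), ((10, 8, 5), (1, 3, 6), 822),
    ((12, 5, 8), (1, 3, 6), 1600), ((0, 2, 13), (1, 3, 6), 857), ((1, 2, 7), (6, 5, 0), 499), ((10, 9, 4), (6, 5, 0), 750),
    ((5, 6, 11), (6, 5, 0), -782), ((12, 4, 9), (6, 5, 0), -86), ((4, 13, 10), (6, 5, 0), -86), ((7, 6, 0), (0, 1, 7), -1260),
    ((4, 5, 11), (0, 1, 7), -783), ((11, 10, 4), (0, 1, 7), 725), ((7, 5, 0), (0, 2, 7), -1260), ((4, 6, 11), (0, 2, 7), -783),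
    ((11, 9, 4), (0, 2, 7), 725), ((7, 4, 0), (0, 3, 7), 2165), ((4, 7, 11), (0, 3, 7), 491), ((11, 8, 4), (0, 3, 7), -994),
    ((9, 8, 1), (0, 1, 8), -1449), ((2, 3, 10), (0, 1, 8), -373), ((11, 10, 3), (0, 1, 8), 972), ((1, 3, 9), (0, 2, 8), -373),
    ((10, 8, 2), (0, 2, 8), -1449), ((11, 9, 3), (0, 2, 8), 972), ((10, 9, 3), (1, 2, 8), 289), ((11, 8, 3), (0, 3, 8), 143),
    ((10, 8, 3), (1, 3, 8), 125), ((9, 8, 3), (2, 3, 8), 125), ((1, 5, 9), (0, 4, 8), -1502), ((2, 6, 10), (0, 4, 8), -1502),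
    ((3, 7, 11), (0, 4, 8), 2458), ((8, 5, 1), (1, 4, 8), -2232), ((3, 6, 10), (1, 4, 8), 598), ((10, 7, 3), (1, 4, 8), 1635),
    ((8, 6, 2), (2, 4, 8), -2232), ((3, 5, 9), (2, 4, 8), 598), ((9, 7, 3), (2, 4, 8), 1635), ((8, 7, 3), (3, 4, 8), 703),
    ((1, 4, 9), (8, 5, 0), -283), ((10, 7, 2), (8, 5, 0), -1112), ((3, 6, 11), (8, 5, 0), 704), ((2, 13, 10), (8, 5, 0), 82),
    ((9, 6, 3), (2, 5, 8), 682), ((8, 13, 2), (2, 5, 8), -403), ((9, 7, 1), (8, 6, 0), -1112), ((2, 4, 10), (8, 6, 0), -283),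
    ((3, 5, 11), (8, 6, 0), 704), ((1, 12, 9), (8, 6, 0), 82), ((3, 5, 10), (8, 6, 1), 682), ((1, 12, 8), (8, 6, 1), -403),
    ((3, 4, 11), (8, 7, 0), -238), ((3, 4, 10), (8, 7, 1), 297), ((3, 4, 9), (8, 7, 2), 297), ((9, 8, 0), (0, 1, 9), -158),
    ((2, 3, 11), (0, 1, 9), -211), ((11, 10, 2), (0, 1, 9), 5), ((11, 9, 2), (0, 2, 9), -82), ((10, 9, 2), (1, 2, 9), 58),
    ((11, 8, 2), (0, 3, 9), -149), ((9, 8, 2), (2, 3, 9), -89), ((9, 5, 0), (0, 4, 9), 621), ((2, 6, 11), (0, 4, 9), 1182),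
    ((11, 7, 2), (0, 4, 9), -1231), ((9, 7, 2), (2, 4, 9), -355), ((9, 6, 2), (2, 5, 9), -1003), ((2, 5, 11), (9, 6, 0), 680),
    ((0, 12, 9), (9, 6, 0), -1371), ((2, 5, 10), (9, 6, 1), 298), ((0, 12, 8), (9, 6, 1), -298), ((8, 13, 0), (9, 6, 1), -298),
    ((2, 4, 11), (9, 7, 0), 496), ((11, 10, 1), (0, 1, 10), -82), ((10, 8, 0), (0, 2, 10), -158), ((1, 3, 11), (0, 2, 10), -211),
    ((11, 9, 1), (0, 2, 10), 5), ((10, 9, 1), (1, 2, 10), 58), ((11, 8, 1), (0, 3, 10), -149), ((10, 8, 1), (1, 3, 10), -89),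
    ((10, 6, 0), (0, 4, 10), 621), ((1, 5, 11), (0, 4, 10), 1182), ((11, 7, 1), (0, 4, 10), -1231), ((10, 7, 1), (1, 4, 10), -355),
    ((11, 6, 1), (0, 5, 10), 680), ((10, 13, 0), (0, 5, 10), -1371), ((10, 6, 1), (1, 5, 10), 1003), ((1, 4, 11), (10, 7, 0), 496),
    ((1, 2, 11), (10, 9, 0), 238), ((11, 10, 0), (0, 1, 11), -256), ((11, 9, 0), (0, 2, 11), -256), ((11, 8, 0), (0, 3, 11), 196),
    ((11, 7, 0), (0, 4, 11), -490), ((5, 12, 2), (0, 2, 12), -289), ((4, 12, 2), (1, 2, 12), 271), ((5, 12, 3), (1, 3, 12), -386),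
    ((12, 6, 9), (6, 12, 0), -85), ((12, 6, 8), (6, 12, 1), -12), ((6, 5, 12), (12, 4, 6), -3), ((12, 7, 9), (7, 12, 1), 344),
    ((10, 9, 12), (12, 4, 10), -870), ((10, 8, 12), (12, 5, 10), -241), ((11, 9, 12), (12, 5, 11), 847), ((6, 13, 1), (0, 1, 13), -289),
    ((13, 4, 1), (1, 2, 13), 271), ((6, 13, 3), (2, 3, 13), -386), ((5, 13, 10), (13, 5, 0), -85), ((5, 13, 8), (13, 5, 2), -12),
    ((6, 13, 5), (4, 5, 13), -3), ((13, 7, 10), (7, 13, 2), 344), ((10, 9, 13), (4, 13, 9), -870), ((9, 8, 13), (13, 6, 9), -241),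
    ((11, 10, 13), (13, 6, 11), 847), ((12, 13, 8), (13, 12, 0), 235)]
  tr := tr14
  big := 32768

theorem ct79_valid : validC ct79 = true := by decide +kernel

theorem ct79_const : constOK ct79 11121 = true := by decide +kernel

/-- classes -/
def cs79 : List Cl := [
 cl 0 1 0 1 10930 0 123, cl 0 2 0 0 0 578 90, cl 1 0 0 0 24172 0 119, cl 1 1 0 1 1878 0 210,
 cl 1 2 0 0 2267 0 137, cl 2 0 0 0 0 1953 84, cl 2 1 0 1 334 0 113, cl 2 2 0 0 1694 0 423,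
 cl 1 0 0 2 3072 0 110, cl 0 0 0 2 0 8416 150, cl 1 0 1 1 26652 0 86, cl 2 0 1 1 0 7234 70,
 cl 2 0 0 2 0 1832 82, cl 1 0 1 3 0 1446 82, cl 1 0 2 0 0 2223 72, cl 2 0 2 0 0 0 62,
 cl 1 0 2 2 0 772 71, cl 0 1 0 3 0 1598 105, cl 0 2 0 2 648 0 87, cl 1 1 0 3 0 2024 123,
 cl 1 2 0 2 0 0 120, cl 0 0 0 4 275 0 106]

theorem ct79_link : linkOK ct79 cs79 = true := by decide +kernel

theorem cs79_tail0 : tailOK cs79 112 8 40 11121 = true := by decide +kernel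

theorem cs79_grid0 : gridOK vtTree cs79 112 8 40 8 0 34736659856 21302 11121 = true := by
  decide +kernel

/-! ### Box 80: `96 ≤ -128 x ≤ 112`, `32 ≤ 128 y ≤ 48` -/

/-- certificate -/
def ct80 : Cert where
  pts := ptsG
  g := 3389
  al := [(0, 2206), (1, -5104), (2, -5968), (3, -972), (4, -525), (5, 627), (6, 1659), (7, 411), (8, -224), (9, -1795), (10, 576), (11, -3723), (12, 46), (13, 359)]
  be := [
    (1, 0, 1577), (2, 0, 2106), (2, 1, 5375), (3, 0, 1397), (3, 1, -1038), (3, 2, -338), (4, 0, 80),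
    (4, 1, 4667), (4, 2, 7519), (4, 3, -954), (5, 0, -2485), (5, 1, 3234), (5, 2, -764), (5, 3, 402),
    (5, 4, -174), (6, 0, -3752), (6, 1, 1093), (6, 2, 2819), (6, 3, -742), (6, 4, -996), (6, 5, -1910),
    (7, 0, 767), (7, 1, 694), (7, 2, -881), (7, 3, 3530), (7, 4, 711), (7, 5, -220), (7, 6, -1260),
    (8, 0, 515), (8, 1, -278), (8, 2, 3976), (8, 3, 741), (8, 4, 2109), (8, 5, -1763), (8, 6, 1950),
    (8, 7, -1707), (9, 0, -530), (9, 1, 4780), (9, 2, 5682), (9, 3, 1664), (9, 4, -1285), (9, 5, -247),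
    (9, 6, -1046), (9, 7, 184), (9, 8, 150), (10, 0, -1296), (10, 1, -412), (10, 2, -712), (10, 3, 664),
    (10, 4, 248), (10, 5, -151), (10, 6, -709), (10, 7, 549), (10, 8, -127), (10, 9, 983), (11, 0, 1905),
    (11, 1, 3925), (11, 2, -927), (11, 3, 1351), (11, 4, -390), (11, 5, 327), (11, 6, 2027), (11, 7, 1151),
    (11, 8, 1562), (11, 9, -389), (11, 10, 356), (12, 0, -1512), (12, 1, 1458), (12, 2, 186), (12, 3, -1134),
    (12, 4, 982), (12, 5, 106), (12, 6, 1600), (12, 7, -3905), (12, 8, -1438), (12, 9, 104), (12, 10, -116),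
    (12, 11, 5564), (13, 0, -1782), (13, 1, 1247), (13, 2, -202), (13, 3, 1627), (13, 4, 416), (13, 5, -292),
    (13, 6, -260), (13, 7, 1567), (13, 8, 22), (13, 9, 1260), (13, 10, -709), (13, 11, 824), (13, 12, -610)]
  ta := [
    ((0, 4, 2), (2, 1, 0), -3015), ((7, 0, 1), (2, 1, 0), -1018), ((1, 3, 7), (2, 1, 0), -1274), ((3, 1, 9), (2, 1, 0), 2303),
    ((12, 6, 8), (2, 1, 0), -208), ((8, 11, 12), (2, 1, 0), 909), ((13, 11, 5), (2, 1, 0), 962), ((7, 4, 1), (2, 3, 0), -179),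
    ((3, 2, 9), (2, 3, 0), -547), ((13, 8, 5), (2, 3, 0), 267), ((8, 13, 12), (2, 3, 0), 745), ((4, 0, 7), (2, 1, 3), -1315),
    ((8, 11, 13), (2, 1, 3), 173), ((1, 3, 4), (0, 4, 3), 679), ((11, 13, 6), (0, 4, 3), -827), ((12, 6, 13), (0, 4, 3), -135),
    ((7, 4, 3), (2, 3, 4), -503), ((8, 13, 6), (2, 3, 4), -121), ((0, 11, 5), (5, 1, 0), 1585), ((0, 13, 5), (5, 2, 0), 904),
    ((0, 4, 11), (1, 2, 5), 594), ((8, 11, 4), (1, 2, 5), -786), ((7, 0, 13), (1, 2, 5), -811), ((11, 13, 0), (1, 2, 5), -274),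
    ((5, 8, 0), (0, 3, 5), 1111), ((0, 4, 8), (3, 1, 5), -853), ((7, 0, 11), (3, 1, 5), -189), ((8, 11, 0), (3, 1, 5), 324),
    ((11, 13, 7), (3, 1, 5), -945), ((7, 4, 11), (3, 2, 5), 598), ((8, 13, 0), (3, 2, 5), -169), ((5, 8, 4), (4, 1, 5), 2611),
    ((4, 11, 5), (5, 2, 4), -1428), ((8, 1, 6), (0, 6, 1), -302), ((1, 8, 9), (0, 6, 1), -341), ((2, 10, 4), (0, 6, 1), 1280),
    ((7, 12, 3), (0, 6, 1), 1760), ((11, 3, 12), (0, 6, 1), -2027), ((2, 10, 0), (0, 6, 2), -454), ((3, 11, 9), (0, 6, 2), 14),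
    ((7, 12, 1), (0, 6, 2), 169), ((8, 1, 12), (0, 6, 2), 186), ((0, 4, 10), (2, 1, 6), 698), ((11, 8, 9), (2, 1, 6), 1369),
    ((1, 3, 12), (2, 1, 6), 138), ((12, 6, 1), (2, 1, 6), -1012), ((11, 3, 6), (0, 6, 3), -1117), ((12, 6, 3), (1, 3, 6), -406),
    ((2, 8, 1), (4, 6, 0), -5175), ((1, 10, 2), (4, 6, 0), -596), ((1, 11, 3), (4, 6, 0), 550), ((11, 1, 8), (4, 6, 0), 8),
    ((12, 0, 6), (4, 6, 0), 588), ((0, 12, 7), (4, 6, 0), 2734), ((13, 3, 11), (4, 6, 0), -597), ((8, 2, 9), (6, 4, 1), -4045),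
    ((9, 5, 8), (6, 4, 1), 2090), ((10, 1, 4), (6, 4, 1), 1173), ((1, 11, 6), (6, 4, 1), -627), ((12, 0, 3), (6, 4, 1), 651),
    ((3, 13, 12), (6, 4, 1), 580), ((2, 8, 6), (6, 4, 2), -827), ((10, 1, 0), (6, 4, 2), 4746), ((11, 1, 9), (6, 4, 2), -1114),
    ((9, 5, 11), (6, 4, 2), 1292), ((12, 0, 1), (6, 4, 2), -317), ((1, 11, 12), (6, 4, 2), -2458), ((3, 13, 6), (6, 4, 3), 277),
    ((9, 8, 4), (6, 1, 5), -1102), ((4, 10, 9), (6, 1, 5), -447), ((4, 11, 9), (5, 2, 6), 2132), ((9, 5, 4), (6, 4, 5), 107),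
    ((2, 1, 7), (7, 0, 2), 219), ((7, 4, 2), (2, 3, 7), -874), ((7, 13, 5), (5, 1, 7), -906), ((5, 11, 7), (7, 3, 5), 659),
    ((8, 1, 3), (6, 0, 7), -846), ((3, 11, 8), (6, 0, 7), -926), ((7, 12, 6), (6, 0, 7), 744), ((3, 8, 9), (7, 6, 1), -137),
    ((8, 3, 12), (7, 6, 1), 509), ((8, 3, 6), (7, 6, 3), -759), ((2, 8, 3), (4, 6, 7), 318), ((13, 3, 8), (4, 6, 7), -409),
    ((0, 6, 8), (8, 1, 0), -285), ((3, 11, 5), (8, 1, 0), 1289), ((11, 3, 7), (8, 1, 0), -3222), ((7, 12, 11), (8, 1, 0), 565),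
    ((9, 5, 3), (2, 8, 0), -41), ((1, 11, 7), (2, 8, 0), 1366), ((12, 0, 8), (2, 8, 0), 845), ((13, 3, 5), (2, 8, 0), -1295),
    ((3, 8, 5), (8, 3, 0), 932), ((7, 6, 11), (8, 3, 0), -456), ((1, 8, 5), (8, 1, 4), -1934), ((10, 2, 9), (8, 1, 4), -703),
    ((11, 3, 0), (8, 1, 4), -620), ((0, 6, 11), (8, 1, 4), -445), ((7, 12, 13), (8, 1, 4), 2476), ((7, 6, 13), (8, 3, 4), 224),
    ((9, 5, 2), (8, 2, 5), -758), ((1, 11, 4), (8, 2, 5), -2867), ((6, 4, 11), (8, 2, 5), 373), ((3, 13, 0), (8, 2, 5), 549),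
    ((12, 0, 13), (8, 2, 5), -649), ((4, 1, 9), (5, 8, 6), -2696), ((9, 2, 4), (5, 8, 6), -3366), ((6, 11, 5), (5, 8, 6), 3473),
    ((8, 11, 7), (7, 0, 8), -101), ((7, 12, 8), (8, 1, 7), 43), ((7, 6, 8), (8, 3, 7), -23), ((8, 13, 7), (7, 4, 8), 789),
    ((5, 11, 12), (9, 1, 0), -228), ((0, 3, 9), (9, 2, 0), -583), ((5, 8, 12), (9, 2, 0), 154), ((12, 13, 5), (9, 2, 0), -37),
    ((12, 6, 5), (0, 4, 9), -287), ((6, 13, 5), (4, 3, 9), -85), ((12, 0, 5), (9, 5, 0), -64), ((9, 8, 6), (6, 1, 9), 565),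
    ((6, 11, 9), (9, 2, 6), 333), ((9, 5, 6), (6, 4, 9), -1072), ((7, 3, 9), (9, 1, 7), -316), ((12, 3, 5), (9, 8, 0), -300),
    ((2, 11, 6), (10, 3, 0), 2019), ((11, 2, 9), (10, 3, 0), -663), ((12, 4, 1), (10, 3, 0), -763), ((1, 13, 12), (10, 3, 0), -810),
    ((11, 1, 2), (10, 1, 3), 1139), ((2, 8, 11), (10, 1, 3), -279), ((12, 0, 4), (10, 1, 3), 605), ((4, 6, 12), (10, 1, 3), -909),
    ((13, 3, 1), (10, 1, 3), -578), ((1, 11, 13), (10, 1, 3), -617), ((3, 11, 2), (2, 10, 3), -215), ((7, 12, 4), (2, 10, 3), 515),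
    ((8, 1, 13), (2, 10, 3), -982), ((12, 4, 3), (10, 3, 4), 327), ((1, 13, 6), (10, 3, 4), 348), ((9, 5, 10), (1, 10, 5), 325),
    ((2, 10, 6), (0, 6, 10), -116), ((6, 4, 10), (10, 1, 6), -369), ((2, 1, 12), (7, 0, 10), 924), ((12, 6, 2), (7, 0, 10), -1315),
    ((13, 11, 9), (7, 0, 10), 220), ((12, 0, 2), (10, 1, 7), 122), ((2, 8, 12), (10, 1, 7), 754), ((13, 3, 9), (10, 1, 7), -592),
    ((9, 5, 13), (10, 1, 7), 198), ((7, 12, 2), (2, 10, 7), 211), ((12, 4, 2), (10, 3, 7), -394), ((2, 11, 12), (10, 3, 7), 2947),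
    ((13, 1, 9), (10, 3, 7), -1179), ((2, 3, 12), (7, 4, 10), 712), ((13, 8, 9), (7, 4, 10), -355), ((2, 8, 10), (1, 10, 8), 446),
    ((10, 8, 9), (8, 10, 4), 23), ((0, 11, 9), (9, 10, 0), -1190), ((5, 1, 12), (9, 10, 0), 240), ((2, 11, 0), (3, 10, 9), 2302),
    ((12, 4, 8), (3, 10, 9), -80), ((13, 1, 5), (3, 10, 9), 356), ((1, 13, 7), (3, 10, 9), -1717), ((7, 13, 9), (9, 10, 7), -103),
    ((11, 2, 5), (2, 11, 4), 2464), ((12, 4, 11), (2, 11, 4), -621), ((1, 13, 0), (2, 11, 4), 1893), ((0, 6, 13), (11, 3, 4), -88),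
    ((11, 10, 9), (10, 11, 0), -158), ((10, 11, 3), (11, 10, 2), -224), ((0, 13, 9), (5, 2, 12), -65), ((9, 5, 12), (12, 0, 9), -212),
    ((12, 11, 9), (9, 1, 12), -475), ((12, 13, 9), (9, 2, 12), 127), ((9, 8, 12), (12, 3, 9), 189), ((10, 1, 12), (12, 0, 10), -314),
    ((7, 12, 10), (2, 10, 12), 791), ((12, 4, 10), (10, 3, 12), -914), ((13, 2, 5), (2, 13, 0), 110), ((13, 11, 2), (2, 1, 13), 498),
    ((2, 8, 13), (13, 3, 2), 202), ((11, 13, 4), (0, 4, 13), 434), ((12, 4, 13), (1, 13, 4), 132), ((6, 4, 13), (3, 13, 4), -153),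
    ((8, 13, 4), (7, 4, 13), -50), ((2, 13, 12), (13, 2, 9), 375), ((13, 3, 10), (10, 1, 13), 197), ((13, 10, 9), (10, 13, 7), -89)]
  tr := trG
  big := 32768

theorem ct80_valid : validC ct80 = true := by decide +kernel

theorem ct80_const : constOK ct80 11879 = true := by decide +kernel

/-- classes -/
def cs80 : List Cl := [
 cl 1 0 0 0 25247 0 119, cl 1 1 0 1 5326 0 224, cl 1 0 1 1 21198 0 90, cl 0 1 0 1 15531 0 134,
 cl 2 0 1 1 0 5680 72, cl 0 0 0 2 0 7296 168, cl 1 0 0 2 2425 0 112, cl 2 0 0 0 0 424 84,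
 cl 1 0 2 0 0 2936 75, cl 0 2 0 0 1966 0 97, cl 0 2 0 2 751 0 95, cl 1 2 0 2 0 997 141,
 cl 1 2 0 0 1995 0 168, cl 0 3 0 1 0 911 79, cl 1 0 2 2 0 1365 75, cl 1 0 1 3 0 742 86,
 cl 0 1 0 3 0 646 115, cl 2 0 2 0 0 174 64, cl 1 0 3 1 416 0 66, cl 2 0 0 2 0 1266 83,
 cl 1 1 0 3 0 2416 136, cl 2 1 0 1 288 0 111]

theorem ct80_link : linkOK ct80 cs80 = true := by decide +kernel

theorem cs80_tail0 : tailOK cs80 111 1 36 11879 = true := by decide +kernel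

theorem cs80_grid0 : gridOK vtTree cs80 111 1 36 12 0 40671844192 21531 11879 = true := by
  decide +kernel

theorem cs80_tail1 : tailOK cs80 108 3 35 11879 = true := by decide +kernel

theorem cs80_grid1 : gridOK vtTree cs80 108 3 35 13 0 40671844192 21531 11879 = true := by
  decide +kernel

theorem cs80_tail2 : tailOK cs80 105 3 34 11879 = true := by decide +kernel

theorem cs80_grid2 : gridOK vtTree cs80 105 3 34 14 0 40671844192 21531 11879 = true := by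
  decide +kernel

theorem cs80_tail3 : tailOK cs80 102 3 33 11879 = true := by decide +kernel

theorem cs80_grid3 : gridOK vtTree cs80 102 3 33 15 0 40671844192 21531 11879 = true := by
  decide +kernel

theorem cs80_tail4 : tailOK cs80 96 6 32 11879 = true := by decide +kernel

theorem cs80_grid4 : gridOK vtTree cs80 96 6 32 16 0 40671844192 21531 11879 = true := by
  decide +kernel

end Pool.Agent.H79.OC
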