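import Pool.Agent.H79.OC.Pts
import Pool.Agent.H79.OC.Pts2
import Pool.Agent.H79.OC.VTab
import Pool.Agent.H79.OC.Swp

set_option autoImplicit false
set_option maxRecDepth 100000

/-!
# Certificates, part 42
-/

namespace Pool.Agent.H79.OC

open Cl

/-! ### Box 81: `120 ≤ -128 x ≤ 122`, `40 ≤ 128 y ≤ 45` -/

/-- certificate -/
def ct81 : Cert where
  pts := pts14
  g := 4807
  al := [(0, -1090), (1, -62), (2, -62), (3, 1300), (4, -1974), (5, -2536), (6, -2536), (7, -4851), (8, -860), (9, 1478), (10, 1478), (11, -1244), (12, 1393), (13, 1393)]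
  be := [
    (1, 0, 749), (2, 0, 749), (2, 1, -2770), (3, 0, 600), (3, 1, -925), (3, 2, -925), (4, 0, 3432),
    (4, 1, 3709), (4, 2, 3709), (4, 3, -1112), (5, 0, -899), (5, 1, 5639), (5, 2, 1432), (5, 3, 2797),
    (5, 4, 3312), (6, 0, -899), (6, 1, 1432), (6, 2, 5639), (6, 3, 2797), (6, 4, 3312), (6, 5, -90),
    (7, 0, 5), (7, 1, 1953), (7, 2, 1953), (7, 3, 2957), (7, 4, -2250), (7, 5, 5114), (7, 6, 5114),
    (8, 0, 571), (8, 1, -607), (8, 2, -607), (8, 4, 3380), (8, 5, 3599), (8, 6, 3599), (8, 7, -968),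
    (9, 0, 162), (9, 1, -687), (9, 2, -717), (9, 3, -2665), (9, 4, -372), (9, 5, 2115), (9, 6, 706),
    (9, 7, 3263), (9, 8, -769), (10, 0, 162), (10, 1, -717), (10, 2, -687), (10, 3, -2665), (10, 4, -372),
    (10, 5, 706), (10, 6, 2115), (10, 7, 3263), (10, 8, -769), (10, 9, -3894), (11, 0, 1801), (11, 1, -162),
    (11, 2, -162), (11, 3, -861), (11, 4, 789), (11, 5, 839), (11, 6, 839), (11, 7, 504), (11, 8, 701),
    (11, 9, -178), (11, 10, -178), (12, 0, 334), (12, 1, 69), (12, 2, -590), (12, 3, -590), (12, 4, -972),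
    (12, 5, -2117), (12, 6, -648), (12, 7, 420), (12, 8, -196), (12, 9, -428), (12, 10, -764), (12, 11, -58),
    (13, 0, 334), (13, 1, -590), (13, 2, 69), (13, 3, -590), (13, 4, -972), (13, 5, -648), (13, 6, -2117),
    (13, 7, 420), (13, 8, -196), (13, 9, -764), (13, 10, -428), (13, 11, -58), (13, 12, 131)]
  ta := [
    ((3, 2, 1), (0, 1, 2), 1702), ((4, 5, 6), (0, 1, 2), -1706), ((7, 6, 5), (0, 1, 2), -3748), ((8, 9, 10), (0, 1, 2), 1939),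
    ((11, 10, 9), (0, 1, 2), 731), ((5, 4, 12), (0, 1, 2), 132), ((6, 13, 4), (0, 1, 2), 132), ((3, 2, 0), (0, 1, 3), -883),
    ((4, 5, 7), (0, 1, 3), 1738), ((7, 6, 4), (0, 1, 3), 1738), ((8, 9, 11), (0, 1, 3), -855), ((11, 10, 8), (0, 1, 3), -855),
    ((6, 5, 3), (1, 2, 4), -1470), ((5, 6, 8), (1, 2, 4), -1799), ((10, 9, 7), (1, 2, 4), 1843), ((4, 12, 1), (1, 2, 4), 120),
    ((13, 4, 2), (1, 2, 4), 120), ((7, 4, 3), (0, 3, 4), 71), ((4, 7, 8), (0, 3, 4), 621), ((11, 8, 7), (0, 3, 4), 76),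
    ((6, 4, 3), (1, 3, 4), 647), ((5, 7, 8), (1, 3, 4), 402), ((10, 8, 7), (1, 3, 4), -622), ((5, 4, 3), (2, 3, 4), 647),
    ((6, 7, 8), (2, 3, 4), 402), ((9, 8, 7), (2, 3, 4), -622), ((5, 4, 0), (0, 1, 5), -1191), ((2, 3, 7), (0, 1, 5), 272),
    ((7, 6, 2), (0, 1, 5), -1847), ((4, 5, 9), (0, 1, 5), -659), ((9, 8, 4), (0, 1, 5), 1454), ((6, 7, 11), (0, 1, 5), 80),
    ((11, 10, 6), (0, 1, 5), -1421), ((13, 6, 10), (0, 1, 5), 3760), ((7, 5, 2), (0, 2, 5), -776), ((4, 6, 9), (0, 2, 5), 474),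
    ((11, 9, 6), (0, 2, 5), -655), ((5, 12, 0), (0, 2, 5), 867), ((10, 8, 13), (0, 2, 5), 1024), ((6, 5, 2), (1, 2, 5), -982),
    ((5, 6, 9), (1, 2, 5), -778), ((10, 9, 6), (1, 2, 5), 1089), ((4, 12, 0), (1, 2, 5), 529), ((4, 13, 8), (1, 2, 5), 592),
    ((7, 4, 2), (0, 3, 5), -62), ((4, 7, 9), (0, 3, 5), 12), ((11, 8, 6), (0, 3, 5), -212), ((5, 4, 2), (2, 3, 5), -2068),
    ((6, 7, 9), (2, 3, 5), -2777), ((9, 8, 6), (2, 3, 5), 1001), ((0, 1, 12), (2, 3, 5), 710), ((13, 6, 8), (2, 3, 5), 2426),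
    ((7, 6, 1), (0, 1, 6), -776), ((4, 5, 10), (0, 1, 6), 474), ((11, 10, 5), (0, 1, 6), -655), ((9, 8, 12), (0, 1, 6), 1024),
    ((6, 13, 0), (0, 1, 6), 867), ((6, 4, 0), (0, 2, 6), -1191), ((1, 3, 7), (0, 2, 6), 272), ((7, 5, 1), (0, 2, 6), -1847),
    ((4, 6, 10), (0, 2, 6), -659), ((10, 8, 4), (0, 2, 6), 1454), ((5, 7, 11), (0, 2, 6), 80), ((11, 9, 5), (0, 2, 6), -1421),
    ((12, 5, 9), (0, 2, 6), 3760), ((6, 5, 1), (1, 2, 6), -982), ((5, 6, 10), (1, 2, 6), -778), ((10, 9, 5), (1, 2, 6), 1089),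
    ((12, 4, 8), (1, 2, 6), 592), ((13, 4, 0), (1, 2, 6), 529), ((7, 4, 1), (0, 3, 6), -62), ((4, 7, 10), (0, 3, 6), 12),
    ((11, 8, 5), (0, 3, 6), -212), ((6, 4, 1), (1, 3, 6), -2068), ((5, 7, 10), (1, 3, 6), -2777), ((10, 8, 5), (1, 3, 6), 1001),
    ((12, 5, 8), (1, 3, 6), 2426), ((0, 2, 13), (1, 3, 6), 710), ((1, 2, 7), (6, 5, 0), 648), ((10, 9, 4), (6, 5, 0), 785),
    ((5, 6, 11), (6, 5, 0), -766), ((12, 4, 9), (6, 5, 0), -919), ((4, 13, 10), (6, 5, 0), -919), ((7, 6, 0), (0, 1, 7), -124),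
    ((4, 5, 11), (0, 1, 7), -467), ((11, 10, 4), (0, 1, 7), 531), ((7, 5, 0), (0, 2, 7), -124), ((4, 6, 11), (0, 2, 7), -467),
    ((11, 9, 4), (0, 2, 7), 531), ((7, 4, 0), (0, 3, 7), 1443), ((4, 7, 11), (0, 3, 7), 891), ((11, 8, 4), (0, 3, 7), -955),
    ((9, 8, 1), (0, 1, 8), -1199), ((2, 3, 10), (0, 1, 8), -376), ((11, 10, 3), (0, 1, 8), 713), ((1, 3, 9), (0, 2, 8), -376),
    ((10, 8, 2), (0, 2, 8), -1199), ((11, 9, 3), (0, 2, 8), 713), ((10, 9, 3), (1, 2, 8), 89), ((11, 8, 3), (0, 3, 8), 204),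
    ((10, 8, 3), (1, 3, 8), 206), ((9, 8, 3), (2, 3, 8), 206), ((1, 5, 9), (0, 4, 8), -1145), ((2, 6, 10), (0, 4, 8), -1145),
    ((3, 7, 11), (0, 4, 8), 3567), ((8, 5, 1), (1, 4, 8), -1590), ((3, 6, 10), (1, 4, 8), 65), ((10, 7, 3), (1, 4, 8), 1601),
    ((8, 6, 2), (2, 4, 8), -1590), ((3, 5, 9), (2, 4, 8), 65), ((9, 7, 3), (2, 4, 8), 1601), ((8, 7, 3), (3, 4, 8), -370),
    ((1, 4, 9), (8, 5, 0), 167), ((10, 7, 2), (8, 5, 0), -819), ((3, 6, 11), (8, 5, 0), 225), ((2, 13, 10), (8, 5, 0), 1084),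
    ((9, 6, 3), (2, 5, 8), 543), ((8, 13, 2), (2, 5, 8), -546), ((9, 7, 1), (8, 6, 0), -819), ((2, 4, 10), (8, 6, 0), 167),
    ((3, 5, 11), (8, 6, 0), 225), ((1, 12, 9), (8, 6, 0), 1084), ((3, 5, 10), (8, 6, 1), 543), ((1, 12, 8), (8, 6, 1), -546),
    ((3, 4, 11), (8, 7, 0), -28), ((3, 4, 10), (8, 7, 1), 55), ((3, 4, 9), (8, 7, 2), 55), ((9, 8, 0), (0, 1, 9), -258),
    ((2, 3, 11), (0, 1, 9), -290), ((11, 10, 2), (0, 1, 9), 591), ((11, 9, 2), (0, 2, 9), 407), ((10, 9, 2), (1, 2, 9), 100),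
    ((11, 8, 2), (0, 3, 9), -25), ((9, 8, 2), (2, 3, 9), -137), ((9, 5, 0), (0, 4, 9), 405), ((2, 6, 11), (0, 4, 9), 938),
    ((11, 7, 2), (0, 4, 9), -701), ((9, 7, 2), (2, 4, 9), -218), ((9, 6, 2), (2, 5, 9), -345), ((2, 5, 11), (9, 6, 0), 116),
    ((0, 12, 9), (9, 6, 0), -347), ((2, 5, 10), (9, 6, 1), 677), ((0, 12, 8), (9, 6, 1), -677), ((8, 13, 0), (9, 6, 1), -677),
    ((2, 4, 11), (9, 7, 0), -171), ((11, 10, 1), (0, 1, 10), 407), ((10, 8, 0), (0, 2, 10), -258), ((1, 3, 11), (0, 2, 10), -290),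
    ((11, 9, 1), (0, 2, 10), 591), ((10, 9, 1), (1, 2, 10), 100), ((11, 8, 1), (0, 3, 10), -25), ((10, 8, 1), (1, 3, 10), -137),
    ((10, 6, 0), (0, 4, 10), 405), ((1, 5, 11), (0, 4, 10), 938), ((11, 7, 1), (0, 4, 10), -701), ((10, 7, 1), (1, 4, 10), -218),
    ((11, 6, 1), (0, 5, 10), 116), ((10, 13, 0), (0, 5, 10), -347), ((10, 6, 1), (1, 5, 10), 345), ((1, 4, 11), (10, 7, 0), -171),
    ((1, 2, 11), (10, 9, 0), -163), ((11, 10, 0), (0, 1, 11), 337), ((11, 9, 0), (0, 2, 11), 337), ((11, 8, 0), (0, 3, 11), -170),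
    ((11, 7, 0), (0, 4, 11), 325), ((5, 12, 2), (0, 2, 12), 89), ((4, 12, 2), (1, 2, 12), 233), ((5, 12, 3), (1, 3, 12), -414),
    ((12, 6, 9), (6, 12, 0), -333), ((12, 6, 8), (6, 12, 1), -222), ((6, 5, 12), (12, 4, 6), 7), ((12, 7, 9), (7, 12, 1), 186),
    ((10, 9, 12), (12, 4, 10), -283), ((10, 8, 12), (12, 5, 10), -240), ((11, 9, 12), (12, 5, 11), 503), ((6, 13, 1), (0, 1, 13), 89),
    ((13, 4, 1), (1, 2, 13), 233), ((6, 13, 3), (2, 3, 13), -414), ((5, 13, 10), (13, 5, 0), -333), ((5, 13, 8), (13, 5, 2), -222),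
    ((6, 13, 5), (4, 5, 13), 7), ((13, 7, 10), (7, 13, 2), 186), ((10, 9, 13), (4, 13, 9), -283), ((9, 8, 13), (13, 6, 9), -240),
    ((11, 10, 13), (13, 6, 11), 503), ((12, 13, 8), (13, 12, 0), 131)]
  tr := tr14
  big := 16384

theorem ct81_valid : validC ct81 = true := by decide +kernel

theorem ct81_const : constOK ct81 11087 = true := by decide +kernel

/-- classes -/
def cs81 : List Cl := [
 cl 0 1 0 1 10372 0 120, cl 0 2 0 0 0 949 87, cl 1 0 0 0 25781 0 119, cl 1 1 0 1 2186 0 211,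
 cl 1 2 0 0 794 0 127, cl 2 0 0 0 0 1664 84, cl 2 1 0 1 0 0 114, cl 2 2 0 0 1801 0 423,
 cl 1 0 0 2 4552 0 110, cl 0 0 0 2 0 8698 150, cl 1 0 1 1 26874 0 85, cl 2 0 1 1 0 6544 69,
 cl 2 0 0 2 0 1434 82, cl 1 0 1 3 0 1180 81, cl 1 0 2 0 0 2080 70, cl 2 0 2 0 0 0 61,
 cl 1 0 2 2 0 1180 70, cl 0 1 0 3 0 1296 103, cl 0 2 0 2 840 0 85, cl 1 1 0 3 0 1528 123,
 cl 1 2 0 2 0 116 115, cl 0 0 0 4 131 0 106]

theorem ct81_link : linkOK ct81 cs81 = true := by decide +kernel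

theorem cs81_tail0 : tailOK cs81 121 1 40 11087 = true := by decide +kernel

theorem cs81_grid0 : gridOK vtTree cs81 121 1 40 2 0 37721342886 20776 11087 = true := by
  decide +kernel

theorem cs81_tail1 : tailOK cs81 120 1 40 11087 = true := by decide +kernel

theorem cs81_grid1 : gridOK vtTree cs81 120 1 40 5 0 37721342886 20776 11087 = true := by
  decide +kernel

/-! ### Box 82: `32 ≤ -128 x ≤ 48`, `10 ≤ 128 y ≤ 16` -/

/-- certificate -/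
def ct82 : Cert where
  pts := ptsH
  g := 1670
  al := [(0, 346), (1, -3709), (2, -635), (3, -2990), (4, -2646), (5, -375), (6, -4205), (7, 649), (8, -2187), (9, 384), (10, -2203), (11, 382), (12, -396), (13, -833)]
  be := [
    (1, 0, -2003), (2, 0, 1001), (2, 1, 1212), (3, 0, -1194), (3, 1, 5693), (3, 2, 2720), (4, 0, -341),
    (4, 1, 1398), (4, 2, -1374), (4, 3, 4014), (5, 0, -1103), (5, 1, 1613), (5, 2, 866), (5, 3, -1139),
    (5, 4, 3267), (6, 0, 998), (6, 1, 4188), (6, 2, -781), (6, 3, 6013), (6, 4, -1967), (6, 5, 1499),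
    (7, 0, -322), (7, 1, -1787), (7, 2, -293), (7, 3, 249), (7, 4, -1202), (7, 5, 383), (7, 6, -1190),
    (8, 0, -493), (8, 1, 713), (8, 2, 7), (8, 3, 287), (8, 4, 4510), (8, 5, 668), (8, 6, 4519),
    (8, 7, 80), (9, 1, -13), (9, 2, -109), (9, 3, 1498), (9, 4, -257), (9, 6, 3422), (9, 8, 227),
    (10, 0, -98), (10, 1, 1421), (10, 2, 516), (10, 3, -1313), (10, 4, 5502), (10, 5, -22), (10, 6, 4762),
    (10, 7, -7), (10, 8, 5240), (10, 9, 879), (11, 0, 253), (11, 1, -1442), (11, 2, 35), (11, 3, 620),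
    (11, 4, -98), (11, 5, 797), (11, 6, -1201), (11, 7, -150), (11, 8, 693), (11, 9, -98), (11, 10, -400),
    (12, 0, 400), (12, 1, -887), (12, 2, -873), (12, 3, 1645), (12, 4, 3610), (12, 5, -33), (12, 6, 1139),
    (12, 7, 169), (12, 8, 322), (12, 9, -747), (12, 10, 1419), (12, 11, -171), (13, 0, -2132), (13, 1, 885),
    (13, 2, 1312), (13, 3, -1962), (13, 4, 229), (13, 5, -1696), (13, 6, 4561), (13, 7, 5), (13, 8, 1320),
    (13, 9, -315), (13, 10, 55), (13, 11, 1422)]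
  ta := [
    ((3, 2, 0), (0, 1, 3), -802), ((9, 3, 1), (0, 1, 3), -1868), ((1, 6, 9), (0, 1, 3), -1059), ((10, 4, 5), (0, 1, 3), -1957),
    ((5, 8, 10), (0, 1, 3), -654), ((6, 1, 11), (0, 1, 3), 1998), ((11, 13, 6), (0, 1, 3), -406), ((9, 3, 7), (0, 1, 4), -359),
    ((10, 4, 1), (0, 1, 4), -2581), ((1, 6, 10), (0, 1, 4), 32), ((8, 5, 11), (0, 1, 4), -591), ((2, 3, 12), (0, 1, 4), 197),
    ((11, 13, 8), (0, 1, 4), -814), ((0, 5, 4), (4, 2, 0), 184), ((7, 6, 9), (4, 2, 0), 389), ((10, 3, 1), (4, 2, 0), -114),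
    ((1, 8, 10), (4, 2, 0), -437), ((8, 1, 11), (4, 2, 0), -110), ((2, 4, 12), (4, 2, 0), -505), ((7, 6, 3), (4, 2, 1), 130),
    ((1, 8, 4), (4, 2, 1), -1748), ((10, 3, 6), (4, 2, 1), -51), ((5, 0, 11), (4, 2, 1), 615), ((3, 10, 12), (4, 2, 1), -78),
    ((8, 1, 13), (4, 2, 1), -666), ((1, 7, 9), (3, 4, 0), -109), ((5, 1, 10), (3, 4, 0), -916), ((9, 10, 1), (3, 4, 0), 235),
    ((6, 8, 11), (3, 4, 0), -187), ((1, 5, 0), (3, 4, 2), 963), ((1, 7, 6), (3, 4, 2), 425), ((5, 1, 8), (3, 4, 2), -50),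
    ((6, 8, 1), (3, 4, 2), -1419), ((4, 3, 10), (3, 4, 2), -495), ((9, 10, 3), (3, 4, 2), 466), ((4, 2, 5), (0, 5, 2), 424),
    ((1, 8, 3), (0, 5, 2), -1058), ((10, 3, 8), (0, 5, 2), 365), ((6, 7, 13), (0, 5, 2), 161), ((3, 4, 8), (5, 1, 2), -1961),
    ((8, 6, 3), (5, 1, 2), -689), ((7, 1, 13), (5, 1, 2), 1989), ((1, 8, 9), (0, 5, 3), -565), ((10, 3, 5), (0, 5, 3), 764),
    ((6, 7, 11), (0, 5, 3), -238), ((3, 4, 5), (5, 1, 3), -1752), ((8, 6, 9), (5, 1, 3), -1851), ((9, 10, 8), (5, 1, 3), -1574),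
    ((7, 1, 11), (5, 1, 3), 4399), ((5, 8, 3), (3, 2, 5), -503), ((9, 3, 8), (3, 2, 5), 62), ((11, 13, 7), (3, 2, 5), 30),
    ((9, 3, 2), (6, 1, 0), -1324), ((9, 2, 6), (0, 6, 2), -57), ((6, 0, 13), (0, 6, 2), -64), ((3, 2, 6), (1, 6, 2), -1326),
    ((1, 0, 13), (1, 6, 2), 260), ((11, 13, 0), (1, 6, 2), 620), ((9, 2, 1), (0, 6, 3), 313), ((6, 0, 11), (0, 6, 3), -127),
    ((9, 2, 7), (0, 6, 4), -112), ((2, 9, 12), (0, 6, 4), 539), ((3, 2, 7), (1, 6, 4), 236), ((10, 4, 6), (1, 6, 4), -1849),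
    ((3, 9, 12), (1, 6, 4), 781), ((8, 5, 13), (1, 6, 4), 686), ((11, 13, 5), (1, 6, 4), 537), ((7, 6, 2), (4, 2, 6), 92),
    ((5, 0, 13), (4, 2, 6), 10), ((1, 7, 2), (3, 4, 6), 577), ((8, 6, 4), (3, 4, 6), -338), ((10, 9, 12), (3, 4, 6), -61),
    ((1, 5, 13), (3, 4, 6), 843), ((6, 7, 0), (0, 5, 6), 274), ((2, 4, 9), (0, 5, 6), -575), ((7, 1, 0), (5, 1, 6), 2110),
    ((6, 8, 5), (5, 1, 6), -109), ((4, 3, 9), (5, 1, 6), 438), ((9, 10, 4), (5, 1, 6), -1617), ((7, 0, 13), (5, 6, 2), 464),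
    ((9, 4, 8), (5, 6, 3), 238), ((7, 0, 11), (5, 6, 3), 57), ((0, 7, 2), (5, 6, 4), -135), ((9, 4, 6), (5, 6, 4), -583),
    ((4, 9, 12), (5, 6, 4), -301), ((6, 5, 13), (5, 6, 4), 181), ((9, 4, 1), (0, 7, 3), 722), ((5, 6, 10), (0, 7, 3), -715),
    ((6, 5, 11), (0, 7, 3), -128), ((9, 4, 7), (0, 7, 4), -281), ((3, 4, 7), (1, 7, 4), 849), ((7, 6, 4), (4, 2, 7), 103),
    ((5, 7, 6), (7, 5, 0), -359), ((7, 5, 13), (5, 7, 2), 341), ((7, 5, 11), (5, 7, 3), -226), ((0, 5, 8), (8, 1, 0), 90),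
    ((10, 3, 2), (8, 1, 0), -116), ((2, 4, 10), (8, 1, 0), -439), ((10, 2, 8), (0, 8, 2), -614), ((4, 2, 8), (1, 8, 2), -204),
    ((10, 2, 5), (0, 8, 3), -27), ((5, 8, 2), (3, 2, 8), -261), ((10, 2, 1), (0, 8, 4), -389), ((8, 0, 11), (0, 8, 4), 322),
    ((2, 10, 12), (0, 8, 4), -182), ((9, 10, 2), (6, 8, 0), 165), ((6, 8, 7), (1, 7, 8), 425), ((8, 7, 13), (7, 8, 3), -89),
    ((9, 3, 0), (0, 1, 9), -58), ((0, 6, 9), (9, 2, 0), -46), ((0, 7, 9), (9, 4, 0), -206), ((9, 10, 5), (5, 1, 9), -104),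
    ((5, 8, 9), (9, 3, 5), 104), ((5, 6, 9), (9, 4, 5), -814), ((8, 7, 11), (7, 8, 9), 26), ((10, 4, 0), (0, 1, 10), -39),
    ((0, 8, 10), (10, 2, 0), -29), ((0, 5, 10), (10, 3, 0), -77), ((8, 0, 13), (10, 2, 6), 288), ((9, 10, 7), (1, 7, 10), 202),
    ((7, 6, 10), (10, 3, 7), 96), ((2, 1, 11), (11, 0, 2), 163), ((8, 4, 12), (11, 0, 2), -1549), ((12, 10, 8), (11, 0, 2), -1454),
    ((13, 1, 3), (11, 0, 2), 4489), ((3, 6, 13), (11, 0, 2), -971), ((3, 6, 11), (11, 0, 3), 369), ((12, 10, 5), (11, 0, 3), -153),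
    ((13, 1, 9), (11, 0, 3), -129), ((12, 4, 5), (3, 1, 11), -1763), ((9, 6, 13), (3, 1, 11), -1348), ((5, 8, 12), (3, 2, 11), 217),
    ((9, 3, 13), (3, 2, 11), 445), ((11, 13, 3), (3, 2, 11), -595), ((4, 8, 11), (11, 0, 4), -901), ((1, 2, 12), (11, 0, 4), 1818),
    ((13, 1, 10), (11, 0, 4), -813), ((11, 5, 4), (4, 1, 11), -623), ((12, 3, 1), (4, 1, 11), -479), ((1, 4, 12), (4, 1, 11), -1660),
    ((10, 6, 13), (4, 1, 11), -1264), ((13, 8, 10), (4, 1, 11), -963), ((1, 8, 12), (4, 2, 11), 448), ((10, 3, 13), (4, 2, 11), -337),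
    ((5, 1, 12), (3, 4, 11), 232), ((9, 10, 13), (3, 4, 11), 159), ((8, 3, 12), (2, 5, 11), -498), ((13, 7, 3), (2, 5, 11), 253),
    ((3, 8, 13), (2, 5, 11), 414), ((3, 7, 11), (11, 5, 3), 122), ((12, 3, 5), (11, 5, 3), -20), ((13, 8, 9), (11, 5, 3), -80),
    ((13, 0, 3), (2, 6, 11), 66), ((12, 9, 1), (4, 6, 11), -35), ((13, 5, 10), (4, 6, 11), 16), ((12, 9, 8), (2, 7, 11), 251),
    ((13, 5, 3), (2, 7, 11), 69), ((8, 2, 12), (2, 8, 11), 5), ((5, 2, 12), (3, 8, 11), 97), ((13, 7, 9), (3, 8, 11), -13),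
    ((9, 6, 11), (11, 1, 9), -352), ((11, 13, 9), (9, 3, 11), 254), ((9, 8, 11), (11, 7, 9), 80), ((12, 10, 0), (11, 0, 10), -161),
    ((10, 8, 11), (11, 1, 10), -655), ((0, 2, 12), (11, 1, 10), 1153), ((12, 4, 0), (11, 1, 10), -97), ((0, 8, 12), (10, 2, 11), -62),
    ((0, 5, 12), (10, 3, 11), -243), ((0, 1, 12), (10, 4, 11), 34), ((11, 13, 10), (10, 4, 11), 63), ((10, 6, 11), (11, 5, 10), 117),
    ((12, 3, 0), (11, 5, 10), -255), ((10, 4, 13), (1, 6, 12), 67), ((11, 13, 4), (1, 6, 12), -46), ((13, 0, 4), (6, 2, 12), 661),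
    ((12, 10, 6), (6, 3, 12), -1341), ((13, 1, 4), (6, 3, 12), 2891), ((4, 8, 13), (6, 3, 12), -812), ((12, 9, 6), (6, 4, 12), -97),
    ((13, 5, 4), (6, 4, 12), -72), ((4, 6, 13), (6, 4, 12), -592), ((9, 4, 13), (5, 6, 12), 160), ((12, 9, 7), (7, 2, 12), 388),
    ((3, 4, 13), (8, 6, 12), 1160), ((12, 10, 11), (11, 0, 12), -93), ((12, 4, 11), (11, 1, 12), -400), ((11, 8, 12), (12, 2, 11), -66),
    ((11, 5, 12), (12, 3, 11), 114), ((2, 6, 13), (13, 0, 2), 270), ((11, 13, 2), (3, 2, 13), -133), ((2, 7, 13), (13, 5, 2), 69),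
    ((12, 10, 13), (13, 1, 12), 427), ((13, 8, 12), (12, 3, 13), -363), ((13, 6, 12), (12, 4, 13), -458)]
  tr := trH
  big := 32768

theorem ct82_valid : validC ct82 = true := by decide +kernel

theorem ct82_const : constOK ct82 17526 = true := by decide +kernel

/-- classes -/
def cs82 : List Cl := [
 cl 0 1 0 1 23233 0 232, cl 1 0 0 0 25352 0 119, cl 1 1 0 1 0 3492 150, cl 1 0 0 2 2058 0 118,
 cl 0 0 0 2 0 4267 1024, cl 0 2 0 2 1272 0 164, cl 0 2 0 0 920 0 168, cl 0 1 0 3 103 0 203,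
 cl 1 2 0 2 0 0 219, cl 1 1 0 3 0 98 145, cl 1 0 1 1 24463 0 106, cl 2 0 0 2 0 0 84,
 cl 1 0 2 2 0 4115 97, cl 2 0 1 1 0 2535 79, cl 1 0 2 0 0 4703 97, cl 1 0 1 3 0 0 105,
 cl 2 0 2 2 1481 0 75, cl 2 0 0 0 272 0 84, cl 2 0 2 0 1368 0 75, cl 1 2 0 0 0 0 237,
 cl 2 1 0 1 0 98 93, cl 3 0 1 1 0 171 66, cl 3 0 2 0 0 0 64]

theorem ct82_link : linkOK ct82 cs82 = true := by decide +kernel

theorem cs82_tail0 : tailOK cs82 47 1 15 17526 = true := by decide +kernel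

theorem cs82_grid0 : gridOK vtTree cs82 47 1 15 1 0 45923313440 19888 17526 = true := by
  decide +kernel

theorem cs82_tail1 : tailOK cs82 44 3 14 17526 = true := by decide +kernel

theorem cs82_grid1 : gridOK vtTree cs82 44 3 14 2 0 45923313440 19888 17526 = true := by
  decide +kernel

theorem cs82_tail2 : tailOK cs82 41 3 13 17526 = true := by decide +kernel

theorem cs82_grid2 : gridOK vtTree cs82 41 3 13 3 0 45923313440 19888 17526 = true := by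
  decide +kernel

theorem cs82_tail3 : tailOK cs82 37 4 12 17526 = true := by decide +kernel

theorem cs82_grid3 : gridOK vtTree cs82 37 4 12 4 0 45923313440 19888 17526 = true := by
  decide +kernel

theorem cs82_tail4 : tailOK cs82 34 3 11 17526 = true := by decide +kernel

theorem cs82_grid4 : gridOK vtTree cs82 34 3 11 5 0 45923313440 19888 17526 = true := by
  decide +kernel

theorem cs82_tail5 : tailOK cs82 32 2 10 17526 = true := by decide +kernel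

theorem cs82_grid5 : gridOK vtTree cs82 32 2 10 6 0 45923313440 19888 17526 = true := by
  decide +kernel

end Pool.Agent.H79.OC
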