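import Pool.Agent.H79.OC.Pts
import Pool.Agent.H79.OC.Pts2
import Pool.Agent.H79.OC.VTab
import Pool.Agent.H79.OC.Swp

set_option autoImplicit false
set_option maxRecDepth 100000

/-!
# Certificates, part 43
-/

namespace Pool.Agent.H79.OC

open Cl

/-! ### Box 83: `120 ≤ -128 x ≤ 122`, `38 ≤ 128 y ≤ 40` -/

/-- certificate -/
def ct83 : Cert where
  pts := ptsG
  g := 4517
  al := [(0, -1839), (1, -2025), (2, -4914), (3, -193), (4, -2890), (5, -278), (6, 76), (7, 949), (8, 414), (9, -1898), (10, 1188), (11, 0), (12, 914), (13, 2487)]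
  be := [
    (1, 0, 5268), (2, 0, 3284), (2, 1, 3954), (3, 0, 5338), (3, 1, -3408), (3, 2, -693), (4, 0, 2501),
    (4, 1, 2606), (4, 2, 7340), (4, 3, -1128), (5, 0, -1583), (5, 1, 3221), (5, 2, 223), (5, 3, 1762),
    (5, 4, -311), (6, 0, -3372), (6, 1, 2076), (6, 2, 813), (6, 3, -134), (6, 4, 2134), (6, 5, -857),
    (7, 0, 4045), (7, 1, -1817), (7, 2, -821), (7, 3, 1794), (7, 4, 2609), (7, 5, 136), (7, 6, 492),
    (8, 0, 2088), (8, 1, -1470), (8, 2, 2283), (8, 3, -1275), (8, 4, 5626), (8, 5, -483), (8, 6, 3718),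
    (8, 7, -2130), (9, 0, -1465), (9, 1, 6120), (9, 2, 8559), (9, 3, 1230), (9, 4, -1227), (9, 5, 60),
    (9, 6, -1427), (9, 7, -590), (9, 8, 1324), (10, 0, -862), (10, 1, -4560), (10, 2, -750), (10, 3, -977),
    (10, 4, -713), (10, 5, -205), (10, 6, -794), (10, 7, -71), (10, 8, -308), (10, 9, 1651), (11, 0, 2008),
    (11, 1, 3788), (11, 2, -81), (11, 3, 415), (11, 4, -1945), (11, 5, 597), (11, 6, -889), (11, 7, -781),
    (11, 8, 893), (11, 9, 524), (11, 10, 151), (12, 0, 488), (12, 1, 911), (12, 2, 618), (12, 3, 60),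
    (12, 4, 2719), (12, 5, -1202), (12, 6, 340), (12, 7, -2142), (12, 8, -1460), (12, 9, -772), (12, 10, 217),
    (12, 11, 1161), (13, 0, -1851), (13, 1, -1554), (13, 2, 188), (13, 3, 204), (13, 5, 646), (13, 6, -483),
    (13, 7, -1009), (13, 8, -1543), (13, 9, -995), (13, 10, -188), (13, 11, -1336), (13, 12, -935)]
  ta := [
    ((0, 4, 2), (2, 1, 0), -3009), ((7, 0, 1), (2, 1, 0), -1113), ((1, 3, 7), (2, 1, 0), -339), ((3, 1, 9), (2, 1, 0), 4445),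
    ((12, 6, 8), (2, 1, 0), -32), ((8, 11, 12), (2, 1, 0), 1341), ((13, 11, 5), (2, 1, 0), -144), ((7, 4, 1), (2, 3, 0), 260),
    ((3, 2, 9), (2, 3, 0), -384), ((13, 8, 5), (2, 3, 0), 187), ((8, 13, 12), (2, 3, 0), 1189), ((4, 0, 7), (2, 1, 3), -3146),
    ((8, 11, 13), (2, 1, 3), 708), ((1, 3, 4), (0, 4, 3), 704), ((11, 13, 6), (0, 4, 3), 399), ((12, 6, 13), (0, 4, 3), -131),
    ((7, 4, 3), (2, 3, 4), -774), ((8, 13, 6), (2, 3, 4), -155), ((0, 11, 5), (5, 1, 0), 939), ((0, 13, 5), (5, 2, 0), 109),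
    ((0, 4, 11), (1, 2, 5), 567), ((8, 11, 4), (1, 2, 5), -1179), ((7, 0, 13), (1, 2, 5), -202), ((11, 13, 0), (1, 2, 5), 889),
    ((5, 8, 0), (0, 3, 5), -37), ((0, 4, 8), (3, 1, 5), -2469), ((7, 0, 11), (3, 1, 5), -559), ((8, 11, 0), (3, 1, 5), -846),
    ((11, 13, 7), (3, 1, 5), 923), ((7, 4, 11), (3, 2, 5), 477), ((8, 13, 0), (3, 2, 5), 415), ((5, 8, 4), (4, 1, 5), -7),
    ((4, 11, 5), (5, 2, 4), 750), ((8, 1, 6), (0, 6, 1), -1883), ((1, 8, 9), (0, 6, 1), -1206), ((2, 10, 4), (0, 6, 1), 1755),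
    ((7, 12, 3), (0, 6, 1), 1010), ((11, 3, 12), (0, 6, 1), -943), ((2, 10, 0), (0, 6, 2), -1002), ((3, 11, 9), (0, 6, 2), 406),
    ((7, 12, 1), (0, 6, 2), 633), ((8, 1, 12), (0, 6, 2), -264), ((0, 4, 10), (2, 1, 6), 1178), ((11, 8, 9), (2, 1, 6), -489),
    ((1, 3, 12), (2, 1, 6), -282), ((12, 6, 1), (2, 1, 6), 6), ((11, 3, 6), (0, 6, 3), -659), ((12, 6, 3), (1, 3, 6), 260),
    ((2, 8, 1), (4, 6, 0), -4365), ((1, 10, 2), (4, 6, 0), 1086), ((1, 11, 3), (4, 6, 0), -495), ((11, 1, 8), (4, 6, 0), 1541),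
    ((12, 0, 6), (4, 6, 0), 295), ((0, 12, 7), (4, 6, 0), 592), ((13, 3, 11), (4, 6, 0), -208), ((8, 2, 9), (6, 4, 1), -4939),
    ((9, 5, 8), (6, 4, 1), 883), ((10, 1, 4), (6, 4, 1), 5073), ((1, 11, 6), (6, 4, 1), 826), ((12, 0, 3), (6, 4, 1), -1526),
    ((3, 13, 12), (6, 4, 1), 59), ((2, 8, 6), (6, 4, 2), 896), ((10, 1, 0), (6, 4, 2), 5741), ((11, 1, 9), (6, 4, 2), -4397),
    ((9, 5, 11), (6, 4, 2), 1323), ((12, 0, 1), (6, 4, 2), -2791), ((1, 11, 12), (6, 4, 2), -1232), ((3, 13, 6), (6, 4, 3), 507),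
    ((9, 8, 4), (6, 1, 5), -365), ((4, 10, 9), (6, 1, 5), -155), ((4, 11, 9), (5, 2, 6), 1746), ((9, 5, 4), (6, 4, 5), 1160),
    ((2, 1, 7), (7, 0, 2), 870), ((7, 4, 2), (2, 3, 7), -1406), ((7, 13, 5), (5, 1, 7), 80), ((5, 11, 7), (7, 3, 5), -341),
    ((8, 1, 3), (6, 0, 7), -144), ((3, 11, 8), (6, 0, 7), 174), ((7, 12, 6), (6, 0, 7), 577), ((3, 8, 9), (7, 6, 1), 178),
    ((8, 3, 12), (7, 6, 1), 381), ((8, 3, 6), (7, 6, 3), 8), ((2, 8, 3), (4, 6, 7), 787), ((13, 3, 8), (4, 6, 7), 236),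
    ((0, 6, 8), (8, 1, 0), -453), ((3, 11, 5), (8, 1, 0), -1166), ((11, 3, 7), (8, 1, 0), -905), ((7, 12, 11), (8, 1, 0), 2247),
    ((9, 5, 3), (2, 8, 0), 111), ((1, 11, 7), (2, 8, 0), 918), ((12, 0, 8), (2, 8, 0), 461), ((13, 3, 5), (2, 8, 0), -713),
    ((3, 8, 5), (8, 3, 0), 332), ((7, 6, 11), (8, 3, 0), 845), ((1, 8, 5), (8, 1, 4), 151), ((10, 2, 9), (8, 1, 4), -1979),
    ((11, 3, 0), (8, 1, 4), -2273), ((0, 6, 11), (8, 1, 4), 2215), ((7, 12, 13), (8, 1, 4), 2951), ((7, 6, 13), (8, 3, 4), -75),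
    ((9, 5, 2), (8, 2, 5), -1667), ((1, 11, 4), (8, 2, 5), -1258), ((6, 4, 11), (8, 2, 5), -118), ((3, 13, 0), (8, 2, 5), 320),
    ((12, 0, 13), (8, 2, 5), 64), ((4, 1, 9), (5, 8, 6), -155), ((9, 2, 4), (5, 8, 6), -3011), ((6, 11, 5), (5, 8, 6), 3317),
    ((8, 11, 7), (7, 0, 8), 614), ((7, 12, 8), (8, 1, 7), -654), ((7, 6, 8), (8, 3, 7), 172), ((8, 13, 7), (7, 4, 8), 789),
    ((5, 11, 12), (9, 1, 0), 1739), ((0, 3, 9), (9, 2, 0), -1508), ((5, 8, 12), (9, 2, 0), 1882), ((12, 13, 5), (9, 2, 0), -435),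
    ((12, 6, 5), (0, 4, 9), 211), ((6, 13, 5), (4, 3, 9), -239), ((12, 0, 5), (9, 5, 0), 755), ((9, 8, 6), (6, 1, 9), 916),
    ((6, 11, 9), (9, 2, 6), 1309), ((9, 5, 6), (6, 4, 9), -432), ((7, 3, 9), (9, 1, 7), -615), ((12, 3, 5), (9, 8, 0), -662),
    ((2, 11, 6), (10, 3, 0), 1709), ((11, 2, 9), (10, 3, 0), -1482), ((12, 4, 1), (10, 3, 0), -1531), ((1, 13, 12), (10, 3, 0), 230),
    ((11, 1, 2), (10, 1, 3), -505), ((2, 8, 11), (10, 1, 3), 629), ((12, 0, 4), (10, 1, 3), -816), ((4, 6, 12), (10, 1, 3), -1183),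
    ((13, 3, 1), (10, 1, 3), -985), ((1, 11, 13), (10, 1, 3), 43), ((3, 11, 2), (2, 10, 3), 105), ((7, 12, 4), (2, 10, 3), -1073),
    ((8, 1, 13), (2, 10, 3), 131), ((12, 4, 3), (10, 3, 4), 162), ((1, 13, 6), (10, 3, 4), 354), ((9, 5, 10), (1, 10, 5), 311),
    ((2, 10, 6), (0, 6, 10), 61), ((6, 4, 10), (10, 1, 6), -794), ((2, 1, 12), (7, 0, 10), 635), ((12, 6, 2), (7, 0, 10), -689),
    ((13, 11, 9), (7, 0, 10), 484), ((12, 0, 2), (10, 1, 7), -290), ((2, 8, 12), (10, 1, 7), 147), ((13, 3, 9), (10, 1, 7), -94),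
    ((9, 5, 13), (10, 1, 7), 200), ((7, 12, 2), (2, 10, 7), -312), ((12, 4, 2), (10, 3, 7), -1294), ((2, 11, 12), (10, 3, 7), 1290),
    ((13, 1, 9), (10, 3, 7), 1177), ((2, 3, 12), (7, 4, 10), 32), ((13, 8, 9), (7, 4, 10), 143), ((2, 8, 10), (1, 10, 8), 766),
    ((10, 8, 9), (8, 10, 4), -349), ((0, 11, 9), (9, 10, 0), -397), ((5, 1, 12), (9, 10, 0), -482), ((2, 11, 0), (3, 10, 9), 698),
    ((12, 4, 8), (3, 10, 9), -1347), ((13, 1, 5), (3, 10, 9), 568), ((1, 13, 7), (3, 10, 9), 64), ((7, 13, 9), (9, 10, 7), -748),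
    ((11, 2, 5), (2, 11, 4), 1174), ((12, 4, 11), (2, 11, 4), 265), ((1, 13, 0), (2, 11, 4), 782), ((0, 6, 13), (11, 3, 4), -192),
    ((11, 10, 9), (10, 11, 0), -601), ((10, 11, 3), (11, 10, 2), -247), ((0, 13, 9), (5, 2, 12), 435), ((9, 5, 12), (12, 0, 9), -927),
    ((12, 11, 9), (9, 1, 12), -184), ((12, 13, 9), (9, 2, 12), 159), ((9, 8, 12), (12, 3, 9), 794), ((10, 1, 12), (12, 0, 10), 253),
    ((7, 12, 10), (2, 10, 12), 233), ((12, 4, 10), (10, 3, 12), -884), ((13, 2, 5), (2, 13, 0), 396), ((13, 11, 2), (2, 1, 13), 227),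
    ((2, 8, 13), (13, 3, 2), 377), ((11, 13, 4), (0, 4, 13), 307), ((12, 4, 13), (1, 13, 4), -377), ((6, 4, 13), (3, 13, 4), -698),
    ((8, 13, 4), (7, 4, 13), -283), ((2, 13, 12), (13, 2, 9), 18), ((13, 3, 10), (10, 1, 13), -188), ((13, 10, 9), (10, 13, 7), 82)]
  tr := trG
  big := 32768

theorem ct83_valid : validC ct83 = true := by decide +kernel

theorem ct83_const : constOK ct83 11499 = true := by decide +kernel

/-- classes -/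
def cs83 : List Cl := [
 cl 1 0 0 0 25998 0 119, cl 1 1 0 1 3269 0 216, cl 1 0 1 1 25693 0 85, cl 0 1 0 1 11386 0 120,
 cl 2 0 1 1 0 3667 69, cl 0 0 0 2 0 7319 154, cl 1 0 0 2 5816 0 110, cl 2 0 0 0 0 2667 84,
 cl 1 0 2 0 0 3573 70, cl 0 2 0 0 107 0 87, cl 0 2 0 2 524 0 85, cl 1 2 0 2 0 604 116,
 cl 1 2 0 0 0 448 127, cl 0 3 0 1 0 0 71, cl 1 0 2 2 0 1816 70, cl 1 0 1 3 0 134 82,
 cl 0 1 0 3 0 1091 105, cl 2 0 2 0 0 311 61, cl 1 0 3 1 0 0 61, cl 2 0 0 2 0 1291 82,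
 cl 1 1 0 3 0 2924 126, cl 2 1 0 1 0 1362 114]

theorem ct83_link : linkOK ct83 cs83 = true := by decide +kernel

theorem cs83_tail0 : tailOK cs83 121 1 39 11499 = true := by decide +kernel

theorem cs83_grid0 : gridOK vtTree cs83 121 1 39 1 0 36149160854 20704 11499 = true := by
  decide +kernel

theorem cs83_tail1 : tailOK cs83 120 1 38 11499 = true := by decide +kernel

theorem cs83_grid1 : gridOK vtTree cs83 120 1 38 2 0 36149160854 20704 11499 = true := by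
  decide +kernel

/-! ### Box 84: `116 ≤ -128 x ≤ 120`, `37 ≤ 128 y ≤ 40` -/

/-- certificate -/
def ct84 : Cert where
  pts := ptsG
  g := 4138
  al := [(0, -2335), (1, -2751), (2, -5009), (3, 25), (4, -3304), (5, -389), (6, 451), (7, 1574), (8, 122), (9, -2476), (10, 1243), (11, 343), (12, 305), (13, 2725)]
  be := [
    (1, 0, 5412), (2, 0, 3549), (2, 1, 4239), (3, 0, 4879), (3, 1, -3157), (3, 2, -441), (4, 0, 3448),
    (4, 1, 3045), (4, 2, 7551), (4, 3, -747), (5, 0, -1708), (5, 1, 3481), (5, 2, 470), (5, 3, 1473),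
    (5, 4, -42), (6, 0, -3180), (6, 1, 1811), (6, 2, 828), (6, 3, -176), (6, 4, 1663), (6, 5, -877),
    (7, 0, 3391), (7, 1, -1654), (7, 2, -892), (7, 3, 1024), (7, 4, 2412), (7, 5, 178), (7, 6, -144),
    (8, 0, 2976), (8, 1, -1157), (8, 2, 2079), (8, 3, -777), (8, 4, 5368), (8, 5, -283), (8, 6, 3268),
    (8, 7, -2169), (9, 0, -1571), (9, 1, 6901), (9, 2, 9186), (9, 3, 1032), (9, 4, -1378), (9, 5, -57),
    (9, 6, -1219), (9, 7, -358), (9, 8, 1454), (10, 0, -849), (10, 1, -3796), (10, 2, -903), (10, 3, -879),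
    (10, 4, -466), (10, 5, -250), (10, 6, -630), (10, 7, -167), (10, 8, -406), (10, 9, 1465), (11, 0, 2044),
    (11, 1, 4505), (11, 2, -859), (11, 3, 166), (11, 4, -2380), (11, 5, 598), (11, 6, -1201), (11, 7, -1638),
    (11, 8, 532), (11, 9, 575), (11, 10, 135), (12, 0, -38), (12, 1, 1166), (12, 2, 867), (12, 3, -40),
    (12, 4, 2953), (12, 5, -701), (12, 6, 577), (12, 7, -2184), (12, 8, -921), (12, 9, -594), (12, 10, 265),
    (12, 11, 1253), (13, 0, -1708), (13, 1, -1166), (13, 2, 178), (13, 3, 200), (13, 4, 155), (13, 5, -11),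
    (13, 6, -1004), (13, 7, -1195), (13, 8, -1556), (13, 9, -952), (13, 10, -206), (13, 11, -1435), (13, 12, -1335)]
  ta := [
    ((0, 4, 2), (2, 1, 0), -3313), ((7, 0, 1), (2, 1, 0), -1030), ((1, 3, 7), (2, 1, 0), -301), ((3, 1, 9), (2, 1, 0), 4033),
    ((12, 6, 8), (2, 1, 0), -148), ((8, 11, 12), (2, 1, 0), 1260), ((13, 11, 5), (2, 1, 0), 644), ((7, 4, 1), (2, 3, 0), 224),
    ((3, 2, 9), (2, 3, 0), -677), ((13, 8, 5), (2, 3, 0), 501), ((8, 13, 12), (2, 3, 0), 1299), ((4, 0, 7), (2, 1, 3), -2948),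
    ((8, 11, 13), (2, 1, 3), 767), ((1, 3, 4), (0, 4, 3), 985), ((11, 13, 6), (0, 4, 3), 258), ((12, 6, 13), (0, 4, 3), -42),
    ((7, 4, 3), (2, 3, 4), -998), ((8, 13, 6), (2, 3, 4), 125), ((0, 11, 5), (5, 1, 0), 1077), ((0, 13, 5), (5, 2, 0), 215),
    ((0, 4, 11), (1, 2, 5), 235), ((8, 11, 4), (1, 2, 5), -407), ((7, 0, 13), (1, 2, 5), -145), ((11, 13, 0), (1, 2, 5), 572),
    ((5, 8, 0), (0, 3, 5), 23), ((0, 4, 8), (3, 1, 5), -2740), ((7, 0, 11), (3, 1, 5), 169), ((8, 11, 0), (3, 1, 5), -1054),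
    ((11, 13, 7), (3, 1, 5), 982), ((7, 4, 11), (3, 2, 5), 639), ((8, 13, 0), (3, 2, 5), 351), ((5, 8, 4), (4, 1, 5), 76),
    ((4, 11, 5), (5, 2, 4), 261), ((8, 1, 6), (0, 6, 1), -2120), ((1, 8, 9), (0, 6, 1), -1442), ((2, 10, 4), (0, 6, 1), 1436),
    ((7, 12, 3), (0, 6, 1), 1695), ((11, 3, 12), (0, 6, 1), -844), ((2, 10, 0), (0, 6, 2), -1008), ((3, 11, 9), (0, 6, 2), 458),
    ((7, 12, 1), (0, 6, 2), 161), ((8, 1, 12), (0, 6, 2), 125), ((0, 4, 10), (2, 1, 6), 836), ((11, 8, 9), (2, 1, 6), -63),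
    ((1, 3, 12), (2, 1, 6), -252), ((12, 6, 1), (2, 1, 6), -163), ((11, 3, 6), (0, 6, 3), -354), ((12, 6, 3), (1, 3, 6), 138),
    ((2, 8, 1), (4, 6, 0), -4371), ((1, 10, 2), (4, 6, 0), 825), ((1, 11, 3), (4, 6, 0), -682), ((11, 1, 8), (4, 6, 0), 782),
    ((12, 0, 6), (4, 6, 0), 266), ((0, 12, 7), (4, 6, 0), 1549), ((13, 3, 11), (4, 6, 0), 8), ((8, 2, 9), (6, 4, 1), -5295),
    ((9, 5, 8), (6, 4, 1), 1370), ((10, 1, 4), (6, 4, 1), 3927), ((1, 11, 6), (6, 4, 1), 561), ((12, 0, 3), (6, 4, 1), -621),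
    ((3, 13, 12), (6, 4, 1), 218), ((2, 8, 6), (6, 4, 2), 1036), ((10, 1, 0), (6, 4, 2), 5411), ((11, 1, 9), (6, 4, 2), -4870),
    ((9, 5, 11), (6, 4, 2), 1685), ((12, 0, 1), (6, 4, 2), -2351), ((1, 11, 12), (6, 4, 2), -1433), ((3, 13, 6), (6, 4, 3), 849),
    ((9, 8, 4), (6, 1, 5), -393), ((4, 10, 9), (6, 1, 5), -227), ((4, 11, 9), (5, 2, 6), 1997), ((9, 5, 4), (6, 4, 5), 1301),
    ((2, 1, 7), (7, 0, 2), 932), ((7, 4, 2), (2, 3, 7), -1474), ((7, 13, 5), (5, 1, 7), -31), ((5, 11, 7), (7, 3, 5), -245),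
    ((8, 1, 3), (6, 0, 7), 148), ((3, 11, 8), (6, 0, 7), -52), ((7, 12, 6), (6, 0, 7), 395), ((3, 8, 9), (7, 6, 1), 187),
    ((8, 3, 12), (7, 6, 1), 269), ((8, 3, 6), (7, 6, 3), -436), ((2, 8, 3), (4, 6, 7), 676), ((13, 3, 8), (4, 6, 7), -6),
    ((0, 6, 8), (8, 1, 0), -286), ((3, 11, 5), (8, 1, 0), -976), ((11, 3, 7), (8, 1, 0), -761), ((7, 12, 11), (8, 1, 0), 2217),
    ((9, 5, 3), (2, 8, 0), -125), ((1, 11, 7), (2, 8, 0), 1208), ((12, 0, 8), (2, 8, 0), 355), ((13, 3, 5), (2, 8, 0), -650),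
    ((3, 8, 5), (8, 3, 0), 530), ((7, 6, 11), (8, 3, 0), 1071), ((1, 8, 5), (8, 1, 4), -98), ((10, 2, 9), (8, 1, 4), -1777),
    ((11, 3, 0), (8, 1, 4), -2034), ((0, 6, 11), (8, 1, 4), 2135), ((7, 12, 13), (8, 1, 4), 2967), ((7, 6, 13), (8, 3, 4), 395),
    ((9, 5, 2), (8, 2, 5), -1821), ((1, 11, 4), (8, 2, 5), -1039), ((6, 4, 11), (8, 2, 5), -127), ((3, 13, 0), (8, 2, 5), 231),
    ((12, 0, 13), (8, 2, 5), -11), ((4, 1, 9), (5, 8, 6), -227), ((9, 2, 4), (5, 8, 6), -3136), ((6, 11, 5), (5, 8, 6), 3308),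
    ((8, 11, 7), (7, 0, 8), 843), ((7, 12, 8), (8, 1, 7), -732), ((7, 6, 8), (8, 3, 7), 301), ((8, 13, 7), (7, 4, 8), 819),
    ((5, 11, 12), (9, 1, 0), 1328), ((0, 3, 9), (9, 2, 0), -859), ((5, 8, 12), (9, 2, 0), 1216), ((12, 13, 5), (9, 2, 0), -368),
    ((12, 6, 5), (0, 4, 9), 252), ((6, 13, 5), (4, 3, 9), -227), ((12, 0, 5), (9, 5, 0), 599), ((9, 8, 6), (6, 1, 9), 1100),
    ((6, 11, 9), (9, 2, 6), 1393), ((9, 5, 6), (6, 4, 9), -550), ((7, 3, 9), (9, 1, 7), -358), ((12, 3, 5), (9, 8, 0), -521),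
    ((2, 11, 6), (10, 3, 0), 2277), ((11, 2, 9), (10, 3, 0), -1886), ((12, 4, 1), (10, 3, 0), -1762), ((1, 13, 12), (10, 3, 0), 357),
    ((11, 1, 2), (10, 1, 3), -707), ((2, 8, 11), (10, 1, 3), 1310), ((12, 0, 4), (10, 1, 3), -541), ((4, 6, 12), (10, 1, 3), -948),
    ((13, 3, 1), (10, 1, 3), -1296), ((1, 11, 13), (10, 1, 3), -80), ((3, 11, 2), (2, 10, 3), 368), ((7, 12, 4), (2, 10, 3), -813),
    ((8, 1, 13), (2, 10, 3), -437), ((12, 4, 3), (10, 3, 4), -205), ((1, 13, 6), (10, 3, 4), 524), ((9, 5, 10), (1, 10, 5), 266),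
    ((2, 10, 6), (0, 6, 10), 80), ((6, 4, 10), (10, 1, 6), -630), ((2, 1, 12), (7, 0, 10), 658), ((12, 6, 2), (7, 0, 10), -814),
    ((13, 11, 9), (7, 0, 10), 487), ((12, 0, 2), (10, 1, 7), -316), ((2, 8, 12), (10, 1, 7), 191), ((13, 3, 9), (10, 1, 7), -56),
    ((9, 5, 13), (10, 1, 7), 167), ((7, 12, 2), (2, 10, 7), -344), ((12, 4, 2), (10, 3, 7), -1513), ((2, 11, 12), (10, 3, 7), 1554),
    ((13, 1, 9), (10, 3, 7), 937), ((2, 3, 12), (7, 4, 10), -70), ((13, 8, 9), (7, 4, 10), 182), ((2, 8, 10), (1, 10, 8), 683),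
    ((10, 8, 9), (8, 10, 4), -240), ((0, 11, 9), (9, 10, 0), -440), ((5, 1, 12), (9, 10, 0), -648), ((2, 11, 0), (3, 10, 9), 895),
    ((12, 4, 8), (3, 10, 9), -1516), ((13, 1, 5), (3, 10, 9), 943), ((1, 13, 7), (3, 10, 9), -183), ((7, 13, 9), (9, 10, 7), -598),
    ((11, 2, 5), (2, 11, 4), 1143), ((12, 4, 11), (2, 11, 4), 235), ((1, 13, 0), (2, 11, 4), 679), ((0, 6, 13), (11, 3, 4), -135),
    ((11, 10, 9), (10, 11, 0), -552), ((10, 11, 3), (11, 10, 2), -352), ((0, 13, 9), (5, 2, 12), 478), ((9, 5, 12), (12, 0, 9), -821),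
    ((12, 11, 9), (9, 1, 12), -84), ((12, 13, 9), (9, 2, 12), 228), ((9, 8, 12), (12, 3, 9), 515), ((10, 1, 12), (12, 0, 10), 265),
    ((7, 12, 10), (2, 10, 12), 265), ((12, 4, 10), (10, 3, 12), -723), ((13, 2, 5), (2, 13, 0), 478), ((13, 11, 2), (2, 1, 13), 399),
    ((2, 8, 13), (13, 3, 2), 401), ((11, 13, 4), (0, 4, 13), 611), ((12, 4, 13), (1, 13, 4), -171), ((6, 4, 13), (3, 13, 4), -626),
    ((8, 13, 4), (7, 4, 13), 7), ((2, 13, 12), (13, 2, 9), 100), ((13, 3, 10), (10, 1, 13), -206), ((13, 10, 9), (10, 13, 7), 125)]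
  tr := trG
  big := 32768

theorem ct84_valid : validC ct84 = true := by decide +kernel

theorem ct84_const : constOK ct84 11790 = true := by decide +kernel

/-- classes -/
def cs84 : List Cl := [
 cl 1 0 0 0 26007 0 119, cl 1 1 0 1 3715 0 218, cl 1 0 1 1 25454 0 86, cl 0 1 0 1 12151 0 122,
 cl 2 0 1 1 0 3963 70, cl 0 0 0 2 0 7258 156, cl 1 0 0 2 5570 0 111, cl 2 0 0 0 0 2272 84,
 cl 1 0 2 0 0 3618 71, cl 0 2 0 0 49 0 88, cl 0 2 0 2 550 0 86, cl 1 2 0 2 0 627 119,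
 cl 1 2 0 0 0 252 132, cl 0 3 0 1 0 28 72, cl 1 0 2 2 0 2001 70, cl 1 0 1 3 0 176 82,
 cl 0 1 0 3 0 1327 106, cl 2 0 2 0 0 42 61, cl 1 0 3 1 155 0 62, cl 2 0 0 2 0 1041 83,
 cl 1 1 0 3 0 2799 127, cl 2 1 0 1 0 952 113]

theorem ct84_link : linkOK ct84 cs84 = true := by decide +kernel

theorem cs84_tail0 : tailOK cs84 118 2 38 11790 = true := by decide +kernel

theorem cs84_grid0 : gridOK vtTree cs84 118 2 38 2 0 37632216210 20880 11790 = true := by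
  decide +kernel

theorem cs84_tail1 : tailOK cs84 116 2 37 11790 = true := by decide +kernel

theorem cs84_grid1 : gridOK vtTree cs84 116 2 37 3 0 37632216210 20880 11790 = true := by
  decide +kernel

end Pool.Agent.H79.OC
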