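import Pool.Agent.H79.OC.Pts
import Pool.Agent.H79.OC.Pts2
import Pool.Agent.H79.OC.VTab
import Pool.Agent.H79.OC.Swp

set_option autoImplicit false
set_option maxRecDepth 100000

/-!
# Certificates, part 44
-/

namespace Pool.Agent.H79.OC

open Cl

/-! ### Box 85: `112 ≤ -128 x ≤ 116`, `36 ≤ 128 y ≤ 40` -/

/-- certificate -/
def ct85 : Cert where
  pts := ptsG
  g := 1875
  al := [(0, -2006), (1, -4270), (2, -3909), (3, 77), (4, -2540), (5, -2640), (6, -703), (7, 1184), (8, -52), (9, -1983), (10, 738), (11, -949), (12, -1849), (13, 1116)]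
  be := [
    (1, 0, 4760), (2, 0, 2463), (2, 1, 4269), (3, 0, 3243), (3, 1, -2135), (3, 2, -607), (4, 0, 2195),
    (4, 1, 2792), (4, 2, 6359), (4, 3, -1256), (5, 0, -1349), (5, 1, 4531), (5, 2, -539), (5, 3, 1633),
    (5, 4, -296), (6, 0, -2009), (6, 1, 1800), (6, 2, 1118), (6, 4, 1884), (6, 5, -1783), (7, 0, 2303),
    (7, 1, -1700), (7, 2, -1145), (7, 3, 609), (7, 4, 2110), (7, 5, 465), (7, 6, 313), (8, 0, 1878),
    (8, 1, -1462), (8, 2, 2483), (8, 3, -1103), (8, 4, 4258), (8, 5, 1245), (8, 6, 2625), (8, 7, -2627),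
    (9, 0, -309), (9, 1, 5721), (9, 2, 5823), (9, 3, 210), (9, 4, 48), (9, 5, 1131), (9, 6, -754),
    (9, 7, -125), (9, 8, 296), (10, 0, -1024), (10, 1, -3530), (10, 2, -995), (10, 3, 100), (10, 4, -285),
    (10, 5, -202), (10, 6, -643), (10, 7, -69), (10, 8, -453), (10, 9, 1416), (11, 0, 1307), (11, 1, 2373),
    (11, 2, -286), (11, 3, 199), (11, 4, -1569), (11, 5, 2322), (11, 6, 753), (11, 7, -315), (11, 8, 880),
    (11, 9, -7), (11, 10, 315), (12, 0, 222), (12, 1, 2191), (12, 2, 406), (12, 3, 658), (12, 4, 1711),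
    (12, 5, -1282), (12, 6, 1516), (12, 7, -2003), (12, 8, 606), (12, 9, -121), (12, 10, 173), (12, 11, 2826),
    (13, 0, -1090), (13, 1, 252), (13, 2, -68), (13, 3, 472), (13, 4, 105), (13, 5, 1010), (13, 6, -472),
    (13, 7, -917), (13, 8, -769), (13, 9, 224), (13, 10, -317), (13, 11, -489), (13, 12, -45)]
  ta := [
    ((0, 4, 2), (2, 1, 0), -2392), ((7, 0, 1), (2, 1, 0), 85), ((1, 3, 7), (2, 1, 0), 45), ((3, 1, 9), (2, 1, 0), 3928),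
    ((12, 6, 8), (2, 1, 0), -629), ((8, 11, 12), (2, 1, 0), -364), ((13, 11, 5), (2, 1, 0), 262), ((7, 4, 1), (2, 3, 0), 454),
    ((3, 2, 9), (2, 3, 0), 2), ((13, 8, 5), (2, 3, 0), -160), ((8, 13, 12), (2, 3, 0), 751), ((4, 0, 7), (2, 1, 3), -2147),
    ((8, 11, 13), (2, 1, 3), 155), ((1, 3, 4), (0, 4, 3), 1325), ((11, 13, 6), (0, 4, 3), -561), ((12, 6, 13), (0, 4, 3), -350),
    ((7, 4, 3), (2, 3, 4), -735), ((8, 13, 6), (2, 3, 4), 125), ((0, 11, 5), (5, 1, 0), 959), ((0, 13, 5), (5, 2, 0), 59),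
    ((0, 4, 11), (1, 2, 5), 427), ((8, 11, 4), (1, 2, 5), -1020), ((7, 0, 13), (1, 2, 5), -459), ((11, 13, 0), (1, 2, 5), 529),
    ((5, 8, 0), (0, 3, 5), -357), ((0, 4, 8), (3, 1, 5), -2445), ((7, 0, 11), (3, 1, 5), -185), ((8, 11, 0), (3, 1, 5), 373),
    ((11, 13, 7), (3, 1, 5), 850), ((7, 4, 11), (3, 2, 5), 880), ((8, 13, 0), (3, 2, 5), 154), ((5, 8, 4), (4, 1, 5), 952),
    ((4, 11, 5), (5, 2, 4), -1243), ((8, 1, 6), (0, 6, 1), -887), ((1, 8, 9), (0, 6, 1), -661), ((2, 10, 4), (0, 6, 1), 1310),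
    ((7, 12, 3), (0, 6, 1), 1586), ((11, 3, 12), (0, 6, 1), -1654), ((2, 10, 0), (0, 6, 2), -955), ((3, 11, 9), (0, 6, 2), 974),
    ((7, 12, 1), (0, 6, 2), 199), ((8, 1, 12), (0, 6, 2), -852), ((0, 4, 10), (2, 1, 6), 880), ((11, 8, 9), (2, 1, 6), 792),
    ((1, 3, 12), (2, 1, 6), 10), ((12, 6, 1), (2, 1, 6), -473), ((11, 3, 6), (0, 6, 3), -698), ((12, 6, 3), (1, 3, 6), -432),
    ((2, 8, 1), (4, 6, 0), -3989), ((1, 10, 2), (4, 6, 0), 1106), ((1, 11, 3), (4, 6, 0), -1030), ((11, 1, 8), (4, 6, 0), 2400),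
    ((12, 0, 6), (4, 6, 0), -134), ((0, 12, 7), (4, 6, 0), 1172), ((13, 3, 11), (4, 6, 0), -6), ((8, 2, 9), (6, 4, 1), -3558),
    ((9, 5, 8), (6, 4, 1), 208), ((10, 1, 4), (6, 4, 1), 4048), ((1, 11, 6), (6, 4, 1), 1056), ((12, 0, 3), (6, 4, 1), -767),
    ((3, 13, 12), (6, 4, 1), -358), ((2, 8, 6), (6, 4, 2), -174), ((10, 1, 0), (6, 4, 2), 6047), ((11, 1, 9), (6, 4, 2), -2626),
    ((9, 5, 11), (6, 4, 2), 74), ((12, 0, 1), (6, 4, 2), -1655), ((1, 11, 12), (6, 4, 2), -1327), ((3, 13, 6), (6, 4, 3), 669),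
    ((9, 8, 4), (6, 1, 5), -951), ((4, 10, 9), (6, 1, 5), -521), ((4, 11, 9), (5, 2, 6), 1425), ((9, 5, 4), (6, 4, 5), 608),
    ((2, 1, 7), (7, 0, 2), 385), ((7, 4, 2), (2, 3, 7), -1583), ((7, 13, 5), (5, 1, 7), -576), ((5, 11, 7), (7, 3, 5), -541),
    ((8, 1, 3), (6, 0, 7), 440), ((3, 11, 8), (6, 0, 7), -643), ((7, 12, 6), (6, 0, 7), 75), ((3, 8, 9), (7, 6, 1), 500),
    ((8, 3, 12), (7, 6, 1), -124), ((8, 3, 6), (7, 6, 3), -390), ((2, 8, 3), (4, 6, 7), 654), ((13, 3, 8), (4, 6, 7), 226),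
    ((0, 6, 8), (8, 1, 0), -377), ((3, 11, 5), (8, 1, 0), -829), ((11, 3, 7), (8, 1, 0), -1784), ((7, 12, 11), (8, 1, 0), 1303),
    ((9, 5, 3), (2, 8, 0), -309), ((1, 11, 7), (2, 8, 0), 1961), ((12, 0, 8), (2, 8, 0), 630), ((13, 3, 5), (2, 8, 0), -991),
    ((3, 8, 5), (8, 3, 0), 536), ((7, 6, 11), (8, 3, 0), -202), ((1, 8, 5), (8, 1, 4), -2394), ((10, 2, 9), (8, 1, 4), -1130),
    ((11, 3, 0), (8, 1, 4), -1552), ((0, 6, 11), (8, 1, 4), 991), ((7, 12, 13), (8, 1, 4), 3244), ((7, 6, 13), (8, 3, 4), 265),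
    ((9, 5, 2), (8, 2, 5), -1039), ((1, 11, 4), (8, 2, 5), -1997), ((6, 4, 11), (8, 2, 5), 277), ((3, 13, 0), (8, 2, 5), 58),
    ((12, 0, 13), (8, 2, 5), -294), ((4, 1, 9), (5, 8, 6), -2240), ((9, 2, 4), (5, 8, 6), -3137), ((6, 11, 5), (5, 8, 6), 3828),
    ((8, 11, 7), (7, 0, 8), 395), ((7, 12, 8), (8, 1, 7), -548), ((7, 6, 8), (8, 3, 7), -405), ((8, 13, 7), (7, 4, 8), 997),
    ((5, 11, 12), (9, 1, 0), 1915), ((0, 3, 9), (9, 2, 0), -1129), ((5, 8, 12), (9, 2, 0), 1292), ((12, 13, 5), (9, 2, 0), -121),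
    ((12, 6, 5), (0, 4, 9), 258), ((6, 13, 5), (4, 3, 9), -350), ((12, 0, 5), (9, 5, 0), 295), ((9, 8, 6), (6, 1, 9), 1583),
    ((6, 11, 9), (9, 2, 6), 1085), ((9, 5, 6), (6, 4, 9), -775), ((7, 3, 9), (9, 1, 7), -125), ((12, 3, 5), (9, 8, 0), -184),
    ((2, 11, 6), (10, 3, 0), 1199), ((11, 2, 9), (10, 3, 0), -1014), ((12, 4, 1), (10, 3, 0), -623), ((1, 13, 12), (10, 3, 0), -301),
    ((11, 1, 2), (10, 1, 3), 523), ((2, 8, 11), (10, 1, 3), 95), ((12, 0, 4), (10, 1, 3), 259), ((4, 6, 12), (10, 1, 3), -686),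
    ((13, 3, 1), (10, 1, 3), -1799), ((1, 11, 13), (10, 1, 3), -285), ((3, 11, 2), (2, 10, 3), 463), ((7, 12, 4), (2, 10, 3), -844),
    ((8, 1, 13), (2, 10, 3), -425), ((12, 4, 3), (10, 3, 4), -348), ((1, 13, 6), (10, 3, 4), 612), ((9, 5, 10), (1, 10, 5), 423),
    ((2, 10, 6), (0, 6, 10), 438), ((6, 4, 10), (10, 1, 6), -643), ((2, 1, 12), (7, 0, 10), 818), ((12, 6, 2), (7, 0, 10), -844),
    ((13, 11, 9), (7, 0, 10), 212), ((12, 0, 2), (10, 1, 7), 286), ((2, 8, 12), (10, 1, 7), 254), ((13, 3, 9), (10, 1, 7), -97),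
    ((9, 5, 13), (10, 1, 7), 16), ((7, 12, 2), (2, 10, 7), -101), ((12, 4, 2), (10, 3, 7), -254), ((2, 11, 12), (10, 3, 7), 1053),
    ((13, 1, 9), (10, 3, 7), 153), ((2, 3, 12), (7, 4, 10), 200), ((13, 8, 9), (7, 4, 10), -249), ((2, 8, 10), (1, 10, 8), 758),
    ((10, 8, 9), (8, 10, 4), -203), ((0, 11, 9), (9, 10, 0), -686), ((5, 1, 12), (9, 10, 0), -426), ((2, 11, 0), (3, 10, 9), 667),
    ((12, 4, 8), (3, 10, 9), -999), ((13, 1, 5), (3, 10, 9), 1042), ((1, 13, 7), (3, 10, 9), -303), ((7, 13, 9), (9, 10, 7), -154),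
    ((11, 2, 5), (2, 11, 4), 1666), ((12, 4, 11), (2, 11, 4), 862), ((1, 13, 0), (2, 11, 4), -269), ((0, 6, 13), (11, 3, 4), -194),
    ((11, 10, 9), (10, 11, 0), -758), ((10, 11, 3), (11, 10, 2), -621), ((0, 13, 9), (5, 2, 12), 323), ((9, 5, 12), (12, 0, 9), -503),
    ((12, 11, 9), (9, 1, 12), 262), ((12, 13, 9), (9, 2, 12), 121), ((9, 8, 12), (12, 3, 9), 307), ((10, 1, 12), (12, 0, 10), 173),
    ((7, 12, 10), (2, 10, 12), 480), ((12, 4, 10), (10, 3, 12), -623), ((13, 2, 5), (2, 13, 0), 397), ((13, 11, 2), (2, 1, 13), 824),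
    ((2, 8, 13), (13, 3, 2), 250), ((11, 13, 4), (0, 4, 13), -51), ((12, 4, 13), (1, 13, 4), -54), ((6, 4, 13), (3, 13, 4), -681),
    ((8, 13, 4), (7, 4, 13), -371), ((2, 13, 12), (13, 2, 9), 360), ((13, 3, 10), (10, 1, 13), -317), ((13, 10, 9), (10, 13, 7), -134)]
  tr := trG
  big := 32768

theorem ct85_valid : validC ct85 = true := by decide +kernel

theorem ct85_const : constOK ct85 11379 = true := by decide +kernel

/-- classes -/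
def cs85 : List Cl := [
 cl 1 0 0 0 25222 0 119, cl 1 1 0 1 4867 0 218, cl 1 0 1 1 24406 0 86, cl 0 1 0 1 13574 0 124,
 cl 2 0 1 1 0 3084 70, cl 0 0 0 2 0 6270 158, cl 1 0 0 2 5665 0 111, cl 2 0 0 0 0 1591 84,
 cl 1 0 2 0 0 3198 72, cl 0 2 0 0 1777 0 90, cl 0 2 0 2 1049 0 88, cl 1 2 0 2 0 972 123,
 cl 1 2 0 0 561 0 137, cl 0 3 0 1 0 385 73, cl 1 0 2 2 0 1930 71, cl 1 0 1 3 0 0 83,
 cl 0 1 0 3 0 1243 108, cl 2 0 2 0 0 296 62, cl 1 0 3 1 105 0 63, cl 2 0 0 2 0 289 83,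
 cl 1 1 0 3 0 3270 129, cl 2 1 0 1 0 246 112]

theorem ct85_link : linkOK ct85 cs85 = true := by decide +kernel

theorem cs85_tail0 : tailOK cs85 114 2 37 11379 = true := by decide +kernel

theorem cs85_grid0 : gridOK vtTree cs85 114 2 37 3 0 45551925969 21639 11379 = true := by
  decide +kernel

theorem cs85_tail1 : tailOK cs85 112 2 36 11379 = true := by decide +kernel

theorem cs85_grid1 : gridOK vtTree cs85 112 2 36 4 0 45551925969 21639 11379 = true := by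
  decide +kernel

/-! ### Box 86: `0 ≤ -128 x ≤ 8`, `0 ≤ 128 y ≤ 5` -/

/-- certificate -/
def ct86 : Cert where
  pts := pts14
  g := 6308
  al := [(0, -413), (1, 28), (2, 28), (3, 2526), (4, 634), (5, -2001), (6, -2001), (7, -5451), (8, -1253), (9, 590), (10, 590), (11, -33), (12, 1077), (13, 1077)]
  be := [
    (1, 0, 1548), (2, 0, 1548), (2, 1, -1394), (3, 0, 752), (3, 1, 259), (3, 2, 259), (4, 0, 3506),
    (4, 1, 2375), (4, 2, 2375), (4, 3, -4484), (5, 0, -23), (5, 1, 4766), (5, 2, -43), (5, 3, 3571),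
    (5, 4, 3629), (6, 0, -23), (6, 1, -43), (6, 2, 4766), (6, 3, 3571), (6, 4, 3629), (6, 5, -1274),
    (7, 0, -248), (7, 1, 2323), (7, 2, 2323), (7, 3, 7480), (7, 4, 1704), (7, 5, 2660), (7, 6, 2660),
    (8, 0, -36), (8, 1, -410), (8, 2, -410), (8, 4, 5671), (8, 5, 3042), (8, 6, 3042), (8, 7, -2645),
    (9, 0, -310), (9, 1, -26), (9, 3, -701), (9, 4, -2240), (9, 5, -81), (9, 6, -9), (9, 7, 2317),
    (9, 8, 3066), (10, 0, -310), (10, 2, -26), (10, 3, -701), (10, 4, -2240), (10, 5, -9), (10, 6, -81),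
    (10, 7, 2317), (10, 8, 3066), (10, 9, -546), (11, 1, -27), (11, 2, -27), (11, 3, 339), (11, 4, 248),
    (11, 5, -42), (11, 6, -42), (11, 7, 2112), (11, 8, 113), (11, 9, 1045), (11, 10, 1045), (12, 0, -396),
    (12, 1, -782), (12, 3, -2061), (12, 4, -1441), (12, 5, -2103), (12, 7, 1691), (12, 8, 557), (12, 9, -1729),
    (12, 10, -158), (13, 0, -396), (13, 2, -782), (13, 3, -2061), (13, 4, -1441), (13, 6, -2103), (13, 7, 1691),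
    (13, 8, 557), (13, 9, -158), (13, 10, -1729), (13, 12, -205)]
  ta := [
    ((3, 2, 1), (0, 1, 2), 645), ((4, 5, 6), (0, 1, 2), -1911), ((7, 6, 5), (0, 1, 2), 85), ((8, 9, 10), (0, 1, 2), -393),
    ((11, 10, 9), (0, 1, 2), -17), ((5, 4, 12), (0, 1, 2), 982), ((6, 13, 4), (0, 1, 2), 982), ((3, 2, 0), (0, 1, 3), -790),
    ((4, 5, 7), (0, 1, 3), 1869), ((7, 6, 4), (0, 1, 3), 1869), ((8, 9, 11), (0, 1, 3), -1079), ((11, 10, 8), (0, 1, 3), -1079),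
    ((6, 5, 3), (1, 2, 4), -833), ((5, 6, 8), (1, 2, 4), -2085), ((10, 9, 7), (1, 2, 4), 529), ((4, 12, 1), (1, 2, 4), 841),
    ((13, 4, 2), (1, 2, 4), 841), ((7, 4, 3), (0, 3, 4), 287), ((4, 7, 8), (0, 3, 4), -342), ((11, 8, 7), (0, 3, 4), 851),
    ((6, 4, 3), (1, 3, 4), 455), ((5, 7, 8), (1, 3, 4), 2), ((10, 8, 7), (1, 3, 4), -689), ((5, 4, 3), (2, 3, 4), 455),
    ((6, 7, 8), (2, 3, 4), 2), ((9, 8, 7), (2, 3, 4), -689), ((5, 4, 0), (0, 1, 5), -1655), ((2, 3, 7), (0, 1, 5), -2544),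
    ((7, 6, 2), (0, 1, 5), 280), ((4, 5, 9), (0, 1, 5), 462), ((9, 8, 4), (0, 1, 5), -1147), ((6, 7, 11), (0, 1, 5), -1174),
    ((11, 10, 6), (0, 1, 5), -1058), ((13, 6, 10), (0, 1, 5), 7217), ((7, 5, 2), (0, 2, 5), -737), ((4, 6, 9), (0, 2, 5), 308),
    ((11, 9, 6), (0, 2, 5), 8), ((5, 12, 0), (0, 2, 5), 199), ((10, 8, 13), (0, 2, 5), 552), ((6, 5, 2), (1, 2, 5), -959),
    ((5, 6, 9), (1, 2, 5), -54), ((10, 9, 6), (1, 2, 5), 11), ((4, 12, 0), (1, 2, 5), 281), ((4, 13, 8), (1, 2, 5), 180),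
    ((7, 4, 2), (0, 3, 5), -1072), ((4, 7, 9), (0, 3, 5), 992), ((11, 8, 6), (0, 3, 5), -91), ((5, 4, 2), (2, 3, 5), -1142),
    ((6, 7, 9), (2, 3, 5), -522), ((9, 8, 6), (2, 3, 5), -1884), ((0, 1, 12), (2, 3, 5), -259), ((13, 6, 8), (2, 3, 5), 4721),
    ((7, 6, 1), (0, 1, 6), -737), ((4, 5, 10), (0, 1, 6), 308), ((11, 10, 5), (0, 1, 6), 8), ((9, 8, 12), (0, 1, 6), 552),
    ((6, 13, 0), (0, 1, 6), 199), ((6, 4, 0), (0, 2, 6), -1655), ((1, 3, 7), (0, 2, 6), -2544), ((7, 5, 1), (0, 2, 6), 280),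
    ((4, 6, 10), (0, 2, 6), 462), ((10, 8, 4), (0, 2, 6), -1147), ((5, 7, 11), (0, 2, 6), -1174), ((11, 9, 5), (0, 2, 6), -1058),
    ((12, 5, 9), (0, 2, 6), 7217), ((6, 5, 1), (1, 2, 6), -959), ((5, 6, 10), (1, 2, 6), -54), ((10, 9, 5), (1, 2, 6), 11),
    ((12, 4, 8), (1, 2, 6), 180), ((13, 4, 0), (1, 2, 6), 281), ((7, 4, 1), (0, 3, 6), -1072), ((4, 7, 10), (0, 3, 6), 992),
    ((11, 8, 5), (0, 3, 6), -91), ((6, 4, 1), (1, 3, 6), -1142), ((5, 7, 10), (1, 3, 6), -522), ((10, 8, 5), (1, 3, 6), -1884),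
    ((12, 5, 8), (1, 3, 6), 4721), ((0, 2, 13), (1, 3, 6), -259), ((1, 2, 7), (6, 5, 0), 17), ((10, 9, 4), (6, 5, 0), 254),
    ((5, 6, 11), (6, 5, 0), 8), ((12, 4, 9), (6, 5, 0), -153), ((4, 13, 10), (6, 5, 0), -153), ((7, 6, 0), (0, 1, 7), 282),
    ((4, 5, 11), (0, 1, 7), -54), ((11, 10, 4), (0, 1, 7), 77), ((7, 5, 0), (0, 2, 7), 282), ((4, 6, 11), (0, 2, 7), -54),
    ((11, 9, 4), (0, 2, 7), 77), ((7, 4, 0), (0, 3, 7), -597), ((4, 7, 11), (0, 3, 7), 271), ((11, 8, 4), (0, 3, 7), -224),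
    ((9, 8, 1), (0, 1, 8), -162), ((2, 3, 10), (0, 1, 8), 288), ((11, 10, 3), (0, 1, 8), -35), ((1, 3, 9), (0, 2, 8), 288),
    ((10, 8, 2), (0, 2, 8), -162), ((11, 9, 3), (0, 2, 8), -35), ((10, 9, 3), (1, 2, 8), -67), ((11, 8, 3), (0, 3, 8), -30),
    ((10, 8, 3), (1, 3, 8), -553), ((9, 8, 3), (2, 3, 8), -553), ((1, 5, 9), (0, 4, 8), 2110), ((2, 6, 10), (0, 4, 8), 2110),
    ((3, 7, 11), (0, 4, 8), -1880), ((8, 5, 1), (1, 4, 8), 916), ((3, 6, 10), (1, 4, 8), 1751), ((10, 7, 3), (1, 4, 8), -1320),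
    ((8, 6, 2), (2, 4, 8), 916), ((3, 5, 9), (2, 4, 8), 1751), ((9, 7, 3), (2, 4, 8), -1320), ((8, 7, 3), (3, 4, 8), 448),
    ((1, 4, 9), (8, 5, 0), 338), ((10, 7, 2), (8, 5, 0), -962), ((3, 6, 11), (8, 5, 0), -67), ((2, 13, 10), (8, 5, 0), 1018),
    ((9, 6, 3), (2, 5, 8), -220), ((8, 13, 2), (2, 5, 8), -21), ((9, 7, 1), (8, 6, 0), -962), ((2, 4, 10), (8, 6, 0), 338),
    ((3, 5, 11), (8, 6, 0), -67), ((1, 12, 9), (8, 6, 0), 1018), ((3, 5, 10), (8, 6, 1), -220), ((1, 12, 8), (8, 6, 1), -21),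
    ((3, 4, 11), (8, 7, 0), -294), ((3, 4, 10), (8, 7, 1), 531), ((3, 4, 9), (8, 7, 2), 531), ((9, 8, 0), (0, 1, 9), -46),
    ((2, 3, 11), (0, 1, 9), -13), ((11, 10, 2), (0, 1, 9), -52), ((11, 9, 2), (0, 2, 9), -2), ((10, 9, 2), (1, 2, 9), 166),
    ((11, 8, 2), (0, 3, 9), -61), ((9, 8, 2), (2, 3, 9), -219), ((9, 5, 0), (0, 4, 9), -228), ((2, 6, 11), (0, 4, 9), 168),
    ((11, 7, 2), (0, 4, 9), -280), ((9, 7, 2), (2, 4, 9), -318), ((9, 6, 2), (2, 5, 9), -327), ((2, 5, 11), (9, 6, 0), -107),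
    ((0, 12, 9), (9, 6, 0), 30), ((2, 5, 10), (9, 6, 1), -113), ((0, 12, 8), (9, 6, 1), 113), ((8, 13, 0), (9, 6, 1), 113),
    ((2, 4, 11), (9, 7, 0), -46), ((11, 10, 1), (0, 1, 10), -2), ((10, 8, 0), (0, 2, 10), -46), ((1, 3, 11), (0, 2, 10), -13),
    ((11, 9, 1), (0, 2, 10), -52), ((10, 9, 1), (1, 2, 10), 166), ((11, 8, 1), (0, 3, 10), -61), ((10, 8, 1), (1, 3, 10), -219),
    ((10, 6, 0), (0, 4, 10), -228), ((1, 5, 11), (0, 4, 10), 168), ((11, 7, 1), (0, 4, 10), -280), ((10, 7, 1), (1, 4, 10), -318),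
    ((11, 6, 1), (0, 5, 10), -107), ((10, 13, 0), (0, 5, 10), 30), ((10, 6, 1), (1, 5, 10), 327), ((1, 4, 11), (10, 7, 0), -46),
    ((1, 2, 11), (10, 9, 0), 177), ((11, 10, 0), (0, 1, 11), 52), ((11, 9, 0), (0, 2, 11), 52), ((11, 7, 0), (0, 4, 11), 104),
    ((5, 12, 2), (0, 2, 12), -6), ((4, 12, 2), (1, 2, 12), -397), ((5, 12, 3), (1, 3, 12), -1903), ((12, 6, 9), (6, 12, 0), -84),
    ((12, 6, 8), (6, 12, 1), -504), ((6, 5, 12), (12, 4, 6), 215), ((12, 7, 9), (7, 12, 1), 1013), ((10, 9, 12), (12, 4, 10), -333),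
    ((10, 8, 12), (12, 5, 10), -356), ((11, 9, 12), (12, 5, 11), 131), ((6, 13, 1), (0, 1, 13), -6), ((13, 4, 1), (1, 2, 13), -397),
    ((6, 13, 3), (2, 3, 13), -1903), ((5, 13, 10), (13, 5, 0), -84), ((5, 13, 8), (13, 5, 2), -504), ((6, 13, 5), (4, 5, 13), 215),
    ((13, 7, 10), (7, 13, 2), 1013), ((10, 9, 13), (4, 13, 9), -333), ((9, 8, 13), (13, 6, 9), -356), ((11, 10, 13), (13, 6, 11), 131),
    ((12, 13, 8), (13, 12, 0), -47)]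
  tr := tr14
  big := 32768

theorem ct86_valid : validC ct86 = true := by decide +kernel

theorem ct86_const : constOK ct86 17190 = true := by decide +kernel

/-- small classes -/
def sm86 : List Cl := [
 cl 0 1 0 1 20208 0 118, cl 0 2 0 0 2569 0 90, cl 0 0 0 2 0 6096 119, cl 0 1 0 3 0 0 90,
 cl 0 2 0 2 3382 0 84, cl 0 0 0 4 0 205 84]

/-- big classes -/
def bg86 : List Cl := [
 cl 1 0 0 0 28139 0 119, cl 1 1 0 1 0 3422 123, cl 1 2 0 0 0 0 127, cl 2 0 0 0 251 0 84,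
 cl 2 1 0 1 0 674 86, cl 2 2 0 0 0 0 87, cl 1 0 0 2 218 0 119, cl 1 0 1 1 21046 0 119,
 cl 2 0 1 1 0 2222 84, cl 2 0 0 2 0 0 84, cl 1 0 1 3 0 0 119, cl 1 0 2 0 0 7129 119,
 cl 2 0 2 0 0 0 84, cl 1 0 2 2 0 4122 119, cl 1 1 0 3 0 316 123, cl 1 2 0 2 0 0 127]

theorem ct86_link : linkOK ct86 (sm86 ++ bg86) = true := by decide +kernel

theorem sm86_zero : (sm86.all fun c => decide (c.i = 0)) = true := by decide +kernel

theorem bg86_tail : tailOK bg86 0 8 0 7758 = true := by decide +kernel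

theorem sm86_tail : tailOK sm86 112 86 64 9432 = true := by decide +kernel

theorem cs86_grid : gridOK vtTree (sm86 ++ bg86) 0 8 0 5 0 36336200199 20354 17190 = true := by
  decide +kernel

theorem sm86_grid : gridOK vtTree sm86 112 86 64 0 0 11101715859 8617 9432 = true := by
  decide +kernel

end Pool.Agent.H79.OC
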