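import Pool.Agent.H79.OC.Pts
import Pool.Agent.H79.OC.Pts2
import Pool.Agent.H79.OC.VTab
import Pool.Agent.H79.OC.Swp

set_option autoImplicit false
set_option maxRecDepth 100000

/-!
# Certificates, part 45
-/

namespace Pool.Agent.H79.OC

open Cl

/-! ### Box 87: `8 ≤ -128 x ≤ 12`, `2 ≤ 128 y ≤ 7` -/

/-- certificate -/
def ct87 : Cert where
  pts := pts14
  g := 12669
  al := [(0, 2749), (1, -1457), (2, -1457), (3, 4474), (4, 3172), (5, 1020), (6, 1020), (7, -818), (8, -2816), (9, 554), (10, 554), (11, -265), (12, 2659), (13, 2659)]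
  be := [
    (1, 0, 3655), (2, 0, 3655), (2, 1, -1349), (3, 0, 77), (3, 1, 226), (3, 2, 226), (4, 0, -367),
    (4, 1, 3392), (4, 2, 3392), (4, 3, -4286), (5, 0, -960), (5, 1, 7826), (5, 2, -2242), (5, 3, 1174),
    (5, 4, 2665), (6, 0, -960), (6, 1, -2242), (6, 2, 7826), (6, 3, 1174), (6, 4, 2665), (6, 5, -1983),
    (7, 0, -718), (7, 1, 11), (7, 2, 11), (7, 3, 6291), (7, 4, 78), (7, 5, 292), (7, 6, 292),
    (8, 0, 221), (8, 1, 132), (8, 2, 132), (8, 3, 536), (8, 4, 6010), (8, 5, 4900), (8, 6, 4900),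
    (8, 7, -4751), (9, 0, -548), (9, 1, -310), (9, 3, -949), (9, 4, -1907), (9, 5, 1001), (9, 6, -439),
    (9, 7, 2107), (9, 8, 1967), (10, 0, -548), (10, 2, -310), (10, 3, -949), (10, 4, -1907), (10, 5, -439),
    (10, 6, 1001), (10, 7, 2107), (10, 8, 1967), (10, 9, -247), (11, 1, 322), (11, 2, 322), (11, 3, 605),
    (11, 4, 718), (11, 5, -219), (11, 6, -219), (11, 7, 1811), (11, 8, -155), (11, 9, 352), (11, 10, 352),
    (12, 0, -1638), (12, 1, -398), (12, 3, -2253), (12, 4, 41), (12, 5, -2297), (12, 6, -713), (12, 7, 1232),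
    (12, 8, 4318), (12, 9, 845), (13, 0, -1638), (13, 2, -398), (13, 3, -2253), (13, 4, 41), (13, 5, -713),
    (13, 6, -2297), (13, 7, 1232), (13, 8, 4318), (13, 10, 845), (13, 12, -4313)]
  ta := [
    ((3, 2, 1), (0, 1, 2), 1486), ((4, 5, 6), (0, 1, 2), -128), ((7, 6, 5), (0, 1, 2), 372), ((8, 9, 10), (0, 1, 2), -647),
    ((11, 10, 9), (0, 1, 2), 588), ((5, 4, 12), (0, 1, 2), -677), ((6, 13, 4), (0, 1, 2), -677), ((3, 2, 0), (0, 1, 3), -1290),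
    ((4, 5, 7), (0, 1, 3), 1236), ((7, 6, 4), (0, 1, 3), 1236), ((8, 9, 11), (0, 1, 3), 54), ((11, 10, 8), (0, 1, 3), 54),
    ((6, 5, 3), (1, 2, 4), 1558), ((5, 6, 8), (1, 2, 4), -3290), ((10, 9, 7), (1, 2, 4), -140), ((4, 12, 1), (1, 2, 4), 536),
    ((13, 4, 2), (1, 2, 4), 536), ((7, 4, 3), (0, 3, 4), -2329), ((4, 7, 8), (0, 3, 4), 17), ((11, 8, 7), (0, 3, 4), 999),
    ((6, 4, 3), (1, 3, 4), -379), ((5, 7, 8), (1, 3, 4), 1380), ((10, 8, 7), (1, 3, 4), 321), ((5, 4, 3), (2, 3, 4), -379),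
    ((6, 7, 8), (2, 3, 4), 1380), ((9, 8, 7), (2, 3, 4), 321), ((5, 4, 0), (0, 1, 5), -1911), ((2, 3, 7), (0, 1, 5), -452),
    ((7, 6, 2), (0, 1, 5), 1686), ((4, 5, 9), (0, 1, 5), -160), ((9, 8, 4), (0, 1, 5), -781), ((6, 7, 11), (0, 1, 5), -802),
    ((11, 10, 6), (0, 1, 5), -498), ((13, 6, 10), (0, 1, 5), 5721), ((7, 5, 2), (0, 2, 5), -524), ((4, 6, 9), (0, 2, 5), 1018),
    ((11, 9, 6), (0, 2, 5), -158), ((5, 12, 0), (0, 2, 5), 952), ((10, 8, 13), (0, 2, 5), -529), ((6, 5, 2), (1, 2, 5), -409),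
    ((5, 6, 9), (1, 2, 5), -1306), ((10, 9, 6), (1, 2, 5), -415), ((4, 12, 0), (1, 2, 5), 2087), ((4, 13, 8), (1, 2, 5), -1612),
    ((7, 4, 2), (0, 3, 5), -516), ((4, 7, 9), (0, 3, 5), 987), ((11, 8, 6), (0, 3, 5), -115), ((5, 4, 2), (2, 3, 5), -1425),
    ((6, 7, 9), (2, 3, 5), 337), ((9, 8, 6), (2, 3, 5), -926), ((0, 1, 12), (2, 3, 5), -1837), ((13, 6, 8), (2, 3, 5), 2196),
    ((7, 6, 1), (0, 1, 6), -524), ((4, 5, 10), (0, 1, 6), 1018), ((11, 10, 5), (0, 1, 6), -158), ((9, 8, 12), (0, 1, 6), -529),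
    ((6, 13, 0), (0, 1, 6), 952), ((6, 4, 0), (0, 2, 6), -1911), ((1, 3, 7), (0, 2, 6), -452), ((7, 5, 1), (0, 2, 6), 1686),
    ((4, 6, 10), (0, 2, 6), -160), ((10, 8, 4), (0, 2, 6), -781), ((5, 7, 11), (0, 2, 6), -802), ((11, 9, 5), (0, 2, 6), -498),
    ((12, 5, 9), (0, 2, 6), 5721), ((6, 5, 1), (1, 2, 6), -409), ((5, 6, 10), (1, 2, 6), -1306), ((10, 9, 5), (1, 2, 6), -415),
    ((12, 4, 8), (1, 2, 6), -1612), ((13, 4, 0), (1, 2, 6), 2087), ((7, 4, 1), (0, 3, 6), -516), ((4, 7, 10), (0, 3, 6), 987),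
    ((11, 8, 5), (0, 3, 6), -115), ((6, 4, 1), (1, 3, 6), -1425), ((5, 7, 10), (1, 3, 6), 337), ((10, 8, 5), (1, 3, 6), -926),
    ((12, 5, 8), (1, 3, 6), 2196), ((0, 2, 13), (1, 3, 6), -1837), ((1, 2, 7), (6, 5, 0), 254), ((10, 9, 4), (6, 5, 0), 226),
    ((5, 6, 11), (6, 5, 0), 99), ((12, 4, 9), (6, 5, 0), -373), ((4, 13, 10), (6, 5, 0), -373), ((7, 6, 0), (0, 1, 7), 914),
    ((4, 5, 11), (0, 1, 7), 106), ((11, 10, 4), (0, 1, 7), -104), ((7, 5, 0), (0, 2, 7), 914), ((4, 6, 11), (0, 2, 7), 106),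
    ((11, 9, 4), (0, 2, 7), -104), ((7, 4, 0), (0, 3, 7), -319), ((4, 7, 11), (0, 3, 7), 564), ((11, 8, 4), (0, 3, 7), -272),
    ((9, 8, 1), (0, 1, 8), 270), ((2, 3, 10), (0, 1, 8), 165), ((11, 10, 3), (0, 1, 8), -180), ((1, 3, 9), (0, 2, 8), 165),
    ((10, 8, 2), (0, 2, 8), 270), ((11, 9, 3), (0, 2, 8), -180), ((10, 9, 3), (1, 2, 8), -206), ((11, 8, 3), (0, 3, 8), 4),
    ((10, 8, 3), (1, 3, 8), -11), ((9, 8, 3), (2, 3, 8), -11), ((1, 5, 9), (0, 4, 8), 2087), ((2, 6, 10), (0, 4, 8), 2087),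
    ((3, 7, 11), (0, 4, 8), -1465), ((8, 5, 1), (1, 4, 8), 182), ((3, 6, 10), (1, 4, 8), 2436), ((10, 7, 3), (1, 4, 8), -910),
    ((8, 6, 2), (2, 4, 8), 182), ((3, 5, 9), (2, 4, 8), 2436), ((9, 7, 3), (2, 4, 8), -910), ((8, 7, 3), (3, 4, 8), -496),
    ((1, 4, 9), (8, 5, 0), 258), ((10, 7, 2), (8, 5, 0), 70), ((3, 6, 11), (8, 5, 0), 190), ((2, 13, 10), (8, 5, 0), -229),
    ((9, 6, 3), (2, 5, 8), 276), ((8, 13, 2), (2, 5, 8), 381), ((9, 7, 1), (8, 6, 0), 70), ((2, 4, 10), (8, 6, 0), 258),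
    ((3, 5, 11), (8, 6, 0), 190), ((1, 12, 9), (8, 6, 0), -229), ((3, 5, 10), (8, 6, 1), 276), ((1, 12, 8), (8, 6, 1), 381),
    ((3, 4, 11), (8, 7, 0), -722), ((3, 4, 10), (8, 7, 1), 373), ((3, 4, 9), (8, 7, 2), 373), ((9, 8, 0), (0, 1, 9), -174),
    ((2, 3, 11), (0, 1, 9), 57), ((11, 10, 2), (0, 1, 9), -180), ((11, 9, 2), (0, 2, 9), -122), ((10, 9, 2), (1, 2, 9), 38),
    ((11, 8, 2), (0, 3, 9), -232), ((9, 8, 2), (2, 3, 9), -422), ((9, 5, 0), (0, 4, 9), -606), ((2, 6, 11), (0, 4, 9), 488),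
    ((11, 7, 2), (0, 4, 9), -490), ((9, 7, 2), (2, 4, 9), -582), ((9, 6, 2), (2, 5, 9), 131), ((2, 5, 11), (9, 6, 0), -192),
    ((0, 12, 9), (9, 6, 0), -104), ((2, 5, 10), (9, 6, 1), 558), ((0, 12, 8), (9, 6, 1), -558), ((8, 13, 0), (9, 6, 1), -558),
    ((2, 4, 11), (9, 7, 0), -98), ((11, 10, 1), (0, 1, 10), -122), ((10, 8, 0), (0, 2, 10), -174), ((1, 3, 11), (0, 2, 10), 57),
    ((11, 9, 1), (0, 2, 10), -180), ((10, 9, 1), (1, 2, 10), 38), ((11, 8, 1), (0, 3, 10), -232), ((10, 8, 1), (1, 3, 10), -422),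
    ((10, 6, 0), (0, 4, 10), -606), ((1, 5, 11), (0, 4, 10), 488), ((11, 7, 1), (0, 4, 10), -490), ((10, 7, 1), (1, 4, 10), -582),
    ((11, 6, 1), (0, 5, 10), -192), ((10, 13, 0), (0, 5, 10), -104), ((10, 6, 1), (1, 5, 10), -131), ((1, 4, 11), (10, 7, 0), -98),
    ((1, 2, 11), (10, 9, 0), -9), ((11, 8, 0), (0, 3, 11), 50), ((11, 7, 0), (0, 4, 11), -50), ((5, 12, 2), (0, 2, 12), 1393),
    ((4, 12, 2), (1, 2, 12), 290), ((5, 12, 3), (1, 3, 12), -1717), ((12, 6, 9), (6, 12, 0), -1244), ((12, 6, 8), (6, 12, 1), -3384),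
    ((6, 5, 12), (12, 4, 6), 1191), ((12, 7, 9), (7, 12, 1), -779), ((10, 9, 12), (12, 4, 10), 5), ((10, 8, 12), (12, 5, 10), -168),
    ((11, 9, 12), (12, 5, 11), 113), ((6, 13, 1), (0, 1, 13), 1393), ((13, 4, 1), (1, 2, 13), 290), ((6, 13, 3), (2, 3, 13), -1717),
    ((5, 13, 10), (13, 5, 0), -1244), ((5, 13, 8), (13, 5, 2), -3384), ((6, 13, 5), (4, 5, 13), 1191), ((13, 7, 10), (7, 13, 2), -779),
    ((10, 9, 13), (4, 13, 9), 5), ((9, 8, 13), (13, 6, 9), -168), ((11, 10, 13), (13, 6, 11), 113), ((12, 13, 8), (13, 12, 0), -1612)]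
  tr := tr14
  big := 32768

theorem ct87_valid : validC ct87 = true := by decide +kernel

theorem ct87_const : constOK ct87 14767 = true := by decide +kernel

/-- small classes -/
def sm87 : List Cl := [
 cl 0 1 0 1 13720 0 118, cl 0 2 0 0 0 0 90, cl 0 0 0 2 0 3497 119, cl 0 1 0 3 0 1426 90,
 cl 0 2 0 2 2464 0 84, cl 0 0 0 4 0 4313 84]

/-- big classes -/
def bg87 : List Cl := [
 cl 1 0 0 0 31399 0 119, cl 1 1 0 1 0 4460 125, cl 1 2 0 0 0 0 132, cl 2 0 0 0 206 0 84,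
 cl 2 1 0 1 0 452 86, cl 2 2 0 0 0 0 88, cl 1 0 0 2 0 2 119, cl 1 0 1 1 22350 0 115,
 cl 2 0 1 1 0 1634 83, cl 2 0 0 2 0 0 84, cl 1 0 1 3 0 0 115, cl 1 0 2 0 0 9037 112,
 cl 2 0 2 0 536 0 82, cl 1 0 2 2 0 4506 112, cl 1 1 0 3 0 0 125, cl 1 2 0 2 0 0 132]

theorem ct87_link : linkOK ct87 (sm87 ++ bg87) = true := by decide +kernel

theorem sm87_zero : (sm87.all fun c => decide (c.i = 0)) = true := by decide +kernel

theorem bg87_tail : tailOK bg87 8 4 2 8416 = true := by decide +kernel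

theorem sm87_tail : tailOK sm87 112 86 64 6351 = true := by decide +kernel

theorem cs87_grid : gridOK vtTree (sm87 ++ bg87) 8 4 2 5 0 28109382044 23535 14767 = true := by
  decide +kernel

theorem sm87_grid : gridOK vtTree sm87 112 86 64 0 0 753620319 10615 6351 = true := by
  decide +kernel

/-! ### Box 88: `12 ≤ -128 x ≤ 16`, `3 ≤ 128 y ≤ 10` -/

/-- certificate -/
def ct88 : Cert where
  pts := pts14
  g := 11666
  al := [(0, 4327), (1, -2245), (2, -2245), (3, 6514), (4, 4869), (5, -195), (6, -195), (7, -3834), (8, -2235), (9, -13), (10, -13), (11, -150), (12, 2563), (13, 2563)]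
  be := [
    (1, 0, 3511), (2, 0, 3511), (2, 1, -596), (3, 0, -2483), (3, 1, -220), (3, 2, -220), (4, 0, -2592),
    (4, 1, 2629), (4, 2, 2629), (4, 3, -6193), (5, 0, -1376), (5, 1, 8940), (5, 2, -1826), (5, 3, 800),
    (5, 4, 2134), (6, 0, -1376), (6, 1, -1826), (6, 2, 8940), (6, 3, 800), (6, 4, 2134), (6, 5, 45),
    (7, 0, -86), (7, 1, 1646), (7, 2, 1646), (7, 3, 6471), (7, 4, 1985), (7, 5, 1171), (7, 6, 1171),
    (8, 0, 143), (8, 1, 143), (8, 2, 143), (8, 3, 692), (8, 4, 6173), (8, 5, 4649), (8, 6, 4649),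
    (8, 7, -2680), (9, 0, -302), (9, 1, -83), (9, 3, -1226), (9, 4, -1340), (9, 5, 420), (9, 6, 369),
    (9, 7, 3254), (9, 8, 1616), (10, 0, -302), (10, 2, -83), (10, 3, -1226), (10, 4, -1340), (10, 5, 369),
    (10, 6, 420), (10, 7, 3254), (10, 8, 1616), (10, 9, 137), (11, 1, 14), (11, 2, 14), (11, 3, 23),
    (11, 4, 86), (11, 5, -582), (11, 6, -582), (11, 7, 2660), (11, 8, 120), (11, 9, 798), (11, 10, 798),
    (12, 0, -979), (12, 1, -78), (12, 2, 220), (12, 3, -2407), (12, 4, -2033), (12, 5, -1771), (12, 7, 993),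
    (12, 8, 2436), (12, 9, -332), (13, 0, -979), (13, 1, 220), (13, 2, -78), (13, 3, -2407), (13, 4, -2033),
    (13, 6, -1771), (13, 7, 993), (13, 8, 2436), (13, 10, -332), (13, 12, -3210)]
  ta := [
    ((3, 2, 1), (0, 1, 2), 2478), ((4, 5, 6), (0, 1, 2), -939), ((7, 6, 5), (0, 1, 2), -164), ((8, 9, 10), (0, 1, 2), -531),
    ((11, 10, 9), (0, 1, 2), 56), ((5, 4, 12), (0, 1, 2), 111), ((6, 13, 4), (0, 1, 2), 111), ((3, 2, 0), (0, 1, 3), -1138),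
    ((4, 5, 7), (0, 1, 3), 1220), ((7, 6, 4), (0, 1, 3), 1220), ((8, 9, 11), (0, 1, 3), -82), ((11, 10, 8), (0, 1, 3), -82),
    ((6, 5, 3), (1, 2, 4), 142), ((5, 6, 8), (1, 2, 4), -4007), ((10, 9, 7), (1, 2, 4), -1177), ((4, 12, 1), (1, 2, 4), 1869),
    ((13, 4, 2), (1, 2, 4), 1869), ((7, 4, 3), (0, 3, 4), -2383), ((4, 7, 8), (0, 3, 4), -183), ((11, 8, 7), (0, 3, 4), -390),
    ((6, 4, 3), (1, 3, 4), 608), ((5, 7, 8), (1, 3, 4), 1050), ((10, 8, 7), (1, 3, 4), -808), ((5, 4, 3), (2, 3, 4), 608),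
    ((6, 7, 8), (2, 3, 4), 1050), ((9, 8, 7), (2, 3, 4), -808), ((5, 4, 0), (0, 1, 5), -1797), ((2, 3, 7), (0, 1, 5), -986),
    ((7, 6, 2), (0, 1, 5), 1061), ((4, 5, 9), (0, 1, 5), 230), ((9, 8, 4), (0, 1, 5), -408), ((6, 7, 11), (0, 1, 5), -784),
    ((11, 10, 6), (0, 1, 5), -68), ((13, 6, 10), (0, 1, 5), 6411), ((7, 5, 2), (0, 2, 5), -1105), ((4, 6, 9), (0, 2, 5), 747),
    ((11, 9, 6), (0, 2, 5), -211), ((5, 12, 0), (0, 2, 5), 664), ((10, 8, 13), (0, 2, 5), 107), ((6, 5, 2), (1, 2, 5), -1789),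
    ((5, 6, 9), (1, 2, 5), -1708), ((10, 9, 6), (1, 2, 5), -531), ((4, 12, 0), (1, 2, 5), 2936), ((4, 13, 8), (1, 2, 5), -1332),
    ((7, 4, 2), (0, 3, 5), -1139), ((4, 7, 9), (0, 3, 5), 680), ((11, 8, 6), (0, 3, 5), 173), ((5, 4, 2), (2, 3, 5), -80),
    ((6, 7, 9), (2, 3, 5), -709), ((9, 8, 6), (2, 3, 5), -1168), ((0, 1, 12), (2, 3, 5), -1859), ((13, 6, 8), (2, 3, 5), 2119),
    ((7, 6, 1), (0, 1, 6), -1105), ((4, 5, 10), (0, 1, 6), 747), ((11, 10, 5), (0, 1, 6), -211), ((9, 8, 12), (0, 1, 6), 107),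
    ((6, 13, 0), (0, 1, 6), 664), ((6, 4, 0), (0, 2, 6), -1797), ((1, 3, 7), (0, 2, 6), -986), ((7, 5, 1), (0, 2, 6), 1061),
    ((4, 6, 10), (0, 2, 6), 230), ((10, 8, 4), (0, 2, 6), -408), ((5, 7, 11), (0, 2, 6), -784), ((11, 9, 5), (0, 2, 6), -68),
    ((12, 5, 9), (0, 2, 6), 6411), ((6, 5, 1), (1, 2, 6), -1789), ((5, 6, 10), (1, 2, 6), -1708), ((10, 9, 5), (1, 2, 6), -531),
    ((12, 4, 8), (1, 2, 6), -1332), ((13, 4, 0), (1, 2, 6), 2936), ((7, 4, 1), (0, 3, 6), -1139), ((4, 7, 10), (0, 3, 6), 680),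
    ((11, 8, 5), (0, 3, 6), 173), ((6, 4, 1), (1, 3, 6), -80), ((5, 7, 10), (1, 3, 6), -709), ((10, 8, 5), (1, 3, 6), -1168),
    ((12, 5, 8), (1, 3, 6), 2119), ((0, 2, 13), (1, 3, 6), -1859), ((1, 2, 7), (6, 5, 0), -512), ((10, 9, 4), (6, 5, 0), 229),
    ((5, 6, 11), (6, 5, 0), 239), ((12, 4, 9), (6, 5, 0), -356), ((4, 13, 10), (6, 5, 0), -356), ((7, 6, 0), (0, 1, 7), 404),
    ((4, 5, 11), (0, 1, 7), 297), ((11, 10, 4), (0, 1, 7), -297), ((7, 5, 0), (0, 2, 7), 404), ((4, 6, 11), (0, 2, 7), 297),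
    ((11, 9, 4), (0, 2, 7), -297), ((7, 4, 0), (0, 3, 7), 259), ((4, 7, 11), (0, 3, 7), 196), ((11, 8, 4), (0, 3, 7), 224),
    ((9, 8, 1), (0, 1, 8), -34), ((2, 3, 10), (0, 1, 8), 392), ((11, 10, 3), (0, 1, 8), -277), ((1, 3, 9), (0, 2, 8), 392),
    ((10, 8, 2), (0, 2, 8), -34), ((11, 9, 3), (0, 2, 8), -277), ((10, 9, 3), (1, 2, 8), 244), ((11, 8, 3), (0, 3, 8), 73),
    ((10, 8, 3), (1, 3, 8), 317), ((9, 8, 3), (2, 3, 8), 317), ((1, 5, 9), (0, 4, 8), 2054), ((2, 6, 10), (0, 4, 8), 2054),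
    ((3, 7, 11), (0, 4, 8), -1272), ((8, 5, 1), (1, 4, 8), -823), ((3, 6, 10), (1, 4, 8), 2610), ((10, 7, 3), (1, 4, 8), -754),
    ((8, 6, 2), (2, 4, 8), -823), ((3, 5, 9), (2, 4, 8), 2610), ((9, 7, 3), (2, 4, 8), -754), ((8, 7, 3), (3, 4, 8), 25),
    ((1, 4, 9), (8, 5, 0), 115), ((10, 7, 2), (8, 5, 0), -471), ((3, 6, 11), (8, 5, 0), 257), ((2, 13, 10), (8, 5, 0), 345),
    ((9, 6, 3), (2, 5, 8), 172), ((8, 13, 2), (2, 5, 8), -243), ((9, 7, 1), (8, 6, 0), -471), ((2, 4, 10), (8, 6, 0), 115),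
    ((3, 5, 11), (8, 6, 0), 257), ((1, 12, 9), (8, 6, 0), 345), ((3, 5, 10), (8, 6, 1), 172), ((1, 12, 8), (8, 6, 1), -243),
    ((3, 4, 11), (8, 7, 0), -86), ((3, 4, 10), (8, 7, 1), 229), ((3, 4, 9), (8, 7, 2), 229), ((9, 8, 0), (0, 1, 9), 199),
    ((2, 3, 11), (0, 1, 9), -5), ((11, 10, 2), (0, 1, 9), -227), ((11, 9, 2), (0, 2, 9), -191), ((10, 9, 2), (1, 2, 9), -32),
    ((11, 8, 2), (0, 3, 9), -105), ((9, 8, 2), (2, 3, 9), -194), ((9, 5, 0), (0, 4, 9), -134), ((2, 6, 11), (0, 4, 9), 216),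
    ((11, 7, 2), (0, 4, 9), -351), ((9, 7, 2), (2, 4, 9), -546), ((9, 6, 2), (2, 5, 9), 151), ((2, 5, 11), (9, 6, 0), 182),
    ((0, 12, 9), (9, 6, 0), -137), ((2, 5, 10), (9, 6, 1), 221), ((0, 12, 8), (9, 6, 1), -221), ((8, 13, 0), (9, 6, 1), -221),
    ((2, 4, 11), (9, 7, 0), -47), ((11, 10, 1), (0, 1, 10), -191), ((10, 8, 0), (0, 2, 10), 199), ((1, 3, 11), (0, 2, 10), -5),
    ((11, 9, 1), (0, 2, 10), -227), ((10, 9, 1), (1, 2, 10), -32), ((11, 8, 1), (0, 3, 10), -105), ((10, 8, 1), (1, 3, 10), -194),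
    ((10, 6, 0), (0, 4, 10), -134), ((1, 5, 11), (0, 4, 10), 216), ((11, 7, 1), (0, 4, 10), -351), ((10, 7, 1), (1, 4, 10), -546),
    ((11, 6, 1), (0, 5, 10), 182), ((10, 13, 0), (0, 5, 10), -137), ((10, 6, 1), (1, 5, 10), -151), ((1, 4, 11), (10, 7, 0), -47),
    ((1, 2, 11), (10, 9, 0), -5), ((5, 12, 2), (0, 2, 12), 1957), ((4, 12, 2), (1, 2, 12), -130), ((5, 12, 3), (1, 3, 12), -1715),
    ((12, 6, 9), (6, 12, 0), -536), ((12, 6, 8), (6, 12, 1), -1792), ((6, 5, 12), (12, 4, 6), 568), ((12, 7, 9), (7, 12, 1), -369),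
    ((10, 9, 12), (12, 4, 10), 335), ((10, 8, 12), (12, 5, 10), -64), ((6, 13, 1), (0, 1, 13), 1957), ((13, 4, 1), (1, 2, 13), -130),
    ((6, 13, 3), (2, 3, 13), -1715), ((5, 13, 10), (13, 5, 0), -536), ((5, 13, 8), (13, 5, 2), -1792), ((6, 13, 5), (4, 5, 13), 568),
    ((13, 7, 10), (7, 13, 2), -369), ((10, 9, 13), (4, 13, 9), 335), ((9, 8, 13), (13, 6, 9), -64), ((12, 13, 8), (13, 12, 0), -191)]
  tr := tr14
  big := 32768

theorem ct88_valid : validC ct88 = true := by decide +kernel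

theorem ct88_const : constOK ct88 15828 = true := by decide +kernel

/-- small classes -/
def sm88 : List Cl := [
 cl 0 1 0 1 14478 0 118, cl 0 2 0 0 0 378 90, cl 0 0 0 2 0 4480 119, cl 0 1 0 3 0 0 90,
 cl 0 2 0 2 1986 0 84, cl 0 0 0 4 0 3210 84]

/-- big classes -/
def bg88 : List Cl := [
 cl 1 0 0 0 31432 0 119, cl 1 1 0 1 0 3968 127, cl 1 2 0 0 0 0 137, cl 2 0 0 0 0 0 84,
 cl 2 1 0 1 0 576 87, cl 2 2 0 0 0 0 90, cl 1 0 0 2 0 0 119, cl 1 0 1 1 22508 0 114,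
 cl 2 0 1 1 0 2166 82, cl 2 0 0 2 0 0 84, cl 1 0 1 3 440 0 114, cl 1 0 2 0 0 8873 109,
 cl 2 0 2 0 692 0 81, cl 1 0 2 2 0 4814 109, cl 1 1 0 3 0 0 127, cl 1 2 0 2 0 0 137]

theorem ct88_link : linkOK ct88 (sm88 ++ bg88) = true := by decide +kernel

theorem sm88_zero : (sm88.all fun c => decide (c.i = 0)) = true := by decide +kernel

theorem bg88_tail : tailOK bg88 12 4 3 8434 = true := by decide +kernel

theorem sm88_tail : tailOK sm88 112 86 64 7394 = true := by decide +kernel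

theorem cs88_grid : gridOK vtTree (sm88 ++ bg88) 12 4 3 7 0 28811350642 22203 15828 = true := by
  decide +kernel

theorem sm88_grid : gridOK vtTree sm88 112 86 64 0 0 1167334204 8761 7394 = true := by
  decide +kernel

end Pool.Agent.H79.OC
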