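import Pool.Agent.H79.OC.Pts
import Pool.Agent.H79.OC.Pts2
import Pool.Agent.H79.OC.VTab
import Pool.Agent.H79.OC.Swp

set_option autoImplicit false
set_option maxRecDepth 100000

/-!
# Certificates, part 46
-/

namespace Pool.Agent.H79.OC

open Cl

/-! ### Box 89: `16 ≤ -128 x ≤ 24`, `5 ≤ 128 y ≤ 14` -/

/-- certificate -/
def ct89 : Cert where
  pts := pts14
  g := 11344
  al := [(0, 2526), (1, -1743), (2, -1743), (3, 4513), (4, 4915), (5, 550), (6, 550), (7, -770), (8, -1242), (9, -303), (10, -303), (11, -1094), (12, 2197), (13, 2197)]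
  be := [
    (1, 0, 3791), (2, 0, 3791), (2, 1, -697), (3, 0, -644), (3, 1, -124), (3, 2, -124), (4, 0, 59),
    (4, 1, 2922), (4, 2, 2922), (4, 3, -4188), (5, 0, -494), (5, 1, 6981), (5, 2, -1261), (5, 3, 1696),
    (5, 4, 732), (6, 0, -494), (6, 1, -1261), (6, 2, 6981), (6, 3, 1696), (6, 4, 732), (6, 5, -1248),
    (7, 0, -612), (7, 1, 62), (7, 2, 62), (7, 3, 6440), (7, 4, -1232), (7, 5, 808), (7, 6, 808),
    (8, 0, -226), (8, 1, 568), (8, 2, 568), (8, 3, 1361), (8, 4, 4984), (8, 5, 3151), (8, 6, 3151),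
    (8, 7, -4164), (9, 0, -386), (9, 1, 120), (9, 2, -19), (9, 3, -1667), (9, 4, -1829), (9, 5, 1111),
    (9, 6, -25), (9, 7, 3457), (9, 8, 1474), (10, 0, -386), (10, 1, -19), (10, 2, 120), (10, 3, -1667),
    (10, 4, -1829), (10, 5, -25), (10, 6, 1111), (10, 7, 3457), (10, 8, 1474), (10, 9, 360), (11, 1, 159),
    (11, 2, 159), (11, 3, 461), (11, 4, 612), (11, 5, -110), (11, 6, -110), (11, 7, 2578), (11, 8, 166),
    (11, 9, 959), (11, 10, 959), (12, 0, -702), (12, 1, -26), (12, 2, 24), (12, 3, -2396), (12, 4, -1714),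
    (12, 5, -689), (12, 7, 901), (12, 8, 1988), (12, 9, 144), (12, 10, 77), (13, 0, -702), (13, 1, 24),
    (13, 2, -26), (13, 3, -2396), (13, 4, -1714), (13, 6, -689), (13, 7, 901), (13, 8, 1988), (13, 9, 77),
    (13, 10, 144), (13, 12, -2600)]
  ta := [
    ((3, 2, 1), (0, 1, 2), 1737), ((4, 5, 6), (0, 1, 2), 276), ((7, 6, 5), (0, 1, 2), -231), ((8, 9, 10), (0, 1, 2), -338),
    ((11, 10, 9), (0, 1, 2), 125), ((5, 4, 12), (0, 1, 2), -304), ((6, 13, 4), (0, 1, 2), -304), ((3, 2, 0), (0, 1, 3), -1343),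
    ((4, 5, 7), (0, 1, 3), 1537), ((7, 6, 4), (0, 1, 3), 1537), ((8, 9, 11), (0, 1, 3), -194), ((11, 10, 8), (0, 1, 3), -194),
    ((6, 5, 3), (1, 2, 4), 361), ((5, 6, 8), (1, 2, 4), -3198), ((10, 9, 7), (1, 2, 4), -393), ((4, 12, 1), (1, 2, 4), 1041),
    ((13, 4, 2), (1, 2, 4), 1041), ((7, 4, 3), (0, 3, 4), -2447), ((4, 7, 8), (0, 3, 4), 960), ((11, 8, 7), (0, 3, 4), -254),
    ((6, 4, 3), (1, 3, 4), 57), ((5, 7, 8), (1, 3, 4), 1217), ((10, 8, 7), (1, 3, 4), -743), ((5, 4, 3), (2, 3, 4), 57),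
    ((6, 7, 8), (2, 3, 4), 1217), ((9, 8, 7), (2, 3, 4), -743), ((5, 4, 0), (0, 1, 5), -2127), ((2, 3, 7), (0, 1, 5), -660),
    ((7, 6, 2), (0, 1, 5), 1216), ((4, 5, 9), (0, 1, 5), 315), ((9, 8, 4), (0, 1, 5), 349), ((6, 7, 11), (0, 1, 5), -546),
    ((11, 10, 6), (0, 1, 5), -272), ((13, 6, 10), (0, 1, 5), 5032), ((7, 5, 2), (0, 2, 5), -737), ((4, 6, 9), (0, 2, 5), 1521),
    ((11, 9, 6), (0, 2, 5), -210), ((5, 12, 0), (0, 2, 5), 327), ((10, 8, 13), (0, 2, 5), -327), ((6, 5, 2), (1, 2, 5), -654),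
    ((5, 6, 9), (1, 2, 5), -1788), ((10, 9, 6), (1, 2, 5), -556), ((4, 12, 0), (1, 2, 5), 2123), ((4, 13, 8), (1, 2, 5), -673),
    ((7, 4, 2), (0, 3, 5), -542), ((4, 7, 9), (0, 3, 5), 860), ((11, 8, 6), (0, 3, 5), 146), ((5, 4, 2), (2, 3, 5), -255),
    ((6, 7, 9), (2, 3, 5), -443), ((9, 8, 6), (2, 3, 5), -485), ((0, 1, 12), (2, 3, 5), -1843), ((13, 6, 8), (2, 3, 5), 1826),
    ((7, 6, 1), (0, 1, 6), -737), ((4, 5, 10), (0, 1, 6), 1521), ((11, 10, 5), (0, 1, 6), -210), ((9, 8, 12), (0, 1, 6), -327),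
    ((6, 13, 0), (0, 1, 6), 327), ((6, 4, 0), (0, 2, 6), -2127), ((1, 3, 7), (0, 2, 6), -660), ((7, 5, 1), (0, 2, 6), 1216),
    ((4, 6, 10), (0, 2, 6), 315), ((10, 8, 4), (0, 2, 6), 349), ((5, 7, 11), (0, 2, 6), -546), ((11, 9, 5), (0, 2, 6), -272),
    ((12, 5, 9), (0, 2, 6), 5032), ((6, 5, 1), (1, 2, 6), -654), ((5, 6, 10), (1, 2, 6), -1788), ((10, 9, 5), (1, 2, 6), -556),
    ((12, 4, 8), (1, 2, 6), -673), ((13, 4, 0), (1, 2, 6), 2123), ((7, 4, 1), (0, 3, 6), -542), ((4, 7, 10), (0, 3, 6), 860),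
    ((11, 8, 5), (0, 3, 6), 146), ((6, 4, 1), (1, 3, 6), -255), ((5, 7, 10), (1, 3, 6), -443), ((10, 8, 5), (1, 3, 6), -485),
    ((12, 5, 8), (1, 3, 6), 1826), ((0, 2, 13), (1, 3, 6), -1843), ((1, 2, 7), (6, 5, 0), 279), ((10, 9, 4), (6, 5, 0), -82),
    ((5, 6, 11), (6, 5, 0), -338), ((12, 4, 9), (6, 5, 0), -201), ((4, 13, 10), (6, 5, 0), -201), ((7, 6, 0), (0, 1, 7), 348),
    ((4, 5, 11), (0, 1, 7), 283), ((11, 10, 4), (0, 1, 7), -283), ((7, 5, 0), (0, 2, 7), 348), ((4, 6, 11), (0, 2, 7), 283),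
    ((11, 9, 4), (0, 2, 7), -283), ((7, 4, 0), (0, 3, 7), -282), ((4, 7, 11), (0, 3, 7), 535), ((11, 8, 4), (0, 3, 7), 315),
    ((9, 8, 1), (0, 1, 8), -307), ((2, 3, 10), (0, 1, 8), 831), ((11, 10, 3), (0, 1, 8), -319), ((1, 3, 9), (0, 2, 8), 831),
    ((10, 8, 2), (0, 2, 8), -307), ((11, 9, 3), (0, 2, 8), -319), ((10, 9, 3), (1, 2, 8), 205), ((11, 8, 3), (0, 3, 8), -18),
    ((10, 8, 3), (1, 3, 8), 473), ((9, 8, 3), (2, 3, 8), 473), ((1, 5, 9), (0, 4, 8), 2325), ((2, 6, 10), (0, 4, 8), 2325),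
    ((3, 7, 11), (0, 4, 8), -1490), ((8, 5, 1), (1, 4, 8), 351), ((3, 6, 10), (1, 4, 8), 2826), ((10, 7, 3), (1, 4, 8), -1118),
    ((8, 6, 2), (2, 4, 8), 351), ((3, 5, 9), (2, 4, 8), 2826), ((9, 7, 3), (2, 4, 8), -1118), ((8, 7, 3), (3, 4, 8), 392),
    ((1, 4, 9), (8, 5, 0), 279), ((10, 7, 2), (8, 5, 0), -659), ((3, 6, 11), (8, 5, 0), 375), ((2, 13, 10), (8, 5, 0), 157),
    ((9, 6, 3), (2, 5, 8), 352), ((8, 13, 2), (2, 5, 8), 173), ((9, 7, 1), (8, 6, 0), -659), ((2, 4, 10), (8, 6, 0), 279),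
    ((3, 5, 11), (8, 6, 0), 375), ((1, 12, 9), (8, 6, 0), 157), ((3, 5, 10), (8, 6, 1), 352), ((1, 12, 8), (8, 6, 1), 173),
    ((3, 4, 11), (8, 7, 0), -612), ((3, 4, 10), (8, 7, 1), 123), ((3, 4, 9), (8, 7, 2), 123), ((9, 8, 0), (0, 1, 9), 142),
    ((2, 3, 11), (0, 1, 9), 85), ((11, 10, 2), (0, 1, 9), -236), ((11, 9, 2), (0, 2, 9), -245), ((10, 9, 2), (1, 2, 9), -171),
    ((11, 8, 2), (0, 3, 9), -172), ((9, 8, 2), (2, 3, 9), -175), ((9, 5, 0), (0, 4, 9), -383), ((2, 6, 11), (0, 4, 9), 594),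
    ((11, 7, 2), (0, 4, 9), -616), ((9, 7, 2), (2, 4, 9), -517), ((9, 6, 2), (2, 5, 9), 266), ((2, 5, 11), (9, 6, 0), 2),
    ((0, 12, 9), (9, 6, 0), -58), ((2, 5, 10), (9, 6, 1), 176), ((0, 12, 8), (9, 6, 1), -176), ((8, 13, 0), (9, 6, 1), -176),
    ((11, 10, 1), (0, 1, 10), -245), ((10, 8, 0), (0, 2, 10), 142), ((1, 3, 11), (0, 2, 10), 85), ((11, 9, 1), (0, 2, 10), -236),
    ((10, 9, 1), (1, 2, 10), -171), ((11, 8, 1), (0, 3, 10), -172), ((10, 8, 1), (1, 3, 10), -175), ((10, 6, 0), (0, 4, 10), -383),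
    ((1, 5, 11), (0, 4, 10), 594), ((11, 7, 1), (0, 4, 10), -616), ((10, 7, 1), (1, 4, 10), -517), ((11, 6, 1), (0, 5, 10), 2),
    ((10, 13, 0), (0, 5, 10), -58), ((10, 6, 1), (1, 5, 10), -266), ((1, 2, 11), (10, 9, 0), 26), ((5, 12, 2), (0, 2, 12), 1605),
    ((4, 12, 2), (1, 2, 12), -150), ((5, 12, 3), (1, 3, 12), -1672), ((12, 6, 9), (6, 12, 0), -550), ((12, 6, 8), (6, 12, 1), -1485),
    ((6, 5, 12), (12, 4, 6), 233), ((12, 7, 9), (7, 12, 1), -901), ((10, 9, 12), (12, 4, 10), 226), ((10, 8, 12), (12, 5, 10), -78),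
    ((6, 13, 1), (0, 1, 13), 1605), ((13, 4, 1), (1, 2, 13), -150), ((6, 13, 3), (2, 3, 13), -1672), ((5, 13, 10), (13, 5, 0), -550),
    ((5, 13, 8), (13, 5, 2), -1485), ((6, 13, 5), (4, 5, 13), 233), ((13, 7, 10), (7, 13, 2), -901), ((10, 9, 13), (4, 13, 9), 226),
    ((9, 8, 13), (13, 6, 9), -78), ((12, 13, 8), (13, 12, 0), -359)]
  tr := tr14
  big := 32768

theorem ct89_valid : validC ct89 = true := by decide +kernel

theorem ct89_const : constOK ct89 15899 = true := by decide +kernel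

/-- small classes -/
def sm89 : List Cl := [
 cl 0 1 0 1 13902 0 118, cl 0 2 0 0 0 1710 90, cl 0 0 0 2 0 5013 119, cl 0 1 0 3 0 0 90,
 cl 0 2 0 2 1802 0 84, cl 0 0 0 4 0 2600 84]

/-- big classes -/
def bg89 : List Cl := [
 cl 1 0 0 0 30245 0 119, cl 1 1 0 1 0 4454 132, cl 1 2 0 0 0 0 150, cl 2 0 0 0 475 0 84,
 cl 2 1 0 1 0 454 88, cl 2 2 0 0 0 0 93, cl 1 0 0 2 0 0 119, cl 1 0 1 1 22400 0 112,
 cl 2 0 1 1 0 2198 82, cl 2 0 0 2 0 38 84, cl 1 0 1 3 48 0 112, cl 1 0 2 0 0 8352 106,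
 cl 2 0 2 0 1361 0 79, cl 1 0 2 2 0 4792 106, cl 1 1 0 3 154 0 131, cl 1 2 0 2 0 0 150]

theorem ct89_link : linkOK ct89 (sm89 ++ bg89) = true := by decide +kernel

theorem sm89_zero : (sm89.all fun c => decide (c.i = 0)) = true := by decide +kernel

theorem bg89_tail : tailOK bg89 16 8 5 8287 = true := by decide +kernel

theorem sm89_tail : tailOK sm89 112 86 64 7612 = true := by decide +kernel

theorem cs89_grid : gridOK vtTree (sm89 ++ bg89) 16 8 5 9 0 26343674992 21818 15899 = true := by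
  decide +kernel

theorem sm89_grid : gridOK vtTree sm89 112 86 64 0 1165887480 0 8484 7612 = true := by
  decide +kernel

/-! ### Box 90: `24 ≤ -128 x ≤ 32`, `7 ≤ 128 y ≤ 16` -/

/-- certificate -/
def ct90 : Cert where
  pts := pts14
  g := 10737
  al := [(0, 2047), (1, -2123), (2, -2123), (3, 4008), (4, 4099), (5, 512), (6, 512), (7, -1698), (8, -2701), (9, 813), (10, 813), (11, -469), (12, 2515), (13, 2515)]
  be := [
    (1, 0, 3645), (2, 0, 3645), (2, 1, -546), (3, 0, -901), (3, 1, 824), (3, 2, 824), (4, 0, -611),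
    (4, 1, 2552), (4, 2, 2552), (4, 3, -3997), (5, 0, -374), (5, 1, 7637), (5, 2, -867), (5, 3, 2343),
    (5, 4, 1030), (6, 0, -374), (6, 1, -867), (6, 2, 7637), (6, 3, 2343), (6, 4, 1030), (6, 5, -2039),
    (7, 0, -13), (7, 1, -220), (7, 2, -220), (7, 3, 6926), (7, 4, -1027), (7, 5, 705), (7, 6, 705),
    (8, 0, 712), (8, 1, 1005), (8, 2, 1005), (8, 3, 1443), (8, 4, 6977), (8, 5, 3467), (8, 6, 3467),
    (8, 7, -3649), (9, 0, -236), (9, 1, -197), (9, 2, -179), (9, 3, -1946), (9, 4, -1877), (9, 5, -1026),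
    (9, 6, -595), (9, 7, 2882), (9, 8, 798), (10, 0, -236), (10, 1, -179), (10, 2, -197), (10, 3, -1946),
    (10, 4, -1877), (10, 5, -595), (10, 6, -1026), (10, 7, 2882), (10, 8, 798), (10, 9, 198), (11, 1, 105),
    (11, 2, 105), (11, 3, 245), (11, 4, 13), (11, 5, -24), (11, 6, -24), (11, 7, 2949), (11, 8, 592),
    (11, 9, 779), (11, 10, 779), (12, 0, -824), (12, 1, 106), (12, 2, -151), (12, 3, -2482), (12, 4, -830),
    (12, 5, -655), (12, 6, -293), (12, 7, 739), (12, 8, 2075), (12, 9, 193), (12, 10, 223), (13, 0, -824),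
    (13, 1, -151), (13, 2, 106), (13, 3, -2482), (13, 4, -830), (13, 5, -293), (13, 6, -655), (13, 7, 739),
    (13, 8, 2075), (13, 9, 223), (13, 10, 193), (13, 12, -3242)]
  ta := [
    ((3, 2, 1), (0, 1, 2), 1379), ((4, 5, 6), (0, 1, 2), 1304), ((7, 6, 5), (0, 1, 2), -266), ((8, 9, 10), (0, 1, 2), -10),
    ((11, 10, 9), (0, 1, 2), 1), ((5, 4, 12), (0, 1, 2), -920), ((6, 13, 4), (0, 1, 2), -920), ((3, 2, 0), (0, 1, 3), -1286),
    ((4, 5, 7), (0, 1, 3), 1679), ((7, 6, 4), (0, 1, 3), 1679), ((8, 9, 11), (0, 1, 3), -393), ((11, 10, 8), (0, 1, 3), -393),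
    ((6, 5, 3), (1, 2, 4), -421), ((5, 6, 8), (1, 2, 4), -2202), ((10, 9, 7), (1, 2, 4), -501), ((4, 12, 1), (1, 2, 4), 828),
    ((13, 4, 2), (1, 2, 4), 828), ((7, 4, 3), (0, 3, 4), -2799), ((4, 7, 8), (0, 3, 4), 1402), ((11, 8, 7), (0, 3, 4), -492),
    ((6, 4, 3), (1, 3, 4), -194), ((5, 7, 8), (1, 3, 4), 1646), ((10, 8, 7), (1, 3, 4), -307), ((5, 4, 3), (2, 3, 4), -194),
    ((6, 7, 8), (2, 3, 4), 1646), ((9, 8, 7), (2, 3, 4), -307), ((5, 4, 0), (0, 1, 5), -1926), ((2, 3, 7), (0, 1, 5), -661),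
    ((7, 6, 2), (0, 1, 5), 1702), ((4, 5, 9), (0, 1, 5), 384), ((9, 8, 4), (0, 1, 5), 263), ((6, 7, 11), (0, 1, 5), -1138),
    ((11, 10, 6), (0, 1, 5), -264), ((13, 6, 10), (0, 1, 5), 5156), ((7, 5, 2), (0, 2, 5), -638), ((4, 6, 9), (0, 2, 5), 1030),
    ((11, 9, 6), (0, 2, 5), -195), ((5, 12, 0), (0, 2, 5), 407), ((10, 8, 13), (0, 2, 5), -92), ((6, 5, 2), (1, 2, 5), -965),
    ((5, 6, 9), (1, 2, 5), -754), ((10, 9, 6), (1, 2, 5), -451), ((4, 12, 0), (1, 2, 5), 2770), ((4, 13, 8), (1, 2, 5), -2182),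
    ((7, 4, 2), (0, 3, 5), 125), ((4, 7, 9), (0, 3, 5), 496), ((11, 8, 6), (0, 3, 5), -53), ((5, 4, 2), (2, 3, 5), -8),
    ((6, 7, 9), (2, 3, 5), 228), ((9, 8, 6), (2, 3, 5), -99), ((0, 1, 12), (2, 3, 5), -2034), ((13, 6, 8), (2, 3, 5), 1556),
    ((7, 6, 1), (0, 1, 6), -638), ((4, 5, 10), (0, 1, 6), 1030), ((11, 10, 5), (0, 1, 6), -195), ((9, 8, 12), (0, 1, 6), -92),
    ((6, 13, 0), (0, 1, 6), 407), ((6, 4, 0), (0, 2, 6), -1926), ((1, 3, 7), (0, 2, 6), -661), ((7, 5, 1), (0, 2, 6), 1702),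
    ((4, 6, 10), (0, 2, 6), 384), ((10, 8, 4), (0, 2, 6), 263), ((5, 7, 11), (0, 2, 6), -1138), ((11, 9, 5), (0, 2, 6), -264),
    ((12, 5, 9), (0, 2, 6), 5156), ((6, 5, 1), (1, 2, 6), -965), ((5, 6, 10), (1, 2, 6), -754), ((10, 9, 5), (1, 2, 6), -451),
    ((12, 4, 8), (1, 2, 6), -2182), ((13, 4, 0), (1, 2, 6), 2770), ((7, 4, 1), (0, 3, 6), 125), ((4, 7, 10), (0, 3, 6), 496),
    ((11, 8, 5), (0, 3, 6), -53), ((6, 4, 1), (1, 3, 6), -8), ((5, 7, 10), (1, 3, 6), 228), ((10, 8, 5), (1, 3, 6), -99),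
    ((12, 5, 8), (1, 3, 6), 1556), ((0, 2, 13), (1, 3, 6), -2034), ((1, 2, 7), (6, 5, 0), 108), ((10, 9, 4), (6, 5, 0), -154),
    ((5, 6, 11), (6, 5, 0), 165), ((12, 4, 9), (6, 5, 0), -193), ((4, 13, 10), (6, 5, 0), -193), ((7, 6, 0), (0, 1, 7), 409),
    ((4, 5, 11), (0, 1, 7), 168), ((11, 10, 4), (0, 1, 7), -168), ((7, 5, 0), (0, 2, 7), 409), ((4, 6, 11), (0, 2, 7), 168),
    ((11, 9, 4), (0, 2, 7), -168), ((7, 4, 0), (0, 3, 7), -199), ((4, 7, 11), (0, 3, 7), 511), ((11, 8, 4), (0, 3, 7), -101),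
    ((9, 8, 1), (0, 1, 8), -3), ((2, 3, 10), (0, 1, 8), 433), ((11, 10, 3), (0, 1, 8), -152), ((1, 3, 9), (0, 2, 8), 433),
    ((10, 8, 2), (0, 2, 8), -3), ((11, 9, 3), (0, 2, 8), -152), ((10, 9, 3), (1, 2, 8), 104), ((11, 8, 3), (0, 3, 8), -149),
    ((10, 8, 3), (1, 3, 8), 520), ((9, 8, 3), (2, 3, 8), 520), ((1, 5, 9), (0, 4, 8), 2822), ((2, 6, 10), (0, 4, 8), 2822),
    ((3, 7, 11), (0, 4, 8), -2506), ((8, 5, 1), (1, 4, 8), 421), ((3, 6, 10), (1, 4, 8), 3144), ((10, 7, 3), (1, 4, 8), -1249),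
    ((8, 6, 2), (2, 4, 8), 421), ((3, 5, 9), (2, 4, 8), 3144), ((9, 7, 3), (2, 4, 8), -1249), ((8, 7, 3), (3, 4, 8), 451),
    ((1, 4, 9), (8, 5, 0), 304), ((10, 7, 2), (8, 5, 0), 194), ((3, 6, 11), (8, 5, 0), -115), ((2, 13, 10), (8, 5, 0), -187),
    ((9, 6, 3), (2, 5, 8), 781), ((8, 13, 2), (2, 5, 8), 727), ((9, 7, 1), (8, 6, 0), 194), ((2, 4, 10), (8, 6, 0), 304),
    ((3, 5, 11), (8, 6, 0), -115), ((1, 12, 9), (8, 6, 0), -187), ((3, 5, 10), (8, 6, 1), 781), ((1, 12, 8), (8, 6, 1), 727),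
    ((3, 4, 11), (8, 7, 0), -13), ((3, 4, 10), (8, 7, 1), 442), ((3, 4, 9), (8, 7, 2), 442), ((9, 8, 0), (0, 1, 9), 98),
    ((2, 3, 11), (0, 1, 9), 35), ((11, 10, 2), (0, 1, 9), -104), ((11, 9, 2), (0, 2, 9), -113), ((10, 9, 2), (1, 2, 9), -214),
    ((11, 8, 2), (0, 3, 9), -140), ((9, 8, 2), (2, 3, 9), -489), ((9, 5, 0), (0, 4, 9), 156), ((2, 6, 11), (0, 4, 9), -23),
    ((11, 7, 2), (0, 4, 9), -91), ((9, 7, 2), (2, 4, 9), -782), ((9, 6, 2), (2, 5, 9), 288), ((2, 5, 11), (9, 6, 0), -27),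
    ((0, 12, 9), (9, 6, 0), 131), ((2, 5, 10), (9, 6, 1), 350), ((0, 12, 8), (9, 6, 1), -350), ((8, 13, 0), (9, 6, 1), -350),
    ((11, 10, 1), (0, 1, 10), -113), ((10, 8, 0), (0, 2, 10), 98), ((1, 3, 11), (0, 2, 10), 35), ((11, 9, 1), (0, 2, 10), -104),
    ((10, 9, 1), (1, 2, 10), -214), ((11, 8, 1), (0, 3, 10), -140), ((10, 8, 1), (1, 3, 10), -489), ((10, 6, 0), (0, 4, 10), 156),
    ((1, 5, 11), (0, 4, 10), -23), ((11, 7, 1), (0, 4, 10), -91), ((10, 7, 1), (1, 4, 10), -782), ((11, 6, 1), (0, 5, 10), -27),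
    ((10, 13, 0), (0, 5, 10), 131), ((10, 6, 1), (1, 5, 10), -288), ((1, 2, 11), (10, 9, 0), 35), ((5, 12, 2), (0, 2, 12), 1636),
    ((4, 12, 2), (1, 2, 12), 179), ((5, 12, 3), (1, 3, 12), -1843), ((12, 6, 9), (6, 12, 0), -768), ((12, 6, 8), (6, 12, 1), -1632),
    ((6, 5, 12), (12, 4, 6), 760), ((12, 7, 9), (7, 12, 1), -674), ((10, 9, 12), (12, 4, 10), 179), ((10, 8, 12), (12, 5, 10), -258),
    ((11, 9, 12), (12, 5, 11), 65), ((6, 13, 1), (0, 1, 13), 1636), ((13, 4, 1), (1, 2, 13), 179), ((6, 13, 3), (2, 3, 13), -1843),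
    ((5, 13, 10), (13, 5, 0), -768), ((5, 13, 8), (13, 5, 2), -1632), ((6, 13, 5), (4, 5, 13), 760), ((13, 7, 10), (7, 13, 2), -674),
    ((10, 9, 13), (4, 13, 9), 179), ((9, 8, 13), (13, 6, 9), -258), ((11, 10, 13), (13, 6, 11), 65), ((12, 13, 8), (13, 12, 0), 369)]
  tr := tr14
  big := 32768

theorem ct90_valid : validC ct90 = true := by decide +kernel

theorem ct90_const : constOK ct90 15185 = true := by decide +kernel

/-- small classes -/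
def sm90 : List Cl := [
 cl 0 1 0 1 14252 0 118, cl 0 2 0 0 0 1336 90, cl 0 0 0 2 0 4047 119, cl 0 1 0 3 0 586 90,
 cl 0 2 0 2 1478 0 84, cl 0 0 0 4 0 3242 84]

/-- big classes -/
def bg90 : List Cl := [
 cl 1 0 0 0 29463 0 119, cl 1 1 0 1 0 4604 137, cl 1 2 0 0 0 0 168, cl 2 0 0 0 563 0 84,
 cl 2 1 0 1 0 262 90, cl 2 2 0 0 0 0 97, cl 1 0 0 2 0 422 119, cl 1 0 1 1 22700 0 109,
 cl 2 0 1 1 0 1882 81, cl 2 0 0 2 0 358 84, cl 1 0 1 3 0 302 109, cl 1 0 2 0 0 7646 101,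
 cl 2 0 2 0 1443 0 77, cl 1 0 2 2 0 4964 101, cl 1 1 0 3 446 0 136, cl 1 2 0 2 0 0 166]

theorem ct90_link : linkOK ct90 (sm90 ++ bg90) = true := by decide +kernel

theorem sm90_zero : (sm90.all fun c => decide (c.i = 0)) = true := by decide +kernel

theorem bg90_tail : tailOK bg90 24 8 7 8197 = true := by decide +kernel

theorem sm90_tail : tailOK sm90 112 86 64 6988 = true := by decide +kernel

theorem cs90_grid : gridOK vtTree (sm90 ++ bg90) 24 8 7 9 0 27016549984 22822 15185 = true := by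
  decide +kernel

theorem sm90_grid : gridOK vtTree sm90 112 86 64 0 368792904 0 9034 6988 = true := by
  decide +kernel

end Pool.Agent.H79.OC
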