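import Pool.Agent.H79.OC.Pts
import Pool.Agent.H79.OC.VTab

set_option autoImplicit false
set_option maxRecDepth 100000

/-!
# Certificates, part 6
-/

namespace Pool.Agent.H79.OC

open Cl

/-! ### Box 10: `64 ≤ -128 x ≤ 80`, `64 ≤ 128 y ≤ 80` -/

/-- certificate -/
def ct10 : Cert where
  pts := pts14
  g := 3912
  al := [(0, -352), (1, 100), (2, 100), (3, 2176), (4, 948), (5, 439), (6, 439), (7, -542), (8, 613), (9, 236), (10, 236), (11, 165), (12, 382), (13, 382)]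
  be := [
    (1, 0, 530), (2, 0, 530), (2, 1, -614), (3, 0, -115), (3, 1, -291), (3, 2, -291), (4, 0, 822),
    (4, 1, 699), (4, 2, 699), (4, 3, -1970), (5, 0, 218), (5, 1, 1962), (5, 2, -525), (5, 3, 460),
    (5, 4, 680), (6, 0, 218), (6, 1, -525), (6, 2, 1962), (6, 3, 460), (6, 4, 680), (6, 5, -947),
    (7, 0, 142), (7, 1, 360), (7, 2, 360), (7, 3, 1825), (7, 4, 153), (7, 5, 853), (7, 6, 853),
    (8, 0, 97), (8, 1, -88), (8, 2, -88), (8, 3, -407), (8, 4, 1631), (8, 5, 465), (8, 6, 465),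
    (8, 7, -794), (9, 0, 36), (9, 1, 176), (9, 3, -485), (9, 4, -375), (9, 5, 75), (9, 6, 9),
    (9, 7, 934), (9, 8, 641), (10, 0, 36), (10, 2, 176), (10, 3, -485), (10, 4, -375), (10, 5, 9),
    (10, 6, 75), (10, 7, 934), (10, 8, 641), (10, 9, -355), (11, 0, -14), (11, 1, -36), (11, 2, -36),
    (11, 3, 77), (11, 4, -101), (11, 5, -110), (11, 6, -110), (11, 7, 642), (11, 8, -37), (11, 9, 182),
    (11, 10, 182), (12, 0, 62), (12, 1, -28), (12, 2, 34), (12, 3, -578), (12, 4, -443), (12, 5, -83),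
    (12, 7, 199), (12, 8, 292), (12, 9, -698), (12, 10, -27), (13, 0, 62), (13, 1, 34), (13, 2, -28),
    (13, 3, -578), (13, 4, -443), (13, 6, -83), (13, 7, 199), (13, 8, 292), (13, 9, -27), (13, 10, -698),
    (13, 12, -3)]
  ta := [
    ((3, 2, 1), (0, 1, 2), 305), ((4, 5, 6), (0, 1, 2), -311), ((7, 6, 5), (0, 1, 2), -206), ((8, 9, 10), (0, 1, 2), 81),
    ((11, 10, 9), (0, 1, 2), 10), ((5, 4, 12), (0, 1, 2), -27), ((6, 13, 4), (0, 1, 2), -27), ((3, 2, 0), (0, 1, 3), -15),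
    ((4, 5, 7), (0, 1, 3), 223), ((7, 6, 4), (0, 1, 3), 223), ((8, 9, 11), (0, 1, 3), -208), ((11, 10, 8), (0, 1, 3), -208),
    ((6, 5, 3), (1, 2, 4), 274), ((5, 6, 8), (1, 2, 4), -534), ((10, 9, 7), (1, 2, 4), -71), ((4, 12, 1), (1, 2, 4), 85),
    ((13, 4, 2), (1, 2, 4), 85), ((7, 4, 3), (0, 3, 4), 130), ((4, 7, 8), (0, 3, 4), -287), ((11, 8, 7), (0, 3, 4), -56),
    ((6, 4, 3), (1, 3, 4), 204), ((5, 7, 8), (1, 3, 4), -199), ((10, 8, 7), (1, 3, 4), -344), ((5, 4, 3), (2, 3, 4), 204),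
    ((6, 7, 8), (2, 3, 4), -199), ((9, 8, 7), (2, 3, 4), -344), ((5, 4, 0), (0, 1, 5), -428), ((2, 3, 7), (0, 1, 5), -449),
    ((7, 6, 2), (0, 1, 5), -264), ((4, 5, 9), (0, 1, 5), 439), ((9, 8, 4), (0, 1, 5), -260), ((6, 7, 11), (0, 1, 5), -212),
    ((11, 10, 6), (0, 1, 5), -214), ((13, 6, 10), (0, 1, 5), 1766), ((7, 5, 2), (0, 2, 5), -50), ((4, 6, 9), (0, 2, 5), 101),
    ((11, 9, 6), (0, 2, 5), 32), ((5, 12, 0), (0, 2, 5), -106), ((10, 8, 13), (0, 2, 5), 154), ((6, 5, 2), (1, 2, 5), 16),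
    ((5, 6, 9), (1, 2, 5), -385), ((10, 9, 6), (1, 2, 5), 47), ((4, 12, 0), (1, 2, 5), 98), ((4, 13, 8), (1, 2, 5), 8),
    ((7, 4, 2), (0, 3, 5), -225), ((4, 7, 9), (0, 3, 5), 147), ((11, 8, 6), (0, 3, 5), 52), ((5, 4, 2), (2, 3, 5), 77),
    ((6, 7, 9), (2, 3, 5), -266), ((9, 8, 6), (2, 3, 5), -474), ((0, 1, 12), (2, 3, 5), -115), ((13, 6, 8), (2, 3, 5), 634),
    ((7, 6, 1), (0, 1, 6), -50), ((4, 5, 10), (0, 1, 6), 101), ((11, 10, 5), (0, 1, 6), 32), ((9, 8, 12), (0, 1, 6), 154),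
    ((6, 13, 0), (0, 1, 6), -106), ((6, 4, 0), (0, 2, 6), -428), ((1, 3, 7), (0, 2, 6), -449), ((7, 5, 1), (0, 2, 6), -264),
    ((4, 6, 10), (0, 2, 6), 439), ((10, 8, 4), (0, 2, 6), -260), ((5, 7, 11), (0, 2, 6), -212), ((11, 9, 5), (0, 2, 6), -214),
    ((12, 5, 9), (0, 2, 6), 1766), ((6, 5, 1), (1, 2, 6), 16), ((5, 6, 10), (1, 2, 6), -385), ((10, 9, 5), (1, 2, 6), 47),
    ((12, 4, 8), (1, 2, 6), 8), ((13, 4, 0), (1, 2, 6), 98), ((7, 4, 1), (0, 3, 6), -225), ((4, 7, 10), (0, 3, 6), 147),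
    ((11, 8, 5), (0, 3, 6), 52), ((6, 4, 1), (1, 3, 6), 77), ((5, 7, 10), (1, 3, 6), -266), ((10, 8, 5), (1, 3, 6), -474),
    ((12, 5, 8), (1, 3, 6), 634), ((0, 2, 13), (1, 3, 6), -115), ((1, 2, 7), (6, 5, 0), -34), ((10, 9, 4), (6, 5, 0), 73),
    ((5, 6, 11), (6, 5, 0), 44), ((12, 4, 9), (6, 5, 0), 115), ((4, 13, 10), (6, 5, 0), 115), ((7, 6, 0), (0, 1, 7), 247),
    ((4, 5, 11), (0, 1, 7), 70), ((11, 10, 4), (0, 1, 7), -8), ((7, 5, 0), (0, 2, 7), 247), ((4, 6, 11), (0, 2, 7), 70),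
    ((11, 9, 4), (0, 2, 7), -8), ((7, 4, 0), (0, 3, 7), -273), ((4, 7, 11), (0, 3, 7), 93), ((11, 8, 4), (0, 3, 7), 7),
    ((9, 8, 1), (0, 1, 8), -147), ((2, 3, 10), (0, 1, 8), 255), ((11, 10, 3), (0, 1, 8), 12), ((1, 3, 9), (0, 2, 8), 255),
    ((10, 8, 2), (0, 2, 8), -147), ((11, 9, 3), (0, 2, 8), 12), ((10, 9, 3), (1, 2, 8), 8), ((11, 8, 3), (0, 3, 8), -39),
    ((10, 8, 3), (1, 3, 8), 91), ((9, 8, 3), (2, 3, 8), 91), ((1, 5, 9), (0, 4, 8), 528), ((2, 6, 10), (0, 4, 8), 528),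
    ((3, 7, 11), (0, 4, 8), -440), ((8, 5, 1), (1, 4, 8), -93), ((3, 6, 10), (1, 4, 8), 624), ((10, 7, 3), (1, 4, 8), -260),
    ((8, 6, 2), (2, 4, 8), -93), ((3, 5, 9), (2, 4, 8), 624), ((9, 7, 3), (2, 4, 8), -260), ((8, 7, 3), (3, 4, 8), -252),
    ((1, 4, 9), (8, 5, 0), -57), ((10, 7, 2), (8, 5, 0), -204), ((3, 6, 11), (8, 5, 0), -52), ((2, 13, 10), (8, 5, 0), 239),
    ((9, 6, 3), (2, 5, 8), 11), ((8, 13, 2), (2, 5, 8), -215), ((9, 7, 1), (8, 6, 0), -204), ((2, 4, 10), (8, 6, 0), -57),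
    ((3, 5, 11), (8, 6, 0), -52), ((1, 12, 9), (8, 6, 0), 239), ((3, 5, 10), (8, 6, 1), 11), ((1, 12, 8), (8, 6, 1), -215),
    ((3, 4, 11), (8, 7, 0), -3), ((3, 4, 10), (8, 7, 1), -81), ((3, 4, 9), (8, 7, 2), -81), ((9, 8, 0), (0, 1, 9), 5),
    ((2, 3, 11), (0, 1, 9), -33), ((11, 10, 2), (0, 1, 9), 24), ((11, 9, 2), (0, 2, 9), 16), ((10, 9, 2), (1, 2, 9), 21),
    ((11, 8, 2), (0, 3, 9), -15), ((9, 8, 2), (2, 3, 9), -33), ((9, 5, 0), (0, 4, 9), 34), ((2, 6, 11), (0, 4, 9), -18),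
    ((11, 7, 2), (0, 4, 9), -47), ((9, 7, 2), (2, 4, 9), -32), ((9, 6, 2), (2, 5, 9), 73), ((2, 5, 11), (9, 6, 0), 1),
    ((0, 12, 9), (9, 6, 0), 38), ((2, 5, 10), (9, 6, 1), 17), ((0, 12, 8), (9, 6, 1), -17), ((8, 13, 0), (9, 6, 1), -17),
    ((2, 4, 11), (9, 7, 0), 36), ((11, 10, 1), (0, 1, 10), 16), ((10, 8, 0), (0, 2, 10), 5), ((1, 3, 11), (0, 2, 10), -33),
    ((11, 9, 1), (0, 2, 10), 24), ((10, 9, 1), (1, 2, 10), 21), ((11, 8, 1), (0, 3, 10), -15), ((10, 8, 1), (1, 3, 10), -33),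
    ((10, 6, 0), (0, 4, 10), 34), ((1, 5, 11), (0, 4, 10), -18), ((11, 7, 1), (0, 4, 10), -47), ((10, 7, 1), (1, 4, 10), -32),
    ((11, 6, 1), (0, 5, 10), 1), ((10, 13, 0), (0, 5, 10), 38), ((10, 6, 1), (1, 5, 10), -73), ((1, 4, 11), (10, 7, 0), 36),
    ((1, 2, 11), (10, 9, 0), 29), ((11, 10, 0), (0, 1, 11), 3), ((11, 9, 0), (0, 2, 11), 3), ((11, 8, 0), (0, 3, 11), -7),
    ((11, 7, 0), (0, 4, 11), 13), ((5, 12, 2), (0, 2, 12), 195), ((4, 12, 2), (1, 2, 12), -173), ((5, 12, 3), (1, 3, 12), -489),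
    ((12, 6, 9), (6, 12, 0), -10), ((12, 6, 8), (6, 12, 1), -221), ((6, 5, 12), (12, 4, 6), 62), ((12, 7, 9), (7, 12, 1), 137),
    ((10, 9, 12), (12, 4, 10), 39), ((10, 8, 12), (12, 5, 10), 18), ((11, 9, 12), (12, 5, 11), 101), ((6, 13, 1), (0, 1, 13), 195),
    ((13, 4, 1), (1, 2, 13), -173), ((6, 13, 3), (2, 3, 13), -489), ((5, 13, 10), (13, 5, 0), -10), ((5, 13, 8), (13, 5, 2), -221),
    ((6, 13, 5), (4, 5, 13), 62), ((13, 7, 10), (7, 13, 2), 137), ((10, 9, 13), (4, 13, 9), 39), ((9, 8, 13), (13, 6, 9), 18),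
    ((11, 10, 13), (13, 6, 11), 101), ((12, 13, 8), (13, 12, 0), -22)]
  tr := tr14
  big := 1048576

theorem ct10_valid : validC ct10 = true := by decide +kernel

theorem ct10_const : constOK ct10 5227 = true := by decide +kernel

/-- classes -/
def cs10 : List Cl := [
 cl 0 1 0 1 5024 0 141, cl 0 2 0 0 1 0 119, cl 1 0 0 0 8994 0 119, cl 1 1 0 1 0 1210 150,
 cl 1 2 0 0 41 0 423, cl 2 0 0 0 526 0 84, cl 2 1 0 1 0 0 98, cl 2 2 0 0 0 14 137,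
 cl 1 0 0 2 0 324 100, cl 0 0 0 2 0 2802 119, cl 1 0 1 1 5060 0 95, cl 2 0 1 1 0 1146 75,
 cl 2 0 0 2 0 0 80, cl 1 0 1 3 68 0 82, cl 1 0 2 0 0 2764 84, cl 2 0 2 0 0 407 69,
 cl 1 0 2 2 0 1156 80, cl 0 1 0 3 0 0 95, cl 0 2 0 2 398 0 100, cl 1 1 0 3 0 54 96,
 cl 1 2 0 2 0 0 119, cl 0 0 0 4 0 3 84]

theorem ct10_link : linkOK ct10 cs10 = true := by decide +kernel

theorem cs10_tail : tailOK cs10 64 16 64 5227 = true := by decide +kernel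

theorem cs10_grid : gridOK vtTree cs10 64 16 64 16 0 5364634368 5874 5227 = true := by
  decide +kernel

/-! ### Box 11: `64 ≤ -128 x ≤ 80`, `80 ≤ 128 y ≤ 96` -/

/-- certificate -/
def ct11 : Cert where
  pts := pts14
  g := 2943
  al := [(0, 229), (1, 461), (2, 461), (3, 1728), (4, 391), (5, -332), (6, -332), (7, -1227), (8, 483), (9, 152), (10, 152), (11, -659), (12, 89), (13, 89)]
  be := [
    (1, 0, 25), (2, 0, 25), (2, 1, -1185), (3, 0, -903), (3, 1, -505), (3, 2, -505), (4, 0, 667),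
    (4, 1, 426), (4, 2, 426), (4, 3, -1636), (5, 0, 454), (5, 1, 1687), (5, 2, -163), (5, 3, 1078),
    (5, 4, 1200), (6, 0, 454), (6, 1, -163), (6, 2, 1687), (6, 3, 1078), (6, 4, 1200), (6, 5, -287),
    (7, 0, 309), (7, 1, 271), (7, 2, 271), (7, 3, 2076), (7, 4, 632), (7, 5, 990), (7, 6, 990),
    (8, 0, 492), (8, 1, -200), (8, 2, -200), (8, 3, -218), (8, 4, 1312), (8, 5, 142), (8, 6, 142),
    (8, 7, -880), (9, 0, -35), (9, 1, 16), (9, 2, -29), (9, 3, -261), (9, 4, -282), (9, 5, -39),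
    (9, 6, -48), (9, 7, 1016), (9, 8, 273), (10, 0, -35), (10, 1, -29), (10, 2, 16), (10, 3, -261),
    (10, 4, -282), (10, 5, -48), (10, 6, -39), (10, 7, 1016), (10, 8, 273), (10, 9, -380), (11, 1, 162),
    (11, 2, 162), (11, 3, 447), (11, 4, 20), (11, 5, -204), (11, 6, -204), (11, 7, 1038), (11, 8, 271),
    (11, 9, 539), (11, 10, 539), (12, 0, -325), (12, 1, -97), (12, 2, 67), (12, 3, -554), (12, 4, -346),
    (12, 5, -18), (12, 6, 28), (12, 7, 471), (12, 8, 361), (12, 9, -540), (12, 10, -21), (12, 11, 196),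
    (13, 0, -325), (13, 1, 67), (13, 2, -97), (13, 3, -554), (13, 4, -346), (13, 5, 28), (13, 6, -18),
    (13, 7, 471), (13, 8, 361), (13, 9, -21), (13, 10, -540), (13, 11, 196), (13, 12, -33)]
  ta := [
    ((3, 2, 1), (0, 1, 2), 298), ((4, 5, 6), (0, 1, 2), -479), ((7, 6, 5), (0, 1, 2), -333), ((8, 9, 10), (0, 1, 2), 258),
    ((11, 10, 9), (0, 1, 2), -84), ((5, 4, 12), (0, 1, 2), -96), ((6, 13, 4), (0, 1, 2), -96), ((3, 2, 0), (0, 1, 3), 313),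
    ((4, 5, 7), (0, 1, 3), 33), ((7, 6, 4), (0, 1, 3), 33), ((8, 9, 11), (0, 1, 3), -346), ((11, 10, 8), (0, 1, 3), -346),
    ((6, 5, 3), (1, 2, 4), -410), ((5, 6, 8), (1, 2, 4), -131), ((10, 9, 7), (1, 2, 4), -135), ((4, 12, 1), (1, 2, 4), 132),
    ((13, 4, 2), (1, 2, 4), 132), ((7, 4, 3), (0, 3, 4), -32), ((4, 7, 8), (0, 3, 4), -259), ((11, 8, 7), (0, 3, 4), -240),
    ((6, 4, 3), (1, 3, 4), -146), ((5, 7, 8), (1, 3, 4), -124), ((10, 8, 7), (1, 3, 4), -87), ((5, 4, 3), (2, 3, 4), -146),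
    ((6, 7, 8), (2, 3, 4), -124), ((9, 8, 7), (2, 3, 4), -87), ((5, 4, 0), (0, 1, 5), -637), ((2, 3, 7), (0, 1, 5), -322),
    ((7, 6, 2), (0, 1, 5), 84), ((4, 5, 9), (0, 1, 5), 297), ((9, 8, 4), (0, 1, 5), -140), ((6, 7, 11), (0, 1, 5), -164),
    ((11, 10, 6), (0, 1, 5), -291), ((13, 6, 10), (0, 1, 5), 1804), ((7, 5, 2), (0, 2, 5), -104), ((4, 6, 9), (0, 2, 5), 28),
    ((11, 9, 6), (0, 2, 5), -47), ((5, 12, 0), (0, 2, 5), 199), ((10, 8, 13), (0, 2, 5), 117), ((6, 5, 2), (1, 2, 5), -358),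
    ((5, 6, 9), (1, 2, 5), -140), ((10, 9, 6), (1, 2, 5), 42), ((4, 12, 0), (1, 2, 5), 40), ((4, 13, 8), (1, 2, 5), 34),
    ((7, 4, 2), (0, 3, 5), -207), ((4, 7, 9), (0, 3, 5), 48), ((11, 8, 6), (0, 3, 5), 128), ((5, 4, 2), (2, 3, 5), -92),
    ((6, 7, 9), (2, 3, 5), -294), ((9, 8, 6), (2, 3, 5), -147), ((0, 1, 12), (2, 3, 5), 58), ((13, 6, 8), (2, 3, 5), 669),
    ((7, 6, 1), (0, 1, 6), -104), ((4, 5, 10), (0, 1, 6), 28), ((11, 10, 5), (0, 1, 6), -47), ((9, 8, 12), (0, 1, 6), 117),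
    ((6, 13, 0), (0, 1, 6), 199), ((6, 4, 0), (0, 2, 6), -637), ((1, 3, 7), (0, 2, 6), -322), ((7, 5, 1), (0, 2, 6), 84),
    ((4, 6, 10), (0, 2, 6), 297), ((10, 8, 4), (0, 2, 6), -140), ((5, 7, 11), (0, 2, 6), -164), ((11, 9, 5), (0, 2, 6), -291),
    ((12, 5, 9), (0, 2, 6), 1804), ((6, 5, 1), (1, 2, 6), -358), ((5, 6, 10), (1, 2, 6), -140), ((10, 9, 5), (1, 2, 6), 42),
    ((12, 4, 8), (1, 2, 6), 34), ((13, 4, 0), (1, 2, 6), 40), ((7, 4, 1), (0, 3, 6), -207), ((4, 7, 10), (0, 3, 6), 48),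
    ((11, 8, 5), (0, 3, 6), 128), ((6, 4, 1), (1, 3, 6), -92), ((5, 7, 10), (1, 3, 6), -294), ((10, 8, 5), (1, 3, 6), -147),
    ((12, 5, 8), (1, 3, 6), 669), ((0, 2, 13), (1, 3, 6), 58), ((1, 2, 7), (6, 5, 0), 127), ((10, 9, 4), (6, 5, 0), 91),
    ((5, 6, 11), (6, 5, 0), 80), ((12, 4, 9), (6, 5, 0), -5), ((4, 13, 10), (6, 5, 0), -5), ((7, 6, 0), (0, 1, 7), 16),
    ((4, 5, 11), (0, 1, 7), 119), ((11, 10, 4), (0, 1, 7), 4), ((7, 5, 0), (0, 2, 7), 16), ((4, 6, 11), (0, 2, 7), 119),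
    ((11, 9, 4), (0, 2, 7), 4), ((7, 4, 0), (0, 3, 7), -245), ((4, 7, 11), (0, 3, 7), 141), ((11, 8, 4), (0, 3, 7), 16),
    ((9, 8, 1), (0, 1, 8), -126), ((2, 3, 10), (0, 1, 8), 107), ((11, 10, 3), (0, 1, 8), -98), ((1, 3, 9), (0, 2, 8), 107),
    ((10, 8, 2), (0, 2, 8), -126), ((11, 9, 3), (0, 2, 8), -98), ((10, 9, 3), (1, 2, 8), 101), ((11, 8, 3), (0, 3, 8), -14),
    ((10, 8, 3), (1, 3, 8), -6), ((9, 8, 3), (2, 3, 8), -6), ((1, 5, 9), (0, 4, 8), 833), ((2, 6, 10), (0, 4, 8), 833),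
    ((3, 7, 11), (0, 4, 8), -956), ((8, 5, 1), (1, 4, 8), 199), ((3, 6, 10), (1, 4, 8), 320), ((10, 7, 3), (1, 4, 8), -561),
    ((8, 6, 2), (2, 4, 8), 199), ((3, 5, 9), (2, 4, 8), 320), ((9, 7, 3), (2, 4, 8), -561), ((8, 7, 3), (3, 4, 8), -87),
    ((1, 4, 9), (8, 5, 0), 132), ((10, 7, 2), (8, 5, 0), -72), ((3, 6, 11), (8, 5, 0), 14), ((2, 13, 10), (8, 5, 0), 184),
    ((9, 6, 3), (2, 5, 8), 39), ((8, 13, 2), (2, 5, 8), -303), ((9, 7, 1), (8, 6, 0), -72), ((2, 4, 10), (8, 6, 0), 132),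
    ((3, 5, 11), (8, 6, 0), 14), ((1, 12, 9), (8, 6, 0), 184), ((3, 5, 10), (8, 6, 1), 39), ((1, 12, 8), (8, 6, 1), -303),
    ((3, 4, 11), (8, 7, 0), 49), ((3, 4, 10), (8, 7, 1), -32), ((3, 4, 9), (8, 7, 2), -32), ((9, 8, 0), (0, 1, 9), -53),
    ((2, 3, 11), (0, 1, 9), -81), ((11, 10, 2), (0, 1, 9), 43), ((11, 9, 2), (0, 2, 9), -80), ((10, 9, 2), (1, 2, 9), 6),
    ((11, 8, 2), (0, 3, 9), -142), ((9, 8, 2), (2, 3, 9), -126), ((9, 5, 0), (0, 4, 9), 26), ((2, 6, 11), (0, 4, 9), 210),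
    ((11, 7, 2), (0, 4, 9), -227), ((9, 7, 2), (2, 4, 9), -176), ((9, 6, 2), (2, 5, 9), 59), ((0, 12, 9), (9, 6, 0), 57),
    ((2, 5, 10), (9, 6, 1), -67), ((0, 12, 8), (9, 6, 1), 67), ((8, 13, 0), (9, 6, 1), 67), ((2, 4, 11), (9, 7, 0), 59),
    ((11, 10, 1), (0, 1, 10), -80), ((10, 8, 0), (0, 2, 10), -53), ((1, 3, 11), (0, 2, 10), -81), ((11, 9, 1), (0, 2, 10), 43),
    ((10, 9, 1), (1, 2, 10), 6), ((11, 8, 1), (0, 3, 10), -142), ((10, 8, 1), (1, 3, 10), -126), ((10, 6, 0), (0, 4, 10), 26),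
    ((1, 5, 11), (0, 4, 10), 210), ((11, 7, 1), (0, 4, 10), -227), ((10, 7, 1), (1, 4, 10), -176), ((10, 13, 0), (0, 5, 10), 57),
    ((10, 6, 1), (1, 5, 10), -59), ((1, 4, 11), (10, 7, 0), 59), ((1, 2, 11), (10, 9, 0), -1), ((11, 10, 0), (0, 1, 11), -39),
    ((11, 9, 0), (0, 2, 11), -39), ((11, 8, 0), (0, 3, 11), -79), ((11, 7, 0), (0, 4, 11), -15), ((5, 12, 2), (0, 2, 12), 214),
    ((4, 12, 2), (1, 2, 12), -334), ((5, 12, 3), (1, 3, 12), -487), ((12, 6, 9), (6, 12, 0), 28), ((12, 6, 8), (6, 12, 1), -43),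
    ((6, 5, 12), (12, 4, 6), -45), ((12, 7, 9), (7, 12, 1), 184), ((10, 9, 12), (12, 4, 10), 3), ((10, 8, 12), (12, 5, 10), -11),
    ((11, 9, 12), (12, 5, 11), 209), ((6, 13, 1), (0, 1, 13), 214), ((13, 4, 1), (1, 2, 13), -334), ((6, 13, 3), (2, 3, 13), -487),
    ((5, 13, 10), (13, 5, 0), 28), ((5, 13, 8), (13, 5, 2), -43), ((6, 13, 5), (4, 5, 13), -45), ((13, 7, 10), (7, 13, 2), 184),
    ((10, 9, 13), (4, 13, 9), 3), ((9, 8, 13), (13, 6, 9), -11), ((11, 10, 13), (13, 6, 11), 209), ((12, 13, 8), (13, 12, 0), -33)]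
  tr := tr14
  big := 1048576

theorem ct11_valid : validC ct11 = true := by decide +kernel

theorem ct11_const : constOK ct11 4809 = true := by decide +kernel

/-- classes -/
def cs11 : List Cl := [
 cl 0 1 0 1 5008 0 133, cl 0 2 0 0 0 0 119, cl 1 0 0 0 8389 0 119, cl 1 1 0 1 0 602 139,
 cl 1 2 0 0 329 0 423, cl 2 0 0 0 971 0 84, cl 2 1 0 1 254 0 97, cl 2 2 0 0 0 0 137,
 cl 1 0 0 2 0 350 94, cl 0 0 0 2 0 2544 106, cl 1 0 1 1 5130 0 93, cl 2 0 1 1 0 922 74,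
 cl 2 0 0 2 0 58 78, cl 1 0 1 3 134 0 77, cl 1 0 2 0 0 2516 84, cl 2 0 2 0 0 218 69,
 cl 1 0 2 2 0 1108 78, cl 0 1 0 3 56 0 85, cl 0 2 0 2 942 0 94, cl 1 1 0 3 0 42 86,
 cl 1 2 0 2 392 0 106, cl 0 0 0 4 0 33 75]

theorem ct11_link : linkOK ct11 cs11 = true := by decide +kernel

theorem cs11_tail : tailOK cs11 64 16 80 4809 = true := by decide +kernel

theorem cs11_grid : gridOK vtTree cs11 64 16 80 16 0 8933596256 6268 4809 = true := by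
  decide +kernel

end Pool.Agent.H79.OC
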