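import Pool.Agent.H79.OC.Pts
import Pool.Agent.H79.OC.VTab

set_option autoImplicit false
set_option maxRecDepth 100000

/-!
# Certificates, part 7
-/

namespace Pool.Agent.H79.OC

open Cl

/-! ### Box 12: `64 ≤ -128 x ≤ 80`, `96 ≤ 128 y ≤ 112` -/

/-- certificate -/
def ct12 : Cert where
  pts := pts14
  g := 3558
  al := [(0, -165), (1, 310), (2, 310), (3, 2264), (4, 573), (5, 441), (6, 441), (7, -575), (8, 395), (9, -25), (10, -25), (11, 68), (12, 185), (13, 185)]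
  be := [
    (1, 0, 405), (2, 0, 405), (2, 1, -1090), (3, 0, -509), (3, 1, -610), (3, 2, -610), (4, 0, 796),
    (4, 1, 666), (4, 2, 666), (4, 3, -1822), (5, 0, 187), (5, 1, 1789), (5, 2, -371), (5, 3, 342),
    (5, 4, 922), (6, 0, 187), (6, 1, -371), (6, 2, 1789), (6, 3, 342), (6, 4, 922), (6, 5, -972),
    (7, 0, 125), (7, 1, 243), (7, 2, 243), (7, 3, 1453), (7, 4, -126), (7, 5, 668), (7, 6, 668),
    (8, 0, 503), (8, 1, -254), (8, 2, -254), (8, 3, -203), (8, 4, 1823), (8, 5, 265), (8, 6, 265),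
    (8, 7, -634), (9, 0, 131), (9, 1, 224), (9, 2, -71), (9, 3, -312), (9, 4, -54), (9, 5, -32),
    (9, 6, 134), (9, 7, 1088), (9, 8, 344), (10, 0, 131), (10, 1, -71), (10, 2, 224), (10, 3, -312),
    (10, 4, -54), (10, 5, 134), (10, 6, -32), (10, 7, 1088), (10, 8, 344), (10, 9, -348), (11, 1, -46),
    (11, 2, -46), (11, 3, -42), (11, 4, -125), (11, 5, -340), (11, 6, -340), (11, 7, 904), (11, 8, 113),
    (11, 9, 571), (11, 10, 571), (12, 0, -135), (12, 1, 295), (12, 3, -550), (12, 4, -146), (12, 5, -13),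
    (12, 7, 340), (12, 8, 231), (12, 9, -651), (12, 10, 25), (12, 11, 24), (13, 0, -135), (13, 2, 295),
    (13, 3, -550), (13, 4, -146), (13, 6, -13), (13, 7, 340), (13, 8, 231), (13, 9, 25), (13, 10, -651),
    (13, 11, 24)]
  ta := [
    ((3, 2, 1), (0, 1, 2), 615), ((4, 5, 6), (0, 1, 2), -427), ((7, 6, 5), (0, 1, 2), -266), ((8, 9, 10), (0, 1, 2), 270),
    ((11, 10, 9), (0, 1, 2), -1), ((5, 4, 12), (0, 1, 2), -295), ((6, 13, 4), (0, 1, 2), -295), ((3, 2, 0), (0, 1, 3), 13),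
    ((4, 5, 7), (0, 1, 3), 399), ((7, 6, 4), (0, 1, 3), 399), ((8, 9, 11), (0, 1, 3), -412), ((11, 10, 8), (0, 1, 3), -412),
    ((6, 5, 3), (1, 2, 4), 57), ((5, 6, 8), (1, 2, 4), -231), ((10, 9, 7), (1, 2, 4), -43), ((4, 12, 1), (1, 2, 4), -79),
    ((13, 4, 2), (1, 2, 4), -79), ((7, 4, 3), (0, 3, 4), 361), ((4, 7, 8), (0, 3, 4), -256), ((11, 8, 7), (0, 3, 4), -293),
    ((6, 4, 3), (1, 3, 4), 174), ((5, 7, 8), (1, 3, 4), -171), ((10, 8, 7), (1, 3, 4), -349), ((5, 4, 3), (2, 3, 4), 174),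
    ((6, 7, 8), (2, 3, 4), -171), ((9, 8, 7), (2, 3, 4), -349), ((5, 4, 0), (0, 1, 5), -483), ((2, 3, 7), (0, 1, 5), -223),
    ((7, 6, 2), (0, 1, 5), -115), ((4, 5, 9), (0, 1, 5), 288), ((9, 8, 4), (0, 1, 5), -202), ((6, 7, 11), (0, 1, 5), -235),
    ((11, 10, 6), (0, 1, 5), -313), ((13, 6, 10), (0, 1, 5), 1826), ((7, 5, 2), (0, 2, 5), 38), ((4, 6, 9), (0, 2, 5), -15),
    ((11, 9, 6), (0, 2, 5), -132), ((5, 12, 0), (0, 2, 5), 74), ((10, 8, 13), (0, 2, 5), 206), ((6, 5, 2), (1, 2, 5), -91),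
    ((5, 6, 9), (1, 2, 5), -217), ((10, 9, 6), (1, 2, 5), 5), ((4, 12, 0), (1, 2, 5), 63), ((4, 13, 8), (1, 2, 5), -70),
    ((7, 4, 2), (0, 3, 5), -250), ((4, 7, 9), (0, 3, 5), -56), ((11, 8, 6), (0, 3, 5), 109), ((5, 4, 2), (2, 3, 5), -167),
    ((6, 7, 9), (2, 3, 5), -406), ((9, 8, 6), (2, 3, 5), -243), ((0, 1, 12), (2, 3, 5), 10), ((13, 6, 8), (2, 3, 5), 512),
    ((7, 6, 1), (0, 1, 6), 38), ((4, 5, 10), (0, 1, 6), -15), ((11, 10, 5), (0, 1, 6), -132), ((9, 8, 12), (0, 1, 6), 206),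
    ((6, 13, 0), (0, 1, 6), 74), ((6, 4, 0), (0, 2, 6), -483), ((1, 3, 7), (0, 2, 6), -223), ((7, 5, 1), (0, 2, 6), -115),
    ((4, 6, 10), (0, 2, 6), 288), ((10, 8, 4), (0, 2, 6), -202), ((5, 7, 11), (0, 2, 6), -235), ((11, 9, 5), (0, 2, 6), -313),
    ((12, 5, 9), (0, 2, 6), 1826), ((6, 5, 1), (1, 2, 6), -91), ((5, 6, 10), (1, 2, 6), -217), ((10, 9, 5), (1, 2, 6), 5),
    ((12, 4, 8), (1, 2, 6), -70), ((13, 4, 0), (1, 2, 6), 63), ((7, 4, 1), (0, 3, 6), -250), ((4, 7, 10), (0, 3, 6), -56),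
    ((11, 8, 5), (0, 3, 6), 109), ((6, 4, 1), (1, 3, 6), -167), ((5, 7, 10), (1, 3, 6), -406), ((10, 8, 5), (1, 3, 6), -243),
    ((12, 5, 8), (1, 3, 6), 512), ((0, 2, 13), (1, 3, 6), 10), ((1, 2, 7), (6, 5, 0), -17), ((10, 9, 4), (6, 5, 0), 80),
    ((5, 6, 11), (6, 5, 0), 290), ((12, 4, 9), (6, 5, 0), -40), ((4, 13, 10), (6, 5, 0), -40), ((7, 6, 0), (0, 1, 7), 293),
    ((4, 5, 11), (0, 1, 7), 143), ((11, 10, 4), (0, 1, 7), -147), ((7, 5, 0), (0, 2, 7), 293), ((4, 6, 11), (0, 2, 7), 143),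
    ((11, 9, 4), (0, 2, 7), -147), ((7, 4, 0), (0, 3, 7), -218), ((4, 7, 11), (0, 3, 7), -46), ((11, 8, 4), (0, 3, 7), -98),
    ((9, 8, 1), (0, 1, 8), -62), ((2, 3, 10), (0, 1, 8), 70), ((11, 10, 3), (0, 1, 8), -7), ((1, 3, 9), (0, 2, 8), 70),
    ((10, 8, 2), (0, 2, 8), -62), ((11, 9, 3), (0, 2, 8), -7), ((10, 9, 3), (1, 2, 8), 15), ((11, 8, 3), (0, 3, 8), 102),
    ((10, 8, 3), (1, 3, 8), 28), ((9, 8, 3), (2, 3, 8), 28), ((1, 5, 9), (0, 4, 8), 636), ((2, 6, 10), (0, 4, 8), 636),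
    ((3, 7, 11), (0, 4, 8), -519), ((8, 5, 1), (1, 4, 8), 151), ((3, 6, 10), (1, 4, 8), 395), ((10, 7, 3), (1, 4, 8), -359),
    ((8, 6, 2), (2, 4, 8), 151), ((3, 5, 9), (2, 4, 8), 395), ((9, 7, 3), (2, 4, 8), -359), ((8, 7, 3), (3, 4, 8), -73),
    ((1, 4, 9), (8, 5, 0), 2), ((10, 7, 2), (8, 5, 0), -50), ((3, 6, 11), (8, 5, 0), 39), ((2, 13, 10), (8, 5, 0), 120),
    ((9, 6, 3), (2, 5, 8), 25), ((8, 13, 2), (2, 5, 8), -208), ((9, 7, 1), (8, 6, 0), -50), ((2, 4, 10), (8, 6, 0), 2),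
    ((3, 5, 11), (8, 6, 0), 39), ((1, 12, 9), (8, 6, 0), 120), ((3, 5, 10), (8, 6, 1), 25), ((1, 12, 8), (8, 6, 1), -208),
    ((3, 4, 11), (8, 7, 0), 129), ((3, 4, 10), (8, 7, 1), -64), ((3, 4, 9), (8, 7, 2), -64), ((9, 8, 0), (0, 1, 9), -30),
    ((2, 3, 11), (0, 1, 9), -30), ((11, 10, 2), (0, 1, 9), 58), ((11, 9, 2), (0, 2, 9), -27), ((10, 9, 2), (1, 2, 9), -17),
    ((11, 8, 2), (0, 3, 9), -15), ((9, 8, 2), (2, 3, 9), -44), ((9, 5, 0), (0, 4, 9), 91), ((2, 6, 11), (0, 4, 9), -63),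
    ((11, 7, 2), (0, 4, 9), -45), ((9, 7, 2), (2, 4, 9), -67), ((9, 6, 2), (2, 5, 9), 46), ((2, 5, 11), (9, 6, 0), 93),
    ((0, 12, 9), (9, 6, 0), -2), ((2, 5, 10), (9, 6, 1), -61), ((0, 12, 8), (9, 6, 1), 61), ((8, 13, 0), (9, 6, 1), 61),
    ((2, 4, 11), (9, 7, 0), 35), ((11, 10, 1), (0, 1, 10), -27), ((10, 8, 0), (0, 2, 10), -30), ((1, 3, 11), (0, 2, 10), -30),
    ((11, 9, 1), (0, 2, 10), 58), ((10, 9, 1), (1, 2, 10), -17), ((11, 8, 1), (0, 3, 10), -15), ((10, 8, 1), (1, 3, 10), -44),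
    ((10, 6, 0), (0, 4, 10), 91), ((1, 5, 11), (0, 4, 10), -63), ((11, 7, 1), (0, 4, 10), -45), ((10, 7, 1), (1, 4, 10), -67),
    ((11, 6, 1), (0, 5, 10), 93), ((10, 13, 0), (0, 5, 10), -2), ((10, 6, 1), (1, 5, 10), -46), ((1, 4, 11), (10, 7, 0), 35),
    ((1, 2, 11), (10, 9, 0), 42), ((11, 10, 0), (0, 1, 11), 4), ((11, 9, 0), (0, 2, 11), 4), ((11, 8, 0), (0, 3, 11), -36),
    ((11, 7, 0), (0, 4, 11), 40), ((5, 12, 2), (0, 2, 12), 204), ((4, 12, 2), (1, 2, 12), -228), ((5, 12, 3), (1, 3, 12), -317),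
    ((12, 6, 8), (6, 12, 1), 39), ((6, 5, 12), (12, 4, 6), -15), ((12, 7, 9), (7, 12, 1), 218), ((10, 9, 12), (12, 4, 10), 47),
    ((10, 8, 12), (12, 5, 10), 25), ((11, 9, 12), (12, 5, 11), 98), ((6, 13, 1), (0, 1, 13), 204), ((13, 4, 1), (1, 2, 13), -228),
    ((6, 13, 3), (2, 3, 13), -317), ((5, 13, 8), (13, 5, 2), 39), ((6, 13, 5), (4, 5, 13), -15), ((13, 7, 10), (7, 13, 2), 218),
    ((10, 9, 13), (4, 13, 9), 47), ((9, 8, 13), (13, 6, 9), 25), ((11, 10, 13), (13, 6, 11), 98)]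
  tr := tr14
  big := 1048576

theorem ct12_valid : validC ct12 = true := by decide +kernel

theorem ct12_const : constOK ct12 4995 = true := by decide +kernel

/-- classes -/
def cs12 : List Cl := [
 cl 0 1 0 1 4574 0 125, cl 0 2 0 0 0 522 119, cl 1 0 0 0 8490 0 119, cl 1 1 0 1 0 1230 130,
 cl 1 2 0 0 0 0 1024, cl 2 0 0 0 909 0 84, cl 2 1 0 1 170 0 95, cl 2 2 0 0 0 0 137,
 cl 1 0 0 2 0 282 89, cl 0 0 0 2 0 2702 97, cl 1 0 1 1 5312 0 92, cl 2 0 1 1 0 1132 74,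
 cl 2 0 0 2 0 142 75, cl 1 0 1 3 0 0 72, cl 1 0 2 0 0 2456 84, cl 2 0 2 0 0 203 69,
 cl 1 0 2 2 0 1100 75, cl 0 1 0 3 0 0 78, cl 0 2 0 2 680 0 89, cl 1 1 0 3 50 0 79,
 cl 1 2 0 2 48 0 97, cl 0 0 0 4 0 0 69]

theorem ct12_link : linkOK ct12 cs12 = true := by decide +kernel

theorem cs12_tail : tailOK cs12 64 16 96 4995 = true := by decide +kernel

theorem cs12_grid : gridOK vtTree cs12 64 16 96 16 0 5863272864 5950 4995 = true := by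
  decide +kernel

/-! ### Box 13: `48 ≤ -128 x ≤ 64`, `16 ≤ 128 y ≤ 32` -/

/-- certificate -/
def ct13 : Cert where
  pts := pts14
  g := 2354
  al := [(0, -748), (1, 706), (2, 706), (3, 1084), (4, -1), (5, -468), (6, -468), (7, -1393), (8, 6), (9, 289), (10, 289), (11, 46), (12, 573), (13, 573)]
  be := [
    (1, 0, 808), (2, 0, 808), (2, 1, -404), (3, 0, -3), (3, 1, -211), (3, 2, -211), (4, 0, 1350),
    (4, 1, 377), (4, 2, 377), (4, 3, -1139), (5, 0, 239), (5, 1, 1683), (5, 2, -196), (5, 3, 1280),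
    (5, 4, 650), (6, 0, 239), (6, 1, -196), (6, 2, 1683), (6, 3, 1280), (6, 4, 650), (6, 5, -931),
    (7, 0, 228), (7, 1, -310), (7, 2, -310), (7, 3, 1812), (7, 4, 18), (7, 5, 1290), (7, 6, 1290),
    (8, 0, 802), (8, 1, -217), (8, 2, -217), (8, 4, 997), (8, 5, 444), (8, 6, 444), (8, 7, -207),
    (9, 0, 137), (9, 1, -302), (9, 2, -204), (9, 3, -554), (9, 4, -67), (9, 5, -331), (9, 6, -180),
    (9, 7, 902), (9, 8, 418), (10, 0, 137), (10, 1, -204), (10, 2, -302), (10, 3, -554), (10, 4, -67),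
    (10, 5, -180), (10, 6, -331), (10, 7, 902), (10, 8, 418), (10, 9, -96), (11, 0, -51), (11, 1, -35),
    (11, 2, -35), (11, 3, 50), (11, 4, 95), (11, 5, 57), (11, 6, 57), (11, 7, 472), (11, 8, 101),
    (11, 9, 325), (11, 10, 325), (12, 0, -14), (12, 1, 62), (12, 2, -372), (12, 3, -594), (12, 4, -548),
    (12, 5, -305), (12, 6, -40), (12, 7, 224), (12, 8, -104), (12, 9, -83), (12, 10, 21), (13, 0, -14),
    (13, 1, -372), (13, 2, 62), (13, 3, -594), (13, 4, -548), (13, 5, -40), (13, 6, -305), (13, 7, 224),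
    (13, 8, -104), (13, 9, 21), (13, 10, -83)]
  ta := [
    ((3, 2, 1), (0, 1, 2), 385), ((4, 5, 6), (0, 1, 2), -176), ((7, 6, 5), (0, 1, 2), -581), ((8, 9, 10), (0, 1, 2), 9),
    ((11, 10, 9), (0, 1, 2), -8), ((5, 4, 12), (0, 1, 2), 198), ((6, 13, 4), (0, 1, 2), 198), ((3, 2, 0), (0, 1, 3), -275),
    ((4, 5, 7), (0, 1, 3), 647), ((7, 6, 4), (0, 1, 3), 647), ((8, 9, 11), (0, 1, 3), -372), ((11, 10, 8), (0, 1, 3), -372),
    ((6, 5, 3), (1, 2, 4), -125), ((5, 6, 8), (1, 2, 4), -200), ((10, 9, 7), (1, 2, 4), -165), ((4, 12, 1), (1, 2, 4), 190),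
    ((13, 4, 2), (1, 2, 4), 190), ((7, 4, 3), (0, 3, 4), 2), ((4, 7, 8), (0, 3, 4), -45), ((11, 8, 7), (0, 3, 4), 103),
    ((6, 4, 3), (1, 3, 4), 253), ((5, 7, 8), (1, 3, 4), -169), ((10, 8, 7), (1, 3, 4), -301), ((5, 4, 3), (2, 3, 4), 253),
    ((6, 7, 8), (2, 3, 4), -169), ((9, 8, 7), (2, 3, 4), -301), ((5, 4, 0), (0, 1, 5), -221), ((2, 3, 7), (0, 1, 5), -241),
    ((7, 6, 2), (0, 1, 5), 313), ((4, 5, 9), (0, 1, 5), 395), ((9, 8, 4), (0, 1, 5), -236), ((6, 7, 11), (0, 1, 5), -323),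
    ((11, 10, 6), (0, 1, 5), -409), ((13, 6, 10), (0, 1, 5), 1351), ((7, 5, 2), (0, 2, 5), -87), ((4, 6, 9), (0, 2, 5), 26),
    ((11, 9, 6), (0, 2, 5), 18), ((5, 12, 0), (0, 2, 5), 170), ((10, 8, 13), (0, 2, 5), 46), ((6, 5, 2), (1, 2, 5), 235),
    ((5, 6, 9), (1, 2, 5), 170), ((10, 9, 6), (1, 2, 5), -9), ((4, 12, 0), (1, 2, 5), -328), ((4, 13, 8), (1, 2, 5), 370),
    ((7, 4, 2), (0, 3, 5), 123), ((4, 7, 9), (0, 3, 5), 241), ((11, 8, 6), (0, 3, 5), -127), ((5, 4, 2), (2, 3, 5), -11),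
    ((6, 7, 9), (2, 3, 5), -419), ((9, 8, 6), (2, 3, 5), -142), ((0, 1, 12), (2, 3, 5), -31), ((13, 6, 8), (2, 3, 5), 818),
    ((7, 6, 1), (0, 1, 6), -87), ((4, 5, 10), (0, 1, 6), 26), ((11, 10, 5), (0, 1, 6), 18), ((9, 8, 12), (0, 1, 6), 46),
    ((6, 13, 0), (0, 1, 6), 170), ((6, 4, 0), (0, 2, 6), -221), ((1, 3, 7), (0, 2, 6), -241), ((7, 5, 1), (0, 2, 6), 313),
    ((4, 6, 10), (0, 2, 6), 395), ((10, 8, 4), (0, 2, 6), -236), ((5, 7, 11), (0, 2, 6), -323), ((11, 9, 5), (0, 2, 6), -409),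
    ((12, 5, 9), (0, 2, 6), 1351), ((6, 5, 1), (1, 2, 6), 235), ((5, 6, 10), (1, 2, 6), 170), ((10, 9, 5), (1, 2, 6), -9),
    ((12, 4, 8), (1, 2, 6), 370), ((13, 4, 0), (1, 2, 6), -328), ((7, 4, 1), (0, 3, 6), 123), ((4, 7, 10), (0, 3, 6), 241),
    ((11, 8, 5), (0, 3, 6), -127), ((6, 4, 1), (1, 3, 6), -11), ((5, 7, 10), (1, 3, 6), -419), ((10, 8, 5), (1, 3, 6), -142),
    ((12, 5, 8), (1, 3, 6), 818), ((0, 2, 13), (1, 3, 6), -31), ((1, 2, 7), (6, 5, 0), 143), ((10, 9, 4), (6, 5, 0), -105),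
    ((5, 6, 11), (6, 5, 0), 161), ((12, 4, 9), (6, 5, 0), -41), ((4, 13, 10), (6, 5, 0), -41), ((7, 6, 0), (0, 1, 7), -26),
    ((4, 5, 11), (0, 1, 7), -147), ((11, 10, 4), (0, 1, 7), 41), ((7, 5, 0), (0, 2, 7), -26), ((4, 6, 11), (0, 2, 7), -147),
    ((11, 9, 4), (0, 2, 7), 41), ((7, 4, 0), (0, 3, 7), 167), ((4, 7, 11), (0, 3, 7), 389), ((11, 8, 4), (0, 3, 7), -242),
    ((9, 8, 1), (0, 1, 8), 77), ((2, 3, 10), (0, 1, 8), 164), ((11, 10, 3), (0, 1, 8), 29), ((1, 3, 9), (0, 2, 8), 164),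
    ((10, 8, 2), (0, 2, 8), 77), ((11, 9, 3), (0, 2, 8), 29), ((10, 9, 3), (1, 2, 8), 35), ((11, 8, 3), (0, 3, 8), -36),
    ((10, 8, 3), (1, 3, 8), 182), ((9, 8, 3), (2, 3, 8), 182), ((1, 5, 9), (0, 4, 8), 587), ((2, 6, 10), (0, 4, 8), 587),
    ((3, 7, 11), (0, 4, 8), -533), ((8, 5, 1), (1, 4, 8), -74), ((3, 6, 10), (1, 4, 8), 455), ((10, 7, 3), (1, 4, 8), -277),
    ((8, 6, 2), (2, 4, 8), -74), ((3, 5, 9), (2, 4, 8), 455), ((9, 7, 3), (2, 4, 8), -277), ((8, 7, 3), (3, 4, 8), -171),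
    ((1, 4, 9), (8, 5, 0), 98), ((10, 7, 2), (8, 5, 0), 78), ((3, 6, 11), (8, 5, 0), -91), ((2, 13, 10), (8, 5, 0), 8),
    ((9, 6, 3), (2, 5, 8), -12), ((8, 13, 2), (2, 5, 8), -171), ((9, 7, 1), (8, 6, 0), 78), ((2, 4, 10), (8, 6, 0), 98),
    ((3, 5, 11), (8, 6, 0), -91), ((1, 12, 9), (8, 6, 0), 8), ((3, 5, 10), (8, 6, 1), -12), ((1, 12, 8), (8, 6, 1), -171),
    ((3, 4, 11), (8, 7, 0), 63), ((3, 4, 10), (8, 7, 1), -55), ((3, 4, 9), (8, 7, 2), -55), ((9, 8, 0), (0, 1, 9), -29),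
    ((2, 3, 11), (0, 1, 9), -23), ((11, 10, 2), (0, 1, 9), 51), ((11, 9, 2), (0, 2, 9), 14), ((10, 9, 2), (1, 2, 9), -38),
    ((11, 8, 2), (0, 3, 9), 22), ((9, 8, 2), (2, 3, 9), -55), ((9, 5, 0), (0, 4, 9), 317), ((2, 6, 11), (0, 4, 9), -49),
    ((11, 7, 2), (0, 4, 9), -28), ((9, 7, 2), (2, 4, 9), -63), ((9, 6, 2), (2, 5, 9), 47), ((2, 5, 11), (9, 6, 0), 36),
    ((0, 12, 9), (9, 6, 0), 71), ((2, 5, 10), (9, 6, 1), 129), ((0, 12, 8), (9, 6, 1), -129), ((8, 13, 0), (9, 6, 1), -129),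
    ((2, 4, 11), (9, 7, 0), -31), ((11, 10, 1), (0, 1, 10), 14), ((10, 8, 0), (0, 2, 10), -29), ((1, 3, 11), (0, 2, 10), -23),
    ((11, 9, 1), (0, 2, 10), 51), ((10, 9, 1), (1, 2, 10), -38), ((11, 8, 1), (0, 3, 10), 22), ((10, 8, 1), (1, 3, 10), -55),
    ((10, 6, 0), (0, 4, 10), 317), ((1, 5, 11), (0, 4, 10), -49), ((11, 7, 1), (0, 4, 10), -28), ((10, 7, 1), (1, 4, 10), -63),
    ((11, 6, 1), (0, 5, 10), 36), ((10, 13, 0), (0, 5, 10), 71), ((10, 6, 1), (1, 5, 10), -47), ((1, 4, 11), (10, 7, 0), -31),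
    ((1, 2, 11), (10, 9, 0), 58), ((11, 10, 0), (0, 1, 11), 4), ((11, 9, 0), (0, 2, 11), 4), ((11, 8, 0), (0, 3, 11), -10),
    ((11, 7, 0), (0, 4, 11), 22), ((5, 12, 2), (0, 2, 12), 280), ((4, 12, 2), (1, 2, 12), -50), ((5, 12, 3), (1, 3, 12), -408),
    ((12, 6, 9), (6, 12, 0), -92), ((12, 6, 8), (6, 12, 1), 167), ((6, 5, 12), (12, 4, 6), -116), ((12, 7, 9), (7, 12, 1), -57),
    ((10, 9, 12), (12, 4, 10), 21), ((6, 13, 1), (0, 1, 13), 280), ((13, 4, 1), (1, 2, 13), -50), ((6, 13, 3), (2, 3, 13), -408),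
    ((5, 13, 10), (13, 5, 0), -92), ((5, 13, 8), (13, 5, 2), 167), ((6, 13, 5), (4, 5, 13), -116), ((13, 7, 10), (7, 13, 2), -57),
    ((10, 9, 13), (4, 13, 9), 21), ((12, 13, 8), (13, 12, 0), 21)]
  tr := tr14
  big := 1048576

theorem ct13_valid : validC ct13 = true := by decide +kernel

theorem ct13_const : constOK ct13 4565 = true := by decide +kernel

/-- classes -/
def cs13 : List Cl := [
 cl 0 1 0 1 5950 0 189, cl 0 2 0 0 116 0 137, cl 1 0 0 0 7335 0 119, cl 1 1 0 1 0 328 165,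
 cl 1 2 0 0 323 0 423, cl 2 0 0 0 248 0 84, cl 2 1 0 1 204 0 97, cl 2 2 0 0 0 51 119,
 cl 1 0 0 2 0 988 117, cl 0 0 0 2 0 2527 237, cl 1 0 1 1 6130 0 101, cl 2 0 1 1 0 1542 77,
 cl 2 0 0 2 0 408 84, cl 1 0 1 3 0 744 100, cl 1 0 2 0 0 1346 90, cl 2 0 2 0 0 0 72,
 cl 1 0 2 2 0 1188 90, cl 0 1 0 3 0 80 163, cl 0 2 0 2 448 0 134, cl 1 1 0 3 42 0 150,
 cl 1 2 0 2 0 0 237, cl 0 0 0 4 0 0 168]

theorem ct13_link : linkOK ct13 cs13 = true := by decide +kernel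

theorem cs13_tail : tailOK cs13 48 16 16 4565 = true := by decide +kernel

theorem cs13_grid : gridOK vtTree cs13 48 16 16 16 0 7465724256 6444 4565 = true := by
  decide +kernel

end Pool.Agent.H79.OC
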