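import Pool.Agent.H79.OC.Pts
import Pool.Agent.H79.OC.VTab

set_option autoImplicit false
set_option maxRecDepth 100000

/-!
# Certificates, part 8
-/

namespace Pool.Agent.H79.OC

open Cl

/-! ### Box 14: `48 ≤ -128 x ≤ 64`, `32 ≤ 128 y ≤ 48` -/

/-- certificate -/
def ct14 : Cert where
  pts := pts14
  g := 1292
  al := [(0, -96), (1, 102), (2, 102), (3, 917), (4, -207), (5, -1301), (6, -1301), (7, -1785), (8, -885), (9, 188), (10, 188), (11, -21), (12, 649), (13, 649)]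
  be := [
    (1, 0, 315), (2, 0, 315), (2, 1, -912), (3, 0, -316), (3, 1, 29), (3, 2, 29), (4, 0, 1042),
    (4, 1, 792), (4, 2, 792), (4, 3, -1884), (5, 0, -19), (5, 1, 1953), (5, 2, 95), (5, 3, 1527),
    (5, 4, 1033), (6, 0, -19), (6, 1, 95), (6, 2, 1953), (6, 3, 1527), (6, 4, 1033), (6, 5, 271),
    (7, 0, 44), (7, 1, 438), (7, 2, 438), (7, 3, 2084), (7, 4, 663), (7, 5, 1613), (7, 6, 1613),
    (8, 0, 166), (8, 1, -7), (8, 2, -7), (8, 4, 1587), (8, 5, 1002), (8, 6, 1002), (8, 7, 502),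
    (9, 0, 74), (9, 1, 79), (9, 3, -459), (9, 4, -279), (9, 5, -652), (9, 6, 59), (9, 7, 681),
    (9, 8, 395), (10, 0, 74), (10, 2, 79), (10, 3, -459), (10, 4, -279), (10, 5, 59), (10, 6, -652),
    (10, 7, 681), (10, 8, 395), (10, 9, -228), (11, 1, -91), (11, 2, -91), (11, 3, -90), (11, 4, -12),
    (11, 5, 43), (11, 6, 43), (11, 7, 655), (11, 9, 367), (11, 10, 367), (12, 0, -188), (12, 1, -398),
    (12, 2, -16), (12, 3, -714), (12, 4, -560), (12, 5, -457), (12, 6, -231), (12, 7, 79), (12, 8, 244),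
    (12, 9, -535), (12, 10, -24), (12, 11, 10), (13, 0, -188), (13, 1, -16), (13, 2, -398), (13, 3, -714),
    (13, 4, -560), (13, 5, -231), (13, 6, -457), (13, 7, 79), (13, 8, 244), (13, 9, -24), (13, 10, -535),
    (13, 11, 10), (13, 12, -12)]
  ta := [
    ((3, 2, 1), (0, 1, 2), 346), ((4, 5, 6), (0, 1, 2), -591), ((7, 6, 5), (0, 1, 2), -588), ((8, 9, 10), (0, 1, 2), 178),
    ((11, 10, 9), (0, 1, 2), -8), ((5, 4, 12), (0, 1, 2), 294), ((6, 13, 4), (0, 1, 2), 294), ((3, 2, 0), (0, 1, 3), -83),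
    ((4, 5, 7), (0, 1, 3), 415), ((7, 6, 4), (0, 1, 3), 415), ((8, 9, 11), (0, 1, 3), -332), ((11, 10, 8), (0, 1, 3), -332),
    ((6, 5, 3), (1, 2, 4), -1056), ((5, 6, 8), (1, 2, 4), -420), ((10, 9, 7), (1, 2, 4), 237), ((4, 12, 1), (1, 2, 4), 510),
    ((13, 4, 2), (1, 2, 4), 510), ((7, 4, 3), (0, 3, 4), 173), ((4, 7, 8), (0, 3, 4), -27), ((11, 8, 7), (0, 3, 4), -11),
    ((6, 4, 3), (1, 3, 4), 537), ((5, 7, 8), (1, 3, 4), -451), ((10, 8, 7), (1, 3, 4), -401), ((5, 4, 3), (2, 3, 4), 537),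
    ((6, 7, 8), (2, 3, 4), -451), ((9, 8, 7), (2, 3, 4), -401), ((5, 4, 0), (0, 1, 5), -422), ((2, 3, 7), (0, 1, 5), -616),
    ((7, 6, 2), (0, 1, 5), -523), ((4, 5, 9), (0, 1, 5), 264), ((9, 8, 4), (0, 1, 5), -144), ((6, 7, 11), (0, 1, 5), -277),
    ((11, 10, 6), (0, 1, 5), -320), ((13, 6, 10), (0, 1, 5), 2089), ((7, 5, 2), (0, 2, 5), -86), ((4, 6, 9), (0, 2, 5), -104),
    ((11, 9, 6), (0, 2, 5), 23), ((5, 12, 0), (0, 2, 5), 138), ((10, 8, 13), (0, 2, 5), 122), ((6, 5, 2), (1, 2, 5), -596),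
    ((5, 6, 9), (1, 2, 5), 355), ((10, 9, 6), (1, 2, 5), 110), ((4, 12, 0), (1, 2, 5), 106), ((4, 13, 8), (1, 2, 5), -194),
    ((7, 4, 2), (0, 3, 5), -463), ((4, 7, 9), (0, 3, 5), 140), ((11, 8, 6), (0, 3, 5), 11), ((5, 4, 2), (2, 3, 5), -345),
    ((6, 7, 9), (2, 3, 5), -171), ((9, 8, 6), (2, 3, 5), -146), ((0, 1, 12), (2, 3, 5), 142), ((13, 6, 8), (2, 3, 5), 1003),
    ((7, 6, 1), (0, 1, 6), -86), ((4, 5, 10), (0, 1, 6), -104), ((11, 10, 5), (0, 1, 6), 23), ((9, 8, 12), (0, 1, 6), 122),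
    ((6, 13, 0), (0, 1, 6), 138), ((6, 4, 0), (0, 2, 6), -422), ((1, 3, 7), (0, 2, 6), -616), ((7, 5, 1), (0, 2, 6), -523),
    ((4, 6, 10), (0, 2, 6), 264), ((10, 8, 4), (0, 2, 6), -144), ((5, 7, 11), (0, 2, 6), -277), ((11, 9, 5), (0, 2, 6), -320),
    ((12, 5, 9), (0, 2, 6), 2089), ((6, 5, 1), (1, 2, 6), -596), ((5, 6, 10), (1, 2, 6), 355), ((10, 9, 5), (1, 2, 6), 110),
    ((12, 4, 8), (1, 2, 6), -194), ((13, 4, 0), (1, 2, 6), 106), ((7, 4, 1), (0, 3, 6), -463), ((4, 7, 10), (0, 3, 6), 140),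
    ((11, 8, 5), (0, 3, 6), 11), ((6, 4, 1), (1, 3, 6), -345), ((5, 7, 10), (1, 3, 6), -171), ((10, 8, 5), (1, 3, 6), -146),
    ((12, 5, 8), (1, 3, 6), 1003), ((0, 2, 13), (1, 3, 6), 142), ((1, 2, 7), (6, 5, 0), 260), ((10, 9, 4), (6, 5, 0), -91),
    ((5, 6, 11), (6, 5, 0), -117), ((12, 4, 9), (6, 5, 0), 66), ((4, 13, 10), (6, 5, 0), 66), ((7, 6, 0), (0, 1, 7), 244),
    ((4, 5, 11), (0, 1, 7), -18), ((11, 10, 4), (0, 1, 7), -15), ((7, 5, 0), (0, 2, 7), 244), ((4, 6, 11), (0, 2, 7), -18),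
    ((11, 9, 4), (0, 2, 7), -15), ((7, 4, 0), (0, 3, 7), -413), ((4, 7, 11), (0, 3, 7), -2), ((11, 8, 4), (0, 3, 7), 71),
    ((9, 8, 1), (0, 1, 8), -97), ((2, 3, 10), (0, 1, 8), 227), ((11, 10, 3), (0, 1, 8), -58), ((1, 3, 9), (0, 2, 8), 227),
    ((10, 8, 2), (0, 2, 8), -97), ((11, 9, 3), (0, 2, 8), -58), ((10, 9, 3), (1, 2, 8), -29), ((11, 8, 3), (0, 3, 8), -18),
    ((10, 8, 3), (1, 3, 8), 97), ((9, 8, 3), (2, 3, 8), 97), ((1, 5, 9), (0, 4, 8), 539), ((2, 6, 10), (0, 4, 8), 539),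
    ((3, 7, 11), (0, 4, 8), -510), ((8, 5, 1), (1, 4, 8), -86), ((3, 6, 10), (1, 4, 8), 735), ((10, 7, 3), (1, 4, 8), -366),
    ((8, 6, 2), (2, 4, 8), -86), ((3, 5, 9), (2, 4, 8), 735), ((9, 7, 3), (2, 4, 8), -366), ((8, 7, 3), (3, 4, 8), -89),
    ((1, 4, 9), (8, 5, 0), 33), ((10, 7, 2), (8, 5, 0), -234), ((3, 6, 11), (8, 5, 0), 69), ((2, 13, 10), (8, 5, 0), 219),
    ((9, 6, 3), (2, 5, 8), -109), ((8, 13, 2), (2, 5, 8), -111), ((9, 7, 1), (8, 6, 0), -234), ((2, 4, 10), (8, 6, 0), 33),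
    ((3, 5, 11), (8, 6, 0), 69), ((1, 12, 9), (8, 6, 0), 219), ((3, 5, 10), (8, 6, 1), -109), ((1, 12, 8), (8, 6, 1), -111),
    ((3, 4, 11), (8, 7, 0), 67), ((3, 4, 10), (8, 7, 1), 187), ((3, 4, 9), (8, 7, 2), 187), ((9, 8, 0), (0, 1, 9), -2),
    ((2, 3, 11), (0, 1, 9), 53), ((11, 10, 2), (0, 1, 9), -7), ((11, 9, 2), (0, 2, 9), -3), ((10, 9, 2), (1, 2, 9), -54),
    ((11, 8, 2), (0, 3, 9), 6), ((9, 8, 2), (2, 3, 9), 34), ((9, 5, 0), (0, 4, 9), 31), ((2, 6, 11), (0, 4, 9), -6),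
    ((11, 7, 2), (0, 4, 9), -7), ((9, 7, 2), (2, 4, 9), 14), ((9, 6, 2), (2, 5, 9), -189), ((2, 5, 11), (9, 6, 0), 30),
    ((0, 12, 9), (9, 6, 0), 47), ((2, 5, 10), (9, 6, 1), -72), ((0, 12, 8), (9, 6, 1), 72), ((8, 13, 0), (9, 6, 1), 72),
    ((2, 4, 11), (9, 7, 0), 19), ((11, 10, 1), (0, 1, 10), -3), ((10, 8, 0), (0, 2, 10), -2), ((1, 3, 11), (0, 2, 10), 53),
    ((11, 9, 1), (0, 2, 10), -7), ((10, 9, 1), (1, 2, 10), -54), ((11, 8, 1), (0, 3, 10), 6), ((10, 8, 1), (1, 3, 10), 34),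
    ((10, 6, 0), (0, 4, 10), 31), ((1, 5, 11), (0, 4, 10), -6), ((11, 7, 1), (0, 4, 10), -7), ((10, 7, 1), (1, 4, 10), 14),
    ((11, 6, 1), (0, 5, 10), 30), ((10, 13, 0), (0, 5, 10), 47), ((10, 6, 1), (1, 5, 10), 189), ((1, 4, 11), (10, 7, 0), 19),
    ((1, 2, 11), (10, 9, 0), 73), ((11, 10, 0), (0, 1, 11), 12), ((11, 9, 0), (0, 2, 11), 12), ((11, 8, 0), (0, 3, 11), -13),
    ((11, 7, 0), (0, 4, 11), 46), ((5, 12, 2), (0, 2, 12), 10), ((4, 12, 2), (1, 2, 12), -121), ((5, 12, 3), (1, 3, 12), -701),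
    ((12, 6, 9), (6, 12, 0), 61), ((12, 6, 8), (6, 12, 1), -138), ((6, 5, 12), (12, 4, 6), -3), ((12, 7, 9), (7, 12, 1), 200),
    ((10, 9, 12), (12, 4, 10), 73), ((10, 8, 12), (12, 5, 10), -37), ((11, 9, 12), (12, 5, 11), 4), ((6, 13, 1), (0, 1, 13), 10),
    ((13, 4, 1), (1, 2, 13), -121), ((6, 13, 3), (2, 3, 13), -701), ((5, 13, 10), (13, 5, 0), 61), ((5, 13, 8), (13, 5, 2), -138),
    ((6, 13, 5), (4, 5, 13), -3), ((13, 7, 10), (7, 13, 2), 200), ((10, 9, 13), (4, 13, 9), 73), ((9, 8, 13), (13, 6, 9), -37),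
    ((11, 10, 13), (13, 6, 11), 4), ((12, 13, 8), (13, 12, 0), 12)]
  tr := tr14
  big := 1048576

theorem ct14_valid : validC ct14 = true := by decide +kernel

theorem ct14_const : constOK ct14 5185 = true := by decide +kernel

/-- classes -/
def cs14 : List Cl := [
 cl 0 1 0 1 6590 0 177, cl 0 2 0 0 347 0 137, cl 1 0 0 0 7970 0 119, cl 1 1 0 1 0 704 159,
 cl 1 2 0 0 32 0 423, cl 2 0 0 0 234 0 84, cl 2 1 0 1 0 34 97, cl 2 2 0 0 0 0 119,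
 cl 1 0 0 2 420 0 112, cl 0 0 0 2 0 1989 168, cl 1 0 1 1 7208 0 101, cl 2 0 1 1 0 932 77,
 cl 2 0 0 2 0 0 83, cl 1 0 1 3 0 32 95, cl 1 0 2 0 0 1382 90, cl 2 0 2 0 0 0 72,
 cl 1 0 2 2 0 1428 88, cl 0 1 0 3 0 462 130, cl 0 2 0 2 158 0 125, cl 1 1 0 3 0 48 125,
 cl 1 2 0 2 20 0 168, cl 0 0 0 4 0 12 119]

theorem ct14_link : linkOK ct14 cs14 = true := by decide +kernel

theorem cs14_tail : tailOK cs14 48 16 32 5185 = true := by decide +kernel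

theorem cs14_grid : gridOK vtTree cs14 48 16 32 16 0 11388148864 6005 5185 = true := by
  decide +kernel

/-! ### Box 15: `48 ≤ -128 x ≤ 64`, `48 ≤ 128 y ≤ 64` -/

/-- certificate -/
def ct15 : Cert where
  pts := pts14
  g := 2587
  al := [(0, -389), (1, 0), (2, 0), (3, 1208), (4, 416), (5, -46), (6, -46), (7, -674), (8, -239), (9, 213), (10, 213), (11, -170), (12, 200), (13, 200)]
  be := [
    (1, 0, 766), (2, 0, 766), (2, 1, -789), (3, 0, -112), (3, 1, -282), (3, 2, -282), (4, 0, 1110),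
    (4, 1, 942), (4, 2, 942), (4, 3, -1349), (5, 0, -81), (5, 1, 1757), (5, 2, -398), (5, 3, 751),
    (5, 4, 862), (6, 0, -81), (6, 1, -398), (6, 2, 1757), (6, 3, 751), (6, 4, 862), (6, 5, -618),
    (7, 0, 72), (7, 1, 301), (7, 2, 301), (7, 3, 1862), (7, 4, -71), (7, 5, 750), (7, 6, 750),
    (8, 0, 421), (8, 1, 62), (8, 2, 62), (8, 4, 1836), (8, 5, 634), (8, 6, 634), (8, 7, -864),
    (9, 1, -63), (9, 3, -511), (9, 4, -415), (9, 5, -242), (9, 6, -52), (9, 7, 838), (9, 8, 516),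
    (10, 2, -63), (10, 3, -511), (10, 4, -415), (10, 5, -52), (10, 6, -242), (10, 7, 838), (10, 8, 516),
    (10, 9, -96), (11, 3, 325), (11, 4, -5), (11, 5, 147), (11, 6, 147), (11, 7, 763), (11, 8, 145),
    (11, 9, 280), (11, 10, 280), (12, 0, 87), (12, 1, -69), (12, 3, -520), (12, 4, -394), (12, 5, 21),
    (12, 6, -21), (12, 7, 319), (12, 8, 331), (12, 9, -622), (12, 10, -65), (13, 0, 87), (13, 2, -69),
    (13, 3, -520), (13, 4, -394), (13, 5, -21), (13, 6, 21), (13, 7, 319), (13, 8, 331), (13, 9, -65),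
    (13, 10, -622)]
  ta := [
    ((3, 2, 1), (0, 1, 2), 305), ((4, 5, 6), (0, 1, 2), -584), ((7, 6, 5), (0, 1, 2), -82), ((8, 9, 10), (0, 1, 2), 38),
    ((11, 10, 9), (0, 1, 2), 54), ((5, 4, 12), (0, 1, 2), 15), ((6, 13, 4), (0, 1, 2), 15), ((3, 2, 0), (0, 1, 3), -116),
    ((4, 5, 7), (0, 1, 3), 285), ((7, 6, 4), (0, 1, 3), 285), ((8, 9, 11), (0, 1, 3), -169), ((11, 10, 8), (0, 1, 3), -169),
    ((6, 5, 3), (1, 2, 4), 112), ((5, 6, 8), (1, 2, 4), -556), ((10, 9, 7), (1, 2, 4), -80), ((4, 12, 1), (1, 2, 4), 117),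
    ((13, 4, 2), (1, 2, 4), 117), ((7, 4, 3), (0, 3, 4), 98), ((4, 7, 8), (0, 3, 4), -208), ((11, 8, 7), (0, 3, 4), 85),
    ((6, 4, 3), (1, 3, 4), 77), ((5, 7, 8), (1, 3, 4), -174), ((10, 8, 7), (1, 3, 4), -72), ((5, 4, 3), (2, 3, 4), 77),
    ((6, 7, 8), (2, 3, 4), -174), ((9, 8, 7), (2, 3, 4), -72), ((5, 4, 0), (0, 1, 5), -565), ((2, 3, 7), (0, 1, 5), -308),
    ((7, 6, 2), (0, 1, 5), -172), ((4, 5, 9), (0, 1, 5), 427), ((9, 8, 4), (0, 1, 5), -167), ((6, 7, 11), (0, 1, 5), -404),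
    ((11, 10, 6), (0, 1, 5), -319), ((13, 6, 10), (0, 1, 5), 1851), ((7, 5, 2), (0, 2, 5), 30), ((4, 6, 9), (0, 2, 5), 107),
    ((11, 9, 6), (0, 2, 5), -28), ((5, 12, 0), (0, 2, 5), -13), ((10, 8, 13), (0, 2, 5), 119), ((6, 5, 2), (1, 2, 5), -139),
    ((5, 6, 9), (1, 2, 5), -155), ((10, 9, 6), (1, 2, 5), 2), ((4, 12, 0), (1, 2, 5), -54), ((4, 13, 8), (1, 2, 5), 104),
    ((7, 4, 2), (0, 3, 5), -310), ((4, 7, 9), (0, 3, 5), 117), ((11, 8, 6), (0, 3, 5), 16), ((5, 4, 2), (2, 3, 5), -256),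
    ((6, 7, 9), (2, 3, 5), -290), ((9, 8, 6), (2, 3, 5), -226), ((0, 1, 12), (2, 3, 5), -182), ((13, 6, 8), (2, 3, 5), 749),
    ((7, 6, 1), (0, 1, 6), 30), ((4, 5, 10), (0, 1, 6), 107), ((11, 10, 5), (0, 1, 6), -28), ((9, 8, 12), (0, 1, 6), 119),
    ((6, 13, 0), (0, 1, 6), -13), ((6, 4, 0), (0, 2, 6), -565), ((1, 3, 7), (0, 2, 6), -308), ((7, 5, 1), (0, 2, 6), -172),
    ((4, 6, 10), (0, 2, 6), 427), ((10, 8, 4), (0, 2, 6), -167), ((5, 7, 11), (0, 2, 6), -404), ((11, 9, 5), (0, 2, 6), -319),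
    ((12, 5, 9), (0, 2, 6), 1851), ((6, 5, 1), (1, 2, 6), -139), ((5, 6, 10), (1, 2, 6), -155), ((10, 9, 5), (1, 2, 6), 2),
    ((12, 4, 8), (1, 2, 6), 104), ((13, 4, 0), (1, 2, 6), -54), ((7, 4, 1), (0, 3, 6), -310), ((4, 7, 10), (0, 3, 6), 117),
    ((11, 8, 5), (0, 3, 6), 16), ((6, 4, 1), (1, 3, 6), -256), ((5, 7, 10), (1, 3, 6), -290), ((10, 8, 5), (1, 3, 6), -226),
    ((12, 5, 8), (1, 3, 6), 749), ((0, 2, 13), (1, 3, 6), -182), ((1, 2, 7), (6, 5, 0), -75), ((10, 9, 4), (6, 5, 0), -60),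
    ((5, 6, 11), (6, 5, 0), 108), ((12, 4, 9), (6, 5, 0), 9), ((4, 13, 10), (6, 5, 0), 9), ((7, 6, 0), (0, 1, 7), 366),
    ((4, 5, 11), (0, 1, 7), 98), ((11, 10, 4), (0, 1, 7), -62), ((7, 5, 0), (0, 2, 7), 366), ((4, 6, 11), (0, 2, 7), 98),
    ((11, 9, 4), (0, 2, 7), -62), ((7, 4, 0), (0, 3, 7), -207), ((4, 7, 11), (0, 3, 7), 79), ((11, 8, 4), (0, 3, 7), -48),
    ((9, 8, 1), (0, 1, 8), -176), ((2, 3, 10), (0, 1, 8), 253), ((11, 10, 3), (0, 1, 8), 69), ((1, 3, 9), (0, 2, 8), 253),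
    ((10, 8, 2), (0, 2, 8), -176), ((11, 9, 3), (0, 2, 8), 69), ((10, 9, 3), (1, 2, 8), -5), ((11, 8, 3), (0, 3, 8), -74),
    ((10, 8, 3), (1, 3, 8), 83), ((9, 8, 3), (2, 3, 8), 83), ((1, 5, 9), (0, 4, 8), 850), ((2, 6, 10), (0, 4, 8), 850),
    ((3, 7, 11), (0, 4, 8), -729), ((8, 5, 1), (1, 4, 8), 89), ((3, 6, 10), (1, 4, 8), 781), ((10, 7, 3), (1, 4, 8), -355),
    ((8, 6, 2), (2, 4, 8), 89), ((3, 5, 9), (2, 4, 8), 781), ((9, 7, 3), (2, 4, 8), -355), ((8, 7, 3), (3, 4, 8), -135),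
    ((1, 4, 9), (8, 5, 0), 174), ((10, 7, 2), (8, 5, 0), 49), ((3, 6, 11), (8, 5, 0), -329), ((2, 13, 10), (8, 5, 0), 240),
    ((9, 6, 3), (2, 5, 8), 42), ((8, 13, 2), (2, 5, 8), -232), ((9, 7, 1), (8, 6, 0), 49), ((2, 4, 10), (8, 6, 0), 174),
    ((3, 5, 11), (8, 6, 0), -329), ((1, 12, 9), (8, 6, 0), 240), ((3, 5, 10), (8, 6, 1), 42), ((1, 12, 8), (8, 6, 1), -232),
    ((3, 4, 11), (8, 7, 0), -32), ((3, 4, 10), (8, 7, 1), -82), ((3, 4, 9), (8, 7, 2), -82), ((9, 8, 0), (0, 1, 9), -75),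
    ((2, 3, 11), (0, 1, 9), 3), ((11, 10, 2), (0, 1, 9), 66), ((11, 9, 2), (0, 2, 9), 9), ((10, 9, 2), (1, 2, 9), -45),
    ((11, 8, 2), (0, 3, 9), -53), ((9, 8, 2), (2, 3, 9), -73), ((9, 5, 0), (0, 4, 9), -3), ((2, 6, 11), (0, 4, 9), -177),
    ((11, 7, 2), (0, 4, 9), 9), ((9, 7, 2), (2, 4, 9), 8), ((9, 6, 2), (2, 5, 9), -50), ((2, 5, 11), (9, 6, 0), -16),
    ((0, 12, 9), (9, 6, 0), 26), ((2, 5, 10), (9, 6, 1), 74), ((0, 12, 8), (9, 6, 1), -74), ((8, 13, 0), (9, 6, 1), -74),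
    ((11, 10, 1), (0, 1, 10), 9), ((10, 8, 0), (0, 2, 10), -75), ((1, 3, 11), (0, 2, 10), 3), ((11, 9, 1), (0, 2, 10), 66),
    ((10, 9, 1), (1, 2, 10), -45), ((11, 8, 1), (0, 3, 10), -53), ((10, 8, 1), (1, 3, 10), -73), ((10, 6, 0), (0, 4, 10), -3),
    ((1, 5, 11), (0, 4, 10), -177), ((11, 7, 1), (0, 4, 10), 9), ((10, 7, 1), (1, 4, 10), 8), ((11, 6, 1), (0, 5, 10), -16),
    ((10, 13, 0), (0, 5, 10), 26), ((10, 6, 1), (1, 5, 10), 50), ((1, 2, 11), (10, 9, 0), 84), ((11, 10, 0), (0, 1, 11), 6),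
    ((11, 9, 0), (0, 2, 11), 6), ((11, 7, 0), (0, 4, 11), 6), ((5, 12, 2), (0, 2, 12), 142), ((4, 12, 2), (1, 2, 12), -199),
    ((5, 12, 3), (1, 3, 12), -504), ((12, 6, 9), (6, 12, 0), -36), ((12, 6, 8), (6, 12, 1), -183), ((6, 5, 12), (12, 4, 6), -72),
    ((12, 7, 9), (7, 12, 1), 159), ((10, 9, 12), (12, 4, 10), 9), ((10, 8, 12), (12, 5, 10), 31), ((11, 9, 12), (12, 5, 11), 212),
    ((6, 13, 1), (0, 1, 13), 142), ((13, 4, 1), (1, 2, 13), -199), ((6, 13, 3), (2, 3, 13), -504), ((5, 13, 10), (13, 5, 0), -36),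
    ((5, 13, 8), (13, 5, 2), -183), ((6, 13, 5), (4, 5, 13), -72), ((13, 7, 10), (7, 13, 2), 159), ((10, 9, 13), (4, 13, 9), 9),
    ((9, 8, 13), (13, 6, 9), 31), ((11, 10, 13), (13, 6, 11), 212), ((12, 13, 8), (13, 12, 0), -30)]
  tr := tr14
  big := 1048576

theorem ct15_valid : validC ct15 = true := by decide +kernel

theorem ct15_const : constOK ct15 5311 = true := by decide +kernel

/-- classes -/
def cs15 : List Cl := [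
 cl 0 1 0 1 5826 0 163, cl 0 2 0 0 0 38 137, cl 1 0 0 0 8601 0 119, cl 1 1 0 1 0 1340 150,
 cl 1 2 0 0 67 0 423, cl 2 0 0 0 620 0 84, cl 2 1 0 1 0 0 96, cl 2 2 0 0 0 0 119,
 cl 1 0 0 2 0 64 106, cl 0 0 0 2 0 2291 137, cl 1 0 1 1 6192 0 100, cl 2 0 1 1 0 898 77,
 cl 2 0 0 2 0 0 82, cl 1 0 1 3 0 0 89, cl 1 0 2 0 0 2213 90, cl 2 0 2 0 0 0 72,
 cl 1 0 2 2 0 1040 86, cl 0 1 0 3 0 42 109, cl 0 2 0 2 638 0 115, cl 1 1 0 3 0 130 107,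
 cl 1 2 0 2 0 0 137, cl 0 0 0 4 0 0 97]

theorem ct15_link : linkOK ct15 cs15 = true := by decide +kernel

theorem cs15_tail : tailOK cs15 48 16 48 5311 = true := by decide +kernel

theorem cs15_grid : gridOK vtTree cs15 48 16 48 16 0 9091589024 5772 5311 = true := by
  decide +kernel

end Pool.Agent.H79.OC
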