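import Pool.Agent.H79.OC.Pts
import Pool.Agent.H79.OC.VTab

set_option autoImplicit false
set_option maxRecDepth 100000

/-!
# Certificates, part 9
-/

namespace Pool.Agent.H79.OC

open Cl

/-! ### Box 16: `48 ≤ -128 x ≤ 64`, `64 ≤ 128 y ≤ 80` -/

/-- certificate -/
def ct16 : Cert where
  pts := pts14
  g := 3740
  al := [(0, -36), (1, -35), (2, -35), (3, 2479), (4, 303), (5, 475), (6, 475), (7, -753), (8, 591), (9, 268), (10, 268), (11, 208), (12, 265), (13, 265)]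
  be := [
    (1, 0, 545), (2, 0, 545), (2, 1, -935), (3, 0, -615), (3, 1, -470), (3, 2, -470), (4, 0, 723),
    (4, 1, 940), (4, 2, 940), (4, 3, -1837), (5, 0, -69), (5, 1, 1934), (5, 2, -448), (5, 3, 252),
    (5, 4, 996), (6, 0, -69), (6, 1, -448), (6, 2, 1934), (6, 3, 252), (6, 4, 996), (6, 5, -966),
    (7, 0, 36), (7, 1, 590), (7, 2, 590), (7, 3, 1364), (7, 4, 687), (7, 5, 714), (7, 6, 714),
    (8, 0, 433), (8, 1, -191), (8, 2, -191), (8, 3, -497), (8, 4, 2086), (8, 5, 403), (8, 6, 403),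
    (8, 7, -894), (9, 0, 96), (9, 1, 234), (9, 3, -334), (9, 4, -214), (9, 5, -21), (9, 6, -57),
    (9, 7, 851), (9, 8, 560), (10, 0, 96), (10, 2, 234), (10, 3, -334), (10, 4, -214), (10, 5, -57),
    (10, 6, -21), (10, 7, 851), (10, 8, 560), (10, 9, -515), (11, 1, -71), (11, 2, -71), (11, 3, -146),
    (11, 4, -9), (11, 5, -150), (11, 6, -150), (11, 7, 701), (11, 8, -72), (11, 9, 201), (11, 10, 201),
    (12, 0, -38), (12, 1, 134), (12, 2, 105), (12, 3, -510), (12, 4, -143), (12, 5, -169), (12, 7, 306),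
    (12, 8, 334), (12, 9, -808), (12, 10, -4), (13, 0, -38), (13, 1, 105), (13, 2, 134), (13, 3, -510),
    (13, 4, -143), (13, 6, -169), (13, 7, 306), (13, 8, 334), (13, 9, -4), (13, 10, -808)]
  ta := [
    ((3, 2, 1), (0, 1, 2), 395), ((4, 5, 6), (0, 1, 2), -209), ((7, 6, 5), (0, 1, 2), -158), ((8, 9, 10), (0, 1, 2), 55),
    ((11, 10, 9), (0, 1, 2), 15), ((5, 4, 12), (0, 1, 2), -207), ((6, 13, 4), (0, 1, 2), -207), ((3, 2, 0), (0, 1, 3), 132),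
    ((4, 5, 7), (0, 1, 3), 64), ((7, 6, 4), (0, 1, 3), 64), ((8, 9, 11), (0, 1, 3), -196), ((11, 10, 8), (0, 1, 3), -196),
    ((6, 5, 3), (1, 2, 4), 243), ((5, 6, 8), (1, 2, 4), -378), ((10, 9, 7), (1, 2, 4), 31), ((4, 12, 1), (1, 2, 4), -79),
    ((13, 4, 2), (1, 2, 4), -79), ((7, 4, 3), (0, 3, 4), 178), ((4, 7, 8), (0, 3, 4), -401), ((11, 8, 7), (0, 3, 4), -73),
    ((6, 4, 3), (1, 3, 4), 77), ((5, 7, 8), (1, 3, 4), -125), ((10, 8, 7), (1, 3, 4), -207), ((5, 4, 3), (2, 3, 4), 77),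
    ((6, 7, 8), (2, 3, 4), -125), ((9, 8, 7), (2, 3, 4), -207), ((5, 4, 0), (0, 1, 5), -379), ((2, 3, 7), (0, 1, 5), -411),
    ((7, 6, 2), (0, 1, 5), -263), ((4, 5, 9), (0, 1, 5), 485), ((9, 8, 4), (0, 1, 5), -407), ((6, 7, 11), (0, 1, 5), -139),
    ((11, 10, 6), (0, 1, 5), -213), ((13, 6, 10), (0, 1, 5), 1827), ((7, 5, 2), (0, 2, 5), -65), ((4, 6, 9), (0, 2, 5), -106),
    ((11, 9, 6), (0, 2, 5), 29), ((5, 12, 0), (0, 2, 5), 58), ((10, 8, 13), (0, 2, 5), 189), ((6, 5, 2), (1, 2, 5), 19),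
    ((5, 6, 9), (1, 2, 5), -305), ((10, 9, 6), (1, 2, 5), 75), ((4, 12, 0), (1, 2, 5), 50), ((4, 13, 8), (1, 2, 5), -242),
    ((7, 4, 2), (0, 3, 5), -410), ((4, 7, 9), (0, 3, 5), 48), ((11, 8, 6), (0, 3, 5), 31), ((5, 4, 2), (2, 3, 5), -53),
    ((6, 7, 9), (2, 3, 5), -7), ((9, 8, 6), (2, 3, 5), -532), ((0, 1, 12), (2, 3, 5), -123), ((13, 6, 8), (2, 3, 5), 532),
    ((7, 6, 1), (0, 1, 6), -65), ((4, 5, 10), (0, 1, 6), -106), ((11, 10, 5), (0, 1, 6), 29), ((9, 8, 12), (0, 1, 6), 189),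
    ((6, 13, 0), (0, 1, 6), 58), ((6, 4, 0), (0, 2, 6), -379), ((1, 3, 7), (0, 2, 6), -411), ((7, 5, 1), (0, 2, 6), -263),
    ((4, 6, 10), (0, 2, 6), 485), ((10, 8, 4), (0, 2, 6), -407), ((5, 7, 11), (0, 2, 6), -139), ((11, 9, 5), (0, 2, 6), -213),
    ((12, 5, 9), (0, 2, 6), 1827), ((6, 5, 1), (1, 2, 6), 19), ((5, 6, 10), (1, 2, 6), -305), ((10, 9, 5), (1, 2, 6), 75),
    ((12, 4, 8), (1, 2, 6), -242), ((13, 4, 0), (1, 2, 6), 50), ((7, 4, 1), (0, 3, 6), -410), ((4, 7, 10), (0, 3, 6), 48),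
    ((11, 8, 5), (0, 3, 6), 31), ((6, 4, 1), (1, 3, 6), -53), ((5, 7, 10), (1, 3, 6), -7), ((10, 8, 5), (1, 3, 6), -532),
    ((12, 5, 8), (1, 3, 6), 532), ((0, 2, 13), (1, 3, 6), -123), ((1, 2, 7), (6, 5, 0), -116), ((10, 9, 4), (6, 5, 0), 187),
    ((5, 6, 11), (6, 5, 0), -2), ((12, 4, 9), (6, 5, 0), 106), ((4, 13, 10), (6, 5, 0), 106), ((7, 6, 0), (0, 1, 7), 383),
    ((4, 5, 11), (0, 1, 7), 26), ((11, 10, 4), (0, 1, 7), -44), ((7, 5, 0), (0, 2, 7), 383), ((4, 6, 11), (0, 2, 7), 26),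
    ((11, 9, 4), (0, 2, 7), -44), ((7, 4, 0), (0, 3, 7), -276), ((4, 7, 11), (0, 3, 7), -74), ((11, 8, 4), (0, 3, 7), -70),
    ((9, 8, 1), (0, 1, 8), -139), ((2, 3, 10), (0, 1, 8), 256), ((11, 10, 3), (0, 1, 8), -11), ((1, 3, 9), (0, 2, 8), 256),
    ((10, 8, 2), (0, 2, 8), -139), ((11, 9, 3), (0, 2, 8), -11), ((10, 9, 3), (1, 2, 8), -41), ((11, 8, 3), (0, 3, 8), 57),
    ((10, 8, 3), (1, 3, 8), 16), ((9, 8, 3), (2, 3, 8), 16), ((1, 5, 9), (0, 4, 8), 511), ((2, 6, 10), (0, 4, 8), 511),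
    ((3, 7, 11), (0, 4, 8), -244), ((8, 5, 1), (1, 4, 8), 8), ((3, 6, 10), (1, 4, 8), 439), ((10, 7, 3), (1, 4, 8), -214),
    ((8, 6, 2), (2, 4, 8), 8), ((3, 5, 9), (2, 4, 8), 439), ((9, 7, 3), (2, 4, 8), -214), ((8, 7, 3), (3, 4, 8), -108),
    ((1, 4, 9), (8, 5, 0), -39), ((10, 7, 2), (8, 5, 0), -273), ((3, 6, 11), (8, 5, 0), 96), ((2, 13, 10), (8, 5, 0), 198),
    ((9, 6, 3), (2, 5, 8), 60), ((8, 13, 2), (2, 5, 8), -181), ((9, 7, 1), (8, 6, 0), -273), ((2, 4, 10), (8, 6, 0), -39),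
    ((3, 5, 11), (8, 6, 0), 96), ((1, 12, 9), (8, 6, 0), 198), ((3, 5, 10), (8, 6, 1), 60), ((1, 12, 8), (8, 6, 1), -181),
    ((3, 4, 11), (8, 7, 0), 41), ((3, 4, 10), (8, 7, 1), -94), ((3, 4, 9), (8, 7, 2), -94), ((9, 8, 0), (0, 1, 9), -44),
    ((2, 3, 11), (0, 1, 9), 20), ((11, 10, 2), (0, 1, 9), 23), ((11, 9, 2), (0, 2, 9), 17), ((10, 9, 2), (1, 2, 9), 10),
    ((11, 8, 2), (0, 3, 9), 52), ((9, 8, 2), (2, 3, 9), -73), ((9, 5, 0), (0, 4, 9), 128), ((2, 6, 11), (0, 4, 9), -15),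
    ((11, 7, 2), (0, 4, 9), -141), ((9, 7, 2), (2, 4, 9), -135), ((9, 6, 2), (2, 5, 9), 121), ((2, 5, 11), (9, 6, 0), 50),
    ((0, 12, 9), (9, 6, 0), 9), ((2, 5, 10), (9, 6, 1), 21), ((0, 12, 8), (9, 6, 1), -21), ((8, 13, 0), (9, 6, 1), -21),
    ((2, 4, 11), (9, 7, 0), -16), ((11, 10, 1), (0, 1, 10), 17), ((10, 8, 0), (0, 2, 10), -44), ((1, 3, 11), (0, 2, 10), 20),
    ((11, 9, 1), (0, 2, 10), 23), ((10, 9, 1), (1, 2, 10), 10), ((11, 8, 1), (0, 3, 10), 52), ((10, 8, 1), (1, 3, 10), -73),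
    ((10, 6, 0), (0, 4, 10), 128), ((1, 5, 11), (0, 4, 10), -15), ((11, 7, 1), (0, 4, 10), -141), ((10, 7, 1), (1, 4, 10), -135),
    ((11, 6, 1), (0, 5, 10), 50), ((10, 13, 0), (0, 5, 10), 9), ((10, 6, 1), (1, 5, 10), -121), ((1, 4, 11), (10, 7, 0), -16),
    ((1, 2, 11), (10, 9, 0), 35), ((11, 10, 0), (0, 1, 11), 22), ((11, 9, 0), (0, 2, 11), 22), ((11, 8, 0), (0, 3, 11), -34),
    ((11, 7, 0), (0, 4, 11), 57), ((5, 12, 2), (0, 2, 12), 239), ((4, 12, 2), (1, 2, 12), -274), ((5, 12, 3), (1, 3, 12), -430),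
    ((12, 6, 8), (6, 12, 1), -158), ((6, 5, 12), (12, 4, 6), 137), ((12, 7, 9), (7, 12, 1), 162), ((10, 9, 12), (12, 4, 10), 113),
    ((10, 8, 12), (12, 5, 10), 4), ((11, 9, 12), (12, 5, 11), 121), ((6, 13, 1), (0, 1, 13), 239), ((13, 4, 1), (1, 2, 13), -274),
    ((6, 13, 3), (2, 3, 13), -430), ((5, 13, 8), (13, 5, 2), -158), ((6, 13, 5), (4, 5, 13), 137), ((13, 7, 10), (7, 13, 2), 162),
    ((10, 9, 13), (4, 13, 9), 113), ((9, 8, 13), (13, 6, 9), 4), ((11, 10, 13), (13, 6, 11), 121)]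
  tr := tr14
  big := 1048576

theorem ct16_valid : validC ct16 = true := by decide +kernel

theorem ct16_const : constOK ct16 5055 = true := by decide +kernel

/-- classes -/
def cs16 : List Cl := [
 cl 0 1 0 1 4754 0 150, cl 0 2 0 0 0 0 137, cl 1 0 0 0 8700 0 119, cl 1 1 0 1 0 1302 141,
 cl 1 2 0 0 27 0 423, cl 2 0 0 0 755 0 84, cl 2 1 0 1 50 0 95, cl 2 2 0 0 0 0 119,
 cl 1 0 0 2 0 418 100, cl 0 0 0 2 0 2702 119, cl 1 0 1 1 5160 0 98, cl 2 0 1 1 0 1050 76,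
 cl 2 0 0 2 0 0 80, cl 1 0 1 3 210 0 83, cl 1 0 2 0 0 2731 90, cl 2 0 2 0 0 497 72,
 cl 1 0 2 2 0 1020 84, cl 0 1 0 3 0 0 96, cl 0 2 0 2 612 0 106, cl 1 1 0 3 0 8 95,
 cl 1 2 0 2 0 0 119, cl 0 0 0 4 0 0 84]

theorem ct16_link : linkOK ct16 cs16 = true := by decide +kernel

theorem cs16_tail : tailOK cs16 48 16 64 5055 = true := by decide +kernel

theorem cs16_grid : gridOK vtTree cs16 48 16 64 16 0 5860959008 5961 5055 = true := by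
  decide +kernel

/-! ### Box 17: `48 ≤ -128 x ≤ 64`, `80 ≤ 128 y ≤ 96` -/

/-- certificate -/
def ct17 : Cert where
  pts := pts14
  g := 3641
  al := [(0, -676), (1, 38), (2, 38), (3, 1504), (4, 653), (5, 566), (6, 566), (7, 149), (8, 278), (9, 212), (10, 212), (11, -706), (12, 522), (13, 522)]
  be := [
    (1, 0, 946), (2, 0, 946), (2, 1, -330), (3, 0, 343), (3, 1, -245), (3, 2, -245), (4, 0, 1506),
    (4, 1, 1121), (4, 2, 1121), (4, 3, -1361), (5, 0, 130), (5, 1, 1822), (5, 2, -13), (5, 3, 904),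
    (5, 4, 373), (6, 0, 130), (6, 1, -13), (6, 2, 1822), (6, 3, 904), (6, 4, 373), (6, 5, -1134),
    (7, 0, 244), (7, 1, -157), (7, 2, -157), (7, 3, 1423), (7, 4, -1036), (7, 5, 339), (7, 6, 339),
    (8, 0, 312), (8, 1, -9), (8, 2, -9), (8, 4, 1215), (8, 5, 166), (8, 6, 166), (8, 7, -887),
    (9, 0, -15), (9, 1, -73), (9, 3, -598), (9, 4, -94), (9, 5, -411), (9, 6, 23), (9, 7, 1170),
    (9, 8, 353), (10, 0, -15), (10, 2, -73), (10, 3, -598), (10, 4, -94), (10, 5, 23), (10, 6, -411),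
    (10, 7, 1170), (10, 8, 353), (10, 9, -258), (11, 1, 15), (11, 2, 15), (11, 3, 576), (11, 4, 229),
    (11, 5, -40), (11, 6, -40), (11, 7, 1509), (11, 8, 378), (11, 9, 758), (11, 10, 758), (12, 0, -69),
    (12, 1, -278), (12, 2, -24), (12, 3, -682), (12, 4, -421), (12, 5, -85), (12, 7, 48), (12, 8, 109),
    (12, 9, -473), (12, 10, -24), (13, 0, -69), (13, 1, -24), (13, 2, -278), (13, 3, -682), (13, 4, -421),
    (13, 6, -85), (13, 7, 48), (13, 8, 109), (13, 9, -24), (13, 10, -473)]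
  ta := [
    ((3, 2, 1), (0, 1, 2), 219), ((4, 5, 6), (0, 1, 2), -158), ((7, 6, 5), (0, 1, 2), -28), ((8, 9, 10), (0, 1, 2), 226),
    ((11, 10, 9), (0, 1, 2), -183), ((5, 4, 12), (0, 1, 2), 32), ((6, 13, 4), (0, 1, 2), 32), ((3, 2, 0), (0, 1, 3), -423),
    ((4, 5, 7), (0, 1, 3), 988), ((7, 6, 4), (0, 1, 3), 988), ((8, 9, 11), (0, 1, 3), -565), ((11, 10, 8), (0, 1, 3), -565),
    ((6, 5, 3), (1, 2, 4), -44), ((5, 6, 8), (1, 2, 4), -239), ((10, 9, 7), (1, 2, 4), -36), ((4, 12, 1), (1, 2, 4), 113),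
    ((13, 4, 2), (1, 2, 4), 113), ((7, 4, 3), (0, 3, 4), 357), ((4, 7, 8), (0, 3, 4), 180), ((11, 8, 7), (0, 3, 4), -327),
    ((6, 4, 3), (1, 3, 4), 175), ((5, 7, 8), (1, 3, 4), 169), ((10, 8, 7), (1, 3, 4), -268), ((5, 4, 3), (2, 3, 4), 175),
    ((6, 7, 8), (2, 3, 4), 169), ((9, 8, 7), (2, 3, 4), -268), ((5, 4, 0), (0, 1, 5), -428), ((2, 3, 7), (0, 1, 5), 25),
    ((7, 6, 2), (0, 1, 5), -151), ((4, 5, 9), (0, 1, 5), 101), ((9, 8, 4), (0, 1, 5), 58), ((6, 7, 11), (0, 1, 5), -351),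
    ((11, 10, 6), (0, 1, 5), -459), ((13, 6, 10), (0, 1, 5), 1817), ((7, 5, 2), (0, 2, 5), 223), ((4, 6, 9), (0, 2, 5), 222),
    ((11, 9, 6), (0, 2, 5), -96), ((5, 12, 0), (0, 2, 5), -61), ((10, 8, 13), (0, 2, 5), -127), ((6, 5, 2), (1, 2, 5), -368),
    ((5, 6, 9), (1, 2, 5), -274), ((10, 9, 6), (1, 2, 5), 146), ((4, 12, 0), (1, 2, 5), 81), ((4, 13, 8), (1, 2, 5), 274),
    ((7, 4, 2), (0, 3, 5), 115), ((4, 7, 9), (0, 3, 5), 109), ((11, 8, 6), (0, 3, 5), -39), ((5, 4, 2), (2, 3, 5), -393),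
    ((6, 7, 9), (2, 3, 5), -474), ((9, 8, 6), (2, 3, 5), 62), ((0, 1, 12), (2, 3, 5), -170), ((13, 6, 8), (2, 3, 5), 907),
    ((7, 6, 1), (0, 1, 6), 223), ((4, 5, 10), (0, 1, 6), 222), ((11, 10, 5), (0, 1, 6), -96), ((9, 8, 12), (0, 1, 6), -127),
    ((6, 13, 0), (0, 1, 6), -61), ((6, 4, 0), (0, 2, 6), -428), ((1, 3, 7), (0, 2, 6), 25), ((7, 5, 1), (0, 2, 6), -151),
    ((4, 6, 10), (0, 2, 6), 101), ((10, 8, 4), (0, 2, 6), 58), ((5, 7, 11), (0, 2, 6), -351), ((11, 9, 5), (0, 2, 6), -459),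
    ((12, 5, 9), (0, 2, 6), 1817), ((6, 5, 1), (1, 2, 6), -368), ((5, 6, 10), (1, 2, 6), -274), ((10, 9, 5), (1, 2, 6), 146),
    ((12, 4, 8), (1, 2, 6), 274), ((13, 4, 0), (1, 2, 6), 81), ((7, 4, 1), (0, 3, 6), 115), ((4, 7, 10), (0, 3, 6), 109),
    ((11, 8, 5), (0, 3, 6), -39), ((6, 4, 1), (1, 3, 6), -393), ((5, 7, 10), (1, 3, 6), -474), ((10, 8, 5), (1, 3, 6), 62),
    ((12, 5, 8), (1, 3, 6), 907), ((0, 2, 13), (1, 3, 6), -170), ((1, 2, 7), (6, 5, 0), -30), ((10, 9, 4), (6, 5, 0), -112),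
    ((5, 6, 11), (6, 5, 0), 84), ((12, 4, 9), (6, 5, 0), 20), ((4, 13, 10), (6, 5, 0), 20), ((7, 6, 0), (0, 1, 7), -120),
    ((4, 5, 11), (0, 1, 7), -18), ((11, 10, 4), (0, 1, 7), 74), ((7, 5, 0), (0, 2, 7), -120), ((4, 6, 11), (0, 2, 7), -18),
    ((11, 9, 4), (0, 2, 7), 74), ((7, 4, 0), (0, 3, 7), 84), ((4, 7, 11), (0, 3, 7), 22), ((11, 8, 4), (0, 3, 7), -11),
    ((9, 8, 1), (0, 1, 8), -38), ((2, 3, 10), (0, 1, 8), 290), ((11, 10, 3), (0, 1, 8), -95), ((1, 3, 9), (0, 2, 8), 290),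
    ((10, 8, 2), (0, 2, 8), -38), ((11, 9, 3), (0, 2, 8), -95), ((10, 9, 3), (1, 2, 8), 33), ((11, 8, 3), (0, 3, 8), -18),
    ((10, 8, 3), (1, 3, 8), 43), ((9, 8, 3), (2, 3, 8), 43), ((1, 5, 9), (0, 4, 8), 1008), ((2, 6, 10), (0, 4, 8), 1008),
    ((3, 7, 11), (0, 4, 8), -987), ((8, 5, 1), (1, 4, 8), 121), ((3, 6, 10), (1, 4, 8), 831), ((10, 7, 3), (1, 4, 8), -438),
    ((8, 6, 2), (2, 4, 8), 121), ((3, 5, 9), (2, 4, 8), 831), ((9, 7, 3), (2, 4, 8), -438), ((8, 7, 3), (3, 4, 8), -112),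
    ((1, 4, 9), (8, 5, 0), -194), ((10, 7, 2), (8, 5, 0), -91), ((3, 6, 11), (8, 5, 0), -105), ((2, 13, 10), (8, 5, 0), 381),
    ((9, 6, 3), (2, 5, 8), 59), ((8, 13, 2), (2, 5, 8), -143), ((9, 7, 1), (8, 6, 0), -91), ((2, 4, 10), (8, 6, 0), -194),
    ((3, 5, 11), (8, 6, 0), -105), ((1, 12, 9), (8, 6, 0), 381), ((3, 5, 10), (8, 6, 1), 59), ((1, 12, 8), (8, 6, 1), -143),
    ((3, 4, 11), (8, 7, 0), -40), ((3, 4, 10), (8, 7, 1), 24), ((3, 4, 9), (8, 7, 2), 24), ((9, 8, 0), (0, 1, 9), 76),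
    ((2, 3, 11), (0, 1, 9), 30), ((11, 10, 2), (0, 1, 9), -2), ((11, 9, 2), (0, 2, 9), 17), ((10, 9, 2), (1, 2, 9), 2),
    ((11, 8, 2), (0, 3, 9), -37), ((9, 8, 2), (2, 3, 9), -13), ((9, 5, 0), (0, 4, 9), 281), ((2, 6, 11), (0, 4, 9), 222),
    ((11, 7, 2), (0, 4, 9), -227), ((9, 7, 2), (2, 4, 9), 16), ((9, 6, 2), (2, 5, 9), -16), ((2, 5, 11), (9, 6, 0), -5),
    ((0, 12, 9), (9, 6, 0), 64), ((2, 5, 10), (9, 6, 1), -138), ((0, 12, 8), (9, 6, 1), 138), ((8, 13, 0), (9, 6, 1), 138),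
    ((2, 4, 11), (9, 7, 0), 15), ((11, 10, 1), (0, 1, 10), 17), ((10, 8, 0), (0, 2, 10), 76), ((1, 3, 11), (0, 2, 10), 30),
    ((11, 9, 1), (0, 2, 10), -2), ((10, 9, 1), (1, 2, 10), 2), ((11, 8, 1), (0, 3, 10), -37), ((10, 8, 1), (1, 3, 10), -13),
    ((10, 6, 0), (0, 4, 10), 281), ((1, 5, 11), (0, 4, 10), 222), ((11, 7, 1), (0, 4, 10), -227), ((10, 7, 1), (1, 4, 10), 16),
    ((11, 6, 1), (0, 5, 10), -5), ((10, 13, 0), (0, 5, 10), 64), ((10, 6, 1), (1, 5, 10), 16), ((1, 4, 11), (10, 7, 0), 15),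
    ((1, 2, 11), (10, 9, 0), -16), ((11, 8, 0), (0, 3, 11), 4), ((11, 7, 0), (0, 4, 11), -4), ((5, 12, 2), (0, 2, 12), 65),
    ((4, 12, 2), (1, 2, 12), -89), ((5, 12, 3), (1, 3, 12), -682), ((12, 6, 8), (6, 12, 1), -30), ((6, 5, 12), (12, 4, 6), -58),
    ((12, 7, 9), (7, 12, 1), -91), ((10, 8, 12), (12, 5, 10), 24), ((11, 9, 12), (12, 5, 11), 48), ((6, 13, 1), (0, 1, 13), 65),
    ((13, 4, 1), (1, 2, 13), -89), ((6, 13, 3), (2, 3, 13), -682), ((5, 13, 8), (13, 5, 2), -30), ((6, 13, 5), (4, 5, 13), -58),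
    ((13, 7, 10), (7, 13, 2), -91), ((9, 8, 13), (13, 6, 9), 24), ((11, 10, 13), (13, 6, 11), 48)]
  tr := tr14
  big := 1048576

theorem ct17_valid : validC ct17 = true := by decide +kernel

theorem ct17_const : constOK ct17 5052 = true := by decide +kernel

/-- classes -/
def cs17 : List Cl := [
 cl 0 1 0 1 4878 0 139, cl 0 2 0 0 0 315 137, cl 1 0 0 0 8475 0 119, cl 1 1 0 1 0 1268 133,
 cl 1 2 0 0 473 0 423, cl 2 0 0 0 742 0 84, cl 2 1 0 1 0 0 93, cl 2 2 0 0 0 0 119,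
 cl 1 0 0 2 100 0 94, cl 0 0 0 2 0 2564 106, cl 1 0 1 1 6166 0 97, cl 2 0 1 1 0 1214 76,
 cl 2 0 0 2 0 0 78, cl 1 0 1 3 0 48 78, cl 1 0 2 0 0 2248 90, cl 2 0 2 0 0 0 72,
 cl 1 0 2 2 0 1364 81, cl 0 1 0 3 0 0 86, cl 0 2 0 2 96 0 99, cl 1 1 0 3 0 48 85,
 cl 1 2 0 2 0 0 106, cl 0 0 0 4 0 0 75]

theorem ct17_link : linkOK ct17 cs17 = true := by decide +kernel

theorem cs17_tail : tailOK cs17 48 16 80 5052 = true := by decide +kernel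

theorem cs17_grid : gridOK vtTree cs17 48 16 80 16 0 7250710656 5781 5052 = true := by
  decide +kernel

end Pool.Agent.H79.OC
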