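import Pool.Agent.H79.OC.Pts
import Pool.Agent.H79.OC.VTab

set_option autoImplicit false
set_option maxRecDepth 100000

/-!
# Certificates, part 10
-/

namespace Pool.Agent.H79.OC

open Cl

/-! ### Box 18: `48 ≤ -128 x ≤ 64`, `96 ≤ 128 y ≤ 112` -/

/-- certificate -/
def ct18 : Cert where
  pts := pts14
  g := 6497
  al := [(0, 254), (1, 420), (2, 420), (3, 1416), (4, 1736), (5, 2034), (6, 2034), (7, 558), (8, 2408), (9, 839), (10, 839), (11, -134), (12, 440), (13, 440)]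
  be := [
    (1, 0, 849), (2, 0, 849), (2, 1, -1006), (3, 0, 380), (3, 1, 141), (3, 2, 141), (4, 0, 833),
    (4, 1, 981), (4, 2, 981), (4, 3, -1256), (5, 0, -283), (5, 1, 1461), (5, 2, 238), (5, 3, 414),
    (5, 4, 406), (6, 0, -283), (6, 1, 238), (6, 2, 1461), (6, 3, 414), (6, 4, 406), (6, 5, -1601),
    (7, 0, 384), (7, 1, 279), (7, 2, 279), (7, 3, 1199), (7, 4, -587), (7, 5, -333), (7, 6, -333),
    (8, 0, -306), (8, 1, -694), (8, 2, -694), (8, 3, -942), (8, 4, 904), (8, 5, -45), (8, 6, -45),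
    (8, 7, -1446), (9, 0, -234), (9, 1, -88), (9, 2, -379), (9, 3, 24), (9, 4, -292), (9, 5, 306),
    (9, 6, 429), (9, 7, 636), (9, 8, 417), (10, 0, -234), (10, 1, -379), (10, 2, -88), (10, 3, 24),
    (10, 4, -292), (10, 5, 429), (10, 6, 306), (10, 7, 636), (10, 8, 417), (10, 9, -311), (11, 1, 195),
    (11, 2, 195), (11, 3, 565), (11, 4, -78), (11, 5, 117), (11, 6, 117), (11, 7, 847), (11, 8, 207),
    (11, 9, 110), (11, 10, 110), (12, 0, -756), (12, 1, 337), (12, 2, 285), (12, 3, -153), (12, 4, -381),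
    (12, 5, -488), (12, 6, -38), (12, 7, 574), (12, 8, -485), (12, 9, -1064), (12, 10, -88), (13, 0, -756),
    (13, 1, 285), (13, 2, 337), (13, 3, -153), (13, 4, -381), (13, 5, -38), (13, 6, -488), (13, 7, 574),
    (13, 8, -485), (13, 9, -88), (13, 10, -1064), (13, 12, -38)]
  ta := [
    ((3, 2, 1), (0, 1, 2), 184), ((4, 5, 6), (0, 1, 2), -696), ((7, 6, 5), (0, 1, 2), 704), ((8, 9, 10), (0, 1, 2), -103),
    ((11, 10, 9), (0, 1, 2), 101), ((5, 4, 12), (0, 1, 2), -13), ((6, 13, 4), (0, 1, 2), -13), ((3, 2, 0), (0, 1, 3), -409),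
    ((4, 5, 7), (0, 1, 3), 608), ((7, 6, 4), (0, 1, 3), 608), ((8, 9, 11), (0, 1, 3), -199), ((11, 10, 8), (0, 1, 3), -199),
    ((6, 5, 3), (1, 2, 4), 485), ((5, 6, 8), (1, 2, 4), -212), ((10, 9, 7), (1, 2, 4), -136), ((4, 12, 1), (1, 2, 4), -96),
    ((13, 4, 2), (1, 2, 4), -96), ((7, 4, 3), (0, 3, 4), 271), ((4, 7, 8), (0, 3, 4), 82), ((11, 8, 7), (0, 3, 4), 198),
    ((6, 4, 3), (1, 3, 4), 63), ((5, 7, 8), (1, 3, 4), 121), ((10, 8, 7), (1, 3, 4), 34), ((5, 4, 3), (2, 3, 4), 63),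
    ((6, 7, 8), (2, 3, 4), 121), ((9, 8, 7), (2, 3, 4), 34), ((5, 4, 0), (0, 1, 5), -303), ((2, 3, 7), (0, 1, 5), -318),
    ((7, 6, 2), (0, 1, 5), 121), ((4, 5, 9), (0, 1, 5), 242), ((9, 8, 4), (0, 1, 5), -418), ((6, 7, 11), (0, 1, 5), -145),
    ((11, 10, 6), (0, 1, 5), -347), ((13, 6, 10), (0, 1, 5), 1604), ((7, 5, 2), (0, 2, 5), -271), ((4, 6, 9), (0, 2, 5), -142),
    ((11, 9, 6), (0, 2, 5), 19), ((5, 12, 0), (0, 2, 5), 358), ((10, 8, 13), (0, 2, 5), 279), ((6, 5, 2), (1, 2, 5), -494),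
    ((5, 6, 9), (1, 2, 5), -352), ((10, 9, 6), (1, 2, 5), -136), ((4, 12, 0), (1, 2, 5), 658), ((4, 13, 8), (1, 2, 5), 13),
    ((7, 4, 2), (0, 3, 5), -154), ((4, 7, 9), (0, 3, 5), 218), ((11, 8, 6), (0, 3, 5), -121), ((5, 4, 2), (2, 3, 5), -587),
    ((6, 7, 9), (2, 3, 5), -3), ((9, 8, 6), (2, 3, 5), -495), ((0, 1, 12), (2, 3, 5), 115), ((13, 6, 8), (2, 3, 5), 1076),
    ((7, 6, 1), (0, 1, 6), -271), ((4, 5, 10), (0, 1, 6), -142), ((11, 10, 5), (0, 1, 6), 19), ((9, 8, 12), (0, 1, 6), 279),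
    ((6, 13, 0), (0, 1, 6), 358), ((6, 4, 0), (0, 2, 6), -303), ((1, 3, 7), (0, 2, 6), -318), ((7, 5, 1), (0, 2, 6), 121),
    ((4, 6, 10), (0, 2, 6), 242), ((10, 8, 4), (0, 2, 6), -418), ((5, 7, 11), (0, 2, 6), -145), ((11, 9, 5), (0, 2, 6), -347),
    ((12, 5, 9), (0, 2, 6), 1604), ((6, 5, 1), (1, 2, 6), -494), ((5, 6, 10), (1, 2, 6), -352), ((10, 9, 5), (1, 2, 6), -136),
    ((12, 4, 8), (1, 2, 6), 13), ((13, 4, 0), (1, 2, 6), 658), ((7, 4, 1), (0, 3, 6), -154), ((4, 7, 10), (0, 3, 6), 218),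
    ((11, 8, 5), (0, 3, 6), -121), ((6, 4, 1), (1, 3, 6), -587), ((5, 7, 10), (1, 3, 6), -3), ((10, 8, 5), (1, 3, 6), -495),
    ((12, 5, 8), (1, 3, 6), 1076), ((0, 2, 13), (1, 3, 6), 115), ((1, 2, 7), (6, 5, 0), 158), ((10, 9, 4), (6, 5, 0), 205),
    ((5, 6, 11), (6, 5, 0), -51), ((12, 4, 9), (6, 5, 0), -84), ((4, 13, 10), (6, 5, 0), -84), ((7, 6, 0), (0, 1, 7), 100),
    ((4, 5, 11), (0, 1, 7), 87), ((11, 10, 4), (0, 1, 7), 30), ((7, 5, 0), (0, 2, 7), 100), ((4, 6, 11), (0, 2, 7), 87),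
    ((11, 9, 4), (0, 2, 7), 30), ((7, 4, 0), (0, 3, 7), -286), ((4, 7, 11), (0, 3, 7), 178), ((11, 8, 4), (0, 3, 7), -50),
    ((9, 8, 1), (0, 1, 8), -30), ((2, 3, 10), (0, 1, 8), 30), ((11, 10, 3), (0, 1, 8), -22), ((1, 3, 9), (0, 2, 8), 30),
    ((10, 8, 2), (0, 2, 8), -30), ((11, 9, 3), (0, 2, 8), -22), ((10, 9, 3), (1, 2, 8), -222), ((11, 8, 3), (0, 3, 8), 38),
    ((10, 8, 3), (1, 3, 8), -138), ((9, 8, 3), (2, 3, 8), -138), ((1, 5, 9), (0, 4, 8), 493), ((2, 6, 10), (0, 4, 8), 493),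
    ((3, 7, 11), (0, 4, 8), -723), ((8, 5, 1), (1, 4, 8), 56), ((3, 6, 10), (1, 4, 8), -206), ((10, 7, 3), (1, 4, 8), 16),
    ((8, 6, 2), (2, 4, 8), 56), ((3, 5, 9), (2, 4, 8), -206), ((9, 7, 3), (2, 4, 8), 16), ((8, 7, 3), (3, 4, 8), -113),
    ((1, 4, 9), (8, 5, 0), 27), ((10, 7, 2), (8, 5, 0), -83), ((3, 6, 11), (8, 5, 0), -245), ((2, 13, 10), (8, 5, 0), 148),
    ((9, 6, 3), (2, 5, 8), -206), ((8, 13, 2), (2, 5, 8), 153), ((9, 7, 1), (8, 6, 0), -83), ((2, 4, 10), (8, 6, 0), 27),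
    ((3, 5, 11), (8, 6, 0), -245), ((1, 12, 9), (8, 6, 0), 148), ((3, 5, 10), (8, 6, 1), -206), ((1, 12, 8), (8, 6, 1), 153),
    ((3, 4, 11), (8, 7, 0), -12), ((3, 4, 10), (8, 7, 1), -66), ((3, 4, 9), (8, 7, 2), -66), ((9, 8, 0), (0, 1, 9), -49),
    ((2, 3, 11), (0, 1, 9), -43), ((11, 10, 2), (0, 1, 9), 163), ((11, 9, 2), (0, 2, 9), -103), ((10, 9, 2), (1, 2, 9), -77),
    ((11, 8, 2), (0, 3, 9), -90), ((9, 8, 2), (2, 3, 9), -101), ((9, 5, 0), (0, 4, 9), 356), ((2, 6, 11), (0, 4, 9), 32),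
    ((11, 7, 2), (0, 4, 9), -346), ((9, 7, 2), (2, 4, 9), -280), ((9, 6, 2), (2, 5, 9), 77), ((2, 5, 11), (9, 6, 0), -116),
    ((0, 12, 9), (9, 6, 0), 159), ((2, 5, 10), (9, 6, 1), -376), ((0, 12, 8), (9, 6, 1), 376), ((8, 13, 0), (9, 6, 1), 376),
    ((2, 4, 11), (9, 7, 0), -5), ((11, 10, 1), (0, 1, 10), -103), ((10, 8, 0), (0, 2, 10), -49), ((1, 3, 11), (0, 2, 10), -43),
    ((11, 9, 1), (0, 2, 10), 163), ((10, 9, 1), (1, 2, 10), -77), ((11, 8, 1), (0, 3, 10), -90), ((10, 8, 1), (1, 3, 10), -101),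
    ((10, 6, 0), (0, 4, 10), 356), ((1, 5, 11), (0, 4, 10), 32), ((11, 7, 1), (0, 4, 10), -346), ((10, 7, 1), (1, 4, 10), -280),
    ((11, 6, 1), (0, 5, 10), -116), ((10, 13, 0), (0, 5, 10), 159), ((10, 6, 1), (1, 5, 10), -77), ((1, 4, 11), (10, 7, 0), -5),
    ((1, 2, 11), (10, 9, 0), -57), ((11, 10, 0), (0, 1, 11), 4), ((11, 9, 0), (0, 2, 11), 4), ((11, 8, 0), (0, 3, 11), -26),
    ((11, 7, 0), (0, 4, 11), 30), ((5, 12, 2), (0, 2, 12), 69), ((4, 12, 2), (1, 2, 12), -95), ((5, 12, 3), (1, 3, 12), -82),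
    ((12, 6, 9), (6, 12, 0), 23), ((12, 6, 8), (6, 12, 1), -115), ((6, 5, 12), (12, 4, 6), -26), ((12, 7, 9), (7, 12, 1), 413),
    ((10, 9, 12), (12, 4, 10), 206), ((10, 8, 12), (12, 5, 10), 98), ((11, 9, 12), (12, 5, 11), 445), ((6, 13, 1), (0, 1, 13), 69),
    ((13, 4, 1), (1, 2, 13), -95), ((6, 13, 3), (2, 3, 13), -82), ((5, 13, 10), (13, 5, 0), 23), ((5, 13, 8), (13, 5, 2), -115),
    ((6, 13, 5), (4, 5, 13), -26), ((13, 7, 10), (7, 13, 2), 413), ((10, 9, 13), (4, 13, 9), 206), ((9, 8, 13), (13, 6, 9), 98),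
    ((11, 10, 13), (13, 6, 11), 445), ((12, 13, 8), (13, 12, 0), -92)]
  tr := tr14
  big := 1048576

theorem ct18_valid : validC ct18 = true := by decide +kernel

theorem ct18_const : constOK ct18 3963 = true := by decide +kernel

/-- classes -/
def cs18 : List Cl := [
 cl 0 1 0 1 2204 0 130, cl 0 2 0 0 0 0 137, cl 1 0 0 0 7317 0 119, cl 1 1 0 1 0 2486 125,
 cl 1 2 0 0 306 0 423, cl 2 0 0 0 83 0 84, cl 2 1 0 1 0 78 92, cl 2 2 0 0 0 0 119,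
 cl 1 0 0 2 0 1148 89, cl 0 0 0 2 0 3680 97, cl 1 0 1 1 4646 0 95, cl 2 0 1 1 0 1340 76,
 cl 2 0 0 2 0 758 75, cl 1 0 1 3 570 0 73, cl 1 0 2 0 0 2702 90, cl 2 0 2 0 0 942 72,
 cl 1 0 2 2 0 306 78, cl 0 1 0 3 0 76 79, cl 0 2 0 2 1148 0 92, cl 1 1 0 3 0 176 78,
 cl 1 2 0 2 0 0 97, cl 0 0 0 4 0 38 69]

theorem ct18_link : linkOK ct18 cs18 = true := by decide +kernel

theorem cs18_tail : tailOK cs18 48 16 96 3963 = true := by decide +kernel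

theorem cs18_grid : gridOK vtTree cs18 48 16 96 16 1352135104 0 6883 3963 = true := by
  decide +kernel

/-! ### Box 19: `48 ≤ -128 x ≤ 64`, `112 ≤ 128 y ≤ 128` -/

/-- certificate -/
def ct19 : Cert where
  pts := pts14
  g := 5019
  al := [(0, 1411), (1, 52), (2, 52), (3, 819), (4, 1033), (5, 1494), (6, 1494), (7, -844), (8, 1376), (9, 252), (10, 252), (11, -285), (12, 1231), (13, 1231)]
  be := [
    (1, 0, -26), (2, 0, -26), (2, 1, -631), (3, 0, -186), (3, 1, 541), (3, 2, 541), (4, 0, -17),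
    (4, 1, 929), (4, 2, 929), (4, 3, -1191), (5, 0, -1115), (5, 1, 1640), (5, 2, 143), (5, 3, 852),
    (5, 4, 469), (6, 0, -1115), (6, 1, 143), (6, 2, 1640), (6, 3, 852), (6, 4, 469), (6, 5, -1124),
    (7, 0, 412), (7, 1, 652), (7, 2, 652), (7, 3, 1598), (7, 4, 573), (7, 5, 549), (7, 6, 549),
    (8, 0, -553), (8, 1, -225), (8, 2, -225), (8, 3, -643), (8, 4, 1156), (8, 5, 187), (8, 6, 187),
    (8, 7, -868), (9, 0, -160), (9, 1, 479), (9, 2, -336), (9, 3, -133), (9, 4, 157), (9, 5, 126),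
    (9, 6, 493), (9, 7, 705), (9, 8, 678), (10, 0, -160), (10, 1, -336), (10, 2, 479), (10, 3, -133),
    (10, 4, 157), (10, 5, 493), (10, 6, 126), (10, 7, 705), (10, 8, 678), (10, 9, -354), (11, 1, 296),
    (11, 2, 296), (11, 3, 385), (11, 4, -82), (11, 5, -50), (11, 6, -50), (11, 7, 842), (11, 8, 156),
    (11, 9, 176), (11, 10, 176), (12, 0, -1028), (12, 1, -290), (12, 3, -276), (12, 4, -609), (12, 5, -986),
    (12, 6, -238), (12, 7, 390), (12, 8, -529), (12, 9, -643), (12, 10, -162), (13, 0, -1028), (13, 2, -290),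
    (13, 3, -276), (13, 4, -609), (13, 5, -238), (13, 6, -986), (13, 7, 390), (13, 8, -529), (13, 9, -162),
    (13, 10, -643)]
  ta := [
    ((3, 2, 1), (0, 1, 2), -50), ((4, 5, 6), (0, 1, 2), -372), ((7, 6, 5), (0, 1, 2), -3), ((8, 9, 10), (0, 1, 2), -227),
    ((11, 10, 9), (0, 1, 2), 99), ((5, 4, 12), (0, 1, 2), 165), ((6, 13, 4), (0, 1, 2), 165), ((3, 2, 0), (0, 1, 3), 24),
    ((4, 5, 7), (0, 1, 3), 178), ((7, 6, 4), (0, 1, 3), 178), ((8, 9, 11), (0, 1, 3), -202), ((11, 10, 8), (0, 1, 3), -202),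
    ((6, 5, 3), (1, 2, 4), -28), ((5, 6, 8), (1, 2, 4), -451), ((10, 9, 7), (1, 2, 4), 299), ((4, 12, 1), (1, 2, 4), 63),
    ((13, 4, 2), (1, 2, 4), 63), ((7, 4, 3), (0, 3, 4), 317), ((4, 7, 8), (0, 3, 4), -202), ((11, 8, 7), (0, 3, 4), 47),
    ((6, 4, 3), (1, 3, 4), -24), ((5, 7, 8), (1, 3, 4), 47), ((10, 8, 7), (1, 3, 4), -54), ((5, 4, 3), (2, 3, 4), -24),
    ((6, 7, 8), (2, 3, 4), 47), ((9, 8, 7), (2, 3, 4), -54), ((5, 4, 0), (0, 1, 5), 90), ((2, 3, 7), (0, 1, 5), -768),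
    ((7, 6, 2), (0, 1, 5), -160), ((4, 5, 9), (0, 1, 5), 108), ((9, 8, 4), (0, 1, 5), -593), ((6, 7, 11), (0, 1, 5), -266),
    ((11, 10, 6), (0, 1, 5), -198), ((13, 6, 10), (0, 1, 5), 1607), ((7, 5, 2), (0, 2, 5), -327), ((4, 6, 9), (0, 2, 5), -239),
    ((11, 9, 6), (0, 2, 5), -144), ((5, 12, 0), (0, 2, 5), 518), ((10, 8, 13), (0, 2, 5), 290), ((6, 5, 2), (1, 2, 5), -341),
    ((5, 6, 9), (1, 2, 5), -325), ((10, 9, 6), (1, 2, 5), 41), ((4, 12, 0), (1, 2, 5), 470), ((4, 13, 8), (1, 2, 5), 135),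
    ((7, 4, 2), (0, 3, 5), -373), ((4, 7, 9), (0, 3, 5), -116), ((11, 8, 6), (0, 3, 5), 63), ((5, 4, 2), (2, 3, 5), -344),
    ((6, 7, 9), (2, 3, 5), -316), ((9, 8, 6), (2, 3, 5), -593), ((0, 1, 12), (2, 3, 5), 287), ((13, 6, 8), (2, 3, 5), 1342),
    ((7, 6, 1), (0, 1, 6), -327), ((4, 5, 10), (0, 1, 6), -239), ((11, 10, 5), (0, 1, 6), -144), ((9, 8, 12), (0, 1, 6), 290),
    ((6, 13, 0), (0, 1, 6), 518), ((6, 4, 0), (0, 2, 6), 90), ((1, 3, 7), (0, 2, 6), -768), ((7, 5, 1), (0, 2, 6), -160),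
    ((4, 6, 10), (0, 2, 6), 108), ((10, 8, 4), (0, 2, 6), -593), ((5, 7, 11), (0, 2, 6), -266), ((11, 9, 5), (0, 2, 6), -198),
    ((12, 5, 9), (0, 2, 6), 1607), ((6, 5, 1), (1, 2, 6), -341), ((5, 6, 10), (1, 2, 6), -325), ((10, 9, 5), (1, 2, 6), 41),
    ((12, 4, 8), (1, 2, 6), 135), ((13, 4, 0), (1, 2, 6), 470), ((7, 4, 1), (0, 3, 6), -373), ((4, 7, 10), (0, 3, 6), -116),
    ((11, 8, 5), (0, 3, 6), 63), ((6, 4, 1), (1, 3, 6), -344), ((5, 7, 10), (1, 3, 6), -316), ((10, 8, 5), (1, 3, 6), -593),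
    ((12, 5, 8), (1, 3, 6), 1342), ((0, 2, 13), (1, 3, 6), 287), ((1, 2, 7), (6, 5, 0), 109), ((10, 9, 4), (6, 5, 0), -35),
    ((5, 6, 11), (6, 5, 0), 47), ((12, 4, 9), (6, 5, 0), -51), ((4, 13, 10), (6, 5, 0), -51), ((7, 6, 0), (0, 1, 7), 272),
    ((4, 5, 11), (0, 1, 7), 196), ((11, 10, 4), (0, 1, 7), -88), ((7, 5, 0), (0, 2, 7), 272), ((4, 6, 11), (0, 2, 7), 196),
    ((11, 9, 4), (0, 2, 7), -88), ((7, 4, 0), (0, 3, 7), -238), ((4, 7, 11), (0, 3, 7), 46), ((11, 8, 4), (0, 3, 7), -10),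
    ((9, 8, 1), (0, 1, 8), -127), ((2, 3, 10), (0, 1, 8), -132), ((11, 10, 3), (0, 1, 8), 155), ((1, 3, 9), (0, 2, 8), -132),
    ((10, 8, 2), (0, 2, 8), -127), ((11, 9, 3), (0, 2, 8), 155), ((10, 9, 3), (1, 2, 8), 14), ((11, 8, 3), (0, 3, 8), -13),
    ((10, 8, 3), (1, 3, 8), 12), ((9, 8, 3), (2, 3, 8), 12), ((1, 5, 9), (0, 4, 8), 139), ((2, 6, 10), (0, 4, 8), 139),
    ((3, 7, 11), (0, 4, 8), -350), ((8, 5, 1), (1, 4, 8), 15), ((3, 6, 10), (1, 4, 8), 21), ((10, 7, 3), (1, 4, 8), -15),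
    ((8, 6, 2), (2, 4, 8), 15), ((3, 5, 9), (2, 4, 8), 21), ((9, 7, 3), (2, 4, 8), -15), ((8, 7, 3), (3, 4, 8), -111),
    ((1, 4, 9), (8, 5, 0), -133), ((10, 7, 2), (8, 5, 0), -136), ((3, 6, 11), (8, 5, 0), -158), ((2, 13, 10), (8, 5, 0), 71),
    ((9, 6, 3), (2, 5, 8), -125), ((8, 13, 2), (2, 5, 8), 180), ((9, 7, 1), (8, 6, 0), -136), ((2, 4, 10), (8, 6, 0), -133),
    ((3, 5, 11), (8, 6, 0), -158), ((1, 12, 9), (8, 6, 0), 71), ((3, 5, 10), (8, 6, 1), -125), ((1, 12, 8), (8, 6, 1), 180),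
    ((3, 4, 11), (8, 7, 0), 57), ((3, 4, 10), (8, 7, 1), -42), ((3, 4, 9), (8, 7, 2), -42), ((9, 8, 0), (0, 1, 9), -63),
    ((2, 3, 11), (0, 1, 9), -246), ((11, 10, 2), (0, 1, 9), 173), ((11, 9, 2), (0, 2, 9), 22), ((10, 9, 2), (1, 2, 9), 25),
    ((11, 8, 2), (0, 3, 9), -62), ((9, 8, 2), (2, 3, 9), -37), ((9, 5, 0), (0, 4, 9), 406), ((2, 6, 11), (0, 4, 9), -112),
    ((11, 7, 2), (0, 4, 9), -178), ((9, 7, 2), (2, 4, 9), -71), ((9, 6, 2), (2, 5, 9), 15), ((2, 5, 11), (9, 6, 0), -94),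
    ((0, 12, 9), (9, 6, 0), 201), ((2, 5, 10), (9, 6, 1), -316), ((0, 12, 8), (9, 6, 1), 316), ((8, 13, 0), (9, 6, 1), 316),
    ((2, 4, 11), (9, 7, 0), -71), ((11, 10, 1), (0, 1, 10), 22), ((10, 8, 0), (0, 2, 10), -63), ((1, 3, 11), (0, 2, 10), -246),
    ((11, 9, 1), (0, 2, 10), 173), ((10, 9, 1), (1, 2, 10), 25), ((11, 8, 1), (0, 3, 10), -62), ((10, 8, 1), (1, 3, 10), -37),
    ((10, 6, 0), (0, 4, 10), 406), ((1, 5, 11), (0, 4, 10), -112), ((11, 7, 1), (0, 4, 10), -178), ((10, 7, 1), (1, 4, 10), -71),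
    ((11, 6, 1), (0, 5, 10), -94), ((10, 13, 0), (0, 5, 10), 201), ((10, 6, 1), (1, 5, 10), -15), ((1, 4, 11), (10, 7, 0), -71),
    ((1, 2, 11), (10, 9, 0), -1), ((11, 8, 0), (0, 3, 11), 29), ((11, 7, 0), (0, 4, 11), -29), ((5, 12, 2), (0, 2, 12), -2),
    ((4, 12, 2), (1, 2, 12), -161), ((5, 12, 3), (1, 3, 12), -276), ((12, 6, 9), (6, 12, 0), -194), ((12, 6, 8), (6, 12, 1), -335),
    ((6, 5, 12), (12, 4, 6), 65), ((12, 7, 9), (7, 12, 1), 342), ((10, 9, 12), (12, 4, 10), -57), ((10, 8, 12), (12, 5, 10), -77),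
    ((11, 9, 12), (12, 5, 11), 150), ((6, 13, 1), (0, 1, 13), -2), ((13, 4, 1), (1, 2, 13), -161), ((6, 13, 3), (2, 3, 13), -276),
    ((5, 13, 10), (13, 5, 0), -194), ((5, 13, 8), (13, 5, 2), -335), ((6, 13, 5), (4, 5, 13), 65), ((13, 7, 10), (7, 13, 2), 342),
    ((10, 9, 13), (4, 13, 9), -57), ((9, 8, 13), (13, 6, 9), -77), ((11, 10, 13), (13, 6, 11), 150)]
  tr := tr14
  big := 1048576

theorem ct19_valid : validC ct19 = true := by decide +kernel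

theorem ct19_const : constOK ct19 3844 = true := by decide +kernel

/-- classes -/
def cs19 : List Cl := [
 cl 0 1 0 1 2802 0 122, cl 0 2 0 0 543 0 137, cl 1 0 0 0 7111 0 119, cl 1 1 0 1 0 1998 118,
 cl 1 2 0 0 330 0 423, cl 2 0 0 0 790 0 84, cl 2 1 0 1 272 0 90, cl 2 2 0 0 0 0 119,
 cl 1 0 0 2 0 1842 84, cl 0 0 0 2 0 3327 90, cl 1 0 1 1 4766 0 93, cl 2 0 1 1 0 716 75,
 cl 2 0 0 2 0 672 73, cl 1 0 1 3 0 0 69, cl 1 0 2 0 0 2059 90, cl 2 0 2 0 0 643 72,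
 cl 1 0 2 2 0 552 76, cl 0 1 0 3 0 476 73, cl 0 2 0 2 780 0 86, cl 1 1 0 3 0 324 73,
 cl 1 2 0 2 0 0 90, cl 0 0 0 4 0 0 64]

theorem ct19_link : linkOK ct19 cs19 = true := by decide +kernel

theorem cs19_tail : tailOK cs19 48 16 112 3844 = true := by decide +kernel

theorem cs19_grid : gridOK vtTree cs19 48 16 112 16 0 1127734304 6715 3844 = true := by
  decide +kernel

end Pool.Agent.H79.OC
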