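import Pool.Agent.H79.OC.Defs
import Pool.Agent.H79.DF.J0

set_option autoImplicit false

/-!
# Certificates
-/

namespace Pool.Agent.H79.OC

open Pool.Agent.H79.DF (J0)

namespace Cl

/-- fields -/
def i : Cl → ℕ | cl i _ _ _ _ _ _ => i
/-- fields -/
def sp : Cl → ℕ | cl _ s _ _ _ _ _ => s
/-- fields -/
def sm : Cl → ℕ | cl _ _ s _ _ _ _ => s
/-- fields -/
def dl : Cl → ℕ | cl _ _ _ d _ _ _ => d
/-- fields -/
def mp : Cl → ℕ | cl _ _ _ _ m _ _ => m
/-- fields -/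
def mm : Cl → ℕ | cl _ _ _ _ _ m _ => m
/-- fields -/
def tl : Cl → ℕ | cl _ _ _ _ _ _ t => t

end Cl

/-- The weight of a class. -/
noncomputable def wt (c : Cl) : ℝ := (c.mp : ℝ) - (c.mm : ℝ)

/-- The distance of a class at `w = x + i y`. -/
noncomputable def dd (c : Cl) (x y : ℝ) : ℝ :=
  Real.sqrt (((c.i : ℝ) + ((c.sp : ℝ) - (c.sm : ℝ)) * x) ^ 2 + ((c.dl : ℝ) * y) ^ 2)

/-- The sum of the weighted `J0`. -/
noncomputable def FF (cs : List Cl) (s x y : ℝ) : ℝ :=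
  (cs.map fun c => wt c * J0 (s * dd c x y)).sum

/-- Sum of a function over the classes. -/
def sc (g : Cl → ℕ) (cs : List Cl) : ℕ := (cs.map g).sum

/-- Upper bound of `|128 i + (sm - sp) X|` for `x0 ≤ X ≤ x1`. -/
def amax (c : Cl) (x0 x1 : ℕ) : ℕ :=
  ((128 * c.i + c.sm * x1) - c.sp * x0) + (c.sp * x1 - (128 * c.i + c.sm * x0))

/-- Lower bound of `|128 i + (sm - sp) X|` for `x0 ≤ X ≤ x1`. -/
def amin (c : Cl) (x0 x1 : ℕ) : ℕ :=
  max ((128 * c.i + c.sm * x0) - c.sp * x1) (c.sp * x0 - (128 * c.i + c.sm * x1))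

/-- Upper bound of the square of 128 times the distance, `x0 ≤ X ≤ x1`, `Y ≤ y1`. -/
def nmax (c : Cl) (x0 x1 y1 : ℕ) : ℕ := amax c x0 x1 * amax c x0 x1 + (c.dl * y1) * (c.dl * y1)

/-- Lower bound of the square of 128 times the distance, `x0 ≤ X ≤ x1`, `y0 ≤ Y`. -/
def nmin (c : Cl) (x0 x1 y0 : ℕ) : ℕ := amin c x0 x1 * amin c x0 x1 + (c.dl * y0) * (c.dl * y0)

/-- The grid check with the constants: lower bound `-κ` on the box for `s ≤ 383 / 8`. -/
noncomputable def gridOK (vr : Tr) (cs : List Cl) (x0 nx y0 ny cp cn c2 κ : ℕ) : Bool :=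
  decide (16 * cp + 16777216 * sc Cl.mp cs + 22528 * sc (fun c => c.mp + c.mm) cs +
      sc (fun c => (c.mp + c.mm) * nmax c x0 (x0 + nx) (y0 + ny)) cs ≤
      16 * cn + 16777216 * (κ + sc Cl.mm cs)) &&
  (decide (sc (fun c => (c.mp + c.mm) * (1 + (c.sp + c.sm) * (c.sp + c.sm) + c.dl * c.dl)) cs ≤
      16 * c2) &&
  (decide (sc Cl.mp cs * 4194304 + cp < 549755813888) &&
  (decide (sc Cl.mm cs * 4194304 + c2 * 147456 + cn ≤ 549755813888) &&
  ((cs.all fun c => decide (nmax c x0 (x0 + nx) (y0 + ny) ≤ 268000)) &&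
  blk vr cs x0 (nx + 1) y0 (ny + 1) cp cn c2))))

/-- The bound `tl / 1024` for the tail of a class in the box, `s ≥ 383 / 8`. -/
def tlOK (c : Cl) (x0 x1 y0 : ℕ) : Bool :=
  decide (1024 ≤ c.tl) || (decide (c.mm = 0 ∧ 423 ≤ c.tl) ||
    decide (458 ≤ nmin c x0 x1 y0 ∧
      4096 * 1152921504606846976 ≤ 1466890000 * (c.tl ^ 4 * nmin c x0 x1 y0)))

/-- The tail check: lower bound `-κ` on the box for `s ≥ 383 / 8`. -/
def tailOK (cs : List Cl) (x0 nx y0 κ : ℕ) : Bool :=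
  decide (sc (fun c => (c.mp + c.mm) * c.tl) cs ≤ 1024 * κ) && cs.all fun c => tlOK c x0 (x0 + nx) y0

/-! ### The inequality for the configuration -/

/-- A certificate: points `i + j w + t w̄`; constant; weights of points, of pairs; pairs of congruent triples
with weights; the triangles; the weight of a triangle. -/
structure Cert where
  /-- points -/
  pts : List (ℤ × ℤ × ℤ)
  /-- constant -/
  g : ℤ
  /-- weights of points -/
  al : List (ℕ × ℤ)
  /-- weights of pairs -/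
  be : List (ℕ × ℕ × ℤ)
  /-- weights of pairs of congruent triples -/
  ta : List ((ℕ × ℕ × ℕ) × (ℕ × ℕ × ℕ) × ℤ)
  /-- triangles; the first point is the obtuse vertex -/
  tr : List (ℕ × ℕ × ℕ)
  /-- weight of the triangles -/
  big : ℕ

/-- The point with number `n`. -/
def Cert.pt (ct : Cert) (n : ℕ) : ℤ × ℤ × ℤ := ct.pts.getD n (0, 0, 0)

/-- Difference of two points. -/
def sub3 (p q : ℤ × ℤ × ℤ) : ℤ × ℤ × ℤ := (p.1 - q.1, p.2.1 - q.2.1, p.2.2 - q.2.2)

/-- Opposite. -/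
def neg3 (p : ℤ × ℤ × ℤ) : ℤ × ℤ × ℤ := (-p.1, -p.2.1, -p.2.2)

/-- `(u, v, w)` is a copy of the triangle `0, 1, w` or `0, 1, w̄`. -/
def isTri (ct : Cert) (t : ℕ × ℕ × ℕ) : Bool :=
  let p := sub3 (ct.pt t.2.1) (ct.pt t.1)
  let q := sub3 (ct.pt t.2.2) (ct.pt t.1)
  (decide (p = (1, 0, 0)) && (decide (q = (0, 1, 0)) || decide (q = (0, 0, 1)))) ||
    (decide (p = (-1, 0, 0)) && (decide (q = (0, -1, 0)) || decide (q = (0, 0, -1))))

/-- Two triples are congruent by a translation or a half turn. -/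
def isCong (ct : Cert) (t u : ℕ × ℕ × ℕ) : Bool :=
  let p := sub3 (ct.pt t.2.1) (ct.pt t.1)
  let q := sub3 (ct.pt t.2.2) (ct.pt t.1)
  let p' := sub3 (ct.pt u.2.1) (ct.pt u.1)
  let q' := sub3 (ct.pt u.2.2) (ct.pt u.1)
  (decide (p = p') && decide (q = q')) || (decide (p = neg3 p') && decide (q = neg3 q'))

/-- Mask of a triple. -/
def mk3 (t : ℕ × ℕ × ℕ) : ℕ := (2 ^ t.1 ||| 2 ^ t.2.1) ||| 2 ^ t.2.2

/-- The monomials of the form. -/
def monos (ct : Cert) : List (ℕ × ℤ) :=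
  (0, ct.g) :: ((ct.al.map fun e => (2 ^ e.1, -e.2)) ++
    ((ct.be.map fun e => (2 ^ e.1 ||| 2 ^ e.2.1, -e.2.2)) ++
    ((ct.ta.map fun e => (mk3 e.1, -e.2.2)) ++
    ((ct.ta.map fun e => (mk3 e.2.1, e.2.2)) ++
    (ct.tr.map fun e => (mk3 e, (ct.big : ℤ)))))))

/-- Positive parts. -/
def posL (l : List (ℕ × ℤ)) : List (ℕ × ℕ) := l.map fun e => (e.1, e.2.toNat)

/-- Negative parts. -/
def negL (l : List (ℕ × ℤ)) : List (ℕ × ℕ) := l.map fun e => (e.1, (-e.2).toNat)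

/-- Monomials without the variable `m`. -/
noncomputable def qf (m : ℕ) (l : List (ℕ × ℕ)) : List (ℕ × ℕ) :=
  List.rec (motive := fun _ => List (ℕ × ℕ)) [] (fun e _ ih =>
    Bool.rec (e :: ih) ih (Nat.ble (Nat.pow 2 m) e.1)) l

/-- Monomials with the variable `m`, divided by it. -/
noncomputable def rf (m : ℕ) (l : List (ℕ × ℕ)) : List (ℕ × ℕ) :=
  List.rec (motive := fun _ => List (ℕ × ℕ)) [] (fun e _ ih =>
    Bool.rec ih ((Nat.sub e.1 (Nat.pow 2 m), e.2) :: ih) (Nat.ble (Nat.pow 2 m) e.1)) l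

/-- Sum of the coefficients. -/
noncomputable def sf (l : List (ℕ × ℕ)) : ℕ :=
  List.rec (motive := fun _ => ℕ) 0 (fun e _ ih => Nat.add e.2 ih) l

/-- The packed table of the values. -/
noncomputable def tab (m : ℕ) : List (ℕ × ℕ) → ℕ :=
  Nat.rec (motive := fun _ => List (ℕ × ℕ) → ℕ) (fun l => sf l)
    (fun m ih l => List.rec (motive := fun _ => ℕ) 0 (fun _ _ _ =>
      (fun q r => Nat.add q (Nat.mul (Nat.add q r) (Nat.pow 2 (Nat.mul 32 (Nat.pow 2 m)))))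
        (ih (qf m l)) (ih (rf m l))) l) m

/-- `2^31` at all places. -/
def top32 (n : ℕ) : ℕ :=
  Nat.mul 2147483648 (Nat.div (Nat.sub (Nat.pow 2 (Nat.mul 32 (Nat.pow 2 n))) 1) (Nat.sub (Nat.pow 2 32) 1))

/-- The values of the second list are at most those of the first. -/
noncomputable def packOK (n : ℕ) (p q : List (ℕ × ℕ)) : Bool :=
  Bool.rec false (Bool.rec false
    (Nat.beq (Nat.land (Nat.sub (Nat.add (tab n p) (top32 n)) (tab n q)) (top32 n)) (top32 n))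
    (Nat.ble (sf q) 2147483648)) (Nat.ble (Nat.succ (sf p)) 2147483648)

/-- Check of a certificate. -/
noncomputable def validC (ct : Cert) : Bool :=
  (ct.tr.all fun t => isTri ct t) && ((ct.ta.all fun e => isCong ct e.1 e.2.1) &&
    (((monos ct).all fun e => decide (e.1 < 2 ^ ct.pts.length)) &&
      packOK ct.pts.length (posL (monos ct)) (negL (monos ct))))

/-- Key of a difference. -/
def key (p : ℤ × ℤ × ℤ) : ℤ × ℤ × ℕ :=
  if 0 < p.1 then (p.1, p.2.1 + p.2.2, (p.2.1 - p.2.2).natAbs)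
  else if p.1 = 0 then (0, |p.2.1 + p.2.2|, (p.2.1 - p.2.2).natAbs)
  else (-p.1, -(p.2.1 + p.2.2), (p.2.1 - p.2.2).natAbs)

/-- Key of a class. -/
def ckey (c : Cl) : ℤ × ℤ × ℕ := ((c.i : ℤ), (c.sp : ℤ) - (c.sm : ℤ), c.dl)

/-- Sum of the weights with a given key. -/
def agg (l : List ((ℤ × ℤ × ℕ) × ℤ)) (k : ℤ × ℤ × ℕ) : ℤ :=
  ((l.filter fun e => decide (e.1 = k)).map fun e => e.2).sum

/-- Keys and weights of the pairs. -/
def keyL (ct : Cert) : List ((ℤ × ℤ × ℕ) × ℤ) :=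
  ct.be.map fun e => (key (sub3 (ct.pt e.1) (ct.pt e.2.1)), e.2.2)

/-- The classes carry the weights of the pairs. -/
def linkOK (ct : Cert) (cs : List Cl) : Bool :=
  decide ((cs.map ckey).Nodup) && ((keyL ct).all (fun e => decide (e.1 ∈ cs.map ckey)) &&
    cs.all (fun c => decide (agg (keyL ct) (ckey c) = (c.mp : ℤ) - (c.mm : ℤ))))

/-- Sum of the weights of the points. -/
def altot (ct : Cert) : ℤ := (ct.al.map fun e => e.2).sum

/-- Sum of the weights of the pairs. -/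
def betot (ct : Cert) : ℤ := (ct.be.map fun e => e.2.2).sum

/-- The relations between the constants. -/
def constOK (ct : Cert) (κ : ℕ) : Bool :=
  decide ((κ : ℤ) + 1 ≤ betot ct + 2 * altot ct - 4 * ct.g) && decide (0 ≤ betot ct + altot ct)

end Pool.Agent.H79.OC
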