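import Pool.Agent.H79.OC.Defs

set_option autoImplicit false

/-!
# Packed vectors

Proofs. `pk_eq`: induction on `m` (unfold by `show`: `pk f (m+1) a = pk f m a + pk f m (a + 2^m) * 2^(40 * 2^m)` is `rfl`),
split `range (2^(m+1))` with `Finset.sum_range_add` style lemmas. `pv_eq`: `384 = 256 + 128`. `ones_eq`: geometric sum
(`Nat.geomSum_eq` / `Nat.pred_mul_geom_sum_le` ...), never evaluate `2^15360`. `digits`: prove by induction on the number of
digits the general statement: if `x l < 2^40` and for `S_n = ∑_{l<n} x l * 2^(40 l)`, `M_n = ∑_{l<n} 2^39 * 2^(40 l)`,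
`S_n &&& M_n = M_n`, then `2^39 ≤ x l` for `l < n`. E.g. use `Nat.testBit`: bit `40 l + 39` of `M_n` is true, hence bit
`40 l + 39` of `S_n` is true; and `S_n / 2^(40 l) % 2^40 = x l`, so bit 39 of `x l` is true and `2^39 ≤ x l`
(`Nat.testBit_div_two_pow`, `Nat.testBit_mod_two_pow`, `Nat.ge_two_pow_of_testBit`).
-/

namespace Pool.Agent.H79.OC

open Finset

private theorem Pack_succ (f : ℕ → ℕ) (m a : ℕ) :
    pk f (m + 1) a = pk f m a + pk f m (a + 2 ^ m) * 2 ^ (40 * 2 ^ m) := rfl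

theorem pk_eq (f : ℕ → ℕ) (m a : ℕ) : pk f m a = ∑ l ∈ range (2 ^ m), f (a + l) * 2 ^ (40 * l) := by
  induction m generalizing a with
  | zero =>
    have h : pk f 0 a = f a := rfl
    rw [h, pow_zero, sum_range_one, Nat.mul_zero, pow_zero, Nat.mul_one, Nat.add_zero]
  | succ m ih =>
    rw [Pack_succ, ih, ih, pow_succ, Nat.mul_two, sum_range_add, sum_mul]
    refine congrArg _ (sum_congr rfl fun l _ => ?_)
    rw [Nat.mul_add 40, pow_add, Nat.add_assoc, Nat.mul_assoc, Nat.mul_comm (2 ^ (40 * l))]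

private theorem Pack_pv (f : ℕ → ℕ) (b : ℕ) (hb : b = 40 * 256) :
    Nat.add (pk f 8 0) (Nat.mul (pk f 7 256) (Nat.pow 2 b)) =
      ∑ l ∈ range 384, f l * 2 ^ (40 * l) := by
  have h : Nat.add (pk f 8 0) (Nat.mul (pk f 7 256) (Nat.pow 2 b)) =
    pk f 8 0 + pk f 7 256 * 2 ^ b := rfl
  have e : (384 : ℕ) = 256 + 2 ^ 7 := rfl
  have e8 : (2 : ℕ) ^ 8 = 256 := rfl
  rw [h, pk_eq, pk_eq, e, sum_range_add, sum_mul, e8, hb]
  refine congrArg₂ _ (sum_congr rfl fun l _ => ?_) (sum_congr rfl fun l _ => ?_)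
  · rw [Nat.zero_add]
  · rw [Nat.mul_add 40 256 l, pow_add, Nat.mul_assoc, Nat.mul_comm (2 ^ (40 * l))]

theorem pv_eq (f : ℕ → ℕ) : pv f = ∑ l ∈ range 384, f l * 2 ^ (40 * l) := by
  delta pv
  exact Pack_pv f 10240 (by norm_num)

private theorem Pack_geo (n a : ℕ) (ha : a = 40 * n) :
    Nat.div (Nat.sub (Nat.pow 2 a) 1) (Nat.sub (Nat.pow 2 40) 1) = ∑ l ∈ range n, 2 ^ (40 * l) := by
  have h2 : (2 : ℕ) ≤ 2 ^ 40 := by norm_num
  have h : Nat.div (Nat.sub (Nat.pow 2 a) 1) (Nat.sub (Nat.pow 2 40) 1) =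
    (2 ^ a - 1) / (2 ^ 40 - 1) := rfl
  rw [h, ha, pow_mul, ← Nat.geomSum_eq h2]
  exact sum_congr rfl fun l _ => (pow_mul 2 40 l).symm

theorem ones_eq : ONES = ∑ l ∈ range 384, 2 ^ (40 * l) := by
  delta ONES
  have e : (15360 : ℕ) = 40 * 384 := by norm_num
  rw [Pack_geo 384 _ e]

theorem sq_eq : SQ = ∑ l ∈ range 384, (l * l) * 2 ^ (40 * l) :=
  pv_eq fun l => Nat.mul l l

private theorem Pack_mul (X : ℕ) : Nat.mul (Nat.pow 2 39) X = 2 ^ 39 * X := rfl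

theorem mask_eq : MASK = ∑ l ∈ range 384, 2 ^ 39 * 2 ^ (40 * l) := by
  delta MASK
  rw [Pack_mul, ones_eq, mul_sum]

private theorem Pack_lt (x : ℕ → ℕ) (n : ℕ) (hx : ∀ l < n, x l < 2 ^ 40) :
    ∑ l ∈ range n, x l * 2 ^ (40 * l) < 2 ^ (40 * n) := by
  induction n with
  | zero =>
    rw [sum_range_zero]
    exact Nat.two_pow_pos _
  | succ n ih =>
    have h1 := ih fun l hl => hx l (Nat.lt_succ_of_lt hl)
    have h2 := hx n (Nat.lt_succ_self n)
    rw [sum_range_succ, Nat.mul_add 40 n 1, pow_add, Nat.mul_one]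
    have h3 : (x n + 1) * 2 ^ (40 * n) ≤ 2 ^ 40 * 2 ^ (40 * n) :=
      Nat.mul_le_mul_right _ h2
    rw [Nat.add_mul, Nat.one_mul] at h3
    rw [Nat.mul_comm (2 ^ (40 * n)) (2 ^ 40)]
    omega

private theorem Pack_dig (x : ℕ → ℕ) (n : ℕ) (hx : ∀ l < n, x l < 2 ^ 40) (l : ℕ) (hl : l < n) :
    (∑ l ∈ range n, x l * 2 ^ (40 * l)) / 2 ^ (40 * l) % 2 ^ 40 = x l := by
  induction n with
  | zero => exact absurd hl (Nat.not_lt_zero l)
  | succ n ih =>
    have hx' : ∀ l < n, x l < 2 ^ 40 := fun l hl => hx l (Nat.lt_succ_of_lt hl)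
    rw [sum_range_succ]
    rcases Nat.lt_succ_iff_lt_or_eq.1 hl with h | rfl
    · obtain ⟨c, rfl⟩ := Nat.exists_eq_add_of_lt h
      have e : x (l + c + 1) * 2 ^ (40 * (l + c + 1)) =
          (x (l + c + 1) * 2 ^ (40 * c) * 2 ^ 40) * 2 ^ (40 * l) := by
        rw [Nat.mul_assoc, Nat.mul_assoc, ← pow_add, ← pow_add]
        congr 2
        ring
      rw [e, Nat.add_mul_div_right _ _ (Nat.two_pow_pos _), Nat.add_mul_mod_self_right]
      exact ih hx' h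
    · rw [Nat.add_mul_div_right _ _ (Nat.two_pow_pos _), Nat.div_eq_of_lt (Pack_lt x l hx'),
        Nat.zero_add]
      exact Nat.mod_eq_of_lt (hx l hl)

private theorem Pack_bit (x : ℕ → ℕ) (n : ℕ) (hx : ∀ l < n, x l < 2 ^ 40) (l : ℕ) (hl : l < n) :
    (∑ l ∈ range n, x l * 2 ^ (40 * l)).testBit (40 * l + 39) = (x l).testBit 39 := by
  have hb := Pack_dig x n hx l hl
  have h1 : (x l).testBit 39 =
      ((∑ l ∈ range n, x l * 2 ^ (40 * l)) / 2 ^ (40 * l) % 2 ^ 40).testBit 39 := by rw [hb]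
  have h2 : decide (39 < 40) = true := rfl
  rw [h1, Nat.testBit_mod_two_pow, Nat.testBit_div_two_pow, Nat.add_comm 39, h2, Bool.true_and]

/-- Test of the top bits. -/
theorem digits (x : ℕ → ℕ) (hx : ∀ l < 384, x l < 2 ^ 40)
    (h : Nat.land (∑ l ∈ range 384, x l * 2 ^ (40 * l)) MASK = MASK) : ∀ l < 384, 2 ^ 39 ≤ x l := by
  intro l hl
  have h39 : (2 : ℕ) ^ 39 < 2 ^ 40 := by norm_num
  have h1 : MASK.testBit (40 * l + 39) = true := by
    rw [mask_eq, Pack_bit (fun _ => 2 ^ 39) 384 (fun _ _ => h39) l hl]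
    exact Nat.testBit_two_pow_self
  have h2 := Pack_bit x 384 hx l hl
  have h3 : ((∑ l ∈ range 384, x l * 2 ^ (40 * l)) &&& MASK).testBit (40 * l + 39) = true := by
    have h' : (∑ l ∈ range 384, x l * 2 ^ (40 * l)) &&& MASK = MASK := h
    rw [h', h1]
  rw [Nat.testBit_and, Bool.and_eq_true] at h3
  exact Nat.ge_two_pow_of_testBit (h2 ▸ h3.1)

end Pool.Agent.H79.OC
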