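import Pool.Agent.H79.OC.Defs
import Pool.Agent.H79.DF.Num

set_option autoImplicit false

/-!
# Soundness of the interpolated tables

`tf tr k l`: `p = l k`, `n = p / 64`, `f = p % 64`, value `((64 - f) T_n + f T_(n+1) + 2048) / 4096` with
`T_n = 65536 (J0 (n / 16) + 1) ± 1`. With `x = p / 1024` between `n / 16` and `(n + 1) / 16` the chord of `J0` (`num_concave`,
`num_convex` of DF/Num.lean: `J0 ∓ x^2 / 4` concave / convex) has error at most `(1/16)^2 / 16`, i.e. `1/4` in units of `1/1024`; the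
table error gives `1/64`, the rounding `1/2`. `u_spec`: the chord over an interval of length `l / 1024` has error at most
`(l / 1024)^2 / 16`, times `2^20` this is `l^2 / 16`; entries ± 1 give 1024; and `|J0 x - J0 y| ≤ |x - y|` (e.g. from the
definition of `J0`, `Real.abs_cos_sub_cos_le`-like bound, or from `num_deriv_J0` and `|numJ1| ≤ 1`) gives `l`.
Here `(n >>> 6) = n / 64`, `(p &&& 63) = p % 64` (`Nat.and_two_pow_sub_one_eq_mod`).
-/

namespace Pool.Agent.H79.OC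

open Pool.Agent.H79.DF (J0)

/-- The table of `J0` is correct. -/
def TabOK (tr : Tr) : Prop :=
  ∀ n < 3136, |(tr.get n : ℝ) - 65536 * (J0 ((n : ℝ) / 16) + 1)| ≤ 1

/-- The chord of `J0`. -/
theorem VSpec_chord (a b f x : ℝ) (hf0 : 0 ≤ f) (hf1 : f ≤ 1) (hx : x = (1 - f) * a + f * b) :
    |((1 - f) * J0 a + f * J0 b) - J0 x| ≤ (b - a) ^ 2 / 16 := by
  have h1 := DF.num_concave.2 (Set.mem_univ a) (Set.mem_univ b) (sub_nonneg.2 hf1) hf0 (by ring)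
  have h2 := DF.num_convex.2 (Set.mem_univ a) (Set.mem_univ b) (sub_nonneg.2 hf1) hf0 (by ring)
  simp only [smul_eq_mul] at h1 h2
  rw [← hx] at h1 h2
  have h3 : (1 - f) * a ^ 2 + f * b ^ 2 - x ^ 2 = f * (1 - f) * (b - a) ^ 2 := by
    rw [hx]; ring
  have h4 : f * (1 - f) ≤ 1 / 4 := by nlinarith [sq_nonneg (f - 1 / 2)]
  have h5 : f * (1 - f) * (b - a) ^ 2 ≤ 1 / 4 * (b - a) ^ 2 :=
    mul_le_mul_of_nonneg_right h4 (sq_nonneg _)
  rw [abs_le]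
  constructor <;> nlinarith

/-- `J0` is Lipschitz. -/
theorem VSpec_lip (x y : ℝ) : |J0 x - J0 y| ≤ |x - y| := by
  have hJ1 : ∀ z : ℝ, |DF.numJ1 z| ≤ 1 := by
    intro z
    have hp : 0 < 2 * Real.pi := by positivity
    have h1 : |∫ θ in (0 : ℝ)..(2 * Real.pi), Real.cos θ * Real.sin (z * Real.cos θ)| ≤
        1 * |2 * Real.pi - 0| := by
      rw [← Real.norm_eq_abs]
      apply intervalIntegral.norm_integral_le_of_norm_le_const
      intro θ _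
      rw [Real.norm_eq_abs, abs_mul]
      exact mul_le_one₀ (Real.abs_cos_le_one _) (abs_nonneg _) (Real.abs_sin_le_one _)
    rw [sub_zero, abs_of_pos hp, one_mul] at h1
    rw [DF.numJ1, abs_mul, abs_of_pos (by positivity : (0 : ℝ) < (2 * Real.pi)⁻¹)]
    calc (2 * Real.pi)⁻¹ * |∫ θ in (0 : ℝ)..(2 * Real.pi), Real.cos θ * Real.sin (z * Real.cos θ)|
        ≤ (2 * Real.pi)⁻¹ * (2 * Real.pi) := mul_le_mul_of_nonneg_left h1 (by positivity)
      _ = 1 := inv_mul_cancel₀ hp.ne'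
  have h := Convex.norm_image_sub_le_of_norm_hasDerivWithin_le (f := J0)
    (f' := fun z => -(DF.numJ1 z)) (s := Set.univ) (C := 1) (x := y) (y := x)
    (fun z _ => (DF.num_deriv_J0 z).hasDerivWithinAt)
    (fun z _ => by rw [norm_neg, Real.norm_eq_abs]; exact hJ1 z) convex_univ
    (Set.mem_univ _) (Set.mem_univ _)
  rw [Real.norm_eq_abs, Real.norm_eq_abs, one_mul] at h
  exact h

/-- The value of `tf`. -/
theorem VSpec_tf (tr : Tr) (k l : ℕ) : tf tr k l =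
    ((64 - (l * k) % 64) * tr.get (l * k / 64) + (l * k) % 64 * tr.get (l * k / 64 + 1)
      + 2048) / 4096 := by
  have h1 : tf tr k l = Nat.shiftRight (Nat.add (Nat.add (Nat.mul (Nat.sub 64 (Nat.land (l * k) 63))
      (tr.get (Nat.shiftRight (l * k) 6)))
      (Nat.mul (Nat.land (l * k) 63) (tr.get (Nat.succ (Nat.shiftRight (l * k) 6))))) 2048) 12 := by
    unfold tf
    simp only [frc_eq]
    rfl
  have h2 : Nat.shiftRight (l * k) 6 = l * k / 64 := by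
    show (l * k) >>> 6 = _
    rw [Nat.shiftRight_eq_div_pow]
  have h3 : Nat.land (l * k) 63 = (l * k) % 64 := by
    show (l * k) &&& (2 ^ 6 - 1) = _
    rw [Nat.and_two_pow_sub_one_eq_mod]
  rw [h1, h2, h3]
  show (_ : ℕ) >>> 12 = _
  rw [Nat.shiftRight_eq_div_pow]
  rfl

theorem tf_spec (tr : Tr) (h : TabOK tr) (k l : ℕ) (hk : k < 520) (hl : l < 384) :
    |(tf tr k l : ℝ) - 1024 * (J0 ((l : ℝ) * k / 1024) + 1)| ≤ 1 := by
  rw [VSpec_tf]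
  obtain ⟨p, hp⟩ : ∃ p, p = l * k := ⟨_, rfl⟩
  have hpb : p ≤ 198777 := by
    rw [hp]
    calc l * k ≤ 383 * 519 := Nat.mul_le_mul (by omega) (by omega)
      _ = 198777 := by norm_num
  have hpc : (l : ℝ) * k = (p : ℝ) := by rw [hp]; push_cast; ring
  rw [← hp, hpc]
  obtain ⟨n, hn⟩ : ∃ n, n = p / 64 := ⟨_, rfl⟩
  obtain ⟨f, hf⟩ : ∃ f, f = p % 64 := ⟨_, rfl⟩
  have hnf : p = 64 * n + f := by rw [hn, hf]; omega
  have hf64 : f < 64 := by rw [hf]; omega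
  have hn1 : n < 3136 := by omega
  have hn2 : n + 1 < 3136 := by omega
  rw [← hn, ← hf]
  have t1 := h n hn1
  have t2 := h (n + 1) hn2
  obtain ⟨A, hA⟩ : ∃ A, A = tr.get n := ⟨_, rfl⟩
  obtain ⟨B, hB⟩ : ∃ B, B = tr.get (n + 1) := ⟨_, rfl⟩
  rw [← hA] at t1 ⊢
  rw [← hB] at t2 ⊢
  obtain ⟨S, hS⟩ : ∃ S, S = (64 - f) * A + f * B := ⟨_, rfl⟩
  rw [← hS]
  have hSr : (S : ℝ) = (64 - f) * A + f * B := by
    rw [hS]
    push_cast [Nat.cast_sub hf64.le]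
    ring
  have hfr0 : (0 : ℝ) ≤ f := Nat.cast_nonneg f
  have hfr1 : (f : ℝ) ≤ 64 := by exact_mod_cast hf64.le
  have hc := VSpec_chord ((n : ℝ) / 16) (((n + 1 : ℕ) : ℝ) / 16) ((f : ℝ) / 64) ((p : ℝ) / 1024)
    (by positivity) (by linarith) (by rw [hnf]; push_cast; ring)
  have e1 : ((((n + 1 : ℕ) : ℝ) / 16) - (n : ℝ) / 16) ^ 2 / 16 = 1 / 4096 := by
    push_cast
    ring
  rw [e1] at hc
  obtain ⟨x, hx⟩ : ∃ x, x = J0 ((n : ℝ) / 16) := ⟨_, rfl⟩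
  obtain ⟨y, hy⟩ : ∃ y, y = J0 (((n + 1 : ℕ) : ℝ) / 16) := ⟨_, rfl⟩
  obtain ⟨z, hz⟩ : ∃ z, z = J0 ((p : ℝ) / 1024) := ⟨_, rfl⟩
  rw [← hx] at t1 hc
  rw [← hy] at t2 hc
  rw [← hz] at hc ⊢
  rw [abs_le] at t1 t2 hc
  have hq1 : 4096 * ((S + 2048) / 4096) ≤ S + 2048 := Nat.mul_div_le _ _
  have hq2 : S + 2048 < 4096 * ((S + 2048) / 4096) + 4096 := by omega
  have hq1r : 4096 * (((S + 2048) / 4096 : ℕ) : ℝ) ≤ S + 2048 := by exact_mod_cast hq1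
  have hq2r : (S : ℝ) + 2048 < 4096 * (((S + 2048) / 4096 : ℕ) : ℝ) + 4096 := by
    exact_mod_cast hq2
  have g1 : (64 - (f : ℝ)) * (A - 65536 * (x + 1)) ≤ (64 - f) * 1 :=
    mul_le_mul_of_nonneg_left t1.2 (by linarith)
  have g2 : (64 - (f : ℝ)) * (-1) ≤ (64 - f) * (A - 65536 * (x + 1)) :=
    mul_le_mul_of_nonneg_left t1.1 (by linarith)
  have g3 : (f : ℝ) * (B - 65536 * (y + 1)) ≤ f * 1 := mul_le_mul_of_nonneg_left t2.2 hfr0
  have g4 : (f : ℝ) * (-1) ≤ f * (B - 65536 * (y + 1)) := mul_le_mul_of_nonneg_left t2.1 hfr0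
  obtain ⟨V, hV⟩ : ∃ V : ℝ, V = (((S + 2048) / 4096 : ℕ) : ℝ) := ⟨_, rfl⟩
  rw [← hV] at hq1r hq2r ⊢
  clear hq1 hq2 hV hS
  rw [abs_le]
  constructor
  · linarith
  · linarith

theorem tf_le (tr : Tr) (h : TabOK tr) (k l : ℕ) (hk : k < 520) (hl : l < 384) :
    tf tr k l ≤ 2048 := by
  rw [VSpec_tf]
  obtain ⟨p, hp⟩ : ∃ p, p = l * k := ⟨_, rfl⟩
  have hpb : p ≤ 198777 := by
    rw [hp]
    calc l * k ≤ 383 * 519 := Nat.mul_le_mul (by omega) (by omega)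
      _ = 198777 := by norm_num
  rw [← hp]
  have hT : ∀ n < 3136, tr.get n ≤ 131073 := by
    intro n hn
    have h1 := (abs_le.1 (h n hn)).2
    have h2 := DF.num_J0_le ((n : ℝ) / 16)
    have h3 : (tr.get n : ℝ) ≤ 131073 := by linarith
    exact_mod_cast h3
  have hf64 : p % 64 < 64 := by omega
  have h1 := hT (p / 64) (by omega)
  have h2 := hT (p / 64 + 1) (by omega)
  have h3 : (64 - p % 64) * tr.get (p / 64) ≤ (64 - p % 64) * 131073 := Nat.mul_le_mul_left _ h1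
  have h4 : p % 64 * tr.get (p / 64 + 1) ≤ p % 64 * 131073 := Nat.mul_le_mul_left _ h2
  have h5 : (64 - p % 64) * 131073 + p % 64 * 131073 = 8388672 := by
    rw [← Nat.add_mul]
    have : 64 - p % 64 + p % 64 = 64 := by omega
    rw [this]
  omega

/-- Interpolation between two columns; `R = 1024 k + t`, `|R / 131072 - d| ≤ 1 / 131072`. -/
theorem u_spec (tr : Tr) (h : TabOK tr) (k t l : ℕ) (hk : k < 519) (ht : t < 1024) (hl : l < 384)
    (d : ℝ) (hd : |(1024 * k + t : ℝ) - 131072 * d| ≤ 1) :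
    |((1024 - t : ℕ) * tf tr k l + t * tf tr (k + 1) l : ℝ) - 1048576 * (J0 ((l : ℝ) / 8 * d) + 1)| ≤
      1024 + l + (l : ℝ) ^ 2 / 16 := by
  have h1 := tf_spec tr h k l (by omega) hl
  have h2 := tf_spec tr h (k + 1) l (by omega) hl
  have hlr : (0 : ℝ) ≤ l := Nat.cast_nonneg l
  have htr0 : (0 : ℝ) ≤ t := Nat.cast_nonneg t
  have htr1 : (t : ℝ) ≤ 1024 := by exact_mod_cast ht.le
  have hc := VSpec_chord ((l : ℝ) * k / 1024) ((l : ℝ) * ((k + 1 : ℕ) : ℝ) / 1024)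
    ((t : ℝ) / 1024) ((l : ℝ) * (1024 * k + t) / 1048576) (by positivity) (by linarith)
    (by push_cast; ring)
  have e1 : ((l : ℝ) * ((k + 1 : ℕ) : ℝ) / 1024 - (l : ℝ) * k / 1024) ^ 2 / 16 =
      (l : ℝ) ^ 2 / 16 / 1048576 := by
    push_cast
    ring
  rw [e1] at hc
  have hL := VSpec_lip ((l : ℝ) * (1024 * k + t) / 1048576) ((l : ℝ) / 8 * d)
  have e2 : (l : ℝ) * (1024 * k + t) / 1048576 - (l : ℝ) / 8 * d =
      (l : ℝ) / 1048576 * ((1024 * k + t : ℝ) - 131072 * d) := by ring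
  rw [e2, abs_mul, abs_of_nonneg (by positivity : (0 : ℝ) ≤ (l : ℝ) / 1048576)] at hL
  have hL2 : (l : ℝ) / 1048576 * |(1024 * k + t : ℝ) - 131072 * d| ≤ (l : ℝ) / 1048576 * 1 :=
    mul_le_mul_of_nonneg_left hd (by positivity)
  have hL3 := hL.trans hL2
  obtain ⟨x, hx⟩ : ∃ x, x = J0 ((l : ℝ) * k / 1024) := ⟨_, rfl⟩
  obtain ⟨y, hy⟩ : ∃ y, y = J0 ((l : ℝ) * ((k + 1 : ℕ) : ℝ) / 1024) := ⟨_, rfl⟩
  obtain ⟨z, hz⟩ : ∃ z, z = J0 ((l : ℝ) * (1024 * k + t) / 1048576) := ⟨_, rfl⟩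
  obtain ⟨w, hw⟩ : ∃ w, w = J0 ((l : ℝ) / 8 * d) := ⟨_, rfl⟩
  rw [← hx] at h1 hc
  rw [← hy] at h2 hc
  rw [← hz] at hc hL3
  rw [← hw] at hL3 ⊢
  rw [Nat.cast_sub ht.le]
  rw [abs_le] at h1 h2 hc hL3
  have g1 : (1024 - (t : ℝ)) * (tf tr k l - 1024 * (x + 1)) ≤ (1024 - t) * 1 :=
    mul_le_mul_of_nonneg_left h1.2 (by linarith)
  have g2 : (1024 - (t : ℝ)) * (-1) ≤ (1024 - t) * (tf tr k l - 1024 * (x + 1)) :=
    mul_le_mul_of_nonneg_left h1.1 (by linarith)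
  have g3 : (t : ℝ) * (tf tr (k + 1) l - 1024 * (y + 1)) ≤ t * 1 :=
    mul_le_mul_of_nonneg_left h2.2 htr0
  have g4 : (t : ℝ) * (-1) ≤ t * (tf tr (k + 1) l - 1024 * (y + 1)) :=
    mul_le_mul_of_nonneg_left h2.1 htr0
  push_cast at g1 g2 g3 g4 ⊢
  rw [abs_le]
  constructor <;> nlinarith

end Pool.Agent.H79.OC
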