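import Pool.Agent.H79.OC.CDefs
import Pool.Agent.H79.OC.Pack
import Pool.Agent.H79.OC.VSpec

set_option autoImplicit false

/-!
# Soundness of the check at the nodes

`ucl_sound`: unfold with `frc_eq`, `rec_false`; the two comparisons give `(r-1)^2 ≤ n ≤ (r+1)^2` with `n = (a^2+b^2) 2^20`, so
`|r - 1024 √(a^2+b^2)| ≤ 1`, `r < 1024 * 519`, `q = r / 1024`, `t = r % 1024`, `u l = (1024-t) tf q l + t tf (q+1) l` and
`u_spec`, `tf_le`, with `d = √(a^2+b^2) / 128`. (Nothing is needed about `nw`.) `ev_sound`: induction on `cs` generalizing `p`, `n`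
(the new ones are `p + mp u`, `n + mm u`); at the end `digits` with `x l = p l + o l - n l`. `dd c (-X/128) (Y/128) =
√(acl^2 + (dl Y)^2) / 128`. `blk_sound`: `allb_iff`, `frc_eq`, `o l = 2^39 + cp - cn`, `n l = c2 l^2`, `p = 0`, `ones_eq`, `sq_eq`,
`mask_eq`.
-/

namespace Pool.Agent.H79.OC

open Finset
open Pool.Agent.H79.DF (J0)

/-- The packed table is correct. -/
def VecOK (tr vr : Tr) : Prop :=
  ∀ k < 520, vr.get k = ∑ l ∈ range 384, tf tr k l * 2 ^ (40 * l)

theorem Node_sqrt (N r : ℕ) (s : ℝ) (hs0 : 0 ≤ s) (hs : s ^ 2 = (N : ℝ))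
    (h1 : (r - 1) * (r - 1) ≤ N * 1048576) (h2 : N * 1048576 ≤ (r + 1) * (r + 1)) :
    |(r : ℝ) - 1024 * s| ≤ 1 := by
  have h2' : (N : ℝ) * 1048576 ≤ ((r : ℝ) + 1) * ((r : ℝ) + 1) := by exact_mod_cast h2
  have hr0 : (0 : ℝ) ≤ r := Nat.cast_nonneg r
  rw [abs_le]
  constructor
  · by_contra hc
    push Not at hc
    have h3 : (r : ℝ) + 1 < 1024 * s := by linarith
    have h4 : ((r : ℝ) + 1) * ((r : ℝ) + 1) < (1024 * s) * (1024 * s) := by
      apply mul_self_lt_mul_self (by linarith) h3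
    nlinarith
  · rcases Nat.eq_zero_or_pos r with h0 | h0
    · subst h0
      simp only [Nat.cast_zero]
      linarith
    · have h1' : ((r : ℝ) - 1) * ((r : ℝ) - 1) ≤ (N : ℝ) * 1048576 := by
        have : ((r - 1 : ℕ) : ℝ) = (r : ℝ) - 1 := by
          rw [Nat.cast_sub (by omega)]; simp
        rw [← this]
        exact_mod_cast h1
      by_contra hc
      push Not at hc
      have h3 : 1024 * s < (r : ℝ) - 1 := by linarith
      have h4 : (1024 * s) * (1024 * s) < ((r : ℝ) - 1) * ((r : ℝ) - 1) := by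
        apply mul_self_lt_mul_self (by linarith) h3
      nlinarith

/-- One class at a node. -/
theorem ucl_sound (tr vr : Tr) (ht : TabOK tr) (hv : VecOK tr vr) (a b : ℕ)
    (hab : a * a + b * b ≤ 268000) (K : ℕ → Bool) (h : ucl vr a b K = true) :
    ∃ u : ℕ → ℕ, K (∑ l ∈ range 384, u l * 2 ^ (40 * l)) = true ∧ (∀ l < 384, u l ≤ 2097152) ∧
      ∀ l < 384, |(u l : ℝ) -
        1048576 * (J0 ((l : ℝ) / 8 * (Real.sqrt ((a : ℝ) ^ 2 + (b : ℝ) ^ 2) / 128)) + 1)| ≤
        1024 + l + (l : ℝ) ^ 2 / 16 := by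
  unfold ucl at h
  simp only [frc_eq] at h
  obtain ⟨n, hn⟩ : ∃ n, n = Nat.shiftLeft (Nat.add (Nat.mul a a) (Nat.mul b b)) 20 := ⟨_, rfl⟩
  rw [← hn] at h
  obtain ⟨r, hr⟩ : ∃ r, r = nw n (nw n (nw n (nw n (Nat.shiftLeft (Nat.add a b) 10)))) := ⟨_, rfl⟩
  rw [← hr] at h
  clear hr
  rw [rec_false, Bool.and_eq_true, rec_false, Bool.and_eq_true] at h
  obtain ⟨h1, h2, h3⟩ := h
  have hn' : n = (a * a + b * b) * 1048576 := by
    rw [hn]
    show (a * a + b * b) <<< 20 = _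
    rw [Nat.shiftLeft_eq]
  have h1' : (r - 1) * (r - 1) ≤ (a * a + b * b) * 1048576 := by
    rw [← hn']; exact Nat.le_of_ble_eq_true h1
  have h2' : (a * a + b * b) * 1048576 ≤ (r + 1) * (r + 1) := by
    rw [← hn']; exact Nat.le_of_ble_eq_true h2
  have hrb : r < 531456 := by
    by_contra hc
    push Not at hc
    have h4 : 531455 * 531455 ≤ (r - 1) * (r - 1) := Nat.mul_le_mul (by omega) (by omega)
    omega
  have hq : Nat.shiftRight r 10 = r / 1024 := by
    show r >>> 10 = _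
    rw [Nat.shiftRight_eq_div_pow]
  have htt : Nat.land r 1023 = r % 1024 := by
    show r &&& 1023 = _
    exact Nat.and_two_pow_sub_one_eq_mod r 10
  rw [hq, htt] at h3
  have hq519 : r / 1024 < 519 := by omega
  have ht1024 : r % 1024 < 1024 := Nat.mod_lt _ (by norm_num)
  refine ⟨fun l => (1024 - r % 1024) * tf tr (r / 1024) l + (r % 1024) * tf tr (r / 1024 + 1) l,
    ?_, ?_, ?_⟩
  · have e : ∑ l ∈ range 384, ((1024 - r % 1024) * tf tr (r / 1024) l +
        (r % 1024) * tf tr (r / 1024 + 1) l) * 2 ^ (40 * l) =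
        (1024 - r % 1024) * vr.get (r / 1024) + (r % 1024) * vr.get (r / 1024 + 1) := by
      rw [hv _ (by omega), hv _ (by omega), Finset.mul_sum, Finset.mul_sum, ← Finset.sum_add_distrib]
      refine Finset.sum_congr rfl fun l _ => ?_
      ring
    show K (∑ l ∈ range 384, ((1024 - r % 1024) * tf tr (r / 1024) l +
        (r % 1024) * tf tr (r / 1024 + 1) l) * 2 ^ (40 * l)) = true
    rw [e]
    exact h3
  · intro l hl
    have e1 := tf_le tr ht (r / 1024) l (by omega) hl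
    have e2 := tf_le tr ht (r / 1024 + 1) l (by omega) hl
    show (1024 - r % 1024) * tf tr (r / 1024) l + (r % 1024) * tf tr (r / 1024 + 1) l ≤ 2097152
    calc (1024 - r % 1024) * tf tr (r / 1024) l + (r % 1024) * tf tr (r / 1024 + 1) l
        ≤ (1024 - r % 1024) * 2048 + (r % 1024) * 2048 :=
          Nat.add_le_add (Nat.mul_le_mul_left _ e1) (Nat.mul_le_mul_left _ e2)
      _ = 2097152 := by omega
  · intro l hl
    have hs : |((1024 * (r / 1024 : ℕ) + (r % 1024 : ℕ) : ℝ)) -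
        131072 * (Real.sqrt ((a : ℝ) ^ 2 + (b : ℝ) ^ 2) / 128)| ≤ 1 := by
      have e3 : (1024 * ((r / 1024 : ℕ) : ℝ) + ((r % 1024 : ℕ) : ℝ)) = (r : ℝ) := by
        have := Nat.div_add_mod r 1024
        exact_mod_cast this
      rw [e3]
      have e4 := Node_sqrt (a * a + b * b) r (Real.sqrt ((a : ℝ) ^ 2 + (b : ℝ) ^ 2))
        (Real.sqrt_nonneg _) (by
          rw [Real.sq_sqrt (add_nonneg (sq_nonneg _) (sq_nonneg _))]
          push_cast
          ring) h1' h2'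
      have e5 : 131072 * (Real.sqrt ((a : ℝ) ^ 2 + (b : ℝ) ^ 2) / 128) =
          1024 * Real.sqrt ((a : ℝ) ^ 2 + (b : ℝ) ^ 2) := by ring
      rw [e5]
      exact e4
    have := u_spec tr ht (r / 1024) (r % 1024) l hq519 ht1024 hl _ hs
    push_cast at this ⊢
    exact this

/-- `128 (i + (sp - sm) x)` at the node, in absolute value. -/
def acl (c : Cl) (X : ℕ) : ℕ :=
  ((128 * c.i + c.sm * X) - c.sp * X) + (c.sp * X - (128 * c.i + c.sm * X))

theorem Node_dd (c : Cl) (X Y : ℕ) :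
    dd c (-((X : ℝ) / 128)) ((Y : ℝ) / 128) =
      Real.sqrt (((acl c X : ℕ) : ℝ) ^ 2 + (((c.dl * Y : ℕ)) : ℝ) ^ 2) / 128 := by
  have h1 : ((acl c X : ℕ) : ℝ) ^ 2 = (128 * (c.i : ℝ) + c.sm * X - c.sp * X) ^ 2 := by
    unfold acl
    rcases le_total (c.sp * X) (128 * c.i + c.sm * X) with h | h
    · rw [Nat.sub_eq_zero_of_le h, Nat.add_zero, Nat.cast_sub h]
      push_cast
      ring
    · rw [Nat.sub_eq_zero_of_le h, Nat.zero_add, Nat.cast_sub h]
      push_cast
      ring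
  unfold dd
  rw [h1]
  have h2 : Real.sqrt ((128 * (c.i : ℝ) + c.sm * X - c.sp * X) ^ 2 + (((c.dl * Y : ℕ)) : ℝ) ^ 2) / 128 =
      Real.sqrt (((128 * (c.i : ℝ) + c.sm * X - c.sp * X) ^ 2 + (((c.dl * Y : ℕ)) : ℝ) ^ 2) / 128 ^ 2) := by
    rw [Real.sqrt_div (add_nonneg (sq_nonneg _) (sq_nonneg _)), Real.sqrt_sq (by norm_num)]
  rw [h2]
  congr 1
  push_cast
  ring

theorem ev_sound (tr vr : Tr) (ht : TabOK tr) (hv : VecOK tr vr) (X Y : ℕ) (o : ℕ → ℕ) (cs : List Cl)
    (hN : ∀ c ∈ cs, acl c X * acl c X + (c.dl * Y) * (c.dl * Y) ≤ 268000) (p n : ℕ → ℕ)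
    (hp : ∀ l < 384, p l + o l + 2097152 * sc Cl.mp cs < 2 ^ 40)
    (hn : ∀ l < 384, n l + 2097152 * sc Cl.mm cs ≤ o l)
    (h : ev vr X Y cs (∑ l ∈ range 384, p l * 2 ^ (40 * l)) (∑ l ∈ range 384, n l * 2 ^ (40 * l))
      (∑ l ∈ range 384, o l * 2 ^ (40 * l)) = true) :
    ∀ l < 384, (2 ^ 39 : ℝ) ≤ (p l : ℝ) + (o l : ℝ) - (n l : ℝ) +
      (cs.map fun c => wt c * (1048576 * (J0 ((l : ℝ) / 8 *
        dd c (-((X : ℝ) / 128)) ((Y : ℝ) / 128)) + 1)) +
        ((c.mp : ℝ) + c.mm) * (1024 + l + (l : ℝ) ^ 2 / 16)).sum := by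
  induction cs generalizing p n with
  | nil =>
    intro l hl
    have hn0 : ∀ l < 384, n l ≤ o l := fun l hl => le_trans (Nat.le_add_right _ _) (hn l hl)
    have hp0 : ∀ l < 384, p l + o l < 2 ^ 40 := fun l hl =>
      lt_of_le_of_lt (Nat.le_add_right _ _) (hp l hl)
    have h' : Nat.land ((∑ l ∈ range 384, p l * 2 ^ (40 * l)) + (∑ l ∈ range 384, o l * 2 ^ (40 * l)) -
        (∑ l ∈ range 384, n l * 2 ^ (40 * l))) MASK = MASK := Nat.eq_of_beq_eq_true h
    have e : (∑ l ∈ range 384, p l * 2 ^ (40 * l)) + (∑ l ∈ range 384, o l * 2 ^ (40 * l)) -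
        (∑ l ∈ range 384, n l * 2 ^ (40 * l)) =
        ∑ l ∈ range 384, (p l + o l - n l) * 2 ^ (40 * l) := by
      apply Nat.sub_eq_of_eq_add
      rw [← Finset.sum_add_distrib, ← Finset.sum_add_distrib]
      refine Finset.sum_congr rfl fun l hl => ?_
      rw [← Nat.add_mul, ← Nat.add_mul]
      congr 1
      have := hn0 l (Finset.mem_range.1 hl)
      omega
    rw [e] at h'
    have h2 := digits (fun l => p l + o l - n l) (fun l hl => lt_of_le_of_lt (Nat.sub_le _ _) (hp0 l hl))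
      h' l hl
    have h3 : (2 ^ 39 : ℕ) + n l ≤ p l + o l := by
      have := hn0 l hl
      have h4 : 2 ^ 39 ≤ p l + o l - n l := h2
      omega
    have h5 : (2 ^ 39 : ℝ) + (n l : ℝ) ≤ (p l : ℝ) + (o l : ℝ) := by exact_mod_cast h3
    simp only [List.map_nil, List.sum_nil]
    linarith
  | cons c cs ih =>
    intro l hl
    have hc := hN c (List.mem_cons_self ..)
    have hsp : sc Cl.mp (c :: cs) = c.mp + sc Cl.mp cs := by simp [sc]
    have hsm : sc Cl.mm (c :: cs) = c.mm + sc Cl.mm cs := by simp [sc]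
    have h' : ucl vr (acl c X) (c.dl * Y) (fun U => ev vr X Y cs
        (Nat.add (∑ l ∈ range 384, p l * 2 ^ (40 * l)) (Nat.mul c.mp U))
        (Nat.add (∑ l ∈ range 384, n l * 2 ^ (40 * l)) (Nat.mul c.mm U))
        (∑ l ∈ range 384, o l * 2 ^ (40 * l))) = true := by
      cases c with
      | cl i sp sm dl mp mm tl =>
        have h1 : frc (Nat.add (Nat.sub (Nat.add (Nat.mul 128 i) (Nat.mul sm X)) (Nat.mul sp X))
            (Nat.sub (Nat.mul sp X) (Nat.add (Nat.mul 128 i) (Nat.mul sm X)))) (fun a =>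
            frc (Nat.mul dl Y) (fun b => ucl vr a b fun U => ev vr X Y cs
              (Nat.add (∑ l ∈ range 384, p l * 2 ^ (40 * l)) (Nat.mul mp U))
              (Nat.add (∑ l ∈ range 384, n l * 2 ^ (40 * l)) (Nat.mul mm U))
              (∑ l ∈ range 384, o l * 2 ^ (40 * l)))) = true := h
        rw [frc_eq, frc_eq] at h1
        exact h1
    obtain ⟨u, hu1, hu2, hu3⟩ := ucl_sound tr vr ht hv _ _ hc _ h'
    have ep : Nat.add (∑ l ∈ range 384, p l * 2 ^ (40 * l))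
        (Nat.mul c.mp (∑ l ∈ range 384, u l * 2 ^ (40 * l))) =
        ∑ l ∈ range 384, (p l + c.mp * u l) * 2 ^ (40 * l) := by
      show (∑ l ∈ range 384, p l * 2 ^ (40 * l)) + c.mp * (∑ l ∈ range 384, u l * 2 ^ (40 * l)) = _
      rw [Finset.mul_sum, ← Finset.sum_add_distrib]
      refine Finset.sum_congr rfl fun l _ => ?_
      ring
    have en : Nat.add (∑ l ∈ range 384, n l * 2 ^ (40 * l))
        (Nat.mul c.mm (∑ l ∈ range 384, u l * 2 ^ (40 * l))) =
        ∑ l ∈ range 384, (n l + c.mm * u l) * 2 ^ (40 * l) := by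
      show (∑ l ∈ range 384, n l * 2 ^ (40 * l)) + c.mm * (∑ l ∈ range 384, u l * 2 ^ (40 * l)) = _
      rw [Finset.mul_sum, ← Finset.sum_add_distrib]
      refine Finset.sum_congr rfl fun l _ => ?_
      ring
    have hu1' : ev vr X Y cs (∑ l ∈ range 384, (p l + c.mp * u l) * 2 ^ (40 * l))
        (∑ l ∈ range 384, (n l + c.mm * u l) * 2 ^ (40 * l))
        (∑ l ∈ range 384, o l * 2 ^ (40 * l)) = true := by
      rw [← ep, ← en]
      exact hu1
    have key := ih (fun c hc => hN c (List.mem_cons_of_mem _ hc)) (fun l => p l + c.mp * u l)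
      (fun l => n l + c.mm * u l)
      (fun l hl => by
        have e1 := hp l hl
        rw [hsp] at e1
        have e2 : c.mp * u l ≤ c.mp * 2097152 := Nat.mul_le_mul_left _ (hu2 l hl)
        show p l + c.mp * u l + o l + 2097152 * sc Cl.mp cs < 2 ^ 40
        calc p l + c.mp * u l + o l + 2097152 * sc Cl.mp cs
            ≤ p l + c.mp * 2097152 + o l + 2097152 * sc Cl.mp cs := by omega
          _ = p l + o l + 2097152 * (c.mp + sc Cl.mp cs) := by ring
          _ < 2 ^ 40 := e1)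
      (fun l hl => by
        have e1 := hn l hl
        rw [hsm] at e1
        have e2 : c.mm * u l ≤ c.mm * 2097152 := Nat.mul_le_mul_left _ (hu2 l hl)
        show n l + c.mm * u l + 2097152 * sc Cl.mm cs ≤ o l
        calc n l + c.mm * u l + 2097152 * sc Cl.mm cs
            ≤ n l + c.mm * 2097152 + 2097152 * sc Cl.mm cs := by omega
          _ = n l + 2097152 * (c.mm + sc Cl.mm cs) := by ring
          _ ≤ o l := e1) hu1' l hl
    rw [List.map_cons, List.sum_cons]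
    have hd := hu3 l hl
    rw [← Node_dd] at hd
    rw [abs_le] at hd
    have hmp : (0 : ℝ) ≤ c.mp := Nat.cast_nonneg _
    have hmm : (0 : ℝ) ≤ c.mm := Nat.cast_nonneg _
    push_cast at key
    obtain ⟨hd1, hd2⟩ := hd
    have f1 := mul_le_mul_of_nonneg_left hd2 hmp
    have f2 := mul_le_mul_of_nonneg_left hd1 hmm
    unfold wt
    unfold wt at key
    linarith

theorem blk_sound (tr vr : Tr) (ht : TabOK tr) (hv : VecOK tr vr) (cs : List Cl)
    (x0 nx y0 ny cp cn c2 : ℕ)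
    (hN : ∀ c ∈ cs, ∀ X Y, x0 ≤ X → X < x0 + nx → y0 ≤ Y → Y < y0 + ny →
      acl c X * acl c X + (c.dl * Y) * (c.dl * Y) ≤ 268000)
    (hp : sc Cl.mp cs * 4194304 + cp < 549755813888)
    (hn : sc Cl.mm cs * 4194304 + c2 * 147456 + cn ≤ 549755813888)
    (h : blk vr cs x0 nx y0 ny cp cn c2 = true) :
    ∀ X Y l : ℕ, x0 ≤ X → X < x0 + nx → y0 ≤ Y → Y < y0 + ny → l < 384 →
      0 ≤ (cp : ℝ) - cn - c2 * (l : ℝ) ^ 2 +
      (cs.map fun c => wt c * (1048576 * (J0 ((l : ℝ) / 8 *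
        dd c (-((X : ℝ) / 128)) ((Y : ℝ) / 128)) + 1)) +
        ((c.mp : ℝ) + c.mm) * (1024 + l + (l : ℝ) ^ 2 / 16)).sum := by
  intro X Y l hX1 hX2 hY1 hY2 hl
  unfold blk at h
  rw [allb_iff] at h
  have h1 := h (X - x0) (by omega)
  rw [allb_iff] at h1
  have h2 := h1 (Y - y0) (by omega)
  rw [frc_eq, frc_eq] at h2
  have eX : Nat.add x0 (X - x0) = X := by
    show x0 + (X - x0) = X
    omega
  have eY : Nat.add y0 (Y - y0) = Y := by
    show y0 + (Y - y0) = Y
    omega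
  rw [eX, eY] at h2
  have eo : Nat.sub (Nat.add MASK (Nat.mul cp ONES)) (Nat.mul cn ONES) =
      ∑ l ∈ range 384, (2 ^ 39 + cp - cn) * 2 ^ (40 * l) := by
    show MASK + cp * ONES - cn * ONES = _
    rw [mask_eq, ones_eq, Finset.mul_sum, Finset.mul_sum]
    apply Nat.sub_eq_of_eq_add
    rw [← Finset.sum_add_distrib, ← Finset.sum_add_distrib]
    refine Finset.sum_congr rfl fun l _ => ?_
    rw [← Nat.add_mul, ← Nat.add_mul]
    congr 1
    have : (2 : ℕ) ^ 39 = 549755813888 := by norm_num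
    omega
  have es : Nat.mul c2 SQ = ∑ l ∈ range 384, (c2 * (l * l)) * 2 ^ (40 * l) := by
    show c2 * SQ = _
    rw [sq_eq, Finset.mul_sum]
    refine Finset.sum_congr rfl fun l _ => ?_
    ring
  have ez : (0 : ℕ) = ∑ l ∈ range 384, 0 * 2 ^ (40 * l) := by simp
  rw [eo, es] at h2
  have h3 : ev vr X Y cs (∑ l ∈ range 384, (fun _ => 0 : ℕ → ℕ) l * 2 ^ (40 * l))
      (∑ l ∈ range 384, (fun l => c2 * (l * l) : ℕ → ℕ) l * 2 ^ (40 * l))
      (∑ l ∈ range 384, (fun _ => 2 ^ 39 + cp - cn : ℕ → ℕ) l * 2 ^ (40 * l)) = true := by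
    have e0 : (∑ l ∈ range 384, (fun _ => 0 : ℕ → ℕ) l * 2 ^ (40 * l)) = 0 := by simp
    rw [e0]
    exact h2
  have key := ev_sound tr vr ht hv X Y (fun _ => 2 ^ 39 + cp - cn) cs
    (fun c hc => hN c hc X Y hX1 hX2 hY1 hY2) (fun _ => 0) (fun l => c2 * (l * l))
    (fun l _ => by
      show 0 + (2 ^ 39 + cp - cn) + 2097152 * sc Cl.mp cs < 2 ^ 40
      have : (2 : ℕ) ^ 39 = 549755813888 := by norm_num
      have : (2 : ℕ) ^ 40 = 1099511627776 := by norm_num
      omega)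
    (fun l hl => by
      show c2 * (l * l) + 2097152 * sc Cl.mm cs ≤ 2 ^ 39 + cp - cn
      have h5 : l * l ≤ 147456 := by
        calc l * l ≤ 384 * 384 := Nat.mul_le_mul hl.le hl.le
          _ = 147456 := by norm_num
      have h6 : c2 * (l * l) ≤ c2 * 147456 := Nat.mul_le_mul_left _ h5
      have : (2 : ℕ) ^ 39 = 549755813888 := by norm_num
      omega) h3 l hl
  have e7 : ((2 ^ 39 + cp - cn : ℕ) : ℝ) = 2 ^ 39 + (cp : ℝ) - cn := by
    rw [Nat.cast_sub (by
      have : (2 : ℕ) ^ 39 = 549755813888 := by norm_num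
      omega)]
    push_cast
    ring
  rw [e7] at key
  have e8 : ((c2 * (l * l) : ℕ) : ℝ) = c2 * (l : ℝ) ^ 2 := by
    push_cast
    ring
  rw [e8] at key
  have e9 : (((fun _ => 0 : ℕ → ℕ) l : ℕ) : ℝ) = 0 := by simp
  rw [e9] at key
  linarith

end Pool.Agent.H79.OC
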