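import Pool.Agent.H79.OC.Tab1

set_option autoImplicit false
set_option maxRecDepth 100000

/-!
# Check of the table of `J0`, part 1
-/

namespace Pool.Agent.H79.OC

theorem okr_0 : okr t1Tree 0 196 = true := by decide +kernel

theorem okr_1 : okr t1Tree 196 196 = true := by decide +kernel

theorem okr_2 : okr t1Tree 392 196 = true := by decide +kernel

theorem okr_3 : okr t1Tree 588 196 = true := by decide +kernel

end Pool.Agent.H79.OC
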