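import Pool.Agent.H79.OC.Tab1

set_option autoImplicit false
set_option maxRecDepth 100000

/-!
# Check of the table of `J0`, part 2
-/

namespace Pool.Agent.H79.OC

theorem okr_4 : okr t1Tree 784 196 = true := by decide +kernel

theorem okr_5 : okr t1Tree 980 196 = true := by decide +kernel

theorem okr_6 : okr t1Tree 1176 196 = true := by decide +kernel

theorem okr_7 : okr t1Tree 1372 196 = true := by decide +kernel

end Pool.Agent.H79.OC
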