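import Pool.Agent.H79.OC.Tab1
import Pool.Agent.H79.OC.VTab

set_option autoImplicit false
set_option maxRecDepth 100000

/-!
# Check of the packed table, part 2
-/

namespace Pool.Agent.H79.OC

theorem okv_1 : okv t1Tree vtTree 40 40 = true := by decide +kernel

theorem okv_5 : okv t1Tree vtTree 200 40 = true := by decide +kernel

theorem okv_9 : okv t1Tree vtTree 360 40 = true := by decide +kernel

end Pool.Agent.H79.OC
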