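import Pool.Agent.H79.OC.Ser
import Pool.Agent.H79.OC.Node
import Pool.Agent.H79.OC.Ta0
import Pool.Agent.H79.OC.Ta1
import Pool.Agent.H79.OC.Ta2
import Pool.Agent.H79.OC.Ta3
import Pool.Agent.H79.OC.Tv0
import Pool.Agent.H79.OC.Tv1
import Pool.Agent.H79.OC.Tv2
import Pool.Agent.H79.OC.Tv3

set_option autoImplicit false

/-!
# The tables are correct
-/

namespace Pool.Agent.H79.OC

open Pool.Agent.H79.DF (J0)

theorem okr_mem (tr : Tr) (a n : ℕ) (h : okr tr a n = true) (k : ℕ) (h0 : a ≤ k) (h1 : k < a + n) :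
    ok1 k (tr.get k) = true := by
  unfold okr at h
  rw [allb_iff] at h
  have h2 := h (k - a) (by omega)
  rw [frc_eq, frc_eq] at h2
  have h3 : Nat.add a (k - a) = k := Nat.add_sub_cancel' h0
  rw [h3] at h2
  exact h2

theorem okv_mem (tr vr : Tr) (a n : ℕ) (h : okv tr vr a n = true) (k : ℕ) (h0 : a ≤ k)
    (h1 : k < a + n) : vr.get k = pv (tf tr k) := by
  unfold okv at h
  rw [allb_iff] at h
  have h2 := h (k - a) (by omega)
  rw [frc_eq] at h2
  have h3 : Nat.add a (k - a) = k := Nat.add_sub_cancel' h0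
  rw [h3] at h2
  exact Nat.eq_of_beq_eq_true h2

theorem t1_ok (k : ℕ) (hk : k < 3136) : ok1 k (t1Tree.get k) = true := by
  rcases Nat.lt_or_ge k 196 with h0 | h0
  · exact okr_mem _ _ _ okr_0 k (by omega) (by omega)
  rcases Nat.lt_or_ge k 392 with h1 | h1
  · exact okr_mem _ _ _ okr_1 k (by omega) (by omega)
  rcases Nat.lt_or_ge k 588 with h2 | h2
  · exact okr_mem _ _ _ okr_2 k (by omega) (by omega)
  rcases Nat.lt_or_ge k 784 with h3 | h3
  · exact okr_mem _ _ _ okr_3 k (by omega) (by omega)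
  rcases Nat.lt_or_ge k 980 with h4 | h4
  · exact okr_mem _ _ _ okr_4 k (by omega) (by omega)
  rcases Nat.lt_or_ge k 1176 with h5 | h5
  · exact okr_mem _ _ _ okr_5 k (by omega) (by omega)
  rcases Nat.lt_or_ge k 1372 with h6 | h6
  · exact okr_mem _ _ _ okr_6 k (by omega) (by omega)
  rcases Nat.lt_or_ge k 1568 with h7 | h7
  · exact okr_mem _ _ _ okr_7 k (by omega) (by omega)
  rcases Nat.lt_or_ge k 1764 with h8 | h8
  · exact okr_mem _ _ _ okr_8 k (by omega) (by omega)
  rcases Nat.lt_or_ge k 1960 with h9 | h9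
  · exact okr_mem _ _ _ okr_9 k (by omega) (by omega)
  rcases Nat.lt_or_ge k 2156 with h10 | h10
  · exact okr_mem _ _ _ okr_10 k (by omega) (by omega)
  rcases Nat.lt_or_ge k 2352 with h11 | h11
  · exact okr_mem _ _ _ okr_11 k (by omega) (by omega)
  rcases Nat.lt_or_ge k 2548 with h12 | h12
  · exact okr_mem _ _ _ okr_12 k (by omega) (by omega)
  rcases Nat.lt_or_ge k 2744 with h13 | h13
  · exact okr_mem _ _ _ okr_13 k (by omega) (by omega)
  rcases Nat.lt_or_ge k 2940 with h14 | h14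
  · exact okr_mem _ _ _ okr_14 k (by omega) (by omega)
  exact okr_mem _ _ _ okr_15 k (by omega) (by omega)

theorem vt_ok (k : ℕ) (hk : k < 520) : vtTree.get k = pv (tf t1Tree k) := by
  rcases Nat.lt_or_ge k 40 with h0 | h0
  · exact okv_mem _ _ _ _ okv_0 k (by omega) (by omega)
  rcases Nat.lt_or_ge k 80 with h1 | h1
  · exact okv_mem _ _ _ _ okv_1 k (by omega) (by omega)
  rcases Nat.lt_or_ge k 120 with h2 | h2
  · exact okv_mem _ _ _ _ okv_2 k (by omega) (by omega)
  rcases Nat.lt_or_ge k 160 with h3 | h3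
  · exact okv_mem _ _ _ _ okv_3 k (by omega) (by omega)
  rcases Nat.lt_or_ge k 200 with h4 | h4
  · exact okv_mem _ _ _ _ okv_4 k (by omega) (by omega)
  rcases Nat.lt_or_ge k 240 with h5 | h5
  · exact okv_mem _ _ _ _ okv_5 k (by omega) (by omega)
  rcases Nat.lt_or_ge k 280 with h6 | h6
  · exact okv_mem _ _ _ _ okv_6 k (by omega) (by omega)
  rcases Nat.lt_or_ge k 320 with h7 | h7
  · exact okv_mem _ _ _ _ okv_7 k (by omega) (by omega)
  rcases Nat.lt_or_ge k 360 with h8 | h8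
  · exact okv_mem _ _ _ _ okv_8 k (by omega) (by omega)
  rcases Nat.lt_or_ge k 400 with h9 | h9
  · exact okv_mem _ _ _ _ okv_9 k (by omega) (by omega)
  rcases Nat.lt_or_ge k 440 with h10 | h10
  · exact okv_mem _ _ _ _ okv_10 k (by omega) (by omega)
  rcases Nat.lt_or_ge k 480 with h11 | h11
  · exact okv_mem _ _ _ _ okv_11 k (by omega) (by omega)
  exact okv_mem _ _ _ _ okv_12 k (by omega) (by omega)

theorem tabOK : TabOK t1Tree := fun n hn => ok1_sound n _ (t1_ok n hn)

theorem vecOK : VecOK t1Tree vtTree := fun k hk => by rw [vt_ok k hk, pv_eq]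

end Pool.Agent.H79.OC
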