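import Pool.Agent.H79.OC.Dens
import Pool.Agent.H79.OC.Tabs
import Pool.Agent.H79.OC.Bx0
import Pool.Agent.H79.OC.Bx1
import Pool.Agent.H79.OC.Bx2
import Pool.Agent.H79.OC.Bx3
import Pool.Agent.H79.OC.Bx4
import Pool.Agent.H79.OC.Bx5
import Pool.Agent.H79.OC.Bx6
import Pool.Agent.H79.OC.Bx7
import Pool.Agent.H79.OC.Bx8
import Pool.Agent.H79.OC.Bx9
import Pool.Agent.H79.OC.Bx10
import Pool.Agent.H79.OC.Bx11
import Pool.Agent.H79.OC.Bx12
import Pool.Agent.H79.OC.Bx13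
import Pool.Agent.H79.OC.Bx14
import Pool.Agent.H79.OC.Bx15
import Pool.Agent.H79.OC.Bx16
import Pool.Agent.H79.OC.Bx17
import Pool.Agent.H79.OC.Bx18
import Pool.Agent.H79.OC.Bx19
import Pool.Agent.H79.OC.Bx20
import Pool.Agent.H79.OC.Bx21
import Pool.Agent.H79.OC.Bx22
import Pool.Agent.H79.OC.Bx23

set_option autoImplicit false
set_option maxRecDepth 100000

/-!
# The boxes cover the region
-/

namespace Pool.Agent.H79.OC

/-- The point `x + i y` is in the box, units 1/128 for `-x` and `y`. -/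
def InB (x0 nx y0 ny : ℕ) (x y : ℝ) : Prop :=
  (x0 : ℝ) / 128 ≤ -x ∧ -x ≤ (x0 + nx : ℕ) / 128 ∧ (y0 : ℝ) / 128 ≤ y ∧ y ≤ (y0 + ny : ℕ) / 128

/-- The boxes. -/
def boxes : List (ℕ × ℕ × ℕ × ℕ) :=
  [(96, 16, 48, 16), (96, 16, 64, 16), (96, 16, 80, 16), (80, 16, 32, 16), (80, 16, 48, 16),
   (80, 16, 64, 16), (80, 16, 80, 16), (80, 16, 96, 16), (64, 16, 32, 16), (64, 16, 48, 16),
   (64, 16, 64, 16), (64, 16, 80, 16), (64, 16, 96, 16), (48, 16, 16, 16), (48, 16, 32, 16),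
   (48, 16, 48, 16), (48, 16, 64, 16), (48, 16, 80, 16), (48, 16, 96, 16), (48, 16, 112, 16),
   (32, 16, 16, 16), (32, 16, 32, 16), (32, 16, 48, 16), (32, 16, 64, 16), (32, 16, 80, 16),
   (32, 16, 96, 16), (32, 16, 112, 16), (16, 16, 16, 16), (16, 16, 32, 16), (16, 16, 48, 16),
   (16, 16, 64, 16), (16, 16, 80, 16), (16, 16, 96, 16), (16, 16, 112, 16), (0, 16, 16, 16),
   (0, 16, 32, 16), (0, 16, 48, 16), (0, 16, 64, 16), (0, 16, 80, 16), (0, 16, 96, 16),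
   (0, 16, 112, 16)]

theorem bx0 (x y : ℝ) (h : InB 96 16 48 16 x y) : GoodXY x y :=
  box_good t1Tree vtTree tabOK vecOK ct0 cs0 _ _ _ _ _ _ _ _ ct0_valid ct0_link ct0_const
    cs0_tail cs0_grid x y h.1 h.2.1 h.2.2.1 h.2.2.2

theorem bx1 (x y : ℝ) (h : InB 96 16 64 16 x y) : GoodXY x y :=
  box_good t1Tree vtTree tabOK vecOK ct1 cs1 _ _ _ _ _ _ _ _ ct1_valid ct1_link ct1_const
    cs1_tail cs1_grid x y h.1 h.2.1 h.2.2.1 h.2.2.2

theorem bx2 (x y : ℝ) (h : InB 96 16 80 16 x y) : GoodXY x y :=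
  box_good t1Tree vtTree tabOK vecOK ct2 cs2 _ _ _ _ _ _ _ _ ct2_valid ct2_link ct2_const
    cs2_tail cs2_grid x y h.1 h.2.1 h.2.2.1 h.2.2.2

theorem bx3 (x y : ℝ) (h : InB 80 16 32 16 x y) : GoodXY x y :=
  box_good t1Tree vtTree tabOK vecOK ct3 cs3 _ _ _ _ _ _ _ _ ct3_valid ct3_link ct3_const
    cs3_tail cs3_grid x y h.1 h.2.1 h.2.2.1 h.2.2.2

theorem bx4 (x y : ℝ) (h : InB 80 16 48 16 x y) : GoodXY x y :=
  box_good t1Tree vtTree tabOK vecOK ct4 cs4 _ _ _ _ _ _ _ _ ct4_valid ct4_link ct4_const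
    cs4_tail cs4_grid x y h.1 h.2.1 h.2.2.1 h.2.2.2

theorem bx5 (x y : ℝ) (h : InB 80 16 64 16 x y) : GoodXY x y :=
  box_good t1Tree vtTree tabOK vecOK ct5 cs5 _ _ _ _ _ _ _ _ ct5_valid ct5_link ct5_const
    cs5_tail cs5_grid x y h.1 h.2.1 h.2.2.1 h.2.2.2

theorem bx6 (x y : ℝ) (h : InB 80 16 80 16 x y) : GoodXY x y :=
  box_good t1Tree vtTree tabOK vecOK ct6 cs6 _ _ _ _ _ _ _ _ ct6_valid ct6_link ct6_const
    cs6_tail cs6_grid x y h.1 h.2.1 h.2.2.1 h.2.2.2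

theorem bx7 (x y : ℝ) (h : InB 80 16 96 16 x y) : GoodXY x y :=
  box_good t1Tree vtTree tabOK vecOK ct7 cs7 _ _ _ _ _ _ _ _ ct7_valid ct7_link ct7_const
    cs7_tail cs7_grid x y h.1 h.2.1 h.2.2.1 h.2.2.2

theorem bx8 (x y : ℝ) (h : InB 64 16 32 16 x y) : GoodXY x y :=
  box_good t1Tree vtTree tabOK vecOK ct8 cs8 _ _ _ _ _ _ _ _ ct8_valid ct8_link ct8_const
    cs8_tail cs8_grid x y h.1 h.2.1 h.2.2.1 h.2.2.2

theorem bx9 (x y : ℝ) (h : InB 64 16 48 16 x y) : GoodXY x y :=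
  box_good t1Tree vtTree tabOK vecOK ct9 cs9 _ _ _ _ _ _ _ _ ct9_valid ct9_link ct9_const
    cs9_tail cs9_grid x y h.1 h.2.1 h.2.2.1 h.2.2.2

theorem bx10 (x y : ℝ) (h : InB 64 16 64 16 x y) : GoodXY x y :=
  box_good t1Tree vtTree tabOK vecOK ct10 cs10 _ _ _ _ _ _ _ _ ct10_valid ct10_link ct10_const
    cs10_tail cs10_grid x y h.1 h.2.1 h.2.2.1 h.2.2.2

theorem bx11 (x y : ℝ) (h : InB 64 16 80 16 x y) : GoodXY x y :=
  box_good t1Tree vtTree tabOK vecOK ct11 cs11 _ _ _ _ _ _ _ _ ct11_valid ct11_link ct11_const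
    cs11_tail cs11_grid x y h.1 h.2.1 h.2.2.1 h.2.2.2

theorem bx12 (x y : ℝ) (h : InB 64 16 96 16 x y) : GoodXY x y :=
  box_good t1Tree vtTree tabOK vecOK ct12 cs12 _ _ _ _ _ _ _ _ ct12_valid ct12_link ct12_const
    cs12_tail cs12_grid x y h.1 h.2.1 h.2.2.1 h.2.2.2

theorem bx13 (x y : ℝ) (h : InB 48 16 16 16 x y) : GoodXY x y :=
  box_good t1Tree vtTree tabOK vecOK ct13 cs13 _ _ _ _ _ _ _ _ ct13_valid ct13_link ct13_const
    cs13_tail cs13_grid x y h.1 h.2.1 h.2.2.1 h.2.2.2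

theorem bx14 (x y : ℝ) (h : InB 48 16 32 16 x y) : GoodXY x y :=
  box_good t1Tree vtTree tabOK vecOK ct14 cs14 _ _ _ _ _ _ _ _ ct14_valid ct14_link ct14_const
    cs14_tail cs14_grid x y h.1 h.2.1 h.2.2.1 h.2.2.2

theorem bx15 (x y : ℝ) (h : InB 48 16 48 16 x y) : GoodXY x y :=
  box_good t1Tree vtTree tabOK vecOK ct15 cs15 _ _ _ _ _ _ _ _ ct15_valid ct15_link ct15_const
    cs15_tail cs15_grid x y h.1 h.2.1 h.2.2.1 h.2.2.2

theorem bx16 (x y : ℝ) (h : InB 48 16 64 16 x y) : GoodXY x y :=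
  box_good t1Tree vtTree tabOK vecOK ct16 cs16 _ _ _ _ _ _ _ _ ct16_valid ct16_link ct16_const
    cs16_tail cs16_grid x y h.1 h.2.1 h.2.2.1 h.2.2.2

theorem bx17 (x y : ℝ) (h : InB 48 16 80 16 x y) : GoodXY x y :=
  box_good t1Tree vtTree tabOK vecOK ct17 cs17 _ _ _ _ _ _ _ _ ct17_valid ct17_link ct17_const
    cs17_tail cs17_grid x y h.1 h.2.1 h.2.2.1 h.2.2.2

theorem bx18 (x y : ℝ) (h : InB 48 16 96 16 x y) : GoodXY x y :=
  box_good t1Tree vtTree tabOK vecOK ct18 cs18 _ _ _ _ _ _ _ _ ct18_valid ct18_link ct18_const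
    cs18_tail cs18_grid x y h.1 h.2.1 h.2.2.1 h.2.2.2

theorem bx19 (x y : ℝ) (h : InB 48 16 112 16 x y) : GoodXY x y :=
  box_good t1Tree vtTree tabOK vecOK ct19 cs19 _ _ _ _ _ _ _ _ ct19_valid ct19_link ct19_const
    cs19_tail cs19_grid x y h.1 h.2.1 h.2.2.1 h.2.2.2

theorem bx20 (x y : ℝ) (h : InB 32 16 16 16 x y) : GoodXY x y :=
  box_good t1Tree vtTree tabOK vecOK ct20 cs20 _ _ _ _ _ _ _ _ ct20_valid ct20_link ct20_const
    cs20_tail cs20_grid x y h.1 h.2.1 h.2.2.1 h.2.2.2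

theorem bx21 (x y : ℝ) (h : InB 32 16 32 16 x y) : GoodXY x y :=
  box_good t1Tree vtTree tabOK vecOK ct21 cs21 _ _ _ _ _ _ _ _ ct21_valid ct21_link ct21_const
    cs21_tail cs21_grid x y h.1 h.2.1 h.2.2.1 h.2.2.2

theorem bx22 (x y : ℝ) (h : InB 32 16 48 16 x y) : GoodXY x y :=
  box_good t1Tree vtTree tabOK vecOK ct22 cs22 _ _ _ _ _ _ _ _ ct22_valid ct22_link ct22_const
    cs22_tail cs22_grid x y h.1 h.2.1 h.2.2.1 h.2.2.2

theorem bx23 (x y : ℝ) (h : InB 32 16 64 16 x y) : GoodXY x y :=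
  box_good t1Tree vtTree tabOK vecOK ct23 cs23 _ _ _ _ _ _ _ _ ct23_valid ct23_link ct23_const
    cs23_tail cs23_grid x y h.1 h.2.1 h.2.2.1 h.2.2.2

theorem bx24 (x y : ℝ) (h : InB 32 16 80 16 x y) : GoodXY x y :=
  box_good t1Tree vtTree tabOK vecOK ct24 cs24 _ _ _ _ _ _ _ _ ct24_valid ct24_link ct24_const
    cs24_tail cs24_grid x y h.1 h.2.1 h.2.2.1 h.2.2.2

theorem bx25 (x y : ℝ) (h : InB 32 16 96 16 x y) : GoodXY x y :=
  box_good t1Tree vtTree tabOK vecOK ct25 cs25 _ _ _ _ _ _ _ _ ct25_valid ct25_link ct25_const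
    cs25_tail cs25_grid x y h.1 h.2.1 h.2.2.1 h.2.2.2

theorem bx26 (x y : ℝ) (h : InB 32 16 112 16 x y) : GoodXY x y :=
  box_good t1Tree vtTree tabOK vecOK ct26 cs26 _ _ _ _ _ _ _ _ ct26_valid ct26_link ct26_const
    cs26_tail cs26_grid x y h.1 h.2.1 h.2.2.1 h.2.2.2

theorem bx27 (x y : ℝ) (h : InB 16 16 16 16 x y) : GoodXY x y :=
  box_good t1Tree vtTree tabOK vecOK ct27 cs27 _ _ _ _ _ _ _ _ ct27_valid ct27_link ct27_const
    cs27_tail cs27_grid x y h.1 h.2.1 h.2.2.1 h.2.2.2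

theorem bx28 (x y : ℝ) (h : InB 16 16 32 16 x y) : GoodXY x y :=
  box_good t1Tree vtTree tabOK vecOK ct28 cs28 _ _ _ _ _ _ _ _ ct28_valid ct28_link ct28_const
    cs28_tail cs28_grid x y h.1 h.2.1 h.2.2.1 h.2.2.2

theorem bx29 (x y : ℝ) (h : InB 16 16 48 16 x y) : GoodXY x y :=
  box_good t1Tree vtTree tabOK vecOK ct29 cs29 _ _ _ _ _ _ _ _ ct29_valid ct29_link ct29_const
    cs29_tail cs29_grid x y h.1 h.2.1 h.2.2.1 h.2.2.2

theorem bx30 (x y : ℝ) (h : InB 16 16 64 16 x y) : GoodXY x y :=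
  box_good t1Tree vtTree tabOK vecOK ct30 cs30 _ _ _ _ _ _ _ _ ct30_valid ct30_link ct30_const
    cs30_tail cs30_grid x y h.1 h.2.1 h.2.2.1 h.2.2.2

theorem bx31 (x y : ℝ) (h : InB 16 16 80 16 x y) : GoodXY x y :=
  box_good t1Tree vtTree tabOK vecOK ct31 cs31 _ _ _ _ _ _ _ _ ct31_valid ct31_link ct31_const
    cs31_tail cs31_grid x y h.1 h.2.1 h.2.2.1 h.2.2.2

theorem bx32 (x y : ℝ) (h : InB 16 16 96 16 x y) : GoodXY x y :=
  box_good t1Tree vtTree tabOK vecOK ct32 cs32 _ _ _ _ _ _ _ _ ct32_valid ct32_link ct32_const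
    cs32_tail cs32_grid x y h.1 h.2.1 h.2.2.1 h.2.2.2

theorem bx33 (x y : ℝ) (h : InB 16 16 112 16 x y) : GoodXY x y :=
  box_good t1Tree vtTree tabOK vecOK ct33 cs33 _ _ _ _ _ _ _ _ ct33_valid ct33_link ct33_const
    cs33_tail cs33_grid x y h.1 h.2.1 h.2.2.1 h.2.2.2

theorem bx34 (x y : ℝ) (h : InB 0 16 16 16 x y) : GoodXY x y :=
  box_good t1Tree vtTree tabOK vecOK ct34 cs34 _ _ _ _ _ _ _ _ ct34_valid ct34_link ct34_const
    cs34_tail cs34_grid x y h.1 h.2.1 h.2.2.1 h.2.2.2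

theorem bx35 (x y : ℝ) (h : InB 0 16 32 16 x y) : GoodXY x y :=
  box_good t1Tree vtTree tabOK vecOK ct35 cs35 _ _ _ _ _ _ _ _ ct35_valid ct35_link ct35_const
    cs35_tail cs35_grid x y h.1 h.2.1 h.2.2.1 h.2.2.2

theorem bx36 (x y : ℝ) (h : InB 0 16 48 16 x y) : GoodXY x y :=
  box_good t1Tree vtTree tabOK vecOK ct36 cs36 _ _ _ _ _ _ _ _ ct36_valid ct36_link ct36_const
    cs36_tail cs36_grid x y h.1 h.2.1 h.2.2.1 h.2.2.2

theorem bx37 (x y : ℝ) (h : InB 0 16 64 16 x y) : GoodXY x y :=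
  box_good t1Tree vtTree tabOK vecOK ct37 cs37 _ _ _ _ _ _ _ _ ct37_valid ct37_link ct37_const
    cs37_tail cs37_grid x y h.1 h.2.1 h.2.2.1 h.2.2.2

theorem bx38 (x y : ℝ) (h : InB 0 16 80 16 x y) : GoodXY x y :=
  box_good t1Tree vtTree tabOK vecOK ct38 cs38 _ _ _ _ _ _ _ _ ct38_valid ct38_link ct38_const
    cs38_tail cs38_grid x y h.1 h.2.1 h.2.2.1 h.2.2.2

theorem bx39 (x y : ℝ) (h : InB 0 16 96 16 x y) : GoodXY x y :=
  box_good t1Tree vtTree tabOK vecOK ct39 cs39 _ _ _ _ _ _ _ _ ct39_valid ct39_link ct39_const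
    cs39_tail cs39_grid x y h.1 h.2.1 h.2.2.1 h.2.2.2

theorem bx40 (x y : ℝ) (h : InB 0 16 112 16 x y) : GoodXY x y :=
  box_good t1Tree vtTree tabOK vecOK ct40 cs40 _ _ _ _ _ _ _ _ ct40_valid ct40_link ct40_const
    cs40_tail cs40_grid x y h.1 h.2.1 h.2.2.1 h.2.2.2

theorem bx41 (x y : ℝ) (h : InB 0 8 0 8 x y) (hy : 0 < y)
    (h0 : ((0 : ℕ) : ℝ) / 128 * y ≤ -x) (h1 : -x ≤ ((0 + 224 : ℕ) : ℝ) / 128 * y) : GoodXY x y :=
  thin_good t1Tree vtTree tabOK vecOK ct41 sm41 bg41 _ _ _ _ _ _ _ _ _ _ _ _ _ _ 2485 ct41_valid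
    ct41_link ct41_const sm41_zero (by norm_num) bg41_tail sm41_tail cs41_grid sm41_grid x y
    h.1 h.2.1 h.2.2.1 h.2.2.2 hy h0 h1

theorem bx42 (x y : ℝ) (h : InB 8 8 4 4 x y) (hy : 0 < y)
    (h0 : ((128 : ℕ) : ℝ) / 128 * y ≤ -x) (h1 : -x ≤ ((128 + 96 : ℕ) : ℝ) / 128 * y) : GoodXY x y :=
  thin_good t1Tree vtTree tabOK vecOK ct42 sm42 bg42 _ _ _ _ _ _ _ _ _ _ _ _ _ _ 2412 ct42_valid
    ct42_link ct42_const sm42_zero (by norm_num) bg42_tail sm42_tail cs42_grid sm42_grid x y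
    h.1 h.2.1 h.2.2.1 h.2.2.2 hy h0 h1

theorem bx43 (x y : ℝ) (h : InB 0 8 8 8 x y) (hy : 0 < y)
    (h0 : ((0 : ℕ) : ℝ) / 128 * y ≤ -x) (h1 : -x ≤ ((0 + 128 : ℕ) : ℝ) / 128 * y) : GoodXY x y :=
  thin_good t1Tree vtTree tabOK vecOK ct43 sm43 bg43 _ _ _ _ _ _ _ _ _ _ _ _ _ _ 2615 ct43_valid
    ct43_link ct43_const sm43_zero (by norm_num) bg43_tail sm43_tail cs43_grid sm43_grid x y
    h.1 h.2.1 h.2.2.1 h.2.2.2 hy h0 h1

theorem bx44 (x y : ℝ) (h : InB 8 8 8 8 x y) (hy : 0 < y)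
    (h0 : ((64 : ℕ) : ℝ) / 128 * y ≤ -x) (h1 : -x ≤ ((64 + 160 : ℕ) : ℝ) / 128 * y) : GoodXY x y :=
  thin_good t1Tree vtTree tabOK vecOK ct44 sm44 bg44 _ _ _ _ _ _ _ _ _ _ _ _ _ _ 2494 ct44_valid
    ct44_link ct44_const sm44_zero (by norm_num) bg44_tail sm44_tail cs44_grid sm44_grid x y
    h.1 h.2.1 h.2.2.1 h.2.2.2 hy h0 h1

theorem bx45 (x y : ℝ) (h : InB 16 8 8 8 x y) (hy : 0 < y)
    (h0 : ((128 : ℕ) : ℝ) / 128 * y ≤ -x) (h1 : -x ≤ ((128 + 96 : ℕ) : ℝ) / 128 * y) : GoodXY x y :=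
  thin_good t1Tree vtTree tabOK vecOK ct45 sm45 bg45 _ _ _ _ _ _ _ _ _ _ _ _ _ _ 2348 ct45_valid
    ct45_link ct45_const sm45_zero (by norm_num) bg45_tail sm45_tail cs45_grid sm45_grid x y
    h.1 h.2.1 h.2.2.1 h.2.2.2 hy h0 h1

theorem bx46 (x y : ℝ) (h : InB 24 8 8 8 x y) (hy : 0 < y)
    (h0 : ((192 : ℕ) : ℝ) / 128 * y ≤ -x) (h1 : -x ≤ ((192 + 32 : ℕ) : ℝ) / 128 * y) : GoodXY x y :=
  thin_good t1Tree vtTree tabOK vecOK ct46 sm46 bg46 _ _ _ _ _ _ _ _ _ _ _ _ _ _ 2395 ct46_valid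
    ct46_link ct46_const sm46_zero (by norm_num) bg46_tail sm46_tail cs46_grid sm46_grid x y
    h.1 h.2.1 h.2.2.1 h.2.2.2 hy h0 h1

theorem boxes_good : ∀ e ∈ boxes, ∀ x y : ℝ, InB e.1 e.2.1 e.2.2.1 e.2.2.2 x y → GoodXY x y := by
  intro e he
  simp only [boxes, List.mem_cons, List.not_mem_nil, or_false] at he
  rcases he with rfl | rfl | rfl | rfl | rfl | rfl | rfl | rfl | rfl | rfl | rfl | rfl | rfl | rfl | rfl | rfl | rfl | rfl | rfl | rfl | rfl | rfl | rfl | rfl | rfl | rfl | rfl | rfl | rfl | rfl | rfl | rfl | rfl | rfl | rfl | rfl | rfl | rfl | rfl | rfl | rfl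
  · exact bx0
  · exact bx1
  · exact bx2
  · exact bx3
  · exact bx4
  · exact bx5
  · exact bx6
  · exact bx7
  · exact bx8
  · exact bx9
  · exact bx10
  · exact bx11
  · exact bx12
  · exact bx13
  · exact bx14
  · exact bx15
  · exact bx16
  · exact bx17
  · exact bx18
  · exact bx19
  · exact bx20
  · exact bx21
  · exact bx22
  · exact bx23
  · exact bx24
  · exact bx25
  · exact bx26
  · exact bx27
  · exact bx28
  · exact bx29
  · exact bx30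
  · exact bx31
  · exact bx32
  · exact bx33
  · exact bx34
  · exact bx35
  · exact bx36
  · exact bx37
  · exact bx38
  · exact bx39
  · exact bx40

theorem cells0 : (List.range 16).all (fun a => (List.range 16).all (fun b =>
    !(decide (a * a ≤ 3 * ((b + 1) * (b + 1))) && decide (a * a + b * b ≤ 256)) ||
    (decide (a ≤ 3 ∧ b ≤ 1) || boxes.any fun e => decide (e.1 ≤ 8 * a ∧ 8 * a + 8 ≤ e.1 + e.2.1 ∧
      e.2.2.1 ≤ 8 * b ∧ 8 * b + 8 ≤ e.2.2.1 + e.2.2.2)))) = true := by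
  decide +kernel

theorem cells (a : ℕ) (ha : a < 16) (b : ℕ) (hb : b < 16) (h1 : a * a ≤ 3 * ((b + 1) * (b + 1)))
    (h2 : a * a + b * b ≤ 256) :
    (a ≤ 3 ∧ b ≤ 1) ∨ ∃ e ∈ boxes, e.1 ≤ 8 * a ∧ 8 * a + 8 ≤ e.1 + e.2.1 ∧ e.2.2.1 ≤ 8 * b ∧
      8 * b + 8 ≤ e.2.2.1 + e.2.2.2 := by
  have h := cells0
  rw [List.all_eq_true] at h
  have h3 := h a (List.mem_range.2 ha)
  rw [List.all_eq_true] at h3
  have h4 := h3 b (List.mem_range.2 hb)
  rw [decide_eq_true h1, decide_eq_true h2, Bool.and_self, Bool.not_true, Bool.false_or,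
    Bool.or_eq_true, decide_eq_true_eq, List.any_eq_true] at h4
  rcases h4 with h4 | ⟨e, he, h5⟩
  · exact Or.inl h4
  · exact Or.inr ⟨e, he, of_decide_eq_true h5⟩

theorem cover (x y : ℝ) (hx : x ≤ 0) (hy : 0 < y) (h3 : x ^ 2 ≤ 3 * y ^ 2)
    (h1 : x ^ 2 + y ^ 2 ≤ 1) : GoodXY x y := by
  have hx1 : -x < 1 := by nlinarith
  have hy1 : y ≤ 1 := by nlinarith
  set a : ℕ := ⌊-x * 16⌋₊ with ha
  have a0 : (a : ℝ) ≤ -x * 16 := Nat.floor_le (by linarith)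
  have a1 : -x * 16 < a + 1 := Nat.lt_floor_add_one _
  have ha16 : a < 16 := by
    have : (a : ℝ) < 16 := by linarith
    exact_mod_cast this
  obtain ⟨b, hb16, b0, b1⟩ : ∃ b : ℕ, b < 16 ∧ (b : ℝ) ≤ y * 16 ∧ y * 16 ≤ b + 1 := by
    by_cases h : ⌊y * 16⌋₊ < 16
    · exact ⟨⌊y * 16⌋₊, h, Nat.floor_le (by linarith), (Nat.lt_floor_add_one _).le⟩
    · refine ⟨15, by norm_num, ?_, ?_⟩
      · have h2 : ((16 : ℕ) : ℝ) ≤ y * 16 := (Nat.le_floor_iff (by linarith)).1 (not_lt.1 h)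
        push_cast at h2 ⊢
        linarith
      · push_cast
        linarith
  have c1 : a * a ≤ 3 * ((b + 1) * (b + 1)) := by
    have e1 : (a : ℝ) * a ≤ (-x * 16) * (-x * 16) := mul_self_le_mul_self (Nat.cast_nonneg _) a0
    have e2 : (y * 16) * (y * 16) ≤ ((b : ℝ) + 1) * (b + 1) :=
      mul_self_le_mul_self (by linarith) b1
    have e3 : (a : ℝ) * a ≤ 3 * (((b : ℝ) + 1) * (b + 1)) := by nlinarith
    exact_mod_cast e3
  have c2 : a * a + b * b ≤ 256 := by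
    have e1 : (a : ℝ) * a ≤ (-x * 16) * (-x * 16) := mul_self_le_mul_self (Nat.cast_nonneg _) a0
    have e2 : (b : ℝ) * b ≤ (y * 16) * (y * 16) := mul_self_le_mul_self (Nat.cast_nonneg _) b0
    have e3 : (a : ℝ) * a + b * b ≤ 256 := by nlinarith
    exact_mod_cast e3
  rcases cells a ha16 b hb16 c1 c2 with ⟨u1, u2⟩ | ⟨e, he, k1, k2, k3, k4⟩
  · -- thin cells
    have hyx : -x ≤ (7 / 4) * y := by nlinarith
    have hb3 : (b : ℝ) + 1 ≤ 2 := by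
      have : (b : ℝ) ≤ 1 := by exact_mod_cast u2
      linarith
    have ha3 : (a : ℝ) + 1 ≤ 4 := by
      have : (a : ℝ) ≤ 3 := by exact_mod_cast u1
      linarith
    clear_value a
    clear ha
    have hbb : b = 0 ∨ b = 1 := by omega
    have haa : a = 0 ∨ a = 1 ∨ a = 2 ∨ a = 3 := by omega
    rcases hbb with rfl | rfl
    · rcases haa with rfl | rfl | rfl | rfl
      · norm_num at a0 a1 b0 b1
        exact bx41 x y ⟨by norm_num; linarith, by norm_num; linarith, by norm_num; linarith,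
          by norm_num; linarith⟩ hy (by norm_num; linarith) (by norm_num; linarith)
      · norm_num at a0 a1 b0 b1
        have hy2 : 1 / 32 ≤ y := by nlinarith
        exact bx42 x y ⟨by norm_num; linarith, by norm_num; linarith, by norm_num; linarith,
          by norm_num; linarith⟩ hy (by norm_num; linarith) (by norm_num; linarith)
      · omega
      · omega
    · rcases haa with rfl | rfl | rfl | rfl
      · norm_num at a0 a1 b0 b1
        exact bx43 x y ⟨by norm_num; linarith, by norm_num; linarith, by norm_num; linarith,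
          by norm_num; linarith⟩ hy (by norm_num; linarith) (by norm_num; linarith)
      · norm_num at a0 a1 b0 b1
        exact bx44 x y ⟨by norm_num; linarith, by norm_num; linarith, by norm_num; linarith,
          by norm_num; linarith⟩ hy (by norm_num; linarith) (by norm_num; linarith)
      · norm_num at a0 a1 b0 b1
        exact bx45 x y ⟨by norm_num; linarith, by norm_num; linarith, by norm_num; linarith,
          by norm_num; linarith⟩ hy (by norm_num; linarith) (by norm_num; linarith)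
      · norm_num at a0 a1 b0 b1
        exact bx46 x y ⟨by norm_num; linarith, by norm_num; linarith, by norm_num; linarith,
          by norm_num; linarith⟩ hy (by norm_num; linarith) (by norm_num; linarith)
  · refine boxes_good e he x y ⟨?_, ?_, ?_, ?_⟩
    · have : ((e.1 : ℕ) : ℝ) ≤ 8 * a := by exact_mod_cast k1
      rw [div_le_iff₀ (by norm_num)]
      linarith
    · have : (8 * a + 8 : ℝ) ≤ ((e.1 + e.2.1 : ℕ) : ℝ) := by exact_mod_cast k2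
      rw [le_div_iff₀ (by norm_num)]
      linarith
    · have : ((e.2.2.1 : ℕ) : ℝ) ≤ 8 * b := by exact_mod_cast k3
      rw [div_le_iff₀ (by norm_num)]
      linarith
    · have : (8 * b + 8 : ℝ) ≤ ((e.2.2.1 + e.2.2.2 : ℕ) : ℝ) := by exact_mod_cast k4
      rw [le_div_iff₀ (by norm_num)]
      linarith

end Pool.Agent.H79.OC
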