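import Pool.Agent.H79.OC.Dens
import Pool.Agent.H79.OC.Swp

set_option autoImplicit false

/-!
# Boxes on both sides, thin boxes with a general ray
-/

namespace Pool.Agent.H79.OC

open Pool.Agent.H79.DF (J0)

theorem FF_swp (cs : List Cl) (s x y : ℝ) : FF (cs.map swp) s x y = FF cs s (-x) y := by
  unfold FF
  rw [List.map_map]
  congr 1
  refine List.map_congr_left fun c _ => ?_
  cases c with
  | cl i sp sm dl mp mm tl =>
    have h : ((i : ℝ) + ((sm : ℝ) - (sp : ℝ)) * x) ^ 2 + ((dl : ℝ) * y) ^ 2 =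
        ((i : ℝ) + ((sp : ℝ) - (sm : ℝ)) * -x) ^ 2 + ((dl : ℝ) * y) ^ 2 := by ring
    show ((mp : ℝ) - mm) * J0 (s * Real.sqrt (((i : ℝ) + ((sm : ℝ) - (sp : ℝ)) * x) ^ 2 +
      ((dl : ℝ) * y) ^ 2)) = ((mp : ℝ) - mm) * J0 (s * Real.sqrt (((i : ℝ) +
        ((sp : ℝ) - (sm : ℝ)) * -x) ^ 2 + ((dl : ℝ) * y) ^ 2))
    rw [h]

/-- A box with positive `x`; the classes are exchanged. -/
theorem box_pos (tr vr : Tr) (ht : TabOK tr) (hv : VecOK tr vr) (ct : Cert) (cs : List Cl)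
    (x0 nx y0 ny cp cn c2 κ : ℕ) (h1 : validC ct = true) (h2 : linkOK ct (cs.map swp) = true)
    (h3 : constOK ct κ = true) (h4 : tailOK cs x0 nx y0 κ = true)
    (h5 : gridOK vr cs x0 nx y0 ny cp cn c2 κ = true) (x y : ℝ) (hx0 : (x0 : ℝ) / 128 ≤ x)
    (hx1 : x ≤ (x0 + nx : ℕ) / 128) (hy0 : (y0 : ℝ) / 128 ≤ y) (hy1 : y ≤ (y0 + ny : ℕ) / 128) :
    GoodXY x y := by
  refine ⟨ct, cs.map swp, κ, h1, h2, h3, fun s hs => ?_⟩
  rw [FF_swp]
  rcases le_total s (383 / 8) with h | h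
  · exact gridOK_sound tr vr ht hv cs x0 nx y0 ny cp cn c2 κ h5 s (-x) y hs h
      (by rw [neg_neg]; exact hx0) (by rw [neg_neg]; exact hx1) hy0 hy1
  · exact tailOK_sound cs x0 nx y0 κ h4 s (-x) y h (by rw [neg_neg]; exact hx0)
      (by rw [neg_neg]; exact hx1) hy0

/-- Small classes on a ray. -/
theorem FF_ray (sm : List Cl) (h0 : (sm.all fun c => decide (c.i = 0)) = true) (s x y l : ℝ)
    (hl : 0 < l) : FF sm s x y = FF sm (s * l) (x / l) (y / l) := by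
  unfold FF
  congr 1
  refine List.map_congr_left fun c hc => ?_
  rw [List.all_eq_true] at h0
  have hi : c.i = 0 := by simpa using h0 c hc
  have : s * dd c x y = s * l * dd c (x / l) (y / l) := by
    rw [mul_assoc]
    congr 1
    unfold dd
    rw [hi]
    have e3 : ((((0 : ℕ) : ℝ) + ((c.sp : ℝ) - c.sm) * x) ^ 2 + ((c.dl : ℝ) * y) ^ 2) =
        l ^ 2 * ((((0 : ℕ) : ℝ) + ((c.sp : ℝ) - c.sm) * (x / l)) ^ 2 +
          ((c.dl : ℝ) * (y / l)) ^ 2) := by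
      field_simp
      push_cast
      ring
    rw [e3, Real.sqrt_mul (sq_nonneg _), Real.sqrt_sq hl.le]
  rw [this]

/-- The inequality in a thin box. -/
theorem thin_gen (tr vr : Tr) (ht : TabOK tr) (hv : VecOK tr vr) (sm bg : List Cl)
    (x0 nx y0 ny cp cn c2 κ t0 nt yr cp' cn' c2' κ' κ'' : ℕ)
    (h0 : (sm.all fun c => decide (c.i = 0)) = true) (hκ : κ' + κ'' = κ) (hyr : 0 < yr)
    (hb : tailOK bg x0 nx y0 κ'' = true) (h4 : tailOK sm t0 nt yr κ' = true)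
    (h5 : gridOK vr (sm ++ bg) x0 nx y0 ny cp cn c2 κ = true)
    (h6 : gridOK vr sm t0 nt yr 0 cp' cn' c2' κ' = true) (x y : ℝ) (hx0 : (x0 : ℝ) / 128 ≤ -x)
    (hx1 : -x ≤ (x0 + nx : ℕ) / 128) (hy0 : (y0 : ℝ) / 128 ≤ y) (hy1 : y ≤ (y0 + ny : ℕ) / 128)
    (hy : 0 < y) (ht0 : (t0 : ℝ) * y ≤ yr * -x) (ht1 : yr * -x ≤ (t0 + nt : ℕ) * y) (s : ℝ)
    (hs : 0 ≤ s) : -(κ : ℝ) ≤ FF (sm ++ bg) s x y := by
  have hyr' : (0 : ℝ) < yr := by exact_mod_cast hyr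
  rcases le_total s (383 / 8) with h | h
  · exact gridOK_sound tr vr ht hv _ x0 nx y0 ny cp cn c2 κ h5 s x y hs h hx0 hx1 hy0 hy1
  · rw [FF_append]
    have e1 := tailOK_sound bg x0 nx y0 κ'' hb s x y h hx0 hx1 hy0
    set l : ℝ := 128 * y / yr with hl
    have hl0 : 0 < l := by positivity
    have hsl : 0 ≤ s * l := mul_nonneg hs hl0.le
    have hyl : y / l = yr / 128 := by
      rw [hl]
      field_simp
    have hxl : -(x / l) = yr * -x / (128 * y) := by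
      rw [hl]
      field_simp
    have r0 : (t0 : ℝ) / 128 ≤ -(x / l) := by
      rw [hxl, div_le_div_iff₀ (by norm_num) (by positivity)]
      nlinarith
    have r1 : -(x / l) ≤ (t0 + nt : ℕ) / 128 := by
      rw [hxl, div_le_div_iff₀ (by positivity) (by norm_num)]
      nlinarith
    have e3 : -(κ' : ℝ) ≤ FF sm s x y := by
      rw [FF_ray sm h0 s x y l hl0]
      rcases le_total (s * l) (383 / 8) with h' | h'
      · exact gridOK_sound tr vr ht hv sm t0 nt yr 0 cp' cn' c2' κ' h6 _ _ _ hsl h' r0 r1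
          (by rw [hyl]) (by rw [hyl]; simp)
      · exact tailOK_sound sm t0 nt yr κ' h4 _ _ _ h' r0 r1 (by rw [hyl])
    have e4 : (κ' : ℝ) + κ'' = κ := by exact_mod_cast hκ
    linarith

/-- A thin box, `x ≤ 0`. -/
theorem thin_neg (tr vr : Tr) (ht : TabOK tr) (hv : VecOK tr vr) (ct : Cert) (sm bg : List Cl)
    (x0 nx y0 ny cp cn c2 κ t0 nt yr cp' cn' c2' κ' κ'' : ℕ) (h1 : validC ct = true)
    (h2 : linkOK ct (sm ++ bg) = true) (h3 : constOK ct κ = true)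
    (h0 : (sm.all fun c => decide (c.i = 0)) = true) (hκ : κ' + κ'' = κ) (hyr : 0 < yr)
    (hb : tailOK bg x0 nx y0 κ'' = true) (h4 : tailOK sm t0 nt yr κ' = true)
    (h5 : gridOK vr (sm ++ bg) x0 nx y0 ny cp cn c2 κ = true)
    (h6 : gridOK vr sm t0 nt yr 0 cp' cn' c2' κ' = true) (x y : ℝ) (hx0 : (x0 : ℝ) / 128 ≤ -x)
    (hx1 : -x ≤ (x0 + nx : ℕ) / 128) (hy0 : (y0 : ℝ) / 128 ≤ y) (hy1 : y ≤ (y0 + ny : ℕ) / 128)
    (hy : 0 < y) (ht0 : (t0 : ℝ) * y ≤ yr * -x) (ht1 : yr * -x ≤ (t0 + nt : ℕ) * y) :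
    GoodXY x y :=
  ⟨ct, sm ++ bg, κ, h1, h2, h3, fun s hs => thin_gen tr vr ht hv sm bg x0 nx y0 ny cp cn c2 κ t0 nt
    yr cp' cn' c2' κ' κ'' h0 hκ hyr hb h4 h5 h6 x y hx0 hx1 hy0 hy1 hy ht0 ht1 s hs⟩

/-- A thin box, `0 ≤ x`; the classes are exchanged. -/
theorem thin_pos (tr vr : Tr) (ht : TabOK tr) (hv : VecOK tr vr) (ct : Cert) (sm bg : List Cl)
    (x0 nx y0 ny cp cn c2 κ t0 nt yr cp' cn' c2' κ' κ'' : ℕ) (h1 : validC ct = true)
    (h2 : linkOK ct ((sm ++ bg).map swp) = true) (h3 : constOK ct κ = true)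
    (h0 : (sm.all fun c => decide (c.i = 0)) = true) (hκ : κ' + κ'' = κ) (hyr : 0 < yr)
    (hb : tailOK bg x0 nx y0 κ'' = true) (h4 : tailOK sm t0 nt yr κ' = true)
    (h5 : gridOK vr (sm ++ bg) x0 nx y0 ny cp cn c2 κ = true)
    (h6 : gridOK vr sm t0 nt yr 0 cp' cn' c2' κ' = true) (x y : ℝ) (hx0 : (x0 : ℝ) / 128 ≤ x)
    (hx1 : x ≤ (x0 + nx : ℕ) / 128) (hy0 : (y0 : ℝ) / 128 ≤ y) (hy1 : y ≤ (y0 + ny : ℕ) / 128)
    (hy : 0 < y) (ht0 : (t0 : ℝ) * y ≤ yr * x) (ht1 : yr * x ≤ (t0 + nt : ℕ) * y) :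
    GoodXY x y := by
  refine ⟨ct, (sm ++ bg).map swp, κ, h1, h2, h3, fun s hs => ?_⟩
  rw [FF_swp]
  exact thin_gen tr vr ht hv sm bg x0 nx y0 ny cp cn c2 κ t0 nt yr cp' cn' c2' κ' κ'' h0 hκ hyr hb
    h4 h5 h6 (-x) y (by rw [neg_neg]; exact hx0) (by rw [neg_neg]; exact hx1) hy0 hy1 hy
    (by rw [neg_neg]; exact ht0) (by rw [neg_neg]; exact ht1) s hs

end Pool.Agent.H79.OC
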