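import Pool.Agent.H79.OC.Cover
import Pool.Agent.H79.OC.Dens2
import Pool.Agent.H79.OC.Bx24
import Pool.Agent.H79.OC.Bx25
import Pool.Agent.H79.OC.Bx26
import Pool.Agent.H79.OC.Bx27
import Pool.Agent.H79.OC.Bx28
import Pool.Agent.H79.OC.Bx29
import Pool.Agent.H79.OC.Bx30
import Pool.Agent.H79.OC.Bx31
import Pool.Agent.H79.OC.Bx32
import Pool.Agent.H79.OC.Bx33
import Pool.Agent.H79.OC.Bx34
import Pool.Agent.H79.OC.Bx35
import Pool.Agent.H79.OC.Bx36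
import Pool.Agent.H79.OC.Bx37
import Pool.Agent.H79.OC.Bx38
import Pool.Agent.H79.OC.Bx39
import Pool.Agent.H79.OC.Bx40
import Pool.Agent.H79.OC.Bx41
import Pool.Agent.H79.OC.Bx42
import Pool.Agent.H79.OC.Bx43
import Pool.Agent.H79.OC.Bx44
import Pool.Agent.H79.OC.Bx45

set_option autoImplicit false
set_option maxRecDepth 100000

/-!
# The boxes cover the larger region
-/

namespace Pool.Agent.H79.OC

/-- The point `x + i y` is in the box, units 1/128 for `x` and `y`. -/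
def InP (x0 nx y0 ny : ℕ) (x y : ℝ) : Prop :=
  (x0 : ℝ) / 128 ≤ x ∧ x ≤ (x0 + nx : ℕ) / 128 ∧ (y0 : ℝ) / 128 ≤ y ∧ y ≤ (y0 + ny : ℕ) / 128

/-- New boxes with negative `x`. -/
def boxesN : List (ℕ × ℕ × ℕ × ℕ) :=
  [(118, 1, 48, 2), (117, 1, 48, 4), (116, 1, 48, 7), (115, 1, 48, 9), (114, 1, 48, 11),
   (113, 1, 48, 13), (112, 1, 48, 14), (96, 3, 31, 1), (93, 3, 30, 2), (90, 3, 29, 3),
   (87, 3, 28, 4), (84, 3, 27, 5), (81, 3, 26, 6), (80, 1, 25, 7), (77, 3, 25, 7),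
   (74, 3, 24, 8), (71, 3, 23, 9), (68, 3, 22, 10), (65, 3, 21, 11), (64, 1, 20, 12),
   (48, 2, 15, 1), (112, 8, 40, 8), (111, 1, 36, 12), (108, 3, 35, 13), (105, 3, 34, 14),
   (102, 3, 33, 15), (96, 6, 32, 16), (121, 1, 40, 2), (120, 1, 40, 5), (47, 1, 15, 1),
   (44, 3, 14, 2), (41, 3, 13, 3), (37, 4, 12, 4), (34, 3, 11, 5), (32, 2, 10, 6),
   (121, 1, 39, 1), (120, 1, 38, 2), (118, 2, 38, 2), (116, 2, 37, 3), (114, 2, 37, 3),
   (112, 2, 36, 4)]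

/-- New boxes with positive `x`. -/
def boxesP : List (ℕ × ℕ × ℕ × ℕ) :=
  [(16, 1, 61, 3), (17, 1, 63, 1), (0, 1, 112, 3), (1, 1, 112, 2), (2, 1, 112, 1),
   (16, 2, 64, 16), (18, 1, 65, 15), (19, 1, 66, 14), (20, 1, 68, 12), (21, 1, 69, 11),
   (22, 1, 71, 9), (23, 1, 72, 8), (24, 1, 74, 6), (25, 1, 75, 5), (26, 1, 76, 4),
   (27, 1, 78, 2), (28, 1, 79, 1), (0, 16, 80, 16), (0, 16, 64, 16), (16, 1, 96, 2),
   (17, 1, 96, 1), (0, 5, 32, 16), (5, 1, 35, 13), (6, 1, 38, 10), (7, 1, 41, 7),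
   (8, 1, 44, 4), (9, 1, 46, 2), (24, 1, 80, 8), (25, 1, 80, 6), (26, 1, 80, 5),
   (27, 1, 80, 3), (28, 1, 80, 2), (8, 1, 104, 3), (9, 1, 104, 2), (10, 1, 104, 1),
   (0, 4, 104, 8), (4, 1, 104, 7), (5, 1, 104, 6), (6, 1, 104, 5), (7, 1, 104, 4),
   (8, 6, 56, 8), (14, 1, 57, 7), (15, 1, 59, 5), (0, 8, 56, 8), (0, 8, 48, 8),
   (0, 8, 96, 8), (16, 8, 80, 8), (20, 1, 92, 1), (8, 2, 48, 8), (10, 1, 49, 7),
   (11, 1, 51, 5), (12, 1, 53, 3), (13, 1, 55, 1), (20, 2, 88, 4), (22, 1, 88, 3),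
   (23, 1, 88, 1), (8, 4, 96, 4), (12, 1, 100, 3), (13, 1, 100, 2), (14, 1, 100, 1),
   (16, 4, 88, 4), (0, 2, 16, 16), (2, 1, 22, 10), (3, 1, 27, 5), (4, 1, 31, 1),
   (8, 4, 100, 4), (12, 4, 96, 4), (16, 3, 92, 4), (19, 1, 92, 3)]

theorem bx74_0 (x y : ℝ) (h : InB 118 1 48 2 x y) : GoodXY x y :=
  box_good t1Tree vtTree tabOK vecOK ct74 cs74 _ _ _ _ _ _ _ _ ct74_valid ct74_link ct74_const
    cs74_tail0 cs74_grid0 x y h.1 h.2.1 h.2.2.1 h.2.2.2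

theorem bx74_1 (x y : ℝ) (h : InB 117 1 48 4 x y) : GoodXY x y :=
  box_good t1Tree vtTree tabOK vecOK ct74 cs74 _ _ _ _ _ _ _ _ ct74_valid ct74_link ct74_const
    cs74_tail1 cs74_grid1 x y h.1 h.2.1 h.2.2.1 h.2.2.2

theorem bx74_2 (x y : ℝ) (h : InB 116 1 48 7 x y) : GoodXY x y :=
  box_good t1Tree vtTree tabOK vecOK ct74 cs74 _ _ _ _ _ _ _ _ ct74_valid ct74_link ct74_const
    cs74_tail2 cs74_grid2 x y h.1 h.2.1 h.2.2.1 h.2.2.2

theorem bx74_3 (x y : ℝ) (h : InB 115 1 48 9 x y) : GoodXY x y :=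
  box_good t1Tree vtTree tabOK vecOK ct74 cs74 _ _ _ _ _ _ _ _ ct74_valid ct74_link ct74_const
    cs74_tail3 cs74_grid3 x y h.1 h.2.1 h.2.2.1 h.2.2.2

theorem bx74_4 (x y : ℝ) (h : InB 114 1 48 11 x y) : GoodXY x y :=
  box_good t1Tree vtTree tabOK vecOK ct74 cs74 _ _ _ _ _ _ _ _ ct74_valid ct74_link ct74_const
    cs74_tail4 cs74_grid4 x y h.1 h.2.1 h.2.2.1 h.2.2.2

theorem bx74_5 (x y : ℝ) (h : InB 113 1 48 13 x y) : GoodXY x y :=
  box_good t1Tree vtTree tabOK vecOK ct74 cs74 _ _ _ _ _ _ _ _ ct74_valid ct74_link ct74_const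
    cs74_tail5 cs74_grid5 x y h.1 h.2.1 h.2.2.1 h.2.2.2

theorem bx74_6 (x y : ℝ) (h : InB 112 1 48 14 x y) : GoodXY x y :=
  box_good t1Tree vtTree tabOK vecOK ct74 cs74 _ _ _ _ _ _ _ _ ct74_valid ct74_link ct74_const
    cs74_tail6 cs74_grid6 x y h.1 h.2.1 h.2.2.1 h.2.2.2

theorem bx75_0 (x y : ℝ) (h : InB 96 3 31 1 x y) : GoodXY x y :=
  box_good t1Tree vtTree tabOK vecOK ct75 cs75 _ _ _ _ _ _ _ _ ct75_valid ct75_link ct75_const
    cs75_tail0 cs75_grid0 x y h.1 h.2.1 h.2.2.1 h.2.2.2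

theorem bx76_0 (x y : ℝ) (h : InB 93 3 30 2 x y) : GoodXY x y :=
  box_good t1Tree vtTree tabOK vecOK ct76 cs76 _ _ _ _ _ _ _ _ ct76_valid ct76_link ct76_const
    cs76_tail0 cs76_grid0 x y h.1 h.2.1 h.2.2.1 h.2.2.2

theorem bx76_1 (x y : ℝ) (h : InB 90 3 29 3 x y) : GoodXY x y :=
  box_good t1Tree vtTree tabOK vecOK ct76 cs76 _ _ _ _ _ _ _ _ ct76_valid ct76_link ct76_const
    cs76_tail1 cs76_grid1 x y h.1 h.2.1 h.2.2.1 h.2.2.2

theorem bx76_2 (x y : ℝ) (h : InB 87 3 28 4 x y) : GoodXY x y :=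
  box_good t1Tree vtTree tabOK vecOK ct76 cs76 _ _ _ _ _ _ _ _ ct76_valid ct76_link ct76_const
    cs76_tail2 cs76_grid2 x y h.1 h.2.1 h.2.2.1 h.2.2.2

theorem bx76_3 (x y : ℝ) (h : InB 84 3 27 5 x y) : GoodXY x y :=
  box_good t1Tree vtTree tabOK vecOK ct76 cs76 _ _ _ _ _ _ _ _ ct76_valid ct76_link ct76_const
    cs76_tail3 cs76_grid3 x y h.1 h.2.1 h.2.2.1 h.2.2.2

theorem bx76_4 (x y : ℝ) (h : InB 81 3 26 6 x y) : GoodXY x y :=
  box_good t1Tree vtTree tabOK vecOK ct76 cs76 _ _ _ _ _ _ _ _ ct76_valid ct76_link ct76_const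
    cs76_tail4 cs76_grid4 x y h.1 h.2.1 h.2.2.1 h.2.2.2

theorem bx76_5 (x y : ℝ) (h : InB 80 1 25 7 x y) : GoodXY x y :=
  box_good t1Tree vtTree tabOK vecOK ct76 cs76 _ _ _ _ _ _ _ _ ct76_valid ct76_link ct76_const
    cs76_tail5 cs76_grid5 x y h.1 h.2.1 h.2.2.1 h.2.2.2

theorem bx77_0 (x y : ℝ) (h : InB 77 3 25 7 x y) : GoodXY x y :=
  box_good t1Tree vtTree tabOK vecOK ct77 cs77 _ _ _ _ _ _ _ _ ct77_valid ct77_link ct77_const
    cs77_tail0 cs77_grid0 x y h.1 h.2.1 h.2.2.1 h.2.2.2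

theorem bx77_1 (x y : ℝ) (h : InB 74 3 24 8 x y) : GoodXY x y :=
  box_good t1Tree vtTree tabOK vecOK ct77 cs77 _ _ _ _ _ _ _ _ ct77_valid ct77_link ct77_const
    cs77_tail1 cs77_grid1 x y h.1 h.2.1 h.2.2.1 h.2.2.2

theorem bx77_2 (x y : ℝ) (h : InB 71 3 23 9 x y) : GoodXY x y :=
  box_good t1Tree vtTree tabOK vecOK ct77 cs77 _ _ _ _ _ _ _ _ ct77_valid ct77_link ct77_const
    cs77_tail2 cs77_grid2 x y h.1 h.2.1 h.2.2.1 h.2.2.2

theorem bx77_3 (x y : ℝ) (h : InB 68 3 22 10 x y) : GoodXY x y :=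
  box_good t1Tree vtTree tabOK vecOK ct77 cs77 _ _ _ _ _ _ _ _ ct77_valid ct77_link ct77_const
    cs77_tail3 cs77_grid3 x y h.1 h.2.1 h.2.2.1 h.2.2.2

theorem bx77_4 (x y : ℝ) (h : InB 65 3 21 11 x y) : GoodXY x y :=
  box_good t1Tree vtTree tabOK vecOK ct77 cs77 _ _ _ _ _ _ _ _ ct77_valid ct77_link ct77_const
    cs77_tail4 cs77_grid4 x y h.1 h.2.1 h.2.2.1 h.2.2.2

theorem bx77_5 (x y : ℝ) (h : InB 64 1 20 12 x y) : GoodXY x y :=
  box_good t1Tree vtTree tabOK vecOK ct77 cs77 _ _ _ _ _ _ _ _ ct77_valid ct77_link ct77_const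
    cs77_tail5 cs77_grid5 x y h.1 h.2.1 h.2.2.1 h.2.2.2

theorem bx78_0 (x y : ℝ) (h : InB 48 2 15 1 x y) : GoodXY x y :=
  box_good t1Tree vtTree tabOK vecOK ct78 cs78 _ _ _ _ _ _ _ _ ct78_valid ct78_link ct78_const
    cs78_tail0 cs78_grid0 x y h.1 h.2.1 h.2.2.1 h.2.2.2

theorem bx79_0 (x y : ℝ) (h : InB 112 8 40 8 x y) : GoodXY x y :=
  box_good t1Tree vtTree tabOK vecOK ct79 cs79 _ _ _ _ _ _ _ _ ct79_valid ct79_link ct79_const
    cs79_tail0 cs79_grid0 x y h.1 h.2.1 h.2.2.1 h.2.2.2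

theorem bx80_0 (x y : ℝ) (h : InB 111 1 36 12 x y) : GoodXY x y :=
  box_good t1Tree vtTree tabOK vecOK ct80 cs80 _ _ _ _ _ _ _ _ ct80_valid ct80_link ct80_const
    cs80_tail0 cs80_grid0 x y h.1 h.2.1 h.2.2.1 h.2.2.2

theorem bx80_1 (x y : ℝ) (h : InB 108 3 35 13 x y) : GoodXY x y :=
  box_good t1Tree vtTree tabOK vecOK ct80 cs80 _ _ _ _ _ _ _ _ ct80_valid ct80_link ct80_const
    cs80_tail1 cs80_grid1 x y h.1 h.2.1 h.2.2.1 h.2.2.2

theorem bx80_2 (x y : ℝ) (h : InB 105 3 34 14 x y) : GoodXY x y :=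
  box_good t1Tree vtTree tabOK vecOK ct80 cs80 _ _ _ _ _ _ _ _ ct80_valid ct80_link ct80_const
    cs80_tail2 cs80_grid2 x y h.1 h.2.1 h.2.2.1 h.2.2.2

theorem bx80_3 (x y : ℝ) (h : InB 102 3 33 15 x y) : GoodXY x y :=
  box_good t1Tree vtTree tabOK vecOK ct80 cs80 _ _ _ _ _ _ _ _ ct80_valid ct80_link ct80_const
    cs80_tail3 cs80_grid3 x y h.1 h.2.1 h.2.2.1 h.2.2.2

theorem bx80_4 (x y : ℝ) (h : InB 96 6 32 16 x y) : GoodXY x y :=
  box_good t1Tree vtTree tabOK vecOK ct80 cs80 _ _ _ _ _ _ _ _ ct80_valid ct80_link ct80_const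
    cs80_tail4 cs80_grid4 x y h.1 h.2.1 h.2.2.1 h.2.2.2

theorem bx81_0 (x y : ℝ) (h : InB 121 1 40 2 x y) : GoodXY x y :=
  box_good t1Tree vtTree tabOK vecOK ct81 cs81 _ _ _ _ _ _ _ _ ct81_valid ct81_link ct81_const
    cs81_tail0 cs81_grid0 x y h.1 h.2.1 h.2.2.1 h.2.2.2

theorem bx81_1 (x y : ℝ) (h : InB 120 1 40 5 x y) : GoodXY x y :=
  box_good t1Tree vtTree tabOK vecOK ct81 cs81 _ _ _ _ _ _ _ _ ct81_valid ct81_link ct81_const
    cs81_tail1 cs81_grid1 x y h.1 h.2.1 h.2.2.1 h.2.2.2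

theorem bx82_0 (x y : ℝ) (h : InB 47 1 15 1 x y) : GoodXY x y :=
  box_good t1Tree vtTree tabOK vecOK ct82 cs82 _ _ _ _ _ _ _ _ ct82_valid ct82_link ct82_const
    cs82_tail0 cs82_grid0 x y h.1 h.2.1 h.2.2.1 h.2.2.2

theorem bx82_1 (x y : ℝ) (h : InB 44 3 14 2 x y) : GoodXY x y :=
  box_good t1Tree vtTree tabOK vecOK ct82 cs82 _ _ _ _ _ _ _ _ ct82_valid ct82_link ct82_const
    cs82_tail1 cs82_grid1 x y h.1 h.2.1 h.2.2.1 h.2.2.2

theorem bx82_2 (x y : ℝ) (h : InB 41 3 13 3 x y) : GoodXY x y :=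
  box_good t1Tree vtTree tabOK vecOK ct82 cs82 _ _ _ _ _ _ _ _ ct82_valid ct82_link ct82_const
    cs82_tail2 cs82_grid2 x y h.1 h.2.1 h.2.2.1 h.2.2.2

theorem bx82_3 (x y : ℝ) (h : InB 37 4 12 4 x y) : GoodXY x y :=
  box_good t1Tree vtTree tabOK vecOK ct82 cs82 _ _ _ _ _ _ _ _ ct82_valid ct82_link ct82_const
    cs82_tail3 cs82_grid3 x y h.1 h.2.1 h.2.2.1 h.2.2.2

theorem bx82_4 (x y : ℝ) (h : InB 34 3 11 5 x y) : GoodXY x y :=
  box_good t1Tree vtTree tabOK vecOK ct82 cs82 _ _ _ _ _ _ _ _ ct82_valid ct82_link ct82_const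
    cs82_tail4 cs82_grid4 x y h.1 h.2.1 h.2.2.1 h.2.2.2

theorem bx82_5 (x y : ℝ) (h : InB 32 2 10 6 x y) : GoodXY x y :=
  box_good t1Tree vtTree tabOK vecOK ct82 cs82 _ _ _ _ _ _ _ _ ct82_valid ct82_link ct82_const
    cs82_tail5 cs82_grid5 x y h.1 h.2.1 h.2.2.1 h.2.2.2

theorem bx83_0 (x y : ℝ) (h : InB 121 1 39 1 x y) : GoodXY x y :=
  box_good t1Tree vtTree tabOK vecOK ct83 cs83 _ _ _ _ _ _ _ _ ct83_valid ct83_link ct83_const
    cs83_tail0 cs83_grid0 x y h.1 h.2.1 h.2.2.1 h.2.2.2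

theorem bx83_1 (x y : ℝ) (h : InB 120 1 38 2 x y) : GoodXY x y :=
  box_good t1Tree vtTree tabOK vecOK ct83 cs83 _ _ _ _ _ _ _ _ ct83_valid ct83_link ct83_const
    cs83_tail1 cs83_grid1 x y h.1 h.2.1 h.2.2.1 h.2.2.2

theorem bx84_0 (x y : ℝ) (h : InB 118 2 38 2 x y) : GoodXY x y :=
  box_good t1Tree vtTree tabOK vecOK ct84 cs84 _ _ _ _ _ _ _ _ ct84_valid ct84_link ct84_const
    cs84_tail0 cs84_grid0 x y h.1 h.2.1 h.2.2.1 h.2.2.2

theorem bx84_1 (x y : ℝ) (h : InB 116 2 37 3 x y) : GoodXY x y :=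
  box_good t1Tree vtTree tabOK vecOK ct84 cs84 _ _ _ _ _ _ _ _ ct84_valid ct84_link ct84_const
    cs84_tail1 cs84_grid1 x y h.1 h.2.1 h.2.2.1 h.2.2.2

theorem bx85_0 (x y : ℝ) (h : InB 114 2 37 3 x y) : GoodXY x y :=
  box_good t1Tree vtTree tabOK vecOK ct85 cs85 _ _ _ _ _ _ _ _ ct85_valid ct85_link ct85_const
    cs85_tail0 cs85_grid0 x y h.1 h.2.1 h.2.2.1 h.2.2.2

theorem bx85_1 (x y : ℝ) (h : InB 112 2 36 4 x y) : GoodXY x y :=
  box_good t1Tree vtTree tabOK vecOK ct85 cs85 _ _ _ _ _ _ _ _ ct85_valid ct85_link ct85_const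
    cs85_tail1 cs85_grid1 x y h.1 h.2.1 h.2.2.1 h.2.2.2

theorem bx47_0 (x y : ℝ) (h : InP 16 1 61 3 x y) : GoodXY x y :=
  box_pos t1Tree vtTree tabOK vecOK ct47 cs47 _ _ _ _ _ _ _ _ ct47_valid ct47_link ct47_const
    cs47_tail0 cs47_grid0 x y h.1 h.2.1 h.2.2.1 h.2.2.2

theorem bx47_1 (x y : ℝ) (h : InP 17 1 63 1 x y) : GoodXY x y :=
  box_pos t1Tree vtTree tabOK vecOK ct47 cs47 _ _ _ _ _ _ _ _ ct47_valid ct47_link ct47_const
    cs47_tail1 cs47_grid1 x y h.1 h.2.1 h.2.2.1 h.2.2.2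

theorem bx48_0 (x y : ℝ) (h : InP 0 1 112 3 x y) : GoodXY x y :=
  box_pos t1Tree vtTree tabOK vecOK ct48 cs48 _ _ _ _ _ _ _ _ ct48_valid ct48_link ct48_const
    cs48_tail0 cs48_grid0 x y h.1 h.2.1 h.2.2.1 h.2.2.2

theorem bx48_1 (x y : ℝ) (h : InP 1 1 112 2 x y) : GoodXY x y :=
  box_pos t1Tree vtTree tabOK vecOK ct48 cs48 _ _ _ _ _ _ _ _ ct48_valid ct48_link ct48_const
    cs48_tail1 cs48_grid1 x y h.1 h.2.1 h.2.2.1 h.2.2.2

theorem bx48_2 (x y : ℝ) (h : InP 2 1 112 1 x y) : GoodXY x y :=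
  box_pos t1Tree vtTree tabOK vecOK ct48 cs48 _ _ _ _ _ _ _ _ ct48_valid ct48_link ct48_const
    cs48_tail2 cs48_grid2 x y h.1 h.2.1 h.2.2.1 h.2.2.2

theorem bx49_0 (x y : ℝ) (h : InP 16 2 64 16 x y) : GoodXY x y :=
  box_pos t1Tree vtTree tabOK vecOK ct49 cs49 _ _ _ _ _ _ _ _ ct49_valid ct49_link ct49_const
    cs49_tail0 cs49_grid0 x y h.1 h.2.1 h.2.2.1 h.2.2.2

theorem bx49_1 (x y : ℝ) (h : InP 18 1 65 15 x y) : GoodXY x y :=
  box_pos t1Tree vtTree tabOK vecOK ct49 cs49 _ _ _ _ _ _ _ _ ct49_valid ct49_link ct49_const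
    cs49_tail1 cs49_grid1 x y h.1 h.2.1 h.2.2.1 h.2.2.2

theorem bx49_2 (x y : ℝ) (h : InP 19 1 66 14 x y) : GoodXY x y :=
  box_pos t1Tree vtTree tabOK vecOK ct49 cs49 _ _ _ _ _ _ _ _ ct49_valid ct49_link ct49_const
    cs49_tail2 cs49_grid2 x y h.1 h.2.1 h.2.2.1 h.2.2.2

theorem bx49_3 (x y : ℝ) (h : InP 20 1 68 12 x y) : GoodXY x y :=
  box_pos t1Tree vtTree tabOK vecOK ct49 cs49 _ _ _ _ _ _ _ _ ct49_valid ct49_link ct49_const
    cs49_tail3 cs49_grid3 x y h.1 h.2.1 h.2.2.1 h.2.2.2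

theorem bx49_4 (x y : ℝ) (h : InP 21 1 69 11 x y) : GoodXY x y :=
  box_pos t1Tree vtTree tabOK vecOK ct49 cs49 _ _ _ _ _ _ _ _ ct49_valid ct49_link ct49_const
    cs49_tail4 cs49_grid4 x y h.1 h.2.1 h.2.2.1 h.2.2.2

theorem bx49_5 (x y : ℝ) (h : InP 22 1 71 9 x y) : GoodXY x y :=
  box_pos t1Tree vtTree tabOK vecOK ct49 cs49 _ _ _ _ _ _ _ _ ct49_valid ct49_link ct49_const
    cs49_tail5 cs49_grid5 x y h.1 h.2.1 h.2.2.1 h.2.2.2

theorem bx49_6 (x y : ℝ) (h : InP 23 1 72 8 x y) : GoodXY x y :=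
  box_pos t1Tree vtTree tabOK vecOK ct49 cs49 _ _ _ _ _ _ _ _ ct49_valid ct49_link ct49_const
    cs49_tail6 cs49_grid6 x y h.1 h.2.1 h.2.2.1 h.2.2.2

theorem bx49_7 (x y : ℝ) (h : InP 24 1 74 6 x y) : GoodXY x y :=
  box_pos t1Tree vtTree tabOK vecOK ct49 cs49 _ _ _ _ _ _ _ _ ct49_valid ct49_link ct49_const
    cs49_tail7 cs49_grid7 x y h.1 h.2.1 h.2.2.1 h.2.2.2

theorem bx49_8 (x y : ℝ) (h : InP 25 1 75 5 x y) : GoodXY x y :=
  box_pos t1Tree vtTree tabOK vecOK ct49 cs49 _ _ _ _ _ _ _ _ ct49_valid ct49_link ct49_const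
    cs49_tail8 cs49_grid8 x y h.1 h.2.1 h.2.2.1 h.2.2.2

theorem bx49_9 (x y : ℝ) (h : InP 26 1 76 4 x y) : GoodXY x y :=
  box_pos t1Tree vtTree tabOK vecOK ct49 cs49 _ _ _ _ _ _ _ _ ct49_valid ct49_link ct49_const
    cs49_tail9 cs49_grid9 x y h.1 h.2.1 h.2.2.1 h.2.2.2

theorem bx49_10 (x y : ℝ) (h : InP 27 1 78 2 x y) : GoodXY x y :=
  box_pos t1Tree vtTree tabOK vecOK ct49 cs49 _ _ _ _ _ _ _ _ ct49_valid ct49_link ct49_const
    cs49_tail10 cs49_grid10 x y h.1 h.2.1 h.2.2.1 h.2.2.2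

theorem bx49_11 (x y : ℝ) (h : InP 28 1 79 1 x y) : GoodXY x y :=
  box_pos t1Tree vtTree tabOK vecOK ct49 cs49 _ _ _ _ _ _ _ _ ct49_valid ct49_link ct49_const
    cs49_tail11 cs49_grid11 x y h.1 h.2.1 h.2.2.1 h.2.2.2

theorem bx50_0 (x y : ℝ) (h : InP 0 16 80 16 x y) : GoodXY x y :=
  box_pos t1Tree vtTree tabOK vecOK ct50 cs50 _ _ _ _ _ _ _ _ ct50_valid ct50_link ct50_const
    cs50_tail0 cs50_grid0 x y h.1 h.2.1 h.2.2.1 h.2.2.2

theorem bx51_0 (x y : ℝ) (h : InP 0 16 64 16 x y) : GoodXY x y :=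
  box_pos t1Tree vtTree tabOK vecOK ct51 cs51 _ _ _ _ _ _ _ _ ct51_valid ct51_link ct51_const
    cs51_tail0 cs51_grid0 x y h.1 h.2.1 h.2.2.1 h.2.2.2

theorem bx52_0 (x y : ℝ) (h : InP 16 1 96 2 x y) : GoodXY x y :=
  box_pos t1Tree vtTree tabOK vecOK ct52 cs52 _ _ _ _ _ _ _ _ ct52_valid ct52_link ct52_const
    cs52_tail0 cs52_grid0 x y h.1 h.2.1 h.2.2.1 h.2.2.2

theorem bx52_1 (x y : ℝ) (h : InP 17 1 96 1 x y) : GoodXY x y :=
  box_pos t1Tree vtTree tabOK vecOK ct52 cs52 _ _ _ _ _ _ _ _ ct52_valid ct52_link ct52_const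
    cs52_tail1 cs52_grid1 x y h.1 h.2.1 h.2.2.1 h.2.2.2

theorem bx53_0 (x y : ℝ) (h : InP 0 5 32 16 x y) : GoodXY x y :=
  box_pos t1Tree vtTree tabOK vecOK ct53 cs53 _ _ _ _ _ _ _ _ ct53_valid ct53_link ct53_const
    cs53_tail0 cs53_grid0 x y h.1 h.2.1 h.2.2.1 h.2.2.2

theorem bx53_1 (x y : ℝ) (h : InP 5 1 35 13 x y) : GoodXY x y :=
  box_pos t1Tree vtTree tabOK vecOK ct53 cs53 _ _ _ _ _ _ _ _ ct53_valid ct53_link ct53_const
    cs53_tail1 cs53_grid1 x y h.1 h.2.1 h.2.2.1 h.2.2.2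

theorem bx53_2 (x y : ℝ) (h : InP 6 1 38 10 x y) : GoodXY x y :=
  box_pos t1Tree vtTree tabOK vecOK ct53 cs53 _ _ _ _ _ _ _ _ ct53_valid ct53_link ct53_const
    cs53_tail2 cs53_grid2 x y h.1 h.2.1 h.2.2.1 h.2.2.2

theorem bx53_3 (x y : ℝ) (h : InP 7 1 41 7 x y) : GoodXY x y :=
  box_pos t1Tree vtTree tabOK vecOK ct53 cs53 _ _ _ _ _ _ _ _ ct53_valid ct53_link ct53_const
    cs53_tail3 cs53_grid3 x y h.1 h.2.1 h.2.2.1 h.2.2.2

theorem bx53_4 (x y : ℝ) (h : InP 8 1 44 4 x y) : GoodXY x y :=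
  box_pos t1Tree vtTree tabOK vecOK ct53 cs53 _ _ _ _ _ _ _ _ ct53_valid ct53_link ct53_const
    cs53_tail4 cs53_grid4 x y h.1 h.2.1 h.2.2.1 h.2.2.2

theorem bx53_5 (x y : ℝ) (h : InP 9 1 46 2 x y) : GoodXY x y :=
  box_pos t1Tree vtTree tabOK vecOK ct53 cs53 _ _ _ _ _ _ _ _ ct53_valid ct53_link ct53_const
    cs53_tail5 cs53_grid5 x y h.1 h.2.1 h.2.2.1 h.2.2.2

theorem bx54_0 (x y : ℝ) (h : InP 24 1 80 8 x y) : GoodXY x y :=
  box_pos t1Tree vtTree tabOK vecOK ct54 cs54 _ _ _ _ _ _ _ _ ct54_valid ct54_link ct54_const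
    cs54_tail0 cs54_grid0 x y h.1 h.2.1 h.2.2.1 h.2.2.2

theorem bx54_1 (x y : ℝ) (h : InP 25 1 80 6 x y) : GoodXY x y :=
  box_pos t1Tree vtTree tabOK vecOK ct54 cs54 _ _ _ _ _ _ _ _ ct54_valid ct54_link ct54_const
    cs54_tail1 cs54_grid1 x y h.1 h.2.1 h.2.2.1 h.2.2.2

theorem bx54_2 (x y : ℝ) (h : InP 26 1 80 5 x y) : GoodXY x y :=
  box_pos t1Tree vtTree tabOK vecOK ct54 cs54 _ _ _ _ _ _ _ _ ct54_valid ct54_link ct54_const
    cs54_tail2 cs54_grid2 x y h.1 h.2.1 h.2.2.1 h.2.2.2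

theorem bx54_3 (x y : ℝ) (h : InP 27 1 80 3 x y) : GoodXY x y :=
  box_pos t1Tree vtTree tabOK vecOK ct54 cs54 _ _ _ _ _ _ _ _ ct54_valid ct54_link ct54_const
    cs54_tail3 cs54_grid3 x y h.1 h.2.1 h.2.2.1 h.2.2.2

theorem bx54_4 (x y : ℝ) (h : InP 28 1 80 2 x y) : GoodXY x y :=
  box_pos t1Tree vtTree tabOK vecOK ct54 cs54 _ _ _ _ _ _ _ _ ct54_valid ct54_link ct54_const
    cs54_tail4 cs54_grid4 x y h.1 h.2.1 h.2.2.1 h.2.2.2

theorem bx55_0 (x y : ℝ) (h : InP 8 1 104 3 x y) : GoodXY x y :=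
  box_pos t1Tree vtTree tabOK vecOK ct55 cs55 _ _ _ _ _ _ _ _ ct55_valid ct55_link ct55_const
    cs55_tail0 cs55_grid0 x y h.1 h.2.1 h.2.2.1 h.2.2.2

theorem bx55_1 (x y : ℝ) (h : InP 9 1 104 2 x y) : GoodXY x y :=
  box_pos t1Tree vtTree tabOK vecOK ct55 cs55 _ _ _ _ _ _ _ _ ct55_valid ct55_link ct55_const
    cs55_tail1 cs55_grid1 x y h.1 h.2.1 h.2.2.1 h.2.2.2

theorem bx55_2 (x y : ℝ) (h : InP 10 1 104 1 x y) : GoodXY x y :=
  box_pos t1Tree vtTree tabOK vecOK ct55 cs55 _ _ _ _ _ _ _ _ ct55_valid ct55_link ct55_const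
    cs55_tail2 cs55_grid2 x y h.1 h.2.1 h.2.2.1 h.2.2.2

theorem bx56_0 (x y : ℝ) (h : InP 0 4 104 8 x y) : GoodXY x y :=
  box_pos t1Tree vtTree tabOK vecOK ct56 cs56 _ _ _ _ _ _ _ _ ct56_valid ct56_link ct56_const
    cs56_tail0 cs56_grid0 x y h.1 h.2.1 h.2.2.1 h.2.2.2

theorem bx56_1 (x y : ℝ) (h : InP 4 1 104 7 x y) : GoodXY x y :=
  box_pos t1Tree vtTree tabOK vecOK ct56 cs56 _ _ _ _ _ _ _ _ ct56_valid ct56_link ct56_const
    cs56_tail1 cs56_grid1 x y h.1 h.2.1 h.2.2.1 h.2.2.2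

theorem bx56_2 (x y : ℝ) (h : InP 5 1 104 6 x y) : GoodXY x y :=
  box_pos t1Tree vtTree tabOK vecOK ct56 cs56 _ _ _ _ _ _ _ _ ct56_valid ct56_link ct56_const
    cs56_tail2 cs56_grid2 x y h.1 h.2.1 h.2.2.1 h.2.2.2

theorem bx56_3 (x y : ℝ) (h : InP 6 1 104 5 x y) : GoodXY x y :=
  box_pos t1Tree vtTree tabOK vecOK ct56 cs56 _ _ _ _ _ _ _ _ ct56_valid ct56_link ct56_const
    cs56_tail3 cs56_grid3 x y h.1 h.2.1 h.2.2.1 h.2.2.2

theorem bx56_4 (x y : ℝ) (h : InP 7 1 104 4 x y) : GoodXY x y :=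
  box_pos t1Tree vtTree tabOK vecOK ct56 cs56 _ _ _ _ _ _ _ _ ct56_valid ct56_link ct56_const
    cs56_tail4 cs56_grid4 x y h.1 h.2.1 h.2.2.1 h.2.2.2

theorem bx57_0 (x y : ℝ) (h : InP 8 6 56 8 x y) : GoodXY x y :=
  box_pos t1Tree vtTree tabOK vecOK ct57 cs57 _ _ _ _ _ _ _ _ ct57_valid ct57_link ct57_const
    cs57_tail0 cs57_grid0 x y h.1 h.2.1 h.2.2.1 h.2.2.2

theorem bx57_1 (x y : ℝ) (h : InP 14 1 57 7 x y) : GoodXY x y :=
  box_pos t1Tree vtTree tabOK vecOK ct57 cs57 _ _ _ _ _ _ _ _ ct57_valid ct57_link ct57_const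
    cs57_tail1 cs57_grid1 x y h.1 h.2.1 h.2.2.1 h.2.2.2

theorem bx57_2 (x y : ℝ) (h : InP 15 1 59 5 x y) : GoodXY x y :=
  box_pos t1Tree vtTree tabOK vecOK ct57 cs57 _ _ _ _ _ _ _ _ ct57_valid ct57_link ct57_const
    cs57_tail2 cs57_grid2 x y h.1 h.2.1 h.2.2.1 h.2.2.2

theorem bx58_0 (x y : ℝ) (h : InP 0 8 56 8 x y) : GoodXY x y :=
  box_pos t1Tree vtTree tabOK vecOK ct58 cs58 _ _ _ _ _ _ _ _ ct58_valid ct58_link ct58_const
    cs58_tail0 cs58_grid0 x y h.1 h.2.1 h.2.2.1 h.2.2.2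

theorem bx59_0 (x y : ℝ) (h : InP 0 8 48 8 x y) : GoodXY x y :=
  box_pos t1Tree vtTree tabOK vecOK ct59 cs59 _ _ _ _ _ _ _ _ ct59_valid ct59_link ct59_const
    cs59_tail0 cs59_grid0 x y h.1 h.2.1 h.2.2.1 h.2.2.2

theorem bx60_0 (x y : ℝ) (h : InP 0 8 96 8 x y) : GoodXY x y :=
  box_pos t1Tree vtTree tabOK vecOK ct60 cs60 _ _ _ _ _ _ _ _ ct60_valid ct60_link ct60_const
    cs60_tail0 cs60_grid0 x y h.1 h.2.1 h.2.2.1 h.2.2.2

theorem bx61_0 (x y : ℝ) (h : InP 16 8 80 8 x y) : GoodXY x y :=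
  box_pos t1Tree vtTree tabOK vecOK ct61 cs61 _ _ _ _ _ _ _ _ ct61_valid ct61_link ct61_const
    cs61_tail0 cs61_grid0 x y h.1 h.2.1 h.2.2.1 h.2.2.2

theorem bx62_0 (x y : ℝ) (h : InP 20 1 92 1 x y) : GoodXY x y :=
  box_pos t1Tree vtTree tabOK vecOK ct62 cs62 _ _ _ _ _ _ _ _ ct62_valid ct62_link ct62_const
    cs62_tail0 cs62_grid0 x y h.1 h.2.1 h.2.2.1 h.2.2.2

theorem bx63_0 (x y : ℝ) (h : InP 8 2 48 8 x y) : GoodXY x y :=
  box_pos t1Tree vtTree tabOK vecOK ct63 cs63 _ _ _ _ _ _ _ _ ct63_valid ct63_link ct63_const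
    cs63_tail0 cs63_grid0 x y h.1 h.2.1 h.2.2.1 h.2.2.2

theorem bx63_1 (x y : ℝ) (h : InP 10 1 49 7 x y) : GoodXY x y :=
  box_pos t1Tree vtTree tabOK vecOK ct63 cs63 _ _ _ _ _ _ _ _ ct63_valid ct63_link ct63_const
    cs63_tail1 cs63_grid1 x y h.1 h.2.1 h.2.2.1 h.2.2.2

theorem bx63_2 (x y : ℝ) (h : InP 11 1 51 5 x y) : GoodXY x y :=
  box_pos t1Tree vtTree tabOK vecOK ct63 cs63 _ _ _ _ _ _ _ _ ct63_valid ct63_link ct63_const
    cs63_tail2 cs63_grid2 x y h.1 h.2.1 h.2.2.1 h.2.2.2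

theorem bx63_3 (x y : ℝ) (h : InP 12 1 53 3 x y) : GoodXY x y :=
  box_pos t1Tree vtTree tabOK vecOK ct63 cs63 _ _ _ _ _ _ _ _ ct63_valid ct63_link ct63_const
    cs63_tail3 cs63_grid3 x y h.1 h.2.1 h.2.2.1 h.2.2.2

theorem bx63_4 (x y : ℝ) (h : InP 13 1 55 1 x y) : GoodXY x y :=
  box_pos t1Tree vtTree tabOK vecOK ct63 cs63 _ _ _ _ _ _ _ _ ct63_valid ct63_link ct63_const
    cs63_tail4 cs63_grid4 x y h.1 h.2.1 h.2.2.1 h.2.2.2

theorem bx64_0 (x y : ℝ) (h : InP 20 2 88 4 x y) : GoodXY x y :=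
  box_pos t1Tree vtTree tabOK vecOK ct64 cs64 _ _ _ _ _ _ _ _ ct64_valid ct64_link ct64_const
    cs64_tail0 cs64_grid0 x y h.1 h.2.1 h.2.2.1 h.2.2.2

theorem bx64_1 (x y : ℝ) (h : InP 22 1 88 3 x y) : GoodXY x y :=
  box_pos t1Tree vtTree tabOK vecOK ct64 cs64 _ _ _ _ _ _ _ _ ct64_valid ct64_link ct64_const
    cs64_tail1 cs64_grid1 x y h.1 h.2.1 h.2.2.1 h.2.2.2

theorem bx64_2 (x y : ℝ) (h : InP 23 1 88 1 x y) : GoodXY x y :=
  box_pos t1Tree vtTree tabOK vecOK ct64 cs64 _ _ _ _ _ _ _ _ ct64_valid ct64_link ct64_const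
    cs64_tail2 cs64_grid2 x y h.1 h.2.1 h.2.2.1 h.2.2.2

theorem bx65_0 (x y : ℝ) (h : InP 8 4 96 4 x y) : GoodXY x y :=
  box_pos t1Tree vtTree tabOK vecOK ct65 cs65 _ _ _ _ _ _ _ _ ct65_valid ct65_link ct65_const
    cs65_tail0 cs65_grid0 x y h.1 h.2.1 h.2.2.1 h.2.2.2

theorem bx66_0 (x y : ℝ) (h : InP 12 1 100 3 x y) : GoodXY x y :=
  box_pos t1Tree vtTree tabOK vecOK ct66 cs66 _ _ _ _ _ _ _ _ ct66_valid ct66_link ct66_const
    cs66_tail0 cs66_grid0 x y h.1 h.2.1 h.2.2.1 h.2.2.2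

theorem bx66_1 (x y : ℝ) (h : InP 13 1 100 2 x y) : GoodXY x y :=
  box_pos t1Tree vtTree tabOK vecOK ct66 cs66 _ _ _ _ _ _ _ _ ct66_valid ct66_link ct66_const
    cs66_tail1 cs66_grid1 x y h.1 h.2.1 h.2.2.1 h.2.2.2

theorem bx66_2 (x y : ℝ) (h : InP 14 1 100 1 x y) : GoodXY x y :=
  box_pos t1Tree vtTree tabOK vecOK ct66 cs66 _ _ _ _ _ _ _ _ ct66_valid ct66_link ct66_const
    cs66_tail2 cs66_grid2 x y h.1 h.2.1 h.2.2.1 h.2.2.2

theorem bx67_0 (x y : ℝ) (h : InP 16 4 88 4 x y) : GoodXY x y :=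
  box_pos t1Tree vtTree tabOK vecOK ct67 cs67 _ _ _ _ _ _ _ _ ct67_valid ct67_link ct67_const
    cs67_tail0 cs67_grid0 x y h.1 h.2.1 h.2.2.1 h.2.2.2

theorem bx68_0 (x y : ℝ) (h : InP 0 2 16 16 x y) : GoodXY x y :=
  box_pos t1Tree vtTree tabOK vecOK ct68 cs68 _ _ _ _ _ _ _ _ ct68_valid ct68_link ct68_const
    cs68_tail0 cs68_grid0 x y h.1 h.2.1 h.2.2.1 h.2.2.2

theorem bx68_1 (x y : ℝ) (h : InP 2 1 22 10 x y) : GoodXY x y :=
  box_pos t1Tree vtTree tabOK vecOK ct68 cs68 _ _ _ _ _ _ _ _ ct68_valid ct68_link ct68_const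
    cs68_tail1 cs68_grid1 x y h.1 h.2.1 h.2.2.1 h.2.2.2

theorem bx68_2 (x y : ℝ) (h : InP 3 1 27 5 x y) : GoodXY x y :=
  box_pos t1Tree vtTree tabOK vecOK ct68 cs68 _ _ _ _ _ _ _ _ ct68_valid ct68_link ct68_const
    cs68_tail2 cs68_grid2 x y h.1 h.2.1 h.2.2.1 h.2.2.2

theorem bx68_3 (x y : ℝ) (h : InP 4 1 31 1 x y) : GoodXY x y :=
  box_pos t1Tree vtTree tabOK vecOK ct68 cs68 _ _ _ _ _ _ _ _ ct68_valid ct68_link ct68_const
    cs68_tail3 cs68_grid3 x y h.1 h.2.1 h.2.2.1 h.2.2.2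

theorem bx69_0 (x y : ℝ) (h : InP 8 4 100 4 x y) : GoodXY x y :=
  box_pos t1Tree vtTree tabOK vecOK ct69 cs69 _ _ _ _ _ _ _ _ ct69_valid ct69_link ct69_const
    cs69_tail0 cs69_grid0 x y h.1 h.2.1 h.2.2.1 h.2.2.2

theorem bx70_0 (x y : ℝ) (h : InP 12 4 96 4 x y) : GoodXY x y :=
  box_pos t1Tree vtTree tabOK vecOK ct70 cs70 _ _ _ _ _ _ _ _ ct70_valid ct70_link ct70_const
    cs70_tail0 cs70_grid0 x y h.1 h.2.1 h.2.2.1 h.2.2.2

theorem bx71_0 (x y : ℝ) (h : InP 16 3 92 4 x y) : GoodXY x y :=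
  box_pos t1Tree vtTree tabOK vecOK ct71 cs71 _ _ _ _ _ _ _ _ ct71_valid ct71_link ct71_const
    cs71_tail0 cs71_grid0 x y h.1 h.2.1 h.2.2.1 h.2.2.2

theorem bx71_1 (x y : ℝ) (h : InP 19 1 92 3 x y) : GoodXY x y :=
  box_pos t1Tree vtTree tabOK vecOK ct71 cs71 _ _ _ _ _ _ _ _ ct71_valid ct71_link ct71_const
    cs71_tail1 cs71_grid1 x y h.1 h.2.1 h.2.2.1 h.2.2.2

theorem bx72 (x y : ℝ) (h : InP 0 1 0 8 x y) (hy : 0 < y)
    (h0 : ((0 : ℕ) : ℝ) * y ≤ (128 : ℕ) * x) (h1 : ((128 : ℕ) : ℝ) * x ≤ ((0 + 5 : ℕ) : ℝ) * y) :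
    GoodXY x y :=
  thin_pos t1Tree vtTree tabOK vecOK ct72 sm72 bg72 _ _ _ _ _ _ _ _ _ _ 128 _ _ _ _ 7752 ct72_valid
    ct72_link ct72_const sm72_zero (by norm_num) (by norm_num) bg72_tail sm72_tail cs72_grid sm72_grid
    x y h.1 h.2.1 h.2.2.1 h.2.2.2 hy h0 h1

theorem bx73 (x y : ℝ) (h : InP 0 2 8 8 x y) (hy : 0 < y)
    (h0 : ((0 : ℕ) : ℝ) * y ≤ (128 : ℕ) * x) (h1 : ((128 : ℕ) : ℝ) * x ≤ ((0 + 9 : ℕ) : ℝ) * y) :
    GoodXY x y :=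
  thin_pos t1Tree vtTree tabOK vecOK ct73 sm73 bg73 _ _ _ _ _ _ _ _ _ _ 128 _ _ _ _ 8857 ct73_valid
    ct73_link ct73_const sm73_zero (by norm_num) (by norm_num) bg73_tail sm73_tail cs73_grid sm73_grid
    x y h.1 h.2.1 h.2.2.1 h.2.2.2 hy h0 h1

theorem bx86 (x y : ℝ) (h : InB 0 8 0 5 x y) (hy : 0 < y)
    (h0 : ((112 : ℕ) : ℝ) * y ≤ (64 : ℕ) * -x) (h1 : ((64 : ℕ) : ℝ) * -x ≤ ((112 + 86 : ℕ) : ℝ) * y) :
    GoodXY x y :=
  thin_neg t1Tree vtTree tabOK vecOK ct86 sm86 bg86 _ _ _ _ _ _ _ _ _ _ 64 _ _ _ _ 7758 ct86_valid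
    ct86_link ct86_const sm86_zero (by norm_num) (by norm_num) bg86_tail sm86_tail cs86_grid sm86_grid
    x y h.1 h.2.1 h.2.2.1 h.2.2.2 hy h0 h1

theorem bx87 (x y : ℝ) (h : InB 8 4 2 5 x y) (hy : 0 < y)
    (h0 : ((112 : ℕ) : ℝ) * y ≤ (64 : ℕ) * -x) (h1 : ((64 : ℕ) : ℝ) * -x ≤ ((112 + 86 : ℕ) : ℝ) * y) :
    GoodXY x y :=
  thin_neg t1Tree vtTree tabOK vecOK ct87 sm87 bg87 _ _ _ _ _ _ _ _ _ _ 64 _ _ _ _ 8416 ct87_valid
    ct87_link ct87_const sm87_zero (by norm_num) (by norm_num) bg87_tail sm87_tail cs87_grid sm87_grid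
    x y h.1 h.2.1 h.2.2.1 h.2.2.2 hy h0 h1

theorem bx88 (x y : ℝ) (h : InB 12 4 3 7 x y) (hy : 0 < y)
    (h0 : ((112 : ℕ) : ℝ) * y ≤ (64 : ℕ) * -x) (h1 : ((64 : ℕ) : ℝ) * -x ≤ ((112 + 86 : ℕ) : ℝ) * y) :
    GoodXY x y :=
  thin_neg t1Tree vtTree tabOK vecOK ct88 sm88 bg88 _ _ _ _ _ _ _ _ _ _ 64 _ _ _ _ 8434 ct88_valid
    ct88_link ct88_const sm88_zero (by norm_num) (by norm_num) bg88_tail sm88_tail cs88_grid sm88_grid
    x y h.1 h.2.1 h.2.2.1 h.2.2.2 hy h0 h1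

theorem bx89 (x y : ℝ) (h : InB 16 8 5 9 x y) (hy : 0 < y)
    (h0 : ((112 : ℕ) : ℝ) * y ≤ (64 : ℕ) * -x) (h1 : ((64 : ℕ) : ℝ) * -x ≤ ((112 + 86 : ℕ) : ℝ) * y) :
    GoodXY x y :=
  thin_neg t1Tree vtTree tabOK vecOK ct89 sm89 bg89 _ _ _ _ _ _ _ _ _ _ 64 _ _ _ _ 8287 ct89_valid
    ct89_link ct89_const sm89_zero (by norm_num) (by norm_num) bg89_tail sm89_tail cs89_grid sm89_grid
    x y h.1 h.2.1 h.2.2.1 h.2.2.2 hy h0 h1

theorem bx90 (x y : ℝ) (h : InB 24 8 7 9 x y) (hy : 0 < y)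
    (h0 : ((112 : ℕ) : ℝ) * y ≤ (64 : ℕ) * -x) (h1 : ((64 : ℕ) : ℝ) * -x ≤ ((112 + 86 : ℕ) : ℝ) * y) :
    GoodXY x y :=
  thin_neg t1Tree vtTree tabOK vecOK ct90 sm90 bg90 _ _ _ _ _ _ _ _ _ _ 64 _ _ _ _ 8197 ct90_valid
    ct90_link ct90_const sm90_zero (by norm_num) (by norm_num) bg90_tail sm90_tail cs90_grid sm90_grid
    x y h.1 h.2.1 h.2.2.1 h.2.2.2 hy h0 h1

theorem boxesN_good : ∀ e ∈ boxesN, ∀ x y : ℝ, InB e.1 e.2.1 e.2.2.1 e.2.2.2 x y → GoodXY x y := by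
  intro e he
  simp only [boxesN, List.mem_cons, List.not_mem_nil, or_false] at he
  rcases he with rfl | rfl | rfl | rfl | rfl | rfl | rfl | rfl | rfl | rfl | rfl | rfl | rfl | rfl | rfl | rfl |
    rfl | rfl | rfl | rfl | rfl | rfl | rfl | rfl | rfl | rfl | rfl | rfl | rfl | rfl | rfl | rfl |
    rfl | rfl | rfl | rfl | rfl | rfl | rfl | rfl | rfl
  · exact bx74_0
  · exact bx74_1
  · exact bx74_2
  · exact bx74_3
  · exact bx74_4
  · exact bx74_5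
  · exact bx74_6
  · exact bx75_0
  · exact bx76_0
  · exact bx76_1
  · exact bx76_2
  · exact bx76_3
  · exact bx76_4
  · exact bx76_5
  · exact bx77_0
  · exact bx77_1
  · exact bx77_2
  · exact bx77_3
  · exact bx77_4
  · exact bx77_5
  · exact bx78_0
  · exact bx79_0
  · exact bx80_0
  · exact bx80_1
  · exact bx80_2
  · exact bx80_3
  · exact bx80_4
  · exact bx81_0
  · exact bx81_1
  · exact bx82_0
  · exact bx82_1
  · exact bx82_2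
  · exact bx82_3
  · exact bx82_4
  · exact bx82_5
  · exact bx83_0
  · exact bx83_1
  · exact bx84_0
  · exact bx84_1
  · exact bx85_0
  · exact bx85_1

theorem boxesP_good : ∀ e ∈ boxesP, ∀ x y : ℝ, InP e.1 e.2.1 e.2.2.1 e.2.2.2 x y → GoodXY x y := by
  intro e he
  simp only [boxesP, List.mem_cons, List.not_mem_nil, or_false] at he
  rcases he with rfl | rfl | rfl | rfl | rfl | rfl | rfl | rfl | rfl | rfl | rfl | rfl | rfl | rfl | rfl | rfl |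
    rfl | rfl | rfl | rfl | rfl | rfl | rfl | rfl | rfl | rfl | rfl | rfl | rfl | rfl | rfl | rfl |
    rfl | rfl | rfl | rfl | rfl | rfl | rfl | rfl | rfl | rfl | rfl | rfl | rfl | rfl | rfl | rfl |
    rfl | rfl | rfl | rfl | rfl | rfl | rfl | rfl | rfl | rfl | rfl | rfl | rfl | rfl | rfl | rfl |
    rfl | rfl | rfl | rfl | rfl
  · exact bx47_0
  · exact bx47_1
  · exact bx48_0
  · exact bx48_1
  · exact bx48_2
  · exact bx49_0
  · exact bx49_1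
  · exact bx49_2
  · exact bx49_3
  · exact bx49_4
  · exact bx49_5
  · exact bx49_6
  · exact bx49_7
  · exact bx49_8
  · exact bx49_9
  · exact bx49_10
  · exact bx49_11
  · exact bx50_0
  · exact bx51_0
  · exact bx52_0
  · exact bx52_1
  · exact bx53_0
  · exact bx53_1
  · exact bx53_2
  · exact bx53_3
  · exact bx53_4
  · exact bx53_5
  · exact bx54_0
  · exact bx54_1
  · exact bx54_2
  · exact bx54_3
  · exact bx54_4
  · exact bx55_0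
  · exact bx55_1
  · exact bx55_2
  · exact bx56_0
  · exact bx56_1
  · exact bx56_2
  · exact bx56_3
  · exact bx56_4
  · exact bx57_0
  · exact bx57_1
  · exact bx57_2
  · exact bx58_0
  · exact bx59_0
  · exact bx60_0
  · exact bx61_0
  · exact bx62_0
  · exact bx63_0
  · exact bx63_1
  · exact bx63_2
  · exact bx63_3
  · exact bx63_4
  · exact bx64_0
  · exact bx64_1
  · exact bx64_2
  · exact bx65_0
  · exact bx66_0
  · exact bx66_1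
  · exact bx66_2
  · exact bx67_0
  · exact bx68_0
  · exact bx68_1
  · exact bx68_2
  · exact bx68_3
  · exact bx69_0
  · exact bx70_0
  · exact bx71_0
  · exact bx71_1

/-- The cell `(a, b)` is in one of the boxes. -/
def cov1 (bs : List (ℕ × ℕ × ℕ × ℕ)) (a b : ℕ) : Bool :=
  bs.any fun e => Nat.ble e.1 a && (Nat.ble (a + 1) (e.1 + e.2.1) &&
    (Nat.ble e.2.2.1 b && Nat.ble (b + 1) (e.2.2.1 + e.2.2.2)))

theorem cov1_spec (bs : List (ℕ × ℕ × ℕ × ℕ)) (a b : ℕ) (h : cov1 bs a b = true) :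
    ∃ e ∈ bs, e.1 ≤ a ∧ a + 1 ≤ e.1 + e.2.1 ∧ e.2.2.1 ≤ b ∧ b + 1 ≤ e.2.2.1 + e.2.2.2 := by
  unfold cov1 at h
  rw [List.any_eq_true] at h
  obtain ⟨e, he, h⟩ := h
  rw [Bool.and_eq_true, Bool.and_eq_true, Bool.and_eq_true] at h
  exact ⟨e, he, Nat.le_of_ble_eq_true h.1, Nat.le_of_ble_eq_true h.2.1,
    Nat.le_of_ble_eq_true h.2.2.1, Nat.le_of_ble_eq_true h.2.2.2⟩

theorem cellsP0 : (List.range 64).all (fun a => (List.range 128).all fun b =>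
    !(decide (256 * a ≤ (a + 1) * (a + 1) + (b + 1) * (b + 1)) &&
      decide (5 * (a * a + b * b) + 1024 * a ≤ 65536)) ||
    (decide (b < 16) || cov1 boxesP a b)) = true := by
  decide +kernel

theorem cellsP (a : ℕ) (ha : a < 64) (b : ℕ) (hb : b < 128)
    (h1 : 256 * a ≤ (a + 1) * (a + 1) + (b + 1) * (b + 1))
    (h2 : 5 * (a * a + b * b) + 1024 * a ≤ 65536) (h3 : 16 ≤ b) :
    ∃ e ∈ boxesP, e.1 ≤ a ∧ a + 1 ≤ e.1 + e.2.1 ∧ e.2.2.1 ≤ b ∧ b + 1 ≤ e.2.2.1 + e.2.2.2 := by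
  have h := cellsP0
  rw [List.all_eq_true] at h
  have h4 := h a (List.mem_range.2 ha)
  rw [List.all_eq_true] at h4
  have h5 := h4 b (List.mem_range.2 hb)
  rw [decide_eq_true h1, decide_eq_true h2, Bool.and_self, Bool.not_true, Bool.false_or,
    decide_eq_false (by omega), Bool.false_or] at h5
  exact cov1_spec _ _ _ h5

theorem cellsN0 : (List.range 128).all (fun a => (List.range 128).all fun b =>
    !(decide (3 * (b * b) < (a + 1) * (a + 1)) && (decide (25 * (a * a) ≤ 237 * ((b + 1) * (b + 1))) &&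
      decide (a * a + b * b ≤ 16384))) ||
    (decide (a < 32 ∧ b < 16) || (cov1 boxes a b || cov1 boxesN a b))) = true := by
  decide +kernel

theorem cellsN (a : ℕ) (ha : a < 128) (b : ℕ) (hb : b < 128)
    (h0 : 3 * (b * b) < (a + 1) * (a + 1))
    (h1 : 25 * (a * a) ≤ 237 * ((b + 1) * (b + 1)))
    (h2 : a * a + b * b ≤ 16384) :
    (a < 32 ∧ b < 16) ∨ (∃ e ∈ boxes, e.1 ≤ a ∧ a + 1 ≤ e.1 + e.2.1 ∧ e.2.2.1 ≤ b ∧
      b + 1 ≤ e.2.2.1 + e.2.2.2) ∨ (∃ e ∈ boxesN, e.1 ≤ a ∧ a + 1 ≤ e.1 + e.2.1 ∧ e.2.2.1 ≤ b ∧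
      b + 1 ≤ e.2.2.1 + e.2.2.2) := by
  have h := cellsN0
  rw [List.all_eq_true] at h
  have h4 := h a (List.mem_range.2 ha)
  rw [List.all_eq_true] at h4
  have h5 := h4 b (List.mem_range.2 hb)
  rw [decide_eq_true h0, decide_eq_true h1, decide_eq_true h2, Bool.and_self, Bool.and_self,
    Bool.not_true, Bool.false_or, Bool.or_eq_true, Bool.or_eq_true, decide_eq_true_eq] at h5
  rcases h5 with h5 | h5 | h5
  · exact Or.inl h5
  · exact Or.inr (Or.inl (cov1_spec _ _ _ h5))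
  · exact Or.inr (Or.inr (cov1_spec _ _ _ h5))

/-- The box which contains a point of a cell. -/
theorem inB_of (e : ℕ × ℕ × ℕ × ℕ) (a b : ℕ) (x y : ℝ) (h1 : e.1 ≤ a) (h2 : a + 1 ≤ e.1 + e.2.1)
    (h3 : e.2.2.1 ≤ b) (h4 : b + 1 ≤ e.2.2.1 + e.2.2.2) (a0 : (a : ℝ) ≤ x * 128)
    (a1 : x * 128 ≤ a + 1) (b0 : (b : ℝ) ≤ y * 128) (b1 : y * 128 ≤ b + 1) :
    (e.1 : ℝ) / 128 ≤ x ∧ x ≤ ((e.1 + e.2.1 : ℕ) : ℝ) / 128 ∧ (e.2.2.1 : ℝ) / 128 ≤ y ∧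
      y ≤ ((e.2.2.1 + e.2.2.2 : ℕ) : ℝ) / 128 := by
  have k1 : ((e.1 : ℕ) : ℝ) ≤ a := by exact_mod_cast h1
  have k2 : (a : ℝ) + 1 ≤ ((e.1 + e.2.1 : ℕ) : ℝ) := by exact_mod_cast h2
  have k3 : ((e.2.2.1 : ℕ) : ℝ) ≤ b := by exact_mod_cast h3
  have k4 : (b : ℝ) + 1 ≤ ((e.2.2.1 + e.2.2.2 : ℕ) : ℝ) := by exact_mod_cast h4
  refine ⟨?_, ?_, ?_, ?_⟩
  · rw [div_le_iff₀ (by norm_num)]; linarith
  · rw [le_div_iff₀ (by norm_num)]; linarith
  · rw [div_le_iff₀ (by norm_num)]; linarith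
  · rw [le_div_iff₀ (by norm_num)]; linarith

/-- A cell for a number in `[0, 1]`. -/
theorem cell_of (y : ℝ) (h0 : 0 ≤ y) (h1 : y ≤ 1) :
    ∃ b : ℕ, b < 128 ∧ (b : ℝ) ≤ y * 128 ∧ y * 128 ≤ b + 1 := by
  by_cases h : ⌊y * 128⌋₊ < 128
  · exact ⟨⌊y * 128⌋₊, h, Nat.floor_le (by linarith), (Nat.lt_floor_add_one _).le⟩
  · refine ⟨127, by norm_num, ?_, ?_⟩
    · have h2 : ((128 : ℕ) : ℝ) ≤ y * 128 := (Nat.le_floor_iff (by linarith)).1 (not_lt.1 h)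
      push_cast at h2 ⊢
      linarith
    · push_cast
      linarith

/-- Positive `x`. -/
theorem coverP (x y : ℝ) (hx : 0 ≤ x) (hy : 0 < y) (h1 : 2 * x ≤ x ^ 2 + y ^ 2)
    (h2 : 9 / 4 * (x ^ 2 + y ^ 2) ≤ (1 - x) ^ 2 + y ^ 2) : GoodXY x y := by
  have hx1 : x < 1 / 4 + 1 / 64 := by nlinarith
  have hy1 : y ≤ 1 := by nlinarith
  rcases le_total y (1 / 8) with hy8 | hy8
  · rcases le_total y (1 / 16) with hy16 | hy16
    · have hx3 : x ≤ 1 / 64 := by nlinarith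
      have hx2 : x ≤ 1 / 32 * y + 1 / 128 * x := by nlinarith
      exact bx72 x y ⟨by norm_num; linarith, by norm_num; linarith, by norm_num; linarith,
        by norm_num; linarith⟩ hy (by norm_num; linarith) (by norm_num; linarith)
    · have hx3 : x ≤ 1 / 64 := by nlinarith
      have hx2 : x ≤ 1 / 16 * y + 1 / 128 * x := by nlinarith
      exact bx73 x y ⟨by norm_num; linarith, by norm_num; linarith, by norm_num; linarith,
        by norm_num; linarith⟩ hy (by norm_num; linarith) (by norm_num; linarith)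
  · obtain ⟨a, ha, a0, a1⟩ := cell_of x hx (by linarith)
    obtain ⟨b, hb, b0, b1⟩ := cell_of y hy.le hy1
    have ha64 : a < 64 := by
      have : (a : ℝ) < 64 := by linarith
      exact_mod_cast this
    by_cases hb16 : b < 16
    · -- then `y = 1/8`
      have hb' : (b : ℝ) + 1 ≤ 16 := by exact_mod_cast hb16
      have hyy : y ≤ 1 / 8 := by linarith
      have hx3 : x ≤ 1 / 64 := by nlinarith
      have hx2 : x ≤ 1 / 16 * y + 1 / 128 * x := by nlinarith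
      exact bx73 x y ⟨by norm_num; linarith, by norm_num; linarith, by norm_num; linarith,
        by norm_num; linarith⟩ hy (by norm_num; linarith) (by norm_num; linarith)
    · have c1 : 256 * a ≤ (a + 1) * (a + 1) + (b + 1) * (b + 1) := by
        have e1 : (x * 128) * (x * 128) ≤ ((a : ℝ) + 1) * (a + 1) :=
          mul_self_le_mul_self (by positivity) a1
        have e2 : (y * 128) * (y * 128) ≤ ((b : ℝ) + 1) * (b + 1) :=
          mul_self_le_mul_self (by positivity) b1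
        have e3 : 256 * (a : ℝ) ≤ (a + 1) * (a + 1) + (b + 1) * (b + 1) := by nlinarith
        exact_mod_cast e3
      have c2 : 5 * (a * a + b * b) + 1024 * a ≤ 65536 := by
        have e1 : (a : ℝ) * a ≤ (x * 128) * (x * 128) := mul_self_le_mul_self (Nat.cast_nonneg _) a0
        have e2 : (b : ℝ) * b ≤ (y * 128) * (y * 128) := mul_self_le_mul_self (Nat.cast_nonneg _) b0
        have e3 : 5 * ((a : ℝ) * a + b * b) + 1024 * a ≤ 65536 := by nlinarith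
        exact_mod_cast e3
      obtain ⟨e, he, k1, k2, k3, k4⟩ := cellsP a ha64 b hb c1 c2 (by omega)
      exact boxesP_good e he x y (inB_of e a b x y k1 k2 k3 k4 a0 a1 b0 b1)

/-- The thin zone, old boxes. -/
theorem thin_old (x y : ℝ) (hx : x ≤ 0) (hy : 0 < y) (h : -x ≤ 7 / 4 * y) (hy8 : y ≤ 1 / 8) :
    GoodXY x y := by
  rcases le_total y (1 / 16) with h1 | h1
  · rcases le_total (-x) (1 / 16) with h2 | h2
    · exact bx41 x y ⟨by norm_num; linarith, by norm_num; linarith, by norm_num; linarith,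
        by norm_num; linarith⟩ hy (by norm_num; linarith) (by norm_num; linarith)
    · exact bx42 x y ⟨by norm_num; linarith, by norm_num; linarith, by norm_num; linarith,
        by norm_num; linarith⟩ hy (by norm_num; linarith) (by norm_num; linarith)
  · rcases le_total (-x) (1 / 16) with h2 | h2
    · exact bx43 x y ⟨by norm_num; linarith, by norm_num; linarith, by norm_num; linarith,
        by norm_num; linarith⟩ hy (by norm_num; linarith) (by norm_num; linarith)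
    · rcases le_total (-x) (1 / 8) with h3 | h3
      · exact bx44 x y ⟨by norm_num; linarith, by norm_num; linarith, by norm_num; linarith,
          by norm_num; linarith⟩ hy (by norm_num; linarith) (by norm_num; linarith)
      · rcases le_total (-x) (3 / 16) with h4 | h4
        · exact bx45 x y ⟨by norm_num; linarith, by norm_num; linarith, by norm_num; linarith,
            by norm_num; linarith⟩ hy (by norm_num; linarith) (by norm_num; linarith)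
        · exact bx46 x y ⟨by norm_num; linarith, by norm_num; linarith, by norm_num; linarith,
            by norm_num; linarith⟩ hy (by norm_num; linarith) (by norm_num; linarith)

/-- The thin zone, new boxes. -/
theorem thin_new (x y : ℝ) (hy : 0 < y) (h : 7 / 4 * y ≤ -x) (h' : -x ≤ 99 / 32 * y)
    (hx4 : -x ≤ 1 / 4) (hy8 : y ≤ 1 / 8) : GoodXY x y := by
  rcases le_total (-x) (1 / 16) with h2 | h2
  · exact bx86 x y ⟨by norm_num; linarith, by norm_num; linarith, by norm_num; linarith,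
      by norm_num; linarith⟩ hy (by norm_num; linarith) (by norm_num; linarith)
  · rcases le_total (-x) (3 / 32) with h3 | h3
    · exact bx87 x y ⟨by norm_num; linarith, by norm_num; linarith, by norm_num; linarith,
        by norm_num; linarith⟩ hy (by norm_num; linarith) (by norm_num; linarith)
    · rcases le_total (-x) (1 / 8) with h4 | h4
      · exact bx88 x y ⟨by norm_num; linarith, by norm_num; linarith, by norm_num; linarith,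
          by norm_num; linarith⟩ hy (by norm_num; linarith) (by norm_num; linarith)
      · rcases le_total (-x) (3 / 16) with h5 | h5
        · exact bx89 x y ⟨by norm_num; linarith, by norm_num; linarith, by norm_num; linarith,
            by norm_num; linarith⟩ hy (by norm_num; linarith) (by norm_num; linarith)
        · exact bx90 x y ⟨by norm_num; linarith, by norm_num; linarith, by norm_num; linarith,
            by norm_num; linarith⟩ hy (by norm_num; linarith) (by norm_num; linarith)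

/-- Negative `x`. -/
theorem coverN (x y : ℝ) (hx : x ≤ 0) (hy : 0 < y) (h3 : x ^ 2 ≤ 237 / 25 * y ^ 2)
    (h1 : x ^ 2 + y ^ 2 ≤ 1) : GoodXY x y := by
  rcases le_or_gt (x ^ 2) (3 * y ^ 2) with h0 | h0
  · exact cover x y hx hy h0 h1
  have hx1 : -x ≤ 1 := by nlinarith
  have hy1 : y ≤ 1 := by nlinarith
  have ht : -x ≤ 99 / 32 * y := by nlinarith
  obtain ⟨a, ha, a0, a1⟩ := cell_of (-x) (by linarith) hx1
  obtain ⟨b, hb, b0, b1⟩ := cell_of y hy.le hy1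
  have e1 : (-x * 128) * (-x * 128) ≤ ((a : ℝ) + 1) * (a + 1) :=
    mul_self_le_mul_self (by nlinarith) a1
  have e2 : (y * 128) * (y * 128) ≤ ((b : ℝ) + 1) * (b + 1) :=
    mul_self_le_mul_self (by positivity) b1
  have e3 : (a : ℝ) * a ≤ (-x * 128) * (-x * 128) := mul_self_le_mul_self (Nat.cast_nonneg _) a0
  have e4 : (b : ℝ) * b ≤ (y * 128) * (y * 128) := mul_self_le_mul_self (Nat.cast_nonneg _) b0
  have c0 : 3 * (b * b) < (a + 1) * (a + 1) := by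
    have : 3 * ((b : ℝ) * b) < (a + 1) * (a + 1) := by nlinarith
    exact_mod_cast this
  have c1 : 25 * (a * a) ≤ 237 * ((b + 1) * (b + 1)) := by
    have : 25 * ((a : ℝ) * a) ≤ 237 * (((b : ℝ) + 1) * (b + 1)) := by nlinarith
    exact_mod_cast this
  have c2 : a * a + b * b ≤ 16384 := by
    have : (a : ℝ) * a + b * b ≤ 16384 := by nlinarith
    exact_mod_cast this
  rcases cellsN a ha b hb c0 c1 c2 with ⟨u1, u2⟩ | ⟨e, he, k1, k2, k3, k4⟩ | ⟨e, he, k1, k2, k3, k4⟩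
  · have u1' : (a : ℝ) + 1 ≤ 32 := by exact_mod_cast u1
    have u2' : (b : ℝ) + 1 ≤ 16 := by exact_mod_cast u2
    rcases le_total (-x) (7 / 4 * y) with h7 | h7
    · exact thin_old x y hx hy h7 (by linarith)
    · exact thin_new x y hy h7 ht (by linarith) (by linarith)
  · exact boxes_good e he x y (inB_of e a b (-x) y k1 k2 k3 k4 a0 a1 b0 b1)
  · exact boxesN_good e he x y (inB_of e a b (-x) y k1 k2 k3 k4 a0 a1 b0 b1)

end Pool.Agent.H79.OC
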