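import Mathlib

set_option autoImplicit false

/-!
# Programs for the certificates

Everything here is evaluated by the kernel. Vectors of 384 numbers below `2^40` are packed in one number.
-/

namespace Pool.Agent.H79.OC

/-- A binary tree with natural numbers at the leaves. -/
inductive Tr where
  | lf : ℕ → Tr
  | nd : Tr → Tr → Tr

/-- Entry `k` of the tree (binary digits of `k` from below). -/
noncomputable def Tr.get (t : Tr) : ℕ → ℕ :=
  Tr.rec (motive := fun _ => ℕ → ℕ) (fun n _ => n)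
    (fun _ _ gl gr k => Bool.rec (gr (Nat.shiftRight k 1)) (gl (Nat.shiftRight k 1))
      (Nat.beq (Nat.land k 1) 0)) t

/-- Evaluation of the argument before use. -/
noncomputable def frc {α : Type} (n : ℕ) (f : ℕ → α) : α :=
  Nat.rec (motive := fun _ => α) (f 0) (fun m _ => f (Nat.succ m)) n

theorem frc_eq {α : Type} (n : ℕ) (f : ℕ → α) : frc n f = f n := by
  cases n <;> rfl

/-- Bounded quantifier. -/
noncomputable def allb (n : ℕ) (f : ℕ → Bool) : Bool :=
  Nat.rec (motive := fun _ => Bool) true (fun m ih => Bool.rec false ih (f m)) n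

theorem rec_false (a b : Bool) : (Bool.rec false a b : Bool) = (b && a) := by
  cases b <;> rfl

theorem allb_iff (n : ℕ) (f : ℕ → Bool) : allb n f = true ↔ ∀ i < n, f i = true := by
  induction n with
  | zero => exact ⟨fun _ i hi => absurd hi (Nat.not_lt_zero i), fun _ => rfl⟩
  | succ n ih =>
    have h : allb (n + 1) f = (f n && allb n f) := rec_false _ _
    rw [h, Bool.and_eq_true, ih]
    constructor
    · rintro ⟨h1, h2⟩ i hi
      rcases Nat.lt_succ_iff_lt_or_eq.1 hi with h | rfl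
      · exact h2 i h
      · exact h1
    · intro h1
      exact ⟨h1 n (Nat.lt_succ_self n), fun i hi => h1 i (Nat.lt_succ_of_lt hi)⟩

/-- Packed block `∑_{l < 2^m} f (a + l) 2^(40 l)`. -/
noncomputable def pk (f : ℕ → ℕ) (m : ℕ) : ℕ → ℕ :=
  Nat.rec (motive := fun _ => ℕ → ℕ) (fun a => f a)
    (fun m ih a => Nat.add (ih a)
      (Nat.mul (ih (Nat.add a (Nat.pow 2 m))) (Nat.pow 2 (Nat.mul 40 (Nat.pow 2 m))))) m

/-- Packed vector with 384 entries. -/
noncomputable def pv (f : ℕ → ℕ) : ℕ :=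
  Nat.add (pk f 8 0) (Nat.mul (pk f 7 256) (Nat.pow 2 10240))

/-- The vector of ones. -/
def ONES : ℕ := Nat.div (Nat.sub (Nat.pow 2 15360) 1) (Nat.sub (Nat.pow 2 40) 1)

/-- The vector of the `l^2`. -/
noncomputable def SQ : ℕ := pv (fun l => Nat.mul l l)

/-- The top bits. -/
def MASK : ℕ := Nat.mul (Nat.pow 2 39) ONES

/-! ### The table of `J0` -/

/-- Final comparison for an entry `T` of the table, argument `x` with `16384... x^2 / 4 = q / 1024`. -/
noncomputable def ok2 (q T m t D E O : ℕ) : Bool :=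
  frc (Nat.mul 1024 (Nat.mul (Nat.add m 1) (Nat.add m 1))) fun c =>
  Bool.rec false
    (Nat.ble (Nat.add (Nat.mul (Nat.mul T D) c) (Nat.mul 65536 (Nat.add (Nat.mul O c) (Nat.mul t q))))
       (Nat.add (Nat.mul D c) (Nat.mul 65536 (Nat.mul (Nat.add E D) c))))
    (Nat.ble (Nat.mul 65536 (Nat.add E D)) (Nat.add (Nat.mul 65536 O) (Nat.mul (Nat.add T 1) D)))

/-- `j` double steps of the series. -/
noncomputable def ser (q T j : ℕ) : ℕ → ℕ → ℕ → ℕ → ℕ → Bool :=
  Nat.rec (motive := fun _ => ℕ → ℕ → ℕ → ℕ → ℕ → Bool)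
    (fun m t D E O => ok2 q T m t D E O)
    (fun _ ih m t D E O =>
      frc (Nat.mul 1024 (Nat.mul (Nat.add m 1) (Nat.add m 1))) fun c1 =>
      frc (Nat.mul 1024 (Nat.mul (Nat.add m 2) (Nat.add m 2))) fun c2 =>
      frc (Nat.add m 2) fun m' =>
      ih m' (Nat.mul (Nat.mul t q) q) (Nat.mul D (Nat.mul c1 c2))
        (Nat.add (Nat.mul E (Nat.mul c1 c2)) (Nat.mul (Nat.mul t q) q))
        (Nat.mul (Nat.add (Nat.mul O c1) (Nat.mul t q)) c2)) j

/-- `T` is `65536 (J0 (n / 16) + 1)` up to one unit. -/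
noncomputable def ok1 (n T : ℕ) : Bool :=
  frc (Nat.mul n n) fun q => ser q T (Nat.add (Nat.div n 22) 8) 0 1 1 1 0

/-- Entries `a, …, a + n - 1` of a tree are correct. -/
noncomputable def okr (tr : Tr) (a n : ℕ) : Bool :=
  allb n fun i => frc (Nat.add a i) fun k => frc (tr.get k) fun T => ok1 k T

/-- `1024 (J0 (l k / 1024) + 1)` by linear interpolation in the table. -/
noncomputable def tf (tr : Tr) (k l : ℕ) : ℕ :=
  frc (Nat.mul l k) fun p => frc (Nat.shiftRight p 6) fun n => frc (Nat.land p 63) fun f =>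
    Nat.shiftRight (Nat.add (Nat.add (Nat.mul (Nat.sub 64 f) (tr.get n))
      (Nat.mul f (tr.get (Nat.succ n)))) 2048) 12

/-- Entries `a, …, a + n - 1` of the packed table are correct. -/
noncomputable def okv (tr vr : Tr) (a n : ℕ) : Bool :=
  allb n fun i => frc (Nat.add a i) fun k => Nat.beq (vr.get k) (pv (tf tr k))

/-! ### The grid -/

/-- A distance `√((i + (sm - sp) ξ)^2 + (dl η)^2)` with weight `mp - mm`, where `x = -ξ`; `tl / 1024` bounds
the tail. -/
inductive Cl where
  | cl (i sp sm dl mp mm tl : ℕ) : Cl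

/-- One step of the method of Newton for the square root of `n`. -/
noncomputable def nw (n r : ℕ) : ℕ := Nat.shiftRight (Nat.add r (Nat.div n r)) 1

/-- The part `(U, r)` of one class at a node: `r` approximates `1024` times the square root of `a^2 + b^2`. -/
noncomputable def ucl (vr : Tr) (a b : ℕ) (k : ℕ → Bool) : Bool :=
  frc (Nat.shiftLeft (Nat.add (Nat.mul a a) (Nat.mul b b)) 20) fun n =>
  frc (nw n (nw n (nw n (nw n (Nat.shiftLeft (Nat.add a b) 10))))) fun r =>
  Bool.rec false (Bool.rec false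
    (frc (Nat.shiftRight r 10) fun q => frc (Nat.land r 1023) fun t =>
      k (Nat.add (Nat.mul (Nat.sub 1024 t) (vr.get q)) (Nat.mul t (vr.get (Nat.succ q)))))
    (Nat.ble n (Nat.mul (Nat.succ r) (Nat.succ r))))
    (Nat.ble (Nat.mul (Nat.sub r 1) (Nat.sub r 1)) n)

/-- The check at the node `(X, Y)`. -/
noncomputable def ev (vr : Tr) (X Y : ℕ) (cs : List Cl) : ℕ → ℕ → ℕ → Bool :=
  List.rec (motive := fun _ => ℕ → ℕ → ℕ → Bool)
    (fun P N OFF => Nat.beq (Nat.land (Nat.sub (Nat.add P OFF) N) MASK) MASK)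
    (fun c _ ih P N OFF => Cl.rec (motive := fun _ => Bool) (fun i sp sm dl mp mm _ =>
      frc (Nat.add (Nat.sub (Nat.add (Nat.mul 128 i) (Nat.mul sm X)) (Nat.mul sp X))
        (Nat.sub (Nat.mul sp X) (Nat.add (Nat.mul 128 i) (Nat.mul sm X)))) fun a =>
      frc (Nat.mul dl Y) fun b =>
      ucl vr a b fun U => ih (Nat.add P (Nat.mul mp U)) (Nat.add N (Nat.mul mm U)) OFF) c) cs

/-- The check at all nodes `x0 ≤ X < x0 + nx`, `y0 ≤ Y < y0 + ny`. -/
noncomputable def blk (vr : Tr) (cs : List Cl) (x0 nx y0 ny cp cn c2 : ℕ) : Bool :=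
  allb nx fun x => allb ny fun y =>
    frc (Nat.add x0 x) fun X => frc (Nat.add y0 y) fun Y =>
    ev vr X Y cs 0 (Nat.mul c2 SQ) (Nat.sub (Nat.add MASK (Nat.mul cp ONES)) (Nat.mul cn ONES))

end Pool.Agent.H79.OC
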