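import Pool.Agent.H79.DF.B3

set_option autoImplicit false

/-!
# `J0` of the norm along a line

`J0 (√(a^2 + b^2)) = (2 π)⁻¹ ∫_0^{2π} cos (a cos θ + b sin θ) dθ` (see `J0_avg` in DF/B3.lean, `‖w‖` with `w = a + i b`). For every
`θ` the function `t ↦ cos (α + β t) - β^2 t^2 / 2` is concave, where `α = p cos θ + p' sin θ`, `β = q cos θ + q' sin θ` (second
derivative `-β^2 (cos + 1) ≤ 0`), and the mean of `β^2` is `(q^2 + q'^2) / 2`. Integrate the inequality of concavity.
-/

namespace Pool.Agent.H79.OC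

open Pool.Agent.H79.DF (J0)

theorem Line_conc : ConcaveOn ℝ Set.univ (fun x : ℝ => Real.cos x - x ^ 2 / 2) := by
  have hd : ∀ x : ℝ, HasDerivAt (fun x : ℝ => Real.cos x - x ^ 2 / 2) (-Real.sin x - x) x := by
    intro x
    have h1 := (Real.hasDerivAt_cos x).sub (((hasDerivAt_id x).pow 2).div_const 2)
    refine h1.congr_deriv ?_
    simp
  have hd1 : deriv (fun x : ℝ => Real.cos x - x ^ 2 / 2) = fun x => -Real.sin x - x :=
    funext fun x => (hd x).deriv
  have hd2 : ∀ x : ℝ, HasDerivAt (fun x : ℝ => -Real.sin x - x) (-Real.cos x - 1) x := by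
    intro x
    exact ((Real.hasDerivAt_sin x).neg).sub (hasDerivAt_id x)
  refine concaveOn_univ_of_deriv2_nonpos (fun x => (hd x).differentiableAt) ?_ ?_
  · rw [hd1]
    exact fun x => (hd2 x).differentiableAt
  · intro x
    rw [Function.iterate_succ, Function.iterate_one, Function.comp_apply, hd1, (hd2 x).deriv]
    linarith [Real.neg_one_le_cos x]

theorem Line_cos_le (x y s t : ℝ) (hs : 0 ≤ s) (ht : 0 ≤ t) (hst : s + t = 1) :
    s * Real.cos x + t * Real.cos y ≤ Real.cos (s * x + t * y) + s * t * (x - y) ^ 2 / 2 := by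
  have h := Line_conc.2 (Set.mem_univ x) (Set.mem_univ y) hs ht hst
  simp only [smul_eq_mul] at h
  have h2 : s * x ^ 2 + t * y ^ 2 - (s * x + t * y) ^ 2 = s * t * (x - y) ^ 2 := by
    obtain rfl : t = 1 - s := by linarith
    ring
  linarith

theorem Line_cos_ge (x y s t : ℝ) (hs : 0 ≤ s) (ht : 0 ≤ t) (hst : s + t = 1) :
    Real.cos (s * x + t * y) - s * t * (x - y) ^ 2 / 2 ≤ s * Real.cos x + t * Real.cos y := by
  have h := Line_cos_le (x + Real.pi) (y + Real.pi) s t hs ht hst
  have h1 : s * (x + Real.pi) + t * (y + Real.pi) = s * x + t * y + Real.pi := by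
    obtain rfl : t = 1 - s := by linarith
    ring
  rw [h1, Real.cos_add_pi, Real.cos_add_pi, Real.cos_add_pi] at h
  have h2 : x + Real.pi - (y + Real.pi) = x - y := by ring
  rw [h2] at h
  linarith

/-- the integral formula -/
theorem Line_J0 (a b : ℝ) : 2 * Real.pi * J0 (Real.sqrt (a ^ 2 + b ^ 2)) =
    ∫ θ in (0 : ℝ)..(2 * Real.pi), Real.cos (a * Real.cos θ + b * Real.sin θ) := by
  have h := Pool.Agent.H79.DF.J0_avg (2 * Real.pi)⁻¹ (⟨a, b⟩ : ℂ)
  have hpi : (2 * Real.pi) ≠ 0 := by positivity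
  have hn : ‖(⟨a, b⟩ : ℂ)‖ = Real.sqrt (a ^ 2 + b ^ 2) := by
    rw [Complex.norm_eq_sqrt_sq_add_sq]
  rw [mul_inv_cancel₀ hpi, one_mul, hn] at h
  rw [← h]
  refine intervalIntegral.integral_congr fun θ _ => ?_
  have h1 : 2 * Real.pi * inner ℝ ((((2 * Real.pi)⁻¹ : ℝ) : ℂ) * Complex.exp (θ * Complex.I)) (⟨a, b⟩ : ℂ)
      = a * Real.cos θ + b * Real.sin θ := by
    rw [Complex.inner, Complex.exp_mul_I, ← Complex.ofReal_cos, ← Complex.ofReal_sin]
    simp only [map_mul, map_add, Complex.conj_ofReal, Complex.conj_I, Complex.mul_re,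
      Complex.mul_im, Complex.add_re, Complex.add_im, Complex.ofReal_re, Complex.ofReal_im,
      Complex.neg_re, Complex.neg_im, Complex.I_re, Complex.I_im]
    field_simp
    ring
  simp only [h1]

theorem Line_sq (q q' : ℝ) : ∫ θ in (0 : ℝ)..(2 * Real.pi), (q * Real.cos θ + q' * Real.sin θ) ^ 2
    = Real.pi * (q ^ 2 + q' ^ 2) := by
  have hd : ∀ θ : ℝ, HasDerivAt (fun θ : ℝ => (q ^ 2 + q' ^ 2) / 2 * θ
      + (q ^ 2 - q' ^ 2) / 2 * (Real.sin θ * Real.cos θ) + q * q' * Real.sin θ ^ 2)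
      ((q * Real.cos θ + q' * Real.sin θ) ^ 2) θ := by
    intro θ
    have h1 := ((hasDerivAt_id θ).const_mul ((q ^ 2 + q' ^ 2) / 2)).add
      (((Real.hasDerivAt_sin θ).mul (Real.hasDerivAt_cos θ)).const_mul ((q ^ 2 - q' ^ 2) / 2))
    have h2 := h1.add (((Real.hasDerivAt_sin θ).pow 2).const_mul (q * q'))
    refine h2.congr_deriv ?_
    have h3 := Real.sin_sq_add_cos_sq θ
    push_cast
    linear_combination ((q ^ 2 + q' ^ 2) / 2 ) * (-h3)
  have h := intervalIntegral.integral_eq_sub_of_hasDerivAt (a := 0) (b := 2 * Real.pi)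
    (fun θ _ => hd θ) ((by fun_prop : Continuous fun θ : ℝ =>
      (q * Real.cos θ + q' * Real.sin θ) ^ 2).intervalIntegrable _ _)
  rw [h]
  simp
  ring

theorem Line_le (p q p' q' u v s t : ℝ) (hs : 0 ≤ s) (ht : 0 ≤ t) (hst : s + t = 1) :
    s * J0 (Real.sqrt ((p + u * q) ^ 2 + (p' + u * q') ^ 2)) +
      t * J0 (Real.sqrt ((p + v * q) ^ 2 + (p' + v * q') ^ 2)) ≤
    J0 (Real.sqrt ((p + (s * u + t * v) * q) ^ 2 + (p' + (s * u + t * v) * q') ^ 2)) +
      (q ^ 2 + q' ^ 2) / 4 * (s * t * (u - v) ^ 2) := by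
  have hpi : (0 : ℝ) < 2 * Real.pi := by positivity
  have h : ∫ θ in (0 : ℝ)..(2 * Real.pi),
      (s * Real.cos ((p + u * q) * Real.cos θ + (p' + u * q') * Real.sin θ) +
        t * Real.cos ((p + v * q) * Real.cos θ + (p' + v * q') * Real.sin θ))
      ≤ ∫ θ in (0 : ℝ)..(2 * Real.pi),
      (Real.cos ((p + (s * u + t * v) * q) * Real.cos θ +
        (p' + (s * u + t * v) * q') * Real.sin θ) +
        s * t * (u - v) ^ 2 / 2 * (q * Real.cos θ + q' * Real.sin θ) ^ 2) := by
    refine intervalIntegral.integral_mono_on hpi.le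
      ((by fun_prop : Continuous _).intervalIntegrable _ _)
      ((by fun_prop : Continuous _).intervalIntegrable _ _) fun θ _ => ?_
    have h1 := Line_cos_le ((p + u * q) * Real.cos θ + (p' + u * q') * Real.sin θ)
      ((p + v * q) * Real.cos θ + (p' + v * q') * Real.sin θ) s t hs ht hst
    have h2 : s * ((p + u * q) * Real.cos θ + (p' + u * q') * Real.sin θ) +
        t * ((p + v * q) * Real.cos θ + (p' + v * q') * Real.sin θ)
        = (p + (s * u + t * v) * q) * Real.cos θ + (p' + (s * u + t * v) * q') * Real.sin θ := by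
      obtain rfl : t = 1 - s := by linarith
      ring
    rw [h2] at h1
    refine h1.trans (le_of_eq ?_)
    ring
  rw [intervalIntegral.integral_add ((by fun_prop : Continuous _).intervalIntegrable _ _)
      ((by fun_prop : Continuous _).intervalIntegrable _ _),
    intervalIntegral.integral_add ((by fun_prop : Continuous _).intervalIntegrable _ _)
      ((by fun_prop : Continuous _).intervalIntegrable _ _),
    intervalIntegral.integral_const_mul, intervalIntegral.integral_const_mul,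
    intervalIntegral.integral_const_mul, Line_sq, ← Line_J0, ← Line_J0, ← Line_J0] at h
  refine le_of_mul_le_mul_left ?_ hpi
  refine le_trans (le_of_eq ?_) (h.trans (le_of_eq ?_))
  · ring
  · ring

theorem Line_ge (p q p' q' u v s t : ℝ) (hs : 0 ≤ s) (ht : 0 ≤ t) (hst : s + t = 1) :
    J0 (Real.sqrt ((p + (s * u + t * v) * q) ^ 2 + (p' + (s * u + t * v) * q') ^ 2)) -
      (q ^ 2 + q' ^ 2) / 4 * (s * t * (u - v) ^ 2) ≤
    s * J0 (Real.sqrt ((p + u * q) ^ 2 + (p' + u * q') ^ 2)) +
      t * J0 (Real.sqrt ((p + v * q) ^ 2 + (p' + v * q') ^ 2)) := by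
  have hpi : (0 : ℝ) < 2 * Real.pi := by positivity
  have h : ∫ θ in (0 : ℝ)..(2 * Real.pi),
      (Real.cos ((p + (s * u + t * v) * q) * Real.cos θ +
        (p' + (s * u + t * v) * q') * Real.sin θ) -
        s * t * (u - v) ^ 2 / 2 * (q * Real.cos θ + q' * Real.sin θ) ^ 2)
      ≤ ∫ θ in (0 : ℝ)..(2 * Real.pi),
      (s * Real.cos ((p + u * q) * Real.cos θ + (p' + u * q') * Real.sin θ) +
        t * Real.cos ((p + v * q) * Real.cos θ + (p' + v * q') * Real.sin θ)) := by
    refine intervalIntegral.integral_mono_on hpi.le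
      ((by fun_prop : Continuous _).intervalIntegrable _ _)
      ((by fun_prop : Continuous _).intervalIntegrable _ _) fun θ _ => ?_
    have h1 := Line_cos_ge ((p + u * q) * Real.cos θ + (p' + u * q') * Real.sin θ)
      ((p + v * q) * Real.cos θ + (p' + v * q') * Real.sin θ) s t hs ht hst
    have h2 : s * ((p + u * q) * Real.cos θ + (p' + u * q') * Real.sin θ) +
        t * ((p + v * q) * Real.cos θ + (p' + v * q') * Real.sin θ)
        = (p + (s * u + t * v) * q) * Real.cos θ + (p' + (s * u + t * v) * q') * Real.sin θ := by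
      obtain rfl : t = 1 - s := by linarith
      ring
    rw [h2] at h1
    refine le_trans (le_of_eq ?_) h1
    ring
  rw [intervalIntegral.integral_sub ((by fun_prop : Continuous _).intervalIntegrable _ _)
      ((by fun_prop : Continuous _).intervalIntegrable _ _),
    intervalIntegral.integral_add ((by fun_prop : Continuous _).intervalIntegrable _ _)
      ((by fun_prop : Continuous _).intervalIntegrable _ _),
    intervalIntegral.integral_const_mul, intervalIntegral.integral_const_mul,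
    intervalIntegral.integral_const_mul, Line_sq, ← Line_J0, ← Line_J0, ← Line_J0] at h
  refine le_of_mul_le_mul_left ?_ hpi
  refine le_trans (le_of_eq ?_) (h.trans (le_of_eq ?_))
  · ring
  · ring

theorem line_concave (p q p' q' : ℝ) :
    ConcaveOn ℝ Set.univ (fun t : ℝ => J0 (Real.sqrt ((p + t * q) ^ 2 + (p' + t * q') ^ 2)) -
      (q ^ 2 + q' ^ 2) / 4 * t ^ 2) := by
  refine ⟨convex_univ, fun u _ v _ s t hs ht hst => ?_⟩
  have h := Line_le p q p' q' u v s t hs ht hst
  simp only [smul_eq_mul]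
  have h2 : s * u ^ 2 + t * v ^ 2 - (s * u + t * v) ^ 2 = s * t * (u - v) ^ 2 := by
    obtain rfl : t = 1 - s := by linarith
    ring
  rw [← h2] at h
  linarith

theorem line_convex (p q p' q' : ℝ) :
    ConvexOn ℝ Set.univ (fun t : ℝ => J0 (Real.sqrt ((p + t * q) ^ 2 + (p' + t * q') ^ 2)) +
      (q ^ 2 + q' ^ 2) / 4 * t ^ 2) := by
  refine ⟨convex_univ, fun u _ v _ s t hs ht hst => ?_⟩
  have h := Line_ge p q p' q' u v s t hs ht hst
  simp only [smul_eq_mul]
  have h2 : s * u ^ 2 + t * v ^ 2 - (s * u + t * v) ^ 2 = s * t * (u - v) ^ 2 := by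
    obtain rfl : t = 1 - s := by linarith
    ring
  rw [← h2] at h
  linarith

end Pool.Agent.H79.OC
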