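import Pool.Agent.H79.OC.CDefs
import Pool.Agent.H79.OC.Line
import Pool.Agent.H79.DF.Num

set_option autoImplicit false

/-!
# From the nodes of the grid to the box

`step1`: choose the cell of `x` (if `n = 0` then `x = k0 / N`), apply `num_chord` (DF/Num.lean) on `[k/N, (k+1)/N]`.
`grid_interp`: three steps. (1) `l`, `Y` fixed: `x' ↦ FF cs (l/8) (-x') (Y/128)` with `M = ∑ (mp+mm) (l/8)^2 (sp-sm)^2 / 4` (concavity of
the sum from `line_concave`, `line_convex` with weights `mp`, `mm`; `s * dd` = norm of `(s i - s (sp-sm) x', s dl y)`, use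
`Real.sqrt_mul_self`/`Real.sqrt_mul` for `s ≥ 0`), `N = 128`. (2) `l`, `x` fixed: in `y`, `M = ∑ (mp+mm) (l/8)^2 dl^2 / 4`.
(3) `x`, `y` fixed: in `s`, `M = ∑ (mp+mm) (dd c x y)^2 / 4`, `N = 8`, `k0 = 0`, `n = 383`, and
`(dd c x y)^2 ≤ nmax / 16384` on the box.
-/

namespace Pool.Agent.H79.OC

open Pool.Agent.H79.DF (J0)

/-- Values at the nodes of a grid bound a nearly concave function from below. -/
theorem step1 (g : ℝ → ℝ) (M : ℝ) (hM : 0 ≤ M)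
    (hg : ConcaveOn ℝ Set.univ (fun x => g x - M * x ^ 2)) (N : ℝ) (hN : 0 < N) (k0 n : ℕ) (v : ℝ)
    (hv : ∀ k : ℕ, k0 ≤ k → k ≤ k0 + n → v ≤ g (k / N)) (x : ℝ) (h0 : k0 / N ≤ x)
    (h1 : x ≤ (k0 + n : ℕ) / N) : v - M / (4 * N ^ 2) ≤ g x := by
  have hE : 0 ≤ M / (4 * N ^ 2) := by positivity
  rw [div_le_iff₀ hN] at h0
  rw [le_div_iff₀ hN] at h1
  have hx0 : 0 ≤ x * N := (Nat.cast_nonneg k0).trans h0
  by_cases hlt : ⌊x * N⌋₊ < k0 + n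
  · have h2 : (⌊x * N⌋₊ : ℝ) ≤ x * N := Nat.floor_le hx0
    have h3 : x * N < ⌊x * N⌋₊ + 1 := Nat.lt_floor_add_one _
    have h4 : k0 ≤ ⌊x * N⌋₊ := Nat.le_floor h0
    have h5 := hv ⌊x * N⌋₊ h4 hlt.le
    have h6 := hv (⌊x * N⌋₊ + 1) (by omega) hlt
    have h7 := DF.num_chord hM hg (a := (⌊x * N⌋₊ : ℝ) / N) (b := ((⌊x * N⌋₊ + 1 : ℕ) : ℝ) / N)
      (x := x) (m := v) (by
        rw [div_lt_div_iff_of_pos_right hN]
        push_cast
        linarith) (by rw [div_le_iff₀ hN]; exact h2)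
      (by rw [le_div_iff₀ hN]; push_cast; exact h3.le) h5 h6
    have h8 : (((⌊x * N⌋₊ + 1 : ℕ) : ℝ) / N - (⌊x * N⌋₊ : ℝ) / N) ^ 2 = 1 / N ^ 2 := by
      push_cast
      field_simp
      ring
    rw [h8] at h7
    have h9 : M * (1 / N ^ 2) / 4 = M / (4 * N ^ 2) := by
      field_simp
    linarith
  · push Not at hlt
    have h2 : ((k0 + n : ℕ) : ℝ) ≤ x * N := (Nat.cast_le.2 hlt).trans (Nat.floor_le hx0)
    have h3 : x = (k0 + n : ℕ) / N := by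
      rw [eq_div_iff hN.ne']
      exact le_antisymm h1 h2
    have h4 := hv (k0 + n) (by omega) le_rfl
    rw [← h3] at h4
    linarith

/-- The error at a node. -/
noncomputable def nerr (cs : List Cl) (x0 nx y0 ny l : ℕ) : ℝ :=
  (cs.map fun c => ((c.mp : ℝ) + c.mm) * (((l : ℝ) ^ 2 * (((c.sp : ℝ) - c.sm) ^ 2 + (c.dl : ℝ) ^ 2) +
    (nmax c x0 (x0 + nx) (y0 + ny) : ℝ)) / 16777216)).sum

lemma Interp_even (x : ℝ) : J0 (-x) = J0 x := by
  unfold Pool.Agent.H79.DF.J0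
  congr 2
  funext θ
  rw [neg_mul, Real.cos_neg]

/-- one class -/
lemma Interp_one (c : Cl) (p q p' q' : ℝ) :
    ConcaveOn ℝ Set.univ (fun t : ℝ => wt c * J0 (Real.sqrt ((p + t * q) ^ 2 + (p' + t * q') ^ 2)) -
      ((c.mp : ℝ) + c.mm) * ((q ^ 2 + q' ^ 2) / 4) * t ^ 2) := by
  have h1 := (line_concave p q p' q').smul (Nat.cast_nonneg c.mp : (0 : ℝ) ≤ c.mp)
  have h2 := ((line_convex p q p' q').neg).smul (Nat.cast_nonneg c.mm : (0 : ℝ) ≤ c.mm)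
  refine (h1.add h2).congr fun t _ => ?_
  simp only [Pi.add_apply, Pi.neg_apply, smul_eq_mul, wt]
  ring

/-- the sum -/
lemma Interp_sum (cs : List Cl) (G : Cl → ℝ → ℝ) (m : Cl → ℝ)
    (h : ∀ c ∈ cs, ConcaveOn ℝ Set.univ (fun t => G c t - m c * t ^ 2)) :
    ConcaveOn ℝ Set.univ (fun t => (cs.map fun c => G c t).sum - (cs.map m).sum * t ^ 2) := by
  induction cs with
  | nil =>
    simp only [List.map_nil, List.sum_nil, zero_mul, sub_zero]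
    exact concaveOn_const 0 convex_univ
  | cons c cs ih =>
    have h1 := h c (by simp)
    have h2 := ih fun c' hc' => h c' (by simp [hc'])
    refine (h1.add h2).congr fun t _ => ?_
    simp only [Pi.add_apply, List.map_cons, List.sum_cons]
    ring

lemma Interp_nonneg (cs : List Cl) (m : Cl → ℝ) (h : ∀ c, 0 ≤ m c) : 0 ≤ (cs.map m).sum :=
  List.sum_nonneg fun x hx => by
    obtain ⟨c, _, rfl⟩ := List.mem_map.1 hx
    exact h c

lemma Interp_sqrt {s : ℝ} (hs : 0 ≤ s) (a b : ℝ) :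
    s * Real.sqrt (a ^ 2 + b ^ 2) = Real.sqrt ((s * a) ^ 2 + (s * b) ^ 2) := by
  rw [show (s * a) ^ 2 + (s * b) ^ 2 = s ^ 2 * (a ^ 2 + b ^ 2) by ring,
    Real.sqrt_mul (sq_nonneg s), Real.sqrt_sq hs]

lemma Interp_sqrt' (s a b : ℝ) :
    J0 (s * Real.sqrt (a ^ 2 + b ^ 2)) = J0 (Real.sqrt ((s * a) ^ 2 + (s * b) ^ 2)) := by
  rcases le_total 0 s with hs | hs
  · rw [Interp_sqrt hs]
  · rw [← Interp_even, ← neg_mul, Interp_sqrt (neg_nonneg.2 hs)]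
    congr 2
    ring

/-- in `x` -/
lemma Interp_x (cs : List Cl) (s y : ℝ) :
    ConcaveOn ℝ Set.univ (fun t => FF cs s (-t) y -
      (cs.map fun c => ((c.mp : ℝ) + c.mm) * (s ^ 2 * ((c.sp : ℝ) - c.sm) ^ 2 / 4)).sum * t ^ 2) := by
  unfold FF
  apply Interp_sum cs (fun c t => wt c * J0 (s * dd c (-t) y))
  intro c _
  refine (Interp_one c (s * c.i) (-(s * ((c.sp : ℝ) - c.sm))) (s * (c.dl * y)) 0).congr fun t _ => ?_
  simp only [dd]
  rw [Interp_sqrt']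
  congr 1
  · congr 3
    ring
  · ring

/-- in `y` -/
lemma Interp_y (cs : List Cl) (s x : ℝ) :
    ConcaveOn ℝ Set.univ (fun t => FF cs s x t -
      (cs.map fun c => ((c.mp : ℝ) + c.mm) * (s ^ 2 * (c.dl : ℝ) ^ 2 / 4)).sum * t ^ 2) := by
  unfold FF
  apply Interp_sum cs (fun c t => wt c * J0 (s * dd c x t))
  intro c _
  refine (Interp_one c (s * ((c.i : ℝ) + ((c.sp : ℝ) - (c.sm : ℝ)) * x)) 0 0 (s * c.dl)).congr
    fun t _ => ?_
  simp only [dd]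
  rw [Interp_sqrt']
  congr 1
  · congr 3
    ring
  · ring

/-- in `s` -/
lemma Interp_s (cs : List Cl) (x y : ℝ) :
    ConcaveOn ℝ Set.univ (fun t => FF cs t x y -
      (cs.map fun c => ((c.mp : ℝ) + c.mm) * ((dd c x y) ^ 2 / 4)).sum * t ^ 2) := by
  unfold FF
  apply Interp_sum cs (fun c t => wt c * J0 (t * dd c x y))
  intro c _
  refine (Interp_one c 0 ((c.i : ℝ) + ((c.sp : ℝ) - (c.sm : ℝ)) * x) 0 (c.dl * y)).congr
    fun t _ => ?_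
  simp only [dd]
  rw [Interp_sqrt', Real.sq_sqrt (by positivity)]
  congr 1
  congr 3
  ring

/-- the bound for the distance -/
lemma Interp_dd (c : Cl) (x0 nx y0 ny : ℕ) (x y : ℝ) (hx0 : (x0 : ℝ) / 128 ≤ -x)
    (hx1 : -x ≤ (x0 + nx : ℕ) / 128) (hy0 : (y0 : ℝ) / 128 ≤ y) (hy1 : y ≤ (y0 + ny : ℕ) / 128) :
    (dd c x y) ^ 2 ≤ (nmax c x0 (x0 + nx) (y0 + ny) : ℝ) / 16384 := by
  unfold dd nmax
  rw [Real.sq_sqrt (by positivity)]
  have hy : 0 ≤ y := (by positivity : (0 : ℝ) ≤ (y0 : ℝ) / 128).trans hy0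
  have ha : |128 * ((c.i : ℝ) + ((c.sp : ℝ) - (c.sm : ℝ)) * x)| ≤ (amax c x0 (x0 + nx) : ℝ) := by
    have h1 : (128 * c.i + c.sm * (x0 + nx) : ℝ) - c.sp * x0 ≤
        ((128 * c.i + c.sm * (x0 + nx) - c.sp * x0 : ℕ) : ℝ) := by
      rcases le_total (c.sp * x0) (128 * c.i + c.sm * (x0 + nx)) with h | h
      · rw [Nat.cast_sub h]
        push_cast
        exact le_rfl
      · rw [Nat.sub_eq_zero_of_le h]
        have : ((128 * c.i + c.sm * (x0 + nx) : ℕ) : ℝ) ≤ ((c.sp * x0 : ℕ) : ℝ) := by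
          exact_mod_cast h
        push_cast at this ⊢
        linarith
    have h2 : (c.sp * (x0 + nx) : ℝ) - (128 * c.i + c.sm * x0) ≤
        ((c.sp * (x0 + nx) - (128 * c.i + c.sm * x0) : ℕ) : ℝ) := by
      rcases le_total (128 * c.i + c.sm * x0) (c.sp * (x0 + nx)) with h | h
      · rw [Nat.cast_sub h]
        push_cast
        exact le_rfl
      · rw [Nat.sub_eq_zero_of_le h]
        have : ((c.sp * (x0 + nx) : ℕ) : ℝ) ≤ ((128 * c.i + c.sm * x0 : ℕ) : ℝ) := by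
          exact_mod_cast h
        push_cast at this ⊢
        linarith
    have h3 : (0 : ℝ) ≤ ((128 * c.i + c.sm * (x0 + nx) - c.sp * x0 : ℕ) : ℝ) := Nat.cast_nonneg _
    have h4 : (0 : ℝ) ≤ ((c.sp * (x0 + nx) - (128 * c.i + c.sm * x0) : ℕ) : ℝ) := Nat.cast_nonneg _
    have hx0' : (x0 : ℝ) ≤ 128 * (-x) := by linarith
    have hx1' : 128 * (-x) ≤ (x0 : ℝ) + nx := by
      push_cast at hx1
      linarith
    have h5 : (c.sm : ℝ) * (128 * (-x)) ≤ c.sm * (x0 + nx) :=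
      mul_le_mul_of_nonneg_left hx1' (Nat.cast_nonneg _)
    have h6 : (c.sm : ℝ) * x0 ≤ c.sm * (128 * (-x)) :=
      mul_le_mul_of_nonneg_left hx0' (Nat.cast_nonneg _)
    have h7 : (c.sp : ℝ) * (128 * (-x)) ≤ c.sp * (x0 + nx) :=
      mul_le_mul_of_nonneg_left hx1' (Nat.cast_nonneg _)
    have h8 : (c.sp : ℝ) * x0 ≤ c.sp * (128 * (-x)) :=
      mul_le_mul_of_nonneg_left hx0' (Nat.cast_nonneg _)
    unfold amax
    rw [Nat.cast_add, abs_le]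
    constructor <;> nlinarith
  have hb : |128 * (c.dl * y)| ≤ ((c.dl * (y0 + ny) : ℕ) : ℝ) := by
    rw [abs_of_nonneg (by positivity)]
    push_cast at hy1 ⊢
    have : (c.dl : ℝ) * (128 * y) ≤ c.dl * (y0 + ny) :=
      mul_le_mul_of_nonneg_left (by linarith) (Nat.cast_nonneg _)
    linarith
  have ha2 := sq_le_sq' (by linarith [abs_le.1 ha |>.1]) (abs_le.1 ha |>.2)
  have hb2 := sq_le_sq' (by linarith [abs_le.1 hb |>.1]) (abs_le.1 hb |>.2)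
  rw [le_div_iff₀ (by norm_num)]
  push_cast at ha2 hb2 ⊢
  nlinarith

theorem grid_interp (cs : List Cl) (x0 nx y0 ny : ℕ) (κ : ℝ)
    (h : ∀ X Y l : ℕ, x0 ≤ X → X ≤ x0 + nx → y0 ≤ Y → Y ≤ y0 + ny → l < 384 →
      -κ + nerr cs x0 nx y0 ny l ≤ FF cs ((l : ℝ) / 8) (-((X : ℝ) / 128)) ((Y : ℝ) / 128))
    (s x y : ℝ) (hs0 : 0 ≤ s) (hs1 : s ≤ 383 / 8) (hx0 : (x0 : ℝ) / 128 ≤ -x)
    (hx1 : -x ≤ (x0 + nx : ℕ) / 128) (hy0 : (y0 : ℝ) / 128 ≤ y) (hy1 : y ≤ (y0 + ny : ℕ) / 128) :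
    -κ ≤ FF cs s x y := by
  -- the errors
  have hMx : ∀ l : ℕ, (0 : ℝ) ≤
      (cs.map fun c => ((c.mp : ℝ) + c.mm) * (((l : ℝ) / 8) ^ 2 * ((c.sp : ℝ) - c.sm) ^ 2 / 4)).sum :=
    fun l => Interp_nonneg cs _ fun c => by positivity
  have hMy : ∀ l : ℕ, (0 : ℝ) ≤
      (cs.map fun c => ((c.mp : ℝ) + c.mm) * (((l : ℝ) / 8) ^ 2 * (c.dl : ℝ) ^ 2 / 4)).sum :=
    fun l => Interp_nonneg cs _ fun c => by positivity
  have hMs : (0 : ℝ) ≤ (cs.map fun c => ((c.mp : ℝ) + c.mm) * ((dd c x y) ^ 2 / 4)).sum :=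
    Interp_nonneg cs _ fun c => by positivity
  have hsum : ∀ l : ℕ, nerr cs x0 nx y0 ny l =
      (cs.map fun c => ((c.mp : ℝ) + c.mm) * (((l : ℝ) / 8) ^ 2 * ((c.sp : ℝ) - c.sm) ^ 2 / 4)).sum /
        (4 * 128 ^ 2) +
      (cs.map fun c => ((c.mp : ℝ) + c.mm) * (((l : ℝ) / 8) ^ 2 * (c.dl : ℝ) ^ 2 / 4)).sum /
        (4 * 128 ^ 2) +
      (cs.map fun c => ((c.mp : ℝ) + c.mm) *
        ((nmax c x0 (x0 + nx) (y0 + ny) : ℝ) / 16384 / 4)).sum / (4 * 8 ^ 2) := by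
    intro l
    unfold nerr
    clear h hMx hMy hMs
    induction cs with
    | nil => simp
    | cons c cs ih =>
      simp only [List.map_cons, List.sum_cons]
      rw [ih]
      ring
  have hs3 : (cs.map fun c => ((c.mp : ℝ) + c.mm) * ((dd c x y) ^ 2 / 4)).sum ≤
      (cs.map fun c => ((c.mp : ℝ) + c.mm) *
        ((nmax c x0 (x0 + nx) (y0 + ny) : ℝ) / 16384 / 4)).sum := by
    apply List.sum_le_sum
    intro c _
    have := Interp_dd c x0 nx y0 ny x y hx0 hx1 hy0 hy1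
    have h2 : (0 : ℝ) ≤ (c.mp : ℝ) + c.mm := by positivity
    exact mul_le_mul_of_nonneg_left (by linarith) h2
  -- first step
  have st1 : ∀ Y l : ℕ, y0 ≤ Y → Y ≤ y0 + ny → l < 384 →
      -κ + nerr cs x0 nx y0 ny l -
      (cs.map fun c => ((c.mp : ℝ) + c.mm) * (((l : ℝ) / 8) ^ 2 * ((c.sp : ℝ) - c.sm) ^ 2 / 4)).sum /
        (4 * 128 ^ 2) ≤ FF cs ((l : ℝ) / 8) x ((Y : ℝ) / 128) := by
    intro Y l hY0 hY1 hl
    have := step1 (fun t => FF cs ((l : ℝ) / 8) (-t) ((Y : ℝ) / 128)) _ (hMx l)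
      (Interp_x cs ((l : ℝ) / 8) ((Y : ℝ) / 128)) 128 (by norm_num) x0 nx
      (-κ + nerr cs x0 nx y0 ny l) (fun X hX0 hX1 => h X Y l hX0 hX1 hY0 hY1 hl) (-x) hx0 hx1
    simpa only [neg_neg] using this
  -- second step
  have st2 : ∀ l : ℕ, l < 384 →
      -κ + nerr cs x0 nx y0 ny l -
      (cs.map fun c => ((c.mp : ℝ) + c.mm) * (((l : ℝ) / 8) ^ 2 * ((c.sp : ℝ) - c.sm) ^ 2 / 4)).sum /
        (4 * 128 ^ 2) -
      (cs.map fun c => ((c.mp : ℝ) + c.mm) * (((l : ℝ) / 8) ^ 2 * (c.dl : ℝ) ^ 2 / 4)).sum /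
        (4 * 128 ^ 2) ≤ FF cs ((l : ℝ) / 8) x y := by
    intro l hl
    exact step1 (fun t => FF cs ((l : ℝ) / 8) x t) _ (hMy l) (Interp_y cs ((l : ℝ) / 8) x) 128
      (by norm_num) y0 ny _ (fun Y hY0 hY1 => st1 Y l hY0 hY1 hl) y hy0 hy1
  -- third step
  have st3 := step1 (fun t => FF cs t x y) _ hMs (Interp_s cs x y) 8 (by norm_num) 0 383
    (-κ + (cs.map fun c => ((c.mp : ℝ) + c.mm) *
        ((nmax c x0 (x0 + nx) (y0 + ny) : ℝ) / 16384 / 4)).sum / (4 * 8 ^ 2))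
    (fun l _ hl => by
      have h1 := st2 l (by omega)
      rw [hsum l] at h1
      linarith) s (by simpa using hs0) (by
        push_cast
        linarith)
  have h4 : (cs.map fun c => ((c.mp : ℝ) + c.mm) * ((dd c x y) ^ 2 / 4)).sum / (4 * 8 ^ 2) ≤
      (cs.map fun c => ((c.mp : ℝ) + c.mm) *
        ((nmax c x0 (x0 + nx) (y0 + ny) : ℝ) / 16384 / 4)).sum / (4 * 8 ^ 2) :=
    div_le_div_of_nonneg_right hs3 (by norm_num)
  linarith

end Pool.Agent.H79.OC
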