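import Pool.Agent.H79.OC.Node
import Pool.Agent.H79.OC.Interp

set_option autoImplicit false

/-!
# Soundness of the check of a box
-/

namespace Pool.Agent.H79.OC

open Pool.Agent.H79.DF (J0)

theorem acl_le (c : Cl) (X x0 x1 : ℕ) (h0 : x0 ≤ X) (h1 : X ≤ x1) : acl c X ≤ amax c x0 x1 := by
  unfold acl amax
  have a1 : c.sm * X ≤ c.sm * x1 := Nat.mul_le_mul_left _ h1
  have a2 : c.sp * x0 ≤ c.sp * X := Nat.mul_le_mul_left _ h0
  have a3 : c.sm * x0 ≤ c.sm * X := Nat.mul_le_mul_left _ h0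
  have a4 : c.sp * X ≤ c.sp * x1 := Nat.mul_le_mul_left _ h1
  omega

theorem cast_sc (g : Cl → ℕ) (cs : List Cl) :
    ((sc g cs : ℕ) : ℝ) = (cs.map fun c => (g c : ℝ)).sum := by
  unfold sc
  induction cs with
  | nil => simp
  | cons a l ih => simp only [List.map_cons, List.sum_cons, Nat.cast_add, ih]

theorem sum_add' {α : Type} (l : List α) (f g : α → ℝ) :
    (l.map fun a => f a + g a).sum = (l.map f).sum + (l.map g).sum := by
  induction l with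
  | nil => simp
  | cons a l ih =>
    simp only [List.map_cons, List.sum_cons, ih]
    ring

theorem sum_mul' {α : Type} (l : List α) (f : α → ℝ) (k : ℝ) :
    (l.map fun a => k * f a).sum = k * (l.map f).sum := by
  induction l with
  | nil => simp
  | cons a l ih =>
    simp only [List.map_cons, List.sum_cons, ih]
    ring

theorem sum_le' {α : Type} (l : List α) (f g : α → ℝ) (h : ∀ a ∈ l, f a ≤ g a) :
    (l.map f).sum ≤ (l.map g).sum := by
  induction l with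
  | nil => simp
  | cons a l ih =>
    simp only [List.map_cons, List.sum_cons]
    exact add_le_add (h a (by simp)) (ih fun b hb => h b (by simp [hb]))

theorem gridOK_sound (tr vr : Tr) (ht : TabOK tr) (hv : VecOK tr vr) (cs : List Cl)
    (x0 nx y0 ny cp cn c2 κ : ℕ) (h : gridOK vr cs x0 nx y0 ny cp cn c2 κ = true)
    (s x y : ℝ) (hs0 : 0 ≤ s) (hs1 : s ≤ 383 / 8) (hx0 : (x0 : ℝ) / 128 ≤ -x)
    (hx1 : -x ≤ (x0 + nx : ℕ) / 128) (hy0 : (y0 : ℝ) / 128 ≤ y) (hy1 : y ≤ (y0 + ny : ℕ) / 128) :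
    -(κ : ℝ) ≤ FF cs s x y := by
  unfold gridOK at h
  simp only [Bool.and_eq_true, decide_eq_true_eq] at h
  obtain ⟨k1, k2, k3, k4, k5, k6⟩ := h
  rw [List.all_eq_true] at k5
  have hN : ∀ c ∈ cs, ∀ X Y, x0 ≤ X → X < x0 + (nx + 1) → y0 ≤ Y → Y < y0 + (ny + 1) →
      acl c X * acl c X + (c.dl * Y) * (c.dl * Y) ≤ 268000 := by
    intro c hc X Y h0 h1 h2 h3
    have h4 : nmax c x0 (x0 + nx) (y0 + ny) ≤ 268000 := by simpa using k5 c hc
    refine le_trans ?_ h4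
    have h5 := acl_le c X x0 (x0 + nx) h0 (by omega)
    have h6 : c.dl * Y ≤ c.dl * (y0 + ny) := Nat.mul_le_mul_left _ (by omega)
    exact Nat.add_le_add (Nat.mul_le_mul h5 h5) (Nat.mul_le_mul h6 h6)
  have hb := blk_sound tr vr ht hv cs x0 (nx + 1) y0 (ny + 1) cp cn c2 hN k3 k4 k6
  refine grid_interp cs x0 nx y0 ny κ ?_ s x y hs0 hs1 hx0 hx1 hy0 hy1
  intro X Y l hX0 hX1 hY0 hY1 hl
  have h1 := hb X Y l hX0 (by omega) hY0 (by omega) hl
  rw [sum_add'] at h1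
  have e1 : (cs.map fun c => wt c * (1048576 * (J0 ((l : ℝ) / 8 *
      dd c (-((X : ℝ) / 128)) ((Y : ℝ) / 128)) + 1))).sum =
      1048576 * FF cs ((l : ℝ) / 8) (-((X : ℝ) / 128)) ((Y : ℝ) / 128) +
      1048576 * ((sc Cl.mp cs : ℝ) + (-1) * sc Cl.mm cs) := by
    rw [cast_sc, cast_sc]
    unfold FF
    rw [← sum_mul', ← sum_mul', ← sum_add', ← sum_mul', ← sum_add']
    congr 1
    refine List.map_congr_left fun c _ => ?_
    unfold wt
    ring
  have hl2 : (l : ℝ) ≤ 383 := by exact_mod_cast (by omega : l ≤ 383)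
  have hl0 : (0 : ℝ) ≤ l := Nat.cast_nonneg l
  -- the error terms
  have e2 : (cs.map fun c => ((c.mp : ℝ) + c.mm) * (1024 + l + (l : ℝ) ^ 2 / 16)).sum +
      1048576 * nerr cs x0 nx y0 ny l ≤
      1408 * (sc (fun c => c.mp + c.mm) cs : ℝ) + (l : ℝ) ^ 2 / 16 *
        (sc (fun c => (c.mp + c.mm) * (1 + (c.sp + c.sm) * (c.sp + c.sm) + c.dl * c.dl)) cs : ℝ) +
      (1 / 16) * (sc (fun c => (c.mp + c.mm) * nmax c x0 (x0 + nx) (y0 + ny)) cs : ℝ) := by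
    rw [cast_sc, cast_sc, cast_sc]
    unfold nerr
    rw [← sum_mul', ← sum_mul', ← sum_mul', ← sum_mul', ← sum_add', ← sum_add', ← sum_add']
    refine sum_le' cs _ _ fun c _ => ?_
    push_cast
    have m0 : (0 : ℝ) ≤ (c.mp : ℝ) + c.mm := by positivity
    have q0 : ((c.sp : ℝ) - c.sm) ^ 2 ≤ ((c.sp : ℝ) + c.sm) * ((c.sp : ℝ) + c.sm) := by
      have p1 : (0 : ℝ) ≤ (c.sp : ℝ) * c.sm := by positivity
      nlinarith
    have q1 : ((c.mp : ℝ) + c.mm) * ((l : ℝ) ^ 2 * ((c.sp : ℝ) - c.sm) ^ 2) ≤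
        ((c.mp : ℝ) + c.mm) * ((l : ℝ) ^ 2 * (((c.sp : ℝ) + c.sm) * ((c.sp : ℝ) + c.sm))) :=
      mul_le_mul_of_nonneg_left (mul_le_mul_of_nonneg_left q0 (sq_nonneg _)) m0
    have q2 : ((c.mp : ℝ) + c.mm) * (l : ℝ) ≤ ((c.mp : ℝ) + c.mm) * 383 :=
      mul_le_mul_of_nonneg_left hl2 m0
    nlinarith
  have f1 : (16 : ℝ) * cp + 16777216 * sc Cl.mp cs + 22528 * sc (fun c => c.mp + c.mm) cs +
      sc (fun c => (c.mp + c.mm) * nmax c x0 (x0 + nx) (y0 + ny)) cs ≤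
      16 * cn + 16777216 * (κ + sc Cl.mm cs) := by exact_mod_cast k1
  have f2 : (sc (fun c => (c.mp + c.mm) * (1 + (c.sp + c.sm) * (c.sp + c.sm) + c.dl * c.dl)) cs : ℝ) ≤
      16 * c2 := by exact_mod_cast k2
  have f3 : (l : ℝ) ^ 2 / 16 *
      (sc (fun c => (c.mp + c.mm) * (1 + (c.sp + c.sm) * (c.sp + c.sm) + c.dl * c.dl)) cs : ℝ) ≤
      (l : ℝ) ^ 2 / 16 * (16 * c2) := mul_le_mul_of_nonneg_left f2 (by positivity)
  rw [e1] at h1
  linarith

end Pool.Agent.H79.OC
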