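import Pool.Agent.H79.OC.CDefs
import Pool.Agent.H79.DF.Num

set_option autoImplicit false

/-!
# Soundness of the tail check

`nmin_le`: `128 dd = √((128 i - (sp - sm) ξ)^2 + (dl η)^2)` with `ξ = -128 x ∈ [x0, x1]`, `η = 128 y ≥ y0`, and
`|128 i - (sp - sm) ξ| ≥ amin`. `tlOK_sound`: three cases: `|J0| ≤ 1` (`J0_abs_le` in DF/B3.lean); `mm = 0` and `J0 ≥ -0.413`
(`num_J0_ge`); `num_tail`: with `X = s dd ≥ (383/8) √nmin / 128 ≥ 8` and `c = tl / 1024`: `0.64 ≤ c^2 X`, which is the square root of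
`4096 * 2^60 ≤ 10000 * 383^2 * tl^4 * nmin`.
-/

namespace Pool.Agent.H79.OC

open Pool.Agent.H79.DF (J0)

lemma Tail_sub_le {a b : ℕ} {t : ℝ} (h0 : 0 ≤ t) (h : (a : ℝ) - b ≤ t) : ((a - b : ℕ) : ℝ) ≤ t := by
  rcases le_total b a with hab | hab
  · rw [Nat.cast_sub hab]; exact h
  · rw [Nat.sub_eq_zero_of_le hab]; simpa using h0

lemma Tail_amin (c : Cl) (x0 x1 : ℕ) (X : ℝ) (h0 : (x0 : ℝ) ≤ X) (h1 : X ≤ (x1 : ℝ)) :
    (amin c x0 x1 : ℝ) ≤ |128 * (c.i : ℝ) + (c.sm : ℝ) * X - (c.sp : ℝ) * X| := by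
  unfold amin
  have hsp : (0 : ℝ) ≤ c.sp := Nat.cast_nonneg _
  have hsm : (0 : ℝ) ≤ c.sm := Nat.cast_nonneg _
  have e1 := mul_le_mul_of_nonneg_left h0 hsp
  have e2 := mul_le_mul_of_nonneg_left h1 hsp
  have e3 := mul_le_mul_of_nonneg_left h0 hsm
  have e4 := mul_le_mul_of_nonneg_left h1 hsm
  rw [Nat.cast_max]
  refine max_le ?_ ?_
  · refine Tail_sub_le (abs_nonneg _) (le_trans ?_ (le_abs_self _))
    push_cast
    linarith
  · refine Tail_sub_le (abs_nonneg _) (le_trans ?_ (neg_le_abs _))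
    push_cast
    linarith

theorem nmin_le (c : Cl) (x0 x1 y0 : ℕ) (x y : ℝ) (hx0 : (x0 : ℝ) / 128 ≤ -x)
    (hx1 : -x ≤ (x1 : ℝ) / 128) (hy0 : (y0 : ℝ) / 128 ≤ y) :
    Real.sqrt (nmin c x0 x1 y0 : ℝ) / 128 ≤ dd c x y := by
  have hX0 : (x0 : ℝ) ≤ -(128 * x) := by linarith
  have hX1 : -(128 * x) ≤ (x1 : ℝ) := by linarith
  have ha := Tail_amin c x0 x1 _ hX0 hX1
  have ha0 : (0 : ℝ) ≤ amin c x0 x1 := Nat.cast_nonneg _
  have ha2 : (amin c x0 x1 : ℝ) ^ 2 ≤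
      (128 * ((c.i : ℝ) + ((c.sp : ℝ) - (c.sm : ℝ)) * x)) ^ 2 := by
    have h1 := pow_le_pow_left₀ ha0 ha 2
    rw [sq_abs] at h1
    refine h1.trans (le_of_eq ?_)
    ring
  have hb2 : ((c.dl : ℝ) * y0) ^ 2 ≤ (128 * ((c.dl : ℝ) * y)) ^ 2 := by
    refine pow_le_pow_left₀ (by positivity) ?_ 2
    have hd : (0 : ℝ) ≤ c.dl := Nat.cast_nonneg _
    have := mul_le_mul_of_nonneg_left (by linarith : (y0 : ℝ) ≤ 128 * y) hd
    linarith
  rw [div_le_iff₀ (by norm_num)]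
  refine Real.sqrt_le_iff.2 ⟨by unfold dd; positivity, ?_⟩
  unfold dd
  rw [mul_pow, Real.sq_sqrt (by positivity)]
  unfold nmin
  push_cast
  nlinarith [ha2, hb2]

lemma Tail_dd_nonneg (c : Cl) (x y : ℝ) : 0 ≤ dd c x y := Real.sqrt_nonneg _

theorem tlOK_sound (c : Cl) (x0 x1 y0 : ℕ) (h : tlOK c x0 x1 y0 = true) (s x y : ℝ)
    (hs : 383 / 8 ≤ s) (hx0 : (x0 : ℝ) / 128 ≤ -x) (hx1 : -x ≤ (x1 : ℝ) / 128)
    (hy0 : (y0 : ℝ) / 128 ≤ y) :
    -(((c.mp : ℝ) + c.mm) * c.tl / 1024) ≤ wt c * J0 (s * dd c x y) := by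
  have hmp : (0 : ℝ) ≤ c.mp := Nat.cast_nonneg _
  have hmm : (0 : ℝ) ≤ c.mm := Nat.cast_nonneg _
  have hdd := Tail_dd_nonneg c x y
  have hs0 : 0 ≤ s := by linarith
  have hX0 : 0 ≤ s * dd c x y := mul_nonneg hs0 hdd
  have hlo := Pool.Agent.H79.DF.num_J0_ge hX0
  have hup := Pool.Agent.H79.DF.num_J0_le (s * dd c x y)
  -- the general bound
  have key : ∀ r : ℝ, |J0 (s * dd c x y)| ≤ r →
      -(((c.mp : ℝ) + c.mm) * r) ≤ wt c * J0 (s * dd c x y) := by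
    intro r hr
    have h1 := (abs_le.1 hr).1
    have h2 := (abs_le.1 hr).2
    unfold wt
    nlinarith [mul_le_mul_of_nonneg_left h1 hmp, mul_le_mul_of_nonneg_left h2 hmm]
  unfold tlOK at h
  rw [Bool.or_eq_true, Bool.or_eq_true, decide_eq_true_iff, decide_eq_true_iff,
    decide_eq_true_iff] at h
  rcases h with h | ⟨h1, h2⟩ | ⟨h1, h2⟩
  · have ht : (1024 : ℝ) ≤ c.tl := by exact_mod_cast h
    have h3 := key 1 (abs_le.2 ⟨by norm_num at hlo ⊢; linarith, hup⟩)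
    have h4 : 0 ≤ ((c.mp : ℝ) + c.mm) * ((c.tl : ℝ) - 1024) :=
      mul_nonneg (by positivity) (by linarith)
    have h5 : ((c.mp : ℝ) + c.mm) * c.tl / 1024 - ((c.mp : ℝ) + c.mm) * 1 =
      ((c.mp : ℝ) + c.mm) * ((c.tl : ℝ) - 1024) / 1024 := by ring
    have h6 : 0 ≤ ((c.mp : ℝ) + c.mm) * ((c.tl : ℝ) - 1024) / 1024 := by positivity
    linarith
  · have ht : (423 : ℝ) ≤ c.tl := by exact_mod_cast h2
    have hm0 : (c.mm : ℝ) = 0 := by exact_mod_cast h1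
    unfold wt
    rw [hm0, add_zero, sub_zero]
    have h3 : -0.413 * (c.mp : ℝ) ≤ J0 (s * dd c x y) * c.mp := mul_le_mul_of_nonneg_right hlo hmp
    have h4 : (c.mp : ℝ) * 423 ≤ c.mp * c.tl := mul_le_mul_of_nonneg_left ht hmp
    norm_num at h3
    linarith
  · have hn : (458 : ℝ) ≤ (nmin c x0 x1 y0 : ℝ) := by exact_mod_cast h1
    have hq : (4096 * 1152921504606846976 : ℝ) ≤
        1466890000 * ((c.tl : ℝ) ^ 4 * (nmin c x0 x1 y0 : ℝ)) := by exact_mod_cast h2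
    have hle := nmin_le c x0 x1 y0 x y hx0 hx1 hy0
    set R := Real.sqrt (nmin c x0 x1 y0 : ℝ) with hR
    have hR0 : 0 ≤ R := Real.sqrt_nonneg _
    have hR2 : R ^ 2 = (nmin c x0 x1 y0 : ℝ) := Real.sq_sqrt (by linarith)
    rw [← hR2] at hn hq
    have hXR : 383 / 8 * (R / 128) ≤ s * dd c x y :=
      mul_le_mul hs hle (by positivity) hs0
    have hR8 : 21.4 ≤ R := by
      by_contra hc
      push Not at hc
      have := mul_self_lt_mul_self hR0 hc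
      norm_num at this
      nlinarith
    have hX8 : 8 ≤ s * dd c x y := by
      refine le_trans ?_ hXR
      norm_num at hR8 ⊢
      linarith
    have ht0 : (0 : ℝ) ≤ (c.tl : ℝ) := Nat.cast_nonneg _
    have hc2 : 0.64 ≤ ((c.tl : ℝ) / 1024) ^ 2 * (s * dd c x y) := by
      have h3 : (0.64 : ℝ) * 1024 ^ 3 ≤ 383 * ((c.tl : ℝ) ^ 2 * R) := by
        refine abs_le_of_sq_le_sq' ?_ (by positivity) |>.2
        have h4 : (383 * ((c.tl : ℝ) ^ 2 * R)) ^ 2 = 146689 * ((c.tl : ℝ) ^ 4 * R ^ 2) := by ring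
        rw [h4]
        norm_num at hq ⊢
        linarith
      have h5 : ((c.tl : ℝ) / 1024) ^ 2 * (383 / 8 * (R / 128)) ≤
          ((c.tl : ℝ) / 1024) ^ 2 * (s * dd c x y) := mul_le_mul_of_nonneg_left hXR (by positivity)
      refine le_trans ?_ h5
      have h6 : ((c.tl : ℝ) / 1024) ^ 2 * (383 / 8 * (R / 128)) =
        383 * ((c.tl : ℝ) ^ 2 * R) / 1024 ^ 3 := by ring
      rw [h6, le_div_iff₀ (by norm_num)]
      exact h3
    have h7 := key _ (Pool.Agent.H79.DF.num_tail hX8 (by positivity) hc2)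
    refine le_trans (le_of_eq ?_) h7
    ring

lemma Tail_sum (cs : List Cl) (g : Cl → ℝ) (t : ℝ)
    (hg : ∀ c ∈ cs, -(((c.mp : ℝ) + c.mm) * c.tl / 1024) ≤ g c)
    (ht : ((sc (fun c => (c.mp + c.mm) * c.tl) cs : ℕ) : ℝ) ≤ t) :
    -(t / 1024) ≤ (cs.map g).sum := by
  have : -((sc (fun c => (c.mp + c.mm) * c.tl) cs : ℕ) : ℝ) / 1024 ≤ (cs.map g).sum := by
    clear ht
    induction cs with
    | nil => simp [sc]
    | cons c cs ih =>
      have h1 := hg c (List.mem_cons_self ..)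
      have h2 := ih fun d hd => hg d (List.mem_cons_of_mem _ hd)
      have h3 : sc (fun c => (c.mp + c.mm) * c.tl) (c :: cs) =
        (c.mp + c.mm) * c.tl + sc (fun c => (c.mp + c.mm) * c.tl) cs := by
        simp [sc]
      rw [h3, List.map_cons, List.sum_cons]
      push_cast
      linarith
  linarith

theorem tailOK_sound (cs : List Cl) (x0 nx y0 κ : ℕ) (h : tailOK cs x0 nx y0 κ = true) (s x y : ℝ)
    (hs : 383 / 8 ≤ s) (hx0 : (x0 : ℝ) / 128 ≤ -x) (hx1 : -x ≤ ((x0 + nx : ℕ) : ℝ) / 128)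
    (hy0 : (y0 : ℝ) / 128 ≤ y) : -(κ : ℝ) ≤ FF cs s x y := by
  unfold tailOK at h
  rw [Bool.and_eq_true, decide_eq_true_iff, List.all_eq_true] at h
  obtain ⟨h1, h2⟩ := h
  have h3 := Tail_sum cs (fun c => wt c * J0 (s * dd c x y)) (1024 * κ)
    (fun c hc => tlOK_sound c x0 (x0 + nx) y0 (h2 c hc) s x y hs hx0 hx1 hy0)
    (by exact_mod_cast h1)
  unfold FF
  have h4 : (1024 * (κ : ℝ)) / 1024 = κ := by ring
  rw [h4] at h3
  exact h3

end Pool.Agent.H79.OC
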