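import Pool.Agent.H79.OC.Agg
import Pool.Agent.H79.OC.Boch
import Pool.Agent.H79.OC.Tail
import Pool.Agent.H79.OC.GridS

set_option autoImplicit false

/-!
# Density below 1/2 from a certificate
-/

namespace Pool.Agent.H79.OC

open Pool.Agent.H58.ER
open Pool.Agent.H93.EG (PD stat_sum)
open Pool.Agent.H79.DF (J0 Kern kern_exists)

/-- There is a certificate at `w = x + i y`. -/
def GoodXY (x y : ℝ) : Prop :=
  ∃ (ct : Cert) (cs : List Cl) (κ : ℕ), validC ct = true ∧ linkOK ct cs = true ∧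
    constOK ct κ = true ∧ ∀ s : ℝ, 0 ≤ s → -(κ : ℝ) ≤ FF cs s x y

theorem J0_zero' : J0 0 = 1 := Pool.Agent.H79.DF.J0_zero

theorem dens_lt (f : ℂ → Bool) (E : ((ℂ → Bool) → ℝ) → ℝ) (hE : IsStat f E) (ρ : ℝ) (K : ℝ → ℝ)
    (hk : Kern E ρ K) (hPD : PD (fun z : ℂ => K ‖z‖)) (hK0 : K 0 = ρ * (1 - ρ)) (b x y : ℝ)
    (hb : 0 < b)
    (hfree : ∀ z1 z2 z3 : ℂ, ‖z2 - z1‖ = b → ‖z3 - z1‖ = b * Real.sqrt (x ^ 2 + y ^ 2) →
      ‖z3 - z2‖ = b * Real.sqrt ((1 - x) ^ 2 + y ^ 2) →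
      ¬(f z1 = true ∧ f z2 = true ∧ f z3 = true)) (hg : GoodXY x y) : ρ < 1 / 2 := by
  obtain ⟨ct, cs, κ, h1, h2, h3, h4⟩ := hg
  have hc := cert_E f E hE ρ K hk b x y hb hfree ct h1
  rw [link_sum ct cs h2 x y (fun r => K (b * r))] at hc
  have hbo := bochner_low K hPD cs wt (fun c => b * dd c x y)
    (fun c _ => mul_nonneg hb.le (Real.sqrt_nonneg _)) κ (by
      intro s hs
      refine (h4 (s * b) (mul_nonneg hs hb.le)).trans_eq ?_
      unfold FF
      congr 1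
      refine List.map_congr_left fun c _ => ?_
      rw [mul_assoc])
  -- total weight
  have hM : ((betot ct : ℤ) : ℝ) = (cs.map fun c => wt c * (1 : ℝ)).sum := by
    rw [← link_sum ct cs h2 x y (fun _ => 1)]
    unfold betot
    rw [Int.cast_list_sum, List.map_map]
    congr 1
    refine List.map_congr_left fun e _ => ?_
    simp
  have hM0 : -(κ : ℝ) ≤ (betot ct : ℝ) := by
    rw [hM]
    refine (h4 0 le_rfl).trans_eq ?_
    unfold FF
    congr 1
    refine List.map_congr_left fun c _ => ?_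
    rw [zero_mul, J0_zero']
  unfold constOK at h3
  rw [Bool.and_eq_true, decide_eq_true_eq, decide_eq_true_eq] at h3
  obtain ⟨c1, c2⟩ := h3
  have c1' : (κ : ℝ) + 1 ≤ betot ct + 2 * altot ct - 4 * ct.g := by exact_mod_cast c1
  have c2' : (0 : ℝ) ≤ (betot ct : ℝ) + altot ct := by exact_mod_cast c2
  rw [hK0] at hbo
  by_contra hρ
  rw [not_lt] at hρ
  set t : ℝ := ρ - 1 / 2 with ht
  have ht0 : 0 ≤ t := by linarith
  have e1 : ρ = 1 / 2 + t := by rw [ht]; ring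
  have h5 : (altot ct : ℝ) * ρ + (betot ct : ℝ) * ρ ^ 2 + -(κ : ℝ) * (ρ * (1 - ρ)) ≤ ct.g := by
    linarith
  rw [e1] at h5
  have h6 : 0 ≤ ((betot ct : ℝ) + altot ct) * t := mul_nonneg c2' ht0
  have h7 : 0 ≤ ((betot ct : ℝ) + κ) * t ^ 2 := mul_nonneg (by linarith) (sq_nonneg _)
  nlinarith

theorem FF_append (a b : List Cl) (s x y : ℝ) : FF (a ++ b) s x y = FF a s x y + FF b s x y := by
  unfold FF
  rw [List.map_append, List.sum_append]

/-- A box. -/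
theorem box_good (tr vr : Tr) (ht : TabOK tr) (hv : VecOK tr vr) (ct : Cert) (cs : List Cl)
    (x0 nx y0 ny cp cn c2 κ : ℕ) (h1 : validC ct = true) (h2 : linkOK ct cs = true)
    (h3 : constOK ct κ = true) (h4 : tailOK cs x0 nx y0 κ = true)
    (h5 : gridOK vr cs x0 nx y0 ny cp cn c2 κ = true) (x y : ℝ) (hx0 : (x0 : ℝ) / 128 ≤ -x)
    (hx1 : -x ≤ (x0 + nx : ℕ) / 128) (hy0 : (y0 : ℝ) / 128 ≤ y) (hy1 : y ≤ (y0 + ny : ℕ) / 128) :
    GoodXY x y := by
  refine ⟨ct, cs, κ, h1, h2, h3, fun s hs => ?_⟩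
  rcases le_total s (383 / 8) with h | h
  · exact gridOK_sound tr vr ht hv cs x0 nx y0 ny cp cn c2 κ h5 s x y hs h hx0 hx1 hy0 hy1
  · exact tailOK_sound cs x0 nx y0 κ h4 s x y h hx0 hx1 hy0

/-- A thin box. -/
theorem thin_good (tr vr : Tr) (ht : TabOK tr) (hv : VecOK tr vr) (ct : Cert) (sm bg : List Cl)
    (x0 nx y0 ny cp cn c2 κ t0 nt cp' cn' c2' κ' κ'' : ℕ) (h1 : validC ct = true)
    (h2 : linkOK ct (sm ++ bg) = true) (h3 : constOK ct κ = true)
    (h0 : (sm.all fun c => decide (c.i = 0)) = true) (hκ : κ' + κ'' = κ)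
    (hb : tailOK bg x0 nx y0 κ'' = true) (h4 : tailOK sm t0 nt 128 κ' = true)
    (h5 : gridOK vr (sm ++ bg) x0 nx y0 ny cp cn c2 κ = true)
    (h6 : gridOK vr sm t0 nt 128 0 cp' cn' c2' κ' = true) (x y : ℝ) (hx0 : (x0 : ℝ) / 128 ≤ -x)
    (hx1 : -x ≤ (x0 + nx : ℕ) / 128) (hy0 : (y0 : ℝ) / 128 ≤ y) (hy1 : y ≤ (y0 + ny : ℕ) / 128)
    (hy : 0 < y) (ht0 : (t0 : ℝ) / 128 * y ≤ -x) (ht1 : -x ≤ (t0 + nt : ℕ) / 128 * y) :
    GoodXY x y := by
  refine ⟨ct, sm ++ bg, κ, h1, h2, h3, fun s hs => ?_⟩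
  rcases le_total s (383 / 8) with h | h
  · exact gridOK_sound tr vr ht hv _ x0 nx y0 ny cp cn c2 κ h5 s x y hs h hx0 hx1 hy0 hy1
  · rw [FF_append]
    have e1 := tailOK_sound bg x0 nx y0 κ'' hb s x y h hx0 hx1 hy0
    have hsy : 0 ≤ s * y := mul_nonneg hs hy.le
    have hxy : -(x / y) = -x / y := by ring
    have r0 : (t0 : ℝ) / 128 ≤ -(x / y) := by
      rw [hxy, le_div_iff₀ hy]
      exact ht0
    have r1 : -(x / y) ≤ (t0 + nt : ℕ) / 128 := by
      rw [hxy, div_le_iff₀ hy]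
      exact ht1
    have e2 : FF sm s x y = FF sm (s * y) (x / y) 1 := by
      unfold FF
      congr 1
      refine List.map_congr_left fun c hc => ?_
      rw [List.all_eq_true] at h0
      have hi : c.i = 0 := by simpa using h0 c hc
      have : s * dd c x y = s * y * dd c (x / y) 1 := by
        rw [mul_assoc]
        congr 1
        unfold dd
        rw [hi]
        have e3 : ((((0 : ℕ) : ℝ) + ((c.sp : ℝ) - c.sm) * x) ^ 2 + ((c.dl : ℝ) * y) ^ 2) =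
            y ^ 2 * ((((0 : ℕ) : ℝ) + ((c.sp : ℝ) - c.sm) * (x / y)) ^ 2 + ((c.dl : ℝ) * 1) ^ 2) := by
          field_simp
          push_cast
          ring
        rw [e3, Real.sqrt_mul (sq_nonneg _), Real.sqrt_sq hy.le]
      rw [this]
    have e3 : -(κ' : ℝ) ≤ FF sm s x y := by
      rw [e2]
      rcases le_total (s * y) (383 / 8) with h' | h'
      · exact gridOK_sound tr vr ht hv sm t0 nt 128 0 cp' cn' c2' κ' h6 _ _ _ hsy h' r0 r1
          (by norm_num) (by norm_num)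
      · exact tailOK_sound sm t0 nt 128 κ' h4 _ _ _ h' r0 r1 (by norm_num)
    have e4 : (κ' : ℝ) + κ'' = κ := by exact_mod_cast hκ
    linarith

end Pool.Agent.H79.OC
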