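import Pool.Agent.H79.OC.Valid

set_option autoImplicit false

/-!
# The inequality for stationary means

As `star_E` in DF/Star.lean. Points `z n = b (i + j w + t w̄)`, `w = x + i y`, `p = ct.pt n = (i, j, t)`. `0 ≤ E (form)` by
`hE.nonneg`, since for every `θ`, `w'` the values `f (θ z n + w')` satisfy the hypothesis of `form_nonneg` (from `isTri`: the
distances of the three points are `b`, `b |w|`, `b |1 - w|`, also for `w̄`). Then linearity (`E_list`), `Kern.one`, `Kern.two` with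
`‖z m - z n‖ = b * pd ct x y m n`, and the terms of `ta` vanish: by `isCong` the second triple is the image of the first one under
`z ↦ ± z + c`, and `hE.inv` with `θ = ± 1` (products of three values are bounded).
-/

namespace Pool.Agent.H79.OC

open Pool.Agent.H58.ER
open Pool.Agent.H93.EG (PD stat_sum)
open Pool.Agent.H79.DF (bt Kern)

/-- Distance of two points of the configuration, `w = x + i y`. -/
noncomputable def pd (ct : Cert) (x y : ℝ) (m n : ℕ) : ℝ :=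
  Real.sqrt ((((sub3 (ct.pt m) (ct.pt n)).1 : ℝ) +
      (((sub3 (ct.pt m) (ct.pt n)).2.1 : ℝ) + ((sub3 (ct.pt m) (ct.pt n)).2.2 : ℝ)) * x) ^ 2 +
    ((((sub3 (ct.pt m) (ct.pt n)).2.1 : ℝ) - ((sub3 (ct.pt m) (ct.pt n)).2.2 : ℝ)) * y) ^ 2)

/-- The point `b (i + j w + t w̄)`. -/
noncomputable def Estep_z (b x y : ℝ) (p : ℤ × ℤ × ℤ) : ℂ :=
  ⟨b * ((p.1 : ℝ) + ((p.2.1 : ℝ) + (p.2.2 : ℝ)) * x), b * (((p.2.1 : ℝ) - (p.2.2 : ℝ)) * y)⟩

theorem Estep_sub (b x y : ℝ) (p q : ℤ × ℤ × ℤ) :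
    Estep_z b x y p - Estep_z b x y q = Estep_z b x y (sub3 p q) := by
  apply Complex.ext
  · simp only [Estep_z, sub3, Complex.sub_re]
    push_cast
    ring
  · simp only [Estep_z, sub3, Complex.sub_im]
    push_cast
    ring

theorem Estep_neg (b x y : ℝ) (p : ℤ × ℤ × ℤ) : Estep_z b x y (neg3 p) = -Estep_z b x y p := by
  apply Complex.ext
  · simp only [Estep_z, neg3, Complex.neg_re]
    push_cast
    ring
  · simp only [Estep_z, neg3, Complex.neg_im]
    push_cast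
    ring

theorem Estep_norm {b : ℝ} (hb : 0 < b) (x y : ℝ) (p : ℤ × ℤ × ℤ) :
    ‖Estep_z b x y p‖ = b * Real.sqrt (((p.1 : ℝ) + ((p.2.1 : ℝ) + (p.2.2 : ℝ)) * x) ^ 2 +
      (((p.2.1 : ℝ) - (p.2.2 : ℝ)) * y) ^ 2) := by
  rw [Complex.norm_def, Complex.normSq_apply]
  simp only [Estep_z]
  rw [← Real.sqrt_sq hb.le, ← Real.sqrt_mul (sq_nonneg b)]
  congr 1
  rw [Real.sqrt_sq hb.le]
  ring

theorem Estep_pd {b : ℝ} (hb : 0 < b) (ct : Cert) (x y : ℝ) (m n : ℕ) :
    ‖Estep_z b x y (ct.pt m) - Estep_z b x y (ct.pt n)‖ = b * pd ct x y m n := by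
  rw [Estep_sub, Estep_norm hb]
  rfl

theorem Estep_sub3 (p q r : ℤ × ℤ × ℤ) : sub3 p q = sub3 (sub3 p r) (sub3 q r) := by
  unfold sub3
  ext <;> simp

/-- The distances of the points of a triangle. -/
theorem Estep_tri {b : ℝ} (hb : 0 < b) (ct : Cert) (x y : ℝ) (t : ℕ × ℕ × ℕ)
    (h : isTri ct t = true) :
    ‖Estep_z b x y (ct.pt t.2.1) - Estep_z b x y (ct.pt t.1)‖ = b ∧
    ‖Estep_z b x y (ct.pt t.2.2) - Estep_z b x y (ct.pt t.1)‖ = b * Real.sqrt (x ^ 2 + y ^ 2) ∧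
    ‖Estep_z b x y (ct.pt t.2.2) - Estep_z b x y (ct.pt t.2.1)‖ =
      b * Real.sqrt ((1 - x) ^ 2 + y ^ 2) := by
  rw [Estep_sub, Estep_sub, Estep_sub,
    Estep_sub3 (ct.pt t.2.2) (ct.pt t.2.1) (ct.pt t.1)]
  unfold isTri at h
  simp only [Bool.or_eq_true, Bool.and_eq_true, decide_eq_true_eq] at h
  have key : ∀ (p q : ℤ × ℤ × ℤ), ((p = (1, 0, 0) ∧ (q = (0, 1, 0) ∨ q = (0, 0, 1))) ∨
      (p = (-1, 0, 0) ∧ (q = (0, -1, 0) ∨ q = (0, 0, -1)))) →
      ‖Estep_z b x y p‖ = b ∧ ‖Estep_z b x y q‖ = b * Real.sqrt (x ^ 2 + y ^ 2) ∧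
      ‖Estep_z b x y (sub3 q p)‖ = b * Real.sqrt ((1 - x) ^ 2 + y ^ 2) := by
    rintro p q (⟨rfl, rfl | rfl⟩ | ⟨rfl, rfl | rfl⟩)
    all_goals
      rw [Estep_norm hb, Estep_norm hb, Estep_norm hb]
      simp only [sub3]
      refine ⟨?_, ?_, ?_⟩
      · norm_num
      · congr 2
        push_cast
        ring
      · congr 2
        push_cast
        ring
  exact key _ _ h

theorem Estep_bdd3 (z w v : ℂ) :
    Bdd (fun F : ℂ → Bool => bt (F z) * bt (F w) * bt (F v)) := by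
  have h : ∀ a b c : Bool, |bt a * bt b * bt c| ≤ 1 := by
    intro a b c
    cases a <;> cases b <;> cases c <;> norm_num [bt]
  exact ⟨1, fun F => h _ _ _⟩

/-- Congruent triples have the same mean. -/
theorem Estep_cong (f : ℂ → Bool) (E : ((ℂ → Bool) → ℝ) → ℝ) (hE : IsStat f E) (b x y : ℝ)
    (ct : Cert) (t u : ℕ × ℕ × ℕ) (h : isCong ct t u = true) :
    E (fun F => bt (F (Estep_z b x y (ct.pt t.1))) * bt (F (Estep_z b x y (ct.pt t.2.1))) *
      bt (F (Estep_z b x y (ct.pt t.2.2)))) =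
    E (fun F => bt (F (Estep_z b x y (ct.pt u.1))) * bt (F (Estep_z b x y (ct.pt u.2.1))) *
      bt (F (Estep_z b x y (ct.pt u.2.2)))) := by
  unfold isCong at h
  simp only [Bool.or_eq_true, Bool.and_eq_true, decide_eq_true_eq] at h
  have s := Estep_sub b x y
  rcases h with ⟨h1, h2⟩ | ⟨h1, h2⟩
  · have e1 := s (ct.pt t.2.1) (ct.pt t.1)
    have e2 := s (ct.pt t.2.2) (ct.pt t.1)
    rw [h1, ← s] at e1
    rw [h2, ← s] at e2
    have := hE.inv 1 (Estep_z b x y (ct.pt t.1) - Estep_z b x y (ct.pt u.1)) norm_one _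
      (Estep_bdd3 (Estep_z b x y (ct.pt u.1)) (Estep_z b x y (ct.pt u.2.1))
        (Estep_z b x y (ct.pt u.2.2)))
    rw [← this]
    congr 1
    funext F
    have a1 : 1 * Estep_z b x y (ct.pt u.1) + (Estep_z b x y (ct.pt t.1) -
        Estep_z b x y (ct.pt u.1)) = Estep_z b x y (ct.pt t.1) := by ring
    have a2 : 1 * Estep_z b x y (ct.pt u.2.1) + (Estep_z b x y (ct.pt t.1) -
        Estep_z b x y (ct.pt u.1)) = Estep_z b x y (ct.pt t.2.1) := by
      linear_combination -e1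
    have a3 : 1 * Estep_z b x y (ct.pt u.2.2) + (Estep_z b x y (ct.pt t.1) -
        Estep_z b x y (ct.pt u.1)) = Estep_z b x y (ct.pt t.2.2) := by
      linear_combination -e2
    beta_reduce
    rw [a1, a2, a3]
  · have e1 := s (ct.pt t.2.1) (ct.pt t.1)
    have e2 := s (ct.pt t.2.2) (ct.pt t.1)
    rw [h1, Estep_neg, ← s] at e1
    rw [h2, Estep_neg, ← s] at e2
    have := hE.inv (-1) (Estep_z b x y (ct.pt t.1) + Estep_z b x y (ct.pt u.1))
      (by rw [norm_neg, norm_one]) _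
      (Estep_bdd3 (Estep_z b x y (ct.pt u.1)) (Estep_z b x y (ct.pt u.2.1))
        (Estep_z b x y (ct.pt u.2.2)))
    rw [← this]
    congr 1
    funext F
    have a1 : -1 * Estep_z b x y (ct.pt u.1) + (Estep_z b x y (ct.pt t.1) +
        Estep_z b x y (ct.pt u.1)) = Estep_z b x y (ct.pt t.1) := by ring
    have a2 : -1 * Estep_z b x y (ct.pt u.2.1) + (Estep_z b x y (ct.pt t.1) +
        Estep_z b x y (ct.pt u.1)) = Estep_z b x y (ct.pt t.2.1) := by
      linear_combination -e1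
    have a3 : -1 * Estep_z b x y (ct.pt u.2.2) + (Estep_z b x y (ct.pt t.1) +
        Estep_z b x y (ct.pt u.1)) = Estep_z b x y (ct.pt t.2.2) := by
      linear_combination -e2
    beta_reduce
    rw [a1, a2, a3]

theorem Estep_list {α : Type} (l : List α) (c g : α → ℝ) :
    (l.map fun p => -(c p) * g p).sum = -(l.map fun p => c p * g p).sum := by
  induction l with
  | nil => simp
  | cons a l ih =>
    simp only [List.map_cons, List.sum_cons, ih]
    ring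

theorem Estep_cast {α : Type} (l : List α) (c : α → ℤ) (r : ℝ) :
    (l.map fun p => (c p : ℝ) * r).sum = (((l.map c).sum : ℤ) : ℝ) * r := by
  induction l with
  | nil => simp
  | cons a l ih =>
    simp only [List.map_cons, List.sum_cons, ih]
    push_cast
    ring

theorem Estep_add {α : Type} (l : List α) (c g h : α → ℝ) :
    (l.map fun p => c p * (g p + h p)).sum =
      (l.map fun p => c p * g p).sum + (l.map fun p => c p * h p).sum := by
  induction l with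
  | nil => simp
  | cons a l ih =>
    simp only [List.map_cons, List.sum_cons, ih]
    ring

theorem cert_E (f : ℂ → Bool) (E : ((ℂ → Bool) → ℝ) → ℝ) (hE : IsStat f E) (ρ : ℝ) (K : ℝ → ℝ)
    (hk : Kern E ρ K) (b x y : ℝ) (hb : 0 < b)
    (hfree : ∀ z1 z2 z3 : ℂ, ‖z2 - z1‖ = b → ‖z3 - z1‖ = b * Real.sqrt (x ^ 2 + y ^ 2) →
      ‖z3 - z2‖ = b * Real.sqrt ((1 - x) ^ 2 + y ^ 2) →
      ¬(f z1 = true ∧ f z2 = true ∧ f z3 = true))
    (ct : Cert) (hv : validC ct = true) :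
    (altot ct : ℝ) * ρ + (betot ct : ℝ) * ρ ^ 2 +
      (ct.be.map fun e => (e.2.2 : ℝ) * K (b * pd ct x y e.1 e.2.1)).sum ≤ ct.g := by
  set z : ℕ → ℂ := fun n => Estep_z b x y (ct.pt n) with hz
  have hv' := hv
  unfold validC at hv'
  rw [Bool.and_eq_true, Bool.and_eq_true, List.all_eq_true, List.all_eq_true] at hv'
  obtain ⟨hTri, hCong, -⟩ := hv'
  have ha := Pool.Agent.H79.DF.E_list f E hE ct.al (fun e => -(e.2 : ℝ))
    (fun e F => bt (F (z e.1))) (fun e => Pool.Agent.H79.DF.bdd1 _)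
  have hbe := Pool.Agent.H79.DF.E_list f E hE ct.be (fun e => -(e.2.2 : ℝ))
    (fun e F => bt (F (z e.1)) * bt (F (z e.2.1))) (fun e => Pool.Agent.H79.DF.bdd2 _ _)
  have hb3 : ∀ e : (ℕ × ℕ × ℕ) × (ℕ × ℕ × ℕ) × ℤ, Bdd (fun F : ℂ → Bool =>
      bt (F (z e.1.1)) * bt (F (z e.1.2.1)) * bt (F (z e.1.2.2)) +
      (-1) * (bt (F (z e.2.1.1)) * bt (F (z e.2.1.2.1)) * bt (F (z e.2.1.2.2)))) := fun e =>
    (Estep_bdd3 _ _ _).add ((Estep_bdd3 _ _ _).smul _)
  have hta := Pool.Agent.H79.DF.E_list f E hE ct.ta (fun e => -(e.2.2 : ℝ))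
    (fun e F => bt (F (z e.1.1)) * bt (F (z e.1.2.1)) * bt (F (z e.1.2.2)) +
      (-1) * (bt (F (z e.2.1.1)) * bt (F (z e.2.1.2.1)) * bt (F (z e.2.1.2.2)))) hb3
  have hpos : 0 ≤ E (fun F => (ct.g : ℝ) * 1 +
      ((ct.al.map fun e => -(e.2 : ℝ) * bt (F (z e.1))).sum +
      ((ct.be.map fun e => -(e.2.2 : ℝ) * (bt (F (z e.1)) * bt (F (z e.2.1)))).sum +
      (ct.ta.map fun e => -(e.2.2 : ℝ) *
        (bt (F (z e.1.1)) * bt (F (z e.1.2.1)) * bt (F (z e.1.2.2)) +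
      (-1) * (bt (F (z e.2.1.1)) * bt (F (z e.2.1.2.1)) * bt (F (z e.2.1.2.2))))).sum))) := by
    refine hE.nonneg _ (((bdd_const 1).smul _).add (ha.2.add (hbe.2.add hta.2))) fun θ w hθ => ?_
    have h1 := form_nonneg ct hv (fun n => f (θ * z n + w)) ?_
    · refine h1.trans_eq ?_
      unfold form
      rw [Estep_list ct.al (fun e => (e.2 : ℝ)) (fun e => bt (f (θ * z e.1 + w))),
        Estep_list ct.be (fun e => (e.2.2 : ℝ)) (fun e => bt (f (θ * z e.1 + w)) *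
          bt (f (θ * z e.2.1 + w))),
        Estep_list ct.ta (fun e => (e.2.2 : ℝ)) (fun e => bt (f (θ * z e.1.1 + w)) *
          bt (f (θ * z e.1.2.1 + w)) * bt (f (θ * z e.1.2.2 + w)) +
          (-1) * (bt (f (θ * z e.2.1.1 + w)) * bt (f (θ * z e.2.1.2.1 + w)) *
            bt (f (θ * z e.2.1.2.2 + w))))]
      have e3 : (ct.ta.map fun e => (e.2.2 : ℝ) * (bt (f (θ * z e.1.1 + w)) *
          bt (f (θ * z e.1.2.1 + w)) * bt (f (θ * z e.1.2.2 + w)) -
          (bt (f (θ * z e.2.1.1 + w)) * bt (f (θ * z e.2.1.2.1 + w)) *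
            bt (f (θ * z e.2.1.2.2 + w))))) =
          (ct.ta.map fun e => (e.2.2 : ℝ) * (bt (f (θ * z e.1.1 + w)) *
          bt (f (θ * z e.1.2.1 + w)) * bt (f (θ * z e.1.2.2 + w)) +
          (-1) * (bt (f (θ * z e.2.1.1 + w)) * bt (f (θ * z e.2.1.2.1 + w)) *
            bt (f (θ * z e.2.1.2.2 + w))))) := by
        refine List.map_congr_left fun e _ => ?_
        ring
      rw [e3]
      ring
    · intro t ht
      obtain ⟨n1, n2, n3⟩ := Estep_tri hb ct x y t (hTri t ht)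
      have hd : ∀ m n, ‖(θ * z m + w) - (θ * z n + w)‖ = ‖z m - z n‖ := by
        intro m n
        rw [add_sub_add_right_eq_sub, ← mul_sub, norm_mul, hθ, one_mul]
      refine hfree _ _ _ ?_ ?_ ?_
      · rw [hd]; exact n1
      · rw [hd]; exact n2
      · rw [hd]; exact n3
  rw [hE.add _ _ ((bdd_const 1).smul _) (ha.2.add (hbe.2.add hta.2)),
    hE.add _ _ ha.2 (hbe.2.add hta.2), hE.add _ _ hbe.2 hta.2, hE.smul _ _ (bdd_const 1), hE.one,
    ha.1, hbe.1, hta.1] at hpos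
  have h0 : (ct.ta.map fun e => -(e.2.2 : ℝ) * E (fun F =>
      bt (F (z e.1.1)) * bt (F (z e.1.2.1)) * bt (F (z e.1.2.2)) +
      (-1) * (bt (F (z e.2.1.1)) * bt (F (z e.2.1.2.1)) * bt (F (z e.2.1.2.2))))).sum = 0 := by
    have : (ct.ta.map fun e => -(e.2.2 : ℝ) * E (fun F =>
      bt (F (z e.1.1)) * bt (F (z e.1.2.1)) * bt (F (z e.1.2.2)) +
      (-1) * (bt (F (z e.2.1.1)) * bt (F (z e.2.1.2.1)) * bt (F (z e.2.1.2.2))))) =
      ct.ta.map fun _ => (0 : ℝ) := by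
      refine List.map_congr_left fun e he => ?_
      rw [hE.add _ _ (Estep_bdd3 _ _ _) ((Estep_bdd3 _ _ _).smul _),
        hE.smul _ _ (Estep_bdd3 _ _ _), Estep_cong f E hE b x y ct e.1 e.2.1 (hCong e he)]
      ring
    rw [this]
    simp
  rw [h0] at hpos
  simp only [hk.one, hk.two] at hpos
  have hpd : ∀ m n, ‖z m - z n‖ = b * pd ct x y m n := fun m n => Estep_pd hb ct x y m n
  simp only [hpd] at hpos
  rw [Estep_list ct.al (fun e => (e.2 : ℝ)) (fun _ => ρ),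
    Estep_list ct.be (fun e => (e.2.2 : ℝ)) (fun e => ρ ^ 2 + K (b * pd ct x y e.1 e.2.1)),
    Estep_cast ct.al (fun e => e.2) ρ,
    Estep_add ct.be (fun e => (e.2.2 : ℝ)) (fun _ => ρ ^ 2)
      (fun e => K (b * pd ct x y e.1 e.2.1)), Estep_cast ct.be (fun e => e.2.2) (ρ ^ 2)] at hpos
  unfold altot betot
  linarith

end Pool.Agent.H79.OC
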