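import Pool.Agent.H79.OC.Cover
import Pool.Agent.H50.Tri.Right
import Pool.Agent.H50.Tri.Thirty

set_option autoImplicit false

/-!
# Geometry and the main theorem
-/

namespace Pool.Agent.H79.OC

open EuclideanGeometry ComplexConjugate Real Pool.Agent.H50.Tri
open Pool.Agent.H58.ER
open Pool.Agent.H93.EG (PD)
open Pool.Agent.H79.DF (bt bt_not bdd1 Kern kern_exists stat_compl kern_compl)

/-- Two congruent triples of complex numbers are related by an isometry. -/
theorem sss (P Q R Z₁ Z₂ Z₃ : ℂ) (hPQ : P ≠ Q) (h1 : ‖Z₁ - Z₂‖ = ‖P - Q‖)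
    (h2 : ‖Z₂ - Z₃‖ = ‖Q - R‖) (h3 : ‖Z₁ - Z₃‖ = ‖P - R‖) :
    ∃ φ : ℂ → ℂ, Isometry φ ∧ φ P = Z₁ ∧ φ Q = Z₂ ∧ φ R = Z₃ := by
  have hd : P - Q ≠ 0 := sub_ne_zero.2 hPQ
  have hdn : ‖P - Q‖ ≠ 0 := norm_ne_zero_iff.2 hd
  have hz : Z₁ - Z₂ ≠ 0 := by
    rw [← norm_ne_zero_iff, h1]
    exact hdn
  set s : ℂ := (R - Q) / (P - Q) with hs
  set t : ℂ := (Z₃ - Z₂) / (Z₁ - Z₂) with ht
  have hst : ‖s‖ = ‖t‖ := by
    rw [hs, ht, norm_div, norm_div, h1, norm_sub_rev R Q, norm_sub_rev Z₃ Z₂, h2]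
  have hst1 : ‖s - 1‖ = ‖t - 1‖ := by
    have e1 : s - 1 = (R - P) / (P - Q) := by
      rw [hs]
      field_simp
      ring
    have e2 : t - 1 = (Z₃ - Z₁) / (Z₁ - Z₂) := by
      rw [ht]
      field_simp
      ring
    rw [e1, e2, norm_div, norm_div, h1, norm_sub_rev R P, norm_sub_rev Z₃ Z₁, h3]
  have hsq : s.re * s.re + s.im * s.im = t.re * t.re + t.im * t.im := by
    have : ‖s‖ ^ 2 = ‖t‖ ^ 2 := by rw [hst]
    rwa [← Complex.normSq_eq_norm_sq, ← Complex.normSq_eq_norm_sq, Complex.normSq_apply,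
      Complex.normSq_apply] at this
  have hsq1 : (s.re - 1) * (s.re - 1) + s.im * s.im = (t.re - 1) * (t.re - 1) + t.im * t.im := by
    have : ‖s - 1‖ ^ 2 = ‖t - 1‖ ^ 2 := by rw [hst1]
    rw [← Complex.normSq_eq_norm_sq, ← Complex.normSq_eq_norm_sq, Complex.normSq_apply,
      Complex.normSq_apply] at this
    simpa using this
  have hre : s.re = t.re := by linarith
  have him : (s.im - t.im) * (s.im + t.im) = 0 := by
    rw [hre] at hsq
    linarith
  have hRs : R - Q = s * (P - Q) := by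
    rw [hs, div_mul_cancel₀ _ hd]
  have hZt : Z₃ - Z₂ = t * (Z₁ - Z₂) := by
    rw [ht, div_mul_cancel₀ _ hz]
  rcases mul_eq_zero.1 him with him | him
  · have hts : t = s := Complex.ext hre.symm (by linarith)
    refine ⟨fun z => Z₂ + (z - Q) * ((Z₁ - Z₂) / (P - Q)), ?_, ?_, ?_, ?_⟩
    · refine Isometry.of_dist_eq fun x y => ?_
      rw [dist_eq_norm, dist_eq_norm]
      have : Z₂ + (x - Q) * ((Z₁ - Z₂) / (P - Q)) - (Z₂ + (y - Q) * ((Z₁ - Z₂) / (P - Q))) =
          (x - y) * ((Z₁ - Z₂) / (P - Q)) := by ring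
      rw [this, norm_mul, norm_div, h1, div_self hdn, mul_one]
    · show Z₂ + (P - Q) * ((Z₁ - Z₂) / (P - Q)) = Z₁
      rw [mul_div_cancel₀ _ hd]
      ring
    · show Z₂ + (Q - Q) * ((Z₁ - Z₂) / (P - Q)) = Z₂
      ring
    · show Z₂ + (R - Q) * ((Z₁ - Z₂) / (P - Q)) = Z₃
      rw [hRs, mul_assoc, mul_div_cancel₀ _ hd, ← hts, ← hZt]
      ring
  · have hts : t = conj s := Complex.ext (by simp [hre]) (by simp; linarith)
    refine ⟨fun z => Z₂ + conj ((z - Q) / (P - Q)) * (Z₁ - Z₂), ?_, ?_, ?_, ?_⟩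
    · refine Isometry.of_dist_eq fun x y => ?_
      rw [dist_eq_norm, dist_eq_norm]
      have : Z₂ + conj ((x - Q) / (P - Q)) * (Z₁ - Z₂) -
          (Z₂ + conj ((y - Q) / (P - Q)) * (Z₁ - Z₂)) =
          conj ((x - y) / (P - Q)) * (Z₁ - Z₂) := by
        have e1 : (x - y) / (P - Q) = (x - Q) / (P - Q) - (y - Q) / (P - Q) := by ring
        rw [e1, map_sub]
        ring
      rw [this, norm_mul, RCLike.norm_conj, norm_div, h1, div_mul_cancel₀ _ hdn]
    · show Z₂ + conj ((P - Q) / (P - Q)) * (Z₁ - Z₂) = Z₁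
      rw [div_self hd, map_one]
      ring
    · show Z₂ + conj ((Q - Q) / (P - Q)) * (Z₁ - Z₂) = Z₂
      rw [sub_self, zero_div, map_zero]
      ring
    · show Z₂ + conj ((R - Q) / (P - Q)) * (Z₁ - Z₂) = Z₃
      rw [← hs, ← hts, ← hZt]
      ring

/-- The Euclidean plane. -/
abbrev Plane : Type := EuclideanSpace ℝ (Fin 2)

/-- The triangle with vertices `p`, `q`, `r` occurs in `C`. -/
def Occ (C : Set Plane) (p q r : Plane) : Prop :=
  ∃ φ : Plane → Plane, Isometry φ ∧ φ p ∈ C ∧ φ q ∈ C ∧ φ r ∈ C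

/-- Identification of the complex numbers with the plane. -/
noncomputable def e : ℂ ≃ₗᵢ[ℝ] Plane := Complex.orthonormalBasisOneI.repr

theorem occ_swap {C : Set Plane} {p q r : Plane} (h : Occ C r q p) : Occ C p q r := by
  obtain ⟨φ, h0, h1, h2, h3⟩ := h
  exact ⟨φ, h0, h3, h2, h1⟩

theorem dist_e (x y : Plane) : ‖e.symm x - e.symm y‖ = dist x y := by
  rw [← dist_eq_norm, LinearIsometryEquiv.dist_map]

/-- The set of colourings without the triangle of given shape. -/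
def FreeXY (f : ℂ → Bool) (b x y : ℝ) : Prop :=
  ∀ z1 z2 z3 : ℂ, ‖z2 - z1‖ = b → ‖z3 - z1‖ = b * Real.sqrt (x ^ 2 + y ^ 2) →
      ‖z3 - z2‖ = b * Real.sqrt ((1 - x) ^ 2 + y ^ 2) →
      ¬(f z1 = true ∧ f z2 = true ∧ f z3 = true)

/-- Shape of a triangle with an angle between 90 and 150 degrees; the longer leg is `p q`. -/
theorem free_of_miss {C : Set Plane} {p q r : Plane} (h : ¬ Occ C p q r) (hpq : p ≠ q)
    (hrq : r ≠ q) (h1 : π / 2 ≤ ∠ p q r) (h2 : ∠ p q r ≤ 5 * π / 6) (hl : dist r q ≤ dist p q)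
    (f : ℂ → Bool) (hf : ∀ z, f z = true → e z ∈ C) :
    ∃ b x y : ℝ, 0 < b ∧ GoodXY x y ∧ FreeXY f b x y := by
  have hb : 0 < dist p q := dist_pos.2 hpq
  have hr : 0 < dist r q := dist_pos.2 hrq
  set θ := ∠ p q r with hθ
  set k := dist r q / dist p q with hk
  have hk0 : 0 < k := div_pos hr hb
  have hk1 : k ≤ 1 := (div_le_one hb).2 hl
  have hbk : dist p q * k = dist r q := by rw [hk, mul_div_cancel₀ _ hb.ne']
  have hcos : Real.cos θ ≤ 0 := Real.cos_nonpos_of_pi_div_two_le_of_le h1 (by linarith [Real.pi_pos])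
  have hsin : 0 < Real.sin θ :=
    Real.sin_pos_of_pos_of_lt_pi (by linarith [Real.pi_pos]) (by linarith [Real.pi_pos])
  have hcs : Real.cos θ ^ 2 + Real.sin θ ^ 2 = 1 := Real.cos_sq_add_sin_sq θ
  -- cos θ ≥ - √3 / 2
  have hc3 : -(Real.sqrt 3 / 2) ≤ Real.cos θ := by
    have h3 : Real.cos (5 * π / 6) = -(Real.sqrt 3 / 2) := by
      have : 5 * π / 6 = π - π / 6 := by ring
      rw [this, Real.cos_pi_sub, Real.cos_pi_div_six]
    rw [← h3]
    exact Real.cos_le_cos_of_nonneg_of_le_pi (by linarith [Real.pi_pos]) (by linarith [Real.pi_pos]) h2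
  have hs3 : Real.sqrt 3 * Real.sqrt 3 = 3 := Real.mul_self_sqrt (by norm_num)
  have hc4 : Real.cos θ ^ 2 ≤ 3 / 4 := by nlinarith [Real.sqrt_nonneg 3]
  have hreg : GoodXY (k * Real.cos θ) (k * Real.sin θ) := by
    refine cover _ _ (mul_nonpos_of_nonneg_of_nonpos hk0.le hcos) (mul_pos hk0 hsin) ?_ ?_
    · have : Real.cos θ ^ 2 ≤ 3 * Real.sin θ ^ 2 := by linarith
      have := mul_le_mul_of_nonneg_left this (sq_nonneg k)
      linarith
    · have : (k * Real.cos θ) ^ 2 + (k * Real.sin θ) ^ 2 = k ^ 2 := by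
        linear_combination k ^ 2 * hcs
      rw [this]
      nlinarith
  refine ⟨dist p q, k * Real.cos θ, k * Real.sin θ, hb, hreg, ?_⟩
  intro z1 z2 z3 d1 d2 d3 ⟨c1, c2, c3⟩
  have e1 : Real.sqrt ((k * Real.cos θ) ^ 2 + (k * Real.sin θ) ^ 2) = k := by
    have : (k * Real.cos θ) ^ 2 + (k * Real.sin θ) ^ 2 = k ^ 2 := by
      linear_combination k ^ 2 * hcs
    rw [this, Real.sqrt_sq hk0.le]
  have e2 : dist p q * Real.sqrt ((1 - k * Real.cos θ) ^ 2 + (k * Real.sin θ) ^ 2) = dist p r := by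
    have hlaw := EuclideanGeometry.law_cos p q r
    have h5 : (1 - k * Real.cos θ) ^ 2 + (k * Real.sin θ) ^ 2 = 1 - 2 * k * Real.cos θ + k ^ 2 := by
      linear_combination k ^ 2 * hcs
    have h6 : dist p r = Real.sqrt (dist p r * dist p r) := (Real.sqrt_mul_self dist_nonneg).symm
    rw [h6, hlaw, h5]
    have h7 : dist p q = Real.sqrt (dist p q * dist p q) := (Real.sqrt_mul_self dist_nonneg).symm
    conv_lhs => rw [h7]
    rw [← Real.sqrt_mul (by positivity)]
    congr 1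
    rw [← hθ, ← hbk]
    ring
  rw [e1, hbk] at d2
  rw [e2] at d3
  obtain ⟨φ, hφ, f1, f2, f3⟩ := sss (e.symm p) (e.symm q) (e.symm r) z2 z1 z3
    (fun h' => hpq (e.symm.injective h')) (by rw [d1, dist_e])
    (by rw [norm_sub_rev, d2, dist_e, dist_comm]) (by rw [norm_sub_rev, d3, dist_e])
  refine h ⟨fun z => e (φ (e.symm z)), e.isometry.comp (hφ.comp e.symm.isometry), ?_, ?_, ?_⟩
  · show e (φ (e.symm p)) ∈ C
    rw [f1]
    exact hf _ c2
  · show e (φ (e.symm q)) ∈ C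
    rw [f2]
    exact hf _ c1
  · show e (φ (e.symm r)) ∈ C
    rw [f3]
    exact hf _ c3

/-- The family of the theorem, without the angle of 30 degrees. -/
theorem free_of_miss' {C : Set Plane} {p q r : Plane} (h : ¬ Occ C p q r) (hpq : p ≠ q)
    (hrq : r ≠ q) (h1 : π / 2 ≤ ∠ p q r) (h2 : ∠ p q r ≤ 5 * π / 6)
    (f : ℂ → Bool) (hf : ∀ z, f z = true → e z ∈ C) :
    ∃ b x y : ℝ, 0 < b ∧ GoodXY x y ∧ FreeXY f b x y := by
  rcases le_total (dist r q) (dist p q) with hl | hl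
  · exact free_of_miss h hpq hrq h1 h2 hl f hf
  · exact free_of_miss (fun h' => h (occ_swap h')) hrq hpq (by rw [angle_comm]; exact h1)
      (by rw [angle_comm]; exact h2) hl f hf

/-- A balanced configuration gives density at most 1/2. -/
theorem good_half (P : Set ℂ → Prop) (hP : Good P) (f : ℂ → Bool) (hA : P {z | f z = true})
    (E : ((ℂ → Bool) → ℝ) → ℝ) (hE : IsStat f E) (ρ : ℝ) (K : ℝ → ℝ) (hk : Kern E ρ K) :
    ρ ≤ 1 / 2 := by
  obtain ⟨n, hn, X, h1, -⟩ := hP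
  have hl := Pool.Agent.H79.DF.E_list f E hE (List.finRange (2 * n)) (fun _ => (-1 : ℝ))
    (fun i F => bt (F (X i))) (fun i => bdd1 _)
  have hind : ∀ z, ((ind {z | f z = true} z : ℤ) : ℝ) = bt (f z) := by
    intro z
    by_cases h : f z = true
    · rw [ind_of_mem (show z ∈ {z | f z = true} from h), h]
      simp [bt]
    · rw [ind_of_not_mem (show z ∉ {z | f z = true} from h)]
      simp only [Bool.not_eq_true] at h
      rw [h]
      simp [bt]
  have h0 : 0 ≤ E (fun F => (n : ℝ) * 1 + ((List.finRange (2 * n)).map fun i =>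
      (-1 : ℝ) * bt (F (X i))).sum) := by
    refine hE.nonneg _ (((bdd_const 1).smul _).add hl.2) fun θ w hθ => ?_
    have h2 := h1 _ hA w θ hθ
    have h3 : ((∑ i, ind {z | f z = true} (w + θ * X i) : ℤ) : ℝ) ≤ n := by exact_mod_cast h2
    rw [Int.cast_sum] at h3
    simp only [hind] at h3
    have h4 : ((List.finRange (2 * n)).map fun i => (-1 : ℝ) * bt (f (θ * X i + w))).sum =
        -∑ i, bt (f (w + θ * X i)) := by
      rw [← List.ofFn_eq_map, List.sum_ofFn, ← Finset.sum_neg_distrib]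
      refine Finset.sum_congr rfl fun i _ => ?_
      rw [add_comm w]
      ring
    rw [h4]
    linarith
  rw [hE.add _ _ ((bdd_const 1).smul _) hl.2, hE.smul _ _ (bdd_const 1), hE.one, hl.1] at h0
  simp only [hk.one] at h0
  rw [← List.ofFn_eq_map, List.sum_ofFn] at h0
  simp only [Finset.sum_const, Finset.card_univ, Fintype.card_fin, nsmul_eq_mul] at h0
  push_cast at h0
  have hn' : (0 : ℝ) < n := by exact_mod_cast hn
  nlinarith

theorem free30_of_miss {C : Set Plane} {p q r : Plane} (h : ¬ Occ C p q r) (a b : ℝ)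
    (s u w : ℂ) (hu : ‖u‖ = 1) (hp : e.symm p - e.symm q = a * u)
    (hr : e.symm r - e.symm q = b * (u * w)) (hw : w = s ∨ w = conj s) :
    Free a b s (e ⁻¹' C) := by
  have huu : u * conj u = 1 := by
    rw [Complex.mul_conj, Complex.normSq_eq_norm_sq, hu]
    norm_num
  intro x ρ hρ
  have iso1 : Isometry (fun z : Plane => e (x + (e.symm z - e.symm q) * conj u * ρ)) := by
    refine Isometry.of_dist_eq (fun z z' => ?_)
    rw [LinearIsometryEquiv.dist_map, dist_eq_norm, dist_eq_norm]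
    have : x + (e.symm z - e.symm q) * conj u * ρ - (x + (e.symm z' - e.symm q) * conj u * ρ) =
        e.symm (z - z') * conj u * ρ := by
      rw [map_sub]
      ring
    rw [this, norm_mul, norm_mul, RCLike.norm_conj, hu, hρ, mul_one, mul_one,
      LinearIsometryEquiv.norm_map]
  have iso2 : Isometry (fun z : Plane =>
      e (x + conj ((e.symm z - e.symm q) * conj u) * ρ)) := by
    refine Isometry.of_dist_eq (fun z z' => ?_)
    rw [LinearIsometryEquiv.dist_map, dist_eq_norm, dist_eq_norm]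
    have : x + conj ((e.symm z - e.symm q) * conj u) * ρ -
        (x + conj ((e.symm z' - e.symm q) * conj u) * ρ) =
        conj (e.symm (z - z') * conj u) * ρ := by
      rw [map_sub e.symm, ← add_sub_add_left_eq_sub]
      simp only [map_mul, map_sub]
      ring
    rw [this, norm_mul, RCLike.norm_conj, norm_mul, RCLike.norm_conj, hu, hρ, mul_one, mul_one,
      LinearIsometryEquiv.norm_map]
  have hp1 : (e.symm p - e.symm q) * conj u = a := by
    rw [hp]
    linear_combination (a : ℂ) * huu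
  have hr1 : (e.symm r - e.symm q) * conj u = b * w := by
    rw [hr]
    linear_combination ((b : ℂ) * w) * huu
  have k1 : ∀ w', w' = w → (x ∈ e ⁻¹' C → x + a * ρ ∈ e ⁻¹' C → x + b * (w' * ρ) ∈ e ⁻¹' C →
      False) := by
    intro w' hw' h1 h2 h3
    subst hw'
    refine h ⟨_, iso1, ?_, ?_, ?_⟩
    · show e (x + (e.symm p - e.symm q) * conj u * ρ) ∈ C
      rw [hp1]
      exact h2
    · show e (x + (e.symm q - e.symm q) * conj u * ρ) ∈ C
      rw [sub_self, zero_mul, zero_mul, add_zero]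
      exact h1
    · show e (x + (e.symm r - e.symm q) * conj u * ρ) ∈ C
      rw [hr1, mul_assoc]
      exact h3
  have k2 : ∀ w', w' = conj w → (x ∈ e ⁻¹' C → x + a * ρ ∈ e ⁻¹' C →
      x + b * (w' * ρ) ∈ e ⁻¹' C → False) := by
    intro w' hw' h1 h2 h3
    subst hw'
    refine h ⟨_, iso2, ?_, ?_, ?_⟩
    · show e (x + conj ((e.symm p - e.symm q) * conj u) * ρ) ∈ C
      rw [hp1, Complex.conj_ofReal]
      exact h2
    · show e (x + conj ((e.symm q - e.symm q) * conj u) * ρ) ∈ C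
      rw [sub_self, zero_mul, map_zero, zero_mul, add_zero]
      exact h1
    · show e (x + conj ((e.symm r - e.symm q) * conj u) * ρ) ∈ C
      rw [hr1, map_mul, Complex.conj_ofReal, mul_assoc]
      exact h3
  rcases hw with hw | hw
  · exact ⟨k1 s hw.symm, k2 (conj s) (by rw [hw])⟩
  · exact ⟨k2 s (by rw [hw, Complex.conj_conj]), k1 (conj s) hw.symm⟩

/-- Polar form of a triangle. -/
theorem polar {p q r : Plane} (hpq : p ≠ q) (hrq : r ≠ q) :
    ∃ u w : ℂ, ‖u‖ = 1 ∧ ‖w‖ = 1 ∧ w.re = Real.cos (∠ p q r) ∧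
      e.symm p - e.symm q = (dist p q : ℝ) * u ∧
      e.symm r - e.symm q = (dist r q : ℝ) * (u * w) := by
  have hp : dist p q ≠ 0 := dist_ne_zero.2 hpq
  have hr : dist r q ≠ 0 := dist_ne_zero.2 hrq
  have hp' : ((dist p q : ℝ) : ℂ) ≠ 0 := by exact_mod_cast hp
  have hr' : ((dist r q : ℝ) : ℂ) ≠ 0 := by exact_mod_cast hr
  have np : ‖e.symm p - e.symm q‖ = dist p q := by
    rw [← map_sub, LinearIsometryEquiv.norm_map, dist_eq_norm]
  have nr : ‖e.symm r - e.symm q‖ = dist r q := by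
    rw [← map_sub, LinearIsometryEquiv.norm_map, dist_eq_norm]
  set P := e.symm p - e.symm q with hP
  set R := e.symm r - e.symm q with hR
  have hPn : ‖P / (dist p q : ℝ)‖ = 1 := by
    rw [norm_div, np, Complex.norm_real, Real.norm_of_nonneg dist_nonneg, div_self hp]
  have hRn : ‖R / (dist r q : ℝ)‖ = 1 := by
    rw [norm_div, nr, Complex.norm_real, Real.norm_of_nonneg dist_nonneg, div_self hr]
  have huu : P / (dist p q : ℝ) * conj (P / (dist p q : ℝ)) = 1 := by
    rw [Complex.mul_conj, Complex.normSq_eq_norm_sq, hPn]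
    norm_num
  refine ⟨P / (dist p q : ℝ), conj (P / (dist p q : ℝ)) * (R / (dist r q : ℝ)), hPn, ?_, ?_,
    ?_, ?_⟩
  · rw [norm_mul, RCLike.norm_conj, hPn, hRn, one_mul]
  · rw [EuclideanGeometry.angle, InnerProductGeometry.cos_angle]
    have h1 : inner ℝ (p -ᵥ q) (r -ᵥ q) = inner ℝ P R := by
      rw [hP, hR, ← map_sub, ← map_sub, LinearIsometryEquiv.inner_map_map]
      rfl
    have h2 : ‖p -ᵥ q‖ = dist p q := (dist_eq_norm_vsub _ p q).symm
    have h3 : ‖r -ᵥ q‖ = dist r q := (dist_eq_norm_vsub _ r q).symm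
    rw [h1, h2, h3, Complex.inner]
    have h4 : conj (P / (dist p q : ℝ)) * (R / (dist r q : ℝ)) =
        ((dist p q * dist r q : ℝ) : ℂ)⁻¹ * (conj P * R) := by
      rw [map_div₀, Complex.conj_ofReal]
      push_cast
      field_simp
    rw [h4, ← Complex.ofReal_inv, Complex.re_ofReal_mul]
    field_simp
  · rw [mul_div_cancel₀]
    exact hp'
  · rw [← mul_assoc (P / ((dist p q : ℝ) : ℂ)), huu, one_mul, mul_div_cancel₀]
    exact hr'

theorem good30 {C : Set Plane} {p q r : Plane} (h : ¬ Occ C p q r) (hpq : p ≠ q)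
    (hrq : r ≠ q) (ha : ∠ p q r = π / 6) :
    ∃ (a b : ℝ) (s : ℂ), Good (Free a b s) ∧ Free a b s (e ⁻¹' C) := by
  obtain ⟨u, w, hu, hw, hre, hP, hR⟩ := polar hpq hrq
  have hp : dist p q ≠ 0 := dist_ne_zero.2 hpq
  have hw2 : w.re * w.re + w.im * w.im = 1 := by
    have := Complex.normSq_eq_norm_sq w
    rw [hw, Complex.normSq_apply] at this
    linarith
  have hs3 : Real.sqrt 3 * Real.sqrt 3 = 3 := sqrt3_sq
  rw [ha, Real.cos_pi_div_six] at hre
  refine ⟨dist p q, dist r q, s30, good_thirty _ _ hp,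
    free30_of_miss h _ _ _ u w hu hP hR ?_⟩
  have him : w.im * w.im = 1 / 2 * (1 / 2) := by
    rw [hre] at hw2
    linarith
  rcases mul_self_eq_mul_self_iff.1 him with h1 | h1
  · left
    apply Complex.ext
    · rw [hre, s30]
    · rw [h1, s30]
  · right
    apply Complex.ext
    · rw [hre, Complex.conj_re, s30]
    · rw [h1, Complex.conj_im, s30]

/-- A colour class which misses a triangle of the family has density at most 1/2, and less than
1/2 if the angle is not 30 degrees. -/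
theorem one_class (C₁ C₂ : Set Plane) (hC : C₁ ∪ C₂ = Set.univ) (p q r p' q' r' : Plane)
    (hpq : p ≠ q) (hrq : r ≠ q) (hpq' : p' ≠ q') (hrq' : r' ≠ q')
    (ha : ∠ p q r = π / 6 ∨ (π / 2 ≤ ∠ p q r ∧ ∠ p q r ≤ 5 * π / 6))
    (ha' : ∠ p' q' r' = π / 6 ∨ (π / 2 ≤ ∠ p' q' r' ∧ ∠ p' q' r' ≤ 5 * π / 6))
    (hn : ¬ Occ C₁ p q r) (hn' : ¬ Occ C₂ p' q' r') : False := by
  classical
  have hsub : C₁ᶜ ⊆ C₂ := by
    intro z hz
    have : z ∈ C₁ ∪ C₂ := by rw [hC]; trivial
    exact this.resolve_left hz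
  have hn'' : ¬ Occ C₁ᶜ p' q' r' := by
    rintro ⟨φ, hφ, k1, k2, k3⟩
    exact hn' ⟨φ, hφ, hsub k1, hsub k2, hsub k3⟩
  set f : ℂ → Bool := fun z => decide (e z ∈ C₁) with hf
  have hft : ∀ z, f z = true → e z ∈ C₁ := fun z h => by simpa [hf] using h
  have hff : ∀ z, (!f z) = true → e z ∈ C₁ᶜ := fun z h => by simpa [hf] using h
  have hs1 : {z | f z = true} = e ⁻¹' C₁ := by
    ext z
    simp [hf]
  have hs2 : {z | (!f z) = true} = e ⁻¹' C₁ᶜ := by
    ext z
    simp [hf]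
  obtain ⟨E, hE⟩ := exists_stat f
  obtain ⟨ρ, K, hk, hPD, hK0, hρ0, hρ1⟩ := kern_exists f E hE
  have hE' := stat_compl f E hE
  have hk' := kern_compl f E hE ρ K hk
  have hK0' : K 0 = (1 - ρ) * (1 - (1 - ρ)) := by rw [hK0]; ring
  rcases ha with ha | ⟨a1, a2⟩
  · obtain ⟨a, b, s, hg, hfr⟩ := good30 hn hpq hrq ha
    rcases ha' with ha' | ⟨b1, b2⟩
    · obtain ⟨a', b', s', hg', hfr'⟩ := good30 hn'' hpq' hrq' ha'
      exact hg.not_both hg' _ hfr (by rw [← Set.preimage_compl]; exact hfr')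
    · obtain ⟨b', x, y, hb, hxy, hfree⟩ := free_of_miss' hn'' hpq' hrq' b1 b2 (fun z => !f z) hff
      have h1 := dens_lt _ _ hE' (1 - ρ) K hk' hPD hK0' b' x y hb hfree hxy
      have h2 := good_half _ hg f (by rw [hs1]; exact hfr) E hE ρ K hk
      linarith
  · obtain ⟨b', x, y, hb, hxy, hfree⟩ := free_of_miss' hn hpq hrq a1 a2 f hft
    have h1 := dens_lt f E hE ρ K hk hPD hK0 b' x y hb hfree hxy
    rcases ha' with ha' | ⟨b1, b2⟩
    · obtain ⟨a', b'', s', hg', hfr'⟩ := good30 hn'' hpq' hrq' ha'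
      have h2 := good_half _ hg' (fun z => !f z) (by rw [hs2]; exact hfr') _ hE' (1 - ρ) K hk'
      linarith
    · obtain ⟨b'', x', y', hb', hxy', hfree'⟩ := free_of_miss' hn'' hpq' hrq' b1 b2
        (fun z => !f z) hff
      have h2 := dens_lt _ _ hE' (1 - ρ) K hk' hPD hK0' b'' x' y' hb' hfree' hxy'
      linarith

end Pool.Agent.H79.OC
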