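import Pool.Agent.H79.OC.Cover2
import Pool.Agent.H79.OC.Geo

set_option autoImplicit false

/-!
# Geometry and the main theorem for the larger family
-/

namespace Pool.Agent.H79.OC

open EuclideanGeometry ComplexConjugate Real
open Pool.Agent.H58.ER
open Pool.Agent.H93.EG (PD)
open Pool.Agent.H79.DF (Kern kern_exists stat_compl kern_compl)

/-- Shape of a triangle; `k` is the ratio of the sides at `q`. -/
theorem free_core {C : Set Plane} {p q r : Plane} (h : ¬ Occ C p q r) (hpq : p ≠ q)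
    (f : ℂ → Bool) (hf : ∀ z, f z = true → e z ∈ C) (k : ℝ) (hk0 : 0 ≤ k)
    (hbk : dist p q * k = dist r q)
    (hreg : GoodXY (k * Real.cos (∠ p q r)) (k * Real.sin (∠ p q r))) :
    ∃ b x y : ℝ, 0 < b ∧ GoodXY x y ∧ FreeXY f b x y := by
  have hb : 0 < dist p q := dist_pos.2 hpq
  set θ := ∠ p q r with hθ
  have hcs : Real.cos θ ^ 2 + Real.sin θ ^ 2 = 1 := Real.cos_sq_add_sin_sq θ
  refine ⟨dist p q, k * Real.cos θ, k * Real.sin θ, hb, hreg, ?_⟩
  intro z1 z2 z3 d1 d2 d3 ⟨c1, c2, c3⟩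
  have e1 : Real.sqrt ((k * Real.cos θ) ^ 2 + (k * Real.sin θ) ^ 2) = k := by
    have : (k * Real.cos θ) ^ 2 + (k * Real.sin θ) ^ 2 = k ^ 2 := by
      linear_combination k ^ 2 * hcs
    rw [this, Real.sqrt_sq hk0]
  have e2 : dist p q * Real.sqrt ((1 - k * Real.cos θ) ^ 2 + (k * Real.sin θ) ^ 2) = dist p r := by
    have hlaw := EuclideanGeometry.law_cos p q r
    have h5 : (1 - k * Real.cos θ) ^ 2 + (k * Real.sin θ) ^ 2 = 1 - 2 * k * Real.cos θ + k ^ 2 := by
      linear_combination k ^ 2 * hcs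
    have h6 : dist p r = Real.sqrt (dist p r * dist p r) := (Real.sqrt_mul_self dist_nonneg).symm
    rw [h6, hlaw, h5]
    have h7 : dist p q = Real.sqrt (dist p q * dist p q) := (Real.sqrt_mul_self dist_nonneg).symm
    conv_lhs => rw [h7]
    rw [← Real.sqrt_mul (by positivity)]
    congr 1
    rw [← hθ, ← hbk]
    ring
  rw [e1, hbk] at d2
  rw [e2] at d3
  obtain ⟨φ, hφ, f1, f2, f3⟩ := sss (e.symm p) (e.symm q) (e.symm r) z2 z1 z3
    (fun h' => hpq (e.symm.injective h')) (by rw [d1, dist_e])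
    (by rw [norm_sub_rev, d2, dist_e, dist_comm]) (by rw [norm_sub_rev, d3, dist_e])
  refine h ⟨fun z => e (φ (e.symm z)), e.isometry.comp (hφ.comp e.symm.isometry), ?_, ?_, ?_⟩
  · show e (φ (e.symm p)) ∈ C
    rw [f1]
    exact hf _ c2
  · show e (φ (e.symm q)) ∈ C
    rw [f2]
    exact hf _ c1
  · show e (φ (e.symm r)) ∈ C
    rw [f3]
    exact hf _ c3

/-- Angles between 90 and 162 degrees. -/
theorem cos_bound (θ : ℝ) (h1 : π / 2 ≤ θ) (h2 : θ ≤ 9 * π / 10) :
    Real.cos θ ^ 2 ≤ 237 / 25 * Real.sin θ ^ 2 := by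
  have hcos : Real.cos θ ≤ 0 := Real.cos_nonpos_of_pi_div_two_le_of_le h1 (by linarith [Real.pi_pos])
  have hcs : Real.cos θ ^ 2 + Real.sin θ ^ 2 = 1 := Real.cos_sq_add_sin_sq θ
  have hd : Real.cos (9 * π / 5) = (1 + Real.sqrt 5) / 4 := by
    have : 9 * π / 5 = 2 * π - π / 5 := by ring
    rw [this, Real.cos_two_pi_sub, Real.cos_pi_div_five]
  have h9 : Real.cos (9 * π / 10) ^ 2 = (5 + Real.sqrt 5) / 8 := by
    have h3 := Real.cos_sq (9 * π / 10)
    have h4 : 2 * (9 * π / 10) = 9 * π / 5 := by ring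
    rw [h4, hd] at h3
    rw [h3]
    ring
  have hmono : Real.cos (9 * π / 10) ≤ Real.cos θ :=
    Real.cos_le_cos_of_nonneg_of_le_pi (by linarith [Real.pi_pos]) (by linarith [Real.pi_pos]) h2
  have h5 : Real.sqrt 5 ≤ 2.2364 := by
    rw [Real.sqrt_le_left (by norm_num)]
    norm_num
  have hc2 : Real.cos θ ^ 2 ≤ Real.cos (9 * π / 10) ^ 2 := by
    rw [sq_le_sq, abs_of_nonpos hcos, abs_of_nonpos (le_trans hmono hcos)]
    linarith
  rw [h9] at hc2
  norm_num at h5
  linarith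

theorem free_obt {C : Set Plane} {p q r : Plane} (h : ¬ Occ C p q r) (hpq : p ≠ q)
    (hrq : r ≠ q) (h1 : π / 2 ≤ ∠ p q r) (h2 : ∠ p q r ≤ 9 * π / 10) (hl : dist r q ≤ dist p q)
    (f : ℂ → Bool) (hf : ∀ z, f z = true → e z ∈ C) :
    ∃ b x y : ℝ, 0 < b ∧ GoodXY x y ∧ FreeXY f b x y := by
  have hb : 0 < dist p q := dist_pos.2 hpq
  have hr : 0 < dist r q := dist_pos.2 hrq
  set k := dist r q / dist p q with hk
  have hk0 : 0 < k := div_pos hr hb
  have hk1 : k ≤ 1 := (div_le_one hb).2 hl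
  have hbk : dist p q * k = dist r q := by rw [hk, mul_div_cancel₀ _ hb.ne']
  refine free_core h hpq f hf k hk0.le hbk ?_
  set θ := ∠ p q r with hθ
  have hcos : Real.cos θ ≤ 0 := Real.cos_nonpos_of_pi_div_two_le_of_le h1 (by linarith [Real.pi_pos])
  have hsin : 0 < Real.sin θ :=
    Real.sin_pos_of_pos_of_lt_pi (by linarith [Real.pi_pos]) (by linarith [Real.pi_pos])
  have hcs : Real.cos θ ^ 2 + Real.sin θ ^ 2 = 1 := Real.cos_sq_add_sin_sq θ
  refine coverN _ _ (mul_nonpos_of_nonneg_of_nonpos hk0.le hcos) (mul_pos hk0 hsin) ?_ ?_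
  · have := mul_le_mul_of_nonneg_left (cos_bound θ h1 h2) (sq_nonneg k)
    linarith
  · have : (k * Real.cos θ) ^ 2 + (k * Real.sin θ) ^ 2 = k ^ 2 := by
      linear_combination k ^ 2 * hcs
    rw [this]
    nlinarith

theorem free_acute {C : Set Plane} {p q r : Plane} (h : ¬ Occ C p q r) (hpq : p ≠ q)
    (hrq : r ≠ q) (h1 : ∠ p q r ≤ π / 2) (hab : dist q r ≤ dist p q) (hbc : dist p q ≤ dist p r)
    (hac : 3 / 2 * dist q r ≤ dist p r) (f : ℂ → Bool) (hf : ∀ z, f z = true → e z ∈ C) :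
    ∃ b x y : ℝ, 0 < b ∧ GoodXY x y ∧ FreeXY f b x y := by
  have hb : 0 < dist p q := dist_pos.2 hpq
  have hr : 0 < dist r q := dist_pos.2 hrq
  rw [dist_comm q r] at hab hac
  set k := dist r q / dist p q with hk
  have hk0 : 0 < k := div_pos hr hb
  have hk1 : k ≤ 1 := (div_le_one hb).2 hab
  have hbk : dist p q * k = dist r q := by rw [hk, mul_div_cancel₀ _ hb.ne']
  refine free_core h hpq f hf k hk0.le hbk ?_
  have hlaw := EuclideanGeometry.law_cos p q r
  set θ := ∠ p q r with hθ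
  have hθ0 : 0 ≤ θ := EuclideanGeometry.angle_nonneg p q r
  have hcos : 0 ≤ Real.cos θ :=
    Real.cos_nonneg_of_neg_pi_div_two_le_of_le (by linarith [Real.pi_pos]) h1
  have hcs : Real.cos θ ^ 2 + Real.sin θ ^ 2 = 1 := Real.cos_sq_add_sin_sq θ
  have hs0 : 0 ≤ Real.sin θ :=
    Real.sin_nonneg_of_nonneg_of_le_pi hθ0 (by linarith [Real.pi_pos])
  rw [← hbk] at hlaw hac
  -- the two inequalities, divided by the square of `dist p q`
  have hc2 : dist p r * dist p r = dist p q ^ 2 * (1 - 2 * k * Real.cos θ + k ^ 2) := by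
    rw [hlaw]
    ring
  have e1 : 2 * k * Real.cos θ ≤ k ^ 2 := by
    have h3 : dist p q * dist p q ≤ dist p r * dist p r :=
      mul_self_le_mul_self hb.le hbc
    rw [hc2] at h3
    have h4 : 0 < dist p q ^ 2 := by positivity
    by_contra hcon
    push Not at hcon
    have : dist p q ^ 2 * (1 - 2 * k * Real.cos θ + k ^ 2) < dist p q ^ 2 * 1 :=
      mul_lt_mul_of_pos_left (by linarith) h4
    linarith
  have e2 : 9 / 4 * k ^ 2 ≤ 1 - 2 * k * Real.cos θ + k ^ 2 := by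
    have h3 : (3 / 2 * (dist p q * k)) * (3 / 2 * (dist p q * k)) ≤ dist p r * dist p r :=
      mul_self_le_mul_self (by positivity) hac
    rw [hc2] at h3
    have h4 : 0 < dist p q ^ 2 := by positivity
    by_contra hcon
    push Not at hcon
    have := mul_lt_mul_of_pos_left hcon h4
    linarith
  have hc12 : Real.cos θ ≤ 1 / 2 := by
    by_contra hcon
    push Not at hcon
    have : k * (1 / 2) < k * Real.cos θ := mul_lt_mul_of_pos_left hcon hk0
    nlinarith
  have hsin : 0 < Real.sin θ := by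
    rcases hs0.lt_or_eq with h3 | h3
    · exact h3
    · rw [← h3] at hcs
      nlinarith
  have hsq : (k * Real.cos θ) ^ 2 + (k * Real.sin θ) ^ 2 = k ^ 2 := by
    linear_combination k ^ 2 * hcs
  refine coverP _ _ (mul_nonneg hk0.le hcos) (mul_pos hk0 hsin) ?_ ?_
  · rw [hsq]
    linarith
  · have h5 : (1 - k * Real.cos θ) ^ 2 + (k * Real.sin θ) ^ 2 = 1 - 2 * k * Real.cos θ + k ^ 2 := by
      linear_combination k ^ 2 * hcs
    rw [hsq, h5]
    exact e2

/-- The shape condition of the family. -/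
def ShapeOK (p q r : Plane) : Prop :=
  ∠ p q r ≤ 9 * π / 10 ∧ (π / 2 ≤ ∠ p q r ∨
    (dist q r ≤ dist p q ∧ dist p q ≤ dist p r ∧ 3 / 2 * dist q r ≤ dist p r))

theorem free_fam {C : Set Plane} {p q r : Plane} (h : ¬ Occ C p q r) (hpq : p ≠ q)
    (hrq : r ≠ q) (hs : ShapeOK p q r) (f : ℂ → Bool) (hf : ∀ z, f z = true → e z ∈ C) :
    ∃ b x y : ℝ, 0 < b ∧ GoodXY x y ∧ FreeXY f b x y := by
  obtain ⟨h2, hs⟩ := hs
  rcases le_total (π / 2) (∠ p q r) with h1 | h1
  · rcases le_total (dist r q) (dist p q) with hl | hl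
    · exact free_obt h hpq hrq h1 h2 hl f hf
    · exact free_obt (fun h' => h (occ_swap h')) hrq hpq (by rw [angle_comm]; exact h1)
        (by rw [angle_comm]; exact h2) hl f hf
  · rcases hs with h3 | ⟨h3, h4, h5⟩
    · have h6 : ∠ p q r = π / 2 := le_antisymm h1 h3
      rcases le_total (dist r q) (dist p q) with hl | hl
      · exact free_obt h hpq hrq h6.ge h2 hl f hf
      · exact free_obt (fun h' => h (occ_swap h')) hrq hpq (by rw [angle_comm]; exact h6.ge)
          (by rw [angle_comm]; exact h2) hl f hf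
    · exact free_acute h hpq hrq h1 h3 h4 h5 f hf

/-- Each class misses a triangle of the family: impossible. -/
theorem one_class2 (C₁ C₂ : Set Plane) (hC : C₁ ∪ C₂ = Set.univ) (p q r p' q' r' : Plane)
    (hpq : p ≠ q) (hrq : r ≠ q) (hpq' : p' ≠ q') (hrq' : r' ≠ q')
    (ha : ShapeOK p q r) (ha' : ShapeOK p' q' r')
    (hn : ¬ Occ C₁ p q r) (hn' : ¬ Occ C₂ p' q' r') : False := by
  classical
  have hsub : C₁ᶜ ⊆ C₂ := by
    intro z hz
    have : z ∈ C₁ ∪ C₂ := by rw [hC]; trivial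
    exact this.resolve_left hz
  have hn'' : ¬ Occ C₁ᶜ p' q' r' := by
    rintro ⟨φ, hφ, k1, k2, k3⟩
    exact hn' ⟨φ, hφ, hsub k1, hsub k2, hsub k3⟩
  set f : ℂ → Bool := fun z => decide (e z ∈ C₁) with hf
  have hft : ∀ z, f z = true → e z ∈ C₁ := fun z h => by simpa [hf] using h
  have hff : ∀ z, (!f z) = true → e z ∈ C₁ᶜ := fun z h => by simpa [hf] using h
  obtain ⟨E, hE⟩ := exists_stat f
  obtain ⟨ρ, K, hk, hPD, hK0, hρ0, hρ1⟩ := kern_exists f E hE
  have hE' := stat_compl f E hE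
  have hk' := kern_compl f E hE ρ K hk
  have hK0' : K 0 = (1 - ρ) * (1 - (1 - ρ)) := by rw [hK0]; ring
  obtain ⟨b', x, y, hb, hxy, hfree⟩ := free_fam hn hpq hrq ha f hft
  have h1 := dens_lt f E hE ρ K hk hPD hK0 b' x y hb hfree hxy
  obtain ⟨b'', x', y', hb', hxy', hfree'⟩ := free_fam hn'' hpq' hrq' ha' (fun z => !f z) hff
  have h2 := dens_lt _ _ hE' (1 - ρ) K hk' hPD hK0' b'' x' y' hb' hfree' hxy'
  linarith

end Pool.Agent.H79.OC
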