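import Pool.Agent.H79.OC.CDefs

set_option autoImplicit false
set_option maxRecDepth 100000

/-!
# The configuration of 14 points
-/

namespace Pool.Agent.H79.OC

open Cl

/-- points -/
def pts14 : List (ℤ × ℤ × ℤ) :=
  [(0, 0, 0), (0, 0, 1), (0, 1, 0), (0, 1, 1), (1, 0, 0), (1, 0, 1), (1, 1, 0), (1, 1, 1),
   (2, 0, 0), (2, 0, 1), (2, 1, 0), (2, 1, 1), (1, -1, 1), (1, 1, -1)]

/-- triangles -/
def tr14 : List (ℕ × ℕ × ℕ) :=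
  [(0, 4, 2), (0, 4, 1), (1, 5, 3), (2, 6, 3), (4, 8, 6), (4, 8, 5), (5, 9, 7), (5, 1, 12), (5, 1, 4),
   (6, 2, 4), (6, 10, 7), (6, 2, 13), (7, 3, 5), (7, 3, 6), (9, 5, 8), (10, 6, 8), (11, 7, 9), (11, 7, 10)]

end Pool.Agent.H79.OC
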