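import Pool.Agent.H79.OC.Defs
import Pool.Agent.H79.DF.Num

set_option autoImplicit false

/-!
# Soundness of the table of `J0`

`numP M x = ∑_{m ≤ M} (-1)^m (x^2/4)^m / (m!)^2` (DF/Num.lean) and `num_alt` gives `J0 x ≤ numP M x` for even `M`,
`numP M x ≤ J0 x` for odd `M` (`x ≥ 0`). Here `x = n / 16`, `q = n * n`, `x^2 / 4 = q / 1024`. Invariant of `ser` with
`m = 2 i`: `t = q^m`, `D = 1024^m (m!)^2 > 0`, `(E : ℝ) - O = D * numP m (n / 16)`. One step of `ser` (two terms):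
`c1 = 1024 (m+1)^2`, `c2 = 1024 (m+2)^2`. At the end `ok2`: first comparison (the last argument of the outer `Bool.rec`)
`65536 (E + D) ≤ 65536 O + (T + 1) D` gives `65536 (numP m + 1) ≤ T + 1`; the second one (one more term, odd order)
`T D c + 65536 (O c + t q) ≤ D c + 65536 (E + D) c` gives `T - 1 ≤ 65536 (numP (m+1) + 1)`. Use `frc_eq`; `Bool.rec false a b`
is `b && a` (`rec_false`). Induct on `j` generalizing the state.
-/

namespace Pool.Agent.H79.OC

open Pool.Agent.H79.DF (J0)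

/-- The invariant. -/
private def Ser_inv (n m t D E O : ℕ) : Prop :=
  Even m ∧ (t : ℝ) = ((n : ℝ) * n) ^ m ∧ (D : ℝ) = 1024 ^ m * (m.factorial : ℝ) ^ 2 ∧
    (E : ℝ) - O = D * DF.numP m ((n : ℝ) / 16)

private lemma Ser_succ (n m : ℕ) :
    DF.numP (m + 1) ((n : ℝ) / 16) = DF.numP m ((n : ℝ) / 16) +
      (-1) ^ (m + 1) * ((n : ℝ) * n) ^ (m + 1) /
        (1024 ^ (m + 1) * ((m + 1).factorial : ℝ) ^ 2) := by
  unfold DF.numP
  rw [Finset.sum_range_succ _ (m + 1)]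
  congr 1
  have h : ((n : ℝ) / 16) ^ 2 / 4 = ((n : ℝ) * n) / 1024 := by ring
  rw [h, div_pow]
  field_simp

/-- The next term. -/
private lemma Ser_term {n m t D E O : ℕ} (h : Ser_inv n m t D E O) :
    (1024 : ℝ) ^ (m + 1) * ((m + 1).factorial : ℝ) ^ 2 = D * (1024 * ((m + 1) * (m + 1))) ∧
      0 < (D : ℝ) := by
  obtain ⟨-, -, h3, -⟩ := h
  constructor
  · rw [h3, Nat.factorial_succ]
    push_cast
    ring
  · rw [h3]
    have : (0 : ℝ) < m.factorial := by exact_mod_cast m.factorial_pos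
    positivity

private lemma Ser_one {n m t D E O : ℕ} (h : Ser_inv n m t D E O) :
    (D : ℝ) * (1024 * ((m + 1) * (m + 1))) * DF.numP (m + 1) ((n : ℝ) / 16) =
      ((E : ℝ) - O) * (1024 * ((m + 1) * (m + 1))) - t * (n * n) := by
  obtain ⟨e1, hD⟩ := Ser_term h
  obtain ⟨h1, h2, h3, h4⟩ := h
  rw [Ser_succ, e1, h4, h2, (Even.add_one h1).neg_one_pow]
  have : (0 : ℝ) < D * (1024 * ((m + 1) * (m + 1))) := by positivity
  field_simp
  ring

private lemma Ser_step {n m t D E O : ℕ} (h : Ser_inv n m t D E O) :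
    Ser_inv n (m + 2) (t * (n * n) * (n * n))
      (D * (1024 * ((m + 1) * (m + 1)) * (1024 * ((m + 2) * (m + 2)))))
      (E * (1024 * ((m + 1) * (m + 1)) * (1024 * ((m + 2) * (m + 2)))) + t * (n * n) * (n * n))
      ((O * (1024 * ((m + 1) * (m + 1))) + t * (n * n)) * (1024 * ((m + 2) * (m + 2)))) := by
  have hone := Ser_one h
  obtain ⟨e1, hD⟩ := Ser_term h
  obtain ⟨h1, h2, h3, h4⟩ := h
  have e2 : (1024 : ℝ) ^ (m + 1 + 1) * ((m + 1 + 1).factorial : ℝ) ^ 2 =
      D * (1024 * ((m + 1) * (m + 1))) * (1024 * ((m + 2) * (m + 2))) := by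
    rw [← e1, Nat.factorial_succ (m + 1)]
    push_cast
    ring
  refine ⟨h1.add (by decide), ?_, ?_, ?_⟩
  · push_cast
    rw [h2]
    ring
  · rw [show m + 2 = m + 1 + 1 from rfl, e2]
    push_cast
    ring
  · rw [show m + 2 = m + 1 + 1 from rfl, Ser_succ n (m + 1), e2]
    have hs : (-1 : ℝ) ^ (m + 1 + 1) = 1 := by
      rw [pow_succ, (Even.add_one h1).neg_one_pow]; norm_num
    rw [hs, one_mul]
    have hp : (0 : ℝ) < D * (1024 * ((m + 1) * (m + 1))) * (1024 * ((m + 2) * (m + 2))) := by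
      positivity
    have e3 : (((D * (1024 * ((m + 1) * (m + 1)) * (1024 * ((m + 1 + 1) * (m + 1 + 1)))) : ℕ)) : ℝ) =
        D * (1024 * ((m + 1) * (m + 1))) * (1024 * ((m + 2) * (m + 2))) := by
      push_cast
      ring
    have e5 : ∀ X P Y : ℝ, 0 < X → X * (P + Y / X) = X * P + Y := by
      intro X P Y hX
      field_simp
    rw [e3, e5 _ _ _ hp]
    have e4 : (D : ℝ) * (1024 * ((m + 1) * (m + 1))) * (1024 * ((m + 2) * (m + 2))) *
        DF.numP (m + 1) ((n : ℝ) / 16) =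
        (((E : ℝ) - O) * (1024 * ((m + 1) * (m + 1))) - t * (n * n)) *
          (1024 * ((m + 2) * (m + 2))) := by
      rw [← hone]
      ring
    rw [e4, h2]
    push_cast
    rw [h2]
    ring

private lemma Ser_ok2 {n m t D E O : ℕ} (T : ℕ) (h : Ser_inv n m t D E O)
    (hk : ok2 (n * n) T m t D E O = true) :
    |(T : ℝ) - 65536 * (J0 ((n : ℝ) / 16) + 1)| ≤ 1 := by
  have hone := Ser_one h
  obtain ⟨e1, hD⟩ := Ser_term h
  obtain ⟨h1, h2, h3, h4⟩ := h
  unfold ok2 at hk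
  rw [frc_eq, rec_false, Bool.and_eq_true] at hk
  obtain ⟨k1, k2⟩ := hk
  have k1' : 65536 * (E + D) ≤ 65536 * O + (T + 1) * D := Nat.le_of_ble_eq_true k1
  have k2' : T * D * (1024 * ((m + 1) * (m + 1))) +
      65536 * (O * (1024 * ((m + 1) * (m + 1))) + t * (n * n)) ≤
      D * (1024 * ((m + 1) * (m + 1))) + 65536 * ((E + D) * (1024 * ((m + 1) * (m + 1)))) :=
    Nat.le_of_ble_eq_true k2
  have k1r : (65536 : ℝ) * (E + D) ≤ 65536 * O + (T + 1) * D := by exact_mod_cast k1'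
  have k2r : (T : ℝ) * D * (1024 * ((m + 1) * (m + 1))) +
      65536 * (O * (1024 * ((m + 1) * (m + 1))) + t * (n * n)) ≤
      D * (1024 * ((m + 1) * (m + 1))) + 65536 * ((E + D) * (1024 * ((m + 1) * (m + 1)))) := by
    exact_mod_cast k2'
  have hx : (0 : ℝ) ≤ (n : ℝ) / 16 := by positivity
  have a1 := (DF.num_alt m).1 _ hx
  have a2 := (DF.num_alt (m + 1)).1 _ hx
  rw [h1.neg_one_pow, one_mul] at a1
  rw [(Even.add_one h1).neg_one_pow] at a2
  set P := DF.numP m ((n : ℝ) / 16) with hP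
  set P' := DF.numP (m + 1) ((n : ℝ) / 16) with hP'
  have b1 : 65536 * (P + 1) ≤ (T : ℝ) + 1 := by
    have : D * (65536 * (P + 1)) ≤ D * ((T : ℝ) + 1) := by
      have e : D * (65536 * (P + 1)) = 65536 * ((E : ℝ) - O) + 65536 * D := by rw [h4]; ring
      rw [e]
      linarith
    exact le_of_mul_le_mul_left this hD
  have b2 : (T : ℝ) - 1 ≤ 65536 * (P' + 1) := by
    have hc : (0 : ℝ) < D * (1024 * ((m + 1) * (m + 1))) := by positivity
    have : D * (1024 * (((m : ℝ) + 1) * (m + 1))) * ((T : ℝ) - 1) ≤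
        D * (1024 * ((m + 1) * (m + 1))) * (65536 * (P' + 1)) := by
      have e : D * (1024 * (((m : ℝ) + 1) * (m + 1))) * (65536 * (P' + 1)) =
          65536 * (((E : ℝ) - O) * (1024 * ((m + 1) * (m + 1))) - t * (n * n)) +
            65536 * (D * (1024 * ((m + 1) * (m + 1)))) := by
        rw [← hone]; ring
      rw [e]
      linarith
    exact le_of_mul_le_mul_left this hc
  rw [abs_le]
  constructor
  · linarith
  · linarith

private lemma Ser_ser {n : ℕ} (T : ℕ) (j : ℕ) : ∀ m t D E O : ℕ, Ser_inv n m t D E O →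
    ser (n * n) T j m t D E O = true →
    |(T : ℝ) - 65536 * (J0 ((n : ℝ) / 16) + 1)| ≤ 1 := by
  induction j with
  | zero =>
    intro m t D E O h hk
    exact Ser_ok2 T h hk
  | succ j ih =>
    intro m t D E O h hk
    have hk' : (frc (Nat.mul 1024 (Nat.mul (Nat.add m 1) (Nat.add m 1))) fun c1 =>
      frc (Nat.mul 1024 (Nat.mul (Nat.add m 2) (Nat.add m 2))) fun c2 =>
      frc (Nat.add m 2) fun m' =>
      ser (n * n) T j m' (Nat.mul (Nat.mul t (n * n)) (n * n)) (Nat.mul D (Nat.mul c1 c2))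
        (Nat.add (Nat.mul E (Nat.mul c1 c2)) (Nat.mul (Nat.mul t (n * n)) (n * n)))
        (Nat.mul (Nat.add (Nat.mul O c1) (Nat.mul t (n * n))) c2)) = true := hk
    rw [frc_eq, frc_eq, frc_eq] at hk'
    exact ih _ _ _ _ _ (Ser_step h) hk'

theorem ok1_sound (n T : ℕ) (h : ok1 n T = true) :
    |(T : ℝ) - 65536 * (J0 ((n : ℝ) / 16) + 1)| ≤ 1 := by
  unfold ok1 at h
  rw [frc_eq] at h
  refine Ser_ser T _ 0 1 1 1 0 ⟨Even.zero, ?_, ?_, ?_⟩ h
  · simp
  · simp
  · simp [DF.numP]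

end Pool.Agent.H79.OC
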