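import Pool.Agent.H79.OC.Defs

set_option autoImplicit false
set_option maxRecDepth 100000

/-!
# The table of `J0`, data
-/

namespace Pool.Agent.H79.OC

open Tr

/-- Entry `n`: `65536 (J0 (n / 16) + 1)`. -/
def t1Tree : Tr :=
 (nd (nd (nd (nd (nd (nd (nd (nd (nd (nd (nd (nd (lf (nat_lit 131072)) (lf (nat_lit 65632))) (nd (lf (nat_lit 71604)) (lf (nat_lit 62095)))) (nd (nd (lf (nat_lit 74585)) (lf (nat_lit 63328))) (lf (nat_lit 68573))))
 (nd (nd (nd (lf (nat_lit 54074)) (lf (nat_lit 66704))) (lf (nat_lit 60965))) (nd (nd (lf (nat_lit 58018)) (lf (nat_lit 68511))) (lf (nat_lit 64014)))))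
 (nd (nd (nd (nd (lf (nat_lit 76785)) (lf (nat_lit 61087))) (lf (nat_lit 62437))) (nd (nd (lf (nat_lit 66019)) (lf (nat_lit 62475))) (lf (nat_lit 60940))))
 (nd (nd (nd (lf (nat_lit 61851)) (lf (nat_lit 69413))) (lf (nat_lit 69609))) (nd (nd (lf (nat_lit 67160)) (lf (nat_lit 67614))) (lf (nat_lit 70243))))))
 (nd (nd (nd (nd (nd (lf (nat_lit 39508)) (lf (nat_lit 68918))) (lf (nat_lit 63472))) (nd (nd (lf (nat_lit 58618)) (lf (nat_lit 69574))) (lf (nat_lit 66846))))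
 (nd (nd (nd (lf (nat_lit 76482)) (lf (nat_lit 61649))) (lf (nat_lit 65759))) (nd (nd (lf (nat_lit 69773)) (lf (nat_lit 61678))) (lf (nat_lit 63017)))))
 (nd (nd (nd (nd (lf (nat_lit 68661)) (lf (nat_lit 67984))) (lf (nat_lit 71431))) (nd (nd (lf (nat_lit 71192)) (lf (nat_lit 65548))) (lf (nat_lit 70172))))
 (nd (nd (nd (lf (nat_lit 60742)) (lf (nat_lit 64319))) (lf (nat_lit 60116))) (nd (nd (lf (nat_lit 59541)) (lf (nat_lit 66624))) (lf (nat_lit 61919)))))))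
 (nd (nd (nd (nd (nd (nd (lf (nat_lit 80209)) (lf (nat_lit 61327))) (nd (lf (nat_lit 60874)) (lf (nat_lit 65559)))) (nd (nd (lf (nat_lit 63542)) (lf (nat_lit 63291))) (lf (nat_lit 60336))))
 (nd (nd (nd (lf (nat_lit 64661)) (lf (nat_lit 68845))) (lf (nat_lit 70689))) (nd (nd (lf (nat_lit 69194)) (lf (nat_lit 66642))) (lf (nat_lit 70400)))))
 (nd (nd (nd (nd (lf (nat_lit 49418)) (lf (nat_lit 67879))) (lf (nat_lit 62031))) (nd (nd (lf (nat_lit 58016)) (lf (nat_lit 69178))) (lf (nat_lit 65384))))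
 (nd (nd (nd (lf (nat_lit 75760)) (lf (nat_lit 62380))) (lf (nat_lit 67281))) (nd (nd (lf (nat_lit 70944)) (lf (nat_lit 61739))) (lf (nat_lit 64309))))))
 (nd (nd (nd (nd (nd (lf (nat_lit 75409)) (lf (nat_lit 66888))) (lf (nat_lit 71756))) (nd (nd (lf (nat_lit 73029)) (lf (nat_lit 64413))) (lf (nat_lit 69554))))
 (nd (nd (nd (lf (nat_lit 57629)) (lf (nat_lit 65485))) (lf (nat_lit 60321))) (nd (nd (lf (nat_lit 58555)) (lf (nat_lit 67635))) (lf (nat_lit 62833)))))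
 (nd (nd (nd (nd (lf (nat_lit 76747)) (lf (nat_lit 61203))) (lf (nat_lit 64106))) (nd (nd (lf (nat_lit 68116)) (lf (nat_lit 61927))) (lf (nat_lit 61862))))
 (nd (nd (nd (lf (nat_lit 59876)) (lf (nat_lit 69659))) (lf (nat_lit 68292))) (nd (nd (lf (nat_lit 65214)) (lf (nat_lit 68392))) (lf (nat_lit 69730))))))))
 (nd (nd (nd (nd (nd (nd (nd (lf (nat_lit 115684)) (lf (nat_lit 61715))) (nd (lf (nat_lit 66761)) (lf (nat_lit 62381)))) (nd (nd (lf (nat_lit 71911)) (lf (nat_lit 61415))) (lf (nat_lit 63494))))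
 (nd (nd (nd (lf (nat_lit 54404)) (lf (nat_lit 69685))) (lf (nat_lit 66130))) (nd (nd (lf (nat_lit 62069)) (lf (nat_lit 69308))) (lf (nat_lit 68656)))))
 (nd (nd (nd (nd (lf (nat_lit 59616)) (lf (nat_lit 63611))) (lf (nat_lit 59422))) (nd (nd (lf (nat_lit 58934)) (lf (nat_lit 66092))) (lf (nat_lit 61161))))
 (nd (nd (nd (lf (nat_lit 71845)) (lf (nat_lit 66182))) (lf (nat_lit 70908))) (nd (nd (lf (nat_lit 72074)) (lf (nat_lit 63931))) (lf (nat_lit 68733))))))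
 (nd (nd (nd (nd (nd (lf (nat_lit 53897)) (lf (nat_lit 69910))) (lf (nat_lit 69438))) (nd (nd (lf (nat_lit 66248)) (lf (nat_lit 68220))) (lf (nat_lit 70479))))
 (nd (nd (nd (lf (nat_lit 67933)) (lf (nat_lit 61904))) (lf (nat_lit 60887))) (nd (nd (lf (nat_lit 62899)) (lf (nat_lit 63924))) (lf (nat_lit 60703)))))
 (nd (nd (nd (nd (lf (nat_lit 79097)) (lf (nat_lit 63769))) (lf (nat_lit 69624))) (nd (nd (lf (nat_lit 73126)) (lf (nat_lit 62197))) (lf (nat_lit 66391))))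
 (nd (nd (nd (lf (nat_lit 55847)) (lf (nat_lit 68240))) (lf (nat_lit 63111))) (nd (nd (lf (nat_lit 59734)) (lf (nat_lit 69190))) (lf (nat_lit 66099)))))))
 (nd (nd (nd (nd (nd (nd (lf (nat_lit 48493)) (lf (nat_lit 64797))) (nd (lf (nat_lit 59330)) (lf (nat_lit 68699)))) (nd (nd (lf (nat_lit 57223)) (lf (nat_lit 67213))) (lf (nat_lit 61966))))
 (nd (nd (nd (lf (nat_lit 75146)) (lf (nat_lit 64978))) (lf (nat_lit 70483))) (nd (nd (lf (nat_lit 72848)) (lf (nat_lit 62977))) (lf (nat_lit 67677)))))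
 (nd (nd (nd (nd (lf (nat_lit 54317)) (lf (nat_lit 69971))) (lf (nat_lit 67806))) (nd (nd (lf (nat_lit 63953)) (lf (nat_lit 68907))) (lf (nat_lit 69706))))
 (nd (nd (nd (lf (nat_lit 70303)) (lf (nat_lit 61495))) (lf (nat_lit 62099))) (nd (nd (lf (nat_lit 64904)) (lf (nat_lit 63041))) (lf (nat_lit 61044))))))
 (nd (nd (nd (nd (nd (lf (nat_lit 85202)) (lf (nat_lit 62651))) (lf (nat_lit 68363))) (nd (nd (lf (nat_lit 72834)) (lf (nat_lit 61659))) (lf (nat_lit 64962))))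
 (nd (nd (nd (lf (nat_lit 54892)) (lf (nat_lit 69089))) (lf (nat_lit 64529))) (nd (nd (lf (nat_lit 60650)) (lf (nat_lit 69401))) (lf (nat_lit 67420)))))
 (nd (nd (nd (nd (lf (nat_lit 64604)) (lf (nat_lit 62624))) (lf (nat_lit 59964))) (nd (nd (lf (nat_lit 60867)) (lf (nat_lit 64967))) (lf (nat_lit 60737))))
 (nd (nd (nd (lf (nat_lit 68892)) (lf (nat_lit 67290))) (lf (nat_lit 70898))) (nd (nd (lf (nat_lit 70901)) (lf (nat_lit 64980))) (lf (nat_lit 69492)))))))))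
 (nd (nd (nd (nd (nd (nd (nd (nd (lf (nat_lit 127040)) (lf (nat_lit 63409))) (nd (lf (nat_lit 69680)) (lf (nat_lit 61778)))) (nd (nd (lf (nat_lit 74312)) (lf (nat_lit 61929))) (lf (nat_lit 66095))))
 (nd (nd (nd (lf (nat_lit 52666)) (lf (nat_lit 68568))) (lf (nat_lit 63280))) (nd (nd (lf (nat_lit 59289)) (lf (nat_lit 69381))) (lf (nat_lit 66452)))))
 (nd (nd (nd (nd (lf (nat_lit 68285)) (lf (nat_lit 61907))) (lf (nat_lit 60281))) (nd (nd (lf (nat_lit 62024)) (lf (nat_lit 64112))) (lf (nat_lit 60425))))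
 (nd (nd (nd (lf (nat_lit 67089)) (lf (nat_lit 68110))) (lf (nat_lit 70920))) (nd (nd (lf (nat_lit 70198)) (lf (nat_lit 65802))) (lf (nat_lit 70038))))))
 (nd (nd (nd (nd (nd (lf (nat_lit 44529)) (lf (nat_lit 69956))) (lf (nat_lit 66596))) (nd (nd (lf (nat_lit 62030)) (lf (nat_lit 69364))) (lf (nat_lit 69104))))
 (nd (nd (nd (lf (nat_lit 73079)) (lf (nat_lit 61252))) (lf (nat_lit 63006))) (nd (nd (lf (nat_lit 66429)) (lf (nat_lit 62421))) (lf (nat_lit 61345)))))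
 (nd (nd (nd (nd (lf (nat_lit 75162)) (lf (nat_lit 65920))) (lf (nat_lit 71221))) (nd (nd (lf (nat_lit 73089)) (lf (nat_lit 63637))) (lf (nat_lit 68659))))
 (nd (nd (nd (lf (nat_lit 57259)) (lf (nat_lit 66387))) (lf (nat_lit 61071))) (nd (nd (lf (nat_lit 58815)) (lf (nat_lit 68239))) (lf (nat_lit 63801)))))))
 (nd (nd (nd (nd (nd (nd (lf (nat_lit 62365)) (lf (nat_lit 62721))) (nd (lf (nat_lit 59341)) (lf (nat_lit 67353)))) (nd (nd (lf (nat_lit 59638)) (lf (nat_lit 65216))) (lf (nat_lit 60541))))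
 (nd (nd (nd (lf (nat_lit 70593)) (lf (nat_lit 67099))) (lf (nat_lit 71290))) (nd (nd (lf (nat_lit 71796)) (lf (nat_lit 64705))) (lf (nat_lit 69524)))))
 (nd (nd (nd (nd (lf (nat_lit 50027)) (lf (nat_lit 69400))) (lf (nat_lit 64844))) (nd (nd (lf (nat_lit 60370)) (lf (nat_lit 69531))) (lf (nat_lit 67831))))
 (nd (nd (nd (lf (nat_lit 74048)) (lf (nat_lit 61435))) (lf (nat_lit 64564))) (nd (nd (lf (nat_lit 68242)) (lf (nat_lit 61952))) (lf (nat_lit 62273))))))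
 (nd (nd (nd (nd (nd (lf (nat_lit 82582)) (lf (nat_lit 64658))) (lf (nat_lit 70684))) (nd (nd (lf (nat_lit 73962)) (lf (nat_lit 62685))) (lf (nat_lit 67492))))
 (nd (nd (nd (lf (nat_lit 54949)) (lf (nat_lit 67535))) (lf (nat_lit 61998))) (nd (nd (lf (nat_lit 58780)) (lf (nat_lit 68936))) (lf (nat_lit 65075)))))
 (nd (nd (nd (nd (lf (nat_lit 71273)) (lf (nat_lit 61409))) (lf (nat_lit 61539))) (nd (nd (lf (nat_lit 64323)) (lf (nat_lit 63158))) (lf (nat_lit 60707))))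
 (nd (nd (nd (lf (nat_lit 64265)) (lf (nat_lit 68882))) (lf (nat_lit 70165))) (nd (nd (lf (nat_lit 68422)) (lf (nat_lit 66844))) (lf (nat_lit 70179))))))))
 (nd (nd (nd (nd (nd (nd (nd (lf (nat_lit 99079)) (lf (nat_lit 60960))) (nd (lf (nat_lit 63565)) (lf (nat_lit 63754)))) (nd (nd (lf (nat_lit 67997)) (lf (nat_lit 61911))) (lf (nat_lit 61405))))
 (nd (nd (nd (lf (nat_lit 58779)) (lf (nat_lit 69784))) (lf (nat_lit 68818))) (nd (nd (lf (nat_lit 65665)) (lf (nat_lit 68313))) (lf (nat_lit 70087)))))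
 (nd (nd (nd (nd (lf (nat_lit 52827)) (lf (nat_lit 65779))) (lf (nat_lit 60061))) (nd (nd (lf (nat_lit 57487)) (lf (nat_lit 67930))) (lf (nat_lit 62963))))
 (nd (nd (nd (lf (nat_lit 74977)) (lf (nat_lit 64103))) (lf (nat_lit 69585))) (nd (nd (lf (nat_lit 72339)) (lf (nat_lit 62457))) (lf (nat_lit 66653))))))
 (nd (nd (nd (nd (nd (lf (nat_lit 65087)) (lf (nat_lit 68795))) (lf (nat_lit 71308))) (nd (nd (lf (nat_lit 70236)) (lf (nat_lit 66422))) (lf (nat_lit 70640))))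
 (nd (nd (nd (lf (nat_lit 62329)) (lf (nat_lit 63441))) (lf (nat_lit 59915))) (nd (nd (lf (nat_lit 60044)) (lf (nat_lit 65817))) (lf (nat_lit 61245)))))
 (nd (nd (nd (nd (lf (nat_lit 79626)) (lf (nat_lit 62058))) (lf (nat_lit 67040))) (nd (nd (lf (nat_lit 71315)) (lf (nat_lit 61577))) (lf (nat_lit 63924))))
 (nd (nd (nd (lf (nat_lit 56810)) (lf (nat_lit 69427))) (lf (nat_lit 65732))) (nd (nd (lf (nat_lit 62059)) (lf (nat_lit 69244))) (lf (nat_lit 68251)))))))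
 (nd (nd (nd (nd (nd (nd (lf (nat_lit 40624)) (lf (nat_lit 67046))) (nd (lf (nat_lit 60833)) (lf (nat_lit 69268)))) (nd (nd (lf (nat_lit 56864)) (lf (nat_lit 68794))) (lf (nat_lit 64255))))
 (nd (nd (nd (lf (nat_lit 77257)) (lf (nat_lit 63000))) (lf (nat_lit 68474))) (nd (nd (lf (nat_lit 72107)) (lf (nat_lit 61879))) (lf (nat_lit 65315)))))
 (nd (nd (nd (nd (lf (nat_lit 61102)) (lf (nat_lit 69455))) (lf (nat_lit 70195))) (nd (nd (lf (nat_lit 67881)) (lf (nat_lit 67461))) (lf (nat_lit 70554))))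
 (nd (nd (nd (lf (nat_lit 65471)) (lf (nat_lit 62542))) (lf (nat_lit 60486))) (nd (nd (lf (nat_lit 61747)) (lf (nat_lit 64737))) (lf (nat_lit 60917))))))
 (nd (nd (nd (nd (nd (lf (nat_lit 82991)) (lf (nat_lit 61356))) (lf (nat_lit 65369))) (nd (nd (lf (nat_lit 69944)) (lf (nat_lit 61584))) (lf (nat_lit 62585))))
 (nd (nd (nd (lf (nat_lit 57414)) (lf (nat_lit 69770))) (lf (nat_lit 67291))) (nd (nd (lf (nat_lit 63694)) (lf (nat_lit 68921))) (lf (nat_lit 69294)))))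
 (nd (nd (nd (nd (lf (nat_lit 58377)) (lf (nat_lit 64546))) (lf (nat_lit 59759))) (nd (nd (lf (nat_lit 58584)) (lf (nat_lit 66910))) (lf (nat_lit 61939))))
 (nd (nd (nd (lf (nat_lit 72630)) (lf (nat_lit 65274))) (lf (nat_lit 70317))) (nd (nd (lf (nat_lit 72051)) (lf (nat_lit 63256))) (lf (nat_lit 67841))))))))))
 (nd (nd (nd (nd (nd (nd (nd (nd (nd (lf (nat_lit 130052)) (lf (nat_lit 64487))) (nd (lf (nat_lit 70804)) (lf (nat_lit 61821)))) (nd (nd (lf (nat_lit 74734)) (lf (nat_lit 62535))) (lf (nat_lit 67390))))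
 (nd (nd (nd (lf (nat_lit 52974)) (lf (nat_lit 67704))) (lf (nat_lit 62015))) (nd (nd (lf (nat_lit 58435)) (lf (nat_lit 69056))) (lf (nat_lit 65225)))))
 (nd (nd (nd (nd (lf (nat_lit 72693)) (lf (nat_lit 61368))) (lf (nat_lit 61223))) (nd (nd (lf (nat_lit 63967)) (lf (nat_lit 63222))) (lf (nat_lit 60526))))
 (nd (nd (nd (lf (nat_lit 64450)) (lf (nat_lit 68865))) (lf (nat_lit 70417))) (nd (nd (lf (nat_lit 68783)) (lf (nat_lit 66745))) (lf (nat_lit 70288))))))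
 (nd (nd (nd (nd (nd (lf (nat_lit 41340)) (lf (nat_lit 69562))) (lf (nat_lit 65021))) (nd (nd (lf (nat_lit 60162)) (lf (nat_lit 69595))) (lf (nat_lit 68054))))
 (nd (nd (nd (lf (nat_lit 75066)) (lf (nat_lit 61320))) (lf (nat_lit 64343))) (nd (nd (lf (nat_lit 68179)) (lf (nat_lit 61938))) (lf (nat_lit 62073)))))
 (nd (nd (nd (nd (lf (nat_lit 72151)) (lf (nat_lit 66997))) (lf (nat_lit 71512))) (nd (nd (lf (nat_lit 72355)) (lf (nat_lit 64562))) (lf (nat_lit 69539))))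
 (nd (nd (nd (lf (nat_lit 58783)) (lf (nat_lit 65348))) (lf (nat_lit 60435))) (nd (nd (lf (nat_lit 58973)) (lf (nat_lit 67493))) (lf (nat_lit 62775)))))))
 (nd (nd (nd (nd (nd (nd (lf (nat_lit 70959)) (lf (nat_lit 61912))) (nd (lf (nat_lit 59932)) (lf (nat_lit 66486)))) (nd (nd (lf (nat_lit 61456)) (lf (nat_lit 64213))) (lf (nat_lit 60275))))
 (nd (nd (nd (lf (nat_lit 67715)) (lf (nat_lit 68049))) (lf (nat_lit 71165))) (nd (nd (lf (nat_lit 70657)) (lf (nat_lit 65677))) (lf (nat_lit 70104)))))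
 (nd (nd (nd (nd (lf (nat_lit 49219)) (lf (nat_lit 68740))) (lf (nat_lit 63373))) (nd (nd (lf (nat_lit 58993)) (lf (nat_lit 69477))) (lf (nat_lit 66643))))
 (nd (nd (nd (lf (nat_lit 75200)) (lf (nat_lit 61790))) (lf (nat_lit 65933))) (nd (nd (lf (nat_lit 69720)) (lf (nat_lit 61728))) (lf (nat_lit 63218))))))
 (nd (nd (nd (nd (nd (lf (nat_lit 79501)) (lf (nat_lit 65780))) (lf (nat_lit 71401))) (nd (nd (lf (nat_lit 73753)) (lf (nat_lit 63485))) (lf (nat_lit 68617))))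
 (nd (nd (nd (lf (nat_lit 55985)) (lf (nat_lit 66542))) (lf (nat_lit 61020))) (nd (nd (lf (nat_lit 58448)) (lf (nat_lit 68374))) (lf (nat_lit 63904)))))
 (nd (nd (nd (nd (lf (nat_lit 74258)) (lf (nat_lit 61170))) (lf (nat_lit 62733))) (nd (nd (lf (nat_lit 66236)) (lf (nat_lit 62447))) (lf (nat_lit 61147))))
 (nd (nd (nd (lf (nat_lit 61969)) (lf (nat_lit 69390))) (lf (nat_lit 69348))) (nd (nd (lf (nat_lit 66863)) (lf (nat_lit 67684))) (lf (nat_lit 70097))))))))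
 (nd (nd (nd (nd (nd (nd (nd (lf (nat_lit 107866)) (lf (nat_lit 61202))) (nd (lf (nat_lit 65148)) (lf (nat_lit 62989)))) (nd (nd (lf (nat_lit 70088)) (lf (nat_lit 61539))) (lf (nat_lit 62349))))
 (nd (nd (nd (lf (nat_lit 56321)) (lf (nat_lit 69869))) (lf (nat_lit 67539))) (nd (nd (lf (nat_lit 63818)) (lf (nat_lit 68915))) (lf (nat_lit 69495)))))
 (nd (nd (nd (nd (lf (nat_lit 55875)) (lf (nat_lit 64669))) (lf (nat_lit 59556))) (nd (nd (lf (nat_lit 57973)) (lf (nat_lit 67059))) (lf (nat_lit 61952))))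
 (nd (nd (nd (lf (nat_lit 73672)) (lf (nat_lit 65129))) (lf (nat_lit 70397))) (nd (nd (lf (nat_lit 72421)) (lf (nat_lit 63118))) (lf (nat_lit 67761))))))
 (nd (nd (nd (nd (nd (lf (nat_lit 59436)) (lf (nat_lit 69474))) (lf (nat_lit 70530))) (nd (nd (lf (nat_lit 68336)) (lf (nat_lit 67377))) (lf (nat_lit 70721))))
 (nd (nd (nd (lf (nat_lit 65101)) (lf (nat_lit 62581))) (lf (nat_lit 60235))) (nd (nd (lf (nat_lit 61338)) (lf (nat_lit 64850))) (lf (nat_lit 60828)))))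
 (nd (nd (nd (nd (lf (nat_lit 79807)) (lf (nat_lit 62829))) (lf (nat_lit 68420))) (nd (nd (lf (nat_lit 72432)) (lf (nat_lit 61770))) (lf (nat_lit 65144))))
 (nd (nd (nd (lf (nat_lit 56035)) (lf (nat_lit 68940))) (lf (nat_lit 64388))) (nd (nd (lf (nat_lit 60750)) (lf (nat_lit 69335))) (lf (nat_lit 67229)))))))
 (nd (nd (nd (nd (nd (nd (lf (nat_lit 43729)) (lf (nat_lit 65935))) (nd (lf (nat_lit 59908)) (lf (nat_lit 69094)))) (nd (nd (lf (nat_lit 56770)) (lf (nat_lit 68083))) (lf (nat_lit 63034))))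
 (nd (nd (nd (lf (nat_lit 76551)) (lf (nat_lit 63939))) (lf (nat_lit 69603))) (nd (nd (lf (nat_lit 72699)) (lf (nat_lit 62328))) (lf (nat_lit 66526)))))
 (nd (nd (nd (nd (lf (nat_lit 57497)) (lf (nat_lit 69847))) (lf (nat_lit 69114))) (nd (nd (lf (nat_lit 65935)) (lf (nat_lit 68268))) (lf (nat_lit 70278))))
 (nd (nd (nd (lf (nat_lit 67951)) (lf (nat_lit 61906))) (lf (nat_lit 61155))) (nd (nd (lf (nat_lit 63251)) (lf (nat_lit 63837))) (lf (nat_lit 60834))))))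
 (nd (nd (nd (nd (nd (lf (nat_lit 84672)) (lf (nat_lit 61889))) (lf (nat_lit 66906))) (nd (nd (lf (nat_lit 71572)) (lf (nat_lit 61496))) (lf (nat_lit 63715))))
 (nd (nd (nd (lf (nat_lit 55859)) (lf (nat_lit 69555))) (lf (nat_lit 65924))) (nd (nd (lf (nat_lit 62068)) (lf (nat_lit 69277))) (lf (nat_lit 68448)))))
 (nd (nd (nd (nd (lf (nat_lit 61334)) (lf (nat_lit 63523))) (lf (nat_lit 59680))) (nd (nd (lf (nat_lit 59536)) (lf (nat_lit 65952))) (lf (nat_lit 61204))))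
 (nd (nd (nd (lf (nat_lit 70936)) (lf (nat_lit 66305))) (lf (nat_lit 70770))) (nd (nd (lf (nat_lit 71668)) (lf (nat_lit 64072))) (lf (nat_lit 68766)))))))))
 (nd (nd (nd (nd (nd (nd (nd (nd (lf (nat_lit 122175)) (lf (nat_lit 62466))) (nd (lf (nat_lit 68304)) (lf (nat_lit 61969)))) (nd (nd (lf (nat_lit 73350)) (lf (nat_lit 61548))) (lf (nat_lit 64769))))
 (nd (nd (nd (lf (nat_lit 53157)) (lf (nat_lit 69242))) (lf (nat_lit 64680))) (nd (nd (lf (nat_lit 60527)) (lf (nat_lit 69467))) (lf (nat_lit 67620)))))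
 (nd (nd (nd (nd (lf (nat_lit 63835)) (lf (nat_lit 62670))) (lf (nat_lit 59668))) (nd (nd (lf (nat_lit 60312)) (lf (nat_lit 65089))) (lf (nat_lit 60642))))
 (nd (nd (nd (lf (nat_lit 69606)) (lf (nat_lit 67197))) (lf (nat_lit 71086))) (nd (nd (lf (nat_lit 71318)) (lf (nat_lit 64844))) (lf (nat_lit 69508))))))
 (nd (nd (nd (nd (nd (lf (nat_lit 48816)) (lf (nat_lit 70074))) (lf (nat_lit 68099))) (nd (nd (lf (nat_lit 64101)) (lf (nat_lit 68896))) (lf (nat_lit 69929))))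
 (nd (nd (nd (lf (nat_lit 70650)) (lf (nat_lit 61452))) (lf (nat_lit 61830))) (nd (nd (lf (nat_lit 64632)) (lf (nat_lit 63097))) (lf (nat_lit 60879)))))
 (nd (nd (nd (nd (lf (nat_lit 77522)) (lf (nat_lit 64821))) (lf (nat_lit 70578))) (nd (nd (lf (nat_lit 73351)) (lf (nat_lit 62833))) (lf (nat_lit 67587))))
 (nd (nd (nd (lf (nat_lit 56262)) (lf (nat_lit 67371))) (lf (nat_lit 61982))) (nd (nd (lf (nat_lit 59074)) (lf (nat_lit 68817))) (lf (nat_lit 64932)))))))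
 (nd (nd (nd (nd (nd (nd (lf (nat_lit 54779)) (lf (nat_lit 63703))) (nd (lf (nat_lit 59136)) (lf (nat_lit 68107)))) (nd (nd (lf (nat_lit 58198)) (lf (nat_lit 66237))) (lf (nat_lit 61117))))
 (nd (nd (nd (lf (nat_lit 73120)) (lf (nat_lit 66054))) (lf (nat_lit 71058))) (nd (nd (lf (nat_lit 72541)) (lf (nat_lit 63786))) (lf (nat_lit 68698)))))
 (nd (nd (nd (nd (lf (nat_lit 51769)) (lf (nat_lit 69819))) (lf (nat_lit 66353))) (nd (nd (lf (nat_lit 62059)) (lf (nat_lit 69337))) (lf (nat_lit 68873))))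
 (nd (nd (nd (lf (nat_lit 72379)) (lf (nat_lit 61334))) (lf (nat_lit 63259))) (nd (nd (lf (nat_lit 66603)) (lf (nat_lit 62400))) (lf (nat_lit 61534))))))
 (nd (nd (nd (nd (nd (lf (nat_lit 84506)) (lf (nat_lit 63593))) (lf (nat_lit 69649))) (nd (nd (lf (nat_lit 73649)) (lf (nat_lit 62064))) (lf (nat_lit 66248))))
 (nd (nd (nd (lf (nat_lit 54580)) (lf (nat_lit 68402))) (lf (nat_lit 63192))) (nd (nd (lf (nat_lit 59531)) (lf (nat_lit 69285))) (lf (nat_lit 66271)))))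
 (nd (nd (nd (nd (lf (nat_lit 67986)) (lf (nat_lit 61904))) (lf (nat_lit 60597))) (nd (nd (lf (nat_lit 62496)) (lf (nat_lit 64016))) (lf (nat_lit 60567))))
 (nd (nd (nd (lf (nat_lit 66622)) (lf (nat_lit 68167))) (lf (nat_lit 70692))) (nd (nd (lf (nat_lit 69796)) (lf (nat_lit 65923))) (lf (nat_lit 69973))))))))
 (nd (nd (nd (nd (nd (nd (nd (lf (nat_lit 89721)) (lf (nat_lit 61003))) (nd (lf (nat_lit 62110)) (lf (nat_lit 64628)))) (nd (nd (lf (nat_lit 65768)) (lf (nat_lit 62507))) (lf (nat_lit 60720))))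
 (nd (nd (nd (lf (nat_lit 61619)) (lf (nat_lit 69435))) (lf (nat_lit 69890))) (nd (nd (lf (nat_lit 67495)) (lf (nat_lit 67539))) (lf (nat_lit 70395)))))
 (nd (nd (nd (nd (lf (nat_lit 50637)) (lf (nat_lit 66871))) (lf (nat_lit 60904))) (nd (nd (lf (nat_lit 57503)) (lf (nat_lit 68651))) (lf (nat_lit 64131))))
 (nd (nd (nd (lf (nat_lit 75686)) (lf (nat_lit 63167))) (lf (nat_lit 68525))) (nd (nd (lf (nat_lit 71836)) (lf (nat_lit 61987))) (lf (nat_lit 65478))))))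
 (nd (nd (nd (nd (nd (lf (nat_lit 70515)) (lf (nat_lit 67915))) (lf (nat_lit 71725))) (nd (nd (lf (nat_lit 71833)) (lf (nat_lit 65413))) (lf (nat_lit 70243))))
 (nd (nd (nd (lf (nat_lit 59787)) (lf (nat_lit 64430))) (lf (nat_lit 59945))) (nd (nd (lf (nat_lit 59098)) (lf (nat_lit 66765))) (lf (nat_lit 61928)))))
 (nd (nd (nd (nd (lf (nat_lit 78579)) (lf (nat_lit 61504))) (lf (nat_lit 65572))) (nd (nd (lf (nat_lit 69845)) (lf (nat_lit 61631))) (lf (nat_lit 62807))))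
 (nd (nd (nd (lf (nat_lit 58119)) (lf (nat_lit 69671))) (lf (nat_lit 67061))) (nd (nd (lf (nat_lit 63579)) (lf (nat_lit 68923))) (lf (nat_lit 69102)))))))
 (nd (nd (nd (nd (nd (nd (lf (nat_lit 39229)) (lf (nat_lit 68061))) (nd (lf (nat_lit 62047)) (lf (nat_lit 69209)))) (nd (nd (lf (nat_lit 57494)) (lf (nat_lit 69301))) (lf (nat_lit 65553))))
 (nd (nd (nd (lf (nat_lit 77231)) (lf (nat_lit 62221))) (lf (nat_lit 67165))) (nd (nd (lf (nat_lit 71111)) (lf (nat_lit 61658))) (lf (nat_lit 64121)))))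
 (nd (nd (nd (nd (lf (nat_lit 64902)) (lf (nat_lit 68821))) (lf (nat_lit 70984))) (nd (nd (lf (nat_lit 69670)) (lf (nat_lit 66534))) (lf (nat_lit 70517))))
 (nd (nd (nd (lf (nat_lit 63017)) (lf (nat_lit 63364))) (lf (nat_lit 60133))) (nd (nd (lf (nat_lit 60485)) (lf (nat_lit 65685))) (lf (nat_lit 61286))))))
 (nd (nd (nd (nd (nd (lf (nat_lit 80297)) (lf (nat_lit 61083))) (lf (nat_lit 63848))) (nd (nd (lf (nat_lit 68054)) (lf (nat_lit 61917))) (lf (nat_lit 61640))))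
 (nd (nd (nd (lf (nat_lit 59455)) (lf (nat_lit 69721))) (lf (nat_lit 68545))) (nd (nd (lf (nat_lit 65427)) (lf (nat_lit 68354))) (lf (nat_lit 69905)))))
 (nd (nd (nd (nd (lf (nat_lit 55909)) (lf (nat_lit 65629))) (lf (nat_lit 60197))) (nd (nd (lf (nat_lit 58068)) (lf (nat_lit 67781))) (lf (nat_lit 62896))))
 (nd (nd (nd (lf (nat_lit 73870)) (lf (nat_lit 64261))) (lf (nat_lit 69569))) (nd (nd (lf (nat_lit 72029)) (lf (nat_lit 62584))) (lf (nat_lit 66774)))))))))))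
 (nd (nd (nd (nd (nd (nd (nd (nd (nd (nd (lf (nat_lit 130816)) (lf (nat_lit 65056))) (nd (lf (nat_lit 71248)) (lf (nat_lit 61930)))) (nd (nd (lf (nat_lit 74731)) (lf (nat_lit 62911))) (lf (nat_lit 68000))))
 (nd (nd (nd (lf (nat_lit 53427)) (lf (nat_lit 67217))) (lf (nat_lit 61459))) (nd (nd (lf (nat_lit 58169)) (lf (nat_lit 68809))) (lf (nat_lit 64613)))))
 (nd (nd (nd (nd (lf (nat_lit 74796)) (lf (nat_lit 61194))) (lf (nat_lit 61800))) (nd (nd (lf (nat_lit 64987)) (lf (nat_lit 62828))) (lf (nat_lit 60695))))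
 (nd (nd (nd (lf (nat_lit 63135)) (lf (nat_lit 69167))) (lf (nat_lit 70049))) (nd (nd (lf (nat_lit 67992)) (lf (nat_lit 67192))) (lf (nat_lit 70303))))))
 (nd (nd (nd (nd (nd (lf (nat_lit 40241)) (lf (nat_lit 69269))) (lf (nat_lit 64237))) (nd (nd (lf (nat_lit 59343)) (lf (nat_lit 69616))) (lf (nat_lit 67466))))
 (nd (nd (nd (lf (nat_lit 75853)) (lf (nat_lit 61452))) (lf (nat_lit 65047))) (nd (nd (lf (nat_lit 69002)) (lf (nat_lit 61779))) (lf (nat_lit 62521)))))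
 (nd (nd (nd (nd (lf (nat_lit 70453)) (lf (nat_lit 67506))) (lf (nat_lit 71518))) (nd (nd (lf (nat_lit 71824)) (lf (nat_lit 65051))) (lf (nat_lit 69889))))
 (nd (nd (nd (lf (nat_lit 59715)) (lf (nat_lit 64828))) (lf (nat_lit 60234))) (nd (nd (lf (nat_lit 59208)) (lf (nat_lit 67070))) (lf (nat_lit 62322)))))))
 (nd (nd (nd (nd (nd (nd (lf (nat_lit 75526)) (lf (nat_lit 61589))) (nd (lf (nat_lit 60362)) (lf (nat_lit 66026)))) (nd (nd (lf (nat_lit 62473)) (lf (nat_lit 63738))) (lf (nat_lit 60264))))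
 (nd (nd (nd (lf (nat_lit 66198)) (lf (nat_lit 68470))) (lf (nat_lit 70969))) (nd (nd (lf (nat_lit 69961)) (lf (nat_lit 66164))) (lf (nat_lit 70289)))))
 (nd (nd (nd (nd (lf (nat_lit 49191)) (lf (nat_lit 68332))) (lf (nat_lit 62680))) (nd (nd (lf (nat_lit 58450)) (lf (nat_lit 69357))) (lf (nat_lit 66018))))
 (nd (nd (nd (lf (nat_lit 75557)) (lf (nat_lit 62058))) (lf (nat_lit 66615))) (nd (nd (lf (nat_lit 70369)) (lf (nat_lit 61704))) (lf (nat_lit 63749))))))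
 (nd (nd (nd (nd (nd (lf (nat_lit 77570)) (lf (nat_lit 66340))) (lf (nat_lit 71626))) (nd (nd (lf (nat_lit 73453)) (lf (nat_lit 63937))) (lf (nat_lit 69113))))
 (nd (nd (nd (lf (nat_lit 56736)) (lf (nat_lit 66018))) (lf (nat_lit 60633))) (nd (nd (lf (nat_lit 58446)) (lf (nat_lit 68024))) (lf (nat_lit 63352)))))
 (nd (nd (nd (nd (lf (nat_lit 75575)) (lf (nat_lit 61152))) (lf (nat_lit 63402))) (nd (nd (lf (nat_lit 67188)) (lf (nat_lit 62160))) (lf (nat_lit 61473))))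
 (nd (nd (nd (lf (nat_lit 60888)) (lf (nat_lit 69555))) (lf (nat_lit 68846))) (nd (nd (lf (nat_lit 66043)) (lf (nat_lit 68058))) (lf (nat_lit 69948))))))))
 (nd (nd (nd (nd (nd (nd (nd (lf (nat_lit 111920)) (lf (nat_lit 61426))) (nd (lf (nat_lit 65957)) (lf (nat_lit 62662)))) (nd (nd (lf (nat_lit 71040)) (lf (nat_lit 61445))) (lf (nat_lit 62901))))
 (nd (nd (nd (lf (nat_lit 55286)) (lf (nat_lit 69811))) (lf (nat_lit 66845))) (nd (nd (lf (nat_lit 62924)) (lf (nat_lit 69140))) (lf (nat_lit 69103)))))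
 (nd (nd (nd (nd (lf (nat_lit 57671)) (lf (nat_lit 64129))) (lf (nat_lit 59441))) (nd (nd (lf (nat_lit 58397)) (lf (nat_lit 66584))) (lf (nat_lit 61525))))
 (nd (nd (nd (lf (nat_lit 72817)) (lf (nat_lit 65656))) (lf (nat_lit 70693))) (nd (nd (lf (nat_lit 72300)) (lf (nat_lit 63508))) (lf (nat_lit 68268))))))
 (nd (nd (nd (nd (nd (lf (nat_lit 56631)) (lf (nat_lit 69725))) (lf (nat_lit 70019))) (nd (nd (lf (nat_lit 67307)) (lf (nat_lit 67816))) (lf (nat_lit 70640))))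
 (nd (nd (nd (lf (nat_lit 66521)) (lf (nat_lit 62217))) (lf (nat_lit 60522))) (nd (nd (lf (nat_lit 62090)) (lf (nat_lit 64378))) (lf (nat_lit 60728)))))
 (nd (nd (nd (nd (lf (nat_lit 79563)) (lf (nat_lit 63281))) (lf (nat_lit 69049))) (nd (nd (lf (nat_lit 72836)) (lf (nat_lit 61955))) (lf (nat_lit 65769))))
 (nd (nd (nd (lf (nat_lit 55866)) (lf (nat_lit 68614))) (lf (nat_lit 63736))) (nd (nd (lf (nat_lit 60201)) (lf (nat_lit 69292))) (lf (nat_lit 66673)))))))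
 (nd (nd (nd (nd (nd (nd (lf (nat_lit 45910)) (lf (nat_lit 65365))) (nd (lf (nat_lit 59573)) (lf (nat_lit 68923)))) (nd (nd (lf (nat_lit 56929)) (lf (nat_lit 67665))) (lf (nat_lit 62477))))
 (nd (nd (nd (lf (nat_lit 75932)) (lf (nat_lit 64450))) (lf (nat_lit 70078))) (nd (nd (lf (nat_lit 72830)) (lf (nat_lit 62630))) (lf (nat_lit 67113)))))
 (nd (nd (nd (nd (lf (nat_lit 55840)) (lf (nat_lit 69943))) (lf (nat_lit 68484))) (nd (nd (lf (nat_lit 64941)) (lf (nat_lit 68612))) (lf (nat_lit 70027))))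
 (nd (nd (nd (lf (nat_lit 69153)) (lf (nat_lit 61670))) (lf (nat_lit 61596))) (nd (nd (lf (nat_lit 64065)) (lf (nat_lit 63423))) (lf (nat_lit 60903))))))
 (nd (nd (nd (nd (nd (lf (nat_lit 85087)) (lf (nat_lit 62244))) (lf (nat_lit 67650))) (nd (nd (lf (nat_lit 72255)) (lf (nat_lit 61546))) (lf (nat_lit 64329))))
 (nd (nd (nd (lf (nat_lit 55297)) (lf (nat_lit 69352))) (lf (nat_lit 65225))) (nd (nd (lf (nat_lit 61327)) (lf (nat_lit 69369))) (lf (nat_lit 67953)))))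
 (nd (nd (nd (nd (lf (nat_lit 62942)) (lf (nat_lit 63055))) (lf (nat_lit 59777))) (nd (nd (lf (nat_lit 60158)) (lf (nat_lit 65459))) (lf (nat_lit 60935))))
 (nd (nd (nd (lf (nat_lit 69951)) (lf (nat_lit 66807))) (lf (nat_lit 70875))) (nd (nd (lf (nat_lit 71330)) (lf (nat_lit 64518))) (lf (nat_lit 69157)))))))))
 (nd (nd (nd (nd (nd (nd (nd (nd (lf (nat_lit 124827)) (lf (nat_lit 62917))) (nd (lf (nat_lit 69019)) (lf (nat_lit 61845)))) (nd (nd (lf (nat_lit 73895)) (lf (nat_lit 61708))) (lf (nat_lit 65431))))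
 (nd (nd (nd (lf (nat_lit 52813)) (lf (nat_lit 68932))) (lf (nat_lit 63968))) (nd (nd (lf (nat_lit 59865)) (lf (nat_lit 69455))) (lf (nat_lit 67048)))))
 (nd (nd (nd (nd (lf (nat_lit 66048)) (lf (nat_lit 62263))) (lf (nat_lit 59930))) (nd (nd (lf (nat_lit 61132)) (lf (nat_lit 64593))) (lf (nat_lit 60494))))
 (nd (nd (nd (lf (nat_lit 68373)) (lf (nat_lit 67670))) (lf (nat_lit 71046))) (nd (nd (lf (nat_lit 70800)) (lf (nat_lit 65322))) (lf (nat_lit 69806))))))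
 (nd (nd (nd (nd (nd (lf (nat_lit 46554)) (lf (nat_lit 70050))) (lf (nat_lit 67362))) (nd (nd (lf (nat_lit 63048)) (lf (nat_lit 69158))) (lf (nat_lit 69548))))
 (nd (nd (nd (lf (nat_lit 71910)) (lf (nat_lit 61319))) (lf (nat_lit 62393))) (nd (nd (lf (nat_lit 65529)) (lf (nat_lit 62738))) (lf (nat_lit 61077)))))
 (nd (nd (nd (nd (lf (nat_lit 76433)) (lf (nat_lit 65369))) (lf (nat_lit 70941))) (nd (nd (lf (nat_lit 73281)) (lf (nat_lit 63217))) (lf (nat_lit 68143))))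
 (nd (nd (nd (lf (nat_lit 56690)) (lf (nat_lit 66890))) (lf (nat_lit 61495))) (nd (nd (lf (nat_lit 58893)) (lf (nat_lit 68552))) (lf (nat_lit 64358)))))))
 (nd (nd (nd (nd (nd (nd (lf (nat_lit 58426)) (lf (nat_lit 63194))) (nd (lf (nat_lit 59189)) (lf (nat_lit 67747)))) (nd (nd (lf (nat_lit 58864)) (lf (nat_lit 65728))) (lf (nat_lit 60792))))
 (nd (nd (nd (lf (nat_lit 71911)) (lf (nat_lit 66585))) (lf (nat_lit 71218))) (nd (nd (lf (nat_lit 72221)) (lf (nat_lit 64235))) (lf (nat_lit 69139)))))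
 (nd (nd (nd (nd (lf (nat_lit 50788)) (lf (nat_lit 69641))) (lf (nat_lit 65600))) (nd (nd (lf (nat_lit 61182)) (lf (nat_lit 69465))) (lf (nat_lit 68375))))
 (nd (nd (nd (lf (nat_lit 73272)) (lf (nat_lit 61352))) (lf (nat_lit 63898))) (nd (nd (lf (nat_lit 67436)) (lf (nat_lit 62150))) (lf (nat_lit 61875))))))
 (nd (nd (nd (nd (nd (lf (nat_lit 83694)) (lf (nat_lit 64114))) (lf (nat_lit 70202))) (nd (nd (lf (nat_lit 73870)) (lf (nat_lit 62350))) (lf (nat_lit 66880))))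
 (nd (nd (nd (lf (nat_lit 54679)) (lf (nat_lit 67988))) (lf (nat_lit 62572))) (nd (nd (lf (nat_lit 59106)) (lf (nat_lit 69139))) (lf (nat_lit 65674)))))
 (nd (nd (nd (nd (lf (nat_lit 69655)) (lf (nat_lit 61626))) (lf (nat_lit 61033))) (nd (nd (lf (nat_lit 63392)) (lf (nat_lit 63572))) (lf (nat_lit 60599))))
 (nd (nd (nd (lf (nat_lit 65445)) (lf (nat_lit 68548))) (lf (nat_lit 70467))) (nd (nd (lf (nat_lit 69138)) (lf (nat_lit 66390))) (lf (nat_lit 70112))))))))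
 (nd (nd (nd (nd (nd (nd (nd (lf (nat_lit 94446)) (lf (nat_lit 60946))) (nd (lf (nat_lit 62816)) (lf (nat_lit 64181)))) (nd (nd (lf (nat_lit 66891)) (lf (nat_lit 62183))) (lf (nat_lit 61027))))
 (nd (nd (nd (lf (nat_lit 60162)) (lf (nat_lit 69642))) (lf (nat_lit 69385))) (nd (nd (lf (nat_lit 66589)) (lf (nat_lit 67945))) (lf (nat_lit 70278)))))
 (nd (nd (nd (nd (lf (nat_lit 51616)) (lf (nat_lit 66331))) (lf (nat_lit 60443))) (nd (nd (lf (nat_lit 57432)) (lf (nat_lit 68313))) (lf (nat_lit 63532))))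
 (nd (nd (nd (lf (nat_lit 75409)) (lf (nat_lit 63620))) (lf (nat_lit 69082))) (nd (nd (lf (nat_lit 72139)) (lf (nat_lit 62196))) (lf (nat_lit 66069))))))
 (nd (nd (nd (nd (nd (lf (nat_lit 67850)) (lf (nat_lit 68377))) (lf (nat_lit 71563))) (nd (nd (lf (nat_lit 71079)) (lf (nat_lit 65920))) (lf (nat_lit 70480))))
 (nd (nd (nd (lf (nat_lit 61019)) (lf (nat_lit 63923))) (lf (nat_lit 59886))) (nd (nd (lf (nat_lit 59524)) (lf (nat_lit 66297))) (lf (nat_lit 61556)))))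
 (nd (nd (nd (nd (lf (nat_lit 79206)) (lf (nat_lit 61751))) (lf (nat_lit 66311))) (nd (nd (lf (nat_lit 70618)) (lf (nat_lit 61573))) (lf (nat_lit 63348))))
 (nd (nd (nd (lf (nat_lit 57402)) (lf (nat_lit 69581))) (lf (nat_lit 66404))) (nd (nd (lf (nat_lit 62799)) (lf (nat_lit 69112))) (lf (nat_lit 68701)))))))
 (nd (nd (nd (nd (nd (nd (lf (nat_lit 39713)) (lf (nat_lit 67570))) (nd (lf (nat_lit 61408)) (lf (nat_lit 69268)))) (nd (nd (lf (nat_lit 57113)) (lf (nat_lit 69075))) (lf (nat_lit 64899))))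
 (nd (nd (nd (lf (nat_lit 77336)) (lf (nat_lit 62588))) (lf (nat_lit 67837))) (nd (nd (lf (nat_lit 71656)) (lf (nat_lit 61739))) (lf (nat_lit 64711)))))
 (nd (nd (nd (nd (lf (nat_lit 62993)) (lf (nat_lit 69167))) (lf (nat_lit 70630))) (nd (nd (lf (nat_lit 68802)) (lf (nat_lit 67009))) (lf (nat_lit 70575))))
 (nd (nd (nd (lf (nat_lit 64231)) (lf (nat_lit 62933))) (lf (nat_lit 60268))) (nd (nd (lf (nat_lit 61081)) (lf (nat_lit 65209))) (lf (nat_lit 61067))))))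
 (nd (nd (nd (nd (nd (lf (nat_lit 81759)) (lf (nat_lit 61185))) (lf (nat_lit 64600))) (nd (nd (lf (nat_lit 69025)) (lf (nat_lit 61721))) (lf (nat_lit 62085))))
 (nd (nd (nd (lf (nat_lit 58382)) (lf (nat_lit 69779))) (lf (nat_lit 67937))) (nd (nd (lf (nat_lit 64554)) (lf (nat_lit 68662))) (lf (nat_lit 69632)))))
 (nd (nd (nd (nd (lf (nat_lit 57072)) (lf (nat_lit 65084))) (lf (nat_lit 59935))) (nd (nd (lf (nat_lit 58269)) (lf (nat_lit 67360))) (lf (nat_lit 62393))))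
 (nd (nd (nd (lf (nat_lit 73312)) (lf (nat_lit 64761))) (lf (nat_lit 69978))) (nd (nd (lf (nat_lit 72091)) (lf (nat_lit 62899))) (lf (nat_lit 67321))))))))))
 (nd (nd (nd (nd (nd (nd (nd (nd (nd (lf (nat_lit 128788)) (lf (nat_lit 63936))) (nd (lf (nat_lit 70279)) (lf (nat_lit 61770)))) (nd (nd (lf (nat_lit 74593)) (lf (nat_lit 62205))) (lf (nat_lit 66752))))
 (nd (nd (nd (lf (nat_lit 52719)) (lf (nat_lit 68157))) (lf (nat_lit 62625))) (nd (nd (lf (nat_lit 58810)) (lf (nat_lit 69248))) (lf (nat_lit 65841)))))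
 (nd (nd (nd (nd (lf (nat_lit 70511)) (lf (nat_lit 61607))) (lf (nat_lit 60714))) (nd (nd (lf (nat_lit 62974)) (lf (nat_lit 63652))) (lf (nat_lit 60436))))
 (nd (nd (nd (lf (nat_lit 65775)) (lf (nat_lit 68510))) (lf (nat_lit 70709))) (nd (nd (lf (nat_lit 69523)) (lf (nat_lit 66279))) (lf (nat_lit 70199))))))
 (nd (nd (nd (nd (nd (lf (nat_lit 42780)) (lf (nat_lit 69792))) (lf (nat_lit 65811))) (nd (nd (lf (nat_lit 61063)) (lf (nat_lit 69511))) (lf (nat_lit 68603))))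
 (nd (nd (nd (lf (nat_lit 74137)) (lf (nat_lit 61253))) (lf (nat_lit 63660))) (nd (nd (lf (nat_lit 67317)) (lf (nat_lit 62154))) (lf (nat_lit 61678)))))
 (nd (nd (nd (nd (lf (nat_lit 73728)) (lf (nat_lit 66465))) (lf (nat_lit 71412))) (nd (nd (lf (nat_lit 72779)) (lf (nat_lit 64088))) (lf (nat_lit 69127))))
 (nd (nd (nd (lf (nat_lit 57960)) (lf (nat_lit 65870))) (lf (nat_lit 60715))) (nd (nd (lf (nat_lit 58842)) (lf (nat_lit 67884))) (lf (nat_lit 63270)))))))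
 (nd (nd (nd (nd (nd (nd (lf (nat_lit 66557)) (lf (nat_lit 62291))) (nd (lf (nat_lit 59589)) (lf (nat_lit 66931)))) (nd (nd (lf (nat_lit 60506)) (lf (nat_lit 64708))) (lf (nat_lit 60368))))
 (nd (nd (nd (lf (nat_lit 69187)) (lf (nat_lit 67590))) (lf (nat_lit 71272))) (nd (nd (lf (nat_lit 71272)) (lf (nat_lit 65188))) (lf (nat_lit 69847)))))
 (nd (nd (nd (nd (lf (nat_lit 49500)) (lf (nat_lit 69098))) (lf (nat_lit 64098))) (nd (nd (lf (nat_lit 59637)) (lf (nat_lit 69536))) (lf (nat_lit 67251))))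
 (nd (nd (nd (lf (nat_lit 74694)) (lf (nat_lit 61582))) (lf (nat_lit 65246))) (nd (nd (lf (nat_lit 69008)) (lf (nat_lit 61811))) (lf (nat_lit 62724))))))
 (nd (nd (nd (nd (nd (lf (nat_lit 81178)) (lf (nat_lit 65216))) (lf (nat_lit 71085))) (nd (nd (lf (nat_lit 73923)) (lf (nat_lit 63066))) (lf (nat_lit 68074))))
 (nd (nd (nd (lf (nat_lit 55386)) (lf (nat_lit 67051))) (lf (nat_lit 61478))) (nd (nd (lf (nat_lit 58560)) (lf (nat_lit 68680))) (lf (nat_lit 64482)))))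
 (nd (nd (nd (nd (lf (nat_lit 72816)) (lf (nat_lit 61257))) (lf (nat_lit 62109))) (nd (nd (lf (nat_lit 65276)) (lf (nat_lit 62781))) (lf (nat_lit 60891))))
 (nd (nd (nd (lf (nat_lit 63100)) (lf (nat_lit 69164))) (lf (nat_lit 69790))) (nd (nd (lf (nat_lit 67660)) (lf (nat_lit 67277))) (lf (nat_lit 70174))))))))
 (nd (nd (nd (nd (nd (nd (nd (lf (nat_lit 103570)) (lf (nat_lit 61046))) (nd (lf (nat_lit 64346)) (lf (nat_lit 63354)))) (nd (nd (lf (nat_lit 69068)) (lf (nat_lit 61695))) (lf (nat_lit 61848))))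
 (nd (nd (nd (lf (nat_lit 57491)) (lf (nat_lit 69860))) (lf (nat_lit 68200))) (nd (nd (lf (nat_lit 64737)) (lf (nat_lit 68638))) (lf (nat_lit 69825)))))
 (nd (nd (nd (nd (lf (nat_lit 54253)) (lf (nat_lit 65221))) (lf (nat_lit 59764))) (nd (nd (lf (nat_lit 57668)) (lf (nat_lit 67510))) (lf (nat_lit 62433))))
 (nd (nd (nd (lf (nat_lit 74395)) (lf (nat_lit 64608))) (lf (nat_lit 70026))) (nd (nd (lf (nat_lit 72434)) (lf (nat_lit 62766))) (lf (nat_lit 67220))))))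
 (nd (nd (nd (nd (nd (lf (nat_lit 62269)) (lf (nat_lit 69163))) (lf (nat_lit 70961))) (nd (nd (lf (nat_lit 69317)) (lf (nat_lit 66910))) (lf (nat_lit 70721))))
 (nd (nd (nd (lf (nat_lit 63696)) (lf (nat_lit 62992))) (lf (nat_lit 60032))) (nd (nd (lf (nat_lit 60652)) (lf (nat_lit 65332))) (lf (nat_lit 61001)))))
 (nd (nd (nd (nd (lf (nat_lit 79828)) (lf (nat_lit 62419))) (lf (nat_lit 67747))) (nd (nd (lf (nat_lit 71923)) (lf (nat_lit 61643))) (lf (nat_lit 64525))))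
 (nd (nd (nd (lf (nat_lit 56352)) (lf (nat_lit 69212))) (lf (nat_lit 65057))) (nd (nd (lf (nat_lit 61373)) (lf (nat_lit 69319))) (lf (nat_lit 67757)))))))
 (nd (nd (nd (nd (nd (nd (lf (nat_lit 41964)) (lf (nat_lit 66498))) (nd (lf (nat_lit 60330)) (lf (nat_lit 69210)))) (nd (nd (lf (nat_lit 56748)) (lf (nat_lit 68462))) (lf (nat_lit 63630))))
 (nd (nd (nd (lf (nat_lit 76995)) (lf (nat_lit 63453))) (lf (nat_lit 69066))) (nd (nd (lf (nat_lit 72457)) (lf (nat_lit 62076))) (lf (nat_lit 65923)))))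
 (nd (nd (nd (nd (lf (nat_lit 59261)) (lf (nat_lit 69683))) (lf (nat_lit 69688))) (nd (nd (lf (nat_lit 66920)) (lf (nat_lit 67883))) (lf (nat_lit 70454))))
 (nd (nd (nd (lf (nat_lit 66717)) (lf (nat_lit 62198))) (lf (nat_lit 60783))) (nd (nd (lf (nat_lit 62475)) (lf (nat_lit 64277))) (lf (nat_lit 60839))))))
 (nd (nd (nd (nd (nd (lf (nat_lit 83968)) (lf (nat_lit 61592))) (lf (nat_lit 66141))) (nd (nd (lf (nat_lit 70798)) (lf (nat_lit 61509))) (lf (nat_lit 63131))))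
 (nd (nd (nd (lf (nat_lit 56569)) (lf (nat_lit 69695))) (lf (nat_lit 66616))) (nd (nd (lf (nat_lit 62861)) (lf (nat_lit 69127))) (lf (nat_lit 68898)))))
 (nd (nd (nd (nd (lf (nat_lit 59805)) (lf (nat_lit 64023))) (lf (nat_lit 59674))) (nd (nd (lf (nat_lit 59008)) (lf (nat_lit 66438))) (lf (nat_lit 61540))))
 (nd (nd (nd (lf (nat_lit 71834)) (lf (nat_lit 65791))) (lf (nat_lit 70583))) (nd (nd (lf (nat_lit 71909)) (lf (nat_lit 63649))) (lf (nat_lit 68325)))))))))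
 (nd (nd (nd (nd (nd (nd (nd (nd (lf (nat_lit 119116)) (lf (nat_lit 62063))) (nd (lf (nat_lit 67547)) (lf (nat_lit 62149)))) (nd (nd (lf (nat_lit 72685)) (lf (nat_lit 61449))) (lf (nat_lit 64120))))
 (nd (nd (nd (lf (nat_lit 53691)) (lf (nat_lit 69495))) (lf (nat_lit 65405))) (nd (nd (lf (nat_lit 61266)) (lf (nat_lit 69418))) (lf (nat_lit 68159)))))
 (nd (nd (nd (nd (lf (nat_lit 61681)) (lf (nat_lit 63122))) (lf (nat_lit 59498))) (nd (nd (lf (nat_lit 59575)) (lf (nat_lit 65591))) (lf (nat_lit 60865))))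
 (nd (nd (nd (lf (nat_lit 70769)) (lf (nat_lit 66698))) (lf (nat_lit 71040))) (nd (nd (lf (nat_lit 71745)) (lf (nat_lit 64378))) (lf (nat_lit 69149))))))
 (nd (nd (nd (nd (nd (lf (nat_lit 51278)) (lf (nat_lit 70027))) (lf (nat_lit 68795))) (nd (nd (lf (nat_lit 65174)) (lf (nat_lit 68581))) (lf (nat_lit 70241))))
 (nd (nd (nd (lf (nat_lit 69317)) (lf (nat_lit 61648))) (lf (nat_lit 61325))) (nd (nd (lf (nat_lit 63750)) (lf (nat_lit 63495))) (lf (nat_lit 60754)))))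
 (nd (nd (nd (nd (lf (nat_lit 78414)) (lf (nat_lit 64285))) (lf (nat_lit 70136))) (nd (nd (lf (nat_lit 73299)) (lf (nat_lit 62491))) (lf (nat_lit 67000))))
 (nd (nd (nd (lf (nat_lit 55979)) (lf (nat_lit 67824))) (lf (nat_lit 62523))) (nd (nd (lf (nat_lit 59356)) (lf (nat_lit 69031))) (lf (nat_lit 65516)))))))
 (nd (nd (nd (nd (nd (nd (lf (nat_lit 51458)) (lf (nat_lit 64240))) (nd (lf (nat_lit 59184)) (lf (nat_lit 68425)))) (nd (nd (lf (nat_lit 57648)) (lf (nat_lit 66734))) (lf (nat_lit 61510))))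
 (nd (nd (nd (lf (nat_lit 74204)) (lf (nat_lit 65516))) (lf (nat_lit 70811))) (nd (nd (lf (nat_lit 72751)) (lf (nat_lit 63364))) (lf (nat_lit 68208)))))
 (nd (nd (nd (nd (lf (nat_lit 52952)) (lf (nat_lit 69929))) (lf (nat_lit 67092))) (nd (nd (lf (nat_lit 62988)) (lf (nat_lit 69150))) (lf (nat_lit 69320))))
 (nd (nd (nd (lf (nat_lit 71385)) (lf (nat_lit 61382))) (lf (nat_lit 62656))) (nd (nd (lf (nat_lit 65754)) (lf (nat_lit 62698))) (lf (nat_lit 61255))))))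
 (nd (nd (nd (nd (nd (lf (nat_lit 85009)) (lf (nat_lit 63103))) (lf (nat_lit 69033))) (nd (nd (lf (nat_lit 73301)) (lf (nat_lit 61833))) (lf (nat_lit 65605))))
 (nd (nd (nd (lf (nat_lit 54652)) (lf (nat_lit 68771))) (lf (nat_lit 63848))) (nd (nd (lf (nat_lit 60048)) (lf (nat_lit 69373))) (lf (nat_lit 66856)))))
 (nd (nd (nd (nd (lf (nat_lit 66294)) (lf (nat_lit 62239))) (lf (nat_lit 60239))) (nd (nd (lf (nat_lit 61650)) (lf (nat_lit 64483))) (lf (nat_lit 60614))))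
 (nd (nd (nd (lf (nat_lit 67777)) (lf (nat_lit 67745))) (lf (nat_lit 70836))) (nd (nd (lf (nat_lit 70387)) (lf (nat_lit 65451))) (lf (nat_lit 69765))))))))
 (nd (nd (nd (nd (nd (nd (nd (lf (nat_lit 84958)) (lf (nat_lit 61131))) (nd (lf (nat_lit 61460)) (lf (nat_lit 65090)))) (nd (nd (lf (nat_lit 64646)) (lf (nat_lit 62878))) (lf (nat_lit 60488))))
 (nd (nd (nd (lf (nat_lit 63126)) (lf (nat_lit 69168))) (lf (nat_lit 70327))) (nd (nd (lf (nat_lit 68367)) (lf (nat_lit 67103))) (lf (nat_lit 70436)))))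
 (nd (nd (nd (nd (lf (nat_lit 49902)) (lf (nat_lit 67390))) (lf (nat_lit 61436))) (nd (nd (lf (nat_lit 57699)) (lf (nat_lit 68941))) (lf (nat_lit 64752))))
 (nd (nd (nd (lf (nat_lit 75803)) (lf (nat_lit 62752))) (lf (nat_lit 67921))) (nd (nd (lf (nat_lit 71436)) (lf (nat_lit 61835))) (lf (nat_lit 64888))))))
 (nd (nd (nd (nd (nd (lf (nat_lit 73047)) (lf (nat_lit 67416))) (lf (nat_lit 71789))) (nd (nd (lf (nat_lit 72486)) (lf (nat_lit 64908))) (lf (nat_lit 69932))))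
 (nd (nd (nd (lf (nat_lit 58651)) (lf (nat_lit 64953))) (lf (nat_lit 60091))) (nd (nd (lf (nat_lit 58773)) (lf (nat_lit 67213))) (lf (nat_lit 62356)))))
 (nd (nd (nd (nd (lf (nat_lit 77754)) (lf (nat_lit 61321))) (lf (nat_lit 64833))) (nd (nd (lf (nat_lit 69006)) (lf (nat_lit 61749))) (lf (nat_lit 62309))))
 (nd (nd (nd (lf (nat_lit 58948)) (lf (nat_lit 69697))) (lf (nat_lit 67694))) (nd (nd (lf (nat_lit 64389)) (lf (nat_lit 68682))) (lf (nat_lit 69447)))))))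
 (nd (nd (nd (nd (nd (nd (lf (nat_lit 39165)) (lf (nat_lit 68513))) (nd (lf (nat_lit 62738)) (lf (nat_lit 69094)))) (nd (nd (lf (nat_lit 57998)) (lf (nat_lit 69468))) (lf (nat_lit 66205))))
 (nd (nd (nd (lf (nat_lit 76944)) (lf (nat_lit 61907))) (lf (nat_lit 66469))) (nd (nd (lf (nat_lit 70480)) (lf (nat_lit 61638))) (lf (nat_lit 63554)))))
 (nd (nd (nd (nd (lf (nat_lit 66802)) (lf (nat_lit 68425))) (lf (nat_lit 71252))) (nd (nd (lf (nat_lit 70470)) (lf (nat_lit 66045))) (lf (nat_lit 70382))))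
 (nd (nd (nd (lf (nat_lit 61848)) (lf (nat_lit 63828))) (lf (nat_lit 60082))) (nd (nd (lf (nat_lit 59969)) (lf (nat_lit 66159))) (lf (nat_lit 61572))))))
 (nd (nd (nd (nd (nd (lf (nat_lit 78629)) (lf (nat_lit 61050))) (lf (nat_lit 63123))) (nd (nd (lf (nat_lit 67046)) (lf (nat_lit 62170))) (lf (nat_lit 61256))))
 (nd (nd (nd (lf (nat_lit 60618)) (lf (nat_lit 69599))) (lf (nat_lit 69105))) (nd (nd (lf (nat_lit 66300)) (lf (nat_lit 68003))) (lf (nat_lit 70110)))))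
 (nd (nd (nd (nd (lf (nat_lit 54905)) (lf (nat_lit 66171))) (lf (nat_lit 60543))) (nd (nd (lf (nat_lit 57984)) (lf (nat_lit 68167))) (lf (nat_lit 63439))))
 (nd (nd (nd (lf (nat_lit 74297)) (lf (nat_lit 63781))) (lf (nat_lit 69098))) (nd (nd (lf (nat_lit 71866)) (lf (nat_lit 62314))) (lf (nat_lit 66208))))))))))))
 (nd (nd (nd (nd (nd (nd (nd (nd (nd (nd (nd (lf (nat_lit 131008)) (lf (nat_lit 65344))) (nd (lf (nat_lit 71438)) (lf (nat_lit 62006)))) (nd (nd (lf (nat_lit 74676)) (lf (nat_lit 63115))) (lf (nat_lit 68292))))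
 (nd (nd (nd (lf (nat_lit 53727)) (lf (nat_lit 66963))) (lf (nat_lit 61204))) (nd (nd (lf (nat_lit 58079)) (lf (nat_lit 68667))) (lf (nat_lit 64311)))))
 (nd (nd (nd (nd (lf (nat_lit 75807)) (lf (nat_lit 61132))) (lf (nat_lit 62111))) (nd (nd (lf (nat_lit 65502)) (lf (nat_lit 62646))) (lf (nat_lit 60808))))
 (nd (nd (nd (lf (nat_lit 62488)) (lf (nat_lit 69298))) (lf (nat_lit 69837))) (nd (nd (lf (nat_lit 67580)) (lf (nat_lit 67407))) (lf (nat_lit 70282))))))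
 (nd (nd (nd (nd (nd (lf (nat_lit 39827)) (lf (nat_lit 69100))) (lf (nat_lit 63852))) (nd (nd (lf (nat_lit 58968)) (lf (nat_lit 69603))) (lf (nat_lit 67159))))
 (nd (nd (nd (lf (nat_lit 76188)) (lf (nat_lit 61543))) (lf (nat_lit 65403))) (nd (nd (lf (nat_lit 69395)) (lf (nat_lit 61721))) (lf (nat_lit 62764)))))
 (nd (nd (nd (nd (lf (nat_lit 69568)) (lf (nat_lit 67749))) (lf (nat_lit 71486))) (nd (nd (lf (nat_lit 71520)) (lf (nat_lit 65299))) (lf (nat_lit 70039))))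
 (nd (nd (nd (lf (nat_lit 60217)) (lf (nat_lit 64571))) (lf (nat_lit 60164))) (nd (nd (lf (nat_lit 59362)) (lf (nat_lit 66849))) (lf (nat_lit 62114)))))))
 (nd (nd (nd (nd (nd (nd (lf (nat_lit 77856)) (lf (nat_lit 61450))) (nd (lf (nat_lit 60608)) (lf (nat_lit 65793)))) (nd (nd (lf (nat_lit 63002)) (lf (nat_lit 63510))) (lf (nat_lit 60290))))
 (nd (nd (nd (lf (nat_lit 65431)) (lf (nat_lit 68663))) (lf (nat_lit 70839))) (nd (nd (lf (nat_lit 69585)) (lf (nat_lit 66405))) (lf (nat_lit 70354)))))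
 (nd (nd (nd (nd (lf (nat_lit 49272)) (lf (nat_lit 68111))) (lf (nat_lit 62350))) (nd (nd (lf (nat_lit 58219)) (lf (nat_lit 69275))) (lf (nat_lit 65701))))
 (nd (nd (nd (lf (nat_lit 75678)) (lf (nat_lit 62212))) (lf (nat_lit 66951))) (nd (nd (lf (nat_lit 70667)) (lf (nat_lit 61714))) (lf (nat_lit 64026))))))
 (nd (nd (nd (nd (nd (lf (nat_lit 76516)) (lf (nat_lit 66616))) (lf (nat_lit 71703))) (nd (nd (lf (nat_lit 73256)) (lf (nat_lit 64172))) (lf (nat_lit 69341))))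
 (nd (nd (nd (lf (nat_lit 57165)) (lf (nat_lit 65752))) (lf (nat_lit 60467))) (nd (nd (lf (nat_lit 58487)) (lf (nat_lit 67834))) (lf (nat_lit 63088)))))
 (nd (nd (nd (nd (lf (nat_lit 76181)) (lf (nat_lit 61169))) (lf (nat_lit 63750))) (nd (nd (lf (nat_lit 67656)) (lf (nat_lit 62037))) (lf (nat_lit 61660))))
 (nd (nd (nd (lf (nat_lit 60372)) (lf (nat_lit 69615))) (lf (nat_lit 68575))) (nd (nd (lf (nat_lit 65629)) (lf (nat_lit 68230))) (lf (nat_lit 69848))))))))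
 (nd (nd (nd (nd (nd (nd (nd (lf (nat_lit 113841)) (lf (nat_lit 61563))) (nd (lf (nat_lit 66360)) (lf (nat_lit 62516)))) (nd (nd (lf (nat_lit 71487)) (lf (nat_lit 61422))) (lf (nat_lit 63193))))
 (nd (nd (nd (lf (nat_lit 54825)) (lf (nat_lit 69756))) (lf (nat_lit 66490))) (nd (nd (lf (nat_lit 62491)) (lf (nat_lit 69231))) (lf (nat_lit 68886)))))
 (nd (nd (nd (nd (lf (nat_lit 58627)) (lf (nat_lit 63867))) (lf (nat_lit 59420))) (nd (nd (lf (nat_lit 58651)) (lf (nat_lit 66340))) (lf (nat_lit 61335))))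
 (nd (nd (nd (lf (nat_lit 72345)) (lf (nat_lit 65920))) (lf (nat_lit 70811))) (nd (nd (lf (nat_lit 72200)) (lf (nat_lit 63716))) (lf (nat_lit 68507))))))
 (nd (nd (nd (nd (nd (lf (nat_lit 55252)) (lf (nat_lit 69826))) (lf (nat_lit 69737))) (nd (nd (lf (nat_lit 66781)) (lf (nat_lit 68023))) (lf (nat_lit 70569))))
 (nd (nd (nd (lf (nat_lit 67229)) (lf (nat_lit 62054))) (lf (nat_lit 60695))) (nd (nd (lf (nat_lit 62488)) (lf (nat_lit 64148))) (lf (nat_lit 60706)))))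
 (nd (nd (nd (nd (lf (nat_lit 79358)) (lf (nat_lit 63521))) (lf (nat_lit 69344))) (nd (nd (lf (nat_lit 72996)) (lf (nat_lit 62069))) (lf (nat_lit 66081))))
 (nd (nd (nd (lf (nat_lit 55837)) (lf (nat_lit 68433))) (lf (nat_lit 63419))) (nd (nd (lf (nat_lit 59956)) (lf (nat_lit 69248))) (lf (nat_lit 66388)))))))
 (nd (nd (nd (nd (nd (nd (lf (nat_lit 47153)) (lf (nat_lit 65080))) (nd (lf (nat_lit 59439)) (lf (nat_lit 68818)))) (nd (nd (lf (nat_lit 57059)) (lf (nat_lit 67443))) (lf (nat_lit 62215))))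
 (nd (nd (nd (lf (nat_lit 75559)) (lf (nat_lit 64712))) (lf (nat_lit 70290))) (nd (nd (lf (nat_lit 72853)) (lf (nat_lit 62798))) (lf (nat_lit 67399)))))
 (nd (nd (nd (nd (lf (nat_lit 55060)) (lf (nat_lit 69965))) (lf (nat_lit 68150))) (nd (nd (lf (nat_lit 64445)) (lf (nat_lit 68766))) (lf (nat_lit 69875))))
 (nd (nd (nd (lf (nat_lit 69735)) (lf (nat_lit 61575))) (lf (nat_lit 61840))) (nd (nd (lf (nat_lit 64482)) (lf (nat_lit 63227))) (lf (nat_lit 60964))))))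
 (nd (nd (nd (nd (nd (lf (nat_lit 85183)) (lf (nat_lit 62441))) (lf (nat_lit 68011))) (nd (nd (lf (nat_lit 72558)) (lf (nat_lit 61595))) (lf (nat_lit 64644))))
 (nd (nd (nd (lf (nat_lit 55074)) (lf (nat_lit 69228))) (lf (nat_lit 64876))) (nd (nd (lf (nat_lit 60980)) (lf (nat_lit 69393))) (lf (nat_lit 67691)))))
 (nd (nd (nd (nd (lf (nat_lit 63768)) (lf (nat_lit 62834))) (lf (nat_lit 59859))) (nd (nd (lf (nat_lit 60502)) (lf (nat_lit 65212))) (lf (nat_lit 60827))))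
 (nd (nd (nd (lf (nat_lit 69429)) (lf (nat_lit 67051))) (lf (nat_lit 70897))) (nd (nd (lf (nat_lit 71126)) (lf (nat_lit 64747))) (lf (nat_lit 69332)))))))))
 (nd (nd (nd (nd (nd (nd (nd (nd (lf (nat_lit 125990)) (lf (nat_lit 63159))) (nd (lf (nat_lit 69357)) (lf (nat_lit 61804)))) (nd (nd (lf (nat_lit 74120)) (lf (nat_lit 61811))) (lf (nat_lit 65764))))
 (nd (nd (nd (lf (nat_lit 52715)) (lf (nat_lit 68756))) (lf (nat_lit 63620))) (nd (nd (lf (nat_lit 59566)) (lf (nat_lit 69425))) (lf (nat_lit 66753)))))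
 (nd (nd (nd (nd (lf (nat_lit 67165)) (lf (nat_lit 62078))) (lf (nat_lit 60095))) (nd (nd (lf (nat_lit 61570)) (lf (nat_lit 64350))) (lf (nat_lit 60450))))
 (nd (nd (nd (lf (nat_lit 67736)) (lf (nat_lit 67895))) (lf (nat_lit 70994))) (nd (nd (lf (nat_lit 70509)) (lf (nat_lit 65562))) (lf (nat_lit 69931))))))
 (nd (nd (nd (nd (nd (lf (nat_lit 45509)) (lf (nat_lit 70012))) (lf (nat_lit 66982))) (nd (nd (lf (nat_lit 62533)) (lf (nat_lit 69269))) (lf (nat_lit 69333))))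
 (nd (nd (nd (lf (nat_lit 72507)) (lf (nat_lit 61278))) (lf (nat_lit 62694))) (nd (nd (lf (nat_lit 65980)) (lf (nat_lit 62574))) (lf (nat_lit 61202)))))
 (nd (nd (nd (nd (lf (nat_lit 75819)) (lf (nat_lit 65645))) (lf (nat_lit 71092))) (nd (nd (lf (nat_lit 73200)) (lf (nat_lit 63423))) (lf (nat_lit 68407))))
 (nd (nd (nd (lf (nat_lit 56958)) (lf (nat_lit 66640))) (lf (nat_lit 61274))) (nd (nd (lf (nat_lit 58841)) (lf (nat_lit 68401))) (lf (nat_lit 64076)))))))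
 (nd (nd (nd (nd (nd (nd (lf (nat_lit 60362)) (lf (nat_lit 62952))) (nd (lf (nat_lit 59252)) (lf (nat_lit 67554)))) (nd (nd (lf (nat_lit 59238)) (lf (nat_lit 65472))) (lf (nat_lit 60657))))
 (nd (nd (nd (lf (nat_lit 71264)) (lf (nat_lit 66845))) (lf (nat_lit 71265))) (nd (nd (lf (nat_lit 72021)) (lf (nat_lit 64468))) (lf (nat_lit 69339)))))
 (nd (nd (nd (nd (lf (nat_lit 50379)) (lf (nat_lit 69528))) (lf (nat_lit 65221))) (nd (nd (lf (nat_lit 60767)) (lf (nat_lit 69506))) (lf (nat_lit 68108))))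
 (nd (nd (nd (lf (nat_lit 73675)) (lf (nat_lit 61385))) (lf (nat_lit 64228))) (nd (nd (lf (nat_lit 67844)) (lf (nat_lit 62044))) (lf (nat_lit 62067))))))
 (nd (nd (nd (nd (nd (lf (nat_lit 83175)) (lf (nat_lit 64384))) (lf (nat_lit 70452))) (nd (nd (lf (nat_lit 73933)) (lf (nat_lit 62512))) (lf (nat_lit 67189))))
 (nd (nd (nd (lf (nat_lit 54793)) (lf (nat_lit 67766))) (lf (nat_lit 62279))) (nd (nd (lf (nat_lit 58930)) (lf (nat_lit 69044))) (lf (nat_lit 65374)))))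
 (nd (nd (nd (nd (lf (nat_lit 70472)) (lf (nat_lit 61510))) (lf (nat_lit 61277))) (nd (nd (lf (nat_lit 63854)) (lf (nat_lit 63360))) (lf (nat_lit 60643))))
 (nd (nd (nd (lf (nat_lit 64855)) (lf (nat_lit 68721))) (lf (nat_lit 70325))) (nd (nd (lf (nat_lit 68787)) (lf (nat_lit 66619))) (lf (nat_lit 70155))))))))
 (nd (nd (nd (nd (nd (nd (nd (lf (nat_lit 96777)) (lf (nat_lit 60944))) (nd (lf (nat_lit 63185)) (lf (nat_lit 63964)))) (nd (nd (lf (nat_lit 67447)) (lf (nat_lit 62040))) (lf (nat_lit 61208))))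
 (nd (nd (nd (lf (nat_lit 59459)) (lf (nat_lit 69721))) (lf (nat_lit 69109))) (nd (nd (lf (nat_lit 66129)) (lf (nat_lit 68134))) (lf (nat_lit 70192)))))
 (nd (nd (nd (nd (lf (nat_lit 52193)) (lf (nat_lit 66056))) (lf (nat_lit 60242))) (nd (nd (lf (nat_lit 57443)) (lf (nat_lit 68126))) (lf (nat_lit 63243))))
 (nd (nd (nd (lf (nat_lit 75213)) (lf (nat_lit 63858))) (lf (nat_lit 69341))) (nd (nd (lf (nat_lit 72252)) (lf (nat_lit 62320))) (lf (nat_lit 66363))))))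
 (nd (nd (nd (nd (nd (lf (nat_lit 66478)) (lf (nat_lit 68592))) (lf (nat_lit 71447))) (nd (nd (lf (nat_lit 70668)) (lf (nat_lit 66172))) (lf (nat_lit 70570))))
 (nd (nd (nd (lf (nat_lit 61665)) (lf (nat_lit 63679))) (lf (nat_lit 59889))) (nd (nd (lf (nat_lit 59773)) (lf (nat_lit 66058))) (lf (nat_lit 61392)))))
 (nd (nd (nd (nd (lf (nat_lit 79443)) (lf (nat_lit 61898))) (lf (nat_lit 66678))) (nd (nd (lf (nat_lit 70977)) (lf (nat_lit 61567))) (lf (nat_lit 63632))))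
 (nd (nd (nd (lf (nat_lit 57090)) (lf (nat_lit 69512))) (lf (nat_lit 66069))) (nd (nd (lf (nat_lit 62423)) (lf (nat_lit 69185))) (lf (nat_lit 68482)))))))
 (nd (nd (nd (nd (nd (nd (lf (nat_lit 40115)) (lf (nat_lit 67312))) (nd (lf (nat_lit 61112)) (lf (nat_lit 69275)))) (nd (nd (lf (nat_lit 56972)) (lf (nat_lit 68941))) (lf (nat_lit 64576))))
 (nd (nd (nd (lf (nat_lit 77320)) (lf (nat_lit 62789))) (lf (nat_lit 68160))) (nd (nd (lf (nat_lit 71894)) (lf (nat_lit 61802))) (lf (nat_lit 65012)))))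
 (nd (nd (nd (nd (lf (nat_lit 62043)) (lf (nat_lit 69318))) (lf (nat_lit 70422))) (nd (nd (lf (nat_lit 68347)) (lf (nat_lit 67238))) (lf (nat_lit 70574))))
 (nd (nd (nd (lf (nat_lit 64849)) (lf (nat_lit 62732))) (lf (nat_lit 60367))) (nd (nd (lf (nat_lit 61406)) (lf (nat_lit 64972))) (lf (nat_lit 60983))))))
 (nd (nd (nd (nd (nd (lf (nat_lit 82406)) (lf (nat_lit 61262))) (lf (nat_lit 64983))) (nd (nd (lf (nat_lit 69492)) (lf (nat_lit 61645))) (lf (nat_lit 62329))))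
 (nd (nd (nd (lf (nat_lit 57884)) (lf (nat_lit 69783))) (lf (nat_lit 67618))) (nd (nd (lf (nat_lit 64122)) (lf (nat_lit 68798))) (lf (nat_lit 69471)))))
 (nd (nd (nd (nd (lf (nat_lit 57708)) (lf (nat_lit 64814))) (lf (nat_lit 59836))) (nd (nd (lf (nat_lit 58412)) (lf (nat_lit 67138))) (lf (nat_lit 62159))))
 (nd (nd (nd (lf (nat_lit 72986)) (lf (nat_lit 65016))) (lf (nat_lit 70157))) (nd (nd (lf (nat_lit 72084)) (lf (nat_lit 63073))) (lf (nat_lit 67585))))))))))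
 (nd (nd (nd (nd (nd (nd (nd (nd (nd (lf (nat_lit 129482)) (lf (nat_lit 64209))) (nd (lf (nat_lit 70551)) (lf (nat_lit 61788)))) (nd (nd (lf (nat_lit 74681)) (lf (nat_lit 62364))) (lf (nat_lit 67074))))
 (nd (nd (nd (lf (nat_lit 52822)) (lf (nat_lit 67935))) (lf (nat_lit 62314))) (nd (nd (lf (nat_lit 58609)) (lf (nat_lit 69159))) (lf (nat_lit 65533)))))
 (nd (nd (nd (nd (lf (nat_lit 71610)) (lf (nat_lit 61480))) (lf (nat_lit 60959))) (nd (nd (lf (nat_lit 63466)) (lf (nat_lit 63433))) (lf (nat_lit 60471))))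
 (nd (nd (nd (lf (nat_lit 65112)) (lf (nat_lit 68694))) (lf (nat_lit 70573))) (nd (nd (lf (nat_lit 69160)) (lf (nat_lit 66514))) (lf (nat_lit 70253))))))
 (nd (nd (nd (nd (nd (lf (nat_lit 42019)) (lf (nat_lit 69685))) (lf (nat_lit 65416))) (nd (nd (lf (nat_lit 60603)) (lf (nat_lit 69561))) (lf (nat_lit 68334))))
 (nd (nd (nd (lf (nat_lit 74619)) (lf (nat_lit 61278))) (lf (nat_lit 63998))) (nd (nd (lf (nat_lit 67752)) (lf (nat_lit 62039))) (lf (nat_lit 61868)))))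
 (nd (nd (nd (nd (lf (nat_lit 72956)) (lf (nat_lit 66733))) (lf (nat_lit 71473))) (nd (nd (lf (nat_lit 72581)) (lf (nat_lit 64322))) (lf (nat_lit 69340))))
 (nd (nd (nd (lf (nat_lit 58357)) (lf (nat_lit 65609))) (lf (nat_lit 60566))) (nd (nd (lf (nat_lit 58895)) (lf (nat_lit 67693))) (lf (nat_lit 63018)))))))
 (nd (nd (nd (nd (nd (nd (lf (nat_lit 68735)) (lf (nat_lit 62095))) (nd (lf (nat_lit 59749)) (lf (nat_lit 66711)))) (nd (nd (lf (nat_lit 60972)) (lf (nat_lit 64458))) (lf (nat_lit 60311))))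
 (nd (nd (nd (lf (nat_lit 68458)) (lf (nat_lit 67824))) (lf (nat_lit 71230))) (nd (nd (lf (nat_lit 70976)) (lf (nat_lit 65433))) (lf (nat_lit 69984)))))
 (nd (nd (nd (nd (lf (nat_lit 49329)) (lf (nat_lit 68925))) (lf (nat_lit 63732))) (nd (nd (lf (nat_lit 59303)) (lf (nat_lit 69514))) (lf (nat_lit 66950))))
 (nd (nd (nd (lf (nat_lit 74965)) (lf (nat_lit 61678))) (lf (nat_lit 65589))) (nd (nd (lf (nat_lit 69371)) (lf (nat_lit 61762))) (lf (nat_lit 62966))))))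
 (nd (nd (nd (nd (nd (lf (nat_lit 80373)) (lf (nat_lit 65498))) (lf (nat_lit 71254))) (nd (nd (lf (nat_lit 73854)) (lf (nat_lit 63271))) (lf (nat_lit 68351))))
 (nd (nd (nd (lf (nat_lit 55666)) (lf (nat_lit 66799))) (lf (nat_lit 61241))) (nd (nd (lf (nat_lit 58490)) (lf (nat_lit 68533))) (lf (nat_lit 64190)))))
 (nd (nd (nd (nd (lf (nat_lit 73551)) (lf (nat_lit 61205))) (lf (nat_lit 62415))) (nd (nd (lf (nat_lit 65756)) (lf (nat_lit 62608))) (lf (nat_lit 61010))))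
 (nd (nd (nd (lf (nat_lit 62529)) (lf (nat_lit 69284))) (lf (nat_lit 69577))) (nd (nd (lf (nat_lit 67265)) (lf (nat_lit 67484))) (lf (nat_lit 70145))))))))
 (nd (nd (nd (nd (nd (nd (nd (lf (nat_lit 105745)) (lf (nat_lit 61116))) (nd (lf (nat_lit 64745)) (lf (nat_lit 63167)))) (nd (nd (lf (nat_lit 69585)) (lf (nat_lit 61609))) (lf (nat_lit 62092))))
 (nd (nd (nd (lf (nat_lit 56890)) (lf (nat_lit 69873))) (lf (nat_lit 67874))) (nd (nd (lf (nat_lit 64275)) (lf (nat_lit 68783))) (lf (nat_lit 69668)))))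
 (nd (nd (nd (nd (lf (nat_lit 55041)) (lf (nat_lit 64944))) (lf (nat_lit 59648))) (nd (nd (lf (nat_lit 57805)) (lf (nat_lit 67288))) (lf (nat_lit 62186))))
 (nd (nd (nd (lf (nat_lit 74051)) (lf (nat_lit 64867))) (lf (nat_lit 70221))) (nd (nd (lf (nat_lit 72441)) (lf (nat_lit 62937))) (lf (nat_lit 67495))))))
 (nd (nd (nd (nd (nd (lf (nat_lit 60852)) (lf (nat_lit 69326))) (lf (nat_lit 70756))) (nd (nd (lf (nat_lit 68833)) (lf (nat_lit 67147))) (lf (nat_lit 70731))))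
 (nd (nd (nd (lf (nat_lit 64395)) (lf (nat_lit 62781))) (lf (nat_lit 60123))) (nd (nd (lf (nat_lit 60986)) (lf (nat_lit 65090))) (lf (nat_lit 60906)))))
 (nd (nd (nd (nd (lf (nat_lit 79846)) (lf (nat_lit 62618))) (lf (nat_lit 68088))) (nd (nd (lf (nat_lit 72190)) (lf (nat_lit 61699))) (lf (nat_lit 64833))))
 (nd (nd (nd (lf (nat_lit 56175)) (lf (nat_lit 69083))) (lf (nat_lit 64721))) (nd (nd (lf (nat_lit 61053)) (lf (nat_lit 69335))) (lf (nat_lit 67497)))))))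
 (nd (nd (nd (nd (nd (nd (lf (nat_lit 42794)) (lf (nat_lit 66218))) (nd (lf (nat_lit 60109)) (lf (nat_lit 69159)))) (nd (nd (lf (nat_lit 56742)) (lf (nat_lit 68278))) (lf (nat_lit 63328))))
 (nd (nd (nd (lf (nat_lit 76795)) (lf (nat_lit 63692))) (lf (nat_lit 69342))) (nd (nd (lf (nat_lit 72592)) (lf (nat_lit 62196))) (lf (nat_lit 66226)))))
 (nd (nd (nd (nd (lf (nat_lit 58367)) (lf (nat_lit 69773))) (lf (nat_lit 69408))) (nd (nd (lf (nat_lit 66430)) (lf (nat_lit 68080))) (lf (nat_lit 70375))))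
 (nd (nd (nd (lf (nat_lit 67337)) (lf (nat_lit 62045))) (lf (nat_lit 60960))) (nd (nd (lf (nat_lit 62857)) (lf (nat_lit 64054))) (lf (nat_lit 60827))))))
 (nd (nd (nd (nd (nd (lf (nat_lit 84356)) (lf (nat_lit 61733))) (lf (nat_lit 66525))) (nd (nd (lf (nat_lit 71196)) (lf (nat_lit 61494))) (lf (nat_lit 63419))))
 (nd (nd (nd (lf (nat_lit 56196)) (lf (nat_lit 69633))) (lf (nat_lit 66272))) (nd (nd (lf (nat_lit 62459)) (lf (nat_lit 69209))) (lf (nat_lit 68679)))))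
 (nd (nd (nd (nd (lf (nat_lit 60559)) (lf (nat_lit 63770))) (lf (nat_lit 59665))) (nd (nd (lf (nat_lit 59259)) (lf (nat_lit 66196))) (lf (nat_lit 61364))))
 (nd (nd (nd (lf (nat_lit 71397)) (lf (nat_lit 66049))) (lf (nat_lit 70686))) (nd (nd (lf (nat_lit 71801)) (lf (nat_lit 63857))) (lf (nat_lit 68551)))))))))
 (nd (nd (nd (nd (nd (nd (nd (nd (lf (nat_lit 120694)) (lf (nat_lit 62258))) (nd (lf (nat_lit 67930)) (lf (nat_lit 62052)))) (nd (nd (lf (nat_lit 73031)) (lf (nat_lit 61491))) (lf (nat_lit 64443))))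
 (nd (nd (nd (lf (nat_lit 53400)) (lf (nat_lit 69376))) (lf (nat_lit 65042))) (nd (nd (lf (nat_lit 60888)) (lf (nat_lit 69450))) (lf (nat_lit 67894)))))
 (nd (nd (nd (nd (lf (nat_lit 62749)) (lf (nat_lit 62891))) (lf (nat_lit 59571))) (nd (nd (lf (nat_lit 59932)) (lf (nat_lit 65339))) (lf (nat_lit 60744))))
 (nd (nd (nd (lf (nat_lit 70197)) (lf (nat_lit 66950))) (lf (nat_lit 71074))) (nd (nd (lf (nat_lit 71543)) (lf (nat_lit 64610))) (lf (nat_lit 69336))))))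
 (nd (nd (nd (nd (nd (lf (nat_lit 50025)) (lf (nat_lit 70059))) (lf (nat_lit 68453))) (nd (nd (lf (nat_lit 64636)) (lf (nat_lit 68745))) (lf (nat_lit 70094))))
 (nd (nd (nd (lf (nat_lit 69991)) (lf (nat_lit 61542))) (lf (nat_lit 61569))) (nd (nd (lf (nat_lit 64188)) (lf (nat_lit 63292))) (lf (nat_lit 60807)))))
 (nd (nd (nd (nd (lf (nat_lit 77993)) (lf (nat_lit 64551))) (lf (nat_lit 70367))) (nd (nd (lf (nat_lit 73340)) (lf (nat_lit 62656))) (lf (nat_lit 67297))))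
 (nd (nd (nd (lf (nat_lit 56102)) (lf (nat_lit 67602))) (lf (nat_lit 62246))) (nd (nd (lf (nat_lit 59203)) (lf (nat_lit 68930))) (lf (nat_lit 65224)))))))
 (nd (nd (nd (nd (nd (nd (lf (nat_lit 53076)) (lf (nat_lit 63969))) (nd (lf (nat_lit 59147)) (lf (nat_lit 68271)))) (nd (nd (lf (nat_lit 57908)) (lf (nat_lit 66487))) (lf (nat_lit 61306))))
 (nd (nd (nd (lf (nat_lit 73679)) (lf (nat_lit 65785))) (lf (nat_lit 70945))) (nd (nd (lf (nat_lit 72660)) (lf (nat_lit 63571))) (lf (nat_lit 68459)))))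
 (nd (nd (nd (nd (lf (nat_lit 52336)) (lf (nat_lit 69882))) (lf (nat_lit 66725))) (nd (nd (lf (nat_lit 62518)) (lf (nat_lit 69251))) (lf (nat_lit 69103))))
 (nd (nd (nd (lf (nat_lit 71894)) (lf (nat_lit 61350))) (lf (nat_lit 62952))) (nd (nd (lf (nat_lit 66179)) (lf (nat_lit 62543))) (lf (nat_lit 61386))))))
 (nd (nd (nd (nd (nd (lf (nat_lit 84796)) (lf (nat_lit 63343))) (lf (nat_lit 69348))) (nd (nd (lf (nat_lit 73490)) (lf (nat_lit 61941))) (lf (nat_lit 65927))))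
 (nd (nd (nd (lf (nat_lit 54594)) (lf (nat_lit 68592))) (lf (nat_lit 63516))) (nd (nd (lf (nat_lit 59779)) (lf (nat_lit 69337))) (lf (nat_lit 66566)))))
 (nd (nd (nd (nd (lf (nat_lit 67142)) (lf (nat_lit 62065))) (lf (nat_lit 60408))) (nd (nd (lf (nat_lit 62066)) (lf (nat_lit 64247))) (lf (nat_lit 60581))))
 (nd (nd (nd (lf (nat_lit 67203)) (lf (nat_lit 67961))) (lf (nat_lit 70774))) (nd (nd (lf (nat_lit 70101)) (lf (nat_lit 65687))) (lf (nat_lit 69878))))))))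
 (nd (nd (nd (nd (nd (nd (nd (lf (nat_lit 87341)) (lf (nat_lit 61058))) (nd (lf (nat_lit 61778)) (lf (nat_lit 64858)))) (nd (nd (lf (nat_lit 65206)) (lf (nat_lit 62687))) (lf (nat_lit 60594))))
 (nd (nd (nd (lf (nat_lit 62367)) (lf (nat_lit 69309))) (lf (nat_lit 70118))) (nd (nd (lf (nat_lit 67936)) (lf (nat_lit 67324))) (lf (nat_lit 70425)))))
 (nd (nd (nd (nd (lf (nat_lit 50239)) (lf (nat_lit 67134))) (lf (nat_lit 61161))) (nd (nd (lf (nat_lit 57585)) (lf (nat_lit 68803))) (lf (nat_lit 64439))))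
 (nd (nd (nd (lf (nat_lit 75764)) (lf (nat_lit 62954))) (lf (nat_lit 68228))) (nd (nd (lf (nat_lit 71648)) (lf (nat_lit 61904))) (lf (nat_lit 65182))))))
 (nd (nd (nd (nd (nd (lf (nat_lit 71800)) (lf (nat_lit 67669))) (lf (nat_lit 71769))) (nd (nd (lf (nat_lit 72173)) (lf (nat_lit 65160))) (lf (nat_lit 70096))))
 (nd (nd (nd (lf (nat_lit 59206)) (lf (nat_lit 64690))) (lf (nat_lit 60007))) (nd (nd (lf (nat_lit 58923)) (lf (nat_lit 66992))) (lf (nat_lit 62135)))))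
 (nd (nd (nd (nd (lf (nat_lit 78190)) (lf (nat_lit 61404))) (lf (nat_lit 65201))) (nd (nd (lf (nat_lit 69433)) (lf (nat_lit 61682))) (lf (nat_lit 62552))))
 (nd (nd (nd (lf (nat_lit 58520)) (lf (nat_lit 69693))) (lf (nat_lit 67381))) (nd (nd (lf (nat_lit 63981)) (lf (nat_lit 68809))) (lf (nat_lit 69282)))))))
 (nd (nd (nd (nd (nd (nd (lf (nat_lit 39146)) (lf (nat_lit 68293))) (nd (lf (nat_lit 62387)) (lf (nat_lit 69159)))) (nd (nd (lf (nat_lit 57731)) (lf (nat_lit 69392))) (lf (nat_lit 65880))))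
 (nd (nd (nd (lf (nat_lit 77110)) (lf (nat_lit 62057))) (lf (nat_lit 66819))) (nd (nd (lf (nat_lit 70805)) (lf (nat_lit 61640))) (lf (nat_lit 63834)))))
 (nd (nd (nd (nd (lf (nat_lit 65855)) (lf (nat_lit 68629))) (lf (nat_lit 71129))) (nd (nd (lf (nat_lit 70079)) (lf (nat_lit 66291))) (lf (nat_lit 70459))))
 (nd (nd (nd (lf (nat_lit 62426)) (lf (nat_lit 63592))) (lf (nat_lit 60096))) (nd (nd (lf (nat_lit 60217)) (lf (nat_lit 65923))) (lf (nat_lit 61421))))))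
 (nd (nd (nd (nd (nd (lf (nat_lit 79487)) (lf (nat_lit 61058))) (lf (nat_lit 63481))) (nd (nd (lf (nat_lit 67554)) (lf (nat_lit 62037))) (lf (nat_lit 61440))))
 (nd (nd (nd (lf (nat_lit 60027)) (lf (nat_lit 69668))) (lf (nat_lit 68832))) (nd (nd (lf (nat_lit 65865)) (lf (nat_lit 68184))) (lf (nat_lit 70016)))))
 (nd (nd (nd (nd (lf (nat_lit 55386)) (lf (nat_lit 65901))) (lf (nat_lit 60360))) (nd (nd (lf (nat_lit 58011)) (lf (nat_lit 67979))) (lf (nat_lit 63163))))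
 (nd (nd (nd (lf (nat_lit 74100)) (lf (nat_lit 64018))) (lf (nat_lit 69341))) (nd (nd (lf (nat_lit 71960)) (lf (nat_lit 62443))) (lf (nat_lit 66493)))))))))))
 (nd (nd (nd (nd (nd (nd (nd (nd (nd (nd (lf (nat_lit 130497)) (lf (nat_lit 64770))) (nd (lf (nat_lit 71037)) (lf (nat_lit 61868)))) (nd (nd (lf (nat_lit 74751)) (lf (nat_lit 62717))) (lf (nat_lit 67699))))
 (nd (nd (nd (lf (nat_lit 53176)) (lf (nat_lit 67464))) (lf (nat_lit 61729))) (nd (nd (lf (nat_lit 58288)) (lf (nat_lit 68939))) (lf (nat_lit 64918)))))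
 (nd (nd (nd (nd (lf (nat_lit 73756)) (lf (nat_lit 61273))) (lf (nat_lit 61503))) (nd (nd (lf (nat_lit 64474)) (lf (nat_lit 63020))) (lf (nat_lit 60601))))
 (nd (nd (nd (lf (nat_lit 63790)) (lf (nat_lit 69023))) (lf (nat_lit 70242))) (nd (nd (lf (nat_lit 68393)) (lf (nat_lit 66971))) (lf (nat_lit 70305))))))
 (nd (nd (nd (nd (nd (lf (nat_lit 40746)) (lf (nat_lit 69423))) (lf (nat_lit 64627))) (nd (nd (lf (nat_lit 59742)) (lf (nat_lit 69614))) (lf (nat_lit 67764))))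
 (nd (nd (nd (lf (nat_lit 75478)) (lf (nat_lit 61378))) (lf (nat_lit 64693))) (nd (nd (lf (nat_lit 68597)) (lf (nat_lit 61852))) (lf (nat_lit 62291)))))
 (nd (nd (nd (nd (lf (nat_lit 71315)) (lf (nat_lit 67254))) (lf (nat_lit 71527))) (nd (nd (lf (nat_lit 72103)) (lf (nat_lit 64805))) (lf (nat_lit 69722))))
 (nd (nd (nd (lf (nat_lit 59236)) (lf (nat_lit 65087))) (lf (nat_lit 60325))) (nd (nd (lf (nat_lit 59078)) (lf (nat_lit 67285))) (lf (nat_lit 62543)))))))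
 (nd (nd (nd (nd (nd (nd (lf (nat_lit 73225)) (lf (nat_lit 61743))) (nd (lf (nat_lit 60136)) (lf (nat_lit 66258)))) (nd (nd (lf (nat_lit 61957)) (lf (nat_lit 63972))) (lf (nat_lit 60259))))
 (nd (nd (nd (lf (nat_lit 66961)) (lf (nat_lit 68265))) (lf (nat_lit 71078))) (nd (nd (lf (nat_lit 70319)) (lf (nat_lit 65922))) (lf (nat_lit 70205)))))
 (nd (nd (nd (nd (lf (nat_lit 49173)) (lf (nat_lit 68542))) (lf (nat_lit 63022))) (nd (nd (lf (nat_lit 58709)) (lf (nat_lit 69425))) (lf (nat_lit 66332))))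
 (nd (nd (nd (lf (nat_lit 75398)) (lf (nat_lit 61917))) (lf (nat_lit 66275))) (nd (nd (lf (nat_lit 70053)) (lf (nat_lit 61708))) (lf (nat_lit 63479))))))
 (nd (nd (nd (nd (nd (lf (nat_lit 78566)) (lf (nat_lit 66061))) (lf (nat_lit 71525))) (nd (nd (lf (nat_lit 73619)) (lf (nat_lit 63707))) (lf (nat_lit 68872))))
 (nd (nd (nd (lf (nat_lit 56342)) (lf (nat_lit 66281))) (lf (nat_lit 60817))) (nd (nd (lf (nat_lit 58433)) (lf (nat_lit 68204))) (lf (nat_lit 63625)))))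
 (nd (nd (nd (nd (lf (nat_lit 74933)) (lf (nat_lit 61153))) (lf (nat_lit 63063))) (nd (nd (lf (nat_lit 66714)) (lf (nat_lit 62297))) (lf (nat_lit 61302))))
 (nd (nd (nd (lf (nat_lit 61421)) (lf (nat_lit 69480))) (lf (nat_lit 69104))) (nd (nd (lf (nat_lit 66455)) (lf (nat_lit 67875))) (lf (nat_lit 70031))))))))
 (nd (nd (nd (nd (nd (nd (nd (lf (nat_lit 109926)) (lf (nat_lit 61306))) (nd (lf (nat_lit 65552)) (lf (nat_lit 62820)))) (nd (nd (lf (nat_lit 70574)) (lf (nat_lit 61484))) (lf (nat_lit 62619))))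
 (nd (nd (nd (lf (nat_lit 55785)) (lf (nat_lit 69848))) (lf (nat_lit 67195))) (nd (nd (lf (nat_lit 63367)) (lf (nat_lit 69034))) (lf (nat_lit 69307)))))
 (nd (nd (nd (nd (lf (nat_lit 56753)) (lf (nat_lit 64397))) (lf (nat_lit 59487))) (nd (nd (lf (nat_lit 58170)) (lf (nat_lit 66824))) (lf (nat_lit 61731))))
 (nd (nd (nd (lf (nat_lit 73260)) (lf (nat_lit 65392))) (lf (nat_lit 70555))) (nd (nd (lf (nat_lit 72374)) (lf (nat_lit 63309))) (lf (nat_lit 68020))))))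
 (nd (nd (nd (nd (nd (lf (nat_lit 58027)) (lf (nat_lit 69607))) (lf (nat_lit 70284))) (nd (nd (lf (nat_lit 67827)) (lf (nat_lit 67601))) (lf (nat_lit 70690))))
 (nd (nd (nd (lf (nat_lit 65810)) (lf (nat_lit 62393))) (lf (nat_lit 60368))) (nd (nd (lf (nat_lit 61706)) (lf (nat_lit 64612))) (lf (nat_lit 60769)))))
 (nd (nd (nd (nd (lf (nat_lit 79713)) (lf (nat_lit 63050))) (lf (nat_lit 68740))) (nd (nd (lf (nat_lit 72648)) (lf (nat_lit 61855))) (lf (nat_lit 65456))))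
 (nd (nd (nd (lf (nat_lit 55932)) (lf (nat_lit 68783))) (lf (nat_lit 64059))) (nd (nd (lf (nat_lit 60466)) (lf (nat_lit 69321))) (lf (nat_lit 66954)))))))
 (nd (nd (nd (nd (nd (nd (lf (nat_lit 44768)) (lf (nat_lit 65650))) (nd (lf (nat_lit 59729)) (lf (nat_lit 69016)))) (nd (nd (lf (nat_lit 56833)) (lf (nat_lit 67879))) (lf (nat_lit 62750))))
 (nd (nd (nd (lf (nat_lit 76263)) (lf (nat_lit 64192))) (lf (nat_lit 69849))) (nd (nd (lf (nat_lit 72779)) (lf (nat_lit 62473))) (lf (nat_lit 66822)))))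
 (nd (nd (nd (nd (lf (nat_lit 56654)) (lf (nat_lit 69903))) (lf (nat_lit 68805))) (nd (nd (lf (nat_lit 65438)) (lf (nat_lit 68446))) (lf (nat_lit 70162))))
 (nd (nd (nd (lf (nat_lit 68557)) (lf (nat_lit 61781))) (lf (nat_lit 61367))) (nd (nd (lf (nat_lit 63654)) (lf (nat_lit 63626))) (lf (nat_lit 60859))))))
 (nd (nd (nd (nd (nd (lf (nat_lit 84917)) (lf (nat_lit 62060))) (lf (nat_lit 67281))) (nd (nd (lf (nat_lit 71926)) (lf (nat_lit 61513))) (lf (nat_lit 64019))))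
 (nd (nd (nd (lf (nat_lit 55559)) (lf (nat_lit 69461))) (lf (nat_lit 65574))) (nd (nd (lf (nat_lit 61690)) (lf (nat_lit 69331))) (lf (nat_lit 68206)))))
 (nd (nd (nd (nd (lf (nat_lit 62130)) (lf (nat_lit 63285))) (lf (nat_lit 59717))) (nd (nd (lf (nat_lit 59836)) (lf (nat_lit 65706))) (lf (nat_lit 61060))))
 (nd (nd (nd (lf (nat_lit 70453)) (lf (nat_lit 66558))) (lf (nat_lit 70833))) (nd (nd (lf (nat_lit 71510)) (lf (nat_lit 64292))) (lf (nat_lit 68968)))))))))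
 (nd (nd (nd (nd (nd (nd (nd (nd (lf (nat_lit 123554)) (lf (nat_lit 62686))) (nd (lf (nat_lit 68667)) (lf (nat_lit 61900)))) (nd (nd (lf (nat_lit 73638)) (lf (nat_lit 61620))) (lf (nat_lit 65099))))
 (nd (nd (nd (lf (nat_lit 52961)) (lf (nat_lit 69094))) (lf (nat_lit 64322))) (nd (nd (lf (nat_lit 60186)) (lf (nat_lit 69468))) (lf (nat_lit 67338)))))
 (nd (nd (nd (nd (lf (nat_lit 64936)) (lf (nat_lit 62461))) (lf (nat_lit 59788))) (nd (nd (lf (nat_lit 60712)) (lf (nat_lit 64840))) (lf (nat_lit 60558))))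
 (nd (nd (nd (lf (nat_lit 68997)) (lf (nat_lit 67437))) (lf (nat_lit 71077))) (nd (nd (lf (nat_lit 71070)) (lf (nat_lit 65082))) (lf (nat_lit 69665))))))
 (nd (nd (nd (nd (nd (lf (nat_lit 47658)) (lf (nat_lit 70071))) (lf (nat_lit 67735))) (nd (nd (lf (nat_lit 63571)) (lf (nat_lit 69034))) (lf (nat_lit 69746))))
 (nd (nd (nd (lf (nat_lit 71290)) (lf (nat_lit 61377))) (lf (nat_lit 62104))) (nd (nd (lf (nat_lit 65079)) (lf (nat_lit 62913))) (lf (nat_lit 60969)))))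
 (nd (nd (nd (nd (lf (nat_lit 77001)) (lf (nat_lit 65094))) (lf (nat_lit 70770))) (nd (nd (lf (nat_lit 73331)) (lf (nat_lit 63020))) (lf (nat_lit 67870))))
 (nd (nd (nd (lf (nat_lit 56458)) (lf (nat_lit 67134))) (lf (nat_lit 61731))) (nd (nd (lf (nat_lit 58971)) (lf (nat_lit 68690))) (lf (nat_lit 64643)))))))
 (nd (nd (nd (nd (nd (nd (lf (nat_lit 56564)) (lf (nat_lit 63444))) (nd (lf (nat_lit 59150)) (lf (nat_lit 67932)))) (nd (nd (lf (nat_lit 58517)) (lf (nat_lit 65983))) (lf (nat_lit 60946))))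
 (nd (nd (nd (lf (nat_lit 72530)) (lf (nat_lit 66321))) (lf (nat_lit 71149))) (nd (nd (lf (nat_lit 72394)) (lf (nat_lit 64008))) (lf (nat_lit 68925)))))
 (nd (nd (nd (nd (lf (nat_lit 51252)) (lf (nat_lit 69738))) (lf (nat_lit 65977))) (nd (nd (lf (nat_lit 61613)) (lf (nat_lit 69409))) (lf (nat_lit 68630))))
 (nd (nd (nd (lf (nat_lit 72839)) (lf (nat_lit 61335))) (lf (nat_lit 63574))) (nd (nd (lf (nat_lit 67022)) (lf (nat_lit 62268))) (lf (nat_lit 61697))))))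
 (nd (nd (nd (nd (nd (lf (nat_lit 84138)) (lf (nat_lit 63850))) (lf (nat_lit 69934))) (nd (nd (lf (nat_lit 73775)) (lf (nat_lit 62200))) (lf (nat_lit 66566))))
 (nd (nd (nd (lf (nat_lit 54608)) (lf (nat_lit 68200))) (lf (nat_lit 62877))) (nd (nd (lf (nat_lit 59306)) (lf (nat_lit 69219))) (lf (nat_lit 65974)))))
 (nd (nd (nd (nd (lf (nat_lit 68825)) (lf (nat_lit 61758))) (lf (nat_lit 60805))) (nd (nd (lf (nat_lit 62938)) (lf (nat_lit 63790))) (lf (nat_lit 60573))))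
 (nd (nd (nd (lf (nat_lit 66035)) (lf (nat_lit 68363))) (lf (nat_lit 70589))) (nd (nd (lf (nat_lit 69475)) (lf (nat_lit 66158))) (lf (nat_lit 70051))))))))
 (nd (nd (nd (nd (nd (nd (nd (lf (nat_lit 92091)) (lf (nat_lit 60965))) (nd (lf (nat_lit 62457)) (lf (nat_lit 64402)))) (nd (nd (lf (nat_lit 66331)) (lf (nat_lit 62339))) (lf (nat_lit 60864))))
 (nd (nd (nd (lf (nat_lit 60882)) (lf (nat_lit 69546))) (lf (nat_lit 69646))) (nd (nd (lf (nat_lit 67045)) (lf (nat_lit 67746))) (lf (nat_lit 70346)))))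
 (nd (nd (nd (nd (lf (nat_lit 51097)) (lf (nat_lit 66604))) (lf (nat_lit 60664))) (nd (nd (lf (nat_lit 57451)) (lf (nat_lit 68488))) (lf (nat_lit 63828))))
 (nd (nd (nd (lf (nat_lit 75567)) (lf (nat_lit 63389))) (lf (nat_lit 68810))) (nd (nd (lf (nat_lit 72000)) (lf (nat_lit 62085))) (lf (nat_lit 65774))))))
 (nd (nd (nd (nd (nd (lf (nat_lit 69197)) (lf (nat_lit 68151))) (lf (nat_lit 71656))) (nd (nd (lf (nat_lit 71468)) (lf (nat_lit 65667))) (lf (nat_lit 70371))))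
 (nd (nd (nd (lf (nat_lit 60392)) (lf (nat_lit 64174))) (lf (nat_lit 59904))) (nd (nd (lf (nat_lit 59298)) (lf (nat_lit 66533))) (lf (nat_lit 61734)))))
 (nd (nd (nd (nd (lf (nat_lit 78918)) (lf (nat_lit 61620))) (lf (nat_lit 65942))) (nd (nd (lf (nat_lit 70241)) (lf (nat_lit 61594))) (lf (nat_lit 63072))))
 (nd (nd (nd (lf (nat_lit 57746)) (lf (nat_lit 69634))) (lf (nat_lit 66735))) (nd (nd (lf (nat_lit 63185)) (lf (nat_lit 69024))) (lf (nat_lit 68908)))))))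
 (nd (nd (nd (nd (nd (nd (lf (nat_lit 39418)) (lf (nat_lit 67820))) (nd (lf (nat_lit 61720)) (lf (nat_lit 69246)))) (nd (nd (lf (nat_lit 57288)) (lf (nat_lit 69196))) (lf (nat_lit 65226))))
 (nd (nd (nd (lf (nat_lit 77306)) (lf (nat_lit 62398))) (lf (nat_lit 67505))) (nd (nd (lf (nat_lit 71395)) (lf (nat_lit 61691))) (lf (nat_lit 64414)))))
 (nd (nd (nd (nd (lf (nat_lit 63947)) (lf (nat_lit 69001))) (lf (nat_lit 70817))) (nd (nd (lf (nat_lit 69243)) (lf (nat_lit 66774))) (lf (nat_lit 70556))))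
 (nd (nd (nd (lf (nat_lit 63620)) (lf (nat_lit 63144))) (lf (nat_lit 60190))) (nd (nd (lf (nat_lit 60773)) (lf (nat_lit 65447))) (lf (nat_lit 61168))))))
 (nd (nd (nd (nd (nd (lf (nat_lit 81056)) (lf (nat_lit 61126))) (lf (nat_lit 64221))) (nd (nd (lf (nat_lit 68545)) (lf (nat_lit 61812))) (lf (nat_lit 61855))))
 (nd (nd (nd (lf (nat_lit 58906)) (lf (nat_lit 69758))) (lf (nat_lit 68247))) (nd (nd (lf (nat_lit 64990)) (lf (nat_lit 68514))) (lf (nat_lit 69777)))))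
 (nd (nd (nd (nd (lf (nat_lit 56472)) (lf (nat_lit 65356))) (lf (nat_lit 60055))) (nd (nd (lf (nat_lit 58154)) (lf (nat_lit 67574))) (lf (nat_lit 62639))))
 (nd (nd (nd (lf (nat_lit 73607)) (lf (nat_lit 64509))) (lf (nat_lit 69782))) (nd (nd (lf (nat_lit 72073)) (lf (nat_lit 62736))) (lf (nat_lit 67050))))))))))
 (nd (nd (nd (nd (nd (nd (nd (nd (nd (lf (nat_lit 127973)) (lf (nat_lit 63669))) (nd (lf (nat_lit 69988)) (lf (nat_lit 61767)))) (nd (nd (lf (nat_lit 74470)) (lf (nat_lit 62060))) (lf (nat_lit 66425))))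
 (nd (nd (nd (lf (nat_lit 52668)) (lf (nat_lit 68368))) (lf (nat_lit 62947))) (nd (nd (lf (nat_lit 59037)) (lf (nat_lit 69322))) (lf (nat_lit 66148)))))
 (nd (nd (nd (nd (lf (nat_lit 69401)) (lf (nat_lit 61750))) (lf (nat_lit 60487))) (nd (nd (lf (nat_lit 62493)) (lf (nat_lit 63879))) (lf (nat_lit 60421))))
 (nd (nd (nd (lf (nat_lit 66434)) (lf (nat_lit 68316))) (lf (nat_lit 70825))) (nd (nd (lf (nat_lit 69869)) (lf (nat_lit 66042))) (lf (nat_lit 70127))))))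
 (nd (nd (nd (nd (nd (lf (nat_lit 43618)) (lf (nat_lit 69882))) (lf (nat_lit 66205))) (nd (nd (lf (nat_lit 61539)) (lf (nat_lit 69445))) (lf (nat_lit 68860))))
 (nd (nd (nd (lf (nat_lit 73623)) (lf (nat_lit 61244))) (lf (nat_lit 63328))) (nd (nd (lf (nat_lit 66875)) (lf (nat_lit 62281))) (lf (nat_lit 61504)))))
 (nd (nd (nd (nd (lf (nat_lit 74464)) (lf (nat_lit 66194))) (lf (nat_lit 71328))) (nd (nd (lf (nat_lit 72949)) (lf (nat_lit 63859))) (lf (nat_lit 68900))))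
 (nd (nd (nd (lf (nat_lit 57594)) (lf (nat_lit 66130))) (lf (nat_lit 60884))) (nd (nd (lf (nat_lit 58815)) (lf (nat_lit 68067))) (lf (nat_lit 63532)))))))
 (nd (nd (nd (nd (nd (nd (lf (nat_lit 64432)) (lf (nat_lit 62500))) (nd (lf (nat_lit 59453)) (lf (nat_lit 67145)))) (nd (nd (lf (nat_lit 60061)) (lf (nat_lit 64961))) (lf (nat_lit 60445))))
 (nd (nd (nd (lf (nat_lit 69900)) (lf (nat_lit 67348))) (lf (nat_lit 71292))) (nd (nd (lf (nat_lit 71546)) (lf (nat_lit 64946))) (lf (nat_lit 69694)))))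
 (nd (nd (nd (nd (lf (nat_lit 49734)) (lf (nat_lit 69256))) (lf (nat_lit 64469))) (nd (nd (lf (nat_lit 59993)) (lf (nat_lit 69541))) (lf (nat_lit 67545))))
 (nd (nd (nd (lf (nat_lit 74388)) (lf (nat_lit 61500))) (lf (nat_lit 64903))) (nd (nd (lf (nat_lit 68631)) (lf (nat_lit 61875))) (lf (nat_lit 62493))))))
 (nd (nd (nd (nd (nd (lf (nat_lit 81915)) (lf (nat_lit 64936))) (lf (nat_lit 70895))) (nd (nd (lf (nat_lit 73959)) (lf (nat_lit 62870))) (lf (nat_lit 67787))))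
 (nd (nd (nd (lf (nat_lit 55147)) (lf (nat_lit 67296))) (lf (nat_lit 61731))) (nd (nd (lf (nat_lit 58657)) (lf (nat_lit 68814))) (lf (nat_lit 64777)))))
 (nd (nd (nd (nd (lf (nat_lit 72056)) (lf (nat_lit 61325))) (lf (nat_lit 61817))) (nd (nd (lf (nat_lit 64798)) (lf (nat_lit 62964))) (lf (nat_lit 60790))))
 (nd (nd (nd (lf (nat_lit 63680)) (lf (nat_lit 69030))) (lf (nat_lit 69986))) (nd (nd (lf (nat_lit 68046)) (lf (nat_lit 67063))) (lf (nat_lit 70186))))))))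
 (nd (nd (nd (nd (nd (nd (nd (lf (nat_lit 101345)) (lf (nat_lit 60994))) (nd (lf (nat_lit 63952)) (lf (nat_lit 63550)))) (nd (nd (lf (nat_lit 68537)) (lf (nat_lit 61795))) (lf (nat_lit 61619))))
 (nd (nd (nd (lf (nat_lit 58122)) (lf (nat_lit 69831))) (lf (nat_lit 68515))) (nd (nd (lf (nat_lit 65201)) (lf (nat_lit 68481))) (lf (nat_lit 69965)))))
 (nd (nd (nd (nd (lf (nat_lit 53514)) (lf (nat_lit 65500))) (lf (nat_lit 59901))) (nd (nd (lf (nat_lit 57562)) (lf (nat_lit 67725))) (lf (nat_lit 62692))))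
 (nd (nd (nd (lf (nat_lit 74705)) (lf (nat_lit 64353))) (lf (nat_lit 69814))) (nd (nd (lf (nat_lit 72400)) (lf (nat_lit 62605))) (lf (nat_lit 66939))))))
 (nd (nd (nd (nd (nd (lf (nat_lit 63683)) (lf (nat_lit 68986))) (lf (nat_lit 71146))) (nd (nd (lf (nat_lit 69786)) (lf (nat_lit 66668))) (lf (nat_lit 70691))))
 (nd (nd (nd (lf (nat_lit 63006)) (lf (nat_lit 63212))) (lf (nat_lit 59963))) (nd (nd (lf (nat_lit 60338)) (lf (nat_lit 65574))) (lf (nat_lit 61115)))))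
 (nd (nd (nd (nd (lf (nat_lit 79754)) (lf (nat_lit 62232))) (lf (nat_lit 67397))) (nd (nd (lf (nat_lit 71630)) (lf (nat_lit 61602))) (lf (nat_lit 64222))))
 (nd (nd (nd (lf (nat_lit 56564)) (lf (nat_lit 69327))) (lf (nat_lit 65394))) (nd (nd (lf (nat_lit 61709)) (lf (nat_lit 69289))) (lf (nat_lit 68009)))))))
 (nd (nd (nd (nd (nd (nd (lf (nat_lit 41240)) (lf (nat_lit 66775))) (nd (lf (nat_lit 60572)) (lf (nat_lit 69246)))) (nd (nd (lf (nat_lit 56789)) (lf (nat_lit 68634))) (lf (nat_lit 63940))))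
 (nd (nd (nd (lf (nat_lit 77149)) (lf (nat_lit 63222))) (lf (nat_lit 68776))) (nd (nd (lf (nat_lit 72295)) (lf (nat_lit 61971))) (lf (nat_lit 65619)))))
 (nd (nd (nd (nd (lf (nat_lit 60174)) (lf (nat_lit 69577))) (lf (nat_lit 69950))) (nd (nd (lf (nat_lit 67404)) (lf (nat_lit 67676))) (lf (nat_lit 70514))))
 (nd (nd (nd (lf (nat_lit 66095)) (lf (nat_lit 62364))) (lf (nat_lit 60625))) (nd (nd (lf (nat_lit 62104)) (lf (nat_lit 64505))) (lf (nat_lit 60869))))))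
 (nd (nd (nd (nd (nd (lf (nat_lit 83513)) (lf (nat_lit 61466))) (lf (nat_lit 65755))) (nd (nd (lf (nat_lit 70380)) (lf (nat_lit 61539))) (lf (nat_lit 62852))))
 (nd (nd (nd (lf (nat_lit 56975)) (lf (nat_lit 69740))) (lf (nat_lit 66957))) (nd (nd (lf (nat_lit 63273)) (lf (nat_lit 69031))) (lf (nat_lit 69103)))))
 (nd (nd (nd (nd (lf (nat_lit 59077)) (lf (nat_lit 64282))) (lf (nat_lit 59705))) (nd (nd (lf (nat_lit 58783)) (lf (nat_lit 66676))) (lf (nat_lit 61732))))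
 (nd (nd (nd (lf (nat_lit 72245)) (lf (nat_lit 65532))) (lf (nat_lit 70460))) (nd (nd (lf (nat_lit 71993)) (lf (nat_lit 63449))) (lf (nat_lit 68088)))))))))
 (nd (nd (nd (nd (nd (nd (nd (nd (lf (nat_lit 117444)) (lf (nat_lit 61882))) (nd (lf (nat_lit 67157)) (lf (nat_lit 62258)))) (nd (nd (lf (nat_lit 72311)) (lf (nat_lit 61424))) (lf (nat_lit 63804))))
 (nd (nd (nd (lf (nat_lit 54026)) (lf (nat_lit 69598))) (lf (nat_lit 65768))) (nd (nd (lf (nat_lit 61660)) (lf (nat_lit 69370))) (lf (nat_lit 68413)))))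
 (nd (nd (nd (nd (lf (nat_lit 60635)) (lf (nat_lit 63362))) (lf (nat_lit 59448))) (nd (nd (lf (nat_lit 59242)) (lf (nat_lit 65842))) (lf (nat_lit 61004))))
 (nd (nd (nd (lf (nat_lit 71319)) (lf (nat_lit 66442))) (lf (nat_lit 70985))) (nd (nd (lf (nat_lit 71922)) (lf (nat_lit 64152))) (lf (nat_lit 68948))))))
 (nd (nd (nd (nd (nd (lf (nat_lit 52570)) (lf (nat_lit 69977))) (lf (nat_lit 69123))) (nd (nd (lf (nat_lit 65712)) (lf (nat_lit 68406))) (lf (nat_lit 70369))))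
 (nd (nd (nd (lf (nat_lit 68630)) (lf (nat_lit 61768))) (lf (nat_lit 61097))) (nd (nd (lf (nat_lit 63320)) (lf (nat_lit 63706))) (lf (nat_lit 60719)))))
 (nd (nd (nd (nd (lf (nat_lit 78782)) (lf (nat_lit 64024))) (lf (nat_lit 69889))) (nd (nd (lf (nat_lit 73228)) (lf (nat_lit 62338))) (lf (nat_lit 66698))))
 (nd (nd (nd (lf (nat_lit 55894)) (lf (nat_lit 68037))) (lf (nat_lit 62812))) (nd (nd (lf (nat_lit 59533)) (lf (nat_lit 69117))) (lf (nat_lit 65808)))))))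
 (nd (nd (nd (nd (nd (nd (lf (nat_lit 49929)) (lf (nat_lit 64517))) (nd (lf (nat_lit 59244)) (lf (nat_lit 68568)))) (nd (nd (lf (nat_lit 57420)) (lf (nat_lit 66976))) (lf (nat_lit 61731))))
 (nd (nd (nd (lf (nat_lit 74693)) (lf (nat_lit 65246))) (lf (nat_lit 70657))) (nd (nd (lf (nat_lit 72813)) (lf (nat_lit 63166))) (lf (nat_lit 67947)))))
 (nd (nd (nd (nd (lf (nat_lit 53613)) (lf (nat_lit 69958))) (lf (nat_lit 67453))) (nd (nd (lf (nat_lit 63467)) (lf (nat_lit 69036))) (lf (nat_lit 69521))))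
 (nd (nd (nd (lf (nat_lit 70854)) (lf (nat_lit 61430))) (lf (nat_lit 62371))) (nd (nd (lf (nat_lit 65328)) (lf (nat_lit 62865))) (lf (nat_lit 61141))))))
 (nd (nd (nd (nd (nd (lf (nat_lit 85144)) (lf (nat_lit 62871))) (lf (nat_lit 68704))) (nd (nd (lf (nat_lit 73082)) (lf (nat_lit 61739))) (lf (nat_lit 65283))))
 (nd (nd (nd (lf (nat_lit 54751)) (lf (nat_lit 68937))) (lf (nat_lit 64186))) (nd (nd (lf (nat_lit 60339)) (lf (nat_lit 69395))) (lf (nat_lit 67141)))))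
 (nd (nd (nd (nd (lf (nat_lit 65447)) (lf (nat_lit 62425))) (lf (nat_lit 60091))) (nd (nd (lf (nat_lit 61250)) (lf (nat_lit 64723))) (lf (nat_lit 60666))))
 (nd (nd (nd (lf (nat_lit 68340)) (lf (nat_lit 67521))) (lf (nat_lit 70877))) (nd (nd (lf (nat_lit 70654)) (lf (nat_lit 65214))) (lf (nat_lit 69637))))))))
 (nd (nd (nd (nd (nd (nd (nd (lf (nat_lit 82578)) (lf (nat_lit 61220))) (nd (lf (nat_lit 61158)) (lf (nat_lit 65324)))) (nd (nd (lf (nat_lit 64091)) (lf (nat_lit 63080))) (lf (nat_lit 60402))))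
 (nd (nd (nd (lf (nat_lit 63892)) (lf (nat_lit 69013))) (lf (nat_lit 70518))) (nd (nd (lf (nat_lit 68787)) (lf (nat_lit 66875))) (lf (nat_lit 70428)))))
 (nd (nd (nd (nd (lf (nat_lit 49628)) (lf (nat_lit 67639))) (lf (nat_lit 61726))) (nd (nd (lf (nat_lit 57843)) (lf (nat_lit 69066))) (lf (nat_lit 65067))))
 (nd (nd (nd (lf (nat_lit 75801)) (lf (nat_lit 62560))) (lf (nat_lit 67605))) (nd (nd (lf (nat_lit 71201)) (lf (nat_lit 61780))) (lf (nat_lit 64596))))))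
 (nd (nd (nd (nd (nd (lf (nat_lit 74251)) (lf (nat_lit 67155))) (lf (nat_lit 71785))) (nd (nd (lf (nat_lit 72772)) (lf (nat_lit 64659))) (lf (nat_lit 69751))))
 (nd (nd (nd (lf (nat_lit 58125)) (lf (nat_lit 65219))) (lf (nat_lit 60195))) (nd (nd (lf (nat_lit 58651)) (lf (nat_lit 67428))) (lf (nat_lit 62589)))))
 (nd (nd (nd (nd (lf (nat_lit 77273)) (lf (nat_lit 61253))) (lf (nat_lit 64467))) (nd (nd (lf (nat_lit 68567)) (lf (nat_lit 61831))) (lf (nat_lit 62079))))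
 (nd (nd (nd (lf (nat_lit 59400)) (lf (nat_lit 69686))) (lf (nat_lit 67998))) (nd (nd (lf (nat_lit 64800)) (lf (nat_lit 68543))) (lf (nat_lit 69597)))))))
 (nd (nd (nd (nd (nd (nd (lf (nat_lit 39287)) (lf (nat_lit 68722))) (nd (lf (nat_lit 63101)) (lf (nat_lit 69015)))) (nd (nd (lf (nat_lit 58294)) (lf (nat_lit 69529))) (lf (nat_lit 66527))))
 (nd (nd (nd (lf (nat_lit 76735)) (lf (nat_lit 61771))) (lf (nat_lit 66115))) (nd (nd (lf (nat_lit 70135)) (lf (nat_lit 61651))) (lf (nat_lit 63281)))))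
 (nd (nd (nd (nd (lf (nat_lit 67738)) (lf (nat_lit 68210))) (lf (nat_lit 71353))) (nd (nd (lf (nat_lit 70842)) (lf (nat_lit 65797))) (lf (nat_lit 70286))))
 (nd (nd (nd (lf (nat_lit 61286)) (lf (nat_lit 64071))) (lf (nat_lit 60088))) (nd (nd (lf (nat_lit 59744)) (lf (nat_lit 66393))) (lf (nat_lit 61738))))))
 (nd (nd (nd (nd (nd (lf (nat_lit 77728)) (lf (nat_lit 61060))) (lf (nat_lit 62774))) (nd (nd (lf (nat_lit 66534)) (lf (nat_lit 62316))) (lf (nat_lit 61089))))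
 (nd (nd (nd (lf (nat_lit 61227)) (lf (nat_lit 69514))) (lf (nat_lit 69365))) (nd (nd (lf (nat_lit 66733)) (lf (nat_lit 67813))) (lf (nat_lit 70185)))))
 (nd (nd (nd (nd (lf (nat_lit 54467)) (lf (nat_lit 66439))) (lf (nat_lit 60745))) (nd (nd (lf (nat_lit 57986)) (lf (nat_lit 68345))) (lf (nat_lit 63723))))
 (nd (nd (nd (lf (nat_lit 74459)) (lf (nat_lit 63550))) (lf (nat_lit 68842))) (nd (nd (lf (nat_lit 71747)) (lf (nat_lit 62198))) (lf (nat_lit 65921)))))))))))))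

end Pool.Agent.H79.OC
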