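import Pool.Agent.H79.OC.CDefs
import Pool.Agent.H79.DF.Stat

set_option autoImplicit false

/-!
# Soundness of the packed check of the form

`tab_eq`: induction on `m`; splitting a subset `S < 2^(m+1)` by its top bit: `vl l S = vl (qf m l) S` for `S < 2^m` and
`vl l (2^m + S) = vl (qf m l) S + vl (rf m l) S`. `packOK_sound`: digits of `P + 2^31 ones - Q` in base `2^32`, all top bits are set
(the bounds `sf p < 2^31`, `sf q ≤ 2^31` give that all digits are in `[0, 2^32)`); use bits `32 S + 31`; `top32 n` is a geometric sum.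
`form_nonneg`: `S = Nat.ofBits` of `b` on `i < n`, `n = ct.pts.length` (cf. `star_real` in DF/Star.lean); the monomials of `monos ct` with
their signs give `vl pos S - vl neg S = form ct b + big * (number of triangles in S)`, and there is no triangle.
-/

namespace Pool.Agent.H79.OC

open Finset
open Pool.Agent.H79.DF (bt)

/-- Value of a list of monomials at a subset. -/
def vl (l : List (ℕ × ℕ)) (S : ℕ) : ℕ := (l.map fun e => if e.1 &&& S = e.1 then e.2 else 0).sum

private theorem Valid_tab_nil (m : ℕ) : tab m [] = 0 := by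
  cases m <;> rfl

private theorem Valid_tab_succ (m : ℕ) (l : List (ℕ × ℕ)) :
    tab (m + 1) l = tab m (qf m l) + (tab m (qf m l) + tab m (rf m l)) * 2 ^ (32 * 2 ^ m) := by
  cases l with
  | nil =>
    have h1 : tab (m + 1) [] = 0 := Valid_tab_nil _
    have h2 : qf m [] = [] := rfl
    have h3 : rf m [] = [] := rfl
    rw [h1, h2, h3, Valid_tab_nil]
    simp
  | cons e l => rfl

private theorem Valid_sf (l : List (ℕ × ℕ)) : sf l = (l.map fun e => e.2).sum := by
  induction l with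
  | nil => rfl
  | cons e l ih =>
    have h : sf (e :: l) = e.2 + sf l := rfl
    rw [h, ih, List.map_cons, List.sum_cons]

private theorem Valid_vl_cons (e : ℕ × ℕ) (l : List (ℕ × ℕ)) (S : ℕ) :
    vl (e :: l) S = (if e.1 &&& S = e.1 then e.2 else 0) + vl l S := by
  simp only [vl, List.map_cons, List.sum_cons]

private theorem Valid_vl_le (l : List (ℕ × ℕ)) (S : ℕ) : vl l S ≤ sf l := by
  rw [Valid_sf]
  induction l with
  | nil => exact le_rfl
  | cons e l ih =>
    rw [Valid_vl_cons, List.map_cons, List.sum_cons]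
    refine Nat.add_le_add ?_ ih
    split_ifs
    · exact le_rfl
    · exact Nat.zero_le _

private theorem Valid_qf_cons (m : ℕ) (e : ℕ × ℕ) (l : List (ℕ × ℕ)) :
    qf m (e :: l) = if 2 ^ m ≤ e.1 then qf m l else e :: qf m l := by
  have h : qf m (e :: l) = Bool.rec (motive := fun _ => List (ℕ × ℕ)) (e :: qf m l) (qf m l)
      (Nat.ble (Nat.pow 2 m) e.1) := rfl
  have h2 : Nat.pow 2 m = 2 ^ m := rfl
  rw [h, h2]
  split_ifs with h1
  · rw [Nat.ble_eq_true_of_le h1]
  · have : Nat.ble (2 ^ m) e.1 = false := by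
      cases h3 : Nat.ble (2 ^ m) e.1
      · rfl
      · exact absurd (Nat.le_of_ble_eq_true h3) h1
    rw [this]

private theorem Valid_rf_cons (m : ℕ) (e : ℕ × ℕ) (l : List (ℕ × ℕ)) :
    rf m (e :: l) = if 2 ^ m ≤ e.1 then (e.1 - 2 ^ m, e.2) :: rf m l else rf m l := by
  have h : rf m (e :: l) = Bool.rec (motive := fun _ => List (ℕ × ℕ)) (rf m l)
      ((Nat.sub e.1 (Nat.pow 2 m), e.2) :: rf m l) (Nat.ble (Nat.pow 2 m) e.1) := rfl
  have h2 : Nat.pow 2 m = 2 ^ m := rfl
  rw [h, h2]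
  split_ifs with h1
  · rw [Nat.ble_eq_true_of_le h1]
    rfl
  · have : Nat.ble (2 ^ m) e.1 = false := by
      cases h3 : Nat.ble (2 ^ m) e.1
      · rfl
      · exact absurd (Nat.le_of_ble_eq_true h3) h1
    rw [this]

private theorem Valid_qf_lt (m : ℕ) (l : List (ℕ × ℕ)) : ∀ e ∈ qf m l, e.1 < 2 ^ m := by
  induction l with
  | nil =>
    intro e he
    exact absurd he (List.not_mem_nil)
  | cons a l ih =>
    intro e he
    rw [Valid_qf_cons] at he
    split_ifs at he with h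
    · exact ih e he
    · rcases List.mem_cons.1 he with rfl | h1
      · exact Nat.lt_of_not_le h
      · exact ih e h1

private theorem Valid_rf_lt (m : ℕ) (l : List (ℕ × ℕ)) (hl : ∀ e ∈ l, e.1 < 2 ^ (m + 1)) :
    ∀ e ∈ rf m l, e.1 < 2 ^ m := by
  induction l with
  | nil =>
    intro e he
    exact absurd he (List.not_mem_nil)
  | cons a l ih =>
    have hl' : ∀ e ∈ l, e.1 < 2 ^ (m + 1) := fun e he => hl e (List.mem_cons_of_mem _ he)
    intro e he
    rw [Valid_rf_cons] at he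
    split_ifs at he with h
    · rcases List.mem_cons.1 he with rfl | h1
      · have := hl a List.mem_cons_self
        rw [pow_succ] at this
        simp only
        omega
      · exact ih hl' e h1
    · exact ih hl' e he

private theorem Valid_and_add (m a S : ℕ) (ha : a < 2 ^ m) (hS : S < 2 ^ m) :
    (2 ^ m + a) &&& (2 ^ m + S) = 2 ^ m + (a &&& S) := by
  have h1 : (a &&& S) < 2 ^ m := lt_of_le_of_lt Nat.and_le_left ha
  refine Nat.eq_of_testBit_eq fun i => ?_
  rw [Nat.testBit_and]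
  rcases lt_trichotomy i m with h | h | h
  · rw [Nat.testBit_two_pow_add_gt h, Nat.testBit_two_pow_add_gt h, Nat.testBit_two_pow_add_gt h,
      Nat.testBit_and]
  · subst h
    rw [Nat.testBit_two_pow_add_eq, Nat.testBit_two_pow_add_eq, Nat.testBit_two_pow_add_eq,
      Nat.testBit_lt_two_pow ha, Nat.testBit_lt_two_pow hS, Nat.testBit_lt_two_pow h1]
    rfl
  · have h2 : 2 ^ (m + 1) ≤ 2 ^ i := Nat.pow_le_pow_right (by norm_num) h
    rw [pow_succ] at h2
    rw [Nat.testBit_lt_two_pow (show 2 ^ m + a < 2 ^ i by omega),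
      Nat.testBit_lt_two_pow (show 2 ^ m + (a &&& S) < 2 ^ i by omega)]
    rfl

private theorem Valid_and_lo (m a S : ℕ) (ha : a < 2 ^ m) :
    a &&& (2 ^ m + S) = a &&& S := by
  refine Nat.eq_of_testBit_eq fun i => ?_
  rw [Nat.testBit_and, Nat.testBit_and]
  rcases lt_or_ge i m with h | h
  · rw [Nat.testBit_two_pow_add_gt h]
  · have h2 : 2 ^ m ≤ 2 ^ i := Nat.pow_le_pow_right (by norm_num) h
    rw [Nat.testBit_lt_two_pow (show a < 2 ^ i by omega)]
    rfl

private theorem Valid_vl_lo (m : ℕ) (l : List (ℕ × ℕ)) (S : ℕ) (hS : S < 2 ^ m) :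
    vl l S = vl (qf m l) S := by
  induction l with
  | nil => rfl
  | cons e l ih =>
    rw [Valid_vl_cons, Valid_qf_cons, ih]
    split_ifs with h1 h2 h2
    · exfalso
      have : (e.1 &&& S) ≤ S := Nat.and_le_right
      omega
    · rw [Valid_vl_cons, if_pos h1]
    · rw [Nat.zero_add]
    · rw [Valid_vl_cons, if_neg h1]

private theorem Valid_vl_hi (m : ℕ) (l : List (ℕ × ℕ)) (hl : ∀ e ∈ l, e.1 < 2 ^ (m + 1)) (S : ℕ)
    (hS : S < 2 ^ m) : vl l (2 ^ m + S) = vl (qf m l) S + vl (rf m l) S := by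
  induction l with
  | nil => rfl
  | cons e l ih =>
    have hl' : ∀ e ∈ l, e.1 < 2 ^ (m + 1) := fun e he => hl e (List.mem_cons_of_mem _ he)
    have he := hl e List.mem_cons_self
    rw [pow_succ] at he
    rw [Valid_vl_cons, Valid_qf_cons, Valid_rf_cons, ih hl']
    by_cases h : 2 ^ m ≤ e.1
    · rw [if_pos h, if_pos h, Valid_vl_cons]
      obtain ⟨a, ha⟩ := Nat.exists_eq_add_of_le h
      have ha' : a < 2 ^ m := by omega
      have e2 : e.1 - 2 ^ m = a := by omega
      have e3 : (e.1 &&& (2 ^ m + S) = e.1) ↔ (a &&& S = a) := by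
        rw [ha, Valid_and_add m a S ha' hS]
        omega
      simp only [e2]
      by_cases h5 : a &&& S = a
      · rw [if_pos (e3.2 h5), if_pos h5]
        omega
      · rw [if_neg (fun hh => h5 (e3.1 hh)), if_neg h5]
        omega
    · rw [if_neg h, if_neg h, Valid_vl_cons, Valid_and_lo m e.1 S (Nat.lt_of_not_le h)]
      omega

theorem tab_eq (m : ℕ) (l : List (ℕ × ℕ)) (h : ∀ e ∈ l, e.1 < 2 ^ m) :
    tab m l = ∑ S ∈ range (2 ^ m), vl l S * 2 ^ (32 * S) := by
  induction m generalizing l with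
  | zero =>
    have h0 : tab 0 l = sf l := rfl
    rw [h0, pow_zero, sum_range_one, Nat.mul_zero, pow_zero, Nat.mul_one, Valid_sf]
    unfold vl
    congr 1
    refine List.map_congr_left fun e he => ?_
    have h1 : e.1 = 0 := by
      have := h e he
      omega
    rw [h1, Nat.and_self, if_pos rfl]
  | succ m ih =>
    rw [Valid_tab_succ, ih _ (Valid_qf_lt m l), ih _ (Valid_rf_lt m l h), pow_succ, Nat.mul_two,
      sum_range_add, ← sum_add_distrib, sum_mul]
    refine congrArg₂ _ (sum_congr rfl fun S hS => ?_) (sum_congr rfl fun S hS => ?_)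
    · rw [← Valid_vl_lo m l S (mem_range.1 hS)]
    · rw [Valid_vl_hi m l h S (mem_range.1 hS), Nat.mul_add 32, pow_add, ← Nat.add_mul,
        Nat.mul_assoc, Nat.mul_comm (2 ^ (32 * S))]

private theorem Valid_lt (x : ℕ → ℕ) (n : ℕ) (hx : ∀ l < n, x l < 2 ^ 32) :
    ∑ l ∈ range n, x l * 2 ^ (32 * l) < 2 ^ (32 * n) := by
  induction n with
  | zero =>
    rw [sum_range_zero]
    exact Nat.two_pow_pos _
  | succ n ih =>
    have h1 := ih fun l hl => hx l (Nat.lt_succ_of_lt hl)
    have h2 := hx n (Nat.lt_succ_self n)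
    rw [sum_range_succ, Nat.mul_add 32 n 1, pow_add, Nat.mul_one]
    have h3 : (x n + 1) * 2 ^ (32 * n) ≤ 2 ^ 32 * 2 ^ (32 * n) :=
      Nat.mul_le_mul_right _ h2
    rw [Nat.add_mul, Nat.one_mul] at h3
    rw [Nat.mul_comm (2 ^ (32 * n)) (2 ^ 32)]
    omega

private theorem Valid_dig (x : ℕ → ℕ) (n : ℕ) (hx : ∀ l < n, x l < 2 ^ 32) (l : ℕ) (hl : l < n) :
    (∑ l ∈ range n, x l * 2 ^ (32 * l)) / 2 ^ (32 * l) % 2 ^ 32 = x l := by
  induction n with
  | zero => exact absurd hl (Nat.not_lt_zero l)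
  | succ n ih =>
    have hx' : ∀ l < n, x l < 2 ^ 32 := fun l hl => hx l (Nat.lt_succ_of_lt hl)
    rw [sum_range_succ]
    rcases Nat.lt_succ_iff_lt_or_eq.1 hl with h | rfl
    · obtain ⟨c, rfl⟩ := Nat.exists_eq_add_of_lt h
      have e : x (l + c + 1) * 2 ^ (32 * (l + c + 1)) =
          (x (l + c + 1) * 2 ^ (32 * c) * 2 ^ 32) * 2 ^ (32 * l) := by
        rw [Nat.mul_assoc, Nat.mul_assoc, ← pow_add, ← pow_add]
        congr 2
        ring
      rw [e, Nat.add_mul_div_right _ _ (Nat.two_pow_pos _), Nat.add_mul_mod_self_right]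
      exact ih hx' h
    · rw [Nat.add_mul_div_right _ _ (Nat.two_pow_pos _), Nat.div_eq_of_lt (Valid_lt x l hx'),
        Nat.zero_add]
      exact Nat.mod_eq_of_lt (hx l hl)

private theorem Valid_bit (x : ℕ → ℕ) (n : ℕ) (hx : ∀ l < n, x l < 2 ^ 32) (l : ℕ) (hl : l < n) :
    (∑ l ∈ range n, x l * 2 ^ (32 * l)).testBit (32 * l + 31) = (x l).testBit 31 := by
  have hb := Valid_dig x n hx l hl
  have h1 : (x l).testBit 31 =
      ((∑ l ∈ range n, x l * 2 ^ (32 * l)) / 2 ^ (32 * l) % 2 ^ 32).testBit 31 := by rw [hb]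
  have h2 : decide (31 < 32) = true := rfl
  rw [h1, Nat.testBit_mod_two_pow, Nat.testBit_div_two_pow, Nat.add_comm 31, h2, Bool.true_and]

private theorem Valid_digits (N : ℕ) (x : ℕ → ℕ) (hx : ∀ l < N, x l < 2 ^ 32)
    (h : (∑ l ∈ range N, x l * 2 ^ (32 * l)) &&& (∑ l ∈ range N, 2 ^ 31 * 2 ^ (32 * l)) =
      ∑ l ∈ range N, 2 ^ 31 * 2 ^ (32 * l)) : ∀ l < N, 2 ^ 31 ≤ x l := by
  intro l hl
  have h39 : (2 : ℕ) ^ 31 < 2 ^ 32 := by norm_num
  have h1 : (∑ l ∈ range N, 2 ^ 31 * 2 ^ (32 * l)).testBit (32 * l + 31) = true := by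
    rw [Valid_bit (fun _ => 2 ^ 31) N (fun _ _ => h39) l hl]
    exact Nat.testBit_two_pow_self
  have h2 := Valid_bit x N hx l hl
  have h3 : ((∑ l ∈ range N, x l * 2 ^ (32 * l)) &&&
      (∑ l ∈ range N, 2 ^ 31 * 2 ^ (32 * l))).testBit (32 * l + 31) = true := by
    rw [h, h1]
  rw [Nat.testBit_and, Bool.and_eq_true] at h3
  exact Nat.ge_two_pow_of_testBit (h2 ▸ h3.1)

private theorem Valid_top (n : ℕ) : top32 n = ∑ l ∈ range (2 ^ n), 2 ^ 31 * 2 ^ (32 * l) := by
  have h2 : (2 : ℕ) ≤ 2 ^ 32 := by norm_num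
  have h : top32 n = 2147483648 * ((2 ^ (32 * 2 ^ n) - 1) / (2 ^ 32 - 1)) := rfl
  have h3 : (2147483648 : ℕ) = 2 ^ 31 := by norm_num
  rw [h, ← mul_sum, h3]
  congr 1
  rw [pow_mul, ← Nat.geomSum_eq h2]
  exact sum_congr rfl fun l _ => (pow_mul 2 32 l).symm

private theorem Valid_sub (N : ℕ) (f g : ℕ → ℕ) (hf : ∀ S < N, g S ≤ f S) :
    (∑ S ∈ range N, f S * 2 ^ (32 * S)) - ∑ S ∈ range N, g S * 2 ^ (32 * S) =
      ∑ S ∈ range N, (f S - g S) * 2 ^ (32 * S) := by
  rw [Nat.sub_eq_iff_eq_add (sum_le_sum fun S hS => Nat.mul_le_mul_right _ (hf S (mem_range.1 hS))),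
    ← sum_add_distrib]
  refine sum_congr rfl fun S hS => ?_
  rw [← Nat.add_mul, Nat.sub_add_cancel (hf S (mem_range.1 hS))]

private theorem Valid_and3 (a b c : Bool) :
    (Bool.rec (motive := fun _ => Bool) false
      (Bool.rec (motive := fun _ => Bool) false a b) c) = (c && (b && a)) := by
  cases c <;> cases b <;> rfl

theorem packOK_sound (n : ℕ) (p q : List (ℕ × ℕ)) (hp : ∀ e ∈ p, e.1 < 2 ^ n)
    (hq : ∀ e ∈ q, e.1 < 2 ^ n) (h : packOK n p q = true) : ∀ S < 2 ^ n, vl q S ≤ vl p S := by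
  have h0 : packOK n p q = (Nat.ble (Nat.succ (sf p)) 2147483648 &&
      (Nat.ble (sf q) 2147483648 &&
        Nat.beq (Nat.land (Nat.sub (Nat.add (tab n p) (top32 n)) (tab n q)) (top32 n))
          (top32 n))) := Valid_and3 _ _ _
  rw [h0, Bool.and_eq_true, Bool.and_eq_true] at h
  obtain ⟨h1, h2, h3⟩ := h
  have h1' : sf p < 2147483648 := Nat.le_of_ble_eq_true h1
  have h2' : sf q ≤ 2147483648 := Nat.le_of_ble_eq_true h2
  have h3' : (tab n p + top32 n - tab n q) &&& top32 n = top32 n := Nat.eq_of_beq_eq_true h3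
  rw [Valid_top, tab_eq n p hp, tab_eq n q hq, ← sum_add_distrib] at h3'
  have e1 : ∑ S ∈ range (2 ^ n), (vl p S * 2 ^ (32 * S) + 2 ^ 31 * 2 ^ (32 * S)) =
      ∑ S ∈ range (2 ^ n), (vl p S + 2 ^ 31) * 2 ^ (32 * S) :=
    sum_congr rfl fun S _ => (Nat.add_mul _ _ _).symm
  have e31 : (2 : ℕ) ^ 31 = 2147483648 := by norm_num
  have hle : ∀ S < 2 ^ n, vl q S ≤ vl p S + 2 ^ 31 := by
    intro S _
    have := Valid_vl_le q S
    omega
  rw [e1, Valid_sub (2 ^ n) (fun S => vl p S + 2 ^ 31) (fun S => vl q S) hle] at h3'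
  have h4 := Valid_digits (2 ^ n) (fun S => vl p S + 2 ^ 31 - vl q S) (fun S _ => by
    have := Valid_vl_le p S
    have e32 : (2 : ℕ) ^ 32 = 4294967296 := by norm_num
    omega) h3'
  intro S hS
  have h5 := h4 S hS
  have h6 := hle S hS
  omega

/-- The form. -/
noncomputable def form (ct : Cert) (b : ℕ → Bool) : ℝ :=
  (ct.g : ℝ) - (ct.al.map fun e => (e.2 : ℝ) * bt (b e.1)).sum -
    (ct.be.map fun e => (e.2.2 : ℝ) * (bt (b e.1) * bt (b e.2.1))).sum -
    (ct.ta.map fun e => (e.2.2 : ℝ) * (bt (b e.1.1) * bt (b e.1.2.1) * bt (b e.1.2.2) -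
      bt (b e.2.1.1) * bt (b e.2.1.2.1) * bt (b e.2.1.2.2))).sum

private theorem Valid_neg {α : Type} (l : List α) (g : α → ℝ) :
    -(l.map g).sum = (l.map fun e => -g e).sum := by
  induction l with
  | nil => simp
  | cons e l ih =>
    simp only [List.map_cons, List.sum_cons, ← ih]
    ring

/-- Value with signs. -/
private noncomputable def Valid_vz (l : List (ℕ × ℤ)) (S : ℕ) : ℝ :=
  (l.map fun e => if e.1 &&& S = e.1 then (e.2 : ℝ) else 0).sum

private theorem Valid_toNat (a : ℤ) : ((a.toNat : ℕ) : ℝ) - (((-a).toNat : ℕ) : ℝ) = (a : ℝ) := by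
  have h : ((a.toNat : ℕ) : ℤ) - (((-a).toNat : ℕ) : ℤ) = a := by omega
  exact_mod_cast h

private theorem Valid_split (l : List (ℕ × ℤ)) (S : ℕ) :
    (vl (posL l) S : ℝ) - (vl (negL l) S : ℝ) = Valid_vz l S := by
  induction l with
  | nil => simp [vl, posL, negL, Valid_vz]
  | cons e l ih =>
    have h1 : posL (e :: l) = (e.1, e.2.toNat) :: posL l := rfl
    have h2 : negL (e :: l) = (e.1, (-e.2).toNat) :: negL l := rfl
    have h3 : Valid_vz (e :: l) S = (if e.1 &&& S = e.1 then (e.2 : ℝ) else 0) + Valid_vz l S := by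
      simp only [Valid_vz, List.map_cons, List.sum_cons]
    rw [h1, h2, h3, Valid_vl_cons, Valid_vl_cons, ← ih]
    have h4 := Valid_toNat e.2
    split_ifs
    · push_cast
      linarith
    · push_cast
      ring

private theorem Valid_pow_and (S i : ℕ) : (2 ^ i &&& S = 2 ^ i) ↔ S.testBit i = true := by
  constructor
  · intro h
    have h1 : (2 ^ i &&& S).testBit i = true := by
      rw [h]
      exact Nat.testBit_two_pow_self
    rw [Nat.testBit_and, Bool.and_eq_true] at h1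
    exact h1.2
  · intro h
    refine Nat.eq_of_testBit_eq fun j => ?_
    rw [Nat.testBit_and]
    by_cases hj : i = j
    · subst hj
      rw [h, Bool.and_true]
    · rw [Nat.testBit_two_pow_of_ne hj]
      rfl

private theorem Valid_or_and (a c S : ℕ) :
    ((a ||| c) &&& S = a ||| c) ↔ (a &&& S = a ∧ c &&& S = c) := by
  constructor
  · intro h
    constructor
    · refine Nat.eq_of_testBit_eq fun j => ?_
      have h1 := congrArg (fun t => Nat.testBit t j) h
      simp only [Nat.testBit_and, Nat.testBit_or] at h1 ⊢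
      revert h1
      cases a.testBit j <;> cases c.testBit j <;> cases S.testBit j <;> decide
    · refine Nat.eq_of_testBit_eq fun j => ?_
      have h1 := congrArg (fun t => Nat.testBit t j) h
      simp only [Nat.testBit_and, Nat.testBit_or] at h1 ⊢
      revert h1
      cases a.testBit j <;> cases c.testBit j <;> cases S.testBit j <;> decide
  · rintro ⟨h1, h2⟩
    refine Nat.eq_of_testBit_eq fun j => ?_
    have h3 := congrArg (fun t => Nat.testBit t j) h1
    have h4 := congrArg (fun t => Nat.testBit t j) h2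
    simp only [Nat.testBit_and, Nat.testBit_or] at h3 h4 ⊢
    revert h3 h4
    cases a.testBit j <;> cases c.testBit j <;> cases S.testBit j <;> decide

private theorem Valid_pow_lt (n i : ℕ) (h : 2 ^ i < 2 ^ n) : i < n :=
  (Nat.pow_lt_pow_iff_right (by norm_num)).1 h

theorem form_nonneg (ct : Cert) (h : validC ct = true) (b : ℕ → Bool)
    (hb : ∀ t ∈ ct.tr, ¬(b t.1 = true ∧ b t.2.1 = true ∧ b t.2.2 = true)) : 0 ≤ form ct b := by
  unfold validC at h
  rw [Bool.and_eq_true, Bool.and_eq_true, Bool.and_eq_true] at h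
  obtain ⟨-, -, h1, h2⟩ := h
  set n : ℕ := ct.pts.length with hn
  have hm : ∀ e ∈ monos ct, e.1 < 2 ^ n := by
    intro e he
    rw [List.all_eq_true] at h1
    exact of_decide_eq_true (h1 e he)
  have hp : ∀ e ∈ posL (monos ct), e.1 < 2 ^ n := by
    intro e he
    obtain ⟨a, ha, rfl⟩ := List.mem_map.1 he
    exact hm a ha
  have hq : ∀ e ∈ negL (monos ct), e.1 < 2 ^ n := by
    intro e he
    obtain ⟨a, ha, rfl⟩ := List.mem_map.1 he
    exact hm a ha
  set S : ℕ := Nat.ofBits (fun i : Fin n => b i) with hS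
  have hb1 : ∀ i, i < n → S.testBit i = b i := fun i hi => Nat.testBit_ofBits_lt _ i hi
  have hS2 : S < 2 ^ n := Nat.ofBits_lt_two_pow (fun i : Fin n => b i)
  have h3 := packOK_sound n _ _ hp hq h2 S hS2
  have h4 : 0 ≤ Valid_vz (monos ct) S := by
    rw [← Valid_split]
    have : (vl (negL (monos ct)) S : ℝ) ≤ (vl (posL (monos ct)) S : ℝ) := by exact_mod_cast h3
    linarith
  -- the indicator of masks
  have k1 : ∀ i, 2 ^ i < 2 ^ n → ((2 ^ i &&& S = 2 ^ i) ↔ b i = true) := by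
    intro i hi
    rw [Valid_pow_and, hb1 i (Valid_pow_lt n i hi)]
  have kor : ∀ a c : ℕ, (a ||| c) < 2 ^ n → a < 2 ^ n ∧ c < 2 ^ n := by
    intro a c hac
    exact ⟨lt_of_le_of_lt Nat.left_le_or hac, lt_of_le_of_lt Nat.right_le_or hac⟩
  have k2 : ∀ i j, (2 ^ i ||| 2 ^ j) < 2 ^ n →
      (((2 ^ i ||| 2 ^ j) &&& S = 2 ^ i ||| 2 ^ j) ↔ (b i = true ∧ b j = true)) := by
    intro i j hij
    obtain ⟨hi, hj⟩ := kor _ _ hij
    rw [Valid_or_and, k1 i hi, k1 j hj]
  have k3 : ∀ t : ℕ × ℕ × ℕ, mk3 t < 2 ^ n →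
      ((mk3 t &&& S = mk3 t) ↔ ((b t.1 = true ∧ b t.2.1 = true) ∧ b t.2.2 = true)) := by
    intro t ht
    unfold mk3 at ht ⊢
    obtain ⟨hi, hj⟩ := kor _ _ ht
    rw [Valid_or_and, k2 _ _ hi, k1 _ hj]
  have hmem1 : ∀ e ∈ ct.al, 2 ^ e.1 < 2 ^ n := by
    intro e he
    refine hm (2 ^ e.1, -e.2) ?_
    unfold monos
    refine List.mem_cons_of_mem _ (List.mem_append_left _ (List.mem_map.2 ⟨e, he, rfl⟩))
  have hmem2 : ∀ e ∈ ct.be, (2 ^ e.1 ||| 2 ^ e.2.1) < 2 ^ n := by
    intro e he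
    refine hm (2 ^ e.1 ||| 2 ^ e.2.1, -e.2.2) ?_
    unfold monos
    refine List.mem_cons_of_mem _ (List.mem_append_right _ (List.mem_append_left _
      (List.mem_map.2 ⟨e, he, rfl⟩)))
  have hmem3 : ∀ e ∈ ct.ta, mk3 e.1 < 2 ^ n := by
    intro e he
    refine hm (mk3 e.1, -e.2.2) ?_
    unfold monos
    refine List.mem_cons_of_mem _ (List.mem_append_right _ (List.mem_append_right _
      (List.mem_append_left _ (List.mem_map.2 ⟨e, he, rfl⟩))))
  have hmem4 : ∀ e ∈ ct.ta, mk3 e.2.1 < 2 ^ n := by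
    intro e he
    refine hm (mk3 e.2.1, e.2.2) ?_
    unfold monos
    refine List.mem_cons_of_mem _ (List.mem_append_right _ (List.mem_append_right _
      (List.mem_append_right _ (List.mem_append_left _ (List.mem_map.2 ⟨e, he, rfl⟩)))))
  have hmem5 : ∀ e ∈ ct.tr, mk3 e < 2 ^ n := by
    intro e he
    refine hm (mk3 e, (ct.big : ℤ)) ?_
    unfold monos
    refine List.mem_cons_of_mem _ (List.mem_append_right _ (List.mem_append_right _
      (List.mem_append_right _ (List.mem_append_right _ (List.mem_map.2 ⟨e, he, rfl⟩)))))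
  have happ : ∀ l l' : List (ℕ × ℤ), Valid_vz (l ++ l') S = Valid_vz l S + Valid_vz l' S := by
    intro l l'
    simp only [Valid_vz, List.map_append, List.sum_append]
  have hcons : Valid_vz (monos ct) S = (ct.g : ℝ) + Valid_vz ((monos ct).tail) S := by
    unfold monos
    simp only [Valid_vz, List.map_cons, List.sum_cons, List.tail_cons, Nat.zero_and, if_true]
  have f1 : Valid_vz (ct.al.map fun e => (2 ^ e.1, -e.2)) S =
      -(ct.al.map fun e => (e.2 : ℝ) * bt (b e.1)).sum := by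
    unfold Valid_vz
    rw [List.map_map, Valid_neg]
    congr 1
    refine List.map_congr_left fun e he => ?_
    simp only [Function.comp]
    have := k1 e.1 (hmem1 e he)
    by_cases hbe : b e.1 = true
    · rw [if_pos (this.2 hbe), hbe]
      simp [bt]
    · rw [if_neg (fun hh => hbe (this.1 hh))]
      rw [Bool.not_eq_true] at hbe
      rw [hbe]
      simp [bt]
  have f2 : Valid_vz (ct.be.map fun e => (2 ^ e.1 ||| 2 ^ e.2.1, -e.2.2)) S =
      -(ct.be.map fun e => (e.2.2 : ℝ) * (bt (b e.1) * bt (b e.2.1))).sum := by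
    unfold Valid_vz
    rw [List.map_map, Valid_neg]
    congr 1
    refine List.map_congr_left fun e he => ?_
    simp only [Function.comp]
    have := k2 e.1 e.2.1 (hmem2 e he)
    by_cases hbe : b e.1 = true ∧ b e.2.1 = true
    · rw [if_pos (this.2 hbe), hbe.1, hbe.2]
      simp [bt]
    · rw [if_neg (fun hh => hbe (this.1 hh))]
      revert hbe
      cases b e.1 <;> cases b e.2.1 <;> simp [bt]
  have f3 : Valid_vz (ct.ta.map fun e => (mk3 e.1, -e.2.2)) S =
      -(ct.ta.map fun e => (e.2.2 : ℝ) * (bt (b e.1.1) * bt (b e.1.2.1) * bt (b e.1.2.2))).sum := by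
    unfold Valid_vz
    rw [List.map_map, Valid_neg]
    congr 1
    refine List.map_congr_left fun e he => ?_
    simp only [Function.comp]
    have := k3 e.1 (hmem3 e he)
    by_cases hbe : (b e.1.1 = true ∧ b e.1.2.1 = true) ∧ b e.1.2.2 = true
    · rw [if_pos (this.2 hbe), hbe.1.1, hbe.1.2, hbe.2]
      simp [bt]
    · rw [if_neg (fun hh => hbe (this.1 hh))]
      revert hbe
      cases b e.1.1 <;> cases b e.1.2.1 <;> cases b e.1.2.2 <;> simp [bt]
  have f4 : Valid_vz (ct.ta.map fun e => (mk3 e.2.1, e.2.2)) S =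
      (ct.ta.map fun e => (e.2.2 : ℝ) *
        (bt (b e.2.1.1) * bt (b e.2.1.2.1) * bt (b e.2.1.2.2))).sum := by
    unfold Valid_vz
    rw [List.map_map]
    congr 1
    refine List.map_congr_left fun e he => ?_
    simp only [Function.comp]
    have := k3 e.2.1 (hmem4 e he)
    by_cases hbe : (b e.2.1.1 = true ∧ b e.2.1.2.1 = true) ∧ b e.2.1.2.2 = true
    · rw [if_pos (this.2 hbe), hbe.1.1, hbe.1.2, hbe.2]
      simp [bt]
    · rw [if_neg (fun hh => hbe (this.1 hh))]
      revert hbe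
      cases b e.2.1.1 <;> cases b e.2.1.2.1 <;> cases b e.2.1.2.2 <;> simp [bt]
  have f5 : Valid_vz (ct.tr.map fun e => (mk3 e, (ct.big : ℤ))) S = 0 := by
    unfold Valid_vz
    rw [List.map_map]
    refine List.sum_eq_zero fun x hx => ?_
    obtain ⟨e, he, rfl⟩ := List.mem_map.1 hx
    simp only [Function.comp]
    rw [if_neg]
    intro hh
    have h5 := (k3 e (hmem5 e he)).1 hh
    exact hb e he ⟨h5.1.1, h5.1.2, h5.2⟩
  have f6 : (ct.ta.map fun e => (e.2.2 : ℝ) * (bt (b e.1.1) * bt (b e.1.2.1) * bt (b e.1.2.2) -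
      bt (b e.2.1.1) * bt (b e.2.1.2.1) * bt (b e.2.1.2.2))).sum =
      (ct.ta.map fun e => (e.2.2 : ℝ) * (bt (b e.1.1) * bt (b e.1.2.1) * bt (b e.1.2.2))).sum -
      (ct.ta.map fun e => (e.2.2 : ℝ) *
        (bt (b e.2.1.1) * bt (b e.2.1.2.1) * bt (b e.2.1.2.2))).sum := by
    generalize ct.ta = l
    induction l with
    | nil => simp
    | cons e l ih =>
      simp only [List.map_cons, List.sum_cons, ih]
      ring
  have f7 : (monos ct).tail = (ct.al.map fun e => (2 ^ e.1, -e.2)) ++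
    ((ct.be.map fun e => (2 ^ e.1 ||| 2 ^ e.2.1, -e.2.2)) ++
    ((ct.ta.map fun e => (mk3 e.1, -e.2.2)) ++
    ((ct.ta.map fun e => (mk3 e.2.1, e.2.2)) ++
    (ct.tr.map fun e => (mk3 e, (ct.big : ℤ)))))) := rfl
  have f8 := (congrArg (fun l => Valid_vz l S) f7).trans ((happ _ _).trans (congrArg₂ (· + ·) f1
    ((happ _ _).trans (congrArg₂ (· + ·) f2 ((happ _ _).trans (congrArg₂ (· + ·) f3
      ((happ _ _).trans (congrArg₂ (· + ·) f4 f5))))))))
  have f9 := h4.trans_eq (hcons.trans (congrArg (fun t => (ct.g : ℝ) + t) f8))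
  unfold form
  rw [f6]
  linarith

end Pool.Agent.H79.OC
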